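import Pool.Agent.BilEnt.Defs

/-!
# MP_bd32bb_an, application of part S, module A00: the output for part P (helper75)
-/

open MeasureTheory Real
open scoped ENNReal

namespace BilEnt

/-- (P0): a set of positive measure of uniformly good states with invariant expanding and contracting
directions, in the `(u, A)` frame. -/
structure P0 (h : ℝ → ℝ) (lam K : ℝ) (A : Set (ℝ × ℝ)) (v w : ℝ × ℝ → ℝ × ℝ) : Prop where
  lam_pos : 0 < lam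
  one_le_K : 1 ≤ K
  meas : MeasurableSet A
  sub : A ⊆ X0 h
  pos : 0 < mu h A
  mv : Measurable v
  mw : Measurable w
  nv : ∀ z, (v z).1 ^ 2 + (v z).2 ^ 2 = 1
  nw : ∀ z, (w z).1 ^ 2 + (w z).2 ^ 2 = 1
  stt_ge : ∀ z ∈ A, 1 / K ≤ stt h z
  wdg : ∀ z ∈ A, 1 / K ≤ |(v z).1 * (w z).2 - (v z).2 * (w z).1|
  ex : ∀ z ∈ A, ∀ l : ℕ, (Tm h)^[l] z ∈ A →
    ∃ c : ℝ, K⁻¹ * exp (lam * l) ≤ |c| ∧ DFn h z l (v z) = c • v ((Tm h)^[l] z)
  co : ∀ z ∈ A, ∀ l : ℕ, (Tm h)^[l] z ∈ A →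
    ∃ c : ℝ, |c| ≤ K * exp (-(lam * l)) ∧ DFn h z l (w z) = c • w ((Tm h)^[l] z)

end BilEnt
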