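import Pool.Agent.BilEnt.S12

/-!
# Part S, module S12b: the angle between the two limit directions
-/

open MeasureTheory Real Filter Topology Matrix
open scoped ENNReal

namespace BilEnt

noncomputable section

/-- the algebra of `s_angle` -/
private theorem s_angle_alg {v0 v1 w0 w1 F2 η E a b c d q0 q1 q2 q3 : ℝ} (hF2 : 0 < F2)
    (hv : v0 ^ 2 + v1 ^ 2 = 1) (hw : w0 ^ 2 + w1 ^ 2 = 1)
    (h00 : w0 * w0 = q0) (h01 : w0 * w1 = q1) (h10 : w1 * w0 = q2) (h11 : w1 * w1 = q3)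
    (e00 : |q0 - (1 - (a * a + c * c) / F2)| ≤ η) (e01 : |q1 - (0 - (a * b + c * d) / F2)| ≤ η)
    (e10 : |q2 - (0 - (b * a + d * c) / F2)| ≤ η) (e11 : |q3 - (1 - (b * b + d * d) / F2)| ≤ η)
    (hg : F2 * (E - 2 * η) ≤ (a * v0 + b * v1) ^ 2 + (c * v0 + d * v1) ^ 2) :
    E - 4 * η ≤ (v0 * w1 - v1 * w0) ^ 2 := by
  have h1 : (v0 * w1 - v1 * w0) ^ 2 = 1 - (v0 * v0 * (w0 * w0) + v0 * v1 * (w0 * w1)
      + v0 * v1 * (w1 * w0) + v1 * v1 * (w1 * w1)) := by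
    have : (1 : ℝ) = (v0 ^ 2 + v1 ^ 2) * (w0 ^ 2 + w1 ^ 2) := by rw [hv, hw]; norm_num
    rw [this]; ring
  rw [h1, h00, h01, h10, h11]
  have hη : 0 ≤ η := le_trans (abs_nonneg _) e00
  have hmul : ∀ x y : ℝ, |y| ≤ η → x * y ≤ |x| * η := fun x y hy =>
    le_trans (le_abs_self _) (by rw [abs_mul]; exact mul_le_mul_of_nonneg_left hy (abs_nonneg _))
  have k00 := hmul (v0 * v0) _ e00
  have k01 := hmul (v0 * v1) _ e01
  have k10 := hmul (v0 * v1) _ e10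
  have k11 := hmul (v1 * v1) _ e11
  have hab : |v0 * v1| ≤ 1 / 2 := by
    rw [abs_le]; constructor <;> nlinarith [sq_nonneg (v0 - v1), sq_nonneg (v0 + v1)]
  have ha : |v0 * v0| = v0 * v0 := abs_of_nonneg (mul_self_nonneg _)
  have hb : |v1 * v1| = v1 * v1 := abs_of_nonneg (mul_self_nonneg _)
  rw [ha] at k00
  rw [hb] at k11
  have hab2 : |v0 * v1| * η ≤ 1 / 2 * η := mul_le_mul_of_nonneg_right hab hη
  have hg2 : E - 2 * η ≤ ((a * v0 + b * v1) ^ 2 + (c * v0 + d * v1) ^ 2) / F2 := by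
    rw [le_div_iff₀ hF2]; linarith
  have hid : ((a * v0 + b * v1) ^ 2 + (c * v0 + d * v1) ^ 2) / F2
      = v0 * v0 * ((a * a + c * c) / F2) + v0 * v1 * ((a * b + c * d) / F2)
        + v0 * v1 * ((b * a + d * c) / F2) + v1 * v1 * ((b * b + d * d) / F2) := by
    field_simp
    ring
  rw [hid] at hg2
  have hsum : v0 * v0 * η + v1 * v1 * η = η := by
    have : v0 * v0 * η + v1 * v1 * η = (v0 ^ 2 + v1 ^ 2) * η := by ring
    rw [this, hv, one_mul]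
  have hone : v0 * v0 + v1 * v1 = 1 := by linarith [hv, sq v0, sq v1]
  linarith

/-- ANGLE.  PROOF.  `v = vd (PL T Ti M y)`, `w = vd (PL Ti T (Minv Ti M) y)` are unit vectors, so
`(v ∧ w)² = 1 - (v · w)² = 1 - vᵀ Q v`, `Q = w wᵀ = PL Ti T (Minv Ti M) y`.  Fix `l = k0` from
`s_choose_k0`.  By `s_PL_rate` for the inverse cocycle (`GP.symm`), `|Q - Q_l| ≤ η_l` entrywise, where
`Q_l = Pm (ac Ti (Minv Ti M) l (T^[l] y)) = Pm ((ac T M l y)⁻¹) = 1 - Rᵀ R / fn R²` (`s_ac_inv`, `s_iter_li`,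
`s_Pm_inv`), `R = ac T M l y`.  So `(v ∧ w)² ≥ |R v|² / fn R² - 2 η_l ≥ exp (-2 Dn l y) - 4 η_l
≥ exp (-2 (√l + K)) / 2` (`s_growth_aux` with `k = l`; `∑ |v_i v_j| ≤ 2`). -/
theorem s_angle {lam K : ℝ} (hlam : 0 < lam) :
    ∃ c : ℝ, 0 < c ∧ ∀ {Y : Type*} {T Ti : Y → Y} {M : Y → Matrix (Fin 2) (Fin 2) ℝ}
      (_ : ∀ y, Ti (T y) = y) (_ : ∀ y, T (Ti y) = y) (_ : ∀ y, (M y).det = 1) {y : Y}
      (_ : GP T Ti M lam K y),
      c ≤ |vd (PL T Ti M y) 0 * vd (PL Ti T (Minv Ti M) y) 1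
        - vd (PL T Ti M y) 1 * vd (PL Ti T (Minv Ti M) y) 0| := by
  obtain ⟨l, hl⟩ := s_choose_k0 (K := K) hlam
  refine ⟨exp (-(√(l : ℝ) + K)) / 2, by positivity, ?_⟩
  intro Y T Ti M hli hri hdet y h
  have h8 := hl l le_rfl
  have hinv := GP.symm hli hri hdet h
  have hdi : ∀ y, (Minv Ti M y).det = 1 := fun y => s_det_Minv hdet y
  have hQp := s_PL_isPr (T := Ti) (Ti := T) (M := Minv Ti M) hli hdi hlam hinv
  have hv := s_vd_unit (PL T Ti M y)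
  have hw := s_vd_unit (PL Ti T (Minv Ti M) y)
  have hww := s_vd_proj hQp
  have hrate := fun i j => s_PL_rate (T := Ti) (Ti := T) (M := Minv Ti M) hli hdi hlam hinv i j l
  have hac : ac Ti (Minv Ti M) l (T^[l] y) = (ac T M l y)⁻¹ := by
    rw [s_ac_inv hri, s_iter_li hli]
  have hRdet := s_det_ac (T := T) hdet l y
  have hgr := s_growth_aux hri hdet hlam h (le_refl l)
  have hD := h.d l
  rw [hac] at hrate
  have hPi := fun i j => s_Pm_inv hRdet i j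
  have hRpos := s_fn_pos hRdet
  set R := ac T M l y with hRdef
  set v := vd (PL T Ti M y) with hvdef
  set w := vd (PL Ti T (Minv Ti M) y) with hwdef
  set Q := PL Ti T (Minv Ti M) y with hQdef
  set η := cK lam K * exp (-(7 / 4 * lam * ((l : ℝ) + 1))) with hηdef
  set F := fn R with hFdef
  have hF2 : 0 < F ^ 2 := by positivity
  have q00 := hrate 0 0
  have q01 := hrate 0 1
  have q10 := hrate 1 0
  have q11 := hrate 1 1
  rw [hPi] at q00 q01 q10 q11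
  simp only [Matrix.mul_apply, Matrix.transpose_apply, Fin.sum_univ_two, Matrix.one_apply_eq] at q00 q11
  simp only [Matrix.mul_apply, Matrix.transpose_apply, Fin.sum_univ_two] at q01 q10
  rw [Matrix.one_apply_ne (by decide)] at q01 q10
  simp only [Matrix.mulVec, dotProduct, Fin.sum_univ_two] at hgr
  have key := s_angle_alg hF2 hv hw (hww 0 0) (hww 0 1) (hww 1 0) (hww 1 1) q00 q01 q10 q11 hgr
  have hexp : exp (-(2 * (√(l : ℝ) + K))) ≤ exp (-(2 * Dn T Ti M l y)) :=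
    Real.exp_le_exp.mpr (by linarith)
  have hsq : (exp (-(√(l : ℝ) + K)) / 2) ^ 2 = exp (-(2 * (√(l : ℝ) + K))) / 4 := by
    rw [div_pow, ← Real.exp_nat_mul]
    push_cast
    rw [show (2 : ℝ) * -(√(l : ℝ) + K) = -(2 * (√(l : ℝ) + K)) by ring]
    norm_num
  have hfin : (exp (-(√(l : ℝ) + K)) / 2) ^ 2 ≤ (v 0 * w 1 - v 1 * w 0) ^ 2 := by
    rw [hsq]
    have hp := Real.exp_pos (-(2 * (√(l : ℝ) + K)))
    linarith
  have hcpos : 0 ≤ exp (-(√(l : ℝ) + K)) / 2 := by positivity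
  have := Real.sqrt_le_sqrt hfin
  rwa [Real.sqrt_sq hcpos, Real.sqrt_sq_eq_abs] at this

end

end BilEnt
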