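import Pool.Agent.BilEnt.S08
import Pool.Agent.BilEnt.S12b

/-!
# Part S, module S13: conclusion of part S
-/

open MeasureTheory Real Filter Topology Matrix
open scoped ENNReal

namespace BilEnt

/-- from the lower bound of the square to the lower bound of the absolute value -/
private theorem S13_sq {C K lam0 a : ℝ} (hC : 1 ≤ C) (hK : √C ≤ K) (k : ℕ)
    (h : C⁻¹ * exp (lam0 * k) ≤ a ^ 2) : K⁻¹ * exp (lam0 / 2 * k) ≤ |a| := by
  have hC0 : 0 < C := by linarith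
  have hs : 0 < √C := Real.sqrt_pos.2 hC0
  have h1 : K⁻¹ * exp (lam0 / 2 * k) ≤ (√C)⁻¹ * exp (lam0 / 2 * k) :=
    mul_le_mul_of_nonneg_right (inv_anti₀ hs hK) (exp_pos _).le
  refine h1.trans ?_
  have h2 : ((√C)⁻¹ * exp (lam0 / 2 * k)) ^ 2 ≤ |a| ^ 2 := by
    rw [sq_abs, mul_pow, inv_pow, Real.sq_sqrt hC0.le, ← Real.exp_nat_mul]
    have e : ((2 : ℕ) : ℝ) * (lam0 / 2 * k) = lam0 * k := by push_cast; ring
    rw [e]
    exact h
  exact le_of_abs_le (abs_le_of_sq_le_sq h2 (abs_nonneg a))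

private theorem S13_smul_sq {a : ℝ} {v : Fin 2 → ℝ} (hv : v 0 ^ 2 + v 1 ^ 2 = 1) :
    (a • v) 0 ^ 2 + (a • v) 1 ^ 2 = a ^ 2 := by
  simp only [Pi.smul_apply, smul_eq_mul]
  linear_combination a ^ 2 * hv

/-- CONCLUSION OF PART S.

PROOF.  `s_goodset` gives `lam0, K0, A`.  `v = vd ∘ PL T Ti M`, `w = vd ∘ PL Ti T (Minv Ti M)`; measurable
(`s_vd_meas`, `s_PL_meas`, `s_meas_Minv`), unit (`s_vd_unit`).  `lam := lam0 / 2`.
For `y, T^[k] y ∈ A`: `s_invariant` gives `M_k v(y) = c v(T^k y)` and `|c|² = |M_k v|² ≥ C⁻¹ e^{lam0 k}`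
(`s_growth`).  For `w`: put `z = T^[k] y`; `s_invariant` for the inverse system at `z` (whose `k`-th
iterate under `Ti` is `y`) gives `(ac T M k y)⁻¹ *ᵥ w z = c' • w y` with `|c'|² ≥ C⁻¹ e^{lam0 k}`
(`s_ac_inv`), so `ac T M k y *ᵥ w y = c'⁻¹ • w z` and `|c'⁻¹| ≤ √C e^{-lam k}`.
Take `K = max` of `K0, √C, 1/c`. -/
theorem s_main {Y : Type*} [MeasurableSpace Y] {μ : Measure Y} {T Ti : Y → Y}
    {M : Y → Matrix (Fin 2) (Fin 2) ℝ} (h : SSys μ T Ti M)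
    (hl : Integrable (fun y => log (fn (M y))) μ)
    (hS1 : ∑' n : ℕ, μ {y | √(n : ℝ) < Dn T Ti M n y} ≠ ∞)
    (n0 : ℕ) (hn0 : 1 ≤ n0)
    (hS2a : Summable fun j : ℕ => (∫ y, Dn T Ti M (2 ^ j * n0) y ∂μ) / (2 ^ (j + 1) * n0))
    (hS2b : ∑' j : ℕ, (∫ y, Dn T Ti M (2 ^ j * n0) y ∂μ) / (2 ^ (j + 1) * n0)
      < (∫ y, log (fn (ac T M n0 y)) ∂μ) / n0)
    (φ : Y → ℝ) (hφ : Measurable φ) :
    ∃ lam : ℝ, 0 < lam ∧ ∃ K : ℝ, 1 ≤ K ∧ ∃ A : Set Y, MeasurableSet A ∧ 0 < μ A ∧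
      ∃ v w : Y → Fin 2 → ℝ, Measurable v ∧ Measurable w ∧
        (∀ y, v y 0 ^ 2 + v y 1 ^ 2 = 1) ∧ (∀ y, w y 0 ^ 2 + w y 1 ^ 2 = 1) ∧
        ∀ y ∈ A, φ y ≤ K ∧ 1 / K ≤ |v y 0 * w y 1 - v y 1 * w y 0| ∧
          ∀ k : ℕ, T^[k] y ∈ A →
            (∃ c : ℝ, K⁻¹ * exp (lam * k) ≤ |c| ∧
              ac T M k y *ᵥ v y = c • v (T^[k] y)) ∧
            (∃ c : ℝ, |c| ≤ K * exp (-(lam * k)) ∧
              ac T M k y *ᵥ w y = c • w (T^[k] y)) := by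
  have hS2b' : ∑' j : ℕ, (∫ y, Dn T Ti M (2 ^ j * n0) y ∂μ) / (2 ^ (j + 1) * n0)
      < (∫ y, la T M n0 y ∂μ) / n0 := hS2b
  obtain ⟨lam0, hlam0, K0, hK0, A, hA, hμA, hgood⟩ :=
    s_goodset h hl hS1 n0 hn0 hS2a hS2b' φ hφ
  obtain ⟨C, hC1, hC⟩ := s_growth (lam := lam0) (K := K0) hlam0
  obtain ⟨c, hc, hang⟩ := s_angle (lam := lam0) (K := K0) hlam0
  have hsym := h.symm
  have hKC : √C ≤ max K0 (max (√C) (1 / c)) := le_max_of_le_right (le_max_left _ _)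
  have hKc : 1 / c ≤ max K0 (max (√C) (1 / c)) := le_max_of_le_right (le_max_right _ _)
  have hKK : K0 ≤ max K0 (max (√C) (1 / c)) := le_max_left _ _
  generalize max K0 (max (√C) (1 / c)) = K at hKC hKc hKK
  have hK1 : 1 ≤ K := hK0.trans hKK
  have hK0' : 0 < K := by linarith
  refine ⟨lam0 / 2, half_pos hlam0, K, hK1, A, hA, hμA, fun y => vd (PL T Ti M y),
    fun y => vd (PL Ti T (Minv Ti M) y), ?_, ?_, fun y => s_vd_unit _, fun y => s_vd_unit _, ?_⟩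
  · exact s_vd_meas (s_PL_meas h.mT.measurable h.mTi.measurable h.mM)
  · exact s_vd_meas (s_PL_meas h.mTi.measurable h.mT.measurable hsym.mM)
  intro y hy
  obtain ⟨h1, h2⟩ := hgood y hy
  refine ⟨h1.trans hKK, ?_, ?_⟩
  · have h3 : 1 / K ≤ c := by
      rw [div_le_iff₀ hK0']
      rw [div_le_iff₀ hc] at hKc
      linarith
    exact h3.trans (hang h.li h.ri h.det h2)
  · intro k hk
    have h3 := (hgood _ hk).2
    have h2s : GP Ti T (Minv Ti M) lam0 K0 y := h2.symm h.li h.ri h.det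
    have h3s : GP Ti T (Minv Ti M) lam0 K0 (T^[k] y) := h3.symm h.li h.ri h.det
    constructor
    · obtain ⟨a, ha⟩ := s_invariant h.li h.ri h.det hlam0 h2 h3
      refine ⟨a, ?_, ha⟩
      have h4 := hC h.ri h.det h2 k
      rw [ha, S13_smul_sq (s_vd_unit _)] at h4
      exact S13_sq hC1 hKC k h4
    · have hit : Ti^[k] (T^[k] y) = y := s_iter_li h.li k y
      obtain ⟨a, ha⟩ := s_invariant (T := Ti) (Ti := T) (M := Minv Ti M) h.ri h.li hsym.det hlam0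
        (y := T^[k] y) (k := k) h3s (by rw [hit]; exact h2s)
      have h4 := hC (T := Ti) (Ti := T) (M := Minv Ti M) h.li hsym.det h3s k
      rw [ha, S13_smul_sq (s_vd_unit _)] at h4
      have h5 := S13_sq hC1 hKC k h4
      rw [s_ac_inv h.ri, hit] at ha
      have hpos : 0 < K⁻¹ * exp (lam0 / 2 * k) := mul_pos (inv_pos.2 hK0') (exp_pos _)
      have ha0 : a ≠ 0 := by
        rintro rfl
        rw [abs_zero] at h5
        linarith
      refine ⟨a⁻¹, ?_, ?_⟩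
      · rw [abs_inv]
        calc |a|⁻¹ ≤ (K⁻¹ * exp (lam0 / 2 * k))⁻¹ := inv_anti₀ hpos h5
          _ = K * exp (-(lam0 / 2 * k)) := by
            rw [mul_inv, inv_inv, Real.exp_neg]
      · have hdet : IsUnit (ac T M k y).det := by
          rw [s_det_ac h.det]
          exact isUnit_one
        have h6 : ac T M k y *ᵥ ((ac T M k y)⁻¹ *ᵥ vd (PL Ti T (Minv Ti M) (T^[k] y))) =
            vd (PL Ti T (Minv Ti M) (T^[k] y)) := by
          rw [Matrix.mulVec_mulVec, Matrix.mul_nonsing_inv _ hdet, Matrix.one_mulVec]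
        rw [ha, Matrix.mulVec_smul] at h6
        show ac T M k y *ᵥ vd (PL Ti T (Minv Ti M) y) =
          a⁻¹ • vd (PL Ti T (Minv Ti M) (T^[k] y))
        rw [← h6, smul_smul, inv_mul_cancel₀ ha0, one_smul]

end BilEnt
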