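import Pool.Agent.BilEnt.R12
import Pool.Agent.BilEnt.S13

/-!
# MP_bd32bb_an, application of part S, module A01: the abstract system (helper75)
-/

open MeasureTheory Real
open scoped ENNReal

namespace BilEnt

/-- the skew product and its cocycle form an abstract system -/
theorem sys_TT {N : ℕ} (hN : N0 ≤ N) : SSys (Pr N) (TT N) (TTi N) (MM N) where
  fin := finite_Pr hN
  li := TTi_TT hN
  ri := TT_TTi hN
  mT := mp_TT hN
  mTi := R12_aux.mp_TTi hN
  mM := measurable_MM hN
  det := det_MM N

end BilEnt
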