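import Pool.Agent.BilEnt.Defs

/-!
# G01 : the tangent angle of an admissible table

Everything is one-variable calculus.  From `hh.c2 : ContDiff ℝ 2 h` one gets (use
`contDiff_succ_iff_deriv`, or `ContDiff.differentiable`, `ContDiff.continuous_deriv`, and
`ContDiff.iterate_deriv'`) that `h` and `deriv h` are differentiable and `deriv (deriv h)` is
continuous.  Please also prove these as the first lemmas below: everybody needs them.
-/

open MeasureTheory Real
open scoped ENNReal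

namespace BilEnt

theorem IsTab.differentiable {h : ℝ → ℝ} (hh : IsTab h) : Differentiable ℝ h :=
  hh.c2.differentiable (by norm_num)

theorem IsTab.contDiff_deriv {h : ℝ → ℝ} (hh : IsTab h) : ContDiff ℝ 1 (deriv h) := by
  have h1 : ContDiff ℝ (1 + 1) h := by
    have e : ((1 : WithTop ℕ∞) + 1) = 2 := by norm_num
    rw [e]
    exact hh.c2
  exact (contDiff_succ_iff_deriv.1 h1).2.2

theorem IsTab.differentiable_deriv {h : ℝ → ℝ} (hh : IsTab h) : Differentiable ℝ (deriv h) :=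
  hh.contDiff_deriv.differentiable (by norm_num)

theorem IsTab.continuous_deriv2 {h : ℝ → ℝ} (hh : IsTab h) : Continuous (deriv (deriv h)) :=
  hh.contDiff_deriv.continuous_deriv le_rfl

/-- derivative of the tangent angle (`Real.hasDerivAt_arctan'`, chain rule). -/
theorem hasDerivAt_Th {h : ℝ → ℝ} (hh : IsTab h) (u : ℝ) : HasDerivAt (Th h) (Thd h u) u := by
  have h1 : HasDerivAt (deriv h) (deriv (deriv h) u) u := (hh.differentiable_deriv u).hasDerivAt
  have h2 := h1.arctan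
  have h3 : HasDerivAt (fun u : ℝ => u + π / 2) 1 u := (hasDerivAt_id u).add_const _
  have h4 := h3.sub h2
  have e : (1 : ℝ) - 1 / (1 + deriv h u ^ 2) * deriv (deriv h) u = Thd h u := by
    unfold Thd
    ring
  rw [e] at h4
  exact h4

/-- `|h''| ≤ 97/100` and `1 + h'^2 ≥ 1`. -/
theorem Thd_bounds {h : ℝ → ℝ} (hh : IsTab h) (u : ℝ) : 3 / 100 ≤ Thd h u ∧ Thd h u ≤ 197 / 100 := by
  have h2 := hh.b2 u
  have hd : 1 ≤ 1 + (deriv h u) ^ 2 := by nlinarith [sq_nonneg (deriv h u)]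
  have hq : |deriv (deriv h) u / (1 + (deriv h u) ^ 2)| ≤ 97 / 100 := by
    rw [abs_div, abs_of_pos (by linarith : (0 : ℝ) < 1 + (deriv h u) ^ 2),
      div_le_iff₀ (by linarith)]
    nlinarith
  rw [abs_le] at hq
  unfold Thd
  constructor <;> linarith [hq.1, hq.2]

theorem continuous_Thd {h : ℝ → ℝ} (hh : IsTab h) : Continuous (Thd h) := by
  unfold Thd
  refine continuous_const.sub (hh.continuous_deriv2.div₀ ?_ ?_)
  · exact continuous_const.add (hh.contDiff_deriv.continuous.pow 2)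
  · intro u
    nlinarith [sq_nonneg (deriv h u)]

theorem continuous_Th {h : ℝ → ℝ} (hh : IsTab h) : Continuous (Th h) :=
  continuous_iff_continuousAt.2 fun u => (hasDerivAt_Th hh u).continuousAt

theorem strictMono_Th {h : ℝ → ℝ} (hh : IsTab h) : StrictMono (Th h) := by
  apply strictMono_of_deriv_pos
  intro u
  rw [(hasDerivAt_Th hh u).deriv]
  linarith [(Thd_bounds hh u).1]

/-- two-sided linear bounds for the increments of `Th` (mean value inequality from `Thd_bounds`). -/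
theorem Th_sub_bounds {h : ℝ → ℝ} (hh : IsTab h) {u w : ℝ} (huw : u ≤ w) :
    3 / 100 * (w - u) ≤ Th h w - Th h u ∧ Th h w - Th h u ≤ 197 / 100 * (w - u) := by
  have hd : Differentiable ℝ (Th h) := fun x => (hasDerivAt_Th hh x).differentiableAt
  constructor
  · exact mul_sub_le_image_sub_of_le_deriv hd
      (fun x => by rw [(hasDerivAt_Th hh x).deriv]; exact (Thd_bounds hh x).1) huw
  · exact image_sub_le_mul_sub_of_deriv_le hd
      (fun x => by rw [(hasDerivAt_Th hh x).deriv]; exact (Thd_bounds hh x).2) huw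

/-- the derivative of a periodic function is periodic (`Function.Periodic`, `deriv_comp_add_const`). -/
theorem deriv_per {h : ℝ → ℝ} (hh : IsTab h) (u : ℝ) : deriv h (u + 2 * π) = deriv h u := by
  have h1 : deriv (fun x => h (x + 2 * π)) u = deriv h (u + 2 * π) := deriv_comp_add_const ..
  have h2 : (fun x => h (x + 2 * π)) = h := funext fun x => hh.per x
  rw [← h1, h2]

theorem deriv2_per {h : ℝ → ℝ} (hh : IsTab h) (u : ℝ) :
    deriv (deriv h) (u + 2 * π) = deriv (deriv h) u := by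
  have h1 : deriv (fun x => deriv h (x + 2 * π)) u = deriv (deriv h) (u + 2 * π) :=
    deriv_comp_add_const ..
  have h2 : (fun x => deriv h (x + 2 * π)) = deriv h := funext fun x => deriv_per hh x
  rw [← h1, h2]

theorem Th_per {h : ℝ → ℝ} (hh : IsTab h) (u : ℝ) : Th h (u + 2 * π) = Th h u + 2 * π := by
  unfold Th
  rw [deriv_per hh]
  ring

theorem Thd_per {h : ℝ → ℝ} (hh : IsTab h) (u : ℝ) : Thd h (u + 2 * π) = Thd h u := by
  unfold Thd
  rw [deriv_per hh, deriv2_per hh]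

namespace G01_aux

theorem abs_arctan_le (x : ℝ) : |arctan x| ≤ |x| := by
  have key : ∀ y : ℝ, 0 ≤ y → arctan y ≤ y := by
    intro y hy
    rcases eq_or_lt_of_le hy with h0 | h0
    · rw [← h0, arctan_zero]
    · have h1 : 0 < arctan y := by
        rw [← arctan_zero]
        exact arctan_strictMono h0
      have h2 := lt_tan h1 (arctan_lt_pi_div_two y)
      rw [tan_arctan] at h2
      exact h2.le
  rcases le_total 0 x with hx | hx
  · have h0 : 0 ≤ arctan x := by
      rw [← arctan_zero]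
      exact arctan_strictMono.monotone hx
    rw [abs_of_nonneg hx, abs_of_nonneg h0]
    exact key x hx
  · have h0 : arctan x ≤ 0 := by
      rw [← arctan_zero]
      exact arctan_strictMono.monotone hx
    rw [abs_of_nonpos hx, abs_of_nonpos h0, ← arctan_neg]
    exact key (-x) (by linarith)

end G01_aux

/-- `|arctan x| ≤ |x|`. -/
theorem Th_near {h : ℝ → ℝ} (hh : IsTab h) (u : ℝ) : |Th h u - u - π / 2| ≤ 1 / 100 := by
  have e : Th h u - u - π / 2 = -arctan (deriv h u) := by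
    unfold Th
    ring
  rw [e, abs_neg]
  exact (G01_aux.abs_arctan_le _).trans (hh.b1 u)

theorem Th_lip {h : ℝ → ℝ} (hh : IsTab h) (u v : ℝ) : |Th h u - Th h v| ≤ 2 * |u - v| := by
  have key : ∀ a b : ℝ, a ≤ b → |Th h a - Th h b| ≤ 2 * |a - b| := by
    intro a b hab
    obtain ⟨h1, h2⟩ := Th_sub_bounds hh hab
    rw [abs_sub_comm, abs_sub_comm a b, abs_of_nonneg (by linarith : 0 ≤ b - a),
      abs_of_nonneg (by linarith : 0 ≤ Th h b - Th h a)]
    linarith
  rcases le_total u v with h | h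
  · exact key u v h
  · rw [abs_sub_comm, abs_sub_comm u v]
    exact key v u h

namespace G01_aux

theorem deriv_lip {h : ℝ → ℝ} (hh : IsTab h) (u v : ℝ) :
    |deriv h u - deriv h v| ≤ 97 / 100 * |u - v| := by
  have h1 : ∀ x ∈ (Set.univ : Set ℝ), HasDerivWithinAt (deriv h) (deriv (deriv h) x) Set.univ x :=
    fun x _ => (hh.differentiable_deriv x).hasDerivAt.hasDerivWithinAt
  have h2 := convex_univ.norm_image_sub_le_of_norm_hasDerivWithin_le (C := 97 / 100) h1
    (fun x _ => by rw [Real.norm_eq_abs]; exact hh.b2 x) (Set.mem_univ v) (Set.mem_univ u)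
  simpa [Real.norm_eq_abs] using h2

end G01_aux

/-- `Thd` inherits the Hölder modulus: with `a = h' u`, `b = h' v`, `|a|, |b| ≤ 1/100`,
`|h''(u)/(1+a^2) - h''(v)/(1+b^2)| ≤ |h''(u) - h''(v)| + |h''(v)| |a^2 - b^2|`, and
`|a - b| ≤ 97/100 |u - v|`, `|u-v| ≤ |u-v|^{1/65}` because `|u - v| ≤ 1`. -/
theorem Thd_hol {h : ℝ → ℝ} (hh : IsTab h) {K : ℝ} (hK : 1 ≤ K) (hH : Hol h K) (u v : ℝ)
    (huv : |u - v| ≤ 1) : |Thd h u - Thd h v| ≤ 3 * K * |u - v| ^ ((1 : ℝ) / 65) := by
  set a := deriv h u with ha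
  set b := deriv h v with hb
  set p := deriv (deriv h) u with hp
  set q := deriv (deriv h) v with hq
  have ha1 : |a| ≤ 1 / 100 := hh.b1 u
  have hb1 : |b| ≤ 1 / 100 := hh.b1 v
  have hq1 : |q| ≤ 97 / 100 := hh.b2 v
  have hab : |a - b| ≤ 97 / 100 * |u - v| := G01_aux.deriv_lip hh u v
  have hpq : |p - q| ≤ K * |u - v| ^ ((1 : ℝ) / 65) := hH u v
  have ha0 : 1 ≤ 1 + a ^ 2 := by nlinarith [sq_nonneg a]
  have hb0 : 1 ≤ 1 + b ^ 2 := by nlinarith [sq_nonneg b]
  have hpow : |u - v| ≤ |u - v| ^ ((1 : ℝ) / 65) := by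
    rcases eq_or_lt_of_le (abs_nonneg (u - v)) with h0 | h0
    · rw [← h0, Real.zero_rpow (by norm_num)]
    · calc |u - v| = |u - v| ^ (1 : ℝ) := (Real.rpow_one _).symm
        _ ≤ |u - v| ^ ((1 : ℝ) / 65) :=
          Real.rpow_le_rpow_of_exponent_ge h0 huv (by norm_num)
  have hpow0 : 0 ≤ |u - v| ^ ((1 : ℝ) / 65) := Real.rpow_nonneg (abs_nonneg _) _
  have e : Thd h u - Thd h v = -((p - q) / (1 + a ^ 2)) + q * (a ^ 2 - b ^ 2) /
      ((1 + a ^ 2) * (1 + b ^ 2)) := by
    unfold Thd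
    rw [← ha, ← hb, ← hp, ← hq]
    field_simp
    ring
  have t1 : |-((p - q) / (1 + a ^ 2))| ≤ K * |u - v| ^ ((1 : ℝ) / 65) := by
    rw [abs_neg, abs_div, abs_of_pos (by linarith : (0 : ℝ) < 1 + a ^ 2), div_le_iff₀ (by linarith)]
    calc |p - q| ≤ K * |u - v| ^ ((1 : ℝ) / 65) * 1 := by linarith
      _ ≤ K * |u - v| ^ ((1 : ℝ) / 65) * (1 + a ^ 2) :=
        mul_le_mul_of_nonneg_left ha0 (by positivity)
  have t2 : |q * (a ^ 2 - b ^ 2) / ((1 + a ^ 2) * (1 + b ^ 2))| ≤ |u - v| := by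
    have hden : 1 ≤ (1 + a ^ 2) * (1 + b ^ 2) := one_le_mul_of_one_le_of_one_le ha0 hb0
    rw [abs_div, abs_of_pos (by linarith : (0 : ℝ) < (1 + a ^ 2) * (1 + b ^ 2)),
      div_le_iff₀ (by linarith)]
    have e2 : |q * (a ^ 2 - b ^ 2)| = |q| * (|a - b| * |a + b|) := by
      rw [abs_mul, ← abs_mul (a - b)]
      congr 2
      ring
    have hs : |a + b| ≤ 1 / 50 := (abs_add_le a b).trans (by linarith)
    rw [e2]
    have h1 : |a - b| * |a + b| ≤ (97 / 100 * |u - v|) * (1 / 50) :=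
      mul_le_mul hab hs (abs_nonneg _) (by positivity)
    have h2 : |q| * (|a - b| * |a + b|) ≤ 97 / 100 * ((97 / 100 * |u - v|) * (1 / 50)) :=
      mul_le_mul hq1 h1 (by positivity) (by norm_num)
    have h3 : |u - v| * 1 ≤ |u - v| * ((1 + a ^ 2) * (1 + b ^ 2)) :=
      mul_le_mul_of_nonneg_left hden (abs_nonneg _)
    have h4 : 0 ≤ |u - v| := abs_nonneg _
    nlinarith
  rw [e]
  refine (abs_add_le _ _).trans ?_
  have t3 : |u - v| ≤ K * |u - v| ^ ((1 : ℝ) / 65) := by nlinarith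
  have t4 : 0 ≤ K * |u - v| ^ ((1 : ℝ) / 65) := by positivity
  linarith

end BilEnt
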