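import Pool.Agent.BilEnt.Defs
import Pool.Agent.BilEnt.G01

/-!
# G02 : the boundary curve, its speed, wedge products
-/

open MeasureTheory Real
open scoped ENNReal

namespace BilEnt

namespace G02_aux

theorem ev_eq (A : ℝ) : ev A = (cos A : ℂ) + (sin A : ℂ) * Complex.I := by
  unfold ev
  rw [Complex.exp_mul_I, ← Complex.ofReal_cos, ← Complex.ofReal_sin]

theorem ev_add (A B : ℝ) : ev (A + B) = ev A * ev B := by
  unfold ev
  rw [← Complex.exp_add]
  congr 1
  push_cast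
  ring

theorem sqrt_pos' (x : ℝ) : 0 < sqrt (1 + x ^ 2) := Real.sqrt_pos.2 (by positivity)

theorem one_le_sqrt (x : ℝ) : 1 ≤ sqrt (1 + x ^ 2) := by
  rw [Real.one_le_sqrt]
  nlinarith [sq_nonneg x]

theorem sqrt_le (x : ℝ) (hx : |x| ≤ 1 / 100) : sqrt (1 + x ^ 2) ≤ 1 + 1 / 20000 := by
  have h1 : x ^ 2 ≤ 1 / 10000 := by
    have := abs_le.1 hx
    nlinarith
  apply Real.sqrt_le_iff.2
  constructor
  · norm_num
  · nlinarith

theorem exp_bounds {x : ℝ} (hx : |x| ≤ 1 / 100) : 99 / 100 ≤ exp x ∧ exp x ≤ 100 / 99 := by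
  obtain ⟨h1, h2⟩ := abs_le.1 hx
  constructor
  · have := Real.add_one_le_exp x
    linarith
  · have h3 := Real.add_one_le_exp (-x)
    have h4 : 99 / 100 ≤ exp (-x) := by linarith
    rw [Real.exp_neg] at h4
    have h5 := Real.exp_pos x
    have h6 : 99 / 100 * exp x ≤ 1 := by
      calc 99 / 100 * exp x ≤ (exp x)⁻¹ * exp x := by gcongr
        _ = 1 := inv_mul_cancel₀ h5.ne'
    linarith

/-- derivative of the speed -/
theorem hasDerivAt_sp {h : ℝ → ℝ} (hh : IsTab h) (u : ℝ) :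
    HasDerivAt (sp h) (exp (h u) * deriv h u * sqrt (1 + (deriv h u) ^ 2) +
      exp (h u) * (2 * deriv h u * deriv (deriv h) u / (2 * sqrt (1 + (deriv h u) ^ 2)))) u := by
  have h1 : HasDerivAt h (deriv h u) u := (hh.differentiable u).hasDerivAt
  have h2 : HasDerivAt (deriv h) (deriv (deriv h) u) u := (hh.differentiable_deriv u).hasDerivAt
  have h3 : HasDerivAt (fun u => 1 + (deriv h u) ^ 2) (2 * deriv h u * deriv (deriv h) u) u := by
    have h4 := (h2.pow 2).const_add 1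
    refine h4.congr_deriv ?_
    simp
  have h5 : (1 + (deriv h u) ^ 2) ≠ 0 := by positivity
  exact (h1.exp).mul (h3.sqrt h5)

end G02_aux

open G02_aux

/-- `γ' = (h' + i) e^{h+iu}` and `h' + i = sqrt(1+h'^2) e^{i (π/2 - arctan h')}`
(`Real.cos_arctan`, `Real.sin_arctan`; `cos(π/2 - a) = sin a`). -/
theorem hasDerivAt_gam {h : ℝ → ℝ} (hh : IsTab h) (u : ℝ) :
    HasDerivAt (gam h) ((sp h u : ℂ) * ev (Th h u)) u := by
  have h1 : HasDerivAt (fun u : ℝ => (h u : ℂ)) ((deriv h u : ℝ) : ℂ) u :=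
    ((hh.differentiable u).hasDerivAt).ofReal_comp
  have h2 : HasDerivAt (fun u : ℝ => (u : ℂ) * Complex.I) (1 * Complex.I) u :=
    ((hasDerivAt_id u).ofReal_comp).mul_const _
  have h3 := (h1.add h2).cexp
  refine h3.congr_deriv ?_
  have hs := sqrt_pos' (deriv h u)
  have hsc : ((sqrt (1 + (deriv h u) ^ 2) : ℝ) : ℂ) ≠ 0 := by exact_mod_cast hs.ne'
  have h4 : ev (Th h u) = ev u * ((deriv h u / sqrt (1 + (deriv h u) ^ 2) : ℝ) +
      ((1 / sqrt (1 + (deriv h u) ^ 2) : ℝ) : ℂ) * Complex.I) := by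
    have h5 : Th h u = u + (π / 2 - arctan (deriv h u)) := by unfold Th; ring
    rw [h5, ev_add, ev_eq (π / 2 - arctan (deriv h u)), Real.cos_pi_div_two_sub,
      Real.sin_pi_div_two_sub, Real.sin_arctan, Real.cos_arctan]
  have h6 : (fun u : ℝ => (h u : ℂ)) u + (fun u : ℝ => (u : ℂ) * Complex.I) u =
      (h u : ℂ) + (u : ℂ) * Complex.I := rfl
  have h7 : Complex.exp ((h u : ℂ) + (u : ℂ) * Complex.I) = ((exp (h u) : ℝ) : ℂ) * ev u := by
    unfold ev
    rw [Complex.exp_add, Complex.ofReal_exp]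
  rw [h4]
  show Complex.exp ((h u : ℂ) + (u : ℂ) * Complex.I) * _ = _
  rw [h7]
  unfold sp
  push_cast
  field_simp

theorem gam_per {h : ℝ → ℝ} (hh : IsTab h) (u : ℝ) : gam h (u + 2 * π) = gam h u := by
  unfold gam
  rw [hh.per u]
  have h1 : (h u : ℂ) + ((u + 2 * π : ℝ) : ℂ) * Complex.I =
      ((h u : ℂ) + (u : ℂ) * Complex.I) + 2 * π * Complex.I := by
    push_cast
    ring
  rw [h1, Complex.exp_add, Complex.exp_two_pi_mul_I, mul_one]

/-- `exp(-1/100) ≥ 99/100`, `exp(1/100) ≤ 1/(1 - 1/100)`, `1 ≤ sqrt(1+x^2) ≤ 1 + x^2/2`. -/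
theorem sp_bounds {h : ℝ → ℝ} (hh : IsTab h) (u : ℝ) : 99 / 100 ≤ sp h u ∧ sp h u ≤ 102 / 100 := by
  obtain ⟨h1, h2⟩ := exp_bounds (hh.b0 u)
  have h3 := one_le_sqrt (deriv h u)
  have h4 := sqrt_le _ (hh.b1 u)
  unfold sp
  constructor
  · calc (99 / 100 : ℝ) = 99 / 100 * 1 := by ring
      _ ≤ exp (h u) * sqrt (1 + (deriv h u) ^ 2) := by gcongr
  · calc exp (h u) * sqrt (1 + (deriv h u) ^ 2) ≤ 100 / 99 * (1 + 1 / 20000) := by gcongr
      _ ≤ 102 / 100 := by norm_num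

theorem continuous_sp {h : ℝ → ℝ} (hh : IsTab h) : Continuous (sp h) :=
  continuous_iff_continuousAt.2 fun u => (hasDerivAt_sp hh u).continuousAt

theorem sp_per {h : ℝ → ℝ} (hh : IsTab h) (u : ℝ) : sp h (u + 2 * π) = sp h u := by
  unfold sp
  rw [hh.per u, deriv_per hh u]

/-- the derivative of `sp` is `e^h (h' sqrt(1+h'^2) + h' h''/sqrt(1+h'^2))`, at most `1/30`. -/
theorem sp_lip {h : ℝ → ℝ} (hh : IsTab h) (u v : ℝ) : |sp h u - sp h v| ≤ |u - v| := by
  have hb : ∀ x ∈ (Set.univ : Set ℝ), ‖deriv (sp h) x‖ ≤ 1 := by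
    intro x _
    rw [(hasDerivAt_sp hh x).deriv, Real.norm_eq_abs]
    obtain ⟨h1, h2⟩ := exp_bounds (hh.b0 x)
    have h3 := one_le_sqrt (deriv h x)
    have h4 := sqrt_le _ (hh.b1 x)
    have h5 := hh.b1 x
    have h6 := hh.b2 x
    have h7 := Real.exp_pos (h x)
    have e1 : |exp (h x) * deriv h x * sqrt (1 + (deriv h x) ^ 2)| ≤
        100 / 99 * (1 / 100) * (1 + 1 / 20000) := by
      rw [abs_mul, abs_mul, abs_of_pos h7, abs_of_pos (sqrt_pos' _)]
      gcongr
    have e2 : |exp (h x) * (2 * deriv h x * deriv (deriv h) x /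
        (2 * sqrt (1 + (deriv h x) ^ 2)))| ≤ 100 / 99 * ((1 / 100) * (97 / 100)) := by
      rw [abs_mul, abs_of_pos h7]
      have e3 : 2 * deriv h x * deriv (deriv h) x / (2 * sqrt (1 + (deriv h x) ^ 2)) =
          deriv h x * deriv (deriv h) x / sqrt (1 + (deriv h x) ^ 2) := by
        have := (sqrt_pos' (deriv h x)).ne'
        field_simp
      rw [e3, abs_div, abs_mul, abs_of_pos (sqrt_pos' _)]
      have e4 : |deriv h x| * |deriv (deriv h) x| / sqrt (1 + (deriv h x) ^ 2) ≤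
          |deriv h x| * |deriv (deriv h) x| := div_le_self (by positivity) h3
      have e5 : |deriv h x| * |deriv (deriv h) x| ≤ 1 / 100 * (97 / 100) := by gcongr
      have e6 := e4.trans e5
      gcongr
    refine (abs_add_le _ _).trans ?_
    have : (100 : ℝ) / 99 * (1 / 100) * (1 + 1 / 20000) + 100 / 99 * ((1 / 100) * (97 / 100)) ≤ 1 := by
      norm_num
    linarith
  have h1 := Convex.norm_image_sub_le_of_norm_deriv_le (f := sp h) (s := Set.univ) (C := 1)
    (fun x _ => (hasDerivAt_sp hh x).differentiableAt) hb convex_univ (Set.mem_univ v)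
    (Set.mem_univ u)
  rw [one_mul, Real.norm_eq_abs, Real.norm_eq_abs] at h1
  exact h1

/-- real and imaginary part of `ev`. -/
theorem ev_re (A : ℝ) : (ev A).re = cos A := by
  unfold ev
  exact Complex.exp_ofReal_mul_I_re A

theorem ev_im (A : ℝ) : (ev A).im = sin A := by
  unfold ev
  exact Complex.exp_ofReal_mul_I_im A

theorem norm_ev (A : ℝ) : ‖ev A‖ = 1 := by
  unfold ev
  exact Complex.norm_exp_ofReal_mul_I A

/-- wedge of two vectors given in polar form -/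
theorem wedge_ev (r s A B : ℝ) : wedge ((r : ℂ) * ev A) ((s : ℂ) * ev B) = r * s * sin (B - A) := by
  unfold wedge
  rw [Complex.re_ofReal_mul, Complex.re_ofReal_mul, Complex.im_ofReal_mul, Complex.im_ofReal_mul,
    ev_re, ev_re, ev_im, ev_im, Real.sin_sub]
  ring

end BilEnt
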