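import Pool.Agent.BilEnt.Defs
import Pool.Agent.BilEnt.G02

/-!
# G04 : the chordal distance `ds` and chord lengths (G2)
-/

open MeasureTheory Real
open scoped ENNReal

namespace BilEnt

/-- `ds u w = |e^{iu} - e^{iw}|`. -/
theorem ds_eq_norm (u w : ℝ) : ds u w = ‖ev u - ev w‖ := by
  have e : ev u - ev w = ev w * (Complex.exp (Complex.I * ((u - w : ℝ) : ℂ)) - 1) := by
    unfold ev
    rw [mul_sub, mul_one, ← Complex.exp_add]
    congr 2
    push_cast
    ring
  rw [e, norm_mul, norm_ev, one_mul, Complex.norm_exp_I_mul_ofReal_sub_one]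
  unfold ds
  rw [Real.norm_eq_abs, abs_mul, abs_two]

theorem ds_nonneg (u w : ℝ) : 0 ≤ ds u w := by
  unfold ds
  positivity

theorem ds_le_two (u w : ℝ) : ds u w ≤ 2 := by
  unfold ds
  have := Real.abs_sin_le_one ((u - w) / 2)
  linarith

theorem ds_comm (u w : ℝ) : ds u w = ds w u := by
  unfold ds
  have e : (w - u) / 2 = -((u - w) / 2) := by ring
  rw [e, Real.sin_neg, abs_neg]

theorem ds_pos {u w : ℝ} (h1 : u < w) (h2 : w < u + 2 * π) : 0 < ds u w := by
  rw [ds_comm]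
  unfold ds
  have h3 : 0 < Real.sin ((w - u) / 2) :=
    Real.sin_pos_of_pos_of_lt_pi (by linarith) (by linarith)
  have h4 := abs_pos.2 h3.ne'
  linarith

theorem ds_le_abs (u w : ℝ) : ds u w ≤ |u - w| := by
  unfold ds
  have h1 : |Real.sin ((u - w) / 2)| ≤ |(u - w) / 2| := Real.abs_sin_le_abs
  rw [abs_div, abs_two] at h1
  linarith

/-- `sin x ≥ (2/π) x` on `[0, π/2]`. -/
theorem abs_le_ds {u w : ℝ} (hu : |u - w| ≤ π) : 2 / π * |u - w| ≤ ds u w := by
  unfold ds
  have h1 : |(u - w) / 2| ≤ π / 2 := by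
    rw [abs_div, abs_two]
    linarith
  have h2 := Real.mul_abs_le_abs_sin h1
  rw [abs_div, abs_two] at h2
  linarith

/-- triangle inequality: from `ds_eq_norm`. -/
theorem ds_triangle (u v w : ℝ) : ds u w ≤ ds u v + ds v w := by
  rw [ds_eq_norm, ds_eq_norm, ds_eq_norm]
  exact norm_sub_le_norm_sub_add_norm_sub _ _ _

theorem ds_sq (u w : ℝ) : ds u w ^ 2 = 2 * (1 - cos (u - w)) := by
  unfold ds
  rw [mul_pow, sq_abs]
  have h1 := Real.cos_two_mul ((u - w) / 2)
  have h2 := Real.sin_sq_add_cos_sq ((u - w) / 2)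
  have e : 2 * ((u - w) / 2) = u - w := by ring
  rw [e] at h1
  linarith

theorem ds_sub_int (u w : ℝ) (j : ℤ) : ds (u - 2 * π * j) w = ds u w := by
  have h1 := ds_sq (u - 2 * π * j) w
  have h2 := ds_sq u w
  have e : u - 2 * π * j - w = (u - w) - j * (2 * π) := by ring
  rw [e, Real.cos_sub_int_mul_two_pi, ← h2] at h1
  exact (sq_eq_sq₀ (ds_nonneg _ _) (ds_nonneg _ _)).1 h1

theorem ds_per_left (u w : ℝ) : ds (u + 2 * π) w = ds u w := by
  have h := ds_sub_int u w (-1)
  have e : u - 2 * π * ((-1 : ℤ) : ℝ) = u + 2 * π := by push_cast; ring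
  rwa [e] at h

theorem ds_per_right (u w : ℝ) : ds u (w + 2 * π) = ds u w := by
  rw [ds_comm, ds_per_left, ds_comm]

theorem continuous_ds : Continuous (fun q : ℝ × ℝ => ds q.1 q.2) := by
  unfold ds
  fun_prop

private theorem abs_h_sub_le_near {h : ℝ → ℝ} (hh : IsTab h) {d : ℝ} (hd : ∀ u, |deriv h u| ≤ d)
    (u w : ℝ) (huw : |w - u| ≤ π) : |h w - h u| ≤ 2 * d * ds u w := by
  have hd0 : 0 ≤ d := (abs_nonneg _).trans (hd 0)
  have h1 : ‖h w - h u‖ ≤ d * ‖w - u‖ :=
    Convex.norm_image_sub_le_of_norm_deriv_le (s := Set.univ)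
      (fun x _ => (hh.differentiable x)) (fun x _ => hd x) convex_univ
      (Set.mem_univ _) (Set.mem_univ _)
  rw [Real.norm_eq_abs, Real.norm_eq_abs] at h1
  have h2 : 2 / π * |u - w| ≤ ds u w := abs_le_ds (by rw [abs_sub_comm]; exact huw)
  have h3 : |w - u| ≤ 2 * ds u w := by
    rw [abs_sub_comm]
    have hπ := Real.pi_pos
    have hπ4 := Real.pi_le_four
    have h4 : 2 / π * |u - w| ≥ 1 / 2 * |u - w| := by
      have : (1 : ℝ) / 2 ≤ 2 / π := by
        rw [div_le_div_iff₀ (by norm_num) hπ]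
        linarith
      exact mul_le_mul_of_nonneg_right this (abs_nonneg _)
    linarith
  calc |h w - h u| ≤ d * |w - u| := h1
    _ ≤ d * (2 * ds u w) := mul_le_mul_of_nonneg_left h3 hd0
    _ = 2 * d * ds u w := by ring

/-- move `w` by a multiple of `2π` (`h` is periodic) so that `|w - u| ≤ π`; then
`|h w - h u| ≤ d |w - u| ≤ d (π/2) ds u w` (mean value inequality, `abs_le_ds`), and `π/2 ≤ 2`. -/
theorem abs_h_sub_le {h : ℝ → ℝ} (hh : IsTab h) {d : ℝ} (hd : ∀ u, |deriv h u| ≤ d) (u w : ℝ) :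
    |h w - h u| ≤ 2 * d * ds u w := by
  have hπ := Real.pi_pos
  set j : ℤ := round ((w - u) / (2 * π)) with hj
  have h1 : |(w - u) / (2 * π) - j| ≤ 1 / 2 := abs_sub_round _
  have h2 : |w - 2 * π * j - u| ≤ π := by
    have e : w - 2 * π * j - u = 2 * π * ((w - u) / (2 * π) - j) := by
      field_simp
      ring
    rw [e, abs_mul, abs_of_pos (by positivity : (0 : ℝ) < 2 * π)]
    nlinarith
  have h3 := abs_h_sub_le_near hh hd u (w - 2 * π * j) h2
  have h4 : h (w - 2 * π * j) = h w := by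
    have := hh.per.sub_int_mul_eq (x := w) j
    rw [← this]
    congr 1
    ring
  rw [h4, ds_comm, ds_sub_int, ds_comm] at h3
  exact h3

/-- the law of cosines in log-polar form. -/
theorem HH_sq (h : ℝ → ℝ) (u w : ℝ) :
    HH h u w ^ 2 = exp (h u + h w) * (4 * sinh ((h w - h u) / 2) ^ 2 + ds u w ^ 2) := by
  have hg : ∀ t : ℝ, gam h t = ⟨exp (h t) * cos t, exp (h t) * sin t⟩ := by
    intro t
    unfold gam
    rw [Complex.exp_add, Complex.exp_mul_I, ← Complex.ofReal_exp, ← Complex.ofReal_cos,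
      ← Complex.ofReal_sin]
    apply Complex.ext
    · simp only [Complex.mul_re, Complex.add_re, Complex.ofReal_re, Complex.ofReal_im,
        Complex.mul_im, Complex.add_im, Complex.I_re, Complex.I_im]
      ring
    · simp only [Complex.mul_re, Complex.add_re, Complex.ofReal_re, Complex.ofReal_im,
        Complex.mul_im, Complex.add_im, Complex.I_re, Complex.I_im]
      ring
  unfold HH
  rw [← Complex.normSq_eq_norm_sq, Complex.normSq_apply, hg, hg, ds_sq]
  simp only [Complex.sub_re, Complex.sub_im]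
  have e1 : cos (u - w) = cos u * cos w + sin u * sin w := Real.cos_sub u w
  have e2 : 4 * sinh ((h w - h u) / 2) ^ 2 = exp (h w - h u) + exp (h u - h w) - 2 := by
    have a1 : exp (h w - h u) = exp ((h w - h u) / 2) ^ 2 := by
      rw [← Real.exp_nat_mul]
      congr 1
      push_cast
      ring
    have a2 : exp (h u - h w) = exp (-((h w - h u) / 2)) ^ 2 := by
      rw [← Real.exp_nat_mul]
      congr 1
      push_cast
      ring
    have a3 : exp ((h w - h u) / 2) * exp (-((h w - h u) / 2)) = 1 := by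
      rw [← Real.exp_add]
      simp
    rw [Real.sinh_eq, a1, a2]
    linear_combination (-2) * a3
  have e3 : exp (h u + h w) * exp (h w - h u) = exp (h w) ^ 2 := by
    rw [← Real.exp_add, ← Real.exp_nat_mul]
    congr 1
    push_cast
    ring
  have e4 : exp (h u + h w) * exp (h u - h w) = exp (h u) ^ 2 := by
    rw [← Real.exp_add, ← Real.exp_nat_mul]
    congr 1
    push_cast
    ring
  have e5 : exp (h u + h w) = exp (h u) * exp (h w) := Real.exp_add _ _
  have e6 := Real.sin_sq_add_cos_sq u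
  have e7 := Real.sin_sq_add_cos_sq w
  rw [e1, e2]
  have e8 : exp (h u + h w) * (exp (h w - h u) + exp (h u - h w) - 2
      + 2 * (1 - (cos u * cos w + sin u * sin w)))
      = exp (h w) ^ 2 + exp (h u) ^ 2
        - 2 * (exp (h u) * exp (h w)) * (cos u * cos w + sin u * sin w) := by
    rw [← e3, ← e4, ← e5]
    ring
  rw [e8]
  linear_combination exp (h w) ^ 2 * e7 + exp (h u) ^ 2 * e6

private theorem four_sinh_sq {x : ℝ} (hx : |x| ≤ 1 / 25) :
    4 * sinh (x / 2) ^ 2 ≤ 101 / 100 * x ^ 2 := by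
  have h1 : 4 * sinh (x / 2) ^ 2 = 2 * (cosh x - 1) := by
    have h2 := Real.cosh_two_mul (x / 2)
    have h3 := Real.cosh_sq (x / 2)
    have e : 2 * (x / 2) = x := by ring
    rw [e] at h2
    linarith
  have h4 := Real.cosh_le_exp_half_sq x
  have h5 : x ^ 2 ≤ 1 / 625 := by
    have := sq_abs x
    nlinarith [abs_nonneg x]
  have h6 : exp (x ^ 2 / 2) ≤ 1 / (1 - x ^ 2 / 2) := Real.exp_bound_div_one_sub_of_interval
    (by positivity) (by linarith)
  have h7 : 1 / (1 - x ^ 2 / 2) ≤ 1 + 101 / 200 * x ^ 2 := by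
    rw [div_le_iff₀ (by linarith)]
    nlinarith [sq_nonneg x]
  rw [h1]
  linarith

/-- (G2).  From `HH_sq`: `exp (h u + h w)` lies in `[exp (-2/100), exp (2/100)]`, and
`4 sinh^2 (x/2) ≤ 1.01 x^2` for `|x| ≤ 1/25` with `|x| = |h w - h u| ≤ ds/50` (`abs_h_sub_le` with
`d = 1/100`). -/
theorem HH_bounds {h : ℝ → ℝ} (hh : IsTab h) (u w : ℝ) :
    99 / 100 * ds u w ≤ HH h u w ∧ HH h u w ≤ 103 / 100 * ds u w := by
  have hds := ds_nonneg u w
  have hds2 := ds_le_two u w
  have hHH : 0 ≤ HH h u w := norm_nonneg _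
  have hsq := HH_sq h u w
  have hu := abs_le.1 (hh.b0 u)
  have hw := abs_le.1 (hh.b0 w)
  have hlow : (99 / 100 : ℝ) ^ 2 ≤ exp (h u + h w) := by
    have a1 : (99 / 100 : ℝ) ≤ exp (-(1 / 100)) := by
      have := Real.add_one_le_exp (-(1 / 100) : ℝ)
      linarith
    have a2 : exp (-(1 / 100) : ℝ) ^ 2 ≤ exp (h u + h w) := by
      rw [← Real.exp_nat_mul]
      apply Real.exp_le_exp.2
      push_cast
      linarith [hu.1, hw.1]
    exact (pow_le_pow_left₀ (by norm_num) a1 2).trans a2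
  have hup : exp (h u + h w) ≤ 100 / 98 := by
    have a1 : exp (h u + h w) ≤ exp (2 / 100) := Real.exp_le_exp.2 (by linarith [hu.2, hw.2])
    have a2 : exp (2 / 100 : ℝ) ≤ 1 / (1 - 2 / 100) :=
      Real.exp_bound_div_one_sub_of_interval (by norm_num) (by norm_num)
    have a3 : (1 : ℝ) / (1 - 2 / 100) = 100 / 98 := by norm_num
    linarith
  have hx := abs_h_sub_le hh hh.b1 u w
  have hx1 : |h w - h u| ≤ 1 / 50 * ds u w := by linarith
  have hx2 : |h w - h u| ≤ 1 / 25 := by linarith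
  have hs := four_sinh_sq hx2
  have hx3 : (h w - h u) ^ 2 ≤ 1 / 2500 * ds u w ^ 2 := by
    rw [← sq_abs]
    calc |h w - h u| ^ 2 ≤ (1 / 50 * ds u w) ^ 2 := pow_le_pow_left₀ (abs_nonneg _) hx1 2
      _ = _ := by ring
  have hs0 : 0 ≤ 4 * sinh ((h w - h u) / 2) ^ 2 := by positivity
  constructor
  · have key : (99 / 100 * ds u w) ^ 2 ≤ HH h u w ^ 2 := by
      rw [hsq]
      calc (99 / 100 * ds u w) ^ 2 = (99 / 100) ^ 2 * ds u w ^ 2 := by ring
        _ ≤ exp (h u + h w) * ds u w ^ 2 := mul_le_mul_of_nonneg_right hlow (sq_nonneg _)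
        _ ≤ _ := mul_le_mul_of_nonneg_left (by linarith) (Real.exp_pos _).le
    exact (sq_le_sq₀ (by positivity) hHH).1 key
  · have key : HH h u w ^ 2 ≤ (103 / 100 * ds u w) ^ 2 := by
      rw [hsq]
      have a1 : 4 * sinh ((h w - h u) / 2) ^ 2 + ds u w ^ 2
          ≤ (101 / 250000 + 1) * ds u w ^ 2 := by
        nlinarith [hs, hx3]
      calc exp (h u + h w) * (4 * sinh ((h w - h u) / 2) ^ 2 + ds u w ^ 2)
          ≤ 100 / 98 * ((101 / 250000 + 1) * ds u w ^ 2) :=
            mul_le_mul hup a1 (by positivity) (by norm_num)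
        _ ≤ _ := by nlinarith [sq_nonneg (ds u w)]
    exact (sq_le_sq₀ hHH (by positivity)).1 key

theorem HH_comm (h : ℝ → ℝ) (u w : ℝ) : HH h u w = HH h w u := by
  unfold HH
  exact norm_sub_rev _ _

theorem HH_pos {h : ℝ → ℝ} (hh : IsTab h) {u w : ℝ} (h1 : u < w) (h2 : w < u + 2 * π) :
    0 < HH h u w := by
  have := (HH_bounds hh u w).1
  have := ds_pos h1 h2
  linarith

end BilEnt
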