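import Pool.Agent.BilEnt.Defs
import Pool.Agent.BilEnt.G04

/-!
# G03a : (G1), lower bounds when the tangent turns by at most `π`
-/

open MeasureTheory Real
open scoped ENNReal

namespace BilEnt

namespace G03a_aux

theorem compare {F F' : ℝ → ℝ} {u w : ℝ} (huw : u ≤ w) (hF : ∀ t, HasDerivAt F (F' t) t)
    (hu : F u = 0) (h0 : ∀ t ∈ Set.Icc u w, 0 ≤ F' t)
    (h1 : ∀ t ∈ Set.Icc u w, t ≤ u + 3 / 2 → 186 / 10000 * (t - u) ≤ F' t) :
    ds u w ^ 2 / 200 ≤ F w := by
  have hd : Differentiable ℝ F := fun t => (hF t).differentiableAt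
  have hderiv : deriv F = F' := by
    funext t
    exact (hF t).deriv
  set m := min (w - u) (3 / 2) with hm
  have hm0 : 0 ≤ m := le_min (by linarith) (by norm_num)
  have hmw : m ≤ w - u := min_le_left _ _
  have hm3 : m ≤ 3 / 2 := min_le_right _ _
  -- on `[u, u + m]`
  have hmono1 : MonotoneOn (fun t => F t - 93 / 10000 * (t - u) ^ 2) (Set.Icc u (u + m)) := by
    have hG : ∀ t, HasDerivAt (fun t => F t - 93 / 10000 * (t - u) ^ 2)
        (F' t - 93 / 10000 * (2 * (t - u))) t := by
      intro t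
      have h2 : HasDerivAt (fun t => 93 / 10000 * (t - u) ^ 2) (93 / 10000 * (2 * (t - u))) t := by
        have h3 : HasDerivAt (fun t : ℝ => t - u) 1 t := (hasDerivAt_id t).sub_const u
        have h4 := (h3.mul h3).const_mul (93 / 10000 : ℝ)
        have h5 : (fun t => 93 / 10000 * (t - u) ^ 2) =
            fun y => 93 / 10000 * (((fun t : ℝ => t - u) * (fun t => t - u)) y) := by
          funext y
          simp only [Pi.mul_apply]
          ring
        rw [h5]
        refine h4.congr_deriv ?_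
        ring
      exact (hF t).sub h2
    refine monotoneOn_of_deriv_nonneg (convex_Icc _ _) ?_ ?_ ?_
    · exact fun t _ => (hG t).continuousAt.continuousWithinAt
    · exact fun t _ => (hG t).differentiableAt.differentiableWithinAt
    · intro t ht
      rw [interior_Icc] at ht
      rw [(hG t).deriv]
      have h5 := h1 t ⟨ht.1.le, by linarith [ht.2]⟩ (by linarith [ht.2])
      linarith
  have hmono2 : MonotoneOn F (Set.Icc u w) := by
    refine monotoneOn_of_deriv_nonneg (convex_Icc _ _) hd.continuous.continuousOn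
      hd.differentiableOn ?_
    intro t ht
    rw [interior_Icc] at ht
    rw [hderiv]
    exact h0 t ⟨ht.1.le, ht.2.le⟩
  have h6 : 93 / 10000 * m ^ 2 ≤ F (u + m) := by
    have h7 := hmono1 (Set.left_mem_Icc.2 (by linarith)) (Set.right_mem_Icc.2 (by linarith))
      (by linarith : u ≤ u + m)
    simp only [hu, sub_self, ne_eq, OfNat.ofNat_ne_zero, not_false_eq_true, zero_pow, mul_zero,
      add_sub_cancel_left] at h7
    linarith
  have h8 : F (u + m) ≤ F w :=
    hmono2 ⟨by linarith, by linarith⟩ (Set.right_mem_Icc.2 huw) (by linarith)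
  have hds0 := ds_nonneg u w
  have hds2 := ds_le_two u w
  have hds1 : ds u w ≤ w - u := by
    have h9 := ds_le_abs u w
    rwa [abs_sub_comm, abs_of_nonneg (by linarith)] at h9
  have h10 : ds u w ^ 2 / 200 ≤ 93 / 10000 * m ^ 2 := by
    rcases le_total (w - u) (3 / 2) with h | h
    · rw [hm, min_eq_left h]
      nlinarith
    · rw [hm, min_eq_right h]
      nlinarith
  linarith

theorem sin_lower {h : ℝ → ℝ} (hh : IsTab h) {a b : ℝ} (hab : a ≤ b) (h3 : b - a ≤ 3 / 2) :
    186 / 10000 * (b - a) ≤ sp h a * sp h b * sin (Th h b - Th h a) := by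
  have h1 := (Th_sub_bounds hh hab).1
  have h2 : Th h b - Th h a ≤ 152 / 100 := by
    have h4 := abs_le.1 (Th_near hh a)
    have h5 := abs_le.1 (Th_near hh b)
    linarith [h4.1, h5.2]
  have hpi := Real.pi_gt_d2
  have hpi2 := Real.pi_lt_d2
  have h6 : 2 / π * (Th h b - Th h a) ≤ sin (Th h b - Th h a) :=
    Real.mul_le_sin (by linarith) (by linarith)
  have h7 : (634 / 1000 : ℝ) ≤ 2 / π := by
    rw [le_div_iff₀ Real.pi_pos]
    nlinarith
  have h8 : 0 ≤ Th h b - Th h a := by linarith
  have h9 : 634 / 1000 * (Th h b - Th h a) ≤ sin (Th h b - Th h a) :=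
    le_trans (mul_le_mul_of_nonneg_right h7 h8) h6
  have h10 : 1902 / 100000 * (b - a) ≤ sin (Th h b - Th h a) := by linarith
  have ha := (sp_bounds hh a).1
  have hb := (sp_bounds hh b).1
  have hab' : (9801 / 10000 : ℝ) ≤ sp h a * sp h b := by nlinarith
  have h11 : 0 ≤ 1902 / 100000 * (b - a) := by linarith
  calc 186 / 10000 * (b - a) ≤ 9801 / 10000 * (1902 / 100000 * (b - a)) := by linarith
    _ ≤ sp h a * sp h b * sin (Th h b - Th h a) :=
        mul_le_mul hab' h10 h11 (by linarith)

theorem sin_nonneg' {h : ℝ → ℝ} (hh : IsTab h) {a b : ℝ} (hab : a ≤ b)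
    (h3 : Th h b - Th h a ≤ π) : 0 ≤ sp h a * sp h b * sin (Th h b - Th h a) := by
  have ha := (sp_bounds hh a).1
  have hb := (sp_bounds hh b).1
  have h1 := (Th_sub_bounds hh hab).1
  exact mul_nonneg (mul_nonneg (by linarith) (by linarith))
    (Real.sin_nonneg_of_nonneg_of_le_pi (by linarith) h3)

/-- derivative of a wedge product with a constant left factor -/
theorem hasDerivAt_wedge_right {g : ℝ → ℂ} {g' c : ℂ} {t : ℝ} (hg : HasDerivAt g g' t) :
    HasDerivAt (fun s => wedge c (g s)) (wedge c g') t := by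
  have hre : HasDerivAt (fun s => (g s).re) g'.re t :=
    (Complex.reCLM.hasFDerivAt.comp_hasDerivAt t hg)
  have him : HasDerivAt (fun s => (g s).im) g'.im t :=
    (Complex.imCLM.hasFDerivAt.comp_hasDerivAt t hg)
  exact (him.const_mul c.re).sub (hre.const_mul c.im)

theorem wedge_swap (a b : ℂ) : wedge a b = - wedge b a := by
  unfold wedge
  ring

theorem wedge_neg_right (a b : ℂ) : wedge a (-b) = - wedge a b := by
  unfold wedge
  simp only [Complex.neg_im, Complex.neg_re]
  ring

end G03a_aux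

open G03a_aux

/-- Fix `u` and put `F w = wedge (sp u • ev (Th u)) (gam w - gam u)`.  By `hasDerivAt_gam`
and `wedge_ev`, `F u = 0` and `F' w = sp u * sp w * sin (Th w - Th u)`, which is `≥ 0` as long as
`0 ≤ Th w - Th u ≤ π`.  Let `m = min (w - u) (3/2)`.  Since `|Th x - x - π/2| ≤ 1/100` (`Th_near`)
one has `Th t - Th u ≤ 1.52 ≤ π/2` for `t - u ≤ 3/2`, and `Th t - Th u ≥ 0.03 (t-u)`
(`Th_sub_bounds`), so `sin (Th t - Th u) ≥ (2/π) 0.03 (t - u) ≥ 0.019 (t-u)` and
`F' t ≥ (0.99)^2 * 0.019 (t-u) ≥ 0.0186 (t-u)` on `[u, u+m]`: `F (u+m) ≥ 0.0093 m^2`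
(compare with the polynomial `0.0093 (t-u)^2` by `monotoneOn_of_deriv_nonneg`); afterwards `F` is
nondecreasing up to `w`.  Finally `ds u w ≤ min (w-u) 2` : if `m = w - u` then
`0.0093 m^2 ≥ ds^2/200`; if `m = 3/2` then `0.0093 * 9/4 ≥ 4/200`. -/
theorem wedge_lower_out {h : ℝ → ℝ} (hh : IsTab h) {u w : ℝ} (h1 : u ≤ w)
    (h2 : Th h w - Th h u ≤ π) :
    ds u w ^ 2 / 200 ≤ wedge ((sp h u : ℂ) * ev (Th h u)) (gam h w - gam h u) := by
  refine compare (F := fun t => wedge ((sp h u : ℂ) * ev (Th h u)) (gam h t - gam h u))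
    (F' := fun t => sp h u * sp h t * sin (Th h t - Th h u)) h1 ?_ ?_ ?_ ?_
  · intro t
    have h3 := hasDerivAt_wedge_right (c := (sp h u : ℂ) * ev (Th h u))
      ((hasDerivAt_gam hh t).sub_const (gam h u))
    rwa [wedge_ev] at h3
  · simp [wedge]
  · intro t ht
    refine sin_nonneg' hh ht.1 ?_
    have h4 := (strictMono_Th hh).monotone ht.2
    linarith
  · intro t ht ht3
    exact sin_lower hh ht.1 (by linarith)

/-- The mirror image of `wedge_lower_out`: fix `w`, and let `u` decrease;
`F u = wedge (gam w - gam u) (sp w • ev (Th w))`, `F w = 0`, `F' u = - sp u sp w sin (Th w - Th u)`. -/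
theorem wedge_lower_in {h : ℝ → ℝ} (hh : IsTab h) {u w : ℝ} (h1 : u ≤ w)
    (h2 : Th h w - Th h u ≤ π) :
    ds u w ^ 2 / 200 ≤ wedge (gam h w - gam h u) ((sp h w : ℂ) * ev (Th h w)) := by
  have key := compare
    (F := fun s => wedge ((sp h w : ℂ) * ev (Th h w)) (gam h (u + w - s) - gam h w))
    (F' := fun s => sp h (u + w - s) * sp h w * sin (Th h w - Th h (u + w - s))) h1 ?_ ?_ ?_ ?_
  · have h5 : u + w - w = u := by ring
    rw [h5] at key
    rw [wedge_swap, ← wedge_neg_right, neg_sub]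
    exact key
  · intro s
    have h3 : HasDerivAt (fun s : ℝ => u + w - s) (-1) s := by
      simpa using (hasDerivAt_id s).const_sub (u + w)
    have h4 : HasDerivAt (fun s => gam h (u + w - s))
        ((-1 : ℝ) • ((sp h (u + w - s) : ℂ) * ev (Th h (u + w - s)))) s :=
      (hasDerivAt_gam hh (u + w - s)).scomp s h3
    have h6 := hasDerivAt_wedge_right (c := (sp h w : ℂ) * ev (Th h w)) (h4.sub_const (gam h w))
    rw [neg_smul, one_smul, wedge_neg_right, wedge_ev] at h6
    convert h6 using 1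
    rw [← neg_sub (Th h w), sin_neg]
    ring
  · have h5 : u + w - u = w := by ring
    simp [wedge]
  · intro s hs
    refine sin_nonneg' hh (by linarith [hs.1]) ?_
    have h4 := (strictMono_Th hh).monotone (show u ≤ u + w - s by linarith [hs.2])
    linarith
  · intro s hs hs3
    have h7 := sin_lower hh (a := u + w - s) (b := w) (by linarith [hs.1]) (by linarith)
    have h8 : w - (u + w - s) = s - u := by ring
    rwa [h8] at h7

end BilEnt
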