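import Pool.Agent.BilEnt.Defs
import Pool.Agent.BilEnt.G04

/-!
# G03b : (G1), upper bounds for arcs of length at most `π`
-/

open MeasureTheory Real
open scoped ENNReal

namespace BilEnt

namespace G03b_aux

theorem hasDerivAt_wedge_right (a : ℂ) {f : ℝ → ℂ} {f' : ℂ} {t : ℝ} (c : ℂ)
    (hf : HasDerivAt f f' t) : HasDerivAt (fun s => wedge a (f s - c)) (wedge a f') t := by
  have hre : HasDerivAt (fun s => (f s).re) f'.re t :=
    Complex.reCLM.hasFDerivAt.comp_hasDerivAt t hf
  have him : HasDerivAt (fun s => (f s).im) f'.im t :=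
    Complex.imCLM.hasFDerivAt.comp_hasDerivAt t hf
  have h1 := ((him.sub_const c.im).const_mul a.re).sub ((hre.sub_const c.re).const_mul a.im)
  exact h1

theorem hasDerivAt_wedge_left (a : ℂ) {f : ℝ → ℂ} {f' : ℂ} {t : ℝ} (c : ℂ)
    (hf : HasDerivAt f f' t) : HasDerivAt (fun s => wedge (c - f s) a) (-wedge f' a) t := by
  have hre : HasDerivAt (fun s => (f s).re) f'.re t :=
    Complex.reCLM.hasFDerivAt.comp_hasDerivAt t hf
  have him : HasDerivAt (fun s => (f s).im) f'.im t :=
    Complex.imCLM.hasFDerivAt.comp_hasDerivAt t hf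
  have h1 := ((hre.const_sub c.re).mul_const a.im).sub ((him.const_sub c.im).mul_const a.re)
  have h2 : -wedge f' a = -f'.re * a.im - -f'.im * a.re := by
    simp only [wedge]
    ring
  rw [h2]
  exact h1

theorem key {h : ℝ → ℝ} (hh : IsTab h) {u t : ℝ} (h1 : u ≤ t) :
    sp h u * sp h t * sin (Th h t - Th h u) ≤ 205 / 100 * (t - u) := by
  obtain ⟨ha, hb⟩ := sp_bounds hh u
  obtain ⟨hc, hd⟩ := sp_bounds hh t
  obtain ⟨he, hf⟩ := Th_sub_bounds hh h1
  have h0 : 0 ≤ t - u := by linarith
  have hx : 0 ≤ Th h t - Th h u := by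
    have : 0 ≤ 3 / 100 * (t - u) := by positivity
    linarith
  have hs : sin (Th h t - Th h u) ≤ Th h t - Th h u := Real.sin_le hx
  have hpp : 0 ≤ sp h u * sp h t := by
    apply mul_nonneg <;> linarith
  have hple : sp h u * sp h t ≤ 102 / 100 * (102 / 100) :=
    mul_le_mul hb hd (by linarith) (by norm_num)
  calc sp h u * sp h t * sin (Th h t - Th h u)
      ≤ sp h u * sp h t * (197 / 100 * (t - u)) :=
        mul_le_mul_of_nonneg_left (hs.trans hf) hpp
    _ ≤ 102 / 100 * (102 / 100) * (197 / 100 * (t - u)) :=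
        mul_le_mul_of_nonneg_right hple (by positivity)
    _ ≤ 205 / 100 * (t - u) := by nlinarith

theorem fin {u w F : ℝ} (h1 : u ≤ w) (h2 : w ≤ u + π) (hF : F ≤ 1025 / 1000 * (w - u) ^ 2) :
    F ≤ 3 * ds u w ^ 2 := by
  have habs : |u - w| = w - u := by
    rw [abs_sub_comm]
    exact abs_of_nonneg (by linarith)
  have h3 : 2 / π * (w - u) ≤ ds u w := by
    have := abs_le_ds (u := u) (w := w) (by rw [habs]; linarith)
    rwa [habs] at this
  have hpi := Real.pi_pos
  have hpi2 := Real.pi_lt_d2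
  have h4 : w - u ≤ 1575 / 1000 * ds u w := by
    have h5 : w - u = π / 2 * (2 / π * (w - u)) := by field_simp
    have h6 := ds_nonneg u w
    calc w - u = π / 2 * (2 / π * (w - u)) := h5
      _ ≤ π / 2 * ds u w := by gcongr
      _ ≤ 1575 / 1000 * ds u w := by
        apply mul_le_mul_of_nonneg_right _ h6
        linarith
  have h7 : (w - u) ^ 2 ≤ (1575 / 1000 * ds u w) ^ 2 :=
    pow_le_pow_left₀ (by linarith) h4 2
  nlinarith [sq_nonneg (ds u w)]

end G03b_aux

/-- With `F w = wedge (sp u • ev (Th u)) (gam w - gam u)`: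
`F' t = sp u * sp t * sin (Th t - Th u) ≤ (1.02)^2 * 1.97 (t - u) ≤ 2.05 (t-u)` for `t ≥ u`
(`sin x ≤ x`, `Th_sub_bounds`), so `F w ≤ 1.025 (w-u)^2`; and `w - u ≤ (π/2) ds u w`
(`abs_le_ds`) with `(π/2)^2 * 1.025 ≤ 2.6 ≤ 3`.  The second inequality is the mirror image
(derivative in `u`). -/
theorem wedge_upper {h : ℝ → ℝ} (hh : IsTab h) {u w : ℝ} (h1 : u ≤ w) (h2 : w ≤ u + π) :
    wedge ((sp h u : ℂ) * ev (Th h u)) (gam h w - gam h u) ≤ 3 * ds u w ^ 2 ∧
    wedge (gam h w - gam h u) ((sp h w : ℂ) * ev (Th h w)) ≤ 3 * ds u w ^ 2 := by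
  constructor
  · apply G03b_aux.fin h1 h2
    set a : ℂ := (sp h u : ℂ) * ev (Th h u) with ha
    let G : ℝ → ℝ := fun t => 1025 / 1000 * (t - u) ^ 2 - wedge a (gam h t - gam h u)
    have hd : ∀ t, HasDerivAt G (205 / 100 * (t - u) - sp h u * sp h t * sin (Th h t - Th h u)) t := by
      intro t
      have e1 : HasDerivAt (fun s : ℝ => 1025 / 1000 * (s - u) ^ 2) (205 / 100 * (t - u)) t := by
        have := (((hasDerivAt_id t).sub_const u).pow 2).const_mul (1025 / 1000 : ℝ)
        have h3 : (1025 / 1000 : ℝ) * ((2 : ℕ) * (t - u) ^ (2 - 1) * 1) = 205 / 100 * (t - u) := by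
          norm_num
          ring
        rw [← h3]
        exact this
      have e2 := G03b_aux.hasDerivAt_wedge_right a (gam h u) (hasDerivAt_gam hh t)
      rw [ha, wedge_ev] at e2
      exact e1.sub e2
    have hm : MonotoneOn G (Set.Icc u w) := by
      apply monotoneOn_of_deriv_nonneg (convex_Icc u w)
      · exact fun t _ => (hd t).continuousAt.continuousWithinAt
      · exact fun t _ => (hd t).differentiableAt.differentiableWithinAt
      · intro t ht
        rw [interior_Icc] at ht
        rw [(hd t).deriv]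
        have := G03b_aux.key hh (u := u) (t := t) ht.1.le
        linarith
    have hm2 := hm (Set.left_mem_Icc.2 h1) (Set.right_mem_Icc.2 h1) h1
    have h0 : G u = 0 := by simp [G, wedge]
    rw [h0] at hm2
    simp only [G] at hm2
    linarith
  · apply G03b_aux.fin h1 h2
    set a : ℂ := (sp h w : ℂ) * ev (Th h w) with ha
    let G : ℝ → ℝ := fun t => 1025 / 1000 * (w - t) ^ 2 - wedge (gam h w - gam h t) a
    have hd : ∀ t, HasDerivAt G (-(205 / 100 * (w - t)) + sp h t * sp h w * sin (Th h w - Th h t)) t := by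
      intro t
      have e1 : HasDerivAt (fun s : ℝ => 1025 / 1000 * (w - s) ^ 2) (-(205 / 100 * (w - t))) t := by
        have := (((hasDerivAt_id t).const_sub w).pow 2).const_mul (1025 / 1000 : ℝ)
        have h3 : (1025 / 1000 : ℝ) * ((2 : ℕ) * (w - t) ^ (2 - 1) * -1) = -(205 / 100 * (w - t)) := by
          norm_num
          ring
        rw [← h3]
        exact this
      have e2 := G03b_aux.hasDerivAt_wedge_left a (gam h w) (hasDerivAt_gam hh t)
      rw [ha, wedge_ev] at e2
      have e3 := e1.sub e2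
      have h4 : -(205 / 100 * (w - t)) + sp h t * sp h w * sin (Th h w - Th h t)
          = -(205 / 100 * (w - t)) - -(sp h t * sp h w * sin (Th h w - Th h t)) := by ring
      rw [h4]
      exact e3
    have hm : AntitoneOn G (Set.Icc u w) := by
      apply antitoneOn_of_deriv_nonpos (convex_Icc u w)
      · exact fun t _ => (hd t).continuousAt.continuousWithinAt
      · exact fun t _ => (hd t).differentiableAt.differentiableWithinAt
      · intro t ht
        rw [interior_Icc] at ht
        rw [(hd t).deriv]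
        have := G03b_aux.key hh (u := t) (t := w) ht.2.le
        linarith
    have hm2 := hm (Set.left_mem_Icc.2 h1) (Set.right_mem_Icc.2 h1) h1
    have h0 : G w = 0 := by simp [G, wedge]
    rw [h0] at hm2
    simp only [G] at hm2
    linarith

end BilEnt
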