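import Pool.Agent.BilEnt.Defs
import Pool.Agent.BilEnt.G02
import Pool.Agent.BilEnt.G03a
import Pool.Agent.BilEnt.G03b

/-!
# G03 : (G1)
-/

open MeasureTheory Real
open scoped ENNReal

namespace BilEnt

namespace G03_aux

theorem wedge_swap (a b : ℂ) : wedge a (-b) = wedge b a := by
  simp only [wedge, Complex.neg_re, Complex.neg_im]
  ring

theorem wedge_swap' (a b : ℂ) : wedge (-a) b = wedge b a := by
  simp only [wedge, Complex.neg_re, Complex.neg_im]
  ring

theorem ev_add (A : ℝ) : ev (A + 2 * π) = ev A := by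
  unfold ev
  push_cast
  rw [add_mul, Complex.exp_add, Complex.exp_two_pi_mul_I, mul_one]

end G03_aux

open G03_aux in
/-- (G1): chords are transverse to the tangents, quantitatively.
If `Th w - Th u ≤ π` use `wedge_lower_out`, `wedge_lower_in` for `(u,w)`; otherwise use them for
the pair `(w, u + 2π)`: `gam (u+2π) = gam u`, `ev (Th (u + 2π)) = ev (Th u)`,
`Th (u + 2π) - Th w = 2π - (Th w - Th u) ≤ π` and
`wedge (sp u • ev (Th u)) (gam w - gam u) = wedge (gam (u+2π) - gam w) (sp (u+2π) • ev (Th (u+2π)))`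
and similarly for the other one; `ds w (u+2π) = ds u w`.  In the same way for the upper bounds:
`w ≤ u + π` or `u + 2π ≤ w + π`. -/
theorem wedge_bounds {h : ℝ → ℝ} (hh : IsTab h) {u w : ℝ} (h1 : u < w) (h2 : w < u + 2 * π) :
    ds u w ^ 2 / 200 ≤ wedge ((sp h u : ℂ) * ev (Th h u)) (gam h w - gam h u) ∧
    wedge ((sp h u : ℂ) * ev (Th h u)) (gam h w - gam h u) ≤ 3 * ds u w ^ 2 ∧
    ds u w ^ 2 / 200 ≤ wedge (gam h w - gam h u) ((sp h w : ℂ) * ev (Th h w)) ∧
    wedge (gam h w - gam h u) ((sp h w : ℂ) * ev (Th h w)) ≤ 3 * ds u w ^ 2 := by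
  have hper : deriv h (u + 2 * π) = deriv h u := by
    have h3 : (fun x => h (x + 2 * π)) = h := funext fun x => hh.per x
    calc deriv h (u + 2 * π) = deriv (fun x => h (x + 2 * π)) u := by
          rw [deriv_comp_add_const]
      _ = deriv h u := by rw [h3]
  have hTh : Th h (u + 2 * π) = Th h u + 2 * π := by
    unfold Th
    rw [hper]
    ring
  have hev : ev (Th h (u + 2 * π)) = ev (Th h u) := by rw [hTh, ev_add]
  have hg := gam_per hh u
  have hsp := sp_per hh u
  have hds : ds w (u + 2 * π) = ds u w := by rw [ds_per_right, ds_comm]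
  -- the two wedges for the pair `(w, u + 2π)`
  have e1 : wedge (gam h (u + 2 * π) - gam h w)
      ((sp h (u + 2 * π) : ℂ) * ev (Th h (u + 2 * π))) =
      wedge ((sp h u : ℂ) * ev (Th h u)) (gam h w - gam h u) := by
    rw [hg, hsp, hev, ← neg_sub (gam h w) (gam h u), wedge_swap']
  have e2 : wedge ((sp h w : ℂ) * ev (Th h w)) (gam h (u + 2 * π) - gam h w) =
      wedge (gam h w - gam h u) ((sp h w : ℂ) * ev (Th h w)) := by
    rw [hg, ← neg_sub (gam h w) (gam h u), wedge_swap]
  have hlow : ds u w ^ 2 / 200 ≤ wedge ((sp h u : ℂ) * ev (Th h u)) (gam h w - gam h u) ∧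
      ds u w ^ 2 / 200 ≤ wedge (gam h w - gam h u) ((sp h w : ℂ) * ev (Th h w)) := by
    by_cases hc : Th h w - Th h u ≤ π
    · exact ⟨wedge_lower_out hh h1.le hc, wedge_lower_in hh h1.le hc⟩
    · have hc' : Th h (u + 2 * π) - Th h w ≤ π := by rw [hTh]; linarith [not_le.1 hc]
      have a1 := wedge_lower_out hh h2.le hc'
      have a2 := wedge_lower_in hh h2.le hc'
      rw [hds] at a1 a2
      rw [e2] at a1
      rw [e1] at a2
      exact ⟨a2, a1⟩
  have hup : wedge ((sp h u : ℂ) * ev (Th h u)) (gam h w - gam h u) ≤ 3 * ds u w ^ 2 ∧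
      wedge (gam h w - gam h u) ((sp h w : ℂ) * ev (Th h w)) ≤ 3 * ds u w ^ 2 := by
    by_cases hc : w ≤ u + π
    · exact wedge_upper hh h1.le hc
    · have hc' : u + 2 * π ≤ w + π := by linarith [not_le.1 hc]
      obtain ⟨a1, a2⟩ := wedge_upper hh h2.le hc'
      rw [hds] at a1 a2
      rw [e2] at a1
      rw [e1] at a2
      exact ⟨a2, a1⟩
  exact ⟨hlow.1, hup.1, hlow.2, hup.2⟩

end BilEnt
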