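import Pool.Agent.BilEnt.Defs
import Pool.Agent.BilEnt.G04

/-!
# G05 : (G3), the explicit chord direction
-/

open MeasureTheory Real
open scoped ENNReal

namespace BilEnt

namespace G05_aux

theorem ev_add (x y : ℝ) : ev (x + y) = ev x * ev y := by
  unfold ev
  rw [← Complex.exp_add]
  congr 1
  push_cast
  ring

theorem ev_half (t : ℝ) : ev (π / 2 - t) = (sin t : ℂ) + (cos t : ℂ) * Complex.I := by
  unfold ev
  rw [Complex.exp_mul_I, ← Complex.ofReal_cos, ← Complex.ofReal_sin, Real.cos_pi_div_two_sub,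
    Real.sin_pi_div_two_sub]

theorem diff_eq (h : ℝ → ℝ) (u w : ℝ) : gam h w - gam h u =
    2 * (exp ((h u + h w) / 2) : ℝ) * ev ((u + w) / 2) *
      (((sinh ((h w - h u) / 2) : ℝ) : ℂ) * ((cos ((w - u) / 2) : ℝ) : ℂ) +
        ((cosh ((h w - h u) / 2) : ℝ) : ℂ) * ((sin ((w - u) / 2) : ℝ) : ℂ) * Complex.I) := by
  have e1 : Complex.sinh ((((h w - h u) / 2 : ℝ) : ℂ) + (((w - u) / 2 : ℝ) : ℂ) * Complex.I) =
      ((sinh ((h w - h u) / 2) : ℝ) : ℂ) * ((cos ((w - u) / 2) : ℝ) : ℂ) +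
        ((cosh ((h w - h u) / 2) : ℝ) : ℂ) * ((sin ((w - u) / 2) : ℝ) : ℂ) * Complex.I := by
    rw [Complex.sinh_add, Complex.cosh_mul_I, Complex.sinh_mul_I, ← Complex.ofReal_sinh,
      ← Complex.ofReal_cosh, ← Complex.ofReal_cos, ← Complex.ofReal_sin]
    ring
  rw [← e1]
  have e2 : 2 * Complex.sinh ((((h w - h u) / 2 : ℝ) : ℂ) +
      (((w - u) / 2 : ℝ) : ℂ) * Complex.I) =
      Complex.exp ((((h w - h u) / 2 : ℝ) : ℂ) + (((w - u) / 2 : ℝ) : ℂ) * Complex.I) -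
      Complex.exp (-((((h w - h u) / 2 : ℝ) : ℂ) + (((w - u) / 2 : ℝ) : ℂ) * Complex.I)) :=
    Complex.two_sinh _
  have e3 : 2 * ((exp ((h u + h w) / 2) : ℝ) : ℂ) * ev ((u + w) / 2) *
      Complex.sinh ((((h w - h u) / 2 : ℝ) : ℂ) + (((w - u) / 2 : ℝ) : ℂ) * Complex.I) =
      ((exp ((h u + h w) / 2) : ℝ) : ℂ) * ev ((u + w) / 2) *
      (2 * Complex.sinh ((((h w - h u) / 2 : ℝ) : ℂ) + (((w - u) / 2 : ℝ) : ℂ) * Complex.I)) := by
    ring
  rw [e3, e2]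
  unfold ev gam
  rw [Complex.ofReal_exp, mul_sub, ← Complex.exp_add, ← Complex.exp_add, ← Complex.exp_add]
  congr 1
  · congr 1
    push_cast
    ring
  · congr 1
    push_cast
    ring

end G05_aux

open G05_aux

/-- (G3): explicit chord direction.  With `z_u = h u + i u`, `a = h w - h u`, `b = w - u`,
`e^{z_w} - e^{z_u} = 2 e^{(z_u+z_w)/2} sinh ((a + i b)/2)
 = 2 e^{(h u + h w)/2} e^{i (u+w)/2} (sinh(a/2) cos(b/2) + i cosh(a/2) sin(b/2))
 = 2 e^{(h u + h w)/2} cosh(a/2) sin(b/2) e^{i (u+w)/2} i (1 - i T)`,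
`T = tanh(a/2) cos(b/2)/sin(b/2)`, `sin(b/2) > 0`, and `1 - i T = sqrt(1+T^2) e^{-i arctan T}`.
So the difference is `r * ev (ang h u w)` with `r > 0`; taking norms `r = HH h u w`. -/
theorem chord_eq {h : ℝ → ℝ} {u w : ℝ} (h1 : u < w) (h2 : w < u + 2 * π) :
    gam h w - gam h u = (HH h u w : ℂ) * ev (ang h u w) := by
  have hs : 0 < sin ((w - u) / 2) := Real.sin_pos_of_pos_of_lt_pi (by linarith) (by linarith)
  obtain ⟨T, hT⟩ : ∃ T : ℝ, T = tanh ((h w - h u) / 2) *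
      (cos ((w - u) / 2) / sin ((w - u) / 2)) := ⟨_, rfl⟩
  have hch : 0 < cosh ((h w - h u) / 2) := Real.cosh_pos _
  have hq : 0 < √(1 + T ^ 2) := Real.sqrt_pos.2 (by positivity)
  have hCT : cosh ((h w - h u) / 2) * sin ((w - u) / 2) * T =
      sinh ((h w - h u) / 2) * cos ((w - u) / 2) := by
    rw [hT, Real.tanh_eq_sinh_div_cosh]
    field_simp
  obtain ⟨r, hr⟩ : ∃ r : ℝ, r = 2 * exp ((h u + h w) / 2) * cosh ((h w - h u) / 2) *
      sin ((w - u) / 2) * √(1 + T ^ 2) := ⟨_, rfl⟩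
  have hr0 : 0 < r := by
    rw [hr]
    have := Real.exp_pos ((h u + h w) / 2)
    positivity
  have hang : ang h u w = (u + w) / 2 + (π / 2 - arctan T) := by
    unfold ang
    rw [← hT]
    ring
  have hev : ((√(1 + T ^ 2) : ℝ) : ℂ) * ev (π / 2 - arctan T) = (T : ℂ) + Complex.I := by
    rw [ev_half, Real.sin_arctan, Real.cos_arctan]
    push_cast
    have hq' : ((√(1 + T ^ 2) : ℝ) : ℂ) ≠ 0 := by
      exact_mod_cast hq.ne'
    field_simp
  have key : gam h w - gam h u = (r : ℂ) * ev (ang h u w) := by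
    rw [hang, ev_add, diff_eq, hr]
    have e1 : ((sinh ((h w - h u) / 2) : ℝ) : ℂ) * ((cos ((w - u) / 2) : ℝ) : ℂ) =
        ((cosh ((h w - h u) / 2) : ℝ) : ℂ) * ((sin ((w - u) / 2) : ℝ) : ℂ) * (T : ℂ) := by
      exact_mod_cast hCT.symm
    rw [e1]
    push_cast
    linear_combination (-(2 * Complex.exp ((((h u : ℝ) : ℂ) + ((h w : ℝ) : ℂ)) / 2) *
      ev ((u + w) / 2) * (Complex.cosh ((((h w : ℝ) : ℂ) - ((h u : ℝ) : ℂ)) / 2) *
      Complex.sin ((((w : ℝ) : ℂ) - ((u : ℝ) : ℂ)) / 2)))) * hev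
  have hn : HH h u w = r := by
    unfold HH
    rw [key, norm_mul, Complex.norm_real, Real.norm_eq_abs, abs_of_pos hr0]
    have : ‖ev (ang h u w)‖ = 1 := by
      unfold ev
      exact Complex.norm_exp_ofReal_mul_I _
    rw [this, mul_one]
  rw [hn]
  exact key

/-- `cos (π - x)/sin (π - x) = - cos x/sin x` and `tanh (-y) = - tanh y`. -/
theorem ang_flip {h : ℝ → ℝ} (hh : IsTab h) {u w : ℝ} (h1 : u < w) (h2 : w < u + 2 * π) :
    ang h w (u + 2 * π) = ang h u w + π := by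
  unfold ang
  rw [hh.per u]
  have e1 : (u + 2 * π - w) / 2 = π - (w - u) / 2 := by ring
  have e2 : (h u - h w) / 2 = -((h w - h u) / 2) := by ring
  rw [e1, e2, Real.cos_pi_sub, Real.sin_pi_sub, Real.tanh_neg]
  have e3 : -tanh ((h w - h u) / 2) * (-cos ((w - u) / 2) / sin ((w - u) / 2)) =
      tanh ((h w - h u) / 2) * (cos ((w - u) / 2) / sin ((w - u) / 2)) := by ring
  rw [e3]
  ring

theorem ang_per {h : ℝ → ℝ} (hh : IsTab h) (u w : ℝ) :
    ang h (u + 2 * π) (w + 2 * π) = ang h u w + 2 * π := by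
  unfold ang
  rw [hh.per u, hh.per w]
  have e1 : (w + 2 * π - (u + 2 * π)) / 2 = (w - u) / 2 := by ring
  rw [e1]
  ring

end BilEnt
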