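import Pool.Agent.BilEnt.Defs
import Pool.Agent.BilEnt.G05

/-!
# G06a : the chord direction is `C^1`
-/

open MeasureTheory Real
open scoped ENNReal

namespace BilEnt

/-- `ang` is a composition of smooth functions and of `h` (`ContDiff ℝ 2`), with
`sin ((w - u)/2) ≠ 0` (`ContDiffAt.div`, `ContDiff.comp`, `Real.contDiff_arctan`; for `tanh` use
`tanh x = sinh x / cosh x`, `Real.cosh_pos`). -/
theorem contDiffAt_ang {h : ℝ → ℝ} (hh : IsTab h) {u w : ℝ} (h1 : u < w)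
    (h2 : w < u + 2 * π) : ContDiffAt ℝ 1 (fun q : ℝ × ℝ => ang h q.1 q.2) (u, w) := by
  have hh1 : ContDiff ℝ 1 h := hh.c2.of_le (by norm_num)
  have f1 : ContDiff ℝ 1 (fun q : ℝ × ℝ => h q.1) := hh1.comp contDiff_fst
  have f2 : ContDiff ℝ 1 (fun q : ℝ × ℝ => h q.2) := hh1.comp contDiff_snd
  have g1 : ContDiff ℝ 1 (fun q : ℝ × ℝ => (h q.2 - h q.1) / 2) := (f2.sub f1).div_const 2
  have g2 : ContDiff ℝ 1 (fun q : ℝ × ℝ => (q.2 - q.1) / 2) := (contDiff_snd.sub contDiff_fst).div_const 2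
  have g3 : ContDiff ℝ 1 (fun q : ℝ × ℝ => (q.1 + q.2) / 2 + π / 2) :=
    ((contDiff_fst.add contDiff_snd).div_const 2).add contDiff_const
  have t1 : ContDiff ℝ 1 (fun q : ℝ × ℝ => tanh ((h q.2 - h q.1) / 2)) := by
    have e : (fun q : ℝ × ℝ => tanh ((h q.2 - h q.1) / 2)) =
        fun q : ℝ × ℝ => sinh ((h q.2 - h q.1) / 2) / cosh ((h q.2 - h q.1) / 2) := by
      funext q
      exact Real.tanh_eq_sinh_div_cosh _
    rw [e]
    exact (Real.contDiff_sinh.comp g1).div (Real.contDiff_cosh.comp g1) fun q => (Real.cosh_pos _).ne'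
  have hs : sin ((w - u) / 2) ≠ 0 := by
    refine (Real.sin_pos_of_pos_of_lt_pi ?_ ?_).ne'
    · linarith
    · linarith
  have t2 : ContDiffAt ℝ 1 (fun q : ℝ × ℝ => cos ((q.2 - q.1) / 2) / sin ((q.2 - q.1) / 2)) (u, w) :=
    ((Real.contDiff_cos.comp g2).contDiffAt).div ((Real.contDiff_sin.comp g2).contDiffAt) hs
  have t3 := t1.contDiffAt.mul t2
  have t4 : ContDiffAt ℝ 1 (fun q : ℝ × ℝ => arctan (tanh ((h q.2 - h q.1) / 2) *
      (cos ((q.2 - q.1) / 2) / sin ((q.2 - q.1) / 2)))) (u, w) :=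
    (Real.contDiff_arctan.contDiffAt).comp (u, w) t3
  exact g3.contDiffAt.sub t4

end BilEnt
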