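import Pool.Agent.BilEnt.Defs
import Pool.Agent.BilEnt.G05
import Pool.Agent.BilEnt.G03
import Pool.Agent.BilEnt.G06a

/-!
# G06 : gradient of the chord direction
-/

open MeasureTheory Real
open scoped ENNReal

namespace BilEnt

namespace G06_aux

theorem hasDerivAt_re {f : ℝ → ℂ} {f' : ℂ} {x : ℝ} (hf : HasDerivAt f f' x) :
    HasDerivAt (fun t => (f t).re) f'.re x := by
  have := (Complex.reCLM.hasFDerivAt (x := f x)).comp_hasDerivAt x hf
  simpa [Function.comp_def] using this

theorem hasDerivAt_im {f : ℝ → ℂ} {f' : ℂ} {x : ℝ} (hf : HasDerivAt f f' x) :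
    HasDerivAt (fun t => (f t).im) f'.im x := by
  have := (Complex.imCLM.hasFDerivAt (x := f x)).comp_hasDerivAt x hf
  simpa [Function.comp_def] using this

theorem solve {a p q : ℝ → ℝ} {a' p' q' x H : ℝ} (ha : HasDerivAt a a' x)
    (hp : HasDerivAt p p' x) (hq : HasDerivAt q q' x)
    (h0 : ∀ᶠ t in nhds x, cos (a t) * q t - sin (a t) * p t = 0)
    (hpx : p x = H * cos (a x)) (hqx : q x = H * sin (a x)) :
    a' * H = cos (a x) * q' - sin (a x) * p' := by
  have hd : HasDerivAt (fun t => cos (a t) * q t - sin (a t) * p t)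
      ((-sin (a x) * a') * q x + cos (a x) * q' - ((cos (a x) * a') * p x + sin (a x) * p')) x :=
    (ha.cos.mul hq).sub (ha.sin.mul hp)
  have hz : HasDerivAt (fun t => cos (a t) * q t - sin (a t) * p t) 0 x :=
    (hasDerivAt_const x (0 : ℝ)).congr_of_eventuallyEq h0
  have := hd.unique hz
  rw [hpx, hqx] at this
  have hsc := sin_sq_add_cos_sq (a x)
  linear_combination (-1) * this - a' * H * hsc

theorem chord_re {h : ℝ → ℝ} {u w : ℝ} (h1 : u < w) (h2 : w < u + 2 * π) :
    (gam h w).re - (gam h u).re = HH h u w * cos (ang h u w) := by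
  rw [← Complex.sub_re, chord_eq h1 h2, Complex.re_ofReal_mul, ev_re]

theorem chord_im {h : ℝ → ℝ} {u w : ℝ} (h1 : u < w) (h2 : w < u + 2 * π) :
    (gam h w).im - (gam h u).im = HH h u w * sin (ang h u w) := by
  rw [← Complex.sub_im, chord_eq h1 h2, Complex.im_ofReal_mul, ev_im]

theorem chord_zero {h : ℝ → ℝ} {u w : ℝ} (h1 : u < w) (h2 : w < u + 2 * π) :
    cos (ang h u w) * ((gam h w).im - (gam h u).im)
      - sin (ang h u w) * ((gam h w).re - (gam h u).re) = 0 := by
  rw [chord_re h1 h2, chord_im h1 h2]; ring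

end G06_aux

/-- gradient of the chord direction:  `∂ang/∂u = pout / H`, `∂ang/∂w = pin / H`.
By `contDiffAt_ang` and `ContDiffAt.hasStrictFDerivAt` there is a strict derivative `L`; it remains to
identify `L (1,0)` and `L (0,1)`.  Near `(u,w)` one has, by `chord_eq`,
`wedge (ev (ang h q.1 q.2)) (gam h q.2 - gam h q.1) = 0`.  Differentiate this identity along
`w` : with `e = ev (ang h u w)`, `H = HH h u w > 0`, `gam w - gam u = H e`,
`L(0,1) * wedge (i e) (H e) + wedge e (sp w • ev (Th w)) = 0`, and `wedge (i e) (H e) = - H`, so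
`L (0,1) = wedge e (sp w • ev (Th w)) / H = wedge (gam w - gam u) (sp w • ev (Th w)) / H^2`; along `u`:
`- H L(1,0) - wedge e (sp u • ev (Th u)) = 0`, i.e.
`L (1,0) = wedge (sp u • ev (Th u)) (gam w - gam u) / H^2`. -/
theorem hasStrictFDerivAt_ang {h : ℝ → ℝ} (hh : IsTab h) {u w : ℝ} (h1 : u < w)
    (h2 : w < u + 2 * π) :
    HasStrictFDerivAt (fun q : ℝ × ℝ => ang h q.1 q.2)
      ((wedge ((sp h u : ℂ) * ev (Th h u)) (gam h w - gam h u) / HH h u w ^ 2) •
          ContinuousLinearMap.fst ℝ ℝ ℝ +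
        (wedge (gam h w - gam h u) ((sp h w : ℂ) * ev (Th h w)) / HH h u w ^ 2) •
          ContinuousLinearMap.snd ℝ ℝ ℝ) (u, w) := by
  have hc := contDiffAt_ang hh h1 h2
  have hs := hc.hasStrictFDerivAt one_ne_zero
  have hH := HH_pos hh h1 h2
  set L := fderiv ℝ (fun q : ℝ × ℝ => ang h q.1 q.2) (u, w) with hL
  have hfd : HasFDerivAt (fun q : ℝ × ℝ => ang h q.1 q.2) L (u, w) := hs.hasFDerivAt
  have hg1 := hasDerivAt_gam hh u
  have hg2 := hasDerivAt_gam hh w
  -- derivative in the first variable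
  have hd1 : HasDerivAt (fun s : ℝ => ang h s w) (L (1, 0)) u := by
    have hpair : HasDerivAt (fun s : ℝ => (s, w)) ((1 : ℝ), (0 : ℝ)) u :=
      (hasDerivAt_id u).prodMk (hasDerivAt_const u w)
    exact hfd.comp_hasDerivAt u hpair
  have hd2 : HasDerivAt (fun t : ℝ => ang h u t) (L (0, 1)) w := by
    have hpair : HasDerivAt (fun t : ℝ => (u, t)) ((0 : ℝ), (1 : ℝ)) w :=
      (hasDerivAt_const w u).prodMk (hasDerivAt_id w)
    exact hfd.comp_hasDerivAt w hpair
  have e1 : L (1, 0) * HH h u w = cos (ang h u w) * (0 - ((sp h u : ℂ) * ev (Th h u)).im)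
      - sin (ang h u w) * (0 - ((sp h u : ℂ) * ev (Th h u)).re) := by
    refine G06_aux.solve (a := fun s : ℝ => ang h s w)
      (p := fun s => (gam h w).re - (gam h s).re) (q := fun s => (gam h w).im - (gam h s).im)
      hd1 ((hasDerivAt_const u _).sub (G06_aux.hasDerivAt_re hg1))
      ((hasDerivAt_const u _).sub (G06_aux.hasDerivAt_im hg1)) ?_
      (G06_aux.chord_re h1 h2) (G06_aux.chord_im h1 h2)
    have hev : ∀ᶠ s in nhds u, s < w ∧ w < s + 2 * π := by
      apply Filter.Eventually.and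
      · exact eventually_lt_nhds h1
      · filter_upwards [eventually_gt_nhds (show w - 2 * π < u by linarith)] with s hs
        linarith
    filter_upwards [hev] with s hs
    exact G06_aux.chord_zero hs.1 hs.2
  have e2 : L (0, 1) * HH h u w = cos (ang h u w) * (((sp h w : ℂ) * ev (Th h w)).im - 0)
      - sin (ang h u w) * (((sp h w : ℂ) * ev (Th h w)).re - 0) := by
    refine G06_aux.solve (a := fun t : ℝ => ang h u t)
      (p := fun t => (gam h t).re - (gam h u).re) (q := fun t => (gam h t).im - (gam h u).im)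
      hd2 ((G06_aux.hasDerivAt_re hg2).sub (hasDerivAt_const w _))
      ((G06_aux.hasDerivAt_im hg2).sub (hasDerivAt_const w _)) ?_
      (G06_aux.chord_re h1 h2) (G06_aux.chord_im h1 h2)
    have hev : ∀ᶠ t in nhds w, u < t ∧ t < u + 2 * π :=
      (eventually_gt_nhds h1).and (eventually_lt_nhds h2)
    filter_upwards [hev] with s hs
    exact G06_aux.chord_zero hs.1 hs.2
  have f1 : L (1, 0) = wedge ((sp h u : ℂ) * ev (Th h u)) (gam h w - gam h u) / HH h u w ^ 2 := by
    rw [eq_div_iff (by positivity)]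
    unfold wedge
    rw [Complex.sub_re, Complex.sub_im, G06_aux.chord_re h1 h2, G06_aux.chord_im h1 h2]
    linear_combination HH h u w * e1
  have f2 : L (0, 1) = wedge (gam h w - gam h u) ((sp h w : ℂ) * ev (Th h w)) / HH h u w ^ 2 := by
    rw [eq_div_iff (by positivity)]
    unfold wedge
    rw [Complex.sub_re, Complex.sub_im, G06_aux.chord_re h1 h2, G06_aux.chord_im h1 h2]
    linear_combination HH h u w * e2
  have hfin : (wedge ((sp h u : ℂ) * ev (Th h u)) (gam h w - gam h u) / HH h u w ^ 2) •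
          ContinuousLinearMap.fst ℝ ℝ ℝ +
        (wedge (gam h w - gam h u) ((sp h w : ℂ) * ev (Th h w)) / HH h u w ^ 2) •
          ContinuousLinearMap.snd ℝ ℝ ℝ = L := by
    rw [← f1, ← f2]
    ext
    · simp
    · simp
  rw [hfin]
  exact hs

end BilEnt
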