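import Pool.Agent.BilEnt.Defs
import Pool.Agent.BilEnt.G06

/-!
# G07 : range of the chord direction
-/

open MeasureTheory Real
open scoped ENNReal

namespace BilEnt

namespace G07_aux

private theorem range_of_sin_pos {x : ℝ} (h1 : -π < x) (h2 : x < 2 * π) (h : 0 < sin x) :
    0 < x ∧ x < π := by
  constructor
  · by_contra h3
    push Not at h3
    exact absurd h (not_lt.2 (Real.sin_nonpos_of_nonpos_of_neg_pi_le h3 h1.le))
  · by_contra h3
    push Not at h3
    have h4 : 0 ≤ sin (x - π) :=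
      Real.sin_nonneg_of_nonneg_of_le_pi (by linarith) (by linarith)
    rw [Real.sin_sub_pi] at h4
    linarith

private theorem hasDerivAt_ang {h : ℝ → ℝ} (hh : IsTab h) {u w : ℝ} (h1 : u < w)
    (h2 : w < u + 2 * π) :
    HasDerivAt (ang h u)
      (wedge (gam h w - gam h u) ((sp h w : ℂ) * ev (Th h w)) / HH h u w ^ 2) w := by
  have h3 := (hasStrictFDerivAt_ang hh h1 h2).hasFDerivAt
  have h4 : HasDerivAt (fun x : ℝ => ((u, x) : ℝ × ℝ)) ((0, 1) : ℝ × ℝ) w :=
    (hasDerivAt_const w u).prodMk (hasDerivAt_id w)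
  have h5 := h3.comp_hasDerivAt w h4
  simpa [Function.comp_def] using h5

end G07_aux

open G07_aux

/-- By `chord_eq`, `wedge_ev` and `wedge_bounds`, `sp u * H * sin (ang - Th u) ≥ ds^2/200 > 0` and
`H * sp w * sin (Th w - ang) > 0`.  Moreover `|ang - (u+w)/2 - π/2| < π/2` (`arctan` has range
`(-π/2, π/2)`), `|Th u - u - π/2| ≤ 1/100` and `0 < (w-u)/2 < π`, so
`-π/2 - 1/100 < ang - Th u < 3π/2 + 1/100` and likewise for `Th w - ang`; together with the
positive sine this gives `0 < ang - Th u < π`, `0 < Th w - ang < π`. -/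
theorem ang_range {h : ℝ → ℝ} (hh : IsTab h) {u w : ℝ} (h1 : u < w) (h2 : w < u + 2 * π) :
    Th h u < ang h u w ∧ ang h u w < Th h u + π ∧ ang h u w < Th h w ∧ Th h w < ang h u w + π := by
  obtain ⟨w1, -, w3, -⟩ := wedge_bounds hh h1 h2
  have hds := ds_pos h1 h2
  have hH := HH_pos hh h1 h2
  have hsu : 0 < sp h u := by linarith [(sp_bounds hh u).1]
  have hsw : 0 < sp h w := by linarith [(sp_bounds hh w).1]
  rw [chord_eq h1 h2, wedge_ev] at w1 w3
  have hpos : 0 < ds u w ^ 2 / 200 := by positivity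
  have s1 : 0 < sin (ang h u w - Th h u) := by
    have := lt_of_lt_of_le hpos w1
    exact (pos_iff_pos_of_mul_pos this).1 (by positivity)
  have s2 : 0 < sin (Th h w - ang h u w) := by
    have := lt_of_lt_of_le hpos w3
    exact (pos_iff_pos_of_mul_pos this).1 (by positivity)
  have n1 := abs_le.1 (Th_near hh u)
  have n2 := abs_le.1 (Th_near hh w)
  have a1 := Real.arctan_lt_pi_div_two
    (tanh ((h w - h u) / 2) * (cos ((w - u) / 2) / sin ((w - u) / 2)))
  have a2 := Real.neg_pi_div_two_lt_arctan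
    (tanh ((h w - h u) / 2) * (cos ((w - u) / 2) / sin ((w - u) / 2)))
  have hang : ang h u w = (u + w) / 2 + π / 2 -
    arctan (tanh ((h w - h u) / 2) * (cos ((w - u) / 2) / sin ((w - u) / 2))) := rfl
  set T := arctan (tanh ((h w - h u) / 2) * (cos ((w - u) / 2) / sin ((w - u) / 2)))
  have hpi := Real.pi_gt_three
  have r1 := range_of_sin_pos (x := ang h u w - Th h u) (by linarith [n1.1, n1.2])
    (by linarith [n1.1, n1.2]) s1
  have r2 := range_of_sin_pos (x := Th h w - ang h u w) (by linarith [n2.1, n2.2])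
    (by linarith [n2.1, n2.2]) s2
  exact ⟨by linarith [r1.1], by linarith [r1.2], by linarith [r2.1], by linarith [r2.2]⟩

/-- the derivative in `w` is `wedge .../HH^2 > 0` (`hasStrictFDerivAt_ang`, `wedge_bounds`). -/
theorem ang_strictMono {h : ℝ → ℝ} (hh : IsTab h) (u : ℝ) :
    StrictMonoOn (ang h u) (Set.Ioo u (u + 2 * π)) := by
  refine strictMonoOn_of_deriv_pos (convex_Ioo _ _) ?_ ?_
  · intro w hw
    exact (hasDerivAt_ang hh hw.1 hw.2).continuousAt.continuousWithinAt
  · intro w hw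
    rw [interior_Ioo] at hw
    rw [(hasDerivAt_ang hh hw.1 hw.2).deriv]
    have hds := ds_pos hw.1 hw.2
    have hH := HH_pos hh hw.1 hw.2
    have w3 := (wedge_bounds hh hw.1 hw.2).2.2.1
    have : 0 < wedge (gam h w - gam h u) ((sp h w : ℂ) * ev (Th h w)) :=
      lt_of_lt_of_le (by positivity) w3
    positivity

/-- Intermediate value theorem on `[w1, w2]`, `w1 = u + (A - Th u)/1.97`,
`w2 = u + 2π - (Th u + π - A)/1.97` (if `w1 ≤ w2`, which follows from the two inequalities and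
monotonicity; or directly: `w2 - w1 = 2π - π/1.97 > 0`).
By `Th_sub_bounds`, `Th w1 ≤ A`, and `ang u w1 < Th w1 ≤ A` by `ang_range`; similarly
`Th w2 ≥ Th u + 2π - (Th u + π - A) = A + π` and `ang u w2 > Th w2 - π ≥ A`. -/
theorem ang_surj {h : ℝ → ℝ} (hh : IsTab h) (u A : ℝ) (h1 : Th h u < A) (h2 : A < Th h u + π) :
    ∃ w, u < w ∧ w < u + 2 * π ∧ ang h u w = A := by
  have hpi := Real.pi_gt_three
  obtain ⟨w1, hw1⟩ : ∃ w1 : ℝ, w1 = u + (A - Th h u) * (100 / 197) := ⟨_, rfl⟩
  obtain ⟨w2, hw2⟩ : ∃ w2 : ℝ, w2 = u + 2 * π - (Th h u + π - A) * (100 / 197) := ⟨_, rfl⟩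
  have p1 : u < w1 := by rw [hw1]; linarith
  have p2 : w2 < u + 2 * π := by rw [hw2]; linarith
  have p3 : w1 ≤ w2 := by rw [hw1, hw2]; linarith
  have p4 : w1 < u + 2 * π := lt_of_le_of_lt p3 p2
  have p5 : u < w2 := lt_of_lt_of_le p1 p3
  have t1 := (Th_sub_bounds hh p1.le).2
  have t2 := (Th_sub_bounds hh p2.le).2
  rw [Th_per hh] at t2
  have q1 : Th h w1 ≤ A := by
    have : 197 / 100 * (w1 - u) = A - Th h u := by rw [hw1]; ring
    linarith
  have q2 : A + π ≤ Th h w2 := by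
    have : 197 / 100 * (u + 2 * π - w2) = Th h u + π - A := by rw [hw2]; ring
    linarith
  have g1 := (ang_range hh p1 p4).2.2.1
  have g2 := (ang_range hh p5 p2).2.2.2
  have hcont : ContinuousOn (ang h u) (Set.Icc w1 w2) := by
    intro w hw
    exact (hasDerivAt_ang hh (lt_of_lt_of_le p1 hw.1)
      (lt_of_le_of_lt hw.2 p2)).continuousAt.continuousWithinAt
  obtain ⟨w, hw, hwA⟩ := intermediate_value_Icc p3 hcont
    (show A ∈ Set.Icc (ang h u w1) (ang h u w2) from ⟨by linarith, by linarith⟩)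
  exact ⟨w, lt_of_lt_of_le p1 hw.1, lt_of_le_of_lt hw.2 p2, hwA⟩

end BilEnt
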