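import Pool.Agent.BilEnt.Defs
import Pool.Agent.BilEnt.G07

/-!
# G08 : (G4), the next bounce point
-/

open MeasureTheory Real
open scoped ENNReal

namespace BilEnt

/-- from `ang_surj` and the definition of `V` (`Exists.choose_spec`). -/
theorem V_spec {h : ℝ → ℝ} (hh : IsTab h) {z : ℝ × ℝ} (hz : z ∈ dom h) :
    z.1 < V h z ∧ V h z < z.1 + 2 * π ∧ ang h z.1 (V h z) = z.2 := by
  have hx := ang_surj hh z.1 z.2 hz.1 hz.2
  unfold V
  rw [dif_pos hx]
  exact hx.choose_spec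

/-- injectivity from `ang_strictMono`. -/
theorem V_unique {h : ℝ → ℝ} (hh : IsTab h) {z : ℝ × ℝ} {w : ℝ} (h1 : z.1 < w)
    (h2 : w < z.1 + 2 * π) (h3 : ang h z.1 w = z.2) : V h z = w := by
  have hr := ang_range hh h1 h2
  rw [h3] at hr
  have hz : z ∈ dom h := ⟨hr.1, hr.2.1⟩
  obtain ⟨k1, k2, k3⟩ := V_spec hh hz
  exact (ang_strictMono hh z.1).injOn ⟨k1, k2⟩ ⟨h1, h2⟩ (by rw [k3, h3])

/-- membership in `dom` from a chord -/
theorem mem_dom_of_ang {h : ℝ → ℝ} (hh : IsTab h) {z : ℝ × ℝ} {w : ℝ} (h1 : z.1 < w)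
    (h2 : w < z.1 + 2 * π) (h3 : ang h z.1 w = z.2) : z ∈ dom h := by
  have hr := ang_range hh h1 h2
  rw [h3] at hr
  exact ⟨hr.1, hr.2.1⟩

/-- comparison form of the definition of `V` (for measurability in parameters). -/
theorem lt_V_iff {h : ℝ → ℝ} (hh : IsTab h) {z : ℝ × ℝ} (hz : z ∈ dom h) {w : ℝ} (h1 : z.1 < w)
    (h2 : w < z.1 + 2 * π) : w < V h z ↔ ang h z.1 w < z.2 := by
  obtain ⟨k1, k2, k3⟩ := V_spec hh hz
  have k4 := (ang_strictMono hh z.1).lt_iff_lt (⟨h1, h2⟩ : w ∈ Set.Ioo z.1 (z.1 + 2 * π))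
    (⟨k1, k2⟩ : V h z ∈ Set.Ioo z.1 (z.1 + 2 * π))
  rw [← k4, k3]

/-- `Th V < 2 Th V - A < Th V + π` is `A < Th V < A + π`, i.e. `ang_range`. -/
theorem fm_mem {h : ℝ → ℝ} (hh : IsTab h) {z : ℝ × ℝ} (hz : z ∈ dom h) : fm h z ∈ dom h := by
  obtain ⟨k1, k2, k3⟩ := V_spec hh hz
  have hr := ang_range hh k1 k2
  rw [k3] at hr
  refine ⟨?_, ?_⟩
  · show Th h (V h z) < 2 * Th h (V h z) - z.2
    linarith [hr.2.2.1]
  · show 2 * Th h (V h z) - z.2 < Th h (V h z) + π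
    linarith [hr.2.2.2]

theorem hl_pos {h : ℝ → ℝ} (hh : IsTab h) {z : ℝ × ℝ} (hz : z ∈ dom h) : 0 < hl h z := by
  obtain ⟨k1, k2, k3⟩ := V_spec hh hz
  exact HH_pos hh k1 k2

theorem stt_pos {h : ℝ → ℝ} {z : ℝ × ℝ} (hz : z ∈ dom h) : 0 < stt h z := by
  refine sin_pos_of_pos_of_lt_pi ?_ ?_
  · have := hz.1
    linarith
  · have := hz.2
    linarith

theorem pw_pos {h : ℝ → ℝ} (hh : IsTab h) {z : ℝ × ℝ} (hz : z ∈ dom h) : 0 < pw h z := by
  have h1 := (sp_bounds hh z.1).1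
  exact mul_pos (by linarith) (stt_pos hz)

theorem chord_V {h : ℝ → ℝ} (hh : IsTab h) {z : ℝ × ℝ} (hz : z ∈ dom h) :
    gam h (V h z) - gam h z.1 = (hl h z : ℂ) * ev z.2 := by
  obtain ⟨k1, k2, k3⟩ := V_spec hh hz
  have := chord_eq (h := h) k1 k2
  rw [k3] at this
  exact this

theorem pw_out {h : ℝ → ℝ} (hh : IsTab h) {z : ℝ × ℝ} (hz : z ∈ dom h) :
    wedge ((sp h z.1 : ℂ) * ev (Th h z.1)) (gam h (V h z) - gam h z.1) = pw h z * hl h z := by
  rw [chord_V hh hz, wedge_ev]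
  unfold pw stt
  ring

/-- `pw (fm z) = sp V * sin (2 Th V - A - Th V) = sp V * sin (Th V - A)`. -/
theorem pw_in {h : ℝ → ℝ} (hh : IsTab h) {z : ℝ × ℝ} (hz : z ∈ dom h) :
    wedge (gam h (V h z) - gam h z.1) ((sp h (V h z) : ℂ) * ev (Th h (V h z))) =
      pw h (fm h z) * hl h z := by
  rw [chord_V hh hz, wedge_ev]
  unfold pw stt fm
  simp only
  have h1 : 2 * Th h (V h z) - z.2 - Th h (V h z) = Th h (V h z) - z.2 := by ring
  rw [h1]
  ring

/-- sine of the incoming angle equals sine of the next outgoing angle -/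
theorem stt_fm {h : ℝ → ℝ} (z : ℝ × ℝ) : stt h (fm h z) = sin (Th h (V h z) - z.2) := by
  unfold stt fm
  simp only
  congr 1
  ring

/-- geometric characterisation of the next bounce point: by `chord_eq` the hypothesis says
`HH * sin (ang h z.1 w - z.2) = 0`; both angles are in `(Th z.1, Th z.1 + π)`, so they are equal. -/
theorem V_char {h : ℝ → ℝ} (hh : IsTab h) {z : ℝ × ℝ} (hz : z ∈ dom h) {w : ℝ} (h1 : z.1 < w)
    (h2 : w < z.1 + 2 * π) (h3 : wedge (ev z.2) (gam h w - gam h z.1) = 0) : V h z = w := by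
  have hr := ang_range hh h1 h2
  have hp := HH_pos hh h1 h2
  rw [chord_eq h1 h2] at h3
  have h4 : ev z.2 = ((1 : ℝ) : ℂ) * ev z.2 := by
    rw [Complex.ofReal_one, one_mul]
  rw [h4, wedge_ev, one_mul] at h3
  have h5 : sin (ang h z.1 w - z.2) = 0 := by
    rcases mul_eq_zero.mp h3 with h | h
    · exact absurd h hp.ne'
    · exact h
  have h6 := hz.1
  have h7 := hz.2
  have h8 : ang h z.1 w - z.2 = 0 :=
    (sin_eq_zero_iff_of_lt_of_lt (by linarith [hr.1]) (by linarith [hr.2.1])).mp h5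
  exact V_unique hh h1 h2 (by linarith)

end BilEnt
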