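import Pool.Agent.BilEnt.Defs
import Pool.Agent.BilEnt.G08

/-!
# G12a : (G7), all quantities of one flight are comparable
-/

open MeasureTheory Real
open scoped ENNReal

namespace BilEnt

theorem pw_bounds {h : ℝ → ℝ} (hh : IsTab h) {z : ℝ × ℝ} (hz : z ∈ dom h) :
    99 / 100 * stt h z ≤ pw h z ∧ pw h z ≤ 102 / 100 * stt h z ∧ stt h z ≤ 1 := by
  have h0 := stt_pos hz
  obtain ⟨s1, s2⟩ := sp_bounds hh z.1
  refine ⟨?_, ?_, ?_⟩
  · unfold pw; gcongr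
  · unfold pw; gcongr
  · unfold stt; exact Real.sin_le_one _

/-- `pw z * hl z`, `pw (fm z) * hl z` are in `[ds^2/200, 3 ds^2]` (`pw_out`, `pw_in`,
`wedge_bounds`), `hl` in `[0.99 ds, 1.03 ds]` (`HH_bounds`), `ds > 0`: divide. -/
theorem pw_ds {h : ℝ → ℝ} (hh : IsTab h) {z : ℝ × ℝ} (hz : z ∈ dom h) :
    ds z.1 (V h z) / 206 ≤ pw h z ∧ pw h z ≤ 304 / 100 * ds z.1 (V h z) ∧
    ds z.1 (V h z) / 206 ≤ pw h (fm h z) ∧ pw h (fm h z) ≤ 304 / 100 * ds z.1 (V h z) := by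
  obtain ⟨v1, v2, -⟩ := V_spec hh hz
  obtain ⟨w1, w2, w3, w4⟩ := wedge_bounds hh v1 v2
  rw [pw_out hh hz] at w1 w2
  rw [pw_in hh hz] at w3 w4
  obtain ⟨b1, b2⟩ := HH_bounds hh z.1 (V h z)
  have hd : 0 < ds z.1 (V h z) := ds_pos v1 v2
  have hH : hl h z = HH h z.1 (V h z) := rfl
  rw [← hH] at b1 b2
  have hHpos := hl_pos hh hz
  set d := ds z.1 (V h z)
  have hp := pw_pos hh hz
  have hp1 := pw_pos hh (fm_mem hh hz)
  have key : ∀ p : ℝ, 0 < p → d ^ 2 / 200 ≤ p * hl h z → p * hl h z ≤ 3 * d ^ 2 →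
      d / 206 ≤ p ∧ p ≤ 304 / 100 * d := by
    intro p hp h1 h2
    constructor
    · have h3 : p * hl h z ≤ p * (103 / 100 * d) := by gcongr
      have h4 : d ^ 2 / 200 ≤ p * (103 / 100 * d) := h1.trans h3
      have h5 : d * (d / 206) ≤ d * p := by nlinarith
      exact le_of_mul_le_mul_left h5 hd
    · have h3 : p * (99 / 100 * d) ≤ p * hl h z := by gcongr
      have h4 : p * (99 / 100 * d) ≤ 3 * d ^ 2 := h3.trans h2
      have h5 : d * p ≤ d * (304 / 100 * d) := by nlinarith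
      exact le_of_mul_le_mul_left h5 hd
  exact ⟨(key _ hp w1 w2).1, (key _ hp w1 w2).2, (key _ hp1 w3 w4).1, (key _ hp1 w3 w4).2⟩

/-- (G7): all quantities of one flight are comparable (absolute constant `10^4`), from `pw_ds`,
`pw_bounds` (for `z` and `fm z`), `HH_bounds`, `ds_le_two`. -/
theorem flight_bounds {h : ℝ → ℝ} (hh : IsTab h) {z : ℝ × ℝ} (hz : z ∈ dom h) :
    stt h z / 10 ^ 4 ≤ ds z.1 (V h z) ∧ ds z.1 (V h z) ≤ 10 ^ 4 * stt h z ∧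
    stt h z / 10 ^ 4 ≤ hl h z ∧ hl h z ≤ 10 ^ 4 * stt h z ∧ hl h z ≤ 21 / 10 ∧
    stt h z / 10 ^ 4 ≤ stt h (fm h z) ∧ stt h (fm h z) ≤ 10 ^ 4 * stt h z ∧
    pw h z ≤ 10 ^ 4 * pw h (fm h z) ∧ hl h z ≤ 10 ^ 4 * pw h (fm h z) := by
  obtain ⟨p1, p2, p3, p4⟩ := pw_ds hh hz
  obtain ⟨q1, q2, q3⟩ := pw_bounds hh hz
  obtain ⟨r1, r2, r3⟩ := pw_bounds hh (fm_mem hh hz)
  obtain ⟨b1, b2⟩ := HH_bounds hh z.1 (V h z)
  have hH : hl h z = HH h z.1 (V h z) := rfl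
  rw [← hH] at b1 b2
  obtain ⟨v1, v2, -⟩ := V_spec hh hz
  have hd : 0 < ds z.1 (V h z) := ds_pos v1 v2
  have hd2 := ds_le_two z.1 (V h z)
  have s0 := stt_pos hz
  have s1 := stt_pos (fm_mem hh hz)
  refine ⟨by linarith, by linarith, by linarith, by linarith, by linarith, by linarith,
    by linarith, by linarith, by linarith⟩

end BilEnt
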