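import Pool.Agent.BilEnt.Defs
import Pool.Agent.BilEnt.G12a

/-!
# G12 : (G7), bounds for the cocycle and the derivative
-/

open MeasureTheory Real
open scoped ENNReal

namespace BilEnt

private theorem G12_pw1 {h : ℝ → ℝ} (hh : IsTab h) {z : ℝ × ℝ} (hz : z ∈ dom h) :
    0 < pw h (fm h z) := pw_pos hh (fm_mem hh hz)

/-- `gg z = 2 Thd V / pw (fm z)` with `3/100 ≤ Thd ≤ 197/100`; use `pw_ds`: `pw z ≤ 627 pw (fm z)`,
`hl z ≤ 1.03 * 206 * pw (fm z)`, `stt z ≤ pw z / 0.99`. -/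
theorem gg_bounds {h : ℝ → ℝ} (hh : IsTab h) {z : ℝ × ℝ} (hz : z ∈ dom h) :
    0 < gg h z ∧ gg h z ≤ 10 ^ 5 / stt h z ∧ gg h z * hl h z ≤ 10 ^ 5 ∧
      gg h z * pw h z ≤ 10 ^ 5 := by
  have hp1 := G12_pw1 hh hz
  have hs := stt_pos hz
  have hp := pw_pos hh hz
  have hH := hl_pos hh hz
  obtain ⟨t1, t2⟩ := Thd_bounds hh (V h z)
  obtain ⟨b1, b2, b3⟩ := pw_bounds hh hz
  obtain ⟨-, -, -, -, -, -, -, f8, f9⟩ := flight_bounds hh hz
  have e : ∀ x : ℝ, gg h z * x = 2 * Thd h (V h z) * x / pw h (fm h z) := by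
    intro x
    unfold gg
    ring
  refine ⟨?_, ?_, ?_, ?_⟩
  · unfold gg
    apply div_pos _ hp1
    linarith
  · unfold gg
    rw [div_le_div_iff₀ hp1 hs]
    nlinarith
  · rw [e, div_le_iff₀ hp1]
    nlinarith
  · rw [e, div_le_iff₀ hp1]
    nlinarith

theorem gg_le_fm {h : ℝ → ℝ} (hh : IsTab h) {z : ℝ × ℝ} (hz : z ∈ dom h) :
    gg h z ≤ 4 / stt h (fm h z) := by
  have hp1 := G12_pw1 hh hz
  have hs := stt_pos (fm_mem hh hz)
  obtain ⟨t1, t2⟩ := Thd_bounds hh (V h z)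
  obtain ⟨b1, b2, b3⟩ := pw_bounds hh (fm_mem hh hz)
  unfold gg
  rw [div_le_div_iff₀ hp1 hs]
  nlinarith

/-- bounds for the cocycle -/
theorem Mc_bound {h : ℝ → ℝ} (hh : IsTab h) {z : ℝ × ℝ} (hz : z ∈ dom h) (i j : Fin 2) :
    |Mc h z i j| ≤ 10 ^ 5 / stt h z := by
  have hs := stt_pos hz
  have hH := hl_pos hh hz
  obtain ⟨g1, g2, g3, g4⟩ := gg_bounds hh hz
  obtain ⟨b1, b2, b3⟩ := pw_bounds hh hz
  obtain ⟨-, -, -, -, f5, -, -, -, -⟩ := flight_bounds hh hz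
  have h5 : (10 : ℝ) ^ 5 ≤ 10 ^ 5 / stt h z := by
    rw [le_div_iff₀ hs]
    nlinarith
  have hgH : 0 < gg h z * hl h z := mul_pos g1 hH
  have key : ∀ x : ℝ, (x = -1 ∨ x = hl h z ∨ x = -gg h z ∨ x = gg h z * hl h z - 1) →
      |x| ≤ 10 ^ 5 / stt h z := by
    rintro x (rfl | rfl | rfl | rfl)
    · rw [abs_neg, abs_one]
      linarith
    · rw [abs_of_pos hH]
      linarith
    · rw [abs_neg, abs_of_pos g1]
      exact g2
    · rw [abs_le]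
      constructor <;> linarith
  apply key
  fin_cases i <;> fin_cases j <;> simp [Mc]

/-- `‖(a,b)‖ = max |a| |b|`: the two components of `DF z (a,b)` are bounded by
`(pw z/pw (fm z) + hl z/pw (fm z)) ‖(a,b)‖` and `(gg pw + gg hl + 1) ‖(a,b)‖`
(`ContinuousLinearMap.opNorm_le_bound`). -/
theorem norm_DF_le {h : ℝ → ℝ} (hh : IsTab h) {z : ℝ × ℝ} (hz : z ∈ dom h) :
    ‖DF h z‖ ≤ 10 ^ 6 := by
  have hp1 := G12_pw1 hh hz
  have hp := pw_pos hh hz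
  have hH := hl_pos hh hz
  obtain ⟨g1, g2, g3, g4⟩ := gg_bounds hh hz
  obtain ⟨-, -, -, -, -, -, -, f8, f9⟩ := flight_bounds hh hz
  have c1 : pw h z / pw h (fm h z) ≤ 10 ^ 4 := by
    rw [div_le_iff₀ hp1]
    exact f8
  have c2 : hl h z / pw h (fm h z) ≤ 10 ^ 4 := by
    rw [div_le_iff₀ hp1]
    exact f9
  have c1' : 0 ≤ pw h z / pw h (fm h z) := by positivity
  have c2' : 0 ≤ hl h z / pw h (fm h z) := by positivity
  have hgH : 0 < gg h z * hl h z := mul_pos g1 hH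
  have hgp : 0 < gg h z * pw h z := mul_pos g1 hp
  have c3 : |gg h z * hl h z - 1| ≤ 10 ^ 5 := by
    rw [abs_le]
    constructor <;> linarith
  refine ContinuousLinearMap.opNorm_le_bound _ (by norm_num) fun v => ?_
  obtain ⟨a, b⟩ := v
  have ha : |a| ≤ ‖((a, b) : ℝ × ℝ)‖ := norm_fst_le ((a, b) : ℝ × ℝ)
  have hb : |b| ≤ ‖((a, b) : ℝ × ℝ)‖ := norm_snd_le ((a, b) : ℝ × ℝ)
  have hn : 0 ≤ ‖((a, b) : ℝ × ℝ)‖ := norm_nonneg _
  have e : DF h z (a, b) = (-(pw h z / pw h (fm h z)) * a + hl h z / pw h (fm h z) * b,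
      -(gg h z * pw h z) * a + (gg h z * hl h z - 1) * b) := by
    simp [DF]
  rw [e, Prod.norm_mk]
  apply max_le
  · rw [Real.norm_eq_abs]
    calc |-(pw h z / pw h (fm h z)) * a + hl h z / pw h (fm h z) * b|
        ≤ |-(pw h z / pw h (fm h z)) * a| + |hl h z / pw h (fm h z) * b| := abs_add_le _ _
      _ = pw h z / pw h (fm h z) * |a| + hl h z / pw h (fm h z) * |b| := by
          rw [abs_mul, abs_mul, abs_neg, abs_of_nonneg c1', abs_of_nonneg c2']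
      _ ≤ 10 ^ 4 * ‖((a, b) : ℝ × ℝ)‖ + 10 ^ 4 * ‖((a, b) : ℝ × ℝ)‖ :=
          add_le_add (mul_le_mul c1 ha (abs_nonneg _) (by norm_num))
            (mul_le_mul c2 hb (abs_nonneg _) (by norm_num))
      _ ≤ 10 ^ 6 * ‖((a, b) : ℝ × ℝ)‖ := by nlinarith
  · rw [Real.norm_eq_abs]
    calc |-(gg h z * pw h z) * a + (gg h z * hl h z - 1) * b|
        ≤ |-(gg h z * pw h z) * a| + |(gg h z * hl h z - 1) * b| := abs_add_le _ _
      _ = gg h z * pw h z * |a| + |gg h z * hl h z - 1| * |b| := by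
          rw [abs_mul, abs_mul, abs_neg, abs_of_nonneg hgp.le]
      _ ≤ 10 ^ 5 * ‖((a, b) : ℝ × ℝ)‖ + 10 ^ 5 * ‖((a, b) : ℝ × ℝ)‖ :=
          add_le_add (mul_le_mul g4 ha (abs_nonneg _) (by norm_num))
            (mul_le_mul c3 hb (abs_nonneg _) (by norm_num))
      _ ≤ 10 ^ 6 * ‖((a, b) : ℝ × ℝ)‖ := by nlinarith

end BilEnt
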