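import Pool.Agent.BilEnt.A01
import Pool.Agent.BilEnt.G12

/-!
# MP_bd32bb_an, application of part S, module A02: integrability of `log ‖M‖` (helper75)
-/

open MeasureTheory Real
open scoped ENNReal

namespace BilEnt

private theorem a02_measurable_stt {h : ℝ → ℝ} (hh : IsTab h) : Measurable (stt h) := by
  have h1 := G15b_aux.cont_Th hh
  have : Continuous (stt h) := by
    unfold stt
    fun_prop
  exact this.measurable

/-- `∫ 1/sin θ dμ = ∫∫ sp du dA ≤ 1.02 · 2π · π`.  (`mu_lintegral`, `pw_bounds`: the integrand is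
`≤ ofReal (102/100)` on the domain.) -/
theorem lint_inv_stt {h : ℝ → ℝ} (hh : IsTab h) :
    ∫⁻ z, ENNReal.ofReal (1 / stt h z) ∂(mu h) ≤ ENNReal.ofReal (3 * π ^ 2) := by
  have hm : Measurable fun z => ENNReal.ofReal (1 / stt h z) :=
    (measurable_const.div (a02_measurable_stt hh)).ennreal_ofReal
  rw [mu_lintegral hh hm]
  have hin : ∀ u, ∫⁻ A in Set.Ioo (Th h u) (Th h u + π),
      ENNReal.ofReal (pw h (u, A)) * ENNReal.ofReal (1 / stt h (u, A))
      ≤ ENNReal.ofReal (102 / 100 * π) := by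
    intro u
    calc ∫⁻ A in Set.Ioo (Th h u) (Th h u + π),
          ENNReal.ofReal (pw h (u, A)) * ENNReal.ofReal (1 / stt h (u, A))
        ≤ ∫⁻ _A in Set.Ioo (Th h u) (Th h u + π), ENNReal.ofReal (102 / 100) := by
          refine setLIntegral_mono measurable_const fun A hA => ?_
          have hz : (u, A) ∈ dom h := ⟨hA.1, hA.2⟩
          have hs := stt_pos hz
          obtain ⟨-, b2, -⟩ := pw_bounds hh hz
          rw [← ENNReal.ofReal_mul (pw_pos hh hz).le]
          apply ENNReal.ofReal_le_ofReal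
          rw [mul_one_div, div_le_iff₀ hs]
          exact b2
      _ = ENNReal.ofReal (102 / 100) * ENNReal.ofReal π := by
          rw [setLIntegral_const, Real.volume_Ioo]
          congr 2
          ring
      _ = ENNReal.ofReal (102 / 100 * π) := by
          rw [ENNReal.ofReal_mul (by norm_num : (0 : ℝ) ≤ 102 / 100)]
  calc ∫⁻ u in Set.Ico 0 (2 * π), ∫⁻ A in Set.Ioo (Th h u) (Th h u + π),
        ENNReal.ofReal (pw h (u, A)) * ENNReal.ofReal (1 / stt h (u, A))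
      ≤ ∫⁻ _u in Set.Ico 0 (2 * π), ENNReal.ofReal (102 / 100 * π) :=
        lintegral_mono fun u => hin u
    _ = ENNReal.ofReal (102 / 100 * π) * ENNReal.ofReal (2 * π) := by
        rw [setLIntegral_const, Real.volume_Ico, sub_zero]
    _ = ENNReal.ofReal (102 / 100 * π * (2 * π)) := by
        rw [ENNReal.ofReal_mul (by positivity : (0 : ℝ) ≤ 102 / 100 * π)]
    _ ≤ ENNReal.ofReal (3 * π ^ 2) := by
        apply ENNReal.ofReal_le_ofReal
        nlinarith [sq_nonneg π]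

private theorem a02_fn_Mc_le {h : ℝ → ℝ} (hh : IsTab h) {z : ℝ × ℝ} (hz : z ∈ dom h) :
    fn (Mc h z) ≤ 2 * 10 ^ 5 / stt h z := by
  have hs := stt_pos hz
  set B : ℝ := 10 ^ 5 / stt h z with hB
  have hB0 : 0 ≤ B := by positivity
  have hb : ∀ i j, Mc h z i j ^ 2 ≤ B ^ 2 := fun i j =>
    sq_le_sq' (by linarith [(abs_le.mp (Mc_bound hh hz i j)).1]) (abs_le.mp (Mc_bound hh hz i j)).2
  have e : 2 * 10 ^ 5 / stt h z = 2 * B := by rw [hB]; ring
  rw [e]
  unfold fn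
  rw [Real.sqrt_le_left (by positivity)]
  nlinarith [hb 0 0, hb 0 1, hb 1 0, hb 1 1]

/-- `log fn (Mc h z) ≤ fn (Mc h z) ≤ 2·10^5 / stt h z` (`Mc_bound`). -/
theorem log_fn_Mc_le {h : ℝ → ℝ} (hh : IsTab h) {z : ℝ × ℝ} (hz : z ∈ dom h) :
    log (fn (Mc h z)) ≤ 2 * 10 ^ 5 / stt h z :=
  (Real.log_le_self (s_fn_nonneg _)).trans (a02_fn_Mc_le hh hz)

/-- integrability of `log ‖M‖`. -/
theorem int_log_MM {N : ℕ} (hN : N0 ≤ N) :
    Integrable (fun y => log (fn (MM N y))) (Pr N) := by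
  have hfn : Measurable fun y : Yt => fn (MM N y) := by
    unfold fn
    have h00 := measurable_MM hN 0 0
    have h01 := measurable_MM hN 0 1
    have h10 := measurable_MM hN 1 0
    have h11 := measurable_MM hN 1 1
    fun_prop
  have hm : Measurable fun y : Yt => log (fn (MM N y)) := hfn.log
  refine ⟨hm.aestronglyMeasurable, ?_⟩
  have hms : Measurable fun y : Yt => ENNReal.ofReal (1 / stt (hw N y.1) y.2) :=
    (measurable_const.div (measurable_stt_hw hN)).ennreal_ofReal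
  have hle : ∀ᵐ y ∂(Pr N), ‖log (fn (MM N y))‖ₑ ≤
      ENNReal.ofReal (2 * 10 ^ 5) * ENNReal.ofReal (1 / stt (hw N y.1) y.2) := by
    filter_upwards [ae_mem_X0 hN] with y hy
    have h0 : 0 ≤ log (fn (MM N y)) := Real.log_nonneg (s_one_le_fn (det_MM N y))
    have hM : MM N y = Mc (hw N y.1) y.2 := by
      unfold MM
      rw [if_pos hy]
    rw [Real.enorm_eq_ofReal h0, ← ENNReal.ofReal_mul (by norm_num : (0 : ℝ) ≤ 2 * 10 ^ 5), hM]
    apply ENNReal.ofReal_le_ofReal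
    rw [mul_one_div]
    exact log_fn_Mc_le (isTab_hw hN y.1) hy.1
  calc ∫⁻ y, ‖log (fn (MM N y))‖ₑ ∂(Pr N)
      ≤ ∫⁻ y, ENNReal.ofReal (2 * 10 ^ 5) * ENNReal.ofReal (1 / stt (hw N y.1) y.2) ∂(Pr N) :=
        lintegral_mono_ae hle
    _ = ENNReal.ofReal (2 * 10 ^ 5) * ∫⁻ y, ENNReal.ofReal (1 / stt (hw N y.1) y.2) ∂(Pr N) :=
        lintegral_const_mul _ hms
    _ = ENNReal.ofReal (2 * 10 ^ 5) *
          ∫⁻ ω, ∫⁻ z, ENNReal.ofReal (1 / stt (hw N ω) z) ∂(mu (hw N ω)) ∂PP := by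
        rw [Pr_lintegral hN hms]
    _ ≤ ENNReal.ofReal (2 * 10 ^ 5) * ∫⁻ _ω, ENNReal.ofReal (3 * π ^ 2) ∂PP := by
        gcongr with ω
        exact lint_inv_stt (isTab_hw hN ω)
    _ = ENNReal.ofReal (2 * 10 ^ 5) * ENNReal.ofReal (3 * π ^ 2) := by simp
    _ < ⊤ := ENNReal.mul_lt_top ENNReal.ofReal_lt_top ENNReal.ofReal_lt_top

end BilEnt
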