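import Pool.Agent.BilEnt.A01

/-!
# MP_bd32bb_an, application of part S, module A03: hypothesis (S1) from (D1) (helper75)
-/

open MeasureTheory Real
open scoped ENNReal

namespace BilEnt

namespace A03_aux

/-- a series of bounded terms with a summable tail bound -/
lemma tsum_ne_top_of_tail {a : ℕ → ℝ≥0∞} {M : ℝ≥0∞} (hM : M ≠ ∞) (h1 : ∀ n, a n ≤ M)
    {b : ℕ → ℝ} (hb : Summable b) {n1 : ℕ} (h2 : ∀ n, n1 ≤ n → a n ≤ ENNReal.ofReal (b n)) :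
    ∑' n, a n ≠ ∞ := by
  have h3 : ∀ n, a n ≤ (if n < n1 then M else 0) + ENNReal.ofReal (b n) := by
    intro n
    by_cases hn : n < n1
    · rw [if_pos hn]
      exact (h1 n).trans le_self_add
    · rw [if_neg hn, zero_add]
      exact h2 n (by omega)
  refine ne_top_of_le_ne_top ?_ (ENNReal.tsum_le_tsum h3)
  rw [ENNReal.tsum_add]
  refine ENNReal.add_ne_top.mpr ⟨?_, hb.tsum_ofReal_ne_top⟩
  rw [tsum_eq_sum (s := Finset.range n1) (fun n hn => by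
    rw [if_neg]
    rwa [Finset.mem_range] at hn)]
  refine ENNReal.sum_ne_top.mpr fun n _ => ?_
  split_ifs
  · exact hM
  · exact ENNReal.zero_ne_top

/-- the tail bound -/
lemma tail_bound {C L : ℝ} (hL : 0 ≤ L) {n : ℕ} (hn : 1 ≤ n) :
    C * (n : ℝ) ^ (-(4 : ℝ)) + exp (C * (n : ℝ) ^ ((1 : ℝ) / 4) * L - √(n : ℝ)) ≤
      (|C| + 384 * exp ((|C| * L) ^ 2 / 2)) * (1 / (n : ℝ) ^ 2) := by
  have hn1 : (1 : ℝ) ≤ n := by exact_mod_cast hn
  have hn0 : (0 : ℝ) < n := by linarith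
  set x : ℝ := (n : ℝ) ^ ((1 : ℝ) / 4) with hx
  have hx0 : 0 ≤ x := by positivity
  have hx2 : x ^ 2 = √(n : ℝ) := by
    rw [hx, ← Real.rpow_natCast, ← Real.rpow_mul hn0.le, Real.sqrt_eq_rpow]
    norm_num
  have hs2 : √(n : ℝ) ^ 2 = n := Real.sq_sqrt hn0.le
  have hs0 : 0 < √(n : ℝ) := Real.sqrt_pos.mpr hn0
  -- the first term
  have t1 : C * (n : ℝ) ^ (-(4 : ℝ)) ≤ |C| * (1 / (n : ℝ) ^ 2) := by
    have e1 : (n : ℝ) ^ (-(4 : ℝ)) ≤ (n : ℝ) ^ (-(2 : ℝ)) :=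
      Real.rpow_le_rpow_of_exponent_le hn1 (by norm_num)
    have e2 : (n : ℝ) ^ (-(2 : ℝ)) = 1 / (n : ℝ) ^ 2 := by
      rw [Real.rpow_neg hn0.le, one_div]
      norm_num
    have e3 : 0 < (n : ℝ) ^ (-(4 : ℝ)) := by positivity
    calc C * (n : ℝ) ^ (-(4 : ℝ)) ≤ |C| * (n : ℝ) ^ (-(4 : ℝ)) :=
          mul_le_mul_of_nonneg_right (le_abs_self C) e3.le
      _ ≤ |C| * (1 / (n : ℝ) ^ 2) := by
          rw [← e2]
          exact mul_le_mul_of_nonneg_left e1 (abs_nonneg C)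
  -- the exponent
  have t2 : C * x * L - √(n : ℝ) ≤ (|C| * L) ^ 2 / 2 - √(n : ℝ) / 2 := by
    have e1 : C * x * L ≤ |C| * L * x := by
      have : C * (x * L) ≤ |C| * (x * L) :=
        mul_le_mul_of_nonneg_right (le_abs_self C) (by positivity)
      nlinarith
    have e2 : |C| * L * x ≤ (|C| * L) ^ 2 / 2 + x ^ 2 / 2 := by
      nlinarith [sq_nonneg (|C| * L - x)]
    rw [hx2] at e2
    linarith
  have t3 : exp (-(√(n : ℝ) / 2)) ≤ 384 * (1 / (n : ℝ) ^ 2) := by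
    have e1 : (√(n : ℝ) / 2) ^ 4 / (Nat.factorial 4 : ℝ) ≤ exp (√(n : ℝ) / 2) :=
      Real.pow_div_factorial_le_exp _ (by positivity) 4
    have e2 : (√(n : ℝ) / 2) ^ 4 / (Nat.factorial 4 : ℝ) = (n : ℝ) ^ 2 / 384 := by
      have : (√(n : ℝ) / 2) ^ 4 = (√(n : ℝ) ^ 2) ^ 2 / 16 := by ring
      rw [this, hs2]
      norm_num [Nat.factorial]
      ring
    rw [e2] at e1
    rw [Real.exp_neg, mul_one_div]
    rw [inv_le_comm₀ (Real.exp_pos _) (by positivity), inv_div]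
    exact e1
  have t4 : exp (C * x * L - √(n : ℝ)) ≤ 384 * exp ((|C| * L) ^ 2 / 2) * (1 / (n : ℝ) ^ 2) := by
    calc exp (C * x * L - √(n : ℝ)) ≤ exp ((|C| * L) ^ 2 / 2 - √(n : ℝ) / 2) :=
          Real.exp_le_exp.mpr t2
      _ = exp ((|C| * L) ^ 2 / 2) * exp (-(√(n : ℝ) / 2)) := by
          rw [← Real.exp_add]; congr 1
      _ ≤ exp ((|C| * L) ^ 2 / 2) * (384 * (1 / (n : ℝ) ^ 2)) :=
          mul_le_mul_of_nonneg_left t3 (Real.exp_pos _).le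
      _ = _ := by ring
  rw [add_mul]
  exact add_le_add t1 t4

end A03_aux

/-- (S1) from (D1) for a fixed `N`: split the series at `n₁ ≥ (log N)²` (each term is at most
`Pr N univ < ∞`), and for `n ≥ n₁ ≥ 1` use `hD` with `x = √n`:
`∑ C n^(-4) + exp (C n^(1/4) log N - √n) < ∞` (`C n^(1/4) log N ≤ √n / 2 + C²(log N)²/2`, and
`exp (-√n / 2) ≤ C' n^(-2)`). -/
theorem S1_of_D1 {N : ℕ} (hN : N0 ≤ N) {C : ℝ}
    (hD : ∀ n : ℕ, (log N) ^ 2 ≤ n → ∀ x : ℝ, 0 < x →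
      Pr N {y | x < Dn (TT N) (TTi N) (MM N) n y} ≤
        ENNReal.ofReal (C * (n : ℝ) ^ (-(4 : ℝ)) + exp (C * (n : ℝ) ^ ((1 : ℝ) / 4) * log N - x))) :
    ∑' n : ℕ, Pr N {y | √(n : ℝ) < Dn (TT N) (TTi N) (MM N) n y} ≠ ∞ := by
  have hL : 0 ≤ log (N : ℝ) := Real.log_natCast_nonneg N
  have hfin : Pr N Set.univ ≠ ∞ := ne_top_of_le_ne_top ENNReal.ofReal_ne_top (Pr_univ_le hN)
  have hsum : Summable (fun n : ℕ =>
      (|C| + 384 * exp ((|C| * log (N : ℝ)) ^ 2 / 2)) * (1 / (n : ℝ) ^ 2)) :=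
    (Real.summable_one_div_nat_pow.mpr (by norm_num)).mul_left _
  refine A03_aux.tsum_ne_top_of_tail hfin (fun n => measure_mono (Set.subset_univ _)) hsum
    (n1 := max 1 ⌈(log (N : ℝ)) ^ 2⌉₊) ?_
  intro n hn
  have hn1 : 1 ≤ n := (le_max_left _ _).trans hn
  have hn2 : (log (N : ℝ)) ^ 2 ≤ n := by
    refine (Nat.le_ceil _).trans ?_
    exact_mod_cast (le_max_right _ _).trans hn
  have hs0 : 0 < √(n : ℝ) := Real.sqrt_pos.mpr (by exact_mod_cast hn1)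
  exact (hD n hn2 (√(n : ℝ)) hs0).trans (ENNReal.ofReal_le_ofReal (A03_aux.tail_bound hL hn1))

end BilEnt
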