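import Pool.Agent.BilEnt.Defs
import Pool.Agent.BilEnt.G08

/-!
# G09 : invariance under the translation `tau`
-/

open MeasureTheory Real
open scoped ENNReal

namespace BilEnt

namespace G09_aux

theorem fst_tau (z : ℝ × ℝ) : (z + tau).1 = z.1 + 2 * π := rfl

theorem snd_tau (z : ℝ × ℝ) : (z + tau).2 = z.2 + 2 * π := rfl

theorem vec_succ (z : ℝ × ℝ) (j : ℤ) :
    z + (2 * π * ((j + 1 : ℤ) : ℝ), 2 * π * ((j + 1 : ℤ) : ℝ))
      = z + (2 * π * (j : ℝ), 2 * π * (j : ℝ)) + tau := by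
  apply Prod.ext
  · change z.1 + 2 * π * ((j + 1 : ℤ) : ℝ) = z.1 + 2 * π * (j : ℝ) + 2 * π
    push_cast; ring
  · change z.2 + 2 * π * ((j + 1 : ℤ) : ℝ) = z.2 + 2 * π * (j : ℝ) + 2 * π
    push_cast; ring

/-- a `tau`-invariant function on a `tau`-invariant set is invariant under the multiples. -/
theorem inv_int {β : Type*} (S : Set (ℝ × ℝ)) (hS : ∀ z, z + tau ∈ S ↔ z ∈ S)
    (f : ℝ × ℝ → β) (hf : ∀ z ∈ S, f (z + tau) = f z) (z : ℝ × ℝ) (hz : z ∈ S) (j : ℤ) :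
    z + (2 * π * (j : ℝ), 2 * π * (j : ℝ)) ∈ S ∧
      f (z + (2 * π * (j : ℝ), 2 * π * (j : ℝ))) = f z := by
  induction j using Int.induction_on with
  | zero =>
    have h0 : z + (2 * π * ((0 : ℤ) : ℝ), 2 * π * ((0 : ℤ) : ℝ)) = z := by
      apply Prod.ext
      · change z.1 + 2 * π * ((0 : ℤ) : ℝ) = z.1
        push_cast; ring
      · change z.2 + 2 * π * ((0 : ℤ) : ℝ) = z.2
        push_cast; ring
    rw [h0]
    exact ⟨hz, rfl⟩
  | succ i ih =>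
    rw [vec_succ]
    exact ⟨(hS _).2 ih.1, (hf _ ih.1).trans ih.2⟩
  | pred i ih =>
    have h1 := vec_succ z (-(i : ℤ) - 1)
    rw [show -(i : ℤ) - 1 + 1 = -(i : ℤ) by ring] at h1
    rw [h1] at ih
    have h2 := (hS _).1 ih.1
    exact ⟨h2, (hf _ h2).symm.trans ih.2⟩

end G09_aux

open G09_aux

theorem dom_add_tau {h : ℝ → ℝ} (hh : IsTab h) (z : ℝ × ℝ) : z + tau ∈ dom h ↔ z ∈ dom h := by
  change Th h (z.1 + 2 * π) < z.2 + 2 * π ∧ z.2 + 2 * π < Th h (z.1 + 2 * π) + π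
    ↔ Th h z.1 < z.2 ∧ z.2 < Th h z.1 + π
  rw [Th_per hh]
  constructor
  · rintro ⟨h1, h2⟩
    exact ⟨by linarith, by linarith⟩
  · rintro ⟨h1, h2⟩
    exact ⟨by linarith, by linarith⟩
/-- `V_unique` and `ang_per`. -/
theorem V_add_tau {h : ℝ → ℝ} (hh : IsTab h) {z : ℝ × ℝ} (hz : z ∈ dom h) :
    V h (z + tau) = V h z + 2 * π := by
  obtain ⟨h1, h2, h3⟩ := V_spec hh hz
  refine V_unique hh ?_ ?_ ?_
  · rw [fst_tau]; linarith
  · rw [fst_tau]; linarith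
  · rw [fst_tau, snd_tau, ang_per hh, h3]
theorem fm_add_tau {h : ℝ → ℝ} (hh : IsTab h) {z : ℝ × ℝ} (hz : z ∈ dom h) :
    fm h (z + tau) = fm h z + tau := by
  unfold fm
  rw [V_add_tau hh hz, Th_per hh, snd_tau]
  apply Prod.ext
  · rfl
  · change 2 * (Th h (V h z) + 2 * π) - (z.2 + 2 * π) = 2 * Th h (V h z) - z.2 + 2 * π
    ring
theorem hl_add_tau {h : ℝ → ℝ} (hh : IsTab h) {z : ℝ × ℝ} (hz : z ∈ dom h) :
    hl h (z + tau) = hl h z := by
  unfold hl HH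
  rw [V_add_tau hh hz, fst_tau, gam_per hh, gam_per hh]
theorem stt_add_tau {h : ℝ → ℝ} (hh : IsTab h) (z : ℝ × ℝ) : stt h (z + tau) = stt h z := by
  unfold stt
  rw [fst_tau, snd_tau, Th_per hh]
  congr 1
  ring
theorem pw_add_tau {h : ℝ → ℝ} (hh : IsTab h) (z : ℝ × ℝ) : pw h (z + tau) = pw h z := by
  unfold pw
  rw [stt_add_tau hh, fst_tau, sp_per hh]
theorem gg_add_tau {h : ℝ → ℝ} (hh : IsTab h) {z : ℝ × ℝ} (hz : z ∈ dom h) :
    gg h (z + tau) = gg h z := by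
  unfold gg
  rw [fm_add_tau hh hz, pw_add_tau hh, V_add_tau hh hz, Thd_per hh]
theorem Mc_add_tau {h : ℝ → ℝ} (hh : IsTab h) {z : ℝ × ℝ} (hz : z ∈ dom h) :
    Mc h (z + tau) = Mc h z := by
  unfold Mc
  rw [hl_add_tau hh hz, gg_add_tau hh hz]
theorem DF_add_tau {h : ℝ → ℝ} (hh : IsTab h) {z : ℝ × ℝ} (hz : z ∈ dom h) :
    DF h (z + tau) = DF h z := by
  unfold DF
  rw [hl_add_tau hh hz, gg_add_tau hh hz, fm_add_tau hh hz, pw_add_tau hh, pw_add_tau hh]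
theorem pth_mem {h : ℝ → ℝ} (hh : IsTab h) {z : ℝ × ℝ} (hz : z ∈ dom h) (k : ℕ) :
    pth h z k ∈ dom h := by
  induction k with
  | zero => exact hz
  | succ k ih =>
    unfold pth at ih ⊢
    rw [Function.iterate_succ_apply']
    exact fm_mem hh ih
/-- induction with `Function.iterate_succ_apply'`. -/
theorem pth_add_tau {h : ℝ → ℝ} (hh : IsTab h) {z : ℝ × ℝ} (hz : z ∈ dom h) (k : ℕ) :
    pth h (z + tau) k = pth h z k + tau := by
  induction k with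
  | zero => rfl
  | succ k ih =>
    have h1 : pth h (z + tau) (k + 1) = fm h (pth h (z + tau) k) :=
      Function.iterate_succ_apply' _ _ _
    have h2 : pth h z (k + 1) = fm h (pth h z k) := Function.iterate_succ_apply' _ _ _
    rw [h1, h2, ih, fm_add_tau hh (pth_mem hh hz k)]
theorem dom_add_int {h : ℝ → ℝ} (hh : IsTab h) (z : ℝ × ℝ) (j : ℤ) :
    z + (2 * π * j, 2 * π * j) ∈ dom h ↔ z ∈ dom h := by
  have h1 := (inv_int Set.univ (fun z => by simp) (fun z => z ∈ dom h)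
    (fun z _ => propext (dom_add_tau hh z)) z (Set.mem_univ _) j).2
  exact iff_of_eq h1
theorem fm_add_int {h : ℝ → ℝ} (hh : IsTab h) {z : ℝ × ℝ} (hz : z ∈ dom h) (j : ℤ) :
    fm h (z + (2 * π * j, 2 * π * j)) = fm h z + (2 * π * j, 2 * π * j) := by
  have h1 := (inv_int (dom h) (dom_add_tau hh) (fun z => fm h z - z)
    (fun z hz => by
      change fm h (z + tau) - (z + tau) = fm h z - z
      rw [fm_add_tau hh hz, add_sub_add_right_eq_sub]) z hz j).2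
  change fm h (z + (2 * π * j, 2 * π * j)) - (z + (2 * π * j, 2 * π * j)) = fm h z - z at h1
  rw [sub_eq_iff_eq_add] at h1
  rw [h1]
  abel
theorem pth_add_int {h : ℝ → ℝ} (hh : IsTab h) {z : ℝ × ℝ} (hz : z ∈ dom h) (k : ℕ) (j : ℤ) :
    pth h (z + (2 * π * j, 2 * π * j)) k = pth h z k + (2 * π * j, 2 * π * j) := by
  have h1 := (inv_int (dom h) (dom_add_tau hh) (fun z => pth h z k - z)
    (fun z hz => by
      change pth h (z + tau) k - (z + tau) = pth h z k - z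
      rw [pth_add_tau hh hz, add_sub_add_right_eq_sub]) z hz j).2
  change pth h (z + (2 * π * j, 2 * π * j)) k - (z + (2 * π * j, 2 * π * j)) = pth h z k - z at h1
  rw [sub_eq_iff_eq_add] at h1
  rw [h1]
  abel
theorem stt_add_int {h : ℝ → ℝ} (hh : IsTab h) (z : ℝ × ℝ) (j : ℤ) :
    stt h (z + (2 * π * j, 2 * π * j)) = stt h z :=
  (inv_int Set.univ (fun z => by simp) (stt h) (fun z _ => stt_add_tau hh z) z
    (Set.mem_univ _) j).2
theorem pw_add_int {h : ℝ → ℝ} (hh : IsTab h) (z : ℝ × ℝ) (j : ℤ) :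
    pw h (z + (2 * π * j, 2 * π * j)) = pw h z :=
  (inv_int Set.univ (fun z => by simp) (pw h) (fun z _ => pw_add_tau hh z) z
    (Set.mem_univ _) j).2
theorem Mc_add_int {h : ℝ → ℝ} (hh : IsTab h) {z : ℝ × ℝ} (hz : z ∈ dom h) (j : ℤ) :
    Mc h (z + (2 * π * j, 2 * π * j)) = Mc h z :=
  (inv_int (dom h) (dom_add_tau hh) (Mc h) (fun _ hz => Mc_add_tau hh hz) z hz j).2
theorem DF_add_int {h : ℝ → ℝ} (hh : IsTab h) {z : ℝ × ℝ} (hz : z ∈ dom h) (j : ℤ) :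
    DF h (z + (2 * π * j, 2 * π * j)) = DF h z :=
  (inv_int (dom h) (dom_add_tau hh) (DF h) (fun _ hz => DF_add_tau hh hz) z hz j).2
/-- `(-1)(gH - 1) + gH = 1`. -/
theorem det_Mc (h : ℝ → ℝ) (z : ℝ × ℝ) : (Mc h z).det = 1 := by
  unfold Mc
  rw [Matrix.det_fin_two_of]
  ring

end BilEnt
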