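import Pool.Agent.BilEnt.Defs
import Pool.Agent.BilEnt.G09

/-!
# G10a : (G5), reversibility, one step
-/

open MeasureTheory Real
open scoped ENNReal

namespace BilEnt

namespace G10a_aux
end G10a_aux

open G10a_aux

theorem rv_mem {h : ℝ → ℝ} {z : ℝ × ℝ} (hz : z ∈ dom h) : rv h z ∈ dom h := by
  obtain ⟨h1, h2⟩ := hz
  refine ⟨?_, ?_⟩
  · show Th h z.1 < 2 * Th h z.1 + π - z.2
    linarith
  · show 2 * Th h z.1 + π - z.2 < Th h z.1 + π
    linarith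
theorem rv_rv (h : ℝ → ℝ) (z : ℝ × ℝ) : rv h (rv h z) = z := by
  unfold rv
  ext
  · rfl
  · show 2 * Th h z.1 + π - (2 * Th h z.1 + π - z.2) = z.2
    ring
/-- `2 Th (u + 2π) + π - (A + 2π) = (2 Th u + π - A) + 2π` by `Th_per`. -/
theorem rv_add_tau {h : ℝ → ℝ} (hh : IsTab h) (z : ℝ × ℝ) : rv h (z + tau) = rv h z + tau := by
  ext
  · rfl
  · show 2 * Th h (z.1 + 2 * π) + π - (z.2 + 2 * π) = 2 * Th h z.1 + π - z.2 + 2 * π
    rw [Th_per hh]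
    ring
theorem rv_sub_tau {h : ℝ → ℝ} (hh : IsTab h) (z : ℝ × ℝ) : rv h (z - tau) = rv h z - tau := by
  have h1 := rv_add_tau hh (z - tau)
  rw [sub_add_cancel] at h1
  rw [h1, add_sub_cancel_right]
theorem stt_rv (h : ℝ → ℝ) (z : ℝ × ℝ) : stt h (rv h z) = stt h z := by
  show sin (2 * Th h z.1 + π - z.2 - Th h z.1) = sin (z.2 - Th h z.1)
  rw [← Real.sin_pi_sub]
  congr 1
  ring

/-- the state after the reflection, reversed -/
theorem G10a_aux.rv_fm (h : ℝ → ℝ) (z : ℝ × ℝ) : rv h (fm h z) = (V h z, z.2 + π) := by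
  ext
  · rfl
  · show 2 * Th h (V h z) + π - (2 * Th h (V h z) - z.2) = z.2 + π
    ring

theorem G10a_aux.V_rv_fm {h : ℝ → ℝ} (hh : IsTab h) {z : ℝ × ℝ} (hz : z ∈ dom h) :
    V h (rv h (fm h z)) = z.1 + 2 * π := by
  obtain ⟨h1, h2, h3⟩ := V_spec hh hz
  rw [rv_fm]
  refine V_unique hh h2 ?_ ?_
  · show z.1 + 2 * π < V h z + 2 * π
    linarith
  · show ang h (V h z) (z.1 + 2 * π) = z.2 + π
    rw [ang_flip hh h1 h2, h3]

/-- (G5): reversibility.  With `w = V z`, `rv (fm z) = (w, A + π)` and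
`ang h w (u + 2π) = ang h u w + π = A + π` (`ang_flip`), so `V (rv (fm z)) = u + 2π` by `V_unique`;
the direction is `2 Th (u+2π) - (A + π) = 2 Th u + 3π - A`. -/
theorem fm_rv_fm {h : ℝ → ℝ} (hh : IsTab h) {z : ℝ × ℝ} (hz : z ∈ dom h) :
    fm h (rv h (fm h z)) = rv h z + tau := by
  have hV := V_rv_fm hh hz
  have h1 : fm h (rv h (fm h z)) = (z.1 + 2 * π, 2 * Th h (z.1 + 2 * π) - (rv h (fm h z)).2) := by
    unfold fm at hV ⊢
    rw [hV]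
  rw [h1, rv_fm, Th_per hh]
  ext
  · rfl
  · show 2 * (Th h z.1 + 2 * π) - (z.2 + π) = 2 * Th h z.1 + π - z.2 + 2 * π
    ring
theorem hl_rv_fm {h : ℝ → ℝ} (hh : IsTab h) {z : ℝ × ℝ} (hz : z ∈ dom h) :
    hl h (rv h (fm h z)) = hl h z := by
  have hV := V_rv_fm hh hz
  show HH h (V h z) (V h (rv h (fm h z))) = HH h z.1 (V h z)
  rw [hV, HH_comm h z.1]
  unfold HH
  rw [gam_per hh]

theorem G10a_aux.bm_eq (h : ℝ → ℝ) (z : ℝ × ℝ) : bm h z = rv h (fm h (rv h z)) - tau := rfl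

theorem G10a_aux.dom_sub_tau {h : ℝ → ℝ} (hh : IsTab h) {z : ℝ × ℝ} (hz : z ∈ dom h) : z - tau ∈ dom h := by
  rw [← dom_add_tau hh, sub_add_cancel]
  exact hz

theorem G10a_aux.fm_sub_tau {h : ℝ → ℝ} (hh : IsTab h) {z : ℝ × ℝ} (hz : z ∈ dom h) :
    fm h (z - tau) = fm h z - tau := by
  have h1 := fm_add_tau hh (dom_sub_tau hh hz)
  rw [sub_add_cancel] at h1
  rw [h1, add_sub_cancel_right]

theorem bm_mem {h : ℝ → ℝ} (hh : IsTab h) {z : ℝ × ℝ} (hz : z ∈ dom h) : bm h z ∈ dom h :=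
  dom_sub_tau hh (rv_mem (fm_mem hh (rv_mem hz)))
/-- `bm (fm z) = rv (fm (rv (fm z))) - tau = rv (rv z + tau) - tau = z`. -/
theorem bm_fm {h : ℝ → ℝ} (hh : IsTab h) {z : ℝ × ℝ} (hz : z ∈ dom h) : bm h (fm h z) = z := by
  rw [bm_eq, fm_rv_fm hh hz, rv_add_tau hh, rv_rv, add_sub_cancel_right]
/-- apply `fm_rv_fm` to `rv z`: `fm (rv (fm (rv z))) = z + tau`, and
`fm (x - tau) = fm x - tau` (from `fm_add_tau`). -/
theorem fm_bm {h : ℝ → ℝ} (hh : IsTab h) {z : ℝ × ℝ} (hz : z ∈ dom h) : fm h (bm h z) = z := by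
  rw [bm_eq, fm_sub_tau hh (rv_mem (fm_mem hh (rv_mem hz))), fm_rv_fm hh (rv_mem hz), rv_rv,
    add_sub_cancel_right]
theorem bm_add_tau {h : ℝ → ℝ} (hh : IsTab h) {z : ℝ × ℝ} (hz : z ∈ dom h) :
    bm h (z + tau) = bm h z + tau := by
  rw [bm_eq, bm_eq, rv_add_tau hh, fm_add_tau hh (rv_mem hz), rv_add_tau hh, add_sub_right_comm]
theorem bm_add_int {h : ℝ → ℝ} (hh : IsTab h) {z : ℝ × ℝ} (hz : z ∈ dom h) (j : ℤ) :
    bm h (z + (2 * π * j, 2 * π * j)) = bm h z + (2 * π * j, 2 * π * j) := by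
  have h1 := fm_add_int hh (bm_mem hh hz) j
  rw [fm_bm hh hz] at h1
  rw [← h1, bm_fm hh ((dom_add_int hh _ j).2 (bm_mem hh hz))]
/-- the reversed state of `zin` does not depend on the table -/
theorem rv_zin (h : ℝ → ℝ) (u φ : ℝ) : rv h (zin h u φ) = (u, φ + π) := by
  ext
  · rfl
  · show 2 * Th h u + π - (2 * Th h u - φ) = φ + π
    ring

end BilEnt
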