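import Pool.Agent.BilEnt.Defs
import Pool.Agent.BilEnt.G10a

/-!
# G10 : (G5), backward orbits
-/

open MeasureTheory Real
open scoped ENNReal

namespace BilEnt

namespace G10_aux

theorem smul_tau (t : ℕ) : (t : ℝ) • tau = -((2 * π * ((-(t : ℤ) : ℤ) : ℝ),
    2 * π * ((-(t : ℤ) : ℤ) : ℝ)) : ℝ × ℝ) := by
  unfold tau
  ext <;> simp <;> ring

end G10_aux

/-- backward orbits are reversed forward orbits: induction on `t` with
`Function.iterate_succ_apply'`; `bm (rv y - t • tau) = rv (fm (rv (rv y - t•tau))) - tau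
= rv (fm (y - t • tau)) - tau = rv (fm y) - (t+1) • tau` by `rv_rv`, `rv_add_tau`, `fm_add_tau`
(iterated, or `fm_add_int` with `j = -t`). -/
theorem bm_iter {h : ℝ → ℝ} (hh : IsTab h) {z : ℝ × ℝ} (hz : z ∈ dom h) (t : ℕ) :
    (bm h)^[t] z = rv h (pth h (rv h z) t) - (t : ℝ) • tau := by
  induction t with
  | zero =>
    simp only [pth, Function.iterate_zero, id_eq, Nat.cast_zero, zero_smul, sub_zero]
    exact (rv_rv h z).symm
  | succ t ih =>
    have hy : pth h (rv h z) t ∈ dom h := pth_mem hh (rv_mem hz) t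
    rw [Function.iterate_succ_apply', ih, G10_aux.smul_tau, sub_neg_eq_add,
      bm_add_int hh (rv_mem hy)]
    have h1 : bm h (rv h (pth h (rv h z) t)) = rv h (fm h (pth h (rv h z) t)) - tau := by
      unfold bm tau
      rw [rv_rv]
    have h2 : pth h (rv h z) (t + 1) = fm h (pth h (rv h z) t) := by
      unfold pth
      rw [Function.iterate_succ_apply']
    rw [h1, h2, ← neg_neg ((2 * π * ((-(t : ℤ) : ℤ) : ℝ), 2 * π * ((-(t : ℤ) : ℤ) : ℝ)) : ℝ × ℝ),
      ← G10_aux.smul_tau]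
    push_cast
    rw [add_smul, one_smul]
    abel
theorem bm_iter_mem {h : ℝ → ℝ} (hh : IsTab h) {z : ℝ × ℝ} (hz : z ∈ dom h) (t : ℕ) :
    (bm h)^[t] z ∈ dom h := by
  induction t with
  | zero => simpa using hz
  | succ t ih =>
    rw [Function.iterate_succ_apply']
    exact bm_mem hh ih

namespace G10_aux

theorem pth_bm_self {h : ℝ → ℝ} (hh : IsTab h) {z : ℝ × ℝ} (hz : z ∈ dom h) (t : ℕ) :
    pth h ((bm h)^[t] z) t = z := by
  induction t with
  | zero => simp [pth]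
  | succ t ih =>
    have h1 : pth h ((bm h)^[t + 1] z) (t + 1) = pth h (fm h (bm h ((bm h)^[t] z))) t := by
      unfold pth
      rw [Function.iterate_succ_apply, Function.iterate_succ_apply']
    rw [h1, fm_bm hh (bm_iter_mem hh hz t), ih]

theorem bm_pth_self {h : ℝ → ℝ} (hh : IsTab h) {z : ℝ × ℝ} (hz : z ∈ dom h) (t : ℕ) :
    (bm h)^[t] (pth h z t) = z := by
  induction t with
  | zero => simp [pth]
  | succ t ih =>
    have h1 : (bm h)^[t + 1] (pth h z (t + 1)) = (bm h)^[t] (bm h (fm h (pth h z t))) := by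
      unfold pth
      rw [Function.iterate_succ_apply, Function.iterate_succ_apply']
    rw [h1, bm_fm hh (pth_mem hh hz t), ih]

theorem pth_add (h : ℝ → ℝ) (z : ℝ × ℝ) (s t : ℕ) : pth h z (s + t) = pth h (pth h z t) s := by
  unfold pth
  rw [Function.iterate_add_apply]

end G10_aux

/-- moving along an orbit backward and forward -/
theorem pth_bm_iter {h : ℝ → ℝ} (hh : IsTab h) {z : ℝ × ℝ} (hz : z ∈ dom h) {j t : ℕ}
    (htj : t ≤ j) : pth h ((bm h)^[j] z) t = (bm h)^[j - t] z := by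
  obtain ⟨s, rfl⟩ := Nat.exists_eq_add_of_le htj
  rw [Function.iterate_add_apply, Nat.add_sub_cancel_left]
  exact G10_aux.pth_bm_self hh (bm_iter_mem hh hz s) t
theorem pth_bm_iter' {h : ℝ → ℝ} (hh : IsTab h) {z : ℝ × ℝ} (hz : z ∈ dom h) {j t : ℕ}
    (htj : j ≤ t) : pth h ((bm h)^[j] z) t = pth h z (t - j) := by
  obtain ⟨s, rfl⟩ := Nat.exists_eq_add_of_le htj
  rw [add_comm j s, G10_aux.pth_add, G10_aux.pth_bm_self hh hz j, Nat.add_sub_cancel]
theorem bm_pth_iter {h : ℝ → ℝ} (hh : IsTab h) {z : ℝ × ℝ} (hz : z ∈ dom h) {j t : ℕ}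
    (htj : j ≤ t) : (bm h)^[j] (pth h z t) = pth h z (t - j) := by
  obtain ⟨s, rfl⟩ := Nat.exists_eq_add_of_le htj
  rw [G10_aux.pth_add, Nat.add_sub_cancel_left]
  exact G10_aux.bm_pth_self hh (pth_mem hh hz s) j

end BilEnt
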