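import Pool.Agent.BilEnt.Defs
import Pool.Agent.BilEnt.G10

/-!
# G11a : the next bounce point depends differentiably on the state
-/

open MeasureTheory Real
open scoped ENNReal

namespace BilEnt

theorem isOpen_dom {h : ℝ → ℝ} (hh : IsTab h) : IsOpen (dom h) := by
  have hT : Continuous (Th h) := continuous_Th hh
  have h1 : Continuous (fun z : ℝ × ℝ => Th h z.1) := hT.comp continuous_fst
  have e : dom h = {z : ℝ × ℝ | Th h z.1 < z.2} ∩ {z : ℝ × ℝ | z.2 < Th h z.1 + π} := by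
    ext z
    simp only [dom, Set.mem_ofPred_eq, Set.mem_inter_iff]
  rw [e]
  exact (isOpen_lt h1 continuous_snd).inter (isOpen_lt continuous_snd (h1.add continuous_const))

namespace G11a_aux

/-- the shear `(a,b) ↦ (a, p a + q b)` -/
noncomputable def shL (p q : ℝ) : (ℝ × ℝ) →L[ℝ] (ℝ × ℝ) :=
  (ContinuousLinearMap.fst ℝ ℝ ℝ).prod
    (p • ContinuousLinearMap.fst ℝ ℝ ℝ + q • ContinuousLinearMap.snd ℝ ℝ ℝ)

theorem shL_apply (p q : ℝ) (x : ℝ × ℝ) : shL p q x = (x.1, p * x.1 + q * x.2) := by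
  simp [shL]

noncomputable def shE (p q : ℝ) (hq : q ≠ 0) : (ℝ × ℝ) ≃L[ℝ] (ℝ × ℝ) :=
  ContinuousLinearEquiv.equivOfInverse (shL p q) (shL (-(p / q)) (1 / q))
    (fun x => by
      simp only [shL_apply]
      ext
      · rfl
      · simp only
        field_simp
        ring)
    (fun x => by
      simp only [shL_apply]
      ext
      · rfl
      · simp only
        field_simp
        ring)

theorem shE_coe (p q : ℝ) (hq : q ≠ 0) :
    ((shE p q hq : (ℝ × ℝ) ≃L[ℝ] (ℝ × ℝ)) : (ℝ × ℝ) →L[ℝ] (ℝ × ℝ)) = shL p q := rfl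

theorem shE_symm_coe (p q : ℝ) (hq : q ≠ 0) :
    ((shE p q hq).symm : (ℝ × ℝ) →L[ℝ] (ℝ × ℝ)) = shL (-(p / q)) (1 / q) := rfl

end G11a_aux

open G11a_aux in
/-- Let `z = (u,A)`, `w = V z`.  The map `Φ (u', w') = (u', ang h u' w')` has at `(u,w)` a strict
derivative which is invertible, because `∂ang/∂w = pw (fm z) / hl z > 0`
(`hasStrictFDerivAt_ang`, `pw_in`). -/
theorem hasStrictFDerivAt_V {h : ℝ → ℝ} (hh : IsTab h) {z : ℝ × ℝ} (hz : z ∈ dom h) :
    HasStrictFDerivAt (V h)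
      ((-(pw h z / pw h (fm h z))) • ContinuousLinearMap.fst ℝ ℝ ℝ +
        (hl h z / pw h (fm h z)) • ContinuousLinearMap.snd ℝ ℝ ℝ) z := by
  obtain ⟨h1, h2, h3⟩ := V_spec hh hz
  have hH : 0 < hl h z := hl_pos hh hz
  have hp : 0 < pw h z := pw_pos hh hz
  have hp1 : 0 < pw h (fm h z) := pw_pos hh (fm_mem hh hz)
  have hang := hasStrictFDerivAt_ang hh h1 h2
  have eH : HH h z.1 (V h z) = hl h z := rfl
  rw [pw_out hh hz, pw_in hh hz, eH] at hang
  set p : ℝ := pw h z * hl h z / hl h z ^ 2 with hpdef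
  set q : ℝ := pw h (fm h z) * hl h z / hl h z ^ 2 with hqdef
  have ep : p = pw h z / hl h z := by rw [hpdef]; field_simp
  have eq : q = pw h (fm h z) / hl h z := by rw [hqdef]; field_simp
  have hq : q ≠ 0 := by rw [eq]; positivity
  have hΦ : HasStrictFDerivAt (fun x : ℝ × ℝ => (x.1, ang h x.1 x.2))
      ((shE p q hq : (ℝ × ℝ) ≃L[ℝ] (ℝ × ℝ)) : (ℝ × ℝ) →L[ℝ] (ℝ × ℝ)) (z.1, V h z) := by
    rw [shE_coe]
    exact hasStrictFDerivAt_fst.prodMk hang
  have hopen : ∀ᶠ x : ℝ × ℝ in nhds (z.1, V h z), x.1 < x.2 ∧ x.2 < x.1 + 2 * π := by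
    apply IsOpen.mem_nhds
    · exact (isOpen_lt continuous_fst continuous_snd).inter
        (isOpen_lt continuous_snd (continuous_fst.add continuous_const))
    · exact ⟨h1, h2⟩
  have hg : ∀ᶠ x : ℝ × ℝ in nhds (z.1, V h z),
      (fun y : ℝ × ℝ => (y.1, V h y)) ((fun x : ℝ × ℝ => (x.1, ang h x.1 x.2)) x) = x := by
    filter_upwards [hopen] with x hx
    have hV : V h (x.1, ang h x.1 x.2) = x.2 := V_unique hh hx.1 hx.2 rfl
    simp only [hV]
  have hres := hΦ.to_local_left_inverse (g := fun y : ℝ × ℝ => (y.1, V h y)) hg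
  have ez : (((z.1, V h z) : ℝ × ℝ).1, ang h ((z.1, V h z) : ℝ × ℝ).1 ((z.1, V h z) : ℝ × ℝ).2) = z := by
    simp only [h3]
  rw [ez, shE_symm_coe] at hres
  have h4 := hasStrictFDerivAt_snd (𝕜 := ℝ) (E := ℝ) (F := ℝ) (p := (z.1, V h z))
  have h5 := h4.comp z (f := fun y : ℝ × ℝ => (y.1, V h y)) hres
  have h5 : HasStrictFDerivAt (V h) _ z := h5
  have key : ((-(pw h z / pw h (fm h z))) • ContinuousLinearMap.fst ℝ ℝ ℝ +
        (hl h z / pw h (fm h z)) • ContinuousLinearMap.snd ℝ ℝ ℝ) =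
      (ContinuousLinearMap.snd ℝ ℝ ℝ).comp (shL (-(p / q)) (1 / q)) := by
    apply ContinuousLinearMap.ext
    intro x
    have e1 : ((ContinuousLinearMap.snd ℝ ℝ ℝ).comp (shL (-(p / q)) (1 / q))) x =
        -(p / q) * x.1 + 1 / q * x.2 := by
      simp [shL_apply]
    rw [e1, ep, eq]
    have e2 : ((-(pw h z / pw h (fm h z))) • ContinuousLinearMap.fst ℝ ℝ ℝ +
        (hl h z / pw h (fm h z)) • ContinuousLinearMap.snd ℝ ℝ ℝ) x =
        (-(pw h z / pw h (fm h z))) * x.1 + (hl h z / pw h (fm h z)) * x.2 := by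
      simp
    rw [e2]
    field_simp
  rw [key]
  exact h5

end BilEnt
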