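import Pool.Agent.BilEnt.Defs
import Pool.Agent.BilEnt.G10
import Pool.Agent.BilEnt.G11a

/-!
# G11 : (G6), the derivative of the billiard map and of its iterates
-/

open MeasureTheory Real
open scoped ENNReal

namespace BilEnt

/-- `Th` is `C^1` (`hasDerivAt_Th`, `continuous_Thd`), hence strictly differentiable. -/
theorem hasStrictDerivAt_Th {h : ℝ → ℝ} (hh : IsTab h) (u : ℝ) :
    HasStrictDerivAt (Th h) (Thd h u) u :=
  hasStrictDerivAt_of_hasDerivAt_of_continuousAt
    (Filter.Eventually.of_forall fun y => hasDerivAt_Th hh y) (continuous_Thd hh).continuousAt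

/-- (G6): the derivative of the billiard map.  `fm z = (V z, 2 Th (V z) - z.2)`; the second
component has derivative `2 Thd (V z) V' - snd`, and
`2 Thd V * (-(pw z/pw (fm z))) = -(gg z * pw z)`, `2 Thd V * hl z / pw (fm z) = gg z * hl z`. -/
theorem hasStrictFDerivAt_fm {h : ℝ → ℝ} (hh : IsTab h) {z : ℝ × ℝ} (hz : z ∈ dom h) :
    HasStrictFDerivAt (fm h) (DF h z) z := by
  have hV := hasStrictFDerivAt_V hh hz
  have hT := (hasStrictDerivAt_Th hh (V h z)).comp_hasStrictFDerivAt z hV
  have h2 := (hT.const_mul (2 : ℝ)).sub (hasStrictFDerivAt_snd (𝕜 := ℝ) (p := z))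
  have h3 := hV.prodMk h2
  have hfm : fm h = fun z' => (V h z', 2 * (Th h ∘ V h) z' - z'.2) := by
    funext z'
    rfl
  have hp : pw h (fm h z) ≠ 0 := (pw_pos hh (fm_mem hh hz)).ne'
  have hD : DF h z = ((-(pw h z / pw h (fm h z))) • ContinuousLinearMap.fst ℝ ℝ ℝ +
        (hl h z / pw h (fm h z)) • ContinuousLinearMap.snd ℝ ℝ ℝ).prod
      ((2 : ℝ) • (Thd h (V h z)) • ((-(pw h z / pw h (fm h z))) • ContinuousLinearMap.fst ℝ ℝ ℝ +
        (hl h z / pw h (fm h z)) • ContinuousLinearMap.snd ℝ ℝ ℝ) -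
        ContinuousLinearMap.snd ℝ ℝ ℝ) := by
    unfold DF
    congr 1
    apply ContinuousLinearMap.ext
    intro x
    simp only [gg, add_apply, smul_apply,
      sub_apply, ContinuousLinearMap.coe_fst', ContinuousLinearMap.coe_snd',
      smul_eq_mul]
    field_simp
    ring
  rw [hD]
  exact h3

theorem continuousOn_fm {h : ℝ → ℝ} (hh : IsTab h) : ContinuousOn (fm h) (dom h) := fun _ hz =>
  (hasStrictFDerivAt_fm hh hz).hasFDerivAt.continuousAt.continuousWithinAt

/-- induction on `k` (`Function.iterate_succ_apply'`, chain rule, `pth_mem`). -/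
theorem hasFDerivAt_pth {h : ℝ → ℝ} (hh : IsTab h) {z : ℝ × ℝ} (hz : z ∈ dom h) (k : ℕ) :
    HasFDerivAt (fun z' => pth h z' k) (DFn h z k) z := by
  induction k with
  | zero => exact hasFDerivAt_id z
  | succ k ih =>
    have h1 : (fun z' => pth h z' (k + 1)) = fm h ∘ fun z' => pth h z' k := by
      funext z'
      simp only [pth, Function.iterate_succ_apply', Function.comp_apply]
    rw [h1]
    exact (hasStrictFDerivAt_fm hh (pth_mem hh hz k)).hasFDerivAt.comp z ih

/-- `Df^k = diag(1/p_k,1) M_{0→k} diag(p_0,1)`: induction on `k`; `mprod M 0 (k+1) = M k * mprod M 0 k`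
with `M k = Mc h (pth h z k)`, and one step is
`DF z (a/pw z, b) = ((M (a,b))_0 / pw (fm z), (M (a,b))_1)` (`pw_pos`). -/
theorem DFn_apply {h : ℝ → ℝ} (hh : IsTab h) {z : ℝ × ℝ} (hz : z ∈ dom h) (k : ℕ) (a b : ℝ) :
    DFn h z k (a, b) =
      ((mprod (Ms h z) 0 k 0 0 * (pw h z * a) + mprod (Ms h z) 0 k 0 1 * b) / pw h (pth h z k),
        mprod (Ms h z) 0 k 1 0 * (pw h z * a) + mprod (Ms h z) 0 k 1 1 * b) := by
  induction k with
  | zero =>
    have hp : pw h z ≠ 0 := (pw_pos hh hz).ne'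
    have h0 : pth h z 0 = z := rfl
    rw [h0]
    simp only [DFn, mprod, ContinuousLinearMap.coe_id', id_eq, Matrix.one_apply_eq]
    rw [Matrix.one_apply_ne (by decide : (0 : Fin 2) ≠ 1),
      Matrix.one_apply_ne (by decide : (1 : Fin 2) ≠ 0)]
    ext
    · simp only [one_mul, zero_mul, add_zero]
      field_simp
    · simp
  | succ k ih =>
    have hk := pth_mem hh hz k
    have hp : pw h (pth h z k) ≠ 0 := (pw_pos hh hk).ne'
    have hp' : pw h (fm h (pth h z k)) ≠ 0 := (pw_pos hh (fm_mem hh hk)).ne'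
    have h1 : pth h z (k + 1) = fm h (pth h z k) := by
      simp only [pth, Function.iterate_succ_apply']
    have h2 : DFn h z (k + 1) (a, b) = DF h (pth h z k) (DFn h z k (a, b)) := rfl
    have h3 : mprod (Ms h z) 0 (k + 1) = Mc h (pth h z k) * mprod (Ms h z) 0 k := by
      simp only [mprod, Ms, zero_add]
    rw [h2, ih, h1, h3]
    simp only [DF, Mc, Matrix.mul_apply, Fin.sum_univ_two, ContinuousLinearMap.prod_apply,
      add_apply, smul_apply,
      ContinuousLinearMap.coe_fst', ContinuousLinearMap.coe_snd', smul_eq_mul,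
      Matrix.of_apply, Matrix.cons_val', Matrix.cons_val_zero, Matrix.cons_val_one,
      Matrix.cons_val_fin_one]
    ext
    · simp only
      field_simp
      ring
    · simp only
      field_simp
      ring

/-- derivative of the position at time `t` with respect to the initial direction -/
theorem hasDerivAt_pos {h : ℝ → ℝ} (hh : IsTab h) {u A : ℝ} (hz : (u, A) ∈ dom h) (t : ℕ) :
    HasDerivAt (fun A' => (pth h (u, A') t).1)
      (mprod (Ms h (u, A)) 0 t 0 1 / pw h (pth h (u, A) t)) A := by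
  have h1 : HasDerivAt (fun A' : ℝ => (u, A')) ((0 : ℝ), (1 : ℝ)) A :=
    (hasDerivAt_const A u).prodMk (hasDerivAt_id A)
  have h2 := (hasFDerivAt_pth hh hz t).comp_hasDerivAt A h1
  have h3 := (hasFDerivAt_fst (𝕜 := ℝ) (p := pth h (u, A) t)).comp_hasDerivAt A h2
  rw [DFn_apply hh hz] at h3
  simp only [mul_zero, mul_one, zero_add, ContinuousLinearMap.coe_fst'] at h3
  exact h3

/-- `det Df = p/p1`. -/
theorem det_DF {h : ℝ → ℝ} (hh : IsTab h) {z : ℝ × ℝ} (hz : z ∈ dom h) :
    (DF h z).det = pw h z / pw h (fm h z) := by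
  have hp : pw h (fm h z) ≠ 0 := (pw_pos hh (fm_mem hh hz)).ne'
  rw [ContinuousLinearMap.det, ← LinearMap.det_toMatrix (Module.Basis.finTwoProd ℝ),
    Matrix.det_fin_two]
  simp only [LinearMap.toMatrix_apply, Module.Basis.finTwoProd_zero, Module.Basis.finTwoProd_one,
    Module.Basis.coe_finTwoProd_repr, DF, ContinuousLinearMap.coe_coe,
    ContinuousLinearMap.prod_apply, add_apply,
    smul_apply, ContinuousLinearMap.coe_fst', ContinuousLinearMap.coe_snd',
    smul_eq_mul, Matrix.cons_val_zero, Matrix.cons_val_one, Matrix.cons_val_fin_one]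
  field_simp
  ring

end BilEnt
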