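import Pool.Agent.BilEnt.Defs
import Pool.Agent.BilEnt.G10

/-!
# G15a : the billiard map on the fundamental domain is a bijection
-/

open MeasureTheory Real
open scoped ENNReal

namespace BilEnt

theorem red_eq (z : ℝ × ℝ) :
    red z = z - (2 * π * (⌊z.1 / (2 * π)⌋ : ℤ), 2 * π * (⌊z.1 / (2 * π)⌋ : ℤ)) := by
  unfold red
  ext <;> simp

private theorem red_exists (z : ℝ × ℝ) : ∃ j : ℤ, red z = z + (2 * π * (j : ℝ), 2 * π * (j : ℝ)) := by
  refine ⟨-⌊z.1 / (2 * π)⌋, ?_⟩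
  rw [red_eq]
  ext <;> push_cast <;> simp <;> ring

theorem red_add_int (z : ℝ × ℝ) (j : ℤ) : red (z + (2 * π * j, 2 * π * j)) = red z := by
  have hpi : (2 * π) ≠ 0 := by positivity
  have h1 : (z + (2 * π * (j : ℝ), 2 * π * (j : ℝ))).1 / (2 * π) = z.1 / (2 * π) + (j : ℝ) := by
    rw [Prod.fst_add]
    field_simp
  have h2 : ⌊(z + (2 * π * (j : ℝ), 2 * π * (j : ℝ))).1 / (2 * π)⌋ = ⌊z.1 / (2 * π)⌋ + j := by
    rw [h1, Int.floor_add_intCast]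
  unfold red
  rw [h2]
  ext <;> push_cast <;> simp <;> ring

/-- the reduction of a state is in the fundamental domain (`dom_add_int`). -/
theorem red_mem {h : ℝ → ℝ} (hh : IsTab h) {z : ℝ × ℝ} (hz : z ∈ dom h) : red z ∈ X0 h := by
  have hpi : (0 : ℝ) < 2 * π := by positivity
  refine ⟨?_, ?_, ?_⟩
  · obtain ⟨j, hj⟩ := red_exists z
    rw [hj]
    exact (dom_add_int hh z j).2 hz
  · show 0 ≤ z.1 - 2 * π * ⌊z.1 / (2 * π)⌋
    have h1 := Int.floor_le (z.1 / (2 * π))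
    rw [le_div_iff₀ hpi] at h1
    linarith
  · show z.1 - 2 * π * ⌊z.1 / (2 * π)⌋ < 2 * π
    have h1 := Int.lt_floor_add_one (z.1 / (2 * π))
    rw [div_lt_iff₀ hpi] at h1
    linarith

theorem red_of_mem {h : ℝ → ℝ} {z : ℝ × ℝ} (hz : z ∈ X0 h) : red z = z := by
  have hpi : (0 : ℝ) < 2 * π := by positivity
  obtain ⟨_, h0, h1⟩ := hz
  have h2 : ⌊z.1 / (2 * π)⌋ = 0 := by
    rw [Int.floor_eq_zero_iff]
    exact ⟨div_nonneg h0 hpi.le, (div_lt_one hpi).2 h1⟩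
  unfold red
  rw [h2]
  ext <;> simp

private theorem Tm_of_mem {h : ℝ → ℝ} {z : ℝ × ℝ} (hz : z ∈ X0 h) : Tm h z = red (fm h z) :=
  if_pos hz

private theorem Tmi_of_mem {h : ℝ → ℝ} {z : ℝ × ℝ} (hz : z ∈ X0 h) : Tmi h z = red (bm h z) :=
  if_pos hz

theorem Tm_mem {h : ℝ → ℝ} (hh : IsTab h) {z : ℝ × ℝ} (hz : z ∈ X0 h) : Tm h z ∈ X0 h := by
  rw [Tm_of_mem hz]
  exact red_mem hh (fm_mem hh hz.1)

theorem Tmi_mem {h : ℝ → ℝ} (hh : IsTab h) {z : ℝ × ℝ} (hz : z ∈ X0 h) : Tmi h z ∈ X0 h := by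
  rw [Tmi_of_mem hz]
  exact red_mem hh (bm_mem hh hz.1)

/-- on `X0`: `Tmi (Tm z) = red (bm (red (fm z))) = red (bm (fm z) - j tau) = red z = z`
(`bm_add_int`, `bm_fm`, `red_add_int`, `red_of_mem`); off `X0` both maps are the identity. -/
theorem Tmi_Tm {h : ℝ → ℝ} (hh : IsTab h) (z : ℝ × ℝ) : Tmi h (Tm h z) = z := by
  by_cases hz : z ∈ X0 h
  · have h1 := Tm_mem hh hz
    rw [Tmi_of_mem h1, Tm_of_mem hz]
    obtain ⟨j, hj⟩ := red_exists (fm h z)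
    rw [hj, bm_add_int hh (fm_mem hh hz.1), bm_fm hh hz.1, red_add_int, red_of_mem hz]
  · have h1 : Tm h z = z := if_neg hz
    have h2 : Tmi h z = z := if_neg hz
    rw [h1, h2]

theorem Tm_Tmi {h : ℝ → ℝ} (hh : IsTab h) (z : ℝ × ℝ) : Tm h (Tmi h z) = z := by
  by_cases hz : z ∈ X0 h
  · have h1 := Tmi_mem hh hz
    rw [Tm_of_mem h1, Tmi_of_mem hz]
    obtain ⟨j, hj⟩ := red_exists (bm h z)
    rw [hj, fm_add_int hh (bm_mem hh hz.1), fm_bm hh hz.1, red_add_int, red_of_mem hz]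
  · have h1 : Tm h z = z := if_neg hz
    have h2 : Tmi h z = z := if_neg hz
    rw [h2, h1]

theorem Tm_iter_mem {h : ℝ → ℝ} (hh : IsTab h) {z : ℝ × ℝ} (hz : z ∈ X0 h) (k : ℕ) :
    (Tm h)^[k] z ∈ X0 h := by
  induction k with
  | zero => exact hz
  | succ k ih =>
    rw [Function.iterate_succ_apply']
    exact Tm_mem hh ih

theorem Tmi_iter_mem {h : ℝ → ℝ} (hh : IsTab h) {z : ℝ × ℝ} (hz : z ∈ X0 h) (k : ℕ) :
    (Tmi h)^[k] z ∈ X0 h := by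
  induction k with
  | zero => exact hz
  | succ k ih =>
    rw [Function.iterate_succ_apply']
    exact Tmi_mem hh ih

private theorem sub_int_eq (z : ℝ × ℝ) (j : ℤ) :
    z - (2 * π * (j : ℝ), 2 * π * (j : ℝ)) = z + (2 * π * ((-j : ℤ) : ℝ), 2 * π * ((-j : ℤ) : ℝ)) := by
  ext <;> push_cast <;> simp <;> ring

private theorem add_add_int (z : ℝ × ℝ) (i j : ℤ) :
    z + (2 * π * (i : ℝ), 2 * π * (i : ℝ)) + (2 * π * (j : ℝ), 2 * π * (j : ℝ)) =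
      z - (2 * π * ((-i - j : ℤ) : ℝ), 2 * π * ((-i - j : ℤ) : ℝ)) := by
  ext <;> push_cast <;> simp <;> ring

/-- orbits of `Tm` are the reduced orbits of `fm` (induction, `fm_add_int`) -/
theorem Tm_iter {h : ℝ → ℝ} (hh : IsTab h) {z : ℝ × ℝ} (hz : z ∈ X0 h) (k : ℕ) :
    ∃ j : ℤ, (Tm h)^[k] z = pth h z k - (2 * π * j, 2 * π * j) := by
  induction k with
  | zero =>
    refine ⟨0, ?_⟩
    ext <;> simp [pth]
  | succ k ih =>
    obtain ⟨j, hj⟩ := ih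
    have h1 := Tm_iter_mem hh hz k
    rw [Function.iterate_succ_apply', Tm_of_mem h1, hj, sub_int_eq,
      fm_add_int hh (pth_mem hh hz.1 k)]
    obtain ⟨i, hi⟩ := red_exists
      (fm h (pth h z k) + (2 * π * ((-j : ℤ) : ℝ), 2 * π * ((-j : ℤ) : ℝ)))
    refine ⟨- (-j) - i, ?_⟩
    rw [hi, add_add_int]
    have h2 : pth h z (k + 1) = fm h (pth h z k) := Function.iterate_succ_apply' _ _ _
    rw [h2]

theorem Tmi_iter {h : ℝ → ℝ} (hh : IsTab h) {z : ℝ × ℝ} (hz : z ∈ X0 h) (k : ℕ) :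
    ∃ j : ℤ, (Tmi h)^[k] z = (bm h)^[k] z - (2 * π * j, 2 * π * j) := by
  induction k with
  | zero =>
    refine ⟨0, ?_⟩
    ext <;> simp
  | succ k ih =>
    obtain ⟨j, hj⟩ := ih
    have h1 := Tmi_iter_mem hh hz k
    rw [Function.iterate_succ_apply', Tmi_of_mem h1, hj, sub_int_eq,
      bm_add_int hh (bm_iter_mem hh hz.1 k)]
    obtain ⟨i, hi⟩ := red_exists
      (bm h ((bm h)^[k] z) + (2 * π * ((-j : ℤ) : ℝ), 2 * π * ((-j : ℤ) : ℝ)))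
    refine ⟨- (-j) - i, ?_⟩
    rw [hi, add_add_int, Function.iterate_succ_apply']

end BilEnt
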