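import Pool.Agent.BilEnt.Defs
import Pool.Agent.BilEnt.G11

/-!
# G15b : measurability of the billiard map on the fundamental domain
-/

open MeasureTheory Real
open scoped ENNReal

namespace BilEnt

namespace G15b_aux

theorem cont_h {h : ℝ → ℝ} (hh : IsTab h) : Continuous h := hh.c2.continuous

theorem cont_dh {h : ℝ → ℝ} (hh : IsTab h) : Continuous (deriv h) :=
  hh.c2.continuous_deriv (by norm_num)

theorem cont_Th {h : ℝ → ℝ} (hh : IsTab h) : Continuous (Th h) := by
  unfold Th
  have := cont_dh hh
  fun_prop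

theorem cont_sp {h : ℝ → ℝ} (hh : IsTab h) : Continuous (sp h) := by
  unfold sp
  have h1 := cont_dh hh
  have h2 := cont_h hh
  fun_prop

theorem cont_fm {h : ℝ → ℝ} (hh : IsTab h) : ContinuousOn (fm h) (dom h) := fun _ hz =>
  (hasStrictFDerivAt_fm hh hz).hasFDerivAt.continuousAt.continuousWithinAt

theorem meas_ite {f : ℝ × ℝ → ℝ × ℝ} {D X : Set (ℝ × ℝ)} (hf : ContinuousOn f D)
    (hD : MeasurableSet D) (hX : MeasurableSet X) (hXD : X ⊆ D) (hr : Measurable red) {g : ℝ × ℝ → ℝ × ℝ}
    (hg1 : ∀ z ∈ X, g z = red (f z)) (hg2 : ∀ z, z ∉ X → g z = z) : Measurable g := by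
  classical
  have h1 : Measurable (D.piecewise f id) :=
    hf.measurable_piecewise continuousOn_id hD
  have h2 : g = X.piecewise (red ∘ (D.piecewise f id)) id := by
    funext z
    by_cases hz : z ∈ X
    · rw [Set.piecewise_eq_of_mem _ _ _ hz, hg1 z hz, Function.comp_apply,
        Set.piecewise_eq_of_mem _ _ _ (hXD hz)]
    · rw [Set.piecewise_eq_of_notMem _ _ _ hz, hg2 z hz]
      rfl
  rw [h2]
  exact (hr.comp h1).piecewise hX measurable_id

end G15b_aux

theorem measurableSet_X0 {h : ℝ → ℝ} (hh : IsTab h) : MeasurableSet (X0 h) := by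
  have : X0 h = dom h ∩ ({z : ℝ × ℝ | 0 ≤ z.1} ∩ {z : ℝ × ℝ | z.1 < 2 * π}) := by
    ext z
    exact Iff.rfl
  rw [this]
  exact (isOpen_dom hh).measurableSet.inter
    ((measurableSet_le measurable_const measurable_fst).inter
      (measurableSet_lt measurable_fst measurable_const))

theorem measurable_red : Measurable red := by
  unfold red
  have h1 : Measurable fun z : ℝ × ℝ => ((⌊z.1 / (2 * π)⌋ : ℤ) : ℝ) := by
    have h2 : Measurable fun z : ℝ × ℝ => ⌊z.1 / (2 * π)⌋ :=
      Int.measurable_floor.comp (measurable_fst.div_const _)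
    exact measurable_from_top.comp h2
  exact (measurable_fst.sub (h1.const_mul _)).prodMk (measurable_snd.sub (h1.const_mul _))

theorem measurable_pw {h : ℝ → ℝ} (hh : IsTab h) : Measurable (pw h) := by
  have h1 := G15b_aux.cont_Th hh
  have h2 := G15b_aux.cont_sp hh
  have : Continuous (pw h) := by
    unfold pw stt
    fun_prop
  exact this.measurable

/-- `rv h` is continuous. -/
theorem continuous_rv {h : ℝ → ℝ} (hh : IsTab h) : Continuous (rv h) := by
  have h1 := G15b_aux.cont_Th hh
  unfold rv
  fun_prop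

/-- `bm h = rv ∘ fm ∘ rv - tau` is continuous on `dom h` (`continuousOn_fm`, `rv_mem`). -/
theorem continuousOn_bm {h : ℝ → ℝ} (hh : IsTab h) : ContinuousOn (bm h) (dom h) := by
  have h1 : ContinuousOn (fun z => fm h (rv h z)) (dom h) :=
    (G15b_aux.cont_fm hh).comp (continuous_rv hh).continuousOn (fun z hz => rv_mem hz)
  have h2 : ContinuousOn (fun z => rv h (fm h (rv h z))) (dom h) :=
    (continuous_rv hh).comp_continuousOn h1
  exact h2.sub continuousOn_const

/-- `fm h` is continuous on the open set `dom h`, so `z ↦ if z ∈ X0 h then red (fm h z) else z` is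
measurable: `Measurable.ite` does not apply directly because `fm h` is not measurable outside `dom`;
use `measurable_of_restrict_of_restrict_compl` / `Measurable.piecewise` with `Set.indicator`, or
`ContinuousOn.measurable_piecewise`: the piecewise function `fm h` on `X0 h` (or on `dom h`), `id` off
it, is measurable, and `Tm h = red ∘ (...)` on `X0 h`. -/
theorem measurable_Tm {h : ℝ → ℝ} (hh : IsTab h) : Measurable (Tm h) :=
  G15b_aux.meas_ite (G15b_aux.cont_fm hh) (isOpen_dom hh).measurableSet (measurableSet_X0 hh)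
    (fun _ hz => hz.1) measurable_red (fun z hz => by simp [Tm, hz]) (fun z hz => by simp [Tm, hz])

theorem measurable_Tmi {h : ℝ → ℝ} (hh : IsTab h) : Measurable (Tmi h) :=
  G15b_aux.meas_ite (continuousOn_bm hh) (isOpen_dom hh).measurableSet (measurableSet_X0 hh)
    (fun _ hz => hz.1) measurable_red (fun z hz => by simp [Tmi, hz])
    (fun z hz => by simp [Tmi, hz])

end BilEnt
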