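import Pool.Agent.BilEnt.Defs
import Pool.Agent.BilEnt.G08
import Pool.Agent.BilEnt.G15b

/-!
# G15c : integrals against the Liouville measure
-/

open MeasureTheory Real
open scoped ENNReal

namespace BilEnt

/-- integrals against `mu`: `X0 h = {0 ≤ u < 2π, Th h u < A < Th h u + π}`, Tonelli
(`lintegral_prod`, `Measure.volume_eq_prod`, `lintegral_withDensity_eq_lintegral_mul`,
`setLIntegral`/indicators). -/
theorem mu_lintegral {h : ℝ → ℝ} (hh : IsTab h) {F : ℝ × ℝ → ℝ≥0∞} (hF : Measurable F) :
    ∫⁻ z, F z ∂(mu h) = ∫⁻ u in Set.Ico 0 (2 * π), ∫⁻ A in Set.Ioo (Th h u) (Th h u + π),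
      ENNReal.ofReal (pw h (u, A)) * F (u, A) := by
  have hpwm : Measurable fun z => ENNReal.ofReal (pw h z) :=
    ENNReal.measurable_ofReal.comp (measurable_pw hh)
  have hX : MeasurableSet (X0 h) := measurableSet_X0 hh
  have hG : Measurable fun z : ℝ × ℝ => ENNReal.ofReal (pw h z) * F z := hpwm.mul hF
  have h1 : ∫⁻ z, F z ∂(mu h) = ∫⁻ z in X0 h, ENNReal.ofReal (pw h z) * F z := by
    unfold mu
    rw [restrict_withDensity hX, lintegral_withDensity_eq_lintegral_mul _ hpwm hF]
    rfl
  rw [h1, ← lintegral_indicator hX, Measure.volume_eq_prod,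
    lintegral_prod _ (hG.indicator hX).aemeasurable, ← lintegral_indicator measurableSet_Ico]
  refine lintegral_congr fun u => ?_
  by_cases hu : u ∈ Set.Ico 0 (2 * π)
  · rw [Set.indicator_of_mem hu, ← lintegral_indicator measurableSet_Ioo]
    refine lintegral_congr fun A => ?_
    have hiff : (u, A) ∈ X0 h ↔ A ∈ Set.Ioo (Th h u) (Th h u + π) := by
      unfold X0 dom
      exact ⟨fun H => H.1, fun H => ⟨H, hu.1, hu.2⟩⟩
    by_cases hA : A ∈ Set.Ioo (Th h u) (Th h u + π)
    · rw [Set.indicator_of_mem hA, Set.indicator_of_mem (hiff.mpr hA)]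
    · rw [Set.indicator_of_notMem hA, Set.indicator_of_notMem (fun H => hA (hiff.mp H))]
  · rw [Set.indicator_of_notMem hu]
    have : ∀ A, (X0 h).indicator (fun z : ℝ × ℝ => ENNReal.ofReal (pw h z) * F z) (u, A) = 0 := by
      intro A
      refine Set.indicator_of_notMem (fun H => hu ?_) _
      unfold X0 at H
      exact ⟨H.2.1, H.2.2⟩
    simp [this]
/-- `∫ sin (A - Th u) dA = 2`, `sp ≤ 1.02` (`sp_bounds`), `2 * 1.02 * 2π ≤ 12.82 ≤ 13`
(`Real.pi_lt_d4`); the inner lower Lebesgue integral of `ENNReal.ofReal` of a nonnegative function is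
`ENNReal.ofReal` of the interval integral. -/
theorem mu_univ_le {h : ℝ → ℝ} (hh : IsTab h) : mu h Set.univ ≤ ENNReal.ofReal 13 := by
  have h0 : mu h Set.univ = ∫⁻ _z, 1 ∂(mu h) := by simp
  rw [h0, mu_lintegral hh measurable_const]
  have hin : ∀ u, ∫⁻ A in Set.Ioo (Th h u) (Th h u + π), ENNReal.ofReal (pw h (u, A)) * 1
      ≤ ENNReal.ofReal (204 / 100) := by
    intro u
    have hc : Continuous fun A => pw h (u, A) := by
      unfold pw stt
      show Continuous fun A => sp h u * sin (A - Th h u)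
      generalize sp h u = c
      generalize Th h u = d
      fun_prop
    have hint : IntegrableOn (fun A => pw h (u, A)) (Set.Ioo (Th h u) (Th h u + π)) :=
      (hc.continuousOn.integrableOn_Icc).mono_set Set.Ioo_subset_Icc_self
    have hnn : 0 ≤ᵐ[volume.restrict (Set.Ioo (Th h u) (Th h u + π))] fun A => pw h (u, A) := by
      filter_upwards [ae_restrict_mem measurableSet_Ioo] with A hA
      refine (pw_pos hh ?_).le
      unfold dom
      exact ⟨hA.1, hA.2⟩
    simp only [mul_one]
    rw [← ofReal_integral_eq_lintegral_ofReal hint hnn]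
    apply ENNReal.ofReal_le_ofReal
    rw [← integral_Ioc_eq_integral_Ioo, ← intervalIntegral.integral_of_le (by linarith [pi_pos])]
    have h2 : ∫ A in (Th h u)..(Th h u + π), pw h (u, A) = sp h u * 2 := by
      unfold pw stt
      simp only
      rw [intervalIntegral.integral_const_mul,
        intervalIntegral.integral_comp_sub_right (fun x => sin x) (Th h u)]
      simp
      norm_num
    rw [h2]
    have := (sp_bounds hh u).2
    linarith
  calc ∫⁻ u in Set.Ico 0 (2 * π), ∫⁻ A in Set.Ioo (Th h u) (Th h u + π),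
        ENNReal.ofReal (pw h (u, A)) * 1
      ≤ ∫⁻ _u in Set.Ico 0 (2 * π), ENNReal.ofReal (204 / 100) := lintegral_mono fun u => hin u
    _ = ENNReal.ofReal (204 / 100) * ENNReal.ofReal (2 * π) := by
        rw [setLIntegral_const, Real.volume_Ico, sub_zero]
    _ = ENNReal.ofReal (204 / 100 * (2 * π)) := by
        rw [ENNReal.ofReal_mul (by norm_num : (0 : ℝ) ≤ 204 / 100)]
    _ ≤ ENNReal.ofReal 13 := by
        apply ENNReal.ofReal_le_ofReal
        have := Real.pi_lt_d4
        linarith
/-- the measure of a set, written without `mu`. -/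
theorem mu_apply {h : ℝ → ℝ} (hh : IsTab h) {S : Set (ℝ × ℝ)} (hS : MeasurableSet S) :
    mu h S = ∫⁻ z in S ∩ X0 h, ENNReal.ofReal (pw h z) := by
  unfold mu
  rw [Measure.restrict_apply hS, withDensity_apply _ (hS.inter (measurableSet_X0 hh))]

end BilEnt
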