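import Pool.Agent.BilEnt.Defs
import Pool.Agent.BilEnt.G11
import Pool.Agent.BilEnt.G12
import Pool.Agent.BilEnt.G15a
import Pool.Agent.BilEnt.G15b
import Pool.Agent.BilEnt.G15c

/-!
# G15 : (G8), invariance of the Liouville measure
-/

open MeasureTheory Real
open scoped ENNReal

namespace BilEnt

namespace G15_aux

/-- translate of the billiard map -/
noncomputable def Fj (h : ℝ → ℝ) (j : ℤ) (z : ℝ × ℝ) : ℝ × ℝ := fm h z - (2 * π * j, 2 * π * j)

theorem Tm_eq_Fj {h : ℝ → ℝ} {z : ℝ × ℝ} (hz : z ∈ X0 h) {j : ℤ}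
    (hj : ⌊V h z / (2 * π)⌋ = j) : Tm h z = Fj h j z := by
  unfold Tm Fj
  rw [if_pos hz, red_eq]
  have : (fm h z).1 = V h z := rfl
  rw [this, hj]

theorem Fj_injOn {h : ℝ → ℝ} (hh : IsTab h) (j : ℤ) : Set.InjOn (Fj h j) (dom h) := by
  intro x hx y hy hxy
  have h1 : fm h x = fm h y := by
    have := hxy
    simp only [Fj] at this
    exact sub_left_injective this
  rw [← bm_fm hh hx, ← bm_fm hh hy, h1]

theorem pw_Fj {h : ℝ → ℝ} (hh : IsTab h) (j : ℤ) (z : ℝ × ℝ) :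
    pw h (Fj h j z) = pw h (fm h z) := by
  have h1 := pw_add_int hh (Fj h j z) j
  rw [← h1]
  congr 1
  simp only [Fj]
  exact sub_add_cancel _ _

theorem lint_piece {h : ℝ → ℝ} (hh : IsTab h) (j : ℤ) {S : Set (ℝ × ℝ)} (hS : MeasurableSet S)
    (hd : S ⊆ dom h) :
    ∫⁻ x in Fj h j '' S, ENNReal.ofReal (pw h x) = ∫⁻ x in S, ENNReal.ofReal (pw h x) := by
  have hf' : ∀ x ∈ S, HasFDerivWithinAt (Fj h j) (DF h x) S x := by
    intro x hx
    have h1 := (hasStrictFDerivAt_fm hh (hd hx)).hasFDerivAt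
    have h2 := h1.sub_const (c := ((2 * π * j, 2 * π * j) : ℝ × ℝ))
    exact h2.hasFDerivWithinAt
  have hinj : Set.InjOn (Fj h j) S := (Fj_injOn hh j).mono hd
  rw [lintegral_image_eq_lintegral_abs_det_fderiv_mul volume hS hf' hinj]
  apply setLIntegral_congr_fun hS
  intro x hx
  have hp : 0 < pw h x := pw_pos hh (hd hx)
  have hp1 : 0 < pw h (fm h x) := pw_pos hh (fm_mem hh (hd hx))
  simp only
  rw [pw_Fj hh, det_DF hh (hd hx), ← ENNReal.ofReal_mul (abs_nonneg _),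
    abs_of_pos (div_pos hp hp1), div_mul_cancel₀ _ hp1.ne']

theorem measurable_Vpc {h : ℝ → ℝ} (hh : IsTab h) : ∃ g : ℝ × ℝ → ℝ, Measurable g ∧
    ∀ z ∈ dom h, g z = V h z := by
  classical
  have hc : ContinuousOn (fun z => (fm h z).1) (dom h) :=
    continuous_fst.comp_continuousOn (continuousOn_fm hh)
  refine ⟨(dom h).piecewise (fun z => (fm h z).1) (fun _ => 0),
    hc.measurable_piecewise continuousOn_const (isOpen_dom hh).measurableSet, ?_⟩
  intro z hz
  rw [Set.piecewise_eq_of_mem _ _ _ hz]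
  rfl

theorem image_eq_preimage {h : ℝ → ℝ} (hh : IsTab h) (S : Set (ℝ × ℝ)) :
    Tm h '' S = Tmi h ⁻¹' S := by
  ext y
  constructor
  · rintro ⟨x, hx, rfl⟩
    simpa only [Set.mem_preimage, Tmi_Tm hh] using hx
  · intro hy
    exact ⟨Tmi h y, hy, Tm_Tmi hh y⟩

theorem mu_image {h : ℝ → ℝ} (hh : IsTab h) {S : Set (ℝ × ℝ)} (hS : MeasurableSet S)
    (hX : S ⊆ X0 h) : mu h (Tm h '' S) = mu h S := by
  obtain ⟨g, hg, hgV⟩ := measurable_Vpc hh
  have hd : S ⊆ dom h := fun z hz => (hX hz).1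
  let P : ℤ → Set (ℝ × ℝ) := fun j => S ∩ {z | ⌊g z / (2 * π)⌋ = j}
  have hPm : ∀ j, MeasurableSet (P j) := by
    intro j
    apply hS.inter
    have : Measurable (fun z => ⌊g z / (2 * π)⌋) := Int.measurable_floor.comp (hg.div_const _)
    exact this (measurableSet_singleton j)
  have hPU : S = ⋃ j, P j := by
    ext z
    simp only [P, Set.mem_iUnion, Set.mem_inter_iff]
    constructor
    · intro hz
      exact ⟨⌊g z / (2 * π)⌋, hz, rfl⟩
    · rintro ⟨j, hz, -⟩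
      exact hz
  have hPd : Pairwise (Function.onFun Disjoint P) := by
    intro i j hij
    rw [Function.onFun, Set.disjoint_left]
    rintro z ⟨-, hi⟩ ⟨-, hj⟩
    apply hij
    have hi' : ⌊g z / (2 * π)⌋ = i := hi
    have hj' : ⌊g z / (2 * π)⌋ = j := hj
    rw [← hi', ← hj']
  have hpiece : ∀ j, mu h (Tm h '' P j) = mu h (P j) := by
    intro j
    have hPS : P j ⊆ S := Set.inter_subset_left
    have e1 : Tm h '' P j = Fj h j '' P j := by
      apply Set.image_congr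
      intro z hz
      apply Tm_eq_Fj (hX (hPS hz))
      rw [← hgV z (hd (hPS hz))]
      exact hz.2
    have m1 : MeasurableSet (Tm h '' P j) := by
      rw [image_eq_preimage hh]
      exact measurable_Tmi hh (hPm j)
    rw [mu_apply hh m1, mu_apply hh (hPm j)]
    have e2 : Tm h '' P j ∩ X0 h = Tm h '' P j := by
      apply Set.inter_eq_left.mpr
      rintro _ ⟨z, hz, rfl⟩
      exact Tm_mem hh (hX (hPS hz))
    have e3 : P j ∩ X0 h = P j := Set.inter_eq_left.mpr (hPS.trans hX)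
    rw [e2, e3, e1]
    exact lint_piece hh j (hPm j) (hPS.trans hd)
  have hinj : Function.Injective (Tm h) := by
    intro x y hxy
    rw [← Tmi_Tm hh x, ← Tmi_Tm hh y, hxy]
  conv_lhs => rw [hPU, Set.image_iUnion]
  conv_rhs => rw [hPU]
  rw [measure_iUnion hPd hPm, measure_iUnion]
  · exact tsum_congr hpiece
  · intro i j hij
    exact (Set.disjoint_image_iff hinj).mpr (hPd hij)
  · intro j
    rw [image_eq_preimage hh]
    exact measurable_Tmi hh (hPm j)

end G15_aux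

open G15_aux in
/-- (G8). -/
theorem mp_Tm {h : ℝ → ℝ} (hh : IsTab h) : MeasurePreserving (Tm h) (mu h) (mu h) := by
  refine ⟨measurable_Tm hh, ?_⟩
  ext B hB
  rw [Measure.map_apply (measurable_Tm hh) hB]
  have m1 : MeasurableSet (Tm h ⁻¹' B ∩ X0 h) := (measurable_Tm hh hB).inter (measurableSet_X0 hh)
  have e1 : mu h (Tm h ⁻¹' B) = mu h (Tm h ⁻¹' B ∩ X0 h) := by
    rw [mu_apply hh (measurable_Tm hh hB), mu_apply hh m1, Set.inter_assoc, Set.inter_self]
  have e2 : mu h B = mu h (B ∩ X0 h) := by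
    rw [mu_apply hh hB, mu_apply hh (hB.inter (measurableSet_X0 hh)), Set.inter_assoc,
      Set.inter_self]
  have e3 : Tm h '' (Tm h ⁻¹' B ∩ X0 h) = B ∩ X0 h := by
    ext y
    constructor
    · rintro ⟨x, ⟨hx1, hx2⟩, rfl⟩
      exact ⟨hx1, Tm_mem hh hx2⟩
    · rintro ⟨hy1, hy2⟩
      refine ⟨Tmi h y, ⟨?_, Tmi_mem hh hy2⟩, Tm_Tmi hh y⟩
      show Tm h (Tmi h y) ∈ B
      rw [Tm_Tmi hh]
      exact hy1
  rw [e1, e2, ← e3]
  exact (mu_image hh m1 Set.inter_subset_right).symm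

/-- from `mp_Tm` and `Tmi ∘ Tm = id`, `Tm ∘ Tmi = id`. -/
theorem mp_Tmi {h : ℝ → ℝ} (hh : IsTab h) : MeasurePreserving (Tmi h) (mu h) (mu h) := by
  refine ⟨measurable_Tmi hh, ?_⟩
  have h1 := (mp_Tm hh).map_eq
  conv_lhs => rw [← h1]
  rw [Measure.map_map (measurable_Tmi hh) (measurable_Tm hh)]
  have : Tmi h ∘ Tm h = id := by
    funext z
    exact Tmi_Tm hh z
  rw [this, Measure.map_id]

end BilEnt
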