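import Pool.Agent.BilEnt.A00
import Pool.Agent.BilEnt.G11
import Pool.Agent.BilEnt.G15

/-!
# MP_bd32bb_an, application of part S, module A04: change of frame (helper75)
-/

open MeasureTheory Real
open scoped ENNReal

namespace BilEnt

noncomputable section

/-- the vector `diag(1/p, 1) a`, normalised (a fixed unit vector if `p = 0`... handled by the `if`) -/
def frv (p : ℝ) (a : Fin 2 → ℝ) : ℝ × ℝ :=
  if p = 0 then (1, 0) else
    ((a 0 / p) / √((a 0 / p) ^ 2 + (a 1) ^ 2), a 1 / √((a 0 / p) ^ 2 + (a 1) ^ 2))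

private theorem frv_pos {p : ℝ} {a : Fin 2 → ℝ} (ha : a 0 ^ 2 + a 1 ^ 2 = 1) (hp : p ≠ 0) :
    0 < (a 0 / p) ^ 2 + (a 1) ^ 2 := by
  rcases eq_or_ne (a 1) 0 with h1 | h1
  · have h0 : a 0 ≠ 0 := by
      intro h0
      rw [h0, h1] at ha
      norm_num at ha
    have : 0 < (a 0 / p) ^ 2 := by positivity
    have h2 : 0 ≤ (a 1) ^ 2 := sq_nonneg _
    linarith
  · have : 0 < (a 1) ^ 2 := by positivity
    have h2 : 0 ≤ (a 0 / p) ^ 2 := sq_nonneg _
    linarith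

/-- for a unit vector `a`, `frv p a` is a unit vector. -/
theorem frv_unit {p : ℝ} {a : Fin 2 → ℝ} (ha : a 0 ^ 2 + a 1 ^ 2 = 1) :
    (frv p a).1 ^ 2 + (frv p a).2 ^ 2 = 1 := by
  unfold frv
  split_ifs with hp
  · norm_num
  · have h := frv_pos ha hp
    have hs : √((a 0 / p) ^ 2 + (a 1) ^ 2) ^ 2 = (a 0 / p) ^ 2 + (a 1) ^ 2 := Real.sq_sqrt h.le
    simp only
    rw [div_pow (a 0 / p), div_pow (a 1), hs, ← add_div, div_self h.ne']

/-- the norm `√((a 0/p)² + a 1²)` lies in `[1/2, 1/p]` for `0 < p ≤ 51/50` up to the factor `2`. -/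
theorem frv_norm {p : ℝ} {a : Fin 2 → ℝ} (ha : a 0 ^ 2 + a 1 ^ 2 = 1) (hp : 0 < p) (hp' : p ≤ 2) :
    1 / 2 ≤ √((a 0 / p) ^ 2 + (a 1) ^ 2) ∧ √((a 0 / p) ^ 2 + (a 1) ^ 2) ≤ 2 / p := by
  have hpp : 0 < p ^ 2 := by positivity
  have hp4 : p ^ 2 ≤ 4 := by nlinarith
  constructor
  · apply Real.le_sqrt_of_sq_le
    rw [div_pow (a 0)]
    have h1 : a 0 ^ 2 / 4 ≤ a 0 ^ 2 / p ^ 2 := by gcongr
    nlinarith [sq_nonneg (a 1)]
  · rw [Real.sqrt_le_left (by positivity), div_pow, div_pow]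
    have h1 : (a 1) ^ 2 ≤ (a 1) ^ 2 * (4 / p ^ 2) := by
      have : 1 ≤ 4 / p ^ 2 := by rw [le_div_iff₀ hpp]; linarith
      nlinarith [sq_nonneg (a 1)]
    have h2 : a 0 ^ 2 / p ^ 2 ≤ a 0 ^ 2 * (4 / p ^ 2) := by
      rw [div_eq_mul_inv, div_eq_mul_inv]
      have : (0 : ℝ) ≤ (p ^ 2)⁻¹ := by positivity
      nlinarith [sq_nonneg (a 0), mul_nonneg (sq_nonneg (a 0)) this]
    calc a 0 ^ 2 / p ^ 2 + (a 1) ^ 2 ≤ (a 0 ^ 2 + a 1 ^ 2) * (4 / p ^ 2) := by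
          rw [add_mul]; linarith
      _ = 2 ^ 2 / p ^ 2 := by rw [ha]; norm_num

/-- the wedge of two such vectors. -/
theorem frv_wedge {p : ℝ} {a b : Fin 2 → ℝ} (ha : a 0 ^ 2 + a 1 ^ 2 = 1)
    (hb : b 0 ^ 2 + b 1 ^ 2 = 1) (hp : 0 < p) (hp' : p ≤ 2) :
    p / 4 * |a 0 * b 1 - a 1 * b 0| ≤
      |(frv p a).1 * (frv p b).2 - (frv p a).2 * (frv p b).1| := by
  obtain ⟨ha1, ha2⟩ := frv_norm ha hp hp'
  obtain ⟨hb1, hb2⟩ := frv_norm hb hp hp'
  unfold frv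
  rw [if_neg hp.ne', if_neg hp.ne']
  simp only
  set Na := √((a 0 / p) ^ 2 + (a 1) ^ 2) with hNa
  set Nb := √((b 0 / p) ^ 2 + (b 1) ^ 2) with hNb
  have hNa0 : 0 < Na := by linarith
  have hNb0 : 0 < Nb := by linarith
  have e : a 0 / p / Na * (b 1 / Nb) - a 1 / Na * (b 0 / p / Nb) =
      (a 0 * b 1 - a 1 * b 0) * (p * Na * Nb)⁻¹ := by
    field_simp
  rw [e, abs_mul, abs_of_pos (by positivity : 0 < (p * Na * Nb)⁻¹), mul_comm]
  apply mul_le_mul_of_nonneg_left _ (abs_nonneg _)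
  rw [le_inv_comm₀ (by positivity) (by positivity)]
  have h1 : Na * Nb ≤ 2 / p * (2 / p) := mul_le_mul ha2 hb2 hNb0.le (by positivity)
  calc p * Na * Nb = p * (Na * Nb) := by ring
    _ ≤ p * (2 / p * (2 / p)) := mul_le_mul_of_nonneg_left h1 hp.le
    _ = (p / 4)⁻¹ := by field_simp; norm_num

theorem frv_meas {p : ℝ × ℝ → ℝ} {a : ℝ × ℝ → Fin 2 → ℝ} (hp : Measurable p) (ha : Measurable a) :
    Measurable fun z => frv (p z) (a z) := by
  have h0 : Measurable fun z => a z 0 := (measurable_pi_apply 0).comp ha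
  have h1 : Measurable fun z => a z 1 := (measurable_pi_apply 1).comp ha
  unfold frv
  apply Measurable.ite (hp (measurableSet_singleton (0 : ℝ))) measurable_const
  have hn : Measurable fun z => √((a z 0 / p z) ^ 2 + (a z 1) ^ 2) :=
    (((h0.div hp).pow_const 2).add (h1.pow_const 2)).sqrt
  exact ((h0.div hp).div hn).prodMk (h1.div hn)

private theorem pw_le_two {h : ℝ → ℝ} (hh : IsTab h) (z : ℝ × ℝ) : pw h z ≤ 2 := by
  obtain ⟨s1, s2⟩ := sp_bounds hh z.1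
  have h1 : stt h z ≤ 1 := by unfold stt; exact Real.sin_le_one _
  unfold pw
  nlinarith

/-- CHANGE OF FRAME.  Let `z' = (Tm h)^[l] z`, `p = pw h z`, `p' = pw h z' = pw h (pth h z l)`
(`Tm_iter`, `pw_add_int`).  If `mprod (Ms h z) 0 l *ᵥ a = c • a'` then `DFn h z l (frv p a) =
c' • frv p' a'` with `c' = c * √((a' 0/p')² + (a' 1)²) / √((a 0/p)² + (a 1)²)` (`DFn_apply`), and
`p / 4 * |c| ≤ |c'| ≤ 4 / p' * |c|` (`frv_norm`). -/
theorem frame_change {h : ℝ → ℝ} (hh : IsTab h) {z : ℝ × ℝ} (hz : z ∈ X0 h) (l : ℕ)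
    {a a' : Fin 2 → ℝ} (ha : a 0 ^ 2 + a 1 ^ 2 = 1) (ha' : a' 0 ^ 2 + a' 1 ^ 2 = 1) {c : ℝ}
    (H : (mprod (Ms h z) 0 l).mulVec a = c • a') :
    ∃ c' : ℝ, DFn h z l (frv (pw h z) a) = c' • frv (pw h ((Tm h)^[l] z)) a' ∧
      pw h z / 4 * |c| ≤ |c'| ∧ |c'| ≤ 4 / pw h ((Tm h)^[l] z) * |c| := by
  have hzd : z ∈ dom h := hz.1
  obtain ⟨j, hj⟩ := Tm_iter hh hz l
  have hpe : pw h ((Tm h)^[l] z) = pw h (pth h z l) := by
    rw [hj]
    have e : pth h z l - (2 * π * (j : ℝ), 2 * π * (j : ℝ)) =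
        pth h z l + (2 * π * ((-j : ℤ) : ℝ), 2 * π * ((-j : ℤ) : ℝ)) := by
      ext <;> push_cast <;> simp <;> ring
    rw [e, pw_add_int hh]
  rw [hpe]
  have hp : 0 < pw h z := pw_pos hh hzd
  have hp' : 0 < pw h (pth h z l) := pw_pos hh (pth_mem hh hzd l)
  obtain ⟨n1, n2⟩ := frv_norm ha hp (pw_le_two hh z)
  obtain ⟨m1, m2⟩ := frv_norm ha' hp' (pw_le_two hh _)
  have H0 : mprod (Ms h z) 0 l 0 0 * a 0 + mprod (Ms h z) 0 l 0 1 * a 1 = c * a' 0 := by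
    have := congrFun H 0
    simpa [Matrix.mulVec, dotProduct, Fin.sum_univ_two] using this
  have H1 : mprod (Ms h z) 0 l 1 0 * a 0 + mprod (Ms h z) 0 l 1 1 * a 1 = c * a' 1 := by
    have := congrFun H 1
    simpa [Matrix.mulVec, dotProduct, Fin.sum_univ_two] using this
  set M := mprod (Ms h z) 0 l with hM
  unfold frv
  rw [if_neg hp.ne', if_neg hp'.ne', DFn_apply hh hzd l, ← hM]
  generalize pw h z = p at *
  generalize pw h (pth h z l) = p' at *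
  set N := √((a 0 / p) ^ 2 + (a 1) ^ 2) with hN
  set N' := √((a' 0 / p') ^ 2 + (a' 1) ^ 2) with hN'
  have hN0 : 0 < N := by linarith
  have hN0' : 0 < N' := by linarith
  refine ⟨c * N' / N, ?_, ?_, ?_⟩
  · ext
    · simp only [Prod.smul_fst, smul_eq_mul]
      have e1 : M 0 0 * (p * (a 0 / p / N)) + M 0 1 * (a 1 / N) =
          (M 0 0 * a 0 + M 0 1 * a 1) / N := by
        field_simp
      rw [e1, H0]
      field_simp
    · simp only [Prod.smul_snd, smul_eq_mul]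
      have e1 : M 1 0 * (p * (a 0 / p / N)) + M 1 1 * (a 1 / N) =
          (M 1 0 * a 0 + M 1 1 * a 1) / N := by
        field_simp
      rw [e1, H1]
      field_simp
  · rw [abs_div, abs_mul, abs_of_pos hN0, abs_of_pos hN0', le_div_iff₀ hN0]
    have h1 : p / 4 * N ≤ N' := by
      have : p / 4 * N ≤ p / 4 * (2 / p) := mul_le_mul_of_nonneg_left n2 (by positivity)
      have e : p / 4 * (2 / p) = 1 / 2 := by field_simp; norm_num
      linarith
    calc p / 4 * |c| * N = |c| * (p / 4 * N) := by ring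
      _ ≤ |c| * N' := mul_le_mul_of_nonneg_left h1 (abs_nonneg _)
  · rw [abs_div, abs_mul, abs_of_pos hN0, abs_of_pos hN0', div_le_iff₀ hN0]
    have h1 : N' ≤ 4 / p' * N := by
      have : 4 / p' * (1 / 2) ≤ 4 / p' * N := mul_le_mul_of_nonneg_left n1 (by positivity)
      have e : 4 / p' * (1 / 2) = 2 / p' := by ring
      linarith
    calc |c| * N' ≤ |c| * (4 / p' * N) := mul_le_mul_of_nonneg_left h1 (abs_nonneg _)
      _ = 4 / p' * |c| * N := by ring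

end

end BilEnt
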