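import Pool.Agent.BilEnt.A02
import Pool.Agent.BilEnt.A03
import Pool.Agent.BilEnt.A04

/-!
# MP_bd32bb_an, application of part S, module A05: conclusion (P0) for one table (helper75)
-/

open MeasureTheory Real
open scoped ENNReal

namespace BilEnt

/-- a section of positive measure (`Pr_apply`; if all sections had measure zero the integral would
vanish). -/
theorem exists_section {N : ℕ} (hN : N0 ≤ N) {S : Set Yt} (hS : MeasurableSet S)
    (hpos : 0 < Pr N S) : ∃ ω : Om, 0 < mu (hw N ω) {z | (ω, z) ∈ S} := by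
  by_contra hc
  push Not at hc
  rw [Pr_apply hN hS] at hpos
  have h0 : ∀ ω : Om, mu (hw N ω) {z | (ω, z) ∈ S} = 0 := fun ω => le_antisymm (hc ω) bot_le
  simp only [h0, lintegral_zero, lt_self_iff_false] at hpos

/-- (P0) from the conclusion of `s_main` for fixed `N`.

PROOF.  Apply `s_main` (`sys_TT`, `int_log_MM`) with `φ y = 1 / stt (hw N y.1) y.2` (measurable:
`measurable_stt_hw`), obtaining `lam K A v w`.  Replace `A` by `A ∩ {y | y.2 ∈ X0 (hw N y.1)}`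
(`measurableSet_X0_hw`, `ae_mem_X0`: same measure).  `exists_section` gives `ω`; put `h = hw N ω`,
`A' = {z | (ω, z) ∈ A ∧ z ∈ X0 h}`, `v' z = frv (pw h z) (v (ω, z))`, `w' z = frv (pw h z) (w (ω, z))`.
On `A'`: `1/K ≤ stt`, so `pw ≥ 99/100/K ≥ 1/(2K)` and `pw ≤ 2` (`pw_bounds`).
`(TT N)^[l] (ω, z) = (ω, (Tm h)^[l] z)` (`TT`), `ac (TT N) (MM N) l (ω, z) = mprod (Ms h z) 0 l` (`ac_TT`),
and `frame_change`.  Constants: `K' = 16 K²`. -/
theorem P0_of_S {N : ℕ} (hN : N0 ≤ N)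
    (hS1 : ∑' n : ℕ, Pr N {y | √(n : ℝ) < Dn (TT N) (TTi N) (MM N) n y} ≠ ∞)
    (n0 : ℕ) (hn0 : 1 ≤ n0)
    (hS2a : Summable fun j : ℕ =>
      (∫ y, Dn (TT N) (TTi N) (MM N) (2 ^ j * n0) y ∂(Pr N)) / (2 ^ (j + 1) * n0))
    (hS2b : ∑' j : ℕ, (∫ y, Dn (TT N) (TTi N) (MM N) (2 ^ j * n0) y ∂(Pr N)) / (2 ^ (j + 1) * n0)
      < (∫ y, log (fn (ac (TT N) (MM N) n0 y)) ∂(Pr N)) / n0) :
    ∃ ω : Om, ∃ (lam K : ℝ) (A : Set (ℝ × ℝ)) (v w : ℝ × ℝ → ℝ × ℝ),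
      P0 (hw N ω) lam K A v w := by
  obtain ⟨lam, hlam, K, hK, A, hA, hμA, v, w, hv, hw', hnv, hnw, H⟩ :=
    s_main (sys_TT hN) (int_log_MM hN) hS1 n0 hn0 hS2a hS2b
      (fun y => 1 / stt (hw N y.1) y.2) (measurable_const.div (measurable_stt_hw hN))
  have hK0 : 0 < K := by linarith
  have hX := measurableSet_X0_hw hN
  have hA1 : MeasurableSet (A ∩ {y : Yt | y.2 ∈ X0 (hw N y.1)}) := hA.inter hX
  have hμ1 : 0 < Pr N (A ∩ {y : Yt | y.2 ∈ X0 (hw N y.1)}) := by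
    have e : Pr N (A ∩ {y : Yt | y.2 ∈ X0 (hw N y.1)}) = Pr N A := by
      refine measure_congr ?_
      filter_upwards [ae_mem_X0 hN] with y hy
      exact propext ⟨fun h => h.1, fun h => ⟨h, hy⟩⟩
    rw [e]
    exact hμA
  obtain ⟨ω, hω⟩ := exists_section hN hA1 hμ1
  have hh : IsTab (hw N ω) := isTab_hw hN ω
  have hpm : Measurable (pw (hw N ω)) := measurable_pw hh
  have hmv : Measurable fun z : ℝ × ℝ => v (ω, z) := hv.comp measurable_prodMk_left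
  have hmw : Measurable fun z : ℝ × ℝ => w (ω, z) := hw'.comp measurable_prodMk_left
  -- facts on the good set
  have hst : ∀ z : ℝ × ℝ, (ω, z) ∈ A → z ∈ X0 (hw N ω) → 1 / K ≤ stt (hw N ω) z := by
    intro z hz hz0
    have h1 : 1 / stt (hw N ω) z ≤ K := (H (ω, z) hz).1
    have h2 := stt_pos hz0.1
    rw [div_le_iff₀ h2] at h1
    rw [div_le_iff₀ hK0]
    linarith
  have hpw : ∀ z : ℝ × ℝ, (ω, z) ∈ A → z ∈ X0 (hw N ω) →
      1 / (2 * K) ≤ pw (hw N ω) z ∧ pw (hw N ω) z ≤ 2 := by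
    intro z hz hz0
    obtain ⟨b1, b2, b3⟩ := pw_bounds hh hz0.1
    have h1 := hst z hz hz0
    have e : 1 / (2 * K) = 1 / 2 * (1 / K) := by field_simp
    rw [e]
    have hK1 : 0 < 1 / K := by positivity
    constructor <;> linarith
  refine ⟨ω, lam, 16 * K ^ 2, {z | (ω, z) ∈ A ∩ {y : Yt | y.2 ∈ X0 (hw N y.1)}},
    fun z => frv (pw (hw N ω) z) (v (ω, z)), fun z => frv (pw (hw N ω) z) (w (ω, z)),
    { lam_pos := hlam
      one_le_K := by nlinarith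
      meas := measurable_prodMk_left hA1
      sub := fun z hz => hz.2
      pos := hω
      mv := frv_meas hpm hmv
      mw := frv_meas hpm hmw
      nv := fun z => frv_unit (hnv _)
      nw := fun z => frv_unit (hnw _)
      stt_ge := ?_
      wdg := ?_
      ex := ?_
      co := ?_ }⟩
  · rintro z ⟨hz, hz0⟩
    refine le_trans ?_ (hst z hz hz0)
    exact one_div_le_one_div_of_le hK0 (by nlinarith)
  · rintro z ⟨hz, hz0⟩
    obtain ⟨p1, p2⟩ := hpw z hz hz0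
    have hp0 : 0 < pw (hw N ω) z := lt_of_lt_of_le (by positivity) p1
    refine le_trans ?_ (frv_wedge (hnv _) (hnw _) hp0 p2)
    have h1 := (H (ω, z) hz).2.1
    calc 1 / (16 * K ^ 2) ≤ 1 / (2 * K) / 4 * (1 / K) := by
          have e : 1 / (2 * K) / 4 * (1 / K) = 1 / (8 * K ^ 2) := by field_simp; norm_num
          rw [e]
          exact one_div_le_one_div_of_le (by positivity) (by nlinarith)
      _ ≤ pw (hw N ω) z / 4 * |v (ω, z) 0 * w (ω, z) 1 - v (ω, z) 1 * w (ω, z) 0| := by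
          gcongr
  · rintro z ⟨hz, hz0⟩ l ⟨hl, hl0⟩
    obtain ⟨p1, p2⟩ := hpw z hz hz0
    have hit : (TT N)^[l] (ω, z) = (ω, (Tm (hw N ω))^[l] z) := R11_aux.TT_it N (ω, z) l
    have hmem : (TT N)^[l] (ω, z) ∈ A := by rw [hit]; exact hl
    obtain ⟨c, hc1, hc2⟩ := ((H (ω, z) hz).2.2 l hmem).1
    rw [ac_TT hN (y := (ω, z)) hz0 l, hit] at hc2
    obtain ⟨c', hc'1, hc'2, -⟩ := frame_change hh hz0 l (hnv _) (hnv _) hc2
    have hp0 : 0 < pw (hw N ω) z := lt_of_lt_of_le (by positivity) p1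
    refine ⟨c', ?_, hc'1⟩
    refine le_trans ?_ hc'2
    calc (16 * K ^ 2)⁻¹ * exp (lam * l) ≤ 1 / (2 * K) / 4 * (K⁻¹ * exp (lam * l)) := by
          have e : 1 / (2 * K) / 4 * (K⁻¹ * exp (lam * l)) = (8 * K ^ 2)⁻¹ * exp (lam * l) := by
            field_simp
            norm_num
          rw [e]
          gcongr
          norm_num
      _ ≤ pw (hw N ω) z / 4 * |c| := by
          gcongr
  · rintro z ⟨hz, hz0⟩ l ⟨hl, hl0⟩
    have hit : (TT N)^[l] (ω, z) = (ω, (Tm (hw N ω))^[l] z) := R11_aux.TT_it N (ω, z) l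
    have hmem : (TT N)^[l] (ω, z) ∈ A := by rw [hit]; exact hl
    obtain ⟨q1, q2⟩ := hpw _ hl hl0
    obtain ⟨c, hc1, hc2⟩ := ((H (ω, z) hz).2.2 l hmem).2
    rw [ac_TT hN (y := (ω, z)) hz0 l, hit] at hc2
    obtain ⟨c', hc'1, -, hc'2⟩ := frame_change hh hz0 l (hnw _) (hnw _) hc2
    refine ⟨c', ?_, hc'1⟩
    refine le_trans hc'2 ?_
    have hq : 4 / pw (hw N ω) ((Tm (hw N ω))^[l] z) ≤ 8 * K := by
      have hp0 : 0 < pw (hw N ω) ((Tm (hw N ω))^[l] z) := lt_of_lt_of_le (by positivity) q1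
      rw [div_le_iff₀ hp0]
      calc (4 : ℝ) = 8 * K * (1 / (2 * K)) := by field_simp; norm_num
        _ ≤ 8 * K * pw (hw N ω) ((Tm (hw N ω))^[l] z) := by gcongr
    calc 4 / pw (hw N ω) ((Tm (hw N ω))^[l] z) * |c|
        ≤ 8 * K * (K * exp (-(lam * l))) := by
          gcongr
      _ ≤ 16 * K ^ 2 * exp (-(lam * l)) := by
          have : 0 < exp (-(lam * l)) := exp_pos _
          have h2 : 0 ≤ K ^ 2 * exp (-(lam * l)) := by positivity
          nlinarith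

/-- CONCLUSION of the application step: from (D1) and the output `hB` of `base_S2` there is a table
(with Hölder second derivative) satisfying (P0). -/
theorem exists_P0 (n0 : ℕ → ℕ)
    (hD1 : ∃ C : ℝ, ∃ N1 : ℕ, ∀ N ≥ N1, ∀ n : ℕ, (log N) ^ 2 ≤ n → ∀ x : ℝ, 0 < x →
      Pr N {y | x < Dn (TT N) (TTi N) (MM N) n y} ≤
        ENNReal.ofReal (C * (n : ℝ) ^ (-(4 : ℝ)) + exp (C * (n : ℝ) ^ ((1 : ℝ) / 4) * log N - x)))
    (hB : ∃ N1 : ℕ, ∀ N ≥ N1, 1 ≤ n0 N ∧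
      Summable (fun j : ℕ => (∫ y, Dn (TT N) (TTi N) (MM N) (2 ^ j * n0 N) y ∂(Pr N)) /
        (2 ^ (j + 1) * n0 N)) ∧
      ∑' j : ℕ, (∫ y, Dn (TT N) (TTi N) (MM N) (2 ^ j * n0 N) y ∂(Pr N)) / (2 ^ (j + 1) * n0 N) <
        (∫ y, log (fn (ac (TT N) (MM N) (n0 N) y)) ∂(Pr N)) / n0 N) :
    ∃ (h : ℝ → ℝ) (K0 : ℝ), IsTab h ∧ Hol h K0 ∧
      ∃ (lam K : ℝ) (A : Set (ℝ × ℝ)) (v w : ℝ × ℝ → ℝ × ℝ), P0 h lam K A v w := by
  obtain ⟨C, N1, h1⟩ := hD1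
  obtain ⟨N2, h2⟩ := hB
  have hN : N0 ≤ max N0 (max N1 N2) := le_max_left _ _
  set N := max N0 (max N1 N2) with hNdef
  have hN1 : N1 ≤ N := le_trans (le_max_left _ _) (le_max_right _ _)
  have hN2 : N2 ≤ N := le_trans (le_max_right _ _) (le_max_right _ _)
  obtain ⟨a, b, c⟩ := h2 N hN2
  obtain ⟨ω, H⟩ := P0_of_S hN (S1_of_D1 hN (h1 N hN1)) (n0 N) a b c
  exact ⟨hw N ω, N, (tables hN ω).1, (tables hN ω).2.2.2, H⟩

end BilEnt
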