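import Pool.Agent.BilEnt.Defs

/-!
# MP_bd32bb_an, part P, module P01 (doc proof/MP_bd32bb_an_entropy, section 10)

HINT. (a) `H` of a finer partition is larger: a map `ψ : (Fin n' → Fin m) → β` and grouping: `negMulLog (Σ p_i) ≤ Σ negMulLog p_i` for `p_i ≥ 0`.
`Hent_mono`: restriction of words to the first `n` letters; `Hent_pow`: restriction of words of length `N2*n` to the positions `0, N2, 2N2, ...`.
(b) for `q ≥ N2*n`, `Hent q ≥ Hent (N2 n)`; with `n = q / N2` the liminf of `Hent q / q` is at least `c/(2 N2)`; it is below the supremum defining `KS`.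
-/

open MeasureTheory Real
open scoped ENNReal

namespace BilEnt

/-- cylinder of length `n` of the point `x` for a labelling `lab` -/
def cyl {X L : Type*} (T : X → X) (lab : X → L) (n : ℕ) (x : X) : Set X :=
  {x' | ∀ i < n, lab (T^[i] x') = lab (T^[i] x)}

namespace P01_aux

theorem negMulLog_sum_le {B : Type*} (S : Finset B) (p : B → ℝ) (hp : ∀ b ∈ S, 0 ≤ p b) :
    negMulLog (∑ b ∈ S, p b) ≤ ∑ b ∈ S, negMulLog (p b) := by
  have h1 : negMulLog (∑ b ∈ S, p b) = ∑ b ∈ S, -(p b * log (∑ c ∈ S, p c)) := by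
    rw [negMulLog, Finset.sum_neg_distrib, ← Finset.sum_mul]
    ring
  rw [h1]
  refine Finset.sum_le_sum fun b hb => ?_
  rw [negMulLog]
  rcases (hp b hb).lt_or_eq with h | h
  · have h2 : p b ≤ ∑ c ∈ S, p c := Finset.single_le_sum hp hb
    have h3 : log (p b) ≤ log (∑ c ∈ S, p c) := Real.log_le_log h h2
    have h4 := mul_le_mul_of_nonneg_left h3 h.le
    linarith
  · rw [← h]; simp

theorem ent_le {X : Type*} [MeasurableSpace X] {ν : Measure X} [IsProbabilityMeasure ν]
    {A B : Type*} [Fintype A] [Fintype B] [DecidableEq A] (G : X → B)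
    (hG : ∀ b, MeasurableSet (G ⁻¹' {b})) (r : B → A) :
    ∑ a, negMulLog (ν ((fun x => r (G x)) ⁻¹' {a})).toReal ≤
      ∑ b, negMulLog (ν (G ⁻¹' {b})).toReal := by
  classical
  rw [← Finset.sum_fiberwise Finset.univ r (fun b => negMulLog (ν (G ⁻¹' {b})).toReal)]
  refine Finset.sum_le_sum fun a _ => ?_
  have h1 : (fun x => r (G x)) ⁻¹' {a} = ⋃ b ∈ Finset.univ.filter (fun b => r b = a), G ⁻¹' {b} := by
    ext x
    simp
  have h2 : ν ((fun x => r (G x)) ⁻¹' {a}) =
      ∑ b ∈ Finset.univ.filter (fun b => r b = a), ν (G ⁻¹' {b}) := by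
    rw [h1]
    refine measure_biUnion_finset ?_ (fun b _ => hG b)
    intro b _ b' _ hbb'
    refine Set.disjoint_left.mpr fun x hx hx' => hbb' ?_
    simp only [Set.mem_preimage, Set.mem_singleton_iff] at hx hx'
    rw [← hx, ← hx']
  rw [h2, ENNReal.toReal_sum (fun b _ => measure_ne_top ν _)]
  exact negMulLog_sum_le _ _ fun b _ => ENNReal.toReal_nonneg

theorem Hent_eq {X : Type*} [MeasurableSpace X] {ν : Measure X}
    {T : X → X} {m : ℕ} {ξ : X → Fin m} (n : ℕ) :
    Hent ν T ξ n = ∑ a : Fin n → Fin m,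
      negMulLog (ν ((fun x => (fun i : Fin n => ξ (T^[i] x))) ⁻¹' {a})).toReal := by
  unfold Hent
  refine Finset.sum_congr rfl fun a _ => ?_
  have : {x | ∀ i : Fin n, ξ (T^[i] x) = a i} =
      ((fun x => (fun i : Fin n => ξ (T^[i] x))) ⁻¹' {a}) := by
    ext x
    simp only [Set.mem_ofPred_eq, Set.mem_preimage, Set.mem_singleton_iff]
    exact ⟨fun h => funext h, fun h i => congrFun h i⟩
  rw [this]

theorem meas_word {X : Type*} [MeasurableSpace X]
    {T : X → X} (hT : Measurable T) {m : ℕ} {ξ : X → Fin m} (hξ : Measurable ξ) (n : ℕ)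
    (a : Fin n → Fin m) :
    MeasurableSet ((fun x => (fun i : Fin n => ξ (T^[i] x))) ⁻¹' {a}) := by
  have h : Measurable (fun x => (fun i : Fin n => ξ (T^[i] x))) :=
    measurable_pi_lambda _ fun i => hξ.comp (hT.iterate i)
  exact h (measurableSet_singleton a)

end P01_aux

open P01_aux in
theorem Hent_mono {X : Type*} [MeasurableSpace X] {ν : Measure X} [IsProbabilityMeasure ν]
    {T : X → X} (hT : Measurable T) {m : ℕ} {ξ : X → Fin m} (hξ : Measurable ξ) {n n' : ℕ}
    (hn : n ≤ n') : Hent ν T ξ n ≤ Hent ν T ξ n' := by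
  rw [Hent_eq n, Hent_eq n']
  exact ent_le (fun x => (fun i : Fin n' => ξ (T^[i] x))) (meas_word hT hξ n')
    (fun b => fun i : Fin n => b (Fin.castLE hn i))

open P01_aux in
theorem Hent_pow {X : Type*} [MeasurableSpace X] {ν : Measure X} [IsProbabilityMeasure ν]
    {T : X → X} (hT : Measurable T) {m : ℕ} {ξ : X → Fin m} (hξ : Measurable ξ) {N2 n : ℕ}
    (hN : 1 ≤ N2) : Hent ν (T^[N2]) ξ n ≤ Hent ν T ξ (N2 * n) := by
  rw [Hent_eq n, Hent_eq (N2 * n)]
  have h := ent_le (ν := ν) (fun x => (fun i : Fin (N2 * n) => ξ (T^[i] x)))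
    (meas_word hT hξ (N2 * n))
    (fun b => fun i : Fin n => b ⟨N2 * i, Nat.mul_lt_mul_of_pos_left i.2 (by omega)⟩)
  simpa only [← Function.iterate_mul] using h

/-- linear growth of the entropy of an iterate gives positive Kolmogorov–Sinai entropy -/
theorem KS_pos_of_growth {X : Type*} [MeasurableSpace X] {ν : Measure X} [IsProbabilityMeasure ν]
    {T : X → X} (hT : Measurable T) {m : ℕ} {ξ : X → Fin m} (hξ : Measurable ξ) {N2 : ℕ}
    (hN : 1 ≤ N2) {c : ℝ} (hc : 0 < c) {n1 : ℕ}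
    (H : ∀ n ≥ n1, c * n ≤ Hent ν (T^[N2]) ξ n) : 0 < KS ν T := by
  have hN' : (0 : ℝ) < N2 := by exact_mod_cast hN
  have key : ∀ q : ℕ, N2 * (n1 + 1) ≤ q → c / (2 * N2) ≤ Hent ν T ξ q / q := by
    intro q hq
    have hq0 : 0 < q := lt_of_lt_of_le (by positivity) hq
    set n := q / N2 with hn
    have hn1 : n1 + 1 ≤ n := by
      rw [hn, Nat.le_div_iff_mul_le (by omega)]
      calc (n1 + 1) * N2 = N2 * (n1 + 1) := by ring
        _ ≤ q := hq
    have h1 : N2 * n ≤ q := Nat.mul_div_le q N2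
    have h2 : q < N2 * (n + 1) := by
      have := Nat.lt_mul_div_succ q (show 0 < N2 by omega)
      simpa [hn] using this
    have h3 : c * n ≤ Hent ν T ξ q :=
      (H n (by omega)).trans ((Hent_pow hT hξ hN).trans (Hent_mono hT hξ h1))
    have hq' : (0 : ℝ) < q := by exact_mod_cast hq0
    rw [div_le_div_iff₀ (by positivity) hq']
    have h4 : (q : ℝ) ≤ 2 * N2 * n := by
      have : q ≤ 2 * N2 * n := by nlinarith
      exact_mod_cast this
    calc c * q ≤ c * (2 * N2 * n) := mul_le_mul_of_nonneg_left h4 hc.le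
      _ = (c * n) * (2 * N2) := by ring
      _ ≤ Hent ν T ξ q * (2 * N2) := mul_le_mul_of_nonneg_right h3 (by positivity)
  have h5 : ((c / (2 * N2) : ℝ) : EReal) ≤
      Filter.liminf (fun n : ℕ => ((Hent ν T ξ n / n : ℝ) : EReal)) Filter.atTop := by
    refine Filter.le_liminf_of_le (by isBoundedDefault) ?_
    filter_upwards [Filter.eventually_ge_atTop (N2 * (n1 + 1))] with q hq
    exact_mod_cast key q hq
  have h6 : (0 : EReal) < ((c / (2 * N2) : ℝ) : EReal) := by
    have : 0 < c / (2 * (N2 : ℝ)) := by positivity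
    exact_mod_cast this
  refine lt_of_lt_of_le h6 (h5.trans ?_)
  unfold KS
  exact le_iSup_of_le m (le_iSup_of_le ξ (le_iSup_of_le hξ le_rfl))

end BilEnt
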