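import Pool.Agent.BilEnt.Defs
import Pool.Agent.BilEnt.P01

/-!
# MP_bd32bb_an, part P, module P02 (doc proof/MP_bd32bb_an_entropy, section 10)

HINT. `Hent = Σ_a p_a log(1/p_a)`; group the words `a` with `p_a ≤ exp(-κ n)`: their total mass is at least `m1` and each contributes `≥ p_a κ n`; the others contribute `≥ 0`.
-/

open MeasureTheory Real
open scoped ENNReal

namespace BilEnt

theorem Hent_ge_of_small_cyl {X : Type*} [MeasurableSpace X] {ν : Measure X}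
    [IsProbabilityMeasure ν] {T : X → X} (hT : Measurable T) {m : ℕ} {ξ : X → Fin m}
    (hξ : Measurable ξ) {n : ℕ} {κ m1 : ℝ} (hκ : 0 ≤ κ) (hm1 : 0 ≤ m1)
    (H : ENNReal.ofReal m1 ≤ ν {x | ν (cyl T ξ n x) ≤ ENNReal.ofReal (exp (-κ * n))}) :
    m1 * (κ * n) ≤ Hent ν T ξ n := by
  classical
  obtain ⟨W, hW⟩ : ∃ W : (Fin n → Fin m) → Set X,
      W = fun a => {x | ∀ i : Fin n, ξ (T^[i] x) = a i} := ⟨_, rfl⟩
  have hcyl : ∀ x, cyl T ξ n x = W (fun i : Fin n => ξ (T^[(i : ℕ)] x)) := by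
    intro x
    rw [hW]
    ext x'
    constructor
    · intro h i
      exact h i i.2
    · intro h i hi
      exact h ⟨i, hi⟩
  obtain ⟨Gd, hGd⟩ : ∃ Gd : Finset (Fin n → Fin m), Gd = Finset.univ.filter
      (fun a => ν (W a) ≤ ENNReal.ofReal (exp (-κ * n))) := ⟨_, rfl⟩
  have hsub : {x | ν (cyl T ξ n x) ≤ ENNReal.ofReal (exp (-κ * n))} ⊆ ⋃ a ∈ Gd, W a := by
    intro x hx
    have hx' : ν (cyl T ξ n x) ≤ ENNReal.ofReal (exp (-κ * n)) := hx
    rw [hcyl] at hx'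
    rw [Set.mem_iUnion₂]
    refine ⟨fun i : Fin n => ξ (T^[(i : ℕ)] x), ?_, ?_⟩
    · rw [hGd]
      exact Finset.mem_filter.2 ⟨Finset.mem_univ _, hx'⟩
    · rw [hW]
      intro i
      rfl
  have h1 : ENNReal.ofReal m1 ≤ ∑ a ∈ Gd, ν (W a) :=
    (H.trans (measure_mono hsub)).trans (measure_biUnion_finset_le Gd W)
  have hfin : ∀ a, ν (W a) ≠ ⊤ := fun a => measure_ne_top ν _
  have h2 : m1 ≤ ∑ a ∈ Gd, (ν (W a)).toReal := by
    have h3 : (ENNReal.ofReal m1).toReal ≤ (∑ a ∈ Gd, ν (W a)).toReal :=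
      ENNReal.toReal_mono (ENNReal.sum_ne_top.2 fun a _ => hfin a) h1
    rw [ENNReal.toReal_ofReal hm1, ENNReal.toReal_sum fun a _ => hfin a] at h3
    exact h3
  have hle1 : ∀ a, (ν (W a)).toReal ≤ 1 := by
    intro a
    have h3 : ν (W a) ≤ 1 := prob_le_one
    have h4 := ENNReal.toReal_mono ENNReal.one_ne_top h3
    simpa using h4
  have h0 : ∀ a, 0 ≤ (ν (W a)).toReal := fun a => ENNReal.toReal_nonneg
  have hH : Hent ν T ξ n = ∑ a : Fin n → Fin m, negMulLog (ν (W a)).toReal := by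
    unfold Hent
    rw [hW]
  have h5 : ∑ a ∈ Gd, negMulLog (ν (W a)).toReal ≤ Hent ν T ξ n := by
    rw [hH]
    exact Finset.sum_le_sum_of_subset_of_nonneg (Finset.subset_univ _)
      fun a _ _ => Real.negMulLog_nonneg (h0 a) (hle1 a)
  have h6 : ∀ a ∈ Gd, (ν (W a)).toReal * (κ * n) ≤ negMulLog (ν (W a)).toReal := by
    intro a ha
    rw [hGd] at ha
    have h7 : ν (W a) ≤ ENNReal.ofReal (exp (-κ * n)) := (Finset.mem_filter.1 ha).2
    have h8 : (ν (W a)).toReal ≤ exp (-κ * n) := by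
      have := ENNReal.toReal_mono ENNReal.ofReal_ne_top h7
      rwa [ENNReal.toReal_ofReal (exp_pos _).le] at this
    unfold negMulLog
    rcases (h0 a).eq_or_lt with h9 | h9
    · rw [← h9]
      simp
    · have h10 : log (ν (W a)).toReal ≤ -κ * n := by
        rw [Real.log_le_iff_le_exp h9]
        exact h8
      nlinarith
  have h11 : ∑ a ∈ Gd, (ν (W a)).toReal * (κ * n) ≤ ∑ a ∈ Gd, negMulLog (ν (W a)).toReal :=
    Finset.sum_le_sum h6
  rw [← Finset.sum_mul] at h11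
  have h12 : m1 * (κ * n) ≤ (∑ a ∈ Gd, (ν (W a)).toReal) * (κ * n) :=
    mul_le_mul_of_nonneg_right h2 (by positivity)
  linarith

end BilEnt
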