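import Pool.Agent.BilEnt.Defs
import Pool.Agent.BilEnt.P02

/-!
# MP_bd32bb_an, part P, module P03 (doc proof/MP_bd32bb_an_entropy, section 10)
-/

open MeasureTheory Real
open scoped ENNReal

namespace BilEnt

namespace P03_aux

theorem tsum_pi {L : Type*} : ∀ (n : ℕ) (f : Fin n → L → ℝ≥0∞),
    ∑' a : Fin n → L, ∏ i, f i (a i) = ∏ i, ∑' l, f i l := by
  intro n
  induction n with
  | zero =>
    intro f
    simp
  | succ n ih =>
    intro f
    rw [← (Fin.consEquiv (fun _ : Fin (n + 1) => L)).tsum_eq, ENNReal.tsum_prod', Fin.prod_univ_succ]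
    have h1 : ∀ l : L, ∑' b : Fin n → L,
        ∏ i, f i ((Fin.consEquiv (fun _ : Fin (n + 1) => L)) (l, b) i)
        = f 0 l * ∏ i : Fin n, ∑' l, f i.succ l := by
      intro l
      rw [← ih (fun i => f i.succ), ← ENNReal.tsum_mul_left]
      refine tsum_congr fun b => ?_
      rw [Fin.prod_univ_succ]
      simp [Fin.consEquiv]
    rw [tsum_congr h1, ENNReal.tsum_mul_right]

theorem swap {A B : Type*} [Fintype B] (c : ℝ≥0∞) (F : A → B → ℝ≥0∞) (Q : B → ℝ≥0∞) :
    ∑' a, c * ∑ b, F a b * Q b = c * ∑ b, (∑' a, F a b) * Q b := by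
  rw [ENNReal.tsum_mul_left]
  congr 1
  rw [Summable.tsum_finsetSum fun b _ => ENNReal.summable]
  refine Finset.sum_congr rfl fun b _ => ?_
  rw [ENNReal.tsum_mul_right]

variable {X : Type*} [MeasurableSpace X] {ν : Measure X}

theorem iter_mp {S : X → X} (hS : MeasurePreserving S ν ν) (i : ℕ) :
    MeasurePreserving (S^[i]) ν ν := hS.iterate i

theorem comp [IsProbabilityMeasure ν] {S : X → X} (hSm : ∀ i, Measurable (S^[i])) {L : Type*}
    [Countable L] (lab : X → L) {K : ℕ} (π' : L → Fin K) (hm : Measurable fun x => π' (lab x))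
    (r : L → ℝ≥0∞) (hfib : ∀ j : Fin K, ∑' l, (if π' l = j then r l else 0) ≤ 1) (n : ℕ)
    (c : ℝ≥0∞) :
    ν {x | ν (cyl S lab n x) < c * ((∏ i : Fin n, r (lab (S^[i] x))) *
      ν (cyl S (fun y => π' (lab y)) n x))} ≤ c := by
  set bad : Set X := {x | ν (cyl S lab n x) < c * ((∏ i : Fin n, r (lab (S^[i] x))) *
      ν (cyl S (fun y => π' (lab y)) n x))} with hbad
  set E : (Fin n → L) → Set X := fun a => {x | ∀ i : Fin n, lab (S^[i] x) = a i} with hE
  set Q : (Fin n → Fin K) → ℝ≥0∞ := fun b => ν {x | ∀ i : Fin n, π' (lab (S^[i] x)) = b i}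
    with hQ
  have h1 : ν bad ≤ ∑' a, ν (bad ∩ E a) := by
    have : bad ⊆ ⋃ a, bad ∩ E a := by
      intro x hx
      refine Set.mem_iUnion.2 ⟨fun i => lab (S^[i] x), hx, fun i => rfl⟩
    exact (measure_mono this).trans (measure_iUnion_le _)
  have h2 : ∀ a, ν (bad ∩ E a) ≤ c *
      ∑ b : Fin n → Fin K, (∏ i, if π' (a i) = b i then r (a i) else 0) * Q b := by
    intro a
    by_cases hne : (bad ∩ E a).Nonempty
    · obtain ⟨x, hx1, hx2⟩ := hne
      have hcl : cyl S lab n x = E a := by
        ext x'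
        simp only [cyl, hE, Set.mem_ofPred_eq]
        constructor
        · intro hh i
          rw [hh i i.2]
          exact hx2 i
        · intro hh i hi
          rw [hh ⟨i, hi⟩]
          exact (hx2 ⟨i, hi⟩).symm
      have hcξ : cyl S (fun y => π' (lab y)) n x
          = {x' | ∀ i : Fin n, π' (lab (S^[i] x')) = π' (a i)} := by
        ext x'
        simp only [cyl, Set.mem_ofPred_eq]
        constructor
        · intro hh i
          rw [hh i i.2, hx2 i]
        · intro hh i hi
          have := hh ⟨i, hi⟩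
          rw [this, hx2 ⟨i, hi⟩]
      have hRa : ∏ i : Fin n, r (lab (S^[i] x)) = ∏ i, r (a i) := by
        refine Finset.prod_congr rfl fun i _ => ?_
        rw [hx2 i]
      have h3 : ν (bad ∩ E a) ≤ ν (cyl S lab n x) := by
        rw [hcl]
        exact measure_mono Set.inter_subset_right
      refine h3.trans (le_trans (le_of_lt hx1) ?_)
      refine mul_le_mul_right ?_ _
      rw [hRa, hcξ]
      refine le_trans ?_ (Finset.single_le_sum (f := fun b : Fin n → Fin K =>
        (∏ i, if π' (a i) = b i then r (a i) else 0) * Q b)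
        (fun b _ => bot_le) (Finset.mem_univ (fun i => π' (a i))))
      simp [hQ]
    · rw [Set.not_nonempty_iff_eq_empty] at hne
      rw [hne]
      simp
  have h3 : ∑' a, ν (bad ∩ E a) ≤ ∑' a : Fin n → L, c *
      ∑ b : Fin n → Fin K, (∏ i, if π' (a i) = b i then r (a i) else 0) * Q b :=
    ENNReal.tsum_le_tsum h2
  have h4 := swap c (fun (a : Fin n → L) (b : Fin n → Fin K) =>
    ∏ i, if π' (a i) = b i then r (a i) else 0) Q
  have h7 : ∑ b : Fin n → Fin K,
      (∑' a : Fin n → L, ∏ i, if π' (a i) = b i then r (a i) else 0) * Q b ≤ ∑ b, Q b := by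
    refine Finset.sum_le_sum fun b _ => ?_
    have h8 := tsum_pi n (fun i l => if π' l = b i then r l else 0)
    rw [h8]
    have h9 : ∏ i : Fin n, ∑' l, (if π' l = b i then r l else 0) ≤ 1 :=
      Finset.prod_le_one' fun i _ => hfib (b i)
    calc (∏ i : Fin n, ∑' l, (if π' l = b i then r l else 0)) * Q b ≤ 1 * Q b :=
          mul_le_mul_left h9 _
      _ = Q b := one_mul _
  have h10 : ∑ b, Q b ≤ 1 := by
    have hf : Measurable fun x => (fun i : Fin n => π' (lab (S^[i] x))) :=
      measurable_pi_lambda _ fun i => hm.comp (hSm i)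
    have h5 := sum_measure_preimage_singleton (μ := ν)
      (Finset.univ : Finset (Fin n → Fin K))
      (f := fun x => (fun i : Fin n => π' (lab (S^[i] x))))
      (fun b _ => hf (measurableSet_singleton b))
    have h6 : ∀ b : Fin n → Fin K, Q b
        = ν ((fun x => (fun i : Fin n => π' (lab (S^[i] x)))) ⁻¹' {b}) := by
      intro b
      simp only [hQ]
      congr 1
      ext x
      simp [funext_iff]
    rw [Finset.sum_congr rfl fun b _ => h6 b, h5]
    exact prob_le_one
  refine h1.trans (h3.trans ?_)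
  rw [h4]
  exact (mul_le_mul_right (h7.trans h10) c).trans (mul_one c).le

end P03_aux

/-- from a countable partition with small cylinders to a finite one with positive entropy -/
theorem finite_of_countable {X : Type*} [MeasurableSpace X] {ν : Measure X}
    [IsProbabilityMeasure ν] {S : X → X} (hS : MeasurePreserving S ν ν)
    {L : Type} [Countable L] [MeasurableSpace L] [MeasurableSingletonClass L]
    {lab : X → L} (hlab : Measurable lab) {w : L → ℝ} (hw0 : ∀ l, 0 ≤ w l) (hws : Summable w)
    (hw1 : ∑' l, w l ≤ 1) (hwpos : ∀ x, 0 < w (lab x))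
    (hint : Integrable (fun x => log (1 / w (lab x))) ν)
    {C κ m1 : ℝ} (hC : 0 < C) (hκ : 0 < κ) (hm1 : 0 < m1) {n1 : ℕ}
    (H : ∀ n ≥ n1, ENNReal.ofReal m1 ≤
      ν {x | ν (cyl S lab n x) ≤ ENNReal.ofReal (C * exp (-κ * n))}) :
    ∃ (m : ℕ) (ξ : X → Fin m), Measurable ξ ∧ ∃ c > 0, ∃ n2 : ℕ, ∀ n ≥ n2,
      c * n ≤ Hent ν S ξ n := by
  classical
  obtain ⟨e, he⟩ := exists_injective_nat L
  have hwle : ∀ l, w l ≤ 1 := fun l => (hws.le_tsum l fun j _ => hw0 j).trans hw1
  set g : X → ℝ := fun x => log (1 / w (lab x)) with hg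
  have hg0 : ∀ x, 0 ≤ g x := by
    intro x
    refine Real.log_nonneg ?_
    rw [le_div_iff₀ (hwpos x)]
    simpa using hwle (lab x)
  have hmlab : ∀ s : Set L, MeasurableSet (lab ⁻¹' s) := fun s => hlab (Set.to_countable s).measurableSet
  -- the tail
  set G : ℕ → Set X := fun k => {x | k ≤ e (lab x)} with hG
  have hGm : ∀ k, MeasurableSet (G k) := fun k => hmlab {l | k ≤ e l}
  have htail : Filter.Tendsto (fun k : ℕ => ∫ x, (G k).indicator g x ∂ν) Filter.atTop (nhds 0) := by
    have h1 : Filter.Tendsto (fun k : ℕ => ∫ x, (G k).indicator g x ∂ν) Filter.atTop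
        (nhds (∫ x, (0 : ℝ) ∂ν)) := by
      refine tendsto_integral_of_dominated_convergence g
        (fun k => (hint.indicator (hGm k)).aestronglyMeasurable) hint ?_ ?_
      · intro k
        refine Filter.Eventually.of_forall fun x => ?_
        by_cases hx : x ∈ G k
        · rw [Set.indicator_of_mem hx, Real.norm_of_nonneg (hg0 x)]
        · rw [Set.indicator_of_notMem hx]
          simpa using hg0 x
      · refine Filter.Eventually.of_forall fun x => ?_
        refine tendsto_const_nhds.congr' ?_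
        filter_upwards [Filter.eventually_gt_atTop (e (lab x))] with k hk
        rw [Set.indicator_of_notMem]
        simp only [hG, Set.mem_ofPred_eq, not_le]
        exact hk
    simpa using h1
  obtain ⟨k, hk⟩ := ((htail.eventually (gt_mem_nhds (show (0 : ℝ) < κ * m1 / 64 by positivity)))).exists
  -- the finite partition
  set ξ : X → Fin (k + 1) := fun x => ⟨min (e (lab x)) k, by
    have := min_le_right (e (lab x)) k
    omega⟩ with hξ
  set π' : L → Fin (k + 1) := fun l => ⟨min (e l) k, by
    have := min_le_right (e l) k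
    omega⟩ with hπ'
  have hξπ : ∀ x, ξ x = π' (lab x) := fun x => rfl
  have hξm : Measurable ξ := by
    refine measurable_to_countable' fun j => ?_
    exact hmlab (π' ⁻¹' {j})
  have hSm : ∀ i, Measurable (S^[i]) := fun i => (P03_aux.iter_mp hS i).measurable
  -- cost
  set ρ : L → ℝ := fun l => if e l < k then 1 else w l with hρ
  have hρ0 : ∀ l, 0 ≤ ρ l := fun l => by
    simp only [hρ]
    split_ifs
    · norm_num
    · exact hw0 l
  have hρpos : ∀ x, 0 < ρ (lab x) := fun x => by
    simp only [hρ]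
    split_ifs
    · norm_num
    · exact hwpos x
  set R : ℕ → X → ℝ := fun n x => ∏ i : Fin n, ρ (lab (S^[i] x)) with hR
  have hRpos : ∀ n x, 0 < R n x := fun n x => Finset.prod_pos fun i _ => hρpos _
  set h : ℕ → X → ℝ := fun n x => ∑ i : Fin n, (G k).indicator g (S^[i] x) with hh
  have hRh : ∀ n x, R n x = exp (-(h n x)) := by
    intro n x
    simp only [hR, hh]
    rw [← Finset.sum_neg_distrib, Real.exp_sum]
    refine Finset.prod_congr rfl fun i _ => ?_
    set y := S^[i] x with hy
    by_cases hyk : e (lab y) < k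
    · have : y ∉ G k := by
        simp only [hG, Set.mem_ofPred_eq, not_le]
        exact hyk
      rw [Set.indicator_of_notMem this]
      simp [hρ, hyk]
    · have : y ∈ G k := by
        simp only [hG, Set.mem_ofPred_eq]
        omega
      rw [Set.indicator_of_mem this]
      simp only [hρ, hyk, if_false, hg]
      rw [one_div, Real.log_inv, neg_neg, Real.exp_log (hwpos y)]
  have hh0 : ∀ n x, 0 ≤ h n x := fun n x => Finset.sum_nonneg fun i _ =>
    Set.indicator_nonneg (fun y _ => hg0 y) _
  have hind : Integrable ((G k).indicator g) ν := hint.indicator (hGm k)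
  have hhint : ∀ n, Integrable (h n) ν := by
    intro n
    refine integrable_finsetSum _ fun i _ => ?_
    exact (P03_aux.iter_mp hS i).integrable_comp_of_integrable hind
  have hhI : ∀ n, ∫ x, h n x ∂ν ≤ n * (κ * m1 / 64) := by
    intro n
    have hii : ∀ i : Fin n, Integrable (fun x => (G k).indicator g (S^[i] x)) ν := fun i =>
      (P03_aux.iter_mp hS i).integrable_comp_of_integrable hind
    simp only [hh]
    rw [integral_finsetSum _ fun i _ => hii i]
    have h1 : ∀ i : Fin n, ∫ x, (G k).indicator g (S^[i] x) ∂ν ≤ κ * m1 / 64 := by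
      intro i
      have h2 : ∫ x, (G k).indicator g (S^[i] x) ∂ν = ∫ x, (G k).indicator g x ∂ν := by
        have h3 := integral_map (hSm i).aemeasurable (f := (G k).indicator g) (μ := ν)
          (by rw [(P03_aux.iter_mp hS i).map_eq]; exact hind.aestronglyMeasurable)
        rw [(P03_aux.iter_mp hS i).map_eq] at h3
        exact h3.symm
      rw [h2]
      exact hk.le
    calc ∑ i : Fin n, ∫ x, (G k).indicator g (S^[i] x) ∂ν ≤ ∑ _i : Fin n, κ * m1 / 64 :=
          Finset.sum_le_sum fun i _ => h1 i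
      _ = n * (κ * m1 / 64) := by simp
  -- Markov
  have hMark : ∀ n : ℕ, 0 < n → ν {x | κ * n / 8 ≤ h n x} ≤ ENNReal.ofReal (m1 / 8) := by
    intro n hn
    have hn' : (0 : ℝ) < n := by exact_mod_cast hn
    have h1 := mul_meas_ge_le_integral_of_nonneg (Filter.Eventually.of_forall (hh0 n)) (hhint n)
      (κ * n / 8)
    have h2 : κ * n / 8 * ν.real {x | κ * n / 8 ≤ h n x} ≤ n * (κ * m1 / 64) := h1.trans (hhI n)
    have h3 : ν.real {x | κ * n / 8 ≤ h n x} ≤ m1 / 8 := by
      have h4 : 0 < κ * n / 8 := by positivity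
      rw [← mul_le_mul_iff_right₀ h4]
      refine h2.trans (le_of_eq ?_)
      ring
    rw [← ENNReal.ofReal_toReal (measure_ne_top ν {x | κ * n / 8 ≤ h n x})]
    exact ENNReal.ofReal_le_ofReal h3
  -- comparison of cylinders
  have hfib : ∀ j : Fin (k + 1), ∑' l, (if π' l = j then ENNReal.ofReal (ρ l) else 0) ≤ 1 := by
    intro j
    by_cases hj : (j : ℕ) < k
    · by_cases hex : ∃ l, e l = j
      · obtain ⟨l0, hl0⟩ := hex
        rw [tsum_eq_single l0]
        · split_ifs
          · have : ρ l0 = 1 := by simp [hρ, hl0, hj]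
            rw [this]; simp
          · simp
        · intro l hl
          rw [if_neg]
          intro hcon
          apply hl
          apply he
          have h5 := congrArg Fin.val hcon
          simp only [hπ'] at h5
          rw [hl0]
          omega
      · push Not at hex
        have : ∀ l, (if π' l = j then ENNReal.ofReal (ρ l) else 0) = 0 := by
          intro l
          rw [if_neg]
          intro hcon
          apply hex l
          have h5 := congrArg Fin.val hcon
          simp only [hπ'] at h5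
          omega
        simp [this]
    · have h6 : ∀ l, (if π' l = j then ENNReal.ofReal (ρ l) else 0) ≤ ENNReal.ofReal (w l) := by
        intro l
        split_ifs with h7
        · have h5 := congrArg Fin.val h7
          simp only [hπ'] at h5
          have h8 : ¬ (e l < k) := by omega
          simp [hρ, h8]
        · exact bot_le
      refine (ENNReal.tsum_le_tsum h6).trans ?_
      rw [← ENNReal.ofReal_tsum_of_nonneg hw0 hws]
      exact ENNReal.ofReal_le_one.2 hw1
  have hcomp : ∀ (n : ℕ) (s : ℝ), ν {x | ν (cyl S lab n x)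
      < ENNReal.ofReal (exp (-s)) * (ENNReal.ofReal (R n x) * ν (cyl S ξ n x))}
      ≤ ENNReal.ofReal (exp (-s)) := by
    intro n s
    have h1 := P03_aux.comp (ν := ν) hSm lab π' hξm (fun l => ENNReal.ofReal (ρ l)) hfib n
      (ENNReal.ofReal (exp (-s)))
    have h2 : ∀ x, ENNReal.ofReal (R n x) = ∏ i : Fin n, ENNReal.ofReal (ρ (lab (S^[i] x))) :=
      fun x => ENNReal.ofReal_prod_of_nonneg fun i _ => hρ0 _
    simp only [h2]
    exact h1
  -- conclusion
  refine ⟨k + 1, ξ, hξm, m1 / 2 * (κ / 2), by positivity, ?_⟩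
  have hE1 : ∀ᶠ n : ℕ in Filter.atTop, exp (-(κ / 8 * n)) ≤ m1 / 8 := by
    have h1 : Filter.Tendsto (fun n : ℕ => exp (-(κ / 8 * n))) Filter.atTop (nhds 0) := by
      refine Real.tendsto_exp_neg_atTop_nhds_zero.comp ?_
      exact Filter.Tendsto.const_mul_atTop (by positivity) tendsto_natCast_atTop_atTop
    exact h1.eventually (ge_mem_nhds (by positivity))
  have hE2 : ∀ᶠ n : ℕ in Filter.atTop, log C ≤ κ / 4 * n := by
    have h1 : Filter.Tendsto (fun n : ℕ => κ / 4 * (n : ℝ)) Filter.atTop Filter.atTop :=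
      Filter.Tendsto.const_mul_atTop (by positivity) tendsto_natCast_atTop_atTop
    exact h1.eventually_ge_atTop _
  obtain ⟨n2, hn2⟩ := Filter.eventually_atTop.1
    ((hE1.and hE2).and (Filter.eventually_ge_atTop (max n1 1)))
  refine ⟨n2, fun n hn => ?_⟩
  obtain ⟨⟨hn3, hn4⟩, hn5⟩ := hn2 n hn
  have hnn1 : n1 ≤ n := (le_max_left _ _).trans hn5
  have hn0 : 0 < n := (le_max_right _ _).trans hn5
  have hsub : {x | ν (cyl S lab n x) ≤ ENNReal.ofReal (C * exp (-κ * n))} ⊆
      {x | ν (cyl S ξ n x) ≤ ENNReal.ofReal (exp (-(κ / 2) * n))} ∪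
      ({x | ν (cyl S lab n x) < ENNReal.ofReal (exp (-(κ / 8 * n))) *
          (ENNReal.ofReal (R n x) * ν (cyl S ξ n x))} ∪ {x | κ * n / 8 ≤ h n x}) := by
    intro x hx
    by_contra hcon
    simp only [Set.mem_union, Set.mem_ofPred_eq, not_or, not_le, not_lt] at hcon hx
    obtain ⟨hc1, hc2, hc3⟩ := hcon
    set q : ℝ := (ν (cyl S ξ n x)).toReal with hq
    have hq0 : 0 ≤ q := ENNReal.toReal_nonneg
    have hqe : ν (cyl S ξ n x) = ENNReal.ofReal q :=
      (ENNReal.ofReal_toReal (measure_ne_top _ _)).symm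
    have h1 := hc2.trans hx
    rw [hqe, ← ENNReal.ofReal_mul (hRpos n x).le, ← ENNReal.ofReal_mul (exp_pos _).le,
      ENNReal.ofReal_le_ofReal_iff (by positivity), hRh] at h1
    rw [hqe, ENNReal.ofReal_lt_ofReal_iff_of_nonneg (exp_pos _).le] at hc1
    have h2 : exp (-(κ / 8 * n)) * (exp (-(h n x)) * q) = exp (-(κ / 8 * n) - h n x) * q := by
      rw [sub_eq_add_neg, Real.exp_add]
      ring
    have h3 : exp (-(κ / 4 * n)) ≤ exp (-(κ / 8 * n) - h n x) := by
      apply Real.exp_le_exp.2
      linarith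
    have h4 : C * exp (-κ * n) ≤ exp (κ / 4 * n) * exp (-κ * n) := by
      refine mul_le_mul_of_nonneg_right ?_ (exp_pos _).le
      rw [← Real.log_le_iff_le_exp hC]
      exact hn4
    have h5 : exp (-(κ / 4 * n)) * exp (-(κ / 2) * n) < exp (κ / 4 * n) * exp (-κ * n) := by
      calc exp (-(κ / 4 * n)) * exp (-(κ / 2) * n) < exp (-(κ / 4 * n)) * q :=
            mul_lt_mul_of_pos_left hc1 (exp_pos _)
        _ ≤ exp (-(κ / 8 * n) - h n x) * q := mul_le_mul_of_nonneg_right h3 hq0
        _ = exp (-(κ / 8 * n)) * (exp (-(h n x)) * q) := h2.symm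
        _ ≤ C * exp (-κ * n) := h1
        _ ≤ _ := h4
    rw [← Real.exp_add, ← Real.exp_add, Real.exp_lt_exp] at h5
    linarith
  have hkey : ENNReal.ofReal (m1 / 2) ≤
      ν {x | ν (cyl S ξ n x) ≤ ENNReal.ofReal (exp (-(κ / 2) * n))} := by
    set GG : Set X := {x | ν (cyl S ξ n x) ≤ ENNReal.ofReal (exp (-(κ / 2) * n))} with hGG
    have h1 : ENNReal.ofReal m1 ≤ ν GG + (ENNReal.ofReal (m1 / 8) + ENNReal.ofReal (m1 / 8)) := by
      refine (H n hnn1).trans ((measure_mono hsub).trans ((measure_union_le _ _).trans ?_))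
      refine add_le_add le_rfl ((measure_union_le _ _).trans ?_)
      refine add_le_add ?_ (hMark n hn0)
      exact (hcomp n (κ / 8 * n)).trans (ENNReal.ofReal_le_ofReal hn3)
    have h2 : ν GG = ENNReal.ofReal (ν GG).toReal :=
      (ENNReal.ofReal_toReal (measure_ne_top _ _)).symm
    rw [h2, ← ENNReal.ofReal_add (by positivity) (by positivity),
      ← ENNReal.ofReal_add ENNReal.toReal_nonneg (by positivity),
      ENNReal.ofReal_le_ofReal_iff (by positivity)] at h1
    rw [h2]
    refine ENNReal.ofReal_le_ofReal ?_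
    linarith
  have hfin := Hent_ge_of_small_cyl (ν := ν) (hS.measurable) hξm (n := n) (κ := κ / 2)
    (m1 := m1 / 2) (by positivity) (by positivity) hkey
  calc m1 / 2 * (κ / 2) * n = m1 / 2 * (κ / 2 * n) := by ring
    _ ≤ _ := hfin

end BilEnt
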