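import Pool.Agent.BilEnt.Defs

/-!
# MP_bd32bb_an, part P, module P09 (doc proof/MP_bd32bb_an_entropy, section 10)

HINT. Shear `(x,y) ↦ (x, y - (e.2/e.1) x)` if `|e.1| ≥ |e.2|` (determinant 1), otherwise exchange the coordinates; the sections in direction `e` have diameter `≤ δ`, the transversal range has length `≤ 2`.  Use `volume` of a real set of
diameter `≤ δ` is `≤ δ` and Tonelli (`R` measurable).
-/

open MeasureTheory Real
open scoped ENNReal

namespace BilEnt

namespace P09_aux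

theorem vol_le {A : Set ℝ} {δ : ℝ} (h : ∀ x ∈ A, ∀ y ∈ A, |x - y| ≤ δ) :
    volume A ≤ ENNReal.ofReal δ := by
  refine (Real.volume_le_diam A).trans (Metric.ediam_le fun x hx y hy => ?_)
  rw [edist_dist]
  exact ENNReal.ofReal_le_ofReal (h x hx y hy)

/-- the case `|e.2| ≤ |e.1|` -/
theorem main {R : Set (ℝ × ℝ)} (hR : MeasurableSet R) {e : ℝ × ℝ} (he : e.1 ≠ 0)
    (h12 : |e.2| ≤ |e.1|) {δ : ℝ} (hδ : 0 ≤ δ) (hdiam : ∀ z ∈ R, ∀ z' ∈ R, ‖z' - z‖ ≤ 1)
    (hsec : ∀ z ∈ R, ∀ z' ∈ R, (∃ s : ℝ, z' - z = s • e) → ‖z' - z‖ ≤ δ) :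
    volume R ≤ ENNReal.ofReal (4 * δ) := by
  rcases R.eq_empty_or_nonempty with rfl | ⟨z0, hz0⟩
  · rw [measure_empty]
    exact zero_le
  obtain ⟨k, hk⟩ : ∃ k : ℝ, k = e.2 / e.1 := ⟨_, rfl⟩
  have hk1 : |k| ≤ 1 := by
    rw [hk, abs_div]
    exact (div_le_one (abs_pos.2 he)).2 h12
  obtain ⟨f, hf⟩ : ∃ f : ℝ × ℝ → ℝ≥0∞, f = R.indicator 1 := ⟨_, rfl⟩
  have hfm : Measurable f := by
    rw [hf]
    exact measurable_one.indicator hR
  have hfm2 : Measurable fun q : ℝ × ℝ => f (q.1, q.2 + k * q.1) :=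
    hfm.comp (by fun_prop)
  have h1 : volume R = ∫⁻ c : ℝ, ∫⁻ x : ℝ, f (x, c + k * x) := by
    have h0 : ∀ x : ℝ, ∫⁻ y : ℝ, f (x, y) = ∫⁻ c : ℝ, f (x, c + k * x) := fun x =>
      (lintegral_add_right_eq_self (μ := volume) (fun y : ℝ => f (x, y)) (k * x)).symm
    rw [← lintegral_indicator_one hR, ← hf, Measure.volume_eq_prod,
      lintegral_prod _ hfm.aemeasurable, lintegral_congr h0, lintegral_lintegral_swap]
    exact hfm2.aemeasurable
  rw [h1]
  obtain ⟨c0, hc0⟩ : ∃ c0 : ℝ, c0 = z0.2 - k * z0.1 := ⟨_, rfl⟩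
  have h2 : ∀ c : ℝ, ∫⁻ x : ℝ, f (x, c + k * x) ≤
      (Set.Icc (c0 - 2) (c0 + 2)).indicator (fun _ => ENNReal.ofReal δ) c := by
    intro c
    have h3 : ∫⁻ x : ℝ, f (x, c + k * x) = volume {x : ℝ | (x, c + k * x) ∈ R} := by
      rw [← lintegral_indicator_one (by
        exact (by fun_prop : Measurable fun x : ℝ => (x, c + k * x)) hR)]
      refine lintegral_congr fun x => ?_
      rw [hf]
      rfl
    rw [h3]
    by_cases hc : c ∈ Set.Icc (c0 - 2) (c0 + 2)
    · rw [Set.indicator_of_mem hc]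
      apply vol_le
      intro x hx y hy
      have h4 := hsec _ hy _ hx ⟨(x - y) / e.1, by
        ext
        · show x - y = (x - y) / e.1 * e.1
          field_simp
        · show (c + k * x) - (c + k * y) = (x - y) / e.1 * e.2
          rw [hk]
          field_simp
          ring⟩
      refine le_trans ?_ h4
      exact norm_fst_le (((x, c + k * x) : ℝ × ℝ) - (y, c + k * y))
    · rw [Set.indicator_of_notMem hc]
      have h5 : {x : ℝ | (x, c + k * x) ∈ R} = ∅ := by
        rw [Set.eq_empty_iff_forall_notMem]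
        intro x hx
        apply hc
        have h6 := hdiam _ hz0 _ hx
        have h7 : |x - z0.1| ≤ 1 := le_trans (norm_fst_le (((x, c + k * x) : ℝ × ℝ) - z0)) h6
        have h8 : |(c + k * x) - z0.2| ≤ 1 :=
          le_trans (norm_snd_le (((x, c + k * x) : ℝ × ℝ) - z0)) h6
        have h9 : |c - c0| ≤ 2 := by
          have e1 : c - c0 = ((c + k * x) - z0.2) + (-(k * (x - z0.1))) := by
            rw [hc0]
            ring
          rw [e1]
          refine (abs_add_le _ _).trans ?_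
          rw [abs_neg, abs_mul]
          have : |k| * |x - z0.1| ≤ 1 * 1 :=
            mul_le_mul hk1 h7 (abs_nonneg _) zero_le_one
          linarith
        rw [abs_le] at h9
        exact ⟨by linarith [h9.1], by linarith [h9.2]⟩
      rw [h5, measure_empty]
  refine (lintegral_mono h2).trans ?_
  rw [lintegral_indicator measurableSet_Icc, setLIntegral_const, Real.volume_Icc,
    ← ENNReal.ofReal_mul hδ]
  apply ENNReal.ofReal_le_ofReal
  apply le_of_eq
  ring

end P09_aux

open P09_aux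

/-- a planar set of diameter at most one whose sections in the direction `e` are short has small area -/
theorem area_of_sections {R : Set (ℝ × ℝ)} (hR : MeasurableSet R) {e : ℝ × ℝ} (he : e ≠ 0)
    {δ : ℝ} (hδ : 0 ≤ δ) (hdiam : ∀ z ∈ R, ∀ z' ∈ R, ‖z' - z‖ ≤ 1)
    (hsec : ∀ z ∈ R, ∀ z' ∈ R, (∃ s : ℝ, z' - z = s • e) → ‖z' - z‖ ≤ δ) :
    volume R ≤ ENNReal.ofReal (4 * δ) := by
  rcases le_total |e.2| |e.1| with h | h
  · refine main hR ?_ h hδ hdiam hsec
    intro h0
    apply he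
    rw [h0, abs_zero] at h
    have h1 : e.2 = 0 := abs_eq_zero.1 (le_antisymm h (abs_nonneg _))
    exact Prod.ext h0 h1
  · have h0 : e.2 ≠ 0 := by
      intro h0
      apply he
      rw [h0, abs_zero] at h
      have h1 : e.1 = 0 := abs_eq_zero.1 (le_antisymm h (abs_nonneg _))
      exact Prod.ext h1 h0
    have hsw : ∀ z : ℝ × ℝ, ‖z.swap‖ = ‖z‖ := fun z => by
      rw [Prod.norm_def, Prod.norm_def, max_comm]
      rfl
    have hmp : MeasurePreserving (Prod.swap : ℝ × ℝ → ℝ × ℝ) volume volume :=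
      Measure.measurePreserving_swap
    rw [← hmp.measure_preimage hR.nullMeasurableSet]
    refine main (e := e.swap) (hmp.measurable hR) h0 h hδ ?_ ?_
    · intro z hz z' hz'
      have := hdiam _ hz _ hz'
      rwa [← Prod.swap_sub, hsw] at this
    · rintro z hz z' hz' ⟨s, hs⟩
      have := hsec _ hz _ hz' ⟨s, by
        rw [← Prod.swap_sub, hs]
        rfl⟩
      rwa [← Prod.swap_sub, hsw] at this

end BilEnt
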