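import Pool.Agent.BilEnt.Defs

/-!
# MP_bd32bb_an, part P, module P04 (doc proof/MP_bd32bb_an_entropy, section 10)

HINT. Kac: the sets `S^k (A ∩ {k < ret})`, `k ≥ 0`, are pairwise disjoint (if `S^j x = S^i x'` with `i < j < ret x`, `x' ∈ A`, then `S^{j-i} x = x' ∈ A`, contradiction), so
`Σ_k ∫_{A ∩ {k<ret}} Φ∘S^k = Σ_k ∫_{S^k(A∩{k<ret})} Φ ≤ ∫ Φ` (S invertible, measure preserving).  `ret = 0` is the junk value for points that never return.
`ae_ret_pos`: Poincaré recurrence (`MeasurePreserving.conservative`, `Conservative.ae_mem_imp_frequently_image_mem`).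
`late_visit`: a point of `A` without visit to `A` in `[n/2, n)` has a last visit at time `t0 < n/2` with `ret (S^t0 x) > n/2` (or no return at all), so the measure is
`≤ (n/2+1) μ(A ∩ {ret > n/2}) → 0`, because `∫_A ret ≤ μ univ < ∞` (Kac with `Φ = 1`) implies `n μ(A∩{ret > n}) → 0`.
-/

open MeasureTheory Real
open scoped ENNReal

namespace BilEnt

open Classical in
/-- first return time (0 if there is no return) -/
noncomputable def ret {X : Type*} (S : X → X) (A : Set X) (x : X) : ℕ :=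
  if h : ∃ k, 1 ≤ k ∧ S^[k] x ∈ A then Nat.find h else 0

namespace P04_aux

theorem ret_pos_iff {X : Type*} {S : X → X} {A : Set X} {x : X} :
    ret S A x ≠ 0 ↔ ∃ k, 1 ≤ k ∧ S^[k] x ∈ A := by
  classical
  constructor
  · intro h
    by_contra hc
    exact h (by unfold ret; rw [dif_neg hc])
  · intro h
    unfold ret
    rw [dif_pos h]
    have := (Nat.find_spec h).1
    omega

theorem ret_mem {X : Type*} {S : X → X} {A : Set X} {x : X} (h : ret S A x ≠ 0) :
    S^[ret S A x] x ∈ A := by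
  classical
  have h' := ret_pos_iff.1 h
  have e : ret S A x = Nat.find h' := by
    unfold ret
    rw [dif_pos h']
  rw [e]
  exact (Nat.find_spec h').2

theorem notMem_of_lt {X : Type*} {S : X → X} {A : Set X} {x : X} {k : ℕ} (h1 : 1 ≤ k)
    (h2 : k < ret S A x) : S^[k] x ∉ A := by
  classical
  intro hk
  have h' : ∃ k, 1 ≤ k ∧ S^[k] x ∈ A := ⟨k, h1, hk⟩
  have e : ret S A x = Nat.find h' := by
    unfold ret
    rw [dif_pos h']
  rw [e] at h2
  exact Nat.find_min h' h2 ⟨h1, hk⟩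

theorem ret_eq_iff {X : Type*} {S : X → X} {A : Set X} {x : X} {k : ℕ} (hk : 1 ≤ k) :
    ret S A x = k ↔ S^[k] x ∈ A ∧ ∀ j ∈ Finset.Ico 1 k, S^[j] x ∉ A := by
  constructor
  · intro h
    have h0 : ret S A x ≠ 0 := by omega
    refine ⟨?_, ?_⟩
    · have := ret_mem h0
      rwa [h] at this
    · intro j hj
      rw [Finset.mem_Ico] at hj
      exact notMem_of_lt hj.1 (by omega)
  · rintro ⟨h1, h2⟩
    have h0 : ret S A x ≠ 0 := ret_pos_iff.2 ⟨k, hk, h1⟩
    rcases lt_trichotomy (ret S A x) k with h | h | h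
    · exact absurd (ret_mem h0) (h2 _ (Finset.mem_Ico.2 ⟨by omega, h⟩))
    · exact h
    · exact absurd h1 (notMem_of_lt hk h)

end P04_aux

open P04_aux

theorem measurable_ret {X : Type*} [MeasurableSpace X] {S : X → X} (hS : Measurable S)
    {A : Set X} (hA : MeasurableSet A) : Measurable (ret S A) := by
  have hk : ∀ k, MeasurableSet {x | S^[k] x ∈ A} := fun k => (hS.iterate k) hA
  refine measurable_to_countable' fun k => ?_
  rcases Nat.eq_zero_or_pos k with rfl | h
  · have e : ret S A ⁻¹' {0} = (⋃ k : ℕ, {x | 1 ≤ k ∧ S^[k] x ∈ A})ᶜ := by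
      ext x
      simp only [Set.mem_preimage, Set.mem_singleton_iff, Set.mem_compl_iff, Set.mem_iUnion,
        Set.mem_ofPred_eq]
      rw [← ret_pos_iff, not_not]
    rw [e]
    refine (MeasurableSet.iUnion fun k => ?_).compl
    exact (MeasurableSet.const _).inter (hk k)
  · have e : ret S A ⁻¹' {k} = {x | S^[k] x ∈ A} ∩ ⋂ j ∈ Finset.Ico 1 k, {x | S^[j] x ∈ A}ᶜ := by
      ext x
      simp only [Set.mem_preimage, Set.mem_singleton_iff, Set.mem_inter_iff, Set.mem_iInter,
        Set.mem_compl_iff, Set.mem_ofPred_eq]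
      exact ret_eq_iff h
    rw [e]
    exact (hk k).inter (Finset.measurableSet_biInter _ fun j _ => (hk j).compl)

/-- invertible measure preserving system -/
structure InvSys {X : Type*} [MeasurableSpace X] (μ : Measure X) (S Si : X → X) : Prop where
  mp : MeasurePreserving S μ μ
  mpi : MeasurePreserving Si μ μ
  left : ∀ x, Si (S x) = x
  right : ∀ x, S (Si x) = x

theorem kac {X : Type*} [MeasurableSpace X] {μ : Measure X} {S Si : X → X} (hS : InvSys μ S Si)
    {A : Set X} (hA : MeasurableSet A) {Φ : X → ℝ≥0∞} (hΦ : Measurable Φ) :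
    ∫⁻ x in A, ∑ k ∈ Finset.range (ret S A x), Φ (S^[k] x) ∂μ ≤ ∫⁻ x, Φ x ∂μ := by
  have hret := measurable_ret hS.mp.measurable hA
  have hmS : ∀ k, Measurable (S^[k]) := fun k => hS.mp.measurable.iterate k
  have hmSi : ∀ k, Measurable (Si^[k]) := fun k => hS.mpi.measurable.iterate k
  set E : ℕ → Set X := fun k => A ∩ {x | k < ret S A x} with hE
  have hEm : ∀ k, MeasurableSet (E k) := fun k =>
    hA.inter (measurableSet_lt measurable_const hret)
  set F : ℕ → Set X := fun k => Si^[k] ⁻¹' E k with hF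
  have hFm : ∀ k, MeasurableSet (F k) := fun k => (hmSi k) (hEm k)
  have hleft : ∀ k, Function.LeftInverse (Si^[k]) (S^[k]) := fun k =>
    Function.LeftInverse.iterate hS.left k
  have hright : ∀ k, Function.LeftInverse (S^[k]) (Si^[k]) := fun k =>
    Function.LeftInverse.iterate hS.right k
  -- pairwise disjoint
  have hdisj' : ∀ i j, i < j → Disjoint (F i) (F j) := by
    intro i j hij
    rw [Set.disjoint_left]
    intro y hyi hyj
    have h1 : Si^[i] y ∈ A := hyi.1
    have h2 : j < ret S A (Si^[j] y) := hyj.2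
    have h3 : S^[j - i] (Si^[j] y) = Si^[i] y := by
      have e : Si^[j] y = Si^[j - i] (Si^[i] y) := by
        rw [← Function.iterate_add_apply]
        congr 1
        omega
      rw [e]
      exact hright (j - i) _
    have h4 := notMem_of_lt (S := S) (A := A) (x := Si^[j] y) (k := j - i) (by omega) (by omega)
    rw [h3] at h4
    exact h4 h1
  have hdisj : Pairwise (Function.onFun Disjoint F) := by
    intro i j hij
    rcases lt_or_gt_of_ne hij with h | h
    · exact hdisj' i j h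
    · exact (hdisj' j i h).symm
  -- the integrand as a series
  have e1 : ∀ x ∈ A, ∑ k ∈ Finset.range (ret S A x), Φ (S^[k] x) =
      ∑' k, (E k).indicator (fun x => Φ (S^[k] x)) x := by
    intro x hx
    rw [tsum_eq_sum (s := Finset.range (ret S A x))]
    · refine Finset.sum_congr rfl fun k hk => ?_
      rw [Finset.mem_range] at hk
      rw [Set.indicator_of_mem (show x ∈ E k from ⟨hx, hk⟩)]
    · intro k hk
      rw [Finset.mem_range, not_lt] at hk
      rw [Set.indicator_of_notMem]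
      intro h
      have : k < ret S A x := h.2
      omega
  calc ∫⁻ x in A, ∑ k ∈ Finset.range (ret S A x), Φ (S^[k] x) ∂μ
      = ∫⁻ x in A, ∑' k, (E k).indicator (fun x => Φ (S^[k] x)) x ∂μ :=
        setLIntegral_congr_fun hA fun x hx => e1 x hx
    _ ≤ ∫⁻ x, ∑' k, (E k).indicator (fun x => Φ (S^[k] x)) x ∂μ := setLIntegral_le_lintegral _ _
    _ = ∑' k, ∫⁻ x, (E k).indicator (fun x => Φ (S^[k] x)) x ∂μ :=
        lintegral_tsum fun k => ((hΦ.comp (hmS k)).indicator (hEm k)).aemeasurable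
    _ = ∑' k, ∫⁻ x in F k, Φ x ∂μ := by
        refine tsum_congr fun k => ?_
        rw [lintegral_indicator (hEm k)]
        have h1 := (hS.mp.iterate k).setLIntegral_comp_preimage (hFm k) hΦ
        have h2 : S^[k] ⁻¹' F k = E k := by
          ext x
          simp only [hF, Set.mem_preimage]
          rw [hleft k x]
        rw [h2] at h1
        exact h1
    _ = ∫⁻ x in ⋃ k, F k, Φ x ∂μ := (lintegral_iUnion hFm hdisj _).symm
    _ ≤ ∫⁻ x, Φ x ∂μ := setLIntegral_le_lintegral _ _

theorem ae_ret_pos {X : Type*} [MeasurableSpace X] {μ : Measure X} [IsFiniteMeasure μ]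
    {S Si : X → X} (hS : InvSys μ S Si) {A : Set X} (hA : MeasurableSet A) :
    μ {x | x ∈ A ∧ ret S A x = 0} = 0 := by
  have h1 := hS.mp.conservative.ae_mem_imp_frequently_image_mem hA.nullMeasurableSet
  rw [ae_iff] at h1
  refine measure_mono_null ?_ h1
  rintro x ⟨hx, h0⟩ hf
  have h2 := (hf hx).forall_exists_of_atTop 1
  obtain ⟨k, hk, hk'⟩ := h2
  exact ret_pos_iff.2 ⟨k, hk, hk'⟩ h0

namespace P04_aux

theorem lintegral_ret_le {X : Type*} [MeasurableSpace X] {μ : Measure X}
    {S Si : X → X} (hS : InvSys μ S Si) {A : Set X} (hA : MeasurableSet A) :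
    ∫⁻ x in A, (ret S A x : ℝ≥0∞) ∂μ ≤ μ Set.univ := by
  have h := kac hS hA (Φ := fun _ => 1) measurable_const
  simpa using h

theorem last_visit {X : Type*} {S : X → X} {A : Set X} {x : X} (hx : x ∈ A) {n : ℕ} (hn : 1 ≤ n)
    (hno : ∀ t, n ≤ 2 * t → t < n → S^[t] x ∉ A) :
    ∃ t ∈ Finset.range ((n + 1) / 2), S^[t] x ∈ A ∧
      (ret S A (S^[t] x) = 0 ∨ n < 2 * ret S A (S^[t] x)) := by
  classical
  set V := (Finset.range ((n + 1) / 2)).filter (fun t => S^[t] x ∈ A) with hV
  have hne : V.Nonempty := ⟨0, by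
    rw [hV, Finset.mem_filter, Finset.mem_range]
    exact ⟨by omega, hx⟩⟩
  set t := V.max' hne with ht
  have htV : t ∈ V := Finset.max'_mem V hne
  rw [hV, Finset.mem_filter] at htV
  refine ⟨t, htV.1, htV.2, ?_⟩
  by_contra hc
  push Not at hc
  obtain ⟨h1, h2⟩ := hc
  have h3 := ret_mem h1
  set r := ret S A (S^[t] x) with hr
  rw [← Function.iterate_add_apply] at h3
  have htr := htV.1
  rw [Finset.mem_range] at htr
  by_cases h4 : r + t ∈ Finset.range ((n + 1) / 2)
  · have h5 : r + t ∈ V := by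
      rw [hV, Finset.mem_filter]
      exact ⟨h4, h3⟩
    have h6 := Finset.le_max' V _ h5
    rw [← ht] at h6
    omega
  · rw [Finset.mem_range] at h4
    exact hno (r + t) (by omega) (by omega) h3

end P04_aux

theorem late_visit {X : Type*} [MeasurableSpace X] {μ : Measure X} [IsFiniteMeasure μ]
    {S Si : X → X} (hS : InvSys μ S Si) {A : Set X} (hA : MeasurableSet A) (hpos : 0 < μ A) :
    ∃ n1 : ℕ, ∀ n ≥ n1, μ A / 2 ≤ μ {x | x ∈ A ∧ ∃ t, n ≤ 2 * t ∧ t < n ∧ S^[t] x ∈ A} := by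
  have hret := measurable_ret hS.mp.measurable hA
  set G : ℕ → Set X := fun n => {x | n < 2 * ret S A x} with hG
  have hGm : ∀ n, MeasurableSet (G n) := fun n =>
    measurableSet_lt measurable_const (measurable_const.mul hret)
  -- the tails of the return time
  have hint : ∫⁻ x in A, ((2 * ret S A x : ℕ) : ℝ≥0∞) ∂μ ≠ ∞ := by
    have h1 : ∫⁻ x in A, ((2 * ret S A x : ℕ) : ℝ≥0∞) ∂μ = 2 * ∫⁻ x in A, (ret S A x : ℝ≥0∞) ∂μ := by
      rw [← lintegral_const_mul' _ _ (by norm_num)]
      push_cast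
      rfl
    rw [h1]
    exact ENNReal.mul_ne_top (by norm_num)
      (ne_top_of_le_ne_top (measure_ne_top μ _) (P04_aux.lintegral_ret_le hS hA))
  have hGt : Filter.Tendsto (fun n => (μ.restrict A) (G n)) Filter.atTop (nhds 0) := by
    have h1 := tendsto_measure_iInter_atTop (μ := μ.restrict A) (s := G)
      (fun n => (hGm n).nullMeasurableSet)
      (fun i j hij x hx => by
        simp only [hG, Set.mem_ofPred_eq] at hx ⊢
        omega) ⟨0, measure_ne_top _ _⟩
    have h2 : ⋂ n, G n = ∅ := by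
      ext x
      simp only [hG, Set.mem_iInter, Set.mem_ofPred_eq, Set.mem_empty_iff_false, iff_false]
      intro h
      exact lt_irrefl _ (h (2 * ret S A x))
    rw [h2, measure_empty] at h1
    exact h1
  have hlim := tendsto_setLIntegral_zero hint hGt
  have hpos2 : (0 : ℝ≥0∞) < μ A / 2 := ENNReal.half_pos hpos.ne'
  obtain ⟨n0, hn0⟩ := Filter.eventually_atTop.1 (hlim.eventually (gt_mem_nhds hpos2))
  refine ⟨max n0 1, fun n hn => ?_⟩
  have hn1 : 1 ≤ n := (le_max_right _ _).trans hn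
  have hlt := hn0 n ((le_max_left _ _).trans hn)
  set W : Set X := {x | x ∈ A ∧ ∃ t, n ≤ 2 * t ∧ t < n ∧ S^[t] x ∈ A} with hW
  set B : Set X := {x | x ∈ A ∧ ∀ t, n ≤ 2 * t → t < n → S^[t] x ∉ A} with hB
  -- bound for the bad set
  have hBsub : B ⊆ ⋃ t ∈ Finset.range ((n + 1) / 2),
      S^[t] ⁻¹' ({x | x ∈ A ∧ ret S A x = 0} ∪ (G n ∩ A)) := by
    rintro x ⟨hx, hno⟩
    obtain ⟨t, ht, hA', h⟩ := P04_aux.last_visit hx hn1 hno
    simp only [Set.mem_iUnion]
    refine ⟨t, ht, ?_⟩
    rcases h with h | h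
    · exact Or.inl ⟨hA', h⟩
    · exact Or.inr ⟨h, hA'⟩
  have hm0 : MeasurableSet {x | x ∈ A ∧ ret S A x = 0} :=
    hA.inter (measurableSet_eq_fun hret measurable_const)
  have hone : ∀ t, μ (S^[t] ⁻¹' ({x | x ∈ A ∧ ret S A x = 0} ∪ (G n ∩ A))) ≤ μ (G n ∩ A) := by
    intro t
    rw [(hS.mp.iterate t).measure_preimage (hm0.union ((hGm n).inter hA)).nullMeasurableSet]
    refine (measure_union_le _ _).trans ?_
    rw [ae_ret_pos hS hA, zero_add]
  have hBle : μ B ≤ μ A / 2 := by
    calc μ B ≤ μ (⋃ t ∈ Finset.range ((n + 1) / 2),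
          S^[t] ⁻¹' ({x | x ∈ A ∧ ret S A x = 0} ∪ (G n ∩ A))) := measure_mono hBsub
      _ ≤ ∑ t ∈ Finset.range ((n + 1) / 2),
          μ (S^[t] ⁻¹' ({x | x ∈ A ∧ ret S A x = 0} ∪ (G n ∩ A))) :=
          measure_biUnion_finset_le _ _
      _ ≤ ∑ t ∈ Finset.range ((n + 1) / 2), μ (G n ∩ A) := Finset.sum_le_sum fun t _ => hone t
      _ = (((n + 1) / 2 : ℕ) : ℝ≥0∞) * μ (G n ∩ A) := by
          rw [Finset.sum_const, Finset.card_range, nsmul_eq_mul]
      _ ≤ (n : ℝ≥0∞) * μ (G n ∩ A) := by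
          gcongr
          omega
      _ = ∫⁻ _ in G n, (n : ℝ≥0∞) ∂(μ.restrict A) := by
          rw [setLIntegral_const, Measure.restrict_apply (hGm n)]
      _ ≤ ∫⁻ x in G n, ((2 * ret S A x : ℕ) : ℝ≥0∞) ∂(μ.restrict A) := by
          refine setLIntegral_mono' (hGm n) fun x hx => ?_
          have : n < 2 * ret S A x := hx
          exact_mod_cast this.le
      _ ≤ μ A / 2 := hlt.le
  have hsplit : μ A ≤ μ W + μ B := by
    refine (measure_mono ?_).trans (measure_union_le W B)
    intro x hx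
    by_cases h : ∃ t, n ≤ 2 * t ∧ t < n ∧ S^[t] x ∈ A
    · exact Or.inl ⟨hx, h⟩
    · refine Or.inr ⟨hx, fun t h1 h2 h3 => h ⟨t, h1, h2, h3⟩⟩
  have hfin : μ A / 2 ≠ ∞ := (ENNReal.div_lt_top (measure_ne_top μ A) (by norm_num)).ne
  have h5 : μ A / 2 + μ A / 2 ≤ μ W + μ A / 2 := by
    rw [ENNReal.add_halves]
    exact hsplit.trans (by gcongr)
  exact (ENNReal.add_le_add_iff_right hfin).1 h5

end BilEnt
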