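import Pool.Agent.BilEnt.Defs
import Pool.Agent.BilEnt.G11
import Pool.Agent.BilEnt.G12

/-!
# G13a : (G9), the neighbourhood and the Lipschitz bounds
-/

open MeasureTheory Real
open scoped ENNReal

namespace BilEnt

namespace G13a_aux

lemma abs_sin_sub (x y : ℝ) : |sin x - sin y| ≤ |x - y| := Real.abs_sin_sub_sin_le x y

lemma fst_le (z z' : ℝ × ℝ) : |z'.1 - z.1| ≤ ‖z' - z‖ := by
  have := norm_fst_le (z' - z)
  simpa [Real.norm_eq_abs] using this

lemma snd_le (z z' : ℝ × ℝ) : |z'.2 - z.2| ≤ ‖z' - z‖ := by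
  have := norm_snd_le (z' - z)
  simpa [Real.norm_eq_abs] using this

lemma theta_lip {h : ℝ → ℝ} (hh : IsTab h) (z z' : ℝ × ℝ) :
    |(z'.2 - Th h z'.1) - (z.2 - Th h z.1)| ≤ 3 * ‖z' - z‖ := by
  have h1 := fst_le z z'
  have h2 := snd_le z z'
  have h3 := Th_lip hh z'.1 z.1
  have e : (z'.2 - Th h z'.1) - (z.2 - Th h z.1) = (z'.2 - z.2) - (Th h z'.1 - Th h z.1) := by
    ring
  rw [e]
  have := abs_sub (z'.2 - z.2) (Th h z'.1 - Th h z.1)
  linarith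

end G13a_aux

open G13a_aux

/-- `θ = A - Th u` and `θ' = A' - Th u'` satisfy `|θ' - θ| ≤ ‖z'-z‖ + 2 ‖z'-z‖ ≤ s/2` (`Th_lip`),
`s ≤ sin θ ≤ min θ (π - θ)` (`sin x ≤ x`, `sin x = sin (π - x)`), so `0 < θ' < π`, and
`sin θ' ≥ sin θ - |θ' - θ| ≥ s/2`. -/
theorem near_mem {h : ℝ → ℝ} (hh : IsTab h) {z z' : ℝ × ℝ} (hz : z ∈ dom h) {s : ℝ} (hs : 0 < s)
    (hs' : s ≤ stt h z) (hd : ‖z' - z‖ ≤ s / 6) : z' ∈ dom h ∧ s / 2 ≤ stt h z' := by
  have h1 := theta_lip hh z z'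
  have h2 : |(z'.2 - Th h z'.1) - (z.2 - Th h z.1)| ≤ s / 2 := by linarith
  obtain ⟨d1, d2⟩ := hz
  have h3 : s ≤ z.2 - Th h z.1 := hs'.trans (Real.sin_le (by linarith))
  have h4 : s ≤ π - (z.2 - Th h z.1) := by
    refine hs'.trans ?_
    unfold stt
    rw [← Real.sin_pi_sub]
    exact Real.sin_le (by linarith)
  rw [abs_le] at h2
  refine ⟨⟨by linarith [h2.1], by linarith [h2.2]⟩, ?_⟩
  have h5 := abs_sin_sub (z.2 - Th h z.1) (z'.2 - Th h z'.1)
  rw [abs_sub_comm (z.2 - Th h z.1)] at h5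
  have h6 := le_abs_self (sin (z.2 - Th h z.1) - sin (z'.2 - Th h z'.1))
  have h7 : sin (z.2 - Th h z.1) = stt h z := rfl
  have h8 : sin (z'.2 - Th h z'.1) = stt h z' := rfl
  rw [h7, h8] at h6 h5
  linarith

/-- mean value inequality on the ball of radius `s/6` around `z` (convex, contained in `dom h` by
`near_mem`): `Convex.norm_image_sub_le_of_norm_hasFDerivWithin_le` with `norm_DF_le`. -/
theorem fm_lip_near {h : ℝ → ℝ} (hh : IsTab h) {z z' : ℝ × ℝ} (hz : z ∈ dom h) {s : ℝ}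
    (hs : 0 < s) (hs' : s ≤ stt h z) (hd : ‖z' - z‖ ≤ s / 6) :
    ‖fm h z' - fm h z‖ ≤ 10 ^ 6 * ‖z' - z‖ := by
  have hball : ∀ x ∈ Metric.closedBall z (s / 6), x ∈ dom h := by
    intro x hx
    rw [Metric.mem_closedBall, dist_eq_norm] at hx
    exact (near_mem hh hz hs hs' hx).1
  refine (convex_closedBall z (s / 6)).norm_image_sub_le_of_norm_hasFDerivWithin_le
    (f' := fun x => DF h x) (fun x hx =>
      (hasStrictFDerivAt_fm hh (hball x hx)).hasFDerivAt.hasFDerivWithinAt)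
    (fun x hx => norm_DF_le hh (hball x hx)) (Metric.mem_closedBall_self (by positivity)) ?_
  rw [Metric.mem_closedBall, dist_eq_norm]
  exact hd

/-- first component of `fm_lip_near`. -/
theorem V_lip_near {h : ℝ → ℝ} (hh : IsTab h) {z z' : ℝ × ℝ} (hz : z ∈ dom h) {s : ℝ}
    (hs : 0 < s) (hs' : s ≤ stt h z) (hd : ‖z' - z‖ ≤ s / 6) :
    |V h z' - V h z| ≤ 10 ^ 6 * ‖z' - z‖ :=
  (fst_le (fm h z) (fm h z')).trans (fm_lip_near hh hz hs hs' hd)

/-- `gam` is Lipschitz with constant `1.02`. -/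
theorem gam_lip {h : ℝ → ℝ} (hh : IsTab h) (u v : ℝ) :
    ‖gam h u - gam h v‖ ≤ 102 / 100 * |u - v| := by
  have := (convex_univ (𝕜 := ℝ) (E := ℝ)).norm_image_sub_le_of_norm_hasDerivWithin_le
    (f := gam h) (f' := fun u => (sp h u : ℂ) * ev (Th h u)) (C := 102 / 100)
    (fun x _ => (hasDerivAt_gam hh x).hasDerivWithinAt)
    (fun x _ => by
      obtain ⟨b1, b2⟩ := sp_bounds hh x
      rw [norm_mul, norm_ev, mul_one, Complex.norm_real, Real.norm_eq_abs,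
        abs_of_pos (by linarith)]
      exact b2) (Set.mem_univ v) (Set.mem_univ u)
  simpa [Real.norm_eq_abs] using this

/-- `gam` is Lipschitz with constant `1.02` (`hasDerivAt_gam`, `sp_bounds`) and
`hl z = ‖gam (V z) - gam z.1‖`. -/
theorem hl_lip_near {h : ℝ → ℝ} (hh : IsTab h) {z z' : ℝ × ℝ} (hz : z ∈ dom h) {s : ℝ}
    (hs : 0 < s) (hs' : s ≤ stt h z) (hd : ‖z' - z‖ ≤ s / 6) :
    |hl h z' - hl h z| ≤ 2 * 10 ^ 6 * ‖z' - z‖ := by
  have h1 := V_lip_near hh hz hs hs' hd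
  have h2 := gam_lip hh (V h z') (V h z)
  have h3 := gam_lip hh z'.1 z.1
  have h4 := fst_le z z'
  have h5 : |hl h z' - hl h z| ≤ ‖(gam h (V h z') - gam h z'.1) - (gam h (V h z) - gam h z.1)‖ :=
    abs_norm_sub_norm_le _ _
  have h6 : (gam h (V h z') - gam h z'.1) - (gam h (V h z) - gam h z.1) =
      (gam h (V h z') - gam h (V h z)) - (gam h z'.1 - gam h z.1) := by ring
  rw [h6] at h5
  have h7 := norm_sub_le (gam h (V h z') - gam h (V h z)) (gam h z'.1 - gam h z.1)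
  have h8 := norm_nonneg (z' - z)
  linarith

/-- `pw z = sp u * sin (A - Th u)`, with `sp` 1-Lipschitz and bounded by `1.02` (`sp_lip`,
`sp_bounds`) and `Th` 2-Lipschitz (all of `ℝ × ℝ`, no condition). -/
theorem pw_lip {h : ℝ → ℝ} (hh : IsTab h) (z z' : ℝ × ℝ) :
    |pw h z' - pw h z| ≤ 5 * ‖z' - z‖ := by
  have h1 := theta_lip hh z z'
  have h2 := abs_sin_sub (z'.2 - Th h z'.1) (z.2 - Th h z.1)
  have h3 := sp_lip hh z'.1 z.1
  have h4 := fst_le z z'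
  obtain ⟨b1, b2⟩ := sp_bounds hh z'.1
  have h5 : |stt h z| ≤ 1 := Real.abs_sin_le_one _
  have h2' : |stt h z' - stt h z| ≤ 3 * ‖z' - z‖ := h2.trans h1
  have e : pw h z' - pw h z = sp h z'.1 * (stt h z' - stt h z) +
      (sp h z'.1 - sp h z.1) * stt h z := by unfold pw; ring
  rw [e]
  have h6 : |sp h z'.1 * (stt h z' - stt h z)| ≤ 102 / 100 * (3 * ‖z' - z‖) := by
    rw [abs_mul, abs_of_pos (by linarith : 0 < sp h z'.1)]
    gcongr
  have h7 : |(sp h z'.1 - sp h z.1) * stt h z| ≤ ‖z' - z‖ * 1 := by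
    rw [abs_mul]
    gcongr
    exact h3.trans h4
  have h8 := abs_add_le (sp h z'.1 * (stt h z' - stt h z)) ((sp h z'.1 - sp h z.1) * stt h z)
  have h9 := norm_nonneg (z' - z)
  linarith

end BilEnt
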