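import Pool.Agent.BilEnt.Defs
import Pool.Agent.BilEnt.G13a

/-!
# G13b : (G9), Hölder bound for the reflection strength and the reciprocals
-/

open MeasureTheory Real
open scoped ENNReal

namespace BilEnt

/-- `pw (fm z') ≥ 0.99 stt (fm z') ≥ 0.99 (s/2)/10^4` (`pw_bounds`, `flight_bounds`, `near_mem`). -/
theorem pw_fm_lower {h : ℝ → ℝ} (hh : IsTab h) {z z' : ℝ × ℝ} (hz : z ∈ dom h) {s : ℝ}
    (hs : 0 < s) (hs' : s ≤ stt h z) (hd : ‖z' - z‖ ≤ s / 6) : s / 10 ^ 5 ≤ pw h (fm h z') := by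
  obtain ⟨hz', h1⟩ := near_mem hh hz hs hs' hd
  obtain ⟨-, -, -, -, -, h2, -, -, -⟩ := flight_bounds hh hz'
  have h3 := (pw_bounds hh (fm_mem hh hz')).1
  have h4 : s / 2 / 10 ^ 4 ≤ stt h z' / 10 ^ 4 := div_le_div_of_nonneg_right h1 (by norm_num)
  have h5 : s / 10 ^ 5 ≤ 99 / 100 * (s / 2 / 10 ^ 4) := by
    have : 99 / 100 * (s / 2 / 10 ^ 4) - s / 10 ^ 5 = s * (99 / 2000000 - 1 / 100000) := by ring
    nlinarith
  linarith

/-- `1/x' - 1/x = (x - x')/(x x')` with `x = pw (fm z)`, `x' = pw (fm z')`, `pw_lip`, `fm_lip_near`. -/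
theorem inv_pw_fm_lip {h : ℝ → ℝ} (hh : IsTab h) {z z' : ℝ × ℝ} (hz : z ∈ dom h) {s : ℝ}
    (hs : 0 < s) (hs' : s ≤ stt h z) (hd : ‖z' - z‖ ≤ s / 6) :
    |1 / pw h (fm h z') - 1 / pw h (fm h z)| ≤ 10 ^ 17 / s ^ 2 * ‖z' - z‖ := by
  have hx' := pw_fm_lower hh hz hs hs' hd
  have hx := pw_fm_lower hh hz (z' := z) hs hs' (by simp; positivity)
  set x' := pw h (fm h z') with hx'def
  set x := pw h (fm h z) with hxdef
  have hspos : 0 < s / 10 ^ 5 := by positivity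
  have hx0 : 0 < x := lt_of_lt_of_le hspos hx
  have hx0' : 0 < x' := lt_of_lt_of_le hspos hx'
  have h1 : |x' - x| ≤ 5 * (10 ^ 6 * ‖z' - z‖) := by
    refine (pw_lip hh (fm h z) (fm h z')).trans ?_
    exact mul_le_mul_of_nonneg_left (fm_lip_near hh hz hs hs' hd) (by norm_num)
  have h2 : 1 / x' - 1 / x = (x - x') / (x' * x) := by
    field_simp
  have h3 : (s / 10 ^ 5) * (s / 10 ^ 5) ≤ x' * x :=
    mul_le_mul hx' hx hspos.le hx0'.le
  rw [h2, abs_div, abs_sub_comm, abs_of_pos (mul_pos hx0' hx0)]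
  calc |x' - x| / (x' * x) ≤ 5 * (10 ^ 6 * ‖z' - z‖) / ((s / 10 ^ 5) * (s / 10 ^ 5)) :=
        div_le_div₀ (by positivity) h1 (by positivity) h3
    _ = 5 * 10 ^ 16 / s ^ 2 * ‖z' - z‖ := by
        field_simp
    _ ≤ 10 ^ 17 / s ^ 2 * ‖z' - z‖ := by
        apply mul_le_mul_of_nonneg_right _ (norm_nonneg _)
        apply div_le_div_of_nonneg_right _ (by positivity)
        norm_num

/-- `gg = 2 Thd V * (1/pw (fm z))`; `|Thd V' - Thd V| ≤ 3 K |V' - V|^{1/65}` (`Thd_hol`; the condition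
`|V' - V| ≤ 1` holds because `‖z'-z‖ ≤ s/10^7`), `|V'-V| ≤ 10^6 ‖z'-z‖` and `(10^6)^{1/65} ≤ 2`
(`Real.mul_rpow`, `10^6 ≤ 2^65`), `‖z'-z‖ ≤ ‖z'-z‖^{1/65}` as `‖z'-z‖ ≤ 1`; `s ≤ 1`. -/
theorem gg_hol_near {h : ℝ → ℝ} (hh : IsTab h) {K : ℝ} (hK : 1 ≤ K) (hH : Hol h K)
    {z z' : ℝ × ℝ} (hz : z ∈ dom h) {s : ℝ} (hs : 0 < s) (hs' : s ≤ stt h z)
    (hd : ‖z' - z‖ ≤ s / 10 ^ 7) :
    |gg h z' - gg h z| ≤ 10 ^ 18 * K / s ^ 2 * ‖z' - z‖ ^ ((1 : ℝ) / 65) := by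
  have hd6 : ‖z' - z‖ ≤ s / 6 := by
    refine hd.trans ?_
    apply div_le_div_of_nonneg_left hs.le (by norm_num) (by norm_num)
  have hs1 : s ≤ 1 := hs'.trans (pw_bounds hh hz).2.2
  have hx' := pw_fm_lower hh hz hs hs' hd6
  have hinv := inv_pw_fm_lip hh hz hs hs' hd6
  have hV := V_lip_near hh hz hs hs' hd6
  set δ := ‖z' - z‖ with hδ
  have hδ0 : 0 ≤ δ := norm_nonneg _
  have hδ1 : δ ≤ 1 := by
    have : s / 10 ^ 7 ≤ 1 := by
      rw [div_le_one (by norm_num)]; linarith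
    linarith
  have hV1 : |V h z' - V h z| ≤ 1 := by
    have h1 : 10 ^ 6 * δ ≤ 10 ^ 6 * (s / 10 ^ 7) := mul_le_mul_of_nonneg_left hd (by norm_num)
    have h2 : 10 ^ 6 * (s / 10 ^ 7) = s / 10 := by ring
    linarith
  have hT := Thd_hol hh hK hH (V h z') (V h z) hV1
  have hTb := Thd_bounds hh (V h z)
  have hr : |V h z' - V h z| ^ ((1 : ℝ) / 65) ≤ 2 * δ ^ ((1 : ℝ) / 65) := by
    have h1 : |V h z' - V h z| ^ ((1 : ℝ) / 65) ≤ (10 ^ 6 * δ) ^ ((1 : ℝ) / 65) :=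
      Real.rpow_le_rpow (abs_nonneg _) hV (by norm_num)
    rw [Real.mul_rpow (by norm_num) hδ0] at h1
    have h2 : ((10 : ℝ) ^ 6) ^ ((1 : ℝ) / 65) ≤ 2 := by
      have h3 : ((10 : ℝ) ^ 6) ^ ((1 : ℝ) / 65) ≤ ((2 : ℝ) ^ 65) ^ ((1 : ℝ) / 65) :=
        Real.rpow_le_rpow (by norm_num) (by norm_num) (by norm_num)
      have h4 : ((2 : ℝ) ^ 65) ^ ((1 : ℝ) / 65) = 2 := by
        have := Real.pow_rpow_inv_natCast (x := (2 : ℝ)) (by norm_num) (n := 65) (by norm_num)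
        rw [one_div]
        exact_mod_cast this
      linarith
    refine h1.trans ?_
    exact mul_le_mul_of_nonneg_right h2 (Real.rpow_nonneg hδ0 _)
  have hδr : δ ≤ δ ^ ((1 : ℝ) / 65) := by
    have := Real.rpow_le_rpow_of_exponent_ge' hδ0 hδ1 (by norm_num : (0 : ℝ) ≤ 1 / 65)
      (by norm_num : (1 : ℝ) / 65 ≤ 1)
    rwa [Real.rpow_one] at this
  set D := δ ^ ((1 : ℝ) / 65) with hD
  have hD0 : 0 ≤ D := Real.rpow_nonneg hδ0 _
  have hdec : gg h z' - gg h z = 2 * (Thd h (V h z') - Thd h (V h z)) * (1 / pw h (fm h z')) +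
      2 * Thd h (V h z) * (1 / pw h (fm h z') - 1 / pw h (fm h z)) := by
    unfold gg
    ring
  have hx0' : 0 < pw h (fm h z') := lt_of_lt_of_le (by positivity) hx'
  have hinv' : 1 / pw h (fm h z') ≤ 10 ^ 5 / s := by
    rw [div_le_div_iff₀ hx0' hs]
    have : s / 10 ^ 5 * 10 ^ 5 = s := by field_simp
    nlinarith
  have hs2 : 10 ^ 5 / s ≤ 10 ^ 5 / s ^ 2 := by
    apply div_le_div_of_nonneg_left (by norm_num) (by positivity)
    nlinarith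
  have hA : |2 * (Thd h (V h z') - Thd h (V h z)) * (1 / pw h (fm h z'))| ≤
      12 * K * D * (10 ^ 5 / s ^ 2) := by
    rw [abs_mul, abs_mul, abs_of_pos (by norm_num : (0 : ℝ) < 2), abs_of_pos (by positivity :
      (0 : ℝ) < 1 / pw h (fm h z'))]
    apply mul_le_mul _ (hinv'.trans hs2) (by positivity) (by positivity)
    have h5 : 3 * K * |V h z' - V h z| ^ ((1 : ℝ) / 65) ≤ 3 * K * (2 * D) :=
      mul_le_mul_of_nonneg_left hr (by positivity)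
    linarith
  have hB : |2 * Thd h (V h z) * (1 / pw h (fm h z') - 1 / pw h (fm h z))| ≤
      4 * (10 ^ 17 / s ^ 2 * D) := by
    rw [abs_mul, abs_mul, abs_of_pos (by norm_num : (0 : ℝ) < 2), abs_of_nonneg (by linarith :
      0 ≤ Thd h (V h z))]
    apply mul_le_mul _ _ (abs_nonneg _) (by norm_num)
    · linarith
    · refine hinv.trans ?_
      exact mul_le_mul_of_nonneg_left hδr (by positivity)
  rw [hdec]
  refine (abs_add_le _ _).trans ?_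
  refine (add_le_add hA hB).trans ?_
  have e1 : 12 * K * D * (10 ^ 5 / s ^ 2) + 4 * (10 ^ 17 / s ^ 2 * D) =
      (12 * 10 ^ 5 * K + 4 * 10 ^ 17) * (D / s ^ 2) := by ring
  have e2 : 10 ^ 18 * K / s ^ 2 * D = (10 ^ 18 * K) * (D / s ^ 2) := by ring
  rw [e1, e2]
  apply mul_le_mul_of_nonneg_right _ (by positivity)
  nlinarith

end BilEnt
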