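import Pool.Agent.BilEnt.Defs
import Pool.Agent.BilEnt.G11
import Pool.Agent.BilEnt.G12
import Pool.Agent.BilEnt.G13b

/-!
# G13 : (G9)
-/

open MeasureTheory Real
open scoped ENNReal

namespace BilEnt

/-- difference of products -/
private theorem G13_prod {a a' b b' x y P Q : ℝ} (h1 : |a' - a| ≤ x) (h2 : |b'| ≤ P)
    (h3 : |a| ≤ Q) (h4 : |b' - b| ≤ y) : |a' * b' - a * b| ≤ x * P + Q * y := by
  have e : a' * b' - a * b = (a' - a) * b' + a * (b' - b) := by ring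
  rw [e]
  refine (abs_add_le _ _).trans ?_
  rw [abs_mul, abs_mul]
  have hx : 0 ≤ x := (abs_nonneg _).trans h1
  have hQ : 0 ≤ Q := (abs_nonneg _).trans h3
  exact add_le_add (mul_le_mul h1 h2 (abs_nonneg _) hx) (mul_le_mul h3 h4 (abs_nonneg _) hQ)

private theorem G13_clm (a b c d a' b' c' d' M : ℝ) (h1 : |a' - a| ≤ M / 2) (h2 : |b' - b| ≤ M / 2)
    (h3 : |c' - c| ≤ M / 2) (h4 : |d' - d| ≤ M / 2) :
    ‖(ContinuousLinearMap.prod
        (a' • ContinuousLinearMap.fst ℝ ℝ ℝ + b' • ContinuousLinearMap.snd ℝ ℝ ℝ)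
        (c' • ContinuousLinearMap.fst ℝ ℝ ℝ + d' • ContinuousLinearMap.snd ℝ ℝ ℝ)) -
      (ContinuousLinearMap.prod
        (a • ContinuousLinearMap.fst ℝ ℝ ℝ + b • ContinuousLinearMap.snd ℝ ℝ ℝ)
        (c • ContinuousLinearMap.fst ℝ ℝ ℝ + d • ContinuousLinearMap.snd ℝ ℝ ℝ))‖ ≤ M := by
  have hM : 0 ≤ M := by
    have := (abs_nonneg _).trans h1
    linarith
  refine ContinuousLinearMap.opNorm_le_bound _ hM ?_
  rintro ⟨u, v⟩
  have hu : |u| ≤ ‖(u, v)‖ := by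
    rw [Prod.norm_def]; exact le_max_left _ _
  have hv : |v| ≤ ‖(u, v)‖ := by
    rw [Prod.norm_def]; exact le_max_right _ _
  set n := ‖(u, v)‖ with hn
  have hn0 : 0 ≤ n := norm_nonneg _
  have key : ∀ p q p' q' : ℝ, |p' - p| ≤ M / 2 → |q' - q| ≤ M / 2 →
      |(p' * u + q' * v) - (p * u + q * v)| ≤ M * n := by
    intro p q p' q' hp hq
    have e : (p' * u + q' * v) - (p * u + q * v) = (p' - p) * u + (q' - q) * v := by ring
    rw [e]
    refine (abs_add_le _ _).trans ?_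
    rw [abs_mul, abs_mul]
    have e1 : |p' - p| * |u| ≤ M / 2 * n := mul_le_mul hp hu (abs_nonneg _) (by linarith)
    have e2 : |q' - q| * |v| ≤ M / 2 * n := mul_le_mul hq hv (abs_nonneg _) (by linarith)
    linarith
  rw [ContinuousLinearMap.sub_apply, ContinuousLinearMap.prod_apply,
    ContinuousLinearMap.prod_apply, Prod.mk_sub_mk]
  simp only [ContinuousLinearMap.add_apply, ContinuousLinearMap.smul_apply,
    ContinuousLinearMap.coe_fst', ContinuousLinearMap.coe_snd', smul_eq_mul]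
  rw [Prod.norm_def]
  exact max_le (by rw [Real.norm_eq_abs]; exact key a b a' b' h1 h2)
    (by rw [Real.norm_eq_abs]; exact key c d c' d' h3 h4)

/-- (G9): moduli of continuity away from grazing (sup norm on `ℝ × ℝ`).
Take e.g. `C = 10^40`.  The first six claims are in `G13a`.  Entries of `Mc`: `-1`, `hl`, `-gg`,
`gg * hl - 1` : `|g'H' - gH| ≤ |g'-g| H' + |g| |H'-H|` with `gg_hol_near`, `gg_bounds`,
`flight_bounds`, `hl_lip_near`.  `DF`: the coefficients are `pw z * (1/pw (fm z))`,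
`hl z * (1/pw (fm z))`, `gg * pw`, `gg * hl - 1`; product rule for differences, and
`ContinuousLinearMap.opNorm_le_bound` for the difference.  Everywhere `‖z'-z‖ ≤ ‖z'-z‖^{1/65}`,
`1/s^a ≤ 1/s^6` for `a ≤ 6` as `s ≤ 1`, and `K ≥ 1`. -/
theorem moduli : ∃ C : ℝ, 1 ≤ C ∧ ∀ h : ℝ → ℝ, IsTab h → ∀ K : ℝ, 1 ≤ K → Hol h K →
    ∀ z ∈ dom h, ∀ s : ℝ, 0 < s → s ≤ stt h z → ∀ z' : ℝ × ℝ, ‖z' - z‖ ≤ s / C →
      z' ∈ dom h ∧ s / 2 ≤ stt h z' ∧ |V h z' - V h z| ≤ C * ‖z' - z‖ ∧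
      ‖fm h z' - fm h z‖ ≤ C * ‖z' - z‖ ∧ |hl h z' - hl h z| ≤ C * ‖z' - z‖ ∧
      |pw h z' - pw h z| ≤ C * ‖z' - z‖ ∧
      (∀ i j, |Mc h z' i j - Mc h z i j| ≤ C * K / s ^ 6 * ‖z' - z‖ ^ ((1 : ℝ) / 65)) ∧
      ‖DF h z' - DF h z‖ ≤ C * K / s ^ 6 * ‖z' - z‖ ^ ((1 : ℝ) / 65) := by
  refine ⟨10 ^ 40, by norm_num, ?_⟩
  intro h hh K hK hH z hz s hs hsz z' hd
  have hs1 : s ≤ 1 := hsz.trans (pw_bounds hh hz).2.2
  have hd6 : ‖z' - z‖ ≤ s / 6 := by
    refine hd.trans ?_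
    exact div_le_div_of_nonneg_left hs.le (by norm_num) (by norm_num)
  have hd7 : ‖z' - z‖ ≤ s / 10 ^ 7 := by
    refine hd.trans ?_
    exact div_le_div_of_nonneg_left hs.le (by norm_num) (by norm_num)
  obtain ⟨hz', hsz'⟩ := near_mem hh hz hs hsz hd6
  have hV := V_lip_near hh hz hs hsz hd6
  have hfm := fm_lip_near hh hz hs hsz hd6
  have hhl := hl_lip_near hh hz hs hsz hd6
  have hpw := pw_lip hh z z'
  have hgg := gg_hol_near hh hK hH hz hs hsz hd7
  have hinv := inv_pw_fm_lip hh hz hs hsz hd6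
  have hq' := pw_fm_lower hh hz hs hsz hd6
  have hq := pw_fm_lower hh (z' := z) hz hs hsz (by rw [sub_self, norm_zero]; positivity)
  set δ := ‖z' - z‖ with hδ
  have hδ0 : 0 ≤ δ := norm_nonneg _
  have hδ1 : δ ≤ 1 := by
    refine hd6.trans ?_
    linarith
  set η := δ ^ ((1 : ℝ) / 65) with hη
  have hη0 : 0 ≤ η := Real.rpow_nonneg hδ0 _
  have hδη : δ ≤ η := by
    rcases hδ0.eq_or_lt with h0 | h0
    · rw [← h0]; exact hη0
    · calc δ = δ ^ (1 : ℝ) := (Real.rpow_one δ).symm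
        _ ≤ δ ^ ((1 : ℝ) / 65) :=
          Real.rpow_le_rpow_of_exponent_ge h0 hδ1 (by norm_num)
  set E := K / s ^ 6 * η with hE
  have hs6 : 0 < s ^ 6 := by positivity
  have hs6' : s ^ 6 ≤ 1 := pow_le_one₀ hs.le hs1
  have hE0 : 0 ≤ E := by positivity
  -- comparisons with `E`
  have hK0 : 0 ≤ K := by linarith
  have hk6 : 1 ≤ K / s ^ 6 := by
    rw [le_div_iff₀ hs6]
    linarith
  have hδE : δ ≤ E := by
    calc δ ≤ 1 * η := by linarith
      _ ≤ K / s ^ 6 * η := mul_le_mul_of_nonneg_right hk6 hη0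
  have hs2E : K / s ^ 2 * η ≤ E := by
    refine mul_le_mul_of_nonneg_right ?_ hη0
    exact div_le_div_of_nonneg_left hK0 hs6 (pow_le_pow_of_le_one hs.le hs1 (by norm_num))
  have hs2δ : 1 / s ^ 2 * δ ≤ E := by
    refine (mul_le_mul ?_ hδη hδ0 (by positivity)).trans hs2E
    exact div_le_div_of_nonneg_right hK (by positivity)
  have hs1δ : 1 / s * δ ≤ E := by
    refine (mul_le_mul_of_nonneg_right ?_ hδ0).trans hs2δ
    refine div_le_div_of_nonneg_left (by norm_num) (by positivity) ?_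
    calc s ^ 2 ≤ s ^ 1 := pow_le_pow_of_le_one hs.le hs1 (by norm_num)
      _ = s := pow_one s
  -- bounds
  obtain ⟨hg0, hg1, -, -⟩ := gg_bounds hh hz
  obtain ⟨hg0', hg1', -, -⟩ := gg_bounds hh hz'
  have hsttp : 0 < stt h z := lt_of_lt_of_le hs hsz
  have hg : |gg h z| ≤ 10 ^ 5 / s := by
    rw [abs_of_pos hg0]
    exact hg1.trans (div_le_div_of_nonneg_left (by norm_num) hs hsz)
  have hfb := flight_bounds hh hz
  have hfb' := flight_bounds hh hz'
  have hsttp' : 0 < stt h z' := lt_of_lt_of_le (by positivity) hsz'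
  have hH0 : 0 ≤ hl h z := le_trans (by positivity) hfb.2.2.1
  have hH0' : 0 ≤ hl h z' := le_trans (by positivity) hfb'.2.2.1
  have hHle : |hl h z| ≤ 21 / 10 := by
    rw [abs_of_nonneg hH0]; exact hfb.2.2.2.2.1
  have hHle' : |hl h z'| ≤ 21 / 10 := by
    rw [abs_of_nonneg hH0']; exact hfb'.2.2.2.2.1
  have hpb := pw_bounds hh hz
  have hpb' := pw_bounds hh hz'
  have hp : |pw h z| ≤ 102 / 100 := by
    rw [abs_of_nonneg (le_trans (by positivity) hpb.1)]
    exact hpb.2.1.trans (by linarith [hpb.2.2])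
  have hp' : |pw h z'| ≤ 102 / 100 := by
    rw [abs_of_nonneg (le_trans (by positivity) hpb'.1)]
    exact hpb'.2.1.trans (by linarith [hpb'.2.2])
  have hqp : 0 < pw h (fm h z) := lt_of_lt_of_le (by positivity) hq
  have hqp' : 0 < pw h (fm h z') := lt_of_lt_of_le (by positivity) hq'
  have hiq' : |1 / pw h (fm h z')| ≤ 10 ^ 5 / s := by
    rw [abs_of_pos (by positivity)]
    rw [div_le_div_iff₀ hqp' hs]
    rw [div_le_iff₀ (by norm_num)] at hq'
    linarith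
  -- differences of products
  have hgE : |gg h z' - gg h z| ≤ 10 ^ 18 * E := by
    refine hgg.trans ?_
    calc 10 ^ 18 * K / s ^ 2 * η = 10 ^ 18 * (K / s ^ 2 * η) := by ring
      _ ≤ 10 ^ 18 * E := mul_le_mul_of_nonneg_left hs2E (by norm_num)
  have hHE : |hl h z' - hl h z| ≤ 2 * 10 ^ 6 * E :=
    hhl.trans (mul_le_mul_of_nonneg_left hδE (by norm_num))
  have hgH : |gg h z' * hl h z' - gg h z * hl h z| ≤ 3 * 10 ^ 18 * E := by
    refine (G13_prod hgE hHle' hg hhl).trans ?_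
    have e : (10 : ℝ) ^ 5 / s * (2 * 10 ^ 6 * δ) = 2 * 10 ^ 11 * (1 / s * δ) := by ring
    rw [e]
    linarith
  have hgp : |gg h z' * pw h z' - gg h z * pw h z| ≤ 3 * 10 ^ 18 * E := by
    refine (G13_prod hgE hp' hg hpw).trans ?_
    have e : (10 : ℝ) ^ 5 / s * (5 * δ) = 5 * 10 ^ 5 * (1 / s * δ) := by ring
    rw [e]
    linarith
  have hpq : |pw h z' * (1 / pw h (fm h z')) - pw h z * (1 / pw h (fm h z))| ≤
      3 * 10 ^ 18 * E := by
    refine (G13_prod hpw hiq' hp hinv).trans ?_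
    have e : 5 * δ * ((10 : ℝ) ^ 5 / s) = 5 * 10 ^ 5 * (1 / s * δ) := by ring
    have e' : (102 : ℝ) / 100 * (10 ^ 17 / s ^ 2 * δ) = 102 / 100 * 10 ^ 17 * (1 / s ^ 2 * δ) := by
      ring
    rw [e, e']
    linarith
  have hHq : |hl h z' * (1 / pw h (fm h z')) - hl h z * (1 / pw h (fm h z))| ≤
      3 * 10 ^ 18 * E := by
    refine (G13_prod hhl hiq' hHle hinv).trans ?_
    have e : 2 * 10 ^ 6 * δ * ((10 : ℝ) ^ 5 / s) = 2 * 10 ^ 11 * (1 / s * δ) := by ring
    have e' : (21 : ℝ) / 10 * (10 ^ 17 / s ^ 2 * δ) = 21 / 10 * 10 ^ 17 * (1 / s ^ 2 * δ) := by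
      ring
    rw [e, e']
    linarith
  have hfin : (10 : ℝ) ^ 40 * K / s ^ 6 * η = 10 ^ 40 * E := by rw [hE]; ring
  refine ⟨hz', hsz', ?_, ?_, ?_, ?_, ?_, ?_⟩
  · exact hV.trans (mul_le_mul_of_nonneg_right (by norm_num) hδ0)
  · exact hfm.trans (mul_le_mul_of_nonneg_right (by norm_num) hδ0)
  · exact hhl.trans (mul_le_mul_of_nonneg_right (by norm_num) hδ0)
  · exact hpw.trans (mul_le_mul_of_nonneg_right (by norm_num) hδ0)
  · intro i j
    rw [hfin]
    fin_cases i <;> fin_cases j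
    · simp only [Mc, Fin.zero_eta, Matrix.of_apply, Matrix.cons_val', Matrix.cons_val_zero,
        sub_self, abs_zero]
      positivity
    · simp only [Mc, Fin.zero_eta, Fin.mk_one, Matrix.of_apply, Matrix.cons_val',
        Matrix.cons_val_zero, Matrix.cons_val_one]
      linarith
    · simp only [Mc, Fin.zero_eta, Fin.mk_one, Matrix.of_apply, Matrix.cons_val',
        Matrix.cons_val_zero, Matrix.cons_val_one]
      rw [neg_sub_neg, abs_sub_comm]
      linarith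
    · change |(gg h z' * hl h z' - 1) - (gg h z * hl h z - 1)| ≤ 10 ^ 40 * E
      rw [sub_sub_sub_cancel_right]
      linarith
  · rw [hfin]
    unfold DF
    refine G13_clm _ _ _ _ _ _ _ _ _ ?_ ?_ ?_ ?_
    · rw [neg_sub_neg, abs_sub_comm, div_eq_mul_one_div (pw h z'), div_eq_mul_one_div (pw h z)]
      linarith
    · rw [div_eq_mul_one_div (hl h z'), div_eq_mul_one_div (hl h z)]
      linarith
    · rw [neg_sub_neg, abs_sub_comm]
      linarith
    · rw [sub_sub_sub_cancel_right]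
      linarith

end BilEnt
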