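import Pool.Agent.BilEnt.Defs
import Pool.Agent.BilEnt.G13
import Pool.Agent.BilEnt.G12
import Pool.Agent.BilEnt.G11
import Pool.Agent.BilEnt.G09

/-!
# MP_bd32bb_an, part P, module P05 (doc proof/MP_bd32bb_an_entropy, section 10)

HINT. One orbit segment of length `l`.  With `C` from `G13.moduli` take `C1 ≥ 10^6, C, C*K` and so large that everything below works; `L_j = C1/stt(pth z j)^6 ≥ C1`, `Π = ∏_{j<l} L_j`.
If `‖z'-z‖ ≤ (e0 Π^{-4})^65` then inductively `‖pth z' j - pth z j‖ ≤ ‖z'-z‖ ∏_{i<j} L_i ≤ e0^65 Π^{-259} ≤ stt(pth z j)/C` (one step `G13.moduli`, `fm` part), so all points stay in `dom` and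
`‖DF h (pth z' j) - DF h (pth z j)‖ ≤ L_j (‖z'-z‖ Π)^{1/65} ≤ L_j e0 Π^{-4+1/65}`.  Telescoping `DFn z' l - DFn z l = Σ_j DF..(z)..∘(DF(z'_j) - DF(z_j))∘DFn z' j` with `‖DF h (pth z j)‖ ≤ 10^6 ≤ L_j`
and `‖DF h (pth z' j)‖ ≤ 2 L_j`: sum `≤ l 2^l Π · e0 Π^{-3+..} ≤ e0` (`l 2^l ≤ Π`).
-/

open MeasureTheory Real
open scoped ENNReal

namespace BilEnt

/-- local expansion control along an orbit -/
noncomputable def Lfun (C1 : ℝ) (h : ℝ → ℝ) (z : ℝ × ℝ) : ℝ := C1 / stt h z ^ 6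

noncomputable def Pi1 (C1 : ℝ) (h : ℝ → ℝ) (z : ℝ × ℝ) (l : ℕ) : ℝ :=
  ∏ j ∈ Finset.range l, Lfun C1 h (pth h z j)

namespace P05_aux

theorem stt_pos {h : ℝ → ℝ} {z : ℝ × ℝ} (hz : z ∈ dom h) : 0 < stt h z := by
  obtain ⟨h1, h2⟩ := hz
  exact Real.sin_pos_of_pos_of_lt_pi (by linarith) (by linarith)

theorem stt_le (h : ℝ → ℝ) (z : ℝ × ℝ) : stt h z ≤ 1 := Real.sin_le_one _

theorem Lfun_ge {C1 : ℝ} (hC : 0 ≤ C1) {h : ℝ → ℝ} {z : ℝ × ℝ} (hz : z ∈ dom h) :
    C1 ≤ Lfun C1 h z := by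
  unfold Lfun
  have hs := stt_pos hz
  rw [le_div_iff₀ (by positivity)]
  have : stt h z ^ 6 ≤ 1 := pow_le_one₀ hs.le (stt_le h z)
  nlinarith

theorem Pi1_succ (C1 : ℝ) (h : ℝ → ℝ) (z : ℝ × ℝ) (l : ℕ) :
    Pi1 C1 h z (l + 1) = Pi1 C1 h z l * Lfun C1 h (pth h z l) := by
  unfold Pi1
  rw [Finset.prod_range_succ]

theorem Pi1_ge_pow {C1 : ℝ} (hC : 4 ≤ C1) {h : ℝ → ℝ} (hh : IsTab h) {z : ℝ × ℝ}
    (hz : z ∈ dom h) (l : ℕ) : (4 : ℝ) ^ l ≤ Pi1 C1 h z l := by
  induction l with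
  | zero => simp [Pi1]
  | succ l ih =>
    rw [Pi1_succ, pow_succ]
    have h1 := Lfun_ge (by linarith : (0 : ℝ) ≤ C1) (pth_mem hh hz l)
    exact mul_le_mul ih (by linarith) (by norm_num) (le_trans (by positivity) ih)

theorem Pi1_mono {C1 : ℝ} (hC : 4 ≤ C1) {h : ℝ → ℝ} (hh : IsTab h) {z : ℝ × ℝ}
    (hz : z ∈ dom h) {j l : ℕ} (hjl : j ≤ l) : Pi1 C1 h z j ≤ Pi1 C1 h z l := by
  induction l, hjl using Nat.le_induction with
  | base => exact le_rfl
  | succ l _ ih =>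
    rw [Pi1_succ]
    have h1 := Lfun_ge (by linarith : (0 : ℝ) ≤ C1) (pth_mem hh hz l)
    have h2 : 0 ≤ Pi1 C1 h z l := le_trans (by positivity) (Pi1_ge_pow hC hh hz l)
    nlinarith

theorem Pi1_one_le {C1 : ℝ} (hC : 4 ≤ C1) {h : ℝ → ℝ} (hh : IsTab h) {z : ℝ × ℝ}
    (hz : z ∈ dom h) (l : ℕ) : 1 ≤ Pi1 C1 h z l :=
  le_trans (one_le_pow₀ (by norm_num)) (Pi1_ge_pow hC hh hz l)

/-- `L_j ≤ Π` for `j < l`. -/
theorem Lfun_le_Pi1 {C1 : ℝ} (hC : 4 ≤ C1) {h : ℝ → ℝ} (hh : IsTab h) {z : ℝ × ℝ}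
    (hz : z ∈ dom h) {j l : ℕ} (hjl : j < l) : Lfun C1 h (pth h z j) ≤ Pi1 C1 h z l := by
  refine le_trans ?_ (Pi1_mono hC hh hz (Nat.succ_le_of_lt hjl))
  rw [Nat.succ_eq_add_one, Pi1_succ]
  have h1 := Lfun_ge (by linarith : (0 : ℝ) ≤ C1) (pth_mem hh hz j)
  have h2 := Pi1_one_le hC hh hz j
  nlinarith

theorem pth_succ (h : ℝ → ℝ) (z : ℝ × ℝ) (j : ℕ) : pth h z (j + 1) = fm h (pth h z j) := by
  unfold pth
  rw [Function.iterate_succ_apply']

theorem DFn_succ (h : ℝ → ℝ) (z : ℝ × ℝ) (j : ℕ) :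
    DFn h z (j + 1) = (DF h (pth h z j)).comp (DFn h z j) := rfl

end P05_aux

open P05_aux in
/-- (P2) excursion lemma -/
theorem excursion {h : ℝ → ℝ} (hh : IsTab h) {K : ℝ} (hK : 1 ≤ K) (hH : Hol h K) :
    ∃ C1 : ℝ, 4 ≤ C1 ∧ ∀ z ∈ dom h, ∀ (l : ℕ) (e0 : ℝ), 1 ≤ l → 0 < e0 → e0 ≤ 1 → ∀ z' : ℝ × ℝ,
      ‖z' - z‖ ≤ (e0 / Pi1 C1 h z l ^ 4) ^ 65 →
        z' ∈ dom h ∧ ‖DFn h z' l - DFn h z l‖ ≤ e0 ∧ ‖pth h z' l - pth h z l‖ ≤ e0 := by
  obtain ⟨C, hC1, hmod⟩ := moduli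
  refine ⟨C * K + 10 ^ 6, by nlinarith, ?_⟩
  set C1 : ℝ := C * K + 10 ^ 6 with hC1def
  have hCK : C ≤ C * K := by nlinarith
  have hC4 : 4 ≤ C1 := by nlinarith
  have hC0 : 0 ≤ C1 := by linarith
  have hCC1 : C ≤ C1 := by linarith
  have hCKC1 : C * K ≤ C1 := by linarith
  have h6C1 : (10 : ℝ) ^ 6 ≤ C1 := by nlinarith
  intro z hz l e0 hl he0 he1 z' hzz
  set P : ℝ := Pi1 C1 h z l with hP
  have hP1 : 1 ≤ P := Pi1_one_le hC4 hh hz l
  have hP4 : (4 : ℝ) ^ l ≤ P := Pi1_ge_pow hC4 hh hz l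
  set x : ℝ := e0 / P ^ 4 with hx
  have hx0 : 0 < x := by positivity
  have hx1 : x ≤ e0 / P := by
    rw [hx]
    apply div_le_div_of_nonneg_left he0.le (by linarith)
    calc P = P ^ 1 := (pow_one P).symm
      _ ≤ P ^ 4 := pow_le_pow_right₀ hP1 (by norm_num)
  have hxle : x ≤ 1 := by
    refine le_trans hx1 ?_
    rw [div_le_one (by linarith)]
    linarith
  set η : ℝ := ‖z' - z‖ with hη
  have hη0 : 0 ≤ η := norm_nonneg _
  -- `η P ≤ (xP)^65`
  have hηP : η * P ≤ (x * P) ^ 65 := by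
    rw [mul_pow]
    have h1 : P ≤ P ^ 65 := by
      calc P = P ^ 1 := (pow_one P).symm
        _ ≤ P ^ 65 := pow_le_pow_right₀ hP1 (by norm_num)
    exact mul_le_mul hzz h1 (by linarith) (by positivity)
  have hηP2 : η * P ≤ e0 / P ^ 3 := by
    have h1 : x ^ 65 ≤ x := by
      calc x ^ 65 ≤ x ^ 1 := pow_le_pow_of_le_one hx0.le hxle (by norm_num)
        _ = x := pow_one x
    calc η * P ≤ x * P := mul_le_mul_of_nonneg_right (le_trans hzz h1) (by linarith)
      _ = e0 / P ^ 3 := by rw [hx]; field_simp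
  have hηP3 : η * P ≤ 1 / P := by
    refine le_trans hηP2 ?_
    rw [div_le_div_iff₀ (by positivity) (by linarith)]
    have : P ≤ P ^ 3 := by
      calc P = P ^ 1 := (pow_one P).symm
        _ ≤ P ^ 3 := pow_le_pow_right₀ hP1 (by norm_num)
    nlinarith
  have hηPe : η * P ≤ e0 := by
    refine le_trans hηP2 ?_
    rw [div_le_iff₀ (by positivity)]
    have : (1 : ℝ) ≤ P ^ 3 := one_le_pow₀ hP1
    nlinarith
  -- smallness against grazing
  have hsm : ∀ j < l, η * P ≤ stt h (pth h z j) / C := by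
    intro j hj
    have hs := stt_pos (pth_mem hh hz j)
    have hs1 := stt_le h (pth h z j)
    have hL := Lfun_le_Pi1 hC4 hh hz hj
    rw [← hP] at hL
    unfold Lfun at hL
    rw [div_le_iff₀ (by positivity)] at hL
    have h2 : stt h (pth h z j) ^ 6 ≤ stt h (pth h z j) := by
      calc stt h (pth h z j) ^ 6 ≤ stt h (pth h z j) ^ 1 :=
            pow_le_pow_of_le_one hs.le hs1 (by norm_num)
        _ = _ := pow_one _
    refine le_trans hηP3 ?_
    rw [div_le_div_iff₀ (by linarith) (by linarith)]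
    have : P * stt h (pth h z j) ^ 6 ≤ P * stt h (pth h z j) :=
      mul_le_mul_of_nonneg_left h2 (by linarith)
    linarith
  -- positions
  have hpos : ∀ j ≤ l, ‖pth h z' j - pth h z j‖ ≤ η * Pi1 C1 h z j := by
    intro j
    induction j with
    | zero => intro _; simp [pth, Pi1, hη]
    | succ j ih =>
      intro hj
      have hj' : j < l := hj
      have h1 := ih hj'.le
      have hmono := Pi1_mono hC4 hh hz hj'.le
      have h2 : ‖pth h z' j - pth h z j‖ ≤ stt h (pth h z j) / C :=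
        le_trans h1 (le_trans (mul_le_mul_of_nonneg_left hmono hη0) (hsm j hj'))
      obtain ⟨_, _, _, h4, _⟩ := hmod h hh K hK hH (pth h z j) (pth_mem hh hz j)
        (stt h (pth h z j)) (stt_pos (pth_mem hh hz j)) le_rfl (pth h z' j) h2
      rw [pth_succ, pth_succ, Pi1_succ]
      have hL := Lfun_ge hC0 (pth_mem hh hz j)
      calc ‖fm h (pth h z' j) - fm h (pth h z j)‖ ≤ C * ‖pth h z' j - pth h z j‖ := h4
        _ ≤ Lfun C1 h (pth h z j) * (η * Pi1 C1 h z j) :=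
            mul_le_mul (by linarith) h1 (norm_nonneg _) (by linarith)
        _ = η * (Pi1 C1 h z j * Lfun C1 h (pth h z j)) := by ring
  have hsmall : ∀ j < l, ‖pth h z' j - pth h z j‖ ≤ stt h (pth h z j) / C := by
    intro j hj
    exact le_trans (hpos j hj.le) (le_trans (mul_le_mul_of_nonneg_left
      (Pi1_mono hC4 hh hz hj.le) hη0) (hsm j hj))
  have hdom : ∀ j < l, pth h z' j ∈ dom h := fun j hj =>
    (hmod h hh K hK hH (pth h z j) (pth_mem hh hz j)
        (stt h (pth h z j)) (stt_pos (pth_mem hh hz j)) le_rfl (pth h z' j) (hsmall j hj)).1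
  have hDF : ∀ j < l, ‖DF h (pth h z' j) - DF h (pth h z j)‖ ≤
      Lfun C1 h (pth h z j) * (x * P) := by
    intro j hj
    obtain ⟨_, _, _, _, _, _, _, h4⟩ := hmod h hh K hK hH (pth h z j) (pth_mem hh hz j)
        (stt h (pth h z j)) (stt_pos (pth_mem hh hz j)) le_rfl (pth h z' j) (hsmall j hj)
    refine le_trans h4 ?_
    have hs := stt_pos (pth_mem hh hz j)
    have h5 : C * K / stt h (pth h z j) ^ 6 ≤ Lfun C1 h (pth h z j) := by
      unfold Lfun
      exact div_le_div_of_nonneg_right hCKC1 (by positivity)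
    have h6 : ‖pth h z' j - pth h z j‖ ^ ((1 : ℝ) / 65) ≤ x * P := by
      have h7 : ‖pth h z' j - pth h z j‖ ≤ (x * P) ^ 65 :=
        le_trans (hpos j hj.le) (le_trans (mul_le_mul_of_nonneg_left
          (Pi1_mono hC4 hh hz hj.le) hη0) hηP)
      calc ‖pth h z' j - pth h z j‖ ^ ((1 : ℝ) / 65) ≤ ((x * P) ^ 65) ^ ((1 : ℝ) / 65) :=
            Real.rpow_le_rpow (norm_nonneg _) h7 (by norm_num)
        _ = x * P := by
            rw [← Real.rpow_natCast, ← Real.rpow_mul (by positivity)]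
            norm_num
    have h8 : 0 ≤ Lfun C1 h (pth h z j) := le_trans hC0 (Lfun_ge hC0 (pth_mem hh hz j))
    exact mul_le_mul h5 h6 (by positivity) h8
  have hDFn : ∀ j ≤ l, ‖DFn h z j‖ ≤ Pi1 C1 h z j := by
    intro j
    induction j with
    | zero =>
      intro _
      simp only [DFn, Pi1, Finset.range_zero, Finset.prod_empty]
      exact ContinuousLinearMap.norm_id_le
    | succ j ih =>
      intro hj
      rw [DFn_succ, Pi1_succ, mul_comm]
      have h1 := ih (by omega)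
      have hL := Lfun_ge hC0 (pth_mem hh hz j)
      have h2 := norm_DF_le hh (pth_mem hh hz j)
      refine le_trans (ContinuousLinearMap.opNorm_comp_le _ _) ?_
      exact mul_le_mul (by linarith) h1 (norm_nonneg _) (by linarith)
  have hD : ∀ j ≤ l, ‖DFn h z' j - DFn h z j‖ ≤ j * Pi1 C1 h z j * (x * P) := by
    intro j
    induction j with
    | zero => intro _; simp [DFn]
    | succ j ih =>
      intro hj
      have hj' : j < l := hj
      have h1 := ih hj'.le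
      have hL := Lfun_ge hC0 (pth_mem hh hz j)
      have e1 : DFn h z' (j + 1) - DFn h z (j + 1) =
          (DF h (pth h z' j)).comp (DFn h z' j - DFn h z j) +
            (DF h (pth h z' j) - DF h (pth h z j)).comp (DFn h z j) := by
        rw [DFn_succ, DFn_succ]
        ext <;> simp
      rw [e1]
      refine le_trans (norm_add_le _ _) ?_
      have h2 : ‖(DF h (pth h z' j)).comp (DFn h z' j - DFn h z j)‖ ≤
          Lfun C1 h (pth h z j) * (j * Pi1 C1 h z j * (x * P)) := by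
        refine le_trans (ContinuousLinearMap.opNorm_comp_le _ _) ?_
        have h3 := norm_DF_le hh (hdom j hj')
        exact mul_le_mul (by linarith) h1 (norm_nonneg _) (by linarith)
      have h3 : ‖(DF h (pth h z' j) - DF h (pth h z j)).comp (DFn h z j)‖ ≤
          Lfun C1 h (pth h z j) * (x * P) * Pi1 C1 h z j := by
        refine le_trans (ContinuousLinearMap.opNorm_comp_le _ _) ?_
        have h8 : 0 ≤ Lfun C1 h (pth h z j) := le_trans hC0 hL
        exact mul_le_mul (hDF j hj') (hDFn j hj'.le) (norm_nonneg _) (by positivity)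
      rw [Pi1_succ]
      push_cast
      calc _ ≤ _ := add_le_add h2 h3
        _ = ((j : ℝ) + 1) * (Pi1 C1 h z j * Lfun C1 h (pth h z j)) * (x * P) := by ring
  refine ⟨?_, ?_, ?_⟩
  · have := hdom 0 (by omega)
    simpa [pth] using this
  · refine le_trans (hD l le_rfl) ?_
    rw [← hP]
    have hl2 : (l : ℝ) ≤ P ^ 2 := by
      have h1 : (l : ℝ) ≤ 4 ^ l := by
        have : l < 4 ^ l := Nat.lt_pow_self (by norm_num)
        exact_mod_cast this.le
      calc (l : ℝ) ≤ P := le_trans h1 hP4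
        _ = P ^ 1 := (pow_one P).symm
        _ ≤ P ^ 2 := pow_le_pow_right₀ hP1 (by norm_num)
    have e2 : (l : ℝ) * P * (x * P) = (l : ℝ) * e0 / P ^ 2 := by
      rw [hx]; field_simp
    rw [e2, div_le_iff₀ (by positivity)]
    nlinarith
  · refine le_trans (hpos l le_rfl) ?_
    rw [← hP]
    exact hηPe

end BilEnt
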