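import Pool.Agent.BilEnt.Defs

/-!
# MP_bd32bb_an, part P, module P06 (doc proof/MP_bd32bb_an_entropy, section 10)

HINT. `‖e‖ ≤ |a|‖V‖+|b|‖W‖ ≤ 2|a|`; `a1(L e) = c a`, `b1(L e) = c' b`; `|a1(x)|, |b1(x)| ≤ 2K‖x‖` (sup norm, `|det2 x y| ≤ 2‖x‖‖y‖`), so the error is `≤ 2K·e0·2|a| = |a|/4`.
-/

open MeasureTheory Real
open scoped ENNReal

namespace BilEnt

def det2 (a b : ℝ × ℝ) : ℝ := a.1 * b.2 - a.2 * b.1

/-- coordinates of `e` in the frame `(V, W)` -/
noncomputable def ca (V W e : ℝ × ℝ) : ℝ := det2 e W / det2 V W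
noncomputable def cb (V W e : ℝ × ℝ) : ℝ := det2 V e / det2 V W

namespace P06_aux

theorem det2_le (x y : ℝ × ℝ) : |det2 x y| ≤ 2 * ‖x‖ * ‖y‖ := by
  have h1 : |x.1| ≤ ‖x‖ := norm_fst_le x
  have h2 : |x.2| ≤ ‖x‖ := norm_snd_le x
  have h3 : |y.1| ≤ ‖y‖ := norm_fst_le y
  have h4 : |y.2| ≤ ‖y‖ := norm_snd_le y
  unfold det2
  calc |x.1 * y.2 - x.2 * y.1| ≤ |x.1 * y.2| + |x.2 * y.1| := abs_sub _ _
    _ = |x.1| * |y.2| + |x.2| * |y.1| := by rw [abs_mul, abs_mul]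
    _ ≤ ‖x‖ * ‖y‖ + ‖x‖ * ‖y‖ := by
        apply add_le_add
        · exact mul_le_mul h1 h4 (abs_nonneg _) (norm_nonneg _)
        · exact mul_le_mul h2 h3 (abs_nonneg _) (norm_nonneg _)
    _ = 2 * ‖x‖ * ‖y‖ := by ring

theorem ca_add (V W x y : ℝ × ℝ) : ca V W (x + y) = ca V W x + ca V W y := by
  unfold ca det2
  rw [← add_div]
  congr 1
  simp only [Prod.fst_add, Prod.snd_add]
  ring

theorem cb_add (V W x y : ℝ × ℝ) : cb V W (x + y) = cb V W x + cb V W y := by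
  unfold cb det2
  rw [← add_div]
  congr 1
  simp only [Prod.fst_add, Prod.snd_add]
  ring

theorem ca_comb {V W : ℝ × ℝ} (h : det2 V W ≠ 0) (a b : ℝ) : ca V W (a • V + b • W) = a := by
  unfold ca
  rw [div_eq_iff h]
  unfold det2
  simp only [Prod.fst_add, Prod.snd_add, Prod.smul_fst, Prod.smul_snd, smul_eq_mul]
  ring

theorem cb_comb {V W : ℝ × ℝ} (h : det2 V W ≠ 0) (a b : ℝ) : cb V W (a • V + b • W) = b := by
  unfold cb
  rw [div_eq_iff h]
  unfold det2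
  simp only [Prod.fst_add, Prod.snd_add, Prod.smul_fst, Prod.smul_snd, smul_eq_mul]
  ring

theorem comb {V W : ℝ × ℝ} (h : det2 V W ≠ 0) (e : ℝ × ℝ) :
    e = ca V W e • V + cb V W e • W := by
  have h1 : det2 V W = V.1 * W.2 - V.2 * W.1 := rfl
  unfold ca cb
  refine Prod.ext ?_ ?_
  · simp only [Prod.fst_add, Prod.smul_fst, smul_eq_mul]
    field_simp
    unfold det2
    ring
  · simp only [Prod.snd_add, Prod.smul_snd, smul_eq_mul]
    field_simp
    unfold det2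
    ring

theorem ca_le {K : ℝ} (hK : 1 ≤ K) {V W : ℝ × ℝ} (hW : ‖W‖ ≤ 1) (hd : 1 / K ≤ |det2 V W|)
    (x : ℝ × ℝ) : |ca V W x| ≤ 2 * K * ‖x‖ := by
  have hK0 : 0 < K := by linarith
  have hpos : 0 < |det2 V W| := lt_of_lt_of_le (by positivity) hd
  have h1 := det2_le x W
  unfold ca
  rw [abs_div, div_le_iff₀ hpos]
  have h2 : 1 ≤ K * |det2 V W| := by
    rw [div_le_iff₀ hK0] at hd
    linarith
  have h3 : |det2 x W| ≤ 2 * ‖x‖ := by
    nlinarith [norm_nonneg x, norm_nonneg W]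
  nlinarith [norm_nonneg x]

theorem cb_le {K : ℝ} (hK : 1 ≤ K) {V W : ℝ × ℝ} (hV : ‖V‖ ≤ 1) (hd : 1 / K ≤ |det2 V W|)
    (x : ℝ × ℝ) : |cb V W x| ≤ 2 * K * ‖x‖ := by
  have hK0 : 0 < K := by linarith
  have hpos : 0 < |det2 V W| := lt_of_lt_of_le (by positivity) hd
  have h1 := det2_le V x
  unfold cb
  rw [abs_div, div_le_iff₀ hpos]
  have h2 : 1 ≤ K * |det2 V W| := by
    rw [div_le_iff₀ hK0] at hd
    linarith
  have h3 : |det2 V x| ≤ 2 * ‖x‖ := by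
    nlinarith [norm_nonneg x, norm_nonneg V]
  nlinarith [norm_nonneg x]

theorem ne {K : ℝ} (hK : 1 ≤ K) {V W : ℝ × ℝ} (hd : 1 / K ≤ |det2 V W|) : det2 V W ≠ 0 := by
  have hK0 : 0 < K := by linarith
  have hpos : 0 < |det2 V W| := lt_of_lt_of_le (by positivity) hd
  exact abs_pos.1 hpos

end P06_aux

open P06_aux

/-- (P3) cone lemma -/
theorem cone {K : ℝ} (hK : 1 ≤ K) {V W V1 W1 : ℝ × ℝ} (hV : ‖V‖ ≤ 1) (hW : ‖W‖ ≤ 1)
    (hV1 : ‖V1‖ ≤ 1) (hW1 : ‖W1‖ ≤ 1) (hd : 1 / K ≤ |det2 V W|) (hd1 : 1 / K ≤ |det2 V1 W1|)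
    {L L' : (ℝ × ℝ) →L[ℝ] (ℝ × ℝ)} {c c' : ℝ} (hc : L V = c • V1) (hc' : L W = c' • W1)
    (hc2 : 2 ≤ |c|) (hc'2 : |c'| ≤ 1 / 2) (hL : ‖L' - L‖ ≤ 1 / (16 * K)) {e : ℝ × ℝ}
    (he : |cb V W e| ≤ |ca V W e|) :
    |cb V1 W1 (L' e)| ≤ |ca V1 W1 (L' e)| ∧ |c| / 2 * |ca V W e| ≤ |ca V1 W1 (L' e)| ∧
      (0 ≤ c * ca V W e * ca V1 W1 (L' e)) := by
  have hK0 : 0 < K := by linarith
  set a := ca V W e with ha
  set b := cb V W e with hb
  have hne := ne hK hd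
  have hne1 := ne hK hd1
  have hecomb : e = a • V + b • W := comb hne e
  have hen : ‖e‖ ≤ 2 * |a| := by
    rw [hecomb]
    calc ‖a • V + b • W‖ ≤ ‖a • V‖ + ‖b • W‖ := norm_add_le _ _
      _ = |a| * ‖V‖ + |b| * ‖W‖ := by rw [norm_smul, norm_smul]; rfl
      _ ≤ |a| * 1 + |b| * 1 := by
          apply add_le_add
          · exact mul_le_mul_of_nonneg_left hV (abs_nonneg _)
          · exact mul_le_mul_of_nonneg_left hW (abs_nonneg _)
      _ ≤ 2 * |a| := by linarith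
  have hLe : L e = (a * c) • V1 + (b * c') • W1 := by
    conv_lhs => rw [hecomb]
    rw [map_add, map_smul, map_smul, hc, hc', smul_smul, smul_smul]
  set x := (L' - L) e with hx
  have hxn : ‖x‖ ≤ |a| / (8 * K) := by
    calc ‖x‖ ≤ ‖L' - L‖ * ‖e‖ := (L' - L).le_opNorm e
      _ ≤ 1 / (16 * K) * (2 * |a|) :=
          mul_le_mul hL hen (norm_nonneg _) (by positivity)
      _ = |a| / (8 * K) := by
          field_simp
          ring
  have hL'e : L' e = L e + x := by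
    rw [hx, ContinuousLinearMap.sub_apply]
    abel
  have h2K : 2 * K * ‖x‖ ≤ |a| / 4 := by
    calc 2 * K * ‖x‖ ≤ 2 * K * (|a| / (8 * K)) := mul_le_mul_of_nonneg_left hxn (by positivity)
      _ = |a| / 4 := by
          field_simp
          ring
  have hca : ca V1 W1 (L' e) = a * c + ca V1 W1 x := by
    rw [hL'e, ca_add, hLe, ca_comb hne1]
  have hcb : cb V1 W1 (L' e) = b * c' + cb V1 W1 x := by
    rw [hL'e, cb_add, hLe, cb_comb hne1]
  have hex : |ca V1 W1 x| ≤ |a| / 4 := (ca_le hK hW1 hd1 x).trans h2K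
  have hey : |cb V1 W1 x| ≤ |a| / 4 := (cb_le hK hV1 hd1 x).trans h2K
  set y := ca V1 W1 x with hy
  set z := cb V1 W1 x with hz
  have ha0 : 0 ≤ |a| := abs_nonneg a
  have hb0 : 0 ≤ |b| := abs_nonneg b
  have hc'0 : 0 ≤ |c'| := abs_nonneg c'
  have hge : |a| * |c| - |a| / 4 ≤ |a * c + y| := by
    have h1 : |a * c| ≤ |a * c + y| + |y| := by
      calc |a * c| = |(a * c + y) - y| := by ring_nf
        _ ≤ |a * c + y| + |y| := abs_sub _ _
    rw [abs_mul] at h1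
    linarith
  have hle : |b * c' + z| ≤ 3 / 4 * |a| := by
    calc |b * c' + z| ≤ |b * c'| + |z| := abs_add_le _ _
      _ = |b| * |c'| + |z| := by rw [abs_mul]
      _ ≤ |a| * (1 / 2) + |a| / 4 := by
          apply add_le_add _ hey
          exact mul_le_mul he hc'2 hc'0 ha0
      _ = 3 / 4 * |a| := by ring
  rw [hca, hcb]
  refine ⟨?_, ?_, ?_⟩
  · nlinarith
  · nlinarith
  · have h1 : -(|c| * |a| * (|a| / 4)) ≤ c * a * y := by
      have h2 : |c * a * y| ≤ |c| * |a| * (|a| / 4) := by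
        rw [abs_mul, abs_mul]
        exact mul_le_mul_of_nonneg_left hex (by positivity)
      exact (abs_le.1 h2).1
    have h3 : c * a * (a * c + y) = (|c| * |a|) ^ 2 + c * a * y := by
      rw [mul_pow, sq_abs, sq_abs]
      ring
    rw [h3]
    have h4 : 0 ≤ |c| * |a| * (|c| * |a| - |a| / 4) := by
      apply mul_nonneg (by positivity)
      nlinarith
    nlinarith

/-- a net of directions: near the expanding direction one is inside the cone -/
theorem cone_near {K : ℝ} (hK : 1 ≤ K) {V W e : ℝ × ℝ} (hV : ‖V‖ ≤ 1) (hW : ‖W‖ ≤ 1)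
    (hd : 1 / K ≤ |det2 V W|) (he : ‖e - V‖ ≤ 1 / (8 * K)) :
    |cb V W e| ≤ |ca V W e| ∧ 1 / 2 ≤ ca V W e := by
  have hK0 : 0 < K := by linarith
  have hne := ne hK hd
  have h2K : 2 * K * ‖e - V‖ ≤ 1 / 4 := by
    calc 2 * K * ‖e - V‖ ≤ 2 * K * (1 / (8 * K)) := mul_le_mul_of_nonneg_left he (by positivity)
      _ = 1 / 4 := by
          field_simp
          ring
  have hV1 : ca V W V = 1 := by
    have := ca_comb hne 1 0
    rwa [one_smul, zero_smul, add_zero] at this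
  have hV0 : cb V W V = 0 := by
    have := cb_comb hne 1 0
    rwa [one_smul, zero_smul, add_zero] at this
  have hev : e = V + (e - V) := by abel
  have hca : ca V W e = 1 + ca V W (e - V) := by
    conv_lhs => rw [hev]
    rw [ca_add, hV1]
  have hcb : cb V W e = cb V W (e - V) := by
    conv_lhs => rw [hev]
    rw [cb_add, hV0, zero_add]
  have h1 := (ca_le hK hW hd (e - V)).trans h2K
  have h2 := (cb_le hK hV hd (e - V)).trans h2K
  rw [abs_le] at h1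
  have h3 : 3 / 4 ≤ ca V W e := by
    rw [hca]
    linarith [h1.1]
  constructor
  · rw [hcb]
    have h4 : ca V W e ≤ |ca V W e| := le_abs_self _
    linarith
  · linarith

end BilEnt
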