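import Pool.Agent.BilEnt.Defs
import Pool.Agent.BilEnt.P06
import Pool.Agent.BilEnt.G11
import Pool.Agent.BilEnt.G09

/-!
# MP_bd32bb_an, part P, module P07 (doc proof/MP_bd32bb_an_entropy, section 10)

HINT. `γ(s) = pth h (z + s•(z'-z)) l` has derivative `DFn h (z+s•(z'-z)) l (z'-z)` (needs the points in `dom h`: hypothesis `hdom`).  `a(γ(s) - γ(0)) = ∫_0^s a(γ')`, monotone in `s` by the constant sign, and
`|b(γ(s)-γ(0))| ≤ ∫|b(γ')| ≤ ∫|a(γ')| = |a(γ(s)-γ(0))|`; so `‖γ(s)-γ(0)‖ ≤ 2|a(γ(s)-γ(0))| ≤ 2|a(γ(1)-γ(0))| ≤ 4K‖γ(1)-γ(0)‖`; and `B ≤ |a(γ(1)-γ(0))| ≤ 2K‖γ(1)-γ(0)‖`.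
-/

open MeasureTheory Real
open scoped ENNReal

namespace BilEnt

namespace P07_aux

/-- the coordinate `ca` as a continuous linear map -/
noncomputable def la (V W : ℝ × ℝ) : (ℝ × ℝ) →L[ℝ] ℝ :=
  (W.2 / det2 V W) • ContinuousLinearMap.fst ℝ ℝ ℝ -
    (W.1 / det2 V W) • ContinuousLinearMap.snd ℝ ℝ ℝ

/-- the coordinate `cb` as a continuous linear map -/
noncomputable def lb (V W : ℝ × ℝ) : (ℝ × ℝ) →L[ℝ] ℝ :=
  (V.1 / det2 V W) • ContinuousLinearMap.snd ℝ ℝ ℝ -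
    (V.2 / det2 V W) • ContinuousLinearMap.fst ℝ ℝ ℝ

theorem la_apply (V W e : ℝ × ℝ) : la V W e = ca V W e := by
  simp only [la, ca, det2, ContinuousLinearMap.sub_apply, ContinuousLinearMap.smul_apply,
    ContinuousLinearMap.coe_fst', ContinuousLinearMap.coe_snd', smul_eq_mul]
  ring

theorem lb_apply (V W e : ℝ × ℝ) : lb V W e = cb V W e := by
  simp only [lb, cb, det2, ContinuousLinearMap.sub_apply, ContinuousLinearMap.smul_apply,
    ContinuousLinearMap.coe_fst', ContinuousLinearMap.coe_snd', smul_eq_mul]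
  ring

/-- monotonicity from derivatives on `[0,1]` -/
theorem mono {g g' : ℝ → ℝ} (hg : ∀ s ∈ Set.Icc (0 : ℝ) 1, HasDerivAt g (g' s) s)
    (h0 : ∀ s ∈ Set.Icc (0 : ℝ) 1, 0 ≤ g' s) {s t : ℝ} (hs : s ∈ Set.Icc (0 : ℝ) 1)
    (ht : t ∈ Set.Icc (0 : ℝ) 1) (hst : s ≤ t) : g s ≤ g t := by
  have hm : MonotoneOn g (Set.Icc (0 : ℝ) 1) := by
    refine monotoneOn_of_deriv_nonneg (convex_Icc 0 1) ?_ ?_ ?_
    · intro x hx
      exact (hg x hx).continuousAt.continuousWithinAt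
    · intro x hx
      exact (hg x (interior_subset hx)).differentiableAt.differentiableWithinAt
    · intro x hx
      rw [(hg x (interior_subset hx)).deriv]
      exact h0 x (interior_subset hx)
  exact hm hs ht hst

theorem cramer {V W : ℝ × ℝ} (hd : det2 V W ≠ 0) (e : ℝ × ℝ) :
    e = ca V W e • V + cb V W e • W := by
  refine Prod.ext ?_ ?_
  · simp only [Prod.fst_add, Prod.smul_fst, smul_eq_mul, ca, cb]
    field_simp
    simp only [det2]
    ring
  · simp only [Prod.snd_add, Prod.smul_snd, smul_eq_mul, ca, cb]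
    field_simp
    simp only [det2]
    ring

theorem norm_le {V W : ℝ × ℝ} (hV : ‖V‖ ≤ 1) (hW : ‖W‖ ≤ 1) (hd : det2 V W ≠ 0) (e : ℝ × ℝ) :
    ‖e‖ ≤ |ca V W e| + |cb V W e| := by
  conv_lhs => rw [cramer hd e]
  refine (norm_add_le _ _).trans ?_
  rw [norm_smul, norm_smul, Real.norm_eq_abs, Real.norm_eq_abs]
  exact add_le_add (mul_le_of_le_one_right (abs_nonneg _) hV)
    (mul_le_of_le_one_right (abs_nonneg _) hW)

theorem ca_le {K : ℝ} (hK : 1 ≤ K) {V W : ℝ × ℝ} (hW : ‖W‖ ≤ 1)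
    (hd : 1 / K ≤ |det2 V W|) (e : ℝ × ℝ) : |ca V W e| ≤ 2 * K * ‖e‖ := by
  have hK0 : 0 < K := by linarith
  have hpos : 0 < |det2 V W| := lt_of_lt_of_le (by positivity) hd
  have h1 : |det2 e W| ≤ 2 * ‖e‖ := by
    have e1 : |e.1| ≤ ‖e‖ := by
      rw [Prod.norm_def]; exact le_max_left _ _
    have e2 : |e.2| ≤ ‖e‖ := by
      rw [Prod.norm_def]; exact le_max_right _ _
    have w1 : |W.1| ≤ 1 := by
      refine le_trans ?_ hW
      rw [Prod.norm_def]; exact le_max_left _ _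
    have w2 : |W.2| ≤ 1 := by
      refine le_trans ?_ hW
      rw [Prod.norm_def]; exact le_max_right _ _
    have hn : 0 ≤ ‖e‖ := norm_nonneg _
    calc |det2 e W| = |e.1 * W.2 - e.2 * W.1| := rfl
      _ ≤ |e.1 * W.2| + |e.2 * W.1| := abs_sub _ _
      _ = |e.1| * |W.2| + |e.2| * |W.1| := by rw [abs_mul, abs_mul]
      _ ≤ ‖e‖ * 1 + ‖e‖ * 1 := by
        exact add_le_add (mul_le_mul e1 w2 (abs_nonneg _) hn)
          (mul_le_mul e2 w1 (abs_nonneg _) hn)
      _ = 2 * ‖e‖ := by ring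
  rw [ca, abs_div, div_le_iff₀ hpos]
  have h2 : 1 ≤ K * |det2 V W| := by
    rw [div_le_iff₀ hK0] at hd
    linarith
  calc |det2 e W| ≤ 2 * ‖e‖ := h1
    _ ≤ 2 * ‖e‖ * (K * |det2 V W|) := le_mul_of_one_le_right (by positivity) h2
    _ = 2 * K * ‖e‖ * |det2 V W| := by ring

end P07_aux

open P07_aux in
/-- (P5) a curve with tangents in a cone, with constant sign of the expanding component, is controlled
by its end points. -/
theorem curve_control {h : ℝ → ℝ} (hh : IsTab h) {K : ℝ} (hK : 1 ≤ K) {V W : ℝ × ℝ}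
    (hV : ‖V‖ ≤ 1) (hW : ‖W‖ ≤ 1) (hd : 1 / K ≤ |det2 V W|) {z z' : ℝ × ℝ} {l : ℕ} {B σ : ℝ}
    (hσ : σ = 1 ∨ σ = -1)
    (hdom : ∀ s ∈ Set.Icc (0 : ℝ) 1, z + s • (z' - z) ∈ dom h)
    (hcone : ∀ s ∈ Set.Icc (0 : ℝ) 1,
      |cb V W (DFn h (z + s • (z' - z)) l (z' - z))| ≤
        σ * ca V W (DFn h (z + s • (z' - z)) l (z' - z)) ∧
      B ≤ σ * ca V W (DFn h (z + s • (z' - z)) l (z' - z))) :
    B ≤ 2 * K * ‖pth h z' l - pth h z l‖ ∧
    ∀ s ∈ Set.Icc (0 : ℝ) 1,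
      ‖pth h (z + s • (z' - z)) l - pth h z l‖ ≤ 4 * K * ‖pth h z' l - pth h z l‖ := by
  have hK0 : 0 < K := by linarith
  have hdet : det2 V W ≠ 0 := by
    intro h0
    rw [h0, abs_zero] at hd
    have : 0 < 1 / K := by positivity
    linarith
  set γ : ℝ → ℝ × ℝ := fun s => pth h (z + s • (z' - z)) l with hγ
  set γ' : ℝ → ℝ × ℝ := fun s => DFn h (z + s • (z' - z)) l (z' - z) with hγ'
  have hder : ∀ s ∈ Set.Icc (0 : ℝ) 1, HasDerivAt γ (γ' s) s := by
    intro s hs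
    have h1 : HasDerivAt (fun s : ℝ => z + s • (z' - z)) (z' - z) s := by
      have h2 := ((hasDerivAt_id s).smul_const (z' - z)).const_add z
      simpa using h2
    exact (hasFDerivAt_pth hh (hdom s hs) l).comp_hasDerivAt s h1
  have hA : ∀ s ∈ Set.Icc (0 : ℝ) 1,
      HasDerivAt (fun s => σ * ca V W (γ s)) (σ * ca V W (γ' s)) s := by
    intro s hs
    have h1 := ((la V W).hasFDerivAt.comp_hasDerivAt s (hder s hs)).const_mul σ
    simpa only [Function.comp_def, la_apply] using h1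
  have hB : ∀ s ∈ Set.Icc (0 : ℝ) 1,
      HasDerivAt (fun s => cb V W (γ s)) (cb V W (γ' s)) s := by
    intro s hs
    have h1 := (lb V W).hasFDerivAt.comp_hasDerivAt s (hder s hs)
    simpa only [Function.comp_def, lb_apply] using h1
  have i0 : (0 : ℝ) ∈ Set.Icc (0 : ℝ) 1 := ⟨le_rfl, zero_le_one⟩
  have i1 : (1 : ℝ) ∈ Set.Icc (0 : ℝ) 1 := ⟨zero_le_one, le_rfl⟩
  have hg0 : γ 0 = pth h z l := by
    simp only [hγ, zero_smul, add_zero]
  have hg1 : γ 1 = pth h z' l := by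
    simp only [hγ, one_smul, add_sub_cancel]
  -- differences
  have hca : ∀ s, ca V W (γ s - γ 0) = ca V W (γ s) - ca V W (γ 0) := by
    intro s
    simp only [← la_apply, map_sub]
  have hcb : ∀ s, cb V W (γ s - γ 0) = cb V W (γ s) - cb V W (γ 0) := by
    intro s
    simp only [← lb_apply, map_sub]
  -- comparison of the two components
  have hcmp : ∀ s ∈ Set.Icc (0 : ℝ) 1, |cb V W (γ s - γ 0)| ≤ σ * ca V W (γ s - γ 0) := by
    intro s hs
    have m1 := mono (fun t ht => (hA t ht).sub (hB t ht))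
      (fun t ht => by
        have := (abs_le.mp (hcone t ht).1).2
        linarith) i0 hs hs.1
    have m2 := mono (fun t ht => (hA t ht).add (hB t ht))
      (fun t ht => by
        have := (abs_le.mp (hcone t ht).1).1
        linarith) i0 hs hs.1
    have m1' : σ * ca V W (γ 0) - cb V W (γ 0) ≤ σ * ca V W (γ s) - cb V W (γ s) := m1
    have m2' : σ * ca V W (γ 0) + cb V W (γ 0) ≤ σ * ca V W (γ s) + cb V W (γ s) := m2
    rw [hca, hcb, abs_le]
    constructor <;> linarith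
  have hmono : ∀ s ∈ Set.Icc (0 : ℝ) 1, σ * ca V W (γ s - γ 0) ≤ σ * ca V W (γ 1 - γ 0) := by
    intro s hs
    have m1 := mono hA (fun t ht => (abs_nonneg _).trans (hcone t ht).1) hs i1 hs.2
    rw [hca, hca]
    linarith
  have hBle : B ≤ σ * ca V W (γ 1 - γ 0) := by
    have m1 := mono (g := fun s => σ * ca V W (γ s) - B * s)
      (g' := fun s => σ * ca V W (γ' s) - B)
      (fun t ht => by
        have h1 := ((hasDerivAt_id t).const_mul B)
        have h2 := (hA t ht).sub h1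
        rw [mul_one] at h2
        exact h2)
      (fun t ht => by
        have := (hcone t ht).2
        show 0 ≤ σ * ca V W (γ' t) - B
        linarith) i0 i1 zero_le_one
    have m1' : σ * ca V W (γ 0) - B * 0 ≤ σ * ca V W (γ 1) - B * 1 := m1
    rw [hca]
    linarith
  have hσle : ∀ x : ℝ, σ * x ≤ |x| := by
    intro x
    rcases hσ with h1 | h1
    · rw [h1, one_mul]; exact le_abs_self x
    · rw [h1, neg_one_mul]; exact neg_le_abs x
  have habs : ∀ s ∈ Set.Icc (0 : ℝ) 1, |ca V W (γ s - γ 0)| = σ * ca V W (γ s - γ 0) := by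
    intro s hs
    have h0 : 0 ≤ σ * ca V W (γ s - γ 0) := (abs_nonneg _).trans (hcmp s hs)
    rcases hσ with h1 | h1
    · rw [h1, one_mul] at h0 ⊢
      exact abs_of_nonneg h0
    · rw [h1, neg_one_mul] at h0 ⊢
      exact abs_of_nonpos (by linarith)
  have hend : σ * ca V W (γ 1 - γ 0) ≤ 2 * K * ‖γ 1 - γ 0‖ :=
    (hσle _).trans (ca_le hK hW hd _)
  rw [← hg0, ← hg1]
  refine ⟨hBle.trans hend, ?_⟩
  intro s hs
  have h1 := norm_le hV hW hdet (γ s - γ 0)
  have h2 := hcmp s hs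
  have h3 := habs s hs
  have h4 := hmono s hs
  show ‖γ s - γ 0‖ ≤ 4 * K * ‖γ 1 - γ 0‖
  linarith

end BilEnt
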