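import Pool.Agent.BilEnt.Defs
import Pool.Agent.BilEnt.P07
import Pool.Agent.BilEnt.P05
import Pool.Agent.BilEnt.P04
import Pool.Agent.BilEnt.G15a

/-!
# MP_bd32bb_an, part P, module P08 (doc proof/MP_bd32bb_an_entropy, section 10)

HINT. Induction over the visit times `0 = t_0 < t_1 < ...` of the common itinerary; state at visit `t`: with `l = N2 t`, `(V,W) = (v,w)(S^t z)`: sign `σ_t`, `|cb| ≤ σ ca` and `ca·σ ≥ e^{λ t}·|ca_0(z'-z)|`
for all points of the segment (tangents `DFn (c(s)) l (z'-z)`), points of the segment in `dom`.  `pth h z l` and `S^t z = (Tm h)^[N2 t] z` differ by a multiple `j•τ`, same for `z'` with `j'`; at `t = 0` `j = j' = 0`.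
By `curve_control` the whole curve at time `l` is within `4K‖pth z' l - pth z l‖` of `pth z l`, and `‖pth z' l - pth z l‖ = ‖S^t z' - S^t z‖ ≤ c1 rho(S^t z)` as soon as `j = j'`; with `4K c1 ≤ 1` the excursion lemma
(P05, with `e0 = 1/(16K)`, `l' = N2 ret`) applies to all points of the curve: the derivative of the excursion is within `1/(16K)` of `DFn h (pth z l) l'` (periodicity) and the end points stay within `1/16`, so `j = j'` at the next
visit as well (`‖j τ - j' τ‖ ≤ 1/16 + c1`, `‖τ‖ = 2π`).  `P06.cone` gives the next step.  Last: `e^{λ t}|ca_0(z'-z)| ≤ 2K‖pth z' l - pth z l‖ ≤ 1` and `‖z'-z‖ ≤ 2|ca_0(z'-z)|`.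
-/

open MeasureTheory Real
open scoped ENNReal

namespace BilEnt

/-- hypotheses (P0) with the power `N2` chosen -/
structure HypP (h : ℝ → ℝ) (K lam : ℝ) (N2 : ℕ) (A : Set (ℝ × ℝ)) (v w : ℝ × ℝ → ℝ × ℝ) : Prop where
  hh : IsTab h
  hK : 1 ≤ K
  hol : Hol h K
  lam_pos : 0 < lam
  N2_pos : 1 ≤ N2
  meas_A : MeasurableSet A
  sub : A ⊆ X0 h
  pos : 0 < mu h A
  meas_v : Measurable v
  meas_w : Measurable w
  norm_v : ∀ z ∈ A, ‖v z‖ ≤ 1
  norm_w : ∀ z ∈ A, ‖w z‖ ≤ 1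
  norm_v' : ∀ z ∈ A, 1 / K ≤ ‖v z‖
  det : ∀ z ∈ A, 1 / K ≤ |det2 (v z) (w z)|
  exp_v : ∀ z ∈ A, ∀ k, 1 ≤ k → ((Tm h)^[N2])^[k] z ∈ A → ∃ c : ℝ,
    DFn h z (N2 * k) (v z) = c • v (((Tm h)^[N2])^[k] z) ∧ 2 * exp (lam * k) ≤ |c|
  exp_w : ∀ z ∈ A, ∀ k, 1 ≤ k → ((Tm h)^[N2])^[k] z ∈ A → ∃ c : ℝ,
    DFn h z (N2 * k) (w z) = c • w (((Tm h)^[N2])^[k] z) ∧ |c| ≤ 1 / 2

/-- admissible size at a point of `A` (`0` if the point does not return) -/
noncomputable def rho (C1 K : ℝ) (h : ℝ → ℝ) (N2 : ℕ) (A : Set (ℝ × ℝ)) (z : ℝ × ℝ) : ℝ :=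
  (1 / (16 * K) / Pi1 C1 h z (N2 * ret ((Tm h)^[N2]) A z) ^ 4) ^ 65

namespace P08_aux

/-- the translation by `j` periods -/
noncomputable def tj (j : ℤ) : ℝ × ℝ := (2 * π * j, 2 * π * j)

theorem tj_add (i j : ℤ) : tj (i + j) = tj i + tj j := by
  unfold tj
  push_cast
  ext <;> simp <;> ring

theorem tj_sub (i j : ℤ) : tj (i - j) = tj i - tj j := by
  unfold tj
  push_cast
  ext <;> simp <;> ring

theorem tj_small {i : ℤ} (h : ‖tj i‖ < 1) : i = 0 := by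
  by_contra hi
  have h1 : (1 : ℝ) ≤ |(i : ℝ)| := by
    have : 1 ≤ |i| := Int.one_le_abs hi
    exact_mod_cast this
  have h2 : ‖tj i‖ = 2 * π * |(i : ℝ)| := by
    unfold tj
    rw [Prod.norm_mk, max_self, Real.norm_eq_abs, abs_mul, abs_of_pos (by positivity)]
  rw [h2] at h
  have := Real.pi_gt_three
  nlinarith

theorem pth_add' (h : ℝ → ℝ) (z : ℝ × ℝ) (k l : ℕ) : pth h z (k + l) = pth h (pth h z k) l := by
  unfold pth
  rw [← Function.iterate_add_apply, add_comm]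

theorem DFn_add (h : ℝ → ℝ) (z : ℝ × ℝ) (k l : ℕ) :
    DFn h z (k + l) = (DFn h (pth h z k) l).comp (DFn h z k) := by
  induction l with
  | zero =>
    rw [Nat.add_zero]
    change DFn h z k = (ContinuousLinearMap.id ℝ (ℝ × ℝ)).comp (DFn h z k)
    rw [ContinuousLinearMap.id_comp]
  | succ l ih =>
    change (DF h ((fm h)^[k + l] z)).comp (DFn h z (k + l)) =
      ((DF h ((fm h)^[l] (pth h z k))).comp (DFn h (pth h z k) l)).comp (DFn h z k)
    rw [ih, ContinuousLinearMap.comp_assoc]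
    congr 2
    rw [add_comm, Function.iterate_add_apply]
    rfl

theorem DFn_add_int {h : ℝ → ℝ} (hh : IsTab h) {z : ℝ × ℝ} (hz : z ∈ dom h) (j : ℤ) (l : ℕ) :
    DFn h (z + tj j) l = DFn h z l := by
  induction l with
  | zero => rfl
  | succ l ih =>
    change (DF h ((fm h)^[l] (z + tj j))).comp (DFn h (z + tj j) l) =
      (DF h ((fm h)^[l] z)).comp (DFn h z l)
    rw [ih]
    congr 1
    have e1 : (fm h)^[l] (z + tj j) = (fm h)^[l] z + tj j := pth_add_int hh hz l j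
    rw [e1]
    exact DF_add_int hh (pth_mem hh hz l) j

theorem stt_le_one (h : ℝ → ℝ) (z : ℝ × ℝ) : stt h z ≤ 1 := Real.sin_le_one _

theorem one_le_Pi1 {h : ℝ → ℝ} (hh : IsTab h) {C1 : ℝ} (hC1 : 4 ≤ C1) {z : ℝ × ℝ}
    (hz : z ∈ dom h) (l : ℕ) : 1 ≤ Pi1 C1 h z l := by
  unfold Pi1
  refine Finset.one_le_prod fun j _ => ?_
  unfold Lfun
  have h1 : 0 < stt h (pth h z j) := stt_pos (pth_mem hh hz j)
  have h2 : stt h (pth h z j) ^ 6 ≤ 1 := pow_le_one₀ h1.le (stt_le_one _ _)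
  rw [one_le_div (by positivity)]
  linarith

theorem rho_bounds {h : ℝ → ℝ} (hh : IsTab h) {C1 K : ℝ} (hC1 : 4 ≤ C1) (hK : 1 ≤ K) {N2 : ℕ}
    {A : Set (ℝ × ℝ)} {z : ℝ × ℝ} (hz : z ∈ dom h) :
    0 ≤ rho C1 K h N2 A z ∧ rho C1 K h N2 A z ≤ 1 := by
  have h1 := one_le_Pi1 hh hC1 hz (N2 * ret ((Tm h)^[N2]) A z)
  have h2 : (1 : ℝ) ≤ Pi1 C1 h z (N2 * ret ((Tm h)^[N2]) A z) ^ 4 := one_le_pow₀ h1
  have h3 : 0 ≤ 1 / (16 * K) / Pi1 C1 h z (N2 * ret ((Tm h)^[N2]) A z) ^ 4 := by positivity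
  unfold rho
  refine ⟨pow_nonneg h3 _, pow_le_one₀ h3 ?_⟩
  rw [div_div, div_le_one (by positivity)]
  nlinarith

theorem frame {V W : ℝ × ℝ} (hd : det2 V W ≠ 0) (e : ℝ × ℝ) :
    e = ca V W e • V + cb V W e • W := by
  unfold ca cb
  have h1 : det2 e W * V.1 + det2 V e * W.1 = e.1 * det2 V W := by
    unfold det2
    ring
  have h2 : det2 e W * V.2 + det2 V e * W.2 = e.2 * det2 V W := by
    unfold det2
    ring
  ext
  · simp only [Prod.fst_add, Prod.smul_fst, smul_eq_mul]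
    field_simp
    linarith
  · simp only [Prod.snd_add, Prod.smul_snd, smul_eq_mul]
    field_simp
    linarith

theorem det_ne {K : ℝ} (hK : 1 ≤ K) {V W : ℝ × ℝ} (hd : 1 / K ≤ |det2 V W|) : det2 V W ≠ 0 := by
  intro h0
  rw [h0, abs_zero] at hd
  have : 0 < 1 / K := by positivity
  linarith

theorem norm_le_ca {V W : ℝ × ℝ} (hV : ‖V‖ ≤ 1) (hW : ‖W‖ ≤ 1) (hd : det2 V W ≠ 0) {e : ℝ × ℝ}
    (he : |cb V W e| ≤ |ca V W e|) : ‖e‖ ≤ 2 * |ca V W e| := by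
  conv_lhs => rw [frame hd e]
  refine (norm_add_le _ _).trans ?_
  rw [norm_smul, norm_smul, Real.norm_eq_abs, Real.norm_eq_abs]
  have h1 : |ca V W e| * ‖V‖ ≤ |ca V W e| * 1 := mul_le_mul_of_nonneg_left hV (abs_nonneg _)
  have h2 : |cb V W e| * ‖W‖ ≤ |cb V W e| * 1 := mul_le_mul_of_nonneg_left hW (abs_nonneg _)
  linarith

/-- the state of the induction at a visit time `t` -/
structure St (h : ℝ → ℝ) (lam : ℝ) (N2 : ℕ) (v w : ℝ × ℝ → ℝ × ℝ) (z z' : ℝ × ℝ) (B0 : ℝ)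
    (t : ℕ) : Prop where
  a : ∃ j : ℤ, pth h z (N2 * t) = ((Tm h)^[N2])^[t] z + tj j ∧
    pth h z' (N2 * t) = ((Tm h)^[N2])^[t] z' + tj j
  b : ∃ σ : ℝ, (σ = 1 ∨ σ = -1) ∧ ∀ s ∈ Set.Icc (0 : ℝ) 1,
    |cb (v (((Tm h)^[N2])^[t] z)) (w (((Tm h)^[N2])^[t] z))
        (DFn h (z + s • (z' - z)) (N2 * t) (z' - z))| ≤
      σ * ca (v (((Tm h)^[N2])^[t] z)) (w (((Tm h)^[N2])^[t] z))
        (DFn h (z + s • (z' - z)) (N2 * t) (z' - z)) ∧
    exp (lam * t) * B0 ≤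
      σ * ca (v (((Tm h)^[N2])^[t] z)) (w (((Tm h)^[N2])^[t] z))
        (DFn h (z + s • (z' - z)) (N2 * t) (z' - z))

theorem sign_step {σ c x y : ℝ} (hσ : σ = 1 ∨ σ = -1) (hc : 2 ≤ |c|) (hx : 0 < σ * x)
    (hxy : 0 ≤ c * x * y) :
    ∃ σ' : ℝ, (σ' = 1 ∨ σ' = -1) ∧ (σ' = if 0 < c then σ else -σ) ∧ σ' * y = |y| := by
  have hc0 : c ≠ 0 := by
    intro h0
    rw [h0, abs_zero] at hc
    linarith
  by_cases hcp : 0 < c
  · refine ⟨σ, hσ, by rw [if_pos hcp], ?_⟩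
    rcases hσ with rfl | rfl
    · have hx' : 0 < x := by linarith
      have : 0 ≤ y := by
        by_contra hy
        push Not at hy
        have := mul_neg_of_pos_of_neg (mul_pos hcp hx') hy
        linarith
      rw [abs_of_nonneg this, one_mul]
    · have hx' : x < 0 := by linarith
      have : y ≤ 0 := by
        by_contra hy
        push Not at hy
        have := mul_neg_of_neg_of_pos (mul_neg_of_pos_of_neg hcp hx') hy
        linarith
      rw [abs_of_nonpos this]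
      ring
  · have hcn : c < 0 := lt_of_le_of_ne (not_lt.1 hcp) hc0
    refine ⟨-σ, ?_, by rw [if_neg hcp], ?_⟩
    · rcases hσ with rfl | rfl
      · right; rfl
      · left; ring
    rcases hσ with rfl | rfl
    · have hx' : 0 < x := by linarith
      have : y ≤ 0 := by
        by_contra hy
        push Not at hy
        have := mul_neg_of_neg_of_pos (mul_neg_of_neg_of_pos hcn hx') hy
        linarith
      rw [abs_of_nonpos this]
      ring
    · have hx' : x < 0 := by linarith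
      have : 0 ≤ y := by
        by_contra hy
        push Not at hy
        have := mul_neg_of_pos_of_neg (mul_pos_of_neg_of_neg hcn hx') hy
        linarith
      rw [abs_of_nonneg this]
      ring

theorem St_zero {h : ℝ → ℝ} {lam : ℝ} {N2 : ℕ} {v w : ℝ × ℝ → ℝ × ℝ} {z z' : ℝ × ℝ}
    (hcone : |cb (v z) (w z) (z' - z)| ≤ |ca (v z) (w z) (z' - z)|) :
    St h lam N2 v w z z' |ca (v z) (w z) (z' - z)| 0 := by
  constructor
  · refine ⟨0, ?_, ?_⟩
    · change z = z + tj 0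
      simp [tj]
    · change z' = z' + tj 0
      simp [tj]
  · obtain ⟨σ, hσ, hσ2⟩ : ∃ σ : ℝ, (σ = 1 ∨ σ = -1) ∧
        σ * ca (v z) (w z) (z' - z) = |ca (v z) (w z) (z' - z)| := by
      rcases le_total 0 (ca (v z) (w z) (z' - z)) with h0 | h0
      · exact ⟨1, Or.inl rfl, by rw [abs_of_nonneg h0, one_mul]⟩
      · exact ⟨-1, Or.inr rfl, by rw [abs_of_nonpos h0]; ring⟩
    refine ⟨σ, hσ, fun s _ => ?_⟩
    have e : DFn h (z + s • (z' - z)) (N2 * 0) (z' - z) = z' - z := rfl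
    have e2 : ((Tm h)^[N2])^[0] z = z := rfl
    rw [e, e2, hσ2]
    refine ⟨hcone, ?_⟩
    simp

/-- conclusion from a state -/
theorem St_concl {h : ℝ → ℝ} {K lam : ℝ} {N2 : ℕ} {A : Set (ℝ × ℝ)} {v w : ℝ × ℝ → ℝ × ℝ}
    (H : HypP h K lam N2 A v w) {z z' : ℝ × ℝ} {B0 : ℝ}
    (hdom : ∀ s ∈ Set.Icc (0 : ℝ) 1, z + s • (z' - z) ∈ dom h) {t : ℕ}
    (hS : St h lam N2 v w z z' B0 t) (htA : ((Tm h)^[N2])^[t] z ∈ A) :
    exp (lam * t) * B0 ≤ 2 * K * ‖((Tm h)^[N2])^[t] z' - ((Tm h)^[N2])^[t] z‖ ∧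
    ∀ s ∈ Set.Icc (0 : ℝ) 1,
      ‖pth h (z + s • (z' - z)) (N2 * t) - pth h z (N2 * t)‖ ≤
        4 * K * ‖((Tm h)^[N2])^[t] z' - ((Tm h)^[N2])^[t] z‖ := by
  obtain ⟨j, hj1, hj2⟩ := hS.a
  obtain ⟨σ, hσ, hb⟩ := hS.b
  have h1 := curve_control H.hh H.hK (H.norm_v _ htA) (H.norm_w _ htA) (H.det _ htA) hσ hdom hb
  have e : pth h z' (N2 * t) - pth h z (N2 * t) =
      ((Tm h)^[N2])^[t] z' - ((Tm h)^[N2])^[t] z := by
    rw [hj1, hj2]
    abel
  rw [e] at h1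
  exact h1

theorem iter_Tm {h : ℝ → ℝ} (hh : IsTab h) {y : ℝ × ℝ} (hy : y ∈ X0 h) (m : ℕ) :
    ∃ i : ℤ, pth h y m = (Tm h)^[m] y + tj i := by
  obtain ⟨j, hj⟩ := Tm_iter hh hy m
  refine ⟨j, ?_⟩
  rw [hj]
  unfold tj
  abel

/-- one step of the induction -/
theorem St_step {h : ℝ → ℝ} {K lam : ℝ} {N2 : ℕ} {A : Set (ℝ × ℝ)} {v w : ℝ × ℝ → ℝ × ℝ}
    (H : HypP h K lam N2 A v w) {C1 : ℝ} (hC4 : 4 ≤ C1)
    (hC1 : ∀ z ∈ dom h, ∀ (l : ℕ) (e0 : ℝ), 1 ≤ l → 0 < e0 → e0 ≤ 1 → ∀ z' : ℝ × ℝ,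
      ‖z' - z‖ ≤ (e0 / Pi1 C1 h z l ^ 4) ^ 65 →
        z' ∈ dom h ∧ ‖DFn h z' l - DFn h z l‖ ≤ e0 ∧ ‖pth h z' l - pth h z l‖ ≤ e0)
    {z z' : ℝ × ℝ} {B0 : ℝ} (hB0 : 0 < B0)
    (hdom : ∀ s ∈ Set.Icc (0 : ℝ) 1, z + s • (z' - z) ∈ dom h) {t r : ℕ}
    (hS : St h lam N2 v w z z' B0 t)
    (htA : ((Tm h)^[N2])^[t] z ∈ A) (htA' : ((Tm h)^[N2])^[t] z' ∈ A)
    (hr : r = ret ((Tm h)^[N2]) A (((Tm h)^[N2])^[t] z)) (hr1 : 1 ≤ r)
    (hrA : ((Tm h)^[N2])^[t + r] z ∈ A)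
    (hclose : ‖((Tm h)^[N2])^[t] z' - ((Tm h)^[N2])^[t] z‖ ≤
      rho C1 K h N2 A (((Tm h)^[N2])^[t] z) / (16 * K))
    (hclose2 : ‖((Tm h)^[N2])^[t + r] z' - ((Tm h)^[N2])^[t + r] z‖ ≤
      rho C1 K h N2 A (((Tm h)^[N2])^[t + r] z) / (16 * K)) :
    St h lam N2 v w z z' B0 (t + r) := by
  have hh := H.hh
  have hK := H.hK
  obtain ⟨-, hcurve⟩ := St_concl H hdom hS htA
  obtain ⟨j, hj1, hj2⟩ := hS.a
  obtain ⟨σ, hσ, hb⟩ := hS.b
  have hSr : ∀ x, ((Tm h)^[N2])^[t + r] x = ((Tm h)^[N2])^[r] (((Tm h)^[N2])^[t] x) := by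
    intro x
    rw [add_comm, Function.iterate_add_apply]
  rw [hSr] at hrA
  rw [hSr, hSr] at hclose2
  set y := ((Tm h)^[N2])^[t] z with hy
  set y' := ((Tm h)^[N2])^[t] z' with hy'
  have hyX : y ∈ X0 h := H.sub htA
  have hyX' : y' ∈ X0 h := H.sub htA'
  have hyd : y ∈ dom h := hyX.1
  have hyd' : y' ∈ dom h := hyX'.1
  have hl1 : 1 ≤ N2 * r := Nat.mul_pos H.N2_pos hr1
  have hK0 : (0 : ℝ) < 16 * K := by linarith
  have he0 : (0 : ℝ) < 1 / (16 * K) := by positivity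
  have he1 : 1 / (16 * K) ≤ 1 := by
    rw [div_le_one hK0]
    linarith
  have he16 : 1 / (16 * K) ≤ 1 / 16 := by
    apply one_div_le_one_div_of_le (by norm_num)
    linarith
  obtain ⟨hρ0, hρ1⟩ := rho_bounds (K := K) (N2 := N2) (A := A) hh hC4 hK hyd
  have hρ : rho C1 K h N2 A y = (1 / (16 * K) / Pi1 C1 h y (N2 * r) ^ 4) ^ 65 := by
    unfold rho
    rw [hr]
  have hexc := fun x hx => hC1 y hyd (N2 * r) (1 / (16 * K)) hl1 he0 he1 x hx
  rw [← hρ] at hexc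
  -- iterates
  have hit : ∀ x, ((Tm h)^[N2])^[r] x = (Tm h)^[N2 * r] x := by
    intro x
    rw [Function.iterate_mul]
  obtain ⟨i, hi⟩ := iter_Tm hh hyX (N2 * r)
  obtain ⟨i', hi'⟩ := iter_Tm hh hyX' (N2 * r)
  rw [← hit] at hi hi'
  have hii : i' = i := by
    have h1 := (hexc y' (hclose.trans (by
      rw [div_le_iff₀ hK0]
      nlinarith))).2.2
    rw [hi, hi'] at h1
    have hr2 : ((Tm h)^[N2])^[r] y ∈ dom h := (H.sub hrA).1
    obtain ⟨-, hρ2⟩ := rho_bounds (K := K) (N2 := N2) (A := A) hh hC4 hK hr2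
    have h2 : ‖((Tm h)^[N2])^[r] y' - ((Tm h)^[N2])^[r] y‖ ≤ 1 / (16 * K) :=
      hclose2.trans (div_le_div_of_nonneg_right hρ2 hK0.le)
    have h3 : tj (i' - i) = ((((Tm h)^[N2])^[r] y' + tj i') - (((Tm h)^[N2])^[r] y + tj i)) -
        (((Tm h)^[N2])^[r] y' - ((Tm h)^[N2])^[r] y) := by
      rw [tj_sub]
      abel
    have h4 : ‖tj (i' - i)‖ < 1 := by
      rw [h3]
      refine lt_of_le_of_lt (norm_sub_le _ _) ?_
      linarith
    have h5 := tj_small h4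
    omega
  have hN : N2 * (t + r) = N2 * t + N2 * r := Nat.mul_add _ _ _
  constructor
  · refine ⟨i + j, ?_, ?_⟩
    · rw [hN, pth_add', hj1, hSr, ← hy, tj_add, ← add_assoc, ← hi]
      exact pth_add_int hh hyd (N2 * r) j
    · rw [hN, pth_add', hj2, hSr, ← hy', tj_add, ← add_assoc, ← hii, ← hi']
      exact pth_add_int hh hyd' (N2 * r) j
  · -- the cone
    obtain ⟨c, hc, hc2⟩ := H.exp_v y htA r hr1 hrA
    obtain ⟨c', hc', hc'2⟩ := H.exp_w y htA r hr1 hrA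
    have hlr : 1 ≤ exp (lam * r) := by
      rw [← Real.exp_zero]
      refine Real.exp_le_exp.2 ?_
      have := H.lam_pos
      positivity
    have hc22 : 2 ≤ |c| := by linarith
    refine ⟨if 0 < c then σ else -σ, ?_, ?_⟩
    · rcases hσ with rfl | rfl
      · split_ifs
        · left; rfl
        · right; rfl
      · split_ifs
        · right; rfl
        · left; ring
    intro s hs
    obtain ⟨hb1, hb2⟩ := hb s hs
    set zs := z + s • (z' - z) with hzs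
    set e := DFn h zs (N2 * t) (z' - z) with he
    set x := pth h zs (N2 * t) - tj j with hx
    have hxs : pth h zs (N2 * t) = x + tj j := by
      rw [hx]
      abel
    have hxy : ‖x - y‖ ≤ rho C1 K h N2 A y := by
      have e1 : x - y = pth h zs (N2 * t) - pth h z (N2 * t) := by
        rw [hx, hj1]
        abel
      rw [e1]
      refine (hcurve s hs).trans ?_
      have h1 : 4 * K * ‖y' - y‖ ≤ 4 * K * (rho C1 K h N2 A y / (16 * K)) :=
        mul_le_mul_of_nonneg_left hclose (by linarith)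
      refine h1.trans ?_
      have h2 : 4 * K * (rho C1 K h N2 A y / (16 * K)) = rho C1 K h N2 A y / 4 := by
        field_simp
        ring
      rw [h2]
      linarith
    obtain ⟨hxd, hxD, -⟩ := hexc x hxy
    have hLe : DFn h zs (N2 * (t + r)) (z' - z) = DFn h x (N2 * r) e := by
      rw [hN, DFn_add, hxs, DFn_add_int hh hxd]
      rfl
    rw [hLe, hSr, ← hy]
    have hpos : 0 < σ * ca (v y) (w y) e := lt_of_lt_of_le (by positivity) hb2
    have habs : σ * ca (v y) (w y) e = |ca (v y) (w y) e| := by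
      rcases hσ with rfl | rfl
      · rw [abs_of_pos (by linarith)]
        ring
      · rw [abs_of_neg (by linarith)]
        ring
    rw [habs] at hb1 hb2
    obtain ⟨k1, k2, k3⟩ := cone hK (H.norm_v _ htA) (H.norm_w _ htA) (H.norm_v _ hrA)
      (H.norm_w _ hrA) (H.det _ htA) (H.det _ hrA) hc hc' hc22 hc'2 hxD hb1
    obtain ⟨σ', -, hσ'2, hσ'3⟩ := sign_step hσ hc22 hpos k3
    rw [← hσ'2, hσ'3]
    refine ⟨k1, ?_⟩
    refine le_trans ?_ k2
    have h5 : exp (lam * ((t + r : ℕ) : ℝ)) = exp (lam * r) * exp (lam * t) := by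
      rw [← Real.exp_add]
      congr 1
      push_cast
      ring
    rw [h5]
    calc exp (lam * r) * exp (lam * t) * B0 = exp (lam * r) * (exp (lam * t) * B0) := by ring
      _ ≤ (|c| / 2) * |ca (v y) (w y) e| :=
          mul_le_mul (by linarith) hb2 (by positivity) (by positivity)

end P08_aux

open P08_aux

/-- (P5) two points with the same itinerary, on a line in the cone, are exponentially close. -/
theorem same_itinerary {h : ℝ → ℝ} {K lam : ℝ} {N2 : ℕ} {A : Set (ℝ × ℝ)}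
    {v w : ℝ × ℝ → ℝ × ℝ} (H : HypP h K lam N2 A v w) :
    ∃ C1 : ℝ, 4 ≤ C1 ∧ ∀ z z' : ℝ × ℝ, z ∈ A → z' ∈ A →
      |cb (v z) (w z) (z' - z)| ≤ |ca (v z) (w z) (z' - z)| →
      ∀ n : ℕ, (∀ k < n, ((((Tm h)^[N2])^[k] z ∈ A ↔ ((Tm h)^[N2])^[k] z' ∈ A) ∧
        (((Tm h)^[N2])^[k] z ∈ A →
          ‖((Tm h)^[N2])^[k] z' - ((Tm h)^[N2])^[k] z‖ ≤
            rho C1 K h N2 A (((Tm h)^[N2])^[k] z) / (16 * K)))) →
      ∀ t < n, ((Tm h)^[N2])^[t] z ∈ A → ‖z' - z‖ ≤ 2 * exp (-(lam * t)) := by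
  obtain ⟨C1, hC4, hC1⟩ := excursion H.hh H.hK H.hol
  refine ⟨C1, hC4, ?_⟩
  intro z z' hz hz' hcone n hn t htn htA
  have hh := H.hh
  have hK := H.hK
  have hK0 : (0 : ℝ) < 16 * K := by linarith
  have hzX : z ∈ X0 h := H.sub hz
  have h00 := (hn 0 (by omega)).2 hz
  change ‖z' - z‖ ≤ rho C1 K h N2 A z / (16 * K) at h00
  obtain ⟨hρ0, hρ1⟩ := rho_bounds (K := K) (N2 := N2) (A := A) hh hC4 hK hzX.1
  have h01 : ‖z' - z‖ ≤ rho C1 K h N2 A z := h00.trans (by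
    rw [div_le_iff₀ hK0]
    nlinarith)
  rcases Nat.eq_zero_or_pos t with rfl | ht
  · simp only [Nat.cast_zero, mul_zero, neg_zero, Real.exp_zero]
    linarith
  -- a later visit exists
  have hdet := det_ne hK (H.det z hz)
  by_cases hB : ca (v z) (w z) (z' - z) = 0
  · have h1 := norm_le_ca (H.norm_v z hz) (H.norm_w z hz) hdet hcone
    rw [hB, abs_zero, mul_zero] at h1
    exact h1.trans (by positivity)
  have hB0 : 0 < |ca (v z) (w z) (z' - z)| := abs_pos.2 hB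
  have hret : ∀ u, u < t → ((Tm h)^[N2])^[u] z ∈ A →
      1 ≤ ret ((Tm h)^[N2]) A (((Tm h)^[N2])^[u] z) ∧
      u + ret ((Tm h)^[N2]) A (((Tm h)^[N2])^[u] z) ≤ t ∧
      ((Tm h)^[N2])^[u + ret ((Tm h)^[N2]) A (((Tm h)^[N2])^[u] z)] z ∈ A := by
    classical
    intro u hu _
    have hex : ∃ k, 1 ≤ k ∧ ((Tm h)^[N2])^[k] (((Tm h)^[N2])^[u] z) ∈ A := by
      refine ⟨t - u, by omega, ?_⟩
      rw [← Function.iterate_add_apply]
      have e : t - u + u = t := by omega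
      rw [e]
      exact htA
    have hf : ret ((Tm h)^[N2]) A (((Tm h)^[N2])^[u] z) = Nat.find hex := by
      unfold ret
      rw [dif_pos hex]
    have hsp := Nat.find_spec hex
    have hmin : Nat.find hex ≤ t - u := by
      refine Nat.find_min' hex ⟨by omega, ?_⟩
      rw [← Function.iterate_add_apply]
      have e : t - u + u = t := by omega
      rw [e]
      exact htA
    rw [hf]
    refine ⟨hsp.1, by omega, ?_⟩
    rw [add_comm, Function.iterate_add_apply]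
    exact hsp.2
  -- the segment lies in `dom`
  have hdom : ∀ s ∈ Set.Icc (0 : ℝ) 1, z + s • (z' - z) ∈ dom h := by
    intro s hs
    obtain ⟨hr1, -, -⟩ := hret 0 ht hz
    change 1 ≤ ret ((Tm h)^[N2]) A z at hr1
    refine (hC1 z hzX.1 (N2 * ret ((Tm h)^[N2]) A z) (1 / (16 * K))
      (Nat.mul_pos H.N2_pos hr1) (by positivity) (by
        rw [div_le_one hK0]
        linarith) _ ?_).1
    rw [add_sub_cancel_left, norm_smul, Real.norm_eq_abs, abs_of_nonneg hs.1]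
    refine le_trans ?_ h01
    have := norm_nonneg (z' - z)
    nlinarith [hs.2]
  -- all visits
  have hall : ∀ m u, t - u = m → u ≤ t → ((Tm h)^[N2])^[u] z ∈ A →
      St h lam N2 v w z z' |ca (v z) (w z) (z' - z)| u →
      St h lam N2 v w z z' |ca (v z) (w z) (z' - z)| t := by
    intro m
    induction m using Nat.strong_induction_on with
    | _ m ih =>
      intro u hum hut huA hSu
      rcases Nat.eq_or_lt_of_le hut with rfl | hlt
      · exact hSu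
      obtain ⟨hr1, hr2, hr3⟩ := hret u hlt huA
      set r := ret ((Tm h)^[N2]) A (((Tm h)^[N2])^[u] z) with hr
      have hnu := hn u (by omega)
      have hnr := hn (u + r) (by omega)
      have hstep := St_step H hC4 hC1 hB0 hdom hSu huA (hnu.1.1 huA) hr hr1 hr3 (hnu.2 huA)
        (hnr.2 hr3)
      exact ih (t - (u + r)) (by omega) (u + r) rfl hr2 hr3 hstep
  have hSt := hall t 0 (by omega) (Nat.zero_le _) hz (St_zero hcone)
  obtain ⟨h1, -⟩ := St_concl H hdom hSt htA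
  have h2 := (hn t htn).2 htA
  have htd : ((Tm h)^[N2])^[t] z ∈ dom h := (H.sub htA).1
  obtain ⟨-, hρt⟩ := rho_bounds (K := K) (N2 := N2) (A := A) hh hC4 hK htd
  have h3 : 2 * K * ‖((Tm h)^[N2])^[t] z' - ((Tm h)^[N2])^[t] z‖ ≤ 1 := by
    have h4 : 2 * K * ‖((Tm h)^[N2])^[t] z' - ((Tm h)^[N2])^[t] z‖ ≤
        2 * K * (rho C1 K h N2 A (((Tm h)^[N2])^[t] z) / (16 * K)) :=
      mul_le_mul_of_nonneg_left h2 (by linarith)
    refine h4.trans ?_
    have h5 : 2 * K * (rho C1 K h N2 A (((Tm h)^[N2])^[t] z) / (16 * K)) =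
        rho C1 K h N2 A (((Tm h)^[N2])^[t] z) / 8 := by
      field_simp
      ring
    rw [h5]
    linarith
  have h6 := norm_le_ca (H.norm_v z hz) (H.norm_w z hz) hdet hcone
  have h7 : |ca (v z) (w z) (z' - z)| ≤ exp (-(lam * t)) := by
    rw [Real.exp_neg]
    have h8 : exp (lam * t) * |ca (v z) (w z) (z' - z)| ≤ 1 := h1.trans h3
    rw [← one_div, le_div_iff₀ (Real.exp_pos _)]
    linarith
  linarith

end BilEnt
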