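import Pool.Agent.BilEnt.Defs
import Pool.Agent.BilEnt.P08
import Pool.Agent.BilEnt.G12
import Pool.Agent.BilEnt.G15

/-!
# MP_bd32bb_an, part P, module P10 (doc proof/MP_bd32bb_an_entropy, section 10)

HINT. Kac with `Φ(z) = Σ_{r<N2} log Lfun C1 h (T^r z)` for the map `S = T^{N2}`: `Σ_{k < ret} Φ(S^k z) = log Pi1 (N2 ret)` (periodicity of `stt`: `(Tm h)^[k] z` and `pth h z k` have the same `stt`), and `∫ log(1/stt) dmu < ∞`
(`mu_lintegral`, density `sin θ`: `∫_0^π sin θ log(1/sin θ) dθ < ∞`; e.g. `log(1/x) ≤ 1/x`).  `log(1/rho) = 65 (log(16K) + 4 log Pi1)`.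
-/

open MeasureTheory Real
open scoped ENNReal

namespace BilEnt

namespace P10_aux

theorem stt_le_one (h : ℝ → ℝ) (z : ℝ × ℝ) : stt h z ≤ 1 := sin_le_one _

theorem Lfun_ge {h : ℝ → ℝ} {C1 : ℝ} (hC1 : 4 ≤ C1) {z : ℝ × ℝ} (hz : z ∈ dom h) :
    4 ≤ Lfun C1 h z := by
  unfold Lfun
  have h1 : 0 < stt h z := stt_pos hz
  have h2 : stt h z ^ 6 ≤ 1 := pow_le_one₀ h1.le (stt_le_one h z)
  rw [le_div_iff₀ (pow_pos h1 6)]
  nlinarith

/-- product along the reduced orbit -/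
noncomputable def PT (C1 : ℝ) (h : ℝ → ℝ) (z : ℝ × ℝ) (l : ℕ) : ℝ :=
  ∏ j ∈ Finset.range l, Lfun C1 h ((Tm h)^[j] z)

theorem Lfun_iter {h : ℝ → ℝ} (hh : IsTab h) {C1 : ℝ} {z : ℝ × ℝ} (hz : z ∈ X0 h) (j : ℕ) :
    Lfun C1 h ((Tm h)^[j] z) = Lfun C1 h (pth h z j) := by
  obtain ⟨i, hi⟩ := Tm_iter hh hz j
  unfold Lfun
  rw [hi, ← stt_add_int hh (pth h z j - (2 * π * i, 2 * π * i)) i, sub_add_cancel]

theorem Pi1_eq {h : ℝ → ℝ} (hh : IsTab h) {C1 : ℝ} {z : ℝ × ℝ} (hz : z ∈ X0 h) (l : ℕ) :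
    Pi1 C1 h z l = PT C1 h z l := by
  unfold Pi1 PT
  exact Finset.prod_congr rfl fun j _ => (Lfun_iter hh hz j).symm

theorem PT_ge_one {h : ℝ → ℝ} (hh : IsTab h) {C1 : ℝ} (hC1 : 4 ≤ C1) {z : ℝ × ℝ}
    (hz : z ∈ X0 h) (l : ℕ) : 1 ≤ PT C1 h z l := by
  induction l with
  | zero => simp [PT]
  | succ l ih =>
    have h1 : PT C1 h z (l + 1) = PT C1 h z l * Lfun C1 h ((Tm h)^[l] z) :=
      Finset.prod_range_succ _ _
    have h2 := Lfun_ge hC1 (Tm_iter_mem hh hz l).1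
    rw [h1]
    nlinarith

theorem log_PT {h : ℝ → ℝ} (hh : IsTab h) {C1 : ℝ} (hC1 : 4 ≤ C1) {z : ℝ × ℝ}
    (hz : z ∈ X0 h) (l : ℕ) : log (PT C1 h z l) =
      ∑ j ∈ Finset.range l, log (Lfun C1 h ((Tm h)^[j] z)) := by
  unfold PT
  rw [Real.log_prod]
  intro j _
  have h1 : 0 < Lfun C1 h ((Tm h)^[j] z) := by
    have := Lfun_ge hC1 (Tm_iter_mem hh hz j).1
    linarith
  exact h1.ne'

theorem meas_stt {h : ℝ → ℝ} (hh : IsTab h) : Measurable (stt h) := by
  unfold stt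
  exact (continuous_sin.comp
    (continuous_snd.sub ((continuous_Th hh).comp continuous_fst))).measurable

theorem meas_Lfun {h : ℝ → ℝ} (hh : IsTab h) (C1 : ℝ) : Measurable (Lfun C1 h) := by
  unfold Lfun
  exact ((meas_stt hh).pow_const 6).const_div C1

theorem meas_PT {h : ℝ → ℝ} (hh : IsTab h) (C1 : ℝ) (l : ℕ) :
    Measurable (fun z => PT C1 h z l) := by
  unfold PT
  apply Finset.measurable_prod
  intro j _
  exact (meas_Lfun hh C1).comp ((measurable_Tm hh).iterate j)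

theorem meas_nat {X : Type*} [MeasurableSpace X] (f : ℕ → X → ℝ) (hf : ∀ l, Measurable (f l))
    (n : X → ℕ) (hn : Measurable n) : Measurable (fun z => f (n z) z) := by
  have h1 : Measurable (fun p : ℕ × X => f p.1 p.2) :=
    measurable_from_prod_countable_right hf
  exact h1.comp (hn.prodMk measurable_id)

theorem meas_PT' {h : ℝ → ℝ} (hh : IsTab h) (C1 : ℝ) (n : ℝ × ℝ → ℕ) (hn : Measurable n) :
    Measurable (fun z => PT C1 h z (n z)) :=
  meas_nat (fun l z => PT C1 h z l) (fun l => meas_PT hh C1 l) n hn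

theorem log_inv_rho {K x : ℝ} (hK : 1 ≤ K) (hx : 1 ≤ x) :
    log (1 / (1 / (16 * K) / x ^ 4) ^ 65) = 65 * (log (16 * K) + 4 * log x) := by
  have h1 : 0 < 16 * K := by linarith
  have h2 : 0 < x := by linarith
  rw [one_div, Real.log_inv, Real.log_pow, div_div, one_div, Real.log_inv,
    Real.log_mul h1.ne' (pow_pos h2 4).ne', Real.log_pow]
  push_cast
  ring

/-- finiteness of the integral of `log Lfun` -/
theorem lint_Lfun {h : ℝ → ℝ} (hh : IsTab h) {C1 : ℝ} (hC1 : 4 ≤ C1) :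
    ∫⁻ z, ENNReal.ofReal (log (Lfun C1 h z)) ∂(mu h) < ⊤ := by
  rw [mu_lintegral hh ((meas_Lfun hh C1).log.ennreal_ofReal)]
  have hb : ∀ u : ℝ, ∫⁻ A in Set.Ioo (Th h u) (Th h u + π),
      ENNReal.ofReal (pw h (u, A)) * ENNReal.ofReal (log (Lfun C1 h (u, A))) ≤
      ENNReal.ofReal (2 * (log C1 + 6)) * ENNReal.ofReal π := by
    intro u
    have h1 : ∀ A ∈ Set.Ioo (Th h u) (Th h u + π),
        ENNReal.ofReal (pw h (u, A)) * ENNReal.ofReal (log (Lfun C1 h (u, A))) ≤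
        ENNReal.ofReal (2 * (log C1 + 6)) := by
      intro A hA
      have hz : (u, A) ∈ dom h := ⟨hA.1, hA.2⟩
      have hs := stt_pos hz
      have hs1 := stt_le_one h (u, A)
      have hp := pw_pos hh hz
      rw [← ENNReal.ofReal_mul hp.le]
      apply ENNReal.ofReal_le_ofReal
      have e1 : log (Lfun C1 h (u, A)) = log C1 + 6 * log (stt h (u, A))⁻¹ := by
        unfold Lfun
        rw [Real.log_div (by linarith) (pow_pos hs 6).ne', Real.log_pow, Real.log_inv]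
        push_cast
        ring
      have e2 : log (stt h (u, A))⁻¹ ≤ (stt h (u, A))⁻¹ := by
        have := Real.log_le_sub_one_of_pos (inv_pos.2 hs)
        linarith
      have e3 : 0 ≤ log C1 := Real.log_nonneg (by linarith)
      have e4 : pw h (u, A) = sp h u * stt h (u, A) := rfl
      have e5 := (sp_bounds hh u).2
      have e6 := (sp_bounds hh u).1
      have e7 : stt h (u, A) * (stt h (u, A))⁻¹ = 1 := mul_inv_cancel₀ hs.ne'
      have e8 : stt h (u, A) * log (Lfun C1 h (u, A)) ≤ log C1 + 6 := by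
        rw [e1]
        have : stt h (u, A) * log C1 ≤ log C1 := by nlinarith
        have h9 : stt h (u, A) * log (stt h (u, A))⁻¹ ≤ 1 := by
          rw [← e7]
          exact mul_le_mul_of_nonneg_left e2 hs.le
        linarith
      have e9 : 0 ≤ log C1 + 6 := by linarith
      rw [e4, mul_assoc]
      calc sp h u * (stt h (u, A) * log (Lfun C1 h (u, A))) ≤ sp h u * (log C1 + 6) :=
            mul_le_mul_of_nonneg_left e8 (by linarith)
        _ ≤ 2 * (log C1 + 6) := mul_le_mul_of_nonneg_right (by linarith) e9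
    calc ∫⁻ A in Set.Ioo (Th h u) (Th h u + π),
          ENNReal.ofReal (pw h (u, A)) * ENNReal.ofReal (log (Lfun C1 h (u, A)))
        ≤ ∫⁻ _ in Set.Ioo (Th h u) (Th h u + π), ENNReal.ofReal (2 * (log C1 + 6)) :=
          setLIntegral_mono measurable_const h1
      _ = ENNReal.ofReal (2 * (log C1 + 6)) * ENNReal.ofReal π := by
          rw [setLIntegral_const, Real.volume_Ioo, add_sub_cancel_left]
  calc ∫⁻ u in Set.Ico 0 (2 * π), ∫⁻ A in Set.Ioo (Th h u) (Th h u + π),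
        ENNReal.ofReal (pw h (u, A)) * ENNReal.ofReal (log (Lfun C1 h (u, A)))
      ≤ ∫⁻ _ in Set.Ico 0 (2 * π), ENNReal.ofReal (2 * (log C1 + 6)) * ENNReal.ofReal π :=
        lintegral_mono hb
    _ = ENNReal.ofReal (2 * (log C1 + 6)) * ENNReal.ofReal π *
          volume (Set.Ico (0 : ℝ) (2 * π)) := setLIntegral_const _ _
    _ < ⊤ := by
        rw [Real.volume_Ico]
        exact ENNReal.mul_lt_top (ENNReal.mul_lt_top ENNReal.ofReal_lt_top
          ENNReal.ofReal_lt_top) ENNReal.ofReal_lt_top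

theorem sum_blocks {M : Type*} [AddCommMonoid M] (f : ℕ → M) (N2 n : ℕ) :
    ∑ j ∈ Finset.range (N2 * n), f j =
      ∑ k ∈ Finset.range n, ∑ r ∈ Finset.range N2, f (N2 * k + r) := by
  induction n with
  | zero => simp
  | succ n ih => rw [Nat.mul_succ, Finset.sum_range_add, ih, Finset.sum_range_succ]

theorem invSys {h : ℝ → ℝ} (hh : IsTab h) (N2 : ℕ) :
    InvSys (mu h) ((Tm h)^[N2]) ((Tmi h)^[N2]) where
  mp := (mp_Tm hh).iterate N2
  mpi := (mp_Tmi hh).iterate N2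
  left := Function.LeftInverse.iterate (f := Tm h) (g := Tmi h) (Tmi_Tm hh) N2
  right := Function.LeftInverse.iterate (f := Tmi h) (g := Tm h) (Tm_Tmi hh) N2

theorem lint_log_PT {h : ℝ → ℝ} (hh : IsTab h) {C1 : ℝ} (hC1 : 4 ≤ C1) (N2 : ℕ)
    {A : Set (ℝ × ℝ)} (hA : MeasurableSet A) (hAX : A ⊆ X0 h) :
    ∫⁻ z in A, ENNReal.ofReal (log (PT C1 h z (N2 * ret ((Tm h)^[N2]) A z))) ∂(mu h) < ⊤ := by
  have hm : ∀ j : ℕ, Measurable fun z => ENNReal.ofReal (log (Lfun C1 h ((Tm h)^[j] z))) :=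
    fun j => ((meas_Lfun hh C1).comp ((measurable_Tm hh).iterate j)).log.ennreal_ofReal
  have hΦ : Measurable fun z : ℝ × ℝ => ∑ r ∈ Finset.range N2,
      ENNReal.ofReal (log (Lfun C1 h ((Tm h)^[r] z))) :=
    Finset.measurable_sum _ fun r _ => hm r
  have hk := kac (invSys hh N2) hA hΦ
  have e1 : ∫⁻ z in A, ENNReal.ofReal (log (PT C1 h z (N2 * ret ((Tm h)^[N2]) A z))) ∂(mu h) =
      ∫⁻ z in A, ∑ k ∈ Finset.range (ret ((Tm h)^[N2]) A z), ∑ r ∈ Finset.range N2,
        ENNReal.ofReal (log (Lfun C1 h ((Tm h)^[r] (((Tm h)^[N2])^[k] z)))) ∂(mu h) := by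
    apply setLIntegral_congr_fun hA
    intro z hz
    have hz0 := hAX hz
    show ENNReal.ofReal (log (PT C1 h z (N2 * ret ((Tm h)^[N2]) A z))) = _
    rw [log_PT hh hC1 hz0, ENNReal.ofReal_sum_of_nonneg, sum_blocks]
    · apply Finset.sum_congr rfl
      intro k _
      apply Finset.sum_congr rfl
      intro r _
      rw [← Function.iterate_mul, ← Function.iterate_add_apply, Nat.add_comm]
    · intro j _
      have := Lfun_ge hC1 (Tm_iter_mem hh hz0 j).1
      exact Real.log_nonneg (by linarith)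
  rw [e1]
  refine lt_of_le_of_lt hk ?_
  rw [lintegral_finsetSum _ fun r _ => hm r, ENNReal.sum_lt_top]
  intro r _
  have e2 := ((mp_Tm hh).iterate r).lintegral_comp (meas_Lfun hh C1).log.ennreal_ofReal
  rw [e2]
  exact lint_Lfun hh hC1

end P10_aux

open P10_aux in
/-- integrability of `log (1/rho)` on `A` -/
theorem integrable_log_rho {h : ℝ → ℝ} {K lam : ℝ} {N2 : ℕ} {A : Set (ℝ × ℝ)}
    {v w : ℝ × ℝ → ℝ × ℝ} (H : HypP h K lam N2 A v w) {C1 : ℝ} (hC1 : 4 ≤ C1) :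
    (∀ z ∈ A, 0 < rho C1 K h N2 A z ∧ rho C1 K h N2 A z ≤ 1) ∧
    Measurable (A.indicator (fun z => log (1 / rho C1 K h N2 A z))) ∧
    Integrable (A.indicator (fun z => log (1 / rho C1 K h N2 A z))) (mu h) := by
  have hh := H.hh
  have hK := H.hK
  have hPi : ∀ z ∈ A, Pi1 C1 h z (N2 * ret ((Tm h)^[N2]) A z) =
      PT C1 h z (N2 * ret ((Tm h)^[N2]) A z) := fun z hz => Pi1_eq hh (H.sub hz) _
  have hge : ∀ z ∈ A, 1 ≤ PT C1 h z (N2 * ret ((Tm h)^[N2]) A z) := fun z hz =>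
    PT_ge_one hh hC1 (H.sub hz) _
  have hn : Measurable fun z => N2 * ret ((Tm h)^[N2]) A z :=
    (measurable_ret ((measurable_Tm hh).iterate N2) H.meas_A).const_mul N2
  have hmPT : Measurable fun z => PT C1 h z (N2 * ret ((Tm h)^[N2]) A z) :=
    meas_PT' hh C1 (fun z => N2 * ret ((Tm h)^[N2]) A z) hn
  have hlog : ∀ z ∈ A, log (1 / rho C1 K h N2 A z) =
      65 * (log (16 * K) + 4 * log (PT C1 h z (N2 * ret ((Tm h)^[N2]) A z))) := by
    intro z hz
    unfold rho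
    rw [hPi z hz, log_inv_rho hK (hge z hz)]
  have hind : A.indicator (fun z => log (1 / rho C1 K h N2 A z)) =
      A.indicator (fun z =>
        65 * (log (16 * K) + 4 * log (PT C1 h z (N2 * ret ((Tm h)^[N2]) A z)))) := by
    apply Set.indicator_congr
    exact hlog
  have hmeas : Measurable (A.indicator (fun z => log (1 / rho C1 K h N2 A z))) := by
    rw [hind]
    exact (((hmPT.log.const_mul 4).const_add _).const_mul 65).indicator H.meas_A
  refine ⟨?_, hmeas, ?_⟩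
  · intro z hz
    unfold rho
    rw [hPi z hz]
    have h1 := hge z hz
    have h2 : 0 < 1 / (16 * K) := by positivity
    have h3 : 1 / (16 * K) ≤ 1 := by
      rw [div_le_one (by linarith)]
      linarith
    have h4 : 1 ≤ PT C1 h z (N2 * ret ((Tm h)^[N2]) A z) ^ 4 := one_le_pow₀ h1
    have h5 : 0 < 1 / (16 * K) / PT C1 h z (N2 * ret ((Tm h)^[N2]) A z) ^ 4 :=
      div_pos h2 (by linarith)
    have h6 : 1 / (16 * K) / PT C1 h z (N2 * ret ((Tm h)^[N2]) A z) ^ 4 ≤ 1 := by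
      rw [div_le_one (by linarith)]
      linarith
    exact ⟨pow_pos h5 65, pow_le_one₀ h5.le h6⟩
  · refine ⟨hmeas.aestronglyMeasurable, ?_⟩
    rw [hind]
    show ∫⁻ z, ‖_‖ₑ ∂(mu h) < ⊤
    have hfin : mu h A < ⊤ := lt_of_le_of_lt (measure_mono (Set.subset_univ A))
      (lt_of_le_of_lt (mu_univ_le hh) ENNReal.ofReal_lt_top)
    have e1 : ∫⁻ z, ‖A.indicator (fun z =>
        65 * (log (16 * K) + 4 * log (PT C1 h z (N2 * ret ((Tm h)^[N2]) A z)))) z‖ₑ ∂(mu h) =
        ∫⁻ z in A, (ENNReal.ofReal (65 * log (16 * K)) + ENNReal.ofReal 260 *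
          ENNReal.ofReal (log (PT C1 h z (N2 * ret ((Tm h)^[N2]) A z)))) ∂(mu h) := by
      rw [← lintegral_indicator H.meas_A]
      apply lintegral_congr
      intro z
      by_cases hz : z ∈ A
      · rw [Set.indicator_of_mem hz, Set.indicator_of_mem hz]
        have g1 : 0 ≤ log (16 * K) := Real.log_nonneg (by linarith)
        have g2 : 0 ≤ log (PT C1 h z (N2 * ret ((Tm h)^[N2]) A z)) :=
          Real.log_nonneg (hge z hz)
        rw [Real.enorm_eq_ofReal (by positivity), ← ENNReal.ofReal_mul (by norm_num),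
          ← ENNReal.ofReal_add (by positivity) (by positivity)]
        congr 1
        ring
      · rw [Set.indicator_of_notMem hz, Set.indicator_of_notMem hz, enorm_zero]
    rw [e1, lintegral_add_left measurable_const, setLIntegral_const,
      lintegral_const_mul _ hmPT.log.ennreal_ofReal]
    exact ENNReal.add_lt_top.2 ⟨ENNReal.mul_lt_top ENNReal.ofReal_lt_top hfin,
      ENNReal.mul_lt_top ENNReal.ofReal_lt_top (lint_log_PT hh hC1 N2 H.meas_A H.sub)⟩

end BilEnt
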