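import Pool.Agent.BilEnt.Defs
import Pool.Agent.BilEnt.P10

/-!
# MP_bd32bb_an, part P, module P11 (doc proof/MP_bd32bb_an_entropy, section 10)

HINT. Label type `Lb`: first component `true` on `A`, `(false,0,0,0,0,0)` off `A`; for `z ∈ A`: `k` = least natural number with `2^{-k} ≤ rho z/(64 K)` .., box = floors of `2^k z.1`, `2^k z.2` (side `2^{-k}`), direction = floors of `64 K' (v z).1`, `64 K' (v z).2`
(`K'` a natural number `≥ K`; two points with the same direction label have `‖v z - v z'‖ ≤ 1/(64K)`).  In one label the point `e` := (v of the first chosen point of the class) is within `1/(8K)` of `v z` for every `z` of the class.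
Weight: `1/4` for the off-`A` label, `w (k,a,b,c,d) = q·8^{-k}` if `|a|,|b| ≤ 32·2^k`, `|c|,|d| ≤ 128K'+1`, else `0`, `q` small so that the sum is `≤ 1`.  `log(1/w) ≤ C(k+1) ≤ C'(1+log(1/rho))`.
-/

open MeasureTheory Real
open scoped ENNReal

namespace BilEnt

/-- labels: (in `A`?, scale, box, direction) -/
abbrev Lb : Type := Bool × ℕ × ℤ × ℤ × ℤ × ℤ

namespace P11_aux

/-- one-dimensional weight -/
noncomputable def ph (a : ℤ) : ℝ := 1 / (|(a : ℝ)| + 1) ^ 2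

theorem ph_pos (a : ℤ) : 0 < ph a := by
  unfold ph
  positivity

theorem summable_ph : Summable ph := by
  have h1 : Summable (fun n : ℕ => 1 / ((n : ℝ) + 1) ^ 2) := by
    have h := (summable_nat_add_iff 1).2 (Real.summable_one_div_nat_pow.2 (le_refl 2))
    refine h.congr (fun n => ?_)
    push_cast
    rfl
  refine Summable.of_nat_of_neg ?_ ?_
  · refine h1.congr (fun n => ?_)
    unfold ph
    rw [Int.cast_natCast, abs_of_nonneg (Nat.cast_nonneg n)]
  · refine h1.congr (fun n => ?_)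
    unfold ph
    rw [Int.cast_neg, Int.cast_natCast, abs_neg, abs_of_nonneg (Nat.cast_nonneg n)]

/-- unnormalised weight -/
noncomputable def Wt (l : Lb) : ℝ :=
  (1 : ℝ) * ((1 / 2) ^ l.2.1 * (ph l.2.2.1 * (ph l.2.2.2.1 * (ph l.2.2.2.2.1 * ph l.2.2.2.2.2))))

theorem Wt_pos (l : Lb) : 0 < Wt l := by
  unfold Wt
  have h1 := ph_pos l.2.2.1
  have h2 := ph_pos l.2.2.2.1
  have h3 := ph_pos l.2.2.2.2.1
  have h4 := ph_pos l.2.2.2.2.2
  positivity

theorem summable_Wt : Summable Wt := by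
  have hp : 0 ≤ ph := fun a => (ph_pos a).le
  have s1 : Summable (fun x : ℤ × ℤ => ph x.1 * ph x.2) :=
    summable_ph.mul_of_nonneg summable_ph hp hp
  have p1 : (0 : ℤ × ℤ → ℝ) ≤ fun x => ph x.1 * ph x.2 :=
    fun x => mul_nonneg (hp _) (hp _)
  have s2 : Summable (fun x : ℤ × ℤ × ℤ => ph x.1 * (ph x.2.1 * ph x.2.2)) :=
    summable_ph.mul_of_nonneg s1 hp p1
  have p2 : (0 : ℤ × ℤ × ℤ → ℝ) ≤ fun x => ph x.1 * (ph x.2.1 * ph x.2.2) :=
    fun x => mul_nonneg (hp _) (p1 _)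
  have s3 : Summable (fun x : ℤ × ℤ × ℤ × ℤ => ph x.1 * (ph x.2.1 * (ph x.2.2.1 * ph x.2.2.2))) :=
    summable_ph.mul_of_nonneg s2 hp p2
  have p3 : (0 : ℤ × ℤ × ℤ × ℤ → ℝ) ≤ fun x => ph x.1 * (ph x.2.1 * (ph x.2.2.1 * ph x.2.2.2)) :=
    fun x => mul_nonneg (hp _) (p2 _)
  have sk : Summable (fun k : ℕ => (1 / 2 : ℝ) ^ k) :=
    summable_geometric_of_lt_one (by norm_num) (by norm_num)
  have pk : (0 : ℕ → ℝ) ≤ fun k => (1 / 2 : ℝ) ^ k := fun k => by positivity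
  have s4 : Summable (fun x : ℕ × ℤ × ℤ × ℤ × ℤ =>
      (1 / 2 : ℝ) ^ x.1 * (ph x.2.1 * (ph x.2.2.1 * (ph x.2.2.2.1 * ph x.2.2.2.2)))) :=
    sk.mul_of_nonneg s3 pk p3
  have p4 : (0 : ℕ × ℤ × ℤ × ℤ × ℤ → ℝ) ≤ fun x =>
      (1 / 2 : ℝ) ^ x.1 * (ph x.2.1 * (ph x.2.2.1 * (ph x.2.2.2.1 * ph x.2.2.2.2))) :=
    fun x => mul_nonneg (pk _) (p3 _)
  have sb : Summable (fun _ : Bool => (1 : ℝ)) := (hasSum_fintype _).summable
  exact sb.mul_of_nonneg s4 (fun _ => zero_le_one) p4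

theorem tsum_Wt_pos : 0 < ∑' l, Wt l :=
  summable_Wt.tsum_pos (fun l => (Wt_pos l).le) (false, 0, 0, 0, 0, 0) (Wt_pos _)

/-- the logarithm of the weight -/
theorem neg_log_Wt (l : Lb) : -log (Wt l) = l.2.1 * log 2 + (2 * log (|(l.2.2.1 : ℝ)| + 1) +
    (2 * log (|(l.2.2.2.1 : ℝ)| + 1) + (2 * log (|(l.2.2.2.2.1 : ℝ)| + 1) +
      2 * log (|(l.2.2.2.2.2 : ℝ)| + 1)))) := by
  have h1 := ph_pos l.2.2.1
  have h2 := ph_pos l.2.2.2.1
  have h3 := ph_pos l.2.2.2.2.1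
  have h4 := ph_pos l.2.2.2.2.2
  have hl : ∀ a : ℤ, log (ph a) = -(2 * log (|(a : ℝ)| + 1)) := by
    intro a
    unfold ph
    rw [one_div, Real.log_inv, Real.log_pow]
    push_cast
    rfl
  unfold Wt
  rw [one_mul, Real.log_mul (by positivity) (by positivity),
    Real.log_mul h1.ne' (by positivity), Real.log_mul h2.ne' (by positivity),
    Real.log_mul h3.ne' h4.ne', hl, hl, hl, hl, Real.log_pow, one_div, Real.log_inv]
  ring

theorem log_abs_nonneg (a : ℤ) : 0 ≤ 2 * log (|(a : ℝ)| + 1) := by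
  have : 0 ≤ log (|(a : ℝ)| + 1) := Real.log_nonneg (by linarith [abs_nonneg (a : ℝ)])
  linarith

theorem neg_log_Wt_nonneg (l : Lb) : 0 ≤ -log (Wt l) := by
  rw [neg_log_Wt]
  have h1 := log_abs_nonneg l.2.2.1
  have h2 := log_abs_nonneg l.2.2.2.1
  have h3 := log_abs_nonneg l.2.2.2.2.1
  have h4 := log_abs_nonneg l.2.2.2.2.2
  have h5 : 0 ≤ (l.2.1 : ℝ) * log 2 := mul_nonneg (Nat.cast_nonneg _) (Real.log_nonneg one_le_two)
  linarith

theorem abs_floor_le (x : ℝ) : |((⌊x⌋ : ℤ) : ℝ)| ≤ |x| + 1 := by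
  have h1 := Int.floor_le x
  have h2 := Int.lt_floor_add_one x
  rw [abs_le]
  constructor
  · have := neg_abs_le x
    linarith
  · have := le_abs_self x
    linarith

theorem floor_eq_abs_lt {x y : ℝ} (h : ⌊x⌋ = ⌊y⌋) : |x - y| < 1 :=
  Int.abs_sub_lt_one_of_floor_eq_floor h

variable {h : ℝ → ℝ} {K lam : ℝ} {N2 : ℕ} {A : Set (ℝ × ℝ)} {v w : ℝ × ℝ → ℝ × ℝ}

/-- points of the phase space are bounded -/
theorem X0_bound (hh : IsTab h) {z : ℝ × ℝ} (hz : z ∈ X0 h) : |z.1| ≤ 32 ∧ |z.2| ≤ 32 := by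
  obtain ⟨hd, h0, h1⟩ := hz
  obtain ⟨h2, h3⟩ : Th h z.1 < z.2 ∧ z.2 < Th h z.1 + π := hd
  have h4 := abs_le.1 (Th_near hh z.1)
  have h5 := Real.pi_le_four
  have h6 := Real.pi_pos
  constructor
  · rw [abs_le]
    constructor <;> linarith
  · rw [abs_le]
    constructor <;> linarith [h4.1, h4.2]

/-- the logarithm of the size -/
noncomputable def ell (C1 K : ℝ) (h : ℝ → ℝ) (N2 : ℕ) (A : Set (ℝ × ℝ)) : ℝ × ℝ → ℝ :=
  A.indicator (fun z => log (1 / rho C1 K h N2 A z))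

/-- the scale -/
noncomputable def kk (C1 K : ℝ) (h : ℝ → ℝ) (N2 : ℕ) (A : Set (ℝ × ℝ)) (z : ℝ × ℝ) : ℕ :=
  ⌈(ell C1 K h N2 A z + log (16 * K)) / log 2⌉₊

open Classical in
/-- the label -/
noncomputable def labf (C1 K : ℝ) (h : ℝ → ℝ) (N2 : ℕ) (A : Set (ℝ × ℝ)) (v : ℝ × ℝ → ℝ × ℝ)
    (z : ℝ × ℝ) : Lb :=
  if z ∈ A then (true, kk C1 K h N2 A z, ⌊(2 : ℝ) ^ kk C1 K h N2 A z * z.1⌋,
    ⌊(2 : ℝ) ^ kk C1 K h N2 A z * z.2⌋, ⌊8 * K * (v z).1⌋, ⌊8 * K * (v z).2⌋)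
  else (false, 0, 0, 0, 0, 0)

theorem labf_of_mem {C1 : ℝ} {z : ℝ × ℝ} (hz : z ∈ A) : labf C1 K h N2 A v z =
    (true, kk C1 K h N2 A z, ⌊(2 : ℝ) ^ kk C1 K h N2 A z * z.1⌋,
      ⌊(2 : ℝ) ^ kk C1 K h N2 A z * z.2⌋, ⌊8 * K * (v z).1⌋, ⌊8 * K * (v z).2⌋) := by
  unfold labf
  rw [if_pos hz]

theorem same_label {C1 : ℝ} {z z' : ℝ × ℝ} (hz : z ∈ A) (hz' : z' ∈ A)
    (hl : labf C1 K h N2 A v z' = labf C1 K h N2 A v z) :
    kk C1 K h N2 A z' = kk C1 K h N2 A z ∧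
    ⌊(2 : ℝ) ^ kk C1 K h N2 A z' * z'.1⌋ = ⌊(2 : ℝ) ^ kk C1 K h N2 A z * z.1⌋ ∧
    ⌊(2 : ℝ) ^ kk C1 K h N2 A z' * z'.2⌋ = ⌊(2 : ℝ) ^ kk C1 K h N2 A z * z.2⌋ ∧
    ⌊8 * K * (v z').1⌋ = ⌊8 * K * (v z).1⌋ ∧ ⌊8 * K * (v z').2⌋ = ⌊8 * K * (v z).2⌋ := by
  rw [labf_of_mem hz', labf_of_mem hz] at hl
  simp only [Prod.mk.injEq] at hl
  exact hl.2

theorem ell_nonneg (H : HypP h K lam N2 A v w) {C1 : ℝ} (hC1 : 4 ≤ C1) (z : ℝ × ℝ) :
    0 ≤ ell C1 K h N2 A z := by
  unfold ell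
  by_cases hz : z ∈ A
  · rw [Set.indicator_of_mem hz]
    obtain ⟨h1, h2⟩ := (integrable_log_rho H hC1).1 z hz
    exact Real.log_nonneg ((one_le_div h1).2 h2)
  · rw [Set.indicator_of_notMem hz]

theorem two_pow_kk (H : HypP h K lam N2 A v w) {C1 : ℝ} (hC1 : 4 ≤ C1) {z : ℝ × ℝ} (hz : z ∈ A) :
    ((2 : ℝ) ^ kk C1 K h N2 A z)⁻¹ ≤ rho C1 K h N2 A z / (16 * K) := by
  obtain ⟨h1, h2⟩ := (integrable_log_rho H hC1).1 z hz
  have hK : 0 < 16 * K := by linarith [H.hK]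
  have hlog2 : 0 < log 2 := Real.log_pos one_lt_two
  have h3 : (ell C1 K h N2 A z + log (16 * K)) / log 2 ≤ (kk C1 K h N2 A z : ℝ) := Nat.le_ceil _
  rw [div_le_iff₀ hlog2] at h3
  have h4 : ell C1 K h N2 A z = log (1 / rho C1 K h N2 A z) := by
    unfold ell
    rw [Set.indicator_of_mem hz]
  rw [h4, ← Real.log_mul (by positivity) hK.ne', ← Real.log_pow] at h3
  have h5 := (Real.log_le_log_iff (by positivity) (by positivity)).1 h3
  rw [inv_le_comm₀ (by positivity) (by positivity)]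
  refine le_trans (le_of_eq ?_) h5
  field_simp

theorem kk_le (H : HypP h K lam N2 A v w) {C1 : ℝ} (hC1 : 4 ≤ C1) (z : ℝ × ℝ) :
    (kk C1 K h N2 A z : ℝ) * log 2 ≤ ell C1 K h N2 A z + log (16 * K) + log 2 := by
  have hlog2 : 0 < log 2 := Real.log_pos one_lt_two
  have h0 := ell_nonneg H hC1 z
  have hK : 0 ≤ log (16 * K) := Real.log_nonneg (by linarith [H.hK])
  have h1 : (kk C1 K h N2 A z : ℝ) < (ell C1 K h N2 A z + log (16 * K)) / log 2 + 1 :=
    Nat.ceil_lt_add_one (by positivity)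
  have h2 := mul_le_mul_of_nonneg_right h1.le hlog2.le
  have h3 : ((ell C1 K h N2 A z + log (16 * K)) / log 2 + 1) * log 2
      = ell C1 K h N2 A z + log (16 * K) + log 2 := by
    field_simp
  linarith

theorem measurable_kk (H : HypP h K lam N2 A v w) {C1 : ℝ} (hC1 : 4 ≤ C1) :
    Measurable (kk C1 K h N2 A) := by
  unfold kk
  exact Nat.measurable_ceil.comp
    (((integrable_log_rho H hC1).2.1.add_const _).div_const _)

theorem measurable_labf (H : HypP h K lam N2 A v w) {C1 : ℝ} (hC1 : 4 ≤ C1) :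
    Measurable (labf C1 K h N2 A v) := by
  unfold labf
  refine Measurable.ite H.meas_A ?_ measurable_const
  have hk := measurable_kk H hC1
  have hp : Measurable (fun z => (2 : ℝ) ^ kk C1 K h N2 A z) := measurable_const.pow hk
  refine measurable_const.prodMk (hk.prodMk (Measurable.prodMk ?_ (Measurable.prodMk ?_
    (Measurable.prodMk ?_ ?_))))
  · exact Int.measurable_floor.comp (hp.mul measurable_fst)
  · exact Int.measurable_floor.comp (hp.mul measurable_snd)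
  · exact Int.measurable_floor.comp (measurable_const.mul (measurable_fst.comp H.meas_v))
  · exact Int.measurable_floor.comp (measurable_const.mul (measurable_snd.comp H.meas_v))

theorem labf_mem_iff {C1 : ℝ} {z : ℝ × ℝ} : z ∈ A ↔ (labf C1 K h N2 A v z).1 = true := by
  unfold labf
  by_cases hz : z ∈ A
  · rw [if_pos hz]
    exact ⟨fun _ => rfl, fun _ => hz⟩
  · rw [if_neg hz]
    exact ⟨fun h => absurd h hz, fun h => absurd h (by decide)⟩

theorem norm_sub_le_of {a b : ℝ × ℝ} {m : ℝ} (hm : 0 < m) (h1 : ⌊m * a.1⌋ = ⌊m * b.1⌋)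
    (h2 : ⌊m * a.2⌋ = ⌊m * b.2⌋) : ‖a - b‖ ≤ m⁻¹ := by
  have k1 := floor_eq_abs_lt h1
  have k2 := floor_eq_abs_lt h2
  rw [← mul_sub, abs_mul, abs_of_pos hm] at k1 k2
  rw [Prod.norm_def]
  refine max_le ?_ ?_
  · rw [Prod.fst_sub, Real.norm_eq_abs, ← one_div, le_div_iff₀ hm]
    linarith
  · rw [Prod.snd_sub, Real.norm_eq_abs, ← one_div, le_div_iff₀ hm]
    linarith

open Classical in
/-- direction of a label -/
noncomputable def dirf (C1 K : ℝ) (h : ℝ → ℝ) (N2 : ℕ) (A : Set (ℝ × ℝ)) (v : ℝ × ℝ → ℝ × ℝ)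
    (l : Lb) : ℝ × ℝ :=
  if hx : ∃ z, z ∈ A ∧ labf C1 K h N2 A v z = l then v hx.choose else (1, 0)

theorem neg_log_le (H : HypP h K lam N2 A v w) {C1 : ℝ} (hC1 : 4 ≤ C1) (z : ℝ × ℝ) :
    -log (Wt (labf C1 K h N2 A v z)) ≤ 5 * (ell C1 K h N2 A z + log (16 * K) + log 2) +
      4 * log 34 + 4 * log (8 * K + 2) := by
  have h0 := ell_nonneg H hC1 z
  have hK : 0 ≤ log (16 * K) := Real.log_nonneg (by linarith [H.hK])
  have hlog2 : 0 ≤ log 2 := Real.log_nonneg one_le_two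
  have h34 : (0 : ℝ) ≤ log 34 := Real.log_nonneg (by norm_num)
  have h8 : 0 ≤ log (8 * K + 2) := Real.log_nonneg (by linarith [H.hK])
  by_cases hz : z ∈ A
  · have hX := X0_bound H.hh (H.sub hz)
    have hkk := kk_le H hC1 z
    set k := kk C1 K h N2 A z with hk
    have hk1 : (1 : ℝ) ≤ 2 ^ k := one_le_pow₀ one_le_two
    have hbox : ∀ x : ℝ, |x| ≤ 32 →
        log (|((⌊(2 : ℝ) ^ k * x⌋ : ℤ) : ℝ)| + 1) ≤ log 34 + k * log 2 := by
      intro x hx
      rw [← Real.log_pow, ← Real.log_mul (by norm_num) (by positivity)]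
      refine Real.log_le_log (by positivity) ?_
      have h1 := abs_floor_le ((2 : ℝ) ^ k * x)
      rw [abs_mul, abs_of_pos (by positivity : (0 : ℝ) < 2 ^ k)] at h1
      have h2 : (2 : ℝ) ^ k * |x| ≤ 2 ^ k * 32 := mul_le_mul_of_nonneg_left hx (by positivity)
      linarith
    have hdir : ∀ x : ℝ, |x| ≤ 1 →
        log (|((⌊8 * K * x⌋ : ℤ) : ℝ)| + 1) ≤ log (8 * K + 2) := by
      intro x hx
      refine Real.log_le_log (by positivity) ?_
      have h1 := abs_floor_le (8 * K * x)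
      have hK8 : (0 : ℝ) < 8 * K := by linarith [H.hK]
      rw [abs_mul, abs_of_pos hK8] at h1
      have h2 : 8 * K * |x| ≤ 8 * K * 1 := mul_le_mul_of_nonneg_left hx hK8.le
      linarith
    have hv := H.norm_v z hz
    have hv1 : |(v z).1| ≤ 1 := by
      have := norm_fst_le (v z)
      rw [Real.norm_eq_abs] at this
      linarith
    have hv2 : |(v z).2| ≤ 1 := by
      have := norm_snd_le (v z)
      rw [Real.norm_eq_abs] at this
      linarith
    have e : labf C1 K h N2 A v z = (true, k, ⌊(2 : ℝ) ^ k * z.1⌋,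
        ⌊(2 : ℝ) ^ k * z.2⌋, ⌊8 * K * (v z).1⌋, ⌊8 * K * (v z).2⌋) := by
      unfold labf
      rw [if_pos hz]
    rw [e, neg_log_Wt]
    simp only
    have b1 := hbox z.1 hX.1
    have b2 := hbox z.2 hX.2
    have b3 := hdir _ hv1
    have b4 := hdir _ hv2
    linarith
  · have e : labf C1 K h N2 A v z = (false, 0, 0, 0, 0, 0) := by
      unfold labf
      rw [if_neg hz]
    rw [e, neg_log_Wt]
    simp only [Nat.cast_zero, zero_mul, Int.cast_zero, abs_zero, zero_add, Real.log_one, mul_zero]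
    linarith

end P11_aux

open P11_aux

/-- (P4) the countable partition -/
theorem exists_labels {h : ℝ → ℝ} {K lam : ℝ} {N2 : ℕ} {A : Set (ℝ × ℝ)}
    {v w : ℝ × ℝ → ℝ × ℝ} (H : HypP h K lam N2 A v w) {C1 : ℝ} (hC1 : 4 ≤ C1) :
    ∃ (lab : ℝ × ℝ → Lb) (wt : Lb → ℝ) (dir : Lb → ℝ × ℝ),
      Measurable lab ∧ (∀ l, 0 ≤ wt l) ∧ Summable wt ∧ ∑' l, wt l ≤ 1 ∧ (∀ z, 0 < wt (lab z)) ∧
      Integrable (fun z => log (1 / wt (lab z))) (mu h) ∧
      (∀ z z', lab z' = lab z → (z ∈ A ↔ z' ∈ A)) ∧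
      (∀ z ∈ A, dir (lab z) ≠ 0 ∧ ‖dir (lab z) - v z‖ ≤ 1 / (8 * K)) ∧
      (∀ z ∈ A, ∀ z', lab z' = lab z →
        ‖z' - z‖ ≤ rho C1 K h N2 A z / (16 * K) ∧ ‖z' - z‖ ≤ 1) := by
  have hS := tsum_Wt_pos
  have hlab := measurable_labf (v := v) H hC1
  refine ⟨labf C1 K h N2 A v, fun l => Wt l / ∑' l, Wt l, dirf C1 K h N2 A v, hlab,
    fun l => (div_pos (Wt_pos l) hS).le, summable_Wt.div_const _, ?_,
    fun z => div_pos (Wt_pos _) hS, ?_, ?_, ?_, ?_⟩
  · rw [tsum_div_const, div_self hS.ne']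
  · haveI : IsFiniteMeasure (mu h) :=
      ⟨lt_of_le_of_lt (mu_univ_le H.hh) ENNReal.ofReal_lt_top⟩
    have hint := (integrable_log_rho H hC1).2.2
    have hbd : Integrable (fun z => |log (∑' l, Wt l)| +
        (5 * (ell C1 K h N2 A z + log (16 * K) + log 2) + 4 * log 34 + 4 * log (8 * K + 2)))
        (mu h) := by
      refine (integrable_const _).add ?_
      refine Integrable.add (Integrable.add ?_ (integrable_const _)) (integrable_const _)
      refine Integrable.const_mul ?_ _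
      exact ((show Integrable (ell C1 K h N2 A) (mu h) from hint).add (integrable_const _)).add
        (integrable_const _)
    refine hbd.mono' ?_ (Filter.Eventually.of_forall (fun z => ?_))
    · have hw : Measurable (fun l : Lb => log (1 / (Wt l / ∑' l, Wt l))) := measurable_of_countable _
      exact (hw.comp hlab).aestronglyMeasurable
    · have h1 := neg_log_le (v := v) H hC1 z
      have h2 := neg_log_Wt_nonneg (labf C1 K h N2 A v z)
      have h3 : log (1 / (Wt (labf C1 K h N2 A v z) / ∑' l, Wt l))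
          = log (∑' l, Wt l) + -log (Wt (labf C1 K h N2 A v z)) := by
        rw [one_div, Real.log_inv, Real.log_div (Wt_pos _).ne' hS.ne']
        ring
      rw [Real.norm_eq_abs, h3]
      refine (abs_add_le _ _).trans ?_
      rw [abs_of_nonneg h2]
      linarith
  · intro z z' hzz
    rw [labf_mem_iff (K := K) (h := h) (N2 := N2) (v := v) (C1 := C1) (z := z),
      labf_mem_iff (K := K) (h := h) (N2 := N2) (v := v) (C1 := C1) (z := z'), hzz]
  · intro z hz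
    have hx : ∃ z0, z0 ∈ A ∧ labf C1 K h N2 A v z0 = labf C1 K h N2 A v z := ⟨z, hz, rfl⟩
    have e : dirf C1 K h N2 A v (labf C1 K h N2 A v z) = v hx.choose := by
      unfold dirf
      rw [dif_pos hx]
    obtain ⟨hz0, hl0⟩ := hx.choose_spec
    have hK8 : (0 : ℝ) < 8 * K := by linarith [H.hK]
    rw [e]
    refine ⟨?_, ?_⟩
    · intro h0
      have h1 := H.norm_v' _ hz0
      rw [h0, norm_zero] at h1
      have : 0 < 1 / K := by
        have := H.hK
        positivity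
      linarith
    · have hl1 := same_label hz hz0 hl0
      have := norm_sub_le_of hK8 hl1.2.2.2.1 hl1.2.2.2.2
      rw [one_div]
      exact this
  · intro z hz z' hzz
    have hz' : z' ∈ A := by
      rw [labf_mem_iff (K := K) (h := h) (N2 := N2) (v := v) (C1 := C1) (z := z'), hzz]
      exact labf_mem_iff.1 hz
    obtain ⟨hk, h1, h2, -, -⟩ := same_label hz hz' hzz
    rw [hk] at h1 h2
    have hp : (0 : ℝ) < 2 ^ kk C1 K h N2 A z := by positivity
    have h3 := norm_sub_le_of hp h1 h2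
    refine ⟨h3.trans (two_pow_kk H hC1 hz), h3.trans ?_⟩
    exact inv_le_one_of_one_le₀ (one_le_pow₀ one_le_two)

end BilEnt
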