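import Pool.Agent.BilEnt.Defs
import Pool.Agent.BilEnt.P11
import Pool.Agent.BilEnt.P09
import Pool.Agent.BilEnt.P03
import Pool.Agent.BilEnt.G12

/-!
# MP_bd32bb_an, part P, module P12 (doc proof/MP_bd32bb_an_entropy, section 10)

HINT. Normalise `ν = (mu h univ)⁻¹ • mu h`, `S = (Tm h)^[N2]`.  For `z ∈ A` with a visit at `t`, `n ≤ 2t`, `t < n`: the cylinder `cyl S lab n z` is measurable, of diameter `≤ 1`, and its sections in direction `e = dir (lab z)` have
diameter `≤ 2 exp(-lam t)`: `cone_near` gives `|cb e| ≤ |ca e|` hence the same for `z'-z = s•e`, then `same_itinerary`.  `area_of_sections`, `pw ≤ 1.02`: `mu h (cyl) ≤ 10 exp(-lam n/2)`.  `late_visit` (mass `≥ mu A/2`), `finite_of_countable` with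
`κ = lam/2`, then `KS_pos_of_growth`.  Measurability of the set of `x` with small cylinder measure: `ν (cyl ..)` only depends on the word, countably many words.
-/

open MeasureTheory Real
open scoped ENNReal

namespace BilEnt

private theorem p12_invSys {h : ℝ → ℝ} (hh : IsTab h) (N2 : ℕ) :
    InvSys (mu h) ((Tm h)^[N2]) ((Tmi h)^[N2]) where
  mp := (mp_Tm hh).iterate N2
  mpi := (mp_Tmi hh).iterate N2
  left := fun x => (Function.LeftInverse.iterate (g := Tmi h) (f := Tm h)
    (fun y => Tmi_Tm hh y) N2) x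
  right := fun x => (Function.LeftInverse.iterate (g := Tm h) (f := Tmi h)
    (fun y => Tm_Tmi hh y) N2) x

private theorem p12_pw_le {h : ℝ → ℝ} (hh : IsTab h) (z : ℝ × ℝ) : pw h z ≤ 102 / 100 := by
  have h1 := sp_bounds hh z.1
  have h2 : stt h z ≤ 1 := Real.sin_le_one _
  have h3 : pw h z = sp h z.1 * stt h z := rfl
  rw [h3]
  calc sp h z.1 * stt h z ≤ sp h z.1 * 1 := by
        apply mul_le_mul_of_nonneg_left h2; linarith [h1.1]
    _ ≤ 102 / 100 := by linarith [h1.2]

private theorem p12_mu_le {h : ℝ → ℝ} (hh : IsTab h) {R : Set (ℝ × ℝ)} (hR : MeasurableSet R) :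
    mu h R ≤ ENNReal.ofReal (102 / 100) * volume R := by
  rw [mu_apply hh hR]
  calc ∫⁻ z in R ∩ X0 h, ENNReal.ofReal (pw h z)
      ≤ ∫⁻ _z in R ∩ X0 h, ENNReal.ofReal (102 / 100) := by
        apply lintegral_mono
        intro z
        exact ENNReal.ofReal_le_ofReal (p12_pw_le hh z)
    _ = ENNReal.ofReal (102 / 100) * volume (R ∩ X0 h) := by
        rw [setLIntegral_const]
    _ ≤ ENNReal.ofReal (102 / 100) * volume R := by
        gcongr
        exact Set.inter_subset_left

private theorem p12_meas_cyl {X L : Type*} [MeasurableSpace X] [MeasurableSpace L]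
    [MeasurableSingletonClass L] {S : X → X} (hS : Measurable S) {lab : X → L}
    (hlab : Measurable lab) (n : ℕ) (x : X) : MeasurableSet (cyl S lab n x) := by
  have : cyl S lab n x =
      ⋂ i ∈ Finset.range n, (fun x' => lab (S^[i] x')) ⁻¹' {lab (S^[i] x)} := by
    ext x'
    simp [cyl]
  rw [this]
  apply Finset.measurableSet_biInter
  intro i _
  exact (hlab.comp (hS.iterate i)) (measurableSet_singleton _)

private theorem p12_ca_smul (V W e : ℝ × ℝ) (s : ℝ) : ca V W (s • e) = s * ca V W e := by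
  simp only [ca, det2, Prod.smul_fst, Prod.smul_snd, smul_eq_mul]
  ring

private theorem p12_cb_smul (V W e : ℝ × ℝ) (s : ℝ) : cb V W (s • e) = s * cb V W e := by
  simp only [cb, det2, Prod.smul_fst, Prod.smul_snd, smul_eq_mul]
  ring

/-- part P for the chosen power -/
theorem KS_pos_of_HypP {h : ℝ → ℝ} {K lam : ℝ} {N2 : ℕ} {A : Set (ℝ × ℝ)}
    {v w : ℝ × ℝ → ℝ × ℝ} (H : HypP h K lam N2 A v w) :
    0 < KS ((mu h Set.univ)⁻¹ • mu h) (Tm h) := by
  have hh := H.hh
  obtain ⟨C1, hC1, hsame⟩ := same_itinerary H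
  obtain ⟨lab, wt, dir, hlab, hw0, hws, hw1, hwpos, hint, hAiff, hdir, hclose⟩ :=
    exists_labels H hC1
  -- finiteness and positivity of the total mass
  have hfin : mu h Set.univ ≠ ∞ :=
    ne_top_of_le_ne_top ENNReal.ofReal_ne_top (mu_univ_le hh)
  have : IsFiniteMeasure (mu h) := ⟨lt_of_le_of_ne le_top hfin⟩
  have hposu : 0 < mu h Set.univ := lt_of_lt_of_le H.pos (measure_mono (Set.subset_univ _))
  have hne : mu h Set.univ ≠ 0 := hposu.ne'
  set m0 : ℝ≥0∞ := mu h Set.univ with hm0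
  set ν : Measure (ℝ × ℝ) := m0⁻¹ • mu h with hν
  have hprob : IsProbabilityMeasure ν := by
    constructor
    simp only [hν, Measure.smul_apply, smul_eq_mul]
    exact ENNReal.inv_mul_cancel hne hfin
  have hinvne : m0⁻¹ ≠ ∞ := ENNReal.inv_ne_top.mpr hne
  have hinvne0 : m0⁻¹ ≠ 0 := ENNReal.inv_ne_zero.mpr hfin
  set S : ℝ × ℝ → ℝ × ℝ := (Tm h)^[N2] with hSdef
  have hInv : InvSys (mu h) S ((Tmi h)^[N2]) := p12_invSys hh N2
  have hSmeas : Measurable S := hInv.mp.measurable
  have hSν : MeasurePreserving S ν ν := hInv.mp.smul_measure _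
  -- measure of a cylinder
  have hcyl : ∀ z ∈ A, ∀ n t : ℕ, n ≤ 2 * t → t < n → S^[t] z ∈ A →
      mu h (cyl S lab n z) ≤ ENNReal.ofReal (10 * exp (-(lam / 2) * n)) := by
    intro z hz n t hnt htn htA
    have hn0 : 0 < n := lt_of_le_of_lt (Nat.zero_le t) htn
    have hmeas : MeasurableSet (cyl S lab n z) := p12_meas_cyl hSmeas hlab n z
    have hlab0 : ∀ z1 ∈ cyl S lab n z, lab z1 = lab z := by
      intro z1 h1
      have := h1 0 hn0
      simpa using this
    have hmemA : ∀ z1 ∈ cyl S lab n z, z1 ∈ A := by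
      intro z1 h1
      exact (hAiff z z1 (hlab0 z1 h1)).1 hz
    have hvol : volume (cyl S lab n z) ≤ ENNReal.ofReal (4 * (2 * exp (-(lam * t)))) := by
      refine area_of_sections hmeas (hdir z hz).1 (by positivity) ?_ ?_
      · intro z1 h1 z2 h2
        exact (hclose z1 (hmemA z1 h1) z2 ((hlab0 z2 h2).trans (hlab0 z1 h1).symm)).2
      · intro z1 h1 z2 h2 hs
        obtain ⟨s, hs⟩ := hs
        have hz1 := hmemA z1 h1
        have hz2 := hmemA z2 h2
        have hdn : ‖dir (lab z) - v z1‖ ≤ 1 / (8 * K) := by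
          have := (hdir z1 hz1).2
          rwa [hlab0 z1 h1] at this
        have hcone := (cone_near H.hK (H.norm_v z1 hz1) (H.norm_w z1 hz1) (H.det z1 hz1) hdn).1
        have hcone' : |cb (v z1) (w z1) (z2 - z1)| ≤ |ca (v z1) (w z1) (z2 - z1)| := by
          rw [hs, p12_ca_smul, p12_cb_smul, abs_mul, abs_mul]
          exact mul_le_mul_of_nonneg_left hcone (abs_nonneg s)
        refine hsame z1 z2 hz1 hz2 hcone' n ?_ t htn ?_
        · intro k hk
          have hlk : lab (S^[k] z2) = lab (S^[k] z1) := (h2 k hk).trans (h1 k hk).symm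
          refine ⟨hAiff _ _ hlk, fun hkA => (hclose _ hkA _ hlk).1⟩
        · exact (hAiff _ _ (h1 t htn)).1 htA
    calc mu h (cyl S lab n z) ≤ ENNReal.ofReal (102 / 100) * volume (cyl S lab n z) :=
          p12_mu_le hh hmeas
      _ ≤ ENNReal.ofReal (102 / 100) * ENNReal.ofReal (4 * (2 * exp (-(lam * t)))) := by
          gcongr
      _ = ENNReal.ofReal (102 / 100 * (4 * (2 * exp (-(lam * t))))) := by
          rw [← ENNReal.ofReal_mul (by norm_num)]
      _ ≤ ENNReal.ofReal (10 * exp (-(lam / 2) * n)) := by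
          apply ENNReal.ofReal_le_ofReal
          have hexp : exp (-(lam * t)) ≤ exp (-(lam / 2) * n) := by
            apply Real.exp_le_exp.mpr
            have hnt' : (n : ℝ) ≤ 2 * t := by exact_mod_cast hnt
            have := H.lam_pos
            nlinarith
          have hpos := Real.exp_pos (-(lam * (t : ℝ)))
          nlinarith
  -- late visits
  obtain ⟨n1, hn1⟩ := late_visit hInv H.meas_A H.pos
  -- the constants
  have hm0pos : 0 < m0.toReal := ENNReal.toReal_pos hne hfin
  set C : ℝ := 10 / m0.toReal with hCdef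
  have hCpos : 0 < C := by positivity
  have hkap : 0 < lam / 2 := by linarith [H.lam_pos]
  have hAfin : mu h A ≠ ∞ := measure_ne_top _ _
  have hm1ne : m0⁻¹ * (mu h A / 2) ≠ ∞ :=
    ENNReal.mul_ne_top hinvne (ENNReal.div_ne_top hAfin (by norm_num))
  have hm1ne0 : m0⁻¹ * (mu h A / 2) ≠ 0 := by
    refine mul_ne_zero hinvne0 ?_
    rw [Ne, ENNReal.div_eq_zero_iff, not_or]
    exact ⟨H.pos.ne', by norm_num⟩
  set m1 : ℝ := (m0⁻¹ * (mu h A / 2)).toReal with hm1
  have hm1pos : 0 < m1 := ENNReal.toReal_pos hm1ne0 hm1ne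
  have hintν : Integrable (fun x => log (1 / wt (lab x))) ν := hint.smul_measure hinvne
  obtain ⟨m, ξ, hξ, c, hc, n2, hgrow⟩ := finite_of_countable (ν := ν) hSν hlab hw0 hws hw1 hwpos
    hintν hCpos hkap hm1pos (n1 := n1) (by
      intro n hn
      have hsub : {x | x ∈ A ∧ ∃ t, n ≤ 2 * t ∧ t < n ∧ S^[t] x ∈ A} ⊆
          {x | ν (cyl S lab n x) ≤ ENNReal.ofReal (C * exp (-(lam / 2) * n))} := by
        rintro x ⟨hxA, t, hnt, htn, htA⟩
        have h1 := hcyl x hxA n t hnt htn htA
        simp only [Set.mem_ofPred_eq, hν, Measure.smul_apply, smul_eq_mul]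
        calc m0⁻¹ * mu h (cyl S lab n x)
            ≤ m0⁻¹ * ENNReal.ofReal (10 * exp (-(lam / 2) * n)) := by gcongr
          _ = ENNReal.ofReal (m0.toReal)⁻¹ * ENNReal.ofReal (10 * exp (-(lam / 2) * n)) := by
              rw [ENNReal.ofReal_inv_of_pos hm0pos, ENNReal.ofReal_toReal hfin]
          _ = ENNReal.ofReal (C * exp (-(lam / 2) * n)) := by
              rw [← ENNReal.ofReal_mul (by positivity)]
              congr 1
              rw [hCdef]; ring
      calc ENNReal.ofReal m1 = m0⁻¹ * (mu h A / 2) := by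
            rw [hm1, ENNReal.ofReal_toReal hm1ne]
        _ ≤ m0⁻¹ * mu h {x | x ∈ A ∧ ∃ t, n ≤ 2 * t ∧ t < n ∧ S^[t] x ∈ A} := by
            gcongr
            exact hn1 n hn
        _ = ν {x | x ∈ A ∧ ∃ t, n ≤ 2 * t ∧ t < n ∧ S^[t] x ∈ A} := by
            simp only [hν, Measure.smul_apply, smul_eq_mul]
        _ ≤ _ := measure_mono hsub)
  exact KS_pos_of_growth (measurable_Tm hh) hξ H.N2_pos hc hgrow

end BilEnt
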