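import Pool.Agent.BilEnt.Defs
import Pool.Agent.BilEnt.P12
import Pool.Agent.BilEnt.G12

/-!
# MP_bd32bb_an, part P, module P13 (doc proof/MP_bd32bb_an_entropy, section 10)

HINT. Choose `N2` with `K⁻¹ e^{λ l} ≥ 2 e^{λ l/2}` and `K e^{-λ l} ≤ 1/2` for all `l ≥ N2` (`N2 ≥ (2/λ) log(2K)`); `lam' = λ N2/2`; `((Tm h)^[N2])^[k] = (Tm h)^[N2*k]`.  Norms: rescale `K` if needed.
-/

open MeasureTheory Real
open scoped ENNReal

namespace BilEnt

/-- PART P, final form: hypotheses (P0). -/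
theorem KS_pos {h : ℝ → ℝ} (hh : IsTab h) {K lam : ℝ} (hK : 1 ≤ K) (hol : Hol h K)
    (hlam : 0 < lam) {A : Set (ℝ × ℝ)} (hA : MeasurableSet A) (hsub : A ⊆ X0 h)
    (hpos : 0 < mu h A) {v w : ℝ × ℝ → ℝ × ℝ} (hv : Measurable v) (hw : Measurable w)
    (hvn : ∀ z ∈ A, 1 / K ≤ ‖v z‖ ∧ ‖v z‖ ≤ 1) (hwn : ∀ z ∈ A, ‖w z‖ ≤ 1)
    (hd : ∀ z ∈ A, 1 / K ≤ |det2 (v z) (w z)|)
    (hev : ∀ z ∈ A, ∀ l, 1 ≤ l → (Tm h)^[l] z ∈ A → ∃ c : ℝ,
      DFn h z l (v z) = c • v ((Tm h)^[l] z) ∧ K⁻¹ * exp (lam * l) ≤ |c|)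
    (hew : ∀ z ∈ A, ∀ l, 1 ≤ l → (Tm h)^[l] z ∈ A → ∃ c : ℝ,
      DFn h z l (w z) = c • w ((Tm h)^[l] z) ∧ |c| ≤ K * exp (-(lam * l))) :
    0 < KS ((mu h Set.univ)⁻¹ • mu h) (Tm h) := by
  have hK0 : 0 < K := lt_of_lt_of_le one_pos hK
  obtain ⟨N2, hN2⟩ := exists_nat_ge (max 1 (2 / lam * log (2 * K)))
  have hN1 : (1 : ℝ) ≤ N2 := (le_max_left _ _).trans hN2
  have hN1' : 1 ≤ N2 := by exact_mod_cast hN1
  have hNL : 2 / lam * log (2 * K) ≤ N2 := (le_max_right _ _).trans hN2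
  have hE : 2 * K ≤ exp (lam * N2 / 2) := by
    have h1 : log (2 * K) ≤ lam * N2 / 2 := by
      have h2 : log (2 * K) = lam / 2 * (2 / lam * log (2 * K)) := by
        field_simp
      rw [h2]
      have h3 := mul_le_mul_of_nonneg_left hNL (half_pos hlam).le
      linarith
    calc 2 * K = exp (log (2 * K)) := (exp_log (by positivity)).symm
      _ ≤ _ := exp_le_exp.2 h1
  have hEk : ∀ k : ℕ, 1 ≤ k → 2 * K ≤ exp (lam * N2 / 2 * k) := by
    intro k hk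
    refine hE.trans (exp_le_exp.2 ?_)
    have hk' : (1 : ℝ) ≤ k := by exact_mod_cast hk
    have h0 : 0 ≤ lam * N2 / 2 := by positivity
    nlinarith
  refine KS_pos_of_HypP (K := K) (lam := lam * N2 / 2) (N2 := N2) (A := A) (v := v) (w := w)
    { hh := hh
      hK := hK
      hol := hol
      lam_pos := by positivity
      N2_pos := hN1'
      meas_A := hA
      sub := hsub
      pos := hpos
      meas_v := hv
      meas_w := hw
      norm_v := fun z hz => (hvn z hz).2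
      norm_w := hwn
      norm_v' := fun z hz => (hvn z hz).1
      det := hd
      exp_v := ?_
      exp_w := ?_ }
  · intro z hz k hk hzk
    have hit : ((Tm h)^[N2])^[k] = (Tm h)^[N2 * k] := (Function.iterate_mul _ _ _).symm
    rw [hit] at hzk ⊢
    have hl : 1 ≤ N2 * k := Nat.mul_pos hN1' hk
    obtain ⟨c, h1, h2⟩ := hev z hz (N2 * k) hl hzk
    refine ⟨c, h1, le_trans ?_ h2⟩
    have h3 : exp (lam * ((N2 * k : ℕ) : ℝ)) = exp (lam * N2 / 2 * k) * exp (lam * N2 / 2 * k) := by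
      rw [← exp_add]
      congr 1
      push_cast
      ring
    rw [h3]
    have h4 : (2 : ℝ) ≤ K⁻¹ * exp (lam * N2 / 2 * k) := by
      rw [inv_mul_eq_div, le_div_iff₀ hK0]
      exact hEk k hk
    calc 2 * exp (lam * N2 / 2 * k) ≤ (K⁻¹ * exp (lam * N2 / 2 * k)) * exp (lam * N2 / 2 * k) :=
          mul_le_mul_of_nonneg_right h4 (exp_pos _).le
      _ = _ := by ring
  · intro z hz k hk hzk
    have hit : ((Tm h)^[N2])^[k] = (Tm h)^[N2 * k] := (Function.iterate_mul _ _ _).symm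
    rw [hit] at hzk ⊢
    have hl : 1 ≤ N2 * k := Nat.mul_pos hN1' hk
    obtain ⟨c, h1, h2⟩ := hew z hz (N2 * k) hl hzk
    refine ⟨c, h1, h2.trans ?_⟩
    have h3 : 2 * K ≤ exp (lam * ((N2 * k : ℕ) : ℝ)) := by
      refine (hEk k hk).trans (exp_le_exp.2 ?_)
      push_cast
      have : 0 ≤ lam * N2 * k := by positivity
      nlinarith
    rw [exp_neg, ← div_eq_mul_inv, div_le_iff₀ (exp_pos _)]
    linarith

end BilEnt
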