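import Pool.Agent.BilEnt.A00
import Pool.Agent.BilEnt.P13

/-!
# MP_bd32bb_an, application of part S, module A06: positive entropy from (P0) (helper75)
-/

open MeasureTheory Real
open scoped ENNReal

namespace BilEnt

namespace A06_aux

/-- sup norm of a Euclidean unit vector -/
theorem norm_le_one {v : ℝ × ℝ} (h : v.1 ^ 2 + v.2 ^ 2 = 1) : ‖v‖ ≤ 1 := by
  rw [Prod.norm_def, max_le_iff, Real.norm_eq_abs, Real.norm_eq_abs]
  exact ⟨abs_le_one_iff_mul_self_le_one.2 (by nlinarith [sq_nonneg v.2]),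
    abs_le_one_iff_mul_self_le_one.2 (by nlinarith [sq_nonneg v.1])⟩

theorem half_le_norm {v : ℝ × ℝ} (h : v.1 ^ 2 + v.2 ^ 2 = 1) : 1 / 2 ≤ ‖v‖ := by
  have h1 : |v.1| ≤ ‖v‖ := norm_fst_le v
  have h2 : |v.2| ≤ ‖v‖ := norm_snd_le v
  have h3 := sq_abs v.1
  have h4 := sq_abs v.2
  by_contra hc
  push Not at hc
  nlinarith [abs_nonneg v.1, abs_nonneg v.2, norm_nonneg v]

end A06_aux

open A06_aux in
theorem KS_pos_of_P0 {h : ℝ → ℝ} {lam K : ℝ} {A : Set (ℝ × ℝ)} {v w : ℝ × ℝ → ℝ × ℝ}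
    (hP : P0 h lam K A v w) (hh : IsTab h) {K0 : ℝ} (hol : Hol h K0) :
    0 < KS ((mu h Set.univ)⁻¹ • mu h) (Tm h) := by
  have hK := hP.one_le_K
  set K' : ℝ := max (2 * K) K0 with hK'
  have h2K : 2 * K ≤ K' := le_max_left _ _
  have hKK : K ≤ K' := by linarith
  have hK0 : 0 < K := by linarith
  have hK'0 : 0 < K' := by linarith
  have e1 : 1 / K' ≤ 1 / K := one_div_le_one_div_of_le hK0 hKK
  have e2 : 1 / K' ≤ 1 / 2 := one_div_le_one_div_of_le two_pos (by linarith)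
  have hol' : Hol h K' := fun u v => (hol u v).trans
    (mul_le_mul_of_nonneg_right (le_max_right _ _) (Real.rpow_nonneg (abs_nonneg _) _))
  refine KS_pos hh (K := K') (lam := lam) (by linarith) hol' hP.lam_pos hP.meas hP.sub hP.pos
    hP.mv hP.mw (fun z _ => ⟨e2.trans (half_le_norm (hP.nv z)), norm_le_one (hP.nv z)⟩)
    (fun z _ => norm_le_one (hP.nw z)) (fun z hz => ?_) (fun z hz l _ hl => ?_)
    (fun z hz l _ hl => ?_)
  · exact e1.trans (hP.wdg z hz)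
  · obtain ⟨c, hc, h1⟩ := hP.ex z hz l hl
    refine ⟨c, h1, le_trans ?_ hc⟩
    rw [← one_div, ← one_div]
    exact mul_le_mul_of_nonneg_right e1 (exp_pos _).le
  · obtain ⟨c, hc, h1⟩ := hP.co z hz l hl
    exact ⟨c, h1, hc.trans (mul_le_mul_of_nonneg_right hKK (exp_pos _).le)⟩

end BilEnt
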