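import Pool.Agent.BilEnt.Defs

/-!
# Part B, module BAvg: the averaging lemma (B2)

`Lf ε Y = (1/2) log (Y^2 + ε^2)`; the average of `Lf ε (U + V cos + W sin)` over a full period is at
least `(1/2) log ((V^2 + 4 ε^2)/4)`.
-/

open MeasureTheory

namespace BilEnt

theorem Lf_mono_eps {ε₁ ε₂ Y : ℝ} (h1 : 0 < ε₁) (h : ε₁ ≤ ε₂) : Lf ε₁ Y ≤ Lf ε₂ Y := by
  unfold Lf
  have : Real.log (Y ^ 2 + ε₁ ^ 2) ≤ Real.log (Y ^ 2 + ε₂ ^ 2) := by
    apply Real.log_le_log (by positivity)
    nlinarith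
  linarith

theorem Lf_ge_log_eps {ε : ℝ} (Y : ℝ) (h1 : 0 < ε) : Real.log ε ≤ Lf ε Y := by
  unfold Lf
  have : Real.log (ε ^ 2) ≤ Real.log (Y ^ 2 + ε ^ 2) := by
    apply Real.log_le_log (by positivity)
    nlinarith [sq_nonneg Y]
  rw [Real.log_pow] at this
  push_cast at this
  linarith

theorem Lf_ge_log {ε Y : ℝ} (hY : 0 < Y) : Real.log Y ≤ Lf ε Y := by
  unfold Lf
  have : Real.log (Y ^ 2) ≤ Real.log (Y ^ 2 + ε ^ 2) := by
    apply Real.log_le_log (by positivity)
    nlinarith [sq_nonneg ε]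
  rw [Real.log_pow] at this
  push_cast at this
  linarith

/-- Quadratic on the unit circle. -/
theorem circle_quad (β w : ℂ) (ε : ℝ) (hε : 0 < ε) (hw : w.im = ε) :
    Real.log (‖β‖ ^ 2 + ε ^ 2) / 2 ≤
      Real.circleAverage (fun z => Real.log ‖β * z ^ 2 + w * z + (starRingEnd ℂ) β‖) 0 1 := by
  have hw1 : ε ≤ ‖w‖ := by
    calc ε = w.im := hw.symm
      _ ≤ |w.im| := le_abs_self _
      _ ≤ ‖w‖ := Complex.abs_im_le_norm w
  rcases eq_or_ne β 0 with rfl | hβ
  · have h1 : Real.circleAverage (fun z => Real.log ‖(0:ℂ) * z ^ 2 + w * z + (starRingEnd ℂ) 0‖) 0 1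
        = Real.log ‖w‖ := by
      apply Real.circleAverage_const_on_circle
      intro z hz
      have hz1 : ‖z‖ = 1 := by simpa using hz
      simp [hz1]
    rw [h1]
    have h2 : Real.log (‖(0:ℂ)‖ ^ 2 + ε ^ 2) = 2 * Real.log ε := by
      simp
    rw [h2]
    have h3 := Real.log_le_log hε hw1
    linarith
  · have hβn : 0 < ‖β‖ := norm_pos_iff.mpr hβ
    have hcβ : (starRingEnd ℂ) β ≠ 0 := by simpa using hβ
    -- a root of norm at least 1
    have hroot : ∃ r : ℂ, β * (r * r) + w * r + (starRingEnd ℂ) β = 0 ∧ 1 ≤ ‖r‖ := by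
      obtain ⟨s, hs⟩ := IsAlgClosed.exists_eq_mul_self (discrim β w ((starRingEnd ℂ) β))
      obtain ⟨r0, hr0⟩ := exists_quadratic_eq_zero hβ ⟨s, hs⟩
      have hr0n : r0 ≠ 0 := by
        rintro rfl
        simp at hr0
        exact hβ hr0
      rcases le_or_gt 1 ‖r0‖ with h | h
      · exact ⟨r0, hr0, h⟩
      · refine ⟨(starRingEnd ℂ) β / (β * r0), ?_, ?_⟩
        · have hw0 : w = -(β * (r0 * r0) + (starRingEnd ℂ) β) / r0 := by
            field_simp
            linear_combination hr0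
          rw [hw0]
          field_simp
          ring
        · have hr0p : 0 < ‖r0‖ := norm_pos_iff.mpr hr0n
          rw [norm_div, norm_mul, RCLike.norm_conj, le_div_iff₀ (by positivity)]
          nlinarith
    obtain ⟨r, hr, hr1⟩ := hroot
    have hrp : 0 < ‖r‖ := by linarith
    have hrn : r ≠ 0 := norm_pos_iff.mp hrp
    set r2 : ℂ := (starRingEnd ℂ) β / (β * r) with hr2
    have hr2n : ‖r2‖ = 1 / ‖r‖ := by
      rw [hr2, norm_div, norm_mul, RCLike.norm_conj]
      field_simp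
    have hw0 : w = -(β * (r * r) + (starRingEnd ℂ) β) / r := by
      field_simp
      linear_combination hr
    have hfac : ∀ z : ℂ, β * z ^ 2 + w * z + (starRingEnd ℂ) β = β * ((z - r) * (z - r2)) := by
      intro z
      rw [hr2, hw0]
      field_simp
      ring
    -- imaginary part
    have hns : (‖r‖ ^ 2 : ℝ) = Complex.normSq r := (Complex.normSq_eq_norm_sq r).symm
    have hinv : (starRingEnd ℂ) β / r = (starRingEnd ℂ) (β * r) / ((‖r‖ ^ 2 : ℝ) : ℂ) := by
      rw [map_mul, hns, Complex.normSq_eq_conj_mul_self]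
      have : (starRingEnd ℂ) r ≠ 0 := by simpa using hrn
      field_simp
    have him : (β * r).im * (1 - 1 / ‖r‖ ^ 2) = -ε := by
      have h1 : β * r + (starRingEnd ℂ) (β * r) / ((‖r‖ ^ 2 : ℝ) : ℂ) = -w := by
        rw [← hinv, hw0]
        field_simp
      have h2 := congrArg Complex.im h1
      rw [Complex.add_im, Complex.neg_im, Complex.div_ofReal_im, Complex.conj_im, hw] at h2
      rw [← h2]
      ring
    set P : ℝ := ‖β‖ * ‖r‖ with hP
    have hPp : 0 < P := by positivity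
    have hr1' : 0 ≤ 1 - 1 / ‖r‖ ^ 2 := by
      rw [sub_nonneg, div_le_one (by positivity)]
      nlinarith
    have hkey : ε ≤ P * (1 - 1 / ‖r‖ ^ 2) := by
      have h1 : -((β * r).im) ≤ P := by
        calc -((β * r).im) ≤ |(β * r).im| := neg_le_abs _
          _ ≤ ‖β * r‖ := Complex.abs_im_le_norm _
          _ = P := by rw [norm_mul]
      nlinarith
    have hPβ : P * (1 / ‖r‖ ^ 2) = ‖β‖ ^ 2 / P := by
      rw [hP]; field_simp
    have hkey2 : ε * P ≤ P ^ 2 - ‖β‖ ^ 2 := by
      have h1 : ε ≤ P - ‖β‖ ^ 2 / P := by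
        rw [← hPβ]; linarith [hkey]
      have h2 : (P - ‖β‖ ^ 2 / P) * P = P ^ 2 - ‖β‖ ^ 2 := by
        field_simp
      nlinarith
    have hPε : ε ≤ P := by
      have h1 : P * (1 - 1 / ‖r‖ ^ 2) ≤ P := by
        have : 0 ≤ 1 / ‖r‖ ^ 2 := by positivity
        nlinarith
      linarith
    have hfin : ‖β‖ ^ 2 + ε ^ 2 ≤ P ^ 2 := by nlinarith
    have hr1s : 1 < ‖r‖ := by
      rcases lt_or_eq_of_le hr1 with h | h
      · exact h
      · exfalso
        rw [← h] at hkey
        norm_num at hkey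
        linarith
    have hr2s : ‖r2‖ < 1 := by
      rw [hr2n, div_lt_one hrp]; exact hr1s
    -- the average
    have hav : Real.circleAverage (fun z => Real.log ‖β * z ^ 2 + w * z + (starRingEnd ℂ) β‖) 0 1
        = Real.log P := by
      have h1 : Real.circleAverage (fun z => Real.log ‖β * z ^ 2 + w * z + (starRingEnd ℂ) β‖) 0 1
          = Real.circleAverage ((fun _ => Real.log ‖β‖) +
            ((fun z => Real.log ‖z - r‖) + (fun z => Real.log ‖z - r2‖))) 0 1 := by
        apply Real.circleAverage_congr_sphere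
        intro z hz
        have hz1 : ‖z‖ = 1 := by simpa using hz
        have hzr : z - r ≠ 0 := by
          intro h
          have : z = r := sub_eq_zero.mp h
          rw [this] at hz1; linarith
        have hzr2 : z - r2 ≠ 0 := by
          intro h
          have : z = r2 := sub_eq_zero.mp h
          rw [this] at hz1; linarith
        simp only [Pi.add_apply]
        rw [hfac z, norm_mul, norm_mul, Real.log_mul, Real.log_mul]
        · exact norm_ne_zero_iff.mpr hzr
        · exact norm_ne_zero_iff.mpr hzr2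
        · exact norm_ne_zero_iff.mpr hβ
        · exact mul_ne_zero (norm_ne_zero_iff.mpr hzr) (norm_ne_zero_iff.mpr hzr2)
      rw [h1, Real.circleAverage_add, Real.circleAverage_add, Real.circleAverage_const,
        circleAverage_log_norm_sub_const_eq_posLog, circleAverage_log_norm_sub_const_eq_posLog]
      · have e1 : Real.posLog ‖r‖ = Real.log ‖r‖ := by
          apply Real.posLog_eq_log
          rw [abs_of_pos hrp]; exact hr1
        have e2 : Real.posLog ‖r2‖ = 0 := by
          rw [Real.posLog_eq_zero_iff, abs_of_nonneg (norm_nonneg _)]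
          exact hr2s.le
        rw [e1, e2, add_zero, hP, Real.log_mul hβn.ne' hrp.ne']
      · exact circleIntegrable_log_norm_sub_const 1
      · exact circleIntegrable_log_norm_sub_const 1
      · exact circleIntegrable_const _ _ _
      · exact (circleIntegrable_log_norm_sub_const 1).add (circleIntegrable_log_norm_sub_const 1)
    rw [hav]
    have h3 : Real.log (‖β‖ ^ 2 + ε ^ 2) ≤ Real.log (P ^ 2) :=
      Real.log_le_log (by positivity) hfin
    rw [Real.log_pow] at h3
    push_cast at h3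
    linarith

/-- (B2), over `[0, 2π]`. -/
theorem avg_log_two_pi (U V W ε : ℝ) (hε : 0 < ε) :
    2 * Real.pi * (Real.log ((V ^ 2 + 4 * ε ^ 2) / 4) / 2) ≤
      ∫ θ in (0:ℝ)..(2 * Real.pi), Lf ε (U + V * Real.cos θ + W * Real.sin θ) := by
  set β : ℂ := ⟨V / 2, -W / 2⟩ with hβ
  set w : ℂ := ⟨U, ε⟩ with hw
  have h1 := circle_quad β w ε hε rfl
  rw [Real.circleAverage_def] at h1
  have hnb : ‖β‖ ^ 2 = (V ^ 2 + W ^ 2) / 4 := by
    rw [← Complex.normSq_eq_norm_sq, Complex.normSq_mk]; ring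
  have h2 : ∀ θ : ℝ, Real.log ‖β * (circleMap 0 1 θ) ^ 2 + w * (circleMap 0 1 θ) +
      (starRingEnd ℂ) β‖ = Lf ε (U + V * Real.cos θ + W * Real.sin θ) := by
    intro θ
    have hz : circleMap 0 1 θ = ⟨Real.cos θ, Real.sin θ⟩ := by
      apply Complex.ext
      · simp [circleMap, Complex.exp_ofReal_mul_I_re]
      · simp [circleMap, Complex.exp_ofReal_mul_I_im]
    have hcs := Real.sin_sq_add_cos_sq θ
    have h3 : ‖β * (circleMap 0 1 θ) ^ 2 + w * (circleMap 0 1 θ) + (starRingEnd ℂ) β‖ ^ 2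
        = (U + V * Real.cos θ + W * Real.sin θ) ^ 2 + ε ^ 2 := by
      have h4 : β * (circleMap 0 1 θ) ^ 2 + w * (circleMap 0 1 θ) + (starRingEnd ℂ) β
          = (circleMap 0 1 θ) * ⟨U + V * Real.cos θ + W * Real.sin θ, ε⟩ := by
        rw [hz, pow_two]
        apply Complex.ext
        · simp only [Complex.add_re, Complex.mul_re, Complex.mul_im, Complex.conj_re, hβ, hw]
          linear_combination (-(V / 2)) * hcs
        · simp only [Complex.add_im, Complex.mul_re, Complex.mul_im, Complex.conj_im, hβ, hw]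
          linear_combination (-(W / 2)) * hcs
      rw [h4, norm_mul, mul_pow, ← Complex.normSq_eq_norm_sq, ← Complex.normSq_eq_norm_sq, hz,
        Complex.normSq_mk, Complex.normSq_mk]
      have : Real.cos θ * Real.cos θ + Real.sin θ * Real.sin θ = 1 := by linarith
      rw [this]; ring
    unfold Lf
    rw [← h3, Real.log_pow]
    push_cast
    ring
  simp only [h2] at h1
  rw [smul_eq_mul] at h1
  have hpi : 0 < 2 * Real.pi := by positivity
  have h5 : 2 * Real.pi * (Real.log (‖β‖ ^ 2 + ε ^ 2) / 2) ≤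
      ∫ θ in (0:ℝ)..(2 * Real.pi), Lf ε (U + V * Real.cos θ + W * Real.sin θ) := by
    have := mul_le_mul_of_nonneg_left h1 hpi.le
    rwa [← mul_assoc, mul_inv_cancel₀ hpi.ne', one_mul] at this
  refine le_trans ?_ h5
  apply mul_le_mul_of_nonneg_left _ hpi.le
  have : Real.log ((V ^ 2 + 4 * ε ^ 2) / 4) ≤ Real.log (‖β‖ ^ 2 + ε ^ 2) := by
    apply Real.log_le_log (by positivity)
    rw [hnb]; nlinarith [sq_nonneg W]
  linarith

/-- (B2), over a period of `cos (θ₀ + π x)`. -/
theorem avg_log (U V W ε θ₀ : ℝ) (hε : 0 < ε) :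
    2 * (Real.log ((V ^ 2 + 4 * ε ^ 2) / 4) / 2) ≤
      ∫ x in (-1:ℝ)..1, Lf ε (U + V * Real.cos (θ₀ + Real.pi * x) +
        W * Real.sin (θ₀ + Real.pi * x)) := by
  have h1 := avg_log_two_pi U V W ε hε
  have hpi : 0 < Real.pi := Real.pi_pos
  set g : ℝ → ℝ := fun θ => Lf ε (U + V * Real.cos θ + W * Real.sin θ) with hg
  have hper : Function.Periodic g (2 * Real.pi) := by
    intro θ
    simp only [hg, Real.cos_add_two_pi, Real.sin_add_two_pi]
  have h2 : (∫ x in (-1:ℝ)..1, g (θ₀ + Real.pi * x)) =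
      Real.pi⁻¹ * ∫ θ in (0:ℝ)..(2 * Real.pi), g θ := by
    have h3 : (∫ x in (-1:ℝ)..1, g (θ₀ + Real.pi * x)) =
        Real.pi⁻¹ • ∫ θ in (θ₀ + Real.pi * (-1))..(θ₀ + Real.pi * 1), g θ := by
      rw [intervalIntegral.integral_comp_add_mul g hpi.ne' θ₀]
    rw [h3, smul_eq_mul]
    congr 1
    have h4 := hper.intervalIntegral_add_eq (θ₀ + Real.pi * (-1)) 0
    rw [zero_add] at h4
    rw [← h4]
    congr 1
    ring
  change _ ≤ ∫ x in (-1:ℝ)..1, g (θ₀ + Real.pi * x)
  rw [h2]
  have h6 := mul_le_mul_of_nonneg_left h1 (inv_nonneg.mpr hpi.le)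
  refine le_trans (le_of_eq ?_) h6
  field_simp

/-- (B2) as a set integral over `[-1,1]`. -/
theorem avg_log_Icc (U V W ε θ₀ : ℝ) (hε : 0 < ε) :
    2 * (Real.log ((V ^ 2 + 4 * ε ^ 2) / 4) / 2) ≤
      ∫ x in Set.Icc (-1:ℝ) 1, Lf ε (U + V * Real.cos (θ₀ + Real.pi * x) +
        W * Real.sin (θ₀ + Real.pi * x)) := by
  have := avg_log U V W ε θ₀ hε
  rwa [intervalIntegral.integral_of_le (by norm_num), ← integral_Icc_eq_integral_Ioc] at this

end BilEnt
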