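import Pool.Agent.BilEnt.Defs

/-!
# Part B, module B02Orb: averaging over compensated orbits (abstract)

`orbc a b x p = (p, x₁ + a(p) - a(x₀), x₂ + b(p) - b(x₀))` is the point with phase `p` on the curve
`p ↦ (p, X₁ + a p, X₂ + b p)` through `x` (`X₁ = x₁ - a x₀`, `X₂ = x₂ - b x₀`); `Eorb a b` is the set of
points of the cube whose whole curve (`|p| ≤ 1`) stays in the cube `[-1,1]^3`.
-/

open MeasureTheory Real

namespace BilEnt

noncomputable section

/-- the point of phase `p` on the compensated orbit of `x` -/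
def orbc (a b : ℝ → ℝ) (x : Fin 3 → ℝ) (p : ℝ) : Fin 3 → ℝ :=
  ![p, x 1 + (a p - a (x 0)), x 2 + (b p - b (x 0))]

/-- points whose whole compensated orbit stays in the cube -/
def Eorb (a b : ℝ → ℝ) : Set (Fin 3 → ℝ) :=
  {x | (∀ j, |x j| ≤ 1) ∧ ∀ p, |p| ≤ 1 → ∀ j, |orbc a b x p j| ≤ 1}

namespace B02OrbAux

theorem orbc_0 (a b : ℝ → ℝ) (x : Fin 3 → ℝ) (p : ℝ) : orbc a b x p 0 = p := by
  simp [orbc]

theorem orbc_1 (a b : ℝ → ℝ) (x : Fin 3 → ℝ) (p : ℝ) :
    orbc a b x p 1 = x 1 + (a p - a (x 0)) := by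
  simp [orbc]

theorem orbc_2 (a b : ℝ → ℝ) (x : Fin 3 → ℝ) (p : ℝ) :
    orbc a b x p 2 = x 2 + (b p - b (x 0)) := by
  simp [orbc]

theorem ext3 {x y : Fin 3 → ℝ} (h0 : x 0 = y 0) (h1 : x 1 = y 1) (h2 : x 2 = y 2) : x = y := by
  funext j
  fin_cases j
  · exact h0
  · exact h1
  · exact h2

theorem continuous_orbc (a b : ℝ → ℝ) (ha : Continuous a) (hb : Continuous b) (p : ℝ) (j : Fin 3) :
    Continuous fun x : Fin 3 → ℝ => orbc a b x p j := by
  fin_cases j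
  · simp only [orbc]
    exact continuous_const
  · simp only [orbc]
    show Continuous fun x : Fin 3 → ℝ => x 1 + (a p - a (x 0))
    fun_prop
  · simp only [orbc]
    show Continuous fun x : Fin 3 → ℝ => x 2 + (b p - b (x 0))
    fun_prop

end B02OrbAux

open B02OrbAux

/-- `Eorb` is closed (an intersection of the closed conditions `|x j| ≤ 1`,
`|x 1 + (a p - a (x 0))| ≤ 1`, `|x 2 + (b p - b (x 0))| ≤ 1`, `|p| ≤ 1`), hence measurable. -/
theorem measurableSet_Eorb (a b : ℝ → ℝ) (ha : Continuous a) (hb : Continuous b) :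
    MeasurableSet (Eorb a b) := by
  apply IsClosed.measurableSet
  have : Eorb a b = (⋂ j, {x : Fin 3 → ℝ | |x j| ≤ 1}) ∩
      ⋂ p : ℝ, ⋂ _ : |p| ≤ 1, ⋂ j : Fin 3, {x : Fin 3 → ℝ | |orbc a b x p j| ≤ 1} := by
    ext x
    simp [Eorb]
  rw [this]
  refine (isClosed_iInter fun j => ?_).inter
    (isClosed_iInter fun p => isClosed_iInter fun _ => isClosed_iInter fun j => ?_)
  · exact isClosed_le (by fun_prop) continuous_const
  · exact isClosed_le (continuous_orbc a b ha hb p j).abs continuous_const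

theorem orbc_self (a b : ℝ → ℝ) (x : Fin 3 → ℝ) : orbc a b x (x 0) = x := by
  apply ext3
  · rw [orbc_0]
  · rw [orbc_1]; ring
  · rw [orbc_2]; ring

theorem orbc_orbc (a b : ℝ → ℝ) (x : Fin 3 → ℝ) (p q : ℝ) :
    orbc a b (orbc a b x p) q = orbc a b x q := by
  apply ext3
  · rw [orbc_0, orbc_0]
  · rw [orbc_1, orbc_1, orbc_1, orbc_0]; ring
  · rw [orbc_2, orbc_2, orbc_2, orbc_0]; ring

theorem orbc_mem (a b : ℝ → ℝ) {x : Fin 3 → ℝ} (hx : x ∈ Eorb a b) {p : ℝ} (hp : |p| ≤ 1) :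
    orbc a b x p ∈ Eorb a b := by
  refine ⟨hx.2 p hp, fun q hq j => ?_⟩
  rw [orbc_orbc]
  exact hx.2 q hq j

namespace B02OrbAux

/-- the shear -/
def Gm (a b : ℝ → ℝ) (q : ℝ × (Fin 2 → ℝ)) : Fin 3 → ℝ :=
  ![q.1, q.2 0 + a q.1, q.2 1 + b q.1]

theorem Gm_0 (a b : ℝ → ℝ) (q : ℝ × (Fin 2 → ℝ)) : Gm a b q 0 = q.1 := by simp [Gm]
theorem Gm_1 (a b : ℝ → ℝ) (q : ℝ × (Fin 2 → ℝ)) : Gm a b q 1 = q.2 0 + a q.1 := by simp [Gm]
theorem Gm_2 (a b : ℝ → ℝ) (q : ℝ × (Fin 2 → ℝ)) : Gm a b q 2 = q.2 1 + b q.1 := by simp [Gm]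

theorem measurePreserving_Gm (a b : ℝ → ℝ) (ha : Continuous a) (hb : Continuous b) :
    MeasurePreserving (Gm a b) ((volume : Measure ℝ).prod (volume : Measure (Fin 2 → ℝ)))
      volume := by
  have h1 : MeasurePreserving
      (fun q : ℝ × (Fin 2 → ℝ) => (q.1, (fun q' : ℝ × (Fin 2 → ℝ) => q'.2 + ![a q'.1, b q'.1]) q))
      ((volume : Measure ℝ).prod (volume : Measure (Fin 2 → ℝ)))
      ((volume : Measure ℝ).prod (volume : Measure (Fin 2 → ℝ))) := by
    apply MeasurePreserving.skew_product (f := fun x : ℝ => x)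
      (g := fun (p : ℝ) (X : Fin 2 → ℝ) => X + ![a p, b p]) (MeasurePreserving.id volume)
    · have : Continuous (Function.uncurry fun (p : ℝ) (X : Fin 2 → ℝ) => X + ![a p, b p]) := by
        apply continuous_pi
        intro j
        fin_cases j
        · show Continuous fun q : ℝ × (Fin 2 → ℝ) => q.2 0 + a q.1
          fun_prop
        · show Continuous fun q : ℝ × (Fin 2 → ℝ) => q.2 1 + b q.1
          fun_prop
      exact this.measurable
    · refine Filter.Eventually.of_forall fun p => ?_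
      exact (measurePreserving_add_right volume ![a p, b p]).map_eq
  have h2 := (volume_preserving_piFinSuccAbove (fun _ : Fin 3 => ℝ) 0).symm
  have h3 := h2.comp h1
  have h4 : (⇑(MeasurableEquiv.piFinSuccAbove (fun _ : Fin 3 => ℝ) 0).symm ∘
      fun q : ℝ × (Fin 2 → ℝ) => (q.1, (fun q' : ℝ × (Fin 2 → ℝ) => q'.2 + ![a q'.1, b q'.1]) q))
      = Gm a b := by
    funext q
    apply ext3
    · simp [Gm, MeasurableEquiv.piFinSuccAbove]
    · rw [Gm_1]
      rfl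
    · rw [Gm_2]
      rfl
  rw [h4] at h3
  exact h3

/-- the base of the fibration -/
def Sb (a b : ℝ → ℝ) : Set (Fin 2 → ℝ) :=
  {X | ∀ p, |p| ≤ 1 → |X 0 + a p| ≤ 1 ∧ |X 1 + b p| ≤ 1}

theorem Gm_mem_iff (a b : ℝ → ℝ) (q : ℝ × (Fin 2 → ℝ)) :
    Gm a b q ∈ Eorb a b ↔ q.1 ∈ Set.Icc (-1 : ℝ) 1 ∧ q.2 ∈ Sb a b := by
  constructor
  · rintro ⟨h1, h2⟩
    refine ⟨?_, fun p hp => ⟨?_, ?_⟩⟩
    · have := h1 0
      rw [Gm_0] at this
      exact abs_le.1 this
    · have := h2 p hp 1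
      rw [orbc_1, Gm_1, Gm_0] at this
      have e : q.2 0 + a q.1 + (a p - a q.1) = q.2 0 + a p := by ring
      rwa [e] at this
    · have := h2 p hp 2
      rw [orbc_2, Gm_2, Gm_0] at this
      have e : q.2 1 + b q.1 + (b p - b q.1) = q.2 1 + b p := by ring
      rwa [e] at this
  · rintro ⟨h1, h2⟩
    have h1' : |q.1| ≤ 1 := abs_le.2 h1
    refine ⟨fun j => ?_, fun p hp j => ?_⟩
    · fin_cases j
      · show |Gm a b q 0| ≤ 1
        rw [Gm_0]; exact h1'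
      · show |Gm a b q 1| ≤ 1
        rw [Gm_1]; exact (h2 _ h1').1
      · show |Gm a b q 2| ≤ 1
        rw [Gm_2]; exact (h2 _ h1').2
    · fin_cases j
      · show |orbc a b (Gm a b q) p 0| ≤ 1
        rw [orbc_0]; exact hp
      · show |orbc a b (Gm a b q) p 1| ≤ 1
        rw [orbc_1, Gm_1, Gm_0]
        have e : q.2 0 + a q.1 + (a p - a q.1) = q.2 0 + a p := by ring
        rw [e]; exact (h2 p hp).1
      · show |orbc a b (Gm a b q) p 2| ≤ 1
        rw [orbc_2, Gm_2, Gm_0]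
        have e : q.2 1 + b q.1 + (b p - b q.1) = q.2 1 + b p := by ring
        rw [e]; exact (h2 p hp).2

theorem orbc_Gm (a b : ℝ → ℝ) (X : Fin 2 → ℝ) (p : ℝ) :
    orbc a b (Gm a b (0, X)) p = Gm a b (p, X) := by
  apply ext3
  · rw [orbc_0, Gm_0]
  · rw [orbc_1, Gm_1, Gm_0, Gm_1]; ring
  · rw [orbc_2, Gm_2, Gm_0, Gm_2]; ring

theorem nu_eq : nu = (1 / 8 : ENNReal) • (volume.restrict (Set.pi Set.univ fun _ : Fin 3 =>
    Set.Icc (-1 : ℝ) 1)) := by
  unfold nu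
  apply Measure.pi_eq
  intro s hs
  rw [Measure.smul_apply, Measure.restrict_apply (MeasurableSet.univ_pi hs), ← Set.pi_inter_distrib,
    volume_pi, Measure.pi_pi]
  simp only [nu1, Measure.smul_apply, smul_eq_mul]
  simp only [Measure.restrict_apply (hs _), Fin.prod_univ_three]
  have : (1 / 8 : ENNReal) = (1 / 2) * (1 / 2) * (1 / 2) := by
    rw [ENNReal.div_eq_inv_mul, ENNReal.div_eq_inv_mul, mul_one, mul_one,
      ← ENNReal.mul_inv (by norm_num) (by norm_num), ← ENNReal.mul_inv (by norm_num) (by norm_num)]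
    norm_num
  rw [this]
  ring

theorem Eorb_subset (a b : ℝ → ℝ) :
    Eorb a b ⊆ Set.pi Set.univ fun _ : Fin 3 => Set.Icc (-1 : ℝ) 1 := by
  intro x hx j _
  exact abs_le.1 (hx.1 j)

theorem setIntegral_nu (a b : ℝ → ℝ) (ha : Continuous a) (hb : Continuous b)
    (F : (Fin 3 → ℝ) → ℝ) :
    ∫ x in Eorb a b, F x ∂nu = (1 / 8 : ℝ) * ∫ x in Eorb a b, F x := by
  rw [nu_eq, Measure.restrict_smul, Measure.restrict_restrict (measurableSet_Eorb a b ha hb),
    Set.inter_eq_left.2 (Eorb_subset a b), integral_smul_measure]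
  rw [smul_eq_mul]
  congr 1
  norm_num

theorem volume_Eorb (a b : ℝ → ℝ) : volume (Eorb a b) < ⊤ := by
  refine (measure_mono (Eorb_subset a b)).trans_lt ?_
  rw [volume_pi, Measure.pi_pi]
  simp only [Real.volume_Icc]
  exact ENNReal.prod_lt_top fun _ _ => ENNReal.ofReal_lt_top

theorem measurable_Gm (a b : ℝ → ℝ) (ha : Continuous a) (hb : Continuous b) :
    Measurable (Gm a b) := (measurePreserving_Gm a b ha hb).measurable

theorem preimage_Gm (a b : ℝ → ℝ) : Gm a b ⁻¹' Eorb a b = Set.Icc (-1 : ℝ) 1 ×ˢ Sb a b := by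
  ext q
  rw [Set.mem_preimage, Gm_mem_iff, Set.mem_prod]

theorem integrable_comp (a b : ℝ → ℝ) (ha : Continuous a) (hb : Continuous b)
    (F : (Fin 3 → ℝ) → ℝ) (hF : Measurable F) (B : ℝ) (hB : ∀ x ∈ Eorb a b, |F x| ≤ B) :
    Integrable (fun q => F (Gm a b q)) (((volume : Measure ℝ).restrict (Set.Icc (-1 : ℝ) 1)).prod
      ((volume : Measure (Fin 2 → ℝ)).restrict (Sb a b))) := by
  rw [Measure.prod_restrict, ← preimage_Gm]
  have hm : MeasurableSet (Gm a b ⁻¹' Eorb a b) :=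
    (measurable_Gm a b ha hb) (measurableSet_Eorb a b ha hb)
  refine Measure.integrableOn_of_bounded (M := B) ?_
    (hF.comp (measurable_Gm a b ha hb)).aestronglyMeasurable ?_
  · rw [(measurePreserving_Gm a b ha hb).measure_preimage
      (measurableSet_Eorb a b ha hb).nullMeasurableSet]
    exact (volume_Eorb a b).ne
  · rw [ae_restrict_iff' hm]
    exact Filter.Eventually.of_forall fun q hq => hB _ hq

theorem setIntegral_fib (a b : ℝ → ℝ) (ha : Continuous a) (hb : Continuous b)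
    (F : (Fin 3 → ℝ) → ℝ) (hF : Measurable F) (B : ℝ) (hB : ∀ x ∈ Eorb a b, |F x| ≤ B) :
    ∫ x in Eorb a b, F x =
      ∫ X in Sb a b, ∫ p in Set.Icc (-1 : ℝ) 1, F (Gm a b (p, X)) := by
  have h1 := (measurePreserving_Gm a b ha hb).map_eq
  rw [← h1, setIntegral_map (measurableSet_Eorb a b ha hb) hF.aestronglyMeasurable
    (measurable_Gm a b ha hb).aemeasurable, preimage_Gm, ← Measure.prod_restrict,
    integral_prod_symm _ (integrable_comp a b ha hb F hF B hB)]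

end B02OrbAux

/-- PROOF. `nu` is `1/8` times Lebesgue measure on the cube `[-1,1]^3` (`Measure.pi` of `nu1`).
With `MeasurableEquiv.piFinSuccAbove (fun _ => ℝ) 0` (measure preserving for `Measure.pi`, lemma
`measurePreserving_piFinSuccAbove`) write `x = Fin.cons x₀ y`, `y : Fin 2 → ℝ`:
`∫_{Eorb} F dν = ∫_{x₀ ∈ [-1,1]} (1/2) ∫_{y ∈ [-1,1]^2} (1/4) 1[x ∈ Eorb] F(cons x₀ y) dy dx₀`.
For fixed `x₀ ∈ [-1,1]` substitute `y = X + (a x₀, b x₀)` (Lebesgue measure of `Fin 2 → ℝ` is translation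
invariant): `cons x₀ y ∈ Eorb ↔ X ∈ S`, where
`S = {X : Fin 2 → ℝ | ∀ p, |p| ≤ 1 → |X 0 + a p| ≤ 1 ∧ |X 1 + b p| ≤ 1}` does not depend on `x₀`
(for `p = x₀` this contains `|y 0|, |y 1| ≤ 1`). So by Fubini (everything bounded, `S` bounded because
`|X 0 + a 0| ≤ 1`, `|X 1 + b 0| ≤ 1`)
`∫_{Eorb} F dν = (1/8) ∫_{X ∈ S} ∫_{p ∈ [-1,1]} F (cons p (X 0 + a p, X 1 + b p)) dp dX`.
For `X ∈ S` put `x := cons 0 (X 0 + a 0, X 1 + b 0) ∈ Eorb`; the inner integrand is `F (orbc a b x p)`.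
Apply this formula to `F₁` and `F₂` and compare the inner integrals by the hypothesis `h`. -/
theorem orb_avg (a b : ℝ → ℝ) (ha : Continuous a) (hb : Continuous b)
    (F₁ F₂ : (Fin 3 → ℝ) → ℝ) (hF₁ : Measurable F₁) (hF₂ : Measurable F₂) (B : ℝ)
    (hB₁ : ∀ x ∈ Eorb a b, |F₁ x| ≤ B) (hB₂ : ∀ x ∈ Eorb a b, |F₂ x| ≤ B)
    (h : ∀ x ∈ Eorb a b, ∫ p in Set.Icc (-1 : ℝ) 1, F₂ (orbc a b x p) ≤
      ∫ p in Set.Icc (-1 : ℝ) 1, F₁ (orbc a b x p)) :
    ∫ x in Eorb a b, F₂ x ∂nu ≤ ∫ x in Eorb a b, F₁ x ∂nu := by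
  rw [setIntegral_nu a b ha hb, setIntegral_nu a b ha hb]
  refine mul_le_mul_of_nonneg_left ?_ (by norm_num)
  rw [setIntegral_fib a b ha hb F₁ hF₁ B hB₁, setIntegral_fib a b ha hb F₂ hF₂ B hB₂]
  have hSm : MeasurableSet (Sb a b) := by
    have : Sb a b = (fun X : Fin 2 → ℝ => Gm a b (0, X)) ⁻¹' Eorb a b := by
      ext X
      rw [Set.mem_preimage, Gm_mem_iff]
      simp
    rw [this]
    exact ((measurable_Gm a b ha hb).comp measurable_prodMk_left)
      (measurableSet_Eorb a b ha hb)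
  refine setIntegral_mono_on (integrable_comp a b ha hb F₂ hF₂ B hB₂).integral_prod_right
    (integrable_comp a b ha hb F₁ hF₁ B hB₁).integral_prod_right hSm fun X hX => ?_
  have hx : Gm a b (0, X) ∈ Eorb a b := (Gm_mem_iff a b (0, X)).2 ⟨by simp, hX⟩
  have := h _ hx
  simp only [orbc_Gm] at this
  exact this

/-! ### The compensated change of phase of a level-0 cell is of this form -/

/-- first profile of the compensation of cell `(0,i)` at `u` -/
def cmpA (N : ℕ) (u : ℝ) (i : ℕ) (p : ℝ) : ℝ :=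
  aa / ((N : ℝ) ^ 2 * e3) * cos ((N : ℝ) ^ 2 * u + π * p) +
    aa / (N * e3 * cos (u - ctr N i)) * N * sin (u - ctr N i) * sin ((N : ℝ) ^ 2 * u + π * p)

/-- second profile of the compensation of cell `(0,i)` at `u` -/
def cmpB (N : ℕ) (u : ℝ) (i : ℕ) (p : ℝ) : ℝ :=
  -(aa / (N * e3 * cos (u - ctr N i)) * sin ((N : ℝ) ^ 2 * u + π * p))

theorem continuous_ca (N : ℕ) (u : ℝ) (i : ℕ) : Continuous (cmpA N u i) := by
  unfold cmpA
  fun_prop

theorem continuous_cb (N : ℕ) (u : ℝ) (i : ℕ) : Continuous (cmpB N u i) := by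
  unfold cmpB
  fun_prop

/-- Unfold the definitions (`ring` for the entries). -/
theorem comp0_eq (N : ℕ) (u : ℝ) (i : ℕ) (x : Fin 3 → ℝ) (p : ℝ) :
    comp0 N u i x p = orbc (cmpA N u i) (cmpB N u i) x p := by
  apply ext3
  · rw [orbc_0]; simp [comp0]
  · rw [orbc_1]; simp only [comp0, cmpA, Matrix.cons_val_one, Matrix.cons_val_zero]; ring
  · rw [orbc_2]; simp only [comp0, cmpB, Matrix.cons_val]; ring

theorem inn_iff (N : ℕ) (ω : Om) (u : ℝ) :
    Inn N ω u ↔ ω (0, cidx N u) ∈ Eorb (cmpA N u (cidx N u)) (cmpB N u (cidx N u)) := by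
  unfold Inn Eorb
  simp only [comp0_eq, Set.mem_ofPred_eq]

end

end BilEnt
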