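import Pool.Agent.BilEnt.G09
import Pool.Agent.BilEnt.B01Avg

/-!
# Part B, module B03Rec: the entry `Y_t = f₁ M_{0 → t} e₂` and its recursion
-/

open MeasureTheory Real

namespace BilEnt

noncomputable section

/-- `Y_t`: entry `(1,2)` of the product `M_{0 → t}` along the orbit of `z` -/
def Jn (h : ℝ → ℝ) (z : ℝ × ℝ) (t : ℕ) : ℝ := mprod (Ms h z) 0 t 0 1

/-- entry `(2,2)` of the product `M_{0 → t}` -/
def An (h : ℝ → ℝ) (z : ℝ × ℝ) (t : ℕ) : ℝ := mprod (Ms h z) 0 t 1 1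

theorem Jn_zero (h : ℝ → ℝ) (z : ℝ × ℝ) : Jn h z 0 = 0 := by
  simp [Jn, mprod]

theorem An_zero (h : ℝ → ℝ) (z : ℝ × ℝ) : An h z 0 = 1 := by
  simp [An, mprod]

/-- Unfold `mprod`, `Ms`, `Mc` and use `Matrix.mul_apply`, `Fin.sum_univ_two`. -/
theorem Jn_succ (h : ℝ → ℝ) (z : ℝ × ℝ) (t : ℕ) :
    Jn h z (t + 1) = -Jn h z t + hl h (pth h z t) * An h z t := by
  simp only [Jn, An, mprod, Ms, Mc, Matrix.mul_apply, Fin.sum_univ_two, Nat.zero_add]
  simp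

/-- Second row of `Mc`: `-g J + (gH - 1) A = g (-J + H A) - A = g J' - A`. -/
theorem An_succ (h : ℝ → ℝ) (z : ℝ × ℝ) (t : ℕ) :
    An h z (t + 1) = gg h (pth h z t) * Jn h z (t + 1) - An h z t := by
  rw [Jn_succ]
  simp only [Jn, An, mprod, Ms, Mc, Matrix.mul_apply, Fin.sum_univ_two, Nat.zero_add]
  simp
  ring

theorem Jn_one (h : ℝ → ℝ) (z : ℝ × ℝ) : Jn h z 1 = hl h z := by
  have := Jn_succ h z 0
  rw [Jn_zero, An_zero] at this
  simpa [pth] using this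

/-- `Y_{t+2}` in terms of `g_{t+1} = gg h (pth h z t)`. From `Jn_succ`, `An_succ`. -/
theorem Jn_succ_succ (h : ℝ → ℝ) (z : ℝ × ℝ) (t : ℕ) :
    Jn h z (t + 2) = -Jn h z (t + 1) + hl h (pth h z (t + 1)) *
      (gg h (pth h z t) * Jn h z (t + 1) - An h z t) := by
  rw [← An_succ]
  exact Jn_succ h z (t + 1)

theorem abs_entry_le_fn (M : Matrix (Fin 2) (Fin 2) ℝ) (i j : Fin 2) : |M i j| ≤ fn M := by
  unfold fn
  apply Real.abs_le_sqrt
  fin_cases i <;> fin_cases j <;>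
    simp only [Fin.mk_one, Fin.zero_eta, Fin.isValue] <;>
    nlinarith [sq_nonneg (M 0 0), sq_nonneg (M 0 1), sq_nonneg (M 1 0), sq_nonneg (M 1 1)]

/-- `det M = 1` implies `‖M‖² ≥ 2` (`2|ad - bc| ≤ a² + b² + c² + d²`). -/
theorem one_le_fn (M : Matrix (Fin 2) (Fin 2) ℝ) (hM : M.det = 1) : 1 ≤ fn M := by
  rw [Matrix.det_fin_two] at hM
  unfold fn
  rw [Real.one_le_sqrt]
  nlinarith [sq_nonneg (M 0 0 - M 1 1), sq_nonneg (M 0 1 + M 1 0)]

theorem det_BF (g H : ℝ) : (BF g H).det = 1 := by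
  unfold BF
  rw [Matrix.det_fin_two_of]
  ring

theorem det_mprod (M : ℕ → Matrix (Fin 2) (Fin 2) ℝ) (hM : ∀ t, (M t).det = 1) (a k : ℕ) :
    (mprod M a k).det = 1 := by
  induction k with
  | zero => simp [mprod]
  | succ k ih => simp [mprod, Matrix.det_mul, hM, ih]

/-- `(Y² + 1)^{1/2} ≤ √2 ‖M‖` as `|Y| ≤ ‖M‖` and `1 ≤ ‖M‖`; so `Lf 1 Y ≤ log ‖M‖ + (log 2)/2`. -/
theorem Lf_one_le (h : ℝ → ℝ) (z : ℝ × ℝ) (t : ℕ) :
    Lf 1 (Jn h z t) ≤ log (fn (mprod (Ms h z) 0 t)) + log 2 := by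
  set M := mprod (Ms h z) 0 t with hM
  have hdet : M.det = 1 := det_mprod _ (fun t => det_Mc h _) 0 t
  have h1 : 1 ≤ fn M := one_le_fn M hdet
  have h2 : |Jn h z t| ≤ fn M := abs_entry_le_fn M 0 1
  have h3 : (Jn h z t) ^ 2 ≤ fn M ^ 2 := by
    rw [← sq_abs]
    exact pow_le_pow_left₀ (abs_nonneg _) h2 2
  have h4 : (Jn h z t) ^ 2 + 1 ^ 2 ≤ 2 * fn M ^ 2 := by nlinarith
  have h5 : log ((Jn h z t) ^ 2 + 1 ^ 2) ≤ log (2 * fn M ^ 2) :=
    Real.log_le_log (by positivity) h4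
  rw [Real.log_mul (by norm_num) (by positivity), Real.log_pow] at h5
  push_cast at h5
  have h6 : 0 ≤ log 2 := Real.log_nonneg (by norm_num)
  unfold Lf
  simp only [one_pow] at h5 ⊢
  have h7 : log (Jn h z t ^ 2 + 1) / 2 ≤ (log 2 + 2 * log (fn M)) / 2 := by
    exact div_le_div_of_nonneg_right h5 (by norm_num)
  refine h7.trans ?_
  linarith

/-- Crude growth: if all `|hl|, |gg| ≤ m` (`m ≥ 1`) on the first `t` steps then
`|Y_t|, |A_t| ≤ (3 m²)^t`.  Induction: each entry of `Mc` is at most `m² + 1 ≤ 2 m²` in absolute value...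
(use `|−J + H A| ≤ (1 + m) max`, `|g J' − A| ≤ m (1+m) max + max ≤ 3 m² max`). -/
theorem Jn_bound (h : ℝ → ℝ) (z : ℝ × ℝ) (m : ℝ) (hm : 1 ≤ m) (t : ℕ)
    (hb : ∀ j < t, |hl h (pth h z j)| ≤ m ∧ |gg h (pth h z j)| ≤ m) :
    |Jn h z t| ≤ (3 * m ^ 2) ^ t ∧ |An h z t| ≤ (3 * m ^ 2) ^ t := by
  induction t with
  | zero => simp [Jn_zero, An_zero]
  | succ t ih =>
    obtain ⟨hJ, hA⟩ := ih (fun j hj => hb j (by omega))
    obtain ⟨hH, hg⟩ := hb t (by omega)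
    have hB : 0 ≤ (3 * m ^ 2) ^ t := by positivity
    have h1 : |Jn h z (t + 1)| ≤ (1 + m) * (3 * m ^ 2) ^ t := by
      rw [Jn_succ]
      calc |-Jn h z t + hl h (pth h z t) * An h z t|
          ≤ |-Jn h z t| + |hl h (pth h z t) * An h z t| := abs_add_le _ _
        _ = |Jn h z t| + |hl h (pth h z t)| * |An h z t| := by rw [abs_neg, abs_mul]
        _ ≤ (3 * m ^ 2) ^ t + m * (3 * m ^ 2) ^ t :=
            add_le_add hJ (mul_le_mul hH hA (abs_nonneg _) (by linarith))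
        _ = (1 + m) * (3 * m ^ 2) ^ t := by ring
    have h2 : |An h z (t + 1)| ≤ (m * (1 + m) + 1) * (3 * m ^ 2) ^ t := by
      rw [An_succ]
      calc |gg h (pth h z t) * Jn h z (t + 1) - An h z t|
          ≤ |gg h (pth h z t) * Jn h z (t + 1)| + |An h z t| := abs_sub _ _
        _ = |gg h (pth h z t)| * |Jn h z (t + 1)| + |An h z t| := by rw [abs_mul]
        _ ≤ m * ((1 + m) * (3 * m ^ 2) ^ t) + (3 * m ^ 2) ^ t :=
            add_le_add (mul_le_mul hg h1 (abs_nonneg _) (by linarith)) hA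
        _ = (m * (1 + m) + 1) * (3 * m ^ 2) ^ t := by ring
    constructor
    · refine h1.trans ?_
      rw [pow_succ, mul_comm]
      exact mul_le_mul_of_nonneg_left (by nlinarith) hB
    · refine h2.trans ?_
      rw [pow_succ, mul_comm]
      exact mul_le_mul_of_nonneg_left (by nlinarith) hB

end

end BilEnt
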