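import Pool.Agent.BilEnt.B03Rec

/-!
# Part B, module B04Loc: two tables which agree to first order along an orbit
-/

open MeasureTheory Real

namespace BilEnt

noncomputable section

namespace B04LocAux

theorem Th_congr {h k : ℝ → ℝ} {u : ℝ} (h1 : deriv h u = deriv k u) : Th k u = Th h u := by
  unfold Th; rw [h1]

theorem sp_congr {h k : ℝ → ℝ} {u : ℝ} (h0 : h u = k u) (h1 : deriv h u = deriv k u) :
    sp k u = sp h u := by
  unfold sp; rw [h0, h1]

theorem stt_congr {h k : ℝ → ℝ} {z : ℝ × ℝ} (h1 : deriv h z.1 = deriv k z.1) :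
    stt k z = stt h z := by
  unfold stt; rw [Th_congr h1]

theorem pw_congr {h k : ℝ → ℝ} {z : ℝ × ℝ} (h0 : h z.1 = k z.1)
    (h1 : deriv h z.1 = deriv k z.1) : pw k z = pw h z := by
  unfold pw; rw [sp_congr h0 h1, stt_congr h1]

theorem gam_congr {h k : ℝ → ℝ} {u : ℝ} (h0 : h u = k u) : gam k u = gam h u := by
  unfold gam; rw [h0]

theorem V_congr {h k : ℝ → ℝ} (Hh : IsTab h) (Hk : IsTab k) {z : ℝ × ℝ} (hz : z ∈ dom h)
    (h0 : h z.1 = k z.1) (h0' : h (V h z) = k (V h z)) : V k z = V h z := by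
  obtain ⟨a1, a2, a3⟩ := V_spec Hh hz
  refine V_unique Hk a1 a2 ?_
  rw [← a3]
  unfold ang
  rw [h0, h0']

theorem fm_congr {h k : ℝ → ℝ} (Hh : IsTab h) (Hk : IsTab k) {z : ℝ × ℝ} (hz : z ∈ dom h)
    (h0 : h z.1 = k z.1) (h0' : h (V h z) = k (V h z))
    (h1' : deriv h (V h z) = deriv k (V h z)) : fm k z = fm h z := by
  unfold fm
  rw [V_congr Hh Hk hz h0 h0', Th_congr h1']

theorem hl_congr {h k : ℝ → ℝ} (Hh : IsTab h) (Hk : IsTab k) {z : ℝ × ℝ} (hz : z ∈ dom h)
    (h0 : h z.1 = k z.1) (h0' : h (V h z) = k (V h z)) : hl k z = hl h z := by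
  unfold hl HH
  rw [V_congr Hh Hk hz h0 h0', gam_congr h0, gam_congr h0']

theorem gg_congr {h k : ℝ → ℝ} (Hh : IsTab h) (Hk : IsTab k) {z : ℝ × ℝ} (hz : z ∈ dom h)
    (h0 : h z.1 = k z.1) (h0' : h (V h z) = k (V h z))
    (h1' : deriv h (V h z) = deriv k (V h z))
    (h2' : deriv (deriv h) (V h z) = deriv (deriv k) (V h z)) : gg k z = gg h z := by
  unfold gg
  rw [V_congr Hh Hk hz h0 h0', fm_congr Hh Hk hz h0 h0' h1']
  have e1 : pw k (fm h z) = pw h (fm h z) := pw_congr h0' h1'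
  have e2 : Thd k (V h z) = Thd h (V h z) := by unfold Thd; rw [h1', h2']
  rw [e1, e2]

theorem pth_succ (h : ℝ → ℝ) (z : ℝ × ℝ) (j : ℕ) : pth h z (j + 1) = fm h (pth h z j) := by
  unfold pth; rw [Function.iterate_succ_apply']

theorem pth_succ_fst (h : ℝ → ℝ) (z : ℝ × ℝ) (j : ℕ) :
    (pth h z (j + 1)).1 = V h (pth h z j) := by
  rw [pth_succ]; rfl

theorem pth_congr {h k : ℝ → ℝ} (Hh : IsTab h) (Hk : IsTab k) {z : ℝ × ℝ} (hz : z ∈ dom h) (n : ℕ)
    (hag : ∀ j ≤ n, h (pth h z j).1 = k (pth h z j).1 ∧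
      deriv h (pth h z j).1 = deriv k (pth h z j).1) : ∀ j ≤ n, pth k z j = pth h z j := by
  intro j
  induction j with
  | zero => intro _; rfl
  | succ j ih =>
    intro hj
    have a1 := hag j (by omega)
    have a2 := hag (j + 1) hj
    rw [pth_succ_fst] at a2
    rw [pth_succ, pth_succ, ih (by omega)]
    exact fm_congr Hh Hk (pth_mem Hh hz j) a1.1 a2.1 a2.2

end B04LocAux

open B04LocAux

/-- Two tables which have the same values and the same first derivatives at the bounce points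
`u_0, …, u_n` of an orbit of `h` have the same orbit up to time `n`, the same flights and the same
densities.

PROOF. Induction on `j ≤ n` with part G's pointwise locality `fm_congr` (equal values and derivatives at
`z.1` and equal values at `V h z` give `V k z = V h z`; with equal derivatives there also
`fm k z = fm h z`); `pth h z j ∈ dom h` for all `j` (part G: `fm` maps `dom` to `dom`).  `pw` and `stt` at
`(u, A)` depend only on `h u`, `deriv h u` (through `sp h u`, `Th h u`). -/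
theorem loc_seg {h k : ℝ → ℝ} (Hh : IsTab h) (Hk : IsTab k) {z : ℝ × ℝ} (hz : z ∈ dom h) (n : ℕ)
    (hag : ∀ j ≤ n, h (pth h z j).1 = k (pth h z j).1 ∧
      deriv h (pth h z j).1 = deriv k (pth h z j).1) :
    (∀ j ≤ n, pth k z j = pth h z j) ∧
    (∀ j < n, hl k (pth h z j) = hl h (pth h z j)) ∧
    (∀ j ≤ n, pw k (pth h z j) = pw h (pth h z j)) ∧
    (∀ j ≤ n, stt k (pth h z j) = stt h (pth h z j)) := by
  refine ⟨pth_congr Hh Hk hz n hag, ?_, ?_, ?_⟩
  · intro j hj
    have a1 := hag j hj.le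
    have a2 := hag (j + 1) hj
    rw [pth_succ_fst] at a2
    exact hl_congr Hh Hk (pth_mem Hh hz j) a1.1 a2.1
  · intro j hj
    exact pw_congr (hag j hj).1 (hag j hj).2
  · intro j hj
    exact stt_congr (hag j hj).2

/-- Under the hypothesis of `loc_seg`, `gg k` and `gg h` agree at time `j < n` if the second derivatives
agree at the next bounce point (`gg h z = 2 Thd h (V h z) / pw h (fm h z)` and
`Thd h u = 1 - h'' / (1 + h'^2)`). -/
theorem loc_gg {h k : ℝ → ℝ} (Hh : IsTab h) (Hk : IsTab k) {z : ℝ × ℝ} (hz : z ∈ dom h) (n : ℕ)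
    (hag : ∀ j ≤ n, h (pth h z j).1 = k (pth h z j).1 ∧
      deriv h (pth h z j).1 = deriv k (pth h z j).1) {j : ℕ} (hj : j < n)
    (h2 : deriv (deriv h) (pth h z (j + 1)).1 = deriv (deriv k) (pth h z (j + 1)).1) :
    gg k (pth h z j) = gg h (pth h z j) := by
  have a1 := hag j hj.le
  have a2 := hag (j + 1) hj
  rw [pth_succ_fst] at a2 h2
  exact gg_congr Hh Hk (pth_mem Hh hz j) a1.1 a2.1 a2.2 h2

/-- If moreover all second derivatives at the bounce points `u_1, …, u_t` agree, the entries `Y_j`, `A_j`,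
`j ≤ t`, agree.  Induction with `Jn_succ`, `An_succ`. -/
theorem loc_JA {h k : ℝ → ℝ} (Hh : IsTab h) (Hk : IsTab k) {z : ℝ × ℝ} (hz : z ∈ dom h) (n : ℕ)
    (hag : ∀ j ≤ n, h (pth h z j).1 = k (pth h z j).1 ∧
      deriv h (pth h z j).1 = deriv k (pth h z j).1) {t : ℕ} (ht : t ≤ n)
    (h2 : ∀ j, 1 ≤ j → j < t →
      deriv (deriv h) (pth h z j).1 = deriv (deriv k) (pth h z j).1) :
    (∀ j ≤ t, Jn k z j = Jn h z j) ∧ (∀ j < t, An k z j = An h z j) := by
  obtain ⟨b1, b2, -, -⟩ := loc_seg Hh Hk hz n hag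
  have key : ∀ j, (j ≤ t → Jn k z j = Jn h z j) ∧ (j < t → An k z j = An h z j) := by
    intro j
    induction j with
    | zero => exact ⟨fun _ => by rw [Jn_zero, Jn_zero], fun _ => by rw [An_zero, An_zero]⟩
    | succ j ih =>
      have c1 : j + 1 ≤ t → Jn k z (j + 1) = Jn h z (j + 1) := by
        intro hj
        rw [Jn_succ, Jn_succ, ih.1 (by omega), ih.2 (by omega), b1 j (by omega),
          b2 j (by omega)]
      refine ⟨c1, fun hj => ?_⟩
      rw [An_succ, An_succ, c1 hj.le, ih.2 (by omega), b1 j (by omega),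
        loc_gg Hh Hk hz n hag (j := j) (by omega) (h2 (j + 1) (by omega) hj)]
  exact ⟨fun j hj => (key j).1 hj, fun j hj => (key j).2 hj⟩

end

end BilEnt
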