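import Pool.Agent.BilEnt.B03Rec

/-!
# Part B, module B05Bd1: bounds on the good set
-/

open MeasureTheory Real

namespace BilEnt

noncomputable section

/-- `H_t Cam_t` at time `t` -/
def HC (N : ℕ) (y : Yt) (t : ℕ) : ℝ :=
  hl (hw N y.1) (pth (hw N y.1) y.2 t) * Cam N (hw N y.1) (pth (hw N y.1) y.2 t)

/-- the nearest level-0 bump is at least `1/4` (and at most `1`).

PROOF. `betaN N u = (max 0 (1 - X))³`, `X = sin²(t/2)/sin²(π/N)`, `t = u - 2π round(Nu/2π)/N`,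
`|t| ≤ π/N` (`abs_sub_round`), so `|sin (t/2)| ≤ |t|/2 ≤ π/(2N)` and `sin (π/N) ≥ (π/N)(1 - (π/N)²/6)`;
hence `X ≤ 0.26` for `N ≥ 10` and `betaN ≥ 0.74³ ≥ 1/4`. -/
theorem betaN_bounds : ∃ N1 : ℕ, ∀ N ≥ N1, ∀ u : ℝ, 1 / 4 ≤ betaN N u ∧ betaN N u ≤ 1 := by
  refine ⟨10, fun N hN u => ?_⟩
  have hN' : (10 : ℝ) ≤ N := by exact_mod_cast hN
  have hN0 : (0 : ℝ) < N := by linarith
  have hpi := Real.pi_pos
  have hpi2 : π < 3.15 := Real.pi_lt_d2
  have hr := abs_sub_round ((N : ℝ) * u / (2 * π))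
  unfold betaN
  generalize round ((N : ℝ) * u / (2 * π)) = r at hr ⊢
  have hs : (u - 2 * π * (r : ℤ) / N) / 2 = (π / N) * ((N : ℝ) * u / (2 * π) - r) := by
    field_simp
  rw [hs]
  have hx0 : 0 < π / (2 * N) := by positivity
  have hx1 : π / (2 * N) ≤ 16 / 100 := by
    rw [div_le_iff₀ (by positivity)]
    linarith
  have hsx : |(π / N) * ((N : ℝ) * u / (2 * π) - r)| ≤ π / (2 * N) := by
    rw [abs_mul, abs_of_pos (by positivity : (0 : ℝ) < π / N)]
    calc π / N * |(N : ℝ) * u / (2 * π) - r| ≤ π / N * (1 / 2) :=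
          mul_le_mul_of_nonneg_left hr (by positivity)
      _ = π / (2 * N) := by field_simp
  generalize (π / N) * ((N : ℝ) * u / (2 * π) - r) = s at hsx ⊢
  have h2x : π / N = 2 * (π / (2 * N)) := by field_simp
  have hdl : dl N 0 = 2 * sin (2 * (π / (2 * N))) := by
    unfold dl
    rw [if_pos rfl, h2x]
  rw [hdl, sin_two_mul]
  generalize π / (2 * N) = x at hx0 hx1 hsx ⊢
  have hsinx : 0 < sin x := sin_pos_of_pos_of_lt_pi hx0 (by linarith [Real.pi_gt_three])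
  have hcos : 98 / 100 ≤ cos x := by
    have := Real.one_sub_sq_div_two_le_cos (x := x)
    nlinarith
  have hsin : |sin s| ≤ sin x := by
    have h3 := Real.pi_gt_three
    have h1 := abs_le.1 hsx
    rw [abs_le]
    constructor
    · rw [← sin_neg]
      exact sin_le_sin_of_le_of_le_pi_div_two (by linarith) (by linarith) h1.1
    · exact sin_le_sin_of_le_of_le_pi_div_two (by linarith) (by linarith) h1.2
  have hX : (2 * sin s) ^ 2 / (2 * (2 * sin x * cos x)) ^ 2 ≤ 27 / 100 := by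
    have hpos : 0 < (2 * (2 * sin x * cos x)) ^ 2 := by positivity
    rw [div_le_iff₀ hpos]
    have h1 : sin s ^ 2 ≤ sin x ^ 2 := by
      rw [← sq_abs (sin s)]
      exact pow_le_pow_left₀ (abs_nonneg _) hsin 2
    have h2 : (98 / 100 : ℝ) ^ 2 ≤ cos x ^ 2 := pow_le_pow_left₀ (by norm_num) hcos 2
    have h3 : sin x ^ 2 * (98 / 100 : ℝ) ^ 2 ≤ sin x ^ 2 * cos x ^ 2 :=
      mul_le_mul_of_nonneg_left h2 (sq_nonneg _)
    nlinarith [sq_nonneg (sin x)]
  have hX0 : 0 ≤ (2 * sin s) ^ 2 / (2 * (2 * sin x * cos x)) ^ 2 := by positivity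
  generalize (2 * sin s) ^ 2 / (2 * (2 * sin x * cos x)) ^ 2 = X at hX hX0 ⊢
  unfold bump
  rw [max_eq_right (by linarith)]
  constructor
  · calc (1 / 4 : ℝ) ≤ (73 / 100) ^ 3 := by norm_num
      _ ≤ (1 - X) ^ 3 := pow_le_pow_left₀ (by norm_num) (by linarith) 3
  · calc (1 - X) ^ 3 ≤ 1 ^ 3 := pow_le_pow_left₀ (by linarith) (by linarith) 3
      _ = 1 := by norm_num

end

end BilEnt
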