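import Pool.Agent.BilEnt.Defs

/-!
# MP_bd32bb_an, part R, module R01 (doc proof/MP_bd32bb_an_entropy)

HINT. `bump X = (max 0 (1-X))^3` is `C²`: `HasDerivAt` case split `X < 1`, `X > 1`, `X = 1` (at `X = 1` use
`|bump X| ≤ |X-1|^3`, squeeze).  `bmp_eq`: `4 sin²(t/2) = 2(1 - cos t)`.
-/

open MeasureTheory Real
open scoped ENNReal

namespace BilEnt

namespace R01_aux

theorem hasDerivAt_pos_pow (n : ℕ) (x : ℝ) :
    HasDerivAt (fun X : ℝ => (max 0 X) ^ (n + 2)) ((n + 2 : ℝ) * (max 0 x) ^ (n + 1)) x := by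
  rcases lt_trichotomy x 0 with hx | hx | hx
  · have h1 : HasDerivAt (fun _ : ℝ => (0 : ℝ)) 0 x := hasDerivAt_const x 0
    have h2 : (n + 2 : ℝ) * (max 0 x) ^ (n + 1) = 0 := by
      rw [max_eq_left hx.le]; simp
    rw [h2]
    refine h1.congr_of_eventuallyEq ?_
    filter_upwards [Iio_mem_nhds hx] with y hy
    rw [max_eq_left (le_of_lt hy)]; simp
  · subst hx
    have h2 : (n + 2 : ℝ) * (max 0 (0 : ℝ)) ^ (n + 1) = 0 := by simp
    rw [h2]
    rw [hasDerivAt_iff_isLittleO_nhds_zero]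
    simp only [zero_add, max_self, smul_eq_mul, mul_zero, sub_zero]
    have h3 : (fun h : ℝ => (max 0 h) ^ (n + 2) - (0 : ℝ) ^ (n + 2)) =O[nhds 0]
        (fun h : ℝ => h ^ (n + 2)) := by
      refine Asymptotics.isBigO_of_le _ fun h => ?_
      rw [zero_pow (by omega), sub_zero, norm_pow, norm_pow]
      refine pow_le_pow_left₀ (norm_nonneg _) ?_ _
      rw [Real.norm_eq_abs, Real.norm_eq_abs, abs_of_nonneg (le_max_left 0 h)]
      exact max_le (abs_nonneg _) (le_abs_self _)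
    refine h3.trans_isLittleO ?_
    have h4 := Asymptotics.isLittleO_pow_pow (𝕜 := ℝ) (show 1 < n + 2 by omega)
    simpa using h4
  · have h1 : HasDerivAt (fun X : ℝ => X ^ (n + 2)) (((n + 2 : ℕ) : ℝ) * x ^ (n + 2 - 1)) x :=
      hasDerivAt_pow (n + 2) x
    have h2 : (n + 2 : ℝ) * (max 0 x) ^ (n + 1) = ((n + 2 : ℕ) : ℝ) * x ^ (n + 2 - 1) := by
      rw [max_eq_right hx.le]
      push_cast
      rfl
    rw [h2]
    refine h1.congr_of_eventuallyEq ?_
    filter_upwards [Ioi_mem_nhds hx] with y hy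
    rw [max_eq_right (le_of_lt hy)]

end R01_aux

theorem bump_nonneg (X : ℝ) : 0 ≤ bump X := by
  unfold bump
  positivity
theorem bump_le_one {X : ℝ} (hX : 0 ≤ X) : bump X ≤ 1 := by
  unfold bump
  exact pow_le_one₀ (le_max_left _ _) (max_le zero_le_one (by linarith))
theorem bump_eq_zero {X : ℝ} (hX : 1 ≤ X) : bump X = 0 := by
  unfold bump
  rw [max_eq_left (by linarith)]
  norm_num
theorem hasDerivAt_bump (X : ℝ) : HasDerivAt bump (-3 * (max 0 (1 - X)) ^ 2) X := by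
  have h1 := R01_aux.hasDerivAt_pos_pow 1 (1 - X)
  have h2 : HasDerivAt (fun X : ℝ => 1 - X) (-1) X := by
    simpa using (hasDerivAt_id X).const_sub 1
  have h3 := h1.comp X h2
  have h4 : ((1 : ℕ) + 2 : ℝ) * (max 0 (1 - X)) ^ (1 + 1) * -1 = -3 * (max 0 (1 - X)) ^ 2 := by
    push_cast
    ring
  rw [h4] at h3
  exact h3
theorem hasDerivAt_bump' (X : ℝ) :
    HasDerivAt (fun X => -3 * (max 0 (1 - X)) ^ 2) (6 * max 0 (1 - X)) X := by
  have h1 := R01_aux.hasDerivAt_pos_pow 0 (1 - X)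
  have h2 : HasDerivAt (fun X : ℝ => 1 - X) (-1) X := by
    simpa using (hasDerivAt_id X).const_sub 1
  have h3 := (h1.comp X h2).const_mul (-3)
  have h4 : -3 * (((0 : ℕ) + 2 : ℝ) * (max 0 (1 - X)) ^ (0 + 1) * -1) = 6 * max 0 (1 - X) := by
    push_cast
    ring
  rw [h4] at h3
  exact h3
theorem contDiff_bump : ContDiff ℝ 2 bump := by
  have hd : deriv bump = fun X => -3 * (max 0 (1 - X)) ^ 2 :=
    funext fun X => (hasDerivAt_bump X).deriv
  have hd2 : deriv (deriv bump) = fun X => 6 * max 0 (1 - X) := by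
    rw [hd]
    exact funext fun X => (hasDerivAt_bump' X).deriv
  rw [show (2 : WithTop ℕ∞) = 1 + 1 by norm_num, contDiff_succ_iff_deriv]
  refine ⟨fun X => (hasDerivAt_bump X).differentiableAt, by simp, ?_⟩
  rw [contDiff_one_iff_deriv]
  refine ⟨?_, ?_⟩
  · rw [hd]
    exact fun X => (hasDerivAt_bump' X).differentiableAt
  · rw [hd2]
    fun_prop
theorem continuous_clampR : Continuous clampR := by
  unfold clampR
  fun_prop
theorem abs_clampR (x : ℝ) : |clampR x| ≤ 1 := by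
  unfold clampR
  rw [abs_le]
  exact ⟨le_max_left _ _, max_le (by norm_num) (min_le_left _ _)⟩
theorem clampR_of_abs_le {x : ℝ} (hx : |x| ≤ 1) : clampR x = x := by
  unfold clampR
  rw [abs_le] at hx
  rw [min_eq_right hx.2, max_eq_right hx.1]
/-- the argument of the bump of a cell, as a smooth function -/
theorem bmp_eq (N q i : ℕ) (u : ℝ) :
    bmp N q i u = bump (2 * (1 - cos (u - ctr (nc N q) i)) / dl N q ^ 2) := by
  unfold bmp ds
  congr 2
  rw [mul_pow, sq_abs]
  have h := Real.cos_sq' ((u - ctr (nc N q) i) / 2)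
  have h2 := Real.cos_two_mul ((u - ctr (nc N q) i) / 2)
  rw [show 2 * ((u - ctr (nc N q) i) / 2) = u - ctr (nc N q) i by ring] at h2
  rw [h2, h]
  ring

end BilEnt
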