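import Pool.Agent.BilEnt.Defs
import Pool.Agent.BilEnt.R01

/-!
# MP_bd32bb_an, part R, module R02 (doc proof/MP_bd32bb_an_entropy)

HINT. By `bmp_eq` the cell is `bump(2(1-cos(u-c))/δ²) * Gq`, smooth and 2π-periodic in `u`.  With `X = ds²/δ²`:
`X_u = 2 sin(u-c)/δ²`, `X_uu = 2cos(u-c)/δ²`; where `bump ≠ 0` one has `ds < δ`, `|sin(u-c)| ≤ ds ≤ δ`, so
`|β'| ≤ 6/δ`, `|β''| ≤ 30/δ²`, `|G| ≤ 3b`, `|G'| ≤ 3b/δ`, `|G''| ≤ 3b/δ²` (δ ≤ 1).  Lipschitz: `deriv² cell` is a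
piecewise C¹ (locally Lipschitz) function with derivative bounded by `C b/δ³`; easiest: each factor of the product
formula of the second derivative is bounded and Lipschitz (`max 0 (1-X)` is 1-Lipschitz in X).  `cell_off`: all terms
contain a factor `max 0 (1-X)`; for level 0 (`N ≥ 4`, `dl N 0 > 0`) the same product rule.
-/

open MeasureTheory Real
open scoped ENNReal

namespace BilEnt

namespace R02_aux

theorem ds_sq (u v : ℝ) : ds u v ^ 2 = 2 * (1 - cos (u - v)) := by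
  unfold ds
  rw [mul_pow, sq_abs, Real.sin_sq_eq_half_sub]
  have : 2 * ((u - v) / 2) = u - v := by ring
  rw [this]; ring

/-- the rescaled argument of the bump -/
noncomputable def XX (c δ u : ℝ) : ℝ := 2 * (1 - cos (u - c)) / δ ^ 2

/-- the positive part entering the bump -/
noncomputable def mm (c δ u : ℝ) : ℝ := max 0 (1 - XX c δ u)

theorem hasDerivAt_sin' (c u : ℝ) : HasDerivAt (fun u => sin (u - c)) (cos (u - c)) u := by
  simpa using ((hasDerivAt_id u).sub_const c).sin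

theorem hasDerivAt_cos' (c u : ℝ) : HasDerivAt (fun u => cos (u - c)) (-sin (u - c)) u := by
  simpa using ((hasDerivAt_id u).sub_const c).cos

theorem hasDerivAt_XX (c δ u : ℝ) : HasDerivAt (XX c δ) (2 * sin (u - c) / δ ^ 2) u := by
  have h2 := (((hasDerivAt_cos' c u).const_sub 1).const_mul 2).div_const (δ ^ 2)
  exact h2.congr_deriv (by rw [neg_neg])

theorem hasDerivAt_beta (c δ u : ℝ) : HasDerivAt (fun u => bump (XX c δ u))
    (-3 * mm c δ u ^ 2 * (2 * sin (u - c) / δ ^ 2)) u :=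
  (hasDerivAt_bump (XX c δ u)).comp u (hasDerivAt_XX c δ u)

theorem hasDerivAt_beta' (c δ u : ℝ) :
    HasDerivAt (fun u => -3 * mm c δ u ^ 2 * (2 * sin (u - c) / δ ^ 2))
    (6 * mm c δ u * (2 * sin (u - c) / δ ^ 2) * (2 * sin (u - c) / δ ^ 2)
      + (-3 * mm c δ u ^ 2) * (2 * cos (u - c) / δ ^ 2)) u := by
  have h1 : HasDerivAt (fun u => -3 * mm c δ u ^ 2) (6 * mm c δ u * (2 * sin (u - c) / δ ^ 2)) u :=
    (hasDerivAt_bump' (XX c δ u)).comp u (hasDerivAt_XX c δ u)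
  have h2 : HasDerivAt (fun u => 2 * sin (u - c) / δ ^ 2) (2 * cos (u - c) / δ ^ 2) u :=
    ((hasDerivAt_sin' c u).const_mul 2).div_const (δ ^ 2)
  exact h1.mul h2

theorem deriv_prod (c δ : ℝ) (g g' g'' : ℝ → ℝ) (hg : ∀ u, HasDerivAt g (g' u) u)
    (hg' : ∀ u, HasDerivAt g' (g'' u) u) :
    deriv (fun u => bump (XX c δ u) * g u) =
      (fun u => -3 * mm c δ u ^ 2 * (2 * sin (u - c) / δ ^ 2) * g u + bump (XX c δ u) * g' u) ∧
    deriv (deriv (fun u => bump (XX c δ u) * g u)) =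
      (fun u => ((6 * mm c δ u * (2 * sin (u - c) / δ ^ 2) * (2 * sin (u - c) / δ ^ 2)
        + (-3 * mm c δ u ^ 2) * (2 * cos (u - c) / δ ^ 2)) * g u
        + -3 * mm c δ u ^ 2 * (2 * sin (u - c) / δ ^ 2) * g' u)
        + (-3 * mm c δ u ^ 2 * (2 * sin (u - c) / δ ^ 2) * g' u + bump (XX c δ u) * g'' u)) := by
  have e1 : deriv (fun u => bump (XX c δ u) * g u) =
      (fun u => -3 * mm c δ u ^ 2 * (2 * sin (u - c) / δ ^ 2) * g u + bump (XX c δ u) * g' u) := by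
    funext u
    exact ((hasDerivAt_beta c δ u).mul (hg u)).deriv
  refine ⟨e1, ?_⟩
  rw [e1]
  funext u
  exact (((hasDerivAt_beta' c δ u).mul (hg u)).add ((hasDerivAt_beta c δ u).mul (hg' u))).deriv

theorem bump_eq_mm (c δ u : ℝ) : bump (XX c δ u) = mm c δ u ^ 3 := rfl

/-- bounded and Lipschitz -/
def BL (B L : ℝ) (f : ℝ → ℝ) : Prop := (∀ u, |f u| ≤ B) ∧ ∀ u v, |f u - f v| ≤ L * |u - v|

theorem BL.nonneg {B L : ℝ} {f : ℝ → ℝ} (h : BL B L f) : 0 ≤ B := (abs_nonneg _).trans (h.1 0)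

theorem BL.add {B L B' L' : ℝ} {f g : ℝ → ℝ} (hf : BL B L f) (hg : BL B' L' g) :
    BL (B + B') (L + L') (fun u => f u + g u) := by
  constructor
  · intro u
    exact (abs_add_le _ _).trans (add_le_add (hf.1 u) (hg.1 u))
  · intro u v
    have h1 := hf.2 u v
    have h2 := hg.2 u v
    have h3 := abs_add_le (f u - f v) (g u - g v)
    have e : f u + g u - (f v + g v) = (f u - f v) + (g u - g v) := by ring
    show |f u + g u - (f v + g v)| ≤ _
    rw [e]
    linarith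

theorem BL.mul {B L B' L' : ℝ} {f g : ℝ → ℝ} (hf : BL B L f) (hg : BL B' L' g) :
    BL (B * B') (B * L' + B' * L) (fun u => f u * g u) := by
  constructor
  · intro u
    show |f u * g u| ≤ _
    rw [abs_mul]
    exact mul_le_mul (hf.1 u) (hg.1 u) (abs_nonneg _) hf.nonneg
  · intro u v
    have h1 := hf.2 u v
    have h2 := hg.2 u v
    have e : f u * g u - f v * g v = f u * (g u - g v) + g v * (f u - f v) := by ring
    show |f u * g u - f v * g v| ≤ _
    rw [e]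
    have h3 : |f u * (g u - g v)| ≤ B * (L' * |u - v|) := by
      rw [abs_mul]
      exact mul_le_mul (hf.1 u) h2 (abs_nonneg _) hf.nonneg
    have h4 : |g v * (f u - f v)| ≤ B' * (L * |u - v|) := by
      rw [abs_mul]
      exact mul_le_mul (hg.1 v) h1 (abs_nonneg _) hg.nonneg
    have h5 := abs_add_le (f u * (g u - g v)) (g v * (f u - f v))
    calc _ ≤ _ := h5
      _ ≤ B * (L' * |u - v|) + B' * (L * |u - v|) := add_le_add h3 h4
      _ = _ := by ring

theorem BL.const {B a : ℝ} (h : |a| ≤ B) : BL B 0 (fun _ => a) :=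
  ⟨fun _ => h, fun u v => by simp⟩

theorem abs_ds_sub (u v c : ℝ) : |ds u c - ds v c| ≤ |u - v| := by
  unfold ds
  have h1 := abs_abs_sub_abs_le (sin ((u - c) / 2)) (sin ((v - c) / 2))
  have h2 := Real.abs_sin_sub_sin_le ((u - c) / 2) ((v - c) / 2)
  have e : (u - c) / 2 - (v - c) / 2 = (u - v) / 2 := by ring
  rw [e] at h2
  have h3 : |(u - v) / 2| = |u - v| / 2 := by rw [abs_div]; norm_num
  rw [h3] at h2
  rw [← mul_sub, abs_mul, abs_two]
  linarith

theorem ds_nonneg' (u v : ℝ) : 0 ≤ ds u v := by unfold ds; positivity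

theorem pos_part_lip {r s : ℝ} (hr : 0 ≤ r) (hs : 0 ≤ s) :
    max 0 (1 - r ^ 2) - max 0 (1 - s ^ 2) ≤ 2 * |r - s| := by
  rcases le_total (1 - r ^ 2) 0 with h | h
  · rw [max_eq_left h]
    have h1 := le_max_left 0 (1 - s ^ 2)
    have h2 := abs_nonneg (r - s)
    linarith
  · rw [max_eq_right h]
    have hr1 : r ≤ 1 := by nlinarith
    have h3 := neg_abs_le (r - s)
    rcases le_total s 1 with h4 | h4
    · have h5 := le_max_right 0 (1 - s ^ 2)
      have h6 : (s - r) * (s + r) ≤ 2 * |r - s| := by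
        rcases le_total r s with h7 | h7
        · have : s - r ≤ |r - s| := by linarith
          nlinarith
        · have := abs_nonneg (r - s)
          nlinarith
      nlinarith
    · have h5 := le_max_left 0 (1 - s ^ 2)
      nlinarith

theorem mm_eq (c δ u : ℝ) : mm c δ u = max 0 (1 - (ds u c / δ) ^ 2) := by
  unfold mm XX
  rw [div_pow, ds_sq]

theorem BL_mm {c δ : ℝ} (hδ : 0 < δ) : BL 1 (2 * (1 / δ)) (mm c δ) := by
  constructor
  · intro u
    rw [mm_eq, abs_of_nonneg (le_max_left _ _)]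
    apply max_le zero_le_one
    have := sq_nonneg (ds u c / δ)
    linarith
  · intro u v
    have hu : 0 ≤ ds u c / δ := div_nonneg (ds_nonneg' _ _) hδ.le
    have hv : 0 ≤ ds v c / δ := div_nonneg (ds_nonneg' _ _) hδ.le
    have h1 := pos_part_lip hu hv
    have h2 := pos_part_lip hv hu
    rw [abs_sub_comm (ds v c / δ)] at h2
    have h3 : |ds u c / δ - ds v c / δ| ≤ 1 / δ * |u - v| := by
      rw [← sub_div, abs_div, abs_of_pos hδ, div_mul_eq_mul_div, one_mul]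
      exact div_le_div_of_nonneg_right (abs_ds_sub u v c) hδ.le
    rw [mm_eq, mm_eq, abs_le]
    constructor <;> linarith

/-- truncated rescaled sine -/
noncomputable def sg (c δ u : ℝ) : ℝ := clampR (sin (u - c) / δ)

theorem clampR_lip (a b : ℝ) : |clampR a - clampR b| ≤ |a - b| := by
  unfold clampR
  have h1 := abs_max_sub_max_le_max (-1) (min 1 a) (-1) (min 1 b)
  have h2 := abs_min_sub_min_le_max 1 a 1 b
  rw [sub_self, abs_zero] at h1 h2
  exact (h1.trans (max_le (abs_nonneg _) le_rfl)).trans (h2.trans (max_le (abs_nonneg _) le_rfl))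

theorem BL_sg {c δ : ℝ} (hδ : 0 < δ) : BL 1 (1 / δ) (sg c δ) := by
  constructor
  · intro u
    exact abs_clampR _
  · intro u v
    refine (clampR_lip _ _).trans ?_
    rw [← sub_div, abs_div, abs_of_pos hδ, div_mul_eq_mul_div, one_mul]
    apply div_le_div_of_nonneg_right _ hδ.le
    have := Real.abs_sin_sub_sin_le (u - c) (v - c)
    have e : u - c - (v - c) = u - v := by ring
    rwa [e] at this

theorem BL_cos {c δ : ℝ} (hδ : 0 < δ) (hδ1 : δ ≤ 1) : BL 1 (1 / δ) (fun u => cos (u - c)) := by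
  constructor
  · intro u
    exact Real.abs_cos_le_one _
  · intro u v
    have := Real.abs_cos_sub_cos_le (u - c) (v - c)
    have e : u - c - (v - c) = u - v := by ring
    rw [e] at this
    refine this.trans ?_
    have h1 : 1 ≤ 1 / δ := by rw [le_div_iff₀ hδ]; linarith
    have h2 := abs_nonneg (u - v)
    nlinarith

theorem BL_one_sub {c δ : ℝ} (hδ : 0 < δ) : BL 1 (2 * (1 / δ)) (fun u => 1 - mm c δ u) := by
  obtain ⟨h1, h2⟩ := BL_mm (c := c) hδ
  constructor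
  · intro u
    have h3 := h1 u
    have h4 : 0 ≤ mm c δ u := le_max_left _ _
    rw [abs_of_nonneg h4] at h3
    show |1 - mm c δ u| ≤ 1
    rw [abs_le]; constructor <;> linarith
  · intro u v
    have h3 := h2 u v
    show |1 - mm c δ u - (1 - mm c δ v)| ≤ _
    have e : 1 - mm c δ u - (1 - mm c δ v) = -(mm c δ u - mm c δ v) := by ring
    rw [e, abs_neg]
    exact h3

/-- where the positive part does not vanish -/
theorem facts {c δ u : ℝ} (hδ : 0 < δ) (h : mm c δ u ≠ 0) :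
    XX c δ u = 1 - mm c δ u ∧ sin (u - c) / δ = sg c δ u := by
  have h1 : 0 < 1 - XX c δ u := by
    by_contra h'
    exact h (max_eq_left (not_lt.mp h'))
  have h2 : mm c δ u = 1 - XX c δ u := max_eq_right h1.le
  refine ⟨by linarith, ?_⟩
  unfold sg
  rw [clampR_of_abs_le]
  rw [abs_div, abs_of_pos hδ, div_le_one hδ]
  apply abs_le_of_sq_le_sq _ hδ.le
  have h3 : 2 * (1 - cos (u - c)) < δ ^ 2 := by
    unfold XX at h1
    have h4 : 2 * (1 - cos (u - c)) / δ ^ 2 < 1 := by linarith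
    rwa [div_lt_one (by positivity)] at h4
  have h5 := Real.sin_sq_add_cos_sq (u - c)
  have h6 := Real.cos_le_one (u - c)
  have h7 := Real.neg_one_le_cos (u - c)
  nlinarith

theorem dl_pos {N q : ℕ} (hN : 1 ≤ N) (hq : 1 ≤ q) : 0 < dl N q ∧ dl N q ≤ 1 := by
  have hN' : (1 : ℝ) ≤ N := by exact_mod_cast hN
  have h2 : (1 : ℝ) ≤ 2 ^ q := one_le_pow₀ (by norm_num)
  have hq0 : q ≠ 0 := by omega
  unfold dl
  rw [if_neg hq0]
  have h3 : (1 : ℝ) ≤ (N : ℝ) ^ 2 * 2 ^ q := by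
    have : (1 : ℝ) ≤ (N : ℝ) ^ 2 := one_le_pow₀ hN'
    nlinarith
  refine ⟨by positivity, ?_⟩
  rw [div_le_one (by linarith)]
  exact h3

/-- the three profiles -/
noncomputable def g0 (b c δ x0 x1 x2 u : ℝ) : ℝ :=
  b * (x0 + x1 * sin (u - c) / δ + x2 * (2 * (1 - cos (u - c))) / δ ^ 2)
noncomputable def g1 (b c δ x1 x2 u : ℝ) : ℝ :=
  b * (x1 * cos (u - c) / δ + x2 * (2 * sin (u - c)) / δ ^ 2)
noncomputable def g2 (b c δ x1 x2 u : ℝ) : ℝ :=
  b * (-x1 * sin (u - c) / δ + x2 * (2 * cos (u - c)) / δ ^ 2)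

theorem hg0 (b c δ x0 x1 x2 u : ℝ) : HasDerivAt (g0 b c δ x0 x1 x2) (g1 b c δ x1 x2 u) u := by
  have h := (((((hasDerivAt_sin' c u).const_mul x1).div_const δ).const_add x0).add
    (((((hasDerivAt_cos' c u).const_sub 1).const_mul 2).const_mul x2).div_const (δ ^ 2))).const_mul b
  refine HasDerivAt.congr_deriv (f' := _) h ?_
  unfold g1
  ring

theorem hg1 (b c δ x1 x2 u : ℝ) : HasDerivAt (g1 b c δ x1 x2) (g2 b c δ x1 x2 u) u := by
  have h := ((((hasDerivAt_cos' c u).const_mul x1).div_const δ).add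
    ((((hasDerivAt_sin' c u).const_mul 2).const_mul x2).div_const (δ ^ 2))).const_mul b
  refine HasDerivAt.congr_deriv (f' := _) h ?_
  unfold g2
  ring

theorem cell_eq {N q : ℕ} (hq : 1 ≤ q) (i : ℕ) (x : Fin 3 → ℝ) :
    cellF N q i x = fun u => bump (XX (ctr (nc N q) i) (dl N q) u) *
      g0 (e2 * dl N q ^ (2 + al)) (ctr (nc N q) i) (dl N q) (clampR (x 0)) (clampR (x 1))
        (clampR (x 2)) u := by
  have hq0 : q ≠ 0 := by omega
  funext u
  unfold cellF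
  rw [if_neg hq0, bmp_eq]
  unfold Gq g0 XX
  rw [ds_sq]

/-- normalised value, first and second derivative -/
noncomputable def P0 (c δ x0 x1 x2 u : ℝ) : ℝ :=
  (mm c δ u * mm c δ u * mm c δ u) * ((x0 + x1 * sg c δ u) + x2 * (1 - mm c δ u))
noncomputable def P1 (c δ x0 x1 x2 u : ℝ) : ℝ :=
  ((-6) * (mm c δ u * mm c δ u * sg c δ u)) * ((x0 + x1 * sg c δ u) + x2 * (1 - mm c δ u)) +
    (mm c δ u * mm c δ u * mm c δ u) * (x1 * cos (u - c) + (2 * x2) * sg c δ u)
noncomputable def P2 (c δ x0 x1 x2 u : ℝ) : ℝ :=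
  (24 * (mm c δ u * sg c δ u * sg c δ u) + (-6) * (mm c δ u * mm c δ u * cos (u - c))) *
      ((x0 + x1 * sg c δ u) + x2 * (1 - mm c δ u)) +
    ((-12) * (mm c δ u * mm c δ u * sg c δ u)) * (x1 * cos (u - c) + (2 * x2) * sg c δ u) +
    (mm c δ u * mm c δ u * mm c δ u) * ((-x1 * δ ^ 2) * sg c δ u + (2 * x2) * cos (u - c))

theorem val_eq (b c δ x0 x1 x2 : ℝ) (hδ : 0 < δ) (u : ℝ) :
    bump (XX c δ u) * g0 b c δ x0 x1 x2 u = b * P0 c δ x0 x1 x2 u := by
  rw [bump_eq_mm]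
  by_cases h : mm c δ u = 0
  · unfold P0
    rw [h]; ring
  · obtain ⟨h1, h2⟩ := facts hδ h
    unfold P0 g0
    rw [← h1, ← h2]
    unfold XX
    ring

theorem d1_eq (b c δ x0 x1 x2 : ℝ) (hδ : 0 < δ) (u : ℝ) :
    -3 * mm c δ u ^ 2 * (2 * sin (u - c) / δ ^ 2) * g0 b c δ x0 x1 x2 u +
      bump (XX c δ u) * g1 b c δ x1 x2 u = b / δ * P1 c δ x0 x1 x2 u := by
  rw [bump_eq_mm]
  by_cases h : mm c δ u = 0
  · unfold P1
    rw [h]; ring
  · obtain ⟨h1, h2⟩ := facts hδ h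
    unfold P1 g0 g1
    rw [← h1, ← h2]
    unfold XX
    field_simp
    ring

theorem d2_eq (b c δ x0 x1 x2 : ℝ) (hδ : 0 < δ) (u : ℝ) :
    ((6 * mm c δ u * (2 * sin (u - c) / δ ^ 2) * (2 * sin (u - c) / δ ^ 2)
        + (-3 * mm c δ u ^ 2) * (2 * cos (u - c) / δ ^ 2)) * g0 b c δ x0 x1 x2 u
        + -3 * mm c δ u ^ 2 * (2 * sin (u - c) / δ ^ 2) * g1 b c δ x1 x2 u)
        + (-3 * mm c δ u ^ 2 * (2 * sin (u - c) / δ ^ 2) * g1 b c δ x1 x2 u
          + bump (XX c δ u) * g2 b c δ x1 x2 u)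
      = b / δ ^ 2 * P2 c δ x0 x1 x2 u := by
  rw [bump_eq_mm]
  by_cases h : mm c δ u = 0
  · unfold P2
    rw [h]; ring
  · obtain ⟨h1, h2⟩ := facts hδ h
    unfold P2 g0 g1 g2
    rw [← h1, ← h2]
    unfold XX
    field_simp
    ring

theorem BL_P0 {c δ x0 x1 x2 : ℝ} (hδ : 0 < δ) (h0 : |x0| ≤ 1) (h1 : |x1| ≤ 1)
    (h2 : |x2| ≤ 1) : ∀ u, |P0 c δ x0 x1 x2 u| ≤ 4 := by
  have h := (((BL_mm (c := c) hδ).mul (BL_mm (c := c) hδ)).mul (BL_mm (c := c) hδ)).mul
    (((BL.const h0).add ((BL.const h1).mul (BL_sg (c := c) hδ))).add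
      ((BL.const h2).mul (BL_one_sub (c := c) hδ)))
  intro u
  refine (h.1 u).trans ?_
  norm_num

theorem BL_P1 {c δ x0 x1 x2 : ℝ} (hδ : 0 < δ) (hδ1 : δ ≤ 1) (h0 : |x0| ≤ 1) (h1 : |x1| ≤ 1)
    (h2 : |x2| ≤ 1) : ∀ u, |P1 c δ x0 x1 x2 u| ≤ 25 := by
  have h22 : |2 * x2| ≤ 2 := by rw [abs_mul, abs_two]; linarith
  have hm := BL_mm (c := c) hδ
  have hs := BL_sg (c := c) hδ
  have hc := BL_cos (c := c) hδ hδ1
  have h := (((BL.const (show |(-6 : ℝ)| ≤ 6 by norm_num)).mul ((hm.mul hm).mul hs)).mul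
    (((BL.const h0).add ((BL.const h1).mul hs)).add ((BL.const h2).mul (BL_one_sub (c := c) hδ)))).add
    (((hm.mul hm).mul hm).mul (((BL.const h1).mul hc).add ((BL.const h22).mul hs)))
  intro u
  refine (h.1 u).trans ?_
  norm_num

theorem BL_P2 {c δ x0 x1 x2 : ℝ} (hδ : 0 < δ) (hδ1 : δ ≤ 1) (h0 : |x0| ≤ 1) (h1 : |x1| ≤ 1)
    (h2 : |x2| ≤ 1) : BL 160 (10000 * (1 / δ)) (P2 c δ x0 x1 x2) := by
  have h22 : |2 * x2| ≤ 2 := by rw [abs_mul, abs_two]; linarith
  have h1d : |-x1 * δ ^ 2| ≤ 1 := by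
    rw [abs_mul, abs_neg, abs_of_nonneg (sq_nonneg δ)]
    have h3 : δ ^ 2 ≤ 1 := by nlinarith
    have h4 := abs_nonneg x1
    have h5 := sq_nonneg δ
    nlinarith
  have hm := BL_mm (c := c) hδ
  have hs := BL_sg (c := c) hδ
  have hc := BL_cos (c := c) hδ hδ1
  have h := ((((BL.const (show |(24 : ℝ)| ≤ 24 by norm_num)).mul ((hm.mul hs).mul hs)).add
      ((BL.const (show |(-6 : ℝ)| ≤ 6 by norm_num)).mul ((hm.mul hm).mul hc))).mul
    (((BL.const h0).add ((BL.const h1).mul hs)).add ((BL.const h2).mul (BL_one_sub (c := c) hδ)))).add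
    (((BL.const (show |(-12 : ℝ)| ≤ 12 by norm_num)).mul ((hm.mul hm).mul hs)).mul
      (((BL.const h1).mul hc).add ((BL.const h22).mul hs))) |>.add
    (((hm.mul hm).mul hm).mul (((BL.const h1d).mul hs).add ((BL.const h22).mul hc)))
  have hk : 0 < 1 / δ := by positivity
  constructor
  · intro u
    refine (h.1 u).trans ?_
    norm_num
  · intro u v
    refine (h.2 u v).trans ?_
    apply mul_le_mul_of_nonneg_right _ (abs_nonneg _)
    generalize 1 / δ = k at hk ⊢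
    nlinarith

end R02_aux

open R02_aux in
/-- One cell of level `q ≥ 1`: smoothness, periodicity, bounds, support.
(`b = e2 * dl^(2+al)`, `δ = dl N q`.) -/
theorem cell_smooth {N q : ℕ} (hN : 1 ≤ N) (hq : 1 ≤ q) (i : ℕ) (x : Fin 3 → ℝ) :
    ContDiff ℝ 2 (cellF N q i x) ∧ Function.Periodic (cellF N q i x) (2 * π) := by
  rw [cell_eq hq]
  constructor
  · have h1 : ContDiff ℝ 2 (XX (ctr (nc N q) i) (dl N q)) := by
      unfold XX
      exact ((contDiff_const.sub (Real.contDiff_cos.comp (contDiff_id.sub contDiff_const))).const_smul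
        (2 : ℝ)).div_const _
    have h2 : ContDiff ℝ 2 (g0 (e2 * dl N q ^ (2 + al)) (ctr (nc N q) i) (dl N q) (clampR (x 0))
        (clampR (x 1)) (clampR (x 2))) := by
      unfold g0
      fun_prop
    exact (contDiff_bump.comp h1).mul h2
  · intro u
    have e : u + 2 * π - ctr (nc N q) i = (u - ctr (nc N q) i) + 2 * π := by ring
    show bump (XX (ctr (nc N q) i) (dl N q) (u + 2 * π)) * g0 _ _ _ _ _ _ (u + 2 * π) = _
    unfold XX g0
    rw [e, Real.cos_add_two_pi, Real.sin_add_two_pi]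

open R02_aux in
theorem cell_bounds {N q : ℕ} (hN : 1 ≤ N) (hq : 1 ≤ q) (i : ℕ) (x : Fin 3 → ℝ) (u : ℝ) :
    |cellF N q i x u| ≤ 4 * (e2 * dl N q ^ (2 + al)) ∧
    |deriv (cellF N q i x) u| ≤ 25 * (e2 * dl N q ^ (2 + al)) / dl N q ∧
    |deriv (deriv (cellF N q i x)) u| ≤ 160 * (e2 * dl N q ^ (2 + al)) / dl N q ^ 2 := by
  obtain ⟨hd, hd1⟩ := dl_pos hN hq
  have hb : 0 < e2 * dl N q ^ (2 + al) := by
    have : (0 : ℝ) < e2 := by unfold e2; norm_num
    exact mul_pos this (Real.rpow_pos_of_pos hd _)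
  rw [cell_eq hq]
  obtain ⟨e1, e3⟩ := deriv_prod (ctr (nc N q) i) (dl N q)
    (g0 (e2 * dl N q ^ (2 + al)) (ctr (nc N q) i) (dl N q) (clampR (x 0)) (clampR (x 1)) (clampR (x 2)))
    _ _ (hg0 _ _ _ _ _ _) (hg1 _ _ _ _ _)
  rw [e3, e1]
  refine ⟨?_, ?_, ?_⟩
  · show |bump (XX (ctr (nc N q) i) (dl N q) u) * g0 _ _ _ _ _ _ u| ≤ _
    rw [val_eq _ _ _ _ _ _ hd, abs_mul, abs_of_pos hb]
    have := BL_P0 (c := ctr (nc N q) i) hd (abs_clampR (x 0)) (abs_clampR (x 1)) (abs_clampR (x 2)) u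
    nlinarith
  · show |-3 * mm (ctr (nc N q) i) (dl N q) u ^ 2 * (2 * sin (u - ctr (nc N q) i) / dl N q ^ 2) *
      g0 _ _ _ _ _ _ u + bump (XX (ctr (nc N q) i) (dl N q) u) * g1 _ _ _ _ _ u| ≤ _
    rw [d1_eq _ _ _ _ _ _ hd, abs_mul, abs_of_pos (div_pos hb hd)]
    have := BL_P1 (c := ctr (nc N q) i) hd hd1 (abs_clampR (x 0)) (abs_clampR (x 1)) (abs_clampR (x 2)) u
    calc _ ≤ e2 * dl N q ^ (2 + al) / dl N q * 25 :=
          mul_le_mul_of_nonneg_left this (div_pos hb hd).le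
      _ = _ := by ring
  · have h := d2_eq (e2 * dl N q ^ (2 + al)) (ctr (nc N q) i) (dl N q) (clampR (x 0)) (clampR (x 1))
      (clampR (x 2)) hd u
    beta_reduce
    rw [h, abs_mul, abs_of_pos (div_pos hb (by positivity))]
    have := (BL_P2 (c := ctr (nc N q) i) hd hd1 (abs_clampR (x 0)) (abs_clampR (x 1))
      (abs_clampR (x 2))).1 u
    calc _ ≤ e2 * dl N q ^ (2 + al) / dl N q ^ 2 * 160 :=
          mul_le_mul_of_nonneg_left this (div_pos hb (by positivity)).le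
      _ = _ := by ring

open R02_aux in
theorem cell_lip : ∃ C : ℝ, 1 ≤ C ∧ ∀ {N q : ℕ}, 1 ≤ N → 1 ≤ q → ∀ (i : ℕ) (x : Fin 3 → ℝ)
    (u v : ℝ), |deriv (deriv (cellF N q i x)) u - deriv (deriv (cellF N q i x)) v| ≤
      C * (e2 * dl N q ^ (2 + al)) / dl N q ^ 3 * |u - v| := by
  refine ⟨10000, by norm_num, ?_⟩
  intro N q hN hq i x u v
  obtain ⟨hd, hd1⟩ := dl_pos hN hq
  have hb : 0 < e2 * dl N q ^ (2 + al) := by
    have : (0 : ℝ) < e2 := by unfold e2; norm_num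
    exact mul_pos this (Real.rpow_pos_of_pos hd _)
  rw [cell_eq hq]
  obtain ⟨e1, e3⟩ := deriv_prod (ctr (nc N q) i) (dl N q)
    (g0 (e2 * dl N q ^ (2 + al)) (ctr (nc N q) i) (dl N q) (clampR (x 0)) (clampR (x 1)) (clampR (x 2)))
    _ _ (hg0 _ _ _ _ _ _) (hg1 _ _ _ _ _)
  rw [e3]
  have h1 := d2_eq (e2 * dl N q ^ (2 + al)) (ctr (nc N q) i) (dl N q) (clampR (x 0)) (clampR (x 1))
      (clampR (x 2)) hd u
  have h2 := d2_eq (e2 * dl N q ^ (2 + al)) (ctr (nc N q) i) (dl N q) (clampR (x 0)) (clampR (x 1))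
      (clampR (x 2)) hd v
  beta_reduce
  rw [h1, h2, ← mul_sub, abs_mul, abs_of_pos (div_pos hb (by positivity))]
  have := (BL_P2 (c := ctr (nc N q) i) hd hd1 (abs_clampR (x 0)) (abs_clampR (x 1))
      (abs_clampR (x 2))).2 u v
  calc _ ≤ e2 * dl N q ^ (2 + al) / dl N q ^ 2 * (10000 * (1 / dl N q) * |u - v|) :=
        mul_le_mul_of_nonneg_left this (div_pos hb (by positivity)).le
    _ = _ := by field_simp

open R02_aux in
/-- cells (of every level) vanish with two derivatives off `{ds < δ}` -/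
theorem cell_off {N q : ℕ} (hN : 4 ≤ N) (i : ℕ) (x : Fin 3 → ℝ) {u : ℝ}
    (hu : dl N q ≤ ds u (ctr (nc N q) i)) :
    cellF N q i x u = 0 ∧ deriv (cellF N q i x) u = 0 ∧ deriv (deriv (cellF N q i x)) u = 0 := by
  have hd : 0 < dl N q := by
    rcases Nat.eq_zero_or_pos q with h | h
    · subst h
      unfold dl
      rw [if_pos rfl]
      have hN' : (4 : ℝ) ≤ N := by exact_mod_cast hN
      have h1 : 0 < π / N := div_pos Real.pi_pos (by linarith)
      have h2 : π / N < π := by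
        rw [div_lt_iff₀ (by linarith)]
        nlinarith [Real.pi_pos]
      have := Real.sin_pos_of_pos_of_lt_pi h1 h2
      linarith
    · exact (dl_pos (by omega) h).1
  have hm : mm (ctr (nc N q) i) (dl N q) u = 0 := by
    rw [mm_eq]
    apply max_eq_left
    have h1 : 1 ≤ ds u (ctr (nc N q) i) / dl N q := by rw [le_div_iff₀ hd]; linarith
    nlinarith
  obtain ⟨g, g', g'', hg, hg', hcell⟩ : ∃ g g' g'' : ℝ → ℝ, (∀ u, HasDerivAt g (g' u) u) ∧
      (∀ u, HasDerivAt g' (g'' u) u) ∧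
      cellF N q i x = fun u => bump (XX (ctr (nc N q) i) (dl N q) u) * g u := by
    rcases Nat.eq_zero_or_pos q with h | h
    · subst h
      refine ⟨G0 N i x, fun u => (aa / (N : ℝ) ^ 4) * (sin ((N : ℝ) ^ 2 * u + π * clampR (x 0)) * (N : ℝ) ^ 2)
          + e3 / (N : ℝ) ^ 2 * (clampR (x 2) * N * cos (u - ctr N i)),
        fun u => (aa / (N : ℝ) ^ 4) * (cos ((N : ℝ) ^ 2 * u + π * clampR (x 0)) * (N : ℝ) ^ 2 * (N : ℝ) ^ 2)
          + e3 / (N : ℝ) ^ 2 * (clampR (x 2) * N * (-sin (u - ctr N i))), ?_, ?_, ?_⟩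
      · intro u
        have h0 : HasDerivAt (fun u => (N : ℝ) ^ 2 * u + π * clampR (x 0)) ((N : ℝ) ^ 2) u := by
          simpa using ((hasDerivAt_id u).const_mul ((N : ℝ) ^ 2)).add_const (π * clampR (x 0))
        have h1 := (h0.cos.const_mul (-(aa / (N : ℝ) ^ 4))).add
          ((((hasDerivAt_sin' (ctr N i) u).const_mul (clampR (x 2) * N)).const_add (clampR (x 1))).const_mul
            (e3 / (N : ℝ) ^ 2))
        exact HasDerivAt.congr_deriv h1 (by ring)
      · intro u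
        have h0 : HasDerivAt (fun u => (N : ℝ) ^ 2 * u + π * clampR (x 0)) ((N : ℝ) ^ 2) u := by
          simpa using ((hasDerivAt_id u).const_mul ((N : ℝ) ^ 2)).add_const (π * clampR (x 0))
        have h1 := ((h0.sin.mul_const ((N : ℝ) ^ 2)).const_mul (aa / (N : ℝ) ^ 4)).add
          (((hasDerivAt_cos' (ctr N i) u).const_mul (clampR (x 2) * N)).const_mul
            (e3 / (N : ℝ) ^ 2))
        exact h1
      · funext u
        unfold cellF
        rw [if_pos rfl, bmp_eq]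
        rfl
    · exact ⟨_, _, _, hg0 _ _ _ _ _ _, hg1 _ _ _ _ _, cell_eq h i x⟩
  obtain ⟨e1, e3⟩ := deriv_prod (ctr (nc N q) i) (dl N q) g g' g'' hg hg'
  rw [hcell, e3, e1]
  simp only [bump_eq_mm, hm]
  refine ⟨?_, ?_, ?_⟩ <;> ring

end BilEnt
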