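import Pool.Agent.BilEnt.Defs

/-!
# MP_bd32bb_an, part R, module R03 (doc proof/MP_bd32bb_an_entropy)

HINT. Work with `x = n u/(2π)`; `ds u (ctr n i) < δ` means that `u - ctr n i` is within `2 arcsin(δ/2)` of `2πℤ`.
Level q ≥ 1: spacing `2π/(7N²2^q) = 0.8975.. δ`, window length `< 2.01 δ` so at most 3 residues; level 0: spacing exactly
`2π/N`, `ds < 2 sin(π/N)` gives circular distance `< 2π/N`.  `exists_cell`: round.  `betaN` uses `round` as well.
-/

open MeasureTheory Real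
open scoped ENNReal

namespace BilEnt

namespace R03_aux

/-- shifting the centre by full turns -/
lemma half_diff {n : ℕ} (hn : 0 < n) (u : ℝ) (i k : ℤ) :
    (u - 2 * π * i / n) / 2 = π * ((n * u / (2 * π) - (i + n * k)) / n) + k * π := by
  have h1 : (n : ℝ) ≠ 0 := by exact_mod_cast hn.ne'
  have h2 := Real.pi_pos.ne'
  field_simp
  ring

lemma abs_sin_shift {n : ℕ} (hn : 0 < n) (u : ℝ) (i k : ℤ) :
    |sin ((u - 2 * π * i / n) / 2)| = |sin (π * ((n * u / (2 * π) - (i + n * k)) / n))| := by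
  rw [half_diff hn u i k, Real.sin_add_int_mul_pi, abs_mul, abs_zpow, abs_neg, abs_one, one_zpow,
    one_mul]

lemma ds_shift {n : ℕ} (hn : 0 < n) (u : ℝ) (i : ℕ) (k : ℤ) :
    ds u (ctr n i) = 2 * |sin (π * ((n * u / (2 * π) - ((i : ℤ) + n * k : ℤ)) / n))| := by
  unfold ds ctr
  have h := abs_sin_shift hn u (i : ℤ) k
  push_cast at h ⊢
  rw [h]

/-- the nearest centre -/
lemma near {n : ℕ} (hn : 0 < n) (u : ℝ) (i : ℕ) :
    ∃ k : ℤ, |(n * u / (2 * π) - ((i : ℤ) + n * k : ℤ)) / n| ≤ 1 / 2 := by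
  have h1 : (0 : ℝ) < (n : ℝ) := by exact_mod_cast hn
  refine ⟨round ((n * u / (2 * π) - i) / n), ?_⟩
  have h := abs_sub_round ((n * u / (2 * π) - (i : ℝ)) / n)
  have e : (n * u / (2 * π) - (((i : ℤ) + n * round ((n * u / (2 * π) - (i : ℝ)) / n) : ℤ) : ℝ)) / n
      = (n * u / (2 * π) - i) / n - round ((n * u / (2 * π) - (i : ℝ)) / n) := by
    push_cast
    field_simp
    ring
  rw [e]
  exact h

lemma count {n : ℕ} (x : ℝ) (S : Finset ℕ) (hS : ∀ i ∈ S, i < n)
    (h : ∀ i ∈ S, ∃ k : ℤ, |x - ((i : ℤ) + n * k : ℤ)| < 3 / 2) : S.card ≤ 3 := by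
  classical
  choose! k hk using h
  have hcard : (Finset.Icc (⌊x - 3 / 2⌋ + 1) (⌊x - 3 / 2⌋ + 3)).card = 3 := by
    rw [Int.card_Icc]
    have : ⌊x - 3 / 2⌋ + 3 + 1 - (⌊x - 3 / 2⌋ + 1) = 3 := by ring
    rw [this]; rfl
  rw [← hcard]
  refine Finset.card_le_card_of_injOn (fun i => (i : ℤ) + n * k i) ?_ ?_
  · intro i hi
    have h1 := hk i hi
    rw [abs_lt] at h1
    have h2 := Int.lt_floor_add_one (x - 3 / 2)
    have h3 := Int.floor_le (x - 3 / 2)
    rw [Finset.coe_Icc, Set.mem_Icc]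
    constructor
    · have : ((⌊x - 3 / 2⌋ : ℤ) : ℝ) < (((i : ℤ) + n * k i : ℤ) : ℝ) := by linarith
      have h5 := Int.cast_lt.mp this
      beta_reduce
      omega
    · have : (((i : ℤ) + n * k i : ℤ) : ℝ) < ((⌊x - 3 / 2⌋ + 4 : ℤ) : ℝ) := by
        push_cast at h1 h2 h3 ⊢
        linarith
      have h5 := Int.cast_lt.mp this
      beta_reduce
      omega
  · intro i hi j hj hij
    have hi' := hS i hi
    have hj' := hS j hj
    simp only at hij
    have h1 : ((i : ℤ) + n * k i) % n = i := by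
      rw [Int.add_mul_emod_self_left]
      exact Int.emod_eq_of_lt (by omega) (by omega)
    have h2 : ((j : ℤ) + n * k j) % n = j := by
      rw [Int.add_mul_emod_self_left]
      exact Int.emod_eq_of_lt (by omega) (by omega)
    rw [hij, h2] at h1
    exact_mod_cast h1.symm

lemma nc_pos {N : ℕ} (hN : 10 ≤ N) (q : ℕ) : 0 < nc N q := by
  unfold nc
  split_ifs
  · omega
  · positivity

/-- level `q ≥ 1` -/
lemma dl_q {N q : ℕ} (hq : 1 ≤ q) : dl N q = 1 / ((N : ℝ) ^ 2 * 2 ^ q) := by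
  unfold dl
  rw [if_neg (by omega)]

lemma nc_q {N q : ℕ} (hq : 1 ≤ q) : nc N q = 7 * N ^ 2 * 2 ^ q := by
  unfold nc
  rw [if_neg (by omega)]

lemma nc_mul_dl {N q : ℕ} (hN : 10 ≤ N) (hq : 1 ≤ q) : (nc N q : ℝ) * dl N q = 7 := by
  rw [dl_q hq, nc_q hq]
  have : (N : ℝ) ≠ 0 := by
    have : 0 < N := by omega
    exact_mod_cast this.ne'
  push_cast
  field_simp

lemma dl_q_small {N q : ℕ} (hN : 10 ≤ N) (hq : 1 ≤ q) : 0 < dl N q ∧ dl N q ≤ 1 / 200 := by
  rw [dl_q hq]
  have h1 : (10 : ℝ) ≤ N := by exact_mod_cast hN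
  have h2 : (2 : ℝ) ^ 1 ≤ 2 ^ q := pow_le_pow_right₀ (by norm_num) hq
  have h3 : (200 : ℝ) ≤ (N : ℝ) ^ 2 * 2 ^ q := by
    have h4 : (100 : ℝ) ≤ (N : ℝ) ^ 2 := by nlinarith
    nlinarith
  refine ⟨by positivity, ?_⟩
  exact one_div_le_one_div_of_le (by norm_num) h3

/-- small sine -/
lemma small_of_sin {t : ℝ} (ht : |t| ≤ 1 / 2) {δ : ℝ} (hδ : δ ≤ 1 / 200)
    (h : 2 * |sin (π * t)| < δ) : 6 * |t| < δ := by
  have hp := Real.pi_gt_three
  have hp4 := Real.pi_lt_four
  have e : |sin (π * t)| = sin (π * |t|) := by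
    rcases le_total 0 t with h0 | h0
    · rw [abs_of_nonneg h0, abs_of_nonneg]
      rw [abs_of_nonneg h0] at ht
      refine Real.sin_nonneg_of_nonneg_of_le_pi (by positivity) ?_
      nlinarith
    · rw [abs_of_nonpos h0]
      rw [abs_of_nonpos h0] at ht
      rw [show π * t = -(π * -t) by ring, Real.sin_neg, abs_neg, abs_of_nonneg]
      refine Real.sin_nonneg_of_nonneg_of_le_pi ?_ ?_
      · have : 0 ≤ -t := by linarith
        positivity
      · nlinarith
  rw [e] at h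
  set s := |t| with hs
  have hs0 : 0 ≤ s := abs_nonneg t
  have h1 : 2 * s ≤ sin (π * s) := by
    have h2 := Real.mul_le_sin (x := π * s) (by positivity) (by nlinarith)
    have h3 : 2 / π * (π * s) = 2 * s := by
      field_simp
    linarith
  have h4 : s < 1 / 800 := by linarith
  rcases eq_or_lt_of_le hs0 with h5 | h5
  · rw [← h5] at h ⊢
    simp at h
    linarith
  · have h6 : 0 < π * s := by positivity
    have h7 : π * s ≤ 1 / 200 := by nlinarith
    have h8 := Real.sin_gt_sub_cube h6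
    have h9 : (π * s) ^ 3 / 6 ≤ (π * s) / 1000 := by
      have : (π * s) ^ 2 ≤ (1 / 200) ^ 2 := pow_le_pow_left₀ h6.le h7 2
      nlinarith
    have hp1 := Real.pi_gt_d2
    nlinarith

lemma sin_lt_level0 {N : ℕ} (hN : 10 ≤ N) {t : ℝ} (ht : |t| ≤ 1 / 2)
    (h : |sin (π * t)| < sin (π / N)) : |t| < 1 / N := by
  have hN' : (10 : ℝ) ≤ N := by exact_mod_cast hN
  have hp := Real.pi_pos
  by_contra hcon
  push Not at hcon
  have e : sin (π * |t|) ≤ |sin (π * t)| := by
    rcases abs_cases t with ⟨h1, _⟩ | ⟨h1, _⟩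
    · rw [h1]; exact le_abs_self _
    · rw [h1, mul_neg, Real.sin_neg]; exact neg_le_abs _
  have h2 : sin (π / N) ≤ sin (π * |t|) := by
    refine Real.sin_le_sin_of_le_of_le_pi_div_two ?_ ?_ ?_
    · have : 0 ≤ π / N := by positivity
      linarith
    · nlinarith
    · have h3 : π / N = π * (1 / N) := by ring
      rw [h3]
      exact mul_le_mul_of_nonneg_left hcon hp.le
  linarith

/-- the rounded index -/
lemma cidx_eq {n : ℕ} (hn : 0 < n) (x : ℝ) :
    ∃ k : ℤ, (((round x) % (n : ℤ)).toNat : ℤ) + n * k = round x ∧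
      ((round x) % (n : ℤ)).toNat < n := by
  have hn' : (n : ℤ) ≠ 0 := by exact_mod_cast hn.ne'
  have h1 := Int.emod_nonneg (round x) hn'
  have h2 := Int.emod_lt_of_pos (round x) (by exact_mod_cast hn : (0 : ℤ) < n)
  refine ⟨round x / n, ?_, by omega⟩
  rw [Int.toNat_of_nonneg h1]
  exact Int.emod_add_mul_ediv (round x) n

lemma round_diff {n : ℕ} (hn : 0 < n) (u : ℝ) :
    |(n * u / (2 * π) - round (n * u / (2 * π))) / n| ≤ 1 / (2 * n) := by
  have h1 : (0 : ℝ) < (n : ℝ) := by exact_mod_cast hn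
  rw [abs_div, abs_of_pos h1, div_le_iff₀ h1]
  have h := abs_sub_round ((n : ℝ) * u / (2 * π))
  have e : 1 / (2 * (n : ℝ)) * n = 1 / 2 := by field_simp
  rw [e]
  exact h

end R03_aux

open R03_aux

/-- at most three cells of a level are active at a point -/
theorem active_card {N q : ℕ} (hN : 10 ≤ N) (u : ℝ) :
    ((Finset.range (nc N q)).filter (fun i => ds u (ctr (nc N q) i) < dl N q)).card ≤ 3 := by
  have hn := nc_pos hN q
  have hnr : (0 : ℝ) < (nc N q : ℝ) := by exact_mod_cast hn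
  refine count (n := nc N q) ((nc N q : ℝ) * u / (2 * π)) _ (fun i hi => ?_) (fun i hi => ?_)
  · exact Finset.mem_range.mp (Finset.mem_filter.mp hi).1
  · have h1 := (Finset.mem_filter.mp hi).2
    obtain ⟨k, hk⟩ := near hn u i
    refine ⟨k, ?_⟩
    rw [ds_shift hn u i k] at h1
    set t : ℝ := ((nc N q : ℝ) * u / (2 * π) - (((i : ℤ) + (nc N q : ℕ) * k : ℤ) : ℝ)) / (nc N q : ℝ) with ht
    have e : |(nc N q : ℝ) * u / (2 * π) - (((i : ℤ) + (nc N q : ℕ) * k : ℤ) : ℝ)|
        = (nc N q : ℝ) * |t| := by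
      rw [ht, abs_div, abs_of_pos hnr]
      field_simp
    rw [e]
    rcases Nat.eq_zero_or_pos q with h0 | h0
    · subst h0
      have hd : dl N 0 = 2 * sin (π / N) := by unfold dl; rw [if_pos rfl]
      have hc : nc N 0 = N := by unfold nc; rw [if_pos rfl]
      rw [hd] at h1
      have h2 := sin_lt_level0 hN hk (by linarith)
      have hNr : (0 : ℝ) < N := by
        have : 0 < N := by omega
        exact_mod_cast this
      have h3 : (nc N 0 : ℝ) * |t| < (nc N 0 : ℝ) * (1 / N) := by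
        exact mul_lt_mul_of_pos_left h2 hnr
      have h4 : (nc N 0 : ℝ) * (1 / N) = 1 := by
        rw [hc]; field_simp
      linarith
    · have h2 := dl_q_small hN h0
      have h3 := small_of_sin hk h2.2 h1
      have h4 := nc_mul_dl hN h0
      have h5 : (nc N q : ℝ) * (6 * |t|) < (nc N q : ℝ) * dl N q :=
        mul_lt_mul_of_pos_left h3 hnr
      linarith

/-- every point is in the central half of a cell of level `q ≥ 1` -/
theorem exists_cell {N q : ℕ} (hN : 10 ≤ N) (hq : 1 ≤ q) (u : ℝ) :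
    ∃ i < nc N q, ds u (ctr (nc N q) i) ≤ dl N q / 2 ∧ 42 / 100 ≤ bmp N q i u := by
  have hn := nc_pos hN q
  have hnr : (0 : ℝ) < (nc N q : ℝ) := by exact_mod_cast hn
  obtain ⟨k, hk, hlt⟩ := cidx_eq hn ((nc N q : ℝ) * u / (2 * π))
  obtain ⟨hd0, hd1⟩ := dl_q_small hN hq
  set i : ℕ := ((round ((nc N q : ℝ) * u / (2 * π))) % ((nc N q : ℕ) : ℤ)).toNat with hi
  have hds : ds u (ctr (nc N q) i) ≤ dl N q / 2 := by
    rw [ds_shift hn u i k, hk]
    have h1 := round_diff hn u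
    have h2 := Real.abs_sin_le_abs (x := π * (((nc N q : ℝ) * u / (2 * π) -
      round ((nc N q : ℝ) * u / (2 * π))) / (nc N q : ℝ)))
    rw [abs_mul, abs_of_pos Real.pi_pos] at h2
    have h3 : π * |((nc N q : ℝ) * u / (2 * π) - round ((nc N q : ℝ) * u / (2 * π))) / (nc N q : ℝ)|
        ≤ π * (1 / (2 * (nc N q : ℝ))) := mul_le_mul_of_nonneg_left h1 Real.pi_pos.le
    have h4 := nc_mul_dl hN hq
    have h5 : π * (1 / (2 * (nc N q : ℝ))) = π / 14 * dl N q := by
      have h6 : dl N q = 7 / (nc N q : ℝ) := by rw [eq_div_iff hnr.ne']; linarith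
      rw [h6]
      field_simp
      norm_num
    have h7 : π / 14 * dl N q ≤ 1 / 4 * dl N q := by
      refine mul_le_mul_of_nonneg_right ?_ hd0.le
      have := Real.pi_lt_d2
      linarith
    linarith
  refine ⟨i, hlt, hds, ?_⟩
  unfold bmp bump
  have h0 : 0 ≤ ds u (ctr (nc N q) i) := by unfold ds; positivity
  have h1 : ds u (ctr (nc N q) i) ^ 2 / dl N q ^ 2 ≤ 1 / 4 := by
    rw [div_le_iff₀ (by positivity)]
    have := pow_le_pow_left₀ h0 hds 2
    nlinarith
  have h2 : 3 / 4 ≤ max 0 (1 - ds u (ctr (nc N q) i) ^ 2 / dl N q ^ 2) := by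
    refine le_trans ?_ (le_max_right _ _)
    linarith
  have h3 := pow_le_pow_left₀ (by norm_num) h2 3
  refine le_trans ?_ h3
  norm_num

/-- nearest level-0 cell -/
theorem cidx_lt {N : ℕ} (hN : 10 ≤ N) (u : ℝ) : cidx N u < N := by
  obtain ⟨k, -, h⟩ := cidx_eq (n := N) (by omega) ((N : ℝ) * u / (2 * π))
  exact h

theorem bmp_cidx {N : ℕ} (hN : 10 ≤ N) (u : ℝ) : bmp N 0 (cidx N u) u = betaN N u := by
  obtain ⟨k, hk, -⟩ := cidx_eq (n := N) (by omega) ((N : ℝ) * u / (2 * π))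
  have hc : nc N 0 = N := by unfold nc; rw [if_pos rfl]
  unfold bmp betaN
  rw [hc, ds_shift (by omega) u (cidx N u) k]
  unfold cidx
  rw [hk]
  have h0 := abs_sin_shift (n := N) (by omega) u (round ((N : ℝ) * u / (2 * π))) 0
  have h1 : (2 * sin ((u - 2 * π * (round ((N : ℝ) * u / (2 * π)) : ℤ) / N) / 2)) ^ 2
      = (2 * |sin ((u - 2 * π * (round ((N : ℝ) * u / (2 * π)) : ℤ) / N) / 2)|) ^ 2 := by
    rw [mul_pow, mul_pow, sq_abs]
  rw [h1]
  simp only [Int.cast_zero, mul_zero, add_zero] at h0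
  rw [h0]

theorem cidx_near {N : ℕ} (hN : 10 ≤ N) (u : ℝ) :
    ds u (ctr N (cidx N u)) ≤ 2 * sin (π / (2 * N)) ∧ 1 / 2 ≤ cos (u - ctr N (cidx N u)) ∧
      |sin (u - ctr N (cidx N u))| ≤ 4 / N := by
  have hN0 : 0 < N := by omega
  have hNr : (10 : ℝ) ≤ N := by exact_mod_cast hN
  have hNp : (0 : ℝ) < N := by linarith
  obtain ⟨k, hk, -⟩ := cidx_eq (n := N) hN0 ((N : ℝ) * u / (2 * π))
  have h1 := round_diff hN0 u
  set t : ℝ := ((N : ℝ) * u / (2 * π) - round ((N : ℝ) * u / (2 * π))) / N with ht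
  have hp := Real.pi_pos
  have hp4 := Real.pi_lt_d2
  have hdiff : u - ctr N (cidx N u) = 2 * π * t + k * (2 * π) := by
    have hk' : (((cidx N u : ℕ) : ℤ) : ℝ) = round ((N : ℝ) * u / (2 * π)) - N * k := by
      have : ((cidx N u : ℕ) : ℤ) = round ((N : ℝ) * u / (2 * π)) - N * k := by
        unfold cidx
        linarith
      rw [this]
      push_cast
      ring
    unfold ctr
    have hk'' : ((cidx N u : ℕ) : ℝ) = round ((N : ℝ) * u / (2 * π)) - N * k := by
      rw [← hk']; simp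
    rw [hk'', ht]
    field_simp
    ring
  have h2 : |2 * π * t| ≤ π / N := by
    rw [abs_mul, abs_of_pos (by positivity : (0 : ℝ) < 2 * π)]
    calc 2 * π * |t| ≤ 2 * π * (1 / (2 * N)) := mul_le_mul_of_nonneg_left h1 (by positivity)
      _ = π / N := by field_simp
  refine ⟨?_, ?_, ?_⟩
  · rw [ds_shift hN0 u (cidx N u) k]
    have hk2 : (((cidx N u : ℕ) : ℤ) + N * k : ℤ) = round ((N : ℝ) * u / (2 * π)) := by
      unfold cidx
      exact hk
    rw [hk2, ← ht]
    have h3 : |sin (π * t)| ≤ sin (π / (2 * N)) := by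
      have e : π / (2 * N) = π * (1 / (2 * N)) := by ring
      rw [abs_le]
      have h4 : 1 / (2 * (N : ℝ)) ≤ 1 / 2 := by
        rw [div_le_div_iff₀ (by positivity) (by norm_num)]
        linarith
      have h5 := abs_le.mp h1
      constructor
      · rw [← Real.sin_neg, e, ← mul_neg]
        refine Real.sin_le_sin_of_le_of_le_pi_div_two ?_ ?_ ?_
        · nlinarith
        · nlinarith
        · exact mul_le_mul_of_nonneg_left h5.1 hp.le
      · rw [e]
        refine Real.sin_le_sin_of_le_of_le_pi_div_two ?_ ?_ ?_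
        · nlinarith
        · nlinarith
        · exact mul_le_mul_of_nonneg_left h5.2 hp.le
    linarith
  · rw [hdiff, Real.cos_add_int_mul_two_pi]
    have h6 : π / N ≤ π / 3 := by
      refine div_le_div_of_nonneg_left hp.le (by norm_num) (by linarith)
    rw [← Real.cos_abs, ← Real.cos_pi_div_three]
    refine Real.cos_le_cos_of_nonneg_of_le_pi (abs_nonneg _) ?_ (h2.trans h6)
    linarith
  · rw [hdiff, Real.sin_add_int_mul_two_pi]
    refine (Real.abs_sin_le_abs).trans (h2.trans ?_)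
    gcongr
    linarith

theorem cidx_per {N : ℕ} (hN : 10 ≤ N) (u : ℝ) : cidx N (u + 2 * π) = cidx N u := by
  unfold cidx
  have e : (N : ℝ) * (u + 2 * π) / (2 * π) = (N : ℝ) * u / (2 * π) + ((N : ℕ) : ℝ) := by
    have := Real.pi_pos.ne'
    field_simp
  rw [e, round_add_natCast, Int.add_emod_right]

/-- scales -/
theorem dl_pos {N : ℕ} (hN : 10 ≤ N) (q : ℕ) : 0 < dl N q ∧ dl N q ≤ 1 := by
  have hNr : (10 : ℝ) ≤ N := by exact_mod_cast hN
  rcases Nat.eq_zero_or_pos q with h0 | h0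
  · subst h0
    have hd : dl N 0 = 2 * sin (π / N) := by unfold dl; rw [if_pos rfl]
    have hp := Real.pi_pos
    have hp4 := Real.pi_lt_four
    have h1 : π / N ≤ 4 / 10 := by
      rw [div_le_div_iff₀ (by linarith) (by norm_num)]
      nlinarith
    have h2 : 0 < π / N := by
      have : (0 : ℝ) < N := by linarith
      positivity
    rw [hd]
    constructor
    · have := Real.sin_pos_of_pos_of_lt_pi h2 (by linarith [Real.pi_gt_three])
      linarith
    · have := Real.sin_le h2.le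
      linarith
  · have h := dl_q_small hN h0
    exact ⟨h.1, by linarith⟩

theorem dl_zero_bounds {N : ℕ} (hN : 10 ≤ N) : 6 / N ≤ dl N 0 ∧ dl N 0 ≤ 7 / N := by
  have hNr : (10 : ℝ) ≤ N := by exact_mod_cast hN
  have hNp : (0 : ℝ) < N := by linarith
  have hd : dl N 0 = 2 * sin (π / N) := by unfold dl; rw [if_pos rfl]
  have hp := Real.pi_pos
  have hp3 := Real.pi_gt_d2
  have hp4 := Real.pi_lt_d2
  have h2 : 0 < π / N := by positivity
  have h1 : π / N ≤ 32 / 100 := by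
    rw [div_le_div_iff₀ (by linarith) (by norm_num)]
    nlinarith
  have e6 : (6 : ℝ) / N = 6 / π * (π / N) := by field_simp
  have e7 : (7 : ℝ) / N = 7 / π * (π / N) := by field_simp
  rw [hd]
  constructor
  · have h3 := Real.sin_gt_sub_cube h2
    have h4 : (π / N) ^ 3 / 6 ≤ (π / N) * (3 / 100) := by
      have : (π / N) ^ 2 ≤ (32 / 100) ^ 2 := pow_le_pow_left₀ h2.le h1 2
      nlinarith
    have h5 : 6 / π ≤ 192 / 100 := by
      rw [div_le_iff₀ hp]
      linarith
    rw [e6]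
    have := mul_le_mul_of_nonneg_right h5 h2.le
    linarith
  · have h3 := Real.sin_le h2.le
    have h5 : 2 ≤ 7 / π := by
      rw [le_div_iff₀ hp]
      linarith
    rw [e7]
    have := mul_le_mul_of_nonneg_right h5 h2.le
    linarith

/-- choice of the level for an isolation scale `y` -/
theorem exists_level {N : ℕ} (hN : 10 ≤ N) {y : ℝ} (hy : 0 < y) (hy' : y ≤ 1 / (N : ℝ) ^ 2) :
    ∃ q, 1 ≤ q ∧ y / 4 ≤ dl N q ∧ dl N q ≤ y / 2 := by
  have hNr : (10 : ℝ) ≤ N := by exact_mod_cast hN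
  have hNp : (0 : ℝ) < (N : ℝ) ^ 2 := by positivity
  have hz : 0 < y * (N : ℝ) ^ 2 := by positivity
  have hz1 : y * (N : ℝ) ^ 2 ≤ 1 := by
    rw [le_div_iff₀ hNp] at hy'
    exact hy'
  have hex : ∃ q : ℕ, 2 / (y * (N : ℝ) ^ 2) ≤ 2 ^ q := by
    obtain ⟨q, hq⟩ := pow_unbounded_of_one_lt (2 / (y * (N : ℝ) ^ 2)) (by norm_num : (1 : ℝ) < 2)
    exact ⟨q, hq.le⟩
  classical
  set q := Nat.find hex with hq
  have h1 : 2 / (y * (N : ℝ) ^ 2) ≤ 2 ^ q := Nat.find_spec hex
  have h2 : (2 : ℝ) ≤ 2 / (y * (N : ℝ) ^ 2) := by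
    rw [le_div_iff₀ hz]
    linarith
  have hq1 : 1 ≤ q := by
    by_contra h
    have : q = 0 := by omega
    rw [this, pow_zero] at h1
    linarith
  refine ⟨q, hq1, ?_, ?_⟩
  · have h3 : ¬ (2 / (y * (N : ℝ) ^ 2) ≤ 2 ^ (q - 1)) := Nat.find_min hex (by omega)
    push Not at h3
    have h4 : (2 : ℝ) ^ q = 2 * 2 ^ (q - 1) := by
      rw [← pow_succ']
      congr 1
      omega
    rw [dl_q hq1, div_le_div_iff₀ (by norm_num) (by positivity)]
    rw [lt_div_iff₀ hz] at h3
    rw [h4]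
    nlinarith
  · rw [dl_q hq1, div_le_div_iff₀ (by positivity) (by norm_num)]
    rw [div_le_iff₀ hz] at h1
    nlinarith

end BilEnt
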