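import Pool.Agent.BilEnt.Defs
import Pool.Agent.BilEnt.R02
import Pool.Agent.BilEnt.R03

/-!
# MP_bd32bb_an, part R, module R04 (doc proof/MP_bd32bb_an_entropy)

HINT. doc section 2 (R2).  At most two level-0 cells are active at `u` and if two are active they are neighbours:
with `s = √X`, `s' = √X'` one has `s + s' ≥ 1` (`sin a + sin b ≥ sin(a+b)`), and `(1-s²)³+(1-s'²)³ ≤ (1-s²)³+(2s-s²)³ = 1-3t²+2t³ ≤ 1`,
`t = s(1-s)`.  Main term of the second derivative: `aa * Σ bump`.  Others: `β'' ≤ 0.85 N²`, `β' ≤ N`, `|G| ≤ 7.3 e3/N² + aa/N⁴`,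
`|G'| ≤ e3/N + aa/N²`, `|G'' - aa cos| ≤ C e3/N²`.
-/

open MeasureTheory Real
open scoped ENNReal

namespace BilEnt

namespace R04_aux

/-- `(1 - X)₊` for the cell of radius `δ` centred at `c` -/
noncomputable def ww (δ c u : ℝ) : ℝ := max 0 (1 - 2 * (1 - cos (u - c)) / δ ^ 2)

lemma ww_nonneg (δ c u : ℝ) : 0 ≤ ww δ c u := le_max_left _ _

lemma ww_le_one (δ c u : ℝ) : ww δ c u ≤ 1 := by
  unfold ww
  apply max_le zero_le_one
  have h1 : cos (u - c) ≤ 1 := cos_le_one _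
  have : 0 ≤ 2 * (1 - cos (u - c)) / δ ^ 2 := by
    apply div_nonneg _ (sq_nonneg _)
    linarith
  linarith

lemma ww_lt {δ c u : ℝ} (hδ : 0 < δ) (h : ww δ c u ≠ 0) : 2 * (1 - cos (u - c)) < δ ^ 2 := by
  unfold ww at h
  by_contra h2
  push Not at h2
  apply h
  apply max_eq_left
  have : 1 ≤ 2 * (1 - cos (u - c)) / δ ^ 2 := by
    rw [le_div_iff₀ (by positivity)]
    linarith
  linarith

lemma sin_le_of_ww {δ c u : ℝ} (hδ : 0 < δ) (h : ww δ c u ≠ 0) : |sin (u - c)| ≤ δ := by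
  have h1 := ww_lt hδ h
  have h2 := sin_sq_add_cos_sq (u - c)
  have h3 : sin (u - c) ^ 2 ≤ δ ^ 2 := by
    nlinarith [cos_le_one (u - c), neg_one_le_cos (u - c)]
  exact abs_le_of_sq_le_sq h3 hδ.le

/-- derivatives of the profile -/
noncomputable def G1 (N i : ℕ) (x : Fin 3 → ℝ) (u : ℝ) : ℝ :=
  aa / (N : ℝ) ^ 2 * sin ((N : ℝ) ^ 2 * u + π * clampR (x 0)) +
    e3 / N * clampR (x 2) * cos (u - ctr N i)

noncomputable def G2 (N i : ℕ) (x : Fin 3 → ℝ) (u : ℝ) : ℝ :=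
  aa * cos ((N : ℝ) ^ 2 * u + π * clampR (x 0)) - e3 / N * clampR (x 2) * sin (u - ctr N i)

noncomputable def G3 (N i : ℕ) (x : Fin 3 → ℝ) (u : ℝ) : ℝ :=
  -(aa * (N : ℝ) ^ 2) * sin ((N : ℝ) ^ 2 * u + π * clampR (x 0)) -
    e3 / N * clampR (x 2) * cos (u - ctr N i)

lemma hasDerivAt_G0 {N : ℕ} (hN : 10 ≤ N) (i : ℕ) (x : Fin 3 → ℝ) (u : ℝ) :
    HasDerivAt (G0 N i x) (G1 N i x u) u := by
  have hN0 : (N : ℝ) ≠ 0 := by positivity
  have h1 : HasDerivAt (fun u : ℝ => (N : ℝ) ^ 2 * u + π * clampR (x 0)) ((N : ℝ) ^ 2) u := by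
    simpa using ((hasDerivAt_id u).const_mul ((N : ℝ) ^ 2)).add_const (π * clampR (x 0))
  have h2 : HasDerivAt (fun u : ℝ => u - ctr N i) 1 u := by
    simpa using (hasDerivAt_id u).sub_const (ctr N i)
  have h3 := (h1.cos.const_mul (-(aa / (N : ℝ) ^ 4))).add
    (((h2.sin.const_mul (clampR (x 2) * N)).const_add (clampR (x 1))).const_mul (e3 / (N : ℝ) ^ 2))
  refine HasDerivAt.congr_deriv (f := G0 N i x) h3 ?_
  unfold G1
  field_simp

lemma hasDerivAt_G1 {N : ℕ} (hN : 10 ≤ N) (i : ℕ) (x : Fin 3 → ℝ) (u : ℝ) :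
    HasDerivAt (G1 N i x) (G2 N i x u) u := by
  have hN0 : (N : ℝ) ≠ 0 := by positivity
  have h1 : HasDerivAt (fun u : ℝ => (N : ℝ) ^ 2 * u + π * clampR (x 0)) ((N : ℝ) ^ 2) u := by
    simpa using ((hasDerivAt_id u).const_mul ((N : ℝ) ^ 2)).add_const (π * clampR (x 0))
  have h2 : HasDerivAt (fun u : ℝ => u - ctr N i) 1 u := by
    simpa using (hasDerivAt_id u).sub_const (ctr N i)
  have h3 := (h1.sin.const_mul (aa / (N : ℝ) ^ 2)).add (h2.cos.const_mul (e3 / N * clampR (x 2)))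
  refine HasDerivAt.congr_deriv (f := G1 N i x) h3 ?_
  unfold G2
  field_simp
  ring

lemma hasDerivAt_G2 (N i : ℕ) (x : Fin 3 → ℝ) (u : ℝ) :
    HasDerivAt (G2 N i x) (G3 N i x u) u := by
  have h1 : HasDerivAt (fun u : ℝ => (N : ℝ) ^ 2 * u + π * clampR (x 0)) ((N : ℝ) ^ 2) u := by
    simpa using ((hasDerivAt_id u).const_mul ((N : ℝ) ^ 2)).add_const (π * clampR (x 0))
  have h2 : HasDerivAt (fun u : ℝ => u - ctr N i) 1 u := by
    simpa using (hasDerivAt_id u).sub_const (ctr N i)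
  have h3 := (h1.cos.const_mul aa).sub (h2.sin.const_mul (e3 / N * clampR (x 2)))
  refine HasDerivAt.congr_deriv (f := G2 N i x) h3 ?_
  unfold G3
  ring

/-- bounds of the profile on the cell -/
lemma G0_le {N : ℕ} (hN : 10 ≤ N) (i : ℕ) (x : Fin 3 → ℝ) {u δ : ℝ} (hδ : δ ≤ 7 / N)
    (hs : |sin (u - ctr N i)| ≤ δ) : |G0 N i x u| ≤ 1 / (N : ℝ) ^ 4 + 8 * e3 / (N : ℝ) ^ 2 := by
  have hN0 : (0 : ℝ) < N := by positivity
  have h1 : |-(aa / (N : ℝ) ^ 4) * cos ((N : ℝ) ^ 2 * u + π * clampR (x 0))| ≤ 1 / (N : ℝ) ^ 4 := by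
    rw [abs_mul, abs_neg, abs_of_nonneg (by unfold aa; positivity)]
    calc aa / (N : ℝ) ^ 4 * |cos ((N : ℝ) ^ 2 * u + π * clampR (x 0))|
        ≤ aa / (N : ℝ) ^ 4 * 1 := by
          apply mul_le_mul_of_nonneg_left (abs_cos_le_one _)
          unfold aa; positivity
      _ ≤ 1 / (N : ℝ) ^ 4 := by
          rw [mul_one]
          gcongr
          unfold aa; norm_num
  have h2 : |e3 / (N : ℝ) ^ 2 * (clampR (x 1) + clampR (x 2) * N * sin (u - ctr N i))| ≤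
      8 * e3 / (N : ℝ) ^ 2 := by
    rw [abs_mul, abs_of_nonneg (by unfold e3; positivity)]
    have h3 : |clampR (x 1) + clampR (x 2) * N * sin (u - ctr N i)| ≤ 8 := by
      refine (abs_add_le _ _).trans ?_
      rw [abs_mul, abs_mul, abs_of_pos hN0]
      have h4 := abs_clampR (x 1)
      have h5 := abs_clampR (x 2)
      have h6 : |clampR (x 2)| * N * |sin (u - ctr N i)| ≤ 1 * N * (7 / N) := by
        gcongr
        exact hs.trans hδ
      have h7 : 1 * (N : ℝ) * (7 / N) = 7 := by field_simp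
      linarith
    calc e3 / (N : ℝ) ^ 2 * |clampR (x 1) + clampR (x 2) * N * sin (u - ctr N i)|
        ≤ e3 / (N : ℝ) ^ 2 * 8 := by
          apply mul_le_mul_of_nonneg_left h3
          unfold e3; positivity
      _ = 8 * e3 / (N : ℝ) ^ 2 := by ring
  unfold G0
  exact (abs_add_le _ _).trans (add_le_add h1 h2)

lemma G1_le {N : ℕ} (hN : 10 ≤ N) (i : ℕ) (x : Fin 3 → ℝ) (u : ℝ) :
    |G1 N i x u| ≤ 1 / (N : ℝ) ^ 2 + e3 / N := by
  have hN0 : (0 : ℝ) < N := by positivity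
  unfold G1
  refine (abs_add_le _ _).trans (add_le_add ?_ ?_)
  · rw [abs_mul, abs_of_nonneg (by unfold aa; positivity)]
    calc aa / (N : ℝ) ^ 2 * |sin ((N : ℝ) ^ 2 * u + π * clampR (x 0))|
        ≤ aa / (N : ℝ) ^ 2 * 1 := by
          apply mul_le_mul_of_nonneg_left (abs_sin_le_one _)
          unfold aa; positivity
      _ ≤ 1 / (N : ℝ) ^ 2 := by
          rw [mul_one]
          gcongr
          unfold aa; norm_num
  · rw [abs_mul, abs_mul, abs_of_nonneg (by unfold e3; positivity)]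
    calc e3 / (N : ℝ) * |clampR (x 2)| * |cos (u - ctr N i)| ≤ e3 / (N : ℝ) * 1 * 1 := by
          have := abs_clampR (x 2)
          have h2 := abs_cos_le_one (u - ctr N i)
          have h3 : 0 ≤ e3 / (N : ℝ) := by unfold e3; positivity
          gcongr
      _ = e3 / N := by ring

lemma G2_sub_le {N : ℕ} (hN : 10 ≤ N) (i : ℕ) (x : Fin 3 → ℝ) (u : ℝ) :
    |G2 N i x u - aa * cos ((N : ℝ) ^ 2 * u + π * clampR (x 0))| ≤ 1 / N := by
  have hN0 : (0 : ℝ) < N := by positivity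
  unfold G2
  have e : aa * cos ((N : ℝ) ^ 2 * u + π * clampR (x 0)) -
      e3 / N * clampR (x 2) * sin (u - ctr N i) - aa * cos ((N : ℝ) ^ 2 * u + π * clampR (x 0)) =
      -(e3 / N * clampR (x 2) * sin (u - ctr N i)) := by ring
  rw [e, abs_neg, abs_mul, abs_mul, abs_of_nonneg (by unfold e3; positivity)]
  calc e3 / (N : ℝ) * |clampR (x 2)| * |sin (u - ctr N i)| ≤ e3 / (N : ℝ) * 1 * 1 := by
        have := abs_clampR (x 2)
        have h2 := abs_sin_le_one (u - ctr N i)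
        have h3 : 0 ≤ e3 / (N : ℝ) := by unfold e3; positivity
        gcongr
    _ ≤ 1 / N := by
        rw [mul_one, mul_one]
        gcongr
        unfold e3; norm_num

lemma G2_le {N : ℕ} (hN : 10 ≤ N) (i : ℕ) (x : Fin 3 → ℝ) (u : ℝ) : |G2 N i x u| ≤ 2 := by
  have hN0 : (0 : ℝ) < N := by positivity
  have h1 := G2_sub_le hN i x u
  have h2 : |aa * cos ((N : ℝ) ^ 2 * u + π * clampR (x 0))| ≤ 1 := by
    rw [abs_mul, abs_of_nonneg (by unfold aa; norm_num)]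
    calc aa * |cos ((N : ℝ) ^ 2 * u + π * clampR (x 0))| ≤ aa * 1 :=
          mul_le_mul_of_nonneg_left (abs_cos_le_one _) (by unfold aa; norm_num)
      _ ≤ 1 := by unfold aa; norm_num
  have h3 : (1 : ℝ) / N ≤ 1 := by
    rw [div_le_one hN0]
    have : (10 : ℝ) ≤ N := by exact_mod_cast hN
    linarith
  have := abs_le.mp h1
  have := abs_le.mp h2
  rw [abs_le]
  constructor <;> linarith

lemma G3_le {N : ℕ} (hN : 10 ≤ N) (i : ℕ) (x : Fin 3 → ℝ) (u : ℝ) :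
    |G3 N i x u| ≤ 2 * (N : ℝ) ^ 2 := by
  have hN1 : (10 : ℝ) ≤ N := by exact_mod_cast hN
  have hN0 : (0 : ℝ) < N := by positivity
  unfold G3
  refine (abs_sub _ _).trans ?_
  have h1 : |-(aa * (N : ℝ) ^ 2) * sin ((N : ℝ) ^ 2 * u + π * clampR (x 0))| ≤ (N : ℝ) ^ 2 := by
    rw [abs_mul, abs_neg, abs_of_nonneg (by unfold aa; positivity)]
    calc aa * (N : ℝ) ^ 2 * |sin ((N : ℝ) ^ 2 * u + π * clampR (x 0))|
        ≤ aa * (N : ℝ) ^ 2 * 1 := by
          apply mul_le_mul_of_nonneg_left (abs_sin_le_one _)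
          unfold aa; positivity
      _ ≤ (N : ℝ) ^ 2 := by
          unfold aa
          nlinarith [sq_nonneg (N : ℝ)]
  have h2 : |e3 / (N : ℝ) * clampR (x 2) * cos (u - ctr N i)| ≤ 1 := by
    rw [abs_mul, abs_mul, abs_of_nonneg (by unfold e3; positivity)]
    calc e3 / (N : ℝ) * |clampR (x 2)| * |cos (u - ctr N i)| ≤ e3 / (N : ℝ) * 1 * 1 := by
          have := abs_clampR (x 2)
          have h2 := abs_cos_le_one (u - ctr N i)
          have h3 : 0 ≤ e3 / (N : ℝ) := by unfold e3; positivity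
          gcongr
      _ ≤ 1 := by
          rw [mul_one, mul_one, div_le_one hN0]
          unfold e3
          linarith
  nlinarith

/-- the argument of the bump and its derivatives -/
noncomputable def XX (δ c u : ℝ) : ℝ := 2 * (1 - cos (u - c)) / δ ^ 2

lemma hasDerivAt_XX (δ c u : ℝ) : HasDerivAt (XX δ c) (2 * sin (u - c) / δ ^ 2) u := by
  have h2 : HasDerivAt (fun u : ℝ => u - c) 1 u := by
    simpa using (hasDerivAt_id u).sub_const c
  have h3 := ((h2.cos.const_sub 1).const_mul 2).div_const (δ ^ 2)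
  refine HasDerivAt.congr_deriv (f := XX δ c) h3 ?_
  ring

lemma hasDerivAt_XX' (δ c u : ℝ) :
    HasDerivAt (fun u => 2 * sin (u - c) / δ ^ 2) (2 * cos (u - c) / δ ^ 2) u := by
  have h2 : HasDerivAt (fun u : ℝ => u - c) 1 u := by
    simpa using (hasDerivAt_id u).sub_const c
  have h3 := (h2.sin.const_mul 2).div_const (δ ^ 2)
  refine HasDerivAt.congr_deriv h3 ?_
  ring

lemma hasDerivAt_XX'' (δ c u : ℝ) :
    HasDerivAt (fun u => 2 * cos (u - c) / δ ^ 2) (-(2 * sin (u - c) / δ ^ 2)) u := by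
  have h2 : HasDerivAt (fun u : ℝ => u - c) 1 u := by
    simpa using (hasDerivAt_id u).sub_const c
  have h3 := (h2.cos.const_mul 2).div_const (δ ^ 2)
  refine HasDerivAt.congr_deriv h3 ?_
  ring

lemma cell_eq (N i : ℕ) (x : Fin 3 → ℝ) :
    cellF N 0 i x = fun u => bump (XX (dl N 0) (ctr N i) u) * G0 N i x u := by
  funext u
  unfold cellF
  rw [if_pos rfl, bmp_eq]
  simp [nc, XX]

/-- first derivative of a cell -/
noncomputable def D1 (N i : ℕ) (x : Fin 3 → ℝ) (u : ℝ) : ℝ :=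
  -3 * ww (dl N 0) (ctr N i) u ^ 2 * (2 * sin (u - ctr N i) / dl N 0 ^ 2) * G0 N i x u +
    ww (dl N 0) (ctr N i) u ^ 3 * G1 N i x u

/-- second derivative of a cell -/
noncomputable def D2 (N i : ℕ) (x : Fin 3 → ℝ) (u : ℝ) : ℝ :=
  6 * ww (dl N 0) (ctr N i) u * (2 * sin (u - ctr N i) / dl N 0 ^ 2) ^ 2 * G0 N i x u +
    -3 * ww (dl N 0) (ctr N i) u ^ 2 * (2 * cos (u - ctr N i) / dl N 0 ^ 2) * G0 N i x u +
    -6 * ww (dl N 0) (ctr N i) u ^ 2 * (2 * sin (u - ctr N i) / dl N 0 ^ 2) * G1 N i x u +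
    ww (dl N 0) (ctr N i) u ^ 3 * G2 N i x u

lemma hasDerivAt_cell {N : ℕ} (hN : 10 ≤ N) (i : ℕ) (x : Fin 3 → ℝ) (u : ℝ) :
    HasDerivAt (cellF N 0 i x) (D1 N i x u) u := by
  rw [cell_eq]
  have h1 := (hasDerivAt_bump (XX (dl N 0) (ctr N i) u)).comp u (hasDerivAt_XX (dl N 0) (ctr N i) u)
  have h2 := h1.mul (hasDerivAt_G0 hN i x u)
  exact h2

lemma hasDerivAt_D1 {N : ℕ} (hN : 10 ≤ N) (i : ℕ) (x : Fin 3 → ℝ) (u : ℝ) :
    HasDerivAt (D1 N i x) (D2 N i x u) u := by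
  have h1 := (hasDerivAt_bump (XX (dl N 0) (ctr N i) u)).comp u (hasDerivAt_XX (dl N 0) (ctr N i) u)
  have h1' := (hasDerivAt_bump' (XX (dl N 0) (ctr N i) u)).comp u
    (hasDerivAt_XX (dl N 0) (ctr N i) u)
  have h2 := ((h1'.mul (hasDerivAt_XX' (dl N 0) (ctr N i) u)).mul (hasDerivAt_G0 hN i x u)).add
    (h1.mul (hasDerivAt_G1 hN i x u))
  have e : D1 N i x = fun u => (fun X => -3 * (max 0 (1 - X)) ^ 2) (XX (dl N 0) (ctr N i) u) *
      (2 * sin (u - ctr N i) / dl N 0 ^ 2) * G0 N i x u +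
      bump (XX (dl N 0) (ctr N i) u) * G1 N i x u := by
    funext u
    rfl
  rw [e]
  refine HasDerivAt.congr_deriv (f := fun u => (fun X => -3 * (max 0 (1 - X)) ^ 2)
      (XX (dl N 0) (ctr N i) u) * (2 * sin (u - ctr N i) / dl N 0 ^ 2) * G0 N i x u +
      bump (XX (dl N 0) (ctr N i) u) * G1 N i x u) h2 ?_
  unfold D2 bump ww XX
  simp only [Function.comp, Pi.mul_apply]
  ring

lemma deriv_cell {N : ℕ} (hN : 10 ≤ N) (i : ℕ) (x : Fin 3 → ℝ) :
    deriv (cellF N 0 i x) = D1 N i x := funext fun u => (hasDerivAt_cell hN i x u).deriv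

lemma deriv_D1 {N : ℕ} (hN : 10 ≤ N) (i : ℕ) (x : Fin 3 → ℝ) :
    deriv (D1 N i x) = D2 N i x := funext fun u => (hasDerivAt_D1 hN i x u).deriv

lemma continuous_ww (δ c : ℝ) : Continuous (ww δ c) := by
  unfold ww
  fun_prop

lemma continuous_G (N i : ℕ) (x : Fin 3 → ℝ) :
    Continuous (G0 N i x) ∧ Continuous (G1 N i x) ∧ Continuous (G2 N i x) := by
  unfold G0 G1 G2
  refine ⟨?_, ?_, ?_⟩ <;> fun_prop

lemma continuous_D2 (N i : ℕ) (x : Fin 3 → ℝ) : Continuous (D2 N i x) := by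
  obtain ⟨h0, h1, h2⟩ := continuous_G N i x
  have h3 := continuous_ww (dl N 0) (ctr N i)
  unfold D2
  fun_prop

/-- Lipschitz from a bound for the derivative off the zeros -/
lemma lip_of_zeros {f : ℝ → ℝ} (hf : Continuous f) {L : ℝ} (hL : 0 ≤ L)
    (h : ∀ t, f t ≠ 0 → ∃ f', HasDerivAt f f' t ∧ |f'| ≤ L) (u v : ℝ) :
    |f u - f v| ≤ L * |u - v| := by
  have hA : ∀ a b : ℝ, a ≤ b → (∀ t ∈ Set.Ioo a b, f t ≠ 0) → |f b - f a| ≤ L * (b - a) := by
    intro a b hab hne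
    rcases eq_or_lt_of_le hab with rfl | hlt
    · simp
    · choose! f' hf' using h
      obtain ⟨c, hc, hc2⟩ := exists_hasDerivAt_eq_slope f f' hlt hf.continuousOn
        (fun x hx => (hf' x (hne x hx)).1)
      have h3 := (hf' c (hne c hc)).2
      rw [hc2, abs_div, abs_of_pos (sub_pos.mpr hlt), div_le_iff₀ (sub_pos.mpr hlt)] at h3
      exact h3
  have hB : ∀ a b : ℝ, a ≤ b → |f a - f b| ≤ L * (b - a) := by
    intro a b hab
    by_cases hz : ∃ t ∈ Set.Icc a b, f t = 0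
    · have hcomp : IsCompact {t | t ∈ Set.Icc a b ∧ f t = 0} := by
        apply isCompact_Icc.inter_right
        exact isClosed_eq hf continuous_const
      have hne : {t | t ∈ Set.Icc a b ∧ f t = 0}.Nonempty := hz
      obtain ⟨p, hp⟩ := hcomp.exists_isLeast hne
      obtain ⟨q, hq⟩ := hcomp.exists_isGreatest hne
      have hpq : p ≤ q := hp.2 hq.1
      have h1 := hA a p hp.1.1.1 (fun t ht h0 => by
        have := hp.2 (show t ∈ {t | t ∈ Set.Icc a b ∧ f t = 0} from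
          ⟨⟨ht.1.le, ht.2.le.trans hp.1.1.2⟩, h0⟩)
        exact absurd ht.2 (not_lt.mpr this))
      have h2 := hA q b hq.1.1.2 (fun t ht h0 => by
        have := hq.2 (show t ∈ {t | t ∈ Set.Icc a b ∧ f t = 0} from
          ⟨⟨hq.1.1.1.trans ht.1.le, ht.2.le⟩, h0⟩)
        exact absurd ht.1 (not_lt.mpr this))
      rw [hp.1.2, zero_sub, abs_neg] at h1
      rw [hq.1.2, sub_zero] at h2
      calc |f a - f b| ≤ |f a| + |f b| := abs_sub _ _
        _ ≤ L * (p - a) + L * (b - q) := add_le_add h1 h2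
        _ ≤ L * (b - a) := by nlinarith
    · push Not at hz
      rw [abs_sub_comm]
      exact hA a b hab (fun t ht => hz t ⟨ht.1.le, ht.2.le⟩)
  rcases le_total u v with huv | huv
  · rw [abs_sub_comm u v, abs_of_nonneg (sub_nonneg.mpr huv)]
    exact hB u v huv
  · rw [abs_sub_comm (f u), abs_of_nonneg (sub_nonneg.mpr huv)]
    exact hB v u huv

/-- elementary inequality for neighbouring bumps -/
lemma two_bumps {s s' : ℝ} (hs : 0 ≤ s) (hs1 : s ≤ 1) (hs' : s' ≤ 1) (h : 1 ≤ s + s') :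
    (1 - s ^ 2) ^ 3 + (1 - s' ^ 2) ^ 3 ≤ 1 := by
  have h1 : 1 - s' ^ 2 ≤ 2 * s - s ^ 2 := by nlinarith
  have h0 : 0 ≤ 1 - s' ^ 2 := by nlinarith
  have h2 : (1 - s' ^ 2) ^ 3 ≤ (2 * s - s ^ 2) ^ 3 := by gcongr
  have h3 : (1 - s ^ 2) ^ 3 + (2 * s - s ^ 2) ^ 3 = 1 - 3 * (s * (1 - s)) ^ 2 + 2 * (s * (1 - s)) ^ 3 := by
    ring
  have ht : 0 ≤ s * (1 - s) := mul_nonneg hs (by linarith)
  have ht1 : s * (1 - s) ≤ 1 := by nlinarith
  have h4 : (s * (1 - s)) ^ 3 ≤ (s * (1 - s)) ^ 2 := by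
    calc (s * (1 - s)) ^ 3 = (s * (1 - s)) ^ 2 * (s * (1 - s)) := by ring
      _ ≤ (s * (1 - s)) ^ 2 * 1 := by gcongr
      _ = _ := by ring
  nlinarith [sq_nonneg (s * (1 - s))]

lemma m2 {a b A B : ℝ} (ha : |a| ≤ A) (hb : |b| ≤ B) : |a * b| ≤ A * B := by
  rw [abs_mul]
  exact mul_le_mul ha hb (abs_nonneg _) ((abs_nonneg _).trans ha)

lemma hasDerivAt_ww {δ c u : ℝ} (h : ww δ c u ≠ 0) :
    HasDerivAt (ww δ c) (-(2 * sin (u - c) / δ ^ 2)) u := by
  have h1 : HasDerivAt (fun u => 1 - XX δ c u) (-(2 * sin (u - c) / δ ^ 2)) u :=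
    (hasDerivAt_XX δ c u).const_sub 1
  have hpos : 0 < 1 - XX δ c u := by
    by_contra h2
    push Not at h2
    apply h
    exact max_eq_left h2
  refine h1.congr_of_eventuallyEq ?_
  have hc : Continuous (fun u => 1 - XX δ c u) := by
    unfold XX; fun_prop
  filter_upwards [hc.continuousAt.eventually (lt_mem_nhds hpos)] with t ht
  exact max_eq_right ht.le

/-- normalised bounds on an active cell -/
lemma dl_facts {N : ℕ} (hN : 10 ≤ N) : 0 < dl N 0 ∧ 6 / N ≤ dl N 0 ∧ dl N 0 ≤ 7 / N :=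
  ⟨(dl_pos hN 0).1, dl_zero_bounds hN⟩

lemma X1_le {N : ℕ} (hN : 10 ≤ N) {c u : ℝ} (h : ww (dl N 0) c u ≠ 0) :
    |2 * sin (u - c) / dl N 0 ^ 2| ≤ (N : ℝ) / 3 := by
  obtain ⟨h0, h6, h7⟩ := dl_facts hN
  have hN0 : (0 : ℝ) < N := by positivity
  have h1 := sin_le_of_ww h0 h
  rw [abs_div, abs_mul, abs_of_pos (by norm_num : (0 : ℝ) < 2), abs_of_nonneg (sq_nonneg (dl N 0)),
    div_le_iff₀ (by positivity)]
  have h2 : 2 ≤ N / 3 * dl N 0 := by
    have : (N : ℝ) / 3 * (6 / N) = 2 := by field_simp; norm_num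
    calc (2 : ℝ) = (N : ℝ) / 3 * (6 / N) := this.symm
      _ ≤ N / 3 * dl N 0 := by gcongr
  calc 2 * |sin (u - c)| ≤ 2 * dl N 0 := by gcongr
    _ ≤ N / 3 * dl N 0 * dl N 0 := by gcongr
    _ = N / 3 * dl N 0 ^ 2 := by ring

lemma X2_le {N : ℕ} (hN : 10 ≤ N) (c u : ℝ) :
    |2 * cos (u - c) / dl N 0 ^ 2| ≤ (N : ℝ) ^ 2 / 18 := by
  obtain ⟨h0, h6, h7⟩ := dl_facts hN
  have hN0 : (0 : ℝ) < N := by positivity
  rw [abs_div, abs_mul, abs_of_pos (by norm_num : (0 : ℝ) < 2), abs_of_nonneg (sq_nonneg (dl N 0)),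
    div_le_iff₀ (by positivity)]
  have h2 : 2 = (N : ℝ) ^ 2 / 18 * (6 / N) ^ 2 := by field_simp; norm_num
  calc 2 * |cos (u - c)| ≤ 2 * 1 := by
        have := abs_cos_le_one (u - c)
        gcongr
    _ = (N : ℝ) ^ 2 / 18 * (6 / N) ^ 2 := by rw [mul_one]; exact h2
    _ ≤ (N : ℝ) ^ 2 / 18 * dl N 0 ^ 2 := by gcongr

lemma abs_ww_pow (δ c u : ℝ) (k : ℕ) : |ww δ c u ^ k| ≤ 1 := by
  have h0 := ww_nonneg δ c u
  have h1 := ww_le_one δ c u
  rw [abs_of_nonneg (by positivity)]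
  exact pow_le_one₀ h0 h1

lemma D1_le {N : ℕ} (hN : 10 ≤ N) (i : ℕ) (x : Fin 3 → ℝ) {u : ℝ}
    (h : ww (dl N 0) (ctr N i) u ≠ 0) : |D1 N i x u| ≤ 9 * e3 / N + 2 / (N : ℝ) ^ 2 := by
  obtain ⟨h0, h6, h7⟩ := dl_facts hN
  have hN1 : (10 : ℝ) ≤ N := by exact_mod_cast hN
  have hN0 : (0 : ℝ) < N := by positivity
  have hs := sin_le_of_ww h0 h
  have g0 := G0_le hN i x h7 hs
  have g1 := G1_le hN i x u
  have x1 := X1_le hN h
  have w2 := abs_ww_pow (dl N 0) (ctr N i) u 2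
  have w3 := abs_ww_pow (dl N 0) (ctr N i) u 3
  have t1 := m2 (m2 (m2 (show |(-3 : ℝ)| ≤ 3 by norm_num) w2) x1) g0
  have t2 := m2 w3 g1
  unfold D1
  refine (abs_add_le _ _).trans ((add_le_add t1 t2).trans ?_)
  have e : 3 * 1 * ((N : ℝ) / 3) * (1 / (N : ℝ) ^ 4 + 8 * e3 / (N : ℝ) ^ 2) +
      1 * (1 / (N : ℝ) ^ 2 + e3 / N) = 9 * e3 / N + (1 / N + 1) / (N : ℝ) ^ 2 := by
    field_simp
    ring
  rw [e]
  have h1 : (1 : ℝ) / N ≤ 1 := by
    rw [div_le_one hN0]; linarith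
  have h2 : (1 / (N : ℝ) + 1) / (N : ℝ) ^ 2 ≤ 2 / (N : ℝ) ^ 2 := by
    gcongr
    linarith
  linarith

lemma D2_le {N : ℕ} (hN : 10 ≤ N) (i : ℕ) (x : Fin 3 → ℝ) {u : ℝ}
    (h : ww (dl N 0) (ctr N i) u ≠ 0) :
    |D2 N i x u - ww (dl N 0) (ctr N i) u ^ 3 *
      (aa * cos ((N : ℝ) ^ 2 * u + π * clampR (x 0)))| ≤ 9 * e3 + 4 / N := by
  obtain ⟨h0, h6, h7⟩ := dl_facts hN
  have hN1 : (10 : ℝ) ≤ N := by exact_mod_cast hN
  have hN0 : (0 : ℝ) < N := by positivity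
  have hs := sin_le_of_ww h0 h
  have g0 := G0_le hN i x h7 hs
  have g1 := G1_le hN i x u
  have g2 := G2_sub_le hN i x u
  have x1 := X1_le hN h
  have x1' : |(2 * sin (u - ctr N i) / dl N 0 ^ 2) ^ 2| ≤ ((N : ℝ) / 3) ^ 2 := by
    rw [abs_pow]; gcongr
  have x2 := X2_le hN (ctr N i) u
  have w1 := abs_ww_pow (dl N 0) (ctr N i) u 1
  rw [pow_one] at w1
  have w2 := abs_ww_pow (dl N 0) (ctr N i) u 2
  have w3 := abs_ww_pow (dl N 0) (ctr N i) u 3
  have t1 := m2 (m2 (m2 (show |(6 : ℝ)| ≤ 6 by norm_num) w1) x1') g0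
  have t2 := m2 (m2 (m2 (show |(-3 : ℝ)| ≤ 3 by norm_num) w2) x2) g0
  have t3 := m2 (m2 (m2 (show |(-6 : ℝ)| ≤ 6 by norm_num) w2) x1) g1
  have t4 := m2 w3 g2
  have e : D2 N i x u - ww (dl N 0) (ctr N i) u ^ 3 *
      (aa * cos ((N : ℝ) ^ 2 * u + π * clampR (x 0))) =
      6 * ww (dl N 0) (ctr N i) u * (2 * sin (u - ctr N i) / dl N 0 ^ 2) ^ 2 * G0 N i x u +
      -3 * ww (dl N 0) (ctr N i) u ^ 2 * (2 * cos (u - ctr N i) / dl N 0 ^ 2) * G0 N i x u +
      -6 * ww (dl N 0) (ctr N i) u ^ 2 * (2 * sin (u - ctr N i) / dl N 0 ^ 2) * G1 N i x u +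
      ww (dl N 0) (ctr N i) u ^ 3 * (G2 N i x u - aa * cos ((N : ℝ) ^ 2 * u + π * clampR (x 0))) := by
    unfold D2
    ring
  rw [e]
  refine (abs_add_le _ _).trans ?_
  refine (add_le_add ((abs_add_le _ _).trans (add_le_add ((abs_add_le _ _).trans
    (add_le_add t1 t2)) t3)) t4).trans ?_
  have e2 : 6 * 1 * ((N : ℝ) / 3) ^ 2 * (1 / (N : ℝ) ^ 4 + 8 * e3 / (N : ℝ) ^ 2) +
      3 * 1 * ((N : ℝ) ^ 2 / 18) * (1 / (N : ℝ) ^ 4 + 8 * e3 / (N : ℝ) ^ 2) +
      6 * 1 * ((N : ℝ) / 3) * (1 / (N : ℝ) ^ 2 + e3 / N) + 1 * (1 / N) =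
      (52 / 6) * e3 + (5 / 6 * (1 / N) + 3) / N := by
    field_simp
    ring
  rw [e2]
  have h1 : (1 : ℝ) / N ≤ 1 := by
    rw [div_le_one hN0]; linarith
  have h2 : (5 / 6 * (1 / (N : ℝ)) + 3) / N ≤ 4 / N := by
    gcongr
    linarith
  have h3 : (0 : ℝ) ≤ e3 := by unfold e3; norm_num
  linarith

lemma D3_ex {N : ℕ} (hN : 10 ≤ N) (i : ℕ) (x : Fin 3 → ℝ) {u : ℝ}
    (h : ww (dl N 0) (ctr N i) u ≠ 0) :
    ∃ f', HasDerivAt (D2 N i x) f' u ∧ |f'| ≤ 80 * (N : ℝ) ^ 2 := by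
  obtain ⟨h0, h6, h7⟩ := dl_facts hN
  have hN1 : (10 : ℝ) ≤ N := by exact_mod_cast hN
  have hN0 : (0 : ℝ) < N := by positivity
  have hs := sin_le_of_ww h0 h
  have g0' := G0_le hN i x h7 hs
  have g1' := G1_le hN i x u
  have g2 := G2_le hN i x u
  have g3 := G3_le hN i x u
  have hN2 : (100 : ℝ) ≤ (N : ℝ) ^ 2 := by nlinarith
  have g0 : |G0 N i x u| ≤ 1 / (N : ℝ) ^ 2 := by
    refine g0'.trans ?_
    have e : 1 / (N : ℝ) ^ 4 + 8 * e3 / (N : ℝ) ^ 2 = (1 / (N : ℝ) ^ 2 + 8 * e3) / (N : ℝ) ^ 2 := by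
      field_simp
    rw [e]
    gcongr
    have : 1 / (N : ℝ) ^ 2 ≤ 1 / 100 := by gcongr
    unfold e3
    linarith
  have g1 : |G1 N i x u| ≤ 1 / (N : ℝ) := by
    refine g1'.trans ?_
    have e : 1 / (N : ℝ) ^ 2 + e3 / (N : ℝ) = (1 / (N : ℝ) + e3) / (N : ℝ) := by
      field_simp
    rw [e]
    gcongr
    have : 1 / (N : ℝ) ≤ 1 / 10 := by gcongr
    unfold e3
    linarith
  have x1 : |2 * sin (u - ctr N i) / dl N 0 ^ 2| ≤ (N : ℝ) := (X1_le hN h).trans (by linarith)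
  have x2 : |2 * cos (u - ctr N i) / dl N 0 ^ 2| ≤ (N : ℝ) ^ 2 :=
    (X2_le hN (ctr N i) u).trans (by linarith)
  have x3 : |-(2 * sin (u - ctr N i) / dl N 0 ^ 2)| ≤ (N : ℝ) := by rw [abs_neg]; exact x1
  have w1 := abs_ww_pow (dl N 0) (ctr N i) u 1
  rw [pow_one] at w1
  have w2 := abs_ww_pow (dl N 0) (ctr N i) u 2
  have w3 := abs_ww_pow (dl N 0) (ctr N i) u 3
  have hw := hasDerivAt_ww h
  have hX1 := hasDerivAt_XX' (dl N 0) (ctr N i) u
  have hX2 := hasDerivAt_XX'' (dl N 0) (ctr N i) u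
  have hG0 := hasDerivAt_G0 hN i x u
  have hG1 := hasDerivAt_G1 hN i x u
  have hG2 := hasDerivAt_G2 N i x u
  have hD := (((((hw.const_mul 6).mul (hX1.pow 2)).mul hG0).add
    ((((hw.pow 2).const_mul (-3)).mul hX2).mul hG0)).add
    ((((hw.pow 2).const_mul (-6)).mul hX1).mul hG1)).add ((hw.pow 3).mul hG2)
  have c6 : |(6 : ℝ)| ≤ 6 := by norm_num
  have c12 : |(12 : ℝ)| ≤ 12 := by norm_num
  have c3 : |(-3 : ℝ)| ≤ 3 := by norm_num
  have c6' : |(-6 : ℝ)| ≤ 6 := by norm_num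
  refine ⟨_, HasDerivAt.congr_deriv (f := D2 N i x) hD (g' :=
    6 * (-(2 * sin (u - ctr N i) / dl N 0 ^ 2)) * (2 * sin (u - ctr N i) / dl N 0 ^ 2) *
      (2 * sin (u - ctr N i) / dl N 0 ^ 2) * G0 N i x u +
    12 * ww (dl N 0) (ctr N i) u * (2 * sin (u - ctr N i) / dl N 0 ^ 2) *
      (2 * cos (u - ctr N i) / dl N 0 ^ 2) * G0 N i x u +
    6 * ww (dl N 0) (ctr N i) u * (2 * sin (u - ctr N i) / dl N 0 ^ 2) *
      (2 * sin (u - ctr N i) / dl N 0 ^ 2) * G1 N i x u +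
    -6 * ww (dl N 0) (ctr N i) u * (-(2 * sin (u - ctr N i) / dl N 0 ^ 2)) *
      (2 * cos (u - ctr N i) / dl N 0 ^ 2) * G0 N i x u +
    -3 * ww (dl N 0) (ctr N i) u ^ 2 * (-(2 * sin (u - ctr N i) / dl N 0 ^ 2)) * G0 N i x u +
    -3 * ww (dl N 0) (ctr N i) u ^ 2 * (2 * cos (u - ctr N i) / dl N 0 ^ 2) * G1 N i x u +
    12 * ww (dl N 0) (ctr N i) u * (2 * sin (u - ctr N i) / dl N 0 ^ 2) *
      (2 * sin (u - ctr N i) / dl N 0 ^ 2) * G1 N i x u +
    -6 * ww (dl N 0) (ctr N i) u ^ 2 * (2 * cos (u - ctr N i) / dl N 0 ^ 2) * G1 N i x u +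
    -6 * ww (dl N 0) (ctr N i) u ^ 2 * (2 * sin (u - ctr N i) / dl N 0 ^ 2) * G2 N i x u +
    -3 * ww (dl N 0) (ctr N i) u ^ 2 * (2 * sin (u - ctr N i) / dl N 0 ^ 2) * G2 N i x u +
    ww (dl N 0) (ctr N i) u ^ 3 * G3 N i x u) ?_, ?_⟩
  · simp only [Pi.mul_apply, Pi.pow_apply, Nat.cast_ofNat, Nat.add_one_sub_one, pow_one]
    ring
  · have t1 := m2 (m2 (m2 (m2 c6 x3) x1) x1) g0
    have t2 := m2 (m2 (m2 (m2 c12 w1) x1) x2) g0
    have t3 := m2 (m2 (m2 (m2 c6 w1) x1) x1) g1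
    have t4 := m2 (m2 (m2 (m2 c6' w1) x3) x2) g0
    have t5 := m2 (m2 (m2 c3 w2) x3) g0
    have t6 := m2 (m2 (m2 c3 w2) x2) g1
    have t7 := m2 (m2 (m2 (m2 c12 w1) x1) x1) g1
    have t8 := m2 (m2 (m2 c6' w2) x2) g1
    have t9 := m2 (m2 (m2 c6' w2) x1) g2
    have t10 := m2 (m2 (m2 c3 w2) x1) g2
    have t11 := m2 w3 g3
    have hsum := (abs_add_le _ _).trans (add_le_add ((abs_add_le _ _).trans (add_le_add
      ((abs_add_le _ _).trans (add_le_add ((abs_add_le _ _).trans (add_le_add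
      ((abs_add_le _ _).trans (add_le_add ((abs_add_le _ _).trans (add_le_add
      ((abs_add_le _ _).trans (add_le_add ((abs_add_le _ _).trans (add_le_add
      ((abs_add_le _ _).trans (add_le_add ((abs_add_le _ _).trans (add_le_add
      t1 t2)) t3)) t4)) t5)) t6)) t7)) t8)) t9)) t10)) t11)
    refine hsum.trans ?_
    have e : 6 * (N : ℝ) * N * N * (1 / (N : ℝ) ^ 2) + 12 * 1 * (N : ℝ) * (N : ℝ) ^ 2 * (1 / (N : ℝ) ^ 2) +
      6 * 1 * (N : ℝ) * N * (1 / N) + 6 * 1 * (N : ℝ) * (N : ℝ) ^ 2 * (1 / (N : ℝ) ^ 2) +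
      3 * 1 * (N : ℝ) * (1 / (N : ℝ) ^ 2) + 3 * 1 * (N : ℝ) ^ 2 * (1 / N) +
      12 * 1 * (N : ℝ) * N * (1 / N) + 6 * 1 * (N : ℝ) ^ 2 * (1 / N) + 6 * 1 * (N : ℝ) * 2 +
      3 * 1 * (N : ℝ) * 2 + 1 * (2 * (N : ℝ) ^ 2) = 69 * N + 3 * (1 / N) + 2 * (N : ℝ) ^ 2 := by
      field_simp
      ring
    rw [e]
    have h1 : (1 : ℝ) / N ≤ 1 := by
      rw [div_le_one hN0]; linarith
    nlinarith

lemma D2_zero {N i : ℕ} {x : Fin 3 → ℝ} {u : ℝ} (h : ww (dl N 0) (ctr N i) u = 0) :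
    D2 N i x u = 0 := by
  unfold D2; rw [h]; ring

lemma D1_zero {N i : ℕ} {x : Fin 3 → ℝ} {u : ℝ} (h : ww (dl N 0) (ctr N i) u = 0) :
    D1 N i x u = 0 := by
  unfold D1; rw [h]; ring

lemma cell_zero {N i : ℕ} {x : Fin 3 → ℝ} {u : ℝ} (h : ww (dl N 0) (ctr N i) u = 0) :
    cellF N 0 i x u = 0 := by
  rw [cell_eq]
  have : bump (XX (dl N 0) (ctr N i) u) = ww (dl N 0) (ctr N i) u ^ 3 := rfl
  simp only [this, h]
  ring

lemma D2_lip {N : ℕ} (hN : 10 ≤ N) (i : ℕ) (x : Fin 3 → ℝ) (u v : ℝ) :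
    |D2 N i x u - D2 N i x v| ≤ 80 * (N : ℝ) ^ 2 * |u - v| := by
  refine lip_of_zeros (continuous_D2 N i x) (by positivity) (fun t ht => ?_) u v
  exact D3_ex hN i x (fun h => ht (D2_zero h))

/-- the two active cells -/
lemma active_two {N : ℕ} (hN : 10 ≤ N) (u : ℝ) : ∃ j₁ j₂ : ℕ,
    (∀ i ∈ Finset.range N, ww (dl N 0) (ctr N i) u ≠ 0 → i = j₁ ∨ i = j₂) ∧
    ww (dl N 0) (ctr N j₁) u ^ 3 + ww (dl N 0) (ctr N j₂) u ^ 3 ≤ 1 := by
  have hN1 : (10 : ℝ) ≤ N := by exact_mod_cast hN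
  have hN0 : (0 : ℝ) < N := by positivity
  have hNz : (0 : ℤ) < N := by omega
  have hπN : 0 < π / N := by positivity
  have hπN2 : π / N ≤ π / 2 := by
    apply div_le_div_of_nonneg_left pi_pos.le (by norm_num) (by linarith)
  have hS : 0 < sin (π / N) := sin_pos_of_pos_of_lt_pi hπN (by linarith [pi_pos])
  have hdl : dl N 0 = 2 * sin (π / N) := by simp [dl]
  obtain ⟨y, hy⟩ : ∃ y : ℝ, y = N * u / (2 * π) := ⟨_, rfl⟩
  have hu : u = 2 * π * y / N := by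
    rw [hy]
    field_simp
  have hww : ∀ j : ℕ, ww (dl N 0) (ctr N j) u =
      max 0 (1 - (sin (π * (y - j) / N) / sin (π / N)) ^ 2) := by
    intro j
    unfold ww
    congr 2
    rw [hdl]
    have h1 : u - ctr N j = 2 * (π * (y - j) / N) := by
      rw [hu]; unfold ctr; ring
    rw [h1, cos_two_mul]
    have h2 := sin_sq_add_cos_sq (π * (y - j) / N)
    have h3 : 2 * (1 - (2 * cos (π * (y - j) / N) ^ 2 - 1)) = 4 * sin (π * (y - j) / N) ^ 2 := by
      linarith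
    rw [h3]
    field_simp
    ring
  set k : ℤ := ⌊y⌋ with hk
  have hk1 : (k : ℝ) ≤ y := Int.floor_le y
  have hk2 : y < k + 1 := Int.lt_floor_add_one y
  have hmod : ∀ z : ℤ, ∃ m : ℤ, ((z % (N : ℤ)).toNat : ℤ) = z - m * N := by
    intro z
    refine ⟨z / N, ?_⟩
    rw [Int.toNat_of_nonneg (Int.emod_nonneg _ hNz.ne')]
    have := Int.emod_add_mul_ediv z N
    linarith
  have hsin : ∀ z : ℤ, sin (π * (y - ((z % (N : ℤ)).toNat : ℕ)) / N) ^ 2 =
      sin (π * (y - z) / N) ^ 2 := by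
    intro z
    obtain ⟨m, hm⟩ := hmod z
    have hm' : (((z % (N : ℤ)).toNat : ℕ) : ℝ) = z - m * N := by exact_mod_cast hm
    rw [hm']
    have : π * (y - (z - m * N)) / N = π * (y - z) / N + m * π := by
      field_simp
      ring
    rw [this, sin_add_int_mul_pi, mul_pow]
    have : ((-1 : ℝ) ^ m) ^ 2 = 1 := by
      rw [← zpow_natCast, ← zpow_mul, mul_comm, zpow_mul]
      norm_num
    rw [this, one_mul]
  refine ⟨(k % (N : ℤ)).toNat, ((k + 1) % (N : ℤ)).toNat, ?_, ?_⟩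
  · intro i hi hne
    rw [hww] at hne
    have h1 : (sin (π * (y - i) / N) / sin (π / N)) ^ 2 < 1 := by
      by_contra h2
      push Not at h2
      apply hne
      apply max_eq_left
      linarith
    have h2 : |sin (π * (y - i) / N)| < sin (π / N) := by
      rw [div_pow, div_lt_one (by positivity)] at h1
      exact abs_lt_of_sq_lt_sq h1 hS.le
    obtain ⟨m, hm⟩ : ∃ m : ℤ, m = round ((y - i) / N) := ⟨_, rfl⟩
    have h3 : |(y - i) / N - m| ≤ 1 / 2 := by rw [hm]; exact abs_sub_round _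
    obtain ⟨t, ht⟩ : ∃ t : ℝ, t = π * ((y - i) / N - m) := ⟨_, rfl⟩
    have ht1 : |t| ≤ π / 2 := by
      rw [ht, abs_mul, abs_of_pos pi_pos]
      nlinarith [pi_pos]
    have ht2 : |sin t| < sin (π / N) := by
      have : π * (y - i) / N = t + m * π := by rw [ht]; ring
      rw [this, sin_add_int_mul_pi, abs_mul] at h2
      have : |(-1 : ℝ) ^ m| = 1 := by
        rw [abs_zpow]; simp
      rwa [this, one_mul] at h2
    have ht3 : |t| < π / N := by
      by_contra h4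
      push Not at h4
      have h5 : sin (π / N) ≤ sin |t| := by
        apply sin_le_sin_of_le_of_le_pi_div_two (by linarith [pi_pos]) ht1 h4
      have h6 : sin |t| ≤ |sin t| := by
        rcases abs_cases t with ⟨h7, _⟩ | ⟨h7, _⟩
        · rw [h7]; exact le_abs_self _
        · rw [h7, sin_neg]; exact neg_le_abs _
      linarith
    have h8 : |y - i - m * N| < 1 := by
      have e : t = (y - i - m * N) * (π / N) := by
        rw [ht]; field_simp
      rw [e, abs_mul, abs_of_pos hπN] at ht3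
      by_contra h9
      push Not at h9
      nlinarith
    have h9 := abs_lt.mp h8
    have hle : k ≤ (i : ℤ) + m * N := by
      have : (k : ℝ) - 1 < ((i : ℤ) + m * N : ℤ) := by push_cast; linarith
      have : (k - 1 : ℤ) < (i : ℤ) + m * N := by exact_mod_cast this
      omega
    have hge : (i : ℤ) + m * N ≤ k + 1 := by
      have : ((i : ℤ) + m * N : ℤ) < ((k + 2 : ℤ) : ℝ) := by push_cast; linarith
      have : (i : ℤ) + m * N < k + 2 := by exact_mod_cast this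
      omega
    have hiN : i < N := Finset.mem_range.mp hi
    have hcase : (i : ℤ) + m * N = k ∨ (i : ℤ) + m * N = k + 1 := by omega
    rcases hcase with hc | hc
    · left
      rw [← hc, Int.add_mul_emod_self_right, Int.emod_eq_of_lt (by omega) (by omega)]
      simp
    · right
      rw [← hc, Int.add_mul_emod_self_right, Int.emod_eq_of_lt (by omega) (by omega)]
      simp
  · rw [hww, hww, div_pow, div_pow, hsin, hsin, ← div_pow, ← div_pow]
    obtain ⟨a, ha⟩ : ∃ a : ℝ, a = π * (y - k) / N := ⟨_, rfl⟩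
    have ha0 : 0 ≤ a := by
      rw [ha]
      apply div_nonneg _ hN0.le
      apply mul_nonneg pi_pos.le
      linarith
    have ha1 : a < π / N := by
      rw [ha]
      apply div_lt_div_of_pos_right _ hN0
      nlinarith [pi_pos]
    have hb : π * (y - ((k + 1 : ℤ) : ℝ)) / N = -(π / N - a) := by
      rw [ha]; push_cast; ring
    have hsb : (sin (π * (y - ((k + 1 : ℤ) : ℝ)) / N) / sin (π / N)) ^ 2 =
        (sin (π / N - a) / sin (π / N)) ^ 2 := by
      rw [hb, sin_neg]; ring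
    rw [hsb, ← ha]
    have hs1 : 0 ≤ sin a / sin (π / N) := by
      apply div_nonneg _ hS.le
      exact sin_nonneg_of_nonneg_of_le_pi ha0 (by linarith [pi_pos])
    have hs2 : sin a / sin (π / N) ≤ 1 := by
      rw [div_le_one hS]
      exact sin_le_sin_of_le_of_le_pi_div_two (by linarith [pi_pos]) hπN2 ha1.le
    have hs3 : 0 ≤ sin (π / N - a) / sin (π / N) := by
      apply div_nonneg _ hS.le
      exact sin_nonneg_of_nonneg_of_le_pi (by linarith) (by linarith [pi_pos])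
    have hs4 : sin (π / N - a) / sin (π / N) ≤ 1 := by
      rw [div_le_one hS]
      exact sin_le_sin_of_le_of_le_pi_div_two (by linarith [pi_pos]) hπN2 (by linarith)
    have hs5 : 1 ≤ sin a / sin (π / N) + sin (π / N - a) / sin (π / N) := by
      rw [← add_div, le_div_iff₀ hS, one_mul]
      have e : π / N = a + (π / N - a) := by ring
      have h1 := sin_add a (π / N - a)
      rw [← e] at h1
      rw [h1]
      have c1 := cos_le_one a
      have c2 := cos_le_one (π / N - a)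
      have s1 : 0 ≤ sin a := sin_nonneg_of_nonneg_of_le_pi ha0 (by linarith [pi_pos])
      have s2 : 0 ≤ sin (π / N - a) := sin_nonneg_of_nonneg_of_le_pi (by linarith) (by linarith [pi_pos])
      nlinarith
    have m1 : max 0 (1 - (sin a / sin (π / N)) ^ 2) = 1 - (sin a / sin (π / N)) ^ 2 := by
      apply max_eq_right
      nlinarith
    have m3 : max 0 (1 - (sin (π / N - a) / sin (π / N)) ^ 2) =
        1 - (sin (π / N - a) / sin (π / N)) ^ 2 := by
      apply max_eq_right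
      nlinarith
    rw [m1, m3]
    exact two_bumps hs1 hs2 hs4 hs5

/-- sum over the cells -/
lemma sum_le_pair {N : ℕ} {j₁ j₂ : ℕ} {f : ℕ → ℝ} (hf : ∀ i, 0 ≤ f i)
    (h : ∀ i ∈ Finset.range N, f i ≠ 0 → i = j₁ ∨ i = j₂) :
    ∑ i ∈ Finset.range N, f i ≤ f j₁ + f j₂ := by
  have h1 : ∑ i ∈ Finset.range N, f i = ∑ i ∈ (Finset.range N).filter (fun i => f i ≠ 0), f i :=
    (Finset.sum_filter_ne_zero _).symm
  have h2 : (Finset.range N).filter (fun i => f i ≠ 0) ⊆ {j₁, j₂} := by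
    intro i hi
    rw [Finset.mem_filter] at hi
    simpa using h i hi.1 hi.2
  rw [h1]
  refine (Finset.sum_le_sum_of_subset_of_nonneg h2 (fun i _ _ => hf i)).trans ?_
  by_cases hj : j₁ = j₂
  · subst hj
    simp [hf]
  · rw [Finset.sum_pair hj]

lemma sum_abs_le {N : ℕ} (hN : 10 ≤ N) (u : ℝ) {f : ℕ → ℝ} {B : ℝ} (hB : 0 ≤ B)
    (h0 : ∀ i, ww (dl N 0) (ctr N i) u = 0 → f i = 0)
    (h1 : ∀ i, ww (dl N 0) (ctr N i) u ≠ 0 → |f i| ≤ B) :
    |∑ i ∈ Finset.range N, f i| ≤ 2 * B := by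
  obtain ⟨j₁, j₂, hj, -⟩ := active_two hN u
  have hb : ∀ i, |f i| ≤ B := by
    intro i
    by_cases h : ww (dl N 0) (ctr N i) u = 0
    · rw [h0 i h, abs_zero]; exact hB
    · exact h1 i h
  refine (Finset.abs_sum_le_sum_abs _ _).trans ?_
  have := sum_le_pair (N := N) (j₁ := j₁) (j₂ := j₂) (f := fun i => |f i|)
    (fun i => abs_nonneg _) (fun i hi hne => hj i hi (fun h => hne (by simp [h0 i h])))
  have h2 := hb j₁
  have h3 := hb j₂
  linarith

lemma hasDerivAt_lev {N : ℕ} (hN : 10 ≤ N) (ω : Om) (u : ℝ) :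
    HasDerivAt (lev N 0 ω) (∑ i ∈ Finset.range N, D1 N i (ω (0, i)) u) u := by
  have h := HasDerivAt.fun_sum (u := Finset.range N)
    (fun i _ => hasDerivAt_cell hN i (ω (0, i)) u)
  exact h

lemma hasDerivAt_lev' {N : ℕ} (hN : 10 ≤ N) (ω : Om) (u : ℝ) :
    HasDerivAt (fun u => ∑ i ∈ Finset.range N, D1 N i (ω (0, i)) u)
      (∑ i ∈ Finset.range N, D2 N i (ω (0, i)) u) u :=
  HasDerivAt.fun_sum (u := Finset.range N) (fun i _ => hasDerivAt_D1 hN i (ω (0, i)) u)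

lemma deriv_lev {N : ℕ} (hN : 10 ≤ N) (ω : Om) :
    deriv (lev N 0 ω) = fun u => ∑ i ∈ Finset.range N, D1 N i (ω (0, i)) u :=
  funext fun u => (hasDerivAt_lev hN ω u).deriv

lemma deriv_lev' {N : ℕ} (hN : 10 ≤ N) (ω : Om) :
    deriv (deriv (lev N 0 ω)) = fun u => ∑ i ∈ Finset.range N, D2 N i (ω (0, i)) u := by
  rw [deriv_lev hN ω]
  exact funext fun u => (hasDerivAt_lev' hN ω u).deriv

end R04_aux

open R04_aux

/-- One cell of level 0. -/
theorem cell0_smooth {N : ℕ} (hN : 10 ≤ N) (i : ℕ) (x : Fin 3 → ℝ) :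
    ContDiff ℝ 2 (cellF N 0 i x) ∧ Function.Periodic (cellF N 0 i x) (2 * π) := by
  constructor
  · rw [cell_eq]
    apply ContDiff.mul
    · apply contDiff_bump.comp
      unfold XX
      fun_prop
    · unfold G0
      fun_prop
  · intro u
    rw [cell_eq]
    have h1 : u + 2 * π - ctr N i = (u - ctr N i) + 2 * π := by ring
    simp only [XX, G0, h1, cos_add_two_pi, sin_add_two_pi]
    have h2 : (N : ℝ) ^ 2 * (u + 2 * π) + π * clampR (x 0) =
        (N : ℝ) ^ 2 * u + π * clampR (x 0) + ((N ^ 2 : ℕ) : ℝ) * (2 * π) := by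
      push_cast; ring
    rw [h2, cos_add_nat_mul_two_pi]

/-- bounds for the whole level 0; the bound of the second derivative uses that two neighbouring
bumps have sum at most one. -/
theorem lev0_bounds : ∃ C : ℝ, 1 ≤ C ∧ ∀ {N : ℕ}, 10 ≤ N → ∀ (ω : Om) (u : ℝ),
    |lev N 0 ω u| ≤ C / N ^ 2 ∧ |deriv (lev N 0 ω) u| ≤ 1 / (2 * N) + C / N ^ 2 ∧
    |deriv (deriv (lev N 0 ω)) u| ≤ aa + 20 * e3 + C / N := by
  refine ⟨8, by norm_num, ?_⟩
  intro N hN ω u
  have hN1 : (10 : ℝ) ≤ N := by exact_mod_cast hN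
  have hN0 : (0 : ℝ) < N := by positivity
  obtain ⟨h0, h6, h7⟩ := dl_facts hN
  have he3 : (0 : ℝ) ≤ e3 := by unfold e3; norm_num
  refine ⟨?_, ?_, ?_⟩
  · have h := sum_abs_le hN u (f := fun i => cellF N 0 i (ω (0, i)) u) (B := 1 / (N : ℝ) ^ 2)
      (by positivity) (fun i hi => cell_zero hi) (fun i hi => by
        rw [cell_eq]
        have hs := sin_le_of_ww h0 hi
        have g0' := G0_le hN i (ω (0, i)) h7 hs
        have hN2 : (100 : ℝ) ≤ (N : ℝ) ^ 2 := by nlinarith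
        have g0 : |G0 N i (ω (0, i)) u| ≤ 1 / (N : ℝ) ^ 2 := by
          refine g0'.trans ?_
          have e : 1 / (N : ℝ) ^ 4 + 8 * e3 / (N : ℝ) ^ 2 =
              (1 / (N : ℝ) ^ 2 + 8 * e3) / (N : ℝ) ^ 2 := by
            field_simp
          rw [e]
          gcongr
          have : 1 / (N : ℝ) ^ 2 ≤ 1 / 100 := by gcongr
          unfold e3
          linarith
        have w3 := abs_ww_pow (dl N 0) (ctr N i) u 3
        have := m2 w3 g0
        rw [one_mul] at this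
        exact this)
    have e : lev N 0 ω u = ∑ i ∈ Finset.range N, cellF N 0 i (ω (0, i)) u := rfl
    rw [e]
    refine h.trans ?_
    have : (2 : ℝ) * (1 / (N : ℝ) ^ 2) = 2 / (N : ℝ) ^ 2 := by ring
    rw [this]
    gcongr
    norm_num
  · rw [deriv_lev hN ω]
    have h := sum_abs_le hN u (f := fun i => D1 N i (ω (0, i)) u)
      (B := 9 * e3 / N + 2 / (N : ℝ) ^ 2) (by positivity) (fun i hi => D1_zero hi)
      (fun i hi => D1_le hN i _ hi)
    refine h.trans ?_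
    have e : 2 * (9 * e3 / N + 2 / (N : ℝ) ^ 2) = 18 * e3 / N + 4 / (N : ℝ) ^ 2 := by ring
    rw [e]
    have h1 : 18 * e3 / (N : ℝ) ≤ 1 / (2 * N) := by
      rw [div_le_div_iff₀ hN0 (by positivity)]
      unfold e3
      nlinarith
    have h2 : 4 / (N : ℝ) ^ 2 ≤ 8 / (N : ℝ) ^ 2 := by
      gcongr
      norm_num
    linarith
  · rw [deriv_lev' hN ω]
    have h := sum_abs_le hN u (f := fun i => D2 N i (ω (0, i)) u -
        ww (dl N 0) (ctr N i) u ^ 3 *
          (aa * cos ((N : ℝ) ^ 2 * u + π * clampR ((ω (0, i)) 0))))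
      (B := 9 * e3 + 4 / N) (by positivity) (fun i hi => by
        simp only [D2_zero hi, hi]
        ring)
      (fun i hi => D2_le hN i _ hi)
    obtain ⟨j₁, j₂, hj, hj1⟩ := active_two hN u
    have hmain : |∑ i ∈ Finset.range N, ww (dl N 0) (ctr N i) u ^ 3 *
          (aa * cos ((N : ℝ) ^ 2 * u + π * clampR ((ω (0, i)) 0)))| ≤ aa := by
      refine (Finset.abs_sum_le_sum_abs _ _).trans ?_
      have h2 : ∀ i ∈ Finset.range N, |ww (dl N 0) (ctr N i) u ^ 3 *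
          (aa * cos ((N : ℝ) ^ 2 * u + π * clampR ((ω (0, i)) 0)))| ≤
          aa * ww (dl N 0) (ctr N i) u ^ 3 := by
        intro i _
        have hw := ww_nonneg (dl N 0) (ctr N i) u
        have haa : (0 : ℝ) ≤ aa := by unfold aa; norm_num
        rw [abs_mul, abs_mul, abs_of_nonneg haa, abs_of_nonneg (by positivity)]
        calc ww (dl N 0) (ctr N i) u ^ 3 *
            (aa * |cos ((N : ℝ) ^ 2 * u + π * clampR ((ω (0, i)) 0))|)
            ≤ ww (dl N 0) (ctr N i) u ^ 3 * (aa * 1) := by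
              have := abs_cos_le_one ((N : ℝ) ^ 2 * u + π * clampR ((ω (0, i)) 0))
              gcongr
          _ = aa * ww (dl N 0) (ctr N i) u ^ 3 := by ring
      refine (Finset.sum_le_sum h2).trans ?_
      rw [← Finset.mul_sum]
      have h3 := sum_le_pair (N := N) (j₁ := j₁) (j₂ := j₂)
        (f := fun i => ww (dl N 0) (ctr N i) u ^ 3)
        (fun i => pow_nonneg (ww_nonneg _ _ _) 3)
        (fun i hi hne => hj i hi (fun h => hne (by simp [h])))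
      have haa : (0 : ℝ) ≤ aa := by unfold aa; norm_num
      calc aa * ∑ i ∈ Finset.range N, ww (dl N 0) (ctr N i) u ^ 3 ≤ aa * 1 :=
            mul_le_mul_of_nonneg_left (h3.trans hj1) haa
        _ = aa := mul_one _
    rw [Finset.sum_sub_distrib] at h
    have h4 := abs_le.mp h
    have h5 := abs_le.mp hmain
    have e : (8 : ℝ) / N = 2 * (4 / N) := by ring
    rw [e]
    rw [abs_le]
    constructor
    · linarith [h4.1, h5.1]
    · linarith [h4.2, h5.2]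

theorem lev0_lip : ∃ C : ℝ, 1 ≤ C ∧ ∀ {N : ℕ}, 10 ≤ N → ∀ (ω : Om) (u v : ℝ),
    |deriv (deriv (lev N 0 ω)) u - deriv (deriv (lev N 0 ω)) v| ≤ C * N ^ 2 * |u - v| := by
  refine ⟨320, by norm_num, ?_⟩
  intro N hN ω u v
  rw [deriv_lev' hN ω]
  simp only
  rw [← Finset.sum_sub_distrib]
  obtain ⟨j₁, j₂, hj, -⟩ := active_two hN u
  obtain ⟨j₃, j₄, hj', -⟩ := active_two hN v
  set L : ℝ := 80 * (N : ℝ) ^ 2 * |u - v| with hL
  have hL0 : 0 ≤ L := by positivity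
  have hb : ∀ i, |D2 N i (ω (0, i)) u - D2 N i (ω (0, i)) v| ≤ L := fun i => D2_lip hN i _ u v
  classical
  have h1 : ∑ i ∈ Finset.range N, |D2 N i (ω (0, i)) u - D2 N i (ω (0, i)) v| ≤
      ∑ i ∈ Finset.range N, ((if i = j₁ ∨ i = j₂ then L else 0) +
        (if i = j₃ ∨ i = j₄ then L else 0)) := by
    refine Finset.sum_le_sum fun i hi => ?_
    by_cases hc : i = j₁ ∨ i = j₂
    · rw [if_pos hc]
      have : 0 ≤ (if i = j₃ ∨ i = j₄ then L else 0) := by split_ifs <;> positivity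
      linarith [hb i]
    · by_cases hc' : i = j₃ ∨ i = j₄
      · rw [if_neg hc, if_pos hc', zero_add]
        exact hb i
      · rw [if_neg hc, if_neg hc', add_zero]
        have z1 : ww (dl N 0) (ctr N i) u = 0 := by
          by_contra h
          exact hc (hj i hi h)
        have z2 : ww (dl N 0) (ctr N i) v = 0 := by
          by_contra h
          exact hc' (hj' i hi h)
        rw [D2_zero z1, D2_zero z2]
        simp
  have h2 : ∀ a b : ℕ, ∑ i ∈ Finset.range N, (if i = a ∨ i = b then L else 0) ≤ 2 * L := by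
    intro a b
    have := sum_le_pair (N := N) (j₁ := a) (j₂ := b) (f := fun i => if i = a ∨ i = b then L else 0)
      (fun i => by split_ifs <;> positivity)
      (fun i _ hne => by
        by_contra h
        simp only [if_neg h, ne_eq, not_true_eq_false] at hne)
    simp only [true_or, or_true, if_true] at this
    linarith
  rw [Finset.sum_add_distrib] at h1
  have h3 := h2 j₁ j₂
  have h4 := h2 j₃ j₄
  refine (Finset.abs_sum_le_sum_abs _ _).trans (h1.trans ?_)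
  have e : 320 * (N : ℝ) ^ 2 * |u - v| = 4 * L := by rw [hL]; ring
  rw [e]
  linarith

end BilEnt
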