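import Pool.Agent.BilEnt.Defs
import Pool.Agent.BilEnt.R02
import Pool.Agent.BilEnt.R03
import Pool.Agent.BilEnt.R04

/-!
# MP_bd32bb_an, part R, module R05 (doc proof/MP_bd32bb_an_entropy)

HINT. sums of at most three active cells (R03 active_card; on a neighbourhood the inactive ones vanish; for derivatives use
`cell_off`).  Series: `contDiff_tsum`, `iteratedDeriv`/`hasDerivAt_tsum` with summable bounds (geometric, `dl N q ≤ 2^{-q}`; level 0 is one term).
-/

open MeasureTheory Real
open scoped ENNReal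

namespace BilEnt

namespace R05_aux

private theorem cell_all {N : ℕ} (hN : 10 ≤ N) (q i : ℕ) (x : Fin 3 → ℝ) :
    ContDiff ℝ 2 (cellF N q i x) ∧ Function.Periodic (cellF N q i x) (2 * π) := by
  rcases Nat.eq_zero_or_pos q with h | h
  · subst h
    exact cell0_smooth hN i x
  · exact cell_smooth (by omega) h i x

private theorem cell_diff {N : ℕ} (hN : 10 ≤ N) (q i : ℕ) (x : Fin 3 → ℝ) (u : ℝ) :
    DifferentiableAt ℝ (cellF N q i x) u :=
  ((cell_all hN q i x).1.differentiable (by norm_num)) u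

private theorem contDiff_deriv {f : ℝ → ℝ} (hf : ContDiff ℝ 2 f) : ContDiff ℝ 1 (deriv f) := by
  have h : ContDiff ℝ (1 + 1) f := by
    have e : (1 + 1 : WithTop ℕ∞) = 2 := by norm_num
    rw [e]
    exact hf
  exact (contDiff_succ_iff_deriv.1 h).2.2

private theorem cell_diff' {N : ℕ} (hN : 10 ≤ N) (q i : ℕ) (x : Fin 3 → ℝ) (u : ℝ) :
    DifferentiableAt ℝ (deriv (cellF N q i x)) u :=
  ((contDiff_deriv (cell_all hN q i x).1).differentiable (by norm_num)) u

private theorem lev_deriv {N : ℕ} (hN : 10 ≤ N) (q : ℕ) (ω : Om) :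
    deriv (lev N q ω) = fun u => ∑ i ∈ Finset.range (nc N q), deriv (cellF N q i (ω (q, i))) u := by
  funext u
  have h : lev N q ω = fun u => ∑ i ∈ Finset.range (nc N q), cellF N q i (ω (q, i)) u := rfl
  rw [h]
  exact deriv_fun_sum (fun i _ => cell_diff hN q i _ u)

private theorem lev_deriv2 {N : ℕ} (hN : 10 ≤ N) (q : ℕ) (ω : Om) :
    deriv (deriv (lev N q ω)) =
      fun u => ∑ i ∈ Finset.range (nc N q), deriv (deriv (cellF N q i (ω (q, i)))) u := by
  funext u
  rw [lev_deriv hN q ω]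
  exact deriv_fun_sum (fun i _ => cell_diff' hN q i _ u)

/-- a sum over the active cells -/
private theorem sum_active {n : ℕ} (f : ℕ → ℝ) (p : ℕ → Prop) [DecidablePred p] (c : ℕ) (B : ℝ)
    (hB : 0 ≤ B) (h0 : ∀ i, ¬ p i → f i = 0) (h1 : ∀ i, |f i| ≤ B)
    (hc : ((Finset.range n).filter p).card ≤ c) :
    |∑ i ∈ Finset.range n, f i| ≤ c * B := by
  have e : ∑ i ∈ Finset.range n, f i = ∑ i ∈ (Finset.range n).filter p, f i := by
    rw [Finset.sum_filter]
    refine Finset.sum_congr rfl fun i _ => ?_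
    split_ifs with h
    · rfl
    · exact h0 i h
  rw [e]
  calc |∑ i ∈ (Finset.range n).filter p, f i| ≤ ∑ i ∈ (Finset.range n).filter p, |f i| :=
        Finset.abs_sum_le_sum_abs _ _
    _ ≤ ∑ i ∈ (Finset.range n).filter p, B := Finset.sum_le_sum fun i _ => h1 i
    _ = ((Finset.range n).filter p).card * B := by rw [Finset.sum_const, nsmul_eq_mul]
    _ ≤ c * B := mul_le_mul_of_nonneg_right (by exact_mod_cast hc) hB

private theorem b_nonneg {N : ℕ} (hN : 10 ≤ N) (q : ℕ) : 0 ≤ e2 * dl N q ^ (2 + al) := by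
  have h1 := (dl_pos hN q).1
  have h2 : (0 : ℝ) ≤ e2 := by unfold e2; norm_num
  positivity

/-- the ratio -/
private noncomputable def rr : ℝ := (1 / 2 : ℝ) ^ al

private theorem rr_pos : 0 < rr := by unfold rr; positivity

private theorem rr_lt : rr < 1 := by
  unfold rr
  exact Real.rpow_lt_one (by norm_num) (by norm_num) (by unfold al; norm_num)

private theorem dl_al {N : ℕ} (hN : 10 ≤ N) {q : ℕ} (hq : 1 ≤ q) : dl N q ^ al ≤ rr ^ q := by
  have h1 := (dl_pos hN q).1
  have h2 : dl N q ≤ (1 / 2 : ℝ) ^ q := by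
    unfold dl
    rw [if_neg (by omega)]
    have hN' : (10 : ℝ) ≤ N := by exact_mod_cast hN
    have h3 : (1 : ℝ) ≤ (N : ℝ) ^ 2 := by nlinarith
    rw [one_div_pow]
    refine one_div_le_one_div_of_le (by positivity) ?_
    have h4 : (0 : ℝ) < 2 ^ q := by positivity
    nlinarith
  calc dl N q ^ al ≤ ((1 / 2 : ℝ) ^ q) ^ al :=
        Real.rpow_le_rpow h1.le h2 (by unfold al; norm_num)
    _ = rr ^ q := by
        unfold rr
        rw [← Real.rpow_natCast, ← Real.rpow_natCast, ← Real.rpow_mul (by norm_num),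
          ← Real.rpow_mul (by norm_num), mul_comm]

end R05_aux

open R05_aux

theorem lev_smooth {N : ℕ} (hN : 10 ≤ N) (q : ℕ) (ω : Om) :
    ContDiff ℝ 2 (lev N q ω) ∧ Function.Periodic (lev N q ω) (2 * π) := by
  constructor
  · have h : lev N q ω = fun u => ∑ i ∈ Finset.range (nc N q), cellF N q i (ω (q, i)) u := rfl
    rw [h]
    exact ContDiff.sum fun i _ => (cell_all hN q i _).1
  · intro u
    unfold lev
    exact Finset.sum_congr rfl fun i _ => (cell_all hN q i _).2 u

theorem lev_bounds {N q : ℕ} (hN : 10 ≤ N) (hq : 1 ≤ q) (ω : Om) (u : ℝ) :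
    |lev N q ω u| ≤ 12 * (e2 * dl N q ^ (2 + al)) ∧
    |deriv (lev N q ω) u| ≤ 75 * (e2 * dl N q ^ (2 + al)) / dl N q ∧
    |deriv (deriv (lev N q ω)) u| ≤ 480 * (e2 * dl N q ^ (2 + al)) / dl N q ^ 2 := by
  have hb := b_nonneg hN q
  have hd := (dl_pos hN q).1
  have hc := active_card (q := q) hN u
  have hcb := fun i => cell_bounds (N := N) (q := q) (by omega) hq i (ω (q, i)) u
  have hoff : ∀ i, ¬ ds u (ctr (nc N q) i) < dl N q → _ := fun i hi =>
    cell_off (N := N) (q := q) (by omega) i (ω (q, i)) (not_lt.1 hi)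
  refine ⟨?_, ?_, ?_⟩
  · have := sum_active (n := nc N q) (fun i => cellF N q i (ω (q, i)) u)
      (fun i => ds u (ctr (nc N q) i) < dl N q) 3 (4 * (e2 * dl N q ^ (2 + al))) (by positivity)
      (fun i hi => (hoff i hi).1) (fun i => (hcb i).1) hc
    refine this.trans (le_of_eq ?_)
    push_cast
    ring
  · rw [lev_deriv hN q ω]
    have := sum_active (n := nc N q) (fun i => deriv (cellF N q i (ω (q, i))) u)
      (fun i => ds u (ctr (nc N q) i) < dl N q) 3 (25 * (e2 * dl N q ^ (2 + al)) / dl N q)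
      (by positivity)
      (fun i hi => (hoff i hi).2.1) (fun i => (hcb i).2.1) hc
    refine this.trans (le_of_eq ?_)
    push_cast
    ring
  · rw [lev_deriv2 hN q ω]
    have := sum_active (n := nc N q) (fun i => deriv (deriv (cellF N q i (ω (q, i)))) u)
      (fun i => ds u (ctr (nc N q) i) < dl N q) 3 (160 * (e2 * dl N q ^ (2 + al)) / dl N q ^ 2)
      (by positivity)
      (fun i hi => (hoff i hi).2.2) (fun i => (hcb i).2.2) hc
    refine this.trans (le_of_eq ?_)
    push_cast
    ring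

theorem lev_lip : ∃ C : ℝ, 1 ≤ C ∧ ∀ {N q : ℕ}, 10 ≤ N → 1 ≤ q → ∀ (ω : Om) (u v : ℝ),
    |deriv (deriv (lev N q ω)) u - deriv (deriv (lev N q ω)) v| ≤
      C * (e2 * dl N q ^ (2 + al)) / dl N q ^ 3 * |u - v| := by
  obtain ⟨C, hC1, hC⟩ := cell_lip
  refine ⟨6 * C, by linarith, ?_⟩
  intro N q hN hq ω u v
  have hb := b_nonneg hN q
  have hd := (dl_pos hN q).1
  rw [lev_deriv2 hN q ω]
  simp only
  rw [← Finset.sum_sub_distrib]
  classical
  have hcard : ((Finset.range (nc N q)).filter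
      (fun i => ds u (ctr (nc N q) i) < dl N q ∨ ds v (ctr (nc N q) i) < dl N q)).card ≤ 6 := by
    rw [Finset.filter_or]
    refine (Finset.card_union_le _ _).trans ?_
    have h1 := active_card (q := q) hN u
    have h2 := active_card (q := q) hN v
    omega
  have hC0 : 0 ≤ C := by linarith
  have := sum_active (n := nc N q)
    (fun i => deriv (deriv (cellF N q i (ω (q, i)))) u - deriv (deriv (cellF N q i (ω (q, i)))) v)
    (fun i => ds u (ctr (nc N q) i) < dl N q ∨ ds v (ctr (nc N q) i) < dl N q) 6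
    (C * (e2 * dl N q ^ (2 + al)) / dl N q ^ 3 * |u - v|) (by positivity)
    (fun i hi => by
      simp only [not_or, not_lt] at hi
      rw [(cell_off (N := N) (q := q) (by omega) i (ω (q, i)) hi.1).2.2,
        (cell_off (N := N) (q := q) (by omega) i (ω (q, i)) hi.2).2.2, sub_zero])
    (fun i => hC (by omega) hq i (ω (q, i)) u v) hcard
  refine this.trans (le_of_eq ?_)
  push_cast
  ring

namespace R05_aux

private theorem lev_bound_all : ∃ A : ℝ, 0 ≤ A ∧ ∀ {N : ℕ}, 10 ≤ N → ∀ (q : ℕ) (ω : Om) (u : ℝ),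
    |lev N q ω u| ≤ A * rr ^ q ∧ |deriv (lev N q ω) u| ≤ A * rr ^ q ∧
    |deriv (deriv (lev N q ω)) u| ≤ A * rr ^ q := by
  obtain ⟨C, hC1, hC⟩ := lev0_bounds
  refine ⟨C + 2, by linarith, ?_⟩
  intro N hN q ω u
  have hN' : (10 : ℝ) ≤ N := by exact_mod_cast hN
  rcases Nat.eq_zero_or_pos q with h | h
  · subst h
    obtain ⟨h1, h2, h3⟩ := hC hN ω u
    have i1 : C / (N : ℝ) ^ 2 ≤ C := div_le_self (by linarith) (by nlinarith)
    have i2 : C / (N : ℝ) ≤ C := div_le_self (by linarith) (by linarith)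
    have i3 : 1 / (2 * (N : ℝ)) ≤ 1 := by
      rw [div_le_one (by positivity)]
      linarith
    have i4 : aa + 20 * e3 ≤ 2 := by unfold aa e3; norm_num
    rw [pow_zero, mul_one]
    refine ⟨by linarith, by linarith, by linarith⟩
  · obtain ⟨h1, h2, h3⟩ := lev_bounds hN h ω u
    have hd := (dl_pos hN q).1
    have hd1 := (dl_pos hN q).2
    have e : dl N q ^ (2 + al) = dl N q ^ 2 * dl N q ^ al := by
      rw [Real.rpow_add hd]
      congr 1
      exact Real.rpow_natCast _ 2
    have hal := dl_al hN h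
    have h0 : 0 < dl N q ^ al := Real.rpow_pos_of_pos hd _
    have hr : 0 < rr ^ q := pow_pos rr_pos q
    have hd2 : dl N q ^ 2 ≤ 1 := pow_le_one₀ hd.le hd1
    have key : ∀ c : ℝ, 0 ≤ c → c ≤ 1 → 480 * e2 * (c * dl N q ^ al) ≤ (C + 2) * rr ^ q := by
      intro c hc0 hc1
      have j1 : c * dl N q ^ al ≤ rr ^ q := by
        calc c * dl N q ^ al ≤ 1 * rr ^ q :=
              mul_le_mul hc1 hal h0.le (by norm_num)
          _ = rr ^ q := one_mul _
      have j2 : 480 * e2 ≤ 1 := by unfold e2; norm_num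
      have j3 : (0 : ℝ) ≤ 480 * e2 := by unfold e2; norm_num
      calc 480 * e2 * (c * dl N q ^ al) ≤ 1 * rr ^ q :=
            mul_le_mul j2 j1 (by positivity) (by norm_num)
        _ ≤ (C + 2) * rr ^ q := mul_le_mul_of_nonneg_right (by linarith) hr.le
    have he2 : 0 < e2 := by unfold e2; norm_num
    refine ⟨h1.trans ?_, h2.trans ?_, h3.trans ?_⟩
    · refine le_trans ?_ (key _ (by positivity) hd2)
      rw [e]
      have : 0 < e2 * (dl N q ^ 2 * dl N q ^ al) := by positivity
      nlinarith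
    · refine le_trans ?_ (key _ hd.le hd1)
      have e' : 75 * (e2 * dl N q ^ (2 + al)) / dl N q = 75 * (e2 * (dl N q * dl N q ^ al)) := by
        rw [e]
        field_simp
      rw [e']
      have : 0 < e2 * (dl N q * dl N q ^ al) := by positivity
      nlinarith
    · refine le_trans ?_ (key 1 (by norm_num) le_rfl)
      have e' : 480 * (e2 * dl N q ^ (2 + al)) / dl N q ^ 2 = 480 * (e2 * dl N q ^ al) := by
        rw [e]
        field_simp
      rw [e']
      linarith

private theorem summable_A (A : ℝ) : Summable (fun q : ℕ => A * rr ^ q) :=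
  (summable_geometric_of_lt_one rr_pos.le rr_lt).mul_left A

end R05_aux

/-- termwise differentiation of the series -/
theorem hw_series {N : ℕ} (hN : 10 ≤ N) (ω : Om) :
    ContDiff ℝ 2 (hw N ω) ∧ (∀ u, deriv (hw N ω) u = ∑' q, deriv (lev N q ω) u) ∧
    (∀ u, deriv (deriv (hw N ω)) u = ∑' q, deriv (deriv (lev N q ω)) u) ∧
    (∀ u, Summable (fun q => lev N q ω u)) ∧ (∀ u, Summable (fun q => deriv (lev N q ω) u)) ∧
    (∀ u, Summable (fun q => deriv (deriv (lev N q ω)) u)) := by
  obtain ⟨A, hA0, hA⟩ := lev_bound_all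
  have hsA := summable_A A
  have s0 : ∀ u, Summable (fun q => lev N q ω u) := fun u =>
    Summable.of_norm_bounded hsA (fun q => (hA hN q ω u).1)
  have s1 : ∀ u, Summable (fun q => deriv (lev N q ω) u) := fun u =>
    Summable.of_norm_bounded hsA (fun q => (hA hN q ω u).2.1)
  have s2 : ∀ u, Summable (fun q => deriv (deriv (lev N q ω)) u) := fun u =>
    Summable.of_norm_bounded hsA (fun q => (hA hN q ω u).2.2)
  have dd : ∀ q y, HasDerivAt (lev N q ω) (deriv (lev N q ω) y) y := fun q y =>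
    (((lev_smooth hN q ω).1.differentiable (by norm_num)) y).hasDerivAt
  have dd' : ∀ q y, HasDerivAt (deriv (lev N q ω)) (deriv (deriv (lev N q ω)) y) y := fun q y =>
    (((contDiff_deriv (lev_smooth hN q ω).1).differentiable (by norm_num)) y).hasDerivAt
  have e1 : ∀ u, HasDerivAt (hw N ω) (∑' q, deriv (lev N q ω) u) u := fun u =>
    hasDerivAt_tsum hsA dd (fun q y => (hA hN q ω y).2.1) (s0 0) u
  have e1' : deriv (hw N ω) = fun u => ∑' q, deriv (lev N q ω) u := by
    funext u
    exact (e1 u).deriv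
  have e2 : ∀ u, HasDerivAt (deriv (hw N ω)) (∑' q, deriv (deriv (lev N q ω)) u) u := fun u => by
    rw [e1']
    exact hasDerivAt_tsum hsA dd' (fun q y => (hA hN q ω y).2.2) (s1 0) u
  refine ⟨?_, fun u => (e1 u).deriv, fun u => (e2 u).deriv, s0, s1, s2⟩
  have hw' : hw N ω = fun u => ∑' q, lev N q ω u := rfl
  rw [hw']
  have h2 : ((2 : ℕ∞) : WithTop ℕ∞) = 2 := rfl
  rw [← h2]
  refine contDiff_tsum (v := fun _ q => A * rr ^ q) (fun q => (lev_smooth hN q ω).1)
    (fun _ _ => hsA) ?_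
  intro k q x hk
  rw [norm_iteratedFDeriv_eq_norm_iteratedDeriv]
  have hk' : k ≤ 2 := by exact_mod_cast hk
  interval_cases k
  · rw [iteratedDeriv_zero]
    exact (hA hN q ω x).1
  · rw [iteratedDeriv_one]
    exact (hA hN q ω x).2.1
  · rw [iteratedDeriv_succ, iteratedDeriv_one]
    exact (hA hN q ω x).2.2

end BilEnt
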