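import Pool.Agent.BilEnt.Defs
import Pool.Agent.BilEnt.R05

/-!
# MP_bd32bb_an, part R, module R06 (doc proof/MP_bd32bb_an_entropy)

HINT. Sum of R04, R05 bounds. `Σ_{q≥1} 480 e2 dl^al ≤ 480·10^{-9}·Σ 2^{-q/64} ≤ 10^{-4}`.  Hölder: for each level
`|Δ h_q''| ≤ min(2·480 e2 dl^al, C e2 dl^{al-1}|u-v|) ≤ C e2 dl^{al-η}|u-v|^η`, `η = 1/65`, `min(A,B) ≤ A^{1-η}B^η`, and
`al - η = 1/64-1/65 > 0` gives a geometric series; level 0: `min(2, C N²|u-v|) ≤ C N^{2η}|u-v|^η`.  Total constant `≤ C N^{2/65} ≤ N` for N large.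
-/

open MeasureTheory Real
open scoped ENNReal

namespace BilEnt

namespace R06_aux

/-- sum of a series with a first term and a geometric tail bound -/
theorem tsum_bound {f : ℕ → ℝ} (hf : Summable f) {A B r : ℝ} (h0 : |f 0| ≤ A)
    (hr0 : 0 ≤ r) (hr1 : r < 1) (h : ∀ q, |f (q + 1)| ≤ B * r ^ q) :
    |∑' q, f q| ≤ A + B * (1 - r)⁻¹ := by
  rw [hf.tsum_eq_zero_add]
  have h1 : HasSum (fun q : ℕ => B * r ^ q) (B * (1 - r)⁻¹) :=
    (hasSum_geometric_of_lt_one hr0 hr1).mul_left B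
  have h2 := tsum_of_norm_bounded h1 (f := fun q => f (q + 1))
    (fun q => by rw [Real.norm_eq_abs]; exact h q)
  rw [Real.norm_eq_abs] at h2
  exact (abs_add_le _ _).trans (add_le_add h0 h2)

theorem dl_succ (N q : ℕ) : dl N (q + 1) = 1 / ((N : ℝ) ^ 2 * 2 ^ (q + 1)) := by
  unfold dl
  rw [if_neg (Nat.succ_ne_zero q)]

theorem dl_succ_pos {N : ℕ} (hN : 10 ≤ N) (q : ℕ) : 0 < dl N (q + 1) := (dl_pos hN _).1

theorem dl_succ_le {N : ℕ} (hN : 10 ≤ N) (q : ℕ) :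
    dl N (q + 1) ≤ 1 / (N : ℝ) ^ 2 * (1 / 2) ^ q := by
  rw [dl_succ]
  have hN' : (0 : ℝ) < N := by
    have : (10 : ℝ) ≤ N := by exact_mod_cast hN
    linarith
  rw [one_div_pow, div_mul_div_comm, mul_one]
  apply one_div_le_one_div_of_le (by positivity)
  apply mul_le_mul_of_nonneg_left _ (by positivity)
  exact pow_le_pow_right₀ (by norm_num) (Nat.le_succ q)

theorem dl_succ_le' {N : ℕ} (hN : 10 ≤ N) (q : ℕ) : dl N (q + 1) ≤ (1 / 2) ^ q := by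
  refine (dl_succ_le hN q).trans ?_
  have hN' : (10 : ℝ) ≤ N := by exact_mod_cast hN
  have h1 : 1 / (N : ℝ) ^ 2 ≤ 1 := by
    rw [div_le_one (by positivity)]
    nlinarith
  calc 1 / (N : ℝ) ^ 2 * (1 / 2) ^ q ≤ 1 * (1 / 2) ^ q :=
        mul_le_mul_of_nonneg_right h1 (by positivity)
    _ = _ := one_mul _

/-- powers of the scale are geometric -/
theorem dl_rpow_le {N : ℕ} (hN : 10 ≤ N) (q : ℕ) {s : ℝ} (hs : 0 ≤ s) :
    dl N (q + 1) ^ s ≤ ((1 / 2 : ℝ) ^ s) ^ q := by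
  have h1 := Real.rpow_le_rpow (dl_succ_pos hN q).le (dl_succ_le' hN q) hs
  refine h1.trans (le_of_eq ?_)
  rw [← Real.rpow_natCast, ← Real.rpow_natCast, ← Real.rpow_mul (by norm_num),
    ← Real.rpow_mul (by norm_num), mul_comm]

theorem half_rpow_lt {s : ℝ} (hs : 0 < s) : (1 / 2 : ℝ) ^ s < 1 :=
  Real.rpow_lt_one (by norm_num) (by norm_num) hs

theorem half_rpow_al : (1 / 2 : ℝ) ^ al ≤ 199 / 200 := by
  have h1 : ((1 / 2 : ℝ) ^ al) ^ 64 = 1 / 2 := by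
    rw [← Real.rpow_natCast, ← Real.rpow_mul (by norm_num)]
    unfold al
    norm_num
  have h2 : (1 / 2 : ℝ) ≤ (199 / 200) ^ 64 := by norm_num
  by_contra hc
  push Not at hc
  have h3 := pow_lt_pow_left₀ hc (by norm_num) (n := 64) (by norm_num)
  rw [h1] at h3
  linarith

theorem geom_al : (1 - (1 / 2 : ℝ) ^ al)⁻¹ ≤ 200 := by
  have h := half_rpow_al
  rw [inv_le_comm₀ (by linarith) (by norm_num)]
  linarith

/-- `min (A, B) ≤ A^{1-η} B^η` -/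
theorem interp {x A B η : ℝ} (hx : 0 ≤ x) (hA : x ≤ A) (hB : x ≤ B) (h0 : 0 ≤ η) (h1 : η ≤ 1) :
    x ≤ A ^ (1 - η) * B ^ η := by
  calc x = x ^ ((1 - η) + η) := by
        rw [sub_add_cancel, Real.rpow_one]
    _ = x ^ (1 - η) * x ^ η := Real.rpow_add_of_nonneg hx (by linarith) h0
    _ ≤ A ^ (1 - η) * B ^ η :=
        mul_le_mul (Real.rpow_le_rpow hx hA (by linarith)) (Real.rpow_le_rpow hx hB h0)
          (Real.rpow_nonneg hx _) (Real.rpow_nonneg (hx.trans hA) _)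

theorem rpow_le_self_aux {C s : ℝ} (hC : 1 ≤ C) (hs : s ≤ 1) : C ^ s ≤ C := by
  calc C ^ s ≤ C ^ (1 : ℝ) := Real.rpow_le_rpow_of_exponent_le hC hs
    _ = C := Real.rpow_one C

theorem bd0 {N : ℕ} (hN : 10 ≤ N) (ω : Om) (u : ℝ) (q : ℕ) :
    |lev N (q + 1) ω u| ≤ 1 / (N : ℝ) ^ 2 / 10 * (1 / 2) ^ q := by
  have hd := dl_pos hN (q + 1)
  have h1 := (lev_bounds hN (Nat.succ_le_succ (Nat.zero_le q)) ω u).1
  have h2 : dl N (q + 1) ^ (2 + al) ≤ dl N (q + 1) := by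
    calc dl N (q + 1) ^ (2 + al) ≤ dl N (q + 1) ^ (1 : ℝ) :=
          Real.rpow_le_rpow_of_exponent_ge hd.1 hd.2 (by unfold al; norm_num)
      _ = _ := Real.rpow_one _
  have h3 := dl_succ_le hN q
  have h4 : (0 : ℝ) ≤ 1 / (N : ℝ) ^ 2 * (1 / 2) ^ q := by positivity
  refine h1.trans ?_
  unfold e2
  nlinarith

theorem bd1 {N : ℕ} (hN : 10 ≤ N) (ω : Om) (u : ℝ) (q : ℕ) :
    |deriv (lev N (q + 1) ω) u| ≤ 1 / (N : ℝ) ^ 2 / 10 * (1 / 2) ^ q := by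
  have hd := dl_pos hN (q + 1)
  have h1 := (lev_bounds hN (Nat.succ_le_succ (Nat.zero_le q)) ω u).2.1
  have h2 : dl N (q + 1) ^ (2 + al) / dl N (q + 1) ≤ dl N (q + 1) := by
    have e : dl N (q + 1) ^ (2 + al) / dl N (q + 1) = dl N (q + 1) ^ (1 + al) := by
      rw [div_eq_iff hd.1.ne', show (2 + al : ℝ) = (1 + al) + 1 by ring, Real.rpow_add hd.1,
        Real.rpow_one]
    rw [e]
    calc dl N (q + 1) ^ (1 + al) ≤ dl N (q + 1) ^ (1 : ℝ) :=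
          Real.rpow_le_rpow_of_exponent_ge hd.1 hd.2 (by unfold al; norm_num)
      _ = _ := Real.rpow_one _
  have h3 := dl_succ_le hN q
  have h4 : (0 : ℝ) ≤ 1 / (N : ℝ) ^ 2 * (1 / 2) ^ q := by positivity
  refine h1.trans ?_
  rw [mul_comm e2, ← mul_assoc, mul_div_right_comm, mul_div_assoc]
  unfold e2
  nlinarith

theorem bd2' {N : ℕ} (hN : 10 ≤ N) (ω : Om) (u : ℝ) (q : ℕ) :
    |deriv (deriv (lev N (q + 1) ω)) u| ≤ 480 * e2 * dl N (q + 1) ^ al := by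
  have hd := dl_pos hN (q + 1)
  have h1 := (lev_bounds hN (Nat.succ_le_succ (Nat.zero_le q)) ω u).2.2
  have e : dl N (q + 1) ^ (2 + al) / dl N (q + 1) ^ 2 = dl N (q + 1) ^ al := by
    rw [div_eq_iff (by positivity [hd.1]), Real.rpow_add hd.1, Real.rpow_two, mul_comm]
  refine h1.trans (le_of_eq ?_)
  rw [← mul_assoc, mul_div_assoc, e]

theorem bd2 {N : ℕ} (hN : 10 ≤ N) (ω : Om) (u : ℝ) (q : ℕ) :
    |deriv (deriv (lev N (q + 1) ω)) u| ≤ 480 * e2 * ((1 / 2 : ℝ) ^ al) ^ q := by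
  refine (bd2' hN ω u q).trans ?_
  have h1 := dl_rpow_le hN q (s := al) (by unfold al; norm_num)
  exact mul_le_mul_of_nonneg_left h1 (by unfold e2; norm_num)

/-- Hölder bound of one level -/
theorem hol_lev {C : ℝ} (hC : 1 ≤ C) (hl : ∀ {N q : ℕ}, 10 ≤ N → 1 ≤ q → ∀ (ω : Om) (u v : ℝ),
    |deriv (deriv (lev N q ω)) u - deriv (deriv (lev N q ω)) v| ≤
      C * (e2 * dl N q ^ (2 + al)) / dl N q ^ 3 * |u - v|)
    {N : ℕ} (hN : 10 ≤ N) (ω : Om) (u v : ℝ) (q : ℕ) :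
    |deriv (deriv (lev N (q + 1) ω)) u - deriv (deriv (lev N (q + 1) ω)) v| ≤
      C * |u - v| ^ ((1 : ℝ) / 65) * ((1 / 2 : ℝ) ^ ((1 : ℝ) / 4160)) ^ q := by
  have hd := dl_pos hN (q + 1)
  have he2 : (0 : ℝ) < e2 := by unfold e2; norm_num
  set x := |deriv (deriv (lev N (q + 1) ω)) u - deriv (deriv (lev N (q + 1) ω)) v| with hx
  set d := dl N (q + 1) with hdd
  have hA : x ≤ 960 * e2 * d ^ al := by
    have h1 := bd2' hN ω u q
    have h2 := bd2' hN ω v q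
    have h3 := abs_sub (deriv (deriv (lev N (q + 1) ω)) u) (deriv (deriv (lev N (q + 1) ω)) v)
    linarith
  have hB : x ≤ C * e2 * d ^ (al - 1) * |u - v| := by
    have h1 := hl hN (Nat.succ_le_succ (Nat.zero_le q)) ω u v
    refine h1.trans (le_of_eq ?_)
    have e : d ^ (2 + al) / d ^ 3 = d ^ (al - 1) := by
      rw [div_eq_iff (by positivity [hd.1]), ← Real.rpow_natCast, ← Real.rpow_add hd.1]
      congr 1
      push_cast
      ring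
    rw [← e]
    ring
  have h := interp (abs_nonneg _) hA hB (η := (1 : ℝ) / 65) (by norm_num) (by norm_num)
  refine h.trans ?_
  have hdal : 0 ≤ d ^ al := Real.rpow_nonneg hd.1.le _
  have hdal1 : 0 ≤ d ^ (al - 1) := Real.rpow_nonneg hd.1.le _
  rw [Real.mul_rpow (by positivity) hdal, Real.mul_rpow (by positivity) he2.le,
    Real.mul_rpow (by positivity) (abs_nonneg _), Real.mul_rpow (by positivity) hdal1,
    Real.mul_rpow (by positivity) he2.le, ← Real.rpow_mul hd.1.le, ← Real.rpow_mul hd.1.le]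
  have e1 : e2 ^ (1 - (1 : ℝ) / 65) * e2 ^ ((1 : ℝ) / 65) = e2 := by
    rw [← Real.rpow_add he2]
    norm_num
  have e3' : d ^ (al * (1 - (1 : ℝ) / 65)) * d ^ ((al - 1) * ((1 : ℝ) / 65)) =
      d ^ ((1 : ℝ) / 4160) := by
    rw [← Real.rpow_add hd.1]
    congr 1
    unfold al
    norm_num
  have h960 : (960 : ℝ) ^ (1 - (1 : ℝ) / 65) ≤ 960 :=
    rpow_le_self_aux (by norm_num) (by norm_num)
  have hCp : C ^ ((1 : ℝ) / 65) ≤ C := rpow_le_self_aux hC (by norm_num)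
  have hgeo := dl_rpow_le hN q (s := (1 : ℝ) / 4160) (by norm_num)
  rw [← hdd] at hgeo
  have hq1 : 0 ≤ (960 : ℝ) ^ (1 - (1 : ℝ) / 65) := Real.rpow_nonneg (by norm_num) _
  have hq2 : 0 ≤ C ^ ((1 : ℝ) / 65) := Real.rpow_nonneg (by linarith) _
  have hq3 : 0 ≤ |u - v| ^ ((1 : ℝ) / 65) := Real.rpow_nonneg (abs_nonneg _) _
  have hq4 : 0 ≤ d ^ ((1 : ℝ) / 4160) := Real.rpow_nonneg hd.1.le _
  calc (960 : ℝ) ^ (1 - (1 : ℝ) / 65) * e2 ^ (1 - (1 : ℝ) / 65) * d ^ (al * (1 - (1 : ℝ) / 65)) *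
        (C ^ ((1 : ℝ) / 65) * e2 ^ ((1 : ℝ) / 65) * d ^ ((al - 1) * ((1 : ℝ) / 65)) *
          |u - v| ^ ((1 : ℝ) / 65))
      = (960 : ℝ) ^ (1 - (1 : ℝ) / 65) * (e2 ^ (1 - (1 : ℝ) / 65) * e2 ^ ((1 : ℝ) / 65)) *
        C ^ ((1 : ℝ) / 65) * (d ^ (al * (1 - (1 : ℝ) / 65)) * d ^ ((al - 1) * ((1 : ℝ) / 65))) *
          |u - v| ^ ((1 : ℝ) / 65) := by ring
    _ = (960 : ℝ) ^ (1 - (1 : ℝ) / 65) * e2 * C ^ ((1 : ℝ) / 65) * d ^ ((1 : ℝ) / 4160) *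
          |u - v| ^ ((1 : ℝ) / 65) := by rw [e1, e3']
    _ ≤ 960 * e2 * C * ((1 / 2 : ℝ) ^ ((1 : ℝ) / 4160)) ^ q * |u - v| ^ ((1 : ℝ) / 65) := by
        have hgeo0 : 0 ≤ ((1 / 2 : ℝ) ^ ((1 : ℝ) / 4160)) ^ q := hq4.trans hgeo
        gcongr
    _ ≤ 1 * C * ((1 / 2 : ℝ) ^ ((1 : ℝ) / 4160)) ^ q * |u - v| ^ ((1 : ℝ) / 65) := by
        have hgeo0 : 0 ≤ ((1 / 2 : ℝ) ^ ((1 : ℝ) / 4160)) ^ q := hq4.trans hgeo
        have : 960 * e2 ≤ 1 := by unfold e2; norm_num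
        gcongr
    _ = _ := by ring

end R06_aux

open R06_aux

/-- (R4): for large `N` every sample is an admissible table, close to the circle in `C¹`, with
Hölder second derivative. -/
theorem tables_ex : ∃ N₀ : ℕ, 10 ≤ N₀ ∧ ∀ N : ℕ, N₀ ≤ N → ∀ ω : Om, IsTab (hw N ω) ∧
    (∀ u, |hw N ω u| ≤ 10 / N) ∧ (∀ u, |deriv (hw N ω) u| ≤ 10 / N) ∧ Hol (hw N ω) N := by
  obtain ⟨C₀, hC₀, hl0⟩ := lev0_bounds
  obtain ⟨C₁, hC₁, hl1⟩ := lev0_lip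
  obtain ⟨C₂, hC₂, hl2⟩ := lev_lip
  set S : ℝ := (1 - (1 / 2 : ℝ) ^ ((1 : ℝ) / 4160))⁻¹ with hS
  have hS0 : 0 < S := by
    rw [hS]
    exact inv_pos.2 (by linarith [half_rpow_lt (s := (1 : ℝ) / 4160) (by norm_num)])
  set K : ℝ := (4 + 2 * C₀) * C₁ + C₂ * S with hK
  have hK0 : 0 < K := by positivity
  refine ⟨max 10 (max ⌈100 * (C₀ + 1)⌉₊ ⌈K ^ 2⌉₊), le_max_left _ _, fun N hN ω => ?_⟩
  have hN10 : 10 ≤ N := (le_max_left _ _).trans hN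
  have hNC : 100 * (C₀ + 1) ≤ N :=
    (Nat.le_ceil _).trans (Nat.cast_le.2 ((le_max_left _ _).trans ((le_max_right _ _).trans hN)))
  have hNK : K ^ 2 ≤ N :=
    (Nat.le_ceil _).trans (Nat.cast_le.2 ((le_max_right _ _).trans ((le_max_right _ _).trans hN)))
  have hN' : (10 : ℝ) ≤ N := by exact_mod_cast hN10
  have hN0 : (0 : ℝ) < N := by linarith
  obtain ⟨hs1, hs2, hs3, hs4, hs5, hs6⟩ := hw_series hN10 ω
  have hinv : 1 / (N : ℝ) ≤ 1 / (100 * (C₀ + 1)) :=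
    one_div_le_one_div_of_le (by positivity) hNC
  have hCN : C₀ / N ≤ 1 / 100 := by
    rw [div_le_iff₀ hN0]
    linarith
  have hCN2 : (C₀ + 1) / (N : ℝ) ^ 2 ≤ 1 / 100 / N := by
    rw [div_le_div_iff₀ (by positivity) hN0]
    nlinarith
  have hb0 : ∀ u, |hw N ω u| ≤ 1 / N := by
    intro u
    have h1 := tsum_bound (hs4 u) (A := C₀ / (N : ℝ) ^ 2) (hl0 hN10 ω u).1 (r := 1 / 2)
      (by norm_num) (by norm_num) (bd0 hN10 ω u)
    have h2 : C₀ / (N : ℝ) ^ 2 + 1 / (N : ℝ) ^ 2 / 10 * (1 - 1 / 2)⁻¹ ≤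
        (C₀ + 1) / (N : ℝ) ^ 2 := by
      rw [add_div, show ((1 : ℝ) - 1 / 2)⁻¹ = 2 by norm_num]
      have : 0 < 1 / (N : ℝ) ^ 2 := by positivity
      linarith
    have h3 : 1 / 100 / (N : ℝ) ≤ 1 / N := by
      apply div_le_div_of_nonneg_right _ hN0.le
      norm_num
    unfold hw
    linarith
  have hb1 : ∀ u, |deriv (hw N ω) u| ≤ 1 / N := by
    intro u
    rw [hs2 u]
    have h1 := tsum_bound (hs5 u) (A := 1 / (2 * N) + C₀ / (N : ℝ) ^ 2) (hl0 hN10 ω u).2.1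
      (r := 1 / 2) (by norm_num) (by norm_num) (bd1 hN10 ω u)
    have h2 : C₀ / (N : ℝ) ^ 2 + 1 / (N : ℝ) ^ 2 / 10 * (1 - 1 / 2)⁻¹ ≤
        (C₀ + 1) / (N : ℝ) ^ 2 := by
      rw [add_div, show ((1 : ℝ) - 1 / 2)⁻¹ = 2 by norm_num]
      have : 0 < 1 / (N : ℝ) ^ 2 := by positivity
      linarith
    have h3 : 1 / (2 * (N : ℝ)) + 1 / 100 / N ≤ 1 / N := by
      have e : 1 / (2 * (N : ℝ)) + 1 / 100 / N = 51 / 100 * (1 / N) := by
        field_simp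
        norm_num
      rw [e]
      have : 0 < 1 / (N : ℝ) := by positivity
      linarith
    linarith
  have hb2 : ∀ u, |deriv (deriv (hw N ω)) u| ≤ 97 / 100 := by
    intro u
    rw [hs3 u]
    have h1 := tsum_bound (hs6 u) (A := aa + 20 * e3 + C₀ / N) (hl0 hN10 ω u).2.2
      (r := (1 / 2 : ℝ) ^ al) (Real.rpow_nonneg (by norm_num) _)
      (half_rpow_lt (by unfold al; norm_num)) (bd2 hN10 ω u)
    refine h1.trans ?_
    have h2 := geom_al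
    have h3 : 480 * e2 * (1 - (1 / 2 : ℝ) ^ al)⁻¹ ≤ 480 * e2 * 200 :=
      mul_le_mul_of_nonneg_left h2 (by unfold e2; norm_num)
    unfold e2 at h3 ⊢
    unfold aa e3
    norm_num at h3 ⊢
    linarith
  have h1N : 1 / (N : ℝ) ≤ 1 / 100 := by
    apply one_div_le_one_div_of_le (by norm_num)
    linarith
  have h10N : 1 / (N : ℝ) ≤ 10 / N := by
    apply div_le_div_of_nonneg_right _ hN0.le
    norm_num
  refine ⟨⟨hs1, ?_, fun u => (hb0 u).trans h1N, fun u => (hb1 u).trans h1N, hb2⟩,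
    fun u => (hb0 u).trans h10N, fun u => (hb1 u).trans h10N, ?_⟩
  · intro u
    unfold hw
    exact tsum_congr fun q => (lev_smooth hN10 q ω).2 u
  · intro u v
    rw [hs3 u, hs3 v, ← (hs6 u).tsum_sub (hs6 v)]
    have hA : |deriv (deriv (lev N 0 ω)) u - deriv (deriv (lev N 0 ω)) v| ≤
        (4 + 2 * C₀) * C₁ * (N : ℝ) ^ ((2 : ℝ) / 65) * |u - v| ^ ((1 : ℝ) / 65) := by
      have ha : |deriv (deriv (lev N 0 ω)) u - deriv (deriv (lev N 0 ω)) v| ≤ 4 + 2 * C₀ := by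
        have h1 := (hl0 hN10 ω u).2.2
        have h2 := (hl0 hN10 ω v).2.2
        have h3 := abs_sub (deriv (deriv (lev N 0 ω)) u) (deriv (deriv (lev N 0 ω)) v)
        unfold aa e3 at h1 h2
        norm_num at h1 h2
        linarith
      have h := interp (abs_nonneg _) ha (hl1 hN10 ω u v) (η := (1 : ℝ) / 65) (by norm_num)
        (by norm_num)
      refine h.trans ?_
      rw [Real.mul_rpow (by positivity) (abs_nonneg _), Real.mul_rpow (by positivity)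
        (by positivity)]
      have e1 : ((N : ℝ) ^ 2) ^ ((1 : ℝ) / 65) = (N : ℝ) ^ ((2 : ℝ) / 65) := by
        rw [← Real.rpow_natCast, ← Real.rpow_mul hN0.le]
        norm_num
      rw [e1, ← mul_assoc, ← mul_assoc]
      have h4 : (4 + 2 * C₀) ^ (1 - (1 : ℝ) / 65) ≤ 4 + 2 * C₀ :=
        rpow_le_self_aux (by linarith) (by norm_num)
      have h5 : C₁ ^ ((1 : ℝ) / 65) ≤ C₁ := rpow_le_self_aux hC₁ (by norm_num)
      have h6 : 0 ≤ C₁ ^ ((1 : ℝ) / 65) := Real.rpow_nonneg (by linarith) _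
      have h7 : 0 ≤ (N : ℝ) ^ ((2 : ℝ) / 65) := Real.rpow_nonneg hN0.le _
      have h8 : 0 ≤ |u - v| ^ ((1 : ℝ) / 65) := Real.rpow_nonneg (abs_nonneg _) _
      have h9 : 0 ≤ (4 + 2 * C₀) ^ (1 - (1 : ℝ) / 65) := Real.rpow_nonneg (by linarith) _
      gcongr
    have h1 := tsum_bound ((hs6 u).sub (hs6 v)) hA (r := (1 / 2 : ℝ) ^ ((1 : ℝ) / 4160))
      (Real.rpow_nonneg (by norm_num) _) (half_rpow_lt (by norm_num))
      (hol_lev hC₂ hl2 hN10 ω u v)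
    refine h1.trans ?_
    rw [← hS]
    have h8 : 0 ≤ |u - v| ^ ((1 : ℝ) / 65) := Real.rpow_nonneg (abs_nonneg _) _
    have hN1 : (1 : ℝ) ≤ N := by linarith
    have h9 : (1 : ℝ) ≤ (N : ℝ) ^ ((2 : ℝ) / 65) := Real.one_le_rpow hN1 (by norm_num)
    have h10 : K ≤ (N : ℝ) ^ ((1 : ℝ) / 2) := by
      rw [← Real.sqrt_eq_rpow]
      exact Real.le_sqrt_of_sq_le hNK
    have h11 : (N : ℝ) ^ ((1 : ℝ) / 2) * (N : ℝ) ^ ((2 : ℝ) / 65) ≤ N := by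
      rw [← Real.rpow_add hN0]
      exact rpow_le_self_aux hN1 (by norm_num)
    calc (4 + 2 * C₀) * C₁ * (N : ℝ) ^ ((2 : ℝ) / 65) * |u - v| ^ ((1 : ℝ) / 65) +
          C₂ * |u - v| ^ ((1 : ℝ) / 65) * S
        = ((4 + 2 * C₀) * C₁ * (N : ℝ) ^ ((2 : ℝ) / 65) + C₂ * S * 1) *
            |u - v| ^ ((1 : ℝ) / 65) := by ring
      _ ≤ ((4 + 2 * C₀) * C₁ * (N : ℝ) ^ ((2 : ℝ) / 65) + C₂ * S * (N : ℝ) ^ ((2 : ℝ) / 65)) *
            |u - v| ^ ((1 : ℝ) / 65) := by gcongr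
      _ = K * (N : ℝ) ^ ((2 : ℝ) / 65) * |u - v| ^ ((1 : ℝ) / 65) := by rw [hK]; ring
      _ ≤ (N : ℝ) ^ ((1 : ℝ) / 2) * (N : ℝ) ^ ((2 : ℝ) / 65) * |u - v| ^ ((1 : ℝ) / 65) := by
          gcongr
      _ ≤ N * |u - v| ^ ((1 : ℝ) / 65) := mul_le_mul_of_nonneg_right h11 h8

/-- threshold for the size parameter -/
noncomputable def N0 : ℕ := tables_ex.choose

theorem N0_ge : 10 ≤ N0 := tables_ex.choose_spec.1

theorem tables {N : ℕ} (hN : N0 ≤ N) (ω : Om) : IsTab (hw N ω) ∧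
    (∀ u, |hw N ω u| ≤ 10 / N) ∧ (∀ u, |deriv (hw N ω) u| ≤ 10 / N) ∧ Hol (hw N ω) N :=
  tables_ex.choose_spec.2 N hN ω

theorem isTab_hw {N : ℕ} (hN : N0 ≤ N) (ω : Om) : IsTab (hw N ω) := (tables hN ω).1

end BilEnt
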