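import Pool.Agent.BilEnt.B05Bd1
import Pool.Agent.BilEnt.G12
import Pool.Agent.BilEnt.R06

/-!
# Part B, module B05Bd2: bounds on the good set
-/

open MeasureTheory Real

namespace BilEnt

noncomputable section

/-- Bounds at the times of a good orbit.

PROOF. `IsTab (hw N y.1)` (R06 `isTab_hw`), `flight_bounds`, `gg_bounds`, `pw_bounds` (G12). `Temp`: `stt h z_t ≥ 1/n³` for `t ≤ n`. Part G: `pw h z = sp * stt`,
`sp ∈ [0.99, 1.011]`, `stt/C ≤ hl h z ≤ C`, `|gg h z| ≤ C / stt h (fm h z)` (`|Thd| ≤ 1.97`,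
`pw h (fm h z) = sp * stt h (fm h z)`), for `t < n`: `fm h z_t = z_{t+1}`. `Cam = 2 aa betaN/(pw (1 + h'²))` with
`betaN_bounds`. -/
theorem good_bounds : ∃ C : ℝ, 1 ≤ C ∧ ∃ N1 : ℕ, ∀ N ≥ N1, ∀ n : ℕ, 1 ≤ n → ∀ y ∈ Gset N n,
    ∀ t ≤ n, ∀ h z, h = hw N y.1 → z = pth h y.2 t →
      (0 < pw h z ∧ pw h z ≤ 2) ∧
      (1 / (C * (n : ℝ) ^ 3) ≤ hl h z ∧ hl h z ≤ C) ∧
      (0 < Cam N h z ∧ Cam N h z ≤ C * (n : ℝ) ^ 3) ∧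
      (t < n → |gg h z| ≤ C * (n : ℝ) ^ 3) := by
  obtain ⟨Nb, hNb⟩ := betaN_bounds
  refine ⟨10 ^ 5, by norm_num, max N0 Nb, fun N hN n hn y hy t ht h z hh0 hz0 => ?_⟩
  have hN0 : N0 ≤ N := (le_max_left _ _).trans hN
  have hN1 : Nb ≤ N := (le_max_right _ _).trans hN
  have hh : IsTab h := by rw [hh0]; exact isTab_hw hN0 y.1
  obtain ⟨hyd, hyT, -, -⟩ := hy
  have hz : z ∈ dom h := by
    rw [hz0]; exact pth_mem hh (by rw [hh0]; exact hyd) t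
  have hs : 1 / (n : ℝ) ^ 3 ≤ stt h z := by
    rw [hz0, hh0]; exact hyT t ht
  have hn0 : (0 : ℝ) < (n : ℝ) ^ 3 := by
    have : (0 : ℝ) < n := by exact_mod_cast hn
    positivity
  have hinv : 0 < 1 / (n : ℝ) ^ 3 := by positivity
  have hs0 : 0 < stt h z := lt_of_lt_of_le hinv hs
  obtain ⟨p1, p2, p3⟩ := pw_bounds hh hz
  obtain ⟨-, -, f3, -, f5, -⟩ := flight_bounds hh hz
  obtain ⟨g1, g2, -, -⟩ := gg_bounds hh hz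
  obtain ⟨b1, b2⟩ := hNb N hN1 z.1
  have hpw : 0 < pw h z := pw_pos hh hz
  have hsn : 1 ≤ stt h z * (n : ℝ) ^ 3 := by
    rw [div_le_iff₀ hn0] at hs
    exact hs
  refine ⟨⟨hpw, by linarith⟩, ⟨?_, by linarith⟩, ⟨?_, ?_⟩, fun _ => ?_⟩
  · refine le_trans ?_ f3
    rw [one_div, mul_inv, ← one_div ((n : ℝ) ^ 3)]
    have h1 : (10 ^ 5 : ℝ)⁻¹ * (1 / (n : ℝ) ^ 3) ≤ (10 ^ 4 : ℝ)⁻¹ * (1 / (n : ℝ) ^ 3) :=
      mul_le_mul_of_nonneg_right (by norm_num) hinv.le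
    have h2 : (10 ^ 4 : ℝ)⁻¹ * (1 / (n : ℝ) ^ 3) ≤ (10 ^ 4 : ℝ)⁻¹ * stt h z :=
      mul_le_mul_of_nonneg_left hs (by norm_num)
    have h3 : (10 ^ 4 : ℝ)⁻¹ * stt h z = stt h z / 10 ^ 4 := by ring
    linarith
  · unfold Cam aa
    have : 0 < betaN N z.1 := by linarith
    have h1 : 0 < 1 + deriv h z.1 ^ 2 := by positivity
    positivity
  · unfold Cam aa
    have h1 : 1 ≤ 1 + deriv h z.1 ^ 2 := by nlinarith [sq_nonneg (deriv h z.1)]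
    have h2 : pw h z ≤ pw h z * (1 + deriv h z.1 ^ 2) := le_mul_of_one_le_right hpw.le h1
    have h3 : 0 < pw h z * (1 + deriv h z.1 ^ 2) := lt_of_lt_of_le hpw h2
    rw [div_le_iff₀ h3]
    have h4 : 99 / 100 ≤ pw h z * (n : ℝ) ^ 3 := by
      calc (99 / 100 : ℝ) ≤ 99 / 100 * (stt h z * (n : ℝ) ^ 3) := by linarith
        _ = (99 / 100 * stt h z) * (n : ℝ) ^ 3 := by ring
        _ ≤ pw h z * (n : ℝ) ^ 3 := mul_le_mul_of_nonneg_right p1 hn0.le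
    have h5 : pw h z * (n : ℝ) ^ 3 ≤ (pw h z * (1 + deriv h z.1 ^ 2)) * (n : ℝ) ^ 3 :=
      mul_le_mul_of_nonneg_right h2 hn0.le
    nlinarith
  · rw [abs_of_pos g1]
    refine g2.trans ?_
    rw [div_le_iff₀ hs0]
    nlinarith

theorem good_HC : ∃ C : ℝ, 1 ≤ C ∧ ∃ N1 : ℕ, ∀ N ≥ N1, ∀ n : ℕ, 1 ≤ n → ∀ y ∈ Gset N n,
    ∀ t ≤ n, 0 < HC N y t ∧ HC N y t ≤ C * (n : ℝ) ^ 3 := by
  obtain ⟨C, hC, N1, hN1⟩ := good_bounds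
  refine ⟨C * C, by nlinarith, N1, fun N hN n hn y hy t ht => ?_⟩
  obtain ⟨-, ⟨h1, h2⟩, ⟨h3, h4⟩, -⟩ := hN1 N hN n hn y hy t ht _ _ rfl rfl
  have hn0 : (0 : ℝ) < (n : ℝ) ^ 3 := by
    have : (0 : ℝ) < n := by exact_mod_cast hn
    positivity
  have h0 : 0 < hl (hw N y.1) (pth (hw N y.1) y.2 t) := lt_of_lt_of_le (by positivity) h1
  unfold HC
  refine ⟨mul_pos h0 h3, ?_⟩
  calc _ ≤ C * (C * (n : ℝ) ^ 3) := mul_le_mul h2 h4 h3.le (by linarith)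
    _ = C * C * (n : ℝ) ^ 3 := by ring

end

end BilEnt
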