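import Pool.Agent.BilEnt.Defs
import Pool.Agent.BilEnt.G12a

/-!
# G16a : (G11), angles near the circle
-/

open MeasureTheory Real
open scoped ENNReal

namespace BilEnt

namespace G16a_aux

theorem abs_arctan_le (x : ℝ) : |arctan x| ≤ |x| := by
  have h := Convex.norm_image_sub_le_of_norm_hasDerivWithin_le (f := arctan)
    (f' := fun x => 1 / (1 + x ^ 2)) (s := Set.univ) (C := 1) (x := 0) (y := x)
    (fun y _ => (Real.hasDerivAt_arctan y).hasDerivWithinAt)
    (fun y _ => by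
      rw [Real.norm_eq_abs, abs_of_nonneg (by positivity), div_le_one (by positivity)]
      nlinarith [sq_nonneg y]) convex_univ (Set.mem_univ _) (Set.mem_univ _)
  simpa using h

theorem sinh_le {y : ℝ} (hy : 0 ≤ y) : sinh y ≤ y * cosh y := by
  have hmono : MonotoneOn (fun t : ℝ => t * cosh t - sinh t) (Set.Ici 0) := by
    apply monotoneOn_of_deriv_nonneg (convex_Ici 0)
    · fun_prop
    · fun_prop
    · intro x hx
      rw [interior_Ici] at hx
      have h1 : HasDerivAt (fun t : ℝ => t * cosh t - sinh t)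
          (1 * cosh x + x * sinh x - cosh x) x :=
        ((hasDerivAt_id x).mul (Real.hasDerivAt_cosh x)).sub (Real.hasDerivAt_sinh x)
      rw [h1.deriv]
      have h2 : 0 ≤ sinh x := Real.sinh_nonneg_iff.mpr (le_of_lt hx)
      have h3 : 0 ≤ x * sinh x := mul_nonneg (le_of_lt hx) h2
      linarith
  have := hmono (Set.mem_Ici.mpr le_rfl) (Set.mem_Ici.mpr hy) hy
  simp at this
  linarith

theorem tanh_le {y : ℝ} (hy : 0 ≤ y) : |tanh y| ≤ y := by
  rw [Real.tanh_eq_sinh_div_cosh, abs_div, abs_of_pos (Real.cosh_pos y),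
    abs_of_nonneg (Real.sinh_nonneg_iff.mpr hy), div_le_iff₀ (Real.cosh_pos y)]
  exact sinh_le hy

theorem abs_tanh_le (y : ℝ) : |tanh y| ≤ |y| := by
  rcases le_total 0 y with h | h
  · rw [abs_of_nonneg h]; exact tanh_le h
  · have h1 := tanh_le (y := -y) (by linarith)
    rw [Real.tanh_neg, abs_neg] at h1
    rw [abs_of_nonpos h]; exact h1

theorem mul_cos_le {x : ℝ} (h0 : 0 < x) (h1 : x ≤ π / 2) : x * cos x ≤ sin x := by
  rcases lt_or_eq_of_le h1 with h | h
  · have hc : 0 < cos x := Real.cos_pos_of_mem_Ioo ⟨by linarith, h⟩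
    have ht := Real.lt_tan h0 h
    rw [Real.tan_eq_sin_div_cos, lt_div_iff₀ hc] at ht
    exact ht.le
  · rw [h]; simp

/-- the basic bound of `T` -/
theorem T_le {y x d : ℝ} (hx0 : 0 < x) (hx : x ≤ π / 2) (hy : |y| ≤ d * x) :
    |tanh y * (cos x / sin x)| ≤ d := by
  have hpi := Real.pi_pos
  have hs : 0 < sin x := Real.sin_pos_of_pos_of_lt_pi hx0 (by linarith)
  have hc : 0 ≤ cos x := Real.cos_nonneg_of_mem_Icc ⟨by linarith, hx⟩
  have hd : 0 ≤ d := by
    by_contra hneg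
    have : d * x < 0 := mul_neg_of_neg_of_pos (not_le.mp hneg) hx0
    linarith [abs_nonneg y]
  rw [abs_mul, abs_of_nonneg (div_nonneg hc hs.le), ← mul_div_assoc, div_le_iff₀ hs]
  calc |tanh y| * cos x ≤ (d * x) * cos x :=
        mul_le_mul_of_nonneg_right ((abs_tanh_le y).trans hy) hc
    _ = d * (x * cos x) := by ring
    _ ≤ d * sin x := mul_le_mul_of_nonneg_left (mul_cos_le hx0 hx) hd

theorem h_sub_le {h : ℝ → ℝ} (hh : IsTab h) {d : ℝ} (hd' : ∀ u, |deriv h u| ≤ d) (u w : ℝ) :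
    |h w - h u| ≤ d * |w - u| := by
  have := Convex.norm_image_sub_le_of_norm_deriv_le (f := h) (s := Set.univ) (C := d) (x := u)
    (y := w) (fun x _ => hh.differentiable x) (fun x _ => by simpa using hd' x) convex_univ
    (Set.mem_univ _) (Set.mem_univ _)
  simpa using this

/-- the bound of `T` for a chord -/
theorem T_chord {h : ℝ → ℝ} (hh : IsTab h) {d : ℝ} (hd' : ∀ u, |deriv h u| ≤ d) {u w : ℝ}
    (h1 : u < w) (h2 : w < u + 2 * π) :
    |tanh ((h w - h u) / 2) * (cos ((w - u) / 2) / sin ((w - u) / 2))| ≤ d := by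
  rcases le_total ((w - u) / 2) (π / 2) with hx | hx
  · apply T_le (by linarith) hx
    have := h_sub_le hh hd' u w
    rw [abs_of_pos (by linarith : (0:ℝ) < w - u)] at this
    rw [abs_div, abs_two]
    linarith
  · have h3 := T_le (y := (h w - h u) / 2) (x := π - (w - u) / 2) (d := d) (by linarith)
      (by linarith) (by
        have := h_sub_le hh hd' (u + 2 * π) w
        rw [hh.per u, abs_of_neg (by linarith : w - (u + 2 * π) < 0)] at this
        rw [abs_div, abs_two]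
        linarith)
    rw [Real.cos_pi_sub, Real.sin_pi_sub, neg_div, mul_neg, abs_neg] at h3
    exact h3

end G16a_aux

/-- Let `w = V h z`, `x = (w - u)/2` in `(0, π)`, `T = tanh ((h w - h u)/2) cos x / sin x`.
`|tanh y| ≤ |y|`; if `x ≤ π/2` then `|h w - h u| ≤ d (w - u) = 2 d x` and `0 ≤ cos x/sin x ≤ 1/x`
(`x ≤ tan x`), so `|T| ≤ d`; if `x ≥ π/2` use `h u = h (u+2π)`, `|h w - h (u + 2π)| ≤ 2 d (π - x)`,
`|cos x/sin x| ≤ 1/(π - x)`.  Then `A = ang h u w = (u+w)/2 + π/2 - arctan T` and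
`Th u = u + π/2 - arctan (h' u)` give `|A - Th u - x| ≤ |arctan T| + |arctan (h' u)| ≤ 2 d`, and similarly
`|Th w - A - x| ≤ 2 d` (`d ≥ 0`). -/
theorem near_circle_angle {h : ℝ → ℝ} (hh : IsTab h) {d : ℝ} (hd : ∀ u, |h u| ≤ d)
    (hd' : ∀ u, |deriv h u| ≤ d) {z : ℝ × ℝ} (hz : z ∈ dom h) :
    |z.2 - Th h z.1 - (V h z - z.1) / 2| ≤ 4 * d ∧
      |Th h (V h z) - z.2 - (V h z - z.1) / 2| ≤ 4 * d := by
  obtain ⟨h1, h2, h3⟩ := V_spec hh hz
  have hT := G16a_aux.T_chord hh hd' h1 h2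
  unfold ang at h3
  set w := V h z with hw
  set T := tanh ((h w - h z.1) / 2) * (cos ((w - z.1) / 2) / sin ((w - z.1) / 2)) with hTdef
  have a1 := (G16a_aux.abs_arctan_le T).trans hT
  have a2 := (G16a_aux.abs_arctan_le (deriv h z.1)).trans (hd' z.1)
  have a3 := (G16a_aux.abs_arctan_le (deriv h w)).trans (hd' w)
  rw [abs_le] at a1 a2 a3
  unfold Th
  rw [← h3]
  constructor
  · rw [abs_le]; constructor <;> linarith [a1.1, a1.2, a2.1, a2.2]
  · rw [abs_le]; constructor <;> linarith [a1.1, a1.2, a3.1, a3.2]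

end BilEnt
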