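import Pool.Agent.BilEnt.Defs
import Pool.Agent.BilEnt.G09
import Pool.Agent.BilEnt.G12
import Pool.Agent.BilEnt.G16a

/-!
# G16 : (G11), orbits near the circle
-/

open MeasureTheory Real
open scoped ENNReal

namespace BilEnt

/-- `θ_{t+1} = Th (u_{t+1}) - A_t`, so both `θ_t` and `θ_{t+1}` are within `4d` of
`(u_{t+1} - u_t)/2` (`near_circle_angle` at `pth h z t`, `pth_mem`): `|θ_t - θ_0| ≤ 8 d t`,
`|u_{t+1} - u_t - 2 θ_0| ≤ 8 d + 16 d t`, and `∑_{j<t} (8 + 16 j) = 8 t^2 ≤ 20 t^2`. -/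
theorem near_circle_orbit {h : ℝ → ℝ} (hh : IsTab h) {d : ℝ} (hd : ∀ u, |h u| ≤ d)
    (hd' : ∀ u, |deriv h u| ≤ d) {z : ℝ × ℝ} (hz : z ∈ dom h) (t : ℕ) :
    |((pth h z t).2 - Th h (pth h z t).1) - (z.2 - Th h z.1)| ≤ 8 * d * t ∧
      |(pth h z t).1 - z.1 - 2 * t * (z.2 - Th h z.1)| ≤ 20 * d * t ^ 2 := by
  have hd0 : 0 ≤ d := (abs_nonneg _).trans (hd 0)
  induction t with
  | zero =>
    have e : pth h z 0 = z := rfl
    rw [e]
    simp
  | succ t ih =>
    obtain ⟨ih1, ih2⟩ := ih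
    obtain ⟨a1, a2⟩ := near_circle_angle hh hd hd' (pth_mem hh hz t)
    have e : pth h z (t + 1) = fm h (pth h z t) := by
      unfold pth
      rw [Function.iterate_succ_apply']
    have e1 : (pth h z (t + 1)).1 = V h (pth h z t) := by rw [e]; rfl
    have e2 : (pth h z (t + 1)).2 = 2 * Th h (V h (pth h z t)) - (pth h z t).2 := by rw [e]; rfl
    rw [e1, e2]
    rw [abs_le] at a1 a2 ih1 ih2
    have ht : (0 : ℝ) ≤ t := Nat.cast_nonneg t
    push_cast
    have hdt : 0 ≤ d * t := mul_nonneg hd0 ht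
    constructor <;> rw [abs_le] <;> constructor <;> nlinarith

/-- `d ≥ 0`; if `10^6 d ≥ stt z` the left side is `≤ 0`.  Otherwise `d < 10^-6`,
`hl z ≥ exp (-d) ds` (`HH_sq`: `H^2 ≥ exp (h u + h w) ds^2 ≥ exp (-2d) ds^2`),
`ds = 2 |sin ((u - w)/2)| ≥ 2 (sin θ - 4 d)` (`near_circle_angle`, `|sin x - sin y| ≤ |x-y|`),
`pw z = sp u sin θ ≤ exp d * sqrt (1 + d^2) * sin θ`, so the ratio is
`≥ 2 exp (-2d) (1 + d^2)^{-1/2} (1 - 4 d/sin θ) ≥ 2 (1 - 2d) (1 - d) (1 - 4d/sin θ)`. -/
theorem near_circle_ratio {h : ℝ → ℝ} (hh : IsTab h) {d : ℝ} (hd : ∀ u, |h u| ≤ d)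
    (hd' : ∀ u, |deriv h u| ≤ d) {z : ℝ × ℝ} (hz : z ∈ dom h) :
    2 * (1 - 10 ^ 6 * d / stt h z) ≤ hl h z / pw h z := by
  have hd0 : 0 ≤ d := (abs_nonneg _).trans (hd 0)
  obtain ⟨z1, z2⟩ := hz
  have hs0 : 0 < stt h z := by
    unfold stt
    apply sin_pos_of_pos_of_lt_pi <;> linarith
  have hs1 : stt h z ≤ 1 := sin_le_one _
  set s := stt h z with hs
  have hsp0 : 0 < sp h z.1 := by
    unfold sp
    have : 0 < sqrt (1 + (deriv h z.1) ^ 2) := sqrt_pos.2 (by positivity)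
    positivity
  have hpw : pw h z = sp h z.1 * s := rfl
  have hpw0 : 0 < pw h z := by rw [hpw]; positivity
  have hl0 : 0 ≤ hl h z := norm_nonneg _
  by_cases hc : s ≤ 10 ^ 6 * d
  · have h1 : 1 ≤ 10 ^ 6 * d / s := by rwa [le_div_iff₀ hs0, one_mul]
    have h2 : 0 ≤ hl h z / pw h z := div_nonneg hl0 hpw0.le
    linarith
  · have hc : 10 ^ 6 * d < s := not_le.1 hc
    have hd1 : d ≤ 1 / 10 ^ 6 := by linarith
    -- chord
    obtain ⟨a1, -⟩ := near_circle_angle hh hd hd' (z := z) ⟨z1, z2⟩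
    have hsin : s - 4 * d ≤ sin ((V h z - z.1) / 2) := by
      have h1 : |sin (z.2 - Th h z.1) - sin ((V h z - z.1) / 2)|
          ≤ |z.2 - Th h z.1 - (V h z - z.1) / 2| := by
        have := Real.lipschitzWith_sin.dist_le_mul (z.2 - Th h z.1) ((V h z - z.1) / 2)
        rw [Real.dist_eq, Real.dist_eq, NNReal.coe_one, one_mul] at this
        exact this
      have h2 := (le_abs_self _).trans (h1.trans a1)
      have h3 : s = sin (z.2 - Th h z.1) := rfl
      linarith
    have hds : 2 * (s - 4 * d) ≤ ds z.1 (V h z) := by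
      unfold ds
      have h1 : sin ((z.1 - V h z) / 2) = -sin ((V h z - z.1) / 2) := by
        rw [← sin_neg]; congr 1; ring
      rw [h1, abs_neg]
      have := le_abs_self (sin ((V h z - z.1) / 2))
      linarith
    have hds0 : 0 ≤ ds z.1 (V h z) := by unfold ds; positivity
    have hexp : 1 - d ≤ exp (-d) := by
      have := add_one_le_exp (-d)
      linarith
    have hH : (1 - d) * ds z.1 (V h z) ≤ hl h z := by
      have h1 : exp (-d) * ds z.1 (V h z) ≤ hl h z := by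
        have h2 : (exp (-d) * ds z.1 (V h z)) ^ 2 ≤ hl h z ^ 2 := by
          unfold hl
          rw [HH_sq, mul_pow, ← Real.exp_nat_mul]
          have h3 : exp ((2 : ℕ) * -d) ≤ exp (h z.1 + h (V h z)) := by
            apply exp_le_exp.2
            have e1 := (abs_le.1 (hd z.1)).1
            have e2 := (abs_le.1 (hd (V h z))).1
            push_cast
            linarith
          calc exp ((2 : ℕ) * -d) * ds z.1 (V h z) ^ 2
              ≤ exp (h z.1 + h (V h z)) * ds z.1 (V h z) ^ 2 :=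
                mul_le_mul_of_nonneg_right h3 (sq_nonneg _)
            _ ≤ _ := by
                apply mul_le_mul_of_nonneg_left _ (exp_pos _).le
                nlinarith [sq_nonneg (sinh ((h (V h z) - h z.1) / 2))]
        exact le_of_abs_le (abs_le_of_sq_le_sq h2 hl0)
      exact (mul_le_mul_of_nonneg_right hexp hds0).trans h1
    have hspb : sp h z.1 * (1 - d) ≤ 1 + d := by
      unfold sp
      have h1 : sqrt (1 + (deriv h z.1) ^ 2) ≤ 1 + d := by
        rw [sqrt_le_left (by linarith)]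
        have h2 : (deriv h z.1) ^ 2 ≤ d ^ 2 := by
          rw [← sq_abs]
          exact pow_le_pow_left₀ (abs_nonneg _) (hd' z.1) 2
        nlinarith
      have h3 : exp (h z.1) * (1 - d) ≤ 1 := by
        calc exp (h z.1) * (1 - d) ≤ exp d * exp (-d) := by
              apply mul_le_mul _ hexp (by linarith) (exp_pos _).le
              exact exp_le_exp.2 ((le_abs_self _).trans (hd z.1))
          _ = 1 := by rw [← exp_add, add_neg_cancel, exp_zero]
      calc exp (h z.1) * sqrt (1 + (deriv h z.1) ^ 2) * (1 - d)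
          = (exp (h z.1) * (1 - d)) * sqrt (1 + (deriv h z.1) ^ 2) := by ring
        _ ≤ 1 * (1 + d) := by
            apply mul_le_mul h3 h1 (sqrt_nonneg _) zero_le_one
        _ = 1 + d := one_mul _
    rw [le_div_iff₀ hpw0, hpw]
    have e : 2 * (1 - 10 ^ 6 * d / s) * (sp h z.1 * s) = 2 * ((s - 10 ^ 6 * d) * sp h z.1) := by
      field_simp
    rw [e]
    have h1d : 0 < 1 - d := by linarith
    have key : (1 - d) * (2 * ((s - 10 ^ 6 * d) * sp h z.1)) ≤ (1 - d) * hl h z := by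
      have k1 : (1 - d) * (2 * ((s - 10 ^ 6 * d) * sp h z.1))
          ≤ 2 * ((s - 10 ^ 6 * d) * (1 + d)) := by
        have := mul_le_mul_of_nonneg_left hspb (by linarith : 0 ≤ 2 * (s - 10 ^ 6 * d))
        nlinarith
      have k2 : (1 - d) * ((1 - d) * (2 * (s - 4 * d))) ≤ (1 - d) * hl h z := by
        apply mul_le_mul_of_nonneg_left _ h1d.le
        exact (mul_le_mul_of_nonneg_left hds h1d.le).trans hH
      have k3 : 2 * ((s - 10 ^ 6 * d) * (1 + d)) ≤ (1 - d) * ((1 - d) * (2 * (s - 4 * d))) := by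
        have q1 : 0 ≤ d * (1 - s) := mul_nonneg hd0 (by linarith)
        have q2 : 0 ≤ d * d := mul_nonneg hd0 hd0
        have q3 : 0 ≤ d * d * s := mul_nonneg q2 hs0.le
        have q4 : d * d * d ≤ d * (1 / 10 ^ 6) * (1 / 10 ^ 6) := by
          have : d * d ≤ (1 / 10 ^ 6) * (1 / 10 ^ 6) :=
            mul_le_mul hd1 hd1 hd0 (by norm_num)
          nlinarith
        nlinarith
      linarith
    exact le_of_mul_le_mul_left key h1d

end BilEnt
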