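import Pool.Agent.BilEnt.B05Bd2
import Pool.Agent.BilEnt.G16
import Pool.Agent.BilEnt.R06

/-!
# Part B, module B05Bd3: (B4)
-/

open MeasureTheory Real

namespace BilEnt

noncomputable section

namespace B05Bd3Aux

theorem log_lower {x : ℝ} (h0 : 0 ≤ x) (h1 : x ≤ 1 / 2) : -2 * x ≤ log (1 - x) := by
  have hpos : 0 < 1 - x := by linarith
  have h2 := Real.one_sub_inv_le_log_of_pos hpos
  have h3 : -2 * x ≤ 1 - (1 - x)⁻¹ := by
    have h4 : (1 - x)⁻¹ ≤ 1 + 2 * x := by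
      rw [inv_le_comm₀ hpos (by linarith)]
      rw [inv_le_iff_one_le_mul₀ (by linarith)]
      nlinarith
    linarith
  linarith

end B05Bd3Aux

/-- (B4) PROOF. `HC/2 = (hl/pw) * aa * betaN/(1 + h'²)`, `hl/pw ≥ 2 (1 - C d/stt)` with `d = C/N`
(G16 `near_circle_ratio`, R06 `tables`: `|h|, |h'| ≤ 10/N`) and `stt ≥ 1/n³`: so `hl/pw ≥ 2 (1 - C n³/N)`; `1 + h'² ≤ 1 + C/N²`.
Take logarithms: `log (1 - x) ≥ -2x` for `0 ≤ x ≤ 1/2`. -/
theorem good_log : ∃ C : ℝ, 1 ≤ C ∧ ∃ N1 : ℕ, ∀ N ≥ N1, ∀ n : ℕ, 1 ≤ n → C * (n : ℝ) ^ 3 ≤ N →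
    ∀ y ∈ Gset N n, ∀ t ≤ n,
    log (2 * aa) + log (betaN N (pth (hw N y.1) y.2 t).1) - C * (n : ℝ) ^ 3 / N ≤
      log (HC N y t / 2) := by
  obtain ⟨N2, hN2⟩ := betaN_bounds
  refine ⟨3 * 10 ^ 7, by norm_num, max N0 N2, ?_⟩
  intro N hN n hn hnN y hy t ht
  obtain ⟨hdom, hTemp, -, -⟩ := hy
  obtain ⟨htab, hb, hb', -⟩ := tables (le_trans (le_max_left _ _) hN) y.1
  have hN10 : 10 ≤ N := le_trans N0_ge (le_trans (le_max_left _ _) hN)
  have hNR : (10 : ℝ) ≤ N := by exact_mod_cast hN10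
  have hN0 : (0 : ℝ) < N := by linarith
  have hn1 : (1 : ℝ) ≤ n := by exact_mod_cast hn
  have hn3 : (1 : ℝ) ≤ (n : ℝ) ^ 3 := one_le_pow₀ hn1
  set h := hw N y.1 with hh
  set z := pth h y.2 t with hz
  have hzdom : z ∈ dom h := pth_mem htab hdom t
  have hst : 1 / (n : ℝ) ^ 3 ≤ stt h z := hTemp t ht
  have hst0 : 0 < stt h z := lt_of_lt_of_le (by positivity) hst
  obtain ⟨hβ1, -⟩ := hN2 N (le_trans (le_max_right _ _) hN) z.1
  have hβ0 : 0 < betaN N z.1 := by linarith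
  have hratio := near_circle_ratio htab hb hb' hzdom
  set x : ℝ := 10 ^ 7 * (n : ℝ) ^ 3 / N with hx
  have hx0 : 0 ≤ x := by positivity
  have hx1 : x ≤ 1 / 2 := by
    rw [hx, div_le_iff₀ hN0]
    linarith
  have hxst : 10 ^ 6 * (10 / N) / stt h z ≤ x := by
    rw [hx, div_le_div_iff₀ hst0 hN0]
    have h1 : 1 ≤ (n : ℝ) ^ 3 * stt h z := by
      rw [div_le_iff₀ (by positivity)] at hst
      linarith
    have h2 : (10 : ℝ) ^ 6 * (10 / N) * N = 10 ^ 7 := by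
      field_simp
    rw [h2]
    nlinarith
  have hr2 : 2 * (1 - x) ≤ hl h z / pw h z := by linarith
  have hr0 : 0 < 2 * (1 - x) := by linarith
  have hd2 : (deriv h z.1) ^ 2 ≤ 100 / (N : ℝ) ^ 2 := by
    have h1 := hb' z.1
    rw [← sq_abs]
    calc |deriv h z.1| ^ 2 ≤ (10 / (N : ℝ)) ^ 2 := by gcongr
      _ = 100 / (N : ℝ) ^ 2 := by rw [div_pow]; norm_num
  have hden : 0 < 1 + (deriv h z.1) ^ 2 := by positivity
  have haa : (0 : ℝ) < aa := by unfold aa; norm_num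
  have hHC : HC N y t / 2 = (hl h z / pw h z) * (aa * betaN N z.1 / (1 + (deriv h z.1) ^ 2)) := by
    unfold HC Cam
    rw [← hh, ← hz]
    have hpw : pw h z ≠ 0 := (pw_pos htab hzdom).ne'
    have hden' : 1 + (deriv h z.1) ^ 2 ≠ 0 := hden.ne'
    field_simp
  have hlow : 2 * (1 - x) * (aa * betaN N z.1 / (1 + 100 / (N : ℝ) ^ 2)) ≤ HC N y t / 2 := by
    rw [hHC]
    have h3 : aa * betaN N z.1 / (1 + 100 / (N : ℝ) ^ 2) ≤ aa * betaN N z.1 / (1 + (deriv h z.1) ^ 2) := by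
      gcongr
    exact mul_le_mul hr2 h3 (by positivity) (by linarith)
  have hlog := Real.log_le_log (by positivity) hlow
  have hsplit : log (2 * (1 - x) * (aa * betaN N z.1 / (1 + 100 / (N : ℝ) ^ 2))) =
      log (2 * aa) + log (betaN N z.1) + log (1 - x) - log (1 + 100 / (N : ℝ) ^ 2) := by
    have e : 2 * (1 - x) * (aa * betaN N z.1 / (1 + 100 / (N : ℝ) ^ 2)) =
        ((2 * aa) * betaN N z.1 * (1 - x)) / (1 + 100 / (N : ℝ) ^ 2) := by ring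
    have h1x : 0 < 1 - x := by linarith
    rw [e, Real.log_div (by positivity) (by positivity), Real.log_mul (by positivity) h1x.ne',
      Real.log_mul (by positivity) hβ0.ne']
  have hl1 := B05Bd3Aux.log_lower hx0 hx1
  have hl2 : log (1 + 100 / (N : ℝ) ^ 2) ≤ 100 / (N : ℝ) ^ 2 := by
    have := Real.log_le_sub_one_of_pos (show (0 : ℝ) < 1 + 100 / (N : ℝ) ^ 2 by positivity)
    linarith
  have hl3 : 100 / (N : ℝ) ^ 2 ≤ 10 ^ 7 * (n : ℝ) ^ 3 / N := by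
    rw [div_le_div_iff₀ (by positivity) hN0]
    nlinarith
  have hfin : 3 * 10 ^ 7 * (n : ℝ) ^ 3 / N = 3 * x := by rw [hx]; ring
  rw [hfin]
  rw [hsplit] at hlog
  linarith

end

end BilEnt
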