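import Pool.Agent.BilEnt.B05Bd2

/-!
# Part B, module B05Bd4: boundedness on the good set
-/

open MeasureTheory Real

namespace BilEnt

noncomputable section

namespace B05Bd4Aux

theorem abs_log_le {a b x : ℝ} (ha : 0 < a) (hax : a ≤ x) (hxb : x ≤ b) :
    |log x| ≤ |log a| + |log b| := by
  have hx : 0 < x := lt_of_lt_of_le ha hax
  have h1 : log a ≤ log x := log_le_log ha hax
  have h2 : log x ≤ log b := log_le_log hx hxb
  rw [abs_le]
  constructor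
  · have := neg_abs_le (log a)
    have := abs_nonneg (log b)
    linarith
  · have := le_abs_self (log b)
    have := abs_nonneg (log a)
    linarith

theorem abs_Lf_le {e1 e2 J ε Y : ℝ} (h1 : 0 < e1) (h1' : e1 ≤ ε) (h2 : ε ≤ e2) (hY : |Y| ≤ J) :
    |Lf ε Y| ≤ |log (e1 ^ 2)| + |log (J ^ 2 + e2 ^ 2)| := by
  unfold Lf
  have hε : 0 < ε := lt_of_lt_of_le h1 h1'
  have hJ : 0 ≤ J := le_trans (abs_nonneg _) hY
  have hY2 : Y ^ 2 ≤ J ^ 2 := by
    rw [← sq_abs Y]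
    exact pow_le_pow_left₀ (abs_nonneg _) hY 2
  have he1 : e1 ^ 2 ≤ ε ^ 2 := pow_le_pow_left₀ h1.le h1' 2
  have he2 : ε ^ 2 ≤ e2 ^ 2 := pow_le_pow_left₀ hε.le h2 2
  have h3 := abs_log_le (a := e1 ^ 2) (b := J ^ 2 + e2 ^ 2) (x := Y ^ 2 + ε ^ 2) (by positivity)
    (by nlinarith [sq_nonneg Y]) (by linarith)
  rw [abs_div, abs_of_pos (by norm_num : (0 : ℝ) < 2)]
  have h4 := abs_nonneg (log (Y ^ 2 + ε ^ 2))
  linarith

end B05Bd4Aux

open B05Bd4Aux

/-- All functions of part B are bounded on the good set.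

PROOF. `Jn_bound` with `m = C n³` (`good_bounds`): `|Jn t| ≤ (3 m²)^n`.  `Lf ε Y ≥ log ε`,
`Lf ε Y ≤ log (|Y| + ε)` etc.; `good_HC` and the lower bound `HC ≥ 1/(C n³)` (from `hl ≥ 1/(C n³)`,
`Cam ≥ 2 aa (1/4)/(2 * 2)`). -/
theorem good_bdd : ∃ N1 : ℕ, ∀ N ≥ N1, ∀ n : ℕ, 1 ≤ n → ∀ ε : ℝ, 0 < ε → ∃ B : ℝ, ∀ y ∈ Gset N n,
    ∀ t ≤ n, |Lf ε (Jn (hw N y.1) y.2 t)| ≤ B ∧ |log (HC N y t / 2)| ≤ B ∧
      |Lf (2 * ε / HC N y t) (Jn (hw N y.1) y.2 t)| ≤ B ∧
      |log (hl (hw N y.1) (pth (hw N y.1) y.2 t))| ≤ B := by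
  obtain ⟨C1, hC1, N1, h1⟩ := good_bounds
  obtain ⟨C2, hC2, N2, h2⟩ := good_HC
  obtain ⟨N3, h3⟩ := betaN_bounds
  refine ⟨max (max N1 N2) (max N3 N0), fun N hN n hn ε hε => ?_⟩
  have hN1 : N1 ≤ N := le_trans (le_trans (le_max_left _ _) (le_max_left _ _)) hN
  have hN2 : N2 ≤ N := le_trans (le_trans (le_max_right _ _) (le_max_left _ _)) hN
  have hN3 : N3 ≤ N := le_trans (le_trans (le_max_left _ _) (le_max_right _ _)) hN
  have hN4 : N0 ≤ N := le_trans (le_trans (le_max_right _ _) (le_max_right _ _)) hN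
  have hn' : (1 : ℝ) ≤ n := by exact_mod_cast hn
  have hn3 : (1 : ℝ) ≤ (n : ℝ) ^ 3 := one_le_pow₀ hn'
  set m : ℝ := C1 * (n : ℝ) ^ 3 with hm
  have hm1 : 1 ≤ m := by
    have := mul_le_mul hC1 hn3 zero_le_one (by linarith)
    simpa using this
  have hm0 : 0 < m := by linarith
  have hC1m : C1 ≤ m := by
    have := mul_le_mul_of_nonneg_left hn3 (by linarith : (0 : ℝ) ≤ C1)
    simpa using this
  set J : ℝ := (3 * m ^ 2) ^ n with hJ
  set Hmax : ℝ := C2 * (n : ℝ) ^ 3 with hHmax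
  have hHmax0 : 0 < Hmax := by positivity
  set Hmin : ℝ := 1 / m * (aa / 8) with hHmin
  have haa : (0 : ℝ) < aa := by unfold aa; norm_num
  have hHmin0 : 0 < Hmin := by positivity
  refine ⟨(|log (ε ^ 2)| + |log (J ^ 2 + ε ^ 2)|) + (|log (Hmin / 2)| + |log (Hmax / 2)|) +
    (|log ((2 * ε / Hmax) ^ 2)| + |log (J ^ 2 + (2 * ε / Hmin) ^ 2)|) +
    (|log (1 / m)| + |log m|), fun y hy t ht => ?_⟩
  set h := hw N y.1 with hh
  have hgb := h1 N hN1 n hn y hy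
  obtain ⟨⟨hpw0, hpw2⟩, ⟨hhl1, hhl2⟩, ⟨hCam0, hCam1⟩, -⟩ := hgb t ht h (pth h y.2 t) rfl rfl
  obtain ⟨hHC0, hHC1⟩ := h2 N hN2 n hn y hy t ht
  -- the entries
  have hJn : |Jn h y.2 t| ≤ J := by
    have hb : ∀ j < t, |hl h (pth h y.2 j)| ≤ m ∧ |gg h (pth h y.2 j)| ≤ m := by
      intro j hj
      obtain ⟨-, ⟨a1, a2⟩, -, a3⟩ := hgb j (by omega) h (pth h y.2 j) rfl rfl
      have a0 : 0 < hl h (pth h y.2 j) := lt_of_lt_of_le (by positivity) a1
      exact ⟨by rw [abs_of_pos a0]; linarith, a3 (by omega)⟩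
    have h5 := (Jn_bound h y.2 m hm1 t hb).1
    have h6 : (1 : ℝ) ≤ 3 * m ^ 2 := by nlinarith
    exact le_trans h5 (pow_le_pow_right₀ h6 ht)
  -- the lower bound of HC
  have hHClow : Hmin ≤ HC N y t := by
    have hbeta := (h3 N hN3 (pth h y.2 t).1).1
    have hder := (isTab_hw hN4 y.1).b1 (pth h y.2 t).1
    rw [← hh] at hder
    have hder2 : (deriv h (pth h y.2 t).1) ^ 2 ≤ 1 := by
      rw [← sq_abs]
      have := pow_le_pow_left₀ (abs_nonneg _) hder 2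
      norm_num at this ⊢
      linarith
    have hCam : aa / 8 ≤ Cam N h (pth h y.2 t) := by
      unfold Cam
      have hden0 : 0 < pw h (pth h y.2 t) * (1 + (deriv h (pth h y.2 t).1) ^ 2) := by positivity
      rw [le_div_iff₀ hden0]
      have hden : pw h (pth h y.2 t) * (1 + (deriv h (pth h y.2 t).1) ^ 2) ≤ 2 * 2 :=
        mul_le_mul hpw2 (by linarith) (by positivity) (by norm_num)
      have h7 := mul_le_mul_of_nonneg_left hden (by positivity : 0 ≤ aa / 8)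
      have h8 := mul_le_mul_of_nonneg_left hbeta (by positivity : 0 ≤ 2 * aa)
      linarith
    show Hmin ≤ hl h (pth h y.2 t) * Cam N h (pth h y.2 t)
    rw [hHmin]
    exact mul_le_mul hhl1 hCam (by positivity) (le_trans (by positivity) hhl1)
  have b1 := abs_Lf_le (e1 := ε) (e2 := ε) (J := J) (Y := Jn h y.2 t) hε le_rfl le_rfl hJn
  have b2 := abs_log_le (a := Hmin / 2) (b := Hmax / 2) (x := HC N y t / 2) (by positivity)
    (by linarith) (by linarith)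
  have b3 := abs_Lf_le (e1 := 2 * ε / Hmax) (e2 := 2 * ε / Hmin) (ε := 2 * ε / HC N y t) (J := J)
    (Y := Jn h y.2 t) (by positivity)
    (div_le_div_of_nonneg_left (by positivity) hHC0 hHC1)
    (div_le_div_of_nonneg_left (by positivity) hHmin0 hHClow) hJn
  have b4 := abs_log_le (a := 1 / m) (b := m) (x := hl h (pth h y.2 t)) (by positivity)
    hhl1 (by linarith)
  have c1 := abs_nonneg (log (ε ^ 2))
  have c2 := abs_nonneg (log (J ^ 2 + ε ^ 2))
  have c3 := abs_nonneg (log (Hmin / 2))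
  have c4 := abs_nonneg (log (Hmax / 2))
  have c5 := abs_nonneg (log ((2 * ε / Hmax) ^ 2))
  have c6 := abs_nonneg (log (J ^ 2 + (2 * ε / Hmin) ^ 2))
  have c7 := abs_nonneg (log (1 / m))
  have c8 := abs_nonneg (log m)
  refine ⟨by linarith, by linarith, by linarith, by linarith⟩

end

end BilEnt
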