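import Pool.Agent.BilEnt.Defs
import Pool.Agent.BilEnt.G10

/-!
# G14a : (G10), pointwise form
-/

open MeasureTheory Real
open scoped ENNReal

namespace BilEnt

private lemma gam_eq {h k : ℝ → ℝ} {u : ℝ} (e : h u = k u) : gam k u = gam h u := by
  unfold gam
  rw [e]

private lemma Th_eq {h k : ℝ → ℝ} {u : ℝ} (e : deriv h u = deriv k u) : Th k u = Th h u := by
  unfold Th
  rw [e]

private lemma sp_eq {h k : ℝ → ℝ} {u : ℝ} (e0 : h u = k u) (e1 : deriv h u = deriv k u) :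
    sp k u = sp h u := by
  unfold sp
  rw [e0, e1]

private lemma stt_eq {h k : ℝ → ℝ} {z : ℝ × ℝ} (e1 : deriv h z.1 = deriv k z.1) :
    stt k z = stt h z := by
  unfold stt
  rw [Th_eq e1]

private lemma pw_eq {h k : ℝ → ℝ} {z : ℝ × ℝ} (e0 : h z.1 = k z.1)
    (e1 : deriv h z.1 = deriv k z.1) : pw k z = pw h z := by
  unfold pw
  rw [sp_eq e0 e1, stt_eq e1]

private lemma dom_of_eq {h k : ℝ → ℝ} {z : ℝ × ℝ} (e1 : deriv h z.1 = deriv k z.1)
    (hz : z ∈ dom h) : z ∈ dom k := by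
  have hz2 : Th h z.1 < z.2 ∧ z.2 < Th h z.1 + π := hz
  rw [← Th_eq e1] at hz2
  exact hz2

/-- Only the value of the table at the two ends of the chord matters for the flight:
`gam k = gam h` at `z.1` and at `w = V h z`, so `wedge (ev z.2) (gam k w - gam k z.1) = 0` (`chord_V`,
`wedge_ev`), and `V_char` (with `z ∈ dom k`) gives `V k z = w`. -/
theorem V_congr {h k : ℝ → ℝ} (hh : IsTab h) (hk : IsTab k) {z : ℝ × ℝ} (hz : z ∈ dom h)
    (hz' : z ∈ dom k) (e0 : h z.1 = k z.1) (f0 : h (V h z) = k (V h z)) :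
    V k z = V h z ∧ hl k z = hl h z := by
  have hs := V_spec hh hz
  have h3 : wedge (ev z.2) (gam k (V h z) - gam k z.1) = 0 := by
    rw [gam_eq e0, gam_eq f0, chord_V hh hz]
    have h4 := wedge_ev 1 (hl h z) z.2 z.2
    rw [sub_self, Real.sin_zero, mul_zero, Complex.ofReal_one, one_mul] at h4
    exact h4
  have hV := V_char hk hz' hs.1 hs.2.1 h3
  refine ⟨hV, ?_⟩
  unfold hl HH
  rw [hV, gam_eq e0, gam_eq f0]

/-- If moreover `h' = k'` at the start then `z ∈ dom k` is automatic and `pw` agrees. -/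
theorem fm_congr {h k : ℝ → ℝ} (hh : IsTab h) (hk : IsTab k) {z : ℝ × ℝ} (hz : z ∈ dom h)
    (e0 : h z.1 = k z.1) (e1 : deriv h z.1 = deriv k z.1) (f0 : h (V h z) = k (V h z)) :
    z ∈ dom k ∧ V k z = V h z ∧ hl k z = hl h z ∧ pw k z = pw h z ∧ stt k z = stt h z := by
  have hz' := dom_of_eq e1 hz
  obtain ⟨h1, h2⟩ := V_congr hh hk hz hz' e0 f0
  exact ⟨hz', h1, h2, pw_eq e0 e1, stt_eq e1⟩

/-- with first derivatives also at the end of the flight. -/
theorem fm_congr' {h k : ℝ → ℝ} (hh : IsTab h) (hk : IsTab k) {z : ℝ × ℝ} (hz : z ∈ dom h)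
    (hz' : z ∈ dom k) (e0 : h z.1 = k z.1) (f0 : h (V h z) = k (V h z))
    (f1 : deriv h (V h z) = deriv k (V h z)) :
    fm k z = fm h z ∧ pw k (fm k z) = pw h (fm h z) ∧ stt k (fm k z) = stt h (fm h z) := by
  obtain ⟨h1, h2⟩ := V_congr hh hk hz hz' e0 f0
  have h3 : fm k z = fm h z := by
    unfold fm
    rw [h1, Th_eq f1]
  have h4 : (fm h z).1 = V h z := rfl
  rw [h3]
  refine ⟨rfl, ?_, ?_⟩
  · exact pw_eq (by rw [h4]; exact f0) (by rw [h4]; exact f1)
  · exact stt_eq (by rw [h4]; exact f1)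

/-- one step backward.  `y = rv h z = rv k z'` is the same state for both tables (in both domains by
`rv_mem`); `bm h z = rv h (fm h y) - tau`, so `(bm h z).1 = V h y - 2π`; `h, k` are `2π`-periodic and
have the same value and derivative there by `f0, f1`, hence also at `V h y`; `V_congr` and
`fm_congr'` give `fm k y = fm h y` and `rv k (fm k y) = rv h (fm h y)`.  Lengths by `hl_rv_fm`
(and `hl_add_tau`), sines by `stt_rv`, `stt_add_tau`. -/
theorem bm_congr {h k : ℝ → ℝ} (hh : IsTab h) (hk : IsTab k) {z z' : ℝ × ℝ} (hz : z ∈ dom h)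
    (hz' : z' ∈ dom k) (hr : rv h z = rv k z') (e0 : h z.1 = k z.1)
    (f0 : h (bm h z).1 = k (bm h z).1) (f1 : deriv h (bm h z).1 = deriv k (bm h z).1) :
    bm k z' = bm h z ∧ hl k (bm k z') = hl h (bm h z) ∧ stt k (bm k z') = stt h (bm h z) ∧
      pw k (bm k z') = pw h (bm h z) := by
  have hy : rv h z ∈ dom h := rv_mem hz
  have hy' : rv h z ∈ dom k := by
    rw [hr]
    exact rv_mem hz'
  have hb1 : (bm h z).1 = V h (rv h z) - 2 * π := rfl
  have hb2 : (bm h z).1 + 2 * π = V h (rv h z) := by rw [hb1]; ring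
  have g0 : h (V h (rv h z)) = k (V h (rv h z)) := by
    rw [← hb2, hh.per, hk.per]
    exact f0
  have g1 : deriv h (V h (rv h z)) = deriv k (V h (rv h z)) := by
    rw [← hb2, deriv_per hh, deriv_per hk]
    exact f1
  have e0' : h (rv h z).1 = k (rv h z).1 := e0
  obtain ⟨hV, hhl⟩ := V_congr hh hk hy hy' e0' g0
  obtain ⟨hfm, -, -⟩ := fm_congr' hh hk hy hy' e0' g0 g1
  have hrv : rv k (fm k (rv h z)) = rv h (fm h (rv h z)) := by
    rw [hfm]
    have h4 : (fm h (rv h z)).1 = V h (rv h z) := rfl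
    unfold rv
    rw [Th_eq (h := h) (k := k) (u := (fm h (z.1, 2 * Th h z.1 + π - z.2)).1) g1]
  have hbm : bm k z' = bm h z := by
    unfold bm
    rw [← hr, hrv]
  have hl1 : hl h (bm h z) = hl h (rv h z) := by
    rw [← hl_add_tau hh (bm_mem hh hz)]
    have e : bm h z + tau = rv h (fm h (rv h z)) := by
      unfold bm tau
      rw [sub_add_cancel]
    rw [e, hl_rv_fm hh hy]
  have hl2 : hl k (bm k z') = hl k (rv h z) := by
    rw [← hl_add_tau hk (bm_mem hk hz')]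
    have e : bm k z' + tau = rv k (fm k (rv h z)) := by
      unfold bm tau
      rw [sub_add_cancel, ← hr]
    rw [e, hl_rv_fm hk hy']
  refine ⟨hbm, ?_, ?_, ?_⟩
  · rw [hl1, hl2, hhl]
  · rw [hbm]
    exact stt_eq f1
  · rw [hbm]
    exact pw_eq f0 f1

private lemma gg_bm {h : ℝ → ℝ} (hh : IsTab h) {z : ℝ × ℝ} (hz : z ∈ dom h) :
    gg h (bm h z) = 2 * Thd h z.1 / pw h z := by
  have h1 := fm_bm hh hz
  have h2 : V h (bm h z) = z.1 := congrArg Prod.fst h1
  unfold gg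
  rw [h1, h2]

/-- the matrix of the backward step: `fm h (bm h z) = z` (`fm_bm`), so
`gg h (bm h z) = 2 Thd h z.1 / pw h z`. -/
theorem Mc_bm_congr {h k : ℝ → ℝ} (hh : IsTab h) (hk : IsTab k) {z : ℝ × ℝ} (hz : z ∈ dom h)
    (e0 : h z.1 = k z.1) (e1 : deriv h z.1 = deriv k z.1)
    (e2 : deriv (deriv h) z.1 = deriv (deriv k) z.1)
    (f0 : h (bm h z).1 = k (bm h z).1) (f1 : deriv h (bm h z).1 = deriv k (bm h z).1) :
    Mc k (bm k z) = Mc h (bm h z) := by
  have hz' := dom_of_eq e1 hz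
  have hr : rv h z = rv k z := by
    unfold rv
    rw [Th_eq e1]
  obtain ⟨hbm, hhl, -, -⟩ := bm_congr hh hk hz hz' hr e0 f0 f1
  have hgg : gg k (bm k z) = gg h (bm h z) := by
    rw [gg_bm hh hz, gg_bm hk hz', pw_eq e0 e1]
    have h3 : Thd k z.1 = Thd h z.1 := by
      unfold Thd
      rw [e1, e2]
    rw [h3]
  unfold Mc
  rw [hgg, hhl]

end BilEnt
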