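import Pool.Agent.BilEnt.Defs
import Pool.Agent.BilEnt.G10
import Pool.Agent.BilEnt.G14a

/-!
# G14 : (G10), locality
-/

open MeasureTheory Real
open scoped ENNReal

namespace BilEnt

/-- two tables agree (with two derivatives) off `U` -/
def AgreeOff (h k : ℝ → ℝ) (U : Set ℝ) : Prop :=
  ∀ u, u ∉ U → h u = k u ∧ deriv h u = deriv k u ∧ deriv (deriv h) u = deriv (deriv k) u

/-- (G10), one step: `V_congr`, `fm_congr'` and the definitions of `gg`, `Thd`, `Mc`. -/
theorem local_step {h k : ℝ → ℝ} (hh : IsTab h) (hk : IsTab k) {U : Set ℝ} (hU : AgreeOff h k U)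
    {z : ℝ × ℝ} (hz : z ∈ dom h) (hz' : z ∈ dom k) (he : h z.1 = k z.1) (hV : V h z ∉ U) :
    V k z = V h z ∧ fm k z = fm h z ∧ hl k z = hl h z ∧ Mc k z = Mc h z ∧
      pw k (fm k z) = pw h (fm h z) ∧ stt k (fm k z) = stt h (fm h z) := by
  obtain ⟨f0, f1, f2⟩ := hU _ hV
  obtain ⟨hVk, hlk⟩ := V_congr hh hk hz hz' he f0
  obtain ⟨hfm, hpw, hst⟩ := fm_congr' hh hk hz hz' he f0 f1
  have hgg : gg k z = gg h z := by
    unfold gg
    rw [hpw, hVk]
    unfold Thd
    rw [f1, f2]
  refine ⟨hVk, hfm, hlk, ?_, hpw, hst⟩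
  unfold Mc
  rw [hgg, hlk]

/-- (G10), forward orbits: induction on `t` with `local_step` at `pth h z t` (for `t ≥ 1` the
equality `h u_t = k u_t` holds because `u_t ∉ U`); membership by `pth_mem`. -/
theorem local_forward {h k : ℝ → ℝ} (hh : IsTab h) (hk : IsTab k) {U : Set ℝ}
    (hU : AgreeOff h k U) {z : ℝ × ℝ} (hz : z ∈ dom h) (hz' : z ∈ dom k) (he : h z.1 = k z.1)
    {m : ℕ} (hm : ∀ t, 1 ≤ t → t ≤ m → (pth h z t).1 ∉ U) :
    (∀ t ≤ m, pth k z t = pth h z t) ∧ (∀ t < m, Ms k z t = Ms h z t) ∧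
      ∀ t, 1 ≤ t → t ≤ m → pw k (pth k z t) = pw h (pth h z t) ∧
        stt k (pth k z t) = stt h (pth h z t) := by
  have succ_eq : ∀ (g : ℝ → ℝ) (t : ℕ), pth g z (t + 1) = fm g (pth g z t) := fun g t =>
    Function.iterate_succ_apply' (fm g) t z
  -- one step from time `t`, given equality at time `t`
  have step : ∀ t < m, pth k z t = pth h z t →
      V k (pth h z t) = V h (pth h z t) ∧ fm k (pth h z t) = fm h (pth h z t) ∧
      hl k (pth h z t) = hl h (pth h z t) ∧ Mc k (pth h z t) = Mc h (pth h z t) ∧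
      pw k (fm k (pth h z t)) = pw h (fm h (pth h z t)) ∧
      stt k (fm k (pth h z t)) = stt h (fm h (pth h z t)) := by
    intro t ht heq
    have h1 : pth h z t ∈ dom h := pth_mem hh hz t
    have h2 : pth h z t ∈ dom k := by rw [← heq]; exact pth_mem hk hz' t
    have h3 : h (pth h z t).1 = k (pth h z t).1 := by
      rcases Nat.eq_zero_or_pos t with h0 | h0
      · subst h0; exact he
      · exact (hU _ (hm t h0 ht.le)).1
    have h4 : V h (pth h z t) ∉ U := by
      have := hm (t + 1) (Nat.succ_le_succ (Nat.zero_le t)) ht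
      rw [succ_eq h t] at this
      exact this
    exact local_step hh hk hU h1 h2 h3 h4
  have key : ∀ t ≤ m, pth k z t = pth h z t := by
    intro t
    induction t with
    | zero => intro _; rfl
    | succ t ih =>
      intro ht
      have heq := ih (Nat.le_of_succ_le ht)
      have hs := step t ht heq
      rw [succ_eq k t, succ_eq h t, heq]
      exact hs.2.1
  refine ⟨key, ?_, ?_⟩
  · intro t ht
    have heq := key t ht.le
    unfold Ms
    rw [heq]
    exact (step t ht heq).2.2.2.1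
  · intro t h1 ht
    obtain ⟨s, rfl⟩ : ∃ s, t = s + 1 := ⟨t - 1, by omega⟩
    have heq := key s (by omega)
    have hs := step s (by omega) heq
    rw [succ_eq k s, succ_eq h s, heq]
    exact ⟨hs.2.2.2.2.1, hs.2.2.2.2.2⟩

/-- (G10), backward orbits from the same bounce point and the same incoming line.
Induction on `t` with `bm_congr` (first step: `z = zin h u φ`, `z' = zin k u φ`, `rv_zin`; later steps:
`z = z'`, where `rv h z = rv k z` because the derivatives agree at `z.1 ∉ U`), `Mc_bm_congr` for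
`t ≥ 2`; membership by `bm_iter_mem`. -/
theorem local_backward {h k : ℝ → ℝ} (hh : IsTab h) (hk : IsTab k) {U : Set ℝ}
    (hU : AgreeOff h k U) {u φ : ℝ} (hz : zin h u φ ∈ dom h) (hz' : zin k u φ ∈ dom k)
    (he : h u = k u) {m : ℕ}
    (hm : ∀ t, 1 ≤ t → t ≤ m → ((bm h)^[t] (zin h u φ)).1 ∉ U) :
    (∀ t, 1 ≤ t → t ≤ m → (bm k)^[t] (zin k u φ) = (bm h)^[t] (zin h u φ)) ∧
    (∀ t, 2 ≤ t → t ≤ m → Mc k ((bm k)^[t] (zin k u φ)) = Mc h ((bm h)^[t] (zin h u φ))) ∧
    (∀ t, 1 ≤ t → t ≤ m → hl k ((bm k)^[t] (zin k u φ)) = hl h ((bm h)^[t] (zin h u φ)) ∧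
      stt k ((bm k)^[t] (zin k u φ)) = stt h ((bm h)^[t] (zin h u φ))) := by
  have succ_eq : ∀ (g : ℝ → ℝ) (y : ℝ × ℝ) (t : ℕ),
      (bm g)^[t + 1] y = bm g ((bm g)^[t] y) := fun g y t =>
    Function.iterate_succ_apply' (bm g) t y
  -- later steps
  have step : ∀ t, 1 ≤ t → t < m →
      (bm k)^[t] (zin k u φ) = (bm h)^[t] (zin h u φ) →
      (bm k ((bm h)^[t] (zin h u φ)) = bm h ((bm h)^[t] (zin h u φ)) ∧
        hl k (bm k ((bm h)^[t] (zin h u φ))) = hl h (bm h ((bm h)^[t] (zin h u φ))) ∧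
        stt k (bm k ((bm h)^[t] (zin h u φ))) = stt h (bm h ((bm h)^[t] (zin h u φ))) ∧
        pw k (bm k ((bm h)^[t] (zin h u φ))) = pw h (bm h ((bm h)^[t] (zin h u φ)))) ∧
      Mc k (bm k ((bm h)^[t] (zin h u φ))) = Mc h (bm h ((bm h)^[t] (zin h u φ))) := by
    intro t h1 ht heq
    have m1 : (bm h)^[t] (zin h u φ) ∈ dom h := bm_iter_mem hh hz t
    have m2 : (bm h)^[t] (zin h u φ) ∈ dom k := by rw [← heq]; exact bm_iter_mem hk hz' t
    have hn1 := hm t h1 ht.le
    have hn2 := hm (t + 1) (by omega) ht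
    rw [succ_eq h] at hn2
    obtain ⟨a0, a1, a2⟩ := hU _ hn1
    obtain ⟨b0, b1, b2⟩ := hU _ hn2
    have hr : rv h ((bm h)^[t] (zin h u φ)) = rv k ((bm h)^[t] (zin h u φ)) := by
      unfold rv Th
      rw [a1]
    exact ⟨bm_congr hh hk m1 m2 hr a0 b0 b1, Mc_bm_congr hh hk m1 a0 a1 a2 b0 b1⟩
  -- first step
  have first : 1 ≤ m →
      bm k (zin k u φ) = bm h (zin h u φ) ∧
        hl k (bm k (zin k u φ)) = hl h (bm h (zin h u φ)) ∧
        stt k (bm k (zin k u φ)) = stt h (bm h (zin h u φ)) ∧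
        pw k (bm k (zin k u φ)) = pw h (bm h (zin h u φ)) := by
    intro h1
    have hn := hm 1 le_rfl h1
    rw [Function.iterate_one] at hn
    obtain ⟨b0, b1, b2⟩ := hU _ hn
    have hr : rv h (zin h u φ) = rv k (zin k u φ) := by
      rw [rv_zin, rv_zin]
    exact bm_congr hh hk hz hz' hr he b0 b1
  have key : ∀ t, 1 ≤ t → t ≤ m → (bm k)^[t] (zin k u φ) = (bm h)^[t] (zin h u φ) := by
    intro t
    induction t with
    | zero => intro h0; omega
    | succ t ih =>
      intro _ ht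
      rcases Nat.eq_zero_or_pos t with h0 | h0
      · subst h0
        rw [zero_add, Function.iterate_one, Function.iterate_one]
        exact (first ht).1
      · have heq := ih h0 (by omega)
        rw [succ_eq k, succ_eq h, heq]
        exact (step t h0 ht heq).1.1
  refine ⟨key, ?_, ?_⟩
  · intro t h2 ht
    obtain ⟨s, rfl⟩ : ∃ s, t = s + 1 := ⟨t - 1, by omega⟩
    have heq := key s (by omega) (by omega)
    rw [succ_eq k, succ_eq h, heq]
    exact (step s (by omega) (by omega) heq).2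
  · intro t h1 ht
    obtain ⟨s, rfl⟩ : ∃ s, t = s + 1 := ⟨t - 1, by omega⟩
    rcases Nat.eq_zero_or_pos s with h0 | h0
    · subst h0
      rw [zero_add, Function.iterate_one, Function.iterate_one]
      exact ⟨(first ht).2.1, (first ht).2.2.1⟩
    · have heq := key s h0 (by omega)
      rw [succ_eq k, succ_eq h, heq]
      exact ⟨(step s h0 (by omega) heq).1.2.1, (step s h0 (by omega) heq).1.2.2.1⟩

end BilEnt
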