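import Pool.Agent.BilEnt.Defs
import Pool.Agent.BilEnt.R06
import Pool.Agent.BilEnt.G14

/-!
# MP_bd32bb_an, part R, module R08 (doc proof/MP_bd32bb_an_entropy)

HINT. `hw` is a sum over levels; only the term `(q,i)` changes.  Then `deriv` of the difference.  Off the cell use `cell_off`.
In the cell (level q ≥ 1): `cell = β·G`, with `G(u) = b·y0`, `δ G'(u) = b·y1`; so `cell, cell'` at `u` depend on `y0,y1` only (the factor `β'G` too), and
`cell'' = β''G + 2β'G' + βG''`, `G'' = b(-x1 sin/δ + 2 x2 cos/δ²)`; eliminate `x1`.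
-/

open MeasureTheory Real
open scoped ENNReal

namespace BilEnt

namespace R08_aux

lemma ds_sq (u c : ℝ) : ds u c ^ 2 = 2 * (1 - cos (u - c)) := by
  unfold ds
  have h1 : cos (u - c) = 2 * cos ((u - c) / 2) ^ 2 - 1 := by
    rw [← Real.cos_two_mul]; congr 1; ring
  have h2 := Real.sin_sq_add_cos_sq ((u - c) / 2)
  rw [mul_pow, sq_abs, h1]
  linarith

/-- derivatives of a difference -/
lemma deriv_diff {F G f g : ℝ → ℝ} (hF : ContDiff ℝ 2 F) (hG : ContDiff ℝ 2 G)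
    (hf : ContDiff ℝ 2 f) (hg : ContDiff ℝ 2 g) (h : ∀ u, F u - G u = f u - g u) (u : ℝ) :
    deriv F u - deriv G u = deriv f u - deriv g u ∧
      deriv (deriv F) u - deriv (deriv G) u = deriv (deriv f) u - deriv (deriv g) u := by
  have key : ∀ F : ℝ → ℝ, ContDiff ℝ 2 F → Differentiable ℝ F ∧ Differentiable ℝ (deriv F) := by
    intro F hF
    refine ⟨hF.differentiable (by norm_num), ?_⟩
    have h2 : ContDiff ℝ (1 + 1) F := hF
    rw [contDiff_succ_iff_deriv] at h2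
    exact h2.2.2.differentiable (by norm_num)
  obtain ⟨F1, F2⟩ := key F hF
  obtain ⟨G1, G2⟩ := key G hG
  obtain ⟨f1, f2⟩ := key f hf
  obtain ⟨g1, g2⟩ := key g hg
  have e0 : (F - G) = (f - g) := by funext v; exact h v
  have e1 : ∀ v, deriv F v - deriv G v = deriv f v - deriv g v := by
    intro v
    rw [← deriv_sub (F1 v) (G1 v), ← deriv_sub (f1 v) (g1 v), e0]
  have e2 : (deriv F - deriv G) = (deriv f - deriv g) := by funext v; exact e1 v
  refine ⟨e1 u, ?_⟩
  rw [← deriv_sub (F2 u) (G2 u), ← deriv_sub (f2 u) (g2 u), e2]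

lemma cellF_contDiff {N : ℕ} (hN : 10 ≤ N) (q i : ℕ) (x : Fin 3 → ℝ) :
    ContDiff ℝ 2 (cellF N q i x) := by
  rcases Nat.eq_zero_or_pos q with h | h
  · subst h; exact (cell0_smooth hN i x).1
  · exact (cell_smooth (by omega) h i x).1

lemma lev_upd (N : ℕ) (ω : Om) {q i : ℕ} (hi : i < nc N q) (x x' : Fin 3 → ℝ) (u : ℝ) (r : ℕ) :
    lev N r (upd ω q i x) u - lev N r (upd ω q i x') u =
      if r = q then cellF N q i x u - cellF N q i x' u else 0 := by
  unfold lev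
  rw [← Finset.sum_sub_distrib]
  split_ifs with hr
  · subst hr
    rw [Finset.sum_eq_single i]
    · unfold upd; simp
    · intro j _ hj
      have hne : ((r, j) : ℕ × ℕ) ≠ (r, i) := by
        intro h; exact hj (Prod.mk.inj h).2
      unfold upd
      rw [Function.update_of_ne hne, Function.update_of_ne hne, sub_self]
    · intro h; exact absurd (Finset.mem_range.2 hi) h
  · refine Finset.sum_eq_zero (fun j _ => ?_)
    have hne : ((r, j) : ℕ × ℕ) ≠ (q, i) := by
      intro h; exact hr (Prod.mk.inj h).1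
    unfold upd
    rw [Function.update_of_ne hne, Function.update_of_ne hne, sub_self]

lemma hw_diff {N : ℕ} (hN : 10 ≤ N) (ω : Om) {q i : ℕ} (hi : i < nc N q) (x x' : Fin 3 → ℝ)
    (u : ℝ) :
    hw N (upd ω q i x) u - hw N (upd ω q i x') u = cellF N q i x u - cellF N q i x' u := by
  have s1 := (hw_series hN (upd ω q i x)).2.2.2.1 u
  have s2 := (hw_series hN (upd ω q i x')).2.2.2.1 u
  unfold hw
  rw [← s1.tsum_sub s2]
  simp only [lev_upd N ω hi x x' u]
  rw [tsum_ite_eq]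

lemma bmp_contDiff (N q i : ℕ) : ContDiff ℝ 2 (bmp N q i) := by
  have h : bmp N q i = fun u => bump (2 * (1 - cos (u - ctr (nc N q) i)) / dl N q ^ 2) := by
    funext u; exact bmp_eq N q i u
  rw [h]
  refine contDiff_bump.comp ?_
  fun_prop

/-- product rule, twice -/
lemma deriv_mul2 {β g : ℝ → ℝ} (hβ : ContDiff ℝ 2 β) (hg : ContDiff ℝ 2 g) (u : ℝ) :
    deriv (fun v => β v * g v) u = deriv β u * g u + β u * deriv g u ∧
    deriv (deriv (fun v => β v * g v)) u =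
      deriv (deriv β) u * g u + 2 * (deriv β u * deriv g u) + β u * deriv (deriv g) u := by
  have key : ∀ F : ℝ → ℝ, ContDiff ℝ 2 F → Differentiable ℝ F ∧ Differentiable ℝ (deriv F) := by
    intro F hF
    refine ⟨hF.differentiable (by norm_num), ?_⟩
    have h2 : ContDiff ℝ (1 + 1) F := hF
    rw [contDiff_succ_iff_deriv] at h2
    exact h2.2.2.differentiable (by norm_num)
  obtain ⟨b1, b2⟩ := key β hβ
  obtain ⟨g1, g2⟩ := key g hg
  have e : ∀ v, deriv (fun v => β v * g v) v = deriv β v * g v + β v * deriv g v := by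
    intro v
    exact ((b1 v).hasDerivAt.mul (g1 v).hasDerivAt).deriv
  refine ⟨e u, ?_⟩
  have e' : deriv (fun v => β v * g v) = fun v => deriv β v * g v + β v * deriv g v := by
    funext v; exact e v
  rw [e']
  have := ((((b2 u).hasDerivAt.mul (g1 u).hasDerivAt)).add
    ((b1 u).hasDerivAt.mul (g2 u).hasDerivAt)).deriv
  have h3 : deriv (fun v => deriv β v * g v + β v * deriv g v) u =
      deriv (deriv β) u * g u + deriv β u * deriv g u + (deriv β u * deriv g u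
        + β u * deriv (deriv g) u) := this
  rw [h3]
  ring

/-- the profile difference -/
noncomputable def gq (b δ c y0 y1 y2 : ℝ) (v : ℝ) : ℝ :=
  b * (y0 + y1 * (sin (v - c) / δ) + y2 * (2 * (1 - cos (v - c)) / δ ^ 2))

lemma gq_contDiff (b δ c y0 y1 y2 : ℝ) : ContDiff ℝ 2 (gq b δ c y0 y1 y2) := by
  unfold gq
  fun_prop

lemma gq_hasDerivAt (b δ c y0 y1 y2 v : ℝ) : HasDerivAt (gq b δ c y0 y1 y2)
    (b * (y1 * (cos (v - c) / δ) + y2 * (2 * sin (v - c) / δ ^ 2))) v := by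
  have h0 : HasDerivAt (fun v : ℝ => v - c) 1 v := (hasDerivAt_id v).sub_const c
  have hs : HasDerivAt (fun v : ℝ => sin (v - c)) (cos (v - c)) v := by
    simpa using h0.sin
  have hc : HasDerivAt (fun v : ℝ => cos (v - c)) (-sin (v - c)) v := by
    simpa using h0.cos
  have h1 := ((hs.div_const δ).const_mul y1).const_add y0
  have h2 := ((((hasDerivAt_const v (1 : ℝ)).sub hc).const_mul 2).div_const (δ ^ 2)).const_mul y2
  have h3 := (h1.add h2).const_mul b
  refine h3.congr_deriv ?_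
  ring

lemma gq_hasDerivAt' (b δ c y1 y2 v : ℝ) :
    HasDerivAt (fun v => b * (y1 * (cos (v - c) / δ) + y2 * (2 * sin (v - c) / δ ^ 2)))
    (b * (-(y1 * (sin (v - c) / δ)) + y2 * (2 * cos (v - c) / δ ^ 2))) v := by
  have h0 : HasDerivAt (fun v : ℝ => v - c) 1 v := (hasDerivAt_id v).sub_const c
  have hs : HasDerivAt (fun v : ℝ => sin (v - c)) (cos (v - c)) v := by
    simpa using h0.sin
  have hc : HasDerivAt (fun v : ℝ => cos (v - c)) (-sin (v - c)) v := by
    simpa using h0.cos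
  have h1 := ((hc.div_const δ).const_mul y1)
  have h2 := ((hs.const_mul 2).div_const (δ ^ 2)).const_mul y2
  have h3 := (h1.add h2).const_mul b
  refine h3.congr_deriv ?_
  ring

lemma gq_deriv (b δ c y0 y1 y2 v : ℝ) : deriv (gq b δ c y0 y1 y2) v =
    b * (y1 * (cos (v - c) / δ) + y2 * (2 * sin (v - c) / δ ^ 2)) :=
  (gq_hasDerivAt b δ c y0 y1 y2 v).deriv

lemma gq_deriv2 (b δ c y0 y1 y2 v : ℝ) : deriv (deriv (gq b δ c y0 y1 y2)) v =
    b * (-(y1 * (sin (v - c) / δ)) + y2 * (2 * cos (v - c) / δ ^ 2)) := by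
  have : deriv (gq b δ c y0 y1 y2) =
      fun v => b * (y1 * (cos (v - c) / δ) + y2 * (2 * sin (v - c) / δ ^ 2)) := by
    funext w; exact gq_deriv b δ c y0 y1 y2 w
  rw [this]
  exact (gq_hasDerivAt' b δ c y1 y2 v).deriv

/-- difference of the contents of a cell of level `q ≥ 1` -/
lemma cell_diff {N q : ℕ} (hq : 1 ≤ q) (i : ℕ) {x x' : Fin 3 → ℝ} (hx : ∀ j, |x j| ≤ 1)
    (hx' : ∀ j, |x' j| ≤ 1) (v : ℝ) :
    cellF N q i x v - cellF N q i x' v = bmp N q i v *
      gq (e2 * dl N q ^ (2 + al)) (dl N q) (ctr (nc N q) i) (x 0 - x' 0) (x 1 - x' 1)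
        (x 2 - x' 2) v := by
  have hq0 : q ≠ 0 := by omega
  unfold cellF gq
  rw [if_neg hq0, if_neg hq0]
  unfold Gq
  simp only [clampR_of_abs_le (hx _), clampR_of_abs_le (hx' _), ds_sq]
  ring

/-- derivatives of the table under a change of one cell of level `q ≥ 1` -/
lemma hw_cell {N : ℕ} (hN : 10 ≤ N) (ω : Om) {q i : ℕ} (hq : 1 ≤ q) (hi : i < nc N q)
    {x x' : Fin 3 → ℝ} (hx : ∀ j, |x j| ≤ 1) (hx' : ∀ j, |x' j| ≤ 1) (u : ℝ) :
    let g := gq (e2 * dl N q ^ (2 + al)) (dl N q) (ctr (nc N q) i) (x 0 - x' 0) (x 1 - x' 1)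
        (x 2 - x' 2)
    hw N (upd ω q i x) u - hw N (upd ω q i x') u = bmp N q i u * g u ∧
    deriv (hw N (upd ω q i x)) u - deriv (hw N (upd ω q i x')) u =
      deriv (bmp N q i) u * g u + bmp N q i u * deriv g u ∧
    deriv (deriv (hw N (upd ω q i x))) u - deriv (deriv (hw N (upd ω q i x'))) u =
      deriv (deriv (bmp N q i)) u * g u + 2 * (deriv (bmp N q i) u * deriv g u)
        + bmp N q i u * deriv (deriv g) u := by
  intro g
  have hb := bmp_contDiff N q i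
  have hg : ContDiff ℝ 2 g := gq_contDiff _ _ _ _ _ _
  have e : ∀ v, hw N (upd ω q i x) v - hw N (upd ω q i x') v = bmp N q i v * g v := by
    intro v
    rw [hw_diff hN ω hi x x' v, cell_diff hq i hx hx' v]
  have h1 := deriv_diff (hw_series hN (upd ω q i x)).1 (hw_series hN (upd ω q i x')).1
    (hb.mul hg) (contDiff_const (c := (0 : ℝ))) (fun v => by rw [e v]; simp) u
  have h2 := deriv_mul2 hb hg u
  have z1 : deriv (fun _ : ℝ => (0 : ℝ)) = fun _ => 0 := by funext v; simp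
  refine ⟨e u, ?_, ?_⟩
  · rw [← h2.1]
    have := h1.1
    simpa using this
  · rw [← h2.2]
    have := h1.2
    rw [z1] at this
    simpa using this

end R08_aux

open R08_aux

/-- effect of changing the contents of one cell -/
theorem hw_upd {N : ℕ} (hN : N0 ≤ N) (ω : Om) {q i : ℕ} (hi : i < nc N q) (x x' : Fin 3 → ℝ)
    (u : ℝ) :
    hw N (upd ω q i x) u - hw N (upd ω q i x') u = cellF N q i x u - cellF N q i x' u ∧
    deriv (hw N (upd ω q i x)) u - deriv (hw N (upd ω q i x')) u =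
      deriv (cellF N q i x) u - deriv (cellF N q i x') u ∧
    deriv (deriv (hw N (upd ω q i x))) u - deriv (deriv (hw N (upd ω q i x'))) u =
      deriv (deriv (cellF N q i x)) u - deriv (deriv (cellF N q i x')) u := by
  have hN10 : 10 ≤ N := N0_ge.trans hN
  refine ⟨hw_diff hN10 ω hi x x' u, ?_⟩
  exact deriv_diff (hw_series hN10 (upd ω q i x)).1 (hw_series hN10 (upd ω q i x')).1
    (cellF_contDiff hN10 q i x) (cellF_contDiff hN10 q i x') (hw_diff hN10 ω hi x x') u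

theorem agreeOff_upd {N : ℕ} (hN : N0 ≤ N) (ω : Om) {q i : ℕ} (hi : i < nc N q)
    (x x' : Fin 3 → ℝ) :
    AgreeOff (hw N (upd ω q i x)) (hw N (upd ω q i x')) {u | ds u (ctr (nc N q) i) < dl N q} := by
  have hN10 : 10 ≤ N := N0_ge.trans hN
  intro u hu
  have hu' : dl N q ≤ ds u (ctr (nc N q) i) := not_lt.1 hu
  obtain ⟨a0, a1, a2⟩ := cell_off (by omega : 4 ≤ N) i x hu'
  obtain ⟨b0, b1, b2⟩ := cell_off (by omega : 4 ≤ N) i x' hu'
  obtain ⟨c0, c1, c2⟩ := hw_upd hN ω hi x x' u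
  rw [a0, b0] at c0
  rw [a1, b1] at c1
  rw [a2, b2] at c2
  exact ⟨by linarith, by linarith, by linarith⟩

/-- (R8a) slope variation at `u` (level `q ≥ 1`): `y0` and `x 2` fixed. -/
theorem slope_family {N : ℕ} (hN : N0 ≤ N) (ω : Om) {q i : ℕ} (hq : 1 ≤ q) (hi : i < nc N q)
    {u : ℝ} {x x' : Fin 3 → ℝ} (hx : ∀ j, |x j| ≤ 1) (hx' : ∀ j, |x' j| ≤ 1)
    (h0 : x 0 + x 1 * (sin (u - ctr (nc N q) i) / dl N q) +
        x 2 * (ds u (ctr (nc N q) i) ^ 2 / dl N q ^ 2) =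
      x' 0 + x' 1 * (sin (u - ctr (nc N q) i) / dl N q) +
        x' 2 * (ds u (ctr (nc N q) i) ^ 2 / dl N q ^ 2)) (h2 : x 2 = x' 2) :
    hw N (upd ω q i x) u = hw N (upd ω q i x') u ∧
    deriv (hw N (upd ω q i x)) u - deriv (hw N (upd ω q i x')) u =
      bmp N q i u * e2 * dl N q ^ (1 + al) * cos (u - ctr (nc N q) i) * (x 1 - x' 1) := by
  have hN10 : 10 ≤ N := N0_ge.trans hN
  have hdl := (dl_pos hN10 q).1
  obtain ⟨e0, e1, -⟩ := hw_cell hN10 ω hq hi hx hx' u
  have hg0 : gq (e2 * dl N q ^ (2 + al)) (dl N q) (ctr (nc N q) i) (x 0 - x' 0) (x 1 - x' 1)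
        (x 2 - x' 2) u = 0 := by
    unfold gq
    rw [ds_sq] at h0
    have : x 0 - x' 0 + (x 1 - x' 1) * (sin (u - ctr (nc N q) i) / dl N q) +
      (x 2 - x' 2) * (2 * (1 - cos (u - ctr (nc N q) i)) / dl N q ^ 2) = 0 := by linarith
    rw [this, mul_zero]
  rw [hg0] at e0 e1
  rw [gq_deriv, h2] at e1
  refine ⟨by linarith, ?_⟩
  rw [e1]
  have hpow : dl N q ^ (2 + al) = dl N q ^ (1 + al) * dl N q := by
    have : (2 : ℝ) + al = (1 + al) + 1 := by ring
    rw [this, Real.rpow_add_one hdl.ne']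
  rw [hpow]
  field_simp
  ring

/-- (R8b) curvature variation at `u` (level `q ≥ 1`): `y0` and `y1` fixed. -/
theorem curv_family {N : ℕ} (hN : N0 ≤ N) (ω : Om) {q i : ℕ} (hq : 1 ≤ q) (hi : i < nc N q)
    {u : ℝ} (hu : 1 / 2 ≤ cos (u - ctr (nc N q) i))
    {x x' : Fin 3 → ℝ} (hx : ∀ j, |x j| ≤ 1) (hx' : ∀ j, |x' j| ≤ 1)
    (h0 : x 0 + x 1 * (sin (u - ctr (nc N q) i) / dl N q) +
        x 2 * (ds u (ctr (nc N q) i) ^ 2 / dl N q ^ 2) =
      x' 0 + x' 1 * (sin (u - ctr (nc N q) i) / dl N q) +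
        x' 2 * (ds u (ctr (nc N q) i) ^ 2 / dl N q ^ 2))
    (h1 : x 1 * cos (u - ctr (nc N q) i) + 2 * x 2 * (sin (u - ctr (nc N q) i) / dl N q) =
      x' 1 * cos (u - ctr (nc N q) i) + 2 * x' 2 * (sin (u - ctr (nc N q) i) / dl N q)) :
    hw N (upd ω q i x) u = hw N (upd ω q i x') u ∧
    deriv (hw N (upd ω q i x)) u = deriv (hw N (upd ω q i x')) u ∧
    deriv (deriv (hw N (upd ω q i x))) u - deriv (deriv (hw N (upd ω q i x'))) u =
      bmp N q i u * e2 * dl N q ^ al * 2 / cos (u - ctr (nc N q) i) * (x 2 - x' 2) := by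
  have hN10 : 10 ≤ N := N0_ge.trans hN
  have hdl := (dl_pos hN10 q).1
  obtain ⟨e0, e1, e2'⟩ := hw_cell hN10 ω hq hi hx hx' u
  have hg0 : gq (e2 * dl N q ^ (2 + al)) (dl N q) (ctr (nc N q) i) (x 0 - x' 0) (x 1 - x' 1)
        (x 2 - x' 2) u = 0 := by
    unfold gq
    rw [ds_sq] at h0
    have : x 0 - x' 0 + (x 1 - x' 1) * (sin (u - ctr (nc N q) i) / dl N q) +
      (x 2 - x' 2) * (2 * (1 - cos (u - ctr (nc N q) i)) / dl N q ^ 2) = 0 := by linarith
    rw [this, mul_zero]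
  have hcos : 0 < cos (u - ctr (nc N q) i) := by linarith
  have hg1 : deriv (gq (e2 * dl N q ^ (2 + al)) (dl N q) (ctr (nc N q) i) (x 0 - x' 0) (x 1 - x' 1)
        (x 2 - x' 2)) u = 0 := by
    rw [gq_deriv]
    have h3 : (x 1 - x' 1) * (cos (u - ctr (nc N q) i) / dl N q)
        + (x 2 - x' 2) * (2 * sin (u - ctr (nc N q) i) / dl N q ^ 2) = 0 := by
      have h4 : (x 1 - x' 1) * (cos (u - ctr (nc N q) i) / dl N q)
        + (x 2 - x' 2) * (2 * sin (u - ctr (nc N q) i) / dl N q ^ 2)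
        = ((x 1 * cos (u - ctr (nc N q) i) + 2 * x 2 * (sin (u - ctr (nc N q) i) / dl N q))
          - (x' 1 * cos (u - ctr (nc N q) i) + 2 * x' 2 * (sin (u - ctr (nc N q) i) / dl N q)))
          / dl N q := by
        field_simp
        ring
      rw [h4, h1, sub_self, zero_div]
    rw [h3, mul_zero]
  rw [hg0] at e0 e1 e2'
  rw [hg1] at e1 e2'
  rw [gq_deriv2] at e2'
  refine ⟨by linarith, by linarith, ?_⟩
  rw [e2']
  have hpow : dl N q ^ (2 + al) = dl N q ^ al * dl N q ^ 2 := by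
    rw [Real.rpow_add hdl, mul_comm]
    norm_num
  have hx1 : x 1 - x' 1 = -(2 * (x 2 - x' 2) * (sin (u - ctr (nc N q) i) / dl N q))
      / cos (u - ctr (nc N q) i) := by
    rw [eq_div_iff hcos.ne']
    linarith
  have hsc : sin (u - ctr (nc N q) i) ^ 2 = 1 - cos (u - ctr (nc N q) i) ^ 2 := by
    have := Real.sin_sq_add_cos_sq (u - ctr (nc N q) i)
    linarith
  rw [hpow, hx1]
  have h5 : -(-(2 * (x 2 - x' 2) * (sin (u - ctr (nc N q) i) / dl N q))
      / cos (u - ctr (nc N q) i) * (sin (u - ctr (nc N q) i) / dl N q))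
      + (x 2 - x' 2) * (2 * cos (u - ctr (nc N q) i) / dl N q ^ 2)
      = 2 * (x 2 - x' 2) / (cos (u - ctr (nc N q) i) * dl N q ^ 2) := by
    have : -(-(2 * (x 2 - x' 2) * (sin (u - ctr (nc N q) i) / dl N q))
      / cos (u - ctr (nc N q) i) * (sin (u - ctr (nc N q) i) / dl N q))
      + (x 2 - x' 2) * (2 * cos (u - ctr (nc N q) i) / dl N q ^ 2)
      = 2 * (x 2 - x' 2) * (sin (u - ctr (nc N q) i) ^ 2 + cos (u - ctr (nc N q) i) ^ 2)
        / (cos (u - ctr (nc N q) i) * dl N q ^ 2) := by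
      field_simp
    rw [this, hsc]
    ring
  rw [h5]
  field_simp
  ring

end BilEnt
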