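import Pool.Agent.BilEnt.Defs
import Pool.Agent.BilEnt.R08
import Pool.Agent.BilEnt.R03

/-!
# MP_bd32bb_an, part R, module R15 (doc proof/MP_bd32bb_an_entropy)

HINT. R08 `hw_upd` with `q = 0` and the product formula `cell = β·G0`; `G0` and `G0'` at `u` are unchanged: `G0' = (aa/N²) sin ψ + (e3/N) x2 cos t0`.
-/

open MeasureTheory Real
open scoped ENNReal

namespace BilEnt

namespace R15_aux

/-- first derivative of the bump of a cell -/
noncomputable def b1 (δ c v : ℝ) : ℝ :=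
  -3 * (max 0 (1 - 2 * (1 - cos (v - c)) / δ ^ 2)) ^ 2 * (2 * sin (v - c) / δ ^ 2)

/-- second derivative of the bump of a cell -/
noncomputable def b2 (δ c v : ℝ) : ℝ :=
  (6 * max 0 (1 - 2 * (1 - cos (v - c)) / δ ^ 2) * (2 * sin (v - c) / δ ^ 2)) *
      (2 * sin (v - c) / δ ^ 2) +
    -3 * (max 0 (1 - 2 * (1 - cos (v - c)) / δ ^ 2)) ^ 2 * (2 * cos (v - c) / δ ^ 2)

theorem hasDerivAt_arg (δ c v : ℝ) :
    HasDerivAt (fun v => 2 * (1 - cos (v - c)) / δ ^ 2) (2 * sin (v - c) / δ ^ 2) v := by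
  have h1 : HasDerivAt (fun v => v - c) 1 v := (hasDerivAt_id v).sub_const c
  have h2 : HasDerivAt (fun v => cos (v - c)) (-sin (v - c) * 1) v := h1.cos
  have h3 := ((h2.const_sub 1).const_mul 2).div_const (δ ^ 2)
  exact h3.congr_deriv (by ring)

theorem hasDerivAt_slope (δ c v : ℝ) :
    HasDerivAt (fun v => 2 * sin (v - c) / δ ^ 2) (2 * cos (v - c) / δ ^ 2) v := by
  have h1 : HasDerivAt (fun v => v - c) 1 v := (hasDerivAt_id v).sub_const c
  have h2 : HasDerivAt (fun v => sin (v - c)) (cos (v - c) * 1) v := h1.sin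
  have h3 := (h2.const_mul 2).div_const (δ ^ 2)
  exact h3.congr_deriv (by ring)

theorem hasDerivAt_b0 (δ c v : ℝ) :
    HasDerivAt (fun v => bump (2 * (1 - cos (v - c)) / δ ^ 2)) (b1 δ c v) v := by
  have h := (hasDerivAt_bump (2 * (1 - cos (v - c)) / δ ^ 2)).comp v (hasDerivAt_arg δ c v)
  exact h

theorem hasDerivAt_b1 (δ c v : ℝ) : HasDerivAt (b1 δ c) (b2 δ c v) v := by
  have h := (hasDerivAt_bump' (2 * (1 - cos (v - c)) / δ ^ 2)).comp v (hasDerivAt_arg δ c v)
  have h2 := h.mul (hasDerivAt_slope δ c v)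
  exact h2

/-- the profile for contents in the cube -/
noncomputable def g0 (N : ℕ) (c : ℝ) (x : Fin 3 → ℝ) (v : ℝ) : ℝ :=
  -(aa / (N : ℝ) ^ 4) * cos ((N : ℝ) ^ 2 * v + π * x 0) +
    e3 / (N : ℝ) ^ 2 * (x 1 + x 2 * N * sin (v - c))

noncomputable def g1 (N : ℕ) (c : ℝ) (x : Fin 3 → ℝ) (v : ℝ) : ℝ :=
  aa / (N : ℝ) ^ 4 * (N : ℝ) ^ 2 * sin ((N : ℝ) ^ 2 * v + π * x 0) +
    e3 / (N : ℝ) ^ 2 * (x 2 * N * cos (v - c))

noncomputable def g2 (N : ℕ) (c : ℝ) (x : Fin 3 → ℝ) (v : ℝ) : ℝ :=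
  aa / (N : ℝ) ^ 4 * (N : ℝ) ^ 2 * (N : ℝ) ^ 2 * cos ((N : ℝ) ^ 2 * v + π * x 0) -
    e3 / (N : ℝ) ^ 2 * (x 2 * N * sin (v - c))

theorem hasDerivAt_phase (N : ℕ) (t v : ℝ) :
    HasDerivAt (fun v => (N : ℝ) ^ 2 * v + t) ((N : ℝ) ^ 2) v := by
  have h := ((hasDerivAt_id v).const_mul ((N : ℝ) ^ 2)).add_const t
  exact h.congr_deriv (by ring)

theorem hasDerivAt_g0 (N : ℕ) (c : ℝ) (x : Fin 3 → ℝ) (v : ℝ) :
    HasDerivAt (g0 N c x) (g1 N c x v) v := by
  have h1 : HasDerivAt (fun v => v - c) 1 v := (hasDerivAt_id v).sub_const c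
  have h2 := h1.sin
  have h3 := (hasDerivAt_phase N (π * x 0) v).cos
  have h4 := (h3.const_mul (-(aa / (N : ℝ) ^ 4))).add
    ((((h2.const_mul (x 2 * N))).const_add (x 1)).const_mul (e3 / (N : ℝ) ^ 2))
  refine h4.congr_deriv ?_
  unfold g1
  ring

theorem hasDerivAt_g1 (N : ℕ) (c : ℝ) (x : Fin 3 → ℝ) (v : ℝ) :
    HasDerivAt (g1 N c x) (g2 N c x v) v := by
  have h1 : HasDerivAt (fun v => v - c) 1 v := (hasDerivAt_id v).sub_const c
  have h2 := h1.cos
  have h3 := (hasDerivAt_phase N (π * x 0) v).sin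
  have h4 := (h3.const_mul (aa / (N : ℝ) ^ 4 * (N : ℝ) ^ 2)).add
    ((h2.const_mul (x 2 * N)).const_mul (e3 / (N : ℝ) ^ 2))
  refine h4.congr_deriv ?_
  unfold g2
  ring

theorem nc_zero (N : ℕ) : nc N 0 = N := by simp [nc]

theorem cellF_eq (N i : ℕ) (x : Fin 3 → ℝ) (hx : ∀ j, |x j| ≤ 1) :
    cellF N 0 i x = fun v => bump (2 * (1 - cos (v - ctr N i)) / dl N 0 ^ 2) *
      g0 N (ctr N i) x v := by
  funext v
  have h := bmp_eq N 0 i v
  rw [nc_zero] at h
  simp only [cellF, if_true, h]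
  congr 1
  simp only [G0, g0, clampR_of_abs_le (hx 0), clampR_of_abs_le (hx 1), clampR_of_abs_le (hx 2)]

theorem deriv_cellF (N i : ℕ) (x : Fin 3 → ℝ) (hx : ∀ j, |x j| ≤ 1) :
    deriv (cellF N 0 i x) = fun v => b1 (dl N 0) (ctr N i) v * g0 N (ctr N i) x v +
      bump (2 * (1 - cos (v - ctr N i)) / dl N 0 ^ 2) * g1 N (ctr N i) x v := by
  funext v
  rw [cellF_eq N i x hx]
  exact ((hasDerivAt_b0 (dl N 0) (ctr N i) v).mul (hasDerivAt_g0 N (ctr N i) x v)).deriv

theorem deriv2_cellF (N i : ℕ) (x : Fin 3 → ℝ) (hx : ∀ j, |x j| ≤ 1) (v : ℝ) :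
    deriv (deriv (cellF N 0 i x)) v = (b2 (dl N 0) (ctr N i) v * g0 N (ctr N i) x v +
      b1 (dl N 0) (ctr N i) v * g1 N (ctr N i) x v) +
      (b1 (dl N 0) (ctr N i) v * g1 N (ctr N i) x v +
      bump (2 * (1 - cos (v - ctr N i)) / dl N 0 ^ 2) * g2 N (ctr N i) x v) := by
  rw [deriv_cellF N i x hx]
  exact (((hasDerivAt_b1 (dl N 0) (ctr N i) v).mul (hasDerivAt_g0 N (ctr N i) x v)).add
    ((hasDerivAt_b0 (dl N 0) (ctr N i) v).mul (hasDerivAt_g1 N (ctr N i) x v))).deriv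

/-- the uniform law gives little mass to a neighbourhood of the ends -/
theorem nu1_end (s : ℝ) : nu1 {t | 1 - s < |t|} ≤ ENNReal.ofReal s := by
  have hm : MeasurableSet {t : ℝ | 1 - s < |t|} :=
    measurableSet_lt measurable_const continuous_abs.measurable
  have h1 : nu1 {t | 1 - s < |t|} = (1 / 2 : ℝ≥0∞) *
      volume ({t : ℝ | 1 - s < |t|} ∩ Set.Icc (-1 : ℝ) 1) := by
    simp only [nu1, Measure.smul_apply, smul_eq_mul, Measure.restrict_apply hm]
  have h2 : ({t : ℝ | 1 - s < |t|} ∩ Set.Icc (-1 : ℝ) 1) ⊆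
      Set.Icc (-1) (-1 + s) ∪ Set.Icc (1 - s) 1 := by
    rintro t ⟨ht, ht1, ht2⟩
    have ht' : 1 - s < |t| := ht
    rcases le_total 0 t with h | h
    · right
      rw [abs_of_nonneg h] at ht'
      exact ⟨ht'.le, ht2⟩
    · left
      rw [abs_of_nonpos h] at ht'
      exact ⟨ht1, by linarith⟩
  have h3 : volume ({t : ℝ | 1 - s < |t|} ∩ Set.Icc (-1 : ℝ) 1) ≤
      ENNReal.ofReal s + ENNReal.ofReal s := by
    refine (measure_mono h2).trans ((measure_union_le _ _).trans ?_)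
    rw [Real.volume_Icc, Real.volume_Icc]
    apply add_le_add <;> apply ENNReal.ofReal_le_ofReal <;> linarith
  rw [h1]
  calc (1 / 2 : ℝ≥0∞) * volume ({t : ℝ | 1 - s < |t|} ∩ Set.Icc (-1 : ℝ) 1)
      ≤ (1 / 2 : ℝ≥0∞) * (ENNReal.ofReal s + ENNReal.ofReal s) := by gcongr
    _ = ENNReal.ofReal s := by
        rw [← two_mul, ← mul_assoc, one_div, ENNReal.inv_mul_cancel (by norm_num) (by norm_num),
          one_mul]

theorem nu_end (s : ℝ) (j : Fin 3) :
    nu {x | 1 - s < |x j|} ≤ ENNReal.ofReal s := by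
  have hm : MeasurableSet {t : ℝ | 1 - s < |t|} :=
    measurableSet_lt measurable_const continuous_abs.measurable
  have h := (measurePreserving_eval (fun _ : Fin 3 => nu1) j).measure_preimage hm.nullMeasurableSet
  have h2 : nu {x | 1 - s < |x j|} = nu1 {t | 1 - s < |t|} := h
  rw [h2]
  exact nu1_end s

end R15_aux

open R15_aux

theorem comp0_self (N : ℕ) (u : ℝ) (i : ℕ) (x : Fin 3 → ℝ) : comp0 N u i x (x 0) = x := by
  funext j
  fin_cases j <;> simp [comp0]

theorem comp0_comp0 (N : ℕ) (u : ℝ) (i : ℕ) (x : Fin 3 → ℝ) (p p' : ℝ) :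
    comp0 N u i (comp0 N u i x p) p' = comp0 N u i x p' := by
  funext j
  fin_cases j
  · simp [comp0]
  · simp only [comp0, Fin.mk_one, Matrix.cons_val_one, Matrix.cons_val_zero]
    ring
  · simp only [comp0, Fin.reduceFinMk, Matrix.cons_val, Matrix.cons_val_zero]
    ring

/-- (R9): compensated change of phase at `u` in the nearest level-0 cell: value and slope at `u`
are unchanged, the curvature changes by a pure first harmonic. -/
theorem comp0_family {N : ℕ} (hN : N0 ≤ N) (ω : Om) (u : ℝ) (x : Fin 3 → ℝ) (hx : ∀ j, |x j| ≤ 1)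
    (p : ℝ) (hp : ∀ j, |comp0 N u (cidx N u) x p j| ≤ 1) :
    hw N (upd ω 0 (cidx N u) (comp0 N u (cidx N u) x p)) u = hw N (upd ω 0 (cidx N u) x) u ∧
    deriv (hw N (upd ω 0 (cidx N u) (comp0 N u (cidx N u) x p))) u =
      deriv (hw N (upd ω 0 (cidx N u) x)) u ∧
    deriv (deriv (hw N (upd ω 0 (cidx N u) (comp0 N u (cidx N u) x p)))) u -
      deriv (deriv (hw N (upd ω 0 (cidx N u) x))) u =
      aa * betaN N u * ((cos ((N : ℝ) ^ 2 * u + π * p) - cos ((N : ℝ) ^ 2 * u + π * x 0)) +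
        sin (u - ctr N (cidx N u)) / (cos (u - ctr N (cidx N u)) * N ^ 2) *
          (sin ((N : ℝ) ^ 2 * u + π * p) - sin ((N : ℝ) ^ 2 * u + π * x 0))) := by
  have hN10 : 10 ≤ N := N0_ge.trans hN
  have hNpos : (0 : ℝ) < N := by exact_mod_cast (by omega : 0 < N)
  have hNne : (N : ℝ) ≠ 0 := hNpos.ne'
  have hlt : cidx N u < nc N 0 := by rw [nc_zero]; exact cidx_lt hN10 u
  obtain ⟨e1, e2', e3'⟩ := hw_upd hN ω hlt (comp0 N u (cidx N u) x p) x u
  have hcos : 0 < cos (u - ctr N (cidx N u)) := by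
    have := (cidx_near hN10 u).2.1
    linarith
  have hbeta : bump (2 * (1 - cos (u - ctr N (cidx N u))) / dl N 0 ^ 2) = betaN N u := by
    rw [← bmp_cidx hN10 u, bmp_eq, nc_zero]
  have hcne : cos (u - ctr N (cidx N u)) ≠ 0 := hcos.ne'
  have he3 : (e3 : ℝ) ≠ 0 := by norm_num [e3]
  set c := ctr N (cidx N u) with hc
  set y := comp0 N u (cidx N u) x p with hy
  have hy0 : y 0 = p := by simp [hy, comp0]
  have hy1 : y 1 = x 1 + aa / ((N : ℝ) ^ 2 * e3) * (cos ((N : ℝ) ^ 2 * u + π * p) -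
      cos ((N : ℝ) ^ 2 * u + π * x 0))
      + aa / (N * e3 * cos (u - c)) * N * sin (u - c) *
        (sin ((N : ℝ) ^ 2 * u + π * p) - sin ((N : ℝ) ^ 2 * u + π * x 0)) := by
    simp [hy, comp0, hc]
  have hy2 : y 2 = x 2 - aa / (N * e3 * cos (u - c)) *
        (sin ((N : ℝ) ^ 2 * u + π * p) - sin ((N : ℝ) ^ 2 * u + π * x 0)) := by
    simp [hy, comp0, hc]
  have d0 : g0 N c y u = g0 N c x u := by
    unfold g0
    rw [hy0, hy1, hy2]
    field_simp
    ring
  have d1 : g1 N c y u = g1 N c x u := by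
    unfold g1
    rw [hy0, hy2]
    field_simp
    ring
  have d2 : g2 N c y u - g2 N c x u =
      aa * ((cos ((N : ℝ) ^ 2 * u + π * p) - cos ((N : ℝ) ^ 2 * u + π * x 0)) +
        sin (u - c) / (cos (u - c) * N ^ 2) *
          (sin ((N : ℝ) ^ 2 * u + π * p) - sin ((N : ℝ) ^ 2 * u + π * x 0))) := by
    unfold g2
    rw [hy0, hy2]
    field_simp
    ring
  refine ⟨?_, ?_, ?_⟩
  · have : cellF N 0 (cidx N u) y u - cellF N 0 (cidx N u) x u = 0 := by
      rw [cellF_eq N _ y hp, cellF_eq N _ x hx]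
      simp only [← hc, d0, sub_self]
    linarith
  · have : deriv (cellF N 0 (cidx N u) y) u - deriv (cellF N 0 (cidx N u) x) u = 0 := by
      rw [deriv_cellF N _ y hp, deriv_cellF N _ x hx]
      simp only [← hc, d0, d1, sub_self]
    linarith
  · rw [e3', deriv2_cellF N _ y hp, deriv2_cellF N _ x hx, ← hc, d0, d1, hbeta]
    have : aa * betaN N u * ((cos ((N : ℝ) ^ 2 * u + π * p) - cos ((N : ℝ) ^ 2 * u + π * x 0)) +
        sin (u - c) / (cos (u - c) * N ^ 2) *
          (sin ((N : ℝ) ^ 2 * u + π * p) - sin ((N : ℝ) ^ 2 * u + π * x 0))) =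
        betaN N u * (g2 N c y u - g2 N c x u) := by
      rw [d2]; ring
    rw [this]
    ring

/-- the contents that are not inner have small probability -/
theorem nu_not_inner : ∃ C : ℝ, 1 ≤ C ∧ ∀ {N : ℕ}, 10 ≤ N → ∀ u : ℝ,
    nu {x | ¬ ((∀ j, |x j| ≤ 1) ∧ ∀ p, |p| ≤ 1 → ∀ j, |comp0 N u (cidx N u) x p j| ≤ 1)} ≤
      ENNReal.ofReal (C / N) := by
  refine ⟨140000, by norm_num, ?_⟩
  intro N hN u
  have hNpos : (0 : ℝ) < N := by exact_mod_cast (by omega : 0 < N)
  have hN10 : (10 : ℝ) ≤ N := by exact_mod_cast hN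
  obtain ⟨-, hcos, hsin⟩ := cidx_near hN u
  set c := ctr N (cidx N u) with hc
  have hcp : 0 < cos (u - c) := by linarith
  have hs : (0 : ℝ) ≤ 70000 / N := by positivity
  have hsub : {x : Fin 3 → ℝ | ¬ ((∀ j, |x j| ≤ 1) ∧
      ∀ p, |p| ≤ 1 → ∀ j, |comp0 N u (cidx N u) x p j| ≤ 1)} ⊆
      {x | 1 - (0 : ℝ) < |x 0|} ∪ ({x | 1 - 70000 / (N : ℝ) < |x 1|} ∪
        {x | 1 - 70000 / (N : ℝ) < |x 2|}) := by
    intro x hx
    by_contra hcon
    simp only [Set.mem_union, Set.mem_ofPred_eq, not_or, not_lt, sub_zero] at hcon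
    obtain ⟨h0, h1, h2⟩ := hcon
    apply hx
    refine ⟨?_, ?_⟩
    · intro j
      fin_cases j
      · exact h0
      · exact h1.trans (by linarith)
      · exact h2.trans (by linarith)
    · intro p hp j
      have hA : |aa / (N * e3 * cos (u - c))| ≤ 7600 / N := by
        have hpos : 0 < (N : ℝ) * e3 * cos (u - c) := by
          have : (0 : ℝ) < e3 := by norm_num [e3]
          positivity
        rw [abs_of_nonneg (by unfold aa; positivity), div_le_div_iff₀ hpos hNpos]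
        unfold aa e3
        nlinarith
      have hds : |sin ((N : ℝ) ^ 2 * u + π * p) - sin ((N : ℝ) ^ 2 * u + π * x 0)| ≤ 2 := by
        have a1 := Real.abs_sin_le_one ((N : ℝ) ^ 2 * u + π * p)
        have a2 := Real.abs_sin_le_one ((N : ℝ) ^ 2 * u + π * x 0)
        have := abs_sub (sin ((N : ℝ) ^ 2 * u + π * p)) (sin ((N : ℝ) ^ 2 * u + π * x 0))
        linarith
      have hdc : |cos ((N : ℝ) ^ 2 * u + π * p) - cos ((N : ℝ) ^ 2 * u + π * x 0)| ≤ 2 := by
        have a1 := Real.abs_cos_le_one ((N : ℝ) ^ 2 * u + π * p)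
        have a2 := Real.abs_cos_le_one ((N : ℝ) ^ 2 * u + π * x 0)
        have := abs_sub (cos ((N : ℝ) ^ 2 * u + π * p)) (cos ((N : ℝ) ^ 2 * u + π * x 0))
        linarith
      fin_cases j
      · simpa [comp0] using hp
      · have e : comp0 N u (cidx N u) x p 1 = x 1 + aa / ((N : ℝ) ^ 2 * e3) *
            (cos ((N : ℝ) ^ 2 * u + π * p) - cos ((N : ℝ) ^ 2 * u + π * x 0))
            + aa / (N * e3 * cos (u - c)) * N * sin (u - c) *
              (sin ((N : ℝ) ^ 2 * u + π * p) - sin ((N : ℝ) ^ 2 * u + π * x 0)) := by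
          simp [comp0, hc]
        show |comp0 N u (cidx N u) x p 1| ≤ 1
        rw [e]
        have hB : |aa / ((N : ℝ) ^ 2 * e3)| ≤ 380 / N := by
          have hpos : 0 < (N : ℝ) ^ 2 * e3 := by
            have : (0 : ℝ) < e3 := by norm_num [e3]
            positivity
          rw [abs_of_nonneg (by unfold aa; positivity), div_le_div_iff₀ hpos hNpos]
          unfold aa e3
          nlinarith
        have t1 : |aa / ((N : ℝ) ^ 2 * e3) *
            (cos ((N : ℝ) ^ 2 * u + π * p) - cos ((N : ℝ) ^ 2 * u + π * x 0))| ≤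
            380 / N * 2 := by
          rw [abs_mul]
          exact mul_le_mul hB hdc (abs_nonneg _) (by positivity)
        have t2 : |aa / (N * e3 * cos (u - c)) * N * sin (u - c) *
              (sin ((N : ℝ) ^ 2 * u + π * p) - sin ((N : ℝ) ^ 2 * u + π * x 0))| ≤
            7600 / N * N * (4 / N) * 2 := by
          rw [abs_mul, abs_mul, abs_mul, abs_of_pos hNpos]
          refine mul_le_mul (mul_le_mul (mul_le_mul_of_nonneg_right hA hNpos.le) hsin
            (abs_nonneg _) (by positivity)) hds (abs_nonneg _) (by positivity)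
        have t3 : (7600 : ℝ) / N * N * (4 / N) * 2 = 60800 / N := by
          field_simp
          norm_num
        have t4 : (380 : ℝ) / N * 2 = 760 / N := by ring
        have t5 : (760 : ℝ) / N + 60800 / N ≤ 70000 / N := by
          rw [← add_div]
          apply div_le_div_of_nonneg_right (by norm_num) hNpos.le
        calc _ ≤ |x 1| + |aa / ((N : ℝ) ^ 2 * e3) *
            (cos ((N : ℝ) ^ 2 * u + π * p) - cos ((N : ℝ) ^ 2 * u + π * x 0))| +
            |aa / (N * e3 * cos (u - c)) * N * sin (u - c) *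
              (sin ((N : ℝ) ^ 2 * u + π * p) - sin ((N : ℝ) ^ 2 * u + π * x 0))| :=
              abs_add_three _ _ _
          _ ≤ 1 := by linarith
      · have e : comp0 N u (cidx N u) x p 2 = x 2 - aa / (N * e3 * cos (u - c)) *
              (sin ((N : ℝ) ^ 2 * u + π * p) - sin ((N : ℝ) ^ 2 * u + π * x 0)) := by
          simp [comp0, hc]
        show |comp0 N u (cidx N u) x p 2| ≤ 1
        rw [e]
        have t2 : |aa / (N * e3 * cos (u - c)) *
              (sin ((N : ℝ) ^ 2 * u + π * p) - sin ((N : ℝ) ^ 2 * u + π * x 0))| ≤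
            7600 / N * 2 := by
          rw [abs_mul]
          exact mul_le_mul hA hds (abs_nonneg _) (by positivity)
        have t4 : (7600 : ℝ) / N * 2 = 15200 / N := by ring
        have t5 : (15200 : ℝ) / N ≤ 70000 / N := by
          apply div_le_div_of_nonneg_right (by norm_num) hNpos.le
        calc _ ≤ |x 2| + |aa / (N * e3 * cos (u - c)) *
              (sin ((N : ℝ) ^ 2 * u + π * p) - sin ((N : ℝ) ^ 2 * u + π * x 0))| :=
              abs_sub _ _
          _ ≤ 1 := by linarith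
  calc nu {x | ¬ ((∀ j, |x j| ≤ 1) ∧ ∀ p, |p| ≤ 1 → ∀ j, |comp0 N u (cidx N u) x p j| ≤ 1)}
      ≤ nu {x | 1 - (0 : ℝ) < |x 0|} + (nu {x | 1 - 70000 / (N : ℝ) < |x 1|} +
        nu {x | 1 - 70000 / (N : ℝ) < |x 2|}) :=
        (measure_mono hsub).trans ((measure_union_le _ _).trans
          (add_le_add le_rfl (measure_union_le _ _)))
    _ ≤ ENNReal.ofReal 0 + (ENNReal.ofReal (70000 / N) + ENNReal.ofReal (70000 / N)) :=
        add_le_add (nu_end _ 0) (add_le_add (nu_end _ 1) (nu_end _ 2))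
    _ = ENNReal.ofReal (140000 / N) := by
        rw [← ENNReal.ofReal_add hs hs, ← ENNReal.ofReal_add le_rfl (by positivity)]
        congr 1
        ring

end BilEnt
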