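import Pool.Agent.BilEnt.B02Orb
import Pool.Agent.BilEnt.B04Loc
import Pool.Agent.BilEnt.R15
import Pool.Agent.BilEnt.R08
import Pool.Agent.BilEnt.R03
import Pool.Agent.BilEnt.G10

/-!
# Part B, module B05Inn: compensated change of the phase of the cell visited at time `t`
-/

open MeasureTheory Real

namespace BilEnt

noncomputable section

namespace B05InnAux

theorem nc_zero (N : ℕ) : nc N 0 = N := by
  unfold nc
  rw [if_pos rfl]

/-- the nearest centre of level 0 is closer than the cell radius -/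
theorem near_lt {N : ℕ} (hN : 10 ≤ N) (u : ℝ) : ds u (ctr N (cidx N u)) < dl N 0 := by
  refine (cidx_near hN u).1.trans_lt ?_
  unfold dl
  rw [if_pos rfl]
  have hN' : (10 : ℝ) ≤ N := by exact_mod_cast hN
  have hN0 : (0 : ℝ) < N := by linarith
  have h1 : sin (π / (2 * N)) < sin (π / N) := by
    apply Real.sin_lt_sin_of_lt_of_le_pi_div_two
    · have : 0 < π / (2 * N) := by positivity
      linarith [Real.pi_pos]
    · have h2 : π / N ≤ π / 2 :=
        div_le_div_of_nonneg_left Real.pi_pos.le (by norm_num) (by linarith)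
      exact h2
    · have h3 : (N : ℝ) < 2 * N := by linarith
      exact div_lt_div_of_pos_left Real.pi_pos hN0 h3
  linarith

theorem Inn_congr {N : ℕ} {ω ω' : Om} {u : ℝ} (h : ω (0, cidx N u) = ω' (0, cidx N u))
    (hi : Inn N ω u) : Inn N ω' u := by
  unfold Inn at hi ⊢
  rw [← h]
  exact hi

end B05InnAux

open B04LocAux B05InnAux in
/-- The compensated change of phase of the level-0 cell visited at time `t` of a good orbit changes
nothing but the reflection strength at time `t`, which becomes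
`K - Cam * (cos (N² u + π p) + κ sin (N² u + π p))`.

PROOF. `i := cidx N u`, `x` and `comp0 N u i x p` are in the cube (`comp0_eq`, `orbc_mem`), so `clampR` is
the identity on all coordinates and part R (R15 `comp0_family`, R08 `agreeOff_upd`, R03 `cidx_near`, `dl_zero_bounds`, `cidx_lt`; `nc N 0 = N`) gives for `h₁ := hw N (upd ω 0 i x)`,
`h₂ := hw N (upd ω 0 i (comp0 N u i x p))`:
`h₁ u = h₂ u`, `h₁' u = h₂' u`, `h₂'' u = K' + aa * betaN N u * (cos (N²u+πp) + κ sin (N²u+πp))` with `K'`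
independent of `p` (`κ = tan (u - ctr N i) / N²`), and `h₁, h₁', h₁''` agree with `h₂, h₂', h₂''` at every `v`
with `dl N 0 ≤ ds v (ctr N i)`.
Let `u_j := (pth h₁ z j).1`, `j ≤ n`, `u_t = u`.  By `Iso … (3 * dl N 0) n` and `ds u (ctr N i) < dl N 0`
(part R: the nearest centre is at distance `≤ 0.51 dl N 0`) and the triangle inequality for `ds`,
`ds u_j (ctr N i) ≥ 3 dl N 0 - dl N 0 > dl N 0` for `j ≠ t`. So the hypothesis of `loc_seg`, `loc_gg` holds
(first order agreement at all `u_j`, second order agreement for `j ≠ t`): this gives (b), (c), (d), (e), and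
`Temp`, `Iso` for `h₂`. `Inn N ω₂ u_j` for `j ≠ t`: `cidx N u_j ≠ i` (otherwise `ds u_j u ≤ 2 dl N 0` by the
triangle inequality through `ctr N i`), so the contents of cell `(0, cidx N u_j)` are the same in both
environments; for `j = t`: `inn_iff`, `orbc_mem`.  This is (a) (`z ∈ dom h₂` because `z.1 = u_0` and the
first order data agree there).
(f): `gg h₂ (pth h₁ z (t-1)) = 2 Thd h₂ u / pw h₂ (pth h₁ z t)`, `Thd h₂ u = 1 - h₂''(u)/(1+h₁'(u)²)`;
put `K = 2 (1 - K'/(1+h₁'²))/pw`, and `Cam N h₁ (pth h₁ z t) = 2 aa betaN N u/(pw (1+h₁'²))` because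
`(pth h₁ z t).1 = u`. (g): the same formula for `Cam`. (h): `Th` depends on `u` and `deriv h u`. -/
theorem inn_seg : ∃ N1 : ℕ, ∀ N ≥ N1, ∀ (ω : Om) (u : ℝ) (x : Fin 3 → ℝ) (n t : ℕ), t ≤ n →
    x ∈ Eorb (cmpA N u (cidx N u)) (cmpB N u (cidx N u)) →
    ∀ z : ℝ × ℝ, (upd ω 0 (cidx N u) x, z) ∈ Gset N n →
    (pth (hw N (upd ω 0 (cidx N u) x)) z t).1 = u →
    ∃ K κ : ℝ, ∀ p, |p| ≤ 1 → ∀ h₁ h₂ : ℝ → ℝ, h₁ = hw N (upd ω 0 (cidx N u) x) →
      h₂ = hw N (upd ω 0 (cidx N u) (comp0 N u (cidx N u) x p)) →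
      ((upd ω 0 (cidx N u) (comp0 N u (cidx N u) x p), z) ∈ Gset N n) ∧
      (∀ j ≤ n, pth h₂ z j = pth h₁ z j) ∧
      (∀ j ≤ n, pw h₂ (pth h₁ z j) = pw h₁ (pth h₁ z j)) ∧
      (∀ j < n, hl h₂ (pth h₁ z j) = hl h₁ (pth h₁ z j)) ∧
      (∀ j < n, j + 1 ≠ t → gg h₂ (pth h₁ z j) = gg h₁ (pth h₁ z j)) ∧
      (∀ j, j + 1 = t → gg h₂ (pth h₁ z j) = K - Cam N h₁ (pth h₁ z t) *
        (cos ((N : ℝ) ^ 2 * u + π * p) + κ * sin ((N : ℝ) ^ 2 * u + π * p))) ∧
      Cam N h₂ (pth h₁ z t) = Cam N h₁ (pth h₁ z t) ∧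
      Th h₂ u = Th h₁ u ∧ h₂ u = h₁ u ∧ deriv h₂ u = deriv h₁ u := by
  refine ⟨N0, fun N hN ω u x n t htn hx z hz hu => ?_⟩
  have hN10 : 10 ≤ N := N0_ge.trans hN
  set i := cidx N u with hi
  refine ⟨2 * (1 - (deriv (deriv (hw N (upd ω 0 i x))) u - aa * betaN N u *
      (cos ((N : ℝ) ^ 2 * u + π * x 0) + sin (u - ctr N i) / (cos (u - ctr N i) * N ^ 2) *
        sin ((N : ℝ) ^ 2 * u + π * x 0))) / (1 + deriv (hw N (upd ω 0 i x)) u ^ 2)) /
      pw (hw N (upd ω 0 i x)) (pth (hw N (upd ω 0 i x)) z t),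
    sin (u - ctr N i) / (cos (u - ctr N i) * N ^ 2), ?_⟩
  intro p hp h₁ h₂ e1 e2
  rw [← e1] at hu ⊢
  obtain ⟨hz1, hz2, hz3, hz4⟩ := hz
  change z ∈ dom (hw N (upd ω 0 i x)) at hz1
  change Temp (hw N (upd ω 0 i x)) z (1 / (n : ℝ) ^ 3) n at hz2
  change Iso (hw N (upd ω 0 i x)) z (3 * dl N 0) n at hz3
  change ∀ t ≤ n, Inn N (upd ω 0 i x) (pth (hw N (upd ω 0 i x)) z t).1 at hz4
  rw [← e1] at hz1 hz2 hz3 hz4
  have H1 : IsTab h₁ := by rw [e1]; exact isTab_hw hN _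
  have H2 : IsTab h₂ := by rw [e2]; exact isTab_hw hN _
  have hiN : i < nc N 0 := by rw [nc_zero]; exact cidx_lt hN10 u
  have hx' : comp0 N u i x p ∈ Eorb (cmpA N u i) (cmpB N u i) := by
    rw [comp0_eq]
    exact orbc_mem _ _ hx hp
  obtain ⟨f0, f1, f2⟩ := comp0_family hN ω u x hx.1 p hx'.1
  rw [← hi, ← e1, ← e2] at f0 f1 f2
  have hoff : AgreeOff h₁ h₂ {v | ds v (ctr N i) < dl N 0} := by
    have h3 := agreeOff_upd hN ω hiN x (comp0 N u i x p)
    rw [nc_zero, ← e1, ← e2] at h3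
    exact h3
  have hdl := (dl_pos hN10 0).1
  have hnear : ds u (ctr N i) < dl N 0 := near_lt hN10 u
  have hfar : ∀ j ≤ n, j ≠ t → dl N 0 ≤ ds (pth h₁ z j).1 (ctr N i) := by
    intro j hj hjt
    have h4 : 3 * dl N 0 < ds (pth h₁ z j).1 u := by
      rcases lt_or_gt_of_ne hjt with h5 | h5
      · have h6 := hz3 j t h5 htn
        rwa [hu] at h6
      · have h6 := hz3 t j h5 hj
        rwa [hu, ds_comm] at h6
    have h7 := ds_triangle (pth h₁ z j).1 (ctr N i) u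
    rw [ds_comm (ctr N i) u] at h7
    linarith
  have hagj : ∀ j ≤ n, j ≠ t → h₁ (pth h₁ z j).1 = h₂ (pth h₁ z j).1 ∧
      deriv h₁ (pth h₁ z j).1 = deriv h₂ (pth h₁ z j).1 ∧
      deriv (deriv h₁) (pth h₁ z j).1 = deriv (deriv h₂) (pth h₁ z j).1 :=
    fun j hj hjt => hoff _ (fun h8 => absurd (hfar j hj hjt) (not_le.2 h8))
  have hag : ∀ j ≤ n, h₁ (pth h₁ z j).1 = h₂ (pth h₁ z j).1 ∧
      deriv h₁ (pth h₁ z j).1 = deriv h₂ (pth h₁ z j).1 := by
    intro j hj
    by_cases hjt : j = t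
    · rw [hjt, hu]
      exact ⟨f0.symm, f1.symm⟩
    · exact ⟨(hagj j hj hjt).1, (hagj j hj hjt).2.1⟩
  obtain ⟨b1, b2, b3, b4⟩ := loc_seg H1 H2 hz1 n hag
  have hTh : Th h₂ u = Th h₁ u := Th_congr f1.symm
  have hpwt : pw h₂ (pth h₁ z t) = pw h₁ (pth h₁ z t) := b3 t htn
  refine ⟨?_, b1, b3, b2, ?_, ?_, ?_, hTh, f0, f1⟩
  · refine ⟨?_, ?_, ?_, ?_⟩
    · change z ∈ dom (hw N (upd ω 0 i (comp0 N u i x p)))
      rw [← e2]
      have h9 := hag 0 (Nat.zero_le _)
      change h₁ z.1 = h₂ z.1 ∧ deriv h₁ z.1 = deriv h₂ z.1 at h9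
      have h10 : Th h₂ z.1 = Th h₁ z.1 := Th_congr h9.2
      change Th h₂ z.1 < z.2 ∧ z.2 < Th h₂ z.1 + π
      rw [h10]
      exact hz1
    · change Temp (hw N (upd ω 0 i (comp0 N u i x p))) z (1 / (n : ℝ) ^ 3) n
      rw [← e2]
      intro j hj
      rw [b1 j hj, b4 j hj]
      exact hz2 j hj
    · change Iso (hw N (upd ω 0 i (comp0 N u i x p))) z (3 * dl N 0) n
      rw [← e2]
      intro j k hjk hk
      rw [b1 j (hjk.le.trans hk), b1 k hk]
      exact hz3 j k hjk hk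
    · change ∀ t ≤ n, Inn N (upd ω 0 i (comp0 N u i x p))
        (pth (hw N (upd ω 0 i (comp0 N u i x p))) z t).1
      rw [← e2]
      intro j hj
      rw [b1 j hj]
      by_cases hjt : j = t
      · rw [hjt, hu, inn_iff, ← hi]
        have h11 : upd ω 0 i (comp0 N u i x p) (0, i) = comp0 N u i x p := by
          unfold upd
          exact Function.update_self _ _ _
        rw [h11]
        exact hx'
      · have h12 : cidx N (pth h₁ z j).1 ≠ i := by
          intro h13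
          have h14 := near_lt hN10 (pth h₁ z j).1
          rw [h13] at h14
          exact absurd (hfar j hj hjt) (not_le.2 h14)
        refine Inn_congr ?_ (hz4 j hj)
        have h15 : ((0, cidx N (pth h₁ z j).1) : ℕ × ℕ) ≠ (0, i) := by
          intro h16
          exact h12 (Prod.ext_iff.1 h16).2
        unfold upd
        rw [Function.update_of_ne h15, Function.update_of_ne h15]
  · intro j hj hjt
    exact loc_gg H1 H2 hz1 n hag hj (hagj (j + 1) hj hjt).2.2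
  · intro j hjt
    have hj : j < n := by omega
    have h17 : fm h₂ (pth h₁ z j) = pth h₁ z t := by
      rw [← b1 j hj.le, ← pth_succ, hjt]
      exact b1 t htn
    have h18 : V h₂ (pth h₁ z j) = u := by
      have h19 : (fm h₂ (pth h₁ z j)).1 = V h₂ (pth h₁ z j) := rfl
      rw [← h19, h17, hu]
    have h20 : deriv (deriv h₂) u = deriv (deriv h₁) u + aa * betaN N u *
        ((cos ((N : ℝ) ^ 2 * u + π * p) - cos ((N : ℝ) ^ 2 * u + π * x 0)) +
          sin (u - ctr N i) / (cos (u - ctr N i) * N ^ 2) *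
          (sin ((N : ℝ) ^ 2 * u + π * p) - sin ((N : ℝ) ^ 2 * u + π * x 0))) := by
      linarith
    unfold gg Thd Cam
    rw [h17, h18, hpwt, f1, h20, hu]
    generalize 1 + deriv h₁ u ^ 2 = D1
    ring
  · unfold Cam
    rw [hpwt, hu, f1]

end

end BilEnt
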