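import Pool.Agent.BilEnt.B05Inn

/-!
# Part B, module B05J: the entry `Y_{t+1}` under the compensated change of phase
-/

open MeasureTheory Real

namespace BilEnt

noncomputable section

namespace B05JAux

private theorem agree {h₁ h₂ : ℝ → ℝ} {z : ℝ × ℝ} {n t : ℕ} (ht : t < n)
    (hb : ∀ j ≤ n, pth h₂ z j = pth h₁ z j)
    (hd : ∀ j < n, hl h₂ (pth h₁ z j) = hl h₁ (pth h₁ z j))
    (he : ∀ j < n, j + 1 ≠ t → gg h₂ (pth h₁ z j) = gg h₁ (pth h₁ z j)) :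
    ∀ j, (j ≤ t → Jn h₂ z j = Jn h₁ z j) ∧ (j < t → An h₂ z j = An h₁ z j) := by
  intro j
  induction j with
  | zero =>
    refine ⟨fun _ => ?_, fun _ => ?_⟩
    · rw [Jn_zero, Jn_zero]
    · rw [An_zero, An_zero]
  | succ j ih =>
    have hJ : j + 1 ≤ t → Jn h₂ z (j + 1) = Jn h₁ z (j + 1) := by
      intro h
      rw [Jn_succ, Jn_succ, ih.1 (by omega), ih.2 (by omega), hb j (by omega), hd j (by omega)]
    refine ⟨hJ, fun h => ?_⟩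
    rw [An_succ, An_succ, hJ h.le, ih.2 (by omega), hb j (by omega), he j (by omega) (by omega)]

end B05JAux

/-- Consequence for `Y_{t+1}` (`1 ≤ t < n`): it is `U - H_t Cam_t Y_t (cos ψ + κ sin ψ)`,
`ψ = N² u + π p`, with `U`, `κ` independent of `p`; `Y_t` does not depend on `p`.

PROOF. `inn_seg` and `loc_JA` (or directly by induction with `Jn_succ`, `An_succ`, using that all `hl`
and all `gg` except the one at time `t - 1` agree): `Jn h₂ z j = Jn h₁ z j` for `j ≤ t`,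
`An h₂ z j = An h₁ z j` for `j < t`.  `Jn_succ_succ` at `t - 1`:
`Jn h₂ z (t+1) = -Jn h₂ z t + hl (gg h₂ (pth (t-1)) * Jn h₂ z t - An h₂ z (t-1))`. -/
theorem inn_J : ∃ N1 : ℕ, ∀ N ≥ N1, ∀ (ω : Om) (u : ℝ) (x : Fin 3 → ℝ) (n t : ℕ), 1 ≤ t → t < n →
    x ∈ Eorb (cmpA N u (cidx N u)) (cmpB N u (cidx N u)) →
    ∀ z : ℝ × ℝ, (upd ω 0 (cidx N u) x, z) ∈ Gset N n →
    (pth (hw N (upd ω 0 (cidx N u) x)) z t).1 = u →
    ∃ U κ : ℝ, ∀ p, |p| ≤ 1 → ∀ h₁ h₂ : ℝ → ℝ, h₁ = hw N (upd ω 0 (cidx N u) x) →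
      h₂ = hw N (upd ω 0 (cidx N u) (comp0 N u (cidx N u) x p)) →
      Jn h₂ z t = Jn h₁ z t ∧
      Jn h₂ z (t + 1) = U + (-(hl h₁ (pth h₁ z t) * Cam N h₁ (pth h₁ z t) * Jn h₁ z t)) *
          cos ((N : ℝ) ^ 2 * u + π * p) +
        (-(hl h₁ (pth h₁ z t) * Cam N h₁ (pth h₁ z t) * Jn h₁ z t) * κ) *
          sin ((N : ℝ) ^ 2 * u + π * p) := by
  obtain ⟨N1, hN1⟩ := inn_seg
  refine ⟨N1, fun N hN ω u x n t h1t htn hx z hz hu => ?_⟩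
  obtain ⟨K, κ, hK⟩ := hN1 N hN ω u x n t htn.le hx z hz hu
  refine ⟨-Jn (hw N (upd ω 0 (cidx N u) x)) z t +
    hl (hw N (upd ω 0 (cidx N u) x)) (pth (hw N (upd ω 0 (cidx N u) x)) z t) *
      (K * Jn (hw N (upd ω 0 (cidx N u) x)) z t - An (hw N (upd ω 0 (cidx N u) x)) z (t - 1)),
    κ, fun p hp h₁ h₂ e₁ e₂ => ?_⟩
  obtain ⟨-, hb, -, hd, he, hf, -⟩ := hK p hp h₁ h₂ e₁ e₂
  rw [← e₁]
  have ha := B05JAux.agree htn hb hd he
  refine ⟨(ha t).1 le_rfl, ?_⟩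
  obtain ⟨s, rfl⟩ : ∃ s, t = s + 1 := ⟨t - 1, by omega⟩
  rw [Jn_succ_succ, (ha (s + 1)).1 le_rfl, (ha s).2 (by omega), hb s (by omega),
    hb (s + 1) (by omega), hd (s + 1) (by omega), hf s rfl, Nat.add_sub_cancel]
  ring

end

end BilEnt
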