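import Pool.Agent.BilEnt.B02Orb
import Pool.Agent.BilEnt.B05Bd1

/-!
# Part B, module B06Def: the integrands of (B3)
-/

open MeasureTheory Real

namespace BilEnt

noncomputable section

open Classical in
/-- `1_G Lf(ε, Y_{t+1})` -/
def Ph1 (N n t : ℕ) (ε : ℝ) (y : Yt) : ℝ :=
  if y ∈ Gset N n then Lf ε (Jn (hw N y.1) y.2 (t + 1)) else 0

open Classical in
/-- `1_G (log (H_t Cam_t / 2) + Lf(2 ε / (H_t Cam_t), Y_t))` -/
def Ph2 (N n t : ℕ) (ε : ℝ) (y : Yt) : ℝ :=
  if y ∈ Gset N n then log (HC N y t / 2) + Lf (2 * ε / HC N y t) (Jn (hw N y.1) y.2 t) else 0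

/-- start of the orbit whose state at time `t` is `z` -/
def bk (N t : ℕ) (y : Yt) : Yt := (y.1, (bm (hw N y.1))^[t] y.2)

open Classical in
/-- the integrand of the rebased integral at `(u, φ)`, as a function of the environment -/
def reb (N t : ℕ) (F : Yt → ℝ) (u φ : ℝ) (ω : Om) : ℝ :=
  if zin (hw N ω) u φ ∈ dom (hw N ω) then
    pw (hw N ω) (zin (hw N ω) u φ) * F (bk N t (ω, zin (hw N ω) u φ)) else 0

end

end BilEnt
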