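import Pool.Agent.BilEnt.Defs

/-!
# MP_bd32bb_an, part R, module R09 (doc proof/MP_bd32bb_an_entropy)

HINT. `PP.map`: show that `(ω,x) ↦ upd ω q i x` pushes `PP.prod nu` to `PP` using `eq_infinitePi` (check on finite boxes), then
`lintegral_map`, `lintegral_prod`.
-/

open MeasureTheory Real
open scoped ENNReal

namespace BilEnt

namespace R09_aux

theorem meas_upd (q i : ℕ) : Measurable (fun p : Om × (Fin 3 → ℝ) => upd p.1 q i p.2) := by
  rw [measurable_pi_iff]
  intro c
  by_cases h : c = (q, i)
  · subst h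
    have : (fun p : Om × (Fin 3 → ℝ) => upd p.1 q i p.2 (q, i)) = fun p => p.2 := by
      funext p
      simp [upd]
    rw [this]
    exact measurable_snd
  · have : (fun p : Om × (Fin 3 → ℝ) => upd p.1 q i p.2 c) = fun p => p.1 c := by
      funext p
      simp [upd, Function.update_of_ne h]
    rw [this]
    exact (measurable_pi_apply c).comp measurable_fst

theorem map_upd (q i : ℕ) :
    Measure.map (fun p : Om × (Fin 3 → ℝ) => upd p.1 q i p.2) (PP.prod nu) = PP := by
  classical
  unfold PP
  apply Measure.eq_infinitePi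
  intro s t ht
  rw [Measure.map_apply (meas_upd q i) (MeasurableSet.pi s.countable_toSet (fun c _ => ht c))]
  by_cases hq : (q, i) ∈ s
  · have he : (fun p : Om × (Fin 3 → ℝ) => upd p.1 q i p.2) ⁻¹' (Set.pi (s : Set (ℕ × ℕ)) t) =
        (Set.pi ((s.erase (q, i) : Finset (ℕ × ℕ)) : Set (ℕ × ℕ)) t) ×ˢ (t (q, i)) := by
      ext ⟨ω, x⟩
      simp only [Set.mem_preimage, Set.mem_pi, Set.mem_prod, Finset.mem_coe, Finset.mem_erase]
      constructor
      · intro h
        refine ⟨fun c hc => ?_, ?_⟩
        · have := h c hc.2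
          rwa [upd, Function.update_of_ne hc.1] at this
        · have := h (q, i) hq
          rwa [upd, Function.update_self] at this
      · rintro ⟨h1, h2⟩ c hc
        by_cases hcc : c = (q, i)
        · subst hcc
          rw [upd, Function.update_self]
          exact h2
        · rw [upd, Function.update_of_ne hcc]
          exact h1 c ⟨hcc, hc⟩
    rw [he, Measure.prod_prod, Measure.infinitePi_pi (μ := fun _ : ℕ × ℕ => nu) (fun c _ => ht c)]
    exact Finset.prod_erase_mul s (fun c => nu (t c)) hq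
  · have he : (fun p : Om × (Fin 3 → ℝ) => upd p.1 q i p.2) ⁻¹' (Set.pi (s : Set (ℕ × ℕ)) t) =
        (Set.pi (s : Set (ℕ × ℕ)) t) ×ˢ Set.univ := by
      ext ⟨ω, x⟩
      simp only [Set.mem_preimage, Set.mem_pi, Set.mem_prod, Finset.mem_coe, Set.mem_univ,
        and_true]
      have hne : ∀ c ∈ s, c ≠ (q, i) := fun c hc hcc => hq (hcc ▸ hc)
      constructor
      · intro h c hc
        have := h c hc
        rwa [upd, Function.update_of_ne (hne c hc)] at this
      · intro h c hc
        rw [upd, Function.update_of_ne (hne c hc)]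
        exact h c hc
    rw [he, Measure.prod_prod, Measure.infinitePi_pi (μ := fun _ : ℕ × ℕ => nu) (fun c _ => ht c),
      measure_univ, mul_one]

end R09_aux

/-- (R5): resampling one coordinate leaves the law invariant. -/
theorem lintegral_upd (q i : ℕ) {F : Om → ℝ≥0∞} (hF : Measurable F) :
    ∫⁻ ω, F ω ∂PP = ∫⁻ ω, ∫⁻ x, F (upd ω q i x) ∂nu ∂PP := by
  conv_lhs => rw [← R09_aux.map_upd q i]
  rw [lintegral_map hF (R09_aux.meas_upd q i)]
  exact lintegral_prod _ (hF.comp (R09_aux.meas_upd q i)).aemeasurable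

theorem PP_le_of_upd (q i : ℕ) {S : Set Om} (hS : MeasurableSet S) {b : ℝ≥0∞}
    (hb : ∀ ω, nu {x | upd ω q i x ∈ S} ≤ b) : PP S ≤ b := by
  have h1 : PP S = ∫⁻ ω, S.indicator 1 ω ∂PP := by
    rw [lintegral_indicator_one hS]
  rw [h1, lintegral_upd q i (measurable_one.indicator hS)]
  calc ∫⁻ ω, ∫⁻ x, S.indicator (1 : Om → ℝ≥0∞) (upd ω q i x) ∂nu ∂PP
      ≤ ∫⁻ _ω, b ∂PP := by
        apply lintegral_mono
        intro ω
        have hm : MeasurableSet {x | upd ω q i x ∈ S} :=
          ((R09_aux.meas_upd q i).comp (measurable_const.prodMk measurable_id) :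
            Measurable (fun x : Fin 3 → ℝ => upd ω q i x)) hS
        have : (fun x => S.indicator (1 : Om → ℝ≥0∞) (upd ω q i x)) =
            {x | upd ω q i x ∈ S}.indicator 1 := by
          funext x
          by_cases hx : upd ω q i x ∈ S
          · simp [Set.indicator, hx]
          · simp [Set.indicator, hx]
        show ∫⁻ x, S.indicator (1 : Om → ℝ≥0∞) (upd ω q i x) ∂nu ≤ b
        rw [this, lintegral_indicator_one hm]
        exact hb ω
    _ = b := by simp

theorem integral_upd (q i : ℕ) {F : Om → ℝ} (hF : Measurable F) (hB : ∃ B, ∀ ω, |F ω| ≤ B) :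
    ∫ ω, F ω ∂PP = ∫ ω, ∫ x, F (upd ω q i x) ∂nu ∂PP := by
  obtain ⟨B, hB⟩ := hB
  conv_lhs => rw [← R09_aux.map_upd q i]
  rw [integral_map (R09_aux.meas_upd q i).aemeasurable hF.aestronglyMeasurable]
  refine integral_prod (fun p : Om × (Fin 3 → ℝ) => F (upd p.1 q i p.2)) ?_
  refine Integrable.of_bound (hF.comp (R09_aux.meas_upd q i)).aestronglyMeasurable B ?_
  exact Filter.Eventually.of_forall fun p => by
    rw [Real.norm_eq_abs]
    exact hB _

theorem measurable_upd (q i : ℕ) : Measurable (fun p : Om × (Fin 3 → ℝ) => upd p.1 q i p.2) :=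
  R09_aux.meas_upd q i

end BilEnt
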