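import Pool.Agent.BilEnt.Defs
import Pool.Agent.BilEnt.R06

/-!
# MP_bd32bb_an, part R, module R07 (doc proof/MP_bd32bb_an_entropy)

HINT. each `lev N q` and its derivatives are measurable (finite sums of explicit expressions; derivatives: explicit formulas or
measurability of `deriv` of jointly continuous functions, e.g. as limits of difference quotients `n(h(u+1/n)-h(u))`), then `tsum` as limit of partial sums
(`Measurable.tsum`? or `measurable_of_tendsto_metrizable`). Difference quotients also work directly for `hw` itself (`hw` is C²).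
-/

open MeasureTheory Real
open scoped ENNReal

namespace BilEnt

namespace R07_aux

open Filter Topology

/-- measurability of the derivative in the second variable -/
theorem meas_deriv {f : Om → ℝ → ℝ} (hf : Measurable fun p : Om × ℝ => f p.1 p.2)
    (hd : ∀ ω, Differentiable ℝ (f ω)) : Measurable fun p : Om × ℝ => deriv (f p.1) p.2 := by
  have ht : Tendsto (fun n : ℕ => (1 : ℝ) / ((n : ℝ) + 1)) atTop (𝓝[≠] 0) := by
    rw [tendsto_nhdsWithin_iff]
    refine ⟨tendsto_one_div_add_atTop_nhds_zero_nat, Filter.Eventually.of_forall fun n => ?_⟩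
    have h : (0 : ℝ) < (1 : ℝ) / ((n : ℝ) + 1) := by positivity
    exact h.ne'
  refine measurable_of_tendsto_metrizable
    (f := fun (n : ℕ) (p : Om × ℝ) => ((1 : ℝ) / ((n : ℝ) + 1))⁻¹ *
      (f p.1 (p.2 + (1 : ℝ) / ((n : ℝ) + 1)) - f p.1 p.2)) (fun n => ?_) ?_
  · have h1 : Measurable fun p : Om × ℝ => f p.1 (p.2 + (1 : ℝ) / ((n : ℝ) + 1)) :=
      hf.comp (measurable_fst.prodMk (measurable_snd.add_const _))
    exact (h1.sub hf).const_mul _
  · rw [tendsto_pi_nhds]
    intro p
    have h2 := (hd p.1 p.2).hasDerivAt.tendsto_slope_zero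
    exact h2.comp ht

theorem meas_cell (N q i : ℕ) :
    Measurable fun p : Om × ℝ => cellF N q i (p.1 (q, i)) p.2 := by
  have hc : ∀ j : Fin 3, Measurable fun p : Om × ℝ => clampR (p.1 (q, i) j) := by
    intro j
    have h1 : Measurable fun p : Om × ℝ => p.1 (q, i) j :=
      (measurable_pi_apply j).comp ((measurable_pi_apply (q, i)).comp measurable_fst)
    exact continuous_clampR.measurable.comp h1
  have hb : Measurable fun p : Om × ℝ => bmp N q i p.2 := by
    simp only [bmp_eq]
    have h1 : Continuous fun u : ℝ => bump (2 * (1 - cos (u - ctr (nc N q) i)) / dl N q ^ 2) :=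
      contDiff_bump.continuous.comp (by fun_prop)
    exact h1.measurable.comp measurable_snd
  have hds : Measurable fun p : Om × ℝ => ds p.2 (ctr (nc N q) i) := by
    unfold ds
    have h1 : Continuous fun u : ℝ => 2 * |sin ((u - ctr (nc N q) i) / 2)| := by fun_prop
    exact h1.measurable.comp measurable_snd
  have hsin : ∀ a : ℝ, Measurable fun p : Om × ℝ => sin (p.2 - a) := by
    intro a
    have h1 : Continuous fun u : ℝ => sin (u - a) := by fun_prop
    exact h1.measurable.comp measurable_snd
  unfold cellF
  refine hb.mul ?_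
  by_cases hq : q = 0
  · simp only [if_pos hq]
    unfold G0
    have hcos : Measurable fun p : Om × ℝ =>
        cos ((N : ℝ) ^ 2 * p.2 + π * clampR (p.1 (q, i) 0)) :=
      Real.measurable_cos.comp ((measurable_snd.const_mul _).add ((hc 0).const_mul _))
    exact (hcos.const_mul _).add
      (((hc 1).add (((hc 2).mul_const _).mul (hsin _))).const_mul _)
  · simp only [if_neg hq]
    unfold Gq
    exact (((hc 0).add (((hc 1).mul (hsin _)).div_const _)).add
      (((hc 2).mul (hds.pow_const 2)).div_const _)).const_mul _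

theorem meas_lev (N q : ℕ) : Measurable fun p : Om × ℝ => lev N q p.1 p.2 := by
  unfold lev
  exact Finset.measurable_sum _ fun i _ => meas_cell N q i

theorem smooth2 {N : ℕ} (hN : N0 ≤ N) (ω : Om) : ContDiff ℝ 2 (hw N ω) := (isTab_hw hN ω).c2

end R07_aux

open R07_aux

theorem measurable_hw {N : ℕ} (hN : N0 ≤ N) : Measurable (fun p : Om × ℝ => hw N p.1 p.2) := by
  refine measurable_of_tendsto_metrizable
    (f := fun (n : ℕ) (p : Om × ℝ) => ∑ q ∈ Finset.range n, lev N q p.1 p.2) (fun n => ?_) ?_
  · exact Finset.measurable_sum _ fun q _ => meas_lev N q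
  · rw [tendsto_pi_nhds]
    intro p
    have h1 := (hw_series (N0_ge.trans hN) p.1).2.2.2.1 p.2
    exact h1.hasSum.tendsto_sum_nat
theorem measurable_hw' {N : ℕ} (hN : N0 ≤ N) :
    Measurable (fun p : Om × ℝ => deriv (hw N p.1) p.2) :=
  meas_deriv (measurable_hw hN) fun ω => (smooth2 hN ω).differentiable (by norm_num)
theorem measurable_hw'' {N : ℕ} (hN : N0 ≤ N) :
    Measurable (fun p : Om × ℝ => deriv (deriv (hw N p.1)) p.2) := by
  refine meas_deriv (f := fun ω => deriv (hw N ω)) (measurable_hw' hN) fun ω => ?_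
  have h1 : ContDiff ℝ (1 + 1) (hw N ω) := by
    have := smooth2 hN ω
    norm_num
    exact this
  exact (contDiff_succ_iff_deriv.1 h1).2.2.differentiable (by norm_num)

end BilEnt
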