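import Pool.Agent.BilEnt.Defs
import Pool.Agent.BilEnt.R07
import Pool.Agent.BilEnt.G10
import Pool.Agent.BilEnt.G11

/-!
# MP_bd32bb_an, part R, module R10 (doc proof/MP_bd32bb_an_entropy)

HINT. compositions of R07.  `V`: for `z ∈ dom` and `0 < c < 2π`: `V z ≤ z.1 + c ↔ 0 ≤ wedge (ev z.2) (gam (z.1+c) - gam z.1)` (the wedge is
`< 0` before `V` and `> 0` after: it is `HH·sin(ang(u,u+c) - A)` and `ang` is increasing with values in `(Th u, Th u+π)`); off `dom` `V z = z.1`
(by `mem_dom_of_ang`).
-/

open MeasureTheory Real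
open scoped ENNReal

namespace BilEnt

namespace R10_aux

theorem m_pair {g : Yt → ℝ} (hg : Measurable g) :
    Measurable (fun y : Yt => ((y.1, g y) : Om × ℝ)) := by
  have h1 : Measurable (fun y : Yt => y.1) := measurable_fst
  exact h1.prodMk hg

theorem m_pairY {g : Yt → ℝ × ℝ} (hg : Measurable g) :
    Measurable (fun y : Yt => ((y.1, g y) : Yt)) := by
  have h1 : Measurable (fun y : Yt => y.1) := measurable_fst
  exact h1.prodMk hg

theorem m_arg {N : ℕ} {β : Type*} [MeasurableSpace β] {F : (ℝ → ℝ) → ℝ → β}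
    (hF : Measurable (fun p : Om × ℝ => F (hw N p.1) p.2)) {g : Yt → ℝ} (hg : Measurable g) :
    Measurable (fun y : Yt => F (hw N y.1) (g y)) := by
  have h := Measurable.comp hF (m_pair hg)
  exact h

theorem m_argY {N : ℕ} {β : Type*} [MeasurableSpace β] {F : (ℝ → ℝ) → ℝ × ℝ → β}
    (hF : Measurable (fun y : Yt => F (hw N y.1) y.2)) {g : Yt → ℝ × ℝ} (hg : Measurable g) :
    Measurable (fun y : Yt => F (hw N y.1) (g y)) := by
  have h := Measurable.comp hF (m_pairY hg)
  exact h

end R10_aux

open R10_aux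

theorem measurable_Th_hw {N : ℕ} (hN : N0 ≤ N) : Measurable (fun p : Om × ℝ => Th (hw N p.1) p.2) := by
  unfold Th
  exact (measurable_snd.add_const _).sub (Real.measurable_arctan.comp (measurable_hw' hN))
theorem measurable_Thd_hw {N : ℕ} (hN : N0 ≤ N) :
    Measurable (fun p : Om × ℝ => Thd (hw N p.1) p.2) := by
  unfold Thd
  exact measurable_const.sub ((measurable_hw'' hN).div
    (measurable_const.add ((measurable_hw' hN).pow_const 2)))
theorem measurable_sp_hw {N : ℕ} (hN : N0 ≤ N) : Measurable (fun p : Om × ℝ => sp (hw N p.1) p.2) := by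
  unfold sp
  exact (Real.measurable_exp.comp (measurable_hw hN)).mul
    (Real.continuous_sqrt.measurable.comp (measurable_const.add ((measurable_hw' hN).pow_const 2)))

namespace R10_aux

theorem m_u : Measurable (fun y : Yt => y.2.1) := measurable_fst.comp measurable_snd
theorem m_A : Measurable (fun y : Yt => y.2.2) := measurable_snd.comp measurable_snd

theorem m_Th {N : ℕ} (hN : N0 ≤ N) : Measurable (fun y : Yt => Th (hw N y.1) y.2.1) :=
  m_arg (F := Th) (measurable_Th_hw hN) m_u

theorem m_gam {N : ℕ} (hN : N0 ≤ N) : Measurable (fun p : Om × ℝ => gam (hw N p.1) p.2) := by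
  unfold gam
  exact Complex.measurable_exp.comp ((Complex.measurable_ofReal.comp (measurable_hw hN)).add
    ((Complex.measurable_ofReal.comp measurable_snd).mul_const _))

theorem m_rv {N : ℕ} (hN : N0 ≤ N) : Measurable (fun y : Yt => rv (hw N y.1) y.2) := by
  unfold rv
  exact m_u.prodMk ((((m_Th hN).const_mul 2).add_const π).sub m_A)

theorem m_ang {N : ℕ} (hN : N0 ≤ N) (c : ℝ) :
    Measurable (fun y : Yt => ang (hw N y.1) y.2.1 (y.2.1 + c)) := by
  have h1 : Measurable (fun y : Yt => hw N y.1 (y.2.1 + c)) :=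
    m_arg (F := fun h x => h x) (measurable_hw hN) (m_u.add_const c)
  have h2 : Measurable (fun y : Yt => hw N y.1 y.2.1) :=
    m_arg (F := fun h x => h x) (measurable_hw hN) m_u
  have h3 : Measurable (fun y : Yt => tanh ((hw N y.1 (y.2.1 + c) - hw N y.1 y.2.1) / 2)) := by
    have : Measurable tanh := by
      have e : (tanh : ℝ → ℝ) = fun x => sinh x / cosh x := by
        funext x; exact Real.tanh_eq_sinh_div_cosh x
      rw [e]
      exact Real.measurable_sinh.div Real.measurable_cosh
    exact this.comp ((h1.sub h2).div_const 2)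
  have h4 : Measurable (fun y : Yt => cos ((y.2.1 + c - y.2.1) / 2) /
      sin ((y.2.1 + c - y.2.1) / 2)) := by
    have e : (fun y : Yt => cos ((y.2.1 + c - y.2.1) / 2) / sin ((y.2.1 + c - y.2.1) / 2))
        = fun _ => cos (c / 2) / sin (c / 2) := by
      funext y
      rw [add_sub_cancel_left]
    rw [e]
    exact measurable_const
  unfold ang
  exact (((m_u.add (m_u.add_const c)).div_const 2).add_const _).sub
    (Real.measurable_arctan.comp (h3.mul h4))

theorem V_off {h : ℝ → ℝ} (hh : IsTab h) {z : ℝ × ℝ} (hz : z ∉ dom h) : V h z = z.1 := by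
  unfold V
  rw [dif_neg]
  rintro ⟨w, h1, h2, h3⟩
  exact hz (mem_dom_of_ang hh h1 h2 h3)

theorem V_le_iff {h : ℝ → ℝ} (hh : IsTab h) {z : ℝ × ℝ} (hz : z ∈ dom h) {c : ℝ} (h0 : 0 < c)
    (h1 : c < 2 * π) : V h z - z.1 ≤ c ↔ z.2 ≤ ang h z.1 (z.1 + c) := by
  obtain ⟨a, b, e⟩ := V_spec hh hz
  have h2 := (ang_strictMono hh z.1).le_iff_le (a := V h z) (b := z.1 + c) ⟨a, b⟩
    ⟨by linarith, by linarith⟩
  rw [e] at h2
  rw [h2]
  constructor <;> intro h <;> linarith

end R10_aux

theorem measurableSet_dom_hw {N : ℕ} (hN : N0 ≤ N) : MeasurableSet {y : Yt | y.2 ∈ dom (hw N y.1)} := by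
  have h1 : MeasurableSet {y : Yt | Th (hw N y.1) y.2.1 < y.2.2} := measurableSet_lt (m_Th hN) m_A
  have h2 : MeasurableSet {y : Yt | y.2.2 < Th (hw N y.1) y.2.1 + π} :=
    measurableSet_lt m_A ((m_Th hN).add_const π)
  exact h1.inter h2
theorem measurableSet_X0_hw {N : ℕ} (hN : N0 ≤ N) : MeasurableSet {y : Yt | y.2 ∈ X0 (hw N y.1)} := by
  have h1 : MeasurableSet {y : Yt | 0 ≤ y.2.1} := measurableSet_le measurable_const m_u
  have h2 : MeasurableSet {y : Yt | y.2.1 < 2 * π} := measurableSet_lt m_u measurable_const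
  exact (measurableSet_dom_hw hN).inter (h1.inter h2)
theorem measurable_stt_hw {N : ℕ} (hN : N0 ≤ N) : Measurable (fun y : Yt => stt (hw N y.1) y.2) := by
  unfold stt
  exact Real.measurable_sin.comp (m_A.sub (m_Th hN))
theorem measurable_pw_hw {N : ℕ} (hN : N0 ≤ N) : Measurable (fun y : Yt => pw (hw N y.1) y.2) := by
  unfold pw
  exact (m_arg (F := sp) (measurable_sp_hw hN) m_u).mul (measurable_stt_hw hN)
/-- `V` is measurable: `V z ≤ z.1 + c` iff a wedge has a sign. -/
theorem measurable_V_hw {N : ℕ} (hN : N0 ≤ N) : Measurable (fun y : Yt => V (hw N y.1) y.2) := by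
  have key : Measurable (fun y : Yt => V (hw N y.1) y.2 - y.2.1) := by
    apply measurable_of_Iic
    intro c
    rcases lt_trichotomy c 0 with hc | hc | hc
    · have e : (fun y : Yt => V (hw N y.1) y.2 - y.2.1) ⁻¹' Set.Iic c = ∅ := by
        ext y
        simp only [Set.mem_preimage, Set.mem_Iic, Set.mem_empty_iff_false, iff_false, not_le]
        by_cases hy : y.2 ∈ dom (hw N y.1)
        · have := (V_spec (isTab_hw hN y.1) hy).1
          linarith
        · rw [V_off (isTab_hw hN y.1) hy]
          linarith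
      rw [e]
      exact MeasurableSet.empty
    · have e : (fun y : Yt => V (hw N y.1) y.2 - y.2.1) ⁻¹' Set.Iic c
          = {y : Yt | y.2 ∈ dom (hw N y.1)}ᶜ := by
        ext y
        simp only [Set.mem_preimage, Set.mem_Iic, Set.mem_compl_iff, Set.mem_ofPred_eq]
        by_cases hy : y.2 ∈ dom (hw N y.1)
        · have := (V_spec (isTab_hw hN y.1) hy).1
          simp only [hy, not_true_eq_false, iff_false, not_le]
          linarith
        · rw [V_off (isTab_hw hN y.1) hy]
          simp only [hy, not_false_eq_true, iff_true]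
          linarith
      rw [e]
      exact (measurableSet_dom_hw hN).compl
    · rcases lt_or_ge c (2 * π) with hc2 | hc2
      · have e : (fun y : Yt => V (hw N y.1) y.2 - y.2.1) ⁻¹' Set.Iic c
            = {y : Yt | y.2 ∈ dom (hw N y.1)}ᶜ ∪
              {y : Yt | y.2.2 ≤ ang (hw N y.1) y.2.1 (y.2.1 + c)} := by
          ext y
          simp only [Set.mem_preimage, Set.mem_Iic, Set.mem_union, Set.mem_compl_iff,
            Set.mem_ofPred_eq]
          by_cases hy : y.2 ∈ dom (hw N y.1)
          · simp only [hy, not_true_eq_false, false_or]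
            exact V_le_iff (isTab_hw hN y.1) hy hc hc2
          · rw [V_off (isTab_hw hN y.1) hy]
            simp only [hy, not_false_eq_true, true_or, iff_true]
            linarith
        rw [e]
        exact (measurableSet_dom_hw hN).compl.union (measurableSet_le m_A (m_ang hN c))
      · have e : (fun y : Yt => V (hw N y.1) y.2 - y.2.1) ⁻¹' Set.Iic c = Set.univ := by
          ext y
          simp only [Set.mem_preimage, Set.mem_Iic, Set.mem_univ, iff_true]
          by_cases hy : y.2 ∈ dom (hw N y.1)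
          · have := (V_spec (isTab_hw hN y.1) hy).2.1
            linarith
          · rw [V_off (isTab_hw hN y.1) hy]
            linarith
        rw [e]
        exact MeasurableSet.univ
  have e : (fun y : Yt => V (hw N y.1) y.2) = fun y : Yt => (V (hw N y.1) y.2 - y.2.1) + y.2.1 := by
    funext y; ring
  rw [e]
  exact key.add m_u
theorem measurable_fm_hw {N : ℕ} (hN : N0 ≤ N) : Measurable (fun y : Yt => fm (hw N y.1) y.2) := by
  unfold fm
  exact (measurable_V_hw hN).prodMk
    (((m_arg (F := Th) (measurable_Th_hw hN) (measurable_V_hw hN)).const_mul 2).sub m_A)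
theorem measurable_bm_hw {N : ℕ} (hN : N0 ≤ N) : Measurable (fun y : Yt => bm (hw N y.1) y.2) := by
  unfold bm
  have h1 : Measurable (fun y : Yt => fm (hw N y.1) (rv (hw N y.1) y.2)) :=
    m_argY (F := fm) (measurable_fm_hw hN) (m_rv hN)
  have h2 : Measurable (fun y : Yt => rv (hw N y.1) (fm (hw N y.1) (rv (hw N y.1) y.2))) :=
    m_argY (F := rv) (m_rv hN) h1
  exact h2.sub_const _
theorem measurable_hl_hw {N : ℕ} (hN : N0 ≤ N) : Measurable (fun y : Yt => hl (hw N y.1) y.2) := by
  unfold hl HH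
  have h1 : Measurable (fun y : Yt => gam (hw N y.1) (V (hw N y.1) y.2)) :=
    m_arg (F := gam) (m_gam hN) (measurable_V_hw hN)
  have h2 : Measurable (fun y : Yt => gam (hw N y.1) y.2.1) :=
    m_arg (F := gam) (m_gam hN) m_u
  exact (h1.sub h2).norm

namespace R10_aux

theorem m_gg {N : ℕ} (hN : N0 ≤ N) : Measurable (fun y : Yt => gg (hw N y.1) y.2) := by
  unfold gg
  exact ((m_arg (F := Thd) (measurable_Thd_hw hN) (measurable_V_hw hN)).const_mul 2).div
    (m_argY (F := pw) (measurable_pw_hw hN) (measurable_fm_hw hN))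

end R10_aux

theorem measurable_Mc_hw {N : ℕ} (hN : N0 ≤ N) (i j : Fin 2) :
    Measurable (fun y : Yt => Mc (hw N y.1) y.2 i j) := by
  have h1 := measurable_hl_hw hN
  have h2 := m_gg hN
  have h3 : Measurable (fun y : Yt => -gg (hw N y.1) y.2) := h2.neg
  have h4 : Measurable (fun y : Yt => gg (hw N y.1) y.2 * hl (hw N y.1) y.2 - 1) :=
    (h2.mul h1).sub_const 1
  unfold Mc
  fin_cases i <;> fin_cases j
  · exact (measurable_const : Measurable (fun _ : Yt => (-1 : ℝ)))
  · exact h1
  · exact h3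
  · exact h4
theorem measurable_pth_hw {N : ℕ} (hN : N0 ≤ N) (k : ℕ) :
    Measurable (fun y : Yt => pth (hw N y.1) y.2 k) := by
  induction k with
  | zero =>
    have e : (fun y : Yt => pth (hw N y.1) y.2 0) = fun y : Yt => y.2 := by
      funext y; simp [pth]
    rw [e]; exact measurable_snd
  | succ k ih =>
    have e : (fun y : Yt => pth (hw N y.1) y.2 (k + 1))
        = fun y : Yt => fm (hw N y.1) (pth (hw N y.1) y.2 k) := by
      funext y
      simp only [pth, Function.iterate_succ_apply']
    rw [e]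
    exact m_argY (F := fm) (measurable_fm_hw hN) ih
theorem measurable_bm_iter_hw {N : ℕ} (hN : N0 ≤ N) (k : ℕ) :
    Measurable (fun y : Yt => (bm (hw N y.1))^[k] y.2) := by
  induction k with
  | zero => simpa using (measurable_snd : Measurable (fun y : Yt => y.2))
  | succ k ih =>
    have e : (fun y : Yt => (bm (hw N y.1))^[k + 1] y.2)
        = fun y : Yt => bm (hw N y.1) ((bm (hw N y.1))^[k] y.2) := by
      funext y
      rw [Function.iterate_succ_apply']
    rw [e]
    exact m_argY (F := bm) (measurable_bm_hw hN) ih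
theorem measurable_mprod_hw {N : ℕ} (hN : N0 ≤ N) (a k : ℕ) (i j : Fin 2) :
    Measurable (fun y : Yt => mprod (Ms (hw N y.1) y.2) a k i j) := by
  induction k generalizing i j with
  | zero => exact measurable_const
  | succ k ih =>
    have e : (fun y : Yt => mprod (Ms (hw N y.1) y.2) a (k + 1) i j)
        = fun y : Yt => Mc (hw N y.1) (pth (hw N y.1) y.2 (a + k)) i 0 *
            mprod (Ms (hw N y.1) y.2) a k 0 j +
          Mc (hw N y.1) (pth (hw N y.1) y.2 (a + k)) i 1 *
            mprod (Ms (hw N y.1) y.2) a k 1 j := by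
      funext y
      simp only [mprod, Matrix.mul_apply, Fin.sum_univ_two, Ms]
    rw [e]
    exact ((m_argY (F := fun h z => Mc h z i 0) (measurable_Mc_hw hN i 0)
      (measurable_pth_hw hN (a + k))).mul (ih 0 j)).add
      ((m_argY (F := fun h z => Mc h z i 1) (measurable_Mc_hw hN i 1)
      (measurable_pth_hw hN (a + k))).mul (ih 1 j))
theorem measurableSet_Temp {N : ℕ} (hN : N0 ≤ N) (s : ℝ) (k : ℕ) :
    MeasurableSet {y : Yt | Temp (hw N y.1) y.2 s k} := by
  have e : {y : Yt | Temp (hw N y.1) y.2 s k}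
      = ⋂ t : ℕ, ⋂ _ : t ≤ k, {y : Yt | s ≤ stt (hw N y.1) (pth (hw N y.1) y.2 t)} := by
    ext y; simp [Temp]
  rw [e]
  exact MeasurableSet.iInter fun t => MeasurableSet.iInter fun _ =>
    measurableSet_le measurable_const
      (m_argY (F := stt) (measurable_stt_hw hN) (measurable_pth_hw hN t))
theorem measurableSet_Iso {N : ℕ} (hN : N0 ≤ N) (s : ℝ) (k : ℕ) :
    MeasurableSet {y : Yt | Iso (hw N y.1) y.2 s k} := by
  have e : {y : Yt | Iso (hw N y.1) y.2 s k}
      = ⋂ i : ℕ, ⋂ j : ℕ, ⋂ _ : i < j, ⋂ _ : j ≤ k,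
        {y : Yt | s < ds (pth (hw N y.1) y.2 i).1 (pth (hw N y.1) y.2 j).1} := by
    ext y; simp [Iso]
  rw [e]
  refine MeasurableSet.iInter fun i => MeasurableSet.iInter fun j => MeasurableSet.iInter fun _ =>
    MeasurableSet.iInter fun _ => measurableSet_lt measurable_const ?_
  have h1 : Measurable (fun y : Yt => (pth (hw N y.1) y.2 i).1) :=
    measurable_fst.comp (measurable_pth_hw hN i)
  have h2 : Measurable (fun y : Yt => (pth (hw N y.1) y.2 j).1) :=
    measurable_fst.comp (measurable_pth_hw hN j)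
  unfold ds
  exact ((Real.measurable_sin.comp ((h1.sub h2).div_const 2)).abs).const_mul 2
theorem measurableSet_QMs {N : ℕ} (hN : N0 ≤ N) (χ : ℝ) (a k : ℕ) :
    MeasurableSet {y : Yt | QMs (Ms (hw N y.1) (pth (hw N y.1) y.2 a)) χ k} := by
  have hm : ∀ (b l : ℕ) (i j : Fin 2),
      Measurable (fun y : Yt => mprod (Ms (hw N y.1) (pth (hw N y.1) y.2 a)) b l i j) := by
    intro b l i j
    exact m_argY (F := fun h z => mprod (Ms h z) b l i j) (measurable_mprod_hw hN b l i j)
      (measurable_pth_hw hN a)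
  have e : {y : Yt | QMs (Ms (hw N y.1) (pth (hw N y.1) y.2 a)) χ k}
      = ⋂ t : ℕ, ⋂ _ : t ≤ k, ⋂ j : Fin 2, ⋂ i : Fin 2,
        {y : Yt | χ * rn (mprod (Ms (hw N y.1) (pth (hw N y.1) y.2 a)) t (k - t)) j *
          cn (mprod (Ms (hw N y.1) (pth (hw N y.1) y.2 a)) 0 t) i ≤
          |mprod (Ms (hw N y.1) (pth (hw N y.1) y.2 a)) 0 k j i|} := by
    ext y
    simp only [QMs, Set.mem_ofPred_eq, Set.mem_iInter]
  rw [e]
  refine MeasurableSet.iInter fun t => MeasurableSet.iInter fun _ => MeasurableSet.iInter fun j =>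
    MeasurableSet.iInter fun i => measurableSet_le ?_ ?_
  · unfold rn cn
    exact ((((hm _ _ _ _).abs).add ((hm _ _ _ _).abs)).const_mul χ).mul
      (((hm _ _ _ _).abs).add ((hm _ _ _ _).abs))
  · exact (hm _ _ _ _).abs
theorem measurable_zin_hw {N : ℕ} (hN : N0 ≤ N) (u φ : ℝ) :
    Measurable (fun ω : Om => zin (hw N ω) u φ) := by
  unfold zin
  have h0 : Measurable (fun ω : Om => ((ω, u) : Om × ℝ)) := measurable_id.prodMk measurable_const
  have h1 : Measurable (fun ω : Om => Th (hw N ω) u) := by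
    have h := Measurable.comp (measurable_Th_hw hN) h0
    exact h
  exact measurable_const.prodMk ((h1.const_mul 2).sub_const φ)
theorem measurable_zin_hw' {N : ℕ} (hN : N0 ≤ N) :
    Measurable (fun p : Om × (ℝ × ℝ) => zin (hw N p.1) p.2.1 p.2.2) := by
  unfold zin
  exact m_u.prodMk (((m_Th hN).const_mul 2).sub m_A)

end BilEnt
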