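import Pool.Agent.BilEnt.Defs
import Pool.Agent.BilEnt.R10
import Pool.Agent.BilEnt.G15

/-!
# MP_bd32bb_an, part R, module R11 (doc proof/MP_bd32bb_an_entropy)

HINT. `Pr` is the integral over `ω` of `mu (hw N ω)` (Tonelli, measurability R10); `mp_TT` from `mp_Tm` fibrewise.  `ac_TT`: `Tm^k z = pth z k - 2π j(1,1)` and
periodicity of `Mc`.
-/

open MeasureTheory Real
open scoped ENNReal

namespace BilEnt

namespace R11_aux

theorem measurable_red : Measurable red := by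
  unfold red
  have hf : Measurable (fun z : ℝ × ℝ => ((⌊z.1 / (2 * π)⌋ : ℤ) : ℝ)) := by
    have h1 : Measurable (fun z : ℝ × ℝ => ⌊z.1 / (2 * π)⌋) :=
      Int.measurable_floor.comp (measurable_fst.div_const _)
    exact (measurable_from_top (f := fun n : ℤ => (n : ℝ))).comp h1
  exact (measurable_fst.sub (hf.const_mul _)).prodMk (measurable_snd.sub (hf.const_mul _))

theorem dom_int {h : ℝ → ℝ} (hh : IsTab h) (j : ℤ) (z : ℝ × ℝ) :
    z - (2 * π * j, 2 * π * j) ∈ dom h ↔ z ∈ dom h := by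
  induction j using Int.induction_on generalizing z with
  | zero =>
    have e : z - (2 * π * ((0 : ℤ) : ℝ), 2 * π * ((0 : ℤ) : ℝ)) = z := by ext <;> simp
    rw [e]
  | succ i ih =>
    have e : z - (2 * π * ((i : ℤ) + 1 : ℤ), 2 * π * ((i : ℤ) + 1 : ℤ)) + tau
        = z - (2 * π * ((i : ℤ) : ℝ), 2 * π * ((i : ℤ) : ℝ)) := by
      ext <;> simp [tau] <;> ring
    rw [← ih z, ← e, dom_add_tau hh]
  | pred i ih =>
    have e : z - (2 * π * ((-(i : ℤ) - 1 : ℤ) : ℝ), 2 * π * ((-(i : ℤ) - 1 : ℤ) : ℝ))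
        = z - (2 * π * ((-(i : ℤ) : ℤ) : ℝ), 2 * π * ((-(i : ℤ) : ℤ) : ℝ)) + tau := by
      ext <;> simp [tau] <;> ring
    rw [e, dom_add_tau hh, ih z]

theorem Mc_int {h : ℝ → ℝ} (hh : IsTab h) (j : ℤ) {z : ℝ × ℝ} (hz : z ∈ dom h) :
    Mc h (z - (2 * π * j, 2 * π * j)) = Mc h z := by
  induction j using Int.induction_on generalizing z with
  | zero =>
    have e : z - (2 * π * ((0 : ℤ) : ℝ), 2 * π * ((0 : ℤ) : ℝ)) = z := by ext <;> simp
    rw [e]
  | succ i ih =>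
    have e : z - (2 * π * ((i : ℤ) + 1 : ℤ), 2 * π * ((i : ℤ) + 1 : ℤ)) + tau
        = z - (2 * π * ((i : ℤ) : ℝ), 2 * π * ((i : ℤ) : ℝ)) := by
      ext <;> simp [tau] <;> ring
    have hm : z - (2 * π * (((i : ℤ) + 1 : ℤ) : ℝ), 2 * π * (((i : ℤ) + 1 : ℤ) : ℝ)) ∈ dom h :=
      (dom_int hh _ z).2 hz
    rw [← ih hz, ← e, Mc_add_tau hh hm]
  | pred i ih =>
    have e : z - (2 * π * ((-(i : ℤ) - 1 : ℤ) : ℝ), 2 * π * ((-(i : ℤ) - 1 : ℤ) : ℝ))
        = z - (2 * π * ((-(i : ℤ) : ℤ) : ℝ), 2 * π * ((-(i : ℤ) : ℤ) : ℝ)) + tau := by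
      ext <;> simp [tau] <;> ring
    have hm : z - (2 * π * ((-(i : ℤ) : ℤ) : ℝ), 2 * π * ((-(i : ℤ) : ℤ) : ℝ)) ∈ dom h :=
      (dom_int hh _ z).2 hz
    rw [e, Mc_add_tau hh hm, ih hz]

theorem TT_it (N : ℕ) (y : Yt) (l : ℕ) : (TT N)^[l] y = (y.1, (Tm (hw N y.1))^[l] y.2) := by
  induction l with
  | zero => rfl
  | succ l ih => rw [Function.iterate_succ_apply', ih, Function.iterate_succ_apply']; rfl

theorem TTi_it (N : ℕ) (y : Yt) (l : ℕ) : (TTi N)^[l] y = (y.1, (Tmi (hw N y.1))^[l] y.2) := by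
  induction l with
  | zero => rfl
  | succ l ih => rw [Function.iterate_succ_apply', ih, Function.iterate_succ_apply']; rfl

theorem Tm_it_mem {h : ℝ → ℝ} (hh : IsTab h) {z : ℝ × ℝ} (hz : z ∈ X0 h) (l : ℕ) :
    (Tm h)^[l] z ∈ X0 h := by
  induction l with
  | zero => exact hz
  | succ l ih => rw [Function.iterate_succ_apply']; exact Tm_mem hh ih

theorem Tmi_it_mem {h : ℝ → ℝ} (hh : IsTab h) {z : ℝ × ℝ} (hz : z ∈ X0 h) (l : ℕ) :
    (Tmi h)^[l] z ∈ X0 h := by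
  induction l with
  | zero => exact hz
  | succ l ih => rw [Function.iterate_succ_apply']; exact Tmi_mem hh ih

end R11_aux

theorem measurable_TT {N : ℕ} (hN : N0 ≤ N) : Measurable (TT N) := by
  classical
  refine measurable_fst.prodMk ?_
  have : (fun y : Yt => Tm (hw N y.1) y.2) =
      fun y : Yt => if y ∈ {y : Yt | y.2 ∈ X0 (hw N y.1)} then red (fm (hw N y.1) y.2) else y.2 := by
    funext y
    simp only [Tm, Set.mem_ofPred_eq]
  rw [this]
  exact Measurable.ite (measurableSet_X0_hw hN)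
    (R11_aux.measurable_red.comp (measurable_fm_hw hN)) measurable_snd

theorem measurable_TTi {N : ℕ} (hN : N0 ≤ N) : Measurable (TTi N) := by
  classical
  refine measurable_fst.prodMk ?_
  have : (fun y : Yt => Tmi (hw N y.1) y.2) =
      fun y : Yt => if y ∈ {y : Yt | y.2 ∈ X0 (hw N y.1)} then red (bm (hw N y.1) y.2) else y.2 := by
    funext y
    simp only [Tmi, Set.mem_ofPred_eq]
  rw [this]
  exact Measurable.ite (measurableSet_X0_hw hN)
    (R11_aux.measurable_red.comp (measurable_bm_hw hN)) measurable_snd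

theorem TTi_TT {N : ℕ} (hN : N0 ≤ N) (y : Yt) : TTi N (TT N y) = y := by
  unfold TTi TT
  simp only [Tmi_Tm (isTab_hw hN y.1)]

theorem TT_TTi {N : ℕ} (hN : N0 ≤ N) (y : Yt) : TT N (TTi N y) = y := by
  unfold TTi TT
  simp only [Tm_Tmi (isTab_hw hN y.1)]

/-- abstract disintegration -/
theorem R11_aux.disint {A B : Type*} [MeasurableSpace A] [MeasurableSpace B] {μ : Measure A}
    {ν : Measure B} [SFinite μ] [SFinite ν] {d : A × B → ℝ≥0∞} (hd : Measurable d) {S : Set (A × B)}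
    (hS : MeasurableSet S) {F : A × B → ℝ≥0∞} (hF : Measurable F) :
    ∫⁻ y, F y ∂(((μ.prod ν).withDensity d).restrict S) =
      ∫⁻ a, ∫⁻ z, F (a, z) ∂((ν.withDensity (fun z => d (a, z))).restrict {z | (a, z) ∈ S}) ∂μ := by
  rw [← lintegral_indicator hS, lintegral_withDensity_eq_lintegral_mul _ hd (hF.indicator hS),
    lintegral_prod _ (hd.mul (hF.indicator hS)).aemeasurable]
  refine lintegral_congr fun a => ?_
  have hS' : MeasurableSet {z | (a, z) ∈ S} := measurable_prodMk_left hS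
  have hd' : Measurable (fun z : B => d (a, z)) := hd.comp measurable_prodMk_left
  have hF' : Measurable (fun z : B => F (a, z)) := hF.comp measurable_prodMk_left
  rw [← lintegral_indicator hS', lintegral_withDensity_eq_lintegral_mul _ hd' (hF'.indicator hS')]
  refine lintegral_congr fun z => ?_
  simp only [Pi.mul_apply]
  rfl

/-- disintegration of `Pr` -/
theorem Pr_lintegral {N : ℕ} (hN : N0 ≤ N) {F : Yt → ℝ≥0∞} (hF : Measurable F) :
    ∫⁻ y, F y ∂(Pr N) = ∫⁻ ω, ∫⁻ z, F (ω, z) ∂(mu (hw N ω)) ∂PP := by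
  have hd : Measurable (fun y : Yt => ENNReal.ofReal (pw (hw N y.1) y.2)) :=
    (measurable_pw_hw hN).ennreal_ofReal
  exact R11_aux.disint hd (measurableSet_X0_hw hN) hF

theorem Pr_apply {N : ℕ} (hN : N0 ≤ N) {S : Set Yt} (hS : MeasurableSet S) :
    Pr N S = ∫⁻ ω, mu (hw N ω) {z | (ω, z) ∈ S} ∂PP := by
  have h := Pr_lintegral hN (F := S.indicator 1) (measurable_one.indicator hS)
  rw [lintegral_indicator_one hS] at h
  rw [h]
  refine lintegral_congr fun ω => ?_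
  have hS' : MeasurableSet {z | (ω, z) ∈ S} := measurable_prodMk_left hS
  rw [← lintegral_indicator_one hS']
  rfl

theorem Pr_univ_le {N : ℕ} (hN : N0 ≤ N) : Pr N Set.univ ≤ ENNReal.ofReal 13 := by
  rw [Pr_apply hN MeasurableSet.univ]
  calc ∫⁻ ω, mu (hw N ω) {z | (ω, z) ∈ Set.univ} ∂PP ≤ ∫⁻ _ω, ENNReal.ofReal 13 ∂PP := by
        refine lintegral_mono fun ω => ?_
        refine le_trans (measure_mono (Set.subset_univ _)) (mu_univ_le (isTab_hw hN ω))
    _ = ENNReal.ofReal 13 := by simp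

theorem finite_Pr {N : ℕ} (hN : N0 ≤ N) : IsFiniteMeasure (Pr N) :=
  ⟨lt_of_le_of_lt (Pr_univ_le hN) ENNReal.ofReal_lt_top⟩

/-- (R6) -/
theorem mp_TT {N : ℕ} (hN : N0 ≤ N) : MeasurePreserving (TT N) (Pr N) (Pr N) := by
  refine ⟨measurable_TT hN, ?_⟩
  ext S hS
  rw [Measure.map_apply (measurable_TT hN) hS, Pr_apply hN (measurable_TT hN hS), Pr_apply hN hS]
  refine lintegral_congr fun ω => ?_
  have hS' : MeasurableSet {z | (ω, z) ∈ S} := measurable_prodMk_left hS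
  exact (mp_Tm (isTab_hw hN ω)).measure_preimage hS'.nullMeasurableSet

theorem measurable_MM {N : ℕ} (hN : N0 ≤ N) (i j : Fin 2) : Measurable (fun y => MM N y i j) := by
  classical
  have : (fun y : Yt => MM N y i j) =
      fun y : Yt => if y ∈ {y : Yt | y.2 ∈ X0 (hw N y.1)} then Mc (hw N y.1) y.2 i j
        else (1 : Matrix (Fin 2) (Fin 2) ℝ) i j := by
    funext y
    simp only [MM, Set.mem_ofPred_eq]
    split_ifs <;> rfl
  rw [this]
  exact Measurable.ite (measurableSet_X0_hw hN) (measurable_Mc_hw hN i j) measurable_const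

theorem det_MM (N : ℕ) (y : Yt) : (MM N y).det = 1 := by
  unfold MM
  split_ifs
  · exact det_Mc _ _
  · exact Matrix.det_one

theorem ae_mem_X0 {N : ℕ} (hN : N0 ≤ N) : ∀ᵐ y ∂(Pr N), y.2 ∈ X0 (hw N y.1) :=
  ae_restrict_mem (measurableSet_X0_hw hN)

theorem R11_aux.TT_iter0 {N : ℕ} (hN : N0 ≤ N) {y : Yt} (hy : y.2 ∈ X0 (hw N y.1)) (l : ℕ) :
    ∃ j : ℤ, (TT N)^[l] y = (y.1, pth (hw N y.1) y.2 l - (2 * π * j, 2 * π * j)) ∧
      ((TT N)^[l] y).2 ∈ X0 (hw N y.1) := by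
  obtain ⟨j, hj⟩ := Tm_iter (isTab_hw hN y.1) hy l
  refine ⟨j, ?_, ?_⟩
  · rw [R11_aux.TT_it, hj]
  · rw [R11_aux.TT_it]; exact R11_aux.Tm_it_mem (isTab_hw hN y.1) hy l

/-- on the phase space the abstract cocycle is the cocycle of the orbit -/
theorem ac_TT {N : ℕ} (hN : N0 ≤ N) {y : Yt} (hy : y.2 ∈ X0 (hw N y.1)) (k : ℕ) :
    ac (TT N) (MM N) k y = mprod (Ms (hw N y.1) y.2) 0 k := by
  unfold ac
  congr 1
  funext t
  obtain ⟨j, hj, hm⟩ := R11_aux.TT_iter0 hN hy t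
  rw [hj] at hm ⊢
  have hp : pth (hw N y.1) y.2 t ∈ dom (hw N y.1) := pth_mem (isTab_hw hN y.1) hy.1 t
  unfold MM
  simp only at hm
  simp only [hm, if_true]
  exact R11_aux.Mc_int (isTab_hw hN y.1) j hp

/-- backward: `T^{-l} y` is the reduced state `bm^l` -/
theorem TTi_iter {N : ℕ} (hN : N0 ≤ N) {y : Yt} (hy : y.2 ∈ X0 (hw N y.1)) (l : ℕ) :
    ∃ j : ℤ, (TTi N)^[l] y = (y.1, (bm (hw N y.1))^[l] y.2 - (2 * π * j, 2 * π * j)) ∧
      ((TTi N)^[l] y).2 ∈ X0 (hw N y.1) := by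
  obtain ⟨j, hj⟩ := Tmi_iter (isTab_hw hN y.1) hy l
  refine ⟨j, ?_, ?_⟩
  · rw [R11_aux.TTi_it, hj]
  · rw [R11_aux.TTi_it]; exact R11_aux.Tmi_it_mem (isTab_hw hN y.1) hy l

theorem TT_iter {N : ℕ} (hN : N0 ≤ N) {y : Yt} (hy : y.2 ∈ X0 (hw N y.1)) (l : ℕ) :
    ∃ j : ℤ, (TT N)^[l] y = (y.1, pth (hw N y.1) y.2 l - (2 * π * j, 2 * π * j)) ∧
      ((TT N)^[l] y).2 ∈ X0 (hw N y.1) :=
  R11_aux.TT_iter0 hN hy l

end BilEnt
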