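import Pool.Agent.BilEnt.B06Def
import Pool.Agent.BilEnt.R09
import Pool.Agent.BilEnt.R11

/-!
# Part B, module B06Meas: measurability
-/

open MeasureTheory Real

namespace BilEnt

noncomputable section

namespace B06MeasAux

lemma measurable_round' : Measurable (fun x : ℝ => round x) := by
  have : (fun x : ℝ => round x) = fun x => ⌊x + 1 / 2⌋ := by
    funext x; exact round_eq x
  rw [this]
  exact Int.measurable_floor.comp (measurable_id.add_const _)

lemma continuous_comp0 (N : ℕ) (u : ℝ) (i : ℕ) (x : Fin 3 → ℝ) (j : Fin 3) :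
    Continuous (fun p => comp0 N u i x p j) := by
  unfold comp0
  fin_cases j
  · simpa using continuous_id'
  · simp only [Fin.mk_one, Matrix.cons_val_one, Matrix.cons_val_zero]
    fun_prop
  · simp only [Fin.reduceFinMk, Matrix.cons_val]
    fun_prop

/-- the condition on all phases reduces to rational phases -/
lemma inn_rat (N : ℕ) (ω : Om) (u : ℝ) : Inn N ω u ↔
    (∀ j, |ω (0, cidx N u) j| ≤ 1) ∧ ∀ q : ℚ, |(q : ℝ)| ≤ 1 →
      ∀ j, |comp0 N u (cidx N u) (ω (0, cidx N u)) q j| ≤ 1 := by
  unfold Inn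
  refine and_congr_right fun _ => ⟨fun h q hq => h q hq, fun h p hp j => ?_⟩
  have hcl : IsClosed {p : ℝ | |comp0 N u (cidx N u) (ω (0, cidx N u)) p j| ≤ 1} :=
    isClosed_le (continuous_comp0 N u _ _ j).abs continuous_const
  have hsub : Set.Ioo (-1 : ℝ) 1 ∩ Set.range ((↑) : ℚ → ℝ) ⊆
      {p : ℝ | |comp0 N u (cidx N u) (ω (0, cidx N u)) p j| ≤ 1} := by
    rintro _ ⟨⟨h1, h2⟩, q, rfl⟩
    exact h q (abs_le.mpr ⟨h1.le, h2.le⟩) j
  have hd : Set.Ioo (-1 : ℝ) 1 ⊆ closure (Set.Ioo (-1 : ℝ) 1 ∩ Set.range ((↑) : ℚ → ℝ)) :=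
    Dense.open_subset_closure_inter Rat.denseRange_cast isOpen_Ioo
  have h3 : closure (Set.Ioo (-1 : ℝ) 1) ⊆
      {p : ℝ | |comp0 N u (cidx N u) (ω (0, cidx N u)) p j| ≤ 1} := by
    refine closure_minimal ?_ hcl
    exact hd.trans (closure_minimal hsub hcl)
  rw [closure_Ioo (by norm_num)] at h3
  exact h3 (Set.mem_Icc.mpr (abs_le.mp hp))

lemma measurable_comp0 (N i : ℕ) (q : ℝ) (j : Fin 3) :
    Measurable (fun p : Om × ℝ => comp0 N p.2 i (p.1 (0, i)) q j) := by
  have hx : ∀ l : Fin 3, Measurable (fun p : Om × ℝ => p.1 (0, i) l) := fun l =>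
    (measurable_pi_apply l).comp ((measurable_pi_apply (0, i)).comp measurable_fst)
  have h0 := hx 0
  have h1 := hx 1
  have h2 := hx 2
  unfold comp0
  fin_cases j
  · simp
  · simp only [Fin.mk_one, Matrix.cons_val_one, Matrix.cons_val_zero]
    fun_prop
  · simp only [Fin.reduceFinMk, Matrix.cons_val]
    fun_prop

lemma measurable_Lf2 : Measurable (fun p : ℝ × ℝ => Lf p.1 p.2) := by
  unfold Lf
  fun_prop

end B06MeasAux

open B06MeasAux

theorem measurable_betaN (N : ℕ) : Measurable (betaN N) := by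
  unfold betaN bump
  have h1 : Measurable (fun u : ℝ => ((round (N * u / (2 * π)) : ℤ) : ℝ)) := by
    have h0 : Measurable (fun u : ℝ => round (N * u / (2 * π))) :=
      measurable_round'.comp ((measurable_const.mul measurable_id).div_const _)
    exact (Measurable.of_discrete (f := fun k : ℤ => (k : ℝ))).comp h0
  have h2 : Measurable (fun u : ℝ => 2 * sin ((u - 2 * π * ((round (N * u / (2 * π)) : ℤ) : ℝ) / N) / 2)) :=
    measurable_const.mul (Real.measurable_sin.comp ((measurable_id.sub
      ((measurable_const.mul h1).div_const _)).div_const _))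
  exact (measurable_const.max (measurable_const.sub ((h2.pow_const 2).div_const _))).pow_const 3

theorem measurable_cidx (N : ℕ) : Measurable (cidx N) := by
  unfold cidx
  have h1 : Measurable (fun u : ℝ => round (N * u / (2 * π))) :=
    measurable_round'.comp ((measurable_const.mul measurable_id).div_const _)
  exact (Measurable.of_discrete (f := fun k : ℤ => (k % (N : ℤ)).toNat)).comp h1

/-- `Measurable` in the pair (environment, position): on `{cidx N u = i}` (measurable) the condition is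
`∀ j, |x j| ≤ 1` and `∀ p ∈ [-1,1], ∀ j, |comp0 N u i x p j| ≤ 1` with `x = ω (0,i)`; `comp0` is continuous in
`p` (also for `cos = 0`, division by `0`), so it suffices to ask it for rational `p ∈ [-1,1]`, and for fixed `p`
it is measurable in `(x, u)`. -/
theorem measurableSet_Inn (N : ℕ) : MeasurableSet {p : Om × ℝ | Inn N p.1 p.2} := by
  have e : {p : Om × ℝ | Inn N p.1 p.2} = ⋃ i : ℕ, ({p : Om × ℝ | cidx N p.2 = i} ∩
      ((⋂ j : Fin 3, {p : Om × ℝ | |p.1 (0, i) j| ≤ 1}) ∩
        ⋂ q : ℚ, ⋂ (_ : |(q : ℝ)| ≤ 1), ⋂ j : Fin 3,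
          {p : Om × ℝ | |comp0 N p.2 i (p.1 (0, i)) q j| ≤ 1})) := by
    ext p
    simp only [Set.mem_ofPred_eq, Set.mem_iUnion, Set.mem_inter_iff, Set.mem_iInter]
    rw [inn_rat]
    constructor
    · intro h
      exact ⟨cidx N p.2, rfl, h.1, fun q hq j => h.2 q hq j⟩
    · rintro ⟨i, rfl, h1, h2⟩
      exact ⟨h1, h2⟩
  rw [e]
  refine MeasurableSet.iUnion fun i => ?_
  refine MeasurableSet.inter ?_ (MeasurableSet.inter ?_ ?_)
  · exact measurableSet_eq_fun ((measurable_cidx N).comp measurable_snd) measurable_const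
  · refine MeasurableSet.iInter fun j => ?_
    have hx : Measurable (fun p : Om × ℝ => p.1 (0, i) j) :=
      (measurable_pi_apply j).comp ((measurable_pi_apply (0, i)).comp measurable_fst)
    exact measurableSet_le hx.abs measurable_const
  · refine MeasurableSet.iInter fun q => MeasurableSet.iInter fun _ =>
      MeasurableSet.iInter fun j => ?_
    exact measurableSet_le (measurable_comp0 N i q j).abs measurable_const

theorem measurable_pos_b06 {N : ℕ} (hN : N0 ≤ N) (t : ℕ) :
    Measurable (fun y : Yt => (y.1, (pth (hw N y.1) y.2 t).1)) :=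
  measurable_fst.prodMk (measurable_fst.comp (measurable_pth_hw hN t))

theorem measurableSet_Gset {N : ℕ} (hN : N0 ≤ N) (n : ℕ) : MeasurableSet (Gset N n) := by
  have e : Gset N n = {y : Yt | y.2 ∈ dom (hw N y.1)} ∩
      ({y : Yt | Temp (hw N y.1) y.2 (1 / (n : ℝ) ^ 3) n} ∩
        ({y : Yt | Iso (hw N y.1) y.2 (3 * dl N 0) n} ∩
          ⋂ t : ℕ, ⋂ (_ : t ≤ n), {y : Yt | Inn N y.1 (pth (hw N y.1) y.2 t).1})) := by
    ext y
    simp only [Gset, Set.mem_ofPred_eq, Set.mem_inter_iff, Set.mem_iInter]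
  rw [e]
  refine (measurableSet_dom_hw hN).inter ((measurableSet_Temp hN _ _).inter
    ((measurableSet_Iso hN _ _).inter ?_))
  refine MeasurableSet.iInter fun t => MeasurableSet.iInter fun _ => ?_
  exact (measurable_pos_b06 hN t) (measurableSet_Inn N)

theorem measurable_Jn {N : ℕ} (hN : N0 ≤ N) (t : ℕ) :
    Measurable (fun y : Yt => Jn (hw N y.1) y.2 t) :=
  measurable_mprod_hw hN 0 t 0 1

theorem measurable_Cam {N : ℕ} (hN : N0 ≤ N) :
    Measurable (fun y : Yt => Cam N (hw N y.1) y.2) := by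
  have h0 : Measurable (fun y : Yt => y.2.1) := measurable_fst.comp measurable_snd
  have h1 : Measurable (fun y : Yt => betaN N y.2.1) := (measurable_betaN N).comp h0
  have h3 : Measurable (fun y : Yt => ((y.1, y.2.1) : Om × ℝ)) := measurable_fst.prodMk h0
  have h2' := (measurable_hw' hN).comp h3
  have h2 : Measurable (fun y : Yt => deriv (hw N y.1) y.2.1) := h2'
  have h4 : Measurable (fun y : Yt => pw (hw N y.1) y.2) := measurable_pw_hw hN
  have h5 : Measurable (fun y : Yt => 1 + (deriv (hw N y.1) y.2.1) ^ 2) :=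
    measurable_const.add (h2.pow_const 2)
  have h6 : Measurable (fun y : Yt => 2 * aa * betaN N y.2.1) := measurable_const.mul h1
  have h7 : Measurable (fun y : Yt => pw (hw N y.1) y.2 * (1 + (deriv (hw N y.1) y.2.1) ^ 2)) :=
    h4.mul h5
  have h8 : Measurable (fun y : Yt => (2 * aa * betaN N y.2.1) /
      (pw (hw N y.1) y.2 * (1 + (deriv (hw N y.1) y.2.1) ^ 2))) := h6.div h7
  simpa only [Cam] using h8

theorem measurable_state {N : ℕ} (hN : N0 ≤ N) (t : ℕ) :
    Measurable (fun y : Yt => ((y.1, pth (hw N y.1) y.2 t) : Yt)) :=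
  measurable_fst.prodMk (measurable_pth_hw hN t)

theorem measurable_HC {N : ℕ} (hN : N0 ≤ N) (t : ℕ) : Measurable (fun y : Yt => HC N y t) := by
  have h1' := (measurable_hl_hw hN).comp (measurable_state hN t)
  have h1 : Measurable (fun y : Yt => hl (hw N y.1) (pth (hw N y.1) y.2 t)) := h1'
  have h2' := (measurable_Cam hN).comp (measurable_state hN t)
  have h2 : Measurable (fun y : Yt => Cam N (hw N y.1) (pth (hw N y.1) y.2 t)) := h2'
  have h3 : Measurable (fun y : Yt => hl (hw N y.1) (pth (hw N y.1) y.2 t) *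
      Cam N (hw N y.1) (pth (hw N y.1) y.2 t)) := h1.mul h2
  simpa only [HC] using h3

theorem measurable_Ph1 {N : ℕ} (hN : N0 ≤ N) (n t : ℕ) (ε : ℝ) : Measurable (Ph1 N n t ε) := by
  have h1 := measurable_Lf2.comp ((measurable_const (a := ε)).prodMk (measurable_Jn hN (t + 1)))
  unfold Ph1
  refine Measurable.ite (p := fun y => y ∈ Gset N n) (measurableSet_Gset hN n) ?_ measurable_const
  exact h1

theorem measurable_Ph2 {N : ℕ} (hN : N0 ≤ N) (n t : ℕ) (ε : ℝ) : Measurable (Ph2 N n t ε) := by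
  have h0 := Real.measurable_log.comp ((measurable_HC hN t).div_const 2)
  have h1 := measurable_Lf2.comp (((measurable_const (a := 2 * ε)).div (measurable_HC hN t)).prodMk
    (measurable_Jn hN t))
  unfold Ph2
  refine Measurable.ite (p := fun y => y ∈ Gset N n) (measurableSet_Gset hN n) ?_ measurable_const
  exact h0.add h1

theorem measurable_bk {N : ℕ} (hN : N0 ≤ N) (t : ℕ) : Measurable (bk N t) := by
  have h1 := (measurable_fst (α := Om) (β := ℝ × ℝ)).prodMk (measurable_bm_iter_hw hN t)
  exact h1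

/-- the rebased integrand as a function of the contents of one level-0 cell -/
theorem measurable_reb {N : ℕ} (hN : N0 ≤ N) (t : ℕ) {F : Yt → ℝ} (hF : Measurable F) (u φ : ℝ)
    (ω : Om) (i : ℕ) : Measurable (fun x : Fin 3 → ℝ => reb N t F u φ (upd ω 0 i x)) := by
  have hz : Measurable (fun ω : Om => ((ω, zin (hw N ω) u φ) : Yt)) :=
    measurable_id.prodMk (measurable_zin_hw hN u φ)
  have hdom : MeasurableSet {ω : Om | zin (hw N ω) u φ ∈ dom (hw N ω)} :=
    hz (measurableSet_dom_hw hN)
  have h1 := (measurable_pw_hw hN).comp hz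
  have h2 := hF.comp ((measurable_bk hN t).comp hz)
  have h4 : Measurable (reb N t F u φ) := by
    unfold reb
    refine Measurable.ite (p := fun ω => zin (hw N ω) u φ ∈ dom (hw N ω)) hdom ?_
      measurable_const
    exact h1.mul h2
  have h5 : Measurable (fun x : Fin 3 → ℝ => upd ω 0 i x) := by
    unfold upd
    exact measurable_update ω
  exact h4.comp h5

end

end BilEnt
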