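import Pool.Agent.BilEnt.B01Avg
import Pool.Agent.BilEnt.B05J
import Pool.Agent.BilEnt.B05Bd4
import Pool.Agent.BilEnt.B06Meas
import Pool.Agent.BilEnt.G10

/-!
# Part B, module B06Fib: the averaging inequality in one fibre
-/

open MeasureTheory Real

namespace BilEnt

noncomputable section

namespace B06FibAux

/-- the good event in terms of the contents of the cell -/
private def A (N n t : ℕ) (u φ : ℝ) (ω : Om) (x : Fin 3 → ℝ) : Prop :=
  zin (hw N (upd ω 0 (cidx N u) x)) u φ ∈ dom (hw N (upd ω 0 (cidx N u) x)) ∧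
    bk N t (upd ω 0 (cidx N u) x, zin (hw N (upd ω 0 (cidx N u) x)) u φ) ∈ Gset N n

private theorem pth_back {h : ℝ → ℝ} (hh : IsTab h) {z : ℝ × ℝ} (hz : z ∈ dom h) (t : ℕ) :
    pth h ((bm h)^[t] z) t = z := by
  rw [pth_bm_iter' hh hz le_rfl, Nat.sub_self]
  rfl

private theorem reb_ne {N n t : ℕ} {u φ : ℝ} {ω : Om} {x : Fin 3 → ℝ} {F : Yt → ℝ}
    (hF : ∀ y, F y ≠ 0 → y ∈ Gset N n)
    (h : reb N t F u φ (upd ω 0 (cidx N u) x) ≠ 0) : A N n t u φ ω x := by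
  unfold reb at h
  split_ifs at h with h1
  · exact ⟨h1, hF _ (right_ne_zero_of_mul h)⟩
  · exact absurd rfl h

private theorem Ph1_ne {N n t : ℕ} {ε : ℝ} (y : Yt) (h : Ph1 N n t ε y ≠ 0) : y ∈ Gset N n := by
  unfold Ph1 at h
  split_ifs at h with h1
  · exact h1
  · exact absurd rfl h

private theorem Ph2_ne {N n t : ℕ} {ε : ℝ} (y : Yt) (h : Ph2 N n t ε y ≠ 0) : y ∈ Gset N n := by
  unfold Ph2 at h
  split_ifs at h with h1
  · exact h1
  · exact absurd rfl h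

private theorem upd_same (ω : Om) (i : ℕ) (x : Fin 3 → ℝ) : upd ω 0 i x (0, i) = x := by
  unfold upd
  simp

private theorem mem_Eorb {N n t : ℕ} (hN : N0 ≤ N) (htn : t ≤ n) {u φ : ℝ} {ω : Om}
    {x : Fin 3 → ℝ} (h : A N n t u φ ω x) :
    x ∈ Eorb (cmpA N u (cidx N u)) (cmpB N u (cidx N u)) := by
  obtain ⟨h1, h2⟩ := h
  have hh := isTab_hw hN (upd ω 0 (cidx N u) x)
  have h3 := h2.2.2.2 t htn
  have h4 : pth (hw N (upd ω 0 (cidx N u) x))
      ((bm (hw N (upd ω 0 (cidx N u) x)))^[t] (zin (hw N (upd ω 0 (cidx N u) x)) u φ)) t =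
      zin (hw N (upd ω 0 (cidx N u) x)) u φ := pth_back hh h1 t
  have h5 : Inn N (upd ω 0 (cidx N u) x) u := by
    have := h3
    simp only [bk] at this
    rw [h4] at this
    exact this
  rw [inn_iff, upd_same] at h5
  exact h5

private theorem log_id {c Y ε : ℝ} (hc : 0 < c) (hε : 0 < ε) :
    log (c / 2) + Lf (2 * ε / c) Y = log (((-(c * Y)) ^ 2 + 4 * ε ^ 2) / 4) / 2 := by
  unfold Lf
  have h1 : log (c / 2) = log ((c / 2) ^ 2) / 2 := by
    rw [Real.log_pow]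
    push_cast
    ring
  have h2 : 0 < Y ^ 2 + (2 * ε / c) ^ 2 := by positivity
  rw [h1, ← add_div, ← Real.log_mul (by positivity) h2.ne']
  congr 2
  field_simp
  ring

end B06FibAux

open B06FibAux

/-- (B3) in one fibre: only the contents of the level-0 cell nearest to `u` are integrated.

PROOF. `i := cidx N u`, `a := cmpA N u i`, `b := cmpB N u i`, `F_k x := reb N t (Ph_k N n t ε) u φ (upd ω 0 i x)`.
`F_k` is measurable (measurability of `Ph_k`, of `(ω,u,φ) ↦ (bm (hw N ω))^[t] (zin (hw N ω) u φ)`, part R, and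
`measurable_update`) and bounded (`|pw| ≤ 2`, `Ph_k` bounded, `good_bdd`).
If `F_k x ≠ 0` then with `ω_x := upd ω 0 i x`, `h := hw N ω_x`, `z := (bm h)^[t] (zin h u φ)`:
`(ω_x, z) ∈ Gset N n`, `pth h z t = zin h u φ` (part G: `fm` and `bm` are inverse to each other on `dom`), so
`(pth h z t).1 = u` and `Inn N ω_x u`, i.e. `x ∈ Eorb a b` (`inn_iff`; `ω_x (0,i) = x`).  So
`∫ F_k dν = ∫_{Eorb} F_k dν`, and by `orb_avg` it suffices to prove for `x ∈ Eorb a b`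
`∫_{|p| ≤ 1} F₂ (orbc a b x p) ≤ ∫_{|p| ≤ 1} F₁ (orbc a b x p)`   (`comp0_eq`: `orbc a b x p = comp0 N u i x p`).
Case 1: for some `|q| ≤ 1` the point `x' = orbc a b x q` has `zin ∈ dom` and `(ω_{x'}, z') ∈ Gset`.  By
`orbc_orbc` we may replace `x` by `x'` (the orbit is the same), so assume it for `x` itself, with
`z = (bm h₁)^[t] (zin h₁ u φ)`.  By `inn_seg` for all `|p| ≤ 1`: `zin h₂ u φ = zin h₁ u φ` (`Th` agrees),
`pth h₂ z t = pth h₁ z t = zin h₁ u φ ∈ dom h₂`, so `(bm h₂)^[t] (zin h₂ u φ) = z` (left inverse), the density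
`pw h₂ (zin) = pw h₁ (zin) =: w > 0` and `HC` are the same, `(ω_p, z) ∈ Gset`; by `inn_J`
`F₁ (orbc x p) = w * Lf ε (U + V cos(N²u+πp) + W sin(N²u+πp))` with `V = -(HC * Y_t)`,
`F₂ (orbc x p) = w * (log (HC/2) + Lf (2ε/HC) Y_t)` constant. With `HC > 0` (`good_HC`)
`log (HC/2) + Lf (2ε/HC) Y_t = log ((V² + 4ε²)/4)/2`, and `avg_log_Icc` (times `w`) is the claim.
Case 2: no such `q`: both integrands vanish for all `|p| ≤ 1`. -/
theorem fibre_ineq : ∃ N1 : ℕ, ∀ N ≥ N1, ∀ (n t : ℕ), 1 ≤ t → t < n → ∀ ε : ℝ, 0 < ε →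
    ∀ (u φ : ℝ) (ω : Om),
    ∫ x, reb N t (Ph2 N n t ε) u φ (upd ω 0 (cidx N u) x) ∂nu ≤
      ∫ x, reb N t (Ph1 N n t ε) u φ (upd ω 0 (cidx N u) x) ∂nu := by
  obtain ⟨Na, ha⟩ := inn_seg
  obtain ⟨Nb, hb⟩ := inn_J
  obtain ⟨Nc, hc⟩ := good_bdd
  obtain ⟨Cd, -, Nd, hd⟩ := good_HC
  obtain ⟨Ce, -, Ne, he⟩ := good_bounds
  refine ⟨N0 + Na + Nb + Nc + Nd + Ne, fun N hN n t h1t htn ε hε u φ ω => ?_⟩
  have hN0 : N0 ≤ N := by omega
  replace ha := ha N (by omega)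
  replace hb := hb N (by omega)
  replace hc := hc N (by omega)
  replace hd := hd N (by omega)
  replace he := he N (by omega)
  have hn : 1 ≤ n := by omega
  -- the values on the good event
  have hval : ∀ (x : Fin 3 → ℝ) (z : ℝ × ℝ), (upd ω 0 (cidx N u) x, z) ∈ Gset N n →
      zin (hw N (upd ω 0 (cidx N u) x)) u φ = pth (hw N (upd ω 0 (cidx N u) x)) z t →
      ∀ F : Yt → ℝ, reb N t F u φ (upd ω 0 (cidx N u) x) =
        pw (hw N (upd ω 0 (cidx N u) x)) (pth (hw N (upd ω 0 (cidx N u) x)) z t) *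
          F (upd ω 0 (cidx N u) x, z) := by
    intro x z hz hzin F
    have hh := isTab_hw hN0 (upd ω 0 (cidx N u) x)
    have hzd : z ∈ dom (hw N (upd ω 0 (cidx N u) x)) := hz.1
    unfold reb
    rw [hzin, if_pos (pth_mem hh hzd t)]
    unfold bk
    rw [bm_pth_iter hh hzd le_rfl, Nat.sub_self]
    rfl
  have hAz : ∀ x, A N n t u φ ω x → ∃ z : ℝ × ℝ, (upd ω 0 (cidx N u) x, z) ∈ Gset N n ∧
      zin (hw N (upd ω 0 (cidx N u) x)) u φ = pth (hw N (upd ω 0 (cidx N u) x)) z t := by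
    intro x hx
    refine ⟨_, hx.2, ?_⟩
    exact (pth_back (isTab_hw hN0 _) hx.1 t).symm
  -- reduction to the set `Eorb`
  have hred : ∀ F : Yt → ℝ, (∀ y, F y ≠ 0 → y ∈ Gset N n) →
      ∫ x, reb N t F u φ (upd ω 0 (cidx N u) x) ∂nu =
        ∫ x in Eorb (cmpA N u (cidx N u)) (cmpB N u (cidx N u)),
          reb N t F u φ (upd ω 0 (cidx N u) x) ∂nu := by
    intro F hF
    refine (setIntegral_eq_integral_of_forall_compl_eq_zero fun x hx => ?_).symm
    by_contra h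
    exact hx (mem_Eorb hN0 htn.le (reb_ne hF h))
  rw [hred _ Ph1_ne, hred _ Ph2_ne]
  obtain ⟨B, hB⟩ := hc n hn ε hε
  have hpw : ∀ (x : Fin 3 → ℝ) (z : ℝ × ℝ), (upd ω 0 (cidx N u) x, z) ∈ Gset N n →
      0 < pw (hw N (upd ω 0 (cidx N u) x)) (pth (hw N (upd ω 0 (cidx N u) x)) z t) ∧
      pw (hw N (upd ω 0 (cidx N u) x)) (pth (hw N (upd ω 0 (cidx N u) x)) z t) ≤ 2 :=
    fun x z hz => (he n hn _ hz t htn.le _ _ rfl rfl).1
  refine orb_avg (cmpA N u (cidx N u)) (cmpB N u (cidx N u)) (continuous_ca N u _)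
    (continuous_cb N u _) (fun x => reb N t (Ph1 N n t ε) u φ (upd ω 0 (cidx N u) x))
    (fun x => reb N t (Ph2 N n t ε) u φ (upd ω 0 (cidx N u) x))
    (measurable_reb hN0 t (measurable_Ph1 hN0 n t ε) u φ ω _)
    (measurable_reb hN0 t (measurable_Ph2 hN0 n t ε) u φ ω _) (4 * |B|) ?_ ?_ ?_
  · intro x _
    by_cases h0 : reb N t (Ph1 N n t ε) u φ (upd ω 0 (cidx N u) x) = 0
    · rw [h0, abs_zero]
      positivity
    · obtain ⟨z, hz, hzin⟩ := hAz x (reb_ne Ph1_ne h0)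
      rw [hval x z hz hzin, abs_mul, abs_of_pos (hpw x z hz).1]
      have h1 : |Ph1 N n t ε (upd ω 0 (cidx N u) x, z)| ≤ |B| := by
        unfold Ph1
        rw [if_pos hz]
        exact (hB _ hz (t + 1) (by omega)).1.trans (le_abs_self B)
      have h2 := (hpw x z hz).2
      have h3 := (hpw x z hz).1
      have h4 := abs_nonneg (Ph1 N n t ε (upd ω 0 (cidx N u) x, z))
      nlinarith [abs_nonneg B]
  · intro x _
    by_cases h0 : reb N t (Ph2 N n t ε) u φ (upd ω 0 (cidx N u) x) = 0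
    · rw [h0, abs_zero]
      positivity
    · obtain ⟨z, hz, hzin⟩ := hAz x (reb_ne Ph2_ne h0)
      rw [hval x z hz hzin, abs_mul, abs_of_pos (hpw x z hz).1]
      have h1 : |Ph2 N n t ε (upd ω 0 (cidx N u) x, z)| ≤ 2 * |B| := by
        unfold Ph2
        rw [if_pos hz]
        obtain ⟨-, h5, h6, -⟩ := hB _ hz t htn.le
        refine (abs_add_le _ _).trans ?_
        have := le_abs_self B
        linarith
      have h2 := (hpw x z hz).2
      have h3 := (hpw x z hz).1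
      have h4 := abs_nonneg (Ph2 N n t ε (upd ω 0 (cidx N u) x, z))
      nlinarith [abs_nonneg B]
  -- the inequality on one orbit which starts at a good point
  have key : ∀ x ∈ Eorb (cmpA N u (cidx N u)) (cmpB N u (cidx N u)), A N n t u φ ω x →
      ∫ p in Set.Icc (-1 : ℝ) 1, reb N t (Ph2 N n t ε) u φ
        (upd ω 0 (cidx N u) (orbc (cmpA N u (cidx N u)) (cmpB N u (cidx N u)) x p)) ≤
      ∫ p in Set.Icc (-1 : ℝ) 1, reb N t (Ph1 N n t ε) u φ
        (upd ω 0 (cidx N u) (orbc (cmpA N u (cidx N u)) (cmpB N u (cidx N u)) x p)) := by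
    intro x hx hA
    obtain ⟨z, hz, hzin⟩ := hAz x hA
    have hu : (pth (hw N (upd ω 0 (cidx N u) x)) z t).1 = u := by rw [← hzin]; rfl
    obtain ⟨K, κ0, hseg⟩ := ha ω u x n t htn.le hx z hz hu
    obtain ⟨U, κ, hJ⟩ := hb ω u x n t h1t htn hx z hz hu
    have hcpos := (hd n hn _ hz t htn.le).1
    obtain ⟨h₁, e₁⟩ : ∃ h₁, h₁ = hw N (upd ω 0 (cidx N u) x) := ⟨_, rfl⟩
    obtain ⟨w, hw'⟩ : ∃ w, w = pw h₁ (pth h₁ z t) := ⟨_, rfl⟩
    obtain ⟨c, hc'⟩ : ∃ c, c = hl h₁ (pth h₁ z t) * Cam N h₁ (pth h₁ z t) := ⟨_, rfl⟩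
    obtain ⟨Y, hY⟩ : ∃ Y, Y = Jn h₁ z t := ⟨_, rfl⟩
    have hw0 : 0 < w := by
      rw [hw', e₁]
      exact (hpw x z hz).1
    have hc0 : 0 < c := by
      rw [hc', e₁]
      exact hcpos
    have hp : ∀ p ∈ Set.Icc (-1 : ℝ) 1,
        reb N t (Ph2 N n t ε) u φ
          (upd ω 0 (cidx N u) (orbc (cmpA N u (cidx N u)) (cmpB N u (cidx N u)) x p)) =
          w * (log (c / 2) + Lf (2 * ε / c) Y) ∧
        reb N t (Ph1 N n t ε) u φ
          (upd ω 0 (cidx N u) (orbc (cmpA N u (cidx N u)) (cmpB N u (cidx N u)) x p)) =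
          w * Lf ε (U + (-(c * Y)) * cos ((N : ℝ) ^ 2 * u + π * p) +
            (-(c * Y) * κ) * sin ((N : ℝ) ^ 2 * u + π * p)) := by
      intro p hp
      have hp1 : |p| ≤ 1 := abs_le.2 hp
      obtain ⟨sa, sb, sc, sd, -, -, sg, sh, -⟩ := hseg p hp1 h₁ _ e₁ rfl
      obtain ⟨j1, j2⟩ := hJ p hp1 h₁ _ e₁ rfl
      rw [comp0_eq] at sa sb sc sd sg sh j1 j2
      obtain ⟨x₂, hx₂⟩ : ∃ x₂, x₂ = orbc (cmpA N u (cidx N u)) (cmpB N u (cidx N u)) x p := ⟨_, rfl⟩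
      rw [← hx₂] at sa sb sc sd sg sh j1 j2 ⊢
      have hzin2 : zin (hw N (upd ω 0 (cidx N u) x₂)) u φ =
          pth (hw N (upd ω 0 (cidx N u) x₂)) z t := by
        rw [sb t htn.le, e₁, ← hzin]
        unfold zin
        rw [sh, e₁]
      have hHC : HC N (upd ω 0 (cidx N u) x₂, z) t = c := by
        unfold HC
        simp only
        rw [sb t htn.le, sd t htn, sg, ← hc']
      rw [hval x₂ z sa hzin2, hval x₂ z sa hzin2, sb t htn.le, sc t htn.le, ← hw']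
      refine ⟨?_, ?_⟩
      · unfold Ph2
        rw [if_pos sa, hHC]
        simp only
        rw [j1, ← hY]
      · unfold Ph1
        rw [if_pos sa]
        simp only
        rw [j2, ← hY, ← hc']
    rw [setIntegral_congr_fun measurableSet_Icc (fun p hp' => (hp p hp').1),
      setIntegral_congr_fun measurableSet_Icc (fun p hp' => (hp p hp').2),
      setIntegral_const, integral_const_mul, log_id hc0 hε]
    have h5 := avg_log_Icc U (-(c * Y)) (-(c * Y) * κ) ε ((N : ℝ) ^ 2 * u) hε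
    have h6 : (volume.real (Set.Icc (-1 : ℝ) 1)) = 2 := by
      rw [Real.volume_real_Icc_of_le (by norm_num)]
      norm_num
    rw [h6, smul_eq_mul]
    calc 2 * (w * (log (((-(c * Y)) ^ 2 + 4 * ε ^ 2) / 4) / 2)) =
        w * (2 * (log (((-(c * Y)) ^ 2 + 4 * ε ^ 2) / 4) / 2)) := by ring
      _ ≤ _ := mul_le_mul_of_nonneg_left h5 hw0.le
  intro x hx
  by_cases hq : ∃ q : ℝ, |q| ≤ 1 ∧
      A N n t u φ ω (orbc (cmpA N u (cidx N u)) (cmpB N u (cidx N u)) x q)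
  · obtain ⟨q, hq1, hq2⟩ := hq
    have := key _ (orbc_mem _ _ hx hq1) hq2
    simp only [orbc_orbc] at this
    exact this
  · push Not at hq
    have h0 : ∀ F : Yt → ℝ, (∀ y, F y ≠ 0 → y ∈ Gset N n) →
        ∫ p in Set.Icc (-1 : ℝ) 1, reb N t F u φ
          (upd ω 0 (cidx N u) (orbc (cmpA N u (cidx N u)) (cmpB N u (cidx N u)) x p)) = 0 := by
      intro F hF
      refine setIntegral_eq_zero_of_forall_eq_zero fun p hp => ?_
      by_contra h
      exact hq p (abs_le.2 hp) (reb_ne hF h)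
    rw [h0 _ Ph1_ne, h0 _ Ph2_ne]

end

end BilEnt
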