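import Pool.Agent.BilEnt.Defs
import Pool.Agent.BilEnt.R11

/-!
# MP_bd32bb_an, part R, module R12 (doc proof/MP_bd32bb_an_entropy)

HINT. `Pr_shift`: on the phase space `F(y.1, bm^m y.2) = F(TTi^m y)` for periodic `F`; invariance.  `rebase`: Tonelli; for fixed `ω,u` the inner integral over
`A ∈ (Th u, Th u + π)` is transformed by `A = 2 Th u - φ` (Lebesgue measure is invariant under `A ↦ c - A`).
-/

open MeasureTheory Real
open scoped ENNReal

namespace BilEnt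

/-- a function of the state that is invariant under the lift translation -/
def PerF {α : Type*} (N : ℕ) (F : Yt → α) : Prop :=
  ∀ (ω : Om) (z : ℝ × ℝ), z ∈ dom (hw N ω) → F (ω, z + tau) = F (ω, z)

namespace R12_aux

theorem perF_nat {N : ℕ} (hN : N0 ≤ N) {F : Yt → ℝ≥0∞} (hP : PerF N F) (ω : Om) (k : ℕ) :
    ∀ z ∈ dom (hw N ω), z + (2 * π * (k : ℝ), 2 * π * (k : ℝ)) ∈ dom (hw N ω) ∧
      F (ω, z + (2 * π * (k : ℝ), 2 * π * (k : ℝ))) = F (ω, z) := by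
  induction k with
  | zero =>
    intro z hz
    have : z + (2 * π * ((0 : ℕ) : ℝ), 2 * π * ((0 : ℕ) : ℝ)) = z := by
      ext <;> simp
    rw [this]
    exact ⟨hz, rfl⟩
  | succ k ih =>
    intro z hz
    obtain ⟨h1, h2⟩ := ih z hz
    have : z + (2 * π * ((k + 1 : ℕ) : ℝ), 2 * π * ((k + 1 : ℕ) : ℝ)) =
        z + (2 * π * (k : ℝ), 2 * π * (k : ℝ)) + tau := by
      unfold tau
      ext <;> simp <;> ring
    rw [this]
    exact ⟨(dom_add_tau (isTab_hw hN ω) _).2 h1, by rw [hP ω _ h1, h2]⟩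

theorem perF_int {N : ℕ} (hN : N0 ≤ N) {F : Yt → ℝ≥0∞} (hP : PerF N F) (ω : Om) (j : ℤ)
    {z : ℝ × ℝ} (hz : z ∈ dom (hw N ω)) (hz' : z - (2 * π * (j : ℝ), 2 * π * (j : ℝ)) ∈ dom (hw N ω)) :
    F (ω, z - (2 * π * (j : ℝ), 2 * π * (j : ℝ))) = F (ω, z) := by
  obtain ⟨k, rfl | rfl⟩ := j.eq_nat_or_neg
  · have h := (perF_nat hN hP ω k _ hz').2
    rw [← h]
    congr 2
    ext <;> simp
  · have h := (perF_nat hN hP ω k _ hz).2
    rw [← h]
    congr 2
    ext <;> simp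

/-- the skew product as a measurable equivalence -/
noncomputable def equivTT {N : ℕ} (hN : N0 ≤ N) : Yt ≃ᵐ Yt where
  toFun := TT N
  invFun := TTi N
  left_inv := TTi_TT hN
  right_inv := TT_TTi hN
  measurable_toFun := measurable_TT hN
  measurable_invFun := measurable_TTi hN

theorem mp_TTi {N : ℕ} (hN : N0 ≤ N) : MeasurePreserving (TTi N) (Pr N) (Pr N) :=
  MeasurePreserving.symm (equivTT hN) (mp_TT hN)

/-- interchange of three integrals -/
theorem swap3 {μ : Measure ℝ} [SFinite μ] (G : Om → ℝ → ℝ → ℝ≥0∞)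
    (hG : Measurable (fun p : Om × (ℝ × ℝ) => G p.1 p.2.1 p.2.2)) :
    ∫⁻ ω, ∫⁻ u, ∫⁻ φ, G ω u φ ∂volume ∂μ ∂PP = ∫⁻ u, ∫⁻ φ, ∫⁻ ω, G ω u φ ∂PP ∂volume ∂μ := by
  have h3 : Measurable (fun p : (Om × ℝ) × ℝ => G p.1.1 p.1.2 p.2) :=
    hG.comp (measurable_fst.fst.prodMk (measurable_fst.snd.prodMk measurable_snd))
  have h4 : Measurable (fun p : Om × ℝ => ∫⁻ φ, G p.1 p.2 φ) := h3.lintegral_prod_right'
  rw [lintegral_lintegral_swap (f := fun ω u => ∫⁻ φ, G ω u φ) h4.aemeasurable]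
  refine lintegral_congr fun u => ?_
  have h5 : Measurable (fun p : Om × ℝ => G p.1 u p.2) :=
    hG.comp (measurable_fst.prodMk (measurable_const.prodMk measurable_snd))
  exact lintegral_lintegral_swap (f := fun ω φ => G ω u φ) h5.aemeasurable

end R12_aux

open R12_aux

/-- stationarity for periodic functionals -/
theorem Pr_shift {N : ℕ} (hN : N0 ≤ N) {F : Yt → ℝ≥0∞} (hF : Measurable F) (hP : PerF N F)
    (m : ℕ) : ∫⁻ y, F (y.1, (bm (hw N y.1))^[m] y.2) ∂(Pr N) = ∫⁻ y, F y ∂(Pr N) := by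
  have h1 : ∫⁻ y, F (y.1, (bm (hw N y.1))^[m] y.2) ∂(Pr N) = ∫⁻ y, F ((TTi N)^[m] y) ∂(Pr N) := by
    refine lintegral_congr_ae ?_
    filter_upwards [ae_mem_X0 hN] with y hy
    obtain ⟨j, hj, hj'⟩ := TTi_iter hN hy m
    rw [hj] at hj' ⊢
    exact (perF_int hN hP y.1 j (bm_iter_mem (isTab_hw hN y.1) hy.1 m) hj'.1).symm
  rw [h1]
  exact ((mp_TTi hN).iterate m).lintegral_comp hF

theorem Pr_shift' {N : ℕ} (hN : N0 ≤ N) {F : Yt → ℝ≥0∞} (hF : Measurable F) (hP : PerF N F)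
    (m : ℕ) : ∫⁻ y, F (y.1, pth (hw N y.1) y.2 m) ∂(Pr N) = ∫⁻ y, F y ∂(Pr N) := by
  have h1 : ∫⁻ y, F (y.1, pth (hw N y.1) y.2 m) ∂(Pr N) = ∫⁻ y, F ((TT N)^[m] y) ∂(Pr N) := by
    refine lintegral_congr_ae ?_
    filter_upwards [ae_mem_X0 hN] with y hy
    obtain ⟨j, hj, hj'⟩ := TT_iter hN hy m
    rw [hj] at hj' ⊢
    exact (perF_int hN hP y.1 j (pth_mem (isTab_hw hN y.1) hy.1 m) hj'.1).symm
  rw [h1]
  exact ((mp_TT hN).iterate m).lintegral_comp hF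

open Classical in
/-- (R7): incoming coordinates. -/
theorem rebase {N : ℕ} (hN : N0 ≤ N) {F : Yt → ℝ≥0∞} (hF : Measurable F) :
    ∫⁻ y, F y ∂(Pr N) = ∫⁻ u in Set.Ico 0 (2 * π), ∫⁻ φ, ∫⁻ ω,
      (if zin (hw N ω) u φ ∈ dom (hw N ω) then
        ENNReal.ofReal (pw (hw N ω) (zin (hw N ω) u φ)) * F (ω, zin (hw N ω) u φ) else 0) ∂PP := by
  -- the integrand as a function on `Yt`
  have hK : Measurable (fun y : Yt => if y.2 ∈ dom (hw N y.1) then
      ENNReal.ofReal (pw (hw N y.1) y.2) * F y else 0) :=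
    Measurable.ite (measurableSet_dom_hw hN) ((measurable_pw_hw hN).ennreal_ofReal.mul hF)
      measurable_const
  have hG : Measurable (fun p : Om × (ℝ × ℝ) => if zin (hw N p.1) p.2.1 p.2.2 ∈ dom (hw N p.1) then
      ENNReal.ofReal (pw (hw N p.1) (zin (hw N p.1) p.2.1 p.2.2)) *
        F (p.1, zin (hw N p.1) p.2.1 p.2.2) else 0) := by
    have h1 : Measurable (fun p : Om × (ℝ × ℝ) => ((p.1, zin (hw N p.1) p.2.1 p.2.2) : Yt)) :=
      measurable_fst.prodMk (measurable_zin_hw' hN)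
    exact hK.comp h1
  have hin : ∀ ω : Om, ∀ u : ℝ,
      ∫⁻ A in Set.Ioo (Th (hw N ω) u) (Th (hw N ω) u + π),
        ENNReal.ofReal (pw (hw N ω) (u, A)) * F (ω, (u, A)) =
      ∫⁻ φ, (if zin (hw N ω) u φ ∈ dom (hw N ω) then
        ENNReal.ofReal (pw (hw N ω) (zin (hw N ω) u φ)) * F (ω, zin (hw N ω) u φ) else 0) := by
    intro ω u
    have h1 : (fun φ : ℝ => (if zin (hw N ω) u φ ∈ dom (hw N ω) then
        ENNReal.ofReal (pw (hw N ω) (zin (hw N ω) u φ)) * F (ω, zin (hw N ω) u φ) else 0)) =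
        fun φ => (fun A : ℝ => Set.indicator (Set.Ioo (Th (hw N ω) u) (Th (hw N ω) u + π))
          (fun A => ENNReal.ofReal (pw (hw N ω) (u, A)) * F (ω, (u, A))) A)
          (2 * Th (hw N ω) u - φ) := by
      funext φ
      by_cases hc : zin (hw N ω) u φ ∈ dom (hw N ω)
      · have hc' : 2 * Th (hw N ω) u - φ ∈ Set.Ioo (Th (hw N ω) u) (Th (hw N ω) u + π) := hc
        rw [if_pos hc]
        simp only [Set.indicator_of_mem hc']
        rfl
      · have hc' : 2 * Th (hw N ω) u - φ ∉ Set.Ioo (Th (hw N ω) u) (Th (hw N ω) u + π) := hc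
        rw [if_neg hc]
        simp only [Set.indicator_of_notMem hc']
    rw [h1, lintegral_sub_left_eq_self, lintegral_indicator measurableSet_Ioo]
  rw [Pr_lintegral hN hF]
  have h2 : ∀ ω : Om, ∫⁻ z, F (ω, z) ∂(mu (hw N ω)) = ∫⁻ u in Set.Ico 0 (2 * π), ∫⁻ φ,
      (if zin (hw N ω) u φ ∈ dom (hw N ω) then
        ENNReal.ofReal (pw (hw N ω) (zin (hw N ω) u φ)) * F (ω, zin (hw N ω) u φ) else 0) := by
    intro ω
    rw [mu_lintegral (isTab_hw hN ω) (F := fun z => F (ω, z)) (hF.comp measurable_prodMk_left)]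
    refine lintegral_congr fun u => ?_
    exact hin ω u
  rw [lintegral_congr h2]
  exact swap3 (fun ω u φ => if zin (hw N ω) u φ ∈ dom (hw N ω) then
      ENNReal.ofReal (pw (hw N ω) (zin (hw N ω) u φ)) * F (ω, zin (hw N ω) u φ) else 0) hG

end BilEnt
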