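import Pool.Agent.BilEnt.B06Def
import Pool.Agent.BilEnt.R12
import Pool.Agent.BilEnt.R03

/-!
# Part B, module B06Per: periodicity under the lift translation
-/

open MeasureTheory Real

namespace BilEnt

noncomputable section

theorem betaN_per {N : ℕ} (hN : 10 ≤ N) (u : ℝ) : betaN N (u + 2 * π) = betaN N u := by
  have hN0 : (N : ℝ) ≠ 0 := by
    have : 0 < N := by omega
    positivity
  have hpi : (2 * π) ≠ 0 := by positivity
  have h1 : (N : ℝ) * (u + 2 * π) / (2 * π) = (N : ℝ) * u / (2 * π) + ((N : ℤ) : ℝ) := by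
    push_cast
    field_simp
  have h2 : round ((N : ℝ) * (u + 2 * π) / (2 * π)) = round ((N : ℝ) * u / (2 * π)) + (N : ℤ) := by
    rw [h1, round_add_intCast]
  unfold betaN
  rw [h2]
  have h3 : (u + 2 * π - 2 * π * ((round ((N : ℝ) * u / (2 * π)) + (N : ℤ) : ℤ) : ℝ) / N) / 2 =
      (u - 2 * π * ((round ((N : ℝ) * u / (2 * π)) : ℤ) : ℝ) / N) / 2 := by
    push_cast
    field_simp
    ring
  rw [h3]

namespace B06PerAux

theorem cos_shift (N : ℕ) (u c : ℝ) :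
    cos ((N : ℝ) ^ 2 * (u + 2 * π) + c) = cos ((N : ℝ) ^ 2 * u + c) := by
  have h := Real.cos_add_nat_mul_two_pi ((N : ℝ) ^ 2 * u + c) (N ^ 2)
  rw [← h]
  congr 1
  push_cast
  ring

theorem sin_shift (N : ℕ) (u c : ℝ) :
    sin ((N : ℝ) ^ 2 * (u + 2 * π) + c) = sin ((N : ℝ) ^ 2 * u + c) := by
  have h := Real.sin_add_nat_mul_two_pi ((N : ℝ) ^ 2 * u + c) (N ^ 2)
  rw [← h]
  congr 1
  push_cast
  ring

theorem comp0_per (N : ℕ) (u : ℝ) (i : ℕ) (x : Fin 3 → ℝ) (p : ℝ) :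
    comp0 N (u + 2 * π) i x p = comp0 N u i x p := by
  have hc : cos (u + 2 * π - ctr N i) = cos (u - ctr N i) := by
    rw [show u + 2 * π - ctr N i = u - ctr N i + 2 * π by ring, Real.cos_add_two_pi]
  have hs : sin (u + 2 * π - ctr N i) = sin (u - ctr N i) := by
    rw [show u + 2 * π - ctr N i = u - ctr N i + 2 * π by ring, Real.sin_add_two_pi]
  unfold comp0
  rw [hc, hs, cos_shift, cos_shift, sin_shift, sin_shift]

theorem Ms_per {h : ℝ → ℝ} (hh : IsTab h) {z : ℝ × ℝ} (hz : z ∈ dom h) :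
    Ms h (z + tau) = Ms h z := by
  funext t
  unfold Ms
  rw [pth_add_tau hh hz, Mc_add_tau hh (pth_mem hh hz t)]

theorem ds_per_both (u w : ℝ) : ds (u + 2 * π) (w + 2 * π) = ds u w := by
  unfold ds
  rw [show (u + 2 * π - (w + 2 * π)) / 2 = (u - w) / 2 by ring]

theorem fst_add_tau (z : ℝ × ℝ) : (z + tau).1 = z.1 + 2 * π := rfl

end B06PerAux

open B06PerAux

/-- `cidx` is `2π`-periodic and `comp0` depends on `u` through `cos, sin` of `N² u + π p` and `u - ctr` -/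
theorem Inn_per {N : ℕ} (hN : 10 ≤ N) (ω : Om) (u : ℝ) : Inn N ω (u + 2 * π) ↔ Inn N ω u := by
  unfold Inn
  rw [cidx_per hN]
  simp only [comp0_per]

/-- all functionals of the orbit are periodic (`pth_add_tau`, `Mc_add_tau`, …) -/
theorem Jn_per {N : ℕ} (hN : N0 ≤ N) (ω : Om) {z : ℝ × ℝ} (hz : z ∈ dom (hw N ω)) (t : ℕ) :
    Jn (hw N ω) (z + tau) t = Jn (hw N ω) z t := by
  unfold Jn
  rw [Ms_per (isTab_hw hN ω) hz]

theorem HC_per {N : ℕ} (hN : N0 ≤ N) (ω : Om) {z : ℝ × ℝ} (hz : z ∈ dom (hw N ω)) (t : ℕ) :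
    HC N (ω, z + tau) t = HC N (ω, z) t := by
  have hh := isTab_hw hN ω
  have hp := pth_mem hh hz t
  have h10 : 10 ≤ N := N0_ge.trans hN
  show hl (hw N ω) (pth (hw N ω) (z + tau) t) * Cam N (hw N ω) (pth (hw N ω) (z + tau) t) =
    hl (hw N ω) (pth (hw N ω) z t) * Cam N (hw N ω) (pth (hw N ω) z t)
  rw [pth_add_tau hh hz, hl_add_tau hh hp]
  congr 1
  unfold Cam
  rw [pw_add_tau hh, fst_add_tau, betaN_per h10, deriv_per hh]

theorem Gset_per {N : ℕ} (hN : N0 ≤ N) (n : ℕ) (ω : Om) {z : ℝ × ℝ} (hz : z ∈ dom (hw N ω)) :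
    ((ω, z + tau) : Yt) ∈ Gset N n ↔ ((ω, z) : Yt) ∈ Gset N n := by
  have hh := isTab_hw hN ω
  have h10 : 10 ≤ N := N0_ge.trans hN
  have hp : ∀ t, pth (hw N ω) (z + tau) t = pth (hw N ω) z t + tau := fun t => pth_add_tau hh hz t
  have e1 : z + tau ∈ dom (hw N ω) ↔ z ∈ dom (hw N ω) := dom_add_tau hh z
  have e2 : Temp (hw N ω) (z + tau) (1 / (n : ℝ) ^ 3) n ↔ Temp (hw N ω) z (1 / (n : ℝ) ^ 3) n := by
    unfold Temp
    simp only [hp, stt_add_tau hh]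
  have e3 : Iso (hw N ω) (z + tau) (3 * dl N 0) n ↔ Iso (hw N ω) z (3 * dl N 0) n := by
    unfold Iso
    simp only [hp, fst_add_tau, ds_per_both]
  have e4 : (∀ t ≤ n, Inn N ω (pth (hw N ω) (z + tau) t).1) ↔
      ∀ t ≤ n, Inn N ω (pth (hw N ω) z t).1 := by
    simp only [hp, fst_add_tau, Inn_per h10]
  exact and_congr e1 (and_congr e2 (and_congr e3 e4))

theorem perF_Ph1 {N : ℕ} (hN : N0 ≤ N) (n t : ℕ) (ε : ℝ) : PerF N (Ph1 N n t ε) := by
  intro ω z hz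
  have h1 := Gset_per hN n ω hz
  have h2 := Jn_per hN ω hz (t + 1)
  unfold Ph1
  by_cases hG : ((ω, z) : Yt) ∈ Gset N n
  · rw [if_pos hG, if_pos (h1.2 hG)]
    show Lf ε (Jn (hw N ω) (z + tau) (t + 1)) = Lf ε (Jn (hw N ω) z (t + 1))
    rw [h2]
  · rw [if_neg hG, if_neg (fun h => hG (h1.1 h))]

theorem perF_Ph2 {N : ℕ} (hN : N0 ≤ N) (n t : ℕ) (ε : ℝ) : PerF N (Ph2 N n t ε) := by
  intro ω z hz
  have h1 := Gset_per hN n ω hz
  have h2 := Jn_per hN ω hz t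
  have h3 := HC_per hN ω hz t
  unfold Ph2
  by_cases hG : ((ω, z) : Yt) ∈ Gset N n
  · rw [if_pos hG, if_pos (h1.2 hG)]
    show log (HC N (ω, z + tau) t / 2) + Lf (2 * ε / HC N (ω, z + tau) t)
        (Jn (hw N ω) (z + tau) t) =
      log (HC N (ω, z) t / 2) + Lf (2 * ε / HC N (ω, z) t) (Jn (hw N ω) z t)
    rw [h2, h3]
  · rw [if_neg hG, if_neg (fun h => hG (h1.1 h))]

end

end BilEnt
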