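import Pool.Agent.BilEnt.Defs
import Pool.Agent.BilEnt.R12
import Pool.Agent.BilEnt.R09

/-!
# MP_bd32bb_an, part R, module R13 (doc proof/MP_bd32bb_an_entropy)

HINT. By `Pr_shift` with `F` = indicator of `S`: `Pr N S = ∫ F(y.1, bm^m y.2) dPr`; then `rebase`; for fixed `(u,φ)` use `lintegral_upd`/`PP_le_of_upd` with the cell `i = i(u)` given by `H`.
Weight `pw ≤ 1.02`; `zin ∈ dom` means `0 < Th u - φ < π`, so `φ` ranges over an interval of length `≤ π + 0.02`: total mass `≤ 2π·(π+0.02)·1.02 ≤ 25`.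
-/

open MeasureTheory Real
open scoped ENNReal

namespace BilEnt

/-! auxiliary facts -/

private lemma R13_pw_le {N : ℕ} (hN : N0 ≤ N) (ω : Om) (z : ℝ × ℝ) :
    pw (hw N ω) z ≤ 102 / 100 := by
  have h := sp_bounds (isTab_hw hN ω) z.1
  unfold pw stt
  have h1 := sin_le_one (z.2 - Th (hw N ω) z.1)
  nlinarith [h.1, h.2]

private lemma R13_pw_abs {N : ℕ} (hN : N0 ≤ N) (ω : Om) (z : ℝ × ℝ) :
    |pw (hw N ω) z| ≤ 102 / 100 := by
  have h := sp_bounds (isTab_hw hN ω) z.1
  unfold pw stt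
  have h1 := abs_sin_le_one (z.2 - Th (hw N ω) z.1)
  rw [abs_mul, abs_of_nonneg (by linarith [h.1] : 0 ≤ sp (hw N ω) z.1)]
  nlinarith [h.1, h.2, abs_nonneg (sin (z.2 - Th (hw N ω) z.1))]

private lemma R13_pw_nonneg {N : ℕ} (hN : N0 ≤ N) (ω : Om) {z : ℝ × ℝ}
    (hz : z ∈ dom (hw N ω)) : 0 ≤ pw (hw N ω) z := by
  have h := sp_bounds (isTab_hw hN ω) z.1
  have hz1 : Th (hw N ω) z.1 < z.2 := hz.1
  have hz2 : z.2 < Th (hw N ω) z.1 + π := hz.2
  have h1 : 0 ≤ sin (z.2 - Th (hw N ω) z.1) :=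
    sin_nonneg_of_nonneg_of_le_pi (by linarith) (by linarith)
  unfold pw stt
  exact mul_nonneg (by linarith [h.1]) h1

private lemma R13_phi {N : ℕ} (hN : N0 ≤ N) (ω : Om) {u φ : ℝ}
    (hz : zin (hw N ω) u φ ∈ dom (hw N ω)) :
    φ ∈ Set.Icc (u - π / 2 - 1 / 100) (u + π / 2 + 1 / 100) := by
  have h1 : Th (hw N ω) u < 2 * Th (hw N ω) u - φ := hz.1
  have h2 : 2 * Th (hw N ω) u - φ < Th (hw N ω) u + π := hz.2
  have h3 := abs_le.mp (Th_near (isTab_hw hN ω) u)
  constructor
  · linarith [h3.1]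
  · linarith [h3.2]

private lemma R13_meas_state {N : ℕ} (hN : N0 ≤ N) (u φ : ℝ) :
    Measurable (fun ω : Om => ((ω, zin (hw N ω) u φ) : Yt)) :=
  measurable_id.prodMk (measurable_zin_hw hN u φ)

private lemma R13_meas_shift {N : ℕ} (hN : N0 ≤ N) (m : ℕ) :
    Measurable (fun y : Yt => ((y.1, (bm (hw N y.1))^[m] y.2) : Yt)) :=
  measurable_fst.prodMk (measurable_bm_iter_hw hN m)

private lemma R13_meas_iter_gen {N : ℕ} (hN : N0 ≤ N) (m : ℕ) {f : Om → Yt}
    (hf : Measurable f) :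
    Measurable (fun ω : Om => (((f ω).1, (bm (hw N (f ω).1))^[m] (f ω).2) : Yt)) :=
  (R13_meas_shift hN m).comp hf

private lemma R13_meas_iter_state {N : ℕ} (hN : N0 ≤ N) (m : ℕ) (u φ : ℝ) :
    Measurable (fun ω : Om => ((ω, (bm (hw N ω))^[m] (zin (hw N ω) u φ)) : Yt)) :=
  R13_meas_iter_gen hN m (R13_meas_state hN u φ)

private lemma R13_comp {D : Yt → ℝ} (hD : Measurable D) {f : Om → Yt} (hf : Measurable f) :
    Measurable (fun ω : Om => D (f ω)) := hD.comp hf

private lemma R13_meas_D_state {N : ℕ} (hN : N0 ≤ N) {D : Yt → ℝ} (hD : Measurable D) (m : ℕ)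
    (u φ : ℝ) :
    Measurable (fun ω : Om => D (ω, (bm (hw N ω))^[m] (zin (hw N ω) u φ))) :=
  R13_comp hD (R13_meas_iter_state hN m u φ)

private lemma R13_meas_pw_state {N : ℕ} (hN : N0 ≤ N) (u φ : ℝ) :
    Measurable (fun ω : Om => pw (hw N ω) (zin (hw N ω) u φ)) := by
  have h := (measurable_pw_hw hN).comp (R13_meas_state hN u φ)
  simp only [Function.comp_def] at h
  exact h

private lemma R13_total : ENNReal.ofReal (2 * π) * (ENNReal.ofReal (π + 1 / 50) *
    ENNReal.ofReal (102 / 100)) ≤ ENNReal.ofReal 25 := by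
  have hπ := pi_pos
  have hπ2 := pi_lt_d2
  rw [← ENNReal.ofReal_mul (by positivity), ← ENNReal.ofReal_mul (by positivity)]
  refine ENNReal.ofReal_le_ofReal ?_
  nlinarith

/-- MASTER BOUND: rebase at time `m` and resample one cell of level `q` (which cell may depend on
everything else).  `S` is an event about the orbit started at time `0`. -/
theorem master_bound {N : ℕ} (hN : N0 ≤ N) {S : Set Yt} (hS : MeasurableSet S)
    (hP : PerF N (fun y => y ∈ S)) (m q : ℕ) {b : ℝ} (hb : 0 ≤ b)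
    (H : ∀ u : ℝ, ∃ i < nc N q, ∀ (ω : Om) (φ : ℝ),
      nu {x | zin (hw N (upd ω q i x)) u φ ∈ dom (hw N (upd ω q i x)) ∧
        (upd ω q i x, (bm (hw N (upd ω q i x)))^[m] (zin (hw N (upd ω q i x)) u φ)) ∈ S} ≤
          ENNReal.ofReal b) :
    Pr N S ≤ ENNReal.ofReal (25 * b) := by
  classical
  have hF : Measurable (S.indicator (fun _ : Yt => (1 : ℝ≥0∞))) :=
    measurable_const.indicator hS
  have hPF : PerF N (S.indicator (fun _ : Yt => (1 : ℝ≥0∞))) := by
    intro ω z hz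
    have h1 : ((ω, z + tau) ∈ S) = ((ω, z) ∈ S) := hP ω z hz
    by_cases h2 : ((ω, z) : Yt) ∈ S
    · have h3 : ((ω, z + tau) : Yt) ∈ S := by rw [h1]; exact h2
      rw [Set.indicator_of_mem h2, Set.indicator_of_mem h3]
    · have h3 : ((ω, z + tau) : Yt) ∉ S := by rw [h1]; exact h2
      rw [Set.indicator_of_notMem h2, Set.indicator_of_notMem h3]
  have e1 : Pr N S = ∫⁻ y, S.indicator (fun _ : Yt => (1 : ℝ≥0∞)) y ∂(Pr N) := by
    rw [lintegral_indicator hS]; simp
  rw [e1, ← Pr_shift hN hF hPF m]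
  have hF' : Measurable (fun y : Yt =>
      S.indicator (fun _ : Yt => (1 : ℝ≥0∞)) (y.1, (bm (hw N y.1))^[m] y.2)) :=
    hF.comp (R13_meas_shift hN m)
  rw [rebase hN hF']
  -- pointwise bound in `u` and `φ`
  have key : ∀ u φ : ℝ, (∫⁻ ω, (if zin (hw N ω) u φ ∈ dom (hw N ω) then
        ENNReal.ofReal (pw (hw N ω) (zin (hw N ω) u φ)) *
          S.indicator (fun _ : Yt => (1 : ℝ≥0∞)) (ω, (bm (hw N ω))^[m] (zin (hw N ω) u φ))
        else 0) ∂PP) ≤
      (Set.Icc (u - π / 2 - 1 / 100) (u + π / 2 + 1 / 100)).indicator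
        (fun _ => ENNReal.ofReal (102 / 100) * ENNReal.ofReal b) φ := by
    intro u φ
    by_cases hφ : φ ∈ Set.Icc (u - π / 2 - 1 / 100) (u + π / 2 + 1 / 100)
    · rw [Set.indicator_of_mem hφ]
      obtain ⟨i, hi, Hi⟩ := H u
      set A : Set Om := {ω | zin (hw N ω) u φ ∈ dom (hw N ω) ∧
        ((ω, (bm (hw N ω))^[m] (zin (hw N ω) u φ)) : Yt) ∈ S} with hA
      have hAm : MeasurableSet A := by
        have h1 : MeasurableSet {y : Yt | y.2 ∈ dom (hw N y.1)} := measurableSet_dom_hw hN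
        have h2 : MeasurableSet {y : Yt | ((y.1, (bm (hw N y.1))^[m] y.2) : Yt) ∈ S} :=
          (R13_meas_shift hN m) hS
        exact (R13_meas_state hN u φ) (h1.inter h2)
      have hPPA : PP A ≤ ENNReal.ofReal b := PP_le_of_upd q i hAm fun ω => Hi ω φ
      calc _ ≤ ∫⁻ ω, A.indicator (fun _ => ENNReal.ofReal (102 / 100)) ω ∂PP := by
            refine lintegral_mono fun ω => ?_
            by_cases h1 : zin (hw N ω) u φ ∈ dom (hw N ω)
            · by_cases h2 : ((ω, (bm (hw N ω))^[m] (zin (hw N ω) u φ)) : Yt) ∈ S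
              · have h3 : ω ∈ A := ⟨h1, h2⟩
                simp only [h1, if_true, Set.indicator_of_mem h2, Set.indicator_of_mem h3, mul_one]
                exact ENNReal.ofReal_le_ofReal (R13_pw_le hN ω _)
              · simp only [Set.indicator_of_notMem h2, mul_zero, ite_self]
                exact zero_le
            · simp only [h1, if_false]
              exact zero_le
        _ = ENNReal.ofReal (102 / 100) * PP A := by
            rw [lintegral_indicator hAm, lintegral_const, Measure.restrict_apply MeasurableSet.univ,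
              Set.univ_inter]
        _ ≤ ENNReal.ofReal (102 / 100) * ENNReal.ofReal b := mul_le_mul_right hPPA _
    · rw [Set.indicator_of_notMem hφ]
      refine le_of_eq ?_
      rw [lintegral_eq_zero_of_ae_eq_zero]
      refine Filter.Eventually.of_forall fun ω => ?_
      have h1 : zin (hw N ω) u φ ∉ dom (hw N ω) := fun h => hφ (R13_phi hN ω h)
      simp only [h1, if_false, Pi.zero_apply]
  calc _ ≤ ∫⁻ u in Set.Ico 0 (2 * π), ∫⁻ φ,
        (Set.Icc (u - π / 2 - 1 / 100) (u + π / 2 + 1 / 100)).indicator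
          (fun _ => ENNReal.ofReal (102 / 100) * ENNReal.ofReal b) φ := by
        refine lintegral_mono fun u => lintegral_mono fun φ => key u φ
    _ = ∫⁻ _u in Set.Ico (0 : ℝ) (2 * π),
        ENNReal.ofReal (102 / 100) * ENNReal.ofReal b * ENNReal.ofReal (π + 1 / 50) := by
        refine lintegral_congr fun u => ?_
        rw [lintegral_indicator measurableSet_Icc, lintegral_const,
          Measure.restrict_apply MeasurableSet.univ, Set.univ_inter, Real.volume_Icc]
        congr 2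
        ring
    _ = ENNReal.ofReal (102 / 100) * ENNReal.ofReal b * ENNReal.ofReal (π + 1 / 50) *
        ENNReal.ofReal (2 * π) := by
        rw [lintegral_const, Measure.restrict_apply MeasurableSet.univ, Set.univ_inter,
          Real.volume_Ico, sub_zero]
    _ = ENNReal.ofReal (2 * π) * (ENNReal.ofReal (π + 1 / 50) *
        ENNReal.ofReal (102 / 100)) * ENNReal.ofReal b := by ring
    _ ≤ ENNReal.ofReal 25 * ENNReal.ofReal b := mul_le_mul_left R13_total _
    _ = ENNReal.ofReal (25 * b) := (ENNReal.ofReal_mul (by norm_num)).symm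

open Classical in
/-- signed version -/
theorem master_nonneg {N : ℕ} (hN : N0 ≤ N) {D : Yt → ℝ} (hD : Measurable D)
    (hB : ∃ B, ∀ y, |D y| ≤ B) (hP : PerF N D) (m q : ℕ)
    (H : ∀ u : ℝ, ∃ i < nc N q, ∀ (ω : Om) (φ : ℝ),
      0 ≤ ∫ x, (if zin (hw N (upd ω q i x)) u φ ∈ dom (hw N (upd ω q i x)) then
        pw (hw N (upd ω q i x)) (zin (hw N (upd ω q i x)) u φ) *
          D (upd ω q i x, (bm (hw N (upd ω q i x)))^[m] (zin (hw N (upd ω q i x)) u φ))
        else 0) ∂nu) :
    0 ≤ ∫ y, D y ∂(Pr N) := by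
  obtain ⟨B, hB⟩ := hB
  have hfin := finite_Pr hN
  have hDi : Integrable D (Pr N) :=
    Integrable.of_bound hD.aestronglyMeasurable B (Filter.Eventually.of_forall fun y => hB y)
  -- both parts in the rebased coordinates
  have hre : ∀ E : Yt → ℝ, Measurable E → PerF N E →
      ∫⁻ y, ENNReal.ofReal (E y) ∂(Pr N) = ∫⁻ u in Set.Ico 0 (2 * π), ∫⁻ φ, ∫⁻ ω,
        (if zin (hw N ω) u φ ∈ dom (hw N ω) then
          ENNReal.ofReal (pw (hw N ω) (zin (hw N ω) u φ)) *
            ENNReal.ofReal (E (ω, (bm (hw N ω))^[m] (zin (hw N ω) u φ))) else 0) ∂PP := by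
    intro E hE hPE
    have hEm : Measurable (fun y : Yt => ENNReal.ofReal (E y)) := hE.ennreal_ofReal
    have hPE' : PerF N (fun y : Yt => ENNReal.ofReal (E y)) := by
      intro ω z hz
      have := hPE ω z hz
      simp only [this]
    rw [← Pr_shift hN hEm hPE' m]
    have hF' : Measurable (fun y : Yt => ENNReal.ofReal (E (y.1, (bm (hw N y.1))^[m] y.2))) :=
      hEm.comp (R13_meas_shift hN m)
    rw [rebase hN hF']
  have hneg : PerF N (fun y => -D y) := by
    intro ω z hz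
    have := hP ω z hz
    simp only [this]
  have key : ∫⁻ y, ENNReal.ofReal (-D y) ∂(Pr N) ≤ ∫⁻ y, ENNReal.ofReal (D y) ∂(Pr N) := by
    rw [hre D hD hP, hre (fun y => -D y) hD.neg hneg]
    refine lintegral_mono fun u => lintegral_mono fun φ => ?_
    obtain ⟨i, hi, Hi⟩ := H u
    set G : Om → ℝ := fun ω => if zin (hw N ω) u φ ∈ dom (hw N ω) then
      pw (hw N ω) (zin (hw N ω) u φ) * D (ω, (bm (hw N ω))^[m] (zin (hw N ω) u φ)) else 0 with hG
    have hdom : MeasurableSet {ω : Om | zin (hw N ω) u φ ∈ dom (hw N ω)} :=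
      (R13_meas_state hN u φ) (measurableSet_dom_hw hN)
    have hDs : Measurable (fun ω : Om => D (ω, (bm (hw N ω))^[m] (zin (hw N ω) u φ))) :=
      R13_meas_D_state hN hD m u φ
    have hps : Measurable (fun ω : Om => pw (hw N ω) (zin (hw N ω) u φ)) :=
      R13_meas_pw_state hN u φ
    have hGm : Measurable G := Measurable.ite hdom (hps.mul hDs) measurable_const
    have hB0 : 0 ≤ B := (abs_nonneg _).trans (hB (fun _ _ => 0, (0, 0)))
    have hGB : ∀ ω, |G ω| ≤ 102 / 100 * B := by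
      intro ω
      simp only [hG]
      split_ifs with h1
      · rw [abs_mul]
        exact mul_le_mul (R13_pw_abs hN ω _) (hB _) (abs_nonneg _) (by norm_num)
      · rw [abs_zero]; positivity
    have hGi : Integrable G PP :=
      Integrable.of_bound hGm.aestronglyMeasurable _ (Filter.Eventually.of_forall fun ω => hGB ω)
    have hpos : 0 ≤ ∫ ω, G ω ∂PP := by
      rw [integral_upd q i hGm ⟨_, hGB⟩]
      exact integral_nonneg fun ω => Hi ω φ
    have e1 : ∀ ω, ENNReal.ofReal (G ω) = (if zin (hw N ω) u φ ∈ dom (hw N ω) then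
        ENNReal.ofReal (pw (hw N ω) (zin (hw N ω) u φ)) *
          ENNReal.ofReal (D (ω, (bm (hw N ω))^[m] (zin (hw N ω) u φ))) else 0) := by
      intro ω
      simp only [hG]
      split_ifs with h1
      · exact ENNReal.ofReal_mul (R13_pw_nonneg hN ω h1)
      · exact ENNReal.ofReal_zero
    have e2 : ∀ ω, ENNReal.ofReal (-G ω) = (if zin (hw N ω) u φ ∈ dom (hw N ω) then
        ENNReal.ofReal (pw (hw N ω) (zin (hw N ω) u φ)) *
          ENNReal.ofReal (-D (ω, (bm (hw N ω))^[m] (zin (hw N ω) u φ))) else 0) := by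
      intro ω
      simp only [hG]
      split_ifs with h1
      · rw [← mul_neg]
        exact ENNReal.ofReal_mul (R13_pw_nonneg hN ω h1)
      · rw [neg_zero]
        exact ENNReal.ofReal_zero
    have h3 := integral_eq_lintegral_pos_part_sub_lintegral_neg_part hGi
    simp only [e1, e2] at h3
    have hfinite : ∀ E : Om → ℝ, (∀ ω, E ω ≤ 102 / 100 * B) →
        ∫⁻ ω, ENNReal.ofReal (E ω) ∂PP < ⊤ := by
      intro E hE
      calc ∫⁻ ω, ENNReal.ofReal (E ω) ∂PP ≤ ∫⁻ _ω, ENNReal.ofReal (102 / 100 * B) ∂PP :=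
            lintegral_mono fun ω => ENNReal.ofReal_le_ofReal (hE ω)
        _ = ENNReal.ofReal (102 / 100 * B) := by simp
        _ < ⊤ := ENNReal.ofReal_lt_top
    have f1 := hfinite G fun ω => (le_abs_self _).trans (hGB ω)
    have f2 := hfinite (fun ω => -G ω) fun ω => (neg_le_abs _).trans (hGB ω)
    simp only [e1] at f1
    simp only [e2] at f2
    rw [h3] at hpos
    exact (ENNReal.toReal_le_toReal f2.ne f1.ne).mp (by linarith)
  rw [integral_eq_lintegral_pos_part_sub_lintegral_neg_part hDi]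
  have f1 : ∫⁻ y, ENNReal.ofReal (D y) ∂(Pr N) < ⊤ := by
    calc ∫⁻ y, ENNReal.ofReal (D y) ∂(Pr N) ≤ ∫⁻ _y, ENNReal.ofReal B ∂(Pr N) :=
          lintegral_mono fun y => ENNReal.ofReal_le_ofReal ((le_abs_self _).trans (hB y))
      _ = ENNReal.ofReal B * Pr N Set.univ := lintegral_const _
      _ < ⊤ := ENNReal.mul_lt_top ENNReal.ofReal_lt_top (measure_lt_top _ _)
  have f2 : ∫⁻ y, ENNReal.ofReal (-D y) ∂(Pr N) < ⊤ := lt_of_le_of_lt key f1
  have := (ENNReal.toReal_le_toReal f2.ne f1.ne).mpr key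
  linarith

end BilEnt
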