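import Pool.Agent.BilEnt.B06Fib
import Pool.Agent.BilEnt.B06Per
import Pool.Agent.BilEnt.R13

/-!
# Part B, module B07Reb: (B3), integration of the fibre inequality
-/

open MeasureTheory Real

namespace BilEnt

noncomputable section

namespace B07RebAux

lemma pw_abs_le {h : ℝ → ℝ} (hh : IsTab h) (z : ℝ × ℝ) : |pw h z| ≤ 2 := by
  obtain ⟨h1, h2⟩ := sp_bounds hh z.1
  have h3 : |stt h z| ≤ 1 := abs_sin_le_one _
  unfold pw
  rw [abs_mul, abs_of_nonneg (by linarith : (0 : ℝ) ≤ sp h z.1)]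
  calc sp h z.1 * |stt h z| ≤ 102 / 100 * 1 := by
        have := abs_nonneg (stt h z)
        apply mul_le_mul h2 h3 this (by norm_num)
    _ ≤ 2 := by norm_num

lemma reb_abs_le {N : ℕ} (hN : N0 ≤ N) (t : ℕ) {F : Yt → ℝ} {B : ℝ} (hB : ∀ y, |F y| ≤ B)
    (u φ : ℝ) (ω : Om) : |reb N t F u φ ω| ≤ 2 * B := by
  have hB0 : 0 ≤ B := (abs_nonneg _).trans (hB (ω, (0, 0)))
  unfold reb
  split_ifs with h
  · rw [abs_mul]
    exact mul_le_mul (pw_abs_le (isTab_hw hN ω) _) (hB _) (abs_nonneg _) (by norm_num)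
  · rw [abs_zero]; positivity

lemma integrable_reb {N : ℕ} (hN : N0 ≤ N) (t : ℕ) {F : Yt → ℝ} (hF : Measurable F) {B : ℝ}
    (hB : ∀ y, |F y| ≤ B) (u φ : ℝ) (ω : Om) (i : ℕ) :
    Integrable (fun x : Fin 3 → ℝ => reb N t F u φ (upd ω 0 i x)) nu := by
  refine Integrable.of_bound (measurable_reb hN t hF u φ ω i).aestronglyMeasurable (2 * B) ?_
  exact Filter.Eventually.of_forall fun x => reb_abs_le hN t hB u φ _

lemma Ph1_ind (N n t : ℕ) (ε : ℝ) : Ph1 N n t ε =
    (Gset N n).indicator (fun y => Lf ε (Jn (hw N y.1) y.2 (t + 1))) := by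
  funext y
  by_cases h : y ∈ Gset N n
  · rw [Set.indicator_of_mem h, Ph1, if_pos h]
  · rw [Set.indicator_of_notMem h, Ph1, if_neg h]

lemma Ph2_ind (N n t : ℕ) (ε : ℝ) : Ph2 N n t ε =
    (Gset N n).indicator (fun y => log (HC N y t / 2) +
      Lf (2 * ε / HC N y t) (Jn (hw N y.1) y.2 t)) := by
  funext y
  by_cases h : y ∈ Gset N n
  · rw [Set.indicator_of_mem h, Ph2, if_pos h]
  · rw [Set.indicator_of_notMem h, Ph2, if_neg h]

end B07RebAux

open B07RebAux

/-- (B3).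

PROOF. `D := Ph1 N n t ε - Ph2 N n t ε` is measurable (`measurable_Ph1`, `measurable_Ph2`), bounded
(`good_bdd`; both vanish off `Gset`), periodic (`perF_Ph1`, `perF_Ph2`). `master_nonneg` (R13) with `m = t`,
`q = 0`, `i = cidx N u < N = nc N 0` (`cidx_lt`) gives `0 ≤ ∫ D dPr`: its hypothesis is `fibre_ineq`
(`∫ reb (Ph1 - Ph2) dν = ∫ reb Ph1 dν - ∫ reb Ph2 dν`, both integrable: bounded and measurable by
`measurable_reb`, `nu` a probability measure). The two sides of the claim are `∫ Ph2 dPr`, `∫ Ph1 dPr`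
(`integral_indicator`, `measurableSet_Gset`). -/
theorem B3_ineq : ∃ N1 : ℕ, ∀ N ≥ N1, ∀ (n t : ℕ), 1 ≤ t → t < n → ∀ ε : ℝ, 0 < ε →
    ∫ y in Gset N n, (log (HC N y t / 2) + Lf (2 * ε / HC N y t) (Jn (hw N y.1) y.2 t)) ∂(Pr N) ≤
      ∫ y in Gset N n, Lf ε (Jn (hw N y.1) y.2 (t + 1)) ∂(Pr N) := by
  obtain ⟨Nf, hf⟩ := fibre_ineq
  obtain ⟨Nb, hb⟩ := good_bdd
  refine ⟨max Nf (max Nb N0), ?_⟩
  intro N hN n t ht htn ε hε
  have hNf : Nf ≤ N := (le_max_left _ _).trans hN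
  have hNb : Nb ≤ N := (le_max_left _ _).trans ((le_max_right _ _).trans hN)
  have hN0 : N0 ≤ N := (le_max_right _ _).trans ((le_max_right _ _).trans hN)
  have hN10 : 10 ≤ N := N0_ge.trans hN0
  obtain ⟨B, hB⟩ := hb N hNb n (by omega) ε hε
  have b1 : ∀ y, |Ph1 N n t ε y| ≤ |B| := by
    intro y
    by_cases h : y ∈ Gset N n
    · rw [Ph1, if_pos h]
      exact (hB y h (t + 1) (by omega)).1.trans (le_abs_self B)
    · rw [Ph1, if_neg h, abs_zero]; exact abs_nonneg B
  have b2 : ∀ y, |Ph2 N n t ε y| ≤ 2 * |B| := by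
    intro y
    by_cases h : y ∈ Gset N n
    · rw [Ph2, if_pos h]
      obtain ⟨-, h2, h3, -⟩ := hB y h t (by omega)
      have := le_abs_self B
      calc |log (HC N y t / 2) + Lf (2 * ε / HC N y t) (Jn (hw N y.1) y.2 t)|
          ≤ |log (HC N y t / 2)| + |Lf (2 * ε / HC N y t) (Jn (hw N y.1) y.2 t)| := abs_add_le _ _
        _ ≤ 2 * |B| := by linarith
    · rw [Ph2, if_neg h, abs_zero]; positivity
  have m1 := measurable_Ph1 hN0 n t ε
  have m2 := measurable_Ph2 hN0 n t ε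
  have hpos : 0 ≤ ∫ y, (Ph1 N n t ε y - Ph2 N n t ε y) ∂(Pr N) := by
    refine master_nonneg hN0 (m1.sub m2) ⟨3 * |B|, fun y => ?_⟩ ?_ t 0 ?_
    · have h1 := abs_le.mp (b1 y)
      have h2 := abs_le.mp (b2 y)
      rw [abs_le]
      constructor <;> linarith [h1.1, h1.2, h2.1, h2.2]
    · intro ω z hz
      simp only [perF_Ph1 hN0 n t ε ω z hz, perF_Ph2 hN0 n t ε ω z hz]
    · intro u
      refine ⟨cidx N u, ?_, ?_⟩
      · have := cidx_lt hN10 u
        simpa [nc] using this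
      · intro ω φ
        have h1 := hf N hNf n t ht htn ε hε u φ ω
        have i1 := integrable_reb hN0 t m1 b1 u φ ω (cidx N u)
        have i2 := integrable_reb hN0 t m2 b2 u φ ω (cidx N u)
        have h2 : 0 ≤ ∫ x, (reb N t (Ph1 N n t ε) u φ (upd ω 0 (cidx N u) x) -
            reb N t (Ph2 N n t ε) u φ (upd ω 0 (cidx N u) x)) ∂nu := by
          rw [integral_sub i1 i2]
          linarith
        refine h2.trans (le_of_eq ?_)
        congr 1
        funext x
        unfold reb bk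
        split_ifs with hd
        · rw [← mul_sub]
        · simp
  have := finite_Pr hN0
  have I1 : Integrable (Ph1 N n t ε) (Pr N) :=
    Integrable.of_bound m1.aestronglyMeasurable |B| (Filter.Eventually.of_forall b1)
  have I2 : Integrable (Ph2 N n t ε) (Pr N) :=
    Integrable.of_bound m2.aestronglyMeasurable (2 * |B|) (Filter.Eventually.of_forall b2)
  rw [integral_sub I1 I2, Ph1_ind, Ph2_ind, integral_indicator (measurableSet_Gset hN0 n),
    integral_indicator (measurableSet_Gset hN0 n)] at hpos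
  linarith

end

end BilEnt
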