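import Pool.Agent.BilEnt.B07Reb

/-!
# Part B, module B08Tel: iteration of (B3)
-/

open MeasureTheory Real

namespace BilEnt

noncomputable section

namespace B08TelAux

/-- measurability facts (part R) -/
theorem meas_all : ∃ N1 : ℕ, ∀ N ≥ N1, IsFiniteMeasure (Pr N) ∧
    (∀ n, MeasurableSet (Gset N n)) ∧
    (∀ t, Measurable (fun y : Yt => Jn (hw N y.1) y.2 t)) ∧
    (∀ t, Measurable (fun y : Yt => HC N y t)) ∧
    Measurable (fun y : Yt => hl (hw N y.1) y.2) :=
  ⟨N0, fun _ hN => ⟨finite_Pr hN, fun n => measurableSet_Gset hN n,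
    fun t => measurable_Jn hN t, fun t => measurable_HC hN t, measurable_hl_hw hN⟩⟩

lemma measurable_Lf : Measurable (fun p : ℝ × ℝ => Lf p.1 p.2) := by
  unfold Lf
  fun_prop

end B08TelAux

open B08TelAux in
/-- PROOF. Let `R := C n³ ≥ 1` with `HC N y t ≤ R` on the good set (`good_HC`). Claim, by induction on `t`,
`1 ≤ t ≤ n`, for all `ε > 0`:
`∑_{j ∈ Ico 1 t} ∫_G log (HC j / 2) + ∫_G Lf (ε / R^(t-1)) (Jn 1) ≤ ∫_G Lf ε (Jn t)`.
`t = 1` is trivial. Step `t → t+1 ≤ n`: by `B3_ineq` and `2 ε / HC ≥ ε / R` (`Lf_mono_eps`)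
`∫_G Lf ε (Jn (t+1)) ≥ ∫_G log (HC t / 2) + ∫_G Lf (ε/R) (Jn t)`, then the induction hypothesis with `ε/R`.
All integrands are measurable (part R) and bounded on `Gset N n` (`good_bdd`), `Pr N` is finite, so
everything is integrable. For `t = n`, `ε = 1`: `Lf ε' (Jn 1) ≥ log (Jn 1) = log (hl h z)` (`Lf_ge_log`,
`Jn_one`, `hl > 0`). -/
theorem base_telescope : ∃ N1 : ℕ, ∀ N ≥ N1, ∀ n : ℕ, 1 ≤ n →
    (∑ t ∈ Finset.Ico 1 n, ∫ y in Gset N n, log (HC N y t / 2) ∂(Pr N)) +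
      ∫ y in Gset N n, log (hl (hw N y.1) y.2) ∂(Pr N) ≤
    ∫ y in Gset N n, Lf 1 (Jn (hw N y.1) y.2 n) ∂(Pr N) := by
  obtain ⟨N1', hmeas⟩ := meas_all
  obtain ⟨C, hC1, N2, hHC⟩ := good_HC
  obtain ⟨C', hC1', N3, hbd⟩ := good_bounds
  obtain ⟨N4, hbdd⟩ := good_bdd
  obtain ⟨N5, hB3⟩ := B3_ineq
  refine ⟨N1' + N2 + N3 + N4 + N5, ?_⟩
  intro N hN n hn
  obtain ⟨hfin, mG, mJ, mHC, mhl⟩ := hmeas N (by omega)
  replace hHC := hHC N (by omega) n hn
  replace hbd := hbd N (by omega) n hn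
  replace hbdd := hbdd N (by omega) n hn
  replace hB3 := hB3 N (by omega) n
  replace mG := mG n
  have hn1 : (1 : ℝ) ≤ n := by exact_mod_cast hn
  set R : ℝ := C * (n : ℝ) ^ 3 with hR
  have hR1 : 1 ≤ R := one_le_mul_of_one_le_of_one_le hC1 (one_le_pow₀ hn1)
  -- integrability of bounded measurable functions
  have hint : ∀ f : Yt → ℝ, Measurable f → (∃ B, ∀ y ∈ Gset N n, |f y| ≤ B) →
      IntegrableOn f (Gset N n) (Pr N) := by
    intro f hf hB
    obtain ⟨B, hB⟩ := hB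
    refine Measure.integrableOn_of_bounded (M := B) (measure_ne_top _ _)
      hf.aestronglyMeasurable ?_
    refine (ae_restrict_iff' mG).mpr (Filter.Eventually.of_forall fun y hy => ?_)
    rw [Real.norm_eq_abs]
    exact hB y hy
  have i1 : ∀ ε : ℝ, 0 < ε → ∀ t ≤ n,
      IntegrableOn (fun y : Yt => Lf ε (Jn (hw N y.1) y.2 t)) (Gset N n) (Pr N) := by
    intro ε hε t ht
    refine hint _ (measurable_Lf.comp (measurable_const.prodMk (mJ t))) ?_
    obtain ⟨B, hB⟩ := hbdd ε hε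
    exact ⟨B, fun y hy => (hB y hy t ht).1⟩
  have i2 : ∀ t ≤ n,
      IntegrableOn (fun y : Yt => log (HC N y t / 2)) (Gset N n) (Pr N) := by
    intro t ht
    refine hint _ (Real.measurable_log.comp ((mHC t).div_const 2)) ?_
    obtain ⟨B, hB⟩ := hbdd 1 one_pos
    exact ⟨B, fun y hy => (hB y hy t ht).2.1⟩
  have i3 : ∀ ε : ℝ, 0 < ε → ∀ t ≤ n,
      IntegrableOn (fun y : Yt => Lf (2 * ε / HC N y t) (Jn (hw N y.1) y.2 t))
        (Gset N n) (Pr N) := by
    intro ε hε t ht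
    refine hint _ (measurable_Lf.comp ((measurable_const.div (mHC t)).prodMk (mJ t))) ?_
    obtain ⟨B, hB⟩ := hbdd ε hε
    exact ⟨B, fun y hy => (hB y hy t ht).2.2.1⟩
  have i4 : IntegrableOn (fun y : Yt => log (hl (hw N y.1) y.2)) (Gset N n) (Pr N) := by
    refine hint _ (Real.measurable_log.comp mhl) ?_
    obtain ⟨B, hB⟩ := hbdd 1 one_pos
    exact ⟨B, fun y hy => (hB y hy 0 (Nat.zero_le _)).2.2.2⟩
  -- induction
  have main : ∀ t, 1 ≤ t → t ≤ n → ∀ ε : ℝ, 0 < ε →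
      (∑ j ∈ Finset.Ico 1 t, ∫ y in Gset N n, log (HC N y j / 2) ∂(Pr N)) +
        ∫ y in Gset N n, Lf (ε / R ^ (t - 1)) (Jn (hw N y.1) y.2 1) ∂(Pr N) ≤
      ∫ y in Gset N n, Lf ε (Jn (hw N y.1) y.2 t) ∂(Pr N) := by
    intro t ht1
    induction t, ht1 using Nat.le_induction with
    | base => intro _ ε _; simp
    | succ t ht1 ih =>
      intro htn ε hε
      have h1 := ih (by omega) (ε / R) (by positivity)
      have h2 := hB3 t ht1 (by omega) ε hε
      have h3 : ∫ y in Gset N n, (log (HC N y t / 2) + Lf (ε / R) (Jn (hw N y.1) y.2 t)) ∂(Pr N) ≤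
          ∫ y in Gset N n, (log (HC N y t / 2) +
            Lf (2 * ε / HC N y t) (Jn (hw N y.1) y.2 t)) ∂(Pr N) := by
        refine setIntegral_mono_on ((i2 t (by omega)).add (i1 (ε / R) (by positivity) t (by omega)))
          ((i2 t (by omega)).add (i3 ε hε t (by omega))) mG ?_
        intro y hy
        obtain ⟨p1, p2⟩ := hHC y hy t (by omega)
        have : Lf (ε / R) (Jn (hw N y.1) y.2 t) ≤
            Lf (2 * ε / HC N y t) (Jn (hw N y.1) y.2 t) := by
          apply Lf_mono_eps (by positivity)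
          rw [div_le_div_iff₀ (by linarith) p1]
          nlinarith
        linarith
      have h4 : ∫ y in Gset N n, (log (HC N y t / 2) +
          Lf (ε / R) (Jn (hw N y.1) y.2 t)) ∂(Pr N) =
          (∫ y in Gset N n, log (HC N y t / 2) ∂(Pr N)) +
            ∫ y in Gset N n, Lf (ε / R) (Jn (hw N y.1) y.2 t) ∂(Pr N) :=
        integral_add (i2 t (by omega)) (i1 (ε / R) (by positivity) t (by omega))
      have h5 : ε / R / R ^ (t - 1) = ε / R ^ (t + 1 - 1) := by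
        have : t + 1 - 1 = (t - 1) + 1 := by omega
        rw [this, pow_succ, div_div]
        congr 1
        ring
      rw [h5] at h1
      rw [Finset.sum_Ico_succ_top (by omega)]
      linarith
  have h1 := main n hn le_rfl 1 one_pos
  have h2 : ∫ y in Gset N n, log (hl (hw N y.1) y.2) ∂(Pr N) ≤
      ∫ y in Gset N n, Lf (1 / R ^ (n - 1)) (Jn (hw N y.1) y.2 1) ∂(Pr N) := by
    refine setIntegral_mono_on i4 (i1 _ (by positivity) 1 hn) mG ?_
    intro y hy
    obtain ⟨-, ⟨p1, -⟩, -⟩ := hbd y hy 0 (Nat.zero_le _) _ _ rfl rfl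
    have hpos : 0 < hl (hw N y.1) y.2 := by
      refine lt_of_lt_of_le ?_ p1
      positivity
    rw [Jn_one]
    exact Lf_ge_log hpos
  linarith

end

end BilEnt
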