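import Pool.Agent.BilEnt.B05Bd1

/-!
# Part B, module B09Beta: the integral of `log betaN`
-/

open MeasureTheory Real

namespace BilEnt

noncomputable section

namespace B09BetaAux

/-- two-valued comparison function of period one -/
def F (A B x : ℝ) : ℝ := if Int.fract x ≤ 1 / 4 ∨ 3 / 4 ≤ Int.fract x then A else B

theorem F_per (A B : ℝ) : Function.Periodic (F A B) 1 := by
  intro x
  unfold F
  rw [Int.fract_add_one]

theorem F_meas (A B : ℝ) : Measurable (F A B) := by
  unfold F
  refine Measurable.ite ?_ measurable_const measurable_const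
  exact (measurableSet_le measurable_fract measurable_const).union
    (measurableSet_le measurable_const measurable_fract)

theorem F_bdd (A B x : ℝ) : ‖F A B x‖ ≤ |A| + |B| := by
  unfold F
  have hA := abs_nonneg A
  have hB := abs_nonneg B
  split_ifs
  · rw [Real.norm_eq_abs]; linarith
  · rw [Real.norm_eq_abs]; linarith

theorem F_int (A B a b : ℝ) : IntervalIntegrable (F A B) volume a b := by
  rw [intervalIntegrable_iff]
  refine Measure.integrableOn_of_bounded (M := |A| + |B|) ?_ (F_meas A B).aestronglyMeasurable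
    (Filter.Eventually.of_forall fun x => F_bdd A B x)
  rw [Set.uIoc]
  exact measure_Ioc_lt_top.ne

theorem int_F_one (A B : ℝ) : ∫ x in (0 : ℝ)..1, F A B x = (A + B) / 2 := by
  have h1 : ∫ x in (0 : ℝ)..(1 / 4), F A B x = 1 / 4 * A := by
    rw [intervalIntegral.integral_congr_ae (g := fun _ => A)]
    · rw [intervalIntegral.integral_const, smul_eq_mul, sub_zero]
    · refine Filter.Eventually.of_forall fun x hx => ?_
      rw [Set.uIoc_of_le (by norm_num)] at hx
      have e : Int.fract x = x := Int.fract_eq_self.2 ⟨hx.1.le, by linarith [hx.2]⟩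
      unfold F
      rw [e, if_pos (Or.inl hx.2)]
  have h2 : ∫ x in (1 / 4 : ℝ)..(3 / 4), F A B x = 1 / 2 * B := by
    rw [intervalIntegral.integral_congr_ae (g := fun _ => B)]
    · rw [intervalIntegral.integral_const, smul_eq_mul]
      norm_num
    · have h0 : ∀ᵐ x : ℝ, x ≠ 3 / 4 := by
        rw [ae_iff]
        simp
      filter_upwards [h0] with x hx0 hx
      rw [Set.uIoc_of_le (by norm_num)] at hx
      have hx3 : x < 3 / 4 := lt_of_le_of_ne hx.2 hx0
      have e : Int.fract x = x := Int.fract_eq_self.2 ⟨by linarith [hx.1], by linarith⟩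
      unfold F
      rw [e, if_neg]
      intro hc
      rcases hc with hc | hc
      · linarith [hx.1]
      · linarith
  have h3 : ∫ x in (3 / 4 : ℝ)..1, F A B x = 1 / 4 * A := by
    rw [intervalIntegral.integral_congr_ae (g := fun _ => A)]
    · rw [intervalIntegral.integral_const, smul_eq_mul]
      norm_num
    · have h0 : ∀ᵐ x : ℝ, x ≠ 1 := by
        rw [ae_iff]
        simp
      filter_upwards [h0] with x hx0 hx
      rw [Set.uIoc_of_le (by norm_num)] at hx
      have hx3 : x < 1 := lt_of_le_of_ne hx.2 hx0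
      have e : Int.fract x = x := Int.fract_eq_self.2 ⟨by linarith [hx.1], hx3⟩
      unfold F
      rw [e, if_pos (Or.inr hx.1.le)]
  rw [← intervalIntegral.integral_add_adjacent_intervals (F_int A B 0 (1 / 4)) (F_int A B (1 / 4) 1),
    ← intervalIntegral.integral_add_adjacent_intervals (F_int A B (1 / 4) (3 / 4))
      (F_int A B (3 / 4) 1), h1, h2, h3]
  ring

theorem int_F_N (A B : ℝ) {N : ℕ} (hN : 0 < N) :
    ∫ u in (0 : ℝ)..(2 * π), F A B (N / (2 * π) * u) = π * (A + B) := by
  have hN' : (0 : ℝ) < N := by exact_mod_cast hN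
  have hpi : (0 : ℝ) < 2 * π := by positivity
  have hc : (N : ℝ) / (2 * π) ≠ 0 := by positivity
  rw [intervalIntegral.integral_comp_mul_left (F A B) hc]
  have e1 : (N : ℝ) / (2 * π) * (2 * π) = 0 + (N : ℤ) • (1 : ℝ) := by
    rw [zsmul_eq_mul, mul_one, zero_add, div_mul_cancel₀ _ hpi.ne']
    push_cast
    rfl
  rw [mul_zero, e1, (F_per A B).intervalIntegral_add_zsmul_eq (N : ℤ) 0 (F_int A B), zero_add,
    int_F_one, zsmul_eq_mul, smul_eq_mul]
  push_cast
  field_simp

/-- `(π/N)² ≤ q sin²(π/N)` -/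
theorem sin_bd {N : ℕ} (hN : 1000 ≤ N) :
    (π / N) ^ 2 ≤ 2001 / 2000 * sin (π / N) ^ 2 ∧ 0 < sin (π / N) := by
  have hN' : (1000 : ℝ) ≤ N := by exact_mod_cast hN
  have hN0 : (0 : ℝ) < N := by linarith
  set x := π / N with hx
  have hx0 : 0 < x := by positivity
  have hx1 : x ≤ 1 / 100 := by
    rw [hx, div_le_iff₀ hN0]
    have := Real.pi_le_four
    linarith
  have h1 : x - x ^ 3 / 6 < sin x := sin_gt_sub_cube hx0
  have h2 : x * (99998 / 100000) ≤ sin x := by
    have h3 : x ^ 3 ≤ x * (1 / 10000) := by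
      have : x ^ 2 ≤ 1 / 10000 := by nlinarith
      nlinarith
    nlinarith
  have h4 : 0 < sin x := by
    have : 0 < x * (99998 / 100000) := by positivity
    linarith
  refine ⟨?_, h4⟩
  have h5 : (x * (99998 / 100000)) ^ 2 ≤ sin x ^ 2 := pow_le_pow_left₀ (by positivity) h2 2
  have h6 : 0 ≤ x ^ 2 := sq_nonneg x
  nlinarith

/-- the argument of the bump -/
theorem X_bd {N : ℕ} (hN : 1000 ≤ N) (u : ℝ) :
    (2 * sin ((u - 2 * π * (round (N * u / (2 * π)) : ℤ) / N) / 2)) ^ 2 / dl N 0 ^ 2 ≤
      2001 / 2000 * (N / (2 * π) * u - round (N / (2 * π) * u)) ^ 2 := by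
  have hN' : (1000 : ℝ) ≤ N := by exact_mod_cast hN
  have hN0 : (0 : ℝ) < N := by linarith
  obtain ⟨hs, hs0⟩ := sin_bd hN
  have hpi := pi_pos
  have e0 : (N : ℝ) * u / (2 * π) = N / (2 * π) * u := by ring
  rw [e0]
  set s := (N : ℝ) / (2 * π) * u - round (N / (2 * π) * u) with hsdef
  have e1 : (u - 2 * π * (round ((N : ℝ) / (2 * π) * u) : ℤ) / N) / 2 = π / N * s := by
    rw [hsdef]
    field_simp
  have e2 : dl N 0 = 2 * sin (π / N) := by
    unfold dl
    rw [if_pos rfl]
  rw [e1, e2, div_le_iff₀ (by positivity)]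
  have h1 : sin (π / N * s) ^ 2 ≤ (π / N * s) ^ 2 := by
    rw [sq_le_sq]
    exact abs_sin_le_abs
  have h2 : 0 ≤ s ^ 2 := sq_nonneg s
  calc (2 * sin (π / N * s)) ^ 2 = 4 * sin (π / N * s) ^ 2 := by ring
    _ ≤ 4 * (π / N * s) ^ 2 := by linarith
    _ = 4 * s ^ 2 * (π / N) ^ 2 := by ring
    _ ≤ 4 * s ^ 2 * (2001 / 2000 * sin (π / N) ^ 2) :=
        mul_le_mul_of_nonneg_left hs (by positivity)
    _ = 2001 / 2000 * s ^ 2 * (2 * sin (π / N)) ^ 2 := by ring

theorem log_bump {X y : ℝ} (hy : 0 < y) (hX : X ≤ 1 - y) : 3 * log y ≤ log (bump X) := by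
  unfold bump
  have h1 : y ≤ max 0 (1 - X) := le_max_of_le_right (by linarith)
  rw [Real.log_pow]
  push_cast
  have := Real.log_le_log hy h1
  linarith

theorem F_le {N : ℕ} (hN : 1000 ≤ N) (u : ℝ) :
    F (3 * log (29999 / 32000)) (3 * log (5999 / 8000)) (N / (2 * π) * u) ≤
      log (betaN N u) := by
  have hX := X_bd hN u
  unfold betaN F
  set x := (N : ℝ) / (2 * π) * u with hx
  split_ifs with hc
  · refine log_bump (by norm_num) (hX.trans ?_)
    have h1 : |x - round x| ≤ 1 / 4 := by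
      rw [abs_sub_round_eq_min]
      rcases hc with hc | hc
      · exact (min_le_left _ _).trans hc
      · exact (min_le_right _ _).trans (by linarith)
    have h2 : (x - round x) ^ 2 ≤ (1 / 4) ^ 2 := by
      rw [← sq_abs]
      exact pow_le_pow_left₀ (abs_nonneg _) h1 2
    linarith
  · refine log_bump (by norm_num) (hX.trans ?_)
    have h1 : |x - round x| ≤ 1 / 2 := abs_sub_round x
    have h2 : (x - round x) ^ 2 ≤ (1 / 2) ^ 2 := by
      rw [← sq_abs]
      exact pow_le_pow_left₀ (abs_nonneg _) h1 2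
    linarith

theorem numerics : -(2 * (529 / 1000)) ≤ 3 * log (29999 / 32000) + 3 * log (5999 / 8000) := by
  rw [← mul_add, ← Real.log_mul (by norm_num) (by norm_num)]
  have h1 : -(529 / 1500 : ℝ) ≤ log (29999 / 32000 * (5999 / 8000)) := by
    rw [Real.le_log_iff_exp_le (by norm_num), Real.exp_neg]
    have h2 := Real.sum_le_exp_of_nonneg (x := 529 / 1500) (by norm_num) 6
    have h3 : (32000 * 8000 / (29999 * 5999) : ℝ) ≤ rexp (529 / 1500) := by
      refine le_trans ?_ h2
      simp only [Finset.sum_range_succ, Finset.sum_range_zero, Nat.factorial]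
      norm_num
    have h4 : (rexp (529 / 1500))⁻¹ ≤ (32000 * 8000 / (29999 * 5999) : ℝ)⁻¹ :=
      inv_anti₀ (by norm_num) h3
    refine h4.trans ?_
    norm_num
  linarith

end B09BetaAux

open B09BetaAux

/-- PROOF. For `|u - c| ≤ π/(2N)` (`c` the nearest of the centres `2π i/N`):
`X = sin²((u-c)/2)/sin²(π/N) ≤ (π/(4N))²/sin²(π/N) ≤ (1/16)(1 + C/N²)` and otherwise (`|u - c| ≤ π/N`)
`X ≤ (1/4)(1 + C/N²)`; `betaN = (1 - X)³`. So `log betaN ≥ 3 log (15/16 - C/N²)` on a set of measure `π`
(half of `[0,2π)`) and `≥ 3 log (3/4 - C/N²)` on the other half. Hence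
`∫_0^{2π} log betaN ≥ 3π (log (15/16) + log (3/4)) - C/N² = 3π log (45/64) - C/N²` and
`(3/2) log (45/64) > -0.5284` (`log (45/64) ≥ -0.35224`).
To avoid computing the measure of the two sets: `u ↦ log betaN N u` is `2π/N`-periodic, so
`∫_0^{2π} log betaN = N ∫_{-π/N}^{π/N} log betaN`, and on `[-π/N, π/N]` one has `round (N u/(2π)) = 0` for
`|u| < π/N`. -/
theorem int_log_beta_unif : ∃ N1 : ℕ, ∀ N ≥ N1,
    -(2 * π * (529 / 1000)) ≤ ∫ u in Set.Ico 0 (2 * π), log (betaN N u) := by
  refine ⟨1000, fun N hN => ?_⟩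
  have hpi := pi_pos
  by_cases hint : IntegrableOn (fun u => log (betaN N u)) (Set.Ico 0 (2 * π))
  · have h1 := int_F_N (3 * log (29999 / 32000)) (3 * log (5999 / 8000)) (N := N) (by omega)
    rw [intervalIntegral.integral_of_le (by positivity), integral_Ioc_eq_integral_Ioo,
      ← integral_Ico_eq_integral_Ioo] at h1
    have h2 : ∫ u in Set.Ico 0 (2 * π),
        F (3 * log (29999 / 32000)) (3 * log (5999 / 8000)) (N / (2 * π) * u) ≤
        ∫ u in Set.Ico 0 (2 * π), log (betaN N u) := by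
      refine setIntegral_mono_on ?_ hint measurableSet_Ico fun u _ => F_le hN u
      refine Measure.integrableOn_of_bounded
        (M := |3 * log (29999 / 32000)| + |3 * log (5999 / 8000)|) measure_Ico_lt_top.ne
        ((F_meas _ _).comp (measurable_const.mul measurable_id)).aestronglyMeasurable
        (Filter.Eventually.of_forall fun x => F_bdd _ _ _)
    rw [h1] at h2
    refine le_trans ?_ h2
    have := numerics
    nlinarith
  · rw [integral_undef hint]
    have : 0 ≤ 2 * π * (529 / 1000) := by positivity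
    linarith

end

end BilEnt
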