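import Pool.Agent.BilEnt.B09Mass
import Pool.Agent.BilEnt.B09Beta

/-!
# Part B, module B09Log: the integral of `log betaN` against `Pr N`
-/

open MeasureTheory Real

namespace BilEnt

noncomputable section

namespace B09LogAux

theorem continuous_bump : Continuous bump := by
  unfold bump
  fun_prop

theorem meas_betaN (N : ℕ) : Measurable (betaN N) := by
  unfold betaN
  have h1 : Measurable fun u : ℝ => ((round (N * u / (2 * π)) : ℤ) : ℝ) := by
    simp_rw [round_eq]
    exact (measurable_from_top (f := fun z : ℤ => (z : ℝ))).comp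
      (Int.measurable_floor.comp (by fun_prop))
  refine continuous_bump.measurable.comp ?_
  refine Measurable.div_const ?_ _
  refine Measurable.pow_const ?_ 2
  refine Measurable.const_mul ?_ 2
  refine measurable_sin.comp ?_
  refine Measurable.div_const ?_ _
  exact measurable_id.sub ((h1.const_mul (2 * π)).div_const _)

theorem sp_le {h : ℝ → ℝ} {u e : ℝ} (he1 : e ≤ 1 / 2000) (h0 : |h u| ≤ e)
    (h1 : |deriv h u| ≤ e) : sp h u ≤ 1001 / 1000 := by
  unfold sp
  have a1 : rexp (h u) ≤ 1 + 1 / 1999 := by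
    have b1 : rexp (h u) ≤ rexp (1 / 2000) :=
      Real.exp_le_exp.2 ((le_abs_self _).trans (h0.trans he1))
    have b2 : rexp (1 / 2000) ≤ 1 / (1 - 1 / 2000) := by
      have b3 : 1 - 1 / 2000 ≤ rexp (-(1 / 2000)) := by
        have := Real.add_one_le_exp (-(1 / 2000 : ℝ))
        linarith
      rw [Real.exp_neg] at b3
      rw [le_div_iff₀ (by norm_num)]
      have b4 : 0 < rexp (1 / 2000) := Real.exp_pos _
      calc rexp (1 / 2000) * (1 - 1 / 2000) ≤ rexp (1 / 2000) * (rexp (1 / 2000))⁻¹ :=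
            mul_le_mul_of_nonneg_left b3 b4.le
        _ = 1 := mul_inv_cancel₀ b4.ne'
    refine b1.trans (b2.trans ?_)
    norm_num
  have a2 : sqrt (1 + deriv h u ^ 2) ≤ 1 + 1 / 1000000 := by
    rw [Real.sqrt_le_left (by norm_num)]
    have b1 : deriv h u ^ 2 ≤ (1 / 2000) ^ 2 := by
      rw [← sq_abs]
      exact pow_le_pow_left₀ (abs_nonneg _) (h1.trans he1) 2
    nlinarith
  calc rexp (h u) * sqrt (1 + deriv h u ^ 2) ≤ (1 + 1 / 1999) * (1 + 1 / 1000000) :=
        mul_le_mul a1 a2 (Real.sqrt_nonneg _) (by norm_num)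
    _ ≤ 1001 / 1000 := by norm_num

end B09LogAux

open B09LogAux

/-- PROOF. `integral_marg` with `g = log betaN` (bounded: `betaN_bounds`), `sp ≤ 1 + C/N`, `log betaN ≤ 0`,
`int_log_beta_unif`: `∫ ≥ 2 (1 + C/N) (-(2π · 0.529)) ≥ -(4π · 0.53)`. -/
theorem int_log_beta : ∃ N1 : ℕ, ∀ N ≥ N1,
    -(4 * π * (53 / 100)) ≤ ∫ y, log (betaN N y.2.1) ∂(Pr N) := by
  obtain ⟨N2, hN2⟩ := integral_marg
  obtain ⟨N3, hN3⟩ := betaN_bounds
  obtain ⟨N4, hN4⟩ := int_log_beta_unif
  refine ⟨N2 + N3 + N4 + N0 + 20000, fun N hN => ?_⟩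
  have hpi := Real.pi_pos
  have hb : ∀ u, 1 / 4 ≤ betaN N u ∧ betaN N u ≤ 1 := hN3 N (by omega)
  have hm : Measurable fun u => log (betaN N u) := Real.measurable_log.comp (meas_betaN N)
  have hl1 : ∀ u, log (betaN N u) ≤ 0 := fun u =>
    Real.log_nonpos (by linarith [(hb u).1]) (hb u).2
  have hl2 : ∀ u, log (1 / 4) ≤ log (betaN N u) := fun u =>
    Real.log_le_log (by norm_num) (hb u).1
  have hbd : ∀ u, |log (betaN N u)| ≤ -log (1 / 4) := fun u => by
    rw [abs_of_nonpos (hl1 u)]
    linarith [hl2 u]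
  rw [hN2 N (by omega) (fun u => log (betaN N u)) hm ⟨_, hbd⟩]
  have hunif := hN4 N (by omega)
  have key : ∀ ω : Om, -(4 * π * (53 / 100)) ≤
      ∫ u in Set.Ico 0 (2 * π), 2 * sp (hw N ω) u * log (betaN N u) := by
    intro ω
    obtain ⟨t1, t2, t3, -⟩ := tables (N := N) (by omega) ω
    have hN' : (20000 : ℝ) ≤ N := by
      have : 20000 ≤ N := by omega
      exact_mod_cast this
    have hsp : ∀ u, sp (hw N ω) u ≤ 1001 / 1000 := fun u => by
      refine sp_le (e := 10 / N) ?_ (t2 u) (t3 u)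
      rw [div_le_div_iff₀ (by linarith) (by norm_num)]
      linarith
    have hsp0 : ∀ u, 99 / 100 ≤ sp (hw N ω) u := fun u => (sp_bounds t1 u).1
    have i1 : IntegrableOn (fun u => 2 * sp (hw N ω) u * log (betaN N u)) (Set.Ico 0 (2 * π)) := by
      refine Measure.integrableOn_of_bounded (M := 2 * (1001 / 1000) * -log (1 / 4))
        measure_Ico_lt_top.ne
        ((((continuous_sp t1).measurable.const_mul 2).mul hm).aestronglyMeasurable)
        (Filter.Eventually.of_forall fun u => ?_)
      rw [Real.norm_eq_abs, abs_mul]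
      refine mul_le_mul ?_ (hbd u) (abs_nonneg _) (by norm_num)
      rw [abs_of_nonneg (by linarith [hsp0 u])]
      linarith [hsp u]
    have i2 : IntegrableOn (fun u => 2002 / 1000 * log (betaN N u)) (Set.Ico 0 (2 * π)) := by
      refine Integrable.const_mul ?_ _
      exact Measure.integrableOn_of_bounded (M := -log (1 / 4)) measure_Ico_lt_top.ne
        hm.aestronglyMeasurable (Filter.Eventually.of_forall fun u => hbd u)
    have h1 : ∫ u in Set.Ico 0 (2 * π), 2002 / 1000 * log (betaN N u) ≤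
        ∫ u in Set.Ico 0 (2 * π), 2 * sp (hw N ω) u * log (betaN N u) := by
      refine setIntegral_mono_on i2 i1 measurableSet_Ico fun u _ => ?_
      refine mul_le_mul_of_nonpos_right ?_ (hl1 u)
      linarith [hsp u]
    rw [integral_const_mul] at h1
    refine le_trans ?_ h1
    nlinarith
  by_cases hint : Integrable (fun ω => ∫ u in Set.Ico 0 (2 * π), 2 * sp (hw N ω) u *
      log (betaN N u)) PP
  · have h1 := integral_mono (μ := PP) (integrable_const (-(4 * π * (53 / 100)))) hint key
    rwa [integral_const, smul_eq_mul, probReal_univ, one_mul] at h1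
  · rw [integral_undef hint]
    have : 0 ≤ 4 * π * (53 / 100) := by positivity
    linarith

end

end BilEnt
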