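import Pool.Agent.BilEnt.B05Bd1
import Pool.Agent.BilEnt.R11
import Pool.Agent.BilEnt.G02

/-!
# Part B, module B09Mass: position marginal and total mass
-/

open MeasureTheory Real

namespace BilEnt

noncomputable section

namespace B09MassAux

theorem sin_int (a : ℝ) : ∫ A in Set.Ioo a (a + π), sin (A - a) = 2 := by
  have hpi := Real.pi_pos
  rw [← integral_Ioc_eq_integral_Ioo, ← intervalIntegral.integral_of_le (by linarith),
    intervalIntegral.integral_comp_sub_right (fun x => sin x) a]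
  simp only [sub_self, add_sub_cancel_left]
  rw [integral_sin]
  norm_num

theorem inner {h : ℝ → ℝ} (hh : IsTab h) (u c : ℝ) (hc : 0 ≤ c) :
    ∫⁻ A in Set.Ioo (Th h u) (Th h u + π), ENNReal.ofReal (pw h (u, A)) * ENNReal.ofReal c =
      ENNReal.ofReal (2 * sp h u * c) := by
  have hsp : 0 ≤ sp h u := le_trans (by norm_num) (sp_bounds hh u).1
  have h1 : ∀ A, ENNReal.ofReal (pw h (u, A)) * ENNReal.ofReal c =
      ENNReal.ofReal (sp h u * c * sin (A - Th h u)) := by
    intro A
    rw [← ENNReal.ofReal_mul' hc]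
    congr 1
    simp only [pw, stt]
    ring
  simp only [h1]
  have hcont : Continuous (fun A => sp h u * c * sin (A - Th h u)) := by fun_prop
  have hint : IntegrableOn (fun A => sp h u * c * sin (A - Th h u))
      (Set.Ioo (Th h u) (Th h u + π)) :=
    (hcont.integrableOn_Icc).mono_set Set.Ioo_subset_Icc_self
  rw [← ofReal_integral_eq_lintegral_ofReal hint]
  · congr 1
    rw [integral_const_mul, sin_int]
    ring
  · rw [Filter.EventuallyLE, ae_restrict_iff' measurableSet_Ioo]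
    refine Filter.Eventually.of_forall (fun A hA => ?_)
    have := sin_nonneg_of_nonneg_of_le_pi (x := A - Th h u) (by linarith [hA.1]) (by linarith [hA.2])
    exact mul_nonneg (mul_nonneg hsp hc) this

theorem slice_meas {N : ℕ} (hN : N0 ≤ N) {g : ℝ → ℝ} (hg : Measurable g) :
    Measurable (fun p : Om × ℝ => 2 * sp (hw N p.1) p.2 * g p.2) :=
  (((measurable_sp_hw hN).const_mul 2)).mul (hg.comp measurable_snd)

theorem slice_bound {N : ℕ} (hN : N0 ≤ N) {g : ℝ → ℝ} {B : ℝ} (hB : ∀ u, |g u| ≤ B) (ω : Om)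
    (u : ℝ) : ‖2 * sp (hw N ω) u * g u‖ ≤ 3 * B := by
  obtain ⟨h1, h2⟩ := sp_bounds (isTab_hw hN ω) u
  rw [Real.norm_eq_abs, abs_mul, abs_of_nonneg (by linarith : 0 ≤ 2 * sp (hw N ω) u)]
  exact mul_le_mul (by linarith) (hB u) (abs_nonneg _) (by norm_num)

theorem slice_int {N : ℕ} (hN : N0 ≤ N) {g : ℝ → ℝ} (hg : Measurable g)
    {B : ℝ} (hB : ∀ u, |g u| ≤ B) (ω : Om) :
    Integrable (fun u => 2 * sp (hw N ω) u * g u) (volume.restrict (Set.Ico 0 (2 * π))) := by
  have hm : Measurable (fun u => 2 * sp (hw N ω) u * g u) :=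
    ((continuous_sp (isTab_hw hN ω)).measurable.const_mul 2).mul hg
  exact Integrable.of_bound hm.aestronglyMeasurable (3 * B)
    (Filter.Eventually.of_forall (slice_bound hN hB ω))

theorem out_meas {N : ℕ} (hN : N0 ≤ N) {g : ℝ → ℝ} (hg : Measurable g) :
    StronglyMeasurable (fun ω : Om => ∫ u in Set.Ico 0 (2 * π), 2 * sp (hw N ω) u * g u) :=
  (slice_meas hN hg).stronglyMeasurable.integral_prod_right

theorem out_int {N : ℕ} (hN : N0 ≤ N) {g : ℝ → ℝ} (hg : Measurable g)
    {B : ℝ} (hB : ∀ u, |g u| ≤ B) :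
    Integrable (fun ω : Om => ∫ u in Set.Ico 0 (2 * π), 2 * sp (hw N ω) u * g u) PP := by
  refine Integrable.of_bound (out_meas hN hg).aestronglyMeasurable
    (3 * B * (volume.real (Set.Ico 0 (2 * π)))) (Filter.Eventually.of_forall (fun ω => ?_))
  exact norm_setIntegral_le_of_norm_le_const measure_Ico_lt_top
    (fun u _ => slice_bound hN hB ω u)

theorem pos_case {N : ℕ} (hN : N0 ≤ N) {g : ℝ → ℝ} (hg : Measurable g) (hg0 : ∀ u, 0 ≤ g u)
    {B : ℝ} (hB : ∀ u, |g u| ≤ B) :
    ∫ y, g y.2.1 ∂(Pr N) =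
      ∫ ω, (∫ u in Set.Ico 0 (2 * π), 2 * sp (hw N ω) u * g u) ∂PP := by
  have hm : Measurable (fun y : Yt => g y.2.1) := hg.comp (measurable_fst.comp measurable_snd)
  have hsp : ∀ ω u, 0 ≤ 2 * sp (hw N ω) u * g u := fun ω u =>
    mul_nonneg (mul_nonneg (by norm_num)
      (le_trans (by norm_num) (sp_bounds (isTab_hw hN ω) u).1)) (hg0 u)
  rw [integral_eq_lintegral_of_nonneg_ae (Filter.Eventually.of_forall fun y => hg0 _)
      hm.aestronglyMeasurable,
    integral_eq_lintegral_of_nonneg_ae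
      (Filter.Eventually.of_forall fun ω => integral_nonneg (hsp ω))
      (out_meas hN hg).aestronglyMeasurable]
  congr 1
  rw [Pr_lintegral hN hm.ennreal_ofReal]
  apply lintegral_congr
  intro ω
  have hm2 : Measurable (fun z : ℝ × ℝ => ENNReal.ofReal (g z.1)) :=
    (hg.comp measurable_fst).ennreal_ofReal
  show ∫⁻ z, ENNReal.ofReal (g z.1) ∂(mu (hw N ω)) = _
  rw [mu_lintegral (isTab_hw hN ω) hm2]
  simp only
  rw [ofReal_integral_eq_lintegral_ofReal (slice_int hN hg hB ω)
    (Filter.Eventually.of_forall (hsp ω))]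
  apply lintegral_congr
  intro u
  exact inner (isTab_hw hN ω) u (g u) (hg0 u)

end B09MassAux

/-- marginal of `Pr N` in the position.

PROOF. `Pr_lintegral` (R11), `mu_lintegral` (G15; apply to positive and negative parts, or to `g + B ≥ 0` and the constant `B`); for fixed `ω, u`,
`∫_{Th u < A < Th u + π} pw (u,A) dA = sp u ∫_0^π sin = 2 sp u`. -/
theorem integral_marg : ∃ N1 : ℕ, ∀ N ≥ N1, ∀ g : ℝ → ℝ, Measurable g → (∃ B, ∀ u, |g u| ≤ B) →
    ∫ y, g y.2.1 ∂(Pr N) =
      ∫ ω, (∫ u in Set.Ico 0 (2 * π), 2 * sp (hw N ω) u * g u) ∂PP := by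
  refine ⟨N0, fun N hN g hg ⟨B, hB⟩ => ?_⟩
  have := finite_Pr hN
  have hB0 : 0 ≤ B := (abs_nonneg (g 0)).trans (hB 0)
  have hm : Measurable (fun y : Yt => g y.2.1) := hg.comp (measurable_fst.comp measurable_snd)
  have e1 := B09MassAux.pos_case hN (g := fun u => g u + B) (hg.add_const B)
    (fun u => by linarith [(abs_le.1 (hB u)).1]) (B := 2 * B)
    (fun u => by
      have := abs_le.1 (hB u)
      rw [abs_le]
      constructor <;> linarith)
  have e2 := B09MassAux.pos_case hN (g := fun _ => B) measurable_const (fun _ => hB0)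
    (B := B) (fun _ => (abs_of_nonneg hB0).le)
  have i1 : Integrable (fun y : Yt => g y.2.1) (Pr N) :=
    Integrable.of_bound hm.aestronglyMeasurable B (Filter.Eventually.of_forall fun y => hB _)
  have e3 : ∫ y : Yt, (g y.2.1 + B) ∂(Pr N) = ∫ y : Yt, g y.2.1 ∂(Pr N) + ∫ _y : Yt, B ∂(Pr N) :=
    integral_add i1 (integrable_const B)
  have e4 : ∀ ω, ∫ u in Set.Ico 0 (2 * π), 2 * sp (hw N ω) u * (g u + B) =
      (∫ u in Set.Ico 0 (2 * π), 2 * sp (hw N ω) u * g u) +
      ∫ u in Set.Ico 0 (2 * π), 2 * sp (hw N ω) u * B := by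
    intro ω
    rw [← integral_add (B09MassAux.slice_int hN hg hB ω)
      (B09MassAux.slice_int hN (g := fun _ => B) measurable_const
        (fun _ => (abs_of_nonneg hB0).le) ω)]
    congr 1
    funext u
    ring
  have e5 : ∫ ω, (∫ u in Set.Ico 0 (2 * π), 2 * sp (hw N ω) u * (g u + B)) ∂PP =
      ∫ ω, (∫ u in Set.Ico 0 (2 * π), 2 * sp (hw N ω) u * g u) ∂PP +
      ∫ ω, (∫ u in Set.Ico 0 (2 * π), 2 * sp (hw N ω) u * B) ∂PP := by
    simp only [e4]
    exact integral_add (B09MassAux.out_int hN hg hB)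
      (B09MassAux.out_int hN (g := fun _ => B) measurable_const
        (fun _ => (abs_of_nonneg hB0).le))
  linarith

/-- PROOF. `integral_marg` with `g = 1`; `sp = exp h * sqrt (1 + h'²)` and `|h|, |h'| ≤ 10/N` (R06 `tables`) give
`|sp - 1| ≤ C/N`. -/
theorem mass_bounds : ∃ C : ℝ, 0 ≤ C ∧ ∃ N1 : ℕ, ∀ N ≥ N1,
    |(Pr N Set.univ).toReal - 4 * π| ≤ C / N := by
  obtain ⟨N1, hN1⟩ := integral_marg
  have hpi := Real.pi_pos
  refine ⟨200 * π, by positivity, max N1 N0, fun N hN => ?_⟩
  have hNa : N1 ≤ N := (le_max_left _ _).trans hN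
  have hNb : N0 ≤ N := (le_max_right _ _).trans hN
  have hN10 : (10 : ℝ) ≤ N := by exact_mod_cast N0_ge.trans hNb
  have hNpos : (0 : ℝ) < N := by linarith
  have h1 := hN1 N hNa (fun _ => 1) measurable_const ⟨1, fun _ => by norm_num⟩
  rw [integral_const, smul_eq_mul, mul_one] at h1
  have hx1 : 10 / (N : ℝ) ≤ 1 := by
    rw [div_le_one hNpos]
    exact hN10
  have hsp : ∀ ω u, |sp (hw N ω) u - 1| ≤ 50 / N := by
    intro ω u
    obtain ⟨_, hb0, hb1, _⟩ := tables hNb ω
    have a0 := hb0 u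
    have a1 := hb1 u
    have h50 : 50 / (N : ℝ) = 5 * (10 / N) := by ring
    rw [h50]
    generalize 10 / (N : ℝ) = x at a0 a1 hx1
    have hx0 : 0 ≤ x := (abs_nonneg _).trans a0
    unfold sp
    generalize hw N ω u = a at a0
    generalize deriv (hw N ω) u = b at a1
    have c1 := Real.abs_exp_sub_one_le (x := a) (a0.trans hx1)
    have c2 := abs_le.1 c1
    have c3 : 1 ≤ sqrt (1 + b ^ 2) := by
      rw [Real.one_le_sqrt]
      nlinarith [sq_nonneg b]
    have c4 : sqrt (1 + b ^ 2) ≤ 1 + |b| := by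
      rw [Real.sqrt_le_left (by positivity)]
      nlinarith [sq_abs b, abs_nonneg b]
    have c5 := Real.exp_pos a
    have c6 : exp a ≤ 1 + 2 * x := by linarith [c2.2]
    have c7 : 1 - 2 * x ≤ exp a := by linarith [c2.1]
    have c8 : sqrt (1 + b ^ 2) ≤ 1 + x := by linarith
    rw [abs_le]
    constructor
    · nlinarith
    · have : exp a * sqrt (1 + b ^ 2) ≤ (1 + 2 * x) * (1 + x) :=
        mul_le_mul c6 c8 (by linarith) (by linarith)
      nlinarith
  have hvol : volume.real (Set.Ico 0 (2 * π)) = 2 * π := by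
    rw [Real.volume_real_Ico_of_le (by positivity)]
    ring
  have h2 : ∀ ω, |(∫ u in Set.Ico 0 (2 * π), 2 * sp (hw N ω) u * 1) - 4 * π| ≤ 200 * π / N := by
    intro ω
    have i1 := B09MassAux.slice_int hNb (g := fun _ => 1) measurable_const (B := 1)
      (fun _ => by norm_num) ω
    have e1 : (∫ u in Set.Ico 0 (2 * π), 2 * sp (hw N ω) u * 1) - 4 * π =
        ∫ u in Set.Ico 0 (2 * π), (2 * sp (hw N ω) u * 1 - 2) := by
      rw [integral_sub i1 (integrable_const _)]
      congr 1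
      rw [integral_const, smul_eq_mul, measureReal_restrict_apply_univ, hvol]
      ring
    rw [e1]
    have := norm_setIntegral_le_of_norm_le_const (μ := volume) (s := Set.Ico 0 (2 * π))
      (f := fun u => 2 * sp (hw N ω) u * 1 - 2) (C := 100 / N) measure_Ico_lt_top (fun u _ => by
        have h3 := hsp ω u
        rw [Real.norm_eq_abs]
        have h4 : 2 * sp (hw N ω) u * 1 - 2 = 2 * (sp (hw N ω) u - 1) := by ring
        rw [h4, abs_mul, abs_of_pos (by norm_num : (0 : ℝ) < 2)]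
        have h5 : 100 / (N : ℝ) = 2 * (50 / N) := by ring
        rw [h5]
        linarith)
    rw [hvol, Real.norm_eq_abs] at this
    have h6 : 100 / (N : ℝ) * (2 * π) = 200 * π / N := by ring
    rw [h6] at this
    exact this
  have e2 : (Pr N Set.univ).toReal - 4 * π =
      ∫ ω, ((∫ u in Set.Ico 0 (2 * π), 2 * sp (hw N ω) u * 1) - 4 * π) ∂PP := by
    rw [integral_sub (B09MassAux.out_int hNb (g := fun _ => 1) measurable_const (B := 1)
      (fun _ => by norm_num)) (integrable_const _), ← h1, integral_const]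
    simp [measureReal_def]
  rw [e2]
  have h3 := norm_integral_le_of_norm_le_const (μ := PP)
    (f := fun ω => (∫ u in Set.Ico 0 (2 * π), 2 * sp (hw N ω) u * 1) - 4 * π)
    (C := 200 * π / N) (Filter.Eventually.of_forall fun ω => h2 ω)
  simpa using h3

end

end BilEnt
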