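import Pool.Agent.BilEnt.B05Bd1
import Pool.Agent.BilEnt.R11
import Pool.Agent.BilEnt.G12

/-!
# Part B, module B11Tem: mass of near-grazing states
-/

open MeasureTheory Real

namespace BilEnt

noncomputable section

namespace B11TemAux

open scoped ENNReal

/-- the set of near-grazing directions over one boundary point -/
lemma grazing_subset {a s : ℝ} :
    Set.Ioo a (a + π) ∩ {A | sin (A - a) < s} ⊆
      Set.Ioo a (a + π * s / 2) ∪ Set.Ioo (a + π - π * s / 2) (a + π) := by
  rintro A ⟨hA, hs⟩
  have hs' : sin (A - a) < s := hs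
  have hp := Real.pi_pos
  rcases le_total (A - a) (π / 2) with h | h
  · left
    refine ⟨hA.1, ?_⟩
    have h1 := Real.mul_le_sin (x := A - a) (by linarith [hA.1]) h
    have h2 : 2 / π * (A - a) < s := by linarith
    have h3 : (2 / π * (A - a)) * π < s * π := mul_lt_mul_of_pos_right h2 hp
    have h4 : (2 / π * (A - a)) * π = 2 * (A - a) := by field_simp
    linarith
  · right
    refine ⟨?_, hA.2⟩
    have h0 : sin (π - (A - a)) = sin (A - a) := Real.sin_pi_sub _
    have h1 := Real.mul_le_sin (x := π - (A - a)) (by linarith [hA.2]) (by linarith)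
    have h2 : 2 / π * (π - (A - a)) < s := by linarith
    have h3 : (2 / π * (π - (A - a))) * π < s * π := mul_lt_mul_of_pos_right h2 hp
    have h4 : (2 / π * (π - (A - a))) * π = 2 * (π - (A - a)) := by field_simp
    linarith

lemma grazing_vol {a s : ℝ} (hs : 0 ≤ s) :
    volume (Set.Ioo a (a + π) ∩ {A | sin (A - a) < s}) ≤ ENNReal.ofReal (π * s) := by
  have hp := Real.pi_pos
  refine (measure_mono grazing_subset).trans ((measure_union_le _ _).trans ?_)
  rw [Real.volume_Ioo, Real.volume_Ioo, ← ENNReal.ofReal_add]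
  · refine ENNReal.ofReal_le_ofReal ?_
    linarith
  · have : 0 ≤ π * s := by positivity
    linarith
  · have : 0 ≤ π * s := by positivity
    linarith

lemma fibre {h : ℝ → ℝ} (hh : IsTab h) (hm : Measurable (stt h)) {s : ℝ} (hs : 0 ≤ s) :
    mu h {z | stt h z < s} ≤ ENNReal.ofReal (21 * s ^ 2) := by
  have hp := Real.pi_pos
  have hS : MeasurableSet {z : ℝ × ℝ | stt h z < s} := measurableSet_lt hm measurable_const
  have h0 : mu h {z | stt h z < s} = ∫⁻ z, Set.indicator {z | stt h z < s} 1 z ∂(mu h) := by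
    rw [lintegral_indicator_one hS]
  rw [h0, mu_lintegral hh (measurable_one.indicator hS)]
  have hin : ∀ u : ℝ, ∫⁻ A in Set.Ioo (Th h u) (Th h u + π),
      ENNReal.ofReal (pw h (u, A)) * Set.indicator {z | stt h z < s} 1 (u, A) ≤
      ENNReal.ofReal (102 / 100 * s * (π * s)) := by
    intro u
    have hmeas : MeasurableSet {A : ℝ | sin (A - Th h u) < s} :=
      measurableSet_lt (by fun_prop) measurable_const
    calc ∫⁻ A in Set.Ioo (Th h u) (Th h u + π),
          ENNReal.ofReal (pw h (u, A)) * Set.indicator {z | stt h z < s} 1 (u, A)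
        ≤ ∫⁻ A in Set.Ioo (Th h u) (Th h u + π),
          Set.indicator {A : ℝ | sin (A - Th h u) < s}
            (fun _ => ENNReal.ofReal (102 / 100 * s)) A := by
          refine lintegral_mono fun A => ?_
          by_cases hA : sin (A - Th h u) < s
          · have h1 : (u, A) ∈ {z : ℝ × ℝ | stt h z < s} := hA
            have h2 : A ∈ {A : ℝ | sin (A - Th h u) < s} := hA
            rw [Set.indicator_of_mem h1, Set.indicator_of_mem h2, Pi.one_apply, mul_one]
            refine ENNReal.ofReal_le_ofReal ?_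
            unfold pw stt
            have h3 := sp_bounds hh u
            rcases le_total 0 (sin (A - Th h u)) with h4 | h4
            · exact mul_le_mul h3.2 hA.le h4 (by norm_num)
            · have : sp h u * sin (A - Th h u) ≤ 0 :=
                mul_nonpos_of_nonneg_of_nonpos (by linarith [h3.1]) h4
              have h5 : 0 ≤ 102 / 100 * s := by positivity
              simp only
              linarith
          · have h1 : (u, A) ∉ {z : ℝ × ℝ | stt h z < s} := hA
            rw [Set.indicator_of_notMem h1, mul_zero]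
            exact zero_le
      _ = ENNReal.ofReal (102 / 100 * s) *
          volume (Set.Ioo (Th h u) (Th h u + π) ∩ {A | sin (A - Th h u) < s}) := by
          rw [lintegral_indicator_const hmeas, Measure.restrict_apply hmeas, Set.inter_comm]
      _ ≤ ENNReal.ofReal (102 / 100 * s) * ENNReal.ofReal (π * s) := by
          gcongr
          exact grazing_vol hs
      _ = ENNReal.ofReal (102 / 100 * s * (π * s)) := by
          rw [← ENNReal.ofReal_mul (by positivity)]
  calc ∫⁻ u in Set.Ico 0 (2 * π), ∫⁻ A in Set.Ioo (Th h u) (Th h u + π),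
        ENNReal.ofReal (pw h (u, A)) * Set.indicator {z | stt h z < s} 1 (u, A)
      ≤ ∫⁻ u in Set.Ico 0 (2 * π), ENNReal.ofReal (102 / 100 * s * (π * s)) :=
        lintegral_mono fun u => hin u
    _ = ENNReal.ofReal (102 / 100 * s * (π * s)) * ENNReal.ofReal (2 * π) := by
        rw [setLIntegral_const, Real.volume_Ico, sub_zero]
    _ = ENNReal.ofReal (102 / 100 * s * (π * s) * (2 * π)) := by
        rw [← ENNReal.ofReal_mul (by positivity)]
    _ ≤ ENNReal.ofReal (21 * s ^ 2) := by
        refine ENNReal.ofReal_le_ofReal ?_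
        have h1 : π * π ≤ 3.15 * 3.15 :=
          mul_le_mul Real.pi_lt_d2.le Real.pi_lt_d2.le hp.le (by norm_num)
        have h2 : 102 / 100 * s * (π * s) * (2 * π) = 204 / 100 * (π * π) * s ^ 2 := by ring
        rw [h2]
        refine mul_le_mul_of_nonneg_right ?_ (by positivity)
        linarith

lemma core {N : ℕ} (hN : N0 ≤ N) {s : ℝ} (hs : 0 ≤ s) :
    Pr N {y | stt (hw N y.1) y.2 < s} ≤ ENNReal.ofReal (21 * s ^ 2) := by
  have hm := measurable_stt_hw hN
  have hS : MeasurableSet {y : Yt | stt (hw N y.1) y.2 < s} := measurableSet_lt hm measurable_const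
  rw [Pr_apply hN hS]
  have hle : ∀ ω : Om, mu (hw N ω) {z | (ω, z) ∈ {y : Yt | stt (hw N y.1) y.2 < s}} ≤
      ENNReal.ofReal (21 * s ^ 2) := by
    intro ω
    have h1 : Measurable (fun z : ℝ × ℝ => ((ω, z) : Yt)) := measurable_prodMk_left
    have h2 : Measurable (fun z : ℝ × ℝ => stt (hw N ω) z) := by
      have h3 := hm.comp h1
      simpa only [Function.comp_def] using h3
    have h4 : mu (hw N ω) {z | stt (hw N ω) z < s} ≤ ENNReal.ofReal (21 * s ^ 2) :=
      fibre (isTab_hw hN ω) h2 hs
    simpa only [Set.mem_ofPred_eq] using h4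
  have h4 := lintegral_mono (μ := PP) hle
  rw [lintegral_const, measure_univ, mul_one] at h4
  exact h4

end B11TemAux

/-- measure of near-grazing states.

PROOF. `Pr_apply`/`Pr_lintegral` (R11), `mu_lintegral` (G15). For fixed `ω, u` (`h = hw N ω`): `∫ 1[sin (A - Th u) < s] pw (u,A) dA ≤ 1.02 ∫_0^π 1[sin θ < s] sin θ dθ`
and `{θ ∈ (0,π) : sin θ < s} ⊂ (0, π s/2) ∪ (π - π s/2, π)` (for `s ≤ 1`, from `sin θ ≥ 2θ/π` on `[0,π/2]`),
where `sin θ < s`: at most `1.02 * s * π s`. Integrate over `u ∈ [0,2π)`. For `s > 1` use the total mass. -/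
theorem tem_mass : ∃ C : ℝ, 0 ≤ C ∧ ∃ N1 : ℕ, ∀ N ≥ N1, ∀ s : ℝ, 0 ≤ s →
    (Pr N {y | stt (hw N y.1) y.2 < s}).toReal ≤ C * s ^ 2 := by
  refine ⟨21, by norm_num, N0, ?_⟩
  intro N hN s hs
  have h1 : N0 ≤ N := hN
  have h2 := B11TemAux.core h1 hs
  exact ENNReal.toReal_le_of_le_ofReal (by positivity) h2

end

end BilEnt
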