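import Pool.Agent.BilEnt.Defs

/-!
# Part B, module B12Sin: small values of `sin (m θ)`
-/

open MeasureTheory Real

namespace BilEnt

noncomputable section

namespace B12SinAux

lemma abs_sin_sub (x : ℝ) (j : ℤ) : |sin (x - j * π)| = |sin x| := by
  rw [sin_sub_int_mul_pi, abs_mul, abs_neg_one_zpow, one_mul]

lemma jordan {y : ℝ} (hy : |y| ≤ π / 2) : 2 / π * |y| ≤ |sin y| := by
  rcases le_total 0 y with h | h
  · rw [abs_of_nonneg h] at hy ⊢
    exact (mul_le_sin h hy).trans (le_abs_self _)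
  · have h' : 0 ≤ -y := by linarith
    rw [abs_of_nonpos h] at hy ⊢
    have := (mul_le_sin h' hy).trans (le_abs_self _)
    rwa [sin_neg, abs_neg] at this

lemma dist_le {x η : ℝ} (h : |sin x| ≤ η) : |x - round (x / π) * π| ≤ π * η / 2 := by
  have hπ := pi_pos
  have h1 : |x / π - round (x / π)| ≤ 1 / 2 := abs_sub_round _
  have h2 : x - round (x / π) * π = (x / π - round (x / π)) * π := by
    field_simp
  have h3 : |x - round (x / π) * π| ≤ π / 2 := by
    rw [h2, abs_mul, abs_of_pos hπ]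
    nlinarith
  have h4 := jordan h3
  rw [abs_sin_sub] at h4
  have h5 : 2 / π * |x - round (x / π) * π| ≤ η := h4.trans h
  rw [div_mul_eq_mul_div, div_le_iff₀ hπ] at h5
  linarith

end B12SinAux

/-- PROOF. `η ≥ 1`: the measure is at most `π`. Otherwise the set `{x ∈ (0, mπ) : |sin x| ≤ η}` is contained in
the union of the intervals `|x - jπ| ≤ arcsin η`, `0 ≤ j ≤ m` (half of it for `j = 0, m`), of total
length `2 m arcsin η ≤ m π η`; scale by `1/m`. (A cruder constant would do.) -/
theorem sin_mul_measure (m : ℕ) (hm : 1 ≤ m) (η : ℝ) (hη : 0 ≤ η) :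
    volume {θ : ℝ | 0 < θ ∧ θ < π ∧ |sin (m * θ)| ≤ η} ≤ ENNReal.ofReal (2 * π * η) := by
  have hπ := pi_pos
  have hm0 : (0 : ℝ) < m := by exact_mod_cast hm
  have hsub : {θ : ℝ | 0 < θ ∧ θ < π ∧ |sin (m * θ)| ≤ η} ⊆
      ⋃ j ∈ Finset.range (m + 1),
        Set.Icc ((j : ℝ) * π / m - π * η / (2 * m)) ((j : ℝ) * π / m + π * η / (2 * m)) := by
    rintro θ ⟨h0, h1, h2⟩
    have h3 := B12SinAux.dist_le h2
    set r := round ((m : ℝ) * θ / π) with hr
    have hx0 : 0 ≤ (m : ℝ) * θ / π := by positivity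
    have hx1 : (m : ℝ) * θ / π ≤ m := by
      rw [div_le_iff₀ hπ]
      exact mul_le_mul_of_nonneg_left h1.le hm0.le
    have hr0 : 0 ≤ r := by
      rw [hr, round_eq]
      exact Int.floor_nonneg.mpr (by linarith)
    have hr1 : r ≤ m := by
      have : r < (m : ℤ) + 1 := by
        rw [hr, round_eq, Int.floor_lt]
        push_cast
        linarith
      omega
    obtain ⟨j, hj⟩ := Int.eq_ofNat_of_zero_le hr0
    have hjm : j < m + 1 := by omega
    have hjr : (r : ℝ) = j := by rw [hj]; simp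
    rw [hjr, abs_le] at h3
    simp only [Set.mem_iUnion, Set.mem_Icc, Finset.mem_range]
    refine ⟨j, hjm, ?_, ?_⟩
    · rw [sub_le_iff_le_add, div_le_iff₀ hm0, add_mul]
      have : π * η / (2 * m) * m = π * η / 2 := by field_simp
      rw [this]
      linarith [h3.1]
    · rw [← sub_le_iff_le_add', le_div_iff₀ (by positivity)]
      have : (θ - (j : ℝ) * π / m) * (2 * m) = 2 * (m * θ - j * π) := by field_simp
      rw [this]
      linarith [h3.2]
  refine (measure_mono hsub).trans ((measure_biUnion_finset_le _ _).trans ?_)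
  simp only [Real.volume_Icc]
  have hlen : ∀ j : ℕ, (j : ℝ) * π / m + π * η / (2 * m) - ((j : ℝ) * π / m - π * η / (2 * m)) =
      π * η / m := by
    intro j
    field_simp
    ring
  simp only [hlen, Finset.sum_const, Finset.card_range, nsmul_eq_mul]
  have h1 : ((m + 1 : ℕ) : ENNReal) = ENNReal.ofReal ((m : ℝ) + 1) := by
    rw [← ENNReal.ofReal_natCast]
    push_cast
    rfl
  rw [h1, ← ENNReal.ofReal_mul (by positivity)]
  refine ENNReal.ofReal_le_ofReal ?_
  rw [mul_div_assoc', div_le_iff₀ hm0]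
  have hm1 : (1 : ℝ) ≤ m := by exact_mod_cast hm
  nlinarith [mul_nonneg hπ.le hη]

end

end BilEnt
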