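import Pool.Agent.BilEnt.B12Sin
import Pool.Agent.BilEnt.G16
import Pool.Agent.BilEnt.R11

/-!
# Part B, module B13Iso: mass of near returns
-/

open MeasureTheory Real

namespace BilEnt

noncomputable section

namespace B13IsoAux

theorem cont_Th {h : ℝ → ℝ} (hh : IsTab h) : Continuous (Th h) := by
  have := hh.c2.continuous_deriv (by norm_num)
  unfold Th
  fun_prop

/-- measure of `|sin (m θ)| ≤ η` for the Liouville measure of a table -/
theorem mu_sin_le {h : ℝ → ℝ} (hh : IsTab h) (m : ℕ) (hm : 1 ≤ m) {η : ℝ} (hη : 0 ≤ η) :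
    mu h {z | |sin (m * (z.2 - Th h z.1))| ≤ η} ≤
      ENNReal.ofReal (2 * π * (102 / 100 * (2 * π * η))) := by
  have hTh : Measurable (Th h) := (cont_Th hh).measurable
  have hS : MeasurableSet {z : ℝ × ℝ | |sin (m * (z.2 - Th h z.1))| ≤ η} := by
    refine measurableSet_le ?_ measurable_const
    have h1 : Measurable fun z : ℝ × ℝ => (m : ℝ) * (z.2 - Th h z.1) :=
      (measurable_snd.sub (hTh.comp measurable_fst)).const_mul _
    exact (continuous_abs.measurable.comp (continuous_sin.measurable.comp h1))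
  rw [← lintegral_indicator_one hS, mu_lintegral hh (measurable_one.indicator hS)]
  have hin : ∀ u : ℝ, ∫⁻ A in Set.Ioo (Th h u) (Th h u + π),
      ENNReal.ofReal (pw h (u, A)) *
        ({z : ℝ × ℝ | |sin (m * (z.2 - Th h z.1))| ≤ η}.indicator 1 (u, A)) ≤
      ENNReal.ofReal (102 / 100 * (2 * π * η)) := by
    intro u
    set B : Set ℝ := {θ : ℝ | 0 < θ ∧ θ < π ∧ |sin (m * θ)| ≤ η} with hB
    have hBm : MeasurableSet B := by
      have h1 : Measurable fun θ : ℝ => |sin ((m : ℝ) * θ)| := by fun_prop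
      exact (measurableSet_lt measurable_const measurable_id).inter
        ((measurableSet_lt measurable_id measurable_const).inter
          (measurableSet_le h1 measurable_const))
    set B' : Set ℝ := (fun A => A + -(Th h u)) ⁻¹' B with hB'
    have hB'm : MeasurableSet B' := (measurable_id.add_const _) hBm
    calc ∫⁻ A in Set.Ioo (Th h u) (Th h u + π), ENNReal.ofReal (pw h (u, A)) *
        ({z : ℝ × ℝ | |sin (m * (z.2 - Th h z.1))| ≤ η}.indicator 1 (u, A))
        ≤ ∫⁻ A in Set.Ioo (Th h u) (Th h u + π),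
            ENNReal.ofReal (102 / 100) * B'.indicator 1 A := by
          refine setLIntegral_mono' measurableSet_Ioo ?_
          intro A hA
          by_cases hAS : |sin (m * (A - Th h u))| ≤ η
          · have hAB : A ∈ B' := by
              refine ⟨?_, ?_, ?_⟩
              · show 0 < A + -Th h u
                linarith [hA.1]
              · show A + -Th h u < π
                linarith [hA.2]
              · show |sin (m * (A + -Th h u))| ≤ η
                rw [← sub_eq_add_neg]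
                exact hAS
            rw [Set.indicator_of_mem hAB, Set.indicator_of_mem (show (u, A) ∈ {z : ℝ × ℝ |
              |sin (m * (z.2 - Th h z.1))| ≤ η} from hAS)]
            refine mul_le_mul' (ENNReal.ofReal_le_ofReal ?_) le_rfl
            have h1 := (sp_bounds hh u)
            have h2 : pw h (u, A) = sp h u * sin (A - Th h u) := rfl
            rw [h2]
            have h3 := sin_le_one (A - Th h u)
            nlinarith [h1.1, h1.2]
          · rw [Set.indicator_of_notMem (show (u, A) ∉ {z : ℝ × ℝ |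
              |sin (m * (z.2 - Th h z.1))| ≤ η} from hAS), mul_zero]
            exact zero_le
      _ ≤ ∫⁻ A, ENNReal.ofReal (102 / 100) * B'.indicator 1 A := setLIntegral_le_lintegral _ _
      _ = ENNReal.ofReal (102 / 100) * volume B' := by
          rw [lintegral_const_mul _ (measurable_one.indicator hB'm), lintegral_indicator_one hB'm]
      _ = ENNReal.ofReal (102 / 100) * volume B := by
          rw [hB', measure_preimage_add_right]
      _ ≤ ENNReal.ofReal (102 / 100) * ENNReal.ofReal (2 * π * η) :=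
          mul_le_mul' le_rfl (sin_mul_measure m hm η hη)
      _ = ENNReal.ofReal (102 / 100 * (2 * π * η)) := by
          rw [← ENNReal.ofReal_mul (by norm_num)]
  calc ∫⁻ u in Set.Ico 0 (2 * π), ∫⁻ A in Set.Ioo (Th h u) (Th h u + π),
      ENNReal.ofReal (pw h (u, A)) *
        ({z : ℝ × ℝ | |sin (m * (z.2 - Th h z.1))| ≤ η}.indicator 1 (u, A))
      ≤ ∫⁻ _u in Set.Ico 0 (2 * π), ENNReal.ofReal (102 / 100 * (2 * π * η)) :=
        lintegral_mono fun u => hin u
    _ = ENNReal.ofReal (102 / 100 * (2 * π * η)) * volume (Set.Ico 0 (2 * π)) := by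
        rw [setLIntegral_const]
    _ = ENNReal.ofReal (2 * π * (102 / 100 * (2 * π * η))) := by
        rw [Real.volume_Ico, sub_zero, mul_comm, ← ENNReal.ofReal_mul (by positivity)]

/-- a near return forces `|sin (m θ₀)|` to be small -/
theorem sin_small {N : ℕ} (hN : N0 ≤ N) (ω : Om) {z : ℝ × ℝ} (hz : z ∈ dom (hw N ω)) {m : ℕ}
    (hm : 1 ≤ m) (h : ds z.1 (pth (hw N ω) z m).1 ≤ 3 * dl N 0) :
    |sin (m * (z.2 - Th (hw N ω) z.1))| ≤ 110 * (m : ℝ) ^ 2 / N := by
  have hπ := pi_pos
  have hN10 : 10 ≤ N := N0_ge.trans hN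
  have hNr : (10 : ℝ) ≤ N := by exact_mod_cast hN10
  have hN0 : (0 : ℝ) < N := by linarith
  have hm1 : (1 : ℝ) ≤ m := by exact_mod_cast hm
  obtain ⟨ht, hb, hb', -⟩ := tables hN ω
  have h1 := (near_circle_orbit ht hb hb' hz m).2
  set v := (pth (hw N ω) z m).1 with hv
  set θ := z.2 - Th (hw N ω) z.1 with hθ
  have h2 : |sin ((v - z.1) / 2)| ≤ 3 * π / N := by
    have h3 : ds z.1 v = 2 * |sin ((v - z.1) / 2)| := by
      unfold ds
      have : (z.1 - v) / 2 = -((v - z.1) / 2) := by ring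
      rw [this, sin_neg, abs_neg]
    have h4 : dl N 0 ≤ 2 * (π / N) := by
      have : dl N 0 = 2 * sin (π / N) := by simp [dl]
      rw [this]
      have := sin_le (show (0 : ℝ) ≤ π / N by positivity)
      linarith
    rw [h3] at h
    have h5 : 3 * π / N = 3 * (π / N) := by ring
    rw [h5]
    linarith
  have h6 : |(v - z.1) / 2 - m * θ| ≤ 100 * (m : ℝ) ^ 2 / N := by
    have h7 : (v - z.1) / 2 - m * θ = (v - z.1 - 2 * m * θ) / 2 := by ring
    rw [h7, abs_div, abs_of_pos (by norm_num : (0 : ℝ) < 2), div_le_iff₀ (by norm_num)]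
    refine h1.trans (le_of_eq ?_)
    field_simp
    norm_num
  have h8 : |sin (m * θ)| ≤ |sin ((v - z.1) / 2)| + |(v - z.1) / 2 - m * θ| := by
    have h9 : |sin (m * θ) - sin ((v - z.1) / 2)| ≤ |m * θ - (v - z.1) / 2| :=
      abs_sin_sub_sin_le _ _
    have h10 : |sin (m * θ)| ≤ |sin (m * θ) - sin ((v - z.1) / 2)| + |sin ((v - z.1) / 2)| := by
      have := abs_add_le (sin (m * θ) - sin ((v - z.1) / 2)) (sin ((v - z.1) / 2))
      rwa [sub_add_cancel] at this
    rw [abs_sub_comm (m * θ)] at h9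
    linarith
  have h11 : 3 * π / N ≤ 10 * (m : ℝ) ^ 2 / N := by
    have := pi_lt_d2
    refine div_le_div_of_nonneg_right ?_ hN0.le
    nlinarith
  have h12 : 110 * (m : ℝ) ^ 2 / N = 10 * (m : ℝ) ^ 2 / N + 100 * (m : ℝ) ^ 2 / N := by ring
  rw [h12]
  linarith

end B13IsoAux

/-- measure of the near returns with lag `m`.

PROOF. `h = hw N ω`, `|h|, |h'| ≤ 10/N =: d` (R06 `tables`). `near_circle_orbit`:
`|u_m - u_0 - 2 m θ₀| ≤ 20 d m²`, `θ₀ = A - Th u`. So `ds u_0 u_m = 2 |sin ((u_m - u_0)/2)| ≥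
2 |sin (m θ₀)| - 20 d m²` and `ds ≤ 3 dl N 0 ≤ 6π/N` gives `|sin (m θ₀)| ≤ C m²/N`. For fixed `ω, u`
(R11 `Pr_apply`, G15 `mu_lintegral`) integrate `pw ≤ 1.02` over `A = Th u + θ₀` with `sin_mul_measure`. -/
theorem iso_mass : ∃ C : ℝ, 0 ≤ C ∧ ∃ N1 : ℕ, ∀ N ≥ N1, ∀ m : ℕ, 1 ≤ m →
    (Pr N {y | ds y.2.1 (pth (hw N y.1) y.2 m).1 ≤ 3 * dl N 0}).toReal ≤ C * (m : ℝ) ^ 2 / N := by
  refine ⟨2 * π * (102 / 100 * (2 * π * 110)), by positivity, N0, ?_⟩
  intro N hN m hm
  have hN10 : 10 ≤ N := N0_ge.trans hN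
  have hN0 : (0 : ℝ) < N := by
    have : (10 : ℝ) ≤ N := by exact_mod_cast hN10
    linarith
  set η : ℝ := 110 * (m : ℝ) ^ 2 / N with hη
  have hη0 : 0 ≤ η := by positivity
  set S' : Set Yt := {y | |sin (m * (y.2.2 - Th (hw N y.1) y.2.1))| ≤ η} with hS'
  have hmeas : MeasurableSet S' := by
    refine measurableSet_le ?_ measurable_const
    have h0 : Measurable fun y : Yt => Th (hw N y.1) y.2.1 :=
      (measurable_Th_hw hN).comp (measurable_fst.prodMk (measurable_fst.comp measurable_snd))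
    have h1 : Measurable fun y : Yt => (m : ℝ) * (y.2.2 - Th (hw N y.1) y.2.1) :=
      ((measurable_snd.comp measurable_snd).sub h0).const_mul _
    exact (continuous_abs.measurable.comp (continuous_sin.measurable.comp h1))
  have hle : Pr N {y | ds y.2.1 (pth (hw N y.1) y.2 m).1 ≤ 3 * dl N 0} ≤ Pr N S' := by
    refine measure_mono_ae ?_
    filter_upwards [ae_mem_X0 hN] with y hy hyS
    exact B13IsoAux.sin_small hN y.1 hy.1 hm hyS
  have hle2 : Pr N S' ≤ ENNReal.ofReal (2 * π * (102 / 100 * (2 * π * η))) := by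
    rw [Pr_apply hN hmeas]
    calc ∫⁻ ω, mu (hw N ω) {z | (ω, z) ∈ S'} ∂PP
        ≤ ∫⁻ _ω, ENNReal.ofReal (2 * π * (102 / 100 * (2 * π * η))) ∂PP :=
          lintegral_mono fun ω => B13IsoAux.mu_sin_le (isTab_hw hN ω) m hm hη0
      _ = ENNReal.ofReal (2 * π * (102 / 100 * (2 * π * η))) := by simp
  have h3 := ENNReal.toReal_le_of_le_ofReal (by positivity) (hle.trans hle2)
  refine h3.trans (le_of_eq ?_)
  rw [hη]
  ring

end

end BilEnt
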