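import Pool.Agent.BilEnt.B02Orb
import Pool.Agent.BilEnt.R15
import Pool.Agent.BilEnt.R11
import Pool.Agent.BilEnt.R09
import Pool.Agent.BilEnt.B06Meas

/-!
# Part B, module B14Inn: mass of environments near the boundary of the cube
-/

open MeasureTheory Real

namespace BilEnt

noncomputable section

namespace B14InnAux

open scoped ENNReal

theorem pw_le {h : ℝ → ℝ} (hh : IsTab h) (z : ℝ × ℝ) : pw h z ≤ 102 / 100 := by
  unfold pw stt
  have h1 := sp_bounds hh z.1
  have h2 := Real.sin_le_one (z.2 - Th h z.1)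
  nlinarith [h1.1, h1.2]

/-- the mass in one table of a set depending on the position only -/
theorem mu_pos_le {h : ℝ → ℝ} (hh : IsTab h) {S : Set ℝ} (hS : MeasurableSet S) :
    mu h {z | z.1 ∈ S} ≤
      ∫⁻ u in Set.Ico 0 (2 * π), ENNReal.ofReal (102 / 100 * π) * S.indicator 1 u := by
  have hS' : MeasurableSet {z : ℝ × ℝ | z.1 ∈ S} := measurable_fst hS
  rw [← lintegral_indicator_one hS', mu_lintegral hh (measurable_one.indicator hS')]
  apply lintegral_mono
  intro u
  calc ∫⁻ A in Set.Ioo (Th h u) (Th h u + π),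
        ENNReal.ofReal (pw h (u, A)) * ({z : ℝ × ℝ | z.1 ∈ S}.indicator 1 (u, A))
      ≤ ∫⁻ _ in Set.Ioo (Th h u) (Th h u + π), ENNReal.ofReal (102 / 100) * S.indicator 1 u := by
        apply lintegral_mono
        intro A
        have e : ({z : ℝ × ℝ | z.1 ∈ S}.indicator (1 : ℝ × ℝ → ℝ≥0∞) (u, A)) =
            S.indicator (1 : ℝ → ℝ≥0∞) u := by
          by_cases hu : u ∈ S <;> simp [Set.indicator, hu]
        show ENNReal.ofReal (pw h (u, A)) * ({z : ℝ × ℝ | z.1 ∈ S}.indicator 1 (u, A)) ≤ _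
        rw [e]
        exact mul_le_mul' (ENNReal.ofReal_le_ofReal (pw_le hh (u, A))) le_rfl
    _ = ENNReal.ofReal (102 / 100 * π) * S.indicator 1 u := by
        rw [setLIntegral_const, Real.volume_Ioo, ENNReal.ofReal_mul (by norm_num)]
        have : Th h u + π - Th h u = π := by ring
        rw [this]
        ring

end B14InnAux

open B14InnAux

/-- measure of the environments for which the compensated orbit of the cell at `u` leaves the cube.

PROOF. `¬ Inn N ω u` depends on `(ω, u)` only, through `ω (0, cidx N u)`. For fixed `u` its `PP`-probability is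
`nu {x | ¬ …} ≤ C/N` (R15 `nu_not_inner`, R09 `PP_le_of_upd` or `lintegral_upd` with `F` = indicator;
measurability of `{(ω,u) | Inn N ω u}`: B06Meas `measurableSet_Inn`). `Pr_apply` (R11), `mu_lintegral` (G15),
`pw ≤ 1.02`, `A - Th u ∈ (0, π)`, Tonelli: at most `2π * π * 1.02 * C/N`. -/
theorem inn_mass : ∃ C : ℝ, 0 ≤ C ∧ ∃ N1 : ℕ, ∀ N ≥ N1,
    (Pr N {y | ¬ Inn N y.1 y.2.1}).toReal ≤ C / N := by
  obtain ⟨C, hC1, hC⟩ := nu_not_inner
  refine ⟨102 / 100 * π * (2 * π) * C, by positivity, N0, fun N hN => ?_⟩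
  have h10 : 10 ≤ N := N0_ge.trans hN
  have hm : MeasurableSet {p : Om × ℝ | ¬ Inn N p.1 p.2} := (measurableSet_Inn N).compl
  have hS : MeasurableSet {y : Yt | ¬ Inn N y.1 y.2.1} := by
    have hf : Measurable (fun y : Yt => ((y.1, y.2.1) : Om × ℝ)) :=
      measurable_fst.prodMk (measurable_fst.comp measurable_snd)
    exact hf hm
  have hmu : ∀ u : ℝ, MeasurableSet {ω : Om | ¬ Inn N ω u} := fun u =>
    (measurable_id.prodMk measurable_const : Measurable (fun ω : Om => ((ω, u) : Om × ℝ))) hm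
  have hmω : ∀ ω : Om, MeasurableSet {u : ℝ | ¬ Inn N ω u} := fun ω =>
    (measurable_const.prodMk measurable_id : Measurable (fun u : ℝ => ((ω, u) : Om × ℝ))) hm
  have hPP : ∀ u : ℝ, PP {ω : Om | ¬ Inn N ω u} ≤ ENNReal.ofReal (C / N) := by
    intro u
    refine PP_le_of_upd 0 (cidx N u) (hmu u) fun ω => ?_
    refine le_trans (measure_mono ?_) (hC h10 u)
    intro x hx
    simpa [Inn, upd] using hx
  set J : Om → ℝ → ENNReal := fun ω u => {p : Om × ℝ | ¬ Inn N p.1 p.2}.indicator 1 (ω, u) with hJ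
  have hJm : Measurable (Function.uncurry J) := measurable_one.indicator hm
  have hJ1 : ∀ ω u, J ω u = {u : ℝ | ¬ Inn N ω u}.indicator 1 u := by
    intro ω u
    by_cases hp : Inn N ω u <;> simp [hJ, Set.indicator, hp]
  have hJ2 : ∀ u, (fun ω => J ω u) = {ω : Om | ¬ Inn N ω u}.indicator 1 := by
    intro u
    funext ω
    by_cases hp : Inn N ω u <;> simp [hJ, Set.indicator, hp]
  have hmain : Pr N {y | ¬ Inn N y.1 y.2.1} ≤
      ENNReal.ofReal (102 / 100 * π * (2 * π) * C / N) := by
    rw [Pr_apply hN hS]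
    calc ∫⁻ ω, mu (hw N ω) {z | (ω, z) ∈ {y : Yt | ¬ Inn N y.1 y.2.1}} ∂PP
        ≤ ∫⁻ ω, (∫⁻ u in Set.Ico (0 : ℝ) (2 * π), ENNReal.ofReal (102 / 100 * π) * J ω u) ∂PP := by
          apply lintegral_mono
          intro ω
          have := mu_pos_le (isTab_hw hN ω) (hmω ω)
          simp only [← hJ1] at this
          exact this
      _ = ∫⁻ u in Set.Ico (0 : ℝ) (2 * π), (∫⁻ ω, ENNReal.ofReal (102 / 100 * π) * J ω u ∂PP) := by
          rw [lintegral_lintegral_swap]
          exact (hJm.const_mul _).aemeasurable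
      _ ≤ ∫⁻ _ in Set.Ico (0 : ℝ) (2 * π), ENNReal.ofReal (102 / 100 * π) *
            ENNReal.ofReal (C / N) := by
          apply lintegral_mono
          intro u
          have hJm' : Measurable (fun ω => J ω u) := by
            rw [hJ2 u]
            exact measurable_one.indicator (hmu u)
          show ∫⁻ ω, ENNReal.ofReal (102 / 100 * π) * J ω u ∂PP ≤ _
          rw [lintegral_const_mul _ hJm', hJ2 u, lintegral_indicator_one (hmu u)]
          exact mul_le_mul' le_rfl (hPP u)
      _ = ENNReal.ofReal (102 / 100 * π * (2 * π) * C / N) := by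
          rw [setLIntegral_const, Real.volume_Ico, ← ENNReal.ofReal_mul (by positivity),
            ← ENNReal.ofReal_mul (by positivity)]
          congr 1
          ring
  exact ENNReal.toReal_le_of_le_ofReal (by positivity) hmain

end

end BilEnt
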