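import Pool.Agent.BilEnt.B11Tem
import Pool.Agent.BilEnt.B13Iso
import Pool.Agent.BilEnt.B14Inn
import Pool.Agent.BilEnt.B06Meas
import Pool.Agent.BilEnt.B06Per
import Pool.Agent.BilEnt.R12

/-!
# Part B, module B15Good: (B1)
-/

open MeasureTheory Real

namespace BilEnt

noncomputable section

namespace B15GoodAux

/-- invariance of the mass of a periodic event -/
theorem shift {N : ℕ} (hN : N0 ≤ N) {S : Set Yt} (hS : MeasurableSet S)
    (hP : ∀ (ω : Om) (z : ℝ × ℝ), z ∈ dom (hw N ω) → (((ω, z + tau) : Yt) ∈ S ↔ (ω, z) ∈ S))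
    (m : ℕ) : Pr N {y : Yt | ((y.1, pth (hw N y.1) y.2 m) : Yt) ∈ S} = Pr N S := by
  classical
  have hm : Measurable (fun y : Yt => ((y.1, pth (hw N y.1) y.2 m) : Yt)) :=
    measurable_fst.prodMk (measurable_pth_hw hN m)
  have h := Pr_shift' hN (F := S.indicator 1) (measurable_one.indicator hS)
    (fun ω z hz => by simp only [Set.indicator, hP ω z hz, Pi.one_apply]) m
  rw [lintegral_indicator_one hS] at h
  rw [← h]
  exact (lintegral_indicator_one (hm hS)).symm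

theorem meas1 {N : ℕ} (hN : N0 ≤ N) (s : ℝ) :
    MeasurableSet {y : Yt | stt (hw N y.1) y.2 < s} :=
  measurableSet_lt (measurable_stt_hw hN) measurable_const

theorem meas_ds : Measurable (fun q : ℝ × ℝ => ds q.1 q.2) := continuous_ds.measurable

theorem comp_ds {f g : Yt → ℝ} (hf : Measurable f) (hg : Measurable g) :
    Measurable (fun y => ds (f y) (g y)) := by
  have h := meas_ds.comp (hf.prodMk hg)
  exact h

theorem meas2 {N : ℕ} (hN : N0 ≤ N) (m : ℕ) :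
    MeasurableSet {y : Yt | ds y.2.1 (pth (hw N y.1) y.2 m).1 ≤ 3 * dl N 0} := by
  have ha : Measurable (fun y : Yt => y.2.1) := measurable_fst.comp measurable_snd
  have hb : Measurable (fun y : Yt => (pth (hw N y.1) y.2 m).1) :=
    measurable_fst.comp (measurable_pth_hw hN m)
  exact measurableSet_le (comp_ds ha hb) measurable_const

theorem meas3 (N : ℕ) : MeasurableSet {y : Yt | ¬ Inn N y.1 y.2.1} := by
  have h1 : Measurable (fun y : Yt => (y.1, y.2.1)) :=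
    measurable_fst.prodMk (measurable_fst.comp measurable_snd)
  exact (h1 (measurableSet_Inn N)).compl

theorem shift1 {N : ℕ} (hN : N0 ≤ N) (s : ℝ) (t : ℕ) :
    Pr N {y : Yt | stt (hw N y.1) (pth (hw N y.1) y.2 t) < s} =
      Pr N {y : Yt | stt (hw N y.1) y.2 < s} := by
  refine shift hN (meas1 hN s) (fun ω z _ => ?_) t
  show stt (hw N ω) (z + tau) < s ↔ stt (hw N ω) z < s
  rw [stt_add_tau (isTab_hw hN ω)]

theorem shift2 {N : ℕ} (hN : N0 ≤ N) {i j : ℕ} (hij : i < j) :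
    Pr N {y : Yt | ds (pth (hw N y.1) y.2 i).1 (pth (hw N y.1) y.2 j).1 ≤ 3 * dl N 0} =
      Pr N {y : Yt | ds y.2.1 (pth (hw N y.1) y.2 (j - i)).1 ≤ 3 * dl N 0} := by
  have h := shift hN (meas2 hN (j - i)) (fun ω z hz => ?_) i
  · rw [← h]
    congr 1
    ext y
    show _ ↔ ds (pth (hw N y.1) y.2 i).1
      (pth (hw N y.1) (pth (hw N y.1) y.2 i) (j - i)).1 ≤ 3 * dl N 0
    have e : pth (hw N y.1) (pth (hw N y.1) y.2 i) (j - i) = pth (hw N y.1) y.2 j := by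
      unfold pth
      rw [← Function.iterate_add_apply, Nat.sub_add_cancel hij.le]
    rw [e]
    rfl
  · show ds (z + tau).1 (pth (hw N ω) (z + tau) (j - i)).1 ≤ 3 * dl N 0 ↔
      ds z.1 (pth (hw N ω) z (j - i)).1 ≤ 3 * dl N 0
    rw [pth_add_tau (isTab_hw hN ω) hz]
    show ds (z.1 + 2 * π) ((pth (hw N ω) z (j - i)).1 + 2 * π) ≤ 3 * dl N 0 ↔ _
    rw [ds_per_left, ds_per_right]

theorem shift3 {N : ℕ} (hN : N0 ≤ N) (t : ℕ) :
    Pr N {y : Yt | ¬ Inn N y.1 (pth (hw N y.1) y.2 t).1} =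
      Pr N {y : Yt | ¬ Inn N y.1 y.2.1} := by
  refine shift hN (meas3 N) (fun ω z _ => ?_) t
  show ¬ Inn N ω (z.1 + 2 * π) ↔ ¬ Inn N ω z.1
  rw [Inn_per (N0_ge.trans hN)]

/-- the complement of the good set -/
theorem compl_subset (N n : ℕ) : (Gset N n)ᶜ ⊆
    {y : Yt | ¬ y.2 ∈ X0 (hw N y.1)} ∪
    ((⋃ t ∈ Finset.range (n + 1), {y : Yt | stt (hw N y.1) (pth (hw N y.1) y.2 t) <
      1 / (n : ℝ) ^ 3}) ∪
    ((⋃ p ∈ ((Finset.range (n + 1)) ×ˢ (Finset.range (n + 1))).filter (fun p => p.1 < p.2),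
      {y : Yt | ds (pth (hw N y.1) y.2 p.1).1 (pth (hw N y.1) y.2 p.2).1 ≤ 3 * dl N 0}) ∪
    (⋃ t ∈ Finset.range (n + 1), {y : Yt | ¬ Inn N y.1 (pth (hw N y.1) y.2 t).1}))) := by
  intro y hy
  by_contra hc
  simp only [Set.mem_union, Set.mem_iUnion, not_or, not_exists] at hc
  obtain ⟨h0, h1, h2, h3⟩ := hc
  apply hy
  have h0' : y.2 ∈ X0 (hw N y.1) := not_not.1 h0
  refine ⟨h0'.1, fun t ht => ?_, fun i j hij hj => ?_, fun t ht => ?_⟩
  · exact not_lt.1 (h1 t (Finset.mem_range.2 (by omega)))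
  · refine not_le.1 (h2 (i, j) ?_)
    simp only [Finset.mem_filter, Finset.mem_product, Finset.mem_range]
    omega
  · exact not_not.1 (h3 t (Finset.mem_range.2 (by omega)))

end B15GoodAux

open B15GoodAux

/-- (B1) the bad set is small.

PROOF. On `{y.2 ∈ X0}` (full measure) `y ∉ Gset N n` implies one of: `stt (pth t) < 1/n³` for some `t ≤ n`;
`ds (pth i).1 (pth j).1 ≤ 3 dl N 0` for some `i < j ≤ n`; `¬ Inn N y.1 (pth t).1` for some `t ≤ n`.
By the invariance of `Pr N` under `TT N` and periodicity (R12 `Pr_shift'` with `F` the indicator of a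
`tau`-periodic measurable set `A`: `Pr N {y | (y.1, pth (hw N y.1) y.2 t) ∈ A} = Pr N A`; `ae_mem_X0`) the three masses are at most
`(n+1) C /n⁶`, `∑_{i<j≤n} C (j-i)²/N ≤ C (n+1)² n²/N`, `(n+1) C/N` (`tem_mass`, `iso_mass`, `inn_mass`;
for the second: `pth (j) = pth h (pth h z i) (j-i)`). -/
theorem good_mass : ∃ C : ℝ, 0 ≤ C ∧ ∃ N1 : ℕ, ∀ N ≥ N1, ∀ n : ℕ, 1 ≤ n →
    (Pr N (Gset N n)ᶜ).toReal ≤ C / (n : ℝ) ^ 5 + C * (n : ℝ) ^ 4 / N := by
  obtain ⟨C1, hC1, N1, h1⟩ := tem_mass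
  obtain ⟨C2, hC2, N2, h2⟩ := iso_mass
  obtain ⟨C3, hC3, N3, h3⟩ := inn_mass
  refine ⟨2 * C1 + 4 * C2 + 2 * C3, by positivity, max (max N0 N1) (max N2 N3),
    fun N hN n hn => ?_⟩
  have hN0 : N0 ≤ N := le_trans (le_trans (le_max_left _ _) (le_max_left _ _)) hN
  have hN1 : N1 ≤ N := le_trans (le_trans (le_max_right _ _) (le_max_left _ _)) hN
  have hN2 : N2 ≤ N := le_trans (le_trans (le_max_left _ _) (le_max_right _ _)) hN
  have hN3 : N3 ≤ N := le_trans (le_trans (le_max_right _ _) (le_max_right _ _)) hN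
  have hNp : (0 : ℝ) < N := by
    have : 10 ≤ N := N0_ge.trans hN0
    exact_mod_cast (by omega : 0 < N)
  have hnr : (1 : ℝ) ≤ n := by exact_mod_cast hn
  have hn0 : (0 : ℝ) < n := by linarith
  have := finite_Pr hN0
  have hz : (Pr N).real {y : Yt | ¬ y.2 ∈ X0 (hw N y.1)} = 0 := by
    rw [measureReal_def, ae_iff.1 (ae_mem_X0 hN0), ENNReal.toReal_zero]
  have b1 : (Pr N).real (⋃ t ∈ Finset.range (n + 1),
      {y : Yt | stt (hw N y.1) (pth (hw N y.1) y.2 t) < 1 / (n : ℝ) ^ 3}) ≤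
      (n + 1) * (C1 * (1 / (n : ℝ) ^ 3) ^ 2) := by
    refine (measureReal_biUnion_finset_le _ _).trans ?_
    refine (Finset.sum_le_sum (g := fun _ => C1 * (1 / (n : ℝ) ^ 3) ^ 2) fun t _ => ?_).trans ?_
    · rw [measureReal_def, shift1 hN0]
      exact h1 N hN1 _ (by positivity)
    · rw [Finset.sum_const, Finset.card_range, nsmul_eq_mul]
      push_cast
      exact le_refl _
  have b3 : (Pr N).real (⋃ t ∈ Finset.range (n + 1),
      {y : Yt | ¬ Inn N y.1 (pth (hw N y.1) y.2 t).1}) ≤ (n + 1) * (C3 / N) := by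
    refine (measureReal_biUnion_finset_le _ _).trans ?_
    refine (Finset.sum_le_sum (g := fun _ => C3 / N) fun t _ => ?_).trans ?_
    · rw [measureReal_def, shift3 hN0]
      exact h3 N hN3
    · rw [Finset.sum_const, Finset.card_range, nsmul_eq_mul]
      push_cast
      exact le_refl _
  have b2 : (Pr N).real (⋃ p ∈ ((Finset.range (n + 1)) ×ˢ (Finset.range (n + 1))).filter
      (fun p => p.1 < p.2),
      {y : Yt | ds (pth (hw N y.1) y.2 p.1).1 (pth (hw N y.1) y.2 p.2).1 ≤ 3 * dl N 0}) ≤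
      ((n + 1) * (n + 1)) * (C2 * (n : ℝ) ^ 2 / N) := by
    refine (measureReal_biUnion_finset_le _ _).trans ?_
    refine (Finset.sum_le_sum (g := fun _ => C2 * (n : ℝ) ^ 2 / N) fun p hp => ?_).trans ?_
    · simp only [Finset.mem_filter, Finset.mem_product, Finset.mem_range] at hp
      rw [measureReal_def, shift2 hN0 hp.2]
      refine (h2 N hN2 (p.2 - p.1) (by omega)).trans ?_
      have : ((p.2 - p.1 : ℕ) : ℝ) ≤ n := by exact_mod_cast (by omega : p.2 - p.1 ≤ n)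
      gcongr
    · rw [Finset.sum_const, nsmul_eq_mul]
      refine mul_le_mul_of_nonneg_right ?_ (by positivity)
      have := Finset.card_filter_le ((Finset.range (n + 1)) ×ˢ (Finset.range (n + 1)))
        (fun p => p.1 < p.2)
      rw [Finset.card_product, Finset.card_range] at this
      exact_mod_cast this
  have key : (Pr N (Gset N n)ᶜ).toReal ≤ 0 + ((n + 1) * (C1 * (1 / (n : ℝ) ^ 3) ^ 2) +
      (((n + 1) * (n + 1)) * (C2 * (n : ℝ) ^ 2 / N) + (n + 1) * (C3 / N))) := by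
    rw [← measureReal_def]
    refine (measureReal_mono (compl_subset N n)).trans ?_
    refine (measureReal_union_le _ _).trans (add_le_add hz.le ?_)
    refine (measureReal_union_le _ _).trans (add_le_add b1 ?_)
    exact (measureReal_union_le _ _).trans (add_le_add b2 b3)
  refine key.trans ?_
  have hn4 : (n : ℝ) ≤ (n : ℝ) ^ 4 := by
    calc (n : ℝ) = (n : ℝ) ^ 1 := (pow_one _).symm
      _ ≤ (n : ℝ) ^ 4 := pow_le_pow_right₀ hnr (by norm_num)
  have e1 : (n + 1) * (C1 * (1 / (n : ℝ) ^ 3) ^ 2) ≤ 2 * C1 / (n : ℝ) ^ 5 := by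
    have : (n : ℝ) + 1 ≤ 2 * n := by linarith
    calc (n + 1) * (C1 * (1 / (n : ℝ) ^ 3) ^ 2) ≤ (2 * n) * (C1 * (1 / (n : ℝ) ^ 3) ^ 2) :=
          mul_le_mul_of_nonneg_right this (by positivity)
      _ = 2 * C1 / (n : ℝ) ^ 5 := by field_simp
  have e2 : ((n : ℝ) + 1) * (n + 1) * (C2 * (n : ℝ) ^ 2 / N) ≤ 4 * C2 * (n : ℝ) ^ 4 / N := by
    have : ((n : ℝ) + 1) * (n + 1) ≤ 4 * (n : ℝ) ^ 2 := by nlinarith
    calc ((n : ℝ) + 1) * (n + 1) * (C2 * (n : ℝ) ^ 2 / N)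
        ≤ (4 * (n : ℝ) ^ 2) * (C2 * (n : ℝ) ^ 2 / N) :=
          mul_le_mul_of_nonneg_right this (by positivity)
      _ = 4 * C2 * (n : ℝ) ^ 4 / N := by ring
  have e3 : ((n : ℝ) + 1) * (C3 / N) ≤ 2 * C3 * (n : ℝ) ^ 4 / N := by
    have : (n : ℝ) + 1 ≤ 2 * (n : ℝ) ^ 4 := by linarith
    calc ((n : ℝ) + 1) * (C3 / N) ≤ (2 * (n : ℝ) ^ 4) * (C3 / N) :=
          mul_le_mul_of_nonneg_right this (by positivity)
      _ = 2 * C3 * (n : ℝ) ^ 4 / N := by ring
  have f1 : 2 * C1 / (n : ℝ) ^ 5 ≤ (2 * C1 + 4 * C2 + 2 * C3) / (n : ℝ) ^ 5 := by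
    gcongr
    linarith
  have f2 : 4 * C2 * (n : ℝ) ^ 4 / N + 2 * C3 * (n : ℝ) ^ 4 / N ≤
      (2 * C1 + 4 * C2 + 2 * C3) * (n : ℝ) ^ 4 / N := by
    rw [← add_div]
    gcongr
    have : 0 ≤ 2 * C1 * (n : ℝ) ^ 4 := by positivity
    nlinarith
  linarith

end

end BilEnt
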