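import Pool.Agent.BilEnt.S01

/-!
# Part S, module S06: integrability
-/

open MeasureTheory Real Filter Topology Matrix
open scoped ENNReal

namespace BilEnt

noncomputable section

/-- sum over the scales `2^j n0` of the normalised defects -/
def DD {Y : Type*} (T Ti : Y → Y) (M : Y → Matrix (Fin 2) (Fin 2) ℝ) (n0 : ℕ) (y : Y) : ℝ :=
  ∑' j : ℕ, Dn T Ti M (2 ^ j * n0) y / (2 ^ (j + 1) * n0)

variable {Y : Type*} [MeasurableSpace Y] {μ : Measure Y} {T Ti : Y → Y}
  {M : Y → Matrix (Fin 2) (Fin 2) ℝ}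

/-- PROOF: `0 ≤ la T M k ≤ 1 + ∑ i < k, l ∘ T^[i]` (`s_la_nonneg`, `s_la_le_sum`), `l ∘ T^[i]` is
integrable (`MeasurePreserving.iterate`, `.integrable_comp`), `Integrable.mono'`. -/
theorem s_int_la (h : SSys μ T Ti M) (hl : Integrable (fun y => log (fn (M y))) μ) (k : ℕ) :
    Integrable (fun y => la T M k y) μ := by
  have := h.fin
  have hi : ∀ i, Integrable (fun y => log (fn (M (T^[i] y)))) μ := fun i =>
    (h.mT.iterate i).integrable_comp_of_integrable hl
  refine Integrable.mono' (g := fun y => 1 + ∑ i ∈ Finset.range k, log (fn (M (T^[i] y)))) ?_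
    (s_meas_la h.mT.measurable h.mM k).aestronglyMeasurable ?_
  · exact (integrable_const 1).add (integrable_finsetSum _ fun i _ => hi i)
  · refine Filter.Eventually.of_forall fun y => ?_
    rw [Real.norm_of_nonneg (s_la_nonneg h.det k y)]
    exact s_la_le_sum h.det k y

/-- PROOF: `s_Dn_nonneg`, `s_Dn_le_sum`, `l ∘ T^[i] ∘ Ti^[l']` integrable. -/
theorem s_int_Dn (h : SSys μ T Ti M) (hl : Integrable (fun y => log (fn (M y))) μ) (n : ℕ) :
    Integrable (fun y => Dn T Ti M n y) μ := by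
  have := h.fin
  have hi : ∀ i, Integrable (fun y => log (fn (M (T^[i] y)))) μ := fun i =>
    (h.mT.iterate i).integrable_comp_of_integrable hl
  have hi' : ∀ i l', Integrable (fun y => log (fn (M (T^[i] (Ti^[l'] y))))) μ := fun i l' =>
    (h.mTi.iterate l').integrable_comp_of_integrable (hi i)
  refine Integrable.mono' (g := fun y => 2 + ∑ i ∈ Finset.range n, log (fn (M (T^[i] y)))
      + ∑ l' ∈ Finset.range (n + 1), ∑ i ∈ Finset.range l', log (fn (M (T^[i] (Ti^[l'] y))))) ?_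
    (s_meas_Dn h.mT.measurable h.mTi.measurable h.mM n).aestronglyMeasurable ?_
  · exact ((integrable_const 2).add (integrable_finsetSum _ fun i _ => hi i)).add
      (integrable_finsetSum _ fun l' _ => integrable_finsetSum _ fun i _ => hi' i l')
  · refine Filter.Eventually.of_forall fun y => ?_
    rw [Real.norm_of_nonneg (s_Dn_nonneg n y)]
    exact s_Dn_le_sum h.det n y

/-- PROOF: `∑ j, ∫⁻ ofReal (D_j / N_{j+1}) = ∑ j, ofReal (∫ D_j / N_{j+1}) < ∞`
(`ofReal_integral_eq_lintegral_ofReal`, `Summable.tsum_ofReal_lt_top` or `ENNReal.ofReal_tsum_of_nonneg`),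
so a.e. finiteness of `∑ ofReal` (`ae_lt_top`, `lintegral_tsum`) gives the a.e. summability.
Measurability of `DD`: the real `tsum` of nonnegative measurable functions is the `toReal` of the
`ENNReal` `tsum` when finite and `0` when not summable (when the `ENNReal` sum is `⊤`, whose `toReal` is
`0` also).  So `DD = fun y => (∑' j, ofReal (D_j y / N_{j+1})).toReal` everywhere
(`ENNReal.tsum_toReal_eq`... / `tsum_eq_toReal`...), which is measurable.
Integral: `integral_tsum_of_summable_integral_norm` or `MeasureTheory.hasSum_integral_of_summable_integral_norm`. -/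
theorem s_DD (h : SSys μ T Ti M) (hl : Integrable (fun y => log (fn (M y))) μ) (n0 : ℕ)
    (hS : Summable fun j : ℕ => (∫ y, Dn T Ti M (2 ^ j * n0) y ∂μ) / (2 ^ (j + 1) * n0)) :
    (∀ᵐ y ∂μ, Summable fun j : ℕ => Dn T Ti M (2 ^ j * n0) y / (2 ^ (j + 1) * n0)) ∧
    Measurable (DD T Ti M n0) ∧ Integrable (DD T Ti M n0) μ ∧
    ∫ y, DD T Ti M n0 y ∂μ =
      ∑' j : ℕ, (∫ y, Dn T Ti M (2 ^ j * n0) y ∂μ) / (2 ^ (j + 1) * n0) := by
  have hnn : ∀ (j : ℕ) (y : Y), 0 ≤ Dn T Ti M (2 ^ j * n0) y / (2 ^ (j + 1) * n0) :=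
    fun j y => div_nonneg (s_Dn_nonneg _ _) (by positivity)
  have hme : ∀ j : ℕ, Measurable fun y => Dn T Ti M (2 ^ j * n0) y / (2 ^ (j + 1) * n0 : ℝ) :=
    fun j => (s_meas_Dn h.mT.measurable h.mTi.measurable h.mM _).div_const _
  have hint : ∀ j : ℕ, Integrable (fun y => Dn T Ti M (2 ^ j * n0) y / (2 ^ (j + 1) * n0 : ℝ)) μ :=
    fun j => (s_int_Dn h hl _).div_const _
  have hval : ∀ j : ℕ, ∫ y, Dn T Ti M (2 ^ j * n0) y / (2 ^ (j + 1) * n0 : ℝ) ∂μ =
      (∫ y, Dn T Ti M (2 ^ j * n0) y ∂μ) / (2 ^ (j + 1) * n0) := fun j => integral_div _ _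
  have hnn' : ∀ j : ℕ, 0 ≤ (∫ y, Dn T Ti M (2 ^ j * n0) y ∂μ) / (2 ^ (j + 1) * n0) := fun j => by
    rw [← hval j]; exact integral_nonneg fun y => hnn j y
  -- the extended real sum
  have hmE : Measurable fun y => ∑' j : ℕ,
      ENNReal.ofReal (Dn T Ti M (2 ^ j * n0) y / (2 ^ (j + 1) * n0)) :=
    Measurable.tsum fun j => (hme j).ennreal_ofReal
  have hfin : ∫⁻ y, ∑' j : ℕ, ENNReal.ofReal (Dn T Ti M (2 ^ j * n0) y / (2 ^ (j + 1) * n0)) ∂μ ≠ ⊤ := by
    rw [lintegral_tsum fun j => (hme j).ennreal_ofReal.aemeasurable]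
    have h1 : ∀ j : ℕ, ∫⁻ y, ENNReal.ofReal (Dn T Ti M (2 ^ j * n0) y / (2 ^ (j + 1) * n0)) ∂μ =
        ENNReal.ofReal ((∫ y, Dn T Ti M (2 ^ j * n0) y ∂μ) / (2 ^ (j + 1) * n0)) := by
      intro j
      rw [← hval j, ofReal_integral_eq_lintegral_ofReal (hint j)
        (Filter.Eventually.of_forall fun y => hnn j y)]
    simp_rw [h1]
    rw [← ENNReal.ofReal_tsum_of_nonneg hnn' hS]
    exact ENNReal.ofReal_ne_top
  have hDD : DD T Ti M n0 = fun y => (∑' j : ℕ,
      ENNReal.ofReal (Dn T Ti M (2 ^ j * n0) y / (2 ^ (j + 1) * n0))).toReal := by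
    funext y
    unfold DD
    rw [ENNReal.tsum_toReal_eq fun j => ENNReal.ofReal_ne_top]
    exact tsum_congr fun j => (ENNReal.toReal_ofReal (hnn j y)).symm
  refine ⟨?_, ?_, ?_, ?_⟩
  · filter_upwards [ae_lt_top hmE hfin] with y hy
    have h2 := ENNReal.summable_toReal hy.ne
    refine h2.congr fun j => ?_
    exact ENNReal.toReal_ofReal (hnn j y)
  · rw [hDD]; exact hmE.ennreal_toReal
  · rw [hDD]; exact integrable_toReal_of_lintegral_ne_top hmE.aemeasurable hfin
  · have h3 := hasSum_integral_of_summable_integral_norm (μ := μ) hint (by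
      refine hS.congr fun j => ?_
      rw [← hval j]
      refine integral_congr_ae (Filter.Eventually.of_forall fun y => ?_)
      simp only
      rw [Real.norm_of_nonneg (hnn j y)])
    have h4 := h3.tsum_eq
    unfold DD
    rw [← h4]
    exact tsum_congr fun j => hval j

theorem s_DD_nonneg (n0 : ℕ) (y : Y) : 0 ≤ DD T Ti M n0 y :=
  tsum_nonneg fun j => div_nonneg (s_Dn_nonneg _ _) (by positivity)

end

end BilEnt
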