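import Pool.Agent.BilEnt.R11
import Pool.Agent.BilEnt.G12
import Pool.Agent.BilEnt.S06

/-!
# Part B, module B15Int: integrability of the logarithm of the cocycle
-/

open MeasureTheory Real
open scoped ENNReal

namespace BilEnt

noncomputable section

namespace B15IntAux

theorem mul_log_le {x : ℝ} (hx : 0 < x) (c : ℝ) (hc : 0 ≤ c) (hx1 : x ≤ 1) :
    x * (c - log x) ≤ c + 1 := by
  have h1 : -log x ≤ 1 / x - 1 := by
    have := Real.log_le_sub_one_of_pos (show 0 < 1 / x by positivity)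
    rw [one_div, Real.log_inv] at this
    rw [one_div]
    linarith
  have h2 : x * (-log x) ≤ x * (1 / x - 1) := mul_le_mul_of_nonneg_left h1 hx.le
  have h3 : x * (1 / x - 1) = 1 - x := by field_simp
  nlinarith

theorem fn_le {M : Matrix (Fin 2) (Fin 2) ℝ} {b : ℝ} (hb : 0 ≤ b) (h : ∀ i j, |M i j| ≤ b) :
    fn M ≤ 2 * b := by
  unfold fn
  rw [show 2 * b = sqrt ((2 * b) ^ 2) by rw [Real.sqrt_sq (by linarith)]]
  apply Real.sqrt_le_sqrt
  have e : ∀ i j, M i j ^ 2 ≤ b ^ 2 := fun i j => by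
    rw [← sq_abs]; exact pow_le_pow_left₀ (abs_nonneg _) (h i j) 2
  nlinarith [e 0 0, e 0 1, e 1 0, e 1 1]

end B15IntAux

open B15IntAux in
theorem lintegral_log_stt {N : ℕ} (hN : N0 ≤ N) (c : ℝ) (hc : 0 ≤ c) :
    ∫⁻ y, ENNReal.ofReal (c - log (stt (hw N y.1) y.2)) ∂(Pr N) < ⊤ := by
  have hm : Measurable (fun y : Yt => ENNReal.ofReal (c - log (stt (hw N y.1) y.2))) :=
    ENNReal.measurable_ofReal.comp
      (measurable_const.sub (Real.measurable_log.comp (measurable_stt_hw hN)))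
  rw [Pr_lintegral hN hm]
  set K : ℝ := 102 / 100 * (c + 1) with hK
  have hK0 : 0 ≤ K := by rw [hK]; positivity
  have h1 : ∀ ω : Om, ∫⁻ z, ENNReal.ofReal (c - log (stt (hw N ω) z)) ∂(mu (hw N ω)) ≤
      ENNReal.ofReal (2 * π) * (ENNReal.ofReal π * ENNReal.ofReal K) := by
    intro ω
    have hh := isTab_hw hN ω
    have hml : Measurable (fun z : ℝ × ℝ => ((ω, z) : Yt)) := measurable_prodMk_left
    have hms0 := (measurable_stt_hw hN).comp hml
    have hms : Measurable (fun z : ℝ × ℝ => stt (hw N ω) z) := by exact hms0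
    have hm' : Measurable (fun z : ℝ × ℝ => ENNReal.ofReal (c - log (stt (hw N ω) z))) :=
      ENNReal.measurable_ofReal.comp
        (measurable_const.sub (Real.measurable_log.comp hms))
    rw [mu_lintegral hh hm']
    have hin : ∀ u : ℝ, (∫⁻ A in Set.Ioo (Th (hw N ω) u) (Th (hw N ω) u + π),
        ENNReal.ofReal (pw (hw N ω) (u, A)) *
          ENNReal.ofReal (c - log (stt (hw N ω) (u, A)))) ≤
        ENNReal.ofReal π * ENNReal.ofReal K := by
      intro u
      have hle : (∫⁻ A in Set.Ioo (Th (hw N ω) u) (Th (hw N ω) u + π),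
        ENNReal.ofReal (pw (hw N ω) (u, A)) *
          ENNReal.ofReal (c - log (stt (hw N ω) (u, A)))) ≤
          ∫⁻ _A in Set.Ioo (Th (hw N ω) u) (Th (hw N ω) u + π), ENNReal.ofReal K := by
        refine setLIntegral_mono' measurableSet_Ioo fun A hA => ?_
        have hz : (u, A) ∈ dom (hw N ω) := ⟨hA.1, hA.2⟩
        obtain ⟨p1, p2, p3⟩ := pw_bounds hh hz
        have ps := stt_pos hz
        have pp := pw_pos hh hz
        rw [← ENNReal.ofReal_mul pp.le]
        apply ENNReal.ofReal_le_ofReal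
        have h2 : 0 ≤ c - log (stt (hw N ω) (u, A)) := by
          have := Real.log_nonpos ps.le p3
          linarith
        have h3 : pw (hw N ω) (u, A) * (c - log (stt (hw N ω) (u, A))) ≤
            102 / 100 * stt (hw N ω) (u, A) * (c - log (stt (hw N ω) (u, A))) :=
          mul_le_mul_of_nonneg_right p2 h2
        have h4 := mul_log_le ps c hc p3
        rw [hK]
        nlinarith
      refine le_trans hle (le_of_eq ?_)
      rw [setLIntegral_const, Real.volume_Ioo, mul_comm]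
      congr 2
      ring
    refine le_trans (lintegral_mono hin) (le_of_eq ?_)
    rw [setLIntegral_const, Real.volume_Ico, sub_zero, mul_comm]
  calc ∫⁻ ω, ∫⁻ z, ENNReal.ofReal (c - log (stt (hw N ω) z)) ∂(mu (hw N ω)) ∂PP
      ≤ ∫⁻ _ω, ENNReal.ofReal (2 * π) * (ENNReal.ofReal π * ENNReal.ofReal K) ∂PP :=
        lintegral_mono h1
    _ = ENNReal.ofReal (2 * π) * (ENNReal.ofReal π * ENNReal.ofReal K) := by
        rw [lintegral_const, measure_univ, mul_one]
    _ < ⊤ := by
        exact ENNReal.mul_lt_top ENNReal.ofReal_lt_top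
          (ENNReal.mul_lt_top ENNReal.ofReal_lt_top ENNReal.ofReal_lt_top)

open B15IntAux in
/-- `l = log ‖M‖` is integrable -/
theorem integrable_log_fn_MM {N : ℕ} (hN : N0 ≤ N) :
    Integrable (fun y => log (fn (MM N y))) (Pr N) := by
  have hmeas : Measurable (fun y => log (fn (MM N y))) :=
    Real.measurable_log.comp (s_meas_fn (measurable_MM hN))
  refine ⟨hmeas.aestronglyMeasurable, ?_⟩
  have hc : (0 : ℝ) ≤ log (2 * 10 ^ 5) := Real.log_nonneg (by norm_num)
  refine lt_of_le_of_lt ?_ (lintegral_log_stt hN (log (2 * 10 ^ 5)) hc)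
  refine lintegral_mono_ae ?_
  filter_upwards [ae_mem_X0 hN] with y hy
  have hh := isTab_hw hN y.1
  have hz : y.2 ∈ dom (hw N y.1) := hy.1
  have ps := stt_pos hz
  have h0 : 0 ≤ log (fn (MM N y)) := Real.log_nonneg (s_one_le_fn (det_MM N y))
  rw [Real.enorm_of_nonneg h0]
  apply ENNReal.ofReal_le_ofReal
  have hM : MM N y = Mc (hw N y.1) y.2 := by
    unfold MM
    rw [if_pos hy]
  have h1 : fn (MM N y) ≤ 2 * (10 ^ 5 / stt (hw N y.1) y.2) := by
    rw [hM]
    exact fn_le (by positivity) (fun i j => Mc_bound hh hz i j)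
  have h2 : log (fn (MM N y)) ≤ log (2 * (10 ^ 5 / stt (hw N y.1) y.2)) :=
    Real.log_le_log (s_fn_pos (det_MM N y)) h1
  have h3 : log (2 * (10 ^ 5 / stt (hw N y.1) y.2)) =
      log (2 * 10 ^ 5) - log (stt (hw N y.1) y.2) := by
    rw [← Real.log_div (by norm_num) ps.ne']
    congr 1
    ring
  rw [h3] at h2
  exact h2

theorem mp_TTi {N : ℕ} (hN : N0 ≤ N) : MeasurePreserving (TTi N) (Pr N) (Pr N) := by
  refine ⟨measurable_TTi hN, ?_⟩
  have h1 := (mp_TT hN).map_eq
  have h2 : Measure.map (TTi N) (Measure.map (TT N) (Pr N)) = Pr N := by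
    rw [Measure.map_map (measurable_TTi hN) (measurable_TT hN)]
    have : TTi N ∘ TT N = id := funext fun y => TTi_TT hN y
    rw [this, Measure.map_id]
  rw [h1] at h2
  exact h2

theorem ssys_TT {N : ℕ} (hN : N0 ≤ N) : SSys (Pr N) (TT N) (TTi N) (MM N) where
  fin := finite_Pr hN
  li := TTi_TT hN
  ri := TT_TTi hN
  mT := mp_TT hN
  mTi := mp_TTi hN
  mM := measurable_MM hN
  det := det_MM N

theorem integrable_log_fn_ac {N : ℕ} (hN : N0 ≤ N) (n : ℕ) :
    Integrable (fun y => log (fn (ac (TT N) (MM N) n y))) (Pr N) :=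
  s_int_la (ssys_TT hN) (integrable_log_fn_MM hN) n

end

end BilEnt
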