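import Pool.Agent.BilEnt.B05Bd3
import Pool.Agent.BilEnt.B09Mass
import Pool.Agent.BilEnt.B06Meas
import Pool.Agent.BilEnt.B06Per
import Pool.Agent.BilEnt.R12
import Pool.Agent.BilEnt.B05Bd4

/-!
# Part B, module B16HC: integrals of `log (HC / 2)`
-/

open MeasureTheory Real

namespace BilEnt

noncomputable section

namespace B16HCAux

/-- bounds for the logarithm of the bump -/
theorem log_beta_bd {N : ℕ} (hb : ∀ u : ℝ, 1 / 4 ≤ betaN N u ∧ betaN N u ≤ 1) (u : ℝ) :
    log (1 / 4) ≤ log (betaN N u) ∧ log (betaN N u) ≤ 0 := by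
  obtain ⟨h1, h2⟩ := hb u
  exact ⟨Real.log_le_log (by norm_num) h1, Real.log_nonpos (by linarith) h2⟩

theorem norm_log_beta {N : ℕ} (hb : ∀ u : ℝ, 1 / 4 ≤ betaN N u ∧ betaN N u ≤ 1) (u : ℝ) :
    ‖log (betaN N u)‖ ≤ -log (1 / 4) := by
  obtain ⟨h1, h2⟩ := log_beta_bd hb u
  rw [Real.norm_eq_abs, abs_of_nonpos h2]
  linarith

/-- stationarity of `log betaN` along the orbit -/
theorem shift_log_beta {N : ℕ} (hN : N0 ≤ N)
    (hb : ∀ u : ℝ, 1 / 4 ≤ betaN N u ∧ betaN N u ≤ 1) (t : ℕ) :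
    ∫ y, log (betaN N (pth (hw N y.1) y.2 t).1) ∂(Pr N) =
      ∫ y, log (betaN N y.2.1) ∂(Pr N) := by
  have hm0 : Measurable (fun y : Yt => log (betaN N y.2.1)) :=
    ((measurable_betaN N).comp (measurable_snd.fst)).log
  have hm1 : Measurable (fun y : Yt => log (betaN N (pth (hw N y.1) y.2 t).1)) :=
    ((measurable_betaN N).comp (measurable_pth_hw hN t).fst).log
  have hF : Measurable (fun y : Yt => ENNReal.ofReal (-log (betaN N y.2.1))) :=
    ENNReal.measurable_ofReal.comp hm0.neg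
  have hP : PerF N (fun y : Yt => ENNReal.ofReal (-log (betaN N y.2.1))) := by
    intro ω z _
    have e : (z + tau).1 = z.1 + 2 * π := by simp [tau]
    simp only [e, betaN_per (N0_ge.trans hN)]
  have hsh := Pr_shift' hN hF hP t
  have h1 : ∫ y, -log (betaN N (pth (hw N y.1) y.2 t).1) ∂(Pr N) =
      ∫ y, -log (betaN N y.2.1) ∂(Pr N) := by
    rw [integral_eq_lintegral_of_nonneg_ae, integral_eq_lintegral_of_nonneg_ae]
    · exact congrArg ENNReal.toReal hsh
    · exact Filter.Eventually.of_forall fun y => by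
        have := (log_beta_bd hb y.2.1).2
        show (0 : ℝ) ≤ -log (betaN N y.2.1)
        linarith
    · exact hm0.neg.aestronglyMeasurable
    · exact Filter.Eventually.of_forall fun y => by
        have := (log_beta_bd hb (pth (hw N y.1) y.2 t).1).2
        show (0 : ℝ) ≤ -log (betaN N (pth (hw N y.1) y.2 t).1)
        linarith
    · exact hm1.neg.aestronglyMeasurable
  rw [integral_neg, integral_neg] at h1
  linarith

end B16HCAux

open B16HCAux

/-- lower bound for the integrals of `log (HC/2)`.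

PROOF. `good_log`: on the good set `log (HC t/2) ≥ log (2 aa) + log betaN(u_t) - C n³/N`; `log betaN ≤ 0`
(`betaN_bounds`), so `∫_G log betaN(u_t) ≥ ∫ log betaN (u_t) dPr = ∫ log betaN (u_0) dPr` (R12 `Pr_shift'` for
`-log betaN ≥ 0`, `betaN_per`); `Pr N univ ≤ 14`. -/
theorem int_log_HC : ∃ C : ℝ, 1 ≤ C ∧ ∃ N1 : ℕ, ∀ N ≥ N1, ∀ n : ℕ, 1 ≤ n → C * (n : ℝ) ^ 3 ≤ N →
    ∀ t < n, log (2 * aa) * (Pr N (Gset N n)).toReal + ∫ y, log (betaN N y.2.1) ∂(Pr N) -
      C * (n : ℝ) ^ 3 / N ≤ ∫ y in Gset N n, log (HC N y t / 2) ∂(Pr N) := by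
  obtain ⟨C, hC, Na, hNa⟩ := good_log
  obtain ⟨Nb, hNb⟩ := betaN_bounds
  obtain ⟨Nc, hNc⟩ := good_bdd
  refine ⟨13 * C, by linarith, max N0 (max Na (max Nb Nc)), ?_⟩
  intro N hN n hn hCn t ht
  have hN0 : N0 ≤ N := (le_max_left _ _).trans hN
  have hN1 : Na ≤ N := ((le_max_left _ _).trans (le_max_right _ _)).trans hN
  have hN2 : Nb ≤ N :=
    (((le_max_left _ _).trans (le_max_right _ _)).trans (le_max_right _ _)).trans hN
  have hN3 : Nc ≤ N :=
    (((le_max_right _ _).trans (le_max_right _ _)).trans (le_max_right _ _)).trans hN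
  have hn3 : (0 : ℝ) ≤ (n : ℝ) ^ 3 := by positivity
  have hCn' : C * (n : ℝ) ^ 3 ≤ N := by
    have : C * (n : ℝ) ^ 3 ≤ 13 * C * (n : ℝ) ^ 3 := by nlinarith [mul_nonneg (by linarith : (0 : ℝ) ≤ C) hn3]
    linarith
  have hNnn : (0 : ℝ) ≤ N := Nat.cast_nonneg N
  have : IsFiniteMeasure (Pr N) := finite_Pr hN0
  have hb := hNb N hN2
  have hGm : MeasurableSet (Gset N n) := measurableSet_Gset hN0 n
  obtain ⟨B, hB⟩ := hNc N hN3 n hn 1 one_pos
  -- measurability
  have hm1 : Measurable (fun y : Yt => log (betaN N (pth (hw N y.1) y.2 t).1)) :=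
    ((measurable_betaN N).comp (measurable_pth_hw hN0 t).fst).log
  have hmH : Measurable (fun y : Yt => log (HC N y t / 2)) :=
    ((measurable_HC hN0 t).div_const 2).log
  have hf : Integrable (fun y : Yt => log (betaN N (pth (hw N y.1) y.2 t).1)) (Pr N) :=
    Integrable.of_bound hm1.aestronglyMeasurable (-log (1 / 4))
      (Filter.Eventually.of_forall fun y => norm_log_beta hb _)
  have hH : IntegrableOn (fun y : Yt => log (HC N y t / 2)) (Gset N n) (Pr N) := by
    refine Integrable.of_bound hmH.aestronglyMeasurable B ?_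
    rw [ae_restrict_iff' hGm]
    exact Filter.Eventually.of_forall fun y hy => by
      rw [Real.norm_eq_abs]
      exact (hB y hy t ht.le).2.1
  have hL : IntegrableOn (fun y : Yt => log (2 * aa) + log (betaN N (pth (hw N y.1) y.2 t).1) -
      C * (n : ℝ) ^ 3 / N) (Gset N n) (Pr N) :=
    ((integrable_const _).add hf.integrableOn).sub (integrable_const _)
  have h1 : ∫ y in Gset N n, (log (2 * aa) + log (betaN N (pth (hw N y.1) y.2 t).1) -
      C * (n : ℝ) ^ 3 / N) ∂(Pr N) ≤ ∫ y in Gset N n, log (HC N y t / 2) ∂(Pr N) :=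
    setIntegral_mono_on hL hH hGm fun y hy => hNa N hN1 n hn hCn' y hy t ht.le
  have h2 : ∫ y in Gset N n, (log (2 * aa) + log (betaN N (pth (hw N y.1) y.2 t).1) -
      C * (n : ℝ) ^ 3 / N) ∂(Pr N) = log (2 * aa) * (Pr N (Gset N n)).toReal +
      ∫ y in Gset N n, log (betaN N (pth (hw N y.1) y.2 t).1) ∂(Pr N) -
      C * (n : ℝ) ^ 3 / N * (Pr N (Gset N n)).toReal := by
    have hL1 : IntegrableOn (fun y : Yt => log (2 * aa) +
        log (betaN N (pth (hw N y.1) y.2 t).1)) (Gset N n) (Pr N) :=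
      (integrable_const _).add hf.integrableOn
    rw [integral_sub hL1 (integrable_const _),
      integral_add (integrable_const _) hf.integrableOn, setIntegral_const, setIntegral_const]
    simp only [smul_eq_mul, Measure.real]
    ring
  have h3 : ∫ y, log (betaN N (pth (hw N y.1) y.2 t).1) ∂(Pr N) ≤
      ∫ y in Gset N n, log (betaN N (pth (hw N y.1) y.2 t).1) ∂(Pr N) := by
    rw [← integral_add_compl hGm hf]
    have : ∫ y in (Gset N n)ᶜ, log (betaN N (pth (hw N y.1) y.2 t).1) ∂(Pr N) ≤ 0 :=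
      integral_nonpos fun y => (log_beta_bd hb _).2
    linarith
  rw [shift_log_beta hN0 hb t] at h3
  have h4 : (Pr N (Gset N n)).toReal ≤ 13 := by
    have h5 : Pr N (Gset N n) ≤ ENNReal.ofReal 13 := (measure_mono (Set.subset_univ _)).trans
      (Pr_univ_le hN0)
    have h6 := ENNReal.toReal_mono ENNReal.ofReal_ne_top h5
    rwa [ENNReal.toReal_ofReal (by norm_num)] at h6
  have h7 : C * (n : ℝ) ^ 3 / N * (Pr N (Gset N n)).toReal ≤ 13 * C * (n : ℝ) ^ 3 / N := by
    have h8 : 0 ≤ C * (n : ℝ) ^ 3 / N := by positivity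
    calc C * (n : ℝ) ^ 3 / N * (Pr N (Gset N n)).toReal ≤ C * (n : ℝ) ^ 3 / N * 13 :=
          mul_le_mul_of_nonneg_left h4 h8
      _ = 13 * C * (n : ℝ) ^ 3 / N := by ring
  linarith

end

end BilEnt
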