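import Pool.Agent.BilEnt.B08Tel
import Pool.Agent.BilEnt.B16HC
import Pool.Agent.BilEnt.R11
import Pool.Agent.BilEnt.B06Meas
import Pool.Agent.BilEnt.B05Bd4
import Pool.Agent.BilEnt.B15Int

/-!
# Part B, module B16Sum: (B5)
-/

open MeasureTheory Real

namespace BilEnt

noncomputable section

namespace B16SumAux

/-- the integrand -/
def F (N n : ℕ) (y : Yt) : ℝ := log (fn (mprod (Ms (hw N y.1) y.2) 0 n))

theorem F_nonneg (N n : ℕ) (y : Yt) : 0 ≤ F N n y :=
  Real.log_nonneg (one_le_fn _ (det_mprod _ (fun _ => det_Mc _ _) 0 n))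

theorem F_ae {N : ℕ} (hN : N0 ≤ N) (n : ℕ) :
    (fun y => log (fn (ac (TT N) (MM N) n y))) =ᵐ[Pr N] F N n := by
  filter_upwards [ae_mem_X0 hN] with y hy
  show log (fn (ac (TT N) (MM N) n y)) = log (fn (mprod (Ms (hw N y.1) y.2) 0 n))
  rw [ac_TT hN hy]

theorem integrable_F {N : ℕ} (hN : N0 ≤ N) (n : ℕ) : Integrable (F N n) (Pr N) :=
  (integrable_log_fn_ac hN n).congr (F_ae hN n)

theorem int_eq {N : ℕ} (hN : N0 ≤ N) (n : ℕ) :
    ∫ y, log (fn (ac (TT N) (MM N) n y)) ∂(Pr N) = ∫ y, F N n y ∂(Pr N) :=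
  integral_congr_ae (F_ae hN n)

end B16SumAux


open B16SumAux in
/-- PROOF. `ac (TT N) (MM N) n y = mprod (Ms (hw N y.1) y.2) 0 n` for `y.2 ∈ X0` (R11 `ac_TT`, `ae_mem_X0`). `log fn ≥ 0` (`one_le_fn`, `det_mprod`, `det_Mc`), so
`∫ log fn (ac ..) dPr ≥ ∫_G log fn ≥ ∫_G Lf 1 (Jn n) - log 2 * Pr(univ)` (`Lf_one_le`); then
`base_telescope`, `int_log_HC` for `1 ≤ t < n`, and `∫_G log hl ≥ -(log C + 3 log n) Pr(univ)`
(`good_bounds`: `hl ≥ 1/(C n³)`). -/
theorem base_sum : ∃ C : ℝ, 1 ≤ C ∧ ∃ N1 : ℕ, ∀ N ≥ N1, ∀ n : ℕ, 1 ≤ n → C * (n : ℝ) ^ 3 ≤ N →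
    ((n : ℝ) - 1) * (log (2 * aa) * (Pr N (Gset N n)).toReal +
      ∫ y, log (betaN N y.2.1) ∂(Pr N)) - C * (n : ℝ) ^ 4 / N - C * log n - C ≤
    ∫ y, log (fn (ac (TT N) (MM N) n y)) ∂(Pr N) := by
  obtain ⟨C1, hC1, N1, h1⟩ := int_log_HC
  obtain ⟨C2, hC2, N2, h2⟩ := good_bounds
  obtain ⟨N3, h3⟩ := base_telescope
  obtain ⟨N4, h4⟩ := good_bdd
  have hlC2 : 0 ≤ log C2 := Real.log_nonneg hC2
  have hl2 : 0 ≤ log 2 := Real.log_nonneg (by norm_num)
  refine ⟨C1 + 39 + 13 * log C2 + 13 * log 2, by linarith,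
    max (max N0 N1) (max N2 (max N3 N4)), fun N hN n hn hNn => ?_⟩
  have hN0 : N0 ≤ N := ((le_max_left _ _).trans (le_max_left _ _)).trans hN
  have hN1 : N1 ≤ N := ((le_max_right _ _).trans (le_max_left _ _)).trans hN
  have hN2 : N2 ≤ N := ((le_max_left _ _).trans (le_max_right _ _)).trans hN
  have hN3 : N3 ≤ N :=
    (((le_max_left _ _).trans (le_max_right _ _)).trans (le_max_right _ _)).trans hN
  have hN4 : N4 ≤ N :=
    (((le_max_right _ _).trans (le_max_right _ _)).trans (le_max_right _ _)).trans hN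
  have hn' : (1 : ℝ) ≤ n := by exact_mod_cast hn
  have hn3 : (0 : ℝ) < (n : ℝ) ^ 3 := by positivity
  have hlogn : 0 ≤ log n := Real.log_nonneg hn'
  have hfin := finite_Pr hN0
  have hGm := measurableSet_Gset hN0 n
  set G := Gset N n with hG
  set P : ℝ := (Pr N G).toReal with hP
  have hP0 : 0 ≤ P := ENNReal.toReal_nonneg
  have hP13 : P ≤ 13 := by
    have h5 : Pr N G ≤ ENNReal.ofReal 13 := (measure_mono (Set.subset_univ _)).trans (Pr_univ_le hN0)
    exact ENNReal.toReal_le_of_le_ofReal (by norm_num) h5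
  obtain ⟨B, hB⟩ := h4 N hN4 n hn 1 one_pos
  -- integrability on the good set
  have hLf : IntegrableOn (fun y : Yt => Lf 1 (Jn (hw N y.1) y.2 n)) G (Pr N) := by
    refine Measure.integrableOn_of_bounded (M := B) (measure_ne_top _ _) ?_ ?_
    · have hm : Measurable (fun y : Yt => Lf 1 (Jn (hw N y.1) y.2 n)) := by
        unfold Lf
        exact ((((measurable_Jn hN0 n).pow_const 2).add_const _).log).div_const _
      exact hm.aestronglyMeasurable
    · exact (ae_restrict_iff' hGm).2 (Filter.Eventually.of_forall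
        (fun y hy => (hB y hy n le_rfl).1))
  have hhl : IntegrableOn (fun y : Yt => log (hl (hw N y.1) y.2)) G (Pr N) := by
    refine Measure.integrableOn_of_bounded (M := B) (measure_ne_top _ _) ?_ ?_
    · exact (measurable_hl_hw hN0).log.aestronglyMeasurable
    · exact (ae_restrict_iff' hGm).2 (Filter.Eventually.of_forall
        (fun y hy => (hB y hy 0 (Nat.zero_le _)).2.2.2))
  -- step 1
  have s1 : ∫ y in G, Lf 1 (Jn (hw N y.1) y.2 n) ∂(Pr N) - log 2 * P ≤ ∫ y, F N n y ∂(Pr N) := by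
    have hF := integrable_F hN0 n
    have a1 : ∫ y in G, F N n y ∂(Pr N) ≤ ∫ y, F N n y ∂(Pr N) :=
      setIntegral_le_integral hF (Filter.Eventually.of_forall (F_nonneg N n))
    have a2 : ∫ y in G, (Lf 1 (Jn (hw N y.1) y.2 n) - log 2) ∂(Pr N) ≤
        ∫ y in G, F N n y ∂(Pr N) := by
      refine setIntegral_mono (hLf.sub (integrableOn_const (measure_ne_top _ _)))
        hF.integrableOn (fun y => ?_)
      have := Lf_one_le (hw N y.1) y.2 n
      show Lf 1 (Jn (hw N y.1) y.2 n) - log 2 ≤ log (fn (mprod (Ms (hw N y.1) y.2) 0 n))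
      linarith
    have a3 : ∫ y in G, (Lf 1 (Jn (hw N y.1) y.2 n) - log 2) ∂(Pr N) =
        ∫ y in G, Lf 1 (Jn (hw N y.1) y.2 n) ∂(Pr N) - log 2 * P := by
      rw [integral_sub hLf (integrableOn_const (measure_ne_top _ _)), setIntegral_const,
        smul_eq_mul, mul_comm (log 2)]
      rfl
    linarith
  -- step 2
  have s2 : -(log C2 + 3 * log n) * P ≤ ∫ y in G, log (hl (hw N y.1) y.2) ∂(Pr N) := by
    have a1 : ∫ _y in G, -(log C2 + 3 * log (n : ℝ)) ∂(Pr N) ≤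
        ∫ y in G, log (hl (hw N y.1) y.2) ∂(Pr N) := by
      refine setIntegral_mono_on (integrableOn_const (measure_ne_top _ _)) hhl hGm
        (fun y hy => ?_)
      have hb := (h2 N hN2 n hn y hy 0 (Nat.zero_le _) _ _ rfl rfl).2.1.1
      have e : pth (hw N y.1) y.2 0 = y.2 := rfl
      rw [e] at hb
      have hpos : 0 < 1 / (C2 * (n : ℝ) ^ 3) := by positivity
      calc -(log C2 + 3 * log (n : ℝ)) = log (1 / (C2 * (n : ℝ) ^ 3)) := by
            rw [one_div, Real.log_inv, Real.log_mul (by positivity) hn3.ne', Real.log_pow]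
            push_cast
            ring
        _ ≤ log (hl (hw N y.1) y.2) := Real.log_le_log hpos hb
    rw [setIntegral_const, smul_eq_mul] at a1
    calc -(log C2 + 3 * log n) * P = (Pr N).real G * -(log C2 + 3 * log (n : ℝ)) := by
          rw [mul_comm]
          rfl
      _ ≤ _ := a1
  have s3 := h3 N hN3 n hn
  have hCn : C1 * (n : ℝ) ^ 3 ≤ N := by
    refine le_trans ?_ hNn
    exact mul_le_mul_of_nonneg_right (by linarith) hn3.le
  set L : ℝ := ∫ y, log (betaN N y.2.1) ∂(Pr N) with hL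
  have s4 : ((n : ℝ) - 1) * (log (2 * aa) * P + L - C1 * (n : ℝ) ^ 3 / N) ≤
      ∑ t ∈ Finset.Ico 1 n, ∫ y in G, log (HC N y t / 2) ∂(Pr N) := by
    have a1 : ∑ _t ∈ Finset.Ico 1 n, (log (2 * aa) * P + L - C1 * (n : ℝ) ^ 3 / N) ≤
        ∑ t ∈ Finset.Ico 1 n, ∫ y in G, log (HC N y t / 2) ∂(Pr N) :=
      Finset.sum_le_sum (fun t ht => h1 N hN1 n hn hCn t (Finset.mem_Ico.1 ht).2)
    rw [Finset.sum_const, Nat.card_Ico, nsmul_eq_mul, Nat.cast_sub hn, Nat.cast_one] at a1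
    exact a1
  rw [int_eq hN0 n]
  have hNpos : (0 : ℝ) < N := by
    have : (0 : ℝ) < C1 * (n : ℝ) ^ 3 := by positivity
    linarith
  have e1 : ((n : ℝ) - 1) * (C1 * (n : ℝ) ^ 3 / N) ≤
      (C1 + 39 + 13 * log C2 + 13 * log 2) * (n : ℝ) ^ 4 / N := by
    rw [mul_div_assoc', div_le_div_iff_of_pos_right hNpos]
    have : ((n : ℝ) - 1) * (C1 * (n : ℝ) ^ 3) ≤ C1 * (n : ℝ) ^ 4 := by
      have : 0 ≤ C1 * (n : ℝ) ^ 3 := by positivity
      nlinarith
    have h6 : C1 * (n : ℝ) ^ 4 ≤ (C1 + 39 + 13 * log C2 + 13 * log 2) * (n : ℝ) ^ 4 :=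
      mul_le_mul_of_nonneg_right (by linarith) (by positivity)
    linarith
  have e2 : (log C2 + 3 * log n) * P ≤ 13 * (log C2 + 3 * log n) := by
    have : 0 ≤ log C2 + 3 * log n := by linarith
    nlinarith
  have e3 : log 2 * P ≤ 13 * log 2 := by nlinarith
  have e4 : 39 * log n ≤ (C1 + 39 + 13 * log C2 + 13 * log 2) * log n :=
    mul_le_mul_of_nonneg_right (by linarith) hlogn
  have e5 : ((n : ℝ) - 1) * (log (2 * aa) * P + L - C1 * (n : ℝ) ^ 3 / N) =
      ((n : ℝ) - 1) * (log (2 * aa) * P + L) - ((n : ℝ) - 1) * (C1 * (n : ℝ) ^ 3 / N) := by ring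
  linarith

end

end BilEnt
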