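import Pool.Agent.BilEnt.B16Sum
import Pool.Agent.BilEnt.B09Log
import Pool.Agent.BilEnt.B15Good

/-!
# Part B, module B17Fin: the base growth
-/

open MeasureTheory Real

namespace BilEnt

noncomputable section

/-- length of the base step -/
def n0 (N : ℕ) : ℕ := ⌈(log N) ^ 2⌉₊

namespace B17FinAux

open Filter

theorem le_n0 (N : ℕ) : (log N) ^ 2 ≤ (n0 N : ℝ) := Nat.le_ceil _

theorem n0_le (N : ℕ) : (n0 N : ℝ) ≤ (log N) ^ 2 + 1 := (Nat.ceil_lt_add_one (sq_nonneg _)).le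

theorem tendsto_log_nat : Tendsto (fun N : ℕ => log (N : ℝ)) atTop atTop :=
  Real.tendsto_log_atTop.comp tendsto_natCast_atTop_atTop

theorem tendsto_n0 : Tendsto (fun N : ℕ => (n0 N : ℝ)) atTop atTop := by
  have h1 : Tendsto (fun N : ℕ => (log (N : ℝ)) ^ 2) atTop atTop :=
    (tendsto_pow_atTop (by norm_num)).comp tendsto_log_nat
  exact tendsto_atTop_mono le_n0 h1

/-- `n0^k / N → 0` -/
theorem tendsto_pow_div (k : ℕ) : Tendsto (fun N : ℕ => (n0 N : ℝ) ^ k / N) atTop (nhds 0) := by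
  have h1 : Tendsto (fun x : ℝ => (log x) ^ (2 * k) / x) atTop (nhds 0) := by
    have := (isLittleO_pow_log_id_atTop (n := 2 * k)).tendsto_div_nhds_zero
    simpa using this
  have h2 : Tendsto (fun N : ℕ => 2 ^ k * ((log (N : ℝ)) ^ (2 * k) / N)) atTop (nhds 0) := by
    have := (h1.comp tendsto_natCast_atTop_atTop).const_mul ((2 : ℝ) ^ k)
    simpa using this
  refine squeeze_zero' (Eventually.of_forall fun N => by positivity) ?_ h2
  have h3 : ∀ᶠ N : ℕ in atTop, 1 ≤ log (N : ℝ) := tendsto_log_nat.eventually_ge_atTop 1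
  filter_upwards [h3, eventually_gt_atTop 0] with N hN hN0
  have hN0' : (0 : ℝ) < N := by exact_mod_cast hN0
  have h4 : (n0 N : ℝ) ≤ 2 * (log N) ^ 2 := by
    have := n0_le N
    nlinarith
  have h5 : (n0 N : ℝ) ^ k ≤ (2 * (log N) ^ 2) ^ k := pow_le_pow_left₀ (Nat.cast_nonneg _) h4 k
  calc (n0 N : ℝ) ^ k / N ≤ (2 * (log N) ^ 2) ^ k / N := by gcongr
    _ = 2 ^ k * ((log (N : ℝ)) ^ (2 * k) / N) := by rw [mul_pow, ← pow_mul]; ring

theorem log_two_aa : (64 : ℝ) / 100 ≤ log (2 * aa) ∧ log (2 * aa) ≤ 1 := by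
  have e : (2 * aa : ℝ) = 19 / 10 := by unfold aa; norm_num
  rw [e]
  constructor
  · rw [Real.le_log_iff_exp_le (by norm_num)]
    have h1 : exp (64 / 100) = exp (1 / 100) ^ 64 := by
      rw [← Real.exp_nat_mul]; norm_num
    have h2 : exp (64 / 100 : ℝ) ≤ 19 / 10 := by
      have := Real.exp_bound' (x := 64 / 100) (by norm_num) (by norm_num) (n := 6) (by norm_num)
      refine le_trans this ?_
      norm_num [Finset.sum_range_succ, Nat.factorial]
    exact h2
  · rw [Real.log_le_iff_le_exp (by norm_num)]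
    have := Real.exp_one_gt_d9
    linarith

end B17FinAux

open B17FinAux Filter in
/-- PROOF. `n = n0 N`, `(log N)² ≤ n ≤ (log N)² + 1`; `n^k/N → 0` for every `k`, `log n / n → 0`.
`log (2 aa) = log 1.9 ≥ 0.64` (`1.9 > exp 0.64`), `Pr N (Gset N n) ≥ 4π - C/N - C/n⁵ - C n⁴/N`
(`mass_bounds`, `good_mass`), `∫ log betaN ≥ -4π * 0.53` (`int_log_beta`):
`log (2 aa) Pr(G) + ∫ log betaN ≥ 4π * 0.11 - o(1) ≥ 1.38 - o(1)`, so `base_sum` gives
`≥ (n - 1) * 1.3 - o(n) ≥ n` for `N` large. -/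
theorem base_growth : ∃ N1 : ℕ, ∀ N ≥ N1,
    (n0 N : ℝ) ≤ ∫ y, log (fn (ac (TT N) (MM N) (n0 N) y)) ∂(Pr N) := by
  obtain ⟨C1, hC1, N1, h1⟩ := base_sum
  obtain ⟨C2, hC2, N2, h2⟩ := mass_bounds
  obtain ⟨C3, hC3, N3, h3⟩ := good_mass
  obtain ⟨N4, h4⟩ := int_log_beta
  rw [← Filter.eventually_atTop]
  have t3 := tendsto_pow_div 3
  have t4 := tendsto_pow_div 4
  have e1 : ∀ᶠ N : ℕ in atTop, C1 * ((n0 N : ℝ) ^ 3 / N) ≤ 1 := by
    have := t3.const_mul C1
    rw [mul_zero] at this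
    exact this.eventually_le_const (by norm_num)
  have e2 : ∀ᶠ N : ℕ in atTop, (C1 + C3) * ((n0 N : ℝ) ^ 4 / N) ≤ 1 / 100 := by
    have := t4.const_mul (C1 + C3)
    rw [mul_zero] at this
    exact this.eventually_le_const (by norm_num)
  have e3 : ∀ᶠ N : ℕ in atTop, (C2 + C3) / (N : ℝ) ≤ 1 / 100 := by
    have : Tendsto (fun N : ℕ => (C2 + C3) / (N : ℝ)) atTop (nhds 0) :=
      tendsto_const_nhds.div_atTop tendsto_natCast_atTop_atTop
    exact this.eventually_le_const (by norm_num)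
  have e4 : ∀ᶠ N : ℕ in atTop, C3 / (n0 N : ℝ) ^ 5 ≤ 1 / 100 := by
    have : Tendsto (fun N : ℕ => C3 / (n0 N : ℝ) ^ 5) atTop (nhds 0) :=
      tendsto_const_nhds.div_atTop ((tendsto_pow_atTop (by norm_num)).comp tendsto_n0)
    exact this.eventually_le_const (by norm_num)
  have e5 : ∀ᶠ N : ℕ in atTop, C1 * log (n0 N) ≤ (1 / 10) * (n0 N : ℝ) := by
    have h6 : Tendsto (fun x : ℝ => log x / x) atTop (nhds 0) := by
      have := Real.isLittleO_log_id_atTop.tendsto_div_nhds_zero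
      simpa using this
    have h7 := ((h6.comp tendsto_n0).const_mul C1).eventually_le_const (u := 1 / 10)
      (by rw [mul_zero]; norm_num)
    filter_upwards [h7, tendsto_n0.eventually_gt_atTop 0] with N hN hN0
    simp only [Function.comp] at hN
    calc C1 * log (n0 N) = C1 * (log (n0 N) / n0 N) * n0 N := by field_simp
      _ ≤ (1 / 10) * (n0 N : ℝ) := by gcongr
  have e6 : ∀ᶠ N : ℕ in atTop, C1 + 100 ≤ (1 / 10) * (n0 N : ℝ) := by
    filter_upwards [tendsto_n0.eventually_ge_atTop (10 * (C1 + 100))] with N hN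
    linarith
  filter_upwards [e1, e2, e3, e4, e5, e6, eventually_ge_atTop N1, eventually_ge_atTop N2,
    eventually_ge_atTop N3, eventually_ge_atTop N4, eventually_gt_atTop 0,
    tendsto_n0.eventually_ge_atTop 1] with N a1 a2 a3 a4 a5 a6 b1 b2 b3 b4 hN0 hn1
  have hN0' : (0 : ℝ) < N := by exact_mod_cast hN0
  have hn1' : 1 ≤ n0 N := by exact_mod_cast hn1
  have hc : C1 * (n0 N : ℝ) ^ 3 ≤ N := by
    have : C1 * (n0 N : ℝ) ^ 3 / N ≤ 1 := by rw [mul_div_assoc]; exact a1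
    rwa [div_le_one hN0'] at this
  have key := h1 N b1 (n0 N) hn1' hc
  have m1 := h2 N b2
  have m2 := h3 N b3 (n0 N) hn1'
  have m3 := h4 N b4
  obtain ⟨l1, l2⟩ := log_two_aa
  set PG := (Pr N (Gset N (n0 N))).toReal with hPG
  set LB := ∫ y, log (betaN N y.2.1) ∂(Pr N) with hLB
  set n : ℝ := (n0 N : ℝ) with hn
  -- mass of the good set
  have hfin : Pr N Set.univ ≠ ⊤ := by
    intro h
    rw [h] at m1
    simp only [ENNReal.toReal_top, zero_sub, abs_neg] at m1
    rw [abs_of_pos (by positivity)] at m1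
    have : C2 / (N : ℝ) ≤ 1 / 100 := by
      refine le_trans ?_ a3
      gcongr; linarith
    have := Real.pi_gt_three
    linarith
  have hPGlow : 4 * π - 4 / 100 ≤ PG := by
    have h8 : Pr N Set.univ ≤ Pr N (Gset N (n0 N)) + Pr N (Gset N (n0 N))ᶜ := by
      have := measure_union_le (μ := Pr N) (Gset N (n0 N)) (Gset N (n0 N))ᶜ
      rwa [Set.union_compl_self] at this
    have hf1 : Pr N (Gset N (n0 N)) ≠ ⊤ := ne_top_of_le_ne_top hfin (measure_mono (Set.subset_univ _))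
    have hf2 : Pr N (Gset N (n0 N))ᶜ ≠ ⊤ :=
      ne_top_of_le_ne_top hfin (measure_mono (Set.subset_univ _))
    have h9 : (Pr N Set.univ).toReal ≤ PG + (Pr N (Gset N (n0 N))ᶜ).toReal := by
      rw [hPG, ← ENNReal.toReal_add hf1 hf2]
      exact ENNReal.toReal_mono (ENNReal.add_ne_top.mpr ⟨hf1, hf2⟩) h8
    have h10 := (abs_le.mp m1).1
    have h11 : C2 / (N : ℝ) ≤ 1 / 100 := by
      refine le_trans ?_ a3
      gcongr; linarith
    have h12 : C3 * n ^ 4 / N ≤ 1 / 100 := by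
      refine le_trans ?_ a2
      rw [mul_div_assoc]
      gcongr; linarith
    linarith
  have hE : (13 : ℝ) / 10 ≤ log (2 * aa) * PG + LB := by
    have hpi := Real.pi_gt_d2
    have h13 : (64 / 100 : ℝ) * (4 * π - 4 / 100) ≤ log (2 * aa) * PG :=
      mul_le_mul l1 hPGlow (by nlinarith) (by linarith)
    nlinarith
  have h14 : C1 * n ^ 4 / N ≤ 1 / 100 := by
    refine le_trans ?_ a2
    rw [mul_div_assoc]
    gcongr; linarith
  have h15 : (n - 1) * (13 / 10) ≤ (n - 1) * (log (2 * aa) * PG + LB) :=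
    mul_le_mul_of_nonneg_left hE (by linarith)
  linarith

end

end BilEnt
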