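import Pool.Agent.BilEnt.B17Fin

/-!
# Part B, module B18S2: (B6)
-/

open MeasureTheory Real

namespace BilEnt

noncomputable section

namespace B18S2Aux

open Filter B17FinAux

theorem Dn_nonneg {Y : Type*} (T Ti : Y → Y) (M : Y → Matrix (Fin 2) (Fin 2) ℝ) (n : ℕ) (y : Y) :
    0 ≤ Dn T Ti M n y := by
  unfold Dn
  refine le_trans ?_ (Finset.le_sup' (fun p : ℕ × ℕ => log (fn (ac T M p.1 y)) +
    log (fn (ac T M p.2 (Ti^[p.2] y))) - log (fn (ac T M (p.2 + p.1) (Ti^[p.2] y))))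
    (b := ((0 : ℕ), (0 : ℕ))) (by simp))
  have h1 : fn (1 : Matrix (Fin 2) (Fin 2) ℝ) = sqrt 2 := by
    unfold fn
    congr 1
    simp
    norm_num
  simp only [ac, mprod, h1, add_sub_cancel_right]
  apply Real.log_nonneg
  rw [show (1 : ℝ) = sqrt 1 by simp]
  exact Real.sqrt_le_sqrt (by norm_num)

theorem quarter_two : ((2 : ℝ) ^ ((1 : ℝ) / 4)) ≤ 3 / 2 := by
  have h1 : ((2 : ℝ) ^ ((1 : ℝ) / 4)) ^ (4 : ℕ) = 2 := by
    rw [← Real.rpow_natCast, ← Real.rpow_mul (by norm_num)]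
    norm_num
  by_contra h
  push Not at h
  have h2 : (3 / 2 : ℝ) ^ 4 < ((2 : ℝ) ^ ((1 : ℝ) / 4)) ^ (4 : ℕ) :=
    pow_lt_pow_left₀ h (by norm_num) (by norm_num)
  rw [h1] at h2
  norm_num at h2

end B18S2Aux

open B18S2Aux B17FinAux Filter in
/-- (B6): hypothesis (S2) of the abstract part, from the defect bound (D2), which is the hypothesis `hD`.

PROOF. For `n = 2^j n0 ≥ (log N)²`: `(1/(2^(j+1) n0)) ∫ D_n ≤ (1/2) C n^(-3/4) log N =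
(C/2) 2^(-3j/4) n0^(-3/4) log N ≤ (C/2) 2^(-3j/4) (log N)^(-1/2)`, a geometric series with sum
`≤ 2 C (log N)^(-1/2) ≤ 1/2` for `N` large; and `∫ log fn(ac n0)/n0 ≥ 1` by `base_growth`
(`Dn ≥ 0` because the pair `(0,0)` gives `log (sqrt 2) > 0`). -/
theorem base_S2 (hD : ∃ C : ℝ, ∃ N1 : ℕ, ∀ N ≥ N1, ∀ n : ℕ, (log N) ^ 2 ≤ n →
      ∫ y, Dn (TT N) (TTi N) (MM N) n y ∂(Pr N) ≤ C * (n : ℝ) ^ ((1 : ℝ) / 4) * log N) :
    ∃ N1 : ℕ, ∀ N ≥ N1, 1 ≤ n0 N ∧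
      Summable (fun j : ℕ => (∫ y, Dn (TT N) (TTi N) (MM N) (2 ^ j * n0 N) y ∂(Pr N)) /
        (2 ^ (j + 1) * n0 N)) ∧
      ∑' j : ℕ, (∫ y, Dn (TT N) (TTi N) (MM N) (2 ^ j * n0 N) y ∂(Pr N)) / (2 ^ (j + 1) * n0 N) <
        (∫ y, log (fn (ac (TT N) (MM N) (n0 N) y)) ∂(Pr N)) / n0 N := by
  obtain ⟨C0, N1, h1⟩ := hD
  obtain ⟨N2, h2⟩ := base_growth
  set C : ℝ := max C0 0 with hC
  have hCnn : 0 ≤ C := le_max_right _ _
  rw [← Filter.eventually_atTop]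
  have hq := quarter_two
  set q : ℝ := (2 : ℝ) ^ ((1 : ℝ) / 4) / 2 with hqdef
  have hq0 : 0 ≤ q := by positivity
  have hq1 : q ≤ 3 / 4 := by rw [hqdef]; linarith
  have hq1' : q < 1 := by linarith
  have e1 : ∀ᶠ N : ℕ in atTop, C / 2 * (n0 N : ℝ) ^ (-((1 : ℝ) / 4)) ≤ 1 / 10 := by
    have h3 : Tendsto (fun N : ℕ => (n0 N : ℝ) ^ (-((1 : ℝ) / 4))) atTop (nhds 0) :=
      (tendsto_rpow_neg_atTop (by norm_num)).comp tendsto_n0
    have := h3.const_mul (C / 2)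
    rw [mul_zero] at this
    exact this.eventually_le_const (by norm_num)
  filter_upwards [e1, eventually_ge_atTop N1, eventually_ge_atTop N2,
    tendsto_n0.eventually_ge_atTop 1, tendsto_log_nat.eventually_ge_atTop 1]
    with N a1 b1 b2 hn1 hlog
  have hn1' : 1 ≤ n0 N := by exact_mod_cast hn1
  have hnp : (0 : ℝ) < n0 N := by linarith
  set K : ℝ := C * log N * (n0 N : ℝ) ^ ((1 : ℝ) / 4) / (2 * n0 N) with hK
  have hlogle : log (N : ℝ) ≤ (n0 N : ℝ) ^ ((1 : ℝ) / 2) := by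
    rw [← Real.sqrt_eq_rpow]
    apply Real.le_sqrt_of_sq_le
    exact le_n0 N
  have hK1 : K ≤ 1 / 10 := by
    refine le_trans ?_ a1
    rw [hK, div_le_iff₀ (by positivity)]
    have h4 : (n0 N : ℝ) ^ (-((1 : ℝ) / 4)) * n0 N =
        (n0 N : ℝ) ^ ((1 : ℝ) / 2) * (n0 N : ℝ) ^ ((1 : ℝ) / 4) := by
      rw [← Real.rpow_add hnp]
      nth_rewrite 2 [← Real.rpow_one (n0 N : ℝ)]
      rw [← Real.rpow_add hnp]
      norm_num
    calc C * log N * (n0 N : ℝ) ^ ((1 : ℝ) / 4)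
        ≤ C * (n0 N : ℝ) ^ ((1 : ℝ) / 2) * (n0 N : ℝ) ^ ((1 : ℝ) / 4) := by gcongr
      _ = C / 2 * (n0 N : ℝ) ^ (-((1 : ℝ) / 4)) * (2 * n0 N) := by
          rw [mul_assoc, ← h4]; ring
  have hK0 : 0 ≤ K := by
    rw [hK]
    positivity
  set a : ℕ → ℝ := fun j => (∫ y, Dn (TT N) (TTi N) (MM N) (2 ^ j * n0 N) y ∂(Pr N)) /
        (2 ^ (j + 1) * n0 N) with ha
  have ha0 : ∀ j, 0 ≤ a j := fun j => by
    apply div_nonneg
    · exact integral_nonneg (fun y => Dn_nonneg _ _ _ _ y)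
    · positivity
  have ha1 : ∀ j, a j ≤ K * q ^ j := by
    intro j
    have hge : (log N) ^ 2 ≤ ((2 ^ j * n0 N : ℕ) : ℝ) := by
      refine le_trans (le_n0 N) ?_
      push_cast
      have : (1 : ℝ) ≤ 2 ^ j := one_le_pow₀ (by norm_num)
      nlinarith
    have h5 := h1 N b1 (2 ^ j * n0 N) hge
    have h6 : ∫ y, Dn (TT N) (TTi N) (MM N) (2 ^ j * n0 N) y ∂(Pr N) ≤
        C * ((2 : ℝ) ^ j * n0 N) ^ ((1 : ℝ) / 4) * log N := by
      refine le_trans h5 ?_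
      push_cast
      gcongr
      exact le_max_left _ _
    have h7 : ((2 : ℝ) ^ j * n0 N) ^ ((1 : ℝ) / 4) =
        ((2 : ℝ) ^ ((1 : ℝ) / 4)) ^ j * (n0 N : ℝ) ^ ((1 : ℝ) / 4) := by
      rw [Real.mul_rpow (by positivity) hnp.le, ← Real.rpow_natCast, ← Real.rpow_mul (by norm_num),
        mul_comm (j : ℝ), Real.rpow_mul (by norm_num), Real.rpow_natCast]
    rw [h7] at h6
    change _ / _ ≤ _
    rw [div_le_iff₀ (by positivity)]
    refine le_trans h6 (le_of_eq ?_)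
    rw [hK, hqdef, div_pow, pow_succ]
    field_simp
  have hgeo : Summable (fun j : ℕ => K * q ^ j) :=
    (summable_geometric_of_lt_one hq0 hq1').mul_left K
  have hsum : Summable a := Summable.of_nonneg_of_le ha0 ha1 hgeo
  refine ⟨hn1', hsum, ?_⟩
  have h8 : ∑' j, a j ≤ ∑' j : ℕ, K * q ^ j := hsum.tsum_le_tsum ha1 hgeo
  have h9 : ∑' j : ℕ, K * q ^ j = K * (1 - q)⁻¹ := by
    rw [tsum_mul_left, tsum_geometric_of_lt_one hq0 hq1']
  have h10 : (1 - q)⁻¹ ≤ 4 := by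
    rw [inv_le_comm₀ (by linarith) (by norm_num)]
    linarith
  have h11 : K * (1 - q)⁻¹ ≤ 1 / 10 * 4 := by
    apply mul_le_mul hK1 h10 (by rw [inv_nonneg]; linarith) (by norm_num)
  have h12 : (1 : ℝ) ≤ (∫ y, log (fn (ac (TT N) (MM N) (n0 N) y)) ∂(Pr N)) / n0 N := by
    rw [le_div_iff₀ hnp, one_mul]
    exact h2 N b2
  calc ∑' j, a j ≤ K * (1 - q)⁻¹ := by rw [← h9]; exact h8
    _ ≤ 1 / 10 * 4 := h11
    _ < 1 := by norm_num
    _ ≤ _ := h12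

end

end BilEnt
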