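import Pool.Agent.BilEnt.S01

/-!
# MP_bd32bb_an : part D, module D01: a defect of additivity is a failure of quasi-multiplicativity
-/

open MeasureTheory Real
open scoped ENNReal

namespace BilEnt

/-- the Frobenius norm is at most twice the largest row -/
theorem d_fn_le_rn (A : Matrix (Fin 2) (Fin 2) ℝ) : ∃ j, fn A ≤ 2 * rn A j := by
  by_contra hcon
  push Not at hcon
  have h0 := hcon 0
  have h1 := hcon 1
  have hn := s_fn_nonneg A
  have hsq := s_fn_sq A
  unfold rn at h0 h1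
  have a0 := abs_nonneg (A 0 0)
  have a1 := abs_nonneg (A 0 1)
  have a2 := abs_nonneg (A 1 0)
  have a3 := abs_nonneg (A 1 1)
  rw [← sq_abs (A 0 0), ← sq_abs (A 0 1), ← sq_abs (A 1 0), ← sq_abs (A 1 1)] at hsq
  have e0 : (2 * (|A 0 0| + |A 0 1|)) ^ 2 ≤ fn A ^ 2 :=
    pow_le_pow_left₀ (by positivity) h0.le 2
  have e1 : (2 * (|A 1 0| + |A 1 1|)) ^ 2 ≤ fn A ^ 2 :=
    pow_le_pow_left₀ (by positivity) h1.le 2
  have e2 : 0 < fn A := lt_of_le_of_lt (by positivity) h0
  nlinarith [mul_nonneg a0 a1, mul_nonneg a2 a3, pow_pos e2 2]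

/-- the Frobenius norm is at most twice the largest column -/
theorem d_fn_le_cn (A : Matrix (Fin 2) (Fin 2) ℝ) : ∃ i, fn A ≤ 2 * cn A i := by
  by_contra hcon
  push Not at hcon
  have h0 := hcon 0
  have h1 := hcon 1
  have hsq := s_fn_sq A
  unfold cn at h0 h1
  have a0 := abs_nonneg (A 0 0)
  have a1 := abs_nonneg (A 0 1)
  have a2 := abs_nonneg (A 1 0)
  have a3 := abs_nonneg (A 1 1)
  rw [← sq_abs (A 0 0), ← sq_abs (A 0 1), ← sq_abs (A 1 0), ← sq_abs (A 1 1)] at hsq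
  have e0 : (2 * (|A 0 0| + |A 1 0|)) ^ 2 ≤ fn A ^ 2 :=
    pow_le_pow_left₀ (by positivity) h0.le 2
  have e1 : (2 * (|A 0 1| + |A 1 1|)) ^ 2 ≤ fn A ^ 2 :=
    pow_le_pow_left₀ (by positivity) h1.le 2
  have e2 : 0 < fn A := lt_of_le_of_lt (by positivity) h0
  nlinarith [mul_nonneg a0 a2, mul_nonneg a1 a3, pow_pos e2 2]

theorem d_entry_le_fn (A : Matrix (Fin 2) (Fin 2) ℝ) (j i : Fin 2) : |A j i| ≤ fn A := by
  have h := s_fn_sq A
  have : |A j i| ^ 2 ≤ fn A ^ 2 := by
    rw [h, sq_abs]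
    fin_cases j <;> fin_cases i <;> simp only [Fin.zero_eta, Fin.mk_one, Fin.isValue] <;>
      nlinarith [sq_nonneg (A 0 0), sq_nonneg (A 0 1), sq_nonneg (A 1 0), sq_nonneg (A 1 1)]
  exact le_of_sq_le_sq this (s_fn_nonneg A)

/-- a large defect forces a failure of quasi-multiplicativity -/
theorem d_not_QMs {M : ℕ → Matrix (Fin 2) (Fin 2) ℝ} (hM : ∀ t, (M t).det = 1) {l l' : ℕ} {x : ℝ}
    (hx : x < log (fn (mprod M l' l)) + log (fn (mprod M 0 l')) - log (fn (mprod M 0 (l' + l)))) :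
    ¬ QMs M (4 * exp (-x)) (l' + l) := by
  have hdet : ∀ a k, (mprod M a k).det = 1 := by
    intro a k
    induction k with
    | zero => simp [mprod]
    | succ k ih => rw [mprod, Matrix.det_mul, hM, ih, one_mul]
  intro hQ
  obtain ⟨j, hj⟩ := d_fn_le_rn (mprod M l' l)
  obtain ⟨i, hi⟩ := d_fn_le_cn (mprod M 0 l')
  have h := hQ l' (by omega) j i
  rw [Nat.add_sub_cancel_left] at h
  have p1 := s_fn_pos (hdet l' l)
  have p2 := s_fn_pos (hdet 0 l')
  have p3 := s_fn_pos (hdet 0 (l' + l))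
  have h1 : fn (mprod M 0 (l' + l)) < exp (-x) * (fn (mprod M l' l) * fn (mprod M 0 l')) := by
    rw [← Real.log_lt_log_iff p3 (by positivity), Real.log_mul (exp_pos _).ne' (by positivity),
      Real.log_mul p1.ne' p2.ne', Real.log_exp]
    linarith
  have h2 := d_entry_le_fn (mprod M 0 (l' + l)) j i
  have h3 : fn (mprod M l' l) * fn (mprod M 0 l') ≤
      (2 * rn (mprod M l' l) j) * (2 * cn (mprod M 0 l') i) :=
    mul_le_mul hj hi p2.le (by linarith)
  have h4 : exp (-x) * (fn (mprod M l' l) * fn (mprod M 0 l')) ≤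
      exp (-x) * ((2 * rn (mprod M l' l) j) * (2 * cn (mprod M 0 l') i)) :=
    mul_le_mul_of_nonneg_left h3 (exp_pos _).le
  nlinarith

/-- the cocycle at a later point of the orbit -/
theorem d_ac_shift {Y : Type*} (T : Y → Y) (M : Y → Matrix (Fin 2) (Fin 2) ℝ) (y : Y) (a k : ℕ) :
    ac T M k (T^[a] y) = mprod (fun t => M (T^[t] y)) a k := by
  unfold ac
  induction k with
  | zero => rfl
  | succ k ih =>
    simp only [mprod]
    rw [ih]
    congr 2
    rw [Nat.zero_add, ← Function.iterate_add_apply, Nat.add_comm]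

theorem d_mprod_shift (M : ℕ → Matrix (Fin 2) (Fin 2) ℝ) (a b k : ℕ) :
    mprod M (a + b) k = mprod (fun t => M (a + t)) b k := by
  induction k with
  | zero => rfl
  | succ k ih =>
    simp only [mprod]
    rw [ih, Nat.add_assoc]

/-- the defect at the middle of an orbit segment, in terms of the segment -/
theorem d_Dn_orbit {Y : Type*} {T Ti : Y → Y} {M : Y → Matrix (Fin 2) (Fin 2) ℝ}
    (hli : ∀ y, Ti (T y) = y) (hdet : ∀ y, (M y).det = 1) {n : ℕ} {y : Y} {x : ℝ} (hx1 : 1 ≤ x)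
    (hx : x < Dn T Ti M n (T^[n] y)) :
    ∃ a b, 1 ≤ b ∧ a + b ≤ 2 * n ∧ ¬ QMs (fun t => M (T^[a + t] y)) (4 * exp (-x)) b := by
  unfold Dn at hx
  rw [Finset.lt_sup'_iff] at hx
  obtain ⟨⟨l, l'⟩, hp, hx⟩ := hx
  simp only [Finset.mem_product, Finset.mem_range] at hp
  obtain ⟨hl, hl'⟩ := hp
  have e1 : Ti^[l'] (T^[n] y) = T^[n - l'] y := by
    have := s_iter_li_add (T := T) (Ti := Ti) hli l' (n - l') y
    rwa [Nat.add_sub_cancel' (by omega : l' ≤ n)] at this
  simp only at hx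
  rw [e1, d_ac_shift, d_ac_shift, d_ac_shift] at hx
  have e2 : mprod (fun t => M (T^[t] y)) n l =
      mprod (fun t => M (T^[(n - l') + t] y)) l' l := by
    have := d_mprod_shift (fun t => M (T^[t] y)) (n - l') l' l
    rwa [Nat.sub_add_cancel (by omega : l' ≤ n)] at this
  have e3 : ∀ k, mprod (fun t => M (T^[t] y)) (n - l') k =
      mprod (fun t => M (T^[(n - l') + t] y)) 0 k := fun k =>
    d_mprod_shift (fun t => M (T^[t] y)) (n - l') 0 k
  rw [e2, e3, e3] at hx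
  refine ⟨n - l', l' + l, ?_, by omega, d_not_QMs (fun t => hdet _) hx⟩
  by_contra hcon
  have h0 : l' = 0 := by omega
  have h1 : l = 0 := by omega
  subst h0; subst h1
  simp only [mprod, s_fn_one] at hx
  have h2 : log √2 ≤ √2 - 1 := Real.log_le_sub_one_of_pos (by positivity)
  have h3 : √2 ≤ 3 / 2 := by
    rw [Real.sqrt_le_left (by norm_num)]
    norm_num
  linarith

end BilEnt
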