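import Pool.Agent.BilEnt.Defs

/-!
# Part S (abstract cocycles over an invertible measure preserving map): definitions and basics
(helper75).  All lemmas of part S have names starting with `s_`.
-/

open MeasureTheory Real Filter Topology Matrix
open scoped ENNReal

namespace BilEnt

noncomputable section

/-- log norm of the cocycle -/
def la {Y : Type*} (T : Y → Y) (M : Y → Matrix (Fin 2) (Fin 2) ℝ) (k : ℕ) (y : Y) : ℝ :=
  log (fn (ac T M k y))

/-- the inverse cocycle (over `Ti`) -/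
def Minv {Y : Type*} (Ti : Y → Y) (M : Y → Matrix (Fin 2) (Fin 2) ℝ) (y : Y) :
    Matrix (Fin 2) (Fin 2) ℝ := (M (Ti y))⁻¹

/-- an `SL(2)` cocycle over an invertible measure preserving map of a finite measure space -/
structure SSys {Y : Type*} [MeasurableSpace Y] (μ : Measure Y) (T Ti : Y → Y)
    (M : Y → Matrix (Fin 2) (Fin 2) ℝ) : Prop where
  fin : IsFiniteMeasure μ
  li : ∀ y, Ti (T y) = y
  ri : ∀ y, T (Ti y) = y
  mT : MeasurePreserving T μ μ
  mTi : MeasurePreserving Ti μ μ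
  mM : ∀ i j, Measurable fun y => M y i j
  det : ∀ y, (M y).det = 1

/-! ## Frobenius norm -/

theorem s_fn_nonneg (A : Matrix (Fin 2) (Fin 2) ℝ) : 0 ≤ fn A := Real.sqrt_nonneg _

theorem s_fn_sq (A : Matrix (Fin 2) (Fin 2) ℝ) :
    fn A ^ 2 = A 0 0 ^ 2 + A 0 1 ^ 2 + A 1 0 ^ 2 + A 1 1 ^ 2 := by
  unfold fn
  rw [Real.sq_sqrt (by positivity)]

theorem s_fn_mul_le (A B : Matrix (Fin 2) (Fin 2) ℝ) : fn (A * B) ≤ fn A * fn B := by
  have h1 : fn (A * B) ^ 2 ≤ (fn A * fn B) ^ 2 := by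
    rw [mul_pow, s_fn_sq, s_fn_sq, s_fn_sq]
    simp only [Matrix.mul_apply, Fin.sum_univ_two]
    nlinarith [sq_nonneg (A 0 0 * B 1 0 - A 0 1 * B 0 0), sq_nonneg (A 0 0 * B 1 1 - A 0 1 * B 0 1),
      sq_nonneg (A 1 0 * B 1 0 - A 1 1 * B 0 0), sq_nonneg (A 1 0 * B 1 1 - A 1 1 * B 0 1)]
  exact le_of_abs_le (abs_le_of_sq_le_sq h1 (mul_nonneg (s_fn_nonneg A) (s_fn_nonneg B)))

theorem s_two_le_fn_sq {A : Matrix (Fin 2) (Fin 2) ℝ} (h : A.det = 1) : 2 ≤ fn A ^ 2 := by
  rw [s_fn_sq]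
  rw [Matrix.det_fin_two] at h
  nlinarith [sq_nonneg (A 0 0 - A 1 1), sq_nonneg (A 0 1 + A 1 0)]

theorem s_one_le_fn {A : Matrix (Fin 2) (Fin 2) ℝ} (h : A.det = 1) : 1 ≤ fn A := by
  have h1 := s_two_le_fn_sq h
  have h2 := s_fn_nonneg A
  nlinarith

theorem s_fn_pos {A : Matrix (Fin 2) (Fin 2) ℝ} (h : A.det = 1) : 0 < fn A :=
  lt_of_lt_of_le one_pos (s_one_le_fn h)

theorem s_fn_one : fn (1 : Matrix (Fin 2) (Fin 2) ℝ) = √2 := by
  unfold fn
  norm_num

/-- inverse of a determinant one matrix -/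
theorem s_inv_eq {A : Matrix (Fin 2) (Fin 2) ℝ} (h : A.det = 1) :
    A⁻¹ = !![A 1 1, -A 0 1; -A 1 0, A 0 0] := by
  rw [Matrix.inv_def, h, Matrix.adjugate_fin_two]
  simp

theorem s_fn_inv {A : Matrix (Fin 2) (Fin 2) ℝ} (h : A.det = 1) : fn A⁻¹ = fn A := by
  rw [s_inv_eq h]
  unfold fn
  congr 1
  simp
  ring

theorem s_fn_transpose (A : Matrix (Fin 2) (Fin 2) ℝ) : fn Aᵀ = fn A := by
  unfold fn
  congr 1
  simp only [Matrix.transpose_apply]
  ring

theorem s_det_inv {A : Matrix (Fin 2) (Fin 2) ℝ} (h : A.det = 1) : (A⁻¹).det = 1 := by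
  rw [s_inv_eq h, Matrix.det_fin_two]
  rw [Matrix.det_fin_two] at h
  simp
  linarith

/-! ## Products -/

theorem s_mprod_add (M : ℕ → Matrix (Fin 2) (Fin 2) ℝ) (a j k : ℕ) :
    mprod M a (j + k) = mprod M (a + j) k * mprod M a j := by
  induction k with
  | zero => simp [mprod]
  | succ k ih =>
    rw [← Nat.add_assoc]
    simp only [mprod]
    rw [ih, Matrix.mul_assoc]
    congr 2
    ring_nf

section coc
variable {Y : Type*} {T Ti : Y → Y} {M : Y → Matrix (Fin 2) (Fin 2) ℝ}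

theorem s_ac_zero (y : Y) : ac T M 0 y = 1 := rfl

theorem s_ac_one (y : Y) : ac T M 1 y = M y := by
  simp [ac, mprod]

theorem s_ac_succ (k : ℕ) (y : Y) : ac T M (k + 1) y = M (T^[k] y) * ac T M k y := by
  simp [ac, mprod]

theorem s_ac_add (j k : ℕ) (y : Y) :
    ac T M (j + k) y = ac T M k (T^[j] y) * ac T M j y := by
  induction k with
  | zero => simp [s_ac_zero]
  | succ k ih =>
    rw [← Nat.add_assoc, s_ac_succ, s_ac_succ, ih, Matrix.mul_assoc, ← Function.iterate_add_apply,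
      Nat.add_comm j k]

theorem s_det_ac (h : ∀ y, (M y).det = 1) (k : ℕ) (y : Y) : (ac T M k y).det = 1 := by
  induction k with
  | zero => simp [s_ac_zero]
  | succ k ih => rw [s_ac_succ, Matrix.det_mul, h, ih, one_mul]

theorem s_iter_li (hli : ∀ y, Ti (T y) = y) (k : ℕ) (y : Y) : Ti^[k] (T^[k] y) = y := by
  exact Function.LeftInverse.iterate (f := T) (g := Ti) hli k y

theorem s_iter_ri (hri : ∀ y, T (Ti y) = y) (k : ℕ) (y : Y) : T^[k] (Ti^[k] y) = y := by
  exact Function.LeftInverse.iterate (f := Ti) (g := T) hri k y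

/-- `T^[j] (Ti^[j+k] y) = Ti^[k] y` -/
theorem s_iter_ri_add (hri : ∀ y, T (Ti y) = y) (j k : ℕ) (y : Y) :
    T^[j] (Ti^[j + k] y) = Ti^[k] y := by
  rw [Function.iterate_add_apply, s_iter_ri hri]

/-- `Ti^[j] (T^[j+k] y) = T^[k] y` -/
theorem s_iter_li_add (hli : ∀ y, Ti (T y) = y) (j k : ℕ) (y : Y) :
    Ti^[j] (T^[j + k] y) = T^[k] y := by
  rw [Function.iterate_add_apply, s_iter_li hli]

/-- one more factor on the right of the backward product -/
theorem s_ac_back (hri : ∀ y, T (Ti y) = y) (k : ℕ) (y : Y) :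
    ac T M (k + 1) (Ti^[k + 1] y) = ac T M k (Ti^[k] y) * M (Ti^[k + 1] y) := by
  have h := s_ac_add (T := T) (M := M) 1 k (Ti^[k + 1] y)
  rw [Nat.add_comm 1 k, s_ac_one] at h
  rw [h]
  congr 2
  rw [Nat.add_comm k 1, s_iter_ri_add hri]

theorem s_la_nonneg (h : ∀ y, (M y).det = 1) (k : ℕ) (y : Y) : 0 ≤ la T M k y :=
  Real.log_nonneg (s_one_le_fn (s_det_ac h k y))

theorem s_l_nonneg (h : ∀ y, (M y).det = 1) (y : Y) : 0 ≤ log (fn (M y)) :=
  Real.log_nonneg (s_one_le_fn (h y))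

theorem s_la_add_le (h : ∀ y, (M y).det = 1) (j k : ℕ) (y : Y) :
    la T M (j + k) y ≤ la T M j y + la T M k (T^[j] y) := by
  unfold la
  rw [s_ac_add, ← Real.log_mul (s_fn_pos (s_det_ac h j y)).ne' (s_fn_pos (s_det_ac h k _)).ne']
  apply Real.log_le_log (s_fn_pos _)
  · rw [mul_comm]; exact s_fn_mul_le _ _
  · rw [Matrix.det_mul, s_det_ac h, s_det_ac h, one_mul]

theorem s_la_one (y : Y) : la T M 1 y = log (fn (M y)) := by
  unfold la; rw [s_ac_one]

theorem s_la_zero_le (y : Y) : la T M 0 y ≤ 1 := by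
  unfold la
  rw [s_ac_zero, s_fn_one]
  have : √2 ≤ 2 := by
    rw [show (2:ℝ) = √4 by rw [show (4:ℝ) = 2^2 by norm_num]; simp]
    exact Real.sqrt_le_sqrt (by norm_num)
  have h2 : log √2 ≤ √2 - 1 := Real.log_le_sub_one_of_pos (by positivity)
  linarith

theorem s_la_le_sum_one (h : ∀ y, (M y).det = 1) (k : ℕ) (y : Y) :
    la T M (k + 1) y ≤ ∑ i ∈ Finset.range (k + 1), log (fn (M (T^[i] y))) := by
  induction k with
  | zero => simp [s_la_one]
  | succ k ih =>
    rw [Finset.sum_range_succ]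
    have := s_la_add_le (T := T) h (k + 1) 1 y
    rw [s_la_one] at this
    linarith

theorem s_la_le_sum (h : ∀ y, (M y).det = 1) (k : ℕ) (y : Y) :
    la T M k y ≤ 1 + ∑ i ∈ Finset.range k, log (fn (M (T^[i] y))) := by
  cases k with
  | zero => simpa using s_la_zero_le (T := T) (M := M) y
  | succ k =>
    have := s_la_le_sum_one (T := T) h k y
    linarith

theorem s_Dn_spec {n l l' : ℕ} (hl : l ≤ n) (hl' : l' ≤ n) (y : Y) :
    la T M l y + la T M l' (Ti^[l'] y) ≤ la T M (l' + l) (Ti^[l'] y) + Dn T Ti M n y := by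
  have h := Finset.le_sup' (s := (Finset.range (n + 1)) ×ˢ (Finset.range (n + 1)))
    (fun p : ℕ × ℕ => log (fn (ac T M p.1 y)) + log (fn (ac T M p.2 (Ti^[p.2] y)))
      - log (fn (ac T M (p.2 + p.1) (Ti^[p.2] y)))) (b := (l, l')) (by
        simp only [Finset.mem_product, Finset.mem_range]; omega)
  unfold Dn la
  simp only at h
  linarith

theorem s_Dn_nonneg (n : ℕ) (y : Y) : 0 ≤ Dn T Ti M n y := by
  have h := s_Dn_spec (T := T) (Ti := Ti) (M := M) (n := n) (Nat.zero_le n) (Nat.zero_le n) y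
  have h2 : 0 ≤ la T M 0 y := by
    unfold la
    rw [s_ac_zero, s_fn_one]
    apply Real.log_nonneg
    rw [show (1:ℝ) = √1 by simp]
    exact Real.sqrt_le_sqrt (by norm_num)
  simp only [Function.iterate_zero, id_eq, Nat.add_zero] at h
  linarith

theorem s_Dn_le_sum (h : ∀ y, (M y).det = 1) (n : ℕ) (y : Y) :
    Dn T Ti M n y ≤ 2 + ∑ i ∈ Finset.range n, log (fn (M (T^[i] y)))
      + ∑ l' ∈ Finset.range (n + 1), ∑ i ∈ Finset.range l', log (fn (M (T^[i] (Ti^[l'] y)))) := by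
  unfold Dn
  apply Finset.sup'_le
  rintro ⟨l, l'⟩ hp
  simp only [Finset.mem_product, Finset.mem_range] at hp
  have h1 := s_la_le_sum (T := T) h l y
  have h2 := s_la_le_sum (T := T) h l' (Ti^[l'] y)
  have h3 := s_la_nonneg (T := T) h (l' + l) (Ti^[l'] y)
  have h4 : ∑ i ∈ Finset.range l, log (fn (M (T^[i] y))) ≤
      ∑ i ∈ Finset.range n, log (fn (M (T^[i] y))) :=
    Finset.sum_le_sum_of_subset_of_nonneg
      (by intro i hi; simp only [Finset.mem_range] at hi ⊢; omega)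
      (fun i _ _ => s_l_nonneg h _)
  have h5 : ∑ i ∈ Finset.range l', log (fn (M (T^[i] (Ti^[l'] y)))) ≤
      ∑ l' ∈ Finset.range (n + 1), ∑ i ∈ Finset.range l', log (fn (M (T^[i] (Ti^[l'] y)))) :=
    Finset.single_le_sum (f := fun l' => ∑ i ∈ Finset.range l', log (fn (M (T^[i] (Ti^[l'] y)))))
      (fun i _ => Finset.sum_nonneg (fun j _ => s_l_nonneg h _))
      (by simp only [Finset.mem_range]; omega)
  unfold la at h1 h2 h3
  simp only
  linarith

/-! ## The inverse cocycle -/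

theorem s_det_Minv (h : ∀ y, (M y).det = 1) (y : Y) : (Minv Ti M y).det = 1 :=
  s_det_inv (h _)

theorem s_ac_inv (hri : ∀ y, T (Ti y) = y) (k : ℕ) (y : Y) :
    ac Ti (Minv Ti M) k y = (ac T M k (Ti^[k] y))⁻¹ := by
  induction k with
  | zero => simp [s_ac_zero]
  | succ k ih =>
    rw [s_ac_succ, ih, s_ac_back hri, Matrix.mul_inv_rev]
    unfold Minv
    rw [← Function.iterate_succ_apply' Ti]

theorem s_la_inv (hri : ∀ y, T (Ti y) = y) (h : ∀ y, (M y).det = 1) (k : ℕ) (y : Y) :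
    la Ti (Minv Ti M) k y = la T M k (Ti^[k] y) := by
  unfold la
  rw [s_ac_inv hri, s_fn_inv (s_det_ac h k _)]

theorem s_Dn_inv (hli : ∀ y, Ti (T y) = y) (hri : ∀ y, T (Ti y) = y)
    (h : ∀ y, (M y).det = 1) (n : ℕ) (y : Y) :
    Dn Ti T (Minv Ti M) n y = Dn T Ti M n y := by
  have key : ∀ l l' : ℕ, la Ti (Minv Ti M) l y + la Ti (Minv Ti M) l' (T^[l'] y)
      - la Ti (Minv Ti M) (l' + l) (T^[l'] y)
      = la T M l' y + la T M l (Ti^[l] y) - la T M (l + l') (Ti^[l] y) := by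
    intro l l'
    rw [s_la_inv hri h, s_la_inv hri h, s_la_inv hri h, s_iter_li hli]
    have : Ti^[l' + l] (T^[l'] y) = Ti^[l] y := by
      rw [Nat.add_comm, Function.iterate_add_apply, s_iter_li hli]
    rw [this, Nat.add_comm l' l]
    ring
  apply le_antisymm
  · unfold Dn
    apply Finset.sup'_le
    rintro ⟨l, l'⟩ hp
    simp only [Finset.mem_product, Finset.mem_range] at hp
    have h1 := s_Dn_spec (T := T) (Ti := Ti) (M := M) (n := n) (l := l') (l' := l)
      (by omega) (by omega) y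
    have h2 := key l l'
    unfold la Dn at h1
    unfold la at h2
    simp only
    linarith
  · unfold Dn
    apply Finset.sup'_le
    rintro ⟨l, l'⟩ hp
    simp only [Finset.mem_product, Finset.mem_range] at hp
    have h1 := s_Dn_spec (T := Ti) (Ti := T) (M := Minv Ti M) (n := n) (l := l') (l' := l)
      (by omega) (by omega) y
    have h2 := key l' l
    unfold la Dn at h1
    unfold la at h2
    simp only
    linarith

end coc

/-! ## Measurability -/

section meas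
variable {Y : Type*} [MeasurableSpace Y] {T Ti : Y → Y} {M : Y → Matrix (Fin 2) (Fin 2) ℝ}

theorem s_meas_ac (hT : Measurable T) (hM : ∀ i j, Measurable fun y => M y i j) (k : ℕ) :
    ∀ i j, Measurable fun y => ac T M k y i j := by
  induction k with
  | zero => intro i j; simp only [s_ac_zero]; exact measurable_const
  | succ k ih =>
    intro i j
    simp only [s_ac_succ, Matrix.mul_apply, Fin.sum_univ_two]
    exact (((hM i 0).comp (hT.iterate k)).mul (ih 0 j)).add
      (((hM i 1).comp (hT.iterate k)).mul (ih 1 j))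

theorem s_meas_fn {f : Y → Matrix (Fin 2) (Fin 2) ℝ} (hM : ∀ i j, Measurable fun y => f y i j) :
    Measurable fun y => fn (f y) := by
  unfold fn
  exact (((((hM 0 0).pow_const 2).add ((hM 0 1).pow_const 2)).add ((hM 1 0).pow_const 2)).add
    ((hM 1 1).pow_const 2)).sqrt

theorem s_meas_la (hT : Measurable T) (hM : ∀ i j, Measurable fun y => M y i j) (k : ℕ) :
    Measurable fun y => la T M k y :=
  (s_meas_fn (s_meas_ac hT hM k)).log

theorem s_meas_Dn (hT : Measurable T) (hTi : Measurable Ti)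
    (hM : ∀ i j, Measurable fun y => M y i j) (n : ℕ) :
    Measurable fun y => Dn T Ti M n y := by
  have key : ∀ p : ℕ × ℕ, Measurable fun y => log (fn (ac T M p.1 y)) +
      log (fn (ac T M p.2 (Ti^[p.2] y))) - log (fn (ac T M (p.2 + p.1) (Ti^[p.2] y))) := by
    rintro ⟨l, l'⟩
    exact ((s_meas_la hT hM l).add ((s_meas_la hT hM l').comp (hTi.iterate l'))).sub
      ((s_meas_la hT hM (l' + l)).comp (hTi.iterate l'))
  have h := Finset.measurable_sup' (s := (Finset.range (n + 1)) ×ˢ (Finset.range (n + 1)))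
    (by simp) (fun p _ => key p)
  convert h using 1
  funext y
  unfold Dn
  rw [Finset.sup'_apply]

theorem s_meas_Minv (hTi : Measurable Ti) (hM : ∀ i j, Measurable fun y => M y i j)
    (h : ∀ y, (M y).det = 1) : ∀ i j, Measurable fun y => Minv Ti M y i j := by
  intro i j
  have : (fun y => Minv Ti M y i j) = fun y => (!![M (Ti y) 1 1, -M (Ti y) 0 1;
      -M (Ti y) 1 0, M (Ti y) 0 0] : Matrix (Fin 2) (Fin 2) ℝ) i j := by
    funext y
    unfold Minv
    rw [s_inv_eq (h _)]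
  rw [this]
  fin_cases i <;> fin_cases j
  · exact (hM 1 1).comp hTi
  · exact ((hM 0 1).comp hTi).neg
  · exact ((hM 1 0).comp hTi).neg
  · exact (hM 0 0).comp hTi

theorem SSys.symm {μ : Measure Y} (h : SSys μ T Ti M) : SSys μ Ti T (Minv Ti M) where
  fin := h.fin
  li := h.ri
  ri := h.li
  mT := h.mTi
  mTi := h.mT
  mM := s_meas_Minv h.mTi.measurable h.mM h.det
  det := s_det_Minv h.det

end meas

/-! ## Good points -/

/-- `y` is a good point with exponent `lam` and constant `K`.  (Symmetric in time: `GP.symm`.) -/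
structure GP {Y : Type*} (T Ti : Y → Y) (M : Y → Matrix (Fin 2) (Fin 2) ℝ) (lam K : ℝ) (y : Y) :
    Prop where
  f : ∀ k : ℕ, lam * k - K ≤ la T M k y
  b : ∀ k : ℕ, lam * k - K ≤ la T M k (Ti^[k] y)
  d : ∀ k : ℕ, Dn T Ti M k y ≤ √(k : ℝ) + K
  lf : ∀ k : ℕ, log (fn (M (T^[k] y))) ≤ lam / 8 * (k + 1) + K
  lb : ∀ k : ℕ, log (fn (M (Ti^[k + 1] y))) ≤ lam / 8 * (k + 1) + K

/-- a good point is good for the inverse cocycle -/
theorem GP.symm {Y : Type*} {T Ti : Y → Y} {M : Y → Matrix (Fin 2) (Fin 2) ℝ}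
    (hli : ∀ y, Ti (T y) = y) (hri : ∀ y, T (Ti y) = y) (hdet : ∀ y, (M y).det = 1)
    {lam K : ℝ} {y : Y} (h : GP T Ti M lam K y) : GP Ti T (Minv Ti M) lam K y where
  f k := by rw [s_la_inv hri hdet]; exact h.b k
  b k := by rw [s_la_inv hri hdet, s_iter_li hli]; exact h.f k
  d k := by rw [s_Dn_inv hli hri hdet]; exact h.d k
  lf k := by
    unfold Minv
    rw [s_fn_inv (hdet _), ← Function.iterate_succ_apply' Ti]
    exact h.lb k
  lb k := by
    unfold Minv
    rw [s_fn_inv (hdet _), Function.iterate_succ_apply' T, hli]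
    exact h.lf k

end

end BilEnt
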