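import Pool.Agent.BilEnt.R11
import Pool.Agent.BilEnt.G12
import Pool.Agent.BilEnt.G12a
import Pool.Agent.BilEnt.S01

/-!
# MP_bd32bb_an : part D, module D02: grazing states
-/

open MeasureTheory Real
open scoped ENNReal

namespace BilEnt

/-- integration of a function whose angular integrals are bounded -/
theorem d_Pr_le {N : ℕ} (hN : N0 ≤ N) {F : Yt → ℝ≥0∞} (hF : Measurable F) {K : ℝ≥0∞}
    (hK : ∀ ω u, ∫⁻ A in Set.Ioo (Th (hw N ω) u) (Th (hw N ω) u + π),
      ENNReal.ofReal (pw (hw N ω) (u, A)) * F (ω, (u, A)) ≤ K) :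
    ∫⁻ y, F y ∂(Pr N) ≤ ENNReal.ofReal (2 * π) * K := by
  rw [Pr_lintegral hN hF]
  have h1 : ∀ ω : Om, ∫⁻ z, F (ω, z) ∂(mu (hw N ω)) ≤ ENNReal.ofReal (2 * π) * K := by
    intro ω
    have hh := isTab_hw hN ω
    have hml : Measurable (fun z : ℝ × ℝ => ((ω, z) : Yt)) := measurable_prodMk_left
    have hm : Measurable (fun z : ℝ × ℝ => F (ω, z)) := hF.comp hml
    rw [mu_lintegral hh hm]
    refine le_trans (lintegral_mono (hK ω)) (le_of_eq ?_)
    rw [setLIntegral_const, Real.volume_Ico, sub_zero, mul_comm]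
  calc ∫⁻ ω, ∫⁻ z, F (ω, z) ∂(mu (hw N ω)) ∂PP
      ≤ ∫⁻ _ω, ENNReal.ofReal (2 * π) * K ∂PP := lintegral_mono h1
    _ = ENNReal.ofReal (2 * π) * K := by
        rw [lintegral_const, measure_univ, mul_one]

/-- the angles of small sine -/
theorem d_vol_sin (t s : ℝ) (hs : 0 ≤ s) :
    volume (Set.Ioo t (t + π) ∩ {A | sin (A - t) < s}) ≤ ENNReal.ofReal (π * s) := by
  have hsub : Set.Ioo t (t + π) ∩ {A | sin (A - t) < s} ⊆
      Set.Icc t (t + π / 2 * s) ∪ Set.Icc (t + π - π / 2 * s) (t + π) := by
    rintro A ⟨⟨h1, h2⟩, h3⟩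
    have hpi := Real.pi_pos
    simp only [Set.mem_ofPred_eq] at h3
    rcases le_total (A - t) (π / 2) with h4 | h4
    · left
      refine ⟨h1.le, ?_⟩
      have h5 := Real.mul_le_sin (x := A - t) (by linarith) h4
      have h6 : 2 / π * (A - t) < s := lt_of_le_of_lt h5 h3
      rw [div_mul_eq_mul_div, div_lt_iff₀ hpi] at h6
      linarith
    · right
      refine ⟨?_, h2.le⟩
      have h5 := Real.mul_le_sin (x := π - (A - t)) (by linarith) (by linarith)
      rw [Real.sin_pi_sub] at h5
      have h6 : 2 / π * (π - (A - t)) < s := lt_of_le_of_lt h5 h3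
      rw [div_mul_eq_mul_div, div_lt_iff₀ hpi] at h6
      linarith
  refine (measure_mono hsub).trans ((measure_union_le _ _).trans ?_)
  rw [Real.volume_Icc, Real.volume_Icc]
  have hpi := Real.pi_pos
  rw [← ENNReal.ofReal_add (by nlinarith) (by nlinarith)]
  apply ENNReal.ofReal_le_ofReal
  linarith

/-- grazing is rare -/
theorem d_Pr_stt {N : ℕ} (hN : N0 ≤ N) {s : ℝ} (hs : 0 ≤ s) :
    Pr N {y | stt (hw N y.1) y.2 < s} ≤ ENNReal.ofReal (21 * s ^ 2) := by
  have hS : MeasurableSet {y : Yt | stt (hw N y.1) y.2 < s} :=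
    measurableSet_lt (measurable_stt_hw hN) measurable_const
  rw [← lintegral_indicator_one hS]
  have hpi := Real.pi_pos
  have hpi2 : π < 3.1416 := Real.pi_lt_d4
  refine (d_Pr_le hN (measurable_one.indicator hS)
    (K := ENNReal.ofReal (102 / 100 * s) * ENNReal.ofReal (π * s)) ?_).trans ?_
  · intro ω u
    have hh := isTab_hw hN ω
    set t := Th (hw N ω) u with ht
    calc ∫⁻ A in Set.Ioo t (t + π), ENNReal.ofReal (pw (hw N ω) (u, A)) *
          ({y : Yt | stt (hw N y.1) y.2 < s}.indicator 1 (ω, (u, A)))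
        ≤ ∫⁻ A in Set.Ioo t (t + π), ({A | sin (A - t) < s}.indicator
            (fun _ => ENNReal.ofReal (102 / 100 * s)) A) := by
          refine setLIntegral_mono' measurableSet_Ioo fun A hA => ?_
          have hz : (u, A) ∈ dom (hw N ω) := ⟨hA.1, hA.2⟩
          obtain ⟨p1, p2, p3⟩ := pw_bounds hh hz
          by_cases h1 : sin (A - t) < s
          · have h2 : ((ω, (u, A)) : Yt) ∈ {y : Yt | stt (hw N y.1) y.2 < s} := h1
            have h3 : A ∈ {A | sin (A - t) < s} := h1
            rw [Set.indicator_of_mem h2, Set.indicator_of_mem h3]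
            simp only [Pi.one_apply, mul_one]
            apply ENNReal.ofReal_le_ofReal
            have h4 : stt (hw N ω) (u, A) < s := h1
            linarith
          · have h2 : ((ω, (u, A)) : Yt) ∉ {y : Yt | stt (hw N y.1) y.2 < s} := h1
            rw [Set.indicator_of_notMem h2, mul_zero]
            exact zero_le
      _ = ENNReal.ofReal (102 / 100 * s) * volume (Set.Ioo t (t + π) ∩ {A | sin (A - t) < s}) := by
          have hms : MeasurableSet {A : ℝ | sin (A - t) < s} :=
            measurableSet_lt (Real.measurable_sin.comp (measurable_id.sub_const t)) measurable_const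
          rw [lintegral_indicator hms, setLIntegral_const, Measure.restrict_apply hms,
            Set.inter_comm]
      _ ≤ ENNReal.ofReal (102 / 100 * s) * ENNReal.ofReal (π * s) := by
          gcongr
          exact d_vol_sin t s hs
  · rw [← ENNReal.ofReal_mul (by positivity), ← ENNReal.ofReal_mul (by positivity)]
    apply ENNReal.ofReal_le_ofReal
    have h1 : π * π ≤ 3.1416 * 3.1416 := by nlinarith
    have h2 : 2 * π * (102 / 100 * s * (π * s)) = (204 / 100 * (π * π)) * s ^ 2 := by ring
    rw [h2]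
    apply mul_le_mul_of_nonneg_right _ (sq_nonneg s)
    nlinarith

/-- the inverse sine is integrable -/
theorem d_Pr_inv_stt {N : ℕ} (hN : N0 ≤ N) :
    ∫⁻ y, ENNReal.ofReal (1 / stt (hw N y.1) y.2) ∂(Pr N) ≤ ENNReal.ofReal 21 := by
  have hpi := Real.pi_pos
  have hpi2 : π < 3.1416 := Real.pi_lt_d4
  have hm : Measurable (fun y : Yt => ENNReal.ofReal (1 / stt (hw N y.1) y.2)) :=
    ENNReal.measurable_ofReal.comp (measurable_const.div (measurable_stt_hw hN))
  refine (d_Pr_le hN hm (K := ENNReal.ofReal (102 / 100) * ENNReal.ofReal π) ?_).trans ?_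
  · intro ω u
    have hh := isTab_hw hN ω
    set t := Th (hw N ω) u with ht
    calc ∫⁻ A in Set.Ioo t (t + π), ENNReal.ofReal (pw (hw N ω) (u, A)) *
          ENNReal.ofReal (1 / stt (hw N ω) (u, A))
        ≤ ∫⁻ _A in Set.Ioo t (t + π), ENNReal.ofReal (102 / 100) := by
          refine setLIntegral_mono' measurableSet_Ioo fun A hA => ?_
          have hz : (u, A) ∈ dom (hw N ω) := ⟨hA.1, hA.2⟩
          obtain ⟨p1, p2, p3⟩ := pw_bounds hh hz
          have ps := stt_pos hz
          have pp := pw_pos hh hz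
          rw [← ENNReal.ofReal_mul pp.le]
          apply ENNReal.ofReal_le_ofReal
          rw [mul_one_div, div_le_iff₀ ps]
          exact p2
      _ = ENNReal.ofReal (102 / 100) * ENNReal.ofReal π := by
          rw [setLIntegral_const, Real.volume_Ioo]
          congr 2
          ring
  · rw [← ENNReal.ofReal_mul (by positivity), ← ENNReal.ofReal_mul (by positivity)]
    apply ENNReal.ofReal_le_ofReal
    nlinarith

/-- the second moment of the logarithm of the cocycle -/
theorem d_sq_log {N : ℕ} (hN : N0 ≤ N) :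
    ∫⁻ y, ENNReal.ofReal (log (fn (MM N y)) ^ 2) ∂(Pr N) ≤ ENNReal.ofReal (21 * (8 * 10 ^ 5)) := by
  have hm : Measurable (fun y : Yt => ENNReal.ofReal (1 / stt (hw N y.1) y.2)) :=
    ENNReal.measurable_ofReal.comp (measurable_const.div (measurable_stt_hw hN))
  calc ∫⁻ y, ENNReal.ofReal (log (fn (MM N y)) ^ 2) ∂(Pr N)
      ≤ ∫⁻ y, ENNReal.ofReal (8 * 10 ^ 5) * ENNReal.ofReal (1 / stt (hw N y.1) y.2) ∂(Pr N) := by
        refine lintegral_mono_ae ?_
        filter_upwards [ae_mem_X0 hN] with y hy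
        have hh := isTab_hw hN y.1
        have hz : y.2 ∈ dom (hw N y.1) := hy.1
        have ps := stt_pos hz
        have h0 : 0 ≤ log (fn (MM N y)) := Real.log_nonneg (s_one_le_fn (det_MM N y))
        have hM : MM N y = Mc (hw N y.1) y.2 := by
          unfold MM
          rw [if_pos hy]
        rw [← ENNReal.ofReal_mul (by positivity)]
        apply ENNReal.ofReal_le_ofReal
        set s := stt (hw N y.1) y.2 with hs
        set b : ℝ := 10 ^ 5 / s with hb
        have hb0 : 0 < b := by positivity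
        have h1 : fn (MM N y) ≤ 2 * b := by
          rw [hM]
          unfold fn
          rw [show 2 * b = √((2 * b) ^ 2) by rw [Real.sqrt_sq (by linarith)]]
          apply Real.sqrt_le_sqrt
          have e : ∀ i j, Mc (hw N y.1) y.2 i j ^ 2 ≤ b ^ 2 := fun i j => by
            rw [← sq_abs]; exact pow_le_pow_left₀ (abs_nonneg _) (Mc_bound hh hz i j) 2
          nlinarith [e 0 0, e 0 1, e 1 0, e 1 1]
        have h2 : log (fn (MM N y)) ≤ log (2 * b) := Real.log_le_log (s_fn_pos (det_MM N y)) h1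
        have h3 : log (2 * b) = 2 * log √(2 * b) := by
          rw [Real.log_sqrt (by positivity)]
          ring
        have h4 : log √(2 * b) ≤ √(2 * b) := by
          have := Real.log_le_sub_one_of_pos (show 0 < √(2 * b) by positivity)
          linarith
        have h5 : log (fn (MM N y)) ≤ 2 * √(2 * b) := by linarith
        have h6 : log (fn (MM N y)) ^ 2 ≤ (2 * √(2 * b)) ^ 2 := pow_le_pow_left₀ h0 h5 2
        rw [mul_pow, Real.sq_sqrt (by positivity)] at h6
        refine h6.trans (le_of_eq ?_)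
        rw [hb]
        ring
    _ = ENNReal.ofReal (8 * 10 ^ 5) * ∫⁻ y, ENNReal.ofReal (1 / stt (hw N y.1) y.2) ∂(Pr N) :=
        lintegral_const_mul _ hm
    _ ≤ ENNReal.ofReal (8 * 10 ^ 5) * ENNReal.ofReal 21 := by
        gcongr
        exact d_Pr_inv_stt hN
    _ = ENNReal.ofReal (21 * (8 * 10 ^ 5)) := by
        rw [← ENNReal.ofReal_mul (by positivity), mul_comm]

end BilEnt
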