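import Pool.Agent.BilEnt.Defs

/-!
# MP_bd32bb_an, part Q, module L01 (doc proof/MP_bd32bb_an_entropy, sections 3, 4)

Hypothesis `2 ≤ m` (with `1 ≤ m` the statement is false: `k = 1`, `H 0 = 1`, `g 1 = -1`).
-/

open MeasureTheory Real
open scoped ENNReal

namespace BilEnt

namespace L01_aux

lemma mprod_left (M : ℕ → Matrix (Fin 2) (Fin 2) ℝ) (a n : ℕ) :
    mprod M a (n + 1) = mprod M (a + 1) n * M a := by
  induction n with
  | zero => simp [mprod]
  | succ n ih =>
    rw [show mprod M a (n + 1 + 1) = M (a + (n + 1)) * mprod M a (n + 1) from rfl, ih,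
      ← Matrix.mul_assoc]
    rw [show mprod M (a + 1) (n + 1) = M (a + 1 + n) * mprod M (a + 1) n from rfl]
    rw [show a + (n + 1) = a + 1 + n by omega]

lemma mprod_split (M : ℕ → Matrix (Fin 2) (Fin 2) ℝ) (n j : ℕ) (hj : j ≤ n) :
    mprod M 0 n = mprod M j (n - j) * mprod M 0 j := by
  induction n, hj using Nat.le_induction with
  | base => simp [mprod]
  | succ n hn ih =>
    rw [show n + 1 - j = (n - j) + 1 by omega]
    rw [show mprod M 0 (n + 1) = M (0 + n) * mprod M 0 n from rfl,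
      show mprod M j (n - j + 1) = M (j + (n - j)) * mprod M j (n - j) from rfl, ih,
      Matrix.mul_assoc]
    rw [show j + (n - j) = n by omega, Nat.zero_add]

lemma step_x {m κ yj A1 gj Aj Hj y1 : ℝ} (hm : 2 ≤ m) (hκ : κ * (100 * m ^ 2) = 1)
    (hA : Aj = gj * yj - A1) (hy : y1 = -yj + Hj * Aj) (hg : |gj| ≤ m) (hH : 1 / m ≤ Hj)
    (hbad : |yj| < κ * (|yj| + |A1|)) : κ * (|y1| + |Aj|) ≤ |y1| := by
  have hm0 : 0 < m := by linarith
  have hκ0 : 0 < κ := by
    by_contra h
    push Not at h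
    have : κ * (100 * m ^ 2) ≤ 0 := mul_nonpos_of_nonpos_of_nonneg h (by positivity)
    linarith
  have hinv : 1 / m = 100 * m * κ := by
    field_simp
    linarith
  have hκm : κ * m ≤ 1 / 200 := by nlinarith
  have hκs : κ ≤ 1 / 400 := by nlinarith
  have h1 : |yj| ≤ 2 * κ * |A1| := by
    have := abs_nonneg yj
    have h2 := abs_nonneg A1
    nlinarith
  have h2 : |A1| ≤ |Aj| + m * |yj| := by
    have e : A1 = gj * yj - Aj := by rw [hA]; ring
    rw [e]
    calc |gj * yj - Aj| ≤ |gj * yj| + |Aj| := abs_sub _ _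
      _ = |gj| * |yj| + |Aj| := by rw [abs_mul]
      _ ≤ |Aj| + m * |yj| := by nlinarith [abs_nonneg yj, abs_nonneg Aj]
  have h3 : |A1| ≤ 2 * |Aj| := by
    have h4 : m * |yj| ≤ m * (2 * κ * |A1|) := mul_le_mul_of_nonneg_left h1 hm0.le
    have h5 : m * (2 * κ * |A1|) ≤ (1 / 100) * |A1| := by
      have : m * (2 * κ * |A1|) = 2 * (κ * m) * |A1| := by ring
      rw [this]
      nlinarith [abs_nonneg A1]
    nlinarith [abs_nonneg A1, abs_nonneg Aj]
  have h4 : |yj| ≤ 4 * κ * |Aj| := by nlinarith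
  have h5 : Hj * |Aj| ≤ |y1| + |yj| := by
    have hHp : 0 < Hj := lt_of_lt_of_le (by positivity) hH
    have e : Hj * Aj = y1 + yj := by rw [hy]; ring
    calc Hj * |Aj| = |Hj * Aj| := by rw [abs_mul, abs_of_pos hHp]
      _ = |y1 + yj| := by rw [e]
      _ ≤ _ := abs_add_le _ _
  have h6 : (100 * m * κ) * |Aj| ≤ Hj * |Aj| := by
    rw [← hinv]; exact mul_le_mul_of_nonneg_right hH (abs_nonneg _)
  have h7 : 196 * κ * |Aj| ≤ |y1| := by
    have h8 : 200 * κ * |Aj| ≤ (100 * m * κ) * |Aj| := by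
      apply mul_le_mul_of_nonneg_right _ (abs_nonneg _)
      nlinarith
    nlinarith
  nlinarith [abs_nonneg y1, abs_nonneg Aj]

lemma step_v {m κ c d y A y1 H v : ℝ} (hm : 2 ≤ m) (hκ : κ * (100 * m ^ 2) = 1)
    (hy : y1 = -y + H * A) (hH : 1 / m ≤ H) (hv : v = c * y + d * A)
    (hc : |d| < κ * (|c| + |d|)) (hx : |y1| < κ * (|y1| + |A|)) :
    (|c| + |d|) * (|y| + |A|) ≤ 16 * m * |v| := by
  have hm0 : 0 < m := by linarith
  have hκ0 : 0 < κ := by
    by_contra h
    push Not at h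
    have : κ * (100 * m ^ 2) ≤ 0 := mul_nonpos_of_nonpos_of_nonneg h (by positivity)
    linarith
  have hinv : 1 / m = 100 * m * κ := by
    field_simp
    linarith
  have hκm : κ * m ≤ 1 / 200 := by nlinarith
  have hκs : κ ≤ 1 / 400 := by nlinarith
  have hd : |d| ≤ 2 * κ * |c| := by nlinarith [abs_nonneg c, abs_nonneg d]
  have hy1 : |y1| ≤ 2 * κ * |A| := by nlinarith [abs_nonneg y1, abs_nonneg A]
  have h5 : H * |A| ≤ |y1| + |y| := by
    have hHp : 0 < H := lt_of_lt_of_le (by positivity) hH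
    have e : H * A = y1 + y := by rw [hy]; ring
    calc H * |A| = |H * A| := by rw [abs_mul, abs_of_pos hHp]
      _ = |y1 + y| := by rw [e]
      _ ≤ _ := abs_add_le _ _
  have h6 : (1 / m) * |A| ≤ H * |A| := mul_le_mul_of_nonneg_right hH (abs_nonneg _)
  have h7 : (99 / 100) * ((1 / m) * |A|) ≤ |y| := by
    have h8 : 2 * κ * |A| ≤ (1 / 100) * ((1 / m) * |A|) := by
      rw [hinv]
      nlinarith [abs_nonneg A, mul_nonneg hκ0.le (abs_nonneg A)]
    linarith
  have h9 : |A| ≤ (100 / 99) * m * |y| := by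
    have e : |A| = m * ((1 / m) * |A|) := by field_simp
    rw [e]
    nlinarith
  have h10 : 2 * κ * |A| ≤ (1 / 50) * |y| := by
    have : 2 * κ * |A| ≤ 2 * κ * ((100 / 99) * m * |y|) :=
      mul_le_mul_of_nonneg_left h9 (by positivity)
    have e : 2 * κ * ((100 / 99) * m * |y|) = (200 / 99) * (κ * m) * |y| := by ring
    rw [e] at this
    nlinarith [abs_nonneg y]
  have h11 : |c| * |y| ≤ |v| + |d| * |A| := by
    have e : c * y = v - d * A := by rw [hv]; ring
    calc |c| * |y| = |c * y| := (abs_mul _ _).symm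
      _ = |v - d * A| := by rw [e]
      _ ≤ |v| + |d * A| := abs_sub _ _
      _ = _ := by rw [abs_mul d A]
  have h12 : |d| * |A| ≤ (1 / 50) * (|c| * |y|) := by
    calc |d| * |A| ≤ (2 * κ * |c|) * |A| := mul_le_mul_of_nonneg_right hd (abs_nonneg _)
      _ = |c| * (2 * κ * |A|) := by ring
      _ ≤ |c| * ((1 / 50) * |y|) := mul_le_mul_of_nonneg_left h10 (abs_nonneg _)
      _ = _ := by ring
  have h13 : |c| * |y| ≤ 2 * |v| := by
    nlinarith [abs_nonneg v, mul_nonneg (abs_nonneg c) (abs_nonneg y)]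
  have h14 : |c| + |d| ≤ 2 * |c| := by nlinarith [abs_nonneg c]
  have h15 : |y| + |A| ≤ 2 * m * |y| := by nlinarith [abs_nonneg y]
  calc (|c| + |d|) * (|y| + |A|) ≤ (2 * |c|) * (2 * m * |y|) :=
        mul_le_mul h14 h15 (by positivity) (by positivity)
    _ = 4 * m * (|c| * |y|) := by ring
    _ ≤ 4 * m * (2 * |v|) := mul_le_mul_of_nonneg_left h13 (by positivity)
    _ ≤ 16 * m * |v| := by nlinarith [mul_nonneg hm0.le (abs_nonneg v)]

lemma shear {m p q p' q' : ℝ} (hm : 2 ≤ m) (h1 : |q'| ≤ |q| + m * |p|)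
    (h2 : |p'| ≤ |p| + m * |q'|) : |p'| + |q'| ≤ m ^ 3 * (|p| + |q|) := by
  have hp := abs_nonneg p
  have hq := abs_nonneg q
  have h3 : |p'| ≤ |p| + m * (|q| + m * |p|) :=
    h2.trans (by nlinarith)
  have h4 : 1 + m + m ^ 2 ≤ m ^ 3 := by nlinarith [mul_nonneg (sub_nonneg.2 hm) (sub_nonneg.2 hm)]
  have h5 : (1 + m + m ^ 2) * (|p| + |q|) ≤ m ^ 3 * (|p| + |q|) :=
    mul_le_mul_of_nonneg_right h4 (by positivity)
  nlinarith [mul_nonneg (by linarith : (0:ℝ) ≤ m) hp, mul_nonneg (by positivity : (0:ℝ) ≤ m ^ 2) hq]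

lemma abs_lin {a b α m : ℝ} (h : |α| ≤ m) : |a + α * b| ≤ |a| + m * |b| := by
  calc |a + α * b| ≤ |a| + |α * b| := abs_add_le _ _
    _ = |a| + |α| * |b| := by rw [abs_mul]
    _ ≤ _ := by nlinarith [abs_nonneg b]

/-- The core of (L1), for abstract sequences. -/
lemma core {m κ : ℝ} (hm : 2 ≤ m) (hκ : κ * (100 * m ^ 2) = 1) {k : ℕ} (hk : 1 ≤ k)
    {g H y A c d : ℕ → ℝ} {v : ℝ}
    (hH : ∀ t < k, 1 / m ≤ H t ∧ H t ≤ m) (hg : ∀ t, 1 ≤ t → t ≤ k → |g t| ≤ m)
    (hy : ∀ j, y (j + 1) = -y j + H j * A j)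
    (hA : ∀ j, A (j + 1) = g (j + 1) * y (j + 1) - A j)
    (hc : ∀ j, j < k → c j = -(c (j + 1) + g (j + 1) * d (j + 1)))
    (hd : ∀ j, j < k → d j = -d (j + 1) + H j * (c (j + 1) + g (j + 1) * d (j + 1)))
    (hv : ∀ j ≤ k, v = c j * y j + d j * A j)
    (h0 : (y 0 = 1 ∧ A 0 = 0) ∨ (y 0 = 0 ∧ A 0 = 1))
    (hkk : (c k = 1 ∧ d k = 0) ∨ (c k = 0 ∧ d k = 1)) {t : ℕ} (ht : t ≤ k) :
    (∃ j, 1 ≤ j ∧ j ≤ k ∧ (|c t| + |d t|) * (|y t| + |A t|) ≤ m ^ 32 * |d j * y j|) ∨
      (|c t| + |d t|) * (|y t| + |A t|) ≤ m ^ 30 * |v| := by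
  have hm0 : 0 < m := by linarith
  have hm1 : 1 ≤ m := by linarith
  have hκ0 : 0 < κ := by
    by_contra h
    push Not at h
    have : κ * (100 * m ^ 2) ≤ 0 := mul_nonpos_of_nonpos_of_nonneg h (by positivity)
    linarith
  have hκm : κ * m ≤ 1 / 200 := by nlinarith
  have hκs : κ ≤ 1 / 400 := by nlinarith
  -- `1 ≤ m^9 κ`
  have hκ9 : 1 ≤ m ^ 9 * κ := by
    have h100 : (100 : ℝ) ≤ m ^ 7 := by
      calc (100 : ℝ) ≤ 2 ^ 7 := by norm_num
        _ ≤ m ^ 7 := pow_le_pow_left₀ (by norm_num) hm 7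
    calc (1 : ℝ) = κ * (100 * m ^ 2) := hκ.symm
      _ ≤ κ * (m ^ 7 * m ^ 2) := by
        apply mul_le_mul_of_nonneg_left _ hκ0.le
        exact mul_le_mul_of_nonneg_right h100 (by positivity)
      _ = m ^ 9 * κ := by ring
  set N : ℕ → ℝ := fun j => (|c j| + |d j|) * (|y j| + |A j|) with hN
  have hN0 : ∀ j, 0 ≤ N j := fun j => by positivity
  -- comparison of neighbours
  have hJup : ∀ j, j < k → |y (j + 1)| + |A (j + 1)| ≤ m ^ 3 * (|y j| + |A j|) := by
    intro j hj
    have hgj := hg (j + 1) (by omega) (by omega)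
    have hHj := hH j hj
    have hHa : |H j| ≤ m := by
      rw [abs_of_pos (lt_of_lt_of_le (by positivity) hHj.1)]; exact hHj.2
    have h1 : |y (j + 1)| ≤ |y j| + m * |A j| := by
      rw [hy j]
      have := abs_lin (a := -y j) (b := A j) hHa
      rwa [abs_neg] at this
    have h2 : |A (j + 1)| ≤ |A j| + m * |y (j + 1)| := by
      rw [hA j, show g (j + 1) * y (j + 1) - A j = -A j + g (j + 1) * y (j + 1) by ring]
      have := abs_lin (a := -A j) (b := y (j + 1)) hgj
      rwa [abs_neg] at this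
    have := shear hm h1 h2
    linarith
  have hJdn : ∀ j, j < k → |y j| + |A j| ≤ m ^ 3 * (|y (j + 1)| + |A (j + 1)|) := by
    intro j hj
    have hgj := hg (j + 1) (by omega) (by omega)
    have hHj := hH j hj
    have hHa : |H j| ≤ m := by
      rw [abs_of_pos (lt_of_lt_of_le (by positivity) hHj.1)]; exact hHj.2
    have h1 : |A j| ≤ |A (j + 1)| + m * |y (j + 1)| := by
      have e : A j = -A (j + 1) + g (j + 1) * y (j + 1) := by rw [hA j]; ring
      rw [e]
      have := abs_lin (a := -A (j + 1)) (b := y (j + 1)) hgj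
      rwa [abs_neg] at this
    have h2 : |y j| ≤ |y (j + 1)| + m * |A j| := by
      have e : y j = -y (j + 1) + H j * A j := by rw [hy j]; ring
      rw [e]
      have := abs_lin (a := -y (j + 1)) (b := A j) hHa
      rwa [abs_neg] at this
    exact shear hm h1 h2
  have hCdn : ∀ j, j < k → |c j| + |d j| ≤ m ^ 3 * (|c (j + 1)| + |d (j + 1)|) := by
    intro j hj
    have hgj := hg (j + 1) (by omega) (by omega)
    have hHj := hH j hj
    have hHa : |H j| ≤ m := by
      rw [abs_of_pos (lt_of_lt_of_le (by positivity) hHj.1)]; exact hHj.2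
    have h1 : |c j| ≤ |c (j + 1)| + m * |d (j + 1)| := by
      rw [hc j hj, abs_neg]
      exact abs_lin hgj
    have h2 : |d j| ≤ |d (j + 1)| + m * |c j| := by
      have e : d j = -d (j + 1) + H j * (-c j) := by rw [hd j hj, hc j hj]; ring
      rw [e]
      have := abs_lin (a := -d (j + 1)) (b := -c j) hHa
      rwa [abs_neg, abs_neg] at this
    have := shear hm h1 h2
    linarith
  have hCup : ∀ j, j < k → |c (j + 1)| + |d (j + 1)| ≤ m ^ 3 * (|c j| + |d j|) := by
    intro j hj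
    have hgj := hg (j + 1) (by omega) (by omega)
    have hHj := hH j hj
    have hHa : |H j| ≤ m := by
      rw [abs_of_pos (lt_of_lt_of_le (by positivity) hHj.1)]; exact hHj.2
    have h1 : |d (j + 1)| ≤ |d j| + m * |c j| := by
      have e : d (j + 1) = -d j + H j * (-c j) := by rw [hd j hj, hc j hj]; ring
      rw [e]
      have := abs_lin (a := -d j) (b := -c j) hHa
      rwa [abs_neg, abs_neg] at this
    have h2 : |c (j + 1)| ≤ |c j| + m * |d (j + 1)| := by
      have e : c (j + 1) = -(c j + g (j + 1) * d (j + 1)) := by rw [hc j hj]; ring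
      rw [e, abs_neg]
      exact abs_lin hgj
    exact shear hm h1 h2
  have hNup : ∀ j, j < k → N (j + 1) ≤ m ^ 6 * N j := by
    intro j hj
    calc N (j + 1) ≤ (m ^ 3 * (|c j| + |d j|)) * (m ^ 3 * (|y j| + |A j|)) :=
          mul_le_mul (hCup j hj) (hJup j hj) (by positivity) (by positivity)
      _ = m ^ 6 * N j := by simp only [hN]; ring
  have hNdn : ∀ j, j < k → N j ≤ m ^ 6 * N (j + 1) := by
    intro j hj
    calc N j ≤ (m ^ 3 * (|c (j + 1)| + |d (j + 1)|)) * (m ^ 3 * (|y (j + 1)| + |A (j + 1)|)) :=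
          mul_le_mul (hCdn j hj) (hJdn j hj) (by positivity) (by positivity)
      _ = m ^ 6 * N (j + 1) := by simp only [hN]; ring
  -- good vectors
  set XG : ℕ → Prop := fun j => κ * (|y (j + 1)| + |A j|) ≤ |y (j + 1)| with hXG
  set CG : ℕ → Prop := fun j => κ * (|c j| + |d j|) ≤ |d j| with hCG
  have hX0 : XG 0 := by
    simp only [hXG]
    have hH0 := hH 0 (by omega)
    rcases h0 with ⟨e1, e2⟩ | ⟨e1, e2⟩
    · rw [hy 0, e1, e2]; norm_num; linarith
    · rw [hy 0, e1, e2]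
      have hp : 0 < H 0 := lt_of_lt_of_le (by positivity) hH0.1
      have hinv : 1 / m = 100 * m * κ := by field_simp; linarith
      rw [hinv] at hH0
      norm_num
      rw [abs_of_pos hp]
      nlinarith [hH0.1]
  have hXs : ∀ j, j + 1 < k → ¬ XG j → XG (j + 1) := by
    intro j hj hb
    simp only [hXG, not_le] at hb ⊢
    exact step_x hm hκ (hA j) (hy (j + 1)) (hg (j + 1) (by omega) (by omega)) (hH (j + 1) hj).1 hb
  have hCs : ∀ j, j < k → ¬ CG (j + 1) → CG j := by
    intro j hj hb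
    simp only [hCG, not_le] at hb ⊢
    have h := step_x (m := m) (κ := κ) (yj := d (j + 1)) (A1 := -c (j + 1)) (gj := g (j + 1))
      (Aj := c (j + 1) + g (j + 1) * d (j + 1)) (Hj := H j) (y1 := d j) hm hκ (by ring)
      (hd j hj) (hg (j + 1) (by omega) (by omega)) (hH j hj).1
      (by rw [abs_neg]; linarith)
    have e : |c j| = |c (j + 1) + g (j + 1) * d (j + 1)| := by rw [hc j hj, abs_neg]
    rw [e]
    linarith
  have hV : ∀ j, j < k → ¬ CG j → ¬ XG j → N j ≤ 16 * m * |v| := by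
    intro j hj h1 h2
    simp only [hCG, hXG, not_le] at h1 h2
    exact step_v hm hκ (hy j) (hH j hj).1 (hv j hj.le) h1 h2
  -- size of x
  have hXJ : ∀ j, j < k → |y (j + 1)| + |A (j + 1)| ≤ m ^ 2 * (|y (j + 1)| + |A j|) := by
    intro j hj
    have hgj := hg (j + 1) (by omega) (by omega)
    have h2 : |A (j + 1)| ≤ |A j| + m * |y (j + 1)| := by
      rw [hA j, show g (j + 1) * y (j + 1) - A j = -A j + g (j + 1) * y (j + 1) by ring]
      have := abs_lin (a := -A j) (b := y (j + 1)) hgj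
      rwa [abs_neg] at this
    have h3 : 1 + m ≤ m ^ 2 := by nlinarith
    nlinarith [abs_nonneg (y (j + 1)), abs_nonneg (A j),
      mul_le_mul_of_nonneg_right h3 (abs_nonneg (y (j + 1))),
      mul_le_mul_of_nonneg_right h3 (abs_nonneg (A j)),
      mul_nonneg hm0.le (abs_nonneg (A j))]
  -- both good at `j + 1`
  have hgood : ∀ j, j < k → XG j → CG (j + 1) → N (j + 1) ≤ m ^ 20 * |d (j + 1) * y (j + 1)| := by
    intro j hj h1 h2
    simp only [hXG, hCG] at h1 h2
    have e1 : |c (j + 1)| + |d (j + 1)| ≤ m ^ 9 * |d (j + 1)| := by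
      calc |c (j + 1)| + |d (j + 1)| ≤ (m ^ 9 * κ) * (|c (j + 1)| + |d (j + 1)|) := by
            nlinarith [mul_nonneg (sub_nonneg.2 hκ9) (by positivity : (0:ℝ) ≤ |c (j + 1)| + |d (j + 1)|)]
        _ = m ^ 9 * (κ * (|c (j + 1)| + |d (j + 1)|)) := by ring
        _ ≤ _ := mul_le_mul_of_nonneg_left h2 (by positivity)
    have e2 : |y (j + 1)| + |A j| ≤ m ^ 9 * |y (j + 1)| := by
      calc |y (j + 1)| + |A j| ≤ (m ^ 9 * κ) * (|y (j + 1)| + |A j|) := by
            nlinarith [mul_nonneg (sub_nonneg.2 hκ9) (by positivity : (0:ℝ) ≤ |y (j + 1)| + |A j|)]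
        _ = m ^ 9 * (κ * (|y (j + 1)| + |A j|)) := by ring
        _ ≤ _ := mul_le_mul_of_nonneg_left h1 (by positivity)
    have e3 : |y (j + 1)| + |A (j + 1)| ≤ m ^ 11 * |y (j + 1)| := by
      calc _ ≤ m ^ 2 * (|y (j + 1)| + |A j|) := hXJ j hj
        _ ≤ m ^ 2 * (m ^ 9 * |y (j + 1)|) := mul_le_mul_of_nonneg_left e2 (by positivity)
        _ = _ := by ring
    calc N (j + 1) ≤ (m ^ 9 * |d (j + 1)|) * (m ^ 11 * |y (j + 1)|) :=
          mul_le_mul e1 e3 (by positivity) (by positivity)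
      _ = _ := by rw [abs_mul]; ring
  -- the main alternative at `j + 1`
  have hP : ∀ j, j < k → (∃ i, 1 ≤ i ∧ i ≤ k ∧ N (j + 1) ≤ m ^ 26 * |d i * y i|) ∨
      N (j + 1) ≤ m ^ 24 * |v| := by
    intro j hj
    have hpow : ∀ {a b : ℕ} {z : ℝ}, a ≤ b → 0 ≤ z → m ^ a * z ≤ m ^ b * z := by
      intro a b z hab hz
      exact mul_le_mul_of_nonneg_right (pow_le_pow_right₀ hm1 hab) hz
    have h16 : 16 * m * |v| ≤ m ^ 5 * |v| := by
      apply mul_le_mul_of_nonneg_right _ (abs_nonneg _)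
      have : (16 : ℝ) ≤ m ^ 4 := by
        calc (16 : ℝ) = 2 ^ 4 := by norm_num
          _ ≤ m ^ 4 := pow_le_pow_left₀ (by norm_num) hm 4
      nlinarith
    by_cases hx : XG j
    · by_cases hcg : CG (j + 1)
      · left
        exact ⟨j + 1, by omega, by omega, (hgood j hj hx hcg).trans (hpow (by norm_num) (abs_nonneg _))⟩
      · rcases Nat.lt_or_ge (j + 1) k with hlt | hge
        · -- c is good at j + 2
          by_cases hx1 : XG (j + 1)
          · by_cases hcg2 : CG (j + 1 + 1)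
            · left
              refine ⟨j + 1 + 1, by omega, by omega, ?_⟩
              calc N (j + 1) ≤ m ^ 6 * N (j + 1 + 1) := hNdn _ hlt
                _ ≤ m ^ 6 * (m ^ 20 * |d (j + 1 + 1) * y (j + 1 + 1)|) :=
                    mul_le_mul_of_nonneg_left (hgood (j + 1) hlt hx1 hcg2) (by positivity)
                _ = _ := by ring
            · exact absurd (hCs (j + 1) hlt hcg2) hcg
          · right
            calc N (j + 1) ≤ 16 * m * |v| := hV (j + 1) hlt hcg hx1
              _ ≤ m ^ 5 * |v| := h16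
              _ ≤ _ := hpow (by norm_num) (abs_nonneg _)
        · -- j + 1 = k
          have hjk : j + 1 = k := by omega
          rcases hkk with ⟨e1, e2⟩ | ⟨e1, e2⟩
          · right
            have hvk : v = y (j + 1) := by
              rw [hv (j + 1) (by omega), hjk, e1, e2]; ring
            simp only [hXG] at hx
            have e2' : |y (j + 1)| + |A j| ≤ m ^ 9 * |y (j + 1)| := by
              calc |y (j + 1)| + |A j| ≤ (m ^ 9 * κ) * (|y (j + 1)| + |A j|) := by
                    nlinarith [mul_nonneg (sub_nonneg.2 hκ9) (by positivity : (0:ℝ) ≤ |y (j + 1)| + |A j|)]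
                _ = m ^ 9 * (κ * (|y (j + 1)| + |A j|)) := by ring
                _ ≤ _ := mul_le_mul_of_nonneg_left hx (by positivity)
            calc N (j + 1) = |y (j + 1)| + |A (j + 1)| := by
                  simp only [hN]; rw [hjk, e1, e2]; norm_num
              _ ≤ m ^ 2 * (|y (j + 1)| + |A j|) := hXJ j hj
              _ ≤ m ^ 2 * (m ^ 9 * |y (j + 1)|) := mul_le_mul_of_nonneg_left e2' (by positivity)
              _ = m ^ 11 * |v| := by rw [hvk]; ring
              _ ≤ _ := hpow (by norm_num) (abs_nonneg _)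
          · exfalso
            apply hcg
            simp only [hCG]
            rw [hjk, e1, e2]
            norm_num
            linarith
    · -- x is bad at j + 1
      rcases j with _ | j
      · exact absurd hX0 hx
      · have hxg : XG j := by
          by_contra hb
          exact hx (hXs j hj hb)
        by_cases hcg : CG (j + 1)
        · left
          refine ⟨j + 1, by omega, by omega, ?_⟩
          calc N (j + 1 + 1) ≤ m ^ 6 * N (j + 1) := hNup _ hj
            _ ≤ m ^ 6 * (m ^ 20 * |d (j + 1) * y (j + 1)|) :=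
                mul_le_mul_of_nonneg_left (hgood j (by omega) hxg hcg) (by positivity)
            _ = _ := by ring
        · right
          calc N (j + 1 + 1) ≤ m ^ 6 * N (j + 1) := hNup _ hj
            _ ≤ m ^ 6 * (16 * m * |v|) :=
                mul_le_mul_of_nonneg_left (hV (j + 1) hj hcg hx) (by positivity)
            _ ≤ m ^ 6 * (m ^ 5 * |v|) := mul_le_mul_of_nonneg_left h16 (by positivity)
            _ = m ^ 11 * |v| := by ring
            _ ≤ _ := hpow (by norm_num) (abs_nonneg _)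
  -- conclusion
  have hpow : ∀ {a b : ℕ} {z : ℝ}, a ≤ b → 0 ≤ z → m ^ a * z ≤ m ^ b * z := by
    intro a b z hab hz
    exact mul_le_mul_of_nonneg_right (pow_le_pow_right₀ hm1 hab) hz
  rcases t with _ | t
  · have h1 := hNdn 0 (by omega)
    rcases hP 0 (by omega) with ⟨i, hi1, hi2, hi3⟩ | h2
    · left
      refine ⟨i, hi1, hi2, ?_⟩
      calc N 0 ≤ m ^ 6 * N (0 + 1) := h1
        _ ≤ m ^ 6 * (m ^ 26 * |d i * y i|) := mul_le_mul_of_nonneg_left hi3 (by positivity)
        _ = _ := by ring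
    · right
      calc N 0 ≤ m ^ 6 * N (0 + 1) := h1
        _ ≤ m ^ 6 * (m ^ 24 * |v|) := mul_le_mul_of_nonneg_left h2 (by positivity)
        _ = _ := by ring
  · rcases hP t (by omega) with ⟨i, hi1, hi2, hi3⟩ | h2
    · left
      exact ⟨i, hi1, hi2, hi3.trans (hpow (by norm_num) (abs_nonneg _))⟩
    · right
      exact h2.trans (hpow (by norm_num) (abs_nonneg _))

end L01_aux

open L01_aux in
/-- (L1) where a failure of quasi-multiplicativity can be repaired by a change of one reflection. -/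
theorem L1 : ∃ c0 : ℕ, 1 ≤ c0 ∧ ∀ (g H : ℕ → ℝ) (m : ℝ) (k : ℕ), 2 ≤ m → 1 ≤ k →
    (∀ t < k, 1 / m ≤ H t ∧ H t ≤ m) → (∀ t, 1 ≤ t → t ≤ k → |g t| ≤ m) →
    ∀ (χ : ℝ) (t : ℕ) (f i : Fin 2), 0 < χ → χ * m ^ c0 ≤ 1 → t ≤ k →
      |mprod (gH g H) 0 k f i| <
        χ * rn (mprod (gH g H) t (k - t)) f * cn (mprod (gH g H) 0 t) i →
      ∃ j, 1 ≤ j ∧ j ≤ k ∧ Qc (gH g H) k j f i ≠ 0 ∧
        |mprod (gH g H) 0 k f i| ≤ χ * m ^ c0 * |Qc (gH g H) k j f i| := by
  refine ⟨32, by norm_num, ?_⟩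
  intro g H m k hm hk hH hg χ t f i hχ hχm ht hlt
  have hm0 : 0 < m := by linarith
  have hm1 : 1 ≤ m := by linarith
  set M := gH g H with hM
  have hv : ∀ j ≤ k, mprod M 0 k f i =
      mprod M j (k - j) f 0 * mprod M 0 j 0 i + mprod M j (k - j) f 1 * mprod M 0 j 1 i := by
    intro j hj
    rw [mprod_split M k j hj, Matrix.mul_apply, Fin.sum_univ_two]
  have hy : ∀ j, mprod M 0 (j + 1) 0 i = -mprod M 0 j 0 i + H j * mprod M 0 j 1 i := by
    intro j
    rw [show mprod M 0 (j + 1) = M (0 + j) * mprod M 0 j from rfl, Matrix.mul_apply,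
      Fin.sum_univ_two, Nat.zero_add, hM]
    simp [gH, BF]
  have hA : ∀ j, mprod M 0 (j + 1) 1 i = g (j + 1) * mprod M 0 (j + 1) 0 i - mprod M 0 j 1 i := by
    intro j
    rw [hy j, show mprod M 0 (j + 1) = M (0 + j) * mprod M 0 j from rfl, Matrix.mul_apply,
      Fin.sum_univ_two, Nat.zero_add, hM]
    simp [gH, BF]
    ring
  have hsub : ∀ j, j < k → mprod M j (k - j) = mprod M (j + 1) (k - (j + 1)) * M j := by
    intro j hj
    rw [show k - j = (k - (j + 1)) + 1 by omega, mprod_left]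
  have hc : ∀ j, j < k → mprod M j (k - j) f 0 =
      -(mprod M (j + 1) (k - (j + 1)) f 0 + g (j + 1) * mprod M (j + 1) (k - (j + 1)) f 1) := by
    intro j hj
    rw [hsub j hj, Matrix.mul_apply, Fin.sum_univ_two, hM]
    simp [gH, BF]
    ring
  have hd : ∀ j, j < k → mprod M j (k - j) f 1 = -mprod M (j + 1) (k - (j + 1)) f 1 +
      H j * (mprod M (j + 1) (k - (j + 1)) f 0 + g (j + 1) * mprod M (j + 1) (k - (j + 1)) f 1) := by
    intro j hj
    rw [hsub j hj, Matrix.mul_apply, Fin.sum_univ_two, hM]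
    simp [gH, BF]
    ring
  have h0 : (mprod M 0 0 0 i = 1 ∧ mprod M 0 0 1 i = 0) ∨
      (mprod M 0 0 0 i = 0 ∧ mprod M 0 0 1 i = 1) := by
    have hz : mprod M 0 0 = 1 := rfl
    rw [hz]
    rcases (by omega : i = 0 ∨ i = 1) with rfl | rfl <;> simp
  have hkk : (mprod M k (k - k) f 0 = 1 ∧ mprod M k (k - k) f 1 = 0) ∨
      (mprod M k (k - k) f 0 = 0 ∧ mprod M k (k - k) f 1 = 1) := by
    rw [Nat.sub_self]
    have hz : mprod M k 0 = 1 := rfl
    rw [hz]
    rcases (by omega : f = 0 ∨ f = 1) with rfl | rfl <;> simp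
  have hκ : (1 / (100 * m ^ 2)) * (100 * m ^ 2) = 1 := by field_simp
  have key := core (m := m) hm hκ (k := k) hk (g := g) (H := H) (y := fun j => mprod M 0 j 0 i)
    (A := fun j => mprod M 0 j 1 i) (c := fun j => mprod M j (k - j) f 0)
    (d := fun j => mprod M j (k - j) f 1) (v := mprod M 0 k f i) hH hg hy hA hc hd hv h0 hkk ht
  have hlt' : |mprod M 0 k f i| < χ * ((|mprod M t (k - t) f 0| + |mprod M t (k - t) f 1|) *
      (|mprod M 0 t 0 i| + |mprod M 0 t 1 i|)) := by
    have : χ * rn (mprod M t (k - t)) f * cn (mprod M 0 t) i =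
        χ * ((|mprod M t (k - t) f 0| + |mprod M t (k - t) f 1|) *
      (|mprod M 0 t 0 i| + |mprod M 0 t 1 i|)) := by
      unfold rn cn; ring
    rw [← this]; exact hlt
  rcases key with ⟨j, hj1, hj2, hj3⟩ | hbad
  · refine ⟨j, hj1, hj2, ?_, ?_⟩
    · intro h0'
      unfold Qc at h0'
      rw [h0', abs_zero, mul_zero] at hj3
      have : |mprod M 0 k f i| < 0 := lt_of_lt_of_le hlt' (by nlinarith)
      exact absurd this (not_lt.2 (abs_nonneg _))
    · unfold Qc
      calc |mprod M 0 k f i| ≤ χ * ((|mprod M t (k - t) f 0| + |mprod M t (k - t) f 1|) *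
              (|mprod M 0 t 0 i| + |mprod M 0 t 1 i|)) := hlt'.le
        _ ≤ χ * (m ^ 32 * |mprod M j (k - j) f 1 * mprod M 0 j 0 i|) :=
            mul_le_mul_of_nonneg_left hj3 hχ.le
        _ = _ := by ring
  · exfalso
    have h1 : χ * ((|mprod M t (k - t) f 0| + |mprod M t (k - t) f 1|) *
              (|mprod M 0 t 0 i| + |mprod M 0 t 1 i|)) ≤ χ * (m ^ 30 * |mprod M 0 k f i|) :=
      mul_le_mul_of_nonneg_left hbad hχ.le
    have h2 : χ * (m ^ 30 * |mprod M 0 k f i|) ≤ χ * (m ^ 32 * |mprod M 0 k f i|) := by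
      apply mul_le_mul_of_nonneg_left _ hχ.le
      exact mul_le_mul_of_nonneg_right (pow_le_pow_right₀ hm1 (by norm_num)) (abs_nonneg _)
    have h3 : χ * (m ^ 32 * |mprod M 0 k f i|) ≤ |mprod M 0 k f i| := by
      have : χ * (m ^ 32 * |mprod M 0 k f i|) = (χ * m ^ 32) * |mprod M 0 k f i| := by ring
      rw [this]
      nlinarith [abs_nonneg (mprod M 0 k f i)]
    linarith

end BilEnt
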