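import Pool.Agent.BilEnt.Defs

/-!
# MP_bd32bb_an, part Q, module L02 (doc proof/MP_bd32bb_an_entropy, sections 3, 4)

HINT. Only the matrices `gH g H (j-1)` and `gH g' H (j-1)` differ; `BF (g+δ) H = BF g H + δ * !![0,0;-1,H]`, and `mprod` splits at `j-1` and `j`.
-/

open MeasureTheory Real
open scoped ENNReal

namespace BilEnt

namespace L02_aux

theorem congr (g g' H H' : ℕ → ℝ) (a k : ℕ) (hg : ∀ t, a < t → t ≤ a + k → g t = g' t)
    (hH : ∀ t, a ≤ t → t < a + k → H t = H' t) :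
    mprod (gH g H) a k = mprod (gH g' H') a k := by
  induction k with
  | zero => rfl
  | succ k ih =>
    have h1 := ih (fun t h1 h2 => hg t h1 (by omega)) (fun t h1 h2 => hH t h1 (by omega))
    show gH g H (a + k) * mprod (gH g H) a k = gH g' H' (a + k) * mprod (gH g' H') a k
    rw [h1]
    unfold gH
    rw [hg (a + k + 1) (by omega) (by omega), hH (a + k) (by omega) (by omega)]

theorem add (M : ℕ → Matrix (Fin 2) (Fin 2) ℝ) (a k l : ℕ) :
    mprod M a (k + l) = mprod M (a + k) l * mprod M a k := by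
  induction l with
  | zero =>
    show mprod M a k = (1 : Matrix (Fin 2) (Fin 2) ℝ) * mprod M a k
    rw [Matrix.one_mul]
  | succ l ih =>
    show M (a + (k + l)) * mprod M a (k + l) = (M (a + k + l) * mprod M (a + k) l) * mprod M a k
    rw [ih, Matrix.mul_assoc, add_assoc]

end L02_aux

/-- affine dependence on one reflection -/
theorem L2 (g g' H : ℕ → ℝ) (k j : ℕ) (hj : 1 ≤ j) (hjk : j ≤ k)
    (hg : ∀ t, t ≠ j → g t = g' t) (f i : Fin 2) :
    mprod (gH g' H) 0 k f i = mprod (gH g H) 0 k f i + (g' j - g j) * Qc (gH g H) k j f i ∧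
      Qc (gH g' H) k j f i = Qc (gH g H) k j f i := by
  obtain ⟨j0, rfl⟩ : ∃ j0, j = j0 + 1 := ⟨j - 1, by omega⟩
  obtain ⟨l, rfl⟩ : ∃ l, k = (j0 + 1) + l := ⟨k - (j0 + 1), by omega⟩
  have e1 : mprod (gH g' H) 0 j0 = mprod (gH g H) 0 j0 :=
    L02_aux.congr g' g H H 0 j0 (fun t h1 h2 => (hg t (by omega)).symm) (fun _ _ _ => rfl)
  have e2 : mprod (gH g' H) (0 + (j0 + 1)) l = mprod (gH g H) (0 + (j0 + 1)) l :=
    L02_aux.congr g' g H H (0 + (j0 + 1)) l (fun t h1 h2 => (hg t (by omega)).symm)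
      (fun _ _ _ => rfl)
  have e3 : ∀ G : ℕ → ℝ, mprod (gH G H) 0 (j0 + 1) = gH G H (0 + j0) * mprod (gH G H) 0 j0 :=
    fun G => rfl
  have r0 : mprod (gH g' H) 0 (j0 + 1) 0 i = mprod (gH g H) 0 (j0 + 1) 0 i := by
    rw [e3, e3, e1]
    simp [Matrix.mul_apply, Fin.sum_univ_two, gH, BF]
  have r1 : mprod (gH g' H) 0 (j0 + 1) 1 i = mprod (gH g H) 0 (j0 + 1) 1 i +
      (g' (j0 + 1) - g (j0 + 1)) * mprod (gH g H) 0 (j0 + 1) 0 i := by
    rw [e3, e3, e1]
    simp only [Matrix.mul_apply, Fin.sum_univ_two, gH, BF, Matrix.of_apply, Matrix.cons_val',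
      Matrix.cons_val_zero, Matrix.cons_val_one, Matrix.cons_val_fin_one, zero_add]
    ring
  constructor
  · rw [L02_aux.add (gH g' H) 0 (j0 + 1) l, L02_aux.add (gH g H) 0 (j0 + 1) l, e2]
    unfold Qc
    simp only [Matrix.mul_apply, Fin.sum_univ_two, Nat.add_sub_cancel_left]
    rw [r0, r1]
    rw [zero_add]
    ring
  · unfold Qc
    rw [zero_add] at e2
    rw [Nat.add_sub_cancel_left, e2, r0]

/-- the same when also the sequences are only known on the segment -/
theorem mprod_gH_congr (g g' H H' : ℕ → ℝ) (a k : ℕ) (hg : ∀ t, a < t → t ≤ a + k → g t = g' t)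
    (hH : ∀ t, a ≤ t → t < a + k → H t = H' t) :
    mprod (gH g H) a k = mprod (gH g' H') a k := by
  exact L02_aux.congr g g' H H' a k hg hH

/-- splitting of products -/
theorem mprod_add (M : ℕ → Matrix (Fin 2) (Fin 2) ℝ) (a k l : ℕ) :
    mprod M a (k + l) = mprod M (a + k) l * mprod M a k := by
  exact L02_aux.add M a k l

/-- the orbit cocycle in the form `gH` -/
theorem Ms_eq_gH (h : ℝ → ℝ) (z : ℝ × ℝ) :
    Ms h z = gH (fun t => gg h (pth h z (t - 1))) (fun t => hl h (pth h z t)) := by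
  funext t
  unfold Ms Mc gH BF
  simp only [Nat.add_sub_cancel]

end BilEnt
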