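import Pool.Agent.BilEnt.Defs

/-!
# MP_bd32bb_an, part R, module R14 (doc proof/MP_bd32bb_an_entropy)

HINT. `nu = (1/8) volume` on the cube; linear change of variables (`(x0,x1,x2) ↦ (y0,x1,x2)` has determinant 1, `(y0,y1,x2)` determinant `c`); `|y0| ≤ 5`, `|y1| ≤ 5`, `|x2| ≤ 1` on the box; Tonelli.
nu_le_slope: `(1/8)·10·2·b`; nu_le_curv: `(1/8)·10·10·(1/c)·b`.
-/

open MeasureTheory Real
open scoped ENNReal

namespace BilEnt

namespace R14_aux

/-- the uniform law is one eighth of Lebesgue measure on the cube -/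
theorem nu_eq : nu = (1 / 8 : ℝ≥0∞) •
    (volume : Measure (Fin 3 → ℝ)).restrict (Set.univ.pi fun _ => Set.Icc (-1 : ℝ) 1) := by
  unfold nu
  apply Measure.pi_eq
  intro s hs
  have hm : MeasurableSet (Set.univ.pi s) := MeasurableSet.univ_pi hs
  rw [Measure.smul_apply, Measure.restrict_apply hm, ← Set.pi_inter_distrib, volume_pi_pi]
  simp only [Fin.prod_univ_three, smul_eq_mul, nu1, Measure.smul_apply,
    Measure.restrict_apply (hs _)]
  have h8 : (1 / 8 : ℝ≥0∞) = 1 / 2 * (1 / 2) * (1 / 2) := by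
    rw [one_div, one_div, ← ENNReal.mul_inv (by norm_num) (by norm_num),
      ← ENNReal.mul_inv (by norm_num) (by norm_num)]
    norm_num
  rw [h8]
  ring

theorem nu_le (S : Set (Fin 3 → ℝ)) : nu S ≤ (1 / 8 : ℝ≥0∞) * volume S := by
  rw [nu_eq, Measure.smul_apply, smul_eq_mul]
  exact mul_le_mul_right (Measure.restrict_apply_le _ _) _

/-- measure of a set from the measures of its sections -/
theorem sec (j : Fin 3) {S : Set (Fin 3 → ℝ)} (hS : MeasurableSet S) {b : ℝ}
    (hsec : ∀ y : Fin 2 → ℝ, volume {t : ℝ | (j.insertNth t y : Fin 3 → ℝ) ∈ S} ≤ ENNReal.ofReal b)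
    (hR : ∀ (y : Fin 2 → ℝ) (t : ℝ), (j.insertNth t y : Fin 3 → ℝ) ∈ S →
      |y 0| ≤ 5 ∧ |y 1| ≤ 5) : volume S ≤ ENNReal.ofReal b * ENNReal.ofReal 100 := by
  set e := MeasurableEquiv.piFinSuccAbove (fun _ : Fin 3 => ℝ) j with he
  have hmp : MeasurePreserving e volume volume :=
    volume_preserving_piFinSuccAbove (fun _ : Fin 3 => ℝ) j
  have h1 : volume S = (volume : Measure (ℝ × (Fin 2 → ℝ))) (e.symm ⁻¹' S) := by
    rw [← hmp.measure_preimage_equiv]
    congr 1
    ext x
    simp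
  have hm : MeasurableSet (e.symm ⁻¹' S) := e.symm.measurable hS
  rw [h1, Measure.volume_eq_prod, Measure.prod_apply_symm hm]
  set R : Set (Fin 2 → ℝ) := Set.Icc (fun _ => -5) (fun _ => 5) with hRdef
  calc ∫⁻ y : Fin 2 → ℝ, volume ((fun x : ℝ => (x, y)) ⁻¹' (e.symm ⁻¹' S))
      ≤ ∫⁻ y : Fin 2 → ℝ, R.indicator (fun _ => ENNReal.ofReal b) y := by
        apply lintegral_mono
        intro y
        by_cases hy : y ∈ R
        · rw [Set.indicator_of_mem hy]
          exact hsec y
        · rw [Set.indicator_of_notMem hy]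
          have hempty : (fun x : ℝ => (x, y)) ⁻¹' (e.symm ⁻¹' S) = ∅ := by
            rw [Set.eq_empty_iff_forall_notMem]
            intro t ht
            apply hy
            have ht' : (j.insertNth t y : Fin 3 → ℝ) ∈ S := ht
            obtain ⟨h2, h3⟩ := hR y t ht'
            rw [abs_le] at h2 h3
            rw [hRdef, Set.mem_Icc, Pi.le_def, Pi.le_def]
            constructor
            · intro i
              fin_cases i
              · exact h2.1
              · exact h3.1
            · intro i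
              fin_cases i
              · exact h2.2
              · exact h3.2
          show volume ((fun x : ℝ => (x, y)) ⁻¹' (e.symm ⁻¹' S)) ≤ 0
          rw [hempty, measure_empty]
    _ = ENNReal.ofReal b * volume R := by
        rw [lintegral_indicator_const measurableSet_Icc]
    _ = ENNReal.ofReal b * ENNReal.ofReal 100 := by
        rw [hRdef, Real.volume_Icc_pi]
        simp only [Fin.prod_univ_two]
        rw [← ENNReal.ofReal_mul (by norm_num)]
        norm_num

theorem eighth (b : ℝ) : (1 / 8 : ℝ≥0∞) * (ENNReal.ofReal b * ENNReal.ofReal 100) ≤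
    ENNReal.ofReal (100 * b) := by
  rw [mul_comm 100 b, ENNReal.ofReal_mul' (by norm_num)]
  calc (1 / 8 : ℝ≥0∞) * (ENNReal.ofReal b * ENNReal.ofReal 100)
      ≤ 1 * (ENNReal.ofReal b * ENNReal.ofReal 100) := by
        apply mul_le_mul_left
        rw [one_div]
        exact ENNReal.inv_le_one.2 (by norm_num)
    _ = _ := one_mul _

end R14_aux

open R14_aux

/-- sections in the slope direction -/
theorem nu_le_slope {S : Set (Fin 3 → ℝ)} (hS : MeasurableSet S) (hbox : ∀ x ∈ S, ∀ j, |x j| ≤ 1)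
    {s d b : ℝ} (hs : |s| ≤ 2) (hd : |d| ≤ 2) (hb : 0 ≤ b)
    (H : ∀ y0 x2, volume {x1 : ℝ | ![y0 - x1 * s - x2 * d, x1, x2] ∈ S} ≤ ENNReal.ofReal b) :
    nu S ≤ ENNReal.ofReal (100 * b) := by
  set M : Matrix (Fin 3) (Fin 3) ℝ := !![1, -s, -d; 0, 1, 0; 0, 0, 1] with hM
  set f := Matrix.toLin' M with hf
  have hdet : LinearMap.det f = 1 := by
    rw [hf, LinearMap.det_toLin', hM, Matrix.det_fin_three]
    simp
  have hfy : ∀ y : Fin 3 → ℝ, f y = ![y 0 - y 1 * s - y 2 * d, y 1, y 2] := by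
    intro y
    rw [hf, Matrix.toLin'_apply, hM]
    ext i
    fin_cases i <;> simp [Matrix.mulVec, dotProduct, Fin.sum_univ_three]
    ring
  have hpre := Measure.addHaar_preimage_linearMap (volume : Measure (Fin 3 → ℝ))
    (f := f) (by rw [hdet]; exact one_ne_zero) S
  rw [hdet, inv_one, abs_one, ENNReal.ofReal_one, one_mul] at hpre
  have hmf : MeasurableSet (f ⁻¹' S) := (LinearMap.continuous_of_finiteDimensional f).measurable hS
  have hins : ∀ (y : Fin 2 → ℝ) (t : ℝ), f ((1 : Fin 3).insertNth t y : Fin 3 → ℝ) =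
      ![y 0 - t * s - y 1 * d, t, y 1] := by
    intro y t
    rw [hfy]
    rfl
  have hvol : volume (f ⁻¹' S) ≤ ENNReal.ofReal b * ENNReal.ofReal 100 := by
    apply sec 1 hmf
    · intro y
      have h1 : {t : ℝ | ((1 : Fin 3).insertNth t y : Fin 3 → ℝ) ∈ f ⁻¹' S} =
          {x1 : ℝ | ![y 0 - x1 * s - y 1 * d, x1, y 1] ∈ S} := by
        ext t
        rw [Set.mem_setOf_eq, Set.mem_preimage, hins, Set.mem_setOf_eq]
      rw [h1]
      exact H (y 0) (y 1)
    · intro y t ht
      rw [Set.mem_preimage, hins] at ht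
      have h0 := hbox _ ht 0
      have h1 := hbox _ ht 1
      have h2 := hbox _ ht 2
      simp only [Matrix.cons_val_zero, Matrix.cons_val_one, Matrix.cons_val] at h0 h1 h2
      have h3 : |t * s| ≤ 2 := by
        rw [abs_mul]
        nlinarith [abs_nonneg t, abs_nonneg s]
      have h4 : |y 1 * d| ≤ 2 := by
        rw [abs_mul]
        nlinarith [abs_nonneg (y 1), abs_nonneg d]
      constructor
      · rw [abs_le] at *
        constructor <;> linarith [h0.1, h0.2, h3.1, h3.2, h4.1, h4.2]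
      · linarith
  calc nu S ≤ (1 / 8 : ℝ≥0∞) * volume S := nu_le S
    _ = (1 / 8 : ℝ≥0∞) * volume (f ⁻¹' S) := by rw [hpre]
    _ ≤ (1 / 8 : ℝ≥0∞) * (ENNReal.ofReal b * ENNReal.ofReal 100) := mul_le_mul_right hvol _
    _ ≤ _ := eighth b

/-- sections in the curvature direction -/
theorem nu_le_curv {S : Set (Fin 3 → ℝ)} (hS : MeasurableSet S) (hbox : ∀ x ∈ S, ∀ j, |x j| ≤ 1)
    {s c d b : ℝ} (hs : |s| ≤ 2) (hc : 1 / 2 ≤ c) (hc' : c ≤ 1) (hd : |d| ≤ 2) (hb : 0 ≤ b)
    (H : ∀ y0 y1, volume {x2 : ℝ |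
      ![y0 - (y1 - 2 * x2 * s) / c * s - x2 * d, (y1 - 2 * x2 * s) / c, x2] ∈ S} ≤
        ENNReal.ofReal b) :
    nu S ≤ ENNReal.ofReal (100 * b) := by
  have hc0 : 0 < c := by linarith
  set M : Matrix (Fin 3) (Fin 3) ℝ :=
    !![1, -(s / c), 2 * s / c * s - d; 0, 1 / c, -(2 * s / c); 0, 0, 1] with hM
  set f := Matrix.toLin' M with hf
  have hdet : LinearMap.det f = 1 / c := by
    rw [hf, LinearMap.det_toLin', hM, Matrix.det_fin_three]
    simp
  have hfy : ∀ y : Fin 3 → ℝ, f y =
      ![y 0 - (y 1 - 2 * y 2 * s) / c * s - y 2 * d, (y 1 - 2 * y 2 * s) / c, y 2] := by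
    intro y
    rw [hf, Matrix.toLin'_apply, hM]
    ext i
    fin_cases i
    · simp [Matrix.mulVec, dotProduct, Fin.sum_univ_three]
      ring
    · simp [Matrix.mulVec, dotProduct, Fin.sum_univ_three]
      ring
    · simp [Matrix.mulVec, dotProduct, Fin.sum_univ_three]
  have hpre := Measure.addHaar_preimage_linearMap (volume : Measure (Fin 3 → ℝ))
    (f := f) (by rw [hdet]; positivity) S
  rw [hdet, one_div, inv_inv, abs_of_pos hc0] at hpre
  have hmf : MeasurableSet (f ⁻¹' S) := (LinearMap.continuous_of_finiteDimensional f).measurable hS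
  have hins : ∀ (y : Fin 2 → ℝ) (t : ℝ), f ((2 : Fin 3).insertNth t y : Fin 3 → ℝ) =
      ![y 0 - (y 1 - 2 * t * s) / c * s - t * d, (y 1 - 2 * t * s) / c, t] := by
    intro y t
    rw [hfy]
    rfl
  have hvol : volume (f ⁻¹' S) ≤ ENNReal.ofReal b * ENNReal.ofReal 100 := by
    apply sec 2 hmf
    · intro y
      have h1 : {t : ℝ | ((2 : Fin 3).insertNth t y : Fin 3 → ℝ) ∈ f ⁻¹' S} =
          {x2 : ℝ | ![y 0 - (y 1 - 2 * x2 * s) / c * s - x2 * d, (y 1 - 2 * x2 * s) / c, x2] ∈
            S} := by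
        ext t
        rw [Set.mem_setOf_eq, Set.mem_preimage, hins, Set.mem_setOf_eq]
      rw [h1]
      exact H (y 0) (y 1)
    · intro y t ht
      rw [Set.mem_preimage, hins] at ht
      have h0 := hbox _ ht 0
      have h1 := hbox _ ht 1
      have h2 := hbox _ ht 2
      simp only [Matrix.cons_val_zero, Matrix.cons_val_one, Matrix.cons_val] at h0 h1 h2
      set x1 := (y 1 - 2 * t * s) / c with hx1
      have h3 : |x1 * s| ≤ 2 := by
        rw [abs_mul]
        nlinarith [abs_nonneg x1, abs_nonneg s]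
      have h4 : |t * d| ≤ 2 := by
        rw [abs_mul]
        nlinarith [abs_nonneg t, abs_nonneg d]
      have h5 : |t * s| ≤ 2 := by
        rw [abs_mul]
        nlinarith [abs_nonneg t, abs_nonneg s]
      have h6 : y 1 = c * x1 + 2 * (t * s) := by
        rw [hx1]
        field_simp
        ring
      have h7 : |c * x1| ≤ 1 := by
        rw [abs_mul, abs_of_pos hc0]
        nlinarith [abs_nonneg x1]
      constructor
      · rw [abs_le] at *
        constructor <;> linarith [h0.1, h0.2, h3.1, h3.2, h4.1, h4.2]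
      · rw [h6]
        rw [abs_le] at *
        constructor <;> linarith [h7.1, h7.2, h5.1, h5.2]
  have hV : volume S ≤ 2 * volume (f ⁻¹' S) := by
    rw [hpre]
    calc volume S = 1 * volume S := (one_mul _).symm
      _ ≤ (2 * ENNReal.ofReal c) * volume S := by
          apply mul_le_mul_left
          have h1 : (2 : ℝ≥0∞) = ENNReal.ofReal 2 := by norm_num
          rw [h1, ← ENNReal.ofReal_mul (by norm_num), ← ENNReal.ofReal_one]
          exact ENNReal.ofReal_le_ofReal (by linarith)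
      _ = 2 * (ENNReal.ofReal c * volume S) := mul_assoc _ _ _
  calc nu S ≤ (1 / 8 : ℝ≥0∞) * volume S := nu_le S
    _ ≤ (1 / 8 : ℝ≥0∞) * (2 * (ENNReal.ofReal b * ENNReal.ofReal 100)) :=
        mul_le_mul_right (hV.trans (mul_le_mul_right hvol _)) _
    _ = (1 / 8 * 2 : ℝ≥0∞) * (ENNReal.ofReal b * ENNReal.ofReal 100) := (mul_assoc _ _ _).symm
    _ ≤ 1 * (ENNReal.ofReal b * ENNReal.ofReal 100) := by
        apply mul_le_mul_left
        rw [one_div, mul_comm, ← div_eq_mul_inv]
        exact ENNReal.div_le_of_le_mul (by norm_num)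
    _ = ENNReal.ofReal (100 * b) := by
        rw [one_mul, mul_comm 100 b, ENNReal.ofReal_mul' (by norm_num)]

/-- `nu` lives on the cube -/
theorem nu_box : nu {x : Fin 3 → ℝ | ¬ ∀ j, |x j| ≤ 1} = 0 := by
  rw [nu_eq, Measure.smul_apply]
  have h1 : {x : Fin 3 → ℝ | ¬ ∀ j, |x j| ≤ 1} =
      (Set.univ.pi fun _ => Set.Icc (-1 : ℝ) 1)ᶜ := by
    ext x
    rw [Set.mem_setOf_eq, Set.mem_compl_iff, Set.mem_univ_pi]
    apply not_congr
    apply forall_congr'
    intro j
    rw [abs_le, Set.mem_Icc]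
  have hm : MeasurableSet ((Set.univ.pi fun _ => Set.Icc (-1 : ℝ) 1) : Set (Fin 3 → ℝ)) :=
    MeasurableSet.univ_pi fun _ => measurableSet_Icc
  rw [h1, Measure.restrict_apply hm.compl, Set.compl_inter_self, measure_empty, smul_zero]

end BilEnt
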