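import Pool.Agent.BilEnt.Defs
import Pool.Agent.BilEnt.L02
import Pool.Agent.BilEnt.G14
import Pool.Agent.BilEnt.G11
import Pool.Agent.BilEnt.G12
import Pool.Agent.BilEnt.R03
import Pool.Agent.BilEnt.R08
import Pool.Agent.BilEnt.R09
import Pool.Agent.BilEnt.R10
import Pool.Agent.BilEnt.R14

/-!
# MP_bd32bb_an, part Q, module Q01 (doc proof/MP_bd32bb_an_entropy, sections 3, 4)

Fixed `ω, u, φ`, cell `i` of level `q ≥ 1` with `ds u c ≤ δ/2`; base time `j` (the start of the orbit is `bm^j zin`).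
By `nu_le_curv` (S := the set, intersected with the cube; `nu_box`) it is enough to bound the `x2`-sections (y0,y1 fixed).  For two contents `x, x'` in the same section whose `x`-orbit is
isolated: `hw` and `deriv hw` at `u` agree (`curv_family`), so `zin` agrees, and by isolation all other orbit points are outside the cell `{ds . c < δ}` (a point within `δ` of `c` would be
within `3δ/2 < y` of `u`), so `local_forward`/`local_backward` (with `agreeOff_upd`) give the same orbit points on `[0,k]`, the same `hl`, the same `gg` at all times except the reflection at time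
`j`, where `gg = 2 Thd(u)/pw`, `Thd = 1 - h''/(1+h'^2)`, changes by `-(2/(pw (1+h'^2))) * (h''-difference)`, i.e. affinely in `x2` with slope of absolute value `≥ c e2 δ^al` (`bmp ≥ 42/100`,
`pw ≤ 1.02`).  By `L2`, `|entry| ≤ ϑ|Qc|` and `Qc ≠ 0` confine `x2` to an interval of length `≤ C ϑ δ^{-al}`.
-/

open MeasureTheory Real
open scoped ENNReal

namespace BilEnt

/-- the event of (Q1) about the orbit of `z` -/
def EQ1 (h : ℝ → ℝ) (z : ℝ × ℝ) (y : ℝ) (k j : ℕ) (f i : Fin 2) (ϑ : ℝ) : Prop :=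
  z ∈ dom h ∧ Iso h z y k ∧ Qc (Ms h z) k j f i ≠ 0 ∧
    |mprod (Ms h z) 0 k f i| ≤ ϑ * |Qc (Ms h z) k j f i|

namespace Q01_aux

theorem Mc_hl (h : ℝ → ℝ) (z : ℝ × ℝ) : Mc h z 0 1 = hl h z := by simp [Mc]

theorem Mc_gg (h : ℝ → ℝ) (z : ℝ × ℝ) : Mc h z 1 0 = -gg h z := by simp [Mc]

theorem abs_sin_le_ds (u v : ℝ) : |sin (u - v)| ≤ ds u v := by
  have h1 : sin (u - v) = 2 * sin ((u - v) / 2) * cos ((u - v) / 2) := by
    rw [← sin_two_mul]; ring_nf
  rw [h1, ds, abs_mul, abs_mul, abs_two]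
  have h2 := abs_cos_le_one ((u - v) / 2)
  have h3 := abs_nonneg (sin ((u - v) / 2))
  nlinarith

theorem cos_eq_ds (u v : ℝ) : cos (u - v) = 1 - ds u v ^ 2 / 2 := by
  rw [ds_sq]; ring

/-- the orbits of two tables that differ only near `u`, seen from the base time `j` -/
theorem orbit_compare {h k : ℝ → ℝ} (hh : IsTab h) (hk : IsTab k) {c δ y : ℝ} {u φ : ℝ}
    (hU : AgreeOff h k {v | ds v c < δ}) (hδ : 0 < δ) (huc : ds u c ≤ δ / 2) (hy : 2 * δ ≤ y)
    (e0 : h u = k u) (e1 : deriv h u = deriv k u)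
    (hz : zin h u φ ∈ dom h) (hz' : zin k u φ ∈ dom k) {n j : ℕ} (hj : 1 ≤ j) (hjn : j ≤ n)
    (hIso : Iso h ((bm h)^[j] (zin h u φ)) y n) :
    (∀ t < n, hl k (pth k ((bm k)^[j] (zin k u φ)) t) = hl h (pth h ((bm h)^[j] (zin h u φ)) t)) ∧
    (∀ t < n, t ≠ j - 1 →
      gg k (pth k ((bm k)^[j] (zin k u φ)) t) = gg h (pth h ((bm h)^[j] (zin h u φ)) t)) ∧
    (gg h (pth h ((bm h)^[j] (zin h u φ)) (j - 1)) = 2 * Thd h u / pw h (zin h u φ)) ∧
    (gg k (pth k ((bm k)^[j] (zin k u φ)) (j - 1)) = 2 * Thd k u / pw h (zin h u φ)) := by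
  have hTh : Th k u = Th h u := by simp only [Th, e1]
  have hzin : zin k u φ = zin h u φ := by simp only [zin, hTh]
  have hz1 : zin h u φ ∈ dom k := hzin ▸ hz'
  have hpw : pw k (zin h u φ) = pw h (zin h u φ) := by
    simp only [pw, zin, sp, stt, hTh, e0, e1]
  -- the orbit points other than time `j` are off the cell
  have hdu : ∀ t ≤ n, t ≠ j → (pth h ((bm h)^[j] (zin h u φ)) t).1 ∉ {v | ds v c < δ} := by
    intro t ht htj hmem
    have hmem' : ds (pth h ((bm h)^[j] (zin h u φ)) t).1 c < δ := hmem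
    have hpj : (pth h ((bm h)^[j] (zin h u φ)) j).1 = u := by
      rw [pth_bm_iter hh hz (le_refl j), Nat.sub_self]
      rfl
    have h3 : y < ds (pth h ((bm h)^[j] (zin h u φ)) t).1 u := by
      rcases lt_or_gt_of_ne htj with hlt | hgt
      · have := hIso t j hlt hjn
        rwa [hpj] at this
      · have := hIso j t hgt ht
        rw [hpj] at this
        rwa [ds_comm]
    have h4 := ds_triangle (pth h ((bm h)^[j] (zin h u φ)) t).1 c u
    rw [ds_comm c u] at h4
    linarith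
  have hF := local_forward hh hk hU hz hz1 (z := zin h u φ) (by simpa [zin] using e0)
    (m := n - j) (by
      intro t ht1 ht2
      have h5 := hdu (j + t) (by omega) (by omega)
      rwa [pth_bm_iter' hh hz (by omega), Nat.add_sub_cancel_left] at h5)
  have hB := local_backward hh hk hU hz hz' e0 (m := j) (by
      intro t ht1 ht2
      have h5 := hdu (j - t) (by omega) (by omega)
      rwa [pth_bm_iter hh hz (by omega), Nat.sub_sub_self ht2] at h5)
  obtain ⟨hF1, hF2, -⟩ := hF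
  obtain ⟨hB1, hB2, hB3⟩ := hB
  -- cocycle matrices agree
  have hM : ∀ t < n, t ≠ j - 1 →
      Mc k (pth k ((bm k)^[j] (zin k u φ)) t) = Mc h (pth h ((bm h)^[j] (zin h u φ)) t) := by
    intro t ht htj
    by_cases hlt : t < j
    · have h6 : 2 ≤ j - t := by omega
      rw [pth_bm_iter hh hz hlt.le, pth_bm_iter hk hz' hlt.le]
      exact hB2 (j - t) h6 (by omega)
    · have hle : j ≤ t := not_lt.mp hlt
      rw [pth_bm_iter' hh hz hle, pth_bm_iter' hk hz' hle, hzin]
      exact hF2 (t - j) (by omega)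
  refine ⟨?_, ?_, ?_, ?_⟩
  · intro t ht
    by_cases htj : t = j - 1
    · have h7 : t ≤ j := by omega
      rw [pth_bm_iter hh hz h7, pth_bm_iter hk hz' h7]
      exact (hB3 (j - t) (by omega) (by omega)).1
    · rw [← Mc_hl, ← Mc_hl, hM t ht htj]
  · intro t ht htj
    have h8 := congrArg (fun M : Matrix (Fin 2) (Fin 2) ℝ => M 1 0) (hM t ht htj)
    simp only [Mc_gg] at h8
    linarith
  · have h9 : fm h (pth h ((bm h)^[j] (zin h u φ)) (j - 1)) = zin h u φ := by
      have h10 : fm h (pth h ((bm h)^[j] (zin h u φ)) (j - 1)) =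
          pth h ((bm h)^[j] (zin h u φ)) j := by
        obtain ⟨m, rfl⟩ : ∃ m, j = m + 1 := ⟨j - 1, by omega⟩
        simp only [pth, Nat.add_sub_cancel, Function.iterate_succ_apply']
      rw [h10, pth_bm_iter hh hz (le_refl j), Nat.sub_self]
      rfl
    have h11 : V h (pth h ((bm h)^[j] (zin h u φ)) (j - 1)) = u := by
      have := congrArg Prod.fst h9
      simpa [fm, zin] using this
    rw [gg, h9, h11]
  · have h9 : fm k (pth k ((bm k)^[j] (zin k u φ)) (j - 1)) = zin k u φ := by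
      have h10 : fm k (pth k ((bm k)^[j] (zin k u φ)) (j - 1)) =
          pth k ((bm k)^[j] (zin k u φ)) j := by
        obtain ⟨m, rfl⟩ : ∃ m, j = m + 1 := ⟨j - 1, by omega⟩
        simp only [pth, Nat.add_sub_cancel, Function.iterate_succ_apply']
      rw [h10, pth_bm_iter hk hz' (le_refl j), Nat.sub_self]
      rfl
    have h11 : V k (pth k ((bm k)^[j] (zin k u φ)) (j - 1)) = u := by
      have := congrArg Prod.fst h9
      simpa [fm, zin] using this
    rw [gg, h9, h11, hzin, hpw]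

/-- consequence for the entries of the products -/
theorem entry_compare {h k : ℝ → ℝ} {z z' : ℝ × ℝ} {n j : ℕ} (hj : 1 ≤ j) (hjn : j ≤ n)
    (hH : ∀ t < n, hl k (pth k z' t) = hl h (pth h z t))
    (hG : ∀ t < n, t ≠ j - 1 → gg k (pth k z' t) = gg h (pth h z t)) (f i : Fin 2) :
    mprod (Ms k z') 0 n f i = mprod (Ms h z) 0 n f i +
      (gg k (pth k z' (j - 1)) - gg h (pth h z (j - 1))) * Qc (Ms h z) n j f i ∧
      Qc (Ms k z') n j f i = Qc (Ms h z) n j f i := by
  set g : ℕ → ℝ := fun t => gg h (pth h z (t - 1)) with hg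
  set H : ℕ → ℝ := fun t => hl h (pth h z t) with hHd
  set g' : ℕ → ℝ := fun t => gg k (pth k z' (t - 1)) with hg'
  set H' : ℕ → ℝ := fun t => hl k (pth k z' t) with hHd'
  set g'' : ℕ → ℝ := fun t => if t = j then g' j else g t with hg''
  have hjj : g'' j = g' j := by simp [hg'']
  have hne : ∀ t, t ≠ j → g'' t = g t := by
    intro t ht; simp [hg'', ht]
  have hcg : ∀ t, 0 < t → t ≤ n → g' t = g'' t := by
    intro t ht0 htn
    by_cases htj : t = j
    · subst htj; rw [hjj]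
    · rw [hne t htj]
      exact hG (t - 1) (by omega) (by omega)
  have hcH : ∀ t, t < n → H' t = H t := fun t ht => hH t ht
  have m1 : mprod (gH g' H') 0 n = mprod (gH g'' H) 0 n :=
    mprod_gH_congr g' g'' H' H 0 n (fun t h1 h2 => hcg t h1 (by omega))
      (fun t _ h2 => hcH t (by omega))
  have m2 : mprod (gH g' H') 0 j = mprod (gH g'' H) 0 j :=
    mprod_gH_congr g' g'' H' H 0 j (fun t h1 h2 => hcg t h1 (by omega))
      (fun t _ h2 => hcH t (by omega))
  have m3 : mprod (gH g' H') j (n - j) = mprod (gH g'' H) j (n - j) :=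
    mprod_gH_congr g' g'' H' H j (n - j) (fun t h1 h2 => hcg t (by omega) (by omega))
      (fun t _ h2 => hcH t (by omega))
  have hL := L2 g g'' H n j hj hjn (fun t ht => (hne t ht).symm) f i
  have hQ : Qc (gH g' H') n j f i = Qc (gH g'' H) n j f i := by
    simp only [Qc, m2, m3]
  rw [Ms_eq_gH h z, Ms_eq_gH k z']
  refine ⟨?_, ?_⟩
  · change mprod (gH g' H') 0 n f i = mprod (gH g H) 0 n f i +
      (g' j - g j) * Qc (gH g H) n j f i
    rw [m1, hL.1, hjj]
  · change Qc (gH g' H') n j f i = Qc (gH g H) n j f i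
    rw [hQ, hL.2]

/-- two contents in the same section for which the bad event holds are close -/
theorem section_bound {N : ℕ} (hN : N0 ≤ N) (ω : Om) {q ci : ℕ} (hq : 1 ≤ q) (hci : ci < nc N q)
    {u : ℝ} (φ : ℝ) (huc : ds u (ctr (nc N q) ci) ≤ dl N q / 2) (hb : 42 / 100 ≤ bmp N q ci u)
    {y ϑ : ℝ} (hy : 2 * dl N q ≤ y) {k j : ℕ} (hj : 1 ≤ j) (hjk : j ≤ k) (f i : Fin 2)
    {x x' : Fin 3 → ℝ} (hx : ∀ j, |x j| ≤ 1) (hx' : ∀ j, |x' j| ≤ 1)
    (h0 : x 0 + x 1 * (sin (u - ctr (nc N q) ci) / dl N q) +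
        x 2 * (ds u (ctr (nc N q) ci) ^ 2 / dl N q ^ 2) =
      x' 0 + x' 1 * (sin (u - ctr (nc N q) ci) / dl N q) +
        x' 2 * (ds u (ctr (nc N q) ci) ^ 2 / dl N q ^ 2))
    (h1 : x 1 * cos (u - ctr (nc N q) ci) + 2 * x 2 * (sin (u - ctr (nc N q) ci) / dl N q) =
      x' 1 * cos (u - ctr (nc N q) ci) + 2 * x' 2 * (sin (u - ctr (nc N q) ci) / dl N q))
    (hz : zin (hw N (upd ω q ci x)) u φ ∈ dom (hw N (upd ω q ci x)))
    (hE : EQ1 (hw N (upd ω q ci x))
          ((bm (hw N (upd ω q ci x)))^[j] (zin (hw N (upd ω q ci x)) u φ)) y k j f i ϑ)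
    (hz' : zin (hw N (upd ω q ci x')) u φ ∈ dom (hw N (upd ω q ci x')))
    (hE' : EQ1 (hw N (upd ω q ci x'))
          ((bm (hw N (upd ω q ci x')))^[j] (zin (hw N (upd ω q ci x')) u φ)) y k j f i ϑ) :
    |x 2 - x' 2| ≤ 2 * ϑ / e2 * dl N q ^ (-al) := by
  have hN10 : 10 ≤ N := le_trans N0_ge hN
  obtain ⟨hδ, hδ1⟩ := dl_pos hN10 q
  have hcos : cos (u - ctr (nc N q) ci) = 1 - ds u (ctr (nc N q) ci) ^ 2 / 2 := cos_eq_ds _ _
  have hds0 : 0 ≤ ds u (ctr (nc N q) ci) := ds_nonneg _ _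
  have hc1 : 7 / 8 ≤ cos (u - ctr (nc N q) ci) := by
    rw [hcos]; nlinarith
  have hc2 : cos (u - ctr (nc N q) ci) ≤ 1 := cos_le_one _
  have hh := isTab_hw hN (upd ω q ci x)
  have hk := isTab_hw hN (upd ω q ci x')
  obtain ⟨e0, e1, e2'⟩ := curv_family hN ω hq hci (u := u) (by linarith) hx hx' h0 h1
  set h := hw N (upd ω q ci x) with hhd
  set h' := hw N (upd ω q ci x') with hhd'
  obtain ⟨-, hIso, hQ, hent⟩ := hE
  obtain ⟨-, -, hQ', hent'⟩ := hE'
  obtain ⟨hH, hG, hg1, hg2⟩ := orbit_compare hh hk (agreeOff_upd hN ω hci x x') hδ huc hy e0 e1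
    hz hz' hj hjk hIso
  obtain ⟨hent2, hQ2⟩ := entry_compare hj hjk hH hG f i
  rw [hQ2, hent2, hg1, hg2] at hent'
  set Q := Qc (Ms h ((bm h)^[j] (zin h u φ))) k j f i with hQd
  set m := mprod (Ms h ((bm h)^[j] (zin h u φ))) 0 k f i with hmd
  set p := pw h (zin h u φ) with hp
  have hQpos : 0 < |Q| := abs_pos.mpr hQ
  have hppos : 0 < p := pw_pos hh hz
  have hple : p ≤ 102 / 100 := by
    have := pw_bounds hh hz
    linarith [this.2.1, this.2.2]
  -- the change of the reflection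
  have hΔ : |2 * Thd h' u / p - 2 * Thd h u / p| ≤ 2 * ϑ := by
    have h2 : |(2 * Thd h' u / p - 2 * Thd h u / p) * Q| ≤ (2 * ϑ) * |Q| := by
      have h3 : (2 * Thd h' u / p - 2 * Thd h u / p) * Q =
          (m + (2 * Thd h' u / p - 2 * Thd h u / p) * Q) - m := by ring
      rw [h3]
      calc _ ≤ |m + (2 * Thd h' u / p - 2 * Thd h u / p) * Q| + |m| := abs_sub _ _
        _ ≤ ϑ * |Q| + ϑ * |Q| := add_le_add hent' hent
        _ = _ := by ring
    rw [abs_mul] at h2
    exact le_of_mul_le_mul_right h2 hQpos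
  have hdab : |deriv h u| ≤ 1 / 100 := hh.b1 u
  have hsq : deriv h u ^ 2 ≤ 1 / 10000 := by
    have := sq_abs (deriv h u)
    have h4 := abs_nonneg (deriv h u)
    nlinarith
  have hsq0 : 0 ≤ deriv h u ^ 2 := sq_nonneg _
  have hThd : 2 * Thd h' u / p - 2 * Thd h u / p =
      2 * (deriv (deriv h) u - deriv (deriv h') u) / ((1 + deriv h u ^ 2) * p) := by
    simp only [Thd, ← e1]
    field_simp
    ring
  rw [hThd, e2'] at hΔ
  have hδal : 0 < dl N q ^ al := Real.rpow_pos_of_pos hδ _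
  have he2 : (0 : ℝ) < e2 := by norm_num [e2]
  have hfac : e2 * dl N q ^ al * |x 2 - x' 2| ≤
      |2 * (bmp N q ci u * e2 * dl N q ^ al * 2 / cos (u - ctr (nc N q) ci) * (x 2 - x' 2)) /
        ((1 + deriv h u ^ 2) * p)| := by
    have hcpos : 0 < cos (u - ctr (nc N q) ci) := by linarith
    have hden : 0 < (1 + deriv h u ^ 2) * p := by positivity
    have hbpos : 0 < bmp N q ci u := by linarith
    have hrew : 2 * (bmp N q ci u * e2 * dl N q ^ al * 2 / cos (u - ctr (nc N q) ci) *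
        (x 2 - x' 2)) / ((1 + deriv h u ^ 2) * p) =
        (4 * bmp N q ci u / (cos (u - ctr (nc N q) ci) * ((1 + deriv h u ^ 2) * p))) *
          (e2 * dl N q ^ al * (x 2 - x' 2)) := by
      field_simp
      ring
    rw [hrew, abs_mul, abs_mul, abs_of_pos (mul_pos he2 hδal),
      abs_of_pos (div_pos (by linarith) (mul_pos hcpos hden))]
    have hone : 1 ≤ 4 * bmp N q ci u / (cos (u - ctr (nc N q) ci) * ((1 + deriv h u ^ 2) * p)) := by
      rw [le_div_iff₀ (mul_pos hcpos hden), one_mul]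
      have h5 : (1 + deriv h u ^ 2) * p ≤ (1 + 1 / 10000) * (102 / 100) :=
        mul_le_mul (by linarith) hple hppos.le (by norm_num)
      have h6 : cos (u - ctr (nc N q) ci) * ((1 + deriv h u ^ 2) * p) ≤
          1 * ((1 + 1 / 10000) * (102 / 100)) := mul_le_mul hc2 h5 hden.le (by norm_num)
      linarith
    have h7 : 0 ≤ e2 * dl N q ^ al * |x 2 - x' 2| := by positivity
    exact le_mul_of_one_le_left h7 hone
  have hfin : e2 * dl N q ^ al * |x 2 - x' 2| ≤ 2 * ϑ := hfac.trans hΔ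
  rw [Real.rpow_neg hδ.le]
  have h8 : 2 * ϑ / e2 * (dl N q ^ al)⁻¹ = 2 * ϑ / (e2 * dl N q ^ al) := by
    field_simp
  rw [h8, le_div_iff₀ (mul_pos he2 hδal)]
  linarith

theorem meas_EQ1 {N : ℕ} (hN : N0 ≤ N) (y ϑ : ℝ) (k j : ℕ) (f i : Fin 2) :
    MeasurableSet {p : Yt | EQ1 (hw N p.1) p.2 y k j f i ϑ} := by
  have s1 := measurableSet_dom_hw hN
  have s3 := measurableSet_Iso hN y k
  have mQ1 := measurable_mprod_hw hN j (k - j) f 1
  have mQ2 := measurable_mprod_hw hN 0 j 0 i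
  have mE := measurable_mprod_hw hN 0 k f i
  have mQ : Measurable (fun p : Yt => Qc (Ms (hw N p.1) p.2) k j f i) := by
    unfold Qc
    exact mQ1.mul mQ2
  have s4 : MeasurableSet {p : Yt | Qc (Ms (hw N p.1) p.2) k j f i ≠ 0} :=
    (measurableSet_eq_fun mQ measurable_const).compl
  have s5 := measurableSet_le mE.abs (mQ.abs.const_mul ϑ)
  have hall := s1.inter (s3.inter (s4.inter s5))
  refine hall.congr ?_
  ext x
  simp only [Set.mem_inter_iff, Set.mem_ofPred_eq, EQ1, ne_eq]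

/-- measurability of the event -/
theorem meas_event {N : ℕ} (hN : N0 ≤ N) (ω : Om) (q ci : ℕ) (u φ y ϑ : ℝ) (k j : ℕ)
    (f i : Fin 2) :
    MeasurableSet {x : Fin 3 → ℝ | zin (hw N (upd ω q ci x)) u φ ∈ dom (hw N (upd ω q ci x)) ∧
        EQ1 (hw N (upd ω q ci x))
          ((bm (hw N (upd ω q ci x)))^[j] (zin (hw N (upd ω q ci x)) u φ)) y k j f i ϑ} := by
  have m0 : Measurable (fun x : Fin 3 → ℝ => upd ω q ci x) :=
    (measurable_upd q ci).comp measurable_prodMk_left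
  have m1 : Measurable (fun x : Fin 3 → ℝ =>
      ((upd ω q ci x, zin (hw N (upd ω q ci x)) u φ) : Yt)) := by
    have h := (measurable_zin_hw hN u φ).comp m0
    simp only [Function.comp_def] at h
    exact Measurable.prodMk m0 h
  have m2 : Measurable (fun x : Fin 3 → ℝ =>
      ((upd ω q ci x, (bm (hw N (upd ω q ci x)))^[j] (zin (hw N (upd ω q ci x)) u φ)) : Yt)) := by
    have h := (measurable_bm_iter_hw hN j).comp m1
    simp only [Function.comp_def] at h
    exact Measurable.prodMk m0 h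
  have s1 := m1 (measurableSet_dom_hw hN)
  have s2 := m2 (meas_EQ1 hN y ϑ k j f i)
  rw [Set.preimage_ofPred_eq] at s1 s2
  refine (s1.inter s2).congr ?_
  ext x
  simp only [Set.mem_inter_iff, Set.mem_ofPred_eq]

end Q01_aux

open Q01_aux in
/-- (Q1), deterministic form: one cell, everything else fixed. -/
theorem Q1_det : ∃ C : ℝ, 1 ≤ C ∧ ∀ {N : ℕ}, N0 ≤ N → ∀ (ω : Om) {q ci : ℕ}, 1 ≤ q → ci < nc N q →
    ∀ {u : ℝ} (φ : ℝ), ds u (ctr (nc N q) ci) ≤ dl N q / 2 → 42 / 100 ≤ bmp N q ci u →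
    ∀ {y ϑ : ℝ}, 2 * dl N q ≤ y → 0 < ϑ → ∀ {k j : ℕ}, 1 ≤ j → j ≤ k → ∀ f i : Fin 2,
      nu {x | zin (hw N (upd ω q ci x)) u φ ∈ dom (hw N (upd ω q ci x)) ∧
        EQ1 (hw N (upd ω q ci x))
          ((bm (hw N (upd ω q ci x)))^[j] (zin (hw N (upd ω q ci x)) u φ)) y k j f i ϑ} ≤
        ENNReal.ofReal (C * ϑ * dl N q ^ (-al)) := by
  refine ⟨4 * 10 ^ 11, by norm_num, ?_⟩
  intro N hN ω q ci hq hci u φ huc hb y ϑ hy hϑ k j hj hjk f i
  have hN10 : 10 ≤ N := le_trans N0_ge hN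
  obtain ⟨hδ, hδ1⟩ := dl_pos hN10 q
  have hds0 : 0 ≤ ds u (ctr (nc N q) ci) := ds_nonneg _ _
  set E : Set (Fin 3 → ℝ) := {x | zin (hw N (upd ω q ci x)) u φ ∈ dom (hw N (upd ω q ci x)) ∧
        EQ1 (hw N (upd ω q ci x))
          ((bm (hw N (upd ω q ci x)))^[j] (zin (hw N (upd ω q ci x)) u φ)) y k j f i ϑ} with hE
  have mE : MeasurableSet E := meas_event hN ω q ci u φ y ϑ k j f i
  have mB : MeasurableSet {x : Fin 3 → ℝ | ∀ j, |x j| ≤ 1} := by
    have : {x : Fin 3 → ℝ | ∀ j, |x j| ≤ 1} = ⋂ j, {x : Fin 3 → ℝ | |x j| ≤ 1} := by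
      ext x; simp
    rw [this]
    exact MeasurableSet.iInter fun j =>
      measurableSet_le (measurable_pi_apply j).abs measurable_const
  have hsplit : nu E ≤ nu (E ∩ {x | ∀ j, |x j| ≤ 1}) := by
    calc nu E ≤ nu ((E ∩ {x | ∀ j, |x j| ≤ 1}) ∪ {x | ¬ ∀ j, |x j| ≤ 1}) := by
          apply measure_mono
          intro x hx
          by_cases hbx : ∀ j, |x j| ≤ 1
          · exact Or.inl ⟨hx, hbx⟩
          · exact Or.inr hbx
      _ ≤ nu (E ∩ {x | ∀ j, |x j| ≤ 1}) + nu {x | ¬ ∀ j, |x j| ≤ 1} := measure_union_le _ _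
      _ = nu (E ∩ {x | ∀ j, |x j| ≤ 1}) := by rw [nu_box, add_zero]
  refine hsplit.trans ?_
  have hcos : cos (u - ctr (nc N q) ci) = 1 - ds u (ctr (nc N q) ci) ^ 2 / 2 := cos_eq_ds _ _
  have hc1 : 7 / 8 ≤ cos (u - ctr (nc N q) ci) := by
    rw [hcos]; nlinarith
  have hs : |sin (u - ctr (nc N q) ci) / dl N q| ≤ 2 := by
    rw [abs_div, abs_of_pos hδ, div_le_iff₀ hδ]
    have := abs_sin_le_ds u (ctr (nc N q) ci)
    linarith
  have hd : |ds u (ctr (nc N q) ci) ^ 2 / dl N q ^ 2| ≤ 2 := by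
    rw [abs_of_nonneg (by positivity), div_le_iff₀ (by positivity)]
    nlinarith
  have hδal : 0 < dl N q ^ (-al) := Real.rpow_pos_of_pos hδ _
  have he2 : (0 : ℝ) < e2 := by norm_num [e2]
  set r : ℝ := 2 * ϑ / e2 * dl N q ^ (-al) with hr
  have hr0 : 0 ≤ r := by positivity
  have key := nu_le_curv (S := E ∩ {x | ∀ j, |x j| ≤ 1}) (mE.inter mB) (fun x hx => hx.2)
    (s := sin (u - ctr (nc N q) ci) / dl N q) (c := cos (u - ctr (nc N q) ci))
    (d := ds u (ctr (nc N q) ci) ^ 2 / dl N q ^ 2) (b := 2 * r) hs (by linarith) (cos_le_one _) hd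
    (by positivity) (by
      intro y0 y1
      set s := sin (u - ctr (nc N q) ci) / dl N q with hsd
      set c := cos (u - ctr (nc N q) ci) with hcd
      set d := ds u (ctr (nc N q) ci) ^ 2 / dl N q ^ 2 with hdd
      have hcne : c ≠ 0 := by linarith
      rcases Set.eq_empty_or_nonempty {x2 : ℝ |
          ![y0 - (y1 - 2 * x2 * s) / c * s - x2 * d, (y1 - 2 * x2 * s) / c, x2] ∈
            E ∩ {x | ∀ j, |x j| ≤ 1}} with hemp | ⟨a, ha⟩
      · rw [hemp]; simp
      · have hsub : {x2 : ℝ |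
          ![y0 - (y1 - 2 * x2 * s) / c * s - x2 * d, (y1 - 2 * x2 * s) / c, x2] ∈
            E ∩ {x | ∀ j, |x j| ≤ 1}} ⊆ Set.Icc (a - r) (a + r) := by
          intro b hb2
          have hdist := section_bound hN ω hq hci φ huc hb (ϑ := ϑ) hy hj hjk f i hb2.2 ha.2
            (by simp [← hsd, ← hdd]; ring) (by
              simp only [← hsd, ← hcd, Matrix.cons_val_one, Matrix.cons_val_zero,
                Matrix.cons_val_two, Matrix.tail_cons, Matrix.head_cons]
              field_simp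
              ring) hb2.1.1 hb2.1.2 ha.1.1 ha.1.2
          have hdist' : |b - a| ≤ r := by simpa using hdist
          rw [abs_le] at hdist'
          constructor <;> linarith [hdist'.1, hdist'.2]
        refine (measure_mono hsub).trans ?_
        rw [Real.volume_Icc]
        apply ENNReal.ofReal_le_ofReal
        linarith)
  refine key.trans (ENNReal.ofReal_le_ofReal ?_)
  rw [hr]
  have : e2 = 1 / 10 ^ 9 := rfl
  rw [this]
  apply le_of_eq
  ring

end BilEnt
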