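import Pool.Agent.BilEnt.Defs
import Pool.Agent.BilEnt.Q01
import Pool.Agent.BilEnt.R13
import Pool.Agent.BilEnt.R03

/-!
# MP_bd32bb_an, part Q, module Q02 (doc proof/MP_bd32bb_an_entropy, sections 3, 4)

HINT. `R13.master_bound` with `m = j`, level `q` from `exists_level` (`y/4 ≤ dl N q ≤ y/2`), cell from `exists_cell`; `Q1_det`.  Periodicity of the event: `pth_add_tau`, `Mc_add_tau`.
-/

open MeasureTheory Real
open scoped ENNReal

namespace BilEnt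

namespace Q02_aux

theorem ds_shift (u v : ℝ) : ds (u + 2 * π) (v + 2 * π) = ds u v := by
  unfold ds
  congr 4
  ring

theorem Ms_add_tau {h : ℝ → ℝ} (hh : IsTab h) {z : ℝ × ℝ} (hz : z ∈ dom h) :
    Ms h (z + tau) = Ms h z := by
  funext t
  unfold Ms
  rw [pth_add_tau hh hz, Mc_add_tau hh (pth_mem hh hz t)]

theorem Iso_add_tau {h : ℝ → ℝ} (hh : IsTab h) {z : ℝ × ℝ} (hz : z ∈ dom h) (y : ℝ) (k : ℕ) :
    Iso h (z + tau) y k ↔ Iso h z y k := by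
  unfold Iso
  have : ∀ i j, ds (pth h (z + tau) i).1 (pth h (z + tau) j).1 =
      ds (pth h z i).1 (pth h z j).1 := by
    intro i j
    rw [pth_add_tau hh hz, pth_add_tau hh hz, Prod.fst_add, Prod.fst_add]
    exact ds_shift _ _
  simp only [this]

theorem EQ1_add_tau {h : ℝ → ℝ} (hh : IsTab h) {z : ℝ × ℝ} (hz : z ∈ dom h) (y : ℝ) (k j : ℕ)
    (f i : Fin 2) (ϑ : ℝ) : EQ1 h (z + tau) y k j f i ϑ ↔ EQ1 h z y k j f i ϑ := by
  unfold EQ1
  rw [dom_add_tau hh, Iso_add_tau hh hz, Ms_add_tau hh hz]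

theorem measurableSet_EQ1 {N : ℕ} (hN : N0 ≤ N) (y : ℝ) (k j : ℕ) (f i : Fin 2) (ϑ : ℝ) :
    MeasurableSet {yy : Yt | EQ1 (hw N yy.1) yy.2 y k j f i ϑ} := by
  have hQ : Measurable fun yy : Yt => Qc (Ms (hw N yy.1) yy.2) k j f i := by
    unfold Qc
    exact (measurable_mprod_hw hN j (k - j) f 1).mul (measurable_mprod_hw hN 0 j 0 i)
  have h1 := measurableSet_dom_hw hN
  have h2 := measurableSet_Iso hN y k
  have h3 : MeasurableSet {yy : Yt | Qc (Ms (hw N yy.1) yy.2) k j f i ≠ 0} :=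
    hQ (measurableSet_singleton (0 : ℝ)).compl
  have h4 : MeasurableSet {yy : Yt | |mprod (Ms (hw N yy.1) yy.2) 0 k f i| ≤
      ϑ * |Qc (Ms (hw N yy.1) yy.2) k j f i|} :=
    measurableSet_le (_root_.continuous_abs.measurable.comp (measurable_mprod_hw hN 0 k f i))
      ((_root_.continuous_abs.measurable.comp hQ).const_mul ϑ)
  have := h1.inter (h2.inter (h3.inter h4))
  exact this

end Q02_aux

open Q02_aux

/-- (Q1) -/
theorem Q1 : ∃ C : ℝ, 1 ≤ C ∧ ∀ {N : ℕ}, N0 ≤ N → ∀ {y ϑ : ℝ}, 0 < y → y ≤ 1 / (N : ℝ) ^ 2 → 0 < ϑ →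
    ∀ {k j : ℕ}, 1 ≤ j → j ≤ k → ∀ f i : Fin 2,
      Pr N {yy | EQ1 (hw N yy.1) yy.2 y k j f i ϑ} ≤ ENNReal.ofReal (C * ϑ * y ^ (-al)) := by
  obtain ⟨C, hC, hdet⟩ := Q1_det
  refine ⟨100 * C, by linarith, fun {N} hN {y ϑ} hy hyN hϑ {k j} hj hjk f i => ?_⟩
  have hN10 : 10 ≤ N := N0_ge.trans hN
  obtain ⟨q, hq, hq1, hq2⟩ := exists_level hN10 hy hyN
  have hd := dl_pos hN10 q
  have hb : (0 : ℝ) ≤ C * ϑ * dl N q ^ (-al) := by
    have := Real.rpow_nonneg hd.1.le (-al)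
    positivity
  have key := master_bound hN (measurableSet_EQ1 hN y k j f i ϑ)
    (fun ω z hz => propext (EQ1_add_tau (isTab_hw hN ω) hz y k j f i ϑ)) j q hb
    (fun u => by
      obtain ⟨ci, hci, h1, h2⟩ := exists_cell hN10 hq u
      refine ⟨ci, hci, fun ω φ => ?_⟩
      exact hdet hN ω hq hci φ h1 h2 (by linarith) hϑ hj hjk f i)
  refine key.trans (ENNReal.ofReal_le_ofReal ?_)
  have h1 : dl N q ^ (-al) ≤ (y / 4) ^ (-al) :=
    Real.rpow_le_rpow_of_nonpos (by positivity) hq1 (by unfold al; norm_num)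
  have h2 : (y / 4) ^ (-al) ≤ 4 * y ^ (-al) := by
    rw [Real.div_rpow hy.le (by norm_num), div_eq_mul_inv, mul_comm]
    have h3 : ((4 : ℝ) ^ (-al))⁻¹ ≤ 4 := by
      rw [← Real.rpow_neg (by norm_num), neg_neg]
      calc (4 : ℝ) ^ al ≤ 4 ^ (1 : ℝ) :=
            Real.rpow_le_rpow_of_exponent_le (by norm_num) (by unfold al; norm_num)
        _ = 4 := Real.rpow_one 4
    exact mul_le_mul_of_nonneg_right h3 (Real.rpow_nonneg hy.le _)
  have h4 : C * ϑ * dl N q ^ (-al) ≤ C * ϑ * (4 * y ^ (-al)) :=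
    mul_le_mul_of_nonneg_left (h1.trans h2) (by positivity)
  calc 25 * (C * ϑ * dl N q ^ (-al)) ≤ 25 * (C * ϑ * (4 * y ^ (-al))) := by linarith
    _ = 100 * C * ϑ * y ^ (-al) := by ring

end BilEnt
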