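import Pool.Agent.BilEnt.Defs
import Pool.Agent.BilEnt.Q02
import Pool.Agent.BilEnt.L01

/-!
# MP_bd32bb_an, part Q, module Q03 (doc proof/MP_bd32bb_an_entropy, sections 3, 4)

HINT. (Q2): `m = C n^3` bounds the segment by `flight_bounds`, `gg_bounds` (Temp gives `stt ≥ 1/n^3`); if `χ m^c0 > 1` the bound is trivial (`Pr univ ≤ 13`), otherwise `L1` and `Q1` with
`ϑ = χ m^c0`, union over `j ≤ k` and the four pairs.  (Q3): apply (Q2) to the shifted segment `[a,a+b]` (`R12.Pr_shift'`), union over `a,b ≤ n`.  (`pth h (pth h z a) t = pth h z (a+t)`,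
`Ms h (pth h z a) = fun t => Ms h z (a+t)`.)
-/

open MeasureTheory Real
open scoped ENNReal

namespace BilEnt

namespace Q03_aux

/-- the event of (Q2) -/
def S2 (N n k : ℕ) (y χ : ℝ) : Set Yt :=
  {yy | yy.2 ∈ dom (hw N yy.1) ∧ Temp (hw N yy.1) yy.2 (1 / (n : ℝ) ^ 3) k ∧
    Iso (hw N yy.1) yy.2 y k ∧ ¬ QMs (Ms (hw N yy.1) yy.2) χ k}

/-- a failure of quasi-multiplicativity is one of the events of (Q1) -/
theorem mem_EQ1 {c0 : ℕ} (hL1 : ∀ (g H : ℕ → ℝ) (m : ℝ) (k : ℕ), 2 ≤ m → 1 ≤ k →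
    (∀ t < k, 1 / m ≤ H t ∧ H t ≤ m) → (∀ t, 1 ≤ t → t ≤ k → |g t| ≤ m) →
    ∀ (χ : ℝ) (t : ℕ) (f i : Fin 2), 0 < χ → χ * m ^ c0 ≤ 1 → t ≤ k →
      |mprod (gH g H) 0 k f i| <
        χ * rn (mprod (gH g H) t (k - t)) f * cn (mprod (gH g H) 0 t) i →
      ∃ j, 1 ≤ j ∧ j ≤ k ∧ Qc (gH g H) k j f i ≠ 0 ∧
        |mprod (gH g H) 0 k f i| ≤ χ * m ^ c0 * |Qc (gH g H) k j f i|)
    {h : ℝ → ℝ} (hh : IsTab h) {z : ℝ × ℝ} (hz : z ∈ dom h) {n k : ℕ} (hk : 1 ≤ k) (hkn : k ≤ n)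
    {y χ : ℝ} (hχ : 0 < χ) (hχ1 : χ * (10 ^ 5 * (n : ℝ) ^ 3) ^ c0 ≤ 1)
    (hT : Temp h z (1 / (n : ℝ) ^ 3) k) (hI : Iso h z y k) (hQ : ¬ QMs (Ms h z) χ k) :
    ∃ j, 1 ≤ j ∧ j ≤ k ∧ ∃ f i : Fin 2, EQ1 h z y k j f i (χ * (10 ^ 5 * (n : ℝ) ^ 3) ^ c0) := by
  have hn : (1 : ℝ) ≤ n := by exact_mod_cast hk.trans hkn
  have hn3 : (1 : ℝ) ≤ (n : ℝ) ^ 3 := one_le_pow₀ hn
  have hm : (2 : ℝ) ≤ 10 ^ 5 * (n : ℝ) ^ 3 := by nlinarith
  unfold QMs at hQ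
  push Not at hQ
  obtain ⟨t, ht, f, i, hfi⟩ := hQ
  rw [Ms_eq_gH] at hfi
  have hst : ∀ t ≤ k, pth h z t ∈ dom h ∧ 1 / (n : ℝ) ^ 3 ≤ stt h (pth h z t) :=
    fun t ht => ⟨pth_mem hh hz t, hT t ht⟩
  obtain ⟨j, hj1, hj2, hj3, hj4⟩ := hL1 _ _ (10 ^ 5 * (n : ℝ) ^ 3) k hm hk (by
    intro t ht
    obtain ⟨h1, h2⟩ := hst t ht.le
    obtain ⟨-, -, h3, -, h4, -⟩ := flight_bounds hh h1
    constructor
    · refine le_trans ?_ h3
      refine le_trans ?_ (div_le_div_of_nonneg_right h2 (by norm_num))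
      rw [div_div, div_le_div_iff₀ (by positivity) (by positivity)]
      nlinarith
    · nlinarith) (by
    intro t ht1 ht2
    obtain ⟨h1, h2⟩ := hst (t - 1) (by omega)
    obtain ⟨h3, h4, -⟩ := gg_bounds hh h1
    rw [abs_of_pos h3]
    refine h4.trans ?_
    rw [div_le_iff₀ (stt_pos h1)]
    have h5 : 1 ≤ (n : ℝ) ^ 3 * stt h (pth h z (t - 1)) := by
      rw [div_le_iff₀ (by positivity)] at h2
      linarith
    nlinarith) χ t f i hχ hχ1 ht hfi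
  rw [← Ms_eq_gH] at hj3 hj4
  exact ⟨j, hj1, hj2, f, i, hz, hI, hj3, hj4⟩

theorem card_bound {k : ℕ} {b : ℝ} :
    ∑ _p ∈ (Finset.Icc 1 k) ×ˢ ((Finset.univ : Finset (Fin 2)) ×ˢ (Finset.univ : Finset (Fin 2))),
      ENNReal.ofReal b = ENNReal.ofReal (4 * k * b) := by
  rw [Finset.sum_const, Finset.card_product, Finset.card_product, Nat.card_Icc,
    Finset.card_univ, Fintype.card_fin, nsmul_eq_mul, ← ENNReal.ofReal_natCast,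
    ← ENNReal.ofReal_mul (by positivity)]
  congr 1
  push_cast
  ring

theorem one_le_rpow_neg {y : ℝ} (hy : 0 < y) (hy1 : y ≤ 1) : 1 ≤ y ^ (-al) := by
  refine Real.one_le_rpow_of_pos_of_le_one_of_nonpos hy hy1 ?_
  unfold al
  norm_num

theorem le_one_of_le {N : ℕ} (hN : 10 ≤ N) {y : ℝ} (hy : y ≤ 1 / (N : ℝ) ^ 2) : y ≤ 1 := by
  refine hy.trans ?_
  have h1 : (1 : ℝ) ≤ (N : ℝ) ^ 2 := one_le_pow₀ (by exact_mod_cast (by omega : 1 ≤ N))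
  rw [div_le_one (by positivity)]
  exact h1

theorem measurableSet_S2 {N : ℕ} (hN : N0 ≤ N) (n k : ℕ) (y χ : ℝ) :
    MeasurableSet (S2 N n k y χ) := by
  have h1 := measurableSet_dom_hw hN
  have h2 := measurableSet_Temp hN (1 / (n : ℝ) ^ 3) k
  have h3 := measurableSet_Iso hN y k
  have h4 := (measurableSet_QMs hN χ 0 k).compl
  exact (h1.inter (h2.inter (h3.inter h4)))

theorem Ms_add_tau {h : ℝ → ℝ} (hh : IsTab h) {z : ℝ × ℝ} (hz : z ∈ dom h) :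
    Ms h (z + tau) = Ms h z := by
  funext t
  unfold Ms
  rw [pth_add_tau hh hz, Mc_add_tau hh (pth_mem hh hz t)]

theorem Temp_add_tau {h : ℝ → ℝ} (hh : IsTab h) {z : ℝ × ℝ} (hz : z ∈ dom h) (s : ℝ) (k : ℕ) :
    Temp h (z + tau) s k ↔ Temp h z s k := by
  unfold Temp
  refine forall₂_congr fun t _ => ?_
  rw [pth_add_tau hh hz, stt_add_tau hh]

theorem Iso_add_tau {h : ℝ → ℝ} (hh : IsTab h) {z : ℝ × ℝ} (hz : z ∈ dom h) (s : ℝ) (k : ℕ) :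
    Iso h (z + tau) s k ↔ Iso h z s k := by
  unfold Iso
  refine forall₂_congr fun i j => ?_
  refine forall₂_congr fun _ _ => ?_
  rw [pth_add_tau hh hz, pth_add_tau hh hz]
  have e : ∀ w : ℝ × ℝ, (w + tau).1 = w.1 + 2 * π := fun w => rfl
  rw [e, e, ds_per_left, ds_per_right]

theorem mem_S2_add_tau {N : ℕ} (hN : N0 ≤ N) (n k : ℕ) (y χ : ℝ) (ω : Om) (z : ℝ × ℝ)
    (hz : z ∈ dom (hw N ω)) : ((ω, z + tau) : Yt) ∈ S2 N n k y χ ↔ ((ω, z) : Yt) ∈ S2 N n k y χ := by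
  have hh := isTab_hw hN ω
  change (z + tau ∈ dom (hw N ω) ∧ Temp (hw N ω) (z + tau) (1 / (n : ℝ) ^ 3) k ∧
    Iso (hw N ω) (z + tau) y k ∧ ¬ QMs (Ms (hw N ω) (z + tau)) χ k) ↔
    (z ∈ dom (hw N ω) ∧ Temp (hw N ω) z (1 / (n : ℝ) ^ 3) k ∧
    Iso (hw N ω) z y k ∧ ¬ QMs (Ms (hw N ω) z) χ k)
  rw [dom_add_tau hh, Temp_add_tau hh hz, Iso_add_tau hh hz, Ms_add_tau hh hz]

/-- stationarity of the event -/
theorem Pr_shift_S2 {N : ℕ} (hN : N0 ≤ N) (n k : ℕ) (y χ : ℝ) (a : ℕ) :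
    Pr N {yy | (yy.1, pth (hw N yy.1) yy.2 a) ∈ S2 N n k y χ} = Pr N (S2 N n k y χ) := by
  classical
  have hS := measurableSet_S2 hN n k y χ
  have hm : Measurable fun yy : Yt => ((yy.1, pth (hw N yy.1) yy.2 a) : Yt) :=
    measurable_fst.prodMk (measurable_pth_hw hN a)
  have h1 := Pr_shift' hN (F := (S2 N n k y χ).indicator 1) (measurable_one.indicator hS) (by
    intro ω z hz
    have := mem_S2_add_tau hN n k y χ ω z hz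
    by_cases hc : ((ω, z) : Yt) ∈ S2 N n k y χ
    · rw [Set.indicator_of_mem hc, Set.indicator_of_mem (this.2 hc)]
      rfl
    · rw [Set.indicator_of_notMem hc, Set.indicator_of_notMem (fun hc' => hc (this.1 hc'))]) a
  rw [lintegral_indicator_one hS] at h1
  rw [← h1]
  have h2 : ∀ yy : Yt, (S2 N n k y χ).indicator (1 : Yt → ℝ≥0∞)
      ((yy.1, pth (hw N yy.1) yy.2 a) : Yt) =
      ({yy | (yy.1, pth (hw N yy.1) yy.2 a) ∈ S2 N n k y χ} : Set Yt).indicator 1 yy := by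
    intro yy
    rfl
  rw [lintegral_congr h2]
  exact (lintegral_indicator_one (hm hS)).symm

theorem pth_pth (h : ℝ → ℝ) (z : ℝ × ℝ) (a t : ℕ) : pth h (pth h z a) t = pth h z (a + t) := by
  unfold pth
  rw [← Function.iterate_add_apply, add_comm]

theorem shift_mem {N : ℕ} (hN : N0 ≤ N) {n k a b : ℕ} {y χ : ℝ} (hab : a + b ≤ k) {yy : Yt}
    (h1 : yy.2 ∈ dom (hw N yy.1)) (h2 : Temp (hw N yy.1) yy.2 (1 / (n : ℝ) ^ 3) k)
    (h3 : Iso (hw N yy.1) yy.2 y k)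
    (h4 : ¬ QMs (fun t => Ms (hw N yy.1) yy.2 (a + t)) χ b) :
    ((yy.1, pth (hw N yy.1) yy.2 a) : Yt) ∈ S2 N n b y χ := by
  refine ⟨pth_mem (isTab_hw hN yy.1) h1 a, ?_, ?_, ?_⟩
  · intro t ht
    change 1 / (n : ℝ) ^ 3 ≤ stt (hw N yy.1) (pth (hw N yy.1) (pth (hw N yy.1) yy.2 a) t)
    rw [pth_pth]
    exact h2 _ (by omega)
  · intro i j hij hj
    change y < ds (pth (hw N yy.1) (pth (hw N yy.1) yy.2 a) i).1
      (pth (hw N yy.1) (pth (hw N yy.1) yy.2 a) j).1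
    rw [pth_pth, pth_pth]
    exact h3 _ _ (by omega) (by omega)
  · have e : Ms (hw N yy.1) (pth (hw N yy.1) yy.2 a) = fun t => Ms (hw N yy.1) yy.2 (a + t) := by
      funext t
      unfold Ms
      rw [pth_pth]
    change ¬ QMs (Ms (hw N yy.1) (pth (hw N yy.1) yy.2 a)) χ b
    rw [e]
    exact h4

end Q03_aux

open Q03_aux

/-- (Q2) -/
theorem Q2 : ∃ C : ℕ, 1 ≤ C ∧ ∀ {N n k : ℕ}, N0 ≤ N → 1 ≤ k → k ≤ n → ∀ {y χ : ℝ}, 0 < y →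
    y ≤ 1 / (N : ℝ) ^ 2 → 0 < χ →
      Pr N {yy | yy.2 ∈ dom (hw N yy.1) ∧ Temp (hw N yy.1) yy.2 (1 / (n : ℝ) ^ 3) k ∧
        Iso (hw N yy.1) yy.2 y k ∧ ¬ QMs (Ms (hw N yy.1) yy.2) χ k} ≤
        ENNReal.ofReal (((n : ℝ) * N) ^ C * χ * y ^ (-al)) := by
  obtain ⟨c0, hc0, hL1⟩ := L1
  obtain ⟨C1, hC1, hQ1⟩ := Q1
  obtain ⟨D, hD⟩ := pow_unbounded_of_one_lt (4 * C1) (by norm_num : (1 : ℝ) < 10)
  refine ⟨8 * c0 + D + 1, by omega, ?_⟩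
  intro N n k hN hk hkn y χ hy hyN hχ
  have hN10 : 10 ≤ N := N0_ge.trans hN
  have hn : (1 : ℝ) ≤ n := by exact_mod_cast hk.trans hkn
  have hNr : (10 : ℝ) ≤ N := by exact_mod_cast hN10
  have hB : (10 : ℝ) ≤ n * N := by nlinarith
  have hnB : (n : ℝ) ≤ n * N := by nlinarith
  have hy1 : y ≤ 1 := le_one_of_le hN10 hyN
  have hyal : 1 ≤ y ^ (-al) := one_le_rpow_neg hy hy1
  -- the constant
  have hm : (10 ^ 5 * (n : ℝ) ^ 3) ^ c0 ≤ ((n : ℝ) * N) ^ (8 * c0) := by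
    have h1 : (10 : ℝ) ^ 5 * (n : ℝ) ^ 3 ≤ ((n : ℝ) * N) ^ 5 * ((n : ℝ) * N) ^ 3 := by
      gcongr
    rw [← pow_add] at h1
    rw [pow_mul]
    exact pow_le_pow_left₀ (by positivity) h1 c0
  have hDB : 4 * C1 ≤ ((n : ℝ) * N) ^ D :=
    hD.le.trans (pow_le_pow_left₀ (by norm_num) hB D)
  have hsplit : ((n : ℝ) * N) ^ (8 * c0 + D + 1) =
      ((n : ℝ) * N) ^ (8 * c0) * (((n : ℝ) * N) ^ D * ((n : ℝ) * N)) := by ring
  have hP8 : 0 < ((n : ℝ) * N) ^ (8 * c0) := by positivity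
  have hPD : 0 < ((n : ℝ) * N) ^ D := by positivity
  set m0 := (10 ^ 5 * (n : ℝ) ^ 3) ^ c0 with hm0
  have hm00 : 0 < m0 := by positivity
  by_cases hχ1 : χ * m0 ≤ 1
  · have hsub : {yy : Yt | yy.2 ∈ dom (hw N yy.1) ∧ Temp (hw N yy.1) yy.2 (1 / (n : ℝ) ^ 3) k ∧
        Iso (hw N yy.1) yy.2 y k ∧ ¬ QMs (Ms (hw N yy.1) yy.2) χ k} ⊆
        ⋃ p ∈ (Finset.Icc 1 k) ×ˢ ((Finset.univ : Finset (Fin 2)) ×ˢ
          (Finset.univ : Finset (Fin 2))),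
          {yy : Yt | EQ1 (hw N yy.1) yy.2 y k p.1 p.2.1 p.2.2 (χ * m0)} := by
      rintro yy ⟨h1, h2, h3, h4⟩
      obtain ⟨j, hj1, hj2, f, i, hE⟩ := mem_EQ1 hL1 (isTab_hw hN yy.1) h1 hk hkn hχ hχ1 h2 h3 h4
      rw [Set.mem_iUnion₂]
      exact ⟨(j, f, i), by simp [hj1, hj2], hE⟩
    refine (measure_mono hsub).trans ((measure_biUnion_finset_le _ _).trans ?_)
    have hb : ∀ p ∈ (Finset.Icc 1 k) ×ˢ ((Finset.univ : Finset (Fin 2)) ×ˢ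
          (Finset.univ : Finset (Fin 2))),
        Pr N {yy : Yt | EQ1 (hw N yy.1) yy.2 y k p.1 p.2.1 p.2.2 (χ * m0)} ≤
          ENNReal.ofReal (C1 * (χ * m0) * y ^ (-al)) := by
      intro p hp
      rw [Finset.mem_product, Finset.mem_Icc] at hp
      exact hQ1 hN hy hyN (by positivity) hp.1.1 hp.1.2 _ _
    refine (Finset.sum_le_sum hb).trans ?_
    rw [card_bound]
    refine ENNReal.ofReal_le_ofReal ?_
    have hkB : (k : ℝ) ≤ n * N := by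
      have : (k : ℝ) ≤ n := by exact_mod_cast hkn
      linarith
    rw [hsplit]
    have e1 : 4 * (k : ℝ) * (C1 * (χ * m0) * y ^ (-al)) =
        (m0 * ((4 * C1) * k)) * (χ * y ^ (-al)) := by ring
    have e2 : ((n : ℝ) * N) ^ (8 * c0) * (((n : ℝ) * N) ^ D * ((n : ℝ) * N)) * χ * y ^ (-al) =
        (((n : ℝ) * N) ^ (8 * c0) * (((n : ℝ) * N) ^ D * ((n : ℝ) * N))) * (χ * y ^ (-al)) := by
      ring
    rw [e1, e2]
    refine mul_le_mul_of_nonneg_right ?_ (by positivity)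
    gcongr
  · push Not at hχ1
    refine (measure_mono (Set.subset_univ _)).trans ((Pr_univ_le hN).trans ?_)
    refine ENNReal.ofReal_le_ofReal ?_
    rw [hsplit]
    have h1 : 1 ≤ ((n : ℝ) * N) ^ (8 * c0) * χ := by
      have : m0 * χ ≤ ((n : ℝ) * N) ^ (8 * c0) * χ := mul_le_mul_of_nonneg_right hm hχ.le
      linarith
    have h2 : (4 : ℝ) ≤ ((n : ℝ) * N) ^ D := by linarith
    have h3 : (13 : ℝ) ≤ ((n : ℝ) * N) ^ D * ((n : ℝ) * N) := by nlinarith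
    have e2 : ((n : ℝ) * N) ^ (8 * c0) * (((n : ℝ) * N) ^ D * ((n : ℝ) * N)) * χ * y ^ (-al) =
        (((n : ℝ) * N) ^ D * ((n : ℝ) * N)) * ((((n : ℝ) * N) ^ (8 * c0) * χ) * y ^ (-al)) := by
      ring
    rw [e2]
    have h4 : 1 ≤ (((n : ℝ) * N) ^ (8 * c0) * χ) * y ^ (-al) := one_le_mul_of_one_le_of_one_le h1 hyal
    calc (13 : ℝ) = 13 * 1 := by ring
      _ ≤ _ := mul_le_mul h3 h4 zero_le_one (by positivity)

/-- (Q3) -/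
theorem Q3 : ∃ C : ℕ, 1 ≤ C ∧ ∀ {N n k : ℕ}, N0 ≤ N → 1 ≤ k → k ≤ n → ∀ {y χ : ℝ}, 0 < y →
    y ≤ 1 / (N : ℝ) ^ 2 → 0 < χ →
      Pr N {yy | yy.2 ∈ dom (hw N yy.1) ∧ Temp (hw N yy.1) yy.2 (1 / (n : ℝ) ^ 3) k ∧
        Iso (hw N yy.1) yy.2 y k ∧ ∃ a b, 1 ≤ b ∧ a + b ≤ k ∧
          ¬ QMs (fun t => Ms (hw N yy.1) yy.2 (a + t)) χ b} ≤
        ENNReal.ofReal (((n : ℝ) * N) ^ C * χ * y ^ (-al)) := by
  obtain ⟨C, hC, hQ2⟩ := Q2
  refine ⟨C + 2, by omega, ?_⟩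
  intro N n k hN hk hkn y χ hy hyN hχ
  have hN10 : 10 ≤ N := N0_ge.trans hN
  have hn : (1 : ℝ) ≤ n := by exact_mod_cast hk.trans hkn
  have hNr : (10 : ℝ) ≤ N := by exact_mod_cast hN10
  have hsub : {yy : Yt | yy.2 ∈ dom (hw N yy.1) ∧ Temp (hw N yy.1) yy.2 (1 / (n : ℝ) ^ 3) k ∧
        Iso (hw N yy.1) yy.2 y k ∧ ∃ a b, 1 ≤ b ∧ a + b ≤ k ∧
          ¬ QMs (fun t => Ms (hw N yy.1) yy.2 (a + t)) χ b} ⊆
      ⋃ p ∈ (Finset.range k) ×ˢ (Finset.Icc 1 k),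
        {yy : Yt | (yy.1, pth (hw N yy.1) yy.2 p.1) ∈ S2 N n p.2 y χ} := by
    rintro yy ⟨h1, h2, h3, a, b, hb, hab, h4⟩
    rw [Set.mem_iUnion₂]
    refine ⟨(a, b), ?_, shift_mem hN hab h1 h2 h3 h4⟩
    rw [Finset.mem_product, Finset.mem_range, Finset.mem_Icc]
    refine ⟨?_, hb, ?_⟩
    · change a < k
      omega
    · change b ≤ k
      omega
  refine (measure_mono hsub).trans ((measure_biUnion_finset_le _ _).trans ?_)
  have hb : ∀ p ∈ (Finset.range k) ×ˢ (Finset.Icc 1 k),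
      Pr N {yy : Yt | (yy.1, pth (hw N yy.1) yy.2 p.1) ∈ S2 N n p.2 y χ} ≤
        ENNReal.ofReal (((n : ℝ) * N) ^ C * χ * y ^ (-al)) := by
    intro p hp
    rw [Finset.mem_product, Finset.mem_Icc] at hp
    rw [Pr_shift_S2 hN]
    exact hQ2 hN hp.2.1 (hp.2.2.trans hkn) hy hyN hχ
  refine (Finset.sum_le_sum hb).trans ?_
  rw [Finset.sum_const, Finset.card_product, Finset.card_range, Nat.card_Icc, nsmul_eq_mul,
    ← ENNReal.ofReal_natCast, ← ENNReal.ofReal_mul (by positivity)]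
  refine ENNReal.ofReal_le_ofReal ?_
  have hkk : k + 1 - 1 = k := by omega
  rw [hkk]
  push_cast
  have hkB : (k : ℝ) ≤ n * N := by
    have : (k : ℝ) ≤ n := by exact_mod_cast hkn
    nlinarith
  have hyal : 0 < y ^ (-al) := Real.rpow_pos_of_pos hy _
  calc (k : ℝ) * k * (((n : ℝ) * N) ^ C * χ * y ^ (-al))
      ≤ ((n : ℝ) * N) * ((n : ℝ) * N) * (((n : ℝ) * N) ^ C * χ * y ^ (-al)) := by
        gcongr
    _ = ((n : ℝ) * N) ^ (C + 2) * χ * y ^ (-al) := by ring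

end BilEnt
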