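import Pool.Agent.BilEnt.V02
import Pool.Agent.BilEnt.G11
import Pool.Agent.BilEnt.G12
import Pool.Agent.BilEnt.G13

/-!
# MP_bd32bb_an, part V: stability of an orbit under a change of the initial direction (V1)
-/

open MeasureTheory Real

namespace BilEnt

namespace PV

/-- the statement of `moduli` with an explicit constant -/
def ModC (C : ℝ) : Prop :=
  1 ≤ C ∧ ∀ h : ℝ → ℝ, IsTab h → ∀ K : ℝ, 1 ≤ K → Hol h K →
    ∀ z ∈ dom h, ∀ s : ℝ, 0 < s → s ≤ stt h z → ∀ z' : ℝ × ℝ, ‖z' - z‖ ≤ s / C →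
      z' ∈ dom h ∧ s / 2 ≤ stt h z' ∧ |hl h z' - hl h z| ≤ C * ‖z' - z‖ ∧
      (∀ i j, |Mc h z' i j - Mc h z i j| ≤ C * K / s ^ 6 * ‖z' - z‖ ^ ((1 : ℝ) / 65))

theorem exists_ModC : ∃ C, ModC C := by
  obtain ⟨C, h1, h2⟩ := moduli
  refine ⟨C, h1, fun h hh K hK hH z hz s hs hsz z' hz' => ?_⟩
  obtain ⟨a1, a2, _, _, a5, _, a7, _⟩ := h2 h hh K hK hH z hz s hs hsz z' hz'
  exact ⟨a1, a2, a5, a7⟩

/-- hypotheses of (V1) at the direction `A0` -/
structure V1Hyp (h : ℝ → ℝ) (u A0 s χ W : ℝ) (k : ℕ) : Prop where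
  mem : (u, A0) ∈ dom h
  temp : Temp h (u, A0) s k
  qm : ∀ t, 1 ≤ t → t ≤ k → ∀ j ≤ t, χ * rn (mprod (Ms h (u, A0)) j (t - j)) 0 *
    cn (mprod (Ms h (u, A0)) 0 j) 1 ≤ |mprod (Ms h (u, A0)) 0 t 0 1|
  bW : ∀ t, 1 ≤ t → t ≤ k → |mprod (Ms h (u, A0)) 0 t 0 1| ≤ W

/-- conclusion of (V1) at time `t` for the direction `A` -/
def V1Con (h : ℝ → ℝ) (u A0 ρ : ℝ) (t : ℕ) (A : ℝ) : Prop :=
  |(pth h (u, A) t).1 - (pth h (u, A0) t).1| ≤ ρ ∧
  |(pth h (u, A) t).2 - (pth h (u, A0) t).2| ≤ (4 * t + 1) * ρ ∧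
  |mprod (Ms h (u, A)) 0 t 0 1 - mprod (Ms h (u, A0)) 0 t 0 1| ≤
    |mprod (Ms h (u, A0)) 0 t 0 1| / 10

lemma Ms_eq (h : ℝ → ℝ) (z : ℝ × ℝ) :
    Ms h z = fun t => BF (gg h (pth h z t)) (hl h (pth h z t)) := rfl

/-- consequences of the closeness of two states -/
lemma close_states {Cm : ℝ} (hCm : ModC Cm) {h : ℝ → ℝ} (hh : IsTab h) {Λ s ρ ϖ : ℝ} {k : ℕ}
    (hΛ : 2 ≤ Λ) (hHol : Hol h Λ) (hkΛ : (k : ℝ) ≤ Λ) (hs : 1 / Λ ≤ s) (hρ : 0 < ρ)
    (hρ1 : ρ ≤ 1) (hρs : 5 * Λ * ρ ≤ 1 / Λ / Cm)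
    (hϖ : ϖ = 5 * Cm * Λ ^ 8 * ρ ^ ((1 : ℝ) / 65)) {z z' : ℝ × ℝ} (hz : z ∈ dom h)
    (hsz : s ≤ stt h z) {t : ℕ} (htk : t ≤ k) (h1 : |z'.1 - z.1| ≤ ρ)
    (h2 : |z'.2 - z.2| ≤ (4 * t + 1) * ρ) :
    z' ∈ dom h ∧ s / 2 ≤ stt h z' ∧ |hl h z' - hl h z| ≤ ϖ ∧
      ∀ i j, |Mc h z' i j - Mc h z i j| ≤ ϖ := by
  obtain ⟨hC1, hmod⟩ := hCm
  have hΛ0 : 0 < Λ := by linarith
  have hs0 : 0 < s := lt_of_lt_of_le (by positivity) hs
  have htΛ : (t : ℝ) ≤ Λ := le_trans (by exact_mod_cast htk) hkΛ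
  have hn : ‖z' - z‖ ≤ 5 * Λ * ρ := by
    rw [Prod.norm_def]
    apply max_le
    · rw [Prod.fst_sub, Real.norm_eq_abs]
      refine h1.trans ?_
      nlinarith
    · rw [Prod.snd_sub, Real.norm_eq_abs]
      refine h2.trans ?_
      have : (4 * (t : ℝ) + 1) ≤ 5 * Λ := by linarith
      gcongr
  have hns : ‖z' - z‖ ≤ s / Cm := by
    refine hn.trans (hρs.trans ?_)
    gcongr
  obtain ⟨a1, a2, a3, a4⟩ := hmod h hh Λ (by linarith) hHol z hz s hs0 hsz z' hns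
  have h5 : 5 * Λ ≤ Λ ^ 65 * 5 ^ 65 := by
    have e1 : Λ ≤ Λ ^ 65 := le_self_pow₀ (by linarith) (by norm_num)
    have e2 : (5 : ℝ) ≤ 5 ^ 65 := by norm_num
    nlinarith
  have hpow : ‖z' - z‖ ^ ((1 : ℝ) / 65) ≤ 5 * Λ * ρ ^ ((1 : ℝ) / 65) := by
    calc ‖z' - z‖ ^ ((1 : ℝ) / 65) ≤ (5 * Λ * ρ) ^ ((1 : ℝ) / 65) :=
          Real.rpow_le_rpow (norm_nonneg _) hn (by norm_num)
      _ = (5 * Λ) ^ ((1 : ℝ) / 65) * ρ ^ ((1 : ℝ) / 65) := by
          rw [Real.mul_rpow (by positivity) hρ.le]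
      _ ≤ 5 * Λ * ρ ^ ((1 : ℝ) / 65) := by
          gcongr
          calc (5 * Λ) ^ ((1 : ℝ) / 65) ≤ (5 * Λ) ^ (1 : ℝ) :=
                Real.rpow_le_rpow_of_exponent_le (by linarith) (by norm_num)
            _ = 5 * Λ := Real.rpow_one _
  have hρp : ρ ≤ ρ ^ ((1 : ℝ) / 65) := by
    calc ρ = ρ ^ (1 : ℝ) := (Real.rpow_one _).symm
      _ ≤ ρ ^ ((1 : ℝ) / 65) := Real.rpow_le_rpow_of_exponent_ge hρ hρ1 (by norm_num)
  have hρp0 : 0 < ρ ^ ((1 : ℝ) / 65) := Real.rpow_pos_of_pos hρ _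
  have hCm0 : 0 < Cm := by linarith
  refine ⟨a1, a2, ?_, ?_⟩
  · calc |hl h z' - hl h z| ≤ Cm * ‖z' - z‖ := a3
      _ ≤ Cm * (5 * Λ * ρ) := by gcongr
      _ ≤ Cm * (5 * Λ ^ 8 * ρ ^ ((1 : ℝ) / 65)) := by
          have : Λ ≤ Λ ^ 8 := le_self_pow₀ (by linarith) (by norm_num)
          gcongr
      _ = ϖ := by rw [hϖ]; ring
  · intro i j
    refine (a4 i j).trans ?_
    have hs6 : 1 / s ^ 6 ≤ Λ ^ 6 := by
      have : 1 / s ≤ Λ := by
        rw [div_le_iff₀ hs0]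
        calc (1 : ℝ) = Λ * (1 / Λ) := by field_simp
          _ ≤ Λ * s := by gcongr
      calc 1 / s ^ 6 = (1 / s) ^ 6 := by rw [div_pow, one_pow]
        _ ≤ Λ ^ 6 := by gcongr
    calc Cm * Λ / s ^ 6 * ‖z' - z‖ ^ ((1 : ℝ) / 65)
        = Cm * Λ * (1 / s ^ 6) * ‖z' - z‖ ^ ((1 : ℝ) / 65) := by ring
      _ ≤ Cm * Λ * Λ ^ 6 * (5 * Λ * ρ ^ ((1 : ℝ) / 65)) := by gcongr
      _ = ϖ := by rw [hϖ]; ring

/-- bounds for one flight in terms of a lower bound of `stt` -/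
lemma flight_m {h : ℝ → ℝ} (hh : IsTab h) {z : ℝ × ℝ} (hz : z ∈ dom h) {s Λ : ℝ} (hΛ : 2 ≤ Λ)
    (hs : 1 / Λ ≤ s) (hsz : s / 2 ≤ stt h z) :
    |hl h z| ≤ 10 ^ 6 * Λ ∧ |gg h z| ≤ 10 ^ 6 * Λ ∧ 1 / (10 ^ 6 * Λ) ≤ hl h z := by
  obtain ⟨-, -, f3, -, f5, -⟩ := flight_bounds hh hz
  obtain ⟨g1, g2, -, -⟩ := gg_bounds hh hz
  have hΛ0 : 0 < Λ := by linarith
  have hs0 : 0 < s := lt_of_lt_of_le (by positivity) hs
  have hst : 0 < stt h z := lt_of_lt_of_le (by positivity) hsz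
  have hst2 : 1 / (2 * Λ) ≤ stt h z := by
    calc 1 / (2 * Λ) = 1 / Λ / 2 := by field_simp
      _ ≤ s / 2 := by gcongr
      _ ≤ _ := hsz
  have hl0 := hl_pos hh hz
  refine ⟨?_, ?_, ?_⟩
  · rw [abs_of_pos hl0]; linarith
  · rw [abs_of_pos g1]
    refine g2.trans ?_
    rw [div_le_iff₀ hst]
    calc (10 : ℝ) ^ 5 ≤ 10 ^ 6 * Λ * (1 / (2 * Λ)) := by
          have : 10 ^ 6 * Λ * (1 / (2 * Λ)) = (10 : ℝ) ^ 6 / 2 := by field_simp
          rw [this]; norm_num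
      _ ≤ 10 ^ 6 * Λ * stt h z := by gcongr
  · refine le_trans ?_ f3
    calc 1 / (10 ^ 6 * Λ) = 1 / (2 * Λ) * (2 / 10 ^ 6) := by field_simp
      _ ≤ stt h z * (1 / 10 ^ 4) := by
          apply mul_le_mul hst2 (by norm_num) (by norm_num) hst.le
      _ = stt h z / 10 ^ 4 := by ring

/-- (V1) -/
theorem V1 {Cm : ℝ} (hCm : ModC Cm) {h : ℝ → ℝ} (hh : IsTab h) {Λ s χ ρ W u A0 : ℝ} {k : ℕ}
    (hΛ : 2 ≤ Λ) (hHol : Hol h Λ) (hk : 1 ≤ k) (hkΛ : (k : ℝ) ≤ Λ) (hs : 1 / Λ ≤ s)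
    (hχ : 0 < χ) (hχ1 : χ ≤ 1) (hρ : 0 < ρ)
    (hbig : 10 ^ 40 * Cm * Λ ^ 14 * ρ ^ ((1 : ℝ) / 65) ≤ χ)
    (H : V1Hyp h u A0 s χ W k) :
    ∀ t ≤ k, ∀ A ∈ Metric.closedBall A0 (s * ρ / (10 ^ 5 * W)), V1Con h u A0 ρ t A := by
  have hC1 : 1 ≤ Cm := hCm.1
  have hΛ0 : 0 < Λ := by linarith
  have hs0 : 0 < s := lt_of_lt_of_le (by positivity) hs
  have hρp0 : 0 < ρ ^ ((1 : ℝ) / 65) := Real.rpow_pos_of_pos hρ _
  have hΛ14 : 1 ≤ Λ ^ 14 := one_le_pow₀ (by linarith)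
  have hCΛ : 1 ≤ Cm * Λ ^ 14 := one_le_mul_of_one_le_of_one_le hC1 hΛ14
  have hρle : ρ ^ ((1 : ℝ) / 65) ≤ 1 := by
    nlinarith
  have hρ1 : ρ ≤ 1 := by
    by_contra hc
    push Not at hc
    have : 1 < ρ ^ ((1 : ℝ) / 65) := Real.one_lt_rpow hc (by norm_num)
    linarith
  have hρp : ρ ≤ ρ ^ ((1 : ℝ) / 65) := by
    calc ρ = ρ ^ (1 : ℝ) := (Real.rpow_one _).symm
      _ ≤ ρ ^ ((1 : ℝ) / 65) := Real.rpow_le_rpow_of_exponent_ge hρ hρ1 (by norm_num)
  have hρs : 5 * Λ * ρ ≤ 1 / Λ / Cm := by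
    rw [div_div, le_div_iff₀ (by positivity)]
    calc 5 * Λ * ρ * (Λ * Cm) = 5 * Cm * Λ ^ 2 * ρ := by ring
      _ ≤ 10 ^ 40 * Cm * Λ ^ 14 * ρ ^ ((1 : ℝ) / 65) := by
          have : Λ ^ 2 ≤ Λ ^ 14 := pow_le_pow_right₀ (by linarith) (by norm_num)
          gcongr
          norm_num
      _ ≤ χ := hbig
      _ ≤ 1 := hχ1
  obtain ⟨ϖ, hϖ⟩ : ∃ ϖ, ϖ = 5 * Cm * Λ ^ 8 * ρ ^ ((1 : ℝ) / 65) := ⟨_, rfl⟩
  have hϖ0 : 0 ≤ ϖ := by rw [hϖ]; positivity
  -- `W` is not too small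
  have hst0 : s ≤ stt h (u, A0) := H.temp 0 (Nat.zero_le _)
  have hW : s / 10 ^ 4 ≤ W := by
    have h1 := H.bW 1 le_rfl hk
    have e : mprod (Ms h (u, A0)) 0 1 0 1 = hl h (u, A0) := by
      rw [Ms_eq, Y_rec]
      simp [mprod_zero, pth]
    rw [e] at h1
    obtain ⟨-, -, f3, -⟩ := flight_bounds hh H.mem
    have : s / 10 ^ 4 ≤ stt h (u, A0) / 10 ^ 4 := by gcongr
    linarith [le_abs_self (hl h (u, A0))]
  have hW0 : 0 < W := lt_of_lt_of_le (by positivity) hW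
  set lam : ℝ := s * ρ / (10 ^ 5 * W) with hlam
  have hlam0 : 0 < lam := by rw [hlam]; positivity
  have hlamρ : lam ≤ ρ := by
    rw [hlam, div_le_iff₀ (by positivity)]
    have : s ≤ 10 ^ 4 * W := by linarith [hW]
    nlinarith
  have hlamW : lam * (11 / 10 * W) * (3 * 10 ^ 4 / s) ≤ ρ := by
    rw [hlam]
    have : s * ρ / (10 ^ 5 * W) * (11 / 10 * W) * (3 * 10 ^ 4 / s) = 33 / 100 * ρ := by
      field_simp
      ring
    rw [this]; linarith
  -- strong induction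
  have main : ∀ t ≤ k, ∀ j ≤ t, ∀ A ∈ Metric.closedBall A0 lam, V1Con h u A0 ρ j A := by
    intro t
    induction t with
    | zero =>
      intro _ j hj A hA
      have hj0 : j = 0 := by omega
      subst hj0
      rw [Metric.mem_closedBall, Real.dist_eq] at hA
      refine ⟨?_, ?_, ?_⟩
      · simp [pth, hρ.le]
      · simp only [pth, Function.iterate_zero, id_eq, Nat.cast_zero, mul_zero, zero_add, one_mul]
        linarith
      · simp [mprod_zero]
    | succ t ih =>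
      intro htk j hj A hA
      have IH := ih (by omega)
      rcases Nat.lt_or_ge j (t + 1) with hjt | hjt
      · exact IH j (by omega) A hA
      have hjt' : j = t + 1 := by omega
      subst hjt'
      clear hjt hj
      -- closeness of the states at the times `≤ t`
      have hcl : ∀ A' ∈ Metric.closedBall A0 lam, ∀ i ≤ t,
          pth h (u, A') i ∈ dom h ∧ s / 2 ≤ stt h (pth h (u, A') i) ∧
          |hl h (pth h (u, A') i) - hl h (pth h (u, A0) i)| ≤ ϖ ∧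
          ∀ a b, |Mc h (pth h (u, A') i) a b - Mc h (pth h (u, A0) i) a b| ≤ ϖ := by
        intro A' hA' i hi
        obtain ⟨c1, c2, -⟩ := IH i hi A' hA'
        exact close_states hCm hh hΛ hHol hkΛ hs hρ hρ1 hρs hϖ (pth_mem hh H.mem i)
          (H.temp i (by omega)) (by omega) c1 c2
      -- closeness of `Y_{t+1}`
      have hYc : ∀ A' ∈ Metric.closedBall A0 lam,
          |mprod (Ms h (u, A')) 0 (t + 1) 0 1 - mprod (Ms h (u, A0)) 0 (t + 1) 0 1| ≤
            |mprod (Ms h (u, A0)) 0 (t + 1) 0 1| / 10 := by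
        intro A' hA'
        have hA0 : ∀ i ≤ t, s / 2 ≤ stt h (pth h (u, A0) i) := by
          intro i hi
          have := H.temp i (by omega)
          linarith
        have b0 : ∀ i ≤ t, _ := fun i hi => flight_m hh (pth_mem hh H.mem i) hΛ hs (hA0 i hi)
        have b1 : ∀ i ≤ t, _ := fun i hi => flight_m hh (hcl A' hA' i hi).1 hΛ hs
          (hcl A' hA' i hi).2.1
        have T := tele (10 ^ 6 * Λ) ϖ χ t (fun i => gg h (pth h (u, A0) i))
          (fun i => hl h (pth h (u, A0) i)) (fun i => gg h (pth h (u, A') i))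
          (fun i => hl h (pth h (u, A') i)) (by linarith) hϖ0 hχ
          (fun i hi => (b0 i hi).1) (fun i hi => (b0 i hi).2.1)
          (fun i hi => (b1 i hi.le).2.2) (fun i hi => (b1 i hi.le).2.1)
          (fun i hi => (hcl A' hA' i hi).2.2.1)
          (fun i hi => by
            have := (hcl A' hA' i hi.le).2.2.2 1 0
            simp only [Mc] at this
            have e : -gg h (pth h (u, A') i) - -gg h (pth h (u, A0) i) =
              -(gg h (pth h (u, A') i) - gg h (pth h (u, A0) i)) := by ring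
            simp only [Matrix.of_apply, Matrix.cons_val', Matrix.cons_val_zero,
              Matrix.cons_val_one, Matrix.cons_val_fin_one] at this
            rw [e, abs_neg] at this
            exact this)
          (fun i hi => by
            have := (hcl A' hA' i hi.le).2.2.2 1 1
            simp only [Mc] at this
            simp only [Matrix.of_apply, Matrix.cons_val', Matrix.cons_val_one,
              Matrix.cons_val_fin_one] at this
            have e : gg h (pth h (u, A') i) * hl h (pth h (u, A') i) - 1 -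
                (gg h (pth h (u, A0) i) * hl h (pth h (u, A0) i) - 1) =
              gg h (pth h (u, A') i) * hl h (pth h (u, A') i) -
                gg h (pth h (u, A0) i) * hl h (pth h (u, A0) i) := by ring
            rw [e] at this
            exact this)
          (fun i hi => H.qm (t + 1) (by omega) htk i hi)
          (fun i hi => (IH i hi A' hA').2.2)
        refine T.trans ?_
        have hX := abs_nonneg (mprod (Ms h (u, A0)) 0 (t + 1) 0 1)
        have e1 : ((t : ℝ) + 1) * (100 * (10 ^ 6 * Λ) ^ 5 * ϖ / χ *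
            |mprod (Ms h (u, A0)) 0 (t + 1) 0 1|) =
          (((t : ℝ) + 1) * (100 * (10 ^ 6 * Λ) ^ 5 * ϖ) / χ) *
            |mprod (Ms h (u, A0)) 0 (t + 1) 0 1| := by ring
        have e2 : ((t : ℝ) + 1) * (100 * (10 ^ 6 * Λ) ^ 5 * ϖ) / χ ≤ 1 / 10 := by
          rw [div_le_iff₀ hχ]
          have ht1 : (t : ℝ) + 1 ≤ Λ := by
            refine le_trans ?_ hkΛ
            exact_mod_cast htk
          calc ((t : ℝ) + 1) * (100 * (10 ^ 6 * Λ) ^ 5 * ϖ)
              ≤ Λ * (100 * (10 ^ 6 * Λ) ^ 5 * ϖ) := by gcongr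
            _ = 5 * 10 ^ 32 * (Cm * Λ ^ 14 * ρ ^ ((1 : ℝ) / 65)) := by rw [hϖ]; ring
            _ ≤ 1 / 10 * (10 ^ 40 * Cm * Λ ^ 14 * ρ ^ ((1 : ℝ) / 65)) := by
                have : 0 ≤ Cm * Λ ^ 14 * ρ ^ ((1 : ℝ) / 65) := by positivity
                nlinarith
            _ ≤ 1 / 10 * χ := by gcongr
        have e3 : ((t : ℝ) + 1) * (100 * (10 ^ 6 * Λ) ^ 5 * ϖ / χ *
            |mprod (Ms h (u, A0)) 0 (t + 1) 0 1|) ≤
          1 / 10 * |mprod (Ms h (u, A0)) 0 (t + 1) 0 1| := by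
          rw [e1]; gcongr
        refine le_trans e3 (le_of_eq ?_)
        ring
      -- position at time `t + 1`
      have hpos : |(pth h (u, A) (t + 1)).1 - (pth h (u, A0) (t + 1)).1| ≤ ρ := by
        have hd : ∀ A' ∈ Metric.closedBall A0 lam,
            HasDerivWithinAt (fun A'' => (pth h (u, A'') (t + 1)).1)
              (mprod (Ms h (u, A')) 0 (t + 1) 0 1 / pw h (pth h (u, A') (t + 1)))
              (Metric.closedBall A0 lam) A' := fun A' hA' =>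
          (hasDerivAt_pos hh (hcl A' hA' 0 (Nat.zero_le _)).1 (t + 1)).hasDerivWithinAt
        have hb : ∀ A' ∈ Metric.closedBall A0 lam,
            ‖mprod (Ms h (u, A')) 0 (t + 1) 0 1 / pw h (pth h (u, A') (t + 1))‖ ≤
              11 / 10 * W * (3 * 10 ^ 4 / s) := by
          intro A' hA'
          obtain ⟨m1, m2, -, -⟩ := hcl A' hA' t le_rfl
          have m3 : pth h (u, A') (t + 1) = fm h (pth h (u, A') t) := by
            simp only [pth, Function.iterate_succ_apply']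
          obtain ⟨-, -, -, -, -, f6, -⟩ := flight_bounds hh m1
          obtain ⟨p1, -, -⟩ := pw_bounds hh (fm_mem hh m1)
          rw [← m3] at f6 p1
          have hpw : s / (3 * 10 ^ 4) ≤ pw h (pth h (u, A') (t + 1)) := by
            calc s / (3 * 10 ^ 4) ≤ 99 / 100 * ((s / 2) / 10 ^ 4) := by
                  have : 99 / 100 * ((s / 2) / 10 ^ 4) = s * (99 / 2000000) := by ring
                  rw [this]
                  have : s / (3 * 10 ^ 4) = s * (1 / 30000) := by ring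
                  rw [this]
                  exact mul_le_mul_of_nonneg_left (by norm_num) hs0.le
              _ ≤ 99 / 100 * (stt h (pth h (u, A') t) / 10 ^ 4) := by gcongr
              _ ≤ 99 / 100 * stt h (pth h (u, A') (t + 1)) := by gcongr
              _ ≤ _ := p1
          have hpw0 : 0 < pw h (pth h (u, A') (t + 1)) := lt_of_lt_of_le (by positivity) hpw
          have hY1 : |mprod (Ms h (u, A')) 0 (t + 1) 0 1| ≤ 11 / 10 * W := by
            have y1 := hYc A' hA'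
            have y2 := H.bW (t + 1) (by omega) htk
            have y3 := abs_sub_abs_le_abs_sub (mprod (Ms h (u, A')) 0 (t + 1) 0 1)
              (mprod (Ms h (u, A0)) 0 (t + 1) 0 1)
            linarith
          rw [norm_div, Real.norm_eq_abs, Real.norm_eq_abs, abs_of_pos hpw0]
          rw [div_le_iff₀ hpw0]
          calc |mprod (Ms h (u, A')) 0 (t + 1) 0 1| ≤ 11 / 10 * W := hY1
            _ = 11 / 10 * W * (3 * 10 ^ 4 / s) * (s / (3 * 10 ^ 4)) := by field_simp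
            _ ≤ 11 / 10 * W * (3 * 10 ^ 4 / s) * pw h (pth h (u, A') (t + 1)) := by gcongr
        have hmv := (convex_closedBall A0 lam).norm_image_sub_le_of_norm_hasDerivWithin_le hd hb
          (Metric.mem_closedBall_self hlam0.le) hA
        rw [Real.norm_eq_abs, Real.norm_eq_abs] at hmv
        rw [Metric.mem_closedBall, Real.dist_eq] at hA
        calc _ ≤ 11 / 10 * W * (3 * 10 ^ 4 / s) * |A - A0| := hmv
          _ ≤ 11 / 10 * W * (3 * 10 ^ 4 / s) * lam := by gcongr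
          _ = lam * (11 / 10 * W) * (3 * 10 ^ 4 / s) := by ring
          _ ≤ ρ := hlamW
      refine ⟨hpos, ?_, hYc A hA⟩
      -- direction at time `t + 1`
      have hdir : ∀ A', (pth h (u, A') (t + 1)).2 =
          2 * Th h (pth h (u, A') (t + 1)).1 - (pth h (u, A') t).2 := by
        intro A'
        simp only [pth, Function.iterate_succ_apply', fm]
      rw [hdir A, hdir A0]
      obtain ⟨-, d2, -⟩ := IH t le_rfl A hA
      have d1 := Th_lip hh (pth h (u, A) (t + 1)).1 (pth h (u, A0) (t + 1)).1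
      have d3 : |2 * Th h (pth h (u, A) (t + 1)).1 - (pth h (u, A) t).2 -
          (2 * Th h (pth h (u, A0) (t + 1)).1 - (pth h (u, A0) t).2)| ≤
          2 * |Th h (pth h (u, A) (t + 1)).1 - Th h (pth h (u, A0) (t + 1)).1| +
            |(pth h (u, A) t).2 - (pth h (u, A0) t).2| := by
        have e : 2 * Th h (pth h (u, A) (t + 1)).1 - (pth h (u, A) t).2 -
          (2 * Th h (pth h (u, A0) (t + 1)).1 - (pth h (u, A0) t).2) =
          2 * (Th h (pth h (u, A) (t + 1)).1 - Th h (pth h (u, A0) (t + 1)).1) -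
            ((pth h (u, A) t).2 - (pth h (u, A0) t).2) := by ring
        rw [e]
        refine (abs_sub _ _).trans ?_
        rw [abs_mul, abs_of_pos (by norm_num : (0 : ℝ) < 2)]
      push_cast
      linarith
  intro t ht A hA
  exact main t ht t le_rfl A hA

end PV

end BilEnt
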