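import Pool.Agent.BilEnt.V01
import Pool.Agent.BilEnt.V03

/-!
# MP_bd32bb_an, part V: (V2), (V3), (V4)
-/

open MeasureTheory Real

namespace BilEnt

namespace PV

lemma ds_self_abs {x y : ℝ} (h : |x - y| ≤ 1) : |x - y| ≤ 2 * ds x y := by
  unfold ds
  have hpi := Real.pi_gt_three
  have h1 : |(x - y) / 2| ≤ π / 2 := by
    rw [abs_div, abs_of_pos (by norm_num : (0 : ℝ) < 2)]
    linarith
  have h2 := Real.mul_abs_le_abs_sin h1
  rw [abs_div, abs_of_pos (by norm_num : (0 : ℝ) < 2)] at h2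
  have h3 : |x - y| / 4 ≤ 2 / π * (|x - y| / 2) := by
    have hpi4 := Real.pi_le_four
    have : (1 : ℝ) / 2 ≤ 2 / π := by
      rw [div_le_div_iff₀ (by norm_num) Real.pi_pos]; linarith
    have h0 := abs_nonneg (x - y)
    nlinarith
  linarith

/-- (V2): in the setting of (V1) the directions whose `k`-th bounce point is `σ`-close to `c`
have small measure -/
theorem V2 {Cm : ℝ} (hCm : ModC Cm) {h : ℝ → ℝ} (hh : IsTab h) {Λ s χ ρ W u A0 σ c : ℝ} {k : ℕ}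
    (hΛ : 2 ≤ Λ) (hHol : Hol h Λ) (hk : 1 ≤ k) (hkΛ : (k : ℝ) ≤ Λ) (hs : 1 / Λ ≤ s)
    (hχ : 0 < χ) (hχ1 : χ ≤ 1) (hρ : 0 < ρ)
    (hbig : 10 ^ 40 * Cm * Λ ^ 14 * ρ ^ ((1 : ℝ) / 65) ≤ χ)
    (H : V1Hyp h u A0 s χ W k) (hσ : 0 < σ)
    (hW : ∃ t, 1 ≤ t ∧ t ≤ k ∧ |mprod (Ms h (u, A0)) 0 t 0 1| = W)
    (htail : ∀ t, 1 ≤ t → t ≤ k → χ ≤ rn (mprod (Ms h (u, A0)) t (k - t)) 0) :
    0 < W ∧ s * ρ / (10 ^ 5 * W) ≤ ρ ∧
    volume {A | A ∈ Metric.closedBall A0 (s * ρ / (10 ^ 5 * W)) ∧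
      ds (pth h (u, A) k).1 c ≤ σ} ≤
      ENNReal.ofReal (5 * 10 ^ 5 * σ / (s * ρ * χ ^ 2) * (s * ρ / (10 ^ 5 * W))) := by
  have hC1 : 1 ≤ Cm := hCm.1
  have hΛ0 : 0 < Λ := by linarith
  have hs0 : 0 < s := lt_of_lt_of_le (by positivity) hs
  have hρp0 : 0 < ρ ^ ((1 : ℝ) / 65) := Real.rpow_pos_of_pos hρ _
  have hΛ14 : 1 ≤ Λ ^ 14 := one_le_pow₀ (by linarith)
  have hCΛ : 1 ≤ Cm * Λ ^ 14 := one_le_mul_of_one_le_of_one_le hC1 hΛ14
  have hρle : ρ ^ ((1 : ℝ) / 65) ≤ 1 / 2 := by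
    nlinarith
  have hρ1 : ρ ≤ 1 := by
    by_contra hc
    push Not at hc
    have : 1 < ρ ^ ((1 : ℝ) / 65) := Real.one_lt_rpow hc (by norm_num)
    linarith
  have hρp : ρ ≤ ρ ^ ((1 : ℝ) / 65) := by
    calc ρ = ρ ^ (1 : ℝ) := (Real.rpow_one _).symm
      _ ≤ ρ ^ ((1 : ℝ) / 65) := Real.rpow_le_rpow_of_exponent_ge hρ hρ1 (by norm_num)
  have hρs : 5 * Λ * ρ ≤ 1 / Λ / Cm := by
    rw [div_div, le_div_iff₀ (by positivity)]
    calc 5 * Λ * ρ * (Λ * Cm) = 5 * Cm * Λ ^ 2 * ρ := by ring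
      _ ≤ 10 ^ 40 * Cm * Λ ^ 14 * ρ ^ ((1 : ℝ) / 65) := by
          have : Λ ^ 2 ≤ Λ ^ 14 := pow_le_pow_right₀ (by linarith) (by norm_num)
          gcongr
          norm_num
      _ ≤ χ := hbig
      _ ≤ 1 := hχ1
  obtain ⟨ϖ, hϖ⟩ : ∃ ϖ, ϖ = 5 * Cm * Λ ^ 8 * ρ ^ ((1 : ℝ) / 65) := ⟨_, rfl⟩
  have hst0 : s ≤ stt h (u, A0) := H.temp 0 (Nat.zero_le _)
  have hW1 : s / 10 ^ 4 ≤ W := by
    have h1 := H.bW 1 le_rfl hk
    have e : mprod (Ms h (u, A0)) 0 1 0 1 = hl h (u, A0) := by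
      rw [Ms_eq, Y_rec]
      simp [mprod_zero, pth]
    rw [e] at h1
    obtain ⟨-, -, f3, -⟩ := flight_bounds hh H.mem
    have : s / 10 ^ 4 ≤ stt h (u, A0) / 10 ^ 4 := by gcongr
    linarith [le_abs_self (hl h (u, A0))]
  have hW0 : 0 < W := lt_of_lt_of_le (by positivity) hW1
  have hV1 := V1 hCm hh hΛ hHol hk hkΛ hs hχ hχ1 hρ hbig H
  set lam : ℝ := s * ρ / (10 ^ 5 * W) with hlam
  have hlam0 : 0 < lam := by rw [hlam]; positivity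
  have hlamρ : lam ≤ ρ := by
    rw [hlam, div_le_iff₀ (by positivity)]
    have : s ≤ 10 ^ 4 * W := by linarith [hW1]
    nlinarith
  refine ⟨hW0, hlamρ, ?_⟩
  -- lower bound of `Y_k`
  have hYk : χ ^ 2 * W ≤ |mprod (Ms h (u, A0)) 0 k 0 1| := by
    obtain ⟨t, ht1, htk, htW⟩ := hW
    have q := H.qm k hk le_rfl t htk
    have r := htail t ht1 htk
    have c1 : |mprod (Ms h (u, A0)) 0 t 0 1| ≤ cn (mprod (Ms h (u, A0)) 0 t) 1 := by
      unfold cn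
      linarith [abs_nonneg (mprod (Ms h (u, A0)) 0 t 1 1)]
    rw [htW] at c1
    have hrn : 0 ≤ rn (mprod (Ms h (u, A0)) t (k - t)) 0 := hχ.le.trans r
    calc χ ^ 2 * W = χ * χ * W := by ring
      _ ≤ χ * rn (mprod (Ms h (u, A0)) t (k - t)) 0 * cn (mprod (Ms h (u, A0)) 0 t) 1 := by
          gcongr
      _ ≤ _ := q
  set Y0 : ℝ := mprod (Ms h (u, A0)) 0 k 0 1 with hY0
  have hY0pos : 0 < |Y0| := lt_of_lt_of_le (by positivity) hYk
  -- the sign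
  obtain ⟨ε, hε, hεY⟩ : ∃ ε : ℝ, |ε| = 1 ∧ ε * Y0 = |Y0| := by
    rcases le_or_gt 0 Y0 with h0 | h0
    · exact ⟨1, by norm_num, by rw [abs_of_nonneg h0, one_mul]⟩
    · exact ⟨-1, by norm_num, by rw [abs_of_neg h0]; ring⟩
  -- all states are in the domain, away from grazing
  have hdom : ∀ A ∈ Metric.closedBall A0 lam, (u, A) ∈ dom h := by
    intro A hA
    obtain ⟨c1, c2, -⟩ := hV1 0 (Nat.zero_le _) A hA
    exact (close_states hCm hh hΛ hHol hkΛ hs hρ hρ1 hρs hϖ (pth_mem hh H.mem 0)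
      (H.temp 0 (Nat.zero_le _)) (Nat.zero_le _) c1 c2).1
  have hder : ∀ A ∈ Metric.closedBall A0 lam,
      HasDerivAt (fun A' => ε * (pth h (u, A') k).1)
        (ε * (mprod (Ms h (u, A)) 0 k 0 1 / pw h (pth h (u, A) k))) A := fun A hA =>
    (hasDerivAt_pos hh (hdom A hA) k).const_mul ε
  have hderge : ∀ A ∈ Metric.closedBall A0 lam,
      4 / 5 * (χ ^ 2 * W) ≤ ε * (mprod (Ms h (u, A)) 0 k 0 1 / pw h (pth h (u, A) k)) := by
    intro A hA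
    obtain ⟨-, -, c3⟩ := hV1 k le_rfl A hA
    have hmem := pth_mem hh (hdom A hA) k
    obtain ⟨-, p2, p3⟩ := pw_bounds hh hmem
    have p0 := pw_pos hh hmem
    have hle : pw h (pth h (u, A) k) ≤ 102 / 100 := by linarith
    have c4 : 9 / 10 * |Y0| ≤ ε * mprod (Ms h (u, A)) 0 k 0 1 := by
      have e1 : ε * mprod (Ms h (u, A)) 0 k 0 1 =
        |Y0| + ε * (mprod (Ms h (u, A)) 0 k 0 1 - Y0) := by rw [← hεY]; ring
      have e2 : |ε * (mprod (Ms h (u, A)) 0 k 0 1 - Y0)| ≤ |Y0| / 10 := by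
        rw [abs_mul, hε, one_mul]; exact c3
      have e3 := (abs_le.mp e2).1
      rw [e1]; linarith
    rw [← mul_div_assoc, le_div_iff₀ p0]
    calc 4 / 5 * (χ ^ 2 * W) * pw h (pth h (u, A) k)
        ≤ 4 / 5 * (χ ^ 2 * W) * (102 / 100) := by gcongr
      _ ≤ 9 / 10 * (χ ^ 2 * W) := by
          have : 0 < χ ^ 2 * W := by positivity
          nlinarith
      _ ≤ 9 / 10 * |Y0| := by gcongr
      _ ≤ _ := c4
  have hexp : ∀ A ∈ Metric.closedBall A0 lam, ∀ A' ∈ Metric.closedBall A0 lam, A ≤ A' →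
      4 / 5 * (χ ^ 2 * W) * (A' - A) ≤ |(pth h (u, A') k).1 - (pth h (u, A) k).1| := by
    intro A hA A' hA' hAA'
    have := (convex_closedBall A0 lam).mul_sub_le_image_sub_of_le_deriv
      (f := fun A' => ε * (pth h (u, A') k).1) (C := 4 / 5 * (χ ^ 2 * W))
      (fun x hx => (hder x hx).continuousAt.continuousWithinAt)
      (fun x hx => (hder x (interior_subset hx)).differentiableAt.differentiableWithinAt)
      (fun x hx => by
        rw [(hder x (interior_subset hx)).deriv]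
        exact hderge x (interior_subset hx)) A hA A' hA' hAA'
    refine this.trans ?_
    have e : ε * (pth h (u, A') k).1 - ε * (pth h (u, A) k).1 =
      ε * ((pth h (u, A') k).1 - (pth h (u, A) k).1) := by ring
    rw [e]
    calc _ ≤ |ε * ((pth h (u, A') k).1 - (pth h (u, A) k).1)| := le_abs_self _
      _ = _ := by rw [abs_mul, hε, one_mul]
  -- diameter
  have hlen : 5 * 10 ^ 5 * σ / (s * ρ * χ ^ 2) * lam = 5 * σ / (χ ^ 2 * W) := by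
    rw [hlam]
    field_simp
  rw [hlen]
  refine (Real.volume_le_diam _).trans ?_
  refine Metric.ediam_le ?_
  rintro A ⟨hA, hAc⟩ A' ⟨hA', hAc'⟩
  have hsym : ∀ A ∈ Metric.closedBall A0 lam, ∀ A' ∈ Metric.closedBall A0 lam,
      ds (pth h (u, A) k).1 c ≤ σ → ds (pth h (u, A') k).1 c ≤ σ → A ≤ A' →
      A' - A ≤ 5 * σ / (χ ^ 2 * W) := by
    intro A hA A' hA' hAc hAc' hAA'
    have h1 := hexp A hA A' hA' hAA'
    obtain ⟨c1, -⟩ := hV1 k le_rfl A hA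
    obtain ⟨c1', -⟩ := hV1 k le_rfl A' hA'
    have hd : ds (pth h (u, A') k).1 (pth h (u, A) k).1 ≤ 2 * σ := by
      have := ds_triangle (pth h (u, A') k).1 c (pth h (u, A) k).1
      rw [ds_comm c] at this
      linarith
    have hsmall : |(pth h (u, A') k).1 - (pth h (u, A) k).1| ≤ 1 := by
      have := abs_sub_le (pth h (u, A') k).1 (pth h (u, A0) k).1 (pth h (u, A) k).1
      rw [abs_sub_comm (pth h (u, A0) k).1] at this
      linarith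
    have h2 := ds_self_abs hsmall
    rw [le_div_iff₀ (by positivity)]
    nlinarith
  rw [edist_dist]
  apply ENNReal.ofReal_le_ofReal
  rw [Real.dist_eq]
  rcases le_total A A' with hle | hle
  · rw [abs_sub_comm, abs_of_nonneg (by linarith)]
    exact hsym A hA A' hA' hAc hAc' hle
  · rw [abs_of_nonneg (by linarith)]
    exact hsym A' hA' A hA hAc' hAc hle

/-- (V3) + (V4): in a fixed table, the directions `A` in `[A1, A2]` for which the orbit of `(u, A)`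
is tempered and quasi-multiplicative on `[0, k]` and whose `k`-th bounce point is `σ`-close to `c`
form a set of small measure. -/
theorem V_cover : ∃ C1 : ℕ, 1 ≤ C1 ∧ ∀ (h : ℝ → ℝ) (Λ χ ρ σ s : ℝ) (k : ℕ) (u c A1 A2 : ℝ)
    (B : Set ℝ), IsTab h → Hol h Λ → 2 ≤ Λ → 1 ≤ k → (k : ℝ) ≤ Λ → 1 / Λ ≤ s → 0 < χ → χ ≤ 1 →
    0 < ρ → Λ ^ C1 * ρ ^ ((1 : ℝ) / 65) ≤ χ → 0 < σ → B ⊆ Set.Icc A1 A2 →
    (∀ A ∈ B, (u, A) ∈ dom h ∧ Temp h (u, A) s k ∧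
      (∀ a b, 1 ≤ b → a + b ≤ k → QMs (fun t => Ms h (u, A) (a + t)) χ b) ∧
      ds (pth h (u, A) k).1 c ≤ σ) →
    volume B ≤ ENNReal.ofReal (Λ ^ C1 * σ / (ρ * χ ^ 2) * (A2 - A1 + 2 * ρ)) := by
  obtain ⟨Cm, hCm⟩ := exists_ModC
  have hC1 : 1 ≤ Cm := hCm.1
  -- choice of the exponent
  obtain ⟨n0, hn0⟩ := pow_unbounded_of_one_lt (10 ^ 40 * Cm) (by norm_num : (1 : ℝ) < 2)
  refine ⟨n0 + 14, by omega, ?_⟩
  intro h Λ χ ρ σ s k u c A1 A2 B hh hHol hΛ hk hkΛ hs hχ hχ1 hρ hbig0 hσ hBI hB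
  have hΛ0 : 0 < Λ := by linarith
  have hs0 : 0 < s := lt_of_lt_of_le (by positivity) hs
  have hρp0 : 0 < ρ ^ ((1 : ℝ) / 65) := Real.rpow_pos_of_pos hρ _
  have hΛn : 10 ^ 40 * Cm ≤ Λ ^ n0 := by
    refine hn0.le.trans ?_
    gcongr
  have hbig : 10 ^ 40 * Cm * Λ ^ 14 * ρ ^ ((1 : ℝ) / 65) ≤ χ := by
    refine le_trans ?_ hbig0
    rw [pow_add]
    gcongr
  rcases B.eq_empty_or_nonempty with hBe | hBne
  · rw [hBe]; simp
  obtain ⟨b0, hb0⟩ := hBne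
  have hA12 : A1 ≤ A2 := (hBI hb0).1.trans (hBI hb0).2
  -- the maximum `W`
  let W : ℝ → ℝ := fun A => (Finset.Icc 1 k).sup' (Finset.nonempty_Icc.mpr hk)
    (fun t => |mprod (Ms h (u, A)) 0 t 0 1|)
  have hdet : ∀ A t, (Ms h (u, A) t).det = 1 := fun A t => det_Mc h _
  have hHyp : ∀ A ∈ B, V1Hyp h u A s χ (W A) k := by
    intro A hA
    obtain ⟨a1, a2, a3, -⟩ := hB A hA
    refine ⟨a1, a2, ?_, ?_⟩
    · intro t ht1 htk j hj
      have := a3 0 t ht1 (by omega) j hj 0 1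
      simp only [zero_add] at this
      exact this
    · intro t ht1 htk
      exact Finset.le_sup' (fun t => |mprod (Ms h (u, A)) 0 t 0 1|)
        (Finset.mem_Icc.mpr ⟨ht1, htk⟩)
  have hWmax : ∀ A, ∃ t, 1 ≤ t ∧ t ≤ k ∧ |mprod (Ms h (u, A)) 0 t 0 1| = W A := by
    intro A
    obtain ⟨t, ht, he⟩ := Finset.exists_mem_eq_sup' (Finset.nonempty_Icc.mpr hk)
      (fun t => |mprod (Ms h (u, A)) 0 t 0 1|)
    rw [Finset.mem_Icc] at ht
    exact ⟨t, ht.1, ht.2, he.symm⟩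
  have htail : ∀ A ∈ B, ∀ t, 1 ≤ t → t ≤ k → χ ≤ rn (mprod (Ms h (u, A)) t (k - t)) 0 := by
    intro A hA t ht1 htk
    obtain ⟨-, -, a3, -⟩ := hB A hA
    rcases Nat.eq_zero_or_pos (k - t) with h0 | h0
    · rw [h0, mprod_zero]
      have r1 : rn (1 : Matrix (Fin 2) (Fin 2) ℝ) 0 = 1 := by simp [rn]
      rw [r1]; exact hχ1
    · exact rn_ge (Ms h (u, A)) (hdet A) χ hχ.le t (k - t) (a3 t (k - t) h0 (by omega))
  have hV2 : ∀ A ∈ B, _ := fun A hA => V2 (c := c) hCm hh hΛ hHol hk hkΛ hs hχ hχ1 hρ hbig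
    (hHyp A hA) hσ (hWmax A) (htail A hA)
  have hcov := cover_bound B A1 A2 ρ (5 * 10 ^ 5 * σ / (s * ρ * χ ^ 2)) hBI hρ (by positivity)
    (fun A => s * ρ / (10 ^ 5 * W A))
    (fun A hA => by have := (hV2 A hA).1; positivity)
    (fun A hA => (hV2 A hA).2.1)
    (fun A hA => by
      refine le_trans (measure_mono ?_) (hV2 A hA).2.2
      rintro A' ⟨hA'B, hA'b⟩
      exact ⟨hA'b, (hB A' hA'B).2.2.2⟩)
  refine hcov.trans ?_
  apply ENNReal.ofReal_le_ofReal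
  have h1s : 1 / s ≤ Λ := by
    rw [div_le_iff₀ hs0]
    calc (1 : ℝ) = Λ * (1 / Λ) := by field_simp
      _ ≤ Λ * s := by gcongr
  have hL : 5 * (5 * 10 ^ 5) / 2 * Λ ≤ Λ ^ (n0 + 14) := by
    rw [pow_add]
    have e1 : (10 : ℝ) ^ 40 ≤ Λ ^ n0 := by
      refine le_trans ?_ hΛn
      nlinarith
    have e2 : Λ ≤ Λ ^ 14 := le_self_pow₀ (by linarith) (by norm_num)
    calc 5 * (5 * 10 ^ 5) / 2 * Λ ≤ 10 ^ 40 * Λ := by
          gcongr
          norm_num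
      _ ≤ Λ ^ n0 * Λ ^ 14 := by gcongr
  have hnn : 0 ≤ A2 - A1 + 2 * ρ := by linarith
  calc 5 * (5 * 10 ^ 5 * σ / (s * ρ * χ ^ 2)) / 2 * (A2 - A1 + 2 * ρ)
      = 5 * (5 * 10 ^ 5) / 2 * (1 / s) * (σ / (ρ * χ ^ 2)) * (A2 - A1 + 2 * ρ) := by
        field_simp
    _ ≤ 5 * (5 * 10 ^ 5) / 2 * Λ * (σ / (ρ * χ ^ 2)) * (A2 - A1 + 2 * ρ) := by gcongr
    _ ≤ Λ ^ (n0 + 14) * (σ / (ρ * χ ^ 2)) * (A2 - A1 + 2 * ρ) := by gcongr
    _ = Λ ^ (n0 + 14) * σ / (ρ * χ ^ 2) * (A2 - A1 + 2 * ρ) := by ring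

end PV

end BilEnt
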