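import Pool.Agent.BilEnt.N12
import Pool.Agent.BilEnt.V04
import Pool.Agent.BilEnt.Q03

/-!
# MP_bd32bb_an : (N3), final form
-/

open MeasureTheory Real
open scoped ENNReal

namespace BilEnt

theorem vCover : ∃ CV : ℝ, 1 ≤ CV ∧ VCover CV := by
  obtain ⟨C1, hC1, H⟩ := PV.V_cover
  refine ⟨4 * C1, by
    have : (1 : ℝ) ≤ C1 := by exact_mod_cast hC1
    linarith, ?_⟩
  intro N n hN hn h hh hHol u c A1 A2 χ ρ σ k hk hkn hχ hχ1 hρ hρχ hσ _ _ B hB hBB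
  have hN2 : (2 : ℝ) ≤ N := by exact_mod_cast hN
  have hn1 : (1 : ℝ) ≤ n := by exact_mod_cast hn
  have hX1 : 1 ≤ (n : ℝ) * N := by nlinarith
  have hX2 : 2 ≤ (n : ℝ) * N := by nlinarith
  set Λ : ℝ := ((n : ℝ) * N) ^ (4 : ℕ) with hΛ
  have hpow : ((n : ℝ) * N) ^ (4 * (C1 : ℝ)) = Λ ^ C1 := by
    rw [hΛ, ← pow_mul, ← Real.rpow_natCast]
    congr 1
    push_cast
    ring
  have hXΛ : (n : ℝ) * N ≤ Λ := le_self_pow₀ hX1 (by norm_num)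
  have hΛ2 : 2 ≤ Λ := hX2.trans hXΛ
  have hNΛ : (N : ℝ) ≤ Λ := le_trans (by nlinarith) hXΛ
  rw [hpow] at hρχ ⊢
  refine H h Λ χ ρ σ (1 / (2 * (n : ℝ) ^ 3)) k u c A1 A2 B hh ?_ hΛ2 hk ?_ ?_ hχ hχ1 hρ hρχ hσ hB ?_
  · intro a b
    refine (hHol a b).trans ?_
    exact mul_le_mul_of_nonneg_right hNΛ (by positivity)
  · have : (k : ℝ) ≤ n := by exact_mod_cast hkn
    refine this.trans (le_trans ?_ hXΛ)
    nlinarith
  · apply one_div_le_one_div_of_le (by positivity)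
    rw [hΛ, mul_pow]
    have h1 : (n : ℝ) ^ 3 ≤ (n : ℝ) ^ 4 := pow_le_pow_right₀ hn1 (by norm_num)
    have h2 : (2 : ℝ) ≤ (N : ℝ) ^ 4 := hN2.trans (le_self_pow₀ (by linarith) (by norm_num))
    have h3 : (0 : ℝ) < (n : ℝ) ^ 3 := by positivity
    nlinarith
  · intro A hA
    obtain ⟨a1, a2, a3, a4⟩ := hBB A hA
    refine ⟨a1, a2, ?_, a4⟩
    intro a b hb hab
    have := a3 a (a + b) (by omega) hab
    rwa [Nat.add_sub_cancel_left] at this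

theorem q3Bound : ∃ CQ : ℝ, 1 ≤ CQ ∧ Q3Bound CQ := by
  obtain ⟨C, hC, H⟩ := Q3
  have hN00 : (0 : ℝ) ≤ N0 := by positivity
  have hC1 : (1 : ℝ) ≤ C := by exact_mod_cast hC
  refine ⟨C + N0, by linarith, ?_⟩
  intro N n hN hn k hk hkn y χ hy hyN hχ
  have hNN0 : N0 ≤ N := by
    have : (N0 : ℝ) ≤ N := by linarith
    exact_mod_cast this
  have hN1 : (1 : ℝ) ≤ N := by linarith
  have hn1 : (1 : ℝ) ≤ n := by exact_mod_cast hn
  have hX1 : 1 ≤ (n : ℝ) * N := by nlinarith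
  refine le_trans (measure_mono ?_) ((H hNN0 hk hkn hy hyN hχ).trans (ENNReal.ofReal_le_ofReal ?_))
  · rintro w ⟨h1, h2, h3, h4⟩
    refine ⟨h1, h2, h3, ?_⟩
    unfold QMall at h4
    push Not at h4
    obtain ⟨a, b, hab, hbk, hq⟩ := h4
    exact ⟨a, b - a, by omega, by omega, hq⟩
  · have h1 : ((n : ℝ) * N) ^ C ≤ ((n : ℝ) * N) ^ ((C : ℝ) + N0) := by
      rw [← Real.rpow_natCast]
      exact Real.rpow_le_rpow_of_exponent_le hX1 (by linarith)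
    have h2 : 0 < y ^ (-al) := Real.rpow_pos_of_pos hy _
    gcongr

/-- **(N1), final form** -/
theorem N1_final : ∃ C : ℝ, 1 ≤ C ∧ ∀ N n : ℕ, C ≤ N → ∀ l : ℕ, 2 ≤ l → l ≤ n →
      ∀ y : ℝ, 0 < y → y ≤ ((n : ℝ) * N) ^ (-C) →
      Pr N {w | Coin (1 / (n : ℝ) ^ 3) y (y ^ ((16 : ℝ) / 15)) l (hw N w.1) w.2} ≤
        ENNReal.ofReal (((n : ℝ) * N) ^ C * y ^ ((1 : ℝ) / 6400)) := by
  obtain ⟨CV, hCV, hV⟩ := vCover
  obtain ⟨CQ, hCQ, hQ⟩ := q3Bound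
  exact n1 hCV hCQ hV slopeBound hQ shiftBound (fun N hN ω => isTab_hw hN ω)
    (fun N hN s y σ χ m k => measurableSet_PN hN s y σ χ m k)
    (fun N hN s y χ k => measurableSet_PQ hN s y χ k)

/-- **(N3)**: no returns.  The constant `C` also dominates the threshold `N0`. -/
theorem N3_final : ∃ C : ℝ, 1 ≤ C ∧ (N0 : ℝ) ≤ C ∧ ∀ N n : ℕ, C ≤ N → 1 ≤ n →
      Pr N {w | w.2 ∈ dom (hw N w.1) ∧ Temp (hw N w.1) w.2 (1 / (n : ℝ) ^ 3) n ∧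
        ¬ Iso (hw N w.1) w.2 (exp (-(C * (n : ℝ) ^ ((1 : ℝ) / 4) * log N))) n} ≤
      ENNReal.ofReal (1 / (n : ℝ) ^ 4) := by
  obtain ⟨C1, hC1, H1⟩ := N1_final
  obtain ⟨C, hC, H⟩ := n3 hC1 shiftBound (fun N hN ω => isTab_hw hN ω) H1
    (fun N hN s y σ l => measurableSet_Coin hN s y σ l)
  have hN00 : (0 : ℝ) ≤ N0 := by positivity
  refine ⟨C + N0, by linarith, by linarith, ?_⟩
  intro N n hN hn
  refine le_trans (measure_mono ?_) (H N n (by linarith) hn)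
  rintro w ⟨h1, h2, h3⟩
  refine ⟨h1, h2, fun hI => h3 ?_⟩
  intro i j hij hjn
  refine lt_of_le_of_lt ?_ (hI i j hij hjn)
  apply exp_le_exp.2
  have hlog : 0 ≤ log N := Real.log_nonneg (by linarith)
  have : 0 ≤ (n : ℝ) ^ ((1 : ℝ) / 4) * log N := by positivity
  nlinarith

end BilEnt
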