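import Pool.Agent.BilEnt.D01
import Pool.Agent.BilEnt.D02
import Pool.Agent.BilEnt.N13

/-!
# MP_bd32bb_an : part D, module D03: (D1), tail of the defect
-/

open MeasureTheory Real
open scoped ENNReal

namespace BilEnt

/-- a grazing collision before time `k` is rare -/
theorem d_notTemp {N : ℕ} (hN : N0 ≤ N) {s : ℝ} (hs : 0 ≤ s) (k : ℕ) :
    Pr N {y | y.2 ∈ dom (hw N y.1) ∧ ¬ Temp (hw N y.1) y.2 s k} ≤
      ENNReal.ofReal ((k + 1) * (21 * s ^ 2)) := by
  have hsub : {y : Yt | y.2 ∈ dom (hw N y.1) ∧ ¬ Temp (hw N y.1) y.2 s k} ⊆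
      ⋃ t ∈ Finset.range (k + 1),
        {y : Yt | y.2 ∈ dom (hw N y.1) ∧ stt (hw N y.1) (pth (hw N y.1) y.2 t) < s} := by
    rintro y ⟨h1, h2⟩
    unfold Temp at h2
    push Not at h2
    obtain ⟨t, ht, h3⟩ := h2
    simp only [Set.mem_iUnion]
    exact ⟨t, Finset.mem_range.2 (by omega), h1, h3⟩
  refine (measure_mono hsub).trans ((measure_biUnion_finset_le _ _).trans ?_)
  have h1 : ∀ t ∈ Finset.range (k + 1),
      Pr N {y : Yt | y.2 ∈ dom (hw N y.1) ∧ stt (hw N y.1) (pth (hw N y.1) y.2 t) < s} ≤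
        ENNReal.ofReal (21 * s ^ 2) := by
    intro t _
    refine (shiftBound N hN t (fun h z => stt h z < s)
      (measurableSet_lt (measurable_stt_hw hN) measurable_const) ?_).trans (d_Pr_stt hN hs)
    intro h hh z _
    simp only [stt_add_tau hh]
  refine (Finset.sum_le_card_nsmul _ _ _ h1).trans ?_
  rw [Finset.card_range, nsmul_eq_mul, show ((k : ℝ) + 1) = ((k + 1 : ℕ) : ℝ) by push_cast; ring,
    ENNReal.ofReal_mul (p := ((k + 1 : ℕ) : ℝ)) (by positivity), ENNReal.ofReal_natCast]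

/-- the abstract cocycle matrix along an orbit of the phase space -/
theorem d_MM_it {N : ℕ} (hN : N0 ≤ N) {y : Yt} (hy : y.2 ∈ X0 (hw N y.1)) (t : ℕ) :
    MM N ((TT N)^[t] y) = Ms (hw N y.1) y.2 t := by
  obtain ⟨j, hj, hm⟩ := TT_iter hN hy t
  rw [hj] at hm ⊢
  have hp : pth (hw N y.1) y.2 t ∈ dom (hw N y.1) := pth_mem (isTab_hw hN y.1) hy.1 t
  unfold MM
  simp only at hm
  simp only [hm, if_true]
  exact R11_aux.Mc_int (isTab_hw hN y.1) j hp

/-- the measure of a large defect is bounded by the measures of the three bad events -/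
theorem d_split {N : ℕ} (hN : N0 ≤ N) (n : ℕ) {x s r : ℝ} (hx : 1 ≤ x) :
    Pr N {y | x < Dn (TT N) (TTi N) (MM N) n y} ≤
      Pr N {y | y.2 ∈ dom (hw N y.1) ∧ ¬ Temp (hw N y.1) y.2 s (2 * n)} +
      (Pr N {y | y.2 ∈ dom (hw N y.1) ∧ Temp (hw N y.1) y.2 s (2 * n) ∧
        ¬ Iso (hw N y.1) y.2 r (2 * n)} +
      Pr N {y | y.2 ∈ dom (hw N y.1) ∧ Temp (hw N y.1) y.2 s (2 * n) ∧
        Iso (hw N y.1) y.2 r (2 * n) ∧ ∃ a b, 1 ≤ b ∧ a + b ≤ 2 * n ∧
          ¬ QMs (fun t => Ms (hw N y.1) y.2 (a + t)) (4 * exp (-x)) b}) := by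
  have hD : Measurable (fun y => Dn (TT N) (TTi N) (MM N) n y) :=
    s_meas_Dn (measurable_TT hN) (measurable_TTi hN) (measurable_MM hN) n
  have hS : MeasurableSet {y | x < Dn (TT N) (TTi N) (MM N) n y} :=
    measurableSet_lt measurable_const hD
  have h1 := ((mp_TT hN).iterate n).measure_preimage hS.nullMeasurableSet
  rw [← h1]
  refine le_trans (measure_mono_ae ?_) ((measure_union_le _ _).trans
    (add_le_add le_rfl (measure_union_le _ _)))
  filter_upwards [ae_mem_X0 hN] with y hy hxy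
  have hxy' : x < Dn (TT N) (TTi N) (MM N) n ((TT N)^[n] y) := hxy
  obtain ⟨a, b, hb, hab, hq⟩ := d_Dn_orbit (TTi_TT hN) (det_MM N) hx hxy'
  have e : (fun t => MM N ((TT N)^[a + t] y)) = fun t => Ms (hw N y.1) y.2 (a + t) :=
    funext fun t => d_MM_it hN hy (a + t)
  rw [e] at hq
  by_cases hT : Temp (hw N y.1) y.2 s (2 * n)
  · by_cases hI : Iso (hw N y.1) y.2 r (2 * n)
    · exact Or.inr (Or.inr ⟨hy.1, hT, hI, a, b, hb, hab, hq⟩)
    · exact Or.inr (Or.inl ⟨hy.1, hT, hI⟩)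
  · exact Or.inl ⟨hy.1, hT⟩

/-- numerical part of (D1) -/
theorem d_arith {c x : ℝ} {C m N : ℕ} (hc : 2 ≤ c) (hm : 1 ≤ m) (hN : 3 ≤ N) :
    ((m : ℝ) * N) ^ C * (4 * exp (-x)) *
      (exp (-(c * ((m : ℝ) ^ ((1 : ℝ) / 4) * log N)))) ^ (-al) ≤
      exp ((5 * C + c + 2) * ((m : ℝ) ^ ((1 : ℝ) / 4) * log N) - x) := by
  have hm1 : (1 : ℝ) ≤ m := by exact_mod_cast hm
  have hN3 : (3 : ℝ) ≤ N := by exact_mod_cast hN
  have hlogN : 1 ≤ log N := by
    rw [Real.le_log_iff_exp_le (by linarith)]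
    have := Real.exp_one_lt_d9
    linarith
  set q : ℝ := (m : ℝ) ^ ((1 : ℝ) / 4) with hq
  have hq1 : 1 ≤ q := Real.one_le_rpow hm1 (by norm_num)
  set X := q * log N with hX
  have hX1 : 1 ≤ X := by rw [hX]; nlinarith
  have hlogm : log m ≤ 4 * X := by
    have h1 : log m = 4 * log q := by
      rw [hq, Real.log_rpow (by linarith)]
      ring
    have h2 : log q ≤ q - 1 := Real.log_le_sub_one_of_pos (by linarith)
    have h3 : q ≤ X := by rw [hX]; nlinarith
    linarith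
  have hlogN' : log N ≤ X := by rw [hX]; nlinarith
  have e1 : ((m : ℝ) * N) ^ C ≤ exp (5 * C * X) := by
    rw [← Real.log_le_log_iff (by positivity) (exp_pos _), Real.log_exp, Real.log_pow,
      Real.log_mul (by positivity) (by positivity)]
    have : (0 : ℝ) ≤ C := by positivity
    nlinarith
  have e2 : (exp (-(c * X))) ^ (-al) ≤ exp (c * X) := by
    rw [← Real.exp_mul]
    apply exp_le_exp.2
    unfold al
    have : 0 ≤ c * X := by positivity
    nlinarith
  have e3 : (4 : ℝ) ≤ exp (2 * X) := by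
    have h1 : exp 2 ≤ exp (2 * X) := exp_le_exp.2 (by linarith)
    have h2 : (4 : ℝ) ≤ exp 2 := by
      have h3 := Real.exp_one_gt_d9
      rw [show (2 : ℝ) = 1 + 1 by norm_num, Real.exp_add]
      nlinarith
    linarith
  have p1 : (0 : ℝ) < ((m : ℝ) * N) ^ C := by positivity
  calc ((m : ℝ) * N) ^ C * (4 * exp (-x)) * (exp (-(c * X))) ^ (-al)
      ≤ exp (5 * C * X) * (exp (2 * X) * exp (-x)) * exp (c * X) := by
        gcongr
    _ = exp ((5 * C + c + 2) * X - x) := by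
        rw [← Real.exp_add, ← Real.exp_add, ← Real.exp_add]
        congr 1
        ring

/-- **(D1)** -/
theorem D1 : ∃ C N1 : ℝ, 1 ≤ C ∧ (N0 : ℝ) ≤ N1 ∧ ∀ N : ℕ, N1 ≤ N → ∀ n : ℕ, 1 ≤ n → ∀ x : ℝ, 0 < x →
    Pr N {y | x < Dn (TT N) (TTi N) (MM N) n y} ≤
      ENNReal.ofReal (C * (n : ℝ) ^ (-(4 : ℝ)) +
        exp (C * (n : ℝ) ^ ((1 : ℝ) / 4) * log N - x)) := by
  obtain ⟨C0, hC0, hC0N, hN3⟩ := N3_final
  obtain ⟨CQ, hCQ, hQ3⟩ := Q3
  set c : ℝ := max C0 2 with hc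
  have hc2 : 2 ≤ c := le_max_right _ _
  have hcC : C0 ≤ c := le_max_left _ _
  have hCQ0 : (0 : ℝ) ≤ CQ := by positivity
  refine ⟨43 + 2 * (5 * CQ + c + 2), C0 + 3, by linarith, by linarith, ?_⟩
  intro N hNN n hn x hx
  have hN0 : N0 ≤ N := by
    have : (N0 : ℝ) ≤ N := by linarith
    exact_mod_cast this
  have hN3' : 3 ≤ N := by
    have : (3 : ℝ) ≤ N := by linarith
    exact_mod_cast this
  have hNr : (3 : ℝ) ≤ N := by exact_mod_cast hN3'
  have hn1 : (1 : ℝ) ≤ n := by exact_mod_cast hn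
  have hlogN : 1 ≤ log N := by
    rw [Real.le_log_iff_exp_le (by linarith)]
    have := Real.exp_one_lt_d9
    linarith
  set q : ℝ := (n : ℝ) ^ ((1 : ℝ) / 4) with hq
  have hq1 : 1 ≤ q := Real.one_le_rpow hn1 (by norm_num)
  have hqN : 1 ≤ q * log N := by nlinarith
  set C : ℝ := 43 + 2 * (5 * CQ + c + 2) with hC
  have hn4 : 0 ≤ (n : ℝ) ^ (-(4 : ℝ)) := by positivity
  rcases lt_or_ge x 1 with hx1 | hx1
  · refine (measure_mono (Set.subset_univ _)).trans ((Pr_univ_le hN0).trans ?_)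
    apply ENNReal.ofReal_le_ofReal
    have h1 : (13 : ℝ) ≤ exp (C * q * log N - x) := by
      have h2 := Real.add_one_le_exp (C * q * log N - x)
      have h3 : 43 ≤ C * q * log N := by
        rw [mul_assoc]
        nlinarith
      linarith
    have h4 : 0 ≤ C * (n : ℝ) ^ (-(4 : ℝ)) := by positivity
    linarith
  · set m : ℕ := 2 * n with hm
    have hmr : (m : ℝ) = 2 * n := by rw [hm]; push_cast; ring
    have hm1 : 1 ≤ m := by omega
    have hm1r : (1 : ℝ) ≤ m := by exact_mod_cast hm1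
    set Q : ℝ := (m : ℝ) ^ ((1 : ℝ) / 4) with hQ
    have hQ1 : 1 ≤ Q := Real.one_le_rpow hm1r (by norm_num)
    have hQq : Q ≤ 2 * q := by
      rw [hQ, hmr, Real.mul_rpow (by norm_num) (by linarith)]
      have : (2 : ℝ) ^ ((1 : ℝ) / 4) ≤ 2 ^ (1 : ℝ) :=
        Real.rpow_le_rpow_of_exponent_le (by norm_num) (by norm_num)
      rw [Real.rpow_one] at this
      gcongr
    set r : ℝ := exp (-(c * (Q * log N))) with hr
    have hr0 : 0 < r := exp_pos _
    have hrN : r ≤ 1 / (N : ℝ) ^ 2 := by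
      have h1 : (1 : ℝ) / (N : ℝ) ^ 2 = exp (-(2 * log N)) := by
        rw [Real.exp_neg, show 2 * log N = log ((N : ℝ) ^ 2) by rw [Real.log_pow]; push_cast; ring,
          Real.exp_log (by positivity), one_div]
      rw [h1, hr]
      apply exp_le_exp.2
      have : 2 * log N ≤ c * (Q * log N) := by
        have h3 : log N ≤ Q * log N := by nlinarith
        nlinarith
      linarith
    have hrC : r ≤ exp (-(C0 * Q * log N)) := by
      apply exp_le_exp.2
      have : 0 ≤ Q * log N := by positivity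
      nlinarith
    refine (d_split hN0 n (s := 1 / (m : ℝ) ^ 3) (r := r) hx1).trans ?_
    rw [← hm]
    have b1 := d_notTemp hN0 (s := 1 / (m : ℝ) ^ 3) (by positivity) m
    have b2 : Pr N {y | y.2 ∈ dom (hw N y.1) ∧ Temp (hw N y.1) y.2 (1 / (m : ℝ) ^ 3) m ∧
        ¬ Iso (hw N y.1) y.2 r m} ≤ ENNReal.ofReal (1 / (m : ℝ) ^ 4) := by
      refine le_trans (measure_mono ?_) (hN3 N m (by linarith) hm1)
      rintro y ⟨h1, h2, h3⟩
      refine ⟨h1, h2, fun hI => h3 ?_⟩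
      intro i j hij hj
      exact lt_of_le_of_lt hrC (hI i j hij hj)
    have b3 := hQ3 (N := N) (n := m) (k := m) hN0 hm1 le_rfl hr0 hrN
      (χ := 4 * exp (-x)) (by positivity)
    refine (add_le_add b1 (add_le_add b2 b3)).trans ?_
    rw [← ENNReal.ofReal_add (by positivity) (by positivity),
      ← ENNReal.ofReal_add (by positivity) (by positivity)]
    apply ENNReal.ofReal_le_ofReal
    have c3 := d_arith (c := c) (x := x) (C := CQ) (m := m) (N := N) hc2 hm1 hN3'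
    have c4 : exp ((5 * CQ + c + 2) * (Q * log N) - x) ≤ exp (C * q * log N - x) := by
      apply exp_le_exp.2
      have h1 : (5 * CQ + c + 2) * (Q * log N) ≤ (5 * CQ + c + 2) * (2 * q * log N) := by
        have : (0 : ℝ) ≤ 5 * CQ + c + 2 := by positivity
        gcongr
      have h2 : 0 ≤ q * log N := by positivity
      rw [hC]
      nlinarith
    have c1 : ((m : ℝ) + 1) * (21 * (1 / (m : ℝ) ^ 3) ^ 2) + 1 / (m : ℝ) ^ 4 ≤
        43 * (n : ℝ) ^ (-(4 : ℝ)) := by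
      have h1 : (n : ℝ) ^ (-(4 : ℝ)) = 1 / (n : ℝ) ^ 4 := by
        rw [Real.rpow_neg (by linarith), one_div]
        norm_cast
      have h2 : ((m : ℝ) + 1) * (21 * (1 / (m : ℝ) ^ 3) ^ 2) ≤ 42 * (1 / (m : ℝ) ^ 4) := by
        have h3 : (1 / (m : ℝ) ^ 3) ^ 2 = 1 / (m : ℝ) ^ 4 * (1 / (m : ℝ) ^ 2) := by
          field_simp
        rw [h3]
        have h4 : ((m : ℝ) + 1) * (1 / (m : ℝ) ^ 2) ≤ 2 := by
          rw [mul_one_div, div_le_iff₀ (by positivity)]
          nlinarith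
        have h5 : 0 ≤ 1 / (m : ℝ) ^ 4 := by positivity
        nlinarith
      have h6 : 1 / (m : ℝ) ^ 4 ≤ 1 / (n : ℝ) ^ 4 := by
        apply one_div_le_one_div_of_le (by positivity)
        apply pow_le_pow_left₀ (by linarith)
        rw [hmr]
        linarith
      rw [h1]
      linarith
    have c5 : 43 * (n : ℝ) ^ (-(4 : ℝ)) ≤ C * (n : ℝ) ^ (-(4 : ℝ)) := by
      have : 43 ≤ C := by rw [hC]; linarith
      gcongr
    linarith

end BilEnt
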