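import Pool.Agent.BilEnt.D03
import Pool.Agent.BilEnt.B15Int
import Pool.Agent.BilEnt.S06

/-!
# MP_bd32bb_an : part D, module D04: the mean defect
-/

open MeasureTheory Real
open scoped ENNReal

namespace BilEnt

theorem d_int_comp {Y : Type*} [MeasurableSpace Y] {μ : Measure Y} {φ : Y → Y}
    (hφ : MeasurePreserving φ μ μ) {f : Y → ℝ} (hf : Integrable f μ) :
    Integrable (fun y => f (φ y)) μ ∧ ∫ y, f (φ y) ∂μ = ∫ y, f y ∂μ := by
  refine ⟨hφ.integrable_comp_of_integrable hf, ?_⟩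
  have h1 : AEStronglyMeasurable f (Measure.map φ μ) := by
    rw [hφ.map_eq]; exact hf.aestronglyMeasurable
  have h2 := integral_map (μ := μ) hφ.measurable.aemeasurable h1
  rw [hφ.map_eq] at h2
  exact h2.symm

theorem d_intG {Y : Type*} [MeasurableSpace Y] {μ : Measure Y} [IsFiniteMeasure μ] {E : Set Y}
    (hE : MeasurableSet E) {S : Y → ℝ} (hS : Integrable S μ) (a b c : ℝ) :
    Integrable (fun y => a + b * E.indicator (fun _ => (1 : ℝ)) y + c * S y) μ ∧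
    ∫ y, (a + b * E.indicator (fun _ => (1 : ℝ)) y + c * S y) ∂μ =
      a * (μ Set.univ).toReal + b * (μ E).toReal + c * ∫ y, S y ∂μ := by
  have iInd : Integrable (fun y => b * E.indicator (fun _ => (1 : ℝ)) y) μ :=
    ((integrable_const (1 : ℝ)).indicator hE).const_mul _
  have i1 : Integrable (fun y => a + b * E.indicator (fun _ => (1 : ℝ)) y) μ :=
    (integrable_const a).add iInd
  have i2 : Integrable (fun y => c * S y) μ := hS.const_mul c
  refine ⟨i1.add i2, ?_⟩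
  rw [integral_add i1 i2, integral_add (integrable_const a) iInd, integral_const_mul,
    integral_const_mul, integral_indicator hE, setIntegral_const, integral_const]
  simp only [smul_eq_mul, mul_one, Measure.real]
  ring

theorem d_key {lam t : ℝ} (hlam : 0 < lam) (ht : 0 ≤ t) : t ≤ lam + 1 / lam * t ^ 2 := by
  have h1 : 1 / lam * t ^ 2 = t ^ 2 / lam := by ring
  rw [h1]
  rcases le_total t lam with h2 | h2
  · have : 0 ≤ t ^ 2 / lam := by positivity
    linarith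
  · have : t ≤ t ^ 2 / lam := by
      rw [le_div_iff₀ hlam]
      nlinarith
    linarith

theorem d_sum_key {lam : ℝ} (hlam : 0 < lam) {f : ℕ → ℝ} (hf : ∀ i, 0 ≤ f i) (k : ℕ) :
    ∑ i ∈ Finset.range k, f i ≤ k * lam + 1 / lam * ∑ i ∈ Finset.range k, f i ^ 2 := by
  have h3 : ∑ i ∈ Finset.range k, f i ≤ ∑ i ∈ Finset.range k, (lam + 1 / lam * f i ^ 2) :=
    Finset.sum_le_sum fun i _ => d_key hlam (hf i)
  rw [Finset.sum_add_distrib, ← Finset.mul_sum, Finset.sum_const, Finset.card_range,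
    nsmul_eq_mul] at h3
  exact h3

theorem d_sum_nat (n : ℕ) : ∑ l' ∈ Finset.range (n + 1), (l' : ℝ) ≤ (n : ℝ) ^ 2 := by
  rw [Finset.sum_range_succ']
  have h2 : ∑ k ∈ Finset.range n, ((k + 1 : ℕ) : ℝ) ≤ ∑ _k ∈ Finset.range n, (n : ℝ) := by
    refine Finset.sum_le_sum fun k hk => ?_
    have := Finset.mem_range.1 hk
    exact_mod_cast (by omega : k + 1 ≤ n)
  rw [Finset.sum_const, Finset.card_range, nsmul_eq_mul] at h2
  push_cast at h2 ⊢
  nlinarith

/-- pointwise bound of the defect -/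
theorem d_point {Y : Type*} {T Ti : Y → Y} {M : Y → Matrix (Fin 2) (Fin 2) ℝ}
    (hdet : ∀ y, (M y).det = 1) (n : ℕ) (hn : 1 ≤ n) {lam : ℝ} (hlam : 0 < lam) (y : Y) :
    Dn T Ti M n y ≤ 2 + 2 * (n : ℝ) ^ 2 * lam + 1 / lam *
      (∑ i ∈ Finset.range n, log (fn (M (T^[i] y))) ^ 2 +
        ∑ l' ∈ Finset.range (n + 1), ∑ i ∈ Finset.range l',
          log (fn (M (T^[i] (Ti^[l'] y)))) ^ 2) := by
  have hn1 : (1 : ℝ) ≤ n := by exact_mod_cast hn
  have h1 := s_Dn_le_sum (T := T) (Ti := Ti) hdet n y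
  have h2 := d_sum_key hlam (f := fun i => log (fn (M (T^[i] y))))
    (fun i => s_l_nonneg hdet _) n
  have h4 : ∑ l' ∈ Finset.range (n + 1), ∑ i ∈ Finset.range l',
      log (fn (M (T^[i] (Ti^[l'] y)))) ≤ (n : ℝ) ^ 2 * lam + 1 / lam *
        ∑ l' ∈ Finset.range (n + 1), ∑ i ∈ Finset.range l',
          log (fn (M (T^[i] (Ti^[l'] y)))) ^ 2 := by
    have h5 : ∀ l' ∈ Finset.range (n + 1), ∑ i ∈ Finset.range l',
        log (fn (M (T^[i] (Ti^[l'] y)))) ≤ l' * lam + 1 / lam *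
          ∑ i ∈ Finset.range l', log (fn (M (T^[i] (Ti^[l'] y)))) ^ 2 := fun l' _ =>
      d_sum_key hlam (f := fun i => log (fn (M (T^[i] (Ti^[l'] y)))))
        (fun i => s_l_nonneg hdet _) l'
    refine (Finset.sum_le_sum h5).trans ?_
    rw [Finset.sum_add_distrib, ← Finset.mul_sum, ← Finset.sum_mul]
    have h7 := mul_le_mul_of_nonneg_right (d_sum_nat n) hlam.le
    linarith
  have h8 : (n : ℝ) * lam ≤ (n : ℝ) ^ 2 * lam := by
    apply mul_le_mul_of_nonneg_right _ hlam.le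
    nlinarith
  generalize (∑ i ∈ Finset.range n, log (fn (M (T^[i] y))) ^ 2) = a1 at *
  generalize (∑ l' ∈ Finset.range (n + 1), ∑ i ∈ Finset.range l',
    log (fn (M (T^[i] (Ti^[l'] y)))) ^ 2) = a2 at *
  generalize (∑ i ∈ Finset.range n, log (fn (M (T^[i] y)))) = a3 at *
  generalize (∑ l' ∈ Finset.range (n + 1), ∑ i ∈ Finset.range l',
    log (fn (M (T^[i] (Ti^[l'] y))))) = a4 at *
  generalize Dn T Ti M n y = a5 at *
  rw [mul_add (1 / lam)]
  linarith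

theorem d_case {E : Prop} [Decidable E] {d x0 B S ind : ℝ} (hx0 : 0 ≤ x0) (hS : 0 ≤ S)
    (h1 : E → ind = 1) (h0 : ¬ E → ind = 0) (hd : d ≤ B + S) (hd0 : ¬ E → d ≤ x0) :
    d ≤ x0 + B * ind + S := by
  by_cases hE : E
  · rw [h1 hE]; linarith
  · rw [h0 hE]
    have := hd0 hE
    linarith

/-- abstract bound of the mean defect -/
theorem d_mean {Y : Type*} [MeasurableSpace Y] {μ : Measure Y} {T Ti : Y → Y}
    {M : Y → Matrix (Fin 2) (Fin 2) ℝ} (h : SSys μ T Ti M)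
    (hl : Integrable (fun y => log (fn (M y))) μ)
    (hl2 : Integrable (fun y => log (fn (M y)) ^ 2) μ) (n : ℕ) (hn : 1 ≤ n) {x0 : ℝ} (hx0 : 0 ≤ x0)
    {lam : ℝ} (hlam : 0 < lam) :
    ∫ y, Dn T Ti M n y ∂μ ≤ x0 * (μ Set.univ).toReal +
      (2 + 2 * (n : ℝ) ^ 2 * lam) * (μ {y | x0 < Dn T Ti M n y}).toReal +
      2 * (n : ℝ) ^ 2 / lam * ∫ y, log (fn (M y)) ^ 2 ∂μ := by
  classical
  have hfin := h.fin
  have hn1 : (1 : ℝ) ≤ n := by exact_mod_cast hn
  have hEm : MeasurableSet {y | x0 < Dn T Ti M n y} :=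
    measurableSet_lt measurable_const (s_meas_Dn h.mT.measurable h.mTi.measurable h.mM n)
  have hL20 : 0 ≤ ∫ y, log (fn (M y)) ^ 2 ∂μ := integral_nonneg fun y => sq_nonneg _
  have c1 : ∀ i, Integrable (fun y => log (fn (M (T^[i] y))) ^ 2) μ ∧
      ∫ y, log (fn (M (T^[i] y))) ^ 2 ∂μ = ∫ y, log (fn (M y)) ^ 2 ∂μ :=
    fun i => d_int_comp (h.mT.iterate i) hl2
  have c2 : ∀ i l', Integrable (fun y => log (fn (M (T^[i] (Ti^[l'] y)))) ^ 2) μ ∧
      ∫ y, log (fn (M (T^[i] (Ti^[l'] y)))) ^ 2 ∂μ = ∫ y, log (fn (M y)) ^ 2 ∂μ := by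
    intro i l'
    have h1 := d_int_comp (h.mTi.iterate l') (c1 i).1
    exact ⟨h1.1, h1.2.trans (c1 i).2⟩
  have iS1 : Integrable (fun y => ∑ i ∈ Finset.range n, log (fn (M (T^[i] y))) ^ 2) μ :=
    integrable_finsetSum _ fun i _ => (c1 i).1
  have iS2 : Integrable (fun y => ∑ l' ∈ Finset.range (n + 1), ∑ i ∈ Finset.range l',
      log (fn (M (T^[i] (Ti^[l'] y)))) ^ 2) μ := integrable_finsetSum _ fun l' _ =>
    integrable_finsetSum _ fun i _ => (c2 i l').1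
  have vS1 : ∫ y, ∑ i ∈ Finset.range n, log (fn (M (T^[i] y))) ^ 2 ∂μ =
      n * ∫ y, log (fn (M y)) ^ 2 ∂μ := by
    rw [integral_finsetSum _ fun i _ => (c1 i).1]
    rw [Finset.sum_congr rfl fun i _ => (c1 i).2]
    rw [Finset.sum_const, Finset.card_range, nsmul_eq_mul]
  have vS2 : ∫ y, ∑ l' ∈ Finset.range (n + 1), ∑ i ∈ Finset.range l',
      log (fn (M (T^[i] (Ti^[l'] y)))) ^ 2 ∂μ ≤ (n : ℝ) ^ 2 * ∫ y, log (fn (M y)) ^ 2 ∂μ := by
    rw [integral_finsetSum _ fun l' _ => integrable_finsetSum _ fun i _ => (c2 i l').1]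
    have h1 : ∀ l' ∈ Finset.range (n + 1),
        ∫ y, ∑ i ∈ Finset.range l', log (fn (M (T^[i] (Ti^[l'] y)))) ^ 2 ∂μ =
          (l' : ℝ) * ∫ y, log (fn (M y)) ^ 2 ∂μ := by
      intro l' _
      rw [integral_finsetSum _ fun i _ => (c2 i l').1]
      rw [Finset.sum_congr rfl fun i _ => (c2 i l').2]
      rw [Finset.sum_const, Finset.card_range, nsmul_eq_mul]
    rw [Finset.sum_congr rfl h1, ← Finset.sum_mul]
    exact mul_le_mul_of_nonneg_right (d_sum_nat n) hL20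
  obtain ⟨iG, vG⟩ := d_intG hEm (iS1.add iS2) x0 (2 + 2 * (n : ℝ) ^ 2 * lam) (1 / lam)
  have hmono : ∫ y, Dn T Ti M n y ∂μ ≤ _ := integral_mono (s_int_Dn h hl n) iG (by
    intro y
    refine d_case (E := y ∈ {y | x0 < Dn T Ti M n y}) hx0 ?_ (fun hy => ?_) (fun hy => ?_)
      (d_point (T := T) (Ti := Ti) h.det n hn hlam y) (fun hy => not_lt.1 hy)
    · exact mul_nonneg (by positivity) (add_nonneg
        (Finset.sum_nonneg fun i _ => sq_nonneg _)
        (Finset.sum_nonneg fun l' _ => Finset.sum_nonneg fun i _ => sq_nonneg _))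
    · exact Set.indicator_of_mem hy _
    · exact Set.indicator_of_notMem hy _)
  refine hmono.trans ?_
  rw [vG]
  have e3 := integral_add iS1 iS2
  simp only [Pi.add_apply] at e3 ⊢
  rw [e3, vS1]
  generalize (∫ y, ∑ l' ∈ Finset.range (n + 1), ∑ i ∈ Finset.range l',
      log (fn (M (T^[i] (Ti^[l'] y)))) ^ 2 ∂μ) = a2 at *
  generalize (∫ y, log (fn (M y)) ^ 2 ∂μ) = L2 at *
  have h9 : (n : ℝ) * L2 ≤ (n : ℝ) ^ 2 * L2 := by
    apply mul_le_mul_of_nonneg_right _ hL20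
    nlinarith
  have h10 : 1 / lam * (n * L2 + a2) ≤ 2 * (n : ℝ) ^ 2 / lam * L2 := by
    have h11 : 2 * (n : ℝ) ^ 2 / lam * L2 = 1 / lam * (2 * (n : ℝ) ^ 2 * L2) := by ring
    rw [h11]
    apply mul_le_mul_of_nonneg_left _ (by positivity)
    linarith
  exact add_le_add le_rfl h10

/-- the second moment of `log ‖M‖` -/
theorem d_sq_int {N : ℕ} (hN : N0 ≤ N) :
    Integrable (fun y => log (fn (MM N y)) ^ 2) (Pr N) ∧
      ∫ y, log (fn (MM N y)) ^ 2 ∂(Pr N) ≤ 21 * (8 * 10 ^ 5) := by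
  have hm : Measurable (fun y => log (fn (MM N y)) ^ 2) :=
    (Real.measurable_log.comp (s_meas_fn (measurable_MM hN))).pow_const 2
  have h1 := d_sq_log hN
  have hi : Integrable (fun y => log (fn (MM N y)) ^ 2) (Pr N) := by
    refine ⟨hm.aestronglyMeasurable, ?_⟩
    refine lt_of_le_of_lt (le_of_eq ?_) (lt_of_le_of_lt h1 ENNReal.ofReal_lt_top)
    refine lintegral_congr fun y => ?_
    rw [Real.enorm_of_nonneg (sq_nonneg _)]
  refine ⟨hi, ?_⟩
  rw [← ofReal_integral_eq_lintegral_ofReal hi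
    (Filter.Eventually.of_forall fun y => sq_nonneg _)] at h1
  exact (ENNReal.ofReal_le_ofReal_iff (by norm_num)).1 h1

/-- **(D2)** -/
theorem D2 : ∃ C N1 : ℝ, 1 ≤ C ∧ (N0 : ℝ) ≤ N1 ∧ ∀ N : ℕ, N1 ≤ N → ∀ n : ℕ, 1 ≤ n →
    ∫ y, Dn (TT N) (TTi N) (MM N) n y ∂(Pr N) ≤ C * (n : ℝ) ^ ((1 : ℝ) / 4) * log N := by
  obtain ⟨C, N1, hC, hN1, H⟩ := D1
  refine ⟨13 * (C + 16) + 4 * (C + 1) + 2 * (21 * (8 * 10 ^ 5)), N1 + 3, by linarith, by linarith, ?_⟩
  intro N hNN n hn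
  have hN0 : N0 ≤ N := by
    have : (N0 : ℝ) ≤ N := by linarith
    exact_mod_cast this
  have hN00 : (0 : ℝ) ≤ N0 := by positivity
  have hNr : (3 : ℝ) ≤ N := by linarith
  have hn1 : (1 : ℝ) ≤ n := by exact_mod_cast hn
  have hlogN : 1 ≤ log N := by
    rw [Real.le_log_iff_exp_le (by linarith)]
    have := Real.exp_one_lt_d9
    linarith
  set q : ℝ := (n : ℝ) ^ ((1 : ℝ) / 4) with hq
  have hq1 : 1 ≤ q := Real.one_le_rpow hn1 (by norm_num)
  have hqN : 1 ≤ q * log N := by nlinarith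
  set x0 : ℝ := (C + 16) * (q * log N) with hx0
  have hx00 : 0 < x0 := by positivity
  have hsys := ssys_TT hN0
  obtain ⟨i2, v2⟩ := d_sq_int hN0
  have hfin := finite_Pr hN0
  -- the measure of the bad event
  have hE : (Pr N {y | x0 < Dn (TT N) (TTi N) (MM N) n y}).toReal ≤ (C + 1) / (n : ℝ) ^ 4 := by
    have h1 := H N (by linarith) n hn x0 hx00
    have h2 : C * (n : ℝ) ^ (-(4 : ℝ)) + exp (C * q * log N - x0) ≤ (C + 1) / (n : ℝ) ^ 4 := by
      have e1 : (n : ℝ) ^ (-(4 : ℝ)) = 1 / (n : ℝ) ^ 4 := by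
        rw [Real.rpow_neg (by linarith), one_div]
        norm_cast
      have e2 : exp (C * q * log N - x0) ≤ 1 / (n : ℝ) ^ 4 := by
        have h3 : log n ≤ 4 * (q * log N) := by
          have h4 : log n = 4 * log q := by
            rw [hq, Real.log_rpow (by linarith)]
            ring
          have h5 : log q ≤ q - 1 := Real.log_le_sub_one_of_pos (by linarith)
          have h6 : q ≤ q * log N := by nlinarith
          linarith
        have h7 : (1 : ℝ) / (n : ℝ) ^ 4 = exp (-(4 * log n)) := by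
          rw [Real.exp_neg, show 4 * log n = log ((n : ℝ) ^ 4) by rw [Real.log_pow]; push_cast; ring,
            Real.exp_log (by positivity), one_div]
        rw [h7]
        apply exp_le_exp.2
        rw [hx0]
        nlinarith
      rw [e1]
      have e3 : (C + 1) / (n : ℝ) ^ 4 = C * (1 / (n : ℝ) ^ 4) + 1 / (n : ℝ) ^ 4 := by ring
      rw [e3]
      linarith
    have h8 := h1.trans (ENNReal.ofReal_le_ofReal h2)
    have h9 := ENNReal.toReal_mono ENNReal.ofReal_ne_top h8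
    rwa [ENNReal.toReal_ofReal (by positivity)] at h9
  have hU : (Pr N Set.univ).toReal ≤ 13 := by
    have h9 := ENNReal.toReal_mono ENNReal.ofReal_ne_top (Pr_univ_le hN0)
    rwa [ENNReal.toReal_ofReal (by norm_num)] at h9
  have hmain := d_mean hsys (integrable_log_fn_MM hN0) i2 n hn hx00.le
    (lam := (n : ℝ) ^ 2) (by positivity)
  refine hmain.trans ?_
  have t1 : x0 * (Pr N Set.univ).toReal ≤ 13 * (C + 16) * (q * log N) := by
    have := mul_le_mul_of_nonneg_left hU hx00.le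
    rw [hx0] at this ⊢
    linarith
  have t2 : (2 + 2 * (n : ℝ) ^ 2 * (n : ℝ) ^ 2) *
      (Pr N {y | x0 < Dn (TT N) (TTi N) (MM N) n y}).toReal ≤ 4 * (C + 1) := by
    have hn4 : (1 : ℝ) ≤ (n : ℝ) ^ 4 := one_le_pow₀ hn1
    have h1 : (2 + 2 * (n : ℝ) ^ 2 * (n : ℝ) ^ 2) ≤ 4 * (n : ℝ) ^ 4 := by nlinarith
    have h0 : (0 : ℝ) ≤ (Pr N {y | x0 < Dn (TT N) (TTi N) (MM N) n y}).toReal :=
      ENNReal.toReal_nonneg
    calc (2 + 2 * (n : ℝ) ^ 2 * (n : ℝ) ^ 2) *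
        (Pr N {y | x0 < Dn (TT N) (TTi N) (MM N) n y}).toReal
        ≤ (4 * (n : ℝ) ^ 4) * ((C + 1) / (n : ℝ) ^ 4) := mul_le_mul h1 hE h0 (by positivity)
      _ = 4 * (C + 1) := by field_simp
  have t3 : 2 * (n : ℝ) ^ 2 / (n : ℝ) ^ 2 * ∫ y, log (fn (MM N y)) ^ 2 ∂(Pr N) ≤
      2 * (21 * (8 * 10 ^ 5)) := by
    have h1 : 2 * (n : ℝ) ^ 2 / (n : ℝ) ^ 2 = 2 := by field_simp
    rw [h1]
    linarith
  have t4 : 4 * (C + 1) + 2 * (21 * (8 * 10 ^ 5)) ≤
      (4 * (C + 1) + 2 * (21 * (8 * 10 ^ 5))) * (q * log N) := by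
    nlinarith
  have t5 : (13 * (C + 16) + 4 * (C + 1) + 2 * (21 * (8 * 10 ^ 5))) * q * log N =
      13 * (C + 16) * (q * log N) + (4 * (C + 1) + 2 * (21 * (8 * 10 ^ 5))) * (q * log N) := by ring
  rw [t5]
  linarith

end BilEnt
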