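import Mathlib

/-!
# MP_bd32bb_an : convex billiard tables with `C²` boundary, their billiard maps, Liouville measure,
and Kolmogorov–Sinai entropy, in the vocabulary of the problem (all definitions used by the
statement of the final theorem)
-/

open MeasureTheory Real
open scoped ENNReal

namespace BilEnt

noncomputable section

/-- `Y` is a convex billiard table whose boundary is the closed `C²` curve parametrised by arclength
(positive orientation) by the `L`-periodic map `c`, injective on `[0, L)`. -/
structure IsBilliardTable (Y : Set ℂ) (L : ℝ) (c : ℝ → ℂ) : Prop where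
  compact : IsCompact Y
  convex : Convex ℝ Y
  nonempty_interior : (interior Y).Nonempty
  L_pos : 0 < L
  c2 : ContDiff ℝ 2 c
  periodic : Function.Periodic c L
  injOn : Set.InjOn c (Set.Ico 0 L)
  unit_speed : ∀ x, ‖deriv c x‖ = 1
  frontier_eq : frontier Y = Set.range c
  /-- positive orientation: the table lies to the left of every tangent line -/
  left : ∀ x, ∀ y ∈ Y, 0 ≤ (starRingEnd ℂ (deriv c x) * (y - c x)).im

/-- the phase space `∂Y × [0,π]`, the boundary being parametrised by `x ∈ [0, L)` -/
def Phi (L : ℝ) : Set (ℝ × ℝ) := Set.Ico 0 L ×ˢ Set.Icc 0 π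

/-- unit vector at the boundary point `c x` making the angle `θ` with the positive tangent -/
def dirv (c : ℝ → ℂ) (x θ : ℝ) : ℂ := Complex.exp ((θ : ℂ) * Complex.I) * deriv c x

/-- `φ` is the billiard map of the table: it maps the phase space to itself; for `0 < θ < π` the
point moves from `c x` in the direction `θ` on a straight line inside `Y` until it meets the boundary
again at `c x₁`, where its direction `v` is reflected in the tangent line (`v ↦ t² v̄`, `t` the unit
tangent) and `θ₁` is the angle of the reflected direction; the tangential states `θ ∈ {0, π}` are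
fixed. -/
structure IsBilliardMap (Y : Set ℂ) (L : ℝ) (c : ℝ → ℂ) (φ : ℝ × ℝ → ℝ × ℝ) : Prop where
  maps : ∀ z ∈ Phi L, φ z ∈ Phi L
  flight : ∀ x θ, (x, θ) ∈ Phi L → 0 < θ → θ < π →
    ∃ t : ℝ, 0 < t ∧ c (φ (x, θ)).1 = c x + (t : ℂ) * dirv c x θ ∧
      ∀ s : ℝ, 0 < s → s < t → c x + (s : ℂ) * dirv c x θ ∈ interior Y
  reflection : ∀ x θ, (x, θ) ∈ Phi L → 0 < θ → θ < π →
    dirv c (φ (x, θ)).1 (φ (x, θ)).2 =
      (deriv c (φ (x, θ)).1) ^ 2 * starRingEnd ℂ (dirv c x θ)
  tangent : ∀ x θ, (x, θ) ∈ Phi L → θ = 0 ∨ θ = π → φ (x, θ) = (x, θ)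

/-- the Liouville measure `sin θ dx dθ` on the phase space, normalised to a probability measure
(`μ(Φ) = 2L`) -/
def liouville (L : ℝ) : Measure (ℝ × ℝ) :=
  ENNReal.ofReal (1 / (2 * L)) •
    (((volume : Measure (ℝ × ℝ)).restrict (Phi L)).withDensity
      (fun z => ENNReal.ofReal (sin z.2)))

/-! ## Entropy -/

/-- entropy `H(ξ ∨ T⁻¹ξ ∨ ... ∨ T^{-(n-1)}ξ)` of the `n`-fold join of the finite partition into the
sets `{ξ = j}`: the sum of `-p log p` over the words `a` of length `n`, `p` being the measure of
`{x | ξ (T^i x) = a i for all i < n}` -/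
def Hent {X : Type*} [MeasurableSpace X] (μ : Measure X) (T : X → X) {m : ℕ} (ξ : X → Fin m)
    (n : ℕ) : ℝ :=
  ∑ a : Fin n → Fin m, negMulLog (μ {x | ∀ i : Fin n, ξ (T^[i] x) = a i}).toReal

/-- Kolmogorov–Sinai entropy `h_μ(T)`: the supremum over all finite measurable partitions `ξ` of the
entropy rate `lim H(ξ ∨ ... ∨ T^{-(n-1)}ξ) / n` (the limit exists by subadditivity if `T` preserves
the probability measure `μ`; it is written as a `liminf`) -/
def KS {X : Type*} [MeasurableSpace X] (μ : Measure X) (T : X → X) : EReal :=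
  ⨆ (m : ℕ) (ξ : X → Fin m) (_ : Measurable ξ),
    Filter.liminf (fun n : ℕ => ((Hent μ T ξ n / n : ℝ) : EReal)) Filter.atTop

end

end BilEnt
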