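import Mathlib
import Pool.Agent.BilEnt.StmtDefs

/-!
# MP_bd32bb_an : definitions (helper22).  See docs `proof/MP_bd32bb_an_entropy`.
-/

open MeasureTheory Real
open scoped ENNReal

namespace BilEnt

noncomputable section

/-! ## Geometry of log-polar tables `u ↦ exp (h u + i u)` -/

/-- chordal distance of two angles: `ds u v = |e^{iu} - e^{iv}|` -/
def ds (u v : ℝ) : ℝ := 2 * |sin ((u - v) / 2)|

/-- admissible log-polar tables -/
structure IsTab (h : ℝ → ℝ) : Prop where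
  c2 : ContDiff ℝ 2 h
  per : Function.Periodic h (2 * π)
  b0 : ∀ u, |h u| ≤ 1 / 100
  b1 : ∀ u, |deriv h u| ≤ 1 / 100
  b2 : ∀ u, |deriv (deriv h) u| ≤ 97 / 100

/-- boundary curve -/
def gam (h : ℝ → ℝ) (u : ℝ) : ℂ := Complex.exp ((h u : ℂ) + (u : ℂ) * Complex.I)

/-- unit vector of direction `A` -/
def ev (A : ℝ) : ℂ := Complex.exp ((A : ℂ) * Complex.I)

/-- wedge product of plane vectors -/
def wedge (a b : ℂ) : ℝ := a.re * b.im - a.im * b.re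

/-- tangent angle -/
def Th (h : ℝ → ℝ) (u : ℝ) : ℝ := u + π / 2 - arctan (deriv h u)

/-- derivative of the tangent angle -/
def Thd (h : ℝ → ℝ) (u : ℝ) : ℝ := 1 - deriv (deriv h) u / (1 + (deriv h u) ^ 2)

/-- speed `|γ'|` -/
def sp (h : ℝ → ℝ) (u : ℝ) : ℝ := exp (h u) * sqrt (1 + (deriv h u) ^ 2)

/-- states `(u, A)`: boundary parameter and outgoing direction -/
def dom (h : ℝ → ℝ) : Set (ℝ × ℝ) := {z | Th h z.1 < z.2 ∧ z.2 < Th h z.1 + π}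

/-- `sin θ` of a state -/
def stt (h : ℝ → ℝ) (z : ℝ × ℝ) : ℝ := sin (z.2 - Th h z.1)

/-- density of the Liouville measure in the coordinates `(u, A)` -/
def pw (h : ℝ → ℝ) (z : ℝ × ℝ) : ℝ := sp h z.1 * stt h z

/-- direction of the chord from `γ(u)` to `γ(w)`, `u < w < u + 2π` -/
def ang (h : ℝ → ℝ) (u w : ℝ) : ℝ :=
  (u + w) / 2 + π / 2 -
    arctan (tanh ((h w - h u) / 2) * (cos ((w - u) / 2) / sin ((w - u) / 2)))

/-- chord length -/
def HH (h : ℝ → ℝ) (u w : ℝ) : ℝ := ‖gam h w - gam h u‖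

open Classical in
/-- the next bounce point -/
def V (h : ℝ → ℝ) (z : ℝ × ℝ) : ℝ :=
  if hx : ∃ w, z.1 < w ∧ w < z.1 + 2 * π ∧ ang h z.1 w = z.2 then hx.choose else z.1

/-- the billiard map on lifts -/
def fm (h : ℝ → ℝ) (z : ℝ × ℝ) : ℝ × ℝ := (V h z, 2 * Th h (V h z) - z.2)

/-- length of the next flight -/
def hl (h : ℝ → ℝ) (z : ℝ × ℝ) : ℝ := HH h z.1 (V h z)

/-- strength of the next reflection -/
def gg (h : ℝ → ℝ) (z : ℝ × ℝ) : ℝ := 2 * Thd h (V h z) / pw h (fm h z)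

/-- the (line frame) derivative cocycle `B(g) F(H)` -/
def Mc (h : ℝ → ℝ) (z : ℝ × ℝ) : Matrix (Fin 2) (Fin 2) ℝ :=
  !![-1, hl h z; -gg h z, gg h z * hl h z - 1]

/-- time reversal -/
def rv (h : ℝ → ℝ) (z : ℝ × ℝ) : ℝ × ℝ := (z.1, 2 * Th h z.1 + π - z.2)

/-- the inverse of `fm` -/
def bm (h : ℝ → ℝ) (z : ℝ × ℝ) : ℝ × ℝ := rv h (fm h (rv h z)) - (2 * π, 2 * π)

/-- state from bounce point `u` and incoming direction `φ` -/
def zin (h : ℝ → ℝ) (u φ : ℝ) : ℝ × ℝ := (u, 2 * Th h u - φ)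

/-- Jacobian of `fm` in the coordinates `(u, A)` -/
def DF (h : ℝ → ℝ) (z : ℝ × ℝ) : (ℝ × ℝ) →L[ℝ] (ℝ × ℝ) :=
  ContinuousLinearMap.prod
    ((-(pw h z / pw h (fm h z))) • ContinuousLinearMap.fst ℝ ℝ ℝ +
      (hl h z / pw h (fm h z)) • ContinuousLinearMap.snd ℝ ℝ ℝ)
    ((-(gg h z * pw h z)) • ContinuousLinearMap.fst ℝ ℝ ℝ +
      (gg h z * hl h z - 1) • ContinuousLinearMap.snd ℝ ℝ ℝ)

/-- Jacobian of the `k`-th iterate -/
def DFn (h : ℝ → ℝ) (z : ℝ × ℝ) : ℕ → (ℝ × ℝ) →L[ℝ] (ℝ × ℝ)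
  | 0 => ContinuousLinearMap.id ℝ (ℝ × ℝ)
  | k + 1 => (DF h ((fm h)^[k] z)).comp (DFn h z k)

/-- the translation `(2π, 2π)` -/
def tau : ℝ × ℝ := (2 * π, 2 * π)

/-- fundamental domain -/
def X0 (h : ℝ → ℝ) : Set (ℝ × ℝ) := {z | z ∈ dom h ∧ 0 ≤ z.1 ∧ z.1 < 2 * π}

/-- reduction of a state to `0 ≤ u < 2π` -/
def red (z : ℝ × ℝ) : ℝ × ℝ :=
  (z.1 - 2 * π * ⌊z.1 / (2 * π)⌋, z.2 - 2 * π * ⌊z.1 / (2 * π)⌋)

open Classical in
/-- the billiard map on the fundamental domain (identity elsewhere) -/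
def Tm (h : ℝ → ℝ) (z : ℝ × ℝ) : ℝ × ℝ := if z ∈ X0 h then red (fm h z) else z

open Classical in
/-- its inverse -/
def Tmi (h : ℝ → ℝ) (z : ℝ × ℝ) : ℝ × ℝ := if z ∈ X0 h then red (bm h z) else z

/-- Liouville measure on the fundamental domain -/
def mu (h : ℝ → ℝ) : Measure (ℝ × ℝ) :=
  ((volume : Measure (ℝ × ℝ)).withDensity (fun z => ENNReal.ofReal (pw h z))).restrict (X0 h)

/-! ## Matrix products -/

/-- `mprod M a k = M_{a+k-1} ⋯ M_a` -/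
def mprod (M : ℕ → Matrix (Fin 2) (Fin 2) ℝ) (a : ℕ) : ℕ → Matrix (Fin 2) (Fin 2) ℝ
  | 0 => 1
  | k + 1 => M (a + k) * mprod M a k

/-- the matrix `B(g) F(H)` -/
def BF (g H : ℝ) : Matrix (Fin 2) (Fin 2) ℝ := !![-1, H; -g, g * H - 1]

/-- cocycle sequence built from reflections `g (t+1)` and flights `H t` -/
def gH (g H : ℕ → ℝ) (t : ℕ) : Matrix (Fin 2) (Fin 2) ℝ := BF (g (t + 1)) (H t)

/-- l1 norm of row `j` -/
def rn (M : Matrix (Fin 2) (Fin 2) ℝ) (j : Fin 2) : ℝ := |M j 0| + |M j 1|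

/-- l1 norm of column `i` -/
def cn (M : Matrix (Fin 2) (Fin 2) ℝ) (i : Fin 2) : ℝ := |M 0 i| + |M 1 i|

/-- Frobenius norm -/
def fn (M : Matrix (Fin 2) (Fin 2) ℝ) : ℝ :=
  sqrt (M 0 0 ^ 2 + M 0 1 ^ 2 + M 1 0 ^ 2 + M 1 1 ^ 2)

/-- quasi-multiplicativity of a sequence on `[0,k]` -/
def QMs (M : ℕ → Matrix (Fin 2) (Fin 2) ℝ) (χ : ℝ) (k : ℕ) : Prop :=
  ∀ t ≤ k, ∀ j i : Fin 2,
    χ * rn (mprod M t (k - t)) j * cn (mprod M 0 t) i ≤ |mprod M 0 k j i|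

/-- the coefficient of `g j` in the entry `(f,i)` of `M_{0 → k}` -/
def Qc (M : ℕ → Matrix (Fin 2) (Fin 2) ℝ) (k j : ℕ) (f i : Fin 2) : ℝ :=
  mprod M j (k - j) f 1 * mprod M 0 j 0 i

/-! ## Orbits of a table -/

/-- state at time `k` -/
def pth (h : ℝ → ℝ) (z : ℝ × ℝ) (k : ℕ) : ℝ × ℝ := (fm h)^[k] z

/-- cocycle matrices along the orbit -/
def Ms (h : ℝ → ℝ) (z : ℝ × ℝ) (t : ℕ) : Matrix (Fin 2) (Fin 2) ℝ := Mc h (pth h z t)

/-- no grazing on `[0,k]` -/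
def Temp (h : ℝ → ℝ) (z : ℝ × ℝ) (s : ℝ) (k : ℕ) : Prop := ∀ t ≤ k, s ≤ stt h (pth h z t)

/-- pairwise `y`-isolation of the bounce points on `[0,k]` -/
def Iso (h : ℝ → ℝ) (z : ℝ × ℝ) (y : ℝ) (k : ℕ) : Prop :=
  ∀ i j, i < j → j ≤ k → y < ds (pth h z i).1 (pth h z j).1

/-- Hölder continuity of the second derivative -/
def Hol (h : ℝ → ℝ) (K : ℝ) : Prop :=
  ∀ u v, |deriv (deriv h) u - deriv (deriv h) v| ≤ K * |u - v| ^ ((1 : ℝ) / 65)

/-! ## Random tables -/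

/-- noise exponent -/
def al : ℝ := 1 / 64
/-- small constants -/
def e2 : ℝ := 1 / 10 ^ 9
def e3 : ℝ := 1 / 4000
def aa : ℝ := 19 / 20

/-- bump profile -/
def bump (X : ℝ) : ℝ := (max 0 (1 - X)) ^ 3

/-- `i`-th of `n` equally spaced centres -/
def ctr (n i : ℕ) : ℝ := 2 * π * i / n

def clampR (x : ℝ) : ℝ := max (-1) (min 1 x)

/-- cell radius at level `q` -/
def dl (N q : ℕ) : ℝ := if q = 0 then 2 * sin (π / N) else 1 / (N ^ 2 * 2 ^ q)

/-- number of cells at level `q` -/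
def nc (N q : ℕ) : ℕ := if q = 0 then N else 7 * N ^ 2 * 2 ^ q

/-- profile of a level-0 cell (without bump) -/
def G0 (N i : ℕ) (x : Fin 3 → ℝ) (u : ℝ) : ℝ :=
  -(aa / (N : ℝ) ^ 4) * cos ((N : ℝ) ^ 2 * u + π * clampR (x 0)) +
    e3 / (N : ℝ) ^ 2 * (clampR (x 1) + clampR (x 2) * N * sin (u - ctr N i))

/-- profile of a cell of level `q ≥ 1` (without bump) -/
def Gq (N q i : ℕ) (x : Fin 3 → ℝ) (u : ℝ) : ℝ :=
  e2 * dl N q ^ (2 + al) *
    (clampR (x 0) + clampR (x 1) * sin (u - ctr (nc N q) i) / dl N q +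
      clampR (x 2) * ds u (ctr (nc N q) i) ^ 2 / dl N q ^ 2)

/-- bump of a cell -/
def bmp (N q i : ℕ) (u : ℝ) : ℝ := bump (ds u (ctr (nc N q) i) ^ 2 / dl N q ^ 2)

/-- contents of cell `(q,i)` -/
def cellF (N q i : ℕ) (x : Fin 3 → ℝ) (u : ℝ) : ℝ :=
  bmp N q i u * (if q = 0 then G0 N i x u else Gq N q i x u)

/-- sample space -/
abbrev Om : Type := ℕ × ℕ → (Fin 3 → ℝ)

/-- level `q` of the random table -/
def lev (N q : ℕ) (ω : Om) (u : ℝ) : ℝ := ∑ i ∈ Finset.range (nc N q), cellF N q i (ω (q, i)) u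

/-- the random table -/
def hw (N : ℕ) (ω : Om) (u : ℝ) : ℝ := ∑' q, lev N q ω u

/-- uniform law on `[-1,1]` -/
def nu1 : Measure ℝ := (1 / 2 : ℝ≥0∞) • (volume.restrict (Set.Icc (-1 : ℝ) 1))

instance : IsProbabilityMeasure nu1 := ⟨by
  simp only [nu1, Measure.smul_apply, Measure.restrict_apply MeasurableSet.univ, Set.univ_inter,
    Real.volume_Icc, smul_eq_mul]
  norm_num
  rw [ENNReal.inv_mul_cancel (by norm_num) (by norm_num)]⟩

/-- uniform law on `[-1,1]^3` -/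
def nu : Measure (Fin 3 → ℝ) := Measure.pi (fun _ => nu1)

instance : IsProbabilityMeasure nu := by unfold nu; infer_instance

/-- law of the environment -/
def PP : Measure Om := Measure.infinitePi (fun _ => nu)

instance : IsProbabilityMeasure PP := by unfold PP; infer_instance

/-- environment and state -/
abbrev Yt : Type := Om × (ℝ × ℝ)

/-- invariant measure of the skew product -/
def Pr (N : ℕ) : Measure Yt :=
  ((PP.prod (volume : Measure (ℝ × ℝ))).withDensity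
    (fun y => ENNReal.ofReal (pw (hw N y.1) y.2))).restrict {y | y.2 ∈ X0 (hw N y.1)}

/-- skew product -/
def TT (N : ℕ) (y : Yt) : Yt := (y.1, Tm (hw N y.1) y.2)
def TTi (N : ℕ) (y : Yt) : Yt := (y.1, Tmi (hw N y.1) y.2)

/-- cocycle over the skew product (identity-like outside the phase space) -/
def MM (N : ℕ) (y : Yt) : Matrix (Fin 2) (Fin 2) ℝ :=
  open Classical in if y.2 ∈ X0 (hw N y.1) then Mc (hw N y.1) y.2 else 1

/-- replace the contents of one cell -/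
def upd (ω : Om) (q i : ℕ) (x : Fin 3 → ℝ) : Om := Function.update ω (q, i) x

/-! ## Level-0 averaging -/

/-- index of the level-0 cell whose centre is nearest to `u` -/
def cidx (N : ℕ) (u : ℝ) : ℕ := ((round (N * u / (2 * π))) % (N : ℤ)).toNat

/-- value at `u` of the bump of the nearest level-0 cell -/
def betaN (N : ℕ) (u : ℝ) : ℝ :=
  bump ((2 * sin ((u - 2 * π * (round (N * u / (2 * π)) : ℤ) / N) / 2)) ^ 2 / dl N 0 ^ 2)

/-- compensated change of phase of a level-0 cell, seen from the point `u` -/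
def comp0 (N : ℕ) (u : ℝ) (i : ℕ) (x : Fin 3 → ℝ) (p : ℝ) : Fin 3 → ℝ :=
  ![p,
    x 1 + aa / ((N : ℝ) ^ 2 * e3) * (cos ((N : ℝ) ^ 2 * u + π * p) - cos ((N : ℝ) ^ 2 * u + π * x 0))
      + aa / (N * e3 * cos (u - ctr N i)) * N * sin (u - ctr N i) *
        (sin ((N : ℝ) ^ 2 * u + π * p) - sin ((N : ℝ) ^ 2 * u + π * x 0)),
    x 2 - aa / (N * e3 * cos (u - ctr N i)) *
        (sin ((N : ℝ) ^ 2 * u + π * p) - sin ((N : ℝ) ^ 2 * u + π * x 0))]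

/-- the whole compensated orbit stays in the cube -/
def Inn (N : ℕ) (ω : Om) (u : ℝ) : Prop :=
  (∀ j, |ω (0, cidx N u) j| ≤ 1) ∧
  ∀ p, |p| ≤ 1 → ∀ j, |comp0 N u (cidx N u) (ω (0, cidx N u)) p j| ≤ 1

/-- amplitude of the curvature averaging -/
def Cam (N : ℕ) (h : ℝ → ℝ) (z : ℝ × ℝ) : ℝ :=
  2 * aa * betaN N z.1 / (pw h z * (1 + (deriv h z.1) ^ 2))

/-- good set of the base growth argument -/
def Gset (N n : ℕ) : Set Yt :=
  {y | y.2 ∈ dom (hw N y.1) ∧ Temp (hw N y.1) y.2 (1 / (n : ℝ) ^ 3) n ∧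
    Iso (hw N y.1) y.2 (3 * dl N 0) n ∧ ∀ t ≤ n, Inn N y.1 (pth (hw N y.1) y.2 t).1}

/-- regularised logarithm -/
def Lf (ε Y : ℝ) : ℝ := log (Y ^ 2 + ε ^ 2) / 2

/-! ## Abstract cocycles -/

/-- product of a cocycle `M` over `T` -/
def ac {Y : Type*} (T : Y → Y) (M : Y → Matrix (Fin 2) (Fin 2) ℝ) (k : ℕ) (y : Y) :
    Matrix (Fin 2) (Fin 2) ℝ := mprod (fun t => M (T^[t] y)) 0 k

/-- defect of additivity at `y` with windows at most `n` (`Ti` is the inverse of `T`) -/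
def Dn {Y : Type*} (T Ti : Y → Y) (M : Y → Matrix (Fin 2) (Fin 2) ℝ) (n : ℕ) (y : Y) : ℝ :=
  ((Finset.range (n + 1)) ×ˢ (Finset.range (n + 1))).sup' (by simp)
    (fun p => log (fn (ac T M p.1 y)) + log (fn (ac T M p.2 (Ti^[p.2] y)))
      - log (fn (ac T M (p.2 + p.1) (Ti^[p.2] y))))

end

end BilEnt
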