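import Pool.Agent.BilEnt.FinalDefs

/-!
# Part F: definitions for the transfer to the arclength / angle billiard (helper58)
-/

open MeasureTheory Real
open scoped ENNReal

namespace BilEnt

noncomputable section

/-- arclength from `0` to `u` -/
def arc (h : ℝ → ℝ) (u : ℝ) : ℝ := ∫ t in (0 : ℝ)..u, sp h t

/-- length of the boundary -/
def arcL (h : ℝ → ℝ) : ℝ := arc h (2 * π)

/-- inverse of the arclength function -/
def arcI (h : ℝ → ℝ) : ℝ → ℝ := Function.invFun (arc h)

/-- boundary curve parametrised by arclength -/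
def cc (h : ℝ → ℝ) (x : ℝ) : ℂ := gam h (arcI h x)

/-- the convex body: intersection of the half planes to the left of the tangents -/
def Yb (h : ℝ → ℝ) : Set ℂ := {y | ∀ u, 0 ≤ wedge (ev (Th h u)) (y - gam h u)}

/-- the open part of the phase space -/
def Phio (L : ℝ) : Set (ℝ × ℝ) := Set.Ico 0 L ×ˢ Set.Ioo 0 π

/-- from the coordinates `(u, A)` to `(x, θ)` -/
def Psi (h : ℝ → ℝ) (z : ℝ × ℝ) : ℝ × ℝ := (arc h z.1, z.2 - Th h z.1)

/-- from the coordinates `(x, θ)` to `(u, A)` -/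
def Psii (h : ℝ → ℝ) (p : ℝ × ℝ) : ℝ × ℝ := (arcI h p.1, p.2 + Th h (arcI h p.1))

open Classical in
/-- the billiard map in the coordinates `(x, θ)` (identity off the open phase space) -/
def phiB (h : ℝ → ℝ) (p : ℝ × ℝ) : ℝ × ℝ :=
  if p ∈ Phio (arcL h) then Psi h (Tm h (Psii h p)) else p

/-- what part F needs from part G -/
structure GInput (h : ℝ → ℝ) : Prop where
  tab : IsTab h
  conv : ∀ u w, u < w → w < u + 2 * π → 0 < wedge (ev (Th h u)) (gam h w - gam h u)
  V_gt : ∀ z ∈ dom h, z.1 < V h z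
  V_lt : ∀ z ∈ dom h, V h z < z.1 + 2 * π
  chord : ∀ z ∈ dom h, gam h (V h z) - gam h z.1 = (hl h z : ℂ) * ev z.2
  hl_pos : ∀ z ∈ dom h, 0 < hl h z
  fm_dom : ∀ z ∈ dom h, fm h z ∈ dom h
  mp : MeasurePreserving (Tm h) (mu h) (mu h)

end

end BilEnt
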