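import Pool.Agent.BilEnt.F00

/-!
# Part F, module F01: speed, tangent angle and curve
-/

open MeasureTheory Real
open scoped ENNReal

namespace BilEnt

variable {h : ℝ → ℝ}

theorem F01_d_contDiff (hh : IsTab h) : ContDiff ℝ 1 (deriv h) := by
  have h1 : ContDiff ℝ (1 + 1) h := by
    have := hh.c2
    norm_num
    exact this
  exact (contDiff_succ_iff_deriv.1 h1).2.2

theorem F01_d_hasDeriv (hh : IsTab h) (u : ℝ) :
    HasDerivAt (deriv h) (deriv (deriv h) u) u :=
  ((F01_d_contDiff hh).differentiable (by norm_num) u).hasDerivAt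

theorem F01_h_hasDeriv (hh : IsTab h) (u : ℝ) : HasDerivAt h (deriv h u) u :=
  (hh.c2.differentiable (by norm_num) u).hasDerivAt

theorem F01_d_per (hh : IsTab h) : Function.Periodic (deriv h) (2 * π) := by
  intro u
  have h1 : (fun v => h (v + 2 * π)) = h := funext hh.per
  have h2 := deriv_comp_add_const h (2 * π) u
  rw [h1] at h2
  exact h2.symm

theorem F_sp_pos (u : ℝ) : 0 < sp h u := by
  unfold sp
  positivity

theorem F_sp_contDiff (hh : IsTab h) : ContDiff ℝ 1 (sp h) := by
  unfold sp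
  have h1 : ContDiff ℝ 1 h := hh.c2.of_le (by norm_num)
  have h2 := F01_d_contDiff hh
  refine (Real.contDiff_exp.comp h1).mul ?_
  refine ContDiff.sqrt (contDiff_const.add (h2.pow 2)) ?_
  intro x
  positivity

theorem F_sp_continuous (hh : IsTab h) : Continuous (sp h) :=
  (F_sp_contDiff hh).continuous

theorem F_sp_per (hh : IsTab h) : Function.Periodic (sp h) (2 * π) := by
  intro u
  unfold sp
  rw [hh.per u, F01_d_per hh u]

theorem F_Th_add (hh : IsTab h) (u : ℝ) : Th h (u + 2 * π) = Th h u + 2 * π := by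
  unfold Th
  rw [F01_d_per hh u]
  ring

/-- the same with an integer multiple -/
theorem F_Th_add_int (hh : IsTab h) (u : ℝ) (k : ℤ) :
    Th h (u + 2 * π * k) = Th h u + 2 * π * k := by
  unfold Th
  have h1 : deriv h (u + 2 * π * k) = deriv h u := by
    have := (F01_d_per hh).int_mul k u
    rw [mul_comm (2 * π) (k : ℝ)]
    exact this
  rw [h1]
  ring

theorem F_Th_hasDerivAt (hh : IsTab h) (u : ℝ) : HasDerivAt (Th h) (Thd h u) u := by
  have h1 := F01_d_hasDeriv hh u
  have h2 := ((hasDerivAt_id u).add_const (π / 2)).sub h1.arctan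
  unfold Th Thd
  refine (h2.congr_deriv ?_)
  ring

theorem F_Th_continuous (hh : IsTab h) : Continuous (Th h) :=
  continuous_iff_continuousAt.2 fun u => (F_Th_hasDerivAt hh u).continuousAt

theorem F_gam_per (hh : IsTab h) : Function.Periodic (gam h) (2 * π) := by
  intro u
  unfold gam
  rw [hh.per u]
  have h1 : ((h u : ℂ) + ((u + 2 * π : ℝ) : ℂ) * Complex.I)
      = ((h u : ℂ) + (u : ℂ) * Complex.I) + 2 * π * Complex.I := by
    push_cast
    ring
  rw [h1, Complex.exp_periodic]

theorem F_gam_add_int (hh : IsTab h) (u : ℝ) (k : ℤ) : gam h (u + 2 * π * k) = gam h u := by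
  have := (F_gam_per hh).int_mul k u
  rw [mul_comm (2 * π) (k : ℝ)]
  exact this

theorem F01_key (t : ℝ) :
    ((sqrt (1 + t ^ 2) : ℝ) : ℂ) * Complex.exp (((π / 2 - arctan t : ℝ) : ℂ) * Complex.I)
      = (t : ℂ) + Complex.I := by
  have hs : 0 < sqrt (1 + t ^ 2) := Real.sqrt_pos.2 (by positivity)
  rw [Complex.exp_mul_I, ← Complex.ofReal_cos, ← Complex.ofReal_sin, Real.cos_pi_div_two_sub,
    Real.sin_pi_div_two_sub, Real.sin_arctan, Real.cos_arctan]
  apply Complex.ext
  · simp
    field_simp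
  · simp
    field_simp

theorem F_gam_hasDerivAt (hh : IsTab h) (u : ℝ) :
    HasDerivAt (gam h) ((sp h u : ℂ) * ev (Th h u)) u := by
  have h1 : HasDerivAt (fun u : ℝ => ((h u : ℂ) + (u : ℂ) * Complex.I))
      (((deriv h u : ℝ) : ℂ) + 1 * Complex.I) u := by
    have h2 := (F01_h_hasDeriv hh u).ofReal_comp
    have h3 : HasDerivAt (fun u : ℝ => (u : ℂ)) 1 u := by
      simpa using (hasDerivAt_id u).ofReal_comp
    exact h2.add (h3.mul_const Complex.I)
  have h4 := h1.cexp
  unfold gam
  refine h4.congr_deriv ?_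
  have h5 := F01_key (deriv h u)
  unfold sp ev Th
  have h6 : Complex.exp (((u + π / 2 - arctan (deriv h u) : ℝ) : ℂ) * Complex.I)
      = Complex.exp ((u : ℂ) * Complex.I)
        * Complex.exp (((π / 2 - arctan (deriv h u) : ℝ) : ℂ) * Complex.I) := by
    rw [← Complex.exp_add]
    congr 1
    push_cast
    ring
  rw [h6, Complex.exp_add]
  push_cast
  push_cast at h5
  rw [one_mul, ← h5]
  ring

theorem F_gam_contDiff (hh : IsTab h) : ContDiff ℝ 2 (gam h) := by
  unfold gam
  have h1 : ContDiff ℝ 2 (fun u : ℝ => ((h u : ℝ) : ℂ)) :=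
    Complex.ofRealCLM.contDiff.comp hh.c2
  have h2 : ContDiff ℝ 2 (fun u : ℝ => (u : ℂ)) := Complex.ofRealCLM.contDiff
  have h3 : ContDiff ℝ 2 (fun u : ℝ => ((h u : ℂ) + (u : ℂ) * Complex.I)) :=
    h1.add (h2.mul contDiff_const)
  exact h3.cexp

end BilEnt
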