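import Pool.Agent.BilEnt.F01

/-!
# Part F, module F02: the arclength function and its inverse

`arc h u = ∫_0^u sp h`, `sp h > 0` continuous, `2π`-periodic and `C¹`.

* `F_arc_hasDerivAt`: fundamental theorem of calculus (`intervalIntegral.integral_hasDerivAt_right` or
  `Continuous.deriv_integral`/`integral_hasDerivAt_of_...`).
* strictly monotone: positive derivative (`strictMono_of_deriv_pos` / `strictMono_of_hasDerivAt_pos`).
* `arc h (u + 2π) = arc h u + arcL h`: `intervalIntegral.integral_add_adjacent_intervals` and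
  `Function.Periodic.intervalIntegral_add_eq` (the integral over `[u, u + 2π]` is the one over `[0, 2π]`).
* surjective: continuous, `arc h (2π k) = k * arcL h` for integers `k` (induction), so it is unbounded
  in both directions (use `Continuous.surjective` with `tendsto_atTop`/`atBot`, or the intermediate value
  theorem between `2π (-n)` and `2π n`).
* `arcI` is the two-sided inverse (`Function.leftInverse_invFun`, `Function.rightInverse_invFun`).
* `arcI (x + arcL) = arcI x + 2π`: apply the injective `arc`.
* continuity and strict monotonicity of `arcI`: it is the inverse of the order isomorphism given by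
  `StrictMono.orderIsoOfSurjective`.
* derivative: `HasDerivAt.of_local_left_inverse`.
* `C²`: `OpenPartialHomeomorph.contDiffAt_symm_deriv` (or: the derivative `1 / sp (arcI x)` is a `C¹` function once
  `arcI` is `C¹`; bootstrapping with `contDiff_one_iff_deriv`, `contDiff_succ_iff_deriv`:
  `deriv (arcI h) = fun x => (sp h (arcI h x))⁻¹` is continuous, so `arcI` is `C¹`, so this derivative
  is `C¹` as composition, so `arcI` is `C²`).
-/

open MeasureTheory Real
open scoped ENNReal

namespace BilEnt

variable {h : ℝ → ℝ}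

theorem F_arc_hasDerivAt (hh : IsTab h) (u : ℝ) : HasDerivAt (arc h) (sp h u) u :=
  ((F_sp_continuous hh).integral_hasStrictDerivAt 0 u).hasDerivAt

theorem F_arc_strictMono (hh : IsTab h) : StrictMono (arc h) := by
  refine strictMono_of_deriv_pos (fun u => ?_)
  rw [(F_arc_hasDerivAt hh u).deriv]
  exact F_sp_pos u

theorem F_arc_zero : arc h 0 = 0 := by
  simp [arc]

theorem F_arc_add (hh : IsTab h) (u : ℝ) : arc h (u + 2 * π) = arc h u + arcL h := by
  have hc := F_sp_continuous hh
  unfold arcL arc
  have h1 := intervalIntegral.integral_add_adjacent_intervals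
    (hc.intervalIntegrable (μ := volume) 0 u) (hc.intervalIntegrable (μ := volume) u (u + 2 * π))
  have h2 := (F_sp_per hh).intervalIntegral_add_eq u 0
  rw [← h1, h2, zero_add]

theorem F_arcL_pos (hh : IsTab h) : 0 < arcL h := by
  have h1 : arc h 0 < arc h (2 * π) := F_arc_strictMono hh (by positivity)
  rw [F_arc_zero] at h1
  exact h1

lemma F02_arc_nat (hh : IsTab h) (n : ℕ) : arc h (2 * π * n) = n * arcL h := by
  induction n with
  | zero => simp [F_arc_zero]
  | succ k ih =>
    have e : 2 * π * ((k + 1 : ℕ) : ℝ) = 2 * π * k + 2 * π := by push_cast; ring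
    rw [e, F_arc_add hh, ih]
    push_cast
    ring

lemma F02_arc_neg_nat (hh : IsTab h) (n : ℕ) : arc h (-(2 * π * n)) = -(n * arcL h) := by
  induction n with
  | zero => simp [F_arc_zero]
  | succ k ih =>
    have h1 := F_arc_add hh (-(2 * π * ((k + 1 : ℕ) : ℝ)))
    have e : -(2 * π * ((k + 1 : ℕ) : ℝ)) + 2 * π = -(2 * π * k) := by push_cast; ring
    rw [e, ih] at h1
    push_cast at h1 ⊢
    linarith

theorem F02_arc_continuous (hh : IsTab h) : Continuous (arc h) :=
  continuous_iff_continuousAt.2 (fun u => (F_arc_hasDerivAt hh u).continuousAt)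

theorem F_arc_surjective (hh : IsTab h) : Function.Surjective (arc h) := by
  intro y
  have hL := F_arcL_pos hh
  have hc : y ∈ Set.range (arc h) := by
    refine mem_range_of_exists_le_of_exists_ge (F02_arc_continuous hh) ?_ ?_
    · obtain ⟨n, hn⟩ := exists_nat_ge (-y / arcL h)
      refine ⟨-(2 * π * n), ?_⟩
      rw [F02_arc_neg_nat hh]
      rw [div_le_iff₀ hL] at hn
      linarith
    · obtain ⟨n, hn⟩ := exists_nat_ge (y / arcL h)
      refine ⟨2 * π * n, ?_⟩
      rw [F02_arc_nat hh]
      rw [div_le_iff₀ hL] at hn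
      linarith
  exact hc

theorem F_arcI_arc (hh : IsTab h) (u : ℝ) : arcI h (arc h u) = u :=
  Function.leftInverse_invFun (F_arc_strictMono hh).injective u

theorem F_arc_arcI (hh : IsTab h) (x : ℝ) : arc h (arcI h x) = x :=
  Function.rightInverse_invFun (F_arc_surjective hh) x

theorem F_arcI_add (hh : IsTab h) (x : ℝ) : arcI h (x + arcL h) = arcI h x + 2 * π := by
  apply (F_arc_strictMono hh).injective
  rw [F_arc_arcI hh, F_arc_add hh, F_arc_arcI hh]

theorem F_arcI_continuous (hh : IsTab h) : Continuous (arcI h) := by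
  let e := StrictMono.orderIsoOfSurjective (arc h) (F_arc_strictMono hh) (F_arc_surjective hh)
  have he : arcI h = e.symm := by
    funext x
    apply (F_arc_strictMono hh).injective
    rw [F_arc_arcI hh]
    exact (e.apply_symm_apply x).symm
  rw [he]
  exact e.symm.continuous

theorem F_arcI_mem (hh : IsTab h) (x : ℝ) :
    x ∈ Set.Ico 0 (arcL h) ↔ 0 ≤ arcI h x ∧ arcI h x < 2 * π := by
  have hm := F_arc_strictMono hh
  rw [Set.mem_Ico]
  constructor
  · rintro ⟨h1, h2⟩
    constructor
    · rw [← hm.le_iff_le, F_arc_arcI hh, F_arc_zero]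
      exact h1
    · rw [← hm.lt_iff_lt, F_arc_arcI hh]
      exact h2
  · rintro ⟨h1, h2⟩
    constructor
    · rw [← hm.le_iff_le, F_arc_arcI hh, F_arc_zero] at h1
      exact h1
    · rw [← hm.lt_iff_lt, F_arc_arcI hh] at h2
      exact h2

theorem F_arc_mem (hh : IsTab h) (u : ℝ) :
    arc h u ∈ Set.Ico 0 (arcL h) ↔ 0 ≤ u ∧ u < 2 * π := by
  rw [F_arcI_mem hh, F_arcI_arc hh]

theorem F_arcI_hasDerivAt (hh : IsTab h) (x : ℝ) :
    HasDerivAt (arcI h) (sp h (arcI h x))⁻¹ x :=
  HasDerivAt.of_local_left_inverse (F_arcI_continuous hh).continuousAt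
    (F_arc_hasDerivAt hh (arcI h x)) (F_sp_pos _).ne'
    (Filter.Eventually.of_forall (fun y => F_arc_arcI hh y))

theorem F_arcI_contDiff (hh : IsTab h) : ContDiff ℝ 2 (arcI h) := by
  have hd : deriv (arcI h) = fun x => (sp h (arcI h x))⁻¹ := by
    funext x
    exact (F_arcI_hasDerivAt hh x).deriv
  have hdiff : Differentiable ℝ (arcI h) := fun x => (F_arcI_hasDerivAt hh x).differentiableAt
  have h1 : ContDiff ℝ 1 (arcI h) := by
    rw [contDiff_one_iff_deriv]
    refine ⟨hdiff, ?_⟩
    rw [hd]
    exact ((F_sp_continuous hh).comp (F_arcI_continuous hh)).inv₀ (fun x => (F_sp_pos _).ne')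
  have e2 : (2 : WithTop ℕ∞) = 1 + 1 := by norm_num
  rw [e2, contDiff_succ_iff_deriv]
  refine ⟨hdiff, by simp, ?_⟩
  rw [hd]
  exact ((F_sp_contDiff hh).comp h1).inv (fun x => (F_sp_pos _).ne')

end BilEnt
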