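import Pool.Agent.BilEnt.F02

/-!
# Part F, module F03: the boundary curve in arclength parametrization

* `cc h = gam h ∘ arcI h`: `C²` as a composition; derivative by the chain rule
  `sp * ev (Th) * sp⁻¹ = ev (Th h (arcI h x))`, of norm one (`Complex.norm_exp_ofReal_mul_I`).
* injectivity of `gam` modulo `2π`: if `gam h u = gam h w` then dividing norms
  `exp (h u) = exp (h w)`, so `exp (i u) = exp (i w)` and `u - w ∈ 2πℤ` (`Complex.exp_eq_exp_iff_exists_int`).
-/

open MeasureTheory Real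
open scoped ENNReal

namespace BilEnt

variable {h : ℝ → ℝ}

theorem F_cc_contDiff (hh : IsTab h) : ContDiff ℝ 2 (cc h) :=
  (F_gam_contDiff hh).comp (F_arcI_contDiff hh)

theorem F03_cc_hasDerivAt (hh : IsTab h) (x : ℝ) :
    HasDerivAt (cc h) (ev (Th h (arcI h x))) x := by
  have h1 := (F_gam_hasDerivAt hh (arcI h x)).scomp x (F_arcI_hasDerivAt hh x)
  have h2 : (sp h (arcI h x))⁻¹ • ((sp h (arcI h x) : ℂ) * ev (Th h (arcI h x))) =
      ev (Th h (arcI h x)) := by
    have h3 : (sp h (arcI h x) : ℂ) ≠ 0 := by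
      exact_mod_cast (F_sp_pos (h := h) (arcI h x)).ne'
    rw [Complex.real_smul]
    push_cast
    field_simp
  rw [h2] at h1
  exact h1

theorem F_cc_deriv (hh : IsTab h) (x : ℝ) : deriv (cc h) x = ev (Th h (arcI h x)) :=
  (F03_cc_hasDerivAt hh x).deriv

theorem F_norm_ev (A : ℝ) : ‖ev A‖ = 1 := by
  unfold ev
  exact Complex.norm_exp_ofReal_mul_I A

theorem F_cc_periodic (hh : IsTab h) : Function.Periodic (cc h) (arcL h) := by
  intro x
  unfold cc
  rw [F_arcI_add hh]
  exact F_gam_per hh _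

theorem F_gam_inj (hh : IsTab h) {u w : ℝ} (huw : gam h u = gam h w) :
    ∃ k : ℤ, u = w + 2 * π * k := by
  unfold gam at huw
  obtain ⟨n, hn⟩ := Complex.exp_eq_exp_iff_exists_int.1 huw
  refine ⟨n, ?_⟩
  have h1 := congrArg Complex.im hn
  simp at h1
  linarith

theorem F_cc_injOn (hh : IsTab h) : Set.InjOn (cc h) (Set.Ico 0 (arcL h)) := by
  intro x hx y hy hxy
  obtain ⟨k, hk⟩ := F_gam_inj hh (u := arcI h x) (w := arcI h y) hxy
  obtain ⟨hx1, hx2⟩ := (F_arcI_mem hh x).1 hx
  obtain ⟨hy1, hy2⟩ := (F_arcI_mem hh y).1 hy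
  have hpi := Real.pi_pos
  have hk0 : k = 0 := by
    have h1 : (k : ℝ) < 1 := by
      by_contra hcon
      push Not at hcon
      nlinarith
    have h2 : (-1 : ℝ) < k := by
      by_contra hcon
      push Not at hcon
      nlinarith
    have h3 : k < 1 := by exact_mod_cast h1
    have h4 : -1 < k := by exact_mod_cast h2
    omega
  rw [hk0] at hk
  simp only [Int.cast_zero, mul_zero, add_zero] at hk
  rw [← F_arc_arcI hh x, ← F_arc_arcI hh y, hk]

theorem F_cc_range (hh : IsTab h) : Set.range (cc h) = Set.range (gam h) := by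
  ext z
  constructor
  · rintro ⟨x, rfl⟩
    exact ⟨arcI h x, rfl⟩
  · rintro ⟨u, rfl⟩
    refine ⟨arc h u, ?_⟩
    unfold cc
    rw [F_arcI_arc hh]

end BilEnt
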