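import Pool.Agent.BilEnt.F03

/-!
# Part F, module F04: the convex body

`Yb h` is the intersection of the closed half planes to the left of the tangents.

* closed and convex: intersection of closed half planes (`wedge (ev A) (y - c)` is an affine continuous
  function of `y`).
* `F_wedge_conv`: `0 < wedge (ev (Th h u)) (gam h w - gam h u)` whenever `u - w ∉ 2πℤ`: translate `w` by
  a multiple of `2π` into `(u, u + 2π)` (`F_gam_add_int`) and use `hG.conv`.
* star shape: for `y = ρ ev u` and the half plane of the parameter `u` itself: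
  `gam h u = exp (h u) ev u`, and `wedge (ev (Th h u)) (ev u) = -sin (Th h u - u) = - cos (arctan h')<0`,
  so `y ∈ Yb h` forces `ρ ≤ exp (h u)`.  Every complex number is `ρ ev u` with `ρ ≥ 0`.
  Conversely `0` lies strictly inside every half plane:
  `wedge (ev (Th h v)) (0 - gam h v) = exp (h v) cos (arctan h'(v)) > 0`, and `gam h u ∈ Yb h`
  (`F_wedge_conv`, value `0` for the parameter `v = u` mod `2π`); `Yb h` is convex, so the segment
  from `0` to `gam h u` is contained in it.
* compact: closed and bounded by the star shape (`ρ ≤ exp (1/100)`).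
* the ball of radius `exp (-1/100)` around `0` is contained in `Yb h` (star shape, `h u ≥ -1/100`),
  so `0 ∈ interior (Yb h)`.
-/

open MeasureTheory Real
open scoped ENNReal

namespace BilEnt

variable {h : ℝ → ℝ}

theorem F04_ev_re (A : ℝ) : (ev A).re = cos A := by
  unfold ev
  exact Complex.exp_ofReal_mul_I_re A

theorem F04_ev_im (A : ℝ) : (ev A).im = sin A := by
  unfold ev
  exact Complex.exp_ofReal_mul_I_im A

theorem F04_gam_eq (h : ℝ → ℝ) (u : ℝ) : gam h u = ((exp (h u) : ℝ) : ℂ) * ev u := by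
  unfold gam ev
  rw [Complex.exp_add, Complex.ofReal_exp]

theorem F04_wedge_ev (A B : ℝ) : wedge (ev A) (ev B) = sin (B - A) := by
  unfold wedge
  rw [F04_ev_re, F04_ev_im, F04_ev_re, F04_ev_im, sin_sub]
  ring

theorem F04_wedge_smul (a b : ℂ) (t : ℝ) : wedge a ((t : ℂ) * b) = t * wedge a b := by
  unfold wedge
  simp only [Complex.mul_re, Complex.mul_im, Complex.ofReal_re, Complex.ofReal_im]
  ring

theorem F04_wedge_Th (h : ℝ → ℝ) (u : ℝ) :
    wedge (ev (Th h u)) (ev u) = -cos (arctan (deriv h u)) := by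
  rw [F04_wedge_ev]
  have e : u - Th h u = -(π / 2 - arctan (deriv h u)) := by
    unfold Th
    ring
  rw [e, sin_neg, sin_pi_div_two_sub]

theorem F04_polar (y : ℂ) : y = ((‖y‖ : ℝ) : ℂ) * ev y.arg := by
  unfold ev
  exact (Complex.norm_mul_exp_arg_mul_I y).symm

theorem F04_continuous_wedge (a c : ℂ) : Continuous fun y : ℂ => wedge a (y - c) := by
  unfold wedge
  fun_prop

theorem F_wedge_conv (hG : GInput h) {u w : ℝ} (huw : ∀ k : ℤ, w ≠ u + 2 * π * k) :
    0 < wedge (ev (Th h u)) (gam h w - gam h u) := by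
  have hpi : (0 : ℝ) < 2 * π := by positivity
  set k : ℤ := ⌊(w - u) / (2 * π)⌋ with hk
  have h1 : (k : ℝ) ≤ (w - u) / (2 * π) := Int.floor_le _
  have h2 : (w - u) / (2 * π) < k + 1 := Int.lt_floor_add_one _
  rw [le_div_iff₀ hpi] at h1
  rw [div_lt_iff₀ hpi] at h2
  have h3 : w ≠ u + 2 * π * k := huw k
  have h4 : u < w - 2 * π * k := by
    refine lt_of_le_of_ne (by linarith) fun he => h3 ?_
    linarith
  have h5 : w - 2 * π * k < u + 2 * π := by linarith
  have h6 := hG.conv u (w - 2 * π * k) h4 h5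
  have h7 : gam h (w - 2 * π * k) = gam h w := by
    have := F_gam_add_int hG.tab (w - 2 * π * k) k
    rw [← this]
    congr 1
    ring
  rwa [h7] at h6

theorem F_Yb_convex : Convex ℝ (Yb h) := by
  intro x hx y hy a b ha hb hab u
  have e1 := hx u
  have e2 := hy u
  have e : wedge (ev (Th h u)) (a • x + b • y - gam h u) =
      a * wedge (ev (Th h u)) (x - gam h u) + b * wedge (ev (Th h u)) (y - gam h u) := by
    have hb' : b = 1 - a := by linarith
    subst hb'
    unfold wedge
    simp only [Complex.add_re, Complex.add_im, Complex.sub_re, Complex.sub_im, Complex.real_smul,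
      Complex.mul_re, Complex.mul_im, Complex.ofReal_re, Complex.ofReal_im]
    ring
  rw [e]
  exact add_nonneg (mul_nonneg ha e1) (mul_nonneg hb e2)

theorem F_Yb_closed : IsClosed (Yb h) := by
  have e : Yb h = ⋂ u : ℝ, {y : ℂ | 0 ≤ wedge (ev (Th h u)) (y - gam h u)} := by
    ext y
    simp only [Yb, Set.mem_ofPred_eq, Set.mem_iInter]
  rw [e]
  exact isClosed_iInter fun u => isClosed_le continuous_const (F04_continuous_wedge _ _)

theorem F_gam_mem (hG : GInput h) (u : ℝ) : gam h u ∈ Yb h := by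
  intro v
  by_cases hk : ∃ k : ℤ, u = v + 2 * π * k
  · obtain ⟨k, rfl⟩ := hk
    rw [F_gam_add_int hG.tab, sub_self]
    simp [wedge]
  · push Not at hk
    exact (F_wedge_conv hG hk).le

theorem F04_zero_mem : (0 : ℂ) ∈ Yb h := by
  intro v
  have e : (0 : ℂ) - gam h v = ((-exp (h v) : ℝ) : ℂ) * ev v := by
    rw [F04_gam_eq]
    push_cast
    ring
  rw [e, F04_wedge_smul, F04_wedge_Th]
  have := cos_arctan_pos (deriv h v)
  nlinarith [exp_pos (h v)]

theorem F_Yb_star (hG : GInput h) (y : ℂ) :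
    y ∈ Yb h ↔ ∃ u ρ : ℝ, 0 ≤ ρ ∧ ρ ≤ exp (h u) ∧ y = (ρ : ℂ) * ev u := by
  constructor
  · intro hy
    refine ⟨y.arg, ‖y‖, norm_nonneg _, ?_, F04_polar y⟩
    have h1 := hy y.arg
    have e : y - gam h y.arg = ((‖y‖ - exp (h y.arg) : ℝ) : ℂ) * ev y.arg := by
      rw [F04_gam_eq, Complex.ofReal_sub, sub_mul, ← F04_polar y]
    rw [e, F04_wedge_smul, F04_wedge_Th] at h1
    have h2 := cos_arctan_pos (deriv h y.arg)
    by_contra hc
    push Not at hc
    nlinarith
  · rintro ⟨u, ρ, h0, h1, rfl⟩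
    have hE := exp_pos (h u)
    have h2 := F_Yb_convex (h := h) F04_zero_mem (F_gam_mem hG u)
      (a := 1 - ρ / exp (h u)) (b := ρ / exp (h u))
      (by rw [sub_nonneg, div_le_one hE]; exact h1) (by positivity) (by ring)
    have e : (1 - ρ / exp (h u)) • (0 : ℂ) + (ρ / exp (h u)) • gam h u = (ρ : ℂ) * ev u := by
      rw [smul_zero, zero_add, F04_gam_eq, Complex.real_smul, ← mul_assoc, ← Complex.ofReal_mul,
        div_mul_cancel₀ _ hE.ne']
    rwa [e] at h2

theorem F_Yb_compact (hG : GInput h) : IsCompact (Yb h) := by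
  refine Metric.isCompact_of_isClosed_isBounded F_Yb_closed ?_
  refine (Metric.isBounded_closedBall (x := (0 : ℂ)) (r := exp (1 / 100))).subset ?_
  intro y hy
  obtain ⟨u, ρ, h0, h1, rfl⟩ := (F_Yb_star hG y).1 hy
  rw [mem_closedBall_zero_iff, norm_mul, F_norm_ev, mul_one, Complex.norm_real,
    Real.norm_of_nonneg h0]
  exact h1.trans (exp_le_exp.2 (abs_le.1 (hG.tab.b0 u)).2)

theorem F_zero_interior (hG : GInput h) : (0 : ℂ) ∈ interior (Yb h) := by
  rw [mem_interior]
  refine ⟨Metric.ball 0 (exp (-(1 / 100))), ?_, Metric.isOpen_ball, ?_⟩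
  · intro y hy
    rw [mem_ball_zero_iff] at hy
    refine (F_Yb_star hG y).2 ⟨y.arg, ‖y‖, norm_nonneg _, ?_, F04_polar y⟩
    exact hy.le.trans (exp_le_exp.2 (abs_le.1 (hG.tab.b0 _)).1)
  · rw [mem_ball_zero_iff, norm_zero]
    exact exp_pos _

end BilEnt
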