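import Pool.Agent.BilEnt.F04

/-!
# Part F, module F05: the frontier of the body, and the billiard table

* `gam h u` is not an interior point of `Yb h`: a neighbourhood of it contains points with
  `wedge (ev (Th h u)) (y - gam h u) < 0` (e.g. `y = gam h u - ε i ev (Th h u)`, for which the wedge is `-ε`).
* if `y ∈ Yb h` is not on the curve, then `y = ρ ev u` with `0 ≤ ρ < exp (h u)` (`F_Yb_star`; for `ρ = exp (h u)` it
  would be `gam h u`), so `y = (1 - t) • 0 + t • gam h u` with `0 ≤ t < 1`; `0 ∈ interior`, and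
  `gam h u ∈ Yb h`, so `y ∈ interior (Yb h)` (`Convex.combo_interior_closure_mem_interior` or
  `Convex.combo_interior_self_mem_interior`).
* `frontier = closure \ interior = Yb h \ interior (Yb h)` as `Yb h` is closed.
* `F_table`: collect everything.  `left`: `conj (ev A) * w` has imaginary part `wedge (ev A) w`, and
  `deriv (cc h) x = ev (Th h (arcI h x))`, `cc h x = gam h (arcI h x)`.
-/

open MeasureTheory Real
open scoped ENNReal

namespace BilEnt

variable {h : ℝ → ℝ}

theorem F05_ev_sq (A : ℝ) : (ev A).re ^ 2 + (ev A).im ^ 2 = 1 := by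
  have h1 := F_norm_ev A
  have h2 := Complex.sq_norm (ev A)
  rw [h1, Complex.normSq_apply] at h2
  nlinarith

theorem F05_gam_eq (u : ℝ) : gam h u = (exp (h u) : ℂ) * ev u := by
  unfold gam ev
  rw [Complex.exp_add, Complex.ofReal_exp]

theorem F_not_interior (u : ℝ) : gam h u ∉ interior (Yb h) := by
  intro hu
  rw [mem_interior_iff_mem_nhds, Metric.mem_nhds_iff] at hu
  obtain ⟨ε, hε, hball⟩ := hu
  set w : ℂ := -((ε / 2 : ℝ) : ℂ) * Complex.I * ev (Th h u) with hw
  have hwn : ‖w‖ = ε / 2 := by
    rw [hw, norm_mul, norm_mul, norm_neg, Complex.norm_I, F_norm_ev, Complex.norm_real,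
      Real.norm_of_nonneg (by linarith)]
    ring
  have hmem : gam h u + w ∈ Yb h := by
    apply hball
    rw [Metric.mem_ball, dist_eq_norm, add_sub_cancel_left, hwn]
    linarith
  have h1 := hmem u
  rw [add_sub_cancel_left] at h1
  have hsq := F05_ev_sq (Th h u)
  have hre : w.re = (ε / 2) * (ev (Th h u)).im := by
    rw [hw]
    simp
  have him : w.im = -((ε / 2) * (ev (Th h u)).re) := by
    rw [hw]
    simp
  unfold wedge at h1
  rw [hre, him] at h1
  nlinarith

theorem F_interior_of (hG : GInput h) {y : ℂ} (hy : y ∈ Yb h) (hy' : y ∉ Set.range (gam h)) :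
    y ∈ interior (Yb h) := by
  obtain ⟨u, ρ, h1, h2, h3⟩ := (F_Yb_star hG y).1 hy
  have hlt : ρ < exp (h u) := by
    rcases h2.lt_or_eq with h4 | h4
    · exact h4
    · exfalso
      apply hy'
      exact ⟨u, by rw [F05_gam_eq, h3, h4]⟩
  have he : 0 < exp (h u) := exp_pos _
  have ht : ρ / exp (h u) < 1 := (div_lt_one he).2 hlt
  have hmem := F_Yb_convex.combo_interior_closure_mem_interior (F_zero_interior hG)
    (subset_closure (F_gam_mem hG u)) (a := 1 - ρ / exp (h u)) (b := ρ / exp (h u))
    (by linarith) (div_nonneg h1 he.le) (by ring)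
  have h5 : (1 - ρ / exp (h u)) • (0 : ℂ) + (ρ / exp (h u)) • gam h u = y := by
    rw [smul_zero, zero_add, F05_gam_eq, h3, Complex.real_smul, ← mul_assoc, ← Complex.ofReal_mul,
      div_mul_cancel₀ _ he.ne']
  rwa [h5] at hmem

theorem F_frontier (hG : GInput h) : frontier (Yb h) = Set.range (gam h) := by
  rw [frontier, F_Yb_closed.closure_eq]
  ext y
  constructor
  · rintro ⟨h1, h2⟩
    by_contra h3
    exact h2 (F_interior_of hG h1 h3)
  · rintro ⟨u, rfl⟩
    exact ⟨F_gam_mem hG u, F_not_interior u⟩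

theorem F05_wedge (a w : ℂ) : (starRingEnd ℂ a * w).im = wedge a w := by
  unfold wedge
  simp [Complex.mul_im]
  ring

theorem F_table (hG : GInput h) : IsBilliardTable (Yb h) (arcL h) (cc h) where
  compact := F_Yb_compact hG
  convex := F_Yb_convex
  nonempty_interior := ⟨0, F_zero_interior hG⟩
  L_pos := F_arcL_pos hG.tab
  c2 := F_cc_contDiff hG.tab
  periodic := F_cc_periodic hG.tab
  injOn := F_cc_injOn hG.tab
  unit_speed := fun x => by rw [F_cc_deriv hG.tab, F_norm_ev]
  frontier_eq := by rw [F_frontier hG, F_cc_range hG.tab]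
  left := fun x y hy => by
    rw [F_cc_deriv hG.tab, F05_wedge]
    exact hy (arcI h x)

end BilEnt
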