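import Pool.Agent.BilEnt.F05

/-!
# Part F, module F06: open chords lie in the interior

Let `z ∈ dom h` and `0 < s < hl h z`.  The point `y = gam h z.1 + s ev z.2` is
`(1 - s/H) gam h z.1 + (s/H) gam h (V h z)`, `H = hl h z` (`hG.chord`), hence it is in the convex set
`Yb h` (`F_gam_mem`).  If it were `gam h w`, then the linear functional
`wedge (ev (Th h w)) (· - gam h w)` would vanish at `y`; but it is `≥ 0` at both end points
(`F_gam_mem`), and it is `> 0` at one of them at least: by `F_wedge_conv` it is positive at `gam h z.1`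
unless `z.1 = w + 2πk`, and positive at `gam h (V h z)` unless `V h z = w + 2πk'`; both cannot hold, since
`z.1 < V h z < z.1 + 2π`.  So `y ∉ range (gam h)` and `F_interior_of` applies.
-/

open MeasureTheory Real
open scoped ENNReal

namespace BilEnt

variable {h : ℝ → ℝ}

/-- the point on the chord as a convex combination -/
lemma F06_combo (hG : GInput h) {z : ℝ × ℝ} (hz : z ∈ dom h) (s : ℝ) :
    gam h z.1 + (s : ℂ) * ev z.2
      = (1 - s / hl h z) • gam h z.1 + (s / hl h z) • gam h (V h z) := by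
  have hH : hl h z ≠ 0 := (hG.hl_pos z hz).ne'
  have hc := hG.chord z hz
  have e1 : (s : ℂ) * ev z.2 = ((s / hl h z : ℝ) : ℂ) * (gam h (V h z) - gam h z.1) := by
    rw [hc, ← mul_assoc]
    congr 1
    have hH' : (hl h z : ℂ) ≠ 0 := by exact_mod_cast hH
    push_cast
    field_simp
  rw [e1, Complex.real_smul, Complex.real_smul]
  push_cast
  ring

/-- the wedge functional at a convex combination -/
lemma F06_wedge_combo (a c p q : ℂ) (t : ℝ) :
    wedge a ((1 - t) • p + t • q - c) = (1 - t) * wedge a (p - c) + t * wedge a (q - c) := by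
  simp only [wedge, Complex.sub_re, Complex.sub_im, Complex.add_re, Complex.add_im,
    Complex.real_smul, Complex.mul_re, Complex.mul_im, Complex.ofReal_re, Complex.ofReal_im]
  ring

theorem F_chord_interior (hG : GInput h) {z : ℝ × ℝ} (hz : z ∈ dom h) {s : ℝ} (h0 : 0 < s)
    (h1 : s < hl h z) : gam h z.1 + (s : ℂ) * ev z.2 ∈ interior (Yb h) := by
  have hH : 0 < hl h z := hG.hl_pos z hz
  have ht0 : 0 < s / hl h z := div_pos h0 hH
  have ht1 : s / hl h z < 1 := (div_lt_one hH).2 h1
  rw [F06_combo hG hz s]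
  set t := s / hl h z with ht
  have hmem : (1 - t) • gam h z.1 + t • gam h (V h z) ∈ Yb h :=
    F_Yb_convex (F_gam_mem hG z.1) (F_gam_mem hG (V h z)) (by linarith) ht0.le (by ring)
  refine F_interior_of hG hmem ?_
  rintro ⟨w, hw⟩
  have hz0 : wedge (ev (Th h w)) ((1 - t) • gam h z.1 + t • gam h (V h z) - gam h w) = 0 := by
    rw [← hw, sub_self]
    simp [wedge]
  rw [F06_wedge_combo] at hz0
  have hp : 0 ≤ wedge (ev (Th h w)) (gam h z.1 - gam h w) := F_gam_mem hG z.1 w
  have hq : 0 ≤ wedge (ev (Th h w)) (gam h (V h z) - gam h w) := F_gam_mem hG (V h z) w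
  have hp' : 0 ≤ (1 - t) * wedge (ev (Th h w)) (gam h z.1 - gam h w) :=
    mul_nonneg (by linarith) hp
  have hq' : 0 ≤ t * wedge (ev (Th h w)) (gam h (V h z) - gam h w) := mul_nonneg ht0.le hq
  have hp0 : wedge (ev (Th h w)) (gam h z.1 - gam h w) = 0 := by
    have : (1 - t) * wedge (ev (Th h w)) (gam h z.1 - gam h w) = 0 := by linarith
    rcases mul_eq_zero.1 this with h' | h'
    · linarith
    · exact h'
  have hq0 : wedge (ev (Th h w)) (gam h (V h z) - gam h w) = 0 := by
    have : t * wedge (ev (Th h w)) (gam h (V h z) - gam h w) = 0 := by linarith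
    rcases mul_eq_zero.1 this with h' | h'
    · linarith
    · exact h'
  have hk1 : ∃ k : ℤ, z.1 = w + 2 * π * k := by
    by_contra hne
    push Not at hne
    exact (F_wedge_conv hG hne).ne' hp0
  have hk2 : ∃ k : ℤ, V h z = w + 2 * π * k := by
    by_contra hne
    push Not at hne
    exact (F_wedge_conv hG hne).ne' hq0
  obtain ⟨k1, hk1⟩ := hk1
  obtain ⟨k2, hk2⟩ := hk2
  have hV1 := hG.V_gt z hz
  have hV2 := hG.V_lt z hz
  have hpi := Real.pi_pos
  have a1 : (k1 : ℝ) < k2 := by
    have : 2 * π * (k1 : ℝ) < 2 * π * k2 := by linarith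
    exact lt_of_mul_lt_mul_left this (by positivity)
  have a2 : (k2 : ℝ) < k1 + 1 := by
    have : 2 * π * (k2 : ℝ) < 2 * π * (k1 + 1) := by linarith
    exact lt_of_mul_lt_mul_left this (by positivity)
  have b1 : k1 < k2 := by exact_mod_cast a1
  have b2 : k2 < k1 + 1 := by exact_mod_cast a2
  omega

end BilEnt
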