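import Pool.Agent.BilEnt.F02

/-!
# Part F, module F07: the change of coordinates `(u, A) ↔ (x, θ)`

* `Psi h (u, A) = (arc h u, A - Th h u)`, `Psii h (x, θ) = (arcI h x, θ + Th h (arcI h x))` are inverse to each
  other (`F_arcI_arc`, `F_arc_arcI`), continuous, and exchange `X0 h` and `Phio (arcL h)` (`F_arc_mem`,
  `F_arcI_mem`).
* `red z = z - (2πk, 2πk)` with `k = ⌊z.1/(2π)⌋`; `red` maps `dom h` to `X0 h` because `Th h (u - 2πk) = Th h u - 2πk`
  (`F_Th_add_int`) and `0 ≤ u - 2π⌊u/2π⌋ < 2π`.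
* `Tm h` maps `X0 h` to itself (`hG.fm_dom`).
* `phiB h (Psi h z) = Psi h (Tm h z)` for `z ∈ X0 h` by definition.
* measurability of `phiB h`: `Phio` is measurable, `Psi`, `Psii` continuous, `Tm h` measurable (part of `hG.mp`).
* `X0 h` is measurable (`Th h` is continuous).
-/

open MeasureTheory Real
open scoped ENNReal

namespace BilEnt

variable {h : ℝ → ℝ}

theorem F_Psii_Psi (hh : IsTab h) (z : ℝ × ℝ) : Psii h (Psi h z) = z := by
  unfold Psii Psi
  simp only [F_arcI_arc hh]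
  ext
  · rfl
  · simp

theorem F_Psi_Psii (hh : IsTab h) (p : ℝ × ℝ) : Psi h (Psii h p) = p := by
  unfold Psii Psi
  simp only [F_arc_arcI hh]
  ext
  · rfl
  · simp

theorem F07_arc_continuous (hh : IsTab h) : Continuous (arc h) :=
  continuous_iff_continuousAt.2 fun u => (F_arc_hasDerivAt hh u).continuousAt

theorem F_Psi_continuous (hh : IsTab h) : Continuous (Psi h) := by
  unfold Psi
  exact ((F07_arc_continuous hh).comp continuous_fst).prodMk
    (continuous_snd.sub ((F_Th_continuous hh).comp continuous_fst))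

theorem F_Psii_continuous (hh : IsTab h) : Continuous (Psii h) := by
  unfold Psii
  exact ((F_arcI_continuous hh).comp continuous_fst).prodMk
    (continuous_snd.add ((F_Th_continuous hh).comp ((F_arcI_continuous hh).comp continuous_fst)))

theorem F_Psi_mem (hh : IsTab h) (z : ℝ × ℝ) : Psi h z ∈ Phio (arcL h) ↔ z ∈ X0 h := by
  unfold Psi Phio
  rw [Set.mem_prod]
  show arc h z.1 ∈ Set.Ico 0 (arcL h) ∧ z.2 - Th h z.1 ∈ Set.Ioo 0 π ↔ _
  rw [F_arc_mem hh]
  show _ ↔ (Th h z.1 < z.2 ∧ z.2 < Th h z.1 + π) ∧ 0 ≤ z.1 ∧ z.1 < 2 * π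
  rw [Set.mem_Ioo]
  constructor
  · rintro ⟨⟨h1, h2⟩, h3, h4⟩
    exact ⟨⟨by linarith, by linarith⟩, h1, h2⟩
  · rintro ⟨⟨h3, h4⟩, h1, h2⟩
    exact ⟨⟨h1, h2⟩, by linarith, by linarith⟩

theorem F_Psii_mem (hh : IsTab h) (p : ℝ × ℝ) : Psii h p ∈ X0 h ↔ p ∈ Phio (arcL h) := by
  rw [← F_Psi_mem hh, F_Psi_Psii hh]

theorem F_X0_measurable (hh : IsTab h) : MeasurableSet (X0 h) := by
  have h1 : Measurable fun z : ℝ × ℝ => Th h z.1 :=
    ((F_Th_continuous hh).comp continuous_fst).measurable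
  have h2 : MeasurableSet {z : ℝ × ℝ | Th h z.1 < z.2} := measurableSet_lt h1 measurable_snd
  have h3 : MeasurableSet {z : ℝ × ℝ | z.2 < Th h z.1 + π} :=
    measurableSet_lt measurable_snd (h1.add_const π)
  have h4 : MeasurableSet {z : ℝ × ℝ | 0 ≤ z.1} := measurableSet_le measurable_const measurable_fst
  have h5 : MeasurableSet {z : ℝ × ℝ | z.1 < 2 * π} :=
    measurableSet_lt measurable_fst measurable_const
  exact (h2.inter h3).inter (h4.inter h5)

theorem F_red_mem (hh : IsTab h) {z : ℝ × ℝ} (hz : z ∈ dom h) : red z ∈ X0 h := by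
  obtain ⟨h1, h2⟩ := hz
  have hpi : (0 : ℝ) < 2 * π := by positivity
  set k : ℤ := ⌊z.1 / (2 * π)⌋ with hk
  have h3 : Th h (z.1 - 2 * π * k) = Th h z.1 - 2 * π * k := by
    have h4 := F_Th_add_int hh z.1 (-k)
    have h5 : z.1 + 2 * π * ((-k : ℤ) : ℝ) = z.1 - 2 * π * k := by push_cast; ring
    rw [h5] at h4
    rw [h4]
    push_cast
    ring
  have h6 : (k : ℝ) ≤ z.1 / (2 * π) := Int.floor_le _
  have h7 : z.1 / (2 * π) < k + 1 := Int.lt_floor_add_one _
  rw [le_div_iff₀ hpi] at h6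
  rw [div_lt_iff₀ hpi] at h7
  show (Th h (z.1 - 2 * π * k) < z.2 - 2 * π * k ∧
    z.2 - 2 * π * k < Th h (z.1 - 2 * π * k) + π) ∧ 0 ≤ z.1 - 2 * π * k ∧ z.1 - 2 * π * k < 2 * π
  rw [h3]
  refine ⟨⟨by linarith, by linarith⟩, by linarith, by linarith⟩

theorem F_Tm_mem (hG : GInput h) {z : ℝ × ℝ} (hz : z ∈ X0 h) : Tm h z ∈ X0 h := by
  unfold Tm
  rw [if_pos hz]
  exact F_red_mem hG.tab (hG.fm_dom z hz.1)

theorem F_phiB_Psi (hh : IsTab h) {z : ℝ × ℝ} (hz : z ∈ X0 h) :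
    phiB h (Psi h z) = Psi h (Tm h z) := by
  unfold phiB
  rw [if_pos ((F_Psi_mem hh z).2 hz), F_Psii_Psi hh]

theorem F_phiB_measurable (hG : GInput h) : Measurable (phiB h) := by
  have h1 : MeasurableSet (Phio (arcL h)) := measurableSet_Ico.prod measurableSet_Ioo
  have h2 : Measurable fun p : ℝ × ℝ => Psi h (Tm h (Psii h p)) :=
    (F_Psi_continuous hG.tab).measurable.comp
      (hG.mp.measurable.comp (F_Psii_continuous hG.tab).measurable)
  unfold phiB
  exact Measurable.ite h1 h2 measurable_id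

end BilEnt
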