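import Pool.Agent.BilEnt.F07

/-!
# Part F, module F08: the Liouville measure

`F_map_mu`: the image of `mu h = sp(u) sin(A - Th u) du dA` on `X0 h` under `Psi h` is `sin θ dx dθ` on
`Phi (arcL h)`.

Proof. It is enough to compare `∫⁻ F` for measurable `F ≥ 0`.  The derivative of `Psi h` at `(u, A)` is
`(a, b) ↦ (sp u * a, b - Thd u * a)`, of determinant `sp h u > 0`; `Psi h` is injective with
`Psi h '' X0 h = Phio (arcL h)` (module F07).  By the change of variables formula
(`MeasureTheory.lintegral_image_eq_lintegral_abs_det_fderiv_mul`)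
`∫⁻_{Phio} F(p) sin θ dp = ∫⁻_{X0} sp(u) F(Psi z) sin (A - Th u) dz = ∫⁻ F ∘ Psi d(mu h)`.
(Alternatively without determinants: `Psi` is the composition of the shear `(u, A) ↦ (u, A - Th u)`, which
preserves Lebesgue measure, `MeasureTheory.MeasurePreserving.skew_product`/`measurePreserving_add_right` fibrewise,
and of `(u, θ) ↦ (arc u, θ)`, treated by Fubini and the one-dimensional change of variables
`lintegral_image_eq_lintegral_abs_deriv_mul`.)
Finally `Phi (arcL h) \ Phio (arcL h)` (where `θ = 0` or `θ = π`) is a null set, and `sin = 0` there anyway.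

`F_mass`: the total mass is `∫_0^L dx ∫_0^π sin θ dθ = 2 L`
(`integral_sin`, `ofReal_integral_eq_lintegral_ofReal`; volume on `ℝ × ℝ` is the product measure).
-/

open MeasureTheory Real
open scoped ENNReal

namespace BilEnt

variable {h : ℝ → ℝ}

theorem F08_sin : ∫⁻ y in Set.Icc (0 : ℝ) π, ENNReal.ofReal (sin y) = ENNReal.ofReal 2 := by
  rw [← ofReal_integral_eq_lintegral_ofReal]
  · rw [MeasureTheory.integral_Icc_eq_integral_Ioc, ← intervalIntegral.integral_of_le pi_pos.le,
      integral_sin, cos_zero, cos_pi]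
    norm_num
  · exact continuous_sin.continuousOn.integrableOn_Icc
  · rw [Filter.EventuallyLE, ae_restrict_iff' measurableSet_Icc]
    exact Filter.Eventually.of_forall fun y hy => sin_nonneg_of_nonneg_of_le_pi hy.1 hy.2

theorem F_mass {L : ℝ} (hL : 0 < L) :
    (((volume : Measure (ℝ × ℝ)).restrict (Phi L)).withDensity
      (fun z => ENNReal.ofReal (sin z.2))) Set.univ = ENNReal.ofReal (2 * L) := by
  rw [withDensity_apply _ MeasurableSet.univ, Measure.restrict_univ]
  unfold Phi
  rw [Measure.volume_eq_prod, ← Measure.prod_restrict, lintegral_prod]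
  · simp only [F08_sin]
    rw [lintegral_const, Measure.restrict_apply MeasurableSet.univ, Set.univ_inter,
      Real.volume_Ico, sub_zero, ← ENNReal.ofReal_mul (by norm_num)]
  · exact (ENNReal.measurable_ofReal.comp (continuous_sin.measurable.comp
      measurable_snd)).aemeasurable

/-- the derivative of `Psi h` -/
noncomputable def F08_der (h : ℝ → ℝ) (z : ℝ × ℝ) : (ℝ × ℝ) →L[ℝ] (ℝ × ℝ) :=
  LinearMap.toContinuousLinearMap (Matrix.toLin (Module.Basis.finTwoProd ℝ)
    (Module.Basis.finTwoProd ℝ) !![sp h z.1, 0; -Thd h z.1, 1])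

theorem F08_det (z : ℝ × ℝ) : (F08_der h z).det = sp h z.1 := by
  unfold F08_der
  simp only [LinearMap.det_toContinuousLinearMap, LinearMap.det_toLin, Matrix.det_fin_two_of]
  ring

theorem F08_hasFDerivAt (hh : IsTab h) (z : ℝ × ℝ) : HasFDerivAt (Psi h) (F08_der h z) z := by
  unfold F08_der
  rw [Matrix.toLin_finTwoProd_toContinuousLinearMap]
  have h1 : HasFDerivAt (fun z : ℝ × ℝ => arc h z.1)
      (sp h z.1 • ContinuousLinearMap.fst ℝ ℝ ℝ) z :=
    (F_arc_hasDerivAt hh z.1).comp_hasFDerivAt z hasFDerivAt_fst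
  have h2 : HasFDerivAt (fun z : ℝ × ℝ => Th h z.1)
      (Thd h z.1 • ContinuousLinearMap.fst ℝ ℝ ℝ) z :=
    (F_Th_hasDerivAt hh z.1).comp_hasFDerivAt z hasFDerivAt_fst
  have h3 : HasFDerivAt (fun z : ℝ × ℝ => z.2 - Th h z.1)
      (ContinuousLinearMap.snd ℝ ℝ ℝ - Thd h z.1 • ContinuousLinearMap.fst ℝ ℝ ℝ) z :=
    hasFDerivAt_snd.sub h2
  refine (h1.prodMk h3).congr_fderiv ?_
  congr 1
  · ext <;> simp
  · ext <;> simp

theorem F08_image (hh : IsTab h) : Psi h '' X0 h = Phio (arcL h) := by
  ext p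
  constructor
  · rintro ⟨z, hz, rfl⟩
    exact (F_Psi_mem hh z).2 hz
  · intro hp
    exact ⟨Psii h p, (F_Psii_mem hh p).2 hp, F_Psi_Psii hh p⟩

theorem F08_inj (hh : IsTab h) : Function.Injective (Psi h) :=
  Function.LeftInverse.injective (g := Psii h) (F_Psii_Psi hh)

theorem F08_map_density {X Y : Type*} [MeasurableSpace X] [MeasurableSpace Y] (μ : Measure X)
    {f : X → Y} (hf : Measurable f) {g : Y → ℝ≥0∞} (hg : Measurable g) :
    Measure.map f (μ.withDensity fun x => g (f x)) = (Measure.map f μ).withDensity g := by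
  ext s hs
  rw [Measure.map_apply hf hs, withDensity_apply _ (hf hs), withDensity_apply _ hs,
    Measure.restrict_map hf hs, lintegral_map hg hf]

theorem F08_sp_meas (hh : IsTab h) : Measurable fun z : ℝ × ℝ => ENNReal.ofReal (sp h z.1) :=
  ENNReal.measurable_ofReal.comp ((F_sp_continuous hh).measurable.comp measurable_fst)

theorem F08_sin_meas : Measurable fun z : ℝ × ℝ => ENNReal.ofReal (sin z.2) :=
  ENNReal.measurable_ofReal.comp (continuous_sin.measurable.comp measurable_snd)

theorem F08_Phi (L : ℝ) : (volume : Measure (ℝ × ℝ)).restrict (Phio L) =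
    (volume : Measure (ℝ × ℝ)).restrict (Phi L) := by
  apply Measure.restrict_congr_set
  unfold Phio Phi
  rw [Measure.volume_eq_prod]
  exact Measure.set_prod_ae_eq Filter.EventuallyEq.rfl Ioo_ae_eq_Icc

theorem F_map_mu (hh : IsTab h) :
    Measure.map (Psi h) (mu h) =
      ((volume : Measure (ℝ × ℝ)).restrict (Phi (arcL h))).withDensity
        (fun z => ENNReal.ofReal (sin z.2)) := by
  have hPm : Measurable (Psi h) := (F_Psi_continuous hh).measurable
  have h1 : Measure.map (Psi h) (((volume : Measure (ℝ × ℝ)).restrict (X0 h)).withDensity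
      fun z => ENNReal.ofReal |(F08_der h z).det|) =
      (volume : Measure (ℝ × ℝ)).restrict (Psi h '' X0 h) :=
    map_withDensity_abs_det_fderiv_eq_addHaar volume (F_X0_measurable hh).nullMeasurableSet
      (fun z _ => (F08_hasFDerivAt hh z).hasFDerivWithinAt) ((F08_inj hh).injOn)
  have h2 : (fun z : ℝ × ℝ => ENNReal.ofReal |(F08_der h z).det|) =
      fun z => ENNReal.ofReal (sp h z.1) := by
    funext z
    rw [F08_det, abs_of_pos (F_sp_pos z.1)]
  rw [h2, F08_image hh, F08_Phi] at h1
  have h3 : mu h = (((volume : Measure (ℝ × ℝ)).restrict (X0 h)).withDensity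
      fun z => ENNReal.ofReal (sp h z.1)).withDensity
        fun z => (fun p : ℝ × ℝ => ENNReal.ofReal (sin p.2)) (Psi h z) := by
    unfold mu
    have h4 := withDensity_mul ((volume : Measure (ℝ × ℝ)).restrict (X0 h)) (F08_sp_meas hh)
      (F08_sin_meas.comp hPm)
    rw [restrict_withDensity (F_X0_measurable hh)]
    refine Eq.trans ?_ h4
    congr 1
    funext z
    change ENNReal.ofReal (pw h z) = ENNReal.ofReal (sp h z.1) * ENNReal.ofReal (sin (Psi h z).2)
    rw [← ENNReal.ofReal_mul (F_sp_pos z.1).le]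
    rfl
  rw [h3, F08_map_density _ hPm F08_sin_meas, h1]

theorem F_mu_univ (hh : IsTab h) : mu h Set.univ = ENNReal.ofReal (2 * arcL h) := by
  have h1 := F_map_mu hh
  have h2 : Measure.map (Psi h) (mu h) Set.univ = mu h Set.univ := by
    rw [Measure.map_apply (F_Psi_continuous hh).measurable MeasurableSet.univ, Set.preimage_univ]
  rw [← h2, h1, F_mass (F_arcL_pos hh)]

theorem F_liouville (hh : IsTab h) :
    Measure.map (Psi h) ((mu h Set.univ)⁻¹ • mu h) = liouville (arcL h) := by
  have hL : 0 < 2 * arcL h := mul_pos two_pos (F_arcL_pos hh)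
  rw [Measure.map_smul, F_map_mu hh, F_mu_univ hh]
  unfold liouville
  rw [one_div, ENNReal.ofReal_inv_of_pos hL]

end BilEnt
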