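import Pool.Agent.BilEnt.F06
import Pool.Agent.BilEnt.F07

/-!
# Part F, module F09: `phiB` is the billiard map

Let `p = (x, θ) ∈ Phio (arcL h)`, `z = Psii h p = (u, A) ∈ X0 h`, `u = arcI h x`, `A = θ + Th h u`;
`Tm h z = red (fm h z)`, `fm h z = (V, 2 Th V - A)`, `V = V h z`, and with `k = ⌊V/(2π)⌋`:
`Tm h z = (V - 2πk, 2 Th V - A - 2πk)`, `phiB h p = Psi h (Tm h z) = (arc (V - 2πk), 2 Th V - A - 2πk - Th (V - 2πk))
= (arc (V - 2πk), Th V - A)` (`F_Th_add_int` with `-k`).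

* maps: `Psi h` maps `X0 h` into `Phio ⊆ Phi`; off `Phio` the map is the identity.
* tangent: `(x, 0)` and `(x, π)` are not in `Phio`.
* flight: `t = hl h z`; `cc h (arc (V - 2πk)) = gam h (V - 2πk) = gam h V = gam h u + t ev A` (`hG.chord`), and
  `dirv (cc h) x θ = exp(iθ) ev (Th h u) = ev A`; interior: `F_chord_interior`.
* reflection: left side `ev (Th V - A) * ev (Th h (V - 2πk)) = ev (Th V - A) * ev (Th V) = ev (2 Th V - A)`
  (`ev` is `2π`-periodic); right side `ev (Th V)² * conj (ev A) = ev (2 Th V - A)`.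
-/

open MeasureTheory Real
open scoped ENNReal

namespace BilEnt

variable {h : ℝ → ℝ}

theorem F_ev_add (A B : ℝ) : ev (A + B) = ev A * ev B := by
  unfold ev
  rw [← Complex.exp_add]
  congr 1
  push_cast
  ring

theorem F_conj_ev (A : ℝ) : starRingEnd ℂ (ev A) = ev (-A) := by
  unfold ev
  rw [← Complex.exp_conj, map_mul, Complex.conj_ofReal, Complex.conj_I]
  congr 1
  push_cast
  ring

theorem F_ev_add_int (A : ℝ) (k : ℤ) : ev (A + 2 * π * k) = ev A := by
  rw [F_ev_add]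
  have h1 : ev (2 * π * k) = 1 := by
    unfold ev
    have h2 : (((2 * π * k : ℝ) : ℂ) * Complex.I) = (k : ℂ) * (2 * (π : ℂ) * Complex.I) := by
      push_cast
      ring
    rw [h2, Complex.exp_int_mul_two_pi_mul_I]
  rw [h1, mul_one]

/-- the value of `phiB` on the open phase space -/
theorem F09_val (hG : GInput h) {p : ℝ × ℝ} (hp : p ∈ Phio (arcL h)) :
    ∃ k : ℤ, phiB h p = (arc h (V h (Psii h p) + 2 * π * k),
      Th h (V h (Psii h p)) - (Psii h p).2) := by
  have hh := hG.tab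
  have hz : Psii h p ∈ X0 h := (F_Psii_mem hh p).2 hp
  refine ⟨-⌊V h (Psii h p) / (2 * π)⌋, ?_⟩
  have h1 : phiB h p = Psi h (Tm h (Psii h p)) := by
    unfold phiB
    rw [if_pos hp]
  have h2 : Tm h (Psii h p) = (V h (Psii h p) + 2 * π * ((-⌊V h (Psii h p) / (2 * π)⌋ : ℤ) : ℝ),
      2 * Th h (V h (Psii h p)) - (Psii h p).2
        + 2 * π * ((-⌊V h (Psii h p) / (2 * π)⌋ : ℤ) : ℝ)) := by
    unfold Tm
    rw [if_pos hz]
    unfold red fm
    refine Prod.ext ?_ ?_
    · push_cast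
      ring
    · push_cast
      ring
  rw [h1, h2]
  unfold Psi
  refine Prod.ext rfl ?_
  change _ - Th h (V h (Psii h p) + 2 * π * ((-⌊V h (Psii h p) / (2 * π)⌋ : ℤ) : ℝ)) = _
  rw [F_Th_add_int hh]
  ring

theorem F09_dirv (hG : GInput h) (x θ : ℝ) :
    dirv (cc h) x θ = ev (Psii h (x, θ)).2 := by
  unfold dirv
  rw [F_cc_deriv hG.tab]
  change ev θ * ev (Th h (arcI h x)) = ev (θ + Th h (arcI h x))
  rw [F_ev_add]

theorem F09_mem {x θ : ℝ} (hp : (x, θ) ∈ Phi (arcL h)) (h0 : 0 < θ) (h1 : θ < π) :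
    (x, θ) ∈ Phio (arcL h) := by
  unfold Phi at hp
  unfold Phio
  exact ⟨hp.1, h0, h1⟩

theorem F_billiard (hG : GInput h) :
    IsBilliardMap (Yb h) (arcL h) (cc h) (phiB h) := by
  have hh := hG.tab
  refine ⟨?_, ?_, ?_, ?_⟩
  · intro p hp
    by_cases hp' : p ∈ Phio (arcL h)
    · have h1 : phiB h p = Psi h (Tm h (Psii h p)) := by
        unfold phiB
        rw [if_pos hp']
      have h2 : phiB h p ∈ Phio (arcL h) := by
        rw [h1, F_Psi_mem hh]
        exact F_Tm_mem hG ((F_Psii_mem hh p).2 hp')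
      unfold Phio at h2
      unfold Phi
      exact ⟨h2.1, h2.2.1.le, h2.2.2.le⟩
    · have h1 : phiB h p = p := by
        unfold phiB
        rw [if_neg hp']
      rw [h1]
      exact hp
  · intro x θ hp h0 h1
    have hp' := F09_mem hp h0 h1
    have hz : Psii h (x, θ) ∈ X0 h := (F_Psii_mem hh (x, θ)).2 hp'
    have hzd : Psii h (x, θ) ∈ dom h := hz.1
    obtain ⟨k, hk⟩ := F09_val hG hp'
    refine ⟨hl h (Psii h (x, θ)), hG.hl_pos _ hzd, ?_, ?_⟩
    · rw [hk, F09_dirv hG]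
      unfold cc
      change gam h (arcI h (arc h _)) = gam h (Psii h (x, θ)).1 + _
      rw [F_arcI_arc hh, F_gam_add_int hh, ← hG.chord _ hzd]
      ring
    · intro s hs0 hs1
      rw [F09_dirv hG]
      exact F_chord_interior hG hzd hs0 hs1
  · intro x θ hp h0 h1
    have hp' := F09_mem hp h0 h1
    obtain ⟨k, hk⟩ := F09_val hG hp'
    have h3 : deriv (cc h) (phiB h (x, θ)).1 = ev (Th h (V h (Psii h (x, θ)))) := by
      rw [F_cc_deriv hh, hk]
      change ev (Th h (arcI h (arc h _))) = _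
      rw [F_arcI_arc hh, F_Th_add_int hh, F_ev_add_int]
    have h4 : dirv (cc h) (phiB h (x, θ)).1 (phiB h (x, θ)).2 =
        ev (phiB h (x, θ)).2 * deriv (cc h) (phiB h (x, θ)).1 := rfl
    rw [h4, h3, F09_dirv hG, F_conj_ev, hk, pow_two, ← F_ev_add, ← F_ev_add, ← F_ev_add]
    congr 1
    ring
  · intro x θ _ hθ
    unfold phiB
    rw [if_neg]
    intro hp
    unfold Phio at hp
    rcases hθ with rfl | rfl
    · exact lt_irrefl _ hp.2.1
    · exact lt_irrefl _ hp.2.2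

end BilEnt
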