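import Pool.Agent.BilEnt.FinalDefs

/-!
# Part F, module F10: entropy and factors (abstract)

`ν` is the image of `μ` under `Ψ`, `Φ` is a left inverse of `Ψ` on an invariant set `E` of full measure, and
`S ∘ Ψ = Ψ ∘ T` on `E`.

* `S^[i] (Ψ x) = Ψ (T^[i] x)` and `T^[i] x ∈ E` for `x ∈ E`, by induction on `i`.
* for a partition `ξ : X → Fin m` take `ξ' = ξ ∘ Φ`.  Then
  `{y | ∀ i, ξ' (S^[i] y) = a i}` is measurable and its `ν`-measure is the `μ`-measure of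
  `{x | ∀ i, ξ (Φ (S^[i] (Ψ x))) = a i}` (`Measure.map_apply`), which agrees with `{x | ∀ i, ξ (T^[i] x) = a i}` on
  `E`, hence up to a null set (`measure_congr`).  So `Hent ν S ξ' n = Hent μ T ξ n`.
* `KS μ T ≤ KS ν S`: `iSup_le` and `le_iSup`.
-/

open MeasureTheory Real
open scoped ENNReal

namespace BilEnt

theorem F10_iter {X Y : Type*} {T : X → X} {S : Y → Y} {Ψ : X → Y} {E : Set X}
    (hTE : ∀ x ∈ E, T x ∈ E) (hST : ∀ x ∈ E, S (Ψ x) = Ψ (T x)) (i : ℕ) :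
    ∀ x ∈ E, T^[i] x ∈ E ∧ S^[i] (Ψ x) = Ψ (T^[i] x) := by
  induction i with
  | zero => intro x hx; exact ⟨hx, rfl⟩
  | succ n ih =>
    intro x hx
    obtain ⟨h1, h2⟩ := ih (T x) (hTE x hx)
    refine ⟨by simpa [Function.iterate_succ_apply] using h1, ?_⟩
    rw [Function.iterate_succ_apply, Function.iterate_succ_apply, hST x hx, h2]

theorem F_Hent_factor {X Y : Type*} [MeasurableSpace X] [MeasurableSpace Y] {μ : Measure X}
    {ν : Measure Y} {T : X → X} {S : Y → Y} {Ψ : X → Y} {Φ : Y → X} (hT : Measurable T)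
    (hS : Measurable S) (hΨ : Measurable Ψ) (hΦ : Measurable Φ) (hν : Measure.map Ψ μ = ν)
    {E : Set X} (hE : ∀ᵐ x ∂μ, x ∈ E) (hTE : ∀ x ∈ E, T x ∈ E) (hΦΨ : ∀ x ∈ E, Φ (Ψ x) = x)
    (hST : ∀ x ∈ E, S (Ψ x) = Ψ (T x)) {m : ℕ} {ξ : X → Fin m} (hξ : Measurable ξ) (n : ℕ) :
    Hent ν S (fun y => ξ (Φ y)) n = Hent μ T ξ n := by
  unfold Hent
  refine Finset.sum_congr rfl fun a _ => ?_
  have hmeas : MeasurableSet {y | ∀ i : Fin n, ξ (Φ (S^[i] y)) = a i} := by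
    have : {y | ∀ i : Fin n, ξ (Φ (S^[i] y)) = a i}
        = ⋂ i : Fin n, (fun y => ξ (Φ (S^[i] y))) ⁻¹' {a i} := by
      ext y; simp
    rw [this]
    refine MeasurableSet.iInter fun i => ?_
    exact (hξ.comp (hΦ.comp (hS.iterate i))) (measurableSet_singleton _)
  have hkey : ν {y | ∀ i : Fin n, ξ (Φ (S^[i] y)) = a i}
      = μ {x | ∀ i : Fin n, ξ (T^[i] x) = a i} := by
    rw [← hν, Measure.map_apply hΨ hmeas]
    refine measure_congr ?_
    filter_upwards [hE] with x hx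
    apply propext
    show (∀ i : Fin n, ξ (Φ (S^[i] (Ψ x))) = a i) ↔ (∀ i : Fin n, ξ (T^[i] x) = a i)
    refine forall_congr' fun i => ?_
    obtain ⟨h1, h2⟩ := F10_iter hTE hST i x hx
    rw [h2, hΦΨ _ h1]
  rw [hkey]

theorem F_KS_factor {X Y : Type*} [MeasurableSpace X] [MeasurableSpace Y] {μ : Measure X}
    {ν : Measure Y} {T : X → X} {S : Y → Y} {Ψ : X → Y} {Φ : Y → X} (hT : Measurable T)
    (hS : Measurable S) (hΨ : Measurable Ψ) (hΦ : Measurable Φ) (hν : Measure.map Ψ μ = ν)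
    {E : Set X} (hE : ∀ᵐ x ∂μ, x ∈ E) (hTE : ∀ x ∈ E, T x ∈ E) (hΦΨ : ∀ x ∈ E, Φ (Ψ x) = x)
    (hST : ∀ x ∈ E, S (Ψ x) = Ψ (T x)) : KS μ T ≤ KS ν S := by
  unfold KS
  refine iSup_le fun m => iSup_le fun ξ => iSup_le fun hξ => ?_
  have hm : Measurable (fun y => ξ (Φ y)) := hξ.comp hΦ
  refine le_iSup_of_le m (le_iSup_of_le (fun y => ξ (Φ y)) (le_iSup_of_le hm ?_))
  have : ∀ n : ℕ, Hent ν S (fun y => ξ (Φ y)) n = Hent μ T ξ n := fun n =>
    F_Hent_factor hT hS hΨ hΦ hν hE hTE hΦΨ hST hξ n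
  simp only [this]
  exact le_rfl

end BilEnt
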