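import Pool.Agent.BilEnt.F08
import Pool.Agent.BilEnt.F09
import Pool.Agent.BilEnt.F10

/-!
# Part F, module F11: the final theorem from the inputs of the parts G and P

* `F_liouville_prob`: `liouville L` is a probability measure (`F_mass`).
* `F_mp`: `phiB h` preserves `liouville (arcL h)`: it is measurable (`F_phiB_measurable`); for a measurable set `B`,
  `liouville (phiB⁻¹ B) = c * mu {z | phiB (Psi z) ∈ B}` (`F_liouville`, `Measure.map_apply`), and on `X0 h` (full
  `mu`-measure, `mu` is a restriction) `phiB (Psi z) = Psi (Tm z)`; `Tm h` preserves `mu h`.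
  (Use `MeasurePreserving` for `Psi h : (c • mu h) → liouville`, and that `phiB h ∘ Psi h = Psi h ∘ Tm h` a.e.;
  `MeasurePreserving.of_semiconj`-type statements or directly by `Measure.map_map`, `Measure.map_congr`.)
* `F_final`: `F_KS_factor` with `X = Y = ℝ × ℝ`, `μ = (mu h univ)⁻¹ • mu h`, `ν = liouville (arcL h)`, `T = Tm h`,
  `S = phiB h`, `Ψ = Psi h`, `Φ = Psii h`, `E = X0 h`.
-/

open MeasureTheory Real
open scoped ENNReal

namespace BilEnt

variable {h : ℝ → ℝ}

theorem F_liouville_prob {L : ℝ} (hL : 0 < L) : IsProbabilityMeasure (liouville L) := by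
  refine ⟨?_⟩
  unfold liouville
  rw [Measure.smul_apply, F_mass hL, smul_eq_mul, ← ENNReal.ofReal_mul (by positivity)]
  rw [one_div_mul_cancel (by positivity)]
  exact ENNReal.ofReal_one

theorem F11_ae_mem (h : ℝ → ℝ) (hh : IsTab h) (c : ℝ≥0∞) : ∀ᵐ x ∂(c • mu h), x ∈ X0 h := by
  have h1 : ∀ᵐ x ∂(mu h), x ∈ X0 h := by
    unfold mu
    exact ae_restrict_mem (F_X0_measurable hh)
  exact Measure.ae_smul_measure h1 c

theorem F11_mp_smul (hG : GInput h) (c : ℝ≥0∞) :
    MeasurePreserving (Tm h) (c • mu h) (c • mu h) := by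
  refine ⟨hG.mp.measurable, ?_⟩
  rw [Measure.map_smul, hG.mp.map_eq]

theorem F_mp (hG : GInput h) :
    MeasurePreserving (phiB h) (liouville (arcL h)) (liouville (arcL h)) := by
  have hh := hG.tab
  refine ⟨F_phiB_measurable hG, ?_⟩
  conv_lhs => rw [← F_liouville hh]
  have hΨ : Measurable (Psi h) := (F_Psi_continuous hh).measurable
  rw [Measure.map_map (F_phiB_measurable hG) hΨ]
  have hae : (phiB h ∘ Psi h) =ᵐ[(mu h Set.univ)⁻¹ • mu h] (Psi h ∘ Tm h) := by
    filter_upwards [F11_ae_mem h hh (mu h Set.univ)⁻¹] with z hz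
    exact F_phiB_Psi hh hz
  rw [Measure.map_congr hae, ← Measure.map_map hΨ hG.mp.measurable,
    (F11_mp_smul hG (mu h Set.univ)⁻¹).map_eq, F_liouville hh]

theorem F_final (hG : GInput h) (hK : 0 < KS ((mu h Set.univ)⁻¹ • mu h) (Tm h)) :
    ∃ (Y : Set ℂ) (L : ℝ) (c : ℝ → ℂ) (φ : ℝ × ℝ → ℝ × ℝ),
      IsBilliardTable Y L c ∧ IsBilliardMap Y L c φ ∧ IsProbabilityMeasure (liouville L) ∧
      MeasurePreserving φ (liouville L) (liouville L) ∧ 0 < KS (liouville L) φ := by
  have hh := hG.tab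
  refine ⟨Yb h, arcL h, cc h, phiB h, F_table hG, F_billiard hG,
    F_liouville_prob (F_arcL_pos hh), F_mp hG, lt_of_lt_of_le hK ?_⟩
  exact F_KS_factor (μ := (mu h Set.univ)⁻¹ • mu h) (ν := liouville (arcL h)) (T := Tm h)
    (S := phiB h) (Ψ := Psi h) (Φ := Psii h) hG.mp.measurable (F_phiB_measurable hG)
    (F_Psi_continuous hh).measurable (F_Psii_continuous hh).measurable (F_liouville hh)
    (E := X0 h) (F11_ae_mem h hh _) (fun x hx => F_Tm_mem hG hx) (fun x _ => F_Psii_Psi hh x)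
    (fun x hx => F_phiB_Psi hh hx)

end BilEnt
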