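import Pool.Agent.BilEnt.F11
import Pool.Agent.BilEnt.G03
import Pool.Agent.BilEnt.G15

/-!
# Part F, module F12: the inputs from the geometry
-/

open MeasureTheory Real
open scoped ENNReal

namespace BilEnt

variable {h : ℝ → ℝ}

theorem F12_wedge (r : ℝ) (a b : ℂ) : wedge ((r : ℂ) * a) b = r * wedge a b := by
  unfold wedge
  simp only [Complex.mul_re, Complex.mul_im, Complex.ofReal_re, Complex.ofReal_im, zero_mul,
    sub_zero, add_zero]
  ring

theorem gInput_of_tab (hh : IsTab h) : GInput h where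
  tab := hh
  conv := by
    intro u w h1 h2
    have h3 := (wedge_bounds hh h1 h2).1
    have h4 := ds_pos h1 h2
    rw [F12_wedge] at h3
    have h5 : 0 < sp h u * wedge (ev (Th h u)) (gam h w - gam h u) :=
      lt_of_lt_of_le (by positivity) h3
    exact (pos_iff_pos_of_mul_pos h5).1 (F_sp_pos u)
  V_gt := fun _ hz => (V_spec hh hz).1
  V_lt := fun _ hz => (V_spec hh hz).2.1
  chord := fun _ hz => chord_V hh hz
  hl_pos := fun _ hz => hl_pos hh hz
  fm_dom := fun _ hz => fm_mem hh hz
  mp := mp_Tm hh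

/-- the final theorem from the entropy of one table -/
theorem F_final_of_tab (hh : IsTab h) (hK : 0 < KS ((mu h Set.univ)⁻¹ • mu h) (Tm h)) :
    ∃ (Y : Set ℂ) (L : ℝ) (c : ℝ → ℂ) (φ : ℝ × ℝ → ℝ × ℝ),
      IsBilliardTable Y L c ∧ IsBilliardMap Y L c φ ∧ IsProbabilityMeasure (liouville L) ∧
      MeasurePreserving φ (liouville L) (liouville L) ∧ 0 < KS (liouville L) φ :=
  F_final (gInput_of_tab hh) hK

end BilEnt
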