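import Pool.Agent.BilEnt.F12
import Pool.Agent.BilEnt.A05
import Pool.Agent.BilEnt.A06
import Pool.Agent.BilEnt.B18S2
import Pool.Agent.BilEnt.D04

/-!
# Final assembly of MP_bd32bb_an
-/

open MeasureTheory Real
open scoped ENNReal

namespace BilEnt

theorem final_one_le {N n : ℕ} (hN : 3 ≤ N) (hn : (log N) ^ 2 ≤ (n : ℝ)) : 1 ≤ n := by
  have h1 : (0 : ℝ) < log N := Real.log_pos (by exact_mod_cast (by omega : 1 < N))
  have h2 : (0 : ℝ) < n := lt_of_lt_of_le (by positivity) hn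
  exact_mod_cast h2

/-- (D1) in the form used by part A -/
theorem final_D1 : ∃ C : ℝ, ∃ N1 : ℕ, ∀ N ≥ N1, ∀ n : ℕ, (log N) ^ 2 ≤ n → ∀ x : ℝ, 0 < x →
    Pr N {y | x < Dn (TT N) (TTi N) (MM N) n y} ≤
      ENNReal.ofReal (C * (n : ℝ) ^ (-(4 : ℝ)) +
        exp (C * (n : ℝ) ^ ((1 : ℝ) / 4) * log N - x)) := by
  obtain ⟨C, N1, -, -, h⟩ := D1
  refine ⟨C, max 3 ⌈N1⌉₊, fun N hN n hn x hx => ?_⟩
  exact h N ((Nat.le_ceil _).trans (Nat.cast_le.2 ((le_max_right _ _).trans hN))) n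
    (final_one_le ((le_max_left _ _).trans hN) hn) x hx

/-- (D2) in the form used by part B -/
theorem final_D2 : ∃ C : ℝ, ∃ N1 : ℕ, ∀ N ≥ N1, ∀ n : ℕ, (log N) ^ 2 ≤ n →
    ∫ y, Dn (TT N) (TTi N) (MM N) n y ∂(Pr N) ≤ C * (n : ℝ) ^ ((1 : ℝ) / 4) * log N := by
  obtain ⟨C, N1, -, -, h⟩ := D2
  refine ⟨C, max 3 ⌈N1⌉₊, fun N hN n hn => ?_⟩
  exact h N ((Nat.le_ceil _).trans (Nat.cast_le.2 ((le_max_right _ _).trans hN))) n
    (final_one_le ((le_max_left _ _).trans hN) hn)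

/-- THE FINAL THEOREM: there is a convex billiard table with `C²` boundary whose billiard map has
positive Kolmogorov–Sinai entropy with respect to the Liouville measure. -/
theorem final :
    ∃ (Y : Set ℂ) (L : ℝ) (c : ℝ → ℂ) (φ : ℝ × ℝ → ℝ × ℝ),
      IsBilliardTable Y L c ∧ IsBilliardMap Y L c φ ∧ IsProbabilityMeasure (liouville L) ∧
      MeasurePreserving φ (liouville L) (liouville L) ∧ 0 < KS (liouville L) φ := by
  obtain ⟨h, K0, hh, hol, lam, K, A, v, w, H⟩ := exists_P0 n0 final_D1 (base_S2 final_D2)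
  exact F_final_of_tab hh (KS_pos_of_P0 H hh hol)

end BilEnt
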