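import Pool.Agent.BilEnt.Defs

/-!
# MP_bd32bb_an : (N2) the chain of coincidences (deterministic)
-/

namespace BilEnt

/-- (N2) If some coincidence `D i j ≤ σ 0` occurs in `[0, n]`, `n ≤ 2 ^ K`, and consecutive points are
never `σ K`-close, then for some `k < K` there is a `σ k`-coincidence of lag `l ≥ 2` such that all pairs
of lag at most `⌈l/2⌉` between its two times are `σ (k+1)`-apart. -/
theorem chain {n K : ℕ} (hK : n ≤ 2 ^ K) (σ : ℕ → ℝ) (hσ : Monotone σ) (D : ℕ → ℕ → ℝ)
    (h1 : ∀ i < n, σ K < D i (i + 1)) {i j : ℕ} (hij : i < j) (hj : j ≤ n) (hD : D i j ≤ σ 0) :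
    ∃ k < K, ∃ a l, 2 ≤ l ∧ a + l ≤ n ∧ D a (a + l) ≤ σ k ∧
      ∀ b c, a ≤ b → b < c → c ≤ a + l → c - b ≤ (l + 1) / 2 → σ (k + 1) < D b c := by
  by_contra hcon
  push Not at hcon
  have key : ∀ k ≤ K, ∃ a l, 1 ≤ l ∧ l ≤ 2 ^ (K - k) ∧ a + l ≤ n ∧ D a (a + l) ≤ σ k := by
    intro k
    induction k with
    | zero =>
      intro _
      refine ⟨i, j - i, by omega, by rw [Nat.sub_zero]; omega, by omega, ?_⟩
      rw [Nat.add_sub_cancel' hij.le]
      exact hD
    | succ k ih =>
      intro hk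
      obtain ⟨a, l, hl1, hl2, hal, hDa⟩ := ih (by omega)
      rcases Nat.lt_or_ge l 2 with h2 | h2
      · exfalso
        have hl : l = 1 := by omega
        subst hl
        have := h1 a (by omega)
        have h3 := hσ (show k ≤ K by omega)
        linarith
      · obtain ⟨b, c, hab, hbc, hcl, hlag, hDbc⟩ := hcon k (by omega) a l h2 hal hDa
        have hpow : 2 ^ (K - k) = 2 * 2 ^ (K - (k + 1)) := by
          rw [← pow_succ']
          congr 1
          omega
        refine ⟨b, c - b, by omega, by omega, by omega, ?_⟩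
        rw [Nat.add_sub_cancel' hbc.le]
        exact hDbc
  obtain ⟨a, l, hl1, hl2, hal, hDa⟩ := key K le_rfl
  rw [Nat.sub_self, pow_zero] at hl2
  have hl : l = 1 := by omega
  subst hl
  have := h1 a (by omega)
  linarith

end BilEnt
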