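import Pool.Agent.BilEnt.Defs

/-!
# MP_bd32bb_an : (N3) the choice of the constants in the chain
-/

open Real

namespace BilEnt

/-- constants of the chain: `σ k = exp (-(C2 n^{1/4} log N) (15/16)^k)` -/
theorem n3_arith (C1 Cg : ℝ) (h1 : 1 ≤ C1) (hg : 1 ≤ Cg) :
    ∃ C2 : ℝ, C1 ≤ C2 ∧ ∀ (N n K : ℕ), C2 ≤ N → 1 ≤ n → 2 ^ K < 2 * n → ∀ k ≤ K, ∀ σ : ℝ,
      σ = exp (-(C2 * (n : ℝ) ^ ((1 : ℝ) / 4) * log N) * (15 / 16) ^ k) →
      σ ≤ ((n : ℝ) * N) ^ (-C1) ∧ σ < 1 / (Cg * (n : ℝ) ^ 3) ∧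
      (K : ℝ) * (n : ℝ) ^ 2 * (((n : ℝ) * N) ^ C1 * σ ^ ((1 : ℝ) / 6400)) ≤ 1 / (n : ℝ) ^ 4 := by
  refine ⟨115200 * (C1 + 8) + Cg + 3, by nlinarith, ?_⟩
  intro N n K hN hn hK k hk σ hσ
  set C2 : ℝ := 115200 * (C1 + 8) + Cg + 3 with hC2
  have hn1 : (1 : ℝ) ≤ n := by exact_mod_cast hn
  have hn0 : (0 : ℝ) < n := by linarith
  have hN1 : (3 : ℝ) ≤ N := by nlinarith
  have hN0 : (0 : ℝ) < N := by linarith
  have hlogN : 1 ≤ log N := by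
    rw [Real.le_log_iff_exp_le hN0]
    exact (Real.exp_one_lt_d9.le.trans (by norm_num)).trans hN1
  -- the exponent
  have hp8 : (n : ℝ) ^ ((1 : ℝ) / 8) ≥ 1 := Real.one_le_rpow hn1 (by norm_num)
  have hlogn : log n ≤ 8 * (n : ℝ) ^ ((1 : ℝ) / 8) := by
    have := Real.log_le_rpow_div hn0.le (ε := (1 : ℝ) / 8) (by norm_num)
    linarith [this, div_one ((n : ℝ) ^ ((1 : ℝ) / 8)),
      show (n : ℝ) ^ ((1 : ℝ) / 8) / (1 / 8) = 8 * (n : ℝ) ^ ((1 : ℝ) / 8) by ring]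
  have hlogn0 : 0 ≤ log n := Real.log_nonneg hn1
  have hlog : log ((n : ℝ) * N) ≤ 9 * ((n : ℝ) ^ ((1 : ℝ) / 8) * log N) := by
    rw [Real.log_mul hn0.ne' hN0.ne']
    nlinarith [mul_le_mul hp8 hlogN (by norm_num) (by linarith : (0:ℝ) ≤ (n : ℝ) ^ ((1 : ℝ) / 8))]
  have hnN : (1 : ℝ) < (n : ℝ) * N := by nlinarith
  have hnN0 : (0 : ℝ) < (n : ℝ) * N := by linarith
  have hlognN : 0 < log ((n : ℝ) * N) := Real.log_pos hnN
  -- lower bound of the powers of 15/16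
  have hpow : (n : ℝ) ^ (-((1 : ℝ) / 8)) / 2 ≤ (15 / 16 : ℝ) ^ k := by
    have e1 : (15 / 16 : ℝ) ^ K ≤ (15 / 16 : ℝ) ^ k :=
      pow_le_pow_of_le_one (by norm_num) (by norm_num) hk
    refine le_trans ?_ e1
    have e2 : (1 / 2 : ℝ) ^ K ≤ ((15 / 16 : ℝ) ^ K) ^ 8 := by
      rw [← pow_mul, mul_comm, pow_mul]
      exact pow_le_pow_left₀ (by norm_num) (by norm_num) K
    have e3 : (1 / (2 * n) : ℝ) ≤ (1 / 2 : ℝ) ^ K := by
      rw [one_div_pow]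
      apply one_div_le_one_div_of_le (by positivity)
      have : ((2 ^ K : ℕ) : ℝ) < ((2 * n : ℕ) : ℝ) := by exact_mod_cast hK
      push_cast at this
      exact this.le
    have e4 : ((n : ℝ) ^ (-((1 : ℝ) / 8)) / 2) ^ 8 ≤ ((15 / 16 : ℝ) ^ K) ^ 8 := by
      refine le_trans ?_ (e3.trans e2)
      rw [div_pow, ← Real.rpow_natCast ((n : ℝ) ^ (-((1 : ℝ) / 8))), ← Real.rpow_mul hn0.le]
      norm_num
      rw [Real.rpow_neg_one]
      have : 0 < (n : ℝ)⁻¹ := by positivity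
      nlinarith
    exact le_of_pow_le_pow_left₀ (by norm_num) (by positivity) e4
  have hexp : log ((n : ℝ) * N) * (C2 / 18) ≤ C2 * (n : ℝ) ^ ((1 : ℝ) / 4) * log N * (15 / 16) ^ k := by
    have f1 : (n : ℝ) ^ ((1 : ℝ) / 4) * (n : ℝ) ^ (-((1 : ℝ) / 8)) = (n : ℝ) ^ ((1 : ℝ) / 8) := by
      rw [← Real.rpow_add hn0]
      norm_num
    have f2 : C2 * (n : ℝ) ^ ((1 : ℝ) / 4) * log N * ((n : ℝ) ^ (-((1 : ℝ) / 8)) / 2) ≤
        C2 * (n : ℝ) ^ ((1 : ℝ) / 4) * log N * (15 / 16) ^ k := by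
      apply mul_le_mul_of_nonneg_left hpow
      have : 0 ≤ C2 := by nlinarith
      positivity
    refine le_trans ?_ f2
    have f3 : C2 * (n : ℝ) ^ ((1 : ℝ) / 4) * log N * ((n : ℝ) ^ (-((1 : ℝ) / 8)) / 2) =
        C2 / 2 * ((n : ℝ) ^ ((1 : ℝ) / 8) * log N) := by
      rw [← f1]
      ring
    rw [f3]
    have : 0 ≤ C2 := by nlinarith
    nlinarith
  have hσ0 : 0 < σ := by rw [hσ]; exact exp_pos _
  have hσ1 : σ ≤ ((n : ℝ) * N) ^ (-(C2 / 18)) := by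
    rw [hσ, Real.rpow_def_of_pos hnN0]
    apply exp_le_exp.2
    linarith
  have hmono : ∀ {a b : ℝ}, a ≤ b → ((n : ℝ) * N) ^ a ≤ ((n : ℝ) * N) ^ b := fun hab =>
    Real.rpow_le_rpow_of_exponent_le hnN.le hab
  refine ⟨hσ1.trans (hmono (by nlinarith)), ?_, ?_⟩
  · refine (hσ1.trans (hmono (show -(C2 / 18) ≤ -(4 : ℕ) by push_cast; nlinarith))).trans_lt ?_
    rw [Real.rpow_neg hnN0.le, Real.rpow_natCast, ← one_div]
    apply one_div_lt_one_div_of_lt (by positivity)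
    rw [mul_pow]
    have g1 : (n : ℝ) ^ 3 ≤ (n : ℝ) ^ 4 := pow_le_pow_right₀ hn1 (by norm_num)
    have g2 : Cg < (N : ℝ) ^ 4 := by
      have : (N : ℝ) ≤ (N : ℝ) ^ 4 := le_self_pow₀ (by linarith) (by norm_num)
      nlinarith
    calc Cg * (n : ℝ) ^ 3 < (N : ℝ) ^ 4 * (n : ℝ) ^ 3 := by
          apply mul_lt_mul_of_pos_right g2; positivity
      _ ≤ (N : ℝ) ^ 4 * (n : ℝ) ^ 4 := by
          apply mul_le_mul_of_nonneg_left g1; positivity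
      _ = _ := by ring
  · have g0 : σ ^ ((1 : ℝ) / 6400) ≤ ((n : ℝ) * N) ^ (-(C2 / 115200)) := by
      refine (Real.rpow_le_rpow hσ0.le hσ1 (by norm_num)).trans ?_
      rw [← Real.rpow_mul hnN0.le]
      apply le_of_eq
      congr 1
      ring
    have g1 : ((n : ℝ) * N) ^ C1 * σ ^ ((1 : ℝ) / 6400) ≤ ((n : ℝ) * N) ^ (-(8 : ℝ)) := by
      refine (mul_le_mul_of_nonneg_left g0 (by positivity)).trans ?_
      rw [← Real.rpow_add hnN0]
      apply hmono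
      nlinarith
    have hKn : (K : ℝ) ≤ 2 * n := by
      have : K < 2 ^ K := Nat.lt_two_pow_self
      have : K < 2 * n := by omega
      exact_mod_cast this.le
    have g2 : (K : ℝ) * (n : ℝ) ^ 2 ≤ ((n : ℝ) * N) ^ (4 : ℝ) := by
      have e : ((n : ℝ) * N) ^ (4 : ℝ) = ((n : ℝ) * N) ^ (4 : ℕ) := by
        rw [← Real.rpow_natCast]; norm_num
      rw [e]
      calc (K : ℝ) * (n : ℝ) ^ 2 ≤ (2 * n) * (n : ℝ) ^ 2 := by
            apply mul_le_mul_of_nonneg_right hKn; positivity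
        _ = (n : ℝ) ^ 3 * 2 := by ring
        _ ≤ (n : ℝ) ^ 4 * (N : ℝ) ^ 4 := by
            apply mul_le_mul (pow_le_pow_right₀ hn1 (by norm_num)) _ (by norm_num) (by positivity)
            have : (N : ℝ) ≤ (N : ℝ) ^ 4 := le_self_pow₀ (by linarith) (by norm_num)
            linarith
        _ = _ := by ring
    calc (K : ℝ) * (n : ℝ) ^ 2 * (((n : ℝ) * N) ^ C1 * σ ^ ((1 : ℝ) / 6400)) ≤
          ((n : ℝ) * N) ^ (4 : ℝ) * ((n : ℝ) * N) ^ (-(8 : ℝ)) := by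
          apply mul_le_mul g2 g1 (by positivity) (by positivity)
      _ = ((n : ℝ) * N) ^ (-((4 : ℕ) : ℝ)) := by
          rw [← Real.rpow_add hnN0]; norm_num
      _ ≤ 1 / (n : ℝ) ^ 4 := by
          rw [Real.rpow_neg hnN0.le, Real.rpow_natCast, ← one_div]
          apply one_div_le_one_div_of_le (by positivity)
          exact pow_le_pow_left₀ hn0.le (by nlinarith) 4

end BilEnt
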