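import Pool.Agent.BilEnt.Defs

/-!
# MP_bd32bb_an : part N, definitions and the abstract form of the input from part V
-/

open MeasureTheory Real
open scoped ENNReal

namespace BilEnt

noncomputable section

/-- event of (N1): a `σ`-coincidence of the first and the last point of `[0,l]`, while all pairs of lag at
most `⌈l/2⌉` are `y`-apart -/
def Coin (s y σ : ℝ) (l : ℕ) (h : ℝ → ℝ) (z : ℝ × ℝ) : Prop :=
  z ∈ dom h ∧ Temp h z s l ∧ ds (pth h z 0).1 (pth h z l).1 ≤ σ ∧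
    ∀ i j, i < j → j ≤ l → j - i ≤ (l + 1) / 2 → y < ds (pth h z i).1 (pth h z j).1

/-- quasi-multiplicativity on all subsegments of `[0,k]` -/
def QMall (χ : ℝ) (k : ℕ) (h : ℝ → ℝ) (z : ℝ × ℝ) : Prop :=
  ∀ a b, a < b → b ≤ k → QMs (fun t => Ms h z (a + t)) χ (b - a)

/-- the event treated by the slope variation: coincidence, and quasi-multiplicativity on `[m, m+k]` -/
def PN (s y σ χ : ℝ) (m k : ℕ) (h : ℝ → ℝ) (z : ℝ × ℝ) : Prop :=
  Coin s y σ (m + k) h z ∧ QMall χ k h (pth h z m)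

/-- the output of part V (covering argument), as a property of the constant `C` -/
def VCover (C : ℝ) : Prop :=
  ∀ (N n : ℕ), 2 ≤ N → 1 ≤ n → ∀ h : ℝ → ℝ, IsTab h → Hol h N →
    ∀ (u c A1 A2 χ ρ σ : ℝ) (k : ℕ), 1 ≤ k → k ≤ n → 0 < χ → χ ≤ 1 → 0 < ρ →
      ((n : ℝ) * N) ^ C * ρ ^ ((1 : ℝ) / 65) ≤ χ → 0 < σ → σ ≤ 1 / 100 → A1 ≤ A2 →
      ∀ B : Set ℝ, B ⊆ Set.Icc A1 A2 →
        (∀ A ∈ B, (u, A) ∈ dom h ∧ Temp h (u, A) (1 / (2 * (n : ℝ) ^ 3)) k ∧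
          QMall χ k h (u, A) ∧ ds (pth h (u, A) k).1 c ≤ σ) →
        volume B ≤ ENNReal.ofReal (((n : ℝ) * N) ^ C * σ / (ρ * χ ^ 2) * (A2 - A1 + 2 * ρ))

/-- the cell of radius `d` around `c` -/
def cellU (c d : ℝ) : Set ℝ := {v | ds v c < d}

/-- A family of tables which differ only in one cell (of level `q`, centre `c`) and whose slope at `u` is
the affine function `a0 + κ x` of the parameter `x ∈ I`, while the value at `u` is fixed. -/
structure SlopeFam (N q : ℕ) (F : ℝ → ℝ → ℝ) (I : Set ℝ) (u c κ a0 : ℝ) : Prop where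
  sub : I ⊆ Set.Icc (-1) 1
  tab : ∀ x ∈ I, IsTab (F x)
  hol : ∀ x ∈ I, Hol (F x) N
  near : ds u c ≤ dl N q / 2
  off : ∀ x ∈ I, ∀ x' ∈ I, ∀ v, v ∉ cellU c (dl N q) → F x v = F x' v ∧
    deriv (F x) v = deriv (F x') v ∧ deriv (deriv (F x)) v = deriv (deriv (F x')) v
  same : ∀ x ∈ I, ∀ x' ∈ I, F x u = F x' u
  slope : ∀ x ∈ I, deriv (F x) u = a0 + κ * x
  κ_lo : e2 / 10 * dl N q ^ (1 + al) ≤ κ
  κ_hi : κ ≤ e2 * dl N q ^ (1 + al)

end

end BilEnt
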