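import Pool.Agent.BilEnt.N03

/-!
# MP_bd32bb_an : part N, expanding maps of the line and the length of sets
-/

open MeasureTheory Real
open scoped ENNReal

namespace BilEnt

/-- A map which expands distances by the factor `c` increases outer measure by this factor. -/
theorem volume_le_of_expand {B : Set ℝ} {f : ℝ → ℝ} {c : ℝ} (hc : 0 < c)
    (hf : ∀ x ∈ B, ∀ x' ∈ B, c * |x - x'| ≤ |f x - f x'|) :
    volume B ≤ ENNReal.ofReal (1 / c) * volume (f '' B) := by
  classical
  -- the inverse map
  have hinj : Set.InjOn f B := by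
    intro x hx x' hx' he
    have := hf x hx x' hx'
    rw [he, sub_self, abs_zero] at this
    have h2 : |x - x'| ≤ 0 := by
      by_contra hlt
      push Not at hlt
      have := mul_pos hc hlt
      linarith
    have h3 := abs_nonpos_iff.1 h2
    linarith
  set g : ℝ → ℝ := Function.invFunOn f B with hg
  have hgl : ∀ x ∈ B, g (f x) = x := fun x hx => hinj.leftInvOn_invFunOn hx
  have hlip : LipschitzOnWith (Real.toNNReal (1 / c)) g (f '' B) := by
    apply LipschitzOnWith.of_dist_le_mul
    rintro _ ⟨x, hx, rfl⟩ _ ⟨x', hx', rfl⟩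
    rw [hgl x hx, hgl x' hx', Real.dist_eq, Real.dist_eq, Real.coe_toNNReal _ (by positivity)]
    have := hf x hx x' hx'
    rw [div_mul_eq_mul_div, one_mul, le_div_iff₀ hc]
    linarith
  have himg : g '' (f '' B) = B := by
    rw [Set.image_image]
    ext x
    constructor
    · rintro ⟨y, hy, rfl⟩
      show g (f y) ∈ B
      rw [hgl y hy]
      exact hy
    · intro hx
      exact ⟨x, hx, hgl x hx⟩
  have h1 := hlip.hausdorffMeasure_image_le (d := 1) zero_le_one
  rw [himg, MeasureTheory.hausdorffMeasure_real, ENNReal.rpow_one] at h1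
  exact h1

end BilEnt
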