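import Pool.Agent.BilEnt.N03
import Pool.Agent.BilEnt.G04
import Pool.Agent.BilEnt.G08
import Pool.Agent.BilEnt.G09
import Pool.Agent.BilEnt.G10
import Pool.Agent.BilEnt.G14

/-!
# MP_bd32bb_an : part N, transfer of the orbit to a reference table
-/

open MeasureTheory Real
open scoped ENNReal

namespace BilEnt

/-- shifting an orbit -/
theorem pth_add (h : ℝ → ℝ) (z : ℝ × ℝ) (m t : ℕ) : pth h (pth h z m) t = pth h z (m + t) := by
  unfold pth
  rw [add_comm, Function.iterate_add_apply]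

/-- In the event `PN`, seen from the time `m` (base point `u`, incoming direction `φ`), no other bounce
point on `[0, m+k]` lies in the cell of radius `d ≤ y/2` whose centre is `d/2`-close to `u`.
(`m = ⌊l/2⌋`, `k = ⌈l/2⌉`, all lags to the time `m` are at most `k = (m+k+1)/2`.) -/
theorem coin_avoid {h : ℝ → ℝ} (hh : IsTab h) {u φ : ℝ} (hz : zin h u φ ∈ dom h) {s y σ d c : ℝ}
    {m k : ℕ} (hmk : m ≤ k) (hkm : k ≤ m + 1) (hd : 2 * d ≤ y) (hc : ds u c ≤ d / 2)
    (hP : Coin s y σ (m + k) h ((bm h)^[m] (zin h u φ))) :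
    (∀ t, 1 ≤ t → t ≤ k → (pth h (zin h u φ) t).1 ∉ cellU c d) ∧
    (∀ t, 1 ≤ t → t ≤ m → ((bm h)^[t] (zin h u φ)).1 ∉ cellU c d) := by
  obtain ⟨-, -, -, hiso⟩ := hP
  have hlag : (m + k + 1) / 2 = k := by omega
  rw [hlag] at hiso
  have hm0 : pth h ((bm h)^[m] (zin h u φ)) m = zin h u φ := by
    rw [pth_bm_iter hh hz le_rfl, Nat.sub_self]
    rfl
  have hzu : (zin h u φ).1 = u := rfl
  have key : ∀ v : ℝ, y < ds u v → v ∉ cellU c d := by
    intro v hv hmem
    have h1 : ds v c < d := hmem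
    have h2 := ds_triangle u c v
    rw [ds_comm c v] at h2
    have h3 : 0 ≤ ds u c := by unfold ds; positivity
    linarith
  constructor
  · intro t ht1 ht2
    apply key
    have h1 := hiso m (m + t) (by omega) (by omega) (by omega)
    rw [hm0, ← pth_add, hm0, hzu] at h1
    exact h1
  · intro t ht1 ht2
    apply key
    have h1 := hiso (m - t) m (by omega) (by omega) (by omega)
    rw [hm0, hzu, pth_bm_iter hh hz (by omega), ds_comm, show m - (m - t) = t by omega] at h1
    exact h1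

theorem mprod_congr {M M' : ℕ → Matrix (Fin 2) (Fin 2) ℝ} {a : ℕ} :
    ∀ {k : ℕ}, (∀ t, a ≤ t → t < a + k → M t = M' t) → mprod M a k = mprod M' a k
  | 0, _ => rfl
  | k + 1, h => by
    show M (a + k) * mprod M a k = M' (a + k) * mprod M' a k
    rw [h (a + k) (by omega) (by omega), mprod_congr (k := k) fun t h1 h2 => h t h1 (by omega)]

theorem QMs_congr {M M' : ℕ → Matrix (Fin 2) (Fin 2) ℝ} {χ : ℝ} {k : ℕ}
    (h : ∀ t < k, M t = M' t) (hq : QMs M χ k) : QMs M' χ k := by
  intro t ht j i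
  have h1 : mprod M t (k - t) = mprod M' t (k - t) := mprod_congr fun r _ h2 => h r (by omega)
  have h2 : mprod M 0 t = mprod M' 0 t := mprod_congr fun r _ h2 => h r (by omega)
  have h3 : mprod M 0 k = mprod M' 0 k := mprod_congr fun r _ h2 => h r (by omega)
  have := hq t ht j i
  rwa [h1, h2, h3] at this

/-- The orbit of the event `PN` in the table `h` is also an orbit of the reference table `k`, if the
tables differ only in the cell. -/
theorem slope_transfer {h k : ℝ → ℝ} (hh : IsTab h) (hk : IsTab k) {u φ c d y σ s χ : ℝ}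
    (hU : AgreeOff h k (cellU c d)) (he : h u = k u) (hd0 : 2 * d ≤ y) (hc : ds u c ≤ d / 2)
    {m n : ℕ} (hm1 : 1 ≤ m) (hmn : m ≤ n) (hnm : n ≤ m + 1)
    (hz : zin h u φ ∈ dom h) (hz' : zin k u φ ∈ dom k)
    (hP : PN s y σ χ m n h ((bm h)^[m] (zin h u φ)))
    (hTh : |Th h u - Th k u| ≤ s / 2) (hs : 0 < s) :
    (u, 2 * Th h u - φ) ∈ dom k ∧ Temp k (u, 2 * Th h u - φ) (s / 2) n ∧
      QMall χ n k (u, 2 * Th h u - φ) ∧
      ds (pth k (u, 2 * Th h u - φ) n).1 ((bm k)^[m] (zin k u φ)).1 ≤ σ := by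
  obtain ⟨hCoin, hQ⟩ := hP
  obtain ⟨hf, hb⟩ := coin_avoid hh hz hmn hnm hd0 hc hCoin
  obtain ⟨-, hTemp, hclose, -⟩ := hCoin
  set w := (bm h)^[m] (zin h u φ) with hw
  have hm0 : pth h w m = zin h u φ := by
    rw [hw, pth_bm_iter hh hz le_rfl, Nat.sub_self]
    rfl
  rw [hm0] at hQ
  have hzz : zin h u φ = (u, 2 * Th h u - φ) := rfl
  -- the state lies in `dom k`
  have hVn : V h (zin h u φ) ∉ cellU c d := hf 1 le_rfl (by omega)
  obtain ⟨v1, v2, v3⟩ := V_spec hh hz
  have hzk : zin h u φ ∈ dom k := by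
    refine mem_dom_of_ang hk v1 v2 ?_
    have e1 : h (zin h u φ).1 = k (zin h u φ).1 := he
    have e2 := (hU _ hVn).1
    have e3 : ang k (zin h u φ).1 (V h (zin h u φ)) = ang h (zin h u φ).1 (V h (zin h u φ)) := by
      unfold ang
      rw [e1, e2]
    rw [e3, v3]
  obtain ⟨f1, f2, f3⟩ := local_forward hh hk hU hz hzk he hf
  obtain ⟨b1, -, -⟩ := local_backward hh hk hU hz hz' he hb
  refine ⟨hzk, ?_, ?_, ?_⟩
  · intro t ht
    rcases Nat.eq_zero_or_pos t with rfl | ht0
    · have h0 := hTemp m (by omega)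
      rw [hm0] at h0
      show s / 2 ≤ sin ((2 * Th h u - φ) - Th k u)
      have h1 : s ≤ sin ((2 * Th h u - φ) - Th h u) := h0
      have h2 := Real.abs_sin_sub_sin_le ((2 * Th h u - φ) - Th h u) ((2 * Th h u - φ) - Th k u)
      have h3 : ((2 * Th h u - φ) - Th h u) - ((2 * Th h u - φ) - Th k u) = -(Th h u - Th k u) := by
        ring
      rw [h3, abs_neg] at h2
      have h4 := (abs_le.1 (h2.trans hTh)).2
      linarith
    · have h0 := hTemp (m + t) (by omega)
      rw [← pth_add, hm0] at h0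
      have h1 := (f3 t ht0 ht).2
      show s / 2 ≤ stt k (pth k (zin h u φ) t)
      rw [h1]
      linarith
  · intro a b hab hbn
    refine QMs_congr ?_ (hQ a b hab hbn)
    intro t ht
    exact (f2 (a + t) (by omega)).symm
  · have e1 : pth k (u, 2 * Th h u - φ) n = pth h (zin h u φ) n := f1 n le_rfl
    rw [e1, b1 m hm1 le_rfl, ds_comm]
    rw [← pth_add, hm0] at hclose
    exact hclose

end BilEnt
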