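import Pool.Agent.BilEnt.N04
import Pool.Agent.BilEnt.N05

/-!
# MP_bd32bb_an : part N, the slope variation: length of the bad set of parameters
-/

open MeasureTheory Real
open scoped ENNReal

namespace BilEnt

theorem abs_arctan_sub_le (s t : ℝ) : |arctan s - arctan t| ≤ |s - t| := by
  have h := Convex.norm_image_sub_le_of_norm_deriv_le (f := arctan) (C := 1) (s := Set.univ)
    (x := t) (y := s) (fun x _ => Real.differentiableAt_arctan x) (fun x _ => by
      rw [Real.deriv_arctan, Real.norm_eq_abs, abs_of_nonneg (by positivity)]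
      rw [div_le_one (by positivity)]
      nlinarith [sq_nonneg x]) convex_univ (Set.mem_univ _) (Set.mem_univ _)
  rw [Real.norm_eq_abs, Real.norm_eq_abs, one_mul] at h
  exact h

theorem le_abs_arctan_sub {s t : ℝ} (hs : |s| ≤ 1 / 100) (ht : |t| ≤ 1 / 100) :
    19 / 20 * |s - t| ≤ |arctan s - arctan t| := by
  wlog hst : t ≤ s generalizing s t with H
  · have := H ht hs (le_of_not_ge hst)
    rwa [abs_sub_comm s t, abs_sub_comm (arctan s)]
  have hmono : arctan t ≤ arctan s := Real.arctan_strictMono.monotone hst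
  rw [abs_of_nonneg (sub_nonneg.2 hst), abs_of_nonneg (sub_nonneg.2 hmono)]
  have h := Convex.mul_sub_le_image_sub_of_le_deriv (D := Set.Icc t s) (convex_Icc t s)
    (f := arctan) Real.continuous_arctan.continuousOn
    (Real.differentiable_arctan.differentiableOn) (C := 19 / 20) (by
      intro x hx
      rw [interior_Icc] at hx
      rw [Real.deriv_arctan]
      have hx2 : |x| ≤ 1 / 100 := by
        rw [abs_le] at hs ht ⊢
        exact ⟨by linarith [hx.1, ht.1], by linarith [hx.2, hs.2]⟩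
      have hx3 : x ^ 2 ≤ (1 / 100) ^ 2 := by
        rw [← sq_abs]
        exact pow_le_pow_left₀ (abs_nonneg _) hx2 2
      rw [le_div_iff₀ (by positivity)]
      nlinarith) t (Set.left_mem_Icc.2 hst) s (Set.right_mem_Icc.2 hst) hst
  exact h

/-- **Slope variation.** -/
theorem slope_det {CV : ℝ} (hCV : VCover CV) {N n q m k : ℕ} {F : ℝ → ℝ → ℝ} {I : Set ℝ}
    {u c κ a0 φ y σ χ ρ : ℝ} (hF : SlopeFam N q F I u c κ a0) (hN : 2 ≤ N) (hn : 1 ≤ n)
    (hm : 1 ≤ m) (hmk : m ≤ k) (hkm : k ≤ m + 1) (hkn : k ≤ n) (hdy : 2 * dl N q ≤ y)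
    (hκ : 0 < κ) (hκs : 2 * κ ≤ 1 / (n : ℝ) ^ 3 / 2) (hχ : 0 < χ) (hχ1 : χ ≤ 1) (hρ : 0 < ρ)
    (hρχ : ((n : ℝ) * N) ^ CV * ρ ^ ((1 : ℝ) / 65) ≤ χ) (hσ : 0 < σ) (hσ1 : σ ≤ 1 / 100) :
    volume {x ∈ I | zin (F x) u φ ∈ dom (F x) ∧
        PN (1 / (n : ℝ) ^ 3) y σ χ m k (F x) ((bm (F x))^[m] (zin (F x) u φ))} ≤
      ENNReal.ofReal (((n : ℝ) * N) ^ CV * σ / (ρ * χ ^ 2) * (8 * κ + 2 * ρ) / (19 / 10 * κ)) := by
  set B : Set ℝ := {x ∈ I | zin (F x) u φ ∈ dom (F x) ∧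
        PN (1 / (n : ℝ) ^ 3) y σ χ m k (F x) ((bm (F x))^[m] (zin (F x) u φ))} with hB
  rcases B.eq_empty_or_nonempty with h0 | ⟨x₀, hx₀⟩
  · rw [h0, measure_empty]
    exact bot_le
  have hn0 : (0 : ℝ) < n := by exact_mod_cast hn
  have hnN : 0 < ((n : ℝ) * N) ^ CV := by
    apply Real.rpow_pos_of_pos
    have : (0 : ℝ) < N := by
      have : 0 < N := by omega
      exact_mod_cast this
    positivity
  set f : ℝ → ℝ := fun x => 2 * Th (F x) u - φ with hf
  have hTh : ∀ x ∈ B, Th (F x) u = u + π / 2 - arctan (a0 + κ * x) := by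
    intro x hx
    unfold Th
    rw [hF.slope x hx.1]
  have hsl : ∀ x ∈ B, |a0 + κ * x| ≤ 1 / 100 := by
    intro x hx
    rw [← hF.slope x hx.1]
    exact (hF.tab x hx.1).b1 u
  have hdiff : ∀ x ∈ B, ∀ x' ∈ B, |f x - f x'| = 2 * |arctan (a0 + κ * x) - arctan (a0 + κ * x')| := by
    intro x hx x' hx'
    have e : f x - f x' = (-2) * (arctan (a0 + κ * x) - arctan (a0 + κ * x')) := by
      show (2 * Th (F x) u - φ) - (2 * Th (F x') u - φ) = _
      rw [hTh x hx, hTh x' hx']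
      ring
    rw [e, abs_mul]
    norm_num
  have hκx : ∀ x x' : ℝ, |(a0 + κ * x) - (a0 + κ * x')| = κ * |x - x'| := by
    intro x x'
    have e : (a0 + κ * x) - (a0 + κ * x') = κ * (x - x') := by ring
    rw [e, abs_mul, abs_of_pos hκ]
  have hlow : ∀ x ∈ B, ∀ x' ∈ B, (19 / 10 * κ) * |x - x'| ≤ |f x - f x'| := by
    intro x hx x' hx'
    rw [hdiff x hx x' hx']
    have := le_abs_arctan_sub (hsl x hx) (hsl x' hx')
    rw [hκx] at this
    linarith
  have hxx : ∀ x ∈ B, ∀ x' ∈ B, |x - x'| ≤ 2 := by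
    intro x hx x' hx'
    have h1 := hF.sub hx.1
    have h2 := hF.sub hx'.1
    rw [abs_le]
    exact ⟨by linarith [h1.1, h2.2], by linarith [h1.2, h2.1]⟩
  have hup : ∀ x ∈ B, ∀ x' ∈ B, |f x - f x'| ≤ 4 * κ := by
    intro x hx x' hx'
    rw [hdiff x hx x' hx']
    have := abs_arctan_sub_le (a0 + κ * x) (a0 + κ * x')
    rw [hκx] at this
    nlinarith [hxx x hx x' hx']
  have hThd : ∀ x ∈ B, |Th (F x) u - Th (F x₀) u| ≤ 1 / (n : ℝ) ^ 3 / 2 := by
    intro x hx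
    have h1 := hup x hx x₀ hx₀
    have e : f x - f x₀ = 2 * (Th (F x) u - Th (F x₀) u) := by
      show (2 * Th (F x) u - φ) - (2 * Th (F x₀) u - φ) = _
      ring
    rw [e, abs_mul, abs_two] at h1
    linarith
  have hcov := hCV N n hN hn (F x₀) (hF.tab x₀ hx₀.1) (hF.hol x₀ hx₀.1) u
    ((bm (F x₀))^[m] (zin (F x₀) u φ)).1 (f x₀ - 4 * κ) (f x₀ + 4 * κ) χ ρ σ k (by omega) hkn hχ hχ1
    hρ hρχ hσ hσ1 (by linarith) (f '' B) (by
      rintro _ ⟨x, hx, rfl⟩
      have := abs_le.1 (hup x hx x₀ hx₀)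
      exact ⟨by linarith [this.1], by linarith [this.2]⟩) (by
      rintro _ ⟨x, hx, rfl⟩
      have hU : AgreeOff (F x) (F x₀) (cellU c (dl N q)) := fun v hv => hF.off x hx.1 x₀ hx₀.1 v hv
      have h1 := slope_transfer (hF.tab x hx.1) (hF.tab x₀ hx₀.1) hU (hF.same x hx.1 x₀ hx₀.1) hdy
        hF.near hm hmk hkm hx.2.1 hx₀.2.1 hx.2.2 (hThd x hx) (by positivity)
      have e : (1 : ℝ) / (2 * (n : ℝ) ^ 3) = 1 / (n : ℝ) ^ 3 / 2 := by
        field_simp
      rw [e]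
      exact h1)
  refine (volume_le_of_expand (f := f) (by positivity) hlow).trans ?_
  refine (mul_le_mul_right hcov _).trans ?_
  rw [← ENNReal.ofReal_mul (by positivity)]
  apply ENNReal.ofReal_le_ofReal
  apply le_of_eq
  field_simp
  ring

end BilEnt
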