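import Pool.Agent.BilEnt.Defs

/-!
# MP_bd32bb_an : (N1), the choice of the constants
-/

open Real

namespace BilEnt

/-- Constants in (N1): `χ = y^{101/6400}`, `σ = y^{16/15}`, `ρ = (χ (nN)^{-CV})^65`. -/
theorem n1_arith (CV : ℝ) (hCV : 1 ≤ CV) : ∃ C : ℝ, 1 ≤ C ∧ ∀ N n : ℕ, C ≤ N → 1 ≤ n →
    ∀ y : ℝ, 0 < y → y ≤ ((n : ℝ) * N) ^ (-C) → ∀ dq κ : ℝ, y / 4 < dq → dq ≤ y / 2 →
    e2 / 10 * dq ^ (1 + al) ≤ κ → κ ≤ e2 * dq ^ (1 + al) → ∀ χ σ ρ : ℝ,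
    χ = y ^ ((101 : ℝ) / 6400) → σ = y ^ ((16 : ℝ) / 15) →
    ρ = (χ * ((n : ℝ) * N) ^ (-CV)) ^ (65 : ℕ) →
    0 < κ ∧ 2 * κ ≤ 1 / (n : ℝ) ^ 3 / 2 ∧ ((n : ℝ) * N) ^ CV * ρ ^ ((1 : ℝ) / 65) ≤ χ ∧ 0 < ρ ∧
      0 < χ ∧ χ ≤ 1 ∧ 0 < σ ∧ σ ≤ 1 / 100 ∧
      ((n : ℝ) * N) ^ CV * σ / (ρ * χ ^ 2) * (8 * κ + 2 * ρ) / (19 / 10 * κ) ≤
        ((n : ℝ) * N) ^ C * y ^ ((1 : ℝ) / 128) := by
  refine ⟨66 * CV + 100, by linarith, ?_⟩
  intro N n hN hn y hy hyC dq κ hdq1 hdq2 hκ1 hκ2 χ σ ρ hχ hσ hρ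
  have hn1 : (1 : ℝ) ≤ n := by exact_mod_cast hn
  have hN1 : (100 : ℝ) ≤ N := by linarith
  set X : ℝ := (n : ℝ) * N with hX
  have hX100 : 100 ≤ X := by nlinarith
  have hX0 : 0 < X := by linarith
  have hX1 : 1 ≤ X := by linarith
  have hmono : ∀ {a b : ℝ}, a ≤ b → X ^ a ≤ X ^ b := fun hab =>
    Real.rpow_le_rpow_of_exponent_le hX1 hab
  have hy3 : y ≤ 1 / X ^ 3 := by
    refine hyC.trans ((hmono (show -(66 * CV + 100) ≤ -((3 : ℕ) : ℝ) by push_cast; linarith)).trans ?_)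
    rw [Real.rpow_neg hX0.le, Real.rpow_natCast, one_div]
  have hX3 : (1 : ℝ) ≤ X ^ 3 := one_le_pow₀ hX1
  have hy1 : y ≤ 1 := hy3.trans (by rw [div_le_one (by positivity)]; exact hX3)
  have hy100 : y ≤ 1 / 100 := by
    refine hy3.trans (one_div_le_one_div_of_le (by norm_num) ?_)
    calc (100 : ℝ) ≤ X := hX100
      _ ≤ X ^ 3 := le_self_pow₀ hX1 (by norm_num)
  have hdq0 : 0 < dq := by linarith
  have hal : (1 : ℝ) + al = 65 / 64 := by unfold al; norm_num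
  rw [hal] at hκ1 hκ2
  have he2 : e2 = 1 / 10 ^ 9 := rfl
  have hdqp : 0 < dq ^ ((65 : ℝ) / 64) := Real.rpow_pos_of_pos hdq0 _
  have hκ0 : 0 < κ := by
    refine lt_of_lt_of_le ?_ hκ1
    rw [he2]; positivity
  have hχ0 : 0 < χ := by rw [hχ]; exact Real.rpow_pos_of_pos hy _
  have hχ1 : χ ≤ 1 := by rw [hχ]; exact Real.rpow_le_one hy.le hy1 (by norm_num)
  have hσ0 : 0 < σ := by rw [hσ]; exact Real.rpow_pos_of_pos hy _
  have hσy : σ ≤ y := by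
    rw [hσ]
    calc y ^ ((16 : ℝ) / 15) ≤ y ^ (1 : ℝ) :=
          Real.rpow_le_rpow_of_exponent_ge hy hy1 (by norm_num)
      _ = y := Real.rpow_one y
  have hXm : 0 < X ^ (-CV) := Real.rpow_pos_of_pos hX0 _
  have hXp : 0 < X ^ CV := Real.rpow_pos_of_pos hX0 _
  have hρ0 : 0 < ρ := by rw [hρ]; positivity
  refine ⟨hκ0, ?_, ?_, hρ0, hχ0, hχ1, hσ0, hσy.trans hy100, ?_⟩
  · have h1 : κ ≤ y := by
      refine hκ2.trans ?_
      have h2 : dq ^ ((65 : ℝ) / 64) ≤ dq ^ (1 : ℝ) :=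
        Real.rpow_le_rpow_of_exponent_ge hdq0 (by linarith) (by norm_num)
      rw [Real.rpow_one] at h2
      rw [he2]
      nlinarith
    have h3 : κ ≤ y / 4 := by
      refine hκ2.trans ?_
      have h2 : dq ^ ((65 : ℝ) / 64) ≤ dq ^ (1 : ℝ) :=
        Real.rpow_le_rpow_of_exponent_ge hdq0 (by linarith) (by norm_num)
      rw [Real.rpow_one] at h2
      rw [he2]
      nlinarith
    have h4 : y ≤ 1 / (n : ℝ) ^ 3 := by
      refine hy3.trans (one_div_le_one_div_of_le (by positivity) ?_)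
      apply pow_le_pow_left₀ (by positivity)
      nlinarith
    linarith
  · have h1 : ρ ^ ((1 : ℝ) / 65) = χ * X ^ (-CV) := by
      rw [hρ, ← Real.rpow_natCast, ← Real.rpow_mul (by positivity)]
      norm_num
    rw [h1, mul_comm χ, ← mul_assoc, ← Real.rpow_add hX0, add_neg_cancel, Real.rpow_zero, one_mul]
  · -- the quotient ρ / κ
    have hρκ : ρ ≤ 5 * 10 ^ 10 * κ := by
      have a1 : ρ ≤ y ^ ((65 : ℝ) / 64) := by
        have b1 : χ * X ^ (-CV) ≤ χ := by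
          have : X ^ (-CV) ≤ 1 := Real.rpow_le_one_of_one_le_of_nonpos hX1 (by linarith)
          nlinarith
        calc ρ = (χ * X ^ (-CV)) ^ 65 := hρ
          _ ≤ χ ^ 65 := pow_le_pow_left₀ (by positivity) b1 65
          _ = y ^ ((101 : ℝ) / 6400 * (65 : ℕ)) := by
              rw [hχ, ← Real.rpow_natCast, ← Real.rpow_mul hy.le]
          _ ≤ y ^ ((65 : ℝ) / 64) :=
              Real.rpow_le_rpow_of_exponent_ge hy hy1 (by norm_num)
      have a2 : y ^ ((65 : ℝ) / 64) ≤ 5 * dq ^ ((65 : ℝ) / 64) := by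
        have b1 : y ≤ 4 * dq := by linarith
        have b2 : (4 : ℝ) ^ ((65 : ℝ) / 64) ≤ 5 := by
          have c1 : ((4 : ℝ) ^ ((65 : ℝ) / 64)) ^ (64 : ℕ) ≤ 5 ^ (64 : ℕ) := by
            rw [← Real.rpow_natCast ((4 : ℝ) ^ ((65 : ℝ) / 64)), ← Real.rpow_mul (by norm_num)]
            have : ((65 : ℝ) / 64 * ((64 : ℕ) : ℝ)) = ((65 : ℕ) : ℝ) := by norm_num
            rw [this, Real.rpow_natCast]
            norm_num
          exact le_of_pow_le_pow_left₀ (by norm_num) (by norm_num) c1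
        calc y ^ ((65 : ℝ) / 64) ≤ (4 * dq) ^ ((65 : ℝ) / 64) :=
              Real.rpow_le_rpow hy.le b1 (by norm_num)
          _ = 4 ^ ((65 : ℝ) / 64) * dq ^ ((65 : ℝ) / 64) := Real.mul_rpow (by norm_num) hdq0.le
          _ ≤ 5 * dq ^ ((65 : ℝ) / 64) := mul_le_mul_of_nonneg_right b2 hdqp.le
      rw [he2] at hκ1
      nlinarith
    have hfrac : (8 * κ + 2 * ρ) / (19 / 10 * κ) ≤ X ^ (6 : ℝ) := by
      have a1 : (8 * κ + 2 * ρ) / (19 / 10 * κ) ≤ 10 ^ 12 := by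
        rw [div_le_iff₀ (by positivity)]
        nlinarith
      refine a1.trans ?_
      have : (10 : ℝ) ^ 12 = (100 : ℝ) ^ 6 := by norm_num
      rw [this, show (6 : ℝ) = ((6 : ℕ) : ℝ) by norm_num, Real.rpow_natCast]
      exact pow_le_pow_left₀ (by norm_num) hX100 6
    -- the quotient σ / (ρ χ²)
    have hq : σ / (ρ * χ ^ 2) ≤ X ^ (65 * CV) * y ^ ((1 : ℝ) / 128) := by
      have a1 : ρ * χ ^ 2 = χ ^ (67 : ℕ) * X ^ (-(65 * CV)) := by
        rw [hρ, mul_pow, ← Real.rpow_natCast (X ^ (-CV)), ← Real.rpow_mul hX0.le]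
        have : -CV * ((65 : ℕ) : ℝ) = -(65 * CV) := by push_cast; ring
        rw [this]
        ring
      have a2 : χ ^ (67 : ℕ) = y ^ ((6767 : ℝ) / 6400) := by
        rw [hχ, ← Real.rpow_natCast, ← Real.rpow_mul hy.le]
        norm_num
      rw [a1, a2, div_le_iff₀ (by positivity)]
      have a3 : X ^ (65 * CV) * y ^ ((1 : ℝ) / 128) * (y ^ ((6767 : ℝ) / 6400) * X ^ (-(65 * CV))) =
          y ^ ((1 : ℝ) / 128 + (6767 : ℝ) / 6400) := by
        rw [Real.rpow_add hy, Real.rpow_neg hX0.le]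
        have : X ^ (65 * CV) ≠ 0 := (Real.rpow_pos_of_pos hX0 _).ne'
        field_simp
      rw [a3, hσ]
      exact Real.rpow_le_rpow_of_exponent_ge hy hy1 (by norm_num)
    have hq0 : 0 ≤ σ / (ρ * χ ^ 2) := by positivity
    calc X ^ CV * σ / (ρ * χ ^ 2) * (8 * κ + 2 * ρ) / (19 / 10 * κ) =
          X ^ CV * (σ / (ρ * χ ^ 2)) * ((8 * κ + 2 * ρ) / (19 / 10 * κ)) := by ring
      _ ≤ X ^ CV * (X ^ (65 * CV) * y ^ ((1 : ℝ) / 128)) * X ^ (6 : ℝ) := by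
          apply mul_le_mul _ hfrac (by positivity) (by positivity)
          exact mul_le_mul_of_nonneg_left hq hXp.le
      _ = (X ^ CV * X ^ (65 * CV) * X ^ (6 : ℝ)) * y ^ ((1 : ℝ) / 128) := by ring
      _ = X ^ (CV + 65 * CV + 6) * y ^ ((1 : ℝ) / 128) := by
          rw [Real.rpow_add hX0, Real.rpow_add hX0]
      _ ≤ X ^ (66 * CV + 100) * y ^ ((1 : ℝ) / 128) := by
          apply mul_le_mul_of_nonneg_right _ (by positivity)
          apply hmono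
          linarith

/-- a level whose cells have size comparable to `y` -/
theorem exists_level_lt {N : ℕ} (hN : 1 ≤ N) {y : ℝ} (hy : 0 < y) (hyN : y ≤ 1 / (N : ℝ) ^ 2) :
    ∃ q : ℕ, 1 ≤ q ∧ y / 4 < dl N q ∧ dl N q ≤ y / 2 := by
  classical
  have hN0 : (0 : ℝ) < N := by exact_mod_cast hN
  have hex : ∃ q : ℕ, 1 / ((N : ℝ) ^ 2 * 2 ^ q) ≤ y / 2 := by
    obtain ⟨q, hq⟩ := pow_unbounded_of_one_lt (2 / ((N : ℝ) ^ 2 * y)) (one_lt_two)
    refine ⟨q, ?_⟩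
    rw [div_lt_iff₀ (by positivity)] at hq
    rw [div_le_div_iff₀ (by positivity) (by norm_num)]
    nlinarith
  refine ⟨Nat.find hex, ?_, ?_⟩
  · by_contra h0
    have h1 : Nat.find hex = 0 := by omega
    have h2 := Nat.find_spec hex
    rw [h1, pow_zero, mul_one] at h2
    linarith
  · have hq0 : Nat.find hex ≠ 0 := by
      intro h1
      have h2 := Nat.find_spec hex
      rw [h1, pow_zero, mul_one] at h2
      linarith
    have hs := Nat.find_spec hex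
    unfold dl
    rw [if_neg hq0]
    refine ⟨?_, hs⟩
    have h3 := Nat.find_min hex (show Nat.find hex - 1 < Nat.find hex by omega)
    push Not at h3
    have h4 : (2 : ℝ) ^ Nat.find hex = 2 * 2 ^ (Nat.find hex - 1) := by
      rw [← pow_succ']
      congr 1
      omega
    rw [h4]
    have h5 : ∀ a : ℝ, 1 / ((N : ℝ) ^ 2 * (2 * a)) = 1 / ((N : ℝ) ^ 2 * a) / 2 := by
      intro a
      rw [div_div]
      congr 1
      ring
    rw [h5]
    linarith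

end BilEnt
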