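import Pool.Agent.BilEnt.N05

/-!
# MP_bd32bb_an : part N, invariance of the events under the translation by `(2π, 2π)`
-/

open MeasureTheory Real
open scoped ENNReal

namespace BilEnt

theorem ds_add_two (u v : ℝ) : ds (u + 2 * π) (v + 2 * π) = ds u v := by
  unfold ds
  congr 3
  ring

theorem pos_tau {h : ℝ → ℝ} (hh : IsTab h) {z : ℝ × ℝ} (hz : z ∈ dom h) (k : ℕ) :
    (pth h (z + tau) k).1 = (pth h z k).1 + 2 * π := by
  rw [pth_add_tau hh hz]
  rfl

theorem Ms_tau {h : ℝ → ℝ} (hh : IsTab h) {z : ℝ × ℝ} (hz : z ∈ dom h) (t : ℕ) :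
    Ms h (z + tau) t = Ms h z t := by
  unfold Ms
  rw [pth_add_tau hh hz, Mc_add_tau hh (pth_mem hh hz t)]

theorem Temp_tau {h : ℝ → ℝ} (hh : IsTab h) {z : ℝ × ℝ} (hz : z ∈ dom h) (s : ℝ) (k : ℕ) :
    Temp h (z + tau) s k ↔ Temp h z s k := by
  unfold Temp
  refine forall_congr' fun t => forall_congr' fun _ => ?_
  rw [pth_add_tau hh hz, stt_add_tau hh]

theorem Iso_tau {h : ℝ → ℝ} (hh : IsTab h) {z : ℝ × ℝ} (hz : z ∈ dom h) (y : ℝ) (k : ℕ) :
    Iso h (z + tau) y k ↔ Iso h z y k := by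
  unfold Iso
  refine forall_congr' fun i => forall_congr' fun j => forall_congr' fun _ => forall_congr' fun _ => ?_
  rw [pos_tau hh hz, pos_tau hh hz, ds_add_two]

theorem Coin_tau {h : ℝ → ℝ} (hh : IsTab h) {z : ℝ × ℝ} (hz : z ∈ dom h) (s y σ : ℝ) (l : ℕ) :
    Coin s y σ l h (z + tau) ↔ Coin s y σ l h z := by
  unfold Coin
  rw [dom_add_tau hh, Temp_tau hh hz, pos_tau hh hz, pos_tau hh hz, ds_add_two]
  refine and_congr_right fun _ => and_congr_right fun _ => and_congr_right fun _ => ?_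
  refine forall_congr' fun i => forall_congr' fun j => forall_congr' fun _ => forall_congr' fun _ =>
    forall_congr' fun _ => ?_
  rw [pos_tau hh hz, pos_tau hh hz, ds_add_two]

theorem QMall_tau {h : ℝ → ℝ} (hh : IsTab h) {z : ℝ × ℝ} (hz : z ∈ dom h) (χ : ℝ) (k : ℕ) :
    QMall χ k h (z + tau) ↔ QMall χ k h z := by
  unfold QMall
  refine forall_congr' fun a => forall_congr' fun b => forall_congr' fun _ => forall_congr' fun _ => ?_
  have : (fun t => Ms h (z + tau) (a + t)) = fun t => Ms h z (a + t) := by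
    funext t
    exact Ms_tau hh hz (a + t)
  rw [this]

theorem PN_tau {h : ℝ → ℝ} (hh : IsTab h) {z : ℝ × ℝ} (hz : z ∈ dom h) (s y σ χ : ℝ) (m k : ℕ) :
    PN s y σ χ m k h (z + tau) ↔ PN s y σ χ m k h z := by
  unfold PN
  rw [Coin_tau hh hz, pth_add_tau hh hz, QMall_tau hh (pth_mem hh hz m)]

end BilEnt
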