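import Pool.Agent.BilEnt.N06
import Pool.Agent.BilEnt.N07
import Pool.Agent.BilEnt.N08

/-!
# MP_bd32bb_an : (N1), probability of a coincidence with quasi-multiplicativity
-/

open MeasureTheory Real
open scoped ENNReal

namespace BilEnt

/-- the output of part R (rebasing at time `m`, resampling one cell, slope coordinates) -/
def SlopeBound (N0 : ℕ) : Prop :=
  ∀ N ≥ N0, ∀ q ≥ 1, ∀ (m : ℕ) (P : (ℝ → ℝ) → (ℝ × ℝ) → Prop),
    MeasurableSet {w : Yt | P (hw N w.1) w.2} →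
    (∀ h, IsTab h → ∀ z ∈ dom h, (P h (z + tau) ↔ P h z)) → ∀ c : ℝ, 0 ≤ c →
    (∀ (u φ : ℝ) (F : ℝ → ℝ → ℝ) (I : Set ℝ) (cc κ a0 : ℝ), SlopeFam N q F I u cc κ a0 →
      volume {x ∈ I | zin (F x) u φ ∈ dom (F x) ∧ P (F x) ((bm (F x))^[m] (zin (F x) u φ))} ≤
        ENNReal.ofReal c) →
    Pr N {w | P (hw N w.1) w.2} ≤ ENNReal.ofReal (2500 * c)

theorem pn_bound {CV : ℝ} (hCV : 1 ≤ CV) (hV : VCover CV) {N0 : ℕ} (hR : SlopeBound N0)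
    (hM : ∀ N ≥ N0, ∀ (s y σ χ : ℝ) (m k : ℕ),
      MeasurableSet {w : Yt | PN s y σ χ m k (hw N w.1) w.2}) :
    ∃ C : ℝ, 1 ≤ C ∧ ∀ N n : ℕ, C ≤ N → 1 ≤ n → ∀ m k : ℕ, 1 ≤ m → m ≤ k → k ≤ m + 1 → k ≤ n →
      ∀ y : ℝ, 0 < y → y ≤ ((n : ℝ) * N) ^ (-C) →
      Pr N {w | PN (1 / (n : ℝ) ^ 3) y (y ^ ((16 : ℝ) / 15)) (y ^ ((101 : ℝ) / 6400)) m k
        (hw N w.1) w.2} ≤ ENNReal.ofReal (2500 * (((n : ℝ) * N) ^ C * y ^ ((1 : ℝ) / 128))) := by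
  obtain ⟨C0, hC0, hA⟩ := n1_arith CV hCV
  refine ⟨C0 + N0 + 2, by
    have : (0 : ℝ) ≤ N0 := by positivity
    linarith, ?_⟩
  intro N n hN hn m k hm hmk hkm hkn y hy hyC
  have hN00 : (0 : ℝ) ≤ N0 := by positivity
  have hNN0 : N ≥ N0 := by
    have : (N0 : ℝ) ≤ N := by linarith
    exact_mod_cast this
  have hn1 : (1 : ℝ) ≤ n := by exact_mod_cast hn
  have hN3 : (3 : ℝ) ≤ N := by linarith
  have hN2 : 2 ≤ N := by
    have : (2 : ℝ) ≤ N := by linarith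
    exact_mod_cast this
  set X : ℝ := (n : ℝ) * N with hX
  have hX1 : 1 ≤ X := by nlinarith
  have hX0 : 0 < X := by linarith
  have hyC0 : y ≤ X ^ (-C0) :=
    hyC.trans (Real.rpow_le_rpow_of_exponent_le hX1 (by linarith))
  have hyN : y ≤ 1 / (N : ℝ) ^ 2 := by
    have h1 : y ≤ X ^ (-((2 : ℕ) : ℝ)) :=
      hyC.trans (Real.rpow_le_rpow_of_exponent_le hX1 (by push_cast; linarith))
    rw [Real.rpow_neg hX0.le, Real.rpow_natCast, ← one_div] at h1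
    refine h1.trans (one_div_le_one_div_of_le (by positivity) ?_)
    apply pow_le_pow_left₀ (by positivity)
    nlinarith
  obtain ⟨q, hq1, hq2, hq3⟩ := exists_level_lt (by omega) hy hyN
  have hbound : ∀ (u φ : ℝ) (F : ℝ → ℝ → ℝ) (I : Set ℝ) (cc κ a0 : ℝ), SlopeFam N q F I u cc κ a0 →
      volume {x ∈ I | zin (F x) u φ ∈ dom (F x) ∧
        PN (1 / (n : ℝ) ^ 3) y (y ^ ((16 : ℝ) / 15)) (y ^ ((101 : ℝ) / 6400)) m k (F x)
          ((bm (F x))^[m] (zin (F x) u φ))} ≤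
      ENNReal.ofReal (X ^ C0 * y ^ ((1 : ℝ) / 128)) := by
    intro u φ F I cc κ a0 hF
    obtain ⟨a1, a2, a3, a4, a5, a6, a7, a8, a9⟩ := hA N n (by linarith) hn y hy hyC0 (dl N q) κ hq2
      hq3 hF.κ_lo hF.κ_hi _ _ _ rfl rfl rfl
    refine (slope_det hV hF hN2 hn hm hmk hkm hkn (by linarith) a1 a2 a5 a6 a4 a3 a7 a8).trans ?_
    exact ENNReal.ofReal_le_ofReal a9
  refine (hR N hNN0 q hq1 m (PN (1 / (n : ℝ) ^ 3) y (y ^ ((16 : ℝ) / 15)) (y ^ ((101 : ℝ) / 6400)) m k)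
    (hM N hNN0 _ _ _ _ _ _) (fun h hh z hz => PN_tau hh hz _ _ _ _ _ _) _ (by positivity)
    hbound).trans ?_
  apply ENNReal.ofReal_le_ofReal
  have h1 : X ^ C0 ≤ X ^ (C0 + N0 + 2) := Real.rpow_le_rpow_of_exponent_le hX1 (by linarith)
  have h2 : 0 ≤ y ^ ((1 : ℝ) / 128) := by positivity
  nlinarith [mul_le_mul_of_nonneg_right h1 h2]

end BilEnt
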