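import Pool.Agent.BilEnt.N09

/-!
# MP_bd32bb_an : (N1), the rare event
-/

open MeasureTheory Real
open scoped ENNReal

namespace BilEnt

/-- the output of part Q -/
def Q3Bound (C : ℝ) : Prop :=
  ∀ N n : ℕ, C ≤ N → 1 ≤ n → ∀ k : ℕ, 1 ≤ k → k ≤ n → ∀ y χ : ℝ, 0 < y → y ≤ 1 / (N : ℝ) ^ 2 →
    0 < χ → Pr N {w | w.2 ∈ dom (hw N w.1) ∧ Temp (hw N w.1) w.2 (1 / (n : ℝ) ^ 3) k ∧
      Iso (hw N w.1) w.2 y k ∧ ¬ QMall χ k (hw N w.1) w.2} ≤
      ENNReal.ofReal (((n : ℝ) * N) ^ C * χ * y ^ (-al))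

/-- invariance of the measure, for events which do not see the translation by `(2π, 2π)` -/
def ShiftBound (N0 : ℕ) : Prop :=
  ∀ N ≥ N0, ∀ (m : ℕ) (P : (ℝ → ℝ) → (ℝ × ℝ) → Prop),
    MeasurableSet {w : Yt | P (hw N w.1) w.2} →
    (∀ h, IsTab h → ∀ z ∈ dom h, (P h (z + tau) ↔ P h z)) →
    Pr N {w | w.2 ∈ dom (hw N w.1) ∧ P (hw N w.1) (pth (hw N w.1) w.2 m)} ≤
      Pr N {w | P (hw N w.1) w.2}

/-- the event of part Q -/
def PQ (s y χ : ℝ) (k : ℕ) (h : ℝ → ℝ) (z : ℝ × ℝ) : Prop :=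
  z ∈ dom h ∧ Temp h z s k ∧ Iso h z y k ∧ ¬ QMall χ k h z

theorem PQ_tau {h : ℝ → ℝ} (hh : IsTab h) {z : ℝ × ℝ} (hz : z ∈ dom h) (s y χ : ℝ) (k : ℕ) :
    PQ s y χ k h (z + tau) ↔ PQ s y χ k h z := by
  unfold PQ
  rw [dom_add_tau hh, Temp_tau hh hz, Iso_tau hh hz, QMall_tau hh hz]

/-- either the coincidence comes with quasi-multiplicativity on the second half, or the event of
part Q happens on the second half -/
theorem coin_split {s y σ χ : ℝ} {l m k : ℕ} (hm : m = l / 2) (hk : k = (l + 1) / 2) {h : ℝ → ℝ}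
    (hh : IsTab h) {z : ℝ × ℝ} (hC : Coin s y σ l h z) :
    PN s y σ χ m k h z ∨ (z ∈ dom h ∧ PQ s y χ k h (pth h z m)) := by
  have hl : m + k = l := by omega
  by_cases hq : QMall χ k h (pth h z m)
  · left
    refine ⟨?_, hq⟩
    rw [hl]
    exact hC
  · right
    obtain ⟨h1, h2, -, h4⟩ := hC
    refine ⟨h1, pth_mem hh h1 m, ?_, ?_, hq⟩
    · intro t ht
      rw [pth_add]
      exact h2 (m + t) (by omega)
    · intro i j hij hjk
      rw [pth_add, pth_add]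
      exact h4 (m + i) (m + j) (by omega) (by omega) (by omega)

/-- **(N1)** -/
theorem n1 {CV CQ : ℝ} (hCV : 1 ≤ CV) (hCQ : 1 ≤ CQ) (hV : VCover CV) {N0 : ℕ}
    (hR : SlopeBound N0) (hQ : Q3Bound CQ) (hS : ShiftBound N0)
    (hTab : ∀ N ≥ N0, ∀ ω, IsTab (hw N ω))
    (hM : ∀ N ≥ N0, ∀ (s y σ χ : ℝ) (m k : ℕ),
      MeasurableSet {w : Yt | PN s y σ χ m k (hw N w.1) w.2})
    (hM' : ∀ N ≥ N0, ∀ (s y χ : ℝ) (k : ℕ), MeasurableSet {w : Yt | PQ s y χ k (hw N w.1) w.2}) :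
    ∃ C : ℝ, 1 ≤ C ∧ ∀ N n : ℕ, C ≤ N → ∀ l : ℕ, 2 ≤ l → l ≤ n →
      ∀ y : ℝ, 0 < y → y ≤ ((n : ℝ) * N) ^ (-C) →
      Pr N {w | Coin (1 / (n : ℝ) ^ 3) y (y ^ ((16 : ℝ) / 15)) l (hw N w.1) w.2} ≤
        ENNReal.ofReal (((n : ℝ) * N) ^ C * y ^ ((1 : ℝ) / 6400)) := by
  obtain ⟨C1, hC1, hA⟩ := pn_bound hCV hV hR hM
  have hN00 : (0 : ℝ) ≤ N0 := by positivity
  refine ⟨C1 + CQ + N0 + 10000, by linarith, ?_⟩
  intro N n hN l hl2 hln y hy hyC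
  have hNN0 : N ≥ N0 := by
    have : (N0 : ℝ) ≤ N := by linarith
    exact_mod_cast this
  have hn1 : (1 : ℝ) ≤ n := by
    have : 1 ≤ n := by omega
    exact_mod_cast this
  have hN100 : (10000 : ℝ) ≤ N := by linarith
  set X : ℝ := (n : ℝ) * N with hX
  have hX100 : 10000 ≤ X := by nlinarith
  have hX1 : 1 ≤ X := by linarith
  have hX0 : 0 < X := by linarith
  have hmono : ∀ {a b : ℝ}, a ≤ b → X ^ a ≤ X ^ b := fun hab =>
    Real.rpow_le_rpow_of_exponent_le hX1 hab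
  have hyC1 : y ≤ X ^ (-C1) := hyC.trans (hmono (by linarith))
  have hyX2 : y ≤ 1 / X ^ 2 := by
    have h1 : y ≤ X ^ (-((2 : ℕ) : ℝ)) := hyC.trans (hmono (by push_cast; linarith))
    rwa [Real.rpow_neg hX0.le, Real.rpow_natCast, ← one_div] at h1
  have hyN : y ≤ 1 / (N : ℝ) ^ 2 := by
    refine hyX2.trans (one_div_le_one_div_of_le (by positivity) ?_)
    apply pow_le_pow_left₀ (by positivity)
    nlinarith
  have hy1 : y ≤ 1 := by
    refine hyX2.trans ?_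
    rw [div_le_one (by positivity)]
    exact one_le_pow₀ hX1
  set m := l / 2 with hm
  set k := (l + 1) / 2 with hk
  set χ : ℝ := y ^ ((101 : ℝ) / 6400) with hχ
  have hχ0 : 0 < χ := Real.rpow_pos_of_pos hy _
  have hsub : {w : Yt | Coin (1 / (n : ℝ) ^ 3) y (y ^ ((16 : ℝ) / 15)) l (hw N w.1) w.2} ⊆
      {w | PN (1 / (n : ℝ) ^ 3) y (y ^ ((16 : ℝ) / 15)) χ m k (hw N w.1) w.2} ∪
      {w | w.2 ∈ dom (hw N w.1) ∧ PQ (1 / (n : ℝ) ^ 3) y χ k (hw N w.1)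
        (pth (hw N w.1) w.2 m)} := by
    intro w hw
    exact coin_split hm hk (hTab N hNN0 w.1) hw
  refine (measure_mono hsub).trans ((measure_union_le _ _).trans ?_)
  have b1 := hA N n (by linarith) (by omega) m k (by omega) (by omega) (by omega) (by omega) y hy hyC1
  have b2 := (hS N hNN0 m (PQ (1 / (n : ℝ) ^ 3) y χ k) (hM' N hNN0 _ _ _ _)
    (fun h hh z hz => PQ_tau hh hz _ _ _ _)).trans
    (hQ N n (by linarith) (by omega) k (by omega) (by omega) y χ hy hyN hχ0)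
  refine (add_le_add b1 b2).trans ?_
  rw [← ENNReal.ofReal_add (by positivity) (by positivity)]
  apply ENNReal.ofReal_le_ofReal
  have c1 : y ^ ((1 : ℝ) / 128) ≤ y ^ ((1 : ℝ) / 6400) :=
    Real.rpow_le_rpow_of_exponent_ge hy hy1 (by norm_num)
  have c2 : χ * y ^ (-al) = y ^ ((1 : ℝ) / 6400) := by
    rw [hχ, ← Real.rpow_add hy]
    unfold al
    norm_num
  have c3 : 0 < y ^ ((1 : ℝ) / 6400) := Real.rpow_pos_of_pos hy _
  have c4 : 2500 * X ^ C1 ≤ X ^ (C1 + CQ + N0 + 10000) / 2 := by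
    have d1 : X ^ C1 * X ^ ((1 : ℕ) : ℝ) ≤ X ^ (C1 + CQ + N0 + 10000) := by
      rw [← Real.rpow_add hX0]
      apply hmono
      push_cast
      linarith
    rw [Real.rpow_natCast, pow_one] at d1
    have d2 : 0 < X ^ C1 := Real.rpow_pos_of_pos hX0 _
    nlinarith
  have c5 : X ^ CQ ≤ X ^ (C1 + CQ + N0 + 10000) / 2 := by
    have d1 : X ^ CQ * X ^ ((1 : ℕ) : ℝ) ≤ X ^ (C1 + CQ + N0 + 10000) := by
      rw [← Real.rpow_add hX0]
      apply hmono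
      push_cast
      linarith
    rw [Real.rpow_natCast, pow_one] at d1
    have d2 : 0 < X ^ CQ := Real.rpow_pos_of_pos hX0 _
    nlinarith
  have d3 : 0 < X ^ C1 := Real.rpow_pos_of_pos hX0 _
  calc 2500 * (X ^ C1 * y ^ ((1 : ℝ) / 128)) + X ^ CQ * χ * y ^ (-al) =
        (2500 * X ^ C1) * y ^ ((1 : ℝ) / 128) + X ^ CQ * (χ * y ^ (-al)) := by ring
    _ ≤ (2500 * X ^ C1) * y ^ ((1 : ℝ) / 6400) + X ^ CQ * y ^ ((1 : ℝ) / 6400) := by
        rw [c2]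
        gcongr
    _ = (2500 * X ^ C1 + X ^ CQ) * y ^ ((1 : ℝ) / 6400) := by ring
    _ ≤ X ^ (C1 + CQ + N0 + 10000) * y ^ ((1 : ℝ) / 6400) := by
        apply mul_le_mul_of_nonneg_right _ c3.le
        linarith

end BilEnt
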