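import Pool.Agent.BilEnt.N01
import Pool.Agent.BilEnt.N02
import Pool.Agent.BilEnt.N10
import Pool.Agent.BilEnt.G12

/-!
# MP_bd32bb_an : (N3), no returns
-/

open MeasureTheory Real
open scoped ENNReal

namespace BilEnt

/-- the chain, for orbits -/
theorem chain_orbit {h : ℝ → ℝ} (hh : IsTab h) {z : ℝ × ℝ} (hz : z ∈ dom h) {s : ℝ} {n K : ℕ}
    (hK : n ≤ 2 ^ K) (σ : ℕ → ℝ) (hσ : Monotone σ) (hσK : σ K < s / 10 ^ 4) (hT : Temp h z s n)
    (hI : ¬ Iso h z (σ 0) n) :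
    ∃ k < K, ∃ a < n, ∃ l, 2 ≤ l ∧ l ≤ n ∧ Coin s (σ (k + 1)) (σ k) l h (pth h z a) := by
  unfold Iso at hI
  push Not at hI
  obtain ⟨i, j, hij, hjn, hD⟩ := hI
  have h1 : ∀ i < n, σ K < ds (pth h z i).1 (pth h z (i + 1)).1 := by
    intro i hi
    have hb := (flight_bounds hh (pth_mem hh hz i)).1
    have e : (pth h z (i + 1)).1 = V h (pth h z i) := by
      unfold pth
      rw [Function.iterate_succ_apply']
      rfl
    rw [e]
    have := hT i hi.le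
    refine hσK.trans_le (le_trans ?_ hb)
    gcongr
  obtain ⟨k, hk, a, l, hl2, hal, hclose, hfar⟩ :=
    chain hK σ hσ (fun i j => ds (pth h z i).1 (pth h z j).1) h1 hij hjn hD
  refine ⟨k, hk, a, by omega, l, hl2, by omega, pth_mem hh hz a, ?_, ?_, ?_⟩
  · intro t ht
    rw [pth_add]
    exact hT (a + t) (by omega)
  · rw [pth_add, pth_add]
    exact hclose
  · intro b c hbc hcl hlag
    rw [pth_add, pth_add]
    exact hfar (a + b) (a + c) (by omega) (by omega) (by omega) (by omega)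

/-- **(N3)** -/
theorem n3 {C1 : ℝ} (hC1 : 1 ≤ C1) {N0 : ℕ} (hS : ShiftBound N0)
    (hTab : ∀ N ≥ N0, ∀ ω, IsTab (hw N ω))
    (hN1 : ∀ N n : ℕ, C1 ≤ N → ∀ l : ℕ, 2 ≤ l → l ≤ n →
      ∀ y : ℝ, 0 < y → y ≤ ((n : ℝ) * N) ^ (-C1) →
      Pr N {w | Coin (1 / (n : ℝ) ^ 3) y (y ^ ((16 : ℝ) / 15)) l (hw N w.1) w.2} ≤
        ENNReal.ofReal (((n : ℝ) * N) ^ C1 * y ^ ((1 : ℝ) / 6400)))
    (hMC : ∀ N ≥ N0, ∀ (s y σ : ℝ) (l : ℕ),
      MeasurableSet {w : Yt | Coin s y σ l (hw N w.1) w.2}) :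
    ∃ C : ℝ, 1 ≤ C ∧ ∀ N n : ℕ, C ≤ N → 1 ≤ n →
      Pr N {w | w.2 ∈ dom (hw N w.1) ∧ Temp (hw N w.1) w.2 (1 / (n : ℝ) ^ 3) n ∧
        ¬ Iso (hw N w.1) w.2 (exp (-(C * (n : ℝ) ^ ((1 : ℝ) / 4) * log N))) n} ≤
      ENNReal.ofReal (1 / (n : ℝ) ^ 4) := by
  obtain ⟨C2, hC21, hA⟩ := n3_arith C1 (10 ^ 4 + N0) hC1 (by
    have : (0 : ℝ) ≤ N0 := by positivity
    linarith)
  have hN00 : (0 : ℝ) ≤ N0 := by positivity
  refine ⟨C2 + N0 + 3, by linarith, ?_⟩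
  intro N n hN hn
  have hNN0 : N ≥ N0 := by
    have : (N0 : ℝ) ≤ N := by linarith
    exact_mod_cast this
  have hN3 : (3 : ℝ) ≤ N := by linarith
  have hlogN : 0 ≤ log N := Real.log_nonneg (by linarith)
  have hn1 : (1 : ℝ) ≤ n := by exact_mod_cast hn
  have hn0 : (0 : ℝ) < n := by linarith
  -- the number of steps
  obtain ⟨K, hK1, hK2⟩ : ∃ K : ℕ, n ≤ 2 ^ K ∧ 2 ^ K < 2 * n := by
    refine ⟨Nat.clog 2 n, Nat.le_pow_clog (by norm_num) n, ?_⟩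
    rcases Nat.lt_or_ge 1 n with h1 | h1
    · have h2 := Nat.pow_pred_clog_lt_self (b := 2) (by norm_num) h1
      have h3 : 0 < Nat.clog 2 n := Nat.clog_pos (by norm_num) h1
      have h4 : 2 ^ Nat.clog 2 n = 2 * 2 ^ (Nat.clog 2 n).pred := by
        rw [← pow_succ']
        congr 1
        rw [Nat.pred_eq_sub_one]
        omega
      omega
    · have : n = 1 := by omega
      subst this
      simp
  set E : ℝ := C2 * (n : ℝ) ^ ((1 : ℝ) / 4) * log N with hE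
  have hE0 : 0 ≤ E := by
    have : 0 ≤ C2 := by linarith
    positivity
  set σ : ℕ → ℝ := fun k => exp (-E * (15 / 16) ^ k) with hσ
  have hσmono : Monotone σ := by
    intro a b hab
    apply exp_le_exp.2
    have : (15 / 16 : ℝ) ^ b ≤ (15 / 16) ^ a :=
      pow_le_pow_of_le_one (by norm_num) (by norm_num) hab
    nlinarith
  have hσpow : ∀ k, σ k = σ (k + 1) ^ ((16 : ℝ) / 15) := by
    intro k
    show exp (-E * (15 / 16) ^ k) = exp (-E * (15 / 16) ^ (k + 1)) ^ ((16 : ℝ) / 15)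
    rw [← Real.exp_mul, pow_succ]
    congr 1
    ring
  have hAk : ∀ k ≤ K, σ k ≤ ((n : ℝ) * N) ^ (-C1) ∧ σ k < 1 / ((10 ^ 4 + N0) * (n : ℝ) ^ 3) ∧
      (K : ℝ) * (n : ℝ) ^ 2 * (((n : ℝ) * N) ^ C1 * σ k ^ ((1 : ℝ) / 6400)) ≤ 1 / (n : ℝ) ^ 4 :=
    fun k hk => hA N n K (by linarith) hn hK2 k hk (σ k) rfl
  -- the covering
  set S : Finset (ℕ × ℕ × ℕ) := (Finset.range K) ×ˢ (Finset.range n) ×ˢ (Finset.Icc 1 n) with hS'
  have hσ0 : exp (-((C2 + N0 + 3) * (n : ℝ) ^ ((1 : ℝ) / 4) * log N)) ≤ σ 0 := by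
    show _ ≤ exp (-E * (15 / 16) ^ 0)
    apply exp_le_exp.2
    rw [pow_zero, mul_one, hE]
    have : 0 ≤ (n : ℝ) ^ ((1 : ℝ) / 4) * log N := by positivity
    nlinarith
  have hsub : {w : Yt | w.2 ∈ dom (hw N w.1) ∧ Temp (hw N w.1) w.2 (1 / (n : ℝ) ^ 3) n ∧
        ¬ Iso (hw N w.1) w.2 (exp (-((C2 + N0 + 3) * (n : ℝ) ^ ((1 : ℝ) / 4) * log N))) n} ⊆
      ⋃ p ∈ S.filter (fun p => 2 ≤ p.2.2), {w : Yt | w.2 ∈ dom (hw N w.1) ∧
        Coin (1 / (n : ℝ) ^ 3) (σ (p.1 + 1)) (σ p.1) p.2.2 (hw N w.1)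
          (pth (hw N w.1) w.2 p.2.1)} := by
    rintro w ⟨hw1, hw2, hw3⟩
    have hI : ¬ Iso (hw N w.1) w.2 (σ 0) n := by
      intro hI
      apply hw3
      intro i j hij hjn
      exact hσ0.trans_lt (hI i j hij hjn)
    obtain ⟨k, hk, a, ha, l, hl2, hln, hcoin⟩ := chain_orbit (hTab N hNN0 w.1) hw1 hK1 σ hσmono
      (s := 1 / (n : ℝ) ^ 3) (by
        refine (hAk K le_rfl).2.1.trans_le ?_
        rw [div_div]
        apply one_div_le_one_div_of_le (by positivity)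
        nlinarith [pow_pos hn0 3]) hw2 hI
    refine Set.mem_iUnion₂.2 ⟨(k, a, l), ?_, hw1, hcoin⟩
    rw [Finset.mem_filter, hS', Finset.mem_product, Finset.mem_product, Finset.mem_range,
      Finset.mem_range, Finset.mem_Icc]
    exact ⟨⟨hk, ha, le_trans (by norm_num) hl2, hln⟩, hl2⟩
  have hterm : ∀ p ∈ S.filter (fun p => 2 ≤ p.2.2), Pr N {w : Yt | w.2 ∈ dom (hw N w.1) ∧
        Coin (1 / (n : ℝ) ^ 3) (σ (p.1 + 1)) (σ p.1) p.2.2 (hw N w.1)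
          (pth (hw N w.1) w.2 p.2.1)} ≤
      ENNReal.ofReal (1 / ((K : ℝ) * (n : ℝ) ^ 2) * (1 / (n : ℝ) ^ 4)) := by
    rintro ⟨k, a, l⟩ hp
    rw [Finset.mem_filter, hS', Finset.mem_product, Finset.mem_product, Finset.mem_range,
      Finset.mem_range, Finset.mem_Icc] at hp
    obtain ⟨⟨hk, ha, hl1, hln⟩, hl2⟩ := hp
    dsimp only at hk ha hl1 hln hl2 ⊢
    refine (hS N hNN0 a (Coin (1 / (n : ℝ) ^ 3) (σ (k + 1)) (σ k) l) (hMC N hNN0 _ _ _ _)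
      (fun h hh z hz => Coin_tau hh hz _ _ _ _)).trans ?_
    obtain ⟨c1, -, c3⟩ := hAk (k + 1) (by omega)
    have h1 := hN1 N n (by linarith) l hl2 hln (σ (k + 1)) (exp_pos _) c1
    rw [← hσpow] at h1
    refine h1.trans (ENNReal.ofReal_le_ofReal ?_)
    have hK0 : (0 : ℝ) < K := by
      have : 0 < K := by omega
      exact_mod_cast this
    rw [div_mul_eq_mul_div, one_mul, le_div_iff₀ (by positivity)]
    calc _ = (K : ℝ) * (n : ℝ) ^ 2 * (((n : ℝ) * N) ^ C1 * σ (k + 1) ^ ((1 : ℝ) / 6400)) := by ring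
      _ ≤ _ := c3
  refine (measure_mono hsub).trans ((measure_biUnion_finset_le _ _).trans ?_)
  refine (Finset.sum_le_sum hterm).trans ?_
  rw [Finset.sum_const, nsmul_eq_mul]
  have hcard : (S.filter (fun p => 2 ≤ p.2.2)).card ≤ K * (n * n) := by
    refine (Finset.card_filter_le _ _).trans ?_
    rw [hS', Finset.card_product, Finset.card_product, Finset.card_range, Finset.card_range,
      Nat.card_Icc, Nat.add_sub_cancel]
  calc ((S.filter (fun p => 2 ≤ p.2.2)).card : ℝ≥0∞) *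
        ENNReal.ofReal (1 / ((K : ℝ) * (n : ℝ) ^ 2) * (1 / (n : ℝ) ^ 4)) ≤
      ((K * (n * n) : ℕ) : ℝ≥0∞) *
        ENNReal.ofReal (1 / ((K : ℝ) * (n : ℝ) ^ 2) * (1 / (n : ℝ) ^ 4)) := by
        gcongr
    _ = ENNReal.ofReal ((K * (n * n) : ℕ) * (1 / ((K : ℝ) * (n : ℝ) ^ 2) * (1 / (n : ℝ) ^ 4))) := by
        rw [← ENNReal.ofReal_natCast, ← ENNReal.ofReal_mul (by positivity)]
    _ ≤ ENNReal.ofReal (1 / (n : ℝ) ^ 4) := by
        apply ENNReal.ofReal_le_ofReal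
        push_cast
        rcases Nat.eq_zero_or_pos K with h0 | h0
        · rw [h0]
          simp
        · have hK0 : (0 : ℝ) < K := by exact_mod_cast h0
          apply le_of_eq
          field_simp

end BilEnt
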