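import Pool.Agent.BilEnt.N11
import Pool.Agent.BilEnt.R13
import Pool.Agent.BilEnt.R14
import Pool.Agent.BilEnt.R08
import Pool.Agent.BilEnt.R03
import Pool.Agent.BilEnt.R01
import Pool.Agent.BilEnt.R09

/-!
# MP_bd32bb_an : part N, the inputs from part R
-/

open MeasureTheory Real
open scoped ENNReal

namespace BilEnt

/-! ### Measurability -/

theorem QMs_shift {h : ℝ → ℝ} {z : ℝ × ℝ} (a b : ℕ) :
    (fun t => Ms h (pth h z a) (b + t)) = Ms h (pth h z (a + b)) := by
  funext t
  unfold Ms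
  rw [pth_add, pth_add, add_assoc]

theorem measurableSet_QMall {N : ℕ} (hN : N0 ≤ N) (χ : ℝ) (m k : ℕ) :
    MeasurableSet {w : Yt | QMall χ k (hw N w.1) (pth (hw N w.1) w.2 m)} := by
  have e : {w : Yt | QMall χ k (hw N w.1) (pth (hw N w.1) w.2 m)} =
      ⋂ (a : ℕ) (b : ℕ) (_ : a < b) (_ : b ≤ k),
        {w : Yt | QMs (Ms (hw N w.1) (pth (hw N w.1) w.2 (m + a))) χ (b - a)} := by
    ext w
    simp only [Set.mem_iInter, Set.mem_ofPred_eq, QMall, QMs_shift]
  rw [e]
  exact MeasurableSet.iInter fun a => MeasurableSet.iInter fun b => MeasurableSet.iInter fun _ =>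
    MeasurableSet.iInter fun _ => measurableSet_QMs hN χ (m + a) (b - a)

theorem measurable_pos {N : ℕ} (hN : N0 ≤ N) (k : ℕ) :
    Measurable (fun w : Yt => (pth (hw N w.1) w.2 k).1) :=
  measurable_fst.comp (measurable_pth_hw hN k)

theorem measurable_ds_pos {N : ℕ} (hN : N0 ≤ N) (i j : ℕ) :
    Measurable (fun w : Yt => ds (pth (hw N w.1) w.2 i).1 (pth (hw N w.1) w.2 j).1) := by
  unfold ds
  have := ((measurable_pos hN i).sub (measurable_pos hN j)).div_const 2
  exact (measurable_const.mul (Real.measurable_sin.comp this).abs)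

theorem measurableSet_Coin {N : ℕ} (hN : N0 ≤ N) (s y σ : ℝ) (l : ℕ) :
    MeasurableSet {w : Yt | Coin s y σ l (hw N w.1) w.2} := by
  have e : {w : Yt | Coin s y σ l (hw N w.1) w.2} =
      {w | w.2 ∈ dom (hw N w.1)} ∩ ({w | Temp (hw N w.1) w.2 s l} ∩
        ({w | ds (pth (hw N w.1) w.2 0).1 (pth (hw N w.1) w.2 l).1 ≤ σ} ∩
        ⋂ (i : ℕ) (j : ℕ) (_ : i < j) (_ : j ≤ l) (_ : j - i ≤ (l + 1) / 2),
          {w : Yt | y < ds (pth (hw N w.1) w.2 i).1 (pth (hw N w.1) w.2 j).1})) := by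
    ext w
    simp only [Set.mem_iInter, Set.mem_ofPred_eq, Set.mem_inter_iff, Coin]
  rw [e]
  refine (measurableSet_dom_hw hN).inter ((measurableSet_Temp hN s l).inter
    ((measurableSet_le (measurable_ds_pos hN 0 l) measurable_const).inter ?_))
  exact MeasurableSet.iInter fun i => MeasurableSet.iInter fun j => MeasurableSet.iInter fun _ =>
    MeasurableSet.iInter fun _ => MeasurableSet.iInter fun _ =>
      measurableSet_lt measurable_const (measurable_ds_pos hN i j)

theorem measurableSet_PN {N : ℕ} (hN : N0 ≤ N) (s y σ χ : ℝ) (m k : ℕ) :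
    MeasurableSet {w : Yt | PN s y σ χ m k (hw N w.1) w.2} :=
  (measurableSet_Coin hN s y σ (m + k)).inter (measurableSet_QMall hN χ m k)

theorem measurableSet_PQ {N : ℕ} (hN : N0 ≤ N) (s y χ : ℝ) (k : ℕ) :
    MeasurableSet {w : Yt | PQ s y χ k (hw N w.1) w.2} :=
  (measurableSet_dom_hw hN).inter ((measurableSet_Temp hN s k).inter
    ((measurableSet_Iso hN y k).inter (measurableSet_QMall hN χ 0 k).compl))

/-! ### Stationarity -/

theorem shiftBound : ShiftBound N0 := by
  intro N hN m P hP hτ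
  set S : Set Yt := {w | P (hw N w.1) w.2} with hS
  have hPer : PerF N (fun y : Yt => S.indicator (fun _ => (1 : ℝ≥0∞)) y) := by
    intro ω z hz
    have h1 : ((ω, z + tau) : Yt) ∈ S ↔ ((ω, z) : Yt) ∈ S := hτ _ (isTab_hw hN ω) z hz
    show S.indicator (fun _ => (1 : ℝ≥0∞)) ((ω, z + tau) : Yt) =
      S.indicator (fun _ => (1 : ℝ≥0∞)) ((ω, z) : Yt)
    by_cases h2 : ((ω, z) : Yt) ∈ S
    · rw [Set.indicator_of_mem h2, Set.indicator_of_mem (h1.2 h2)]
    · rw [Set.indicator_of_notMem h2, Set.indicator_of_notMem (fun h3 => h2 (h1.1 h3))]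
  have hmeas : Measurable (fun y : Yt => S.indicator (fun _ => (1 : ℝ≥0∞)) y) :=
    measurable_const.indicator hP
  have key := Pr_shift' hN hmeas hPer m
  have hm2 : Measurable (fun w : Yt => ((w.1, pth (hw N w.1) w.2 m) : Yt)) :=
    measurable_fst.prodMk (measurable_pth_hw hN m)
  have hS2 : MeasurableSet {w : Yt | ((w.1, pth (hw N w.1) w.2 m) : Yt) ∈ S} := hm2 hP
  have e1 : ∫⁻ y, S.indicator (fun _ => (1 : ℝ≥0∞)) ((y.1, pth (hw N y.1) y.2 m) : Yt) ∂(Pr N) =
      Pr N {w : Yt | ((w.1, pth (hw N w.1) w.2 m) : Yt) ∈ S} := by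
    rw [← lintegral_indicator_one hS2]
    rfl
  have e2 : ∫⁻ y, S.indicator (fun _ => (1 : ℝ≥0∞)) y ∂(Pr N) = Pr N S := by
    rw [← lintegral_indicator_one hP]
    rfl
  rw [e1, e2] at key
  rw [← key]
  exact measure_mono fun w hw => hw.2

/-! ### Resampling -/

theorem abs_sin_le_ds (u c : ℝ) : |sin (u - c)| ≤ ds u c := by
  have h1 : u - c = 2 * ((u - c) / 2) := by ring
  rw [h1, Real.sin_two_mul, abs_mul, abs_mul, abs_two]
  unfold ds
  have h2 : |cos ((u - c) / 2)| ≤ 1 := abs_cos_le_one _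
  have h3 : 0 ≤ 2 * |sin ((u - c) / 2)| := by positivity
  nlinarith

theorem meas_bm_comp {α : Type*} [MeasurableSpace α] {N : ℕ} (hN : N0 ≤ N) (m : ℕ) {f : α → Yt}
    (hf : Measurable f) : Measurable (fun x => (bm (hw N (f x).1))^[m] (f x).2) :=
  (measurable_bm_iter_hw hN m).comp hf

theorem meas_bm_pair {α : Type*} [MeasurableSpace α] {N : ℕ} (hN : N0 ≤ N) (m : ℕ) {f : α → Yt}
    (hf : Measurable f) {S : Set Yt} (hS : MeasurableSet S) :
    MeasurableSet {x | (f x).2 ∈ dom (hw N (f x).1) ∧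
      (((f x).1, (bm (hw N (f x).1))^[m] (f x).2) : Yt) ∈ S} := by
  have h1 : MeasurableSet (f ⁻¹' {y : Yt | y.2 ∈ dom (hw N y.1)}) := hf (measurableSet_dom_hw hN)
  have h2 : Measurable (fun x => (((f x).1, (bm (hw N (f x).1))^[m] (f x).2) : Yt)) :=
    (measurable_fst.comp hf).prodMk (meas_bm_comp hN m hf)
  exact h1.inter (h2 hS)

theorem slopeBound : SlopeBound N0 := by
  intro N hN q hq m P hP hτ c hc H
  have hN10 : 10 ≤ N := N0_ge.trans hN
  set S : Set Yt := {w | P (hw N w.1) w.2} with hS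
  have hPer : PerF N (fun y : Yt => y ∈ S) := by
    intro ω z hz
    exact propext (hτ _ (isTab_hw hN ω) z hz)
  obtain ⟨hdl0, hdl1⟩ := dl_pos hN10 q
  have key : Pr N S ≤ ENNReal.ofReal (25 * (100 * c)) := by
    refine master_bound hN hP hPer m q (by positivity) ?_
    intro u
    obtain ⟨i, hi, hnear, hbmp⟩ := exists_cell hN10 hq u
    refine ⟨i, hi, ?_⟩
    intro ω φ
    set cc : ℝ := ctr (nc N q) i with hcc
    set s : ℝ := sin (u - cc) / dl N q with hs
    set d : ℝ := ds u cc ^ 2 / dl N q ^ 2 with hd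
    have hds0 : 0 ≤ ds u cc := by unfold ds; positivity
    have hs2 : |s| ≤ 2 := by
      rw [hs, abs_div, abs_of_pos hdl0, div_le_iff₀ hdl0]
      linarith [abs_sin_le_ds u cc]
    have hd2 : |d| ≤ 2 := by
      rw [hd, abs_of_nonneg (by positivity), div_le_iff₀ (by positivity)]
      nlinarith
    set A : Set (Fin 3 → ℝ) := {x | zin (hw N (upd ω q i x)) u φ ∈ dom (hw N (upd ω q i x)) ∧
        ((upd ω q i x, (bm (hw N (upd ω q i x)))^[m] (zin (hw N (upd ω q i x)) u φ)) : Yt) ∈ S}
      with hA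
    have hupd : Measurable (fun x : Fin 3 → ℝ => upd ω q i x) :=
      (measurable_upd q i).comp (measurable_const.prodMk measurable_id)
    have hz : Measurable (fun x : Fin 3 → ℝ => ((upd ω q i x,
        zin (hw N (upd ω q i x)) u φ) : Yt)) :=
      hupd.prodMk ((measurable_zin_hw hN u φ).comp hupd)
    have hAm : MeasurableSet A := meas_bm_pair hN m hz hP
    have hboxm : MeasurableSet {x : Fin 3 → ℝ | ∀ j, |x j| ≤ 1} := by
      have e : {x : Fin 3 → ℝ | ∀ j, |x j| ≤ 1} = ⋂ j, {x | |x j| ≤ 1} := by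
        ext x
        simp
      rw [e]
      exact MeasurableSet.iInter fun j =>
        measurableSet_le (measurable_pi_apply j).abs measurable_const
    have hsplit : nu A ≤ nu (A ∩ {x | ∀ j, |x j| ≤ 1}) := by
      calc nu A ≤ nu ((A ∩ {x | ∀ j, |x j| ≤ 1}) ∪ {x | ¬ ∀ j, |x j| ≤ 1}) := by
            apply measure_mono
            intro x hx
            by_cases h1 : ∀ j, |x j| ≤ 1
            · exact Or.inl ⟨hx, h1⟩
            · exact Or.inr h1
        _ ≤ _ := measure_union_le _ _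
        _ = nu (A ∩ {x | ∀ j, |x j| ≤ 1}) := by rw [nu_box, add_zero]
    refine hsplit.trans ?_
    refine nu_le_slope (s := s) (d := d) (hAm.inter hboxm) (fun x hx => hx.2) hs2 hd2 hc ?_
    intro y0 x2
    -- the family
    set X : ℝ → (Fin 3 → ℝ) := fun x1 => ![y0 - x1 * s - x2 * d, x1, x2] with hX
    set I : Set ℝ := {x1 | ∀ j, |X x1 j| ≤ 1} with hI
    set κ : ℝ := bmp N q i u * e2 * dl N q ^ (1 + al) * cos (u - cc) with hκ
    have hfam : ∀ x ∈ I, ∀ x' ∈ I,
        hw N (upd ω q i (X x)) u = hw N (upd ω q i (X x')) u ∧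
        deriv (hw N (upd ω q i (X x))) u - deriv (hw N (upd ω q i (X x'))) u = κ * (x - x') := by
      intro x hx x' hx'
      have h1 := slope_family hN ω hq hi (u := u) (x := X x) (x' := X x') hx hx' (by
        show (y0 - x * s - x2 * d) + x * s + x2 * d = (y0 - x' * s - x2 * d) + x' * s + x2 * d
        ring) rfl
      exact h1
    have hcos : 7 / 8 ≤ cos (u - cc) := by
      have h1 := ds_sq u cc
      nlinarith
    have hdlp : 0 < dl N q ^ (1 + al) := Real.rpow_pos_of_pos hdl0 _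
    have he2 : 0 < e2 := by unfold e2; norm_num
    have hbmp1 : bmp N q i u ≤ 1 := bump_le_one (by positivity)
    have hcos1 : cos (u - cc) ≤ 1 := cos_le_one _
    have hF : ∃ a0, SlopeFam N q (fun x => hw N (upd ω q i (X x))) I u cc κ a0 := by
      have hcommon : ∀ a0 : ℝ, (∀ x ∈ I, deriv (hw N (upd ω q i (X x))) u = a0 + κ * x) →
          SlopeFam N q (fun x => hw N (upd ω q i (X x))) I u cc κ a0 := by
        intro a0 ha0
        refine ⟨?_, fun x _ => isTab_hw hN _, fun x _ => (tables hN _).2.2.2, hnear, ?_, ?_, ha0,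
          ?_, ?_⟩
        · intro x hx
          have := hx 1
          exact abs_le.1 this
        · intro x _ x' _ v hv
          exact agreeOff_upd hN ω hi (X x) (X x') v hv
        · intro x hx x' hx'
          exact (hfam x hx x' hx').1
        · have h1 : 42 / 100 * (7 / 8) ≤ bmp N q i u * cos (u - cc) :=
            mul_le_mul hbmp hcos (by norm_num) (by linarith)
          calc e2 / 10 * dl N q ^ (1 + al) ≤ (e2 * dl N q ^ (1 + al)) * (42 / 100 * (7 / 8)) := by
                have : 0 < e2 * dl N q ^ (1 + al) := by positivity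
                nlinarith
            _ ≤ (e2 * dl N q ^ (1 + al)) * (bmp N q i u * cos (u - cc)) :=
                mul_le_mul_of_nonneg_left h1 (by positivity)
            _ = κ := by rw [hκ]; ring
        · have h1 : bmp N q i u * cos (u - cc) ≤ 1 :=
            mul_le_one₀ hbmp1 (by linarith) hcos1
          calc κ = (e2 * dl N q ^ (1 + al)) * (bmp N q i u * cos (u - cc)) := by rw [hκ]; ring
            _ ≤ (e2 * dl N q ^ (1 + al)) * 1 := mul_le_mul_of_nonneg_left h1 (by positivity)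
            _ = _ := mul_one _
      rcases I.eq_empty_or_nonempty with h0 | ⟨x₀, hx₀⟩
      · refine ⟨0, hcommon 0 ?_⟩
        intro x hx
        rw [h0] at hx
        exact absurd hx (Set.notMem_empty _)
      · refine ⟨deriv (hw N (upd ω q i (X x₀))) u - κ * x₀, hcommon _ ?_⟩
        intro x hx
        have := (hfam x hx x₀ hx₀).2
        linarith
    obtain ⟨a0, hF⟩ := hF
    refine le_trans (measure_mono ?_) (H u φ _ I cc κ a0 hF)
    intro x1 hx1
    exact ⟨hx1.2, hx1.1⟩
  refine key.trans (ENNReal.ofReal_le_ofReal (by linarith))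

end BilEnt
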