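import Mathlib

/-!
# Part S, module S02: window lemma (abstract, elementary)
-/

namespace BilEnt

namespace S02_aux

open Finset

/-- value of the window `[u - N, u) ∩ [0, k)` -/
def W (k : ℕ) (α : ℕ → ℕ → ℝ) (N u : ℕ) : ℝ := α (u - N) (min u k)

def S (k : ℕ) (α : ℕ → ℕ → ℝ) (N : ℕ) : ℝ := ∑ u ∈ range (N + k), W k α N u

theorem W_zero {k : ℕ} {α : ℕ → ℕ → ℝ} (hα0 : ∀ s e, e ≤ s → α s e = 0) {N u : ℕ}
    (h : N + k ≤ u) : W k α N u = 0 := by
  unfold W
  apply hα0
  have : min u k ≤ k := min_le_right _ _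
  omega

theorem S_ext {k : ℕ} {α : ℕ → ℕ → ℝ} (hα0 : ∀ s e, e ≤ s → α s e = 0) {N R : ℕ}
    (h : N + k ≤ R) : ∑ u ∈ range R, W k α N u = S k α N := by
  obtain ⟨d, rfl⟩ := Nat.exists_eq_add_of_le h
  rw [sum_range_add]
  have : ∑ x ∈ range d, W k α N (N + k + x) = 0 :=
    sum_eq_zero fun x _ => W_zero hα0 (by omega)
  rw [this, add_zero]
  rfl

theorem key {k : ℕ} {α δ : ℕ → ℕ → ℝ}
    (hα0 : ∀ s e, e ≤ s → α s e = 0)
    (hs : ∀ n s m e, s < m → m < e → e ≤ k → m - s ≤ n → e - m ≤ n →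
      α s m + α m e ≤ α s e + δ n m) {N : ℕ} (hN : 1 ≤ N) (u : ℕ) :
    W k α N u + (if N ≤ u then W k α N (u - N) else 0) ≤
      W k α (2 * N) u + (if N < u ∧ u < N + k then δ N (u - N) else 0) := by
  unfold W
  rcases Nat.lt_or_ge u N with h1 | h1
  · have h2 : ¬ (N ≤ u) := by omega
    have h3 : ¬ (N < u ∧ u < N + k) := by omega
    rw [if_neg h2, if_neg h3]
    have h4 : u - N = 0 := by omega
    have h5 : u - 2 * N = 0 := by omega
    rw [h4, h5]
  · rw [if_pos h1]
    rcases Nat.eq_or_lt_of_le h1 with h2 | h2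
    · have h3 : ¬ (N < u ∧ u < N + k) := by omega
      rw [if_neg h3]
      have h4 : u - N = 0 := by omega
      have h5 : u - 2 * N = 0 := by omega
      have h6 : α (0 - N) (min 0 k) = 0 := hα0 _ _ (by simp)
      rw [h4, h5, h6]
    · rcases Nat.lt_or_ge (u - N) k with h3 | h3
      · have h4 : N < u ∧ u < N + k := by omega
        rw [if_pos h4]
        have h5 : min (u - N) k = u - N := min_eq_left h3.le
        rw [h5]
        have h6 : u - N - N = u - 2 * N := by omega
        rw [h6]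
        have hle1 : min u k ≤ u := min_le_left _ _
        have hle2 : min u k ≤ k := min_le_right _ _
        have hlt : u - N < min u k := lt_min (by omega) h3
        have := hs N (u - 2 * N) (u - N) (min u k) (by omega) hlt hle2 (by omega) (by omega)
        linarith
      · have h4 : ¬ (N < u ∧ u < N + k) := by omega
        rw [if_neg h4]
        have h5 : min u k = k := min_eq_right (by omega)
        have h6 : min (u - N) k = k := min_eq_right h3
        have h7 : u - N - N = u - 2 * N := by omega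
        rw [h5, h6, h7, hα0 (u - N) k h3]
        linarith

theorem doubling {k : ℕ} {α δ : ℕ → ℕ → ℝ}
    (hα0 : ∀ s e, e ≤ s → α s e = 0)
    (hs : ∀ n s m e, s < m → m < e → e ≤ k → m - s ≤ n → e - m ≤ n →
      α s m + α m e ≤ α s e + δ n m) {N : ℕ} (hN : 1 ≤ N) :
    2 * S k α N ≤ S k α (2 * N) + ∑ m ∈ Ico 1 k, δ N m := by
  have h := sum_le_sum (s := range (N + (N + k))) fun u _ => key hα0 hs hN u
  rw [sum_add_distrib, sum_add_distrib] at h
  rw [S_ext hα0 (R := N + (N + k)) (by omega), S_ext hα0 (R := N + (N + k)) (by omega)] at h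
  have e1 : ∑ u ∈ range (N + (N + k)), (if N ≤ u then W k α N (u - N) else 0) = S k α N := by
    rw [sum_range_add]
    have h1 : ∑ u ∈ range N, (if N ≤ u then W k α N (u - N) else 0) = 0 := by
      refine sum_eq_zero fun u hu => ?_
      have : ¬ (N ≤ u) := by have := mem_range.mp hu; omega
      rw [if_neg this]
    rw [h1, zero_add]
    refine sum_congr rfl fun x _ => ?_
    rw [if_pos (by omega), Nat.add_sub_cancel_left]
  have e2 : ∑ u ∈ range (N + (N + k)), (if N < u ∧ u < N + k then δ N (u - N) else 0)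
      = ∑ m ∈ Ico 1 k, δ N m := by
    rw [sum_range_add]
    have h1 : ∑ u ∈ range N, (if N < u ∧ u < N + k then δ N (u - N) else 0) = 0 := by
      refine sum_eq_zero fun u hu => ?_
      have : ¬ (N < u ∧ u < N + k) := by have := mem_range.mp hu; omega
      rw [if_neg this]
    rw [h1, zero_add]
    have h2 : ∀ x ∈ range (N + k), (if N < N + x ∧ N + x < N + k then δ N (N + x - N) else 0)
        = if 1 ≤ x ∧ x < k then δ N x else 0 := by
      intro x _
      rw [Nat.add_sub_cancel_left]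
      by_cases hx : 1 ≤ x ∧ x < k
      · rw [if_pos hx, if_pos (by omega)]
      · rw [if_neg hx, if_neg (by omega)]
    rw [sum_congr rfl h2, ← sum_filter]
    refine sum_congr ?_ fun _ _ => rfl
    ext x
    simp only [mem_filter, mem_range, mem_Ico]
    omega
  rw [e1, e2] at h
  linarith

theorem W_le {k : ℕ} {α : ℕ → ℕ → ℝ} (hα0 : ∀ s e, e ≤ s → α s e = 0) (hα : ∀ s e, 0 ≤ α s e)
    (N u : ℕ) : W k α N u ≤ ∑ s ∈ range (k + 1), ∑ e ∈ range (k + 1), α s e := by
  have hC : 0 ≤ ∑ s ∈ range (k + 1), ∑ e ∈ range (k + 1), α s e :=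
    sum_nonneg fun _ _ => sum_nonneg fun _ _ => hα _ _
  unfold W
  rcases Nat.lt_or_ge (u - N) (min u k) with h | h
  · have h1 : min u k ≤ k := min_le_right _ _
    calc α (u - N) (min u k) ≤ ∑ e ∈ range (k + 1), α (u - N) e :=
          single_le_sum (f := fun e => α (u - N) e) (fun _ _ => hα _ _) (mem_range.mpr (by omega))
      _ ≤ _ := single_le_sum (f := fun s => ∑ e ∈ range (k + 1), α s e)
          (fun _ _ => sum_nonneg fun _ _ => hα _ _) (mem_range.mpr (by omega))
  · rw [hα0 _ _ h]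
    exact hC

theorem upper {k : ℕ} {α : ℕ → ℕ → ℝ} (hα0 : ∀ s e, e ≤ s → α s e = 0) (hα : ∀ s e, 0 ≤ α s e)
    (N : ℕ) : S k α N ≤
      N * α 0 k + 2 * k * ∑ s ∈ range (k + 1), ∑ e ∈ range (k + 1), α s e := by
  set C := ∑ s ∈ range (k + 1), ∑ e ∈ range (k + 1), α s e with hC
  have hC0 : 0 ≤ C := sum_nonneg fun _ _ => sum_nonneg fun _ _ => hα _ _
  unfold S
  rw [add_comm N k, sum_range_add]
  have h1 : ∑ x ∈ range k, W k α N x ≤ k * C := by
    calc ∑ x ∈ range k, W k α N x ≤ ∑ _x ∈ range k, C := sum_le_sum fun x _ => W_le hα0 hα N x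
      _ = k * C := by simp
  have h2 : ∑ x ∈ range N, W k α N (k + x) ≤
      ∑ x ∈ range N, (α 0 k + if N < k + x then C else 0) := by
    refine sum_le_sum fun x _ => ?_
    by_cases hx : N < k + x
    · rw [if_pos hx]
      have := W_le (k := k) hα0 hα N (k + x)
      have := hα 0 k
      linarith
    · rw [if_neg hx, add_zero]
      unfold W
      have e1 : k + x - N = 0 := by omega
      have e2 : min (k + x) k = k := min_eq_right (by omega)
      rw [e1, e2]
  have h3 : ∑ x ∈ range N, (α 0 k + if N < k + x then C else 0) ≤ N * α 0 k + k * C := by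
    rw [sum_add_distrib, ← sum_filter, sum_const, sum_const, card_range, nsmul_eq_mul,
      nsmul_eq_mul]
    have hcard : (filter (fun x => N < k + x) (range N)).card ≤ k := by
      calc (filter (fun x => N < k + x) (range N)).card ≤ (Ico (N - k) N).card := by
            refine card_le_card fun x hx => ?_
            simp only [mem_filter, mem_range] at hx
            rw [mem_Ico]
            omega
        _ ≤ k := by rw [Nat.card_Ico]; omega
    have hcard' : ((filter (fun x => N < k + x) (range N)).card : ℝ) ≤ k := by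
      exact_mod_cast hcard
    have := mul_le_mul_of_nonneg_right hcard' hC0
    linarith
  linarith

theorem lower {k n0 : ℕ} {α : ℕ → ℕ → ℝ} (hα : ∀ s e, 0 ≤ α s e) (hn0 : 1 ≤ n0) :
    ∑ t ∈ range (k + 1 - n0), α t (t + n0) ≤ S k α n0 := by
  unfold S
  rw [sum_range_add]
  have h1 : 0 ≤ ∑ x ∈ range n0, W k α n0 x := sum_nonneg fun _ _ => hα _ _
  have h2 : ∑ t ∈ range (k + 1 - n0), α t (t + n0) ≤ ∑ x ∈ range k, W k α n0 (n0 + x) := by
    calc ∑ t ∈ range (k + 1 - n0), α t (t + n0)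
        = ∑ t ∈ range (k + 1 - n0), W k α n0 (n0 + t) := by
          refine sum_congr rfl fun t ht => ?_
          have ht' := mem_range.mp ht
          unfold W
          rw [Nat.add_sub_cancel_left, min_eq_left (by omega), add_comm]
      _ ≤ _ := by
          refine sum_le_sum_of_subset_of_nonneg ?_ fun _ _ _ => hα _ _
          intro x hx
          rw [mem_range] at hx ⊢
          omega
  linarith

theorem iter {k n0 : ℕ} (hn0 : 1 ≤ n0) {α δ : ℕ → ℕ → ℝ}
    (hα0 : ∀ s e, e ≤ s → α s e = 0)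
    (hs : ∀ n s m e, s < m → m < e → e ≤ k → m - s ≤ n → e - m ≤ n →
      α s m + α m e ≤ α s e + δ n m) (J : ℕ) :
    S k α n0 / n0 ≤ S k α (2 ^ J * n0) / (2 ^ J * n0) +
      ∑ j ∈ range J, ∑ m ∈ Ico 1 k, δ (2 ^ j * n0) m / (2 ^ (j + 1) * n0) := by
  have hn : (0 : ℝ) < n0 := by exact_mod_cast hn0
  induction J with
  | zero => simp
  | succ J ih =>
    rw [sum_range_succ]
    have hN : 1 ≤ 2 ^ J * n0 := Nat.one_le_iff_ne_zero.mpr (by positivity)
    have h := doubling hα0 hs hN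
    have e1 : 2 * (2 ^ J * n0) = 2 ^ (J + 1) * n0 := by ring
    rw [e1] at h
    have hpos : (0 : ℝ) < 2 ^ (J + 1) * n0 := by positivity
    have h2 : S k α (2 ^ J * n0) / (2 ^ J * n0) ≤ S k α (2 ^ (J + 1) * n0) / (2 ^ (J + 1) * n0) +
        ∑ m ∈ Ico 1 k, δ (2 ^ J * n0) m / (2 ^ (J + 1) * n0) := by
      have e2 : S k α (2 ^ J * n0) / (2 ^ J * n0) =
          (2 * S k α (2 ^ J * n0)) / (2 ^ (J + 1) * n0) := by
        rw [pow_succ]
        field_simp
      rw [e2, ← Finset.sum_div, ← add_div]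
      exact div_le_div_of_nonneg_right h hpos.le
    linarith

end S02_aux

/-- WINDOW LEMMA.  Think of `α s e` as the log norm of the product over the interval `[s, e)` (zero if
`e ≤ s`) and of `δ n m` as the defect of additivity at the point `m` for windows of length at most `n`.

PROOF.  For `N ≥ 1` and `u : ℕ` put `W N u := α (u - N) (min u k)` (natural subtraction): this is the
value of the window `[u - N, u) ∩ [0, k)`; `W N u = 0` if `u = 0` or `u ≥ N + k` (then `u - N ≥ k`).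
`S N := ∑ u ∈ range (N + k), W N u`  (the sum over `range R` is the same for all `R ≥ N + k`).
(1) Doubling: `2 * S N ≤ S (2 N) + ∑ m ∈ Ico 1 k, δ N m`.  Indeed, for every `u < 2N + k`
  `W N u + (if N ≤ u then W N (u - N) else 0) ≤ W (2N) u + (if N < u ∧ u < N + k then δ N (u - N) else 0)`:
  put `m = u - N`.  If `u < N` (or `u = N`, where `W N 0 = α 0 0 = 0`): `W N u = α 0 (min u k) = W (2N) u`.
  If `m ≥ k`: `min u k = k ≤ m` so `W N u = 0`, and `W N (u-N) = α (m - N) (min m k) = α (m-N) k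
  = α (u - 2N) (min u k) = W (2N) u`.  If `0 < m < k`: use `hs` with `n = N`, `s = m - N = u - 2N`
  (natural subtraction), `e = min u k`; `m - s ≤ N`, `e - m ≤ u - m = N`.
  Sum over `u ∈ range (2N + k)` and shift the index in the second and fourth sums.
(2) Upper bound: with `C := ∑ s ∈ range (k+1), ∑ e ∈ range (k+1), α s e` one has `W N u ≤ C` always
  (if the window is nonempty then `u - N < k` and `min u k ≤ k`), and `W N u = α 0 k` for
  `k ≤ u ≤ N`; the number of `u < N + k` with `k ≤ u ≤ N` is at most `N` (as `k ≥ 1`) and the number of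
  the other `u` is at most `2k`.  So `S N ≤ N * α 0 k + 2 * k * C`.
(3) Lower bound: `S n0 ≥ ∑ t ∈ range (k + 1 - n0), α t (t + n0)` (the windows `u = t + n0 ≤ k`).
(4) Put `N_J = 2^J * n0` and divide (1) by `N_{J+1} = 2 N_J`:
  `S N_J / N_J ≤ S N_{J+1} / N_{J+1} + ∑ m ∈ Ico 1 k, δ N_J m / N_{J+1}`.  By induction
  `S n0 / n0 ≤ S N_J / N_J + ∑ j ∈ range J, ∑ m ∈ Ico 1 k, δ N_j m / N_{j+1}
   ≤ α 0 k + 2 k C / N_J + ∑ m ∈ Ico 1 k, ∑' j, δ N_j m / N_{j+1}` (partial sums of nonnegative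
  summable series, `Summable.sum_le_tsum`), and let `J → ∞` (`2 k C / N_J → 0`; `ge_of_tendsto'`). -/
theorem s_window (k n0 : ℕ) (hk : 1 ≤ k) (hn0 : 1 ≤ n0) (α : ℕ → ℕ → ℝ) (δ : ℕ → ℕ → ℝ)
    (hα0 : ∀ s e, e ≤ s → α s e = 0) (hα : ∀ s e, 0 ≤ α s e) (hδ : ∀ n m, 0 ≤ δ n m)
    (hs : ∀ n s m e, s < m → m < e → e ≤ k → m - s ≤ n → e - m ≤ n →
      α s m + α m e ≤ α s e + δ n m)
    (hsum : ∀ m, 0 < m → m < k →
      Summable fun j : ℕ => δ (2 ^ j * n0) m / (2 ^ (j + 1) * n0)) :
    (∑ t ∈ Finset.range (k + 1 - n0), α t (t + n0)) / n0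
      - ∑ m ∈ Finset.Ico 1 k, ∑' j : ℕ, δ (2 ^ j * n0) m / (2 ^ (j + 1) * n0) ≤ α 0 k := by
  have hn : (0 : ℝ) < n0 := by exact_mod_cast hn0
  set C := ∑ s ∈ Finset.range (k + 1), ∑ e ∈ Finset.range (k + 1), α s e with hC
  set D := ∑ m ∈ Finset.Ico 1 k, ∑' j : ℕ, δ (2 ^ j * n0) m / (2 ^ (j + 1) * n0) with hD
  have hJ : ∀ J : ℕ, (∑ t ∈ Finset.range (k + 1 - n0), α t (t + n0)) / n0 - D ≤
      α 0 k + 2 * k * C / n0 * (1 / 2) ^ J := by
    intro J
    have h1 := S02_aux.iter hn0 hα0 hs J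
    have h2 := S02_aux.upper hα0 hα (2 ^ J * n0) (k := k)
    rw [← hC] at h2
    have h3 : (∑ t ∈ Finset.range (k + 1 - n0), α t (t + n0)) / n0 ≤ S02_aux.S k α n0 / n0 :=
      div_le_div_of_nonneg_right (S02_aux.lower hα hn0) hn.le
    have hpos : (0 : ℝ) < 2 ^ J * n0 := by positivity
    have h4 : S02_aux.S k α (2 ^ J * n0) / (2 ^ J * n0) ≤
        α 0 k + 2 * k * C / n0 * (1 / 2) ^ J := by
      rw [div_le_iff₀ hpos]
      refine le_trans h2 (le_of_eq ?_)
      push_cast
      rw [one_div, inv_pow]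
      field_simp
    have h5 : ∑ j ∈ Finset.range J, ∑ m ∈ Finset.Ico 1 k,
        δ (2 ^ j * n0) m / (2 ^ (j + 1) * n0) ≤ D := by
      rw [Finset.sum_comm, hD]
      refine Finset.sum_le_sum fun m hm => ?_
      have hm' := Finset.mem_Ico.mp hm
      refine (hsum m (by omega) hm'.2).sum_le_tsum _ fun j _ => ?_
      exact div_nonneg (hδ _ _) (by positivity)
    linarith
  have hlim : Filter.Tendsto (fun J : ℕ => α 0 k + 2 * k * C / n0 * (1 / 2 : ℝ) ^ J)
      Filter.atTop (nhds (α 0 k + 2 * k * C / n0 * 0)) :=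
    ((tendsto_pow_atTop_nhds_zero_of_lt_one (by norm_num) (by norm_num)).const_mul _).const_add _
  rw [mul_zero, add_zero] at hlim
  exact ge_of_tendsto' hlim hJ

end BilEnt
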