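import Mathlib

/-!
# Part S, module S03: the maximal ergodic theorem
-/

open MeasureTheory Filter Topology

namespace BilEnt

namespace S03_aux

/-- Birkhoff sums -/
def S {Y : Type*} (T : Y → Y) (f : Y → ℝ) (k : ℕ) (y : Y) : ℝ :=
  ∑ i ∈ Finset.range k, f (T^[i] y)

/-- running maxima, defined recursively -/
def F {Y : Type*} (T : Y → Y) (f : Y → ℝ) : ℕ → Y → ℝ
  | 0 => fun _ => 0
  | n + 1 => fun y => max 0 (f y + F T f n (T y))

theorem S_zero {Y : Type*} (T : Y → Y) (f : Y → ℝ) (y : Y) : S T f 0 y = 0 := by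
  simp [S]

theorem S_succ {Y : Type*} (T : Y → Y) (f : Y → ℝ) (k : ℕ) (y : Y) :
    S T f (k + 1) y = f y + S T f k (T y) := by
  unfold S
  rw [Finset.sum_range_succ']
  simp only [Function.iterate_succ_apply, Function.iterate_zero, id_eq]
  ring

theorem F_nonneg {Y : Type*} (T : Y → Y) (f : Y → ℝ) (n : ℕ) (y : Y) : 0 ≤ F T f n y := by
  cases n with
  | zero => simp [F]
  | succ n => exact le_max_left _ _

theorem S_le_F {Y : Type*} (T : Y → Y) (f : Y → ℝ) (n : ℕ) :
    ∀ (k : ℕ) (y : Y), k ≤ n → S T f k y ≤ F T f n y := by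
  induction n with
  | zero =>
    intro k y hk
    obtain rfl : k = 0 := by omega
    rw [S_zero]
    exact F_nonneg T f 0 y
  | succ n ih =>
    intro k y hk
    cases k with
    | zero => rw [S_zero]; exact F_nonneg T f _ y
    | succ k =>
      rw [S_succ]
      have := ih k (T y) (by omega)
      exact le_trans (by linarith) (le_max_right _ _)

theorem exists_F_eq {Y : Type*} (T : Y → Y) (f : Y → ℝ) (n : ℕ) :
    ∀ y : Y, ∃ k ≤ n, F T f n y = S T f k y := by
  induction n with
  | zero => intro y; exact ⟨0, le_rfl, by rw [S_zero]; rfl⟩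
  | succ n ih =>
    intro y
    obtain ⟨k, hk, h⟩ := ih (T y)
    rcases le_total (f y + F T f n (T y)) 0 with h1 | h1
    · exact ⟨0, by omega, by rw [S_zero]; exact max_eq_left h1⟩
    · refine ⟨k + 1, by omega, ?_⟩
      rw [S_succ, ← h]
      exact max_eq_right h1

theorem F_mono {Y : Type*} (T : Y → Y) (f : Y → ℝ) {m n : ℕ} (h : m ≤ n) (y : Y) :
    F T f m y ≤ F T f n y := by
  obtain ⟨k, hk, h1⟩ := exists_F_eq T f m y
  rw [h1]
  exact S_le_F T f n k y (hk.trans h)

theorem F_meas {Y : Type*} [MeasurableSpace Y] {T : Y → Y} {f : Y → ℝ} (hT : Measurable T)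
    (hf : Measurable f) (n : ℕ) : Measurable (F T f n) := by
  induction n with
  | zero => exact measurable_const
  | succ n ih => exact measurable_const.max (hf.add (ih.comp hT))

theorem F_int {Y : Type*} [MeasurableSpace Y] {μ : Measure Y} {T : Y → Y} {f : Y → ℝ}
    (hT : MeasurePreserving T μ μ) (hf : Integrable f μ) (n : ℕ) :
    Integrable (F T f n) μ := by
  induction n with
  | zero => exact integrable_zero _ _ _
  | succ n ih =>
    exact (integrable_zero Y ℝ μ).sup
      (hf.add ((hT.integrable_comp ih.aestronglyMeasurable).2 ih))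

end S03_aux

open S03_aux in
/-- MAXIMAL ERGODIC THEOREM (Garsia's proof).

PROOF.  Write `S k y = ∑ i ∈ range k, f (T^[i] y)`, so `S (k+1) y = f y + S k (T y)` and `S 0 = 0`;
all `S k` are measurable and integrable.  `F n y := (Finset.range (n+1)).sup' _ (fun k => S k y)`, the
maximum over `k ≤ n`; `F n ≥ S 0 = 0`, `F n` is measurable and integrable
(`|F n| ≤ ∑ k ≤ n, |S k|`).  On `E n := {y | 0 < F n y}` the maximum is attained at some
`k = j + 1 ≥ 1`, so `F n y = f y + S j (T y) ≤ f y + F n (T y)`.  Hence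
`∫_{E n} f ≥ ∫_{E n} F n - ∫_{E n} F n ∘ T ≥ ∫ F n - ∫ F n ∘ T = 0`
(`F n = 0` off `E n`, `F n ∘ T ≥ 0`, `T` preserves `μ`).
The sets `E n` increase to `E = {y | ∃ k, 0 < S k y}`, so `∫_E f = lim ∫_{E n} f ≥ 0`
(e.g. `MeasureTheory.tendsto_setIntegral_of_monotone`). -/
theorem s_maximal {Y : Type*} [MeasurableSpace Y] {μ : Measure Y} {T : Y → Y}
    (hT : MeasurePreserving T μ μ) {f : Y → ℝ} (hm : Measurable f) (hf : Integrable f μ) :
    0 ≤ ∫ y in {y | ∃ k : ℕ, 0 < ∑ i ∈ Finset.range k, f (T^[i] y)}, f y ∂μ := by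
  have hE : {y | ∃ k : ℕ, 0 < ∑ i ∈ Finset.range k, f (T^[i] y)} =
      ⋃ n, {y | 0 < F T f n y} := by
    ext y
    simp only [Set.mem_setOf_eq, Set.mem_iUnion]
    constructor
    · rintro ⟨k, hk⟩
      exact ⟨k, lt_of_lt_of_le hk (S_le_F T f k k y le_rfl)⟩
    · rintro ⟨n, hn⟩
      obtain ⟨k, -, h⟩ := exists_F_eq T f n y
      exact ⟨k, by rw [h] at hn; exact hn⟩
  have hms : ∀ n, MeasurableSet {y | 0 < F T f n y} := fun n =>
    measurableSet_lt measurable_const (F_meas hT.measurable hm n)
  have hkey : ∀ n, 0 ≤ ∫ y in {y | 0 < F T f n y}, f y ∂μ := by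
    intro n
    have hFi := F_int hT hf n
    have hFTi : Integrable (fun y => F T f n (T y)) μ :=
      (hT.integrable_comp hFi.aestronglyMeasurable).2 hFi
    have h1 : ∫ y in {y | 0 < F T f n y}, (F T f n y - F T f n (T y)) ∂μ ≤
        ∫ y in {y | 0 < F T f n y}, f y ∂μ := by
      refine setIntegral_mono_on (hFi.sub hFTi).integrableOn hf.integrableOn (hms n) ?_
      intro y hy
      have hy' : 0 < F T f n y := hy
      cases n with
      | zero => exact absurd hy' (by simp [F])
      | succ n =>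
        have h2 : F T f (n + 1) y = f y + F T f n (T y) := by
          rcases le_total (f y + F T f n (T y)) 0 with h3 | h3
          · exact absurd hy' (by
              have : F T f (n + 1) y = 0 := max_eq_left h3
              rw [this]; exact lt_irrefl 0)
          · exact max_eq_right h3
        have h4 := F_mono T f (Nat.le_succ n) (T y)
        linarith
    have h2 : ∫ y in {y | 0 < F T f n y}, (F T f n y - F T f n (T y)) ∂μ =
        ∫ y in {y | 0 < F T f n y}, F T f n y ∂μ -
          ∫ y in {y | 0 < F T f n y}, F T f n (T y) ∂μ :=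
      integral_sub hFi.integrableOn hFTi.integrableOn
    have h3 : ∫ y in {y | 0 < F T f n y}, F T f n y ∂μ = ∫ y, F T f n y ∂μ := by
      refine setIntegral_eq_integral_of_forall_compl_eq_zero ?_
      intro y hy
      exact le_antisymm (not_lt.1 hy) (F_nonneg T f n y)
    have h4 : ∫ y in {y | 0 < F T f n y}, F T f n (T y) ∂μ ≤ ∫ y, F T f n (T y) ∂μ :=
      setIntegral_le_integral hFTi (Eventually.of_forall fun y => F_nonneg T f n (T y))
    have h5 : ∫ y, F T f n (T y) ∂μ = ∫ y, F T f n y ∂μ := by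
      conv_rhs => rw [← hT.map_eq]
      rw [integral_map hT.measurable.aemeasurable]
      exact (F_meas hT.measurable hm n).aestronglyMeasurable
    linarith
  rw [hE]
  have hmono : Monotone fun n => {y | 0 < F T f n y} := by
    intro m n hmn y hy
    exact lt_of_lt_of_le hy (F_mono T f hmn y)
  have hlim := tendsto_setIntegral_of_monotone hms hmono (hf.integrableOn (s := ⋃ n, {y | 0 < F T f n y}))
  exact ge_of_tendsto' hlim hkey

end BilEnt
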