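import Pool.Agent.BilEnt.S03

/-!
# Part S, module S04: a consequence of the maximal ergodic theorem
-/

open MeasureTheory Filter Topology

namespace BilEnt

namespace S04_aux

variable {Y : Type*} [MeasurableSpace Y] {μ : Measure Y} {T Ti : Y → Y} {F : Y → ℝ}

/-- points where the Birkhoff sums are unbounded from below -/
def bad {Y : Type*} (T : Y → Y) (F : Y → ℝ) : Set Y :=
  {y | ∀ C : ℕ, ∃ k : ℕ, ∑ i ∈ Finset.range k, F (T^[i] y) < -(C : ℝ)}

theorem sum_succ (k : ℕ) (y : Y) : ∑ i ∈ Finset.range (k + 1), F (T^[i] y)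
    = F y + ∑ i ∈ Finset.range k, F (T^[i] (T y)) := by
  rw [Finset.sum_range_succ', add_comm]
  rfl

theorem bad_meas (hT : Measurable T) (hm : Measurable F) : MeasurableSet (bad T F) := by
  have e : bad T F = ⋂ C : ℕ, ⋃ k : ℕ, {y | ∑ i ∈ Finset.range k, F (T^[i] y) < -(C : ℝ)} := by
    ext y
    simp only [bad, Set.mem_setOf_eq, Set.mem_iInter, Set.mem_iUnion]
  rw [e]
  refine MeasurableSet.iInter (fun C => MeasurableSet.iUnion (fun k => ?_))
  exact measurableSet_lt (Finset.measurable_sum _ (fun i _ => hm.comp (hT.iterate i)))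
    measurable_const

theorem bad_iff (y : Y) : T y ∈ bad T F ↔ y ∈ bad T F := by
  constructor
  · intro h C
    obtain ⟨N, hN⟩ := exists_nat_ge ((C : ℝ) + |F y|)
    obtain ⟨k, hk⟩ := h N
    refine ⟨k + 1, ?_⟩
    rw [sum_succ]
    have := le_abs_self (F y)
    linarith
  · intro h C
    obtain ⟨N, hN⟩ := exists_nat_ge ((C : ℝ) + |F y|)
    obtain ⟨k, hk⟩ := h N
    rcases k with _ | k
    · exfalso
      simp only [Finset.range_zero, Finset.sum_empty] at hk
      have : (0 : ℝ) ≤ N := Nat.cast_nonneg N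
      linarith
    · refine ⟨k, ?_⟩
      rw [sum_succ] at hk
      have := neg_abs_le (F y)
      linarith

theorem bad_preimage : T ⁻¹' bad T F = bad T F := by
  ext y
  exact bad_iff y

theorem restrict_pres (hT : MeasurePreserving T μ μ) {J : Set Y} (hJ : MeasurableSet J)
    (hTJ : T ⁻¹' J = J) : MeasurePreserving T (μ.restrict J) (μ.restrict J) := by
  have h := hT.restrict_preimage hJ
  rwa [hTJ] at h

theorem int_le (hT : MeasurePreserving T μ μ) (hm : Measurable F) (hF : Integrable F μ)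
    {J : Set Y} (hJ : MeasurableSet J) (hTJ : T ⁻¹' J = J) (hsub : J ⊆ bad T F) :
    ∫ y in J, F y ∂μ ≤ 0 := by
  have h1 := s_maximal (restrict_pres hT hJ hTJ) (f := fun y => -F y) hm.neg
    (hF.neg.mono_measure Measure.restrict_le_self)
  have hE : MeasurableSet {y | ∃ k : ℕ, 0 < ∑ i ∈ Finset.range k, (fun y => -F y) (T^[i] y)} := by
    have e : {y | ∃ k : ℕ, 0 < ∑ i ∈ Finset.range k, (fun y => -F y) (T^[i] y)}
        = ⋃ k : ℕ, {y | 0 < ∑ i ∈ Finset.range k, (fun y => -F y) (T^[i] y)} := by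
      ext y
      simp only [Set.mem_setOf_eq, Set.mem_iUnion]
    rw [e]
    refine MeasurableSet.iUnion (fun k => ?_)
    exact measurableSet_lt measurable_const
      (Finset.measurable_sum _ (fun i _ => hm.neg.comp (hT.measurable.iterate i)))
  rw [Measure.restrict_restrict hE] at h1
  have h2 : {y | ∃ k : ℕ, 0 < ∑ i ∈ Finset.range k, (fun y => -F y) (T^[i] y)} ∩ J = J := by
    refine Set.inter_eq_right.2 (fun y hy => ?_)
    obtain ⟨k, hk⟩ := hsub hy 0
    refine ⟨k, ?_⟩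
    simp only [Finset.sum_neg_distrib]
    simp only [Nat.cast_zero, neg_zero] at hk
    linarith
  rw [h2, integral_neg] at h1
  linarith

end S04_aux

open S04_aux

/-- If `∫ F > 0` then, on a set of positive measure, both the forward and the backward Birkhoff sums
of `F` are bounded from below.

PROOF.  `I := {y | ∀ C : ℕ, ∃ k, ∑ i ∈ range k, F (T^[i] y) < -C}` is measurable and `T ⁻¹' I = I`
(`S_{k+1} F (y) = F y + S_k F (T y)`).  So `T` preserves `μ.restrict I`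
(`MeasurePreserving.restrict_preimage`), and `s_maximal` for `-F` and `μ.restrict I` gives
`∫_I (-F) ≥ 0` (the set `{∃ k, 0 < ∑ -F}` contains `I`).  Hence `∫_{Iᶜ} F ≥ ∫ F > 0`.
`I' := {y | ∀ C : ℕ, ∃ k, ∑ i ∈ range k, F (Ti^[i+1] y) < -C}` satisfies `Ti ⁻¹' I' = I'`.  Let
`J := Iᶜ ∩ I'`.  `Ti ⁻¹' J = J` (also `Ti ⁻¹' I = I`), so `Ti` preserves `μ.restrict J`; `s_maximal` for
`Ti`, `-(F ∘ Ti)` and `μ.restrict J` gives `∫_J F ∘ Ti ≤ 0`, and `∫_J F ∘ Ti = ∫_J F`.
So `∫_{Iᶜ ∩ I'ᶜ} F = ∫_{Iᶜ} F - ∫_J F > 0`, whence `μ (Iᶜ ∩ I'ᶜ) > 0`. -/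
theorem s_garsia {Y : Type*} [MeasurableSpace Y] {μ : Measure Y} {T Ti : Y → Y}
    (hli : ∀ y, Ti (T y) = y) (hri : ∀ y, T (Ti y) = y)
    (hT : MeasurePreserving T μ μ) (hTi : MeasurePreserving Ti μ μ)
    {F : Y → ℝ} (hm : Measurable F) (hF : Integrable F μ) (hpos : 0 < ∫ y, F y ∂μ) :
    ∃ A : Set Y, MeasurableSet A ∧ 0 < μ A ∧ ∀ y ∈ A, ∃ C : ℝ, ∀ k : ℕ,
      -C ≤ ∑ i ∈ Finset.range k, F (T^[i] y) ∧ -C ≤ ∑ i ∈ Finset.range k, F (Ti^[i + 1] y) := by
  have hm' : Measurable (fun y => F (Ti y)) := hm.comp hTi.measurable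
  have hF' : Integrable (fun y => F (Ti y)) μ := hTi.integrable_comp_of_integrable hF
  have hI : MeasurableSet (bad T F) := bad_meas hT.measurable hm
  have hI' : MeasurableSet (bad Ti (fun y => F (Ti y))) := bad_meas hTi.measurable hm'
  have h1 : ∫ y in bad T F, F y ∂μ ≤ 0 := int_le hT hm hF hI bad_preimage le_rfl
  have h2 : ∫ y in bad T F, F y ∂μ + ∫ y in (bad T F)ᶜ, F y ∂μ = ∫ y, F y ∂μ :=
    integral_add_compl hI hF
  have hJ : MeasurableSet ((bad T F)ᶜ ∩ bad Ti (fun y => F (Ti y))) := hI.compl.inter hI'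
  have hTiI : Ti ⁻¹' (bad T F)ᶜ = (bad T F)ᶜ := by
    ext y
    simp only [Set.mem_preimage, Set.mem_compl_iff]
    rw [not_iff_not]
    have := bad_iff (T := T) (F := F) (Ti y)
    rw [hri] at this
    exact this.symm
  have hTJ : Ti ⁻¹' ((bad T F)ᶜ ∩ bad Ti (fun y => F (Ti y)))
      = (bad T F)ᶜ ∩ bad Ti (fun y => F (Ti y)) := by
    rw [Set.preimage_inter, hTiI, bad_preimage]
  have h3 := int_le hTi hm' hF' hJ hTJ Set.inter_subset_right
  have h4 : ∫ y in (bad T F)ᶜ ∩ bad Ti (fun y => F (Ti y)), F (Ti y) ∂μ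
      = ∫ y in (bad T F)ᶜ ∩ bad Ti (fun y => F (Ti y)), F y ∂μ := by
    have hp := restrict_pres hTi hJ hTJ
    have := integral_map hp.measurable.aemeasurable
      (f := F) (μ := μ.restrict ((bad T F)ᶜ ∩ bad Ti (fun y => F (Ti y))))
      hm.aestronglyMeasurable
    rw [hp.map_eq] at this
    exact this.symm
  rw [h4] at h3
  have h5 : ∫ y in (bad T F)ᶜ ∩ bad Ti (fun y => F (Ti y)), F y ∂μ
      + ∫ y in (bad T F)ᶜ \ bad Ti (fun y => F (Ti y)), F y ∂μ = ∫ y in (bad T F)ᶜ, F y ∂μ :=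
    integral_inter_add_diff hI' hF.integrableOn
  have h6 : 0 < ∫ y in (bad T F)ᶜ \ bad Ti (fun y => F (Ti y)), F y ∂μ := by linarith
  refine ⟨(bad T F)ᶜ \ bad Ti (fun y => F (Ti y)), hI.compl.diff hI', ?_, ?_⟩
  · rw [pos_iff_ne_zero]
    intro h0
    rw [Measure.restrict_eq_zero.2 h0] at h6
    simp at h6
  · rintro y ⟨hy1, hy2⟩
    simp only [bad, Set.mem_compl_iff, Set.mem_setOf_eq, not_forall, not_exists, not_lt] at hy1 hy2
    obtain ⟨C1, hC1⟩ := hy1
    obtain ⟨C2, hC2⟩ := hy2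
    refine ⟨max C1 C2, fun k => ⟨?_, ?_⟩⟩
    · have := hC1 k
      have h7 := le_max_left (C1 : ℝ) C2
      linarith
    · have := hC2 k
      have h7 := le_max_right (C1 : ℝ) C2
      have h8 : ∑ i ∈ Finset.range k, F (Ti^[i + 1] y)
          = ∑ i ∈ Finset.range k, F (Ti (Ti^[i] y)) := by
        refine Finset.sum_congr rfl (fun i _ => ?_)
        rw [Function.iterate_succ_apply']
      rw [h8]
      linarith

end BilEnt
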