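import Mathlib

/-!
# Part S, module S05: Borel–Cantelli estimates
-/

open MeasureTheory Filter Topology
open scoped ENNReal

namespace BilEnt

private lemma S05_tail {f g : ℕ → ℝ} (hg : ∀ n, 0 ≤ g n) (h : ∀ᶠ n in atTop, f n ≤ g n) :
    ∃ K : ℝ, ∀ n, f n ≤ g n + K := by
  obtain ⟨n₀, h₀⟩ := eventually_atTop.1 h
  refine ⟨∑ n ∈ Finset.range n₀, |f n|, fun n => ?_⟩
  have hK : 0 ≤ ∑ n ∈ Finset.range n₀, |f n| := Finset.sum_nonneg fun _ _ => abs_nonneg _
  by_cases hn : n₀ ≤ n
  · linarith [h₀ n hn]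
  · have h1 : |f n| ≤ ∑ n ∈ Finset.range n₀, |f n| :=
      Finset.single_le_sum (f := fun n => |f n|) (fun _ _ => abs_nonneg _)
        (Finset.mem_range.2 (by omega))
    linarith [le_abs_self (f n), hg n]

/-- an integrable function is `o(k)` along almost every orbit.

PROOF.  `∑ k, μ {y | ε * k < l (T^[k] y)} = ∑ k, μ {y | ε * k < l y}` (measure preserving)
`= ∫⁻ ∑ k, 1[ε k < l y] ≤ ∫⁻ ofReal (l y / ε) + 1 < ∞` (the number of `k` with `ε k < l y` is at most
`l y / ε + 1`).  By Borel–Cantelli (`measure_setOf_frequently_eq_zero` / `ae_eventually_notMem`)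
a.e. `l (T^[k] y) ≤ ε k` for all `k ≥ k₀(y)`; take `K = ∑ k < k₀, l (T^[k] y)`. -/
theorem s_smallo {Y : Type*} [MeasurableSpace Y] {μ : Measure Y} [IsFiniteMeasure μ] {T : Y → Y}
    (hT : MeasurePreserving T μ μ) {l : Y → ℝ} (hm : Measurable l) (h0 : ∀ y, 0 ≤ l y)
    (hl : Integrable l μ) {ε : ℝ} (hε : 0 < ε) :
    ∀ᵐ y ∂μ, ∃ K : ℝ, ∀ k : ℕ, l (T^[k] y) ≤ ε * k + K := by
  have hms : ∀ k : ℕ, MeasurableSet {y | ε * k < l y} := fun k =>
    measurableSet_lt measurable_const hm
  have hA : ∀ k : ℕ, μ {y | ε * k < l (T^[k] y)} = μ {y | ε * k < l y} := by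
    intro k
    have h1 := (hT.iterate k).measure_preimage (hms k).nullMeasurableSet
    exact h1
  have hsum : ∑' k : ℕ, μ {y | ε * k < l y} ≠ ∞ := by
    have h1 : ∑' k : ℕ, μ {y | ε * k < l y}
        = ∫⁻ y, ∑' k : ℕ, ({y | ε * k < l y} : Set Y).indicator (fun _ => (1 : ℝ≥0∞)) y ∂μ := by
      rw [lintegral_tsum]
      · refine tsum_congr fun k => ?_
        rw [lintegral_indicator (hms k), lintegral_const, Measure.restrict_apply MeasurableSet.univ,
          Set.univ_inter, one_mul]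
      · intro k
        exact (measurable_const.indicator (hms k)).aemeasurable
    have h2 : ∀ y, ∑' k : ℕ, ({y | ε * k < l y} : Set Y).indicator (fun _ => (1 : ℝ≥0∞)) y
        ≤ ENNReal.ofReal (l y / ε) + 1 := by
      intro y
      have hx : 0 ≤ l y / ε := div_nonneg (h0 y) hε.le
      rw [tsum_eq_sum (s := Finset.range ⌈l y / ε⌉₊)]
      · calc ∑ k ∈ Finset.range ⌈l y / ε⌉₊,
              ({y | ε * k < l y} : Set Y).indicator (fun _ => (1 : ℝ≥0∞)) y
            ≤ ∑ k ∈ Finset.range ⌈l y / ε⌉₊, (1 : ℝ≥0∞) := by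
              refine Finset.sum_le_sum fun k _ => ?_
              exact Set.indicator_le_self' (fun _ _ => zero_le') y
          _ = ((⌈l y / ε⌉₊ : ℕ) : ℝ≥0∞) := by
              rw [Finset.sum_const, Finset.card_range, nsmul_eq_mul, mul_one]
          _ = ENNReal.ofReal ((⌈l y / ε⌉₊ : ℕ) : ℝ) := (ENNReal.ofReal_natCast _).symm
          _ ≤ ENNReal.ofReal (l y / ε + 1) :=
              ENNReal.ofReal_le_ofReal (Nat.ceil_lt_add_one hx).le
          _ = ENNReal.ofReal (l y / ε) + 1 := by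
              rw [ENNReal.ofReal_add hx zero_le_one, ENNReal.ofReal_one]
      · intro k hk
        rw [Finset.mem_range, not_lt] at hk
        apply Set.indicator_of_notMem
        intro h
        have h3 : ε * k < l y := h
        have h4 : l y / ε ≤ k := Nat.ceil_le.1 hk
        rw [div_le_iff₀ hε] at h4
        linarith
    rw [h1]
    refine ((lintegral_mono h2).trans_lt ?_).ne
    rw [lintegral_add_right _ measurable_const, lintegral_const, one_mul]
    refine ENNReal.add_lt_top.2 ⟨?_, measure_lt_top μ _⟩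
    exact (hl.div_const ε).lintegral_lt_top
  have hBC := ae_eventually_notMem (μ := μ) (s := fun k : ℕ => {y | ε * k < l (T^[k] y)}) (by
    rw [tsum_congr hA]; exact hsum)
  filter_upwards [hBC] with y hy
  refine S05_tail (fun k => by positivity) ?_
  filter_upwards [hy] with k hk
  exact not_lt.1 hk

/-- Borel–Cantelli for the defects. PROOF: as above. -/
theorem s_bc {Y : Type*} [MeasurableSpace Y] {μ : Measure Y} (D : ℕ → Y → ℝ)
    (h : ∑' n : ℕ, μ {y | √(n : ℝ) < D n y} ≠ ∞) :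
    ∀ᵐ y ∂μ, ∃ K : ℝ, ∀ n : ℕ, D n y ≤ √(n : ℝ) + K := by
  have hBC := ae_eventually_notMem (μ := μ) (s := fun n : ℕ => {y | √(n : ℝ) < D n y}) h
  filter_upwards [hBC] with y hy
  refine S05_tail (fun k => Real.sqrt_nonneg _) ?_
  filter_upwards [hy] with k hk
  exact not_lt.1 hk

end BilEnt
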