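import Pool.Agent.BilEnt.S02
import Pool.Agent.BilEnt.S06

/-!
# Part S, module S07: lower bound of the log norms by a Birkhoff sum
-/

open MeasureTheory Real Filter Topology Matrix
open scoped ENNReal

namespace BilEnt

noncomputable section

variable {Y : Type*} {T Ti : Y → Y} {M : Y → Matrix (Fin 2) (Fin 2) ℝ}

private theorem S07_DD_nonneg (n0 : ℕ) (y : Y) : 0 ≤ DD T Ti M n0 y :=
  tsum_nonneg fun j => div_nonneg (s_Dn_nonneg _ _) (by positivity)

/-- PROOF.  `k = 0` is `s_la_nonneg`.  For `k ≥ 1` apply `s_window` to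
`α s e := if s < e then la T M (e - s) (T^[s] y) else 0` and `δ n m := Dn T Ti M n (T^[m] y)`.
Hypothesis `hs`: for `s < m < e`, with `l = e - m ≤ n`, `l' = m - s ≤ n`: `Ti^[l'] (T^[m] y) = T^[s] y`
(`s_iter_li_add`), so `s_Dn_spec` at the point `T^[m] y` is exactly the claim (`l' + l = e - s`).
`α t (t + n0) = la T M n0 (T^[t] y)`.  The sum over `range (k + 1 - n0)` is the sum over `range k` minus
the sum over `Ico (k + 1 - n0) k`, and `∑ m ∈ Ico 1 k, DD (T^[m] y) ≤ ∑ t ∈ range k, DD (T^[t] y)`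
since `DD ≥ 0` (`s_DD_nonneg`). -/
theorem s_lower (hli : ∀ y, Ti (T y) = y) (hdet : ∀ y, (M y).det = 1) (n0 : ℕ) (hn0 : 1 ≤ n0)
    (k : ℕ) (y : Y)
    (hsum : ∀ t < k, Summable fun j : ℕ =>
      Dn T Ti M (2 ^ j * n0) (T^[t] y) / (2 ^ (j + 1) * n0)) :
    ∑ t ∈ Finset.range k, (la T M n0 (T^[t] y) / n0 - DD T Ti M n0 (T^[t] y))
      - (∑ t ∈ Finset.Ico (k + 1 - n0) k, la T M n0 (T^[t] y)) / n0 ≤ la T M k y := by
  rcases Nat.eq_zero_or_pos k with rfl | hk
  · have h0 := s_la_nonneg (T := T) hdet 0 y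
    simpa using h0
  have hw := s_window k n0 hk hn0
    (fun s e => if s < e then la T M (e - s) (T^[s] y) else 0)
    (fun n m => Dn T Ti M n (T^[m] y))
    (by
      intro s e hse
      exact if_neg (not_lt.2 hse))
    (by
      intro s e
      by_cases h : s < e
      · simp only [if_pos h]
        exact s_la_nonneg hdet _ _
      · simp only [if_neg h]
        exact le_rfl)
    (fun n m => s_Dn_nonneg _ _)
    (by
      intro n s m e hsm hme _ h1 h2
      simp only [if_pos hsm, if_pos hme, if_pos (hsm.trans hme)]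
      have h3 := s_Dn_spec (T := T) (Ti := Ti) (M := M) (n := n) h2 h1 (T^[m] y)
      have h4 : Ti^[m - s] (T^[m] y) = T^[s] y := by
        have h5 := s_iter_li_add (T := T) (Ti := Ti) hli (m - s) s y
        rwa [Nat.sub_add_cancel hsm.le] at h5
      have h6 : m - s + (e - m) = e - s := by omega
      rw [h4, h6] at h3
      linarith)
    (fun m _ hm => hsum m hm)
  simp only [if_pos hk, Nat.sub_zero, Function.iterate_zero, id_eq] at hw
  have e1 : ∑ t ∈ Finset.range (k + 1 - n0),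
      (if t < t + n0 then la T M (t + n0 - t) (T^[t] y) else 0) =
      ∑ t ∈ Finset.range (k + 1 - n0), la T M n0 (T^[t] y) := by
    refine Finset.sum_congr rfl fun t _ => ?_
    rw [if_pos (by omega), Nat.add_sub_cancel_left]
  rw [e1] at hw
  have e2 : ∑ t ∈ Finset.range (k + 1 - n0), la T M n0 (T^[t] y) +
      ∑ t ∈ Finset.Ico (k + 1 - n0) k, la T M n0 (T^[t] y) =
      ∑ t ∈ Finset.range k, la T M n0 (T^[t] y) :=
    Finset.sum_range_add_sum_Ico _ (by omega)
  have e3 : ∑ m ∈ Finset.Ico 1 k, DD T Ti M n0 (T^[m] y) ≤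
      ∑ t ∈ Finset.range k, DD T Ti M n0 (T^[t] y) := by
    refine Finset.sum_le_sum_of_subset_of_nonneg ?_ fun t _ _ => S07_DD_nonneg n0 _
    intro t ht
    rw [Finset.mem_range]
    exact (Finset.mem_Ico.1 ht).2
  have hw' : (∑ t ∈ Finset.range (k + 1 - n0), la T M n0 (T^[t] y)) / n0
      - ∑ m ∈ Finset.Ico 1 k, DD T Ti M n0 (T^[m] y) ≤ la T M k y := hw
  rw [Finset.sum_sub_distrib, ← Finset.sum_div, ← e2, add_div]
  linarith

end

end BilEnt
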