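import Pool.Agent.BilEnt.S04
import Pool.Agent.BilEnt.S05
import Pool.Agent.BilEnt.S07

/-!
# Part S, module S08: the good set
-/

open MeasureTheory Real Filter Topology Matrix
open scoped ENNReal

namespace BilEnt

noncomputable section

namespace S08_aux

variable {Y : Type*} {T Ti : Y → Y} {M : Y → Matrix (Fin 2) (Fin 2) ℝ}

theorem gp_mono {lam K K' : ℝ} {y : Y} (h : GP T Ti M lam K y) (hK : K ≤ K') :
    GP T Ti M lam K' y where
  f k := by have := h.f k; linarith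
  b k := by have := h.b k; linarith
  d k := by have := h.d k; linarith
  lf k := by have := h.lf k; linarith
  lb k := by have := h.lb k; linarith

/-- forward bound -/
theorem fwd (hli : ∀ y, Ti (T y) = y) (hdet : ∀ y, (M y).det = 1) (n0 : ℕ) (hn0 : 1 ≤ n0)
    (y : Y) (lam0 ε C K1 : ℝ) (hε : 0 < ε) (hε2 : n0 * ε ≤ lam0 / 2)
    (hs : ∀ t : ℕ, Summable fun j : ℕ =>
      Dn T Ti M (2 ^ j * n0) (T^[t] y) / (2 ^ (j + 1) * n0))
    (hf : ∀ k : ℕ, -C ≤ ∑ i ∈ Finset.range k,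
      (la T M n0 (T^[i] y) / n0 - DD T Ti M n0 (T^[i] y) - lam0))
    (h1 : ∀ k : ℕ, log (fn (M (T^[k] y))) ≤ ε * k + K1) (k : ℕ) :
    lam0 / 2 * k - (C + (1 + n0 * (ε * n0 + K1))) ≤ la T M k y := by
  have hlow := s_lower hli hdet n0 hn0 k y (fun t _ => hs t)
  have hfk := hf k
  rw [Finset.sum_sub_distrib, Finset.sum_const, Finset.card_range, nsmul_eq_mul] at hfk
  have hK1 : 0 ≤ K1 := by
    have := h1 0
    have h2 := s_l_nonneg hdet (T^[0] y)
    simp only [Nat.cast_zero, mul_zero, zero_add] at this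
    linarith
  have hn0' : (0 : ℝ) < n0 := by exact_mod_cast hn0
  -- each error term
  have hterm : ∀ t ∈ Finset.Ico (k + 1 - n0) k,
      la T M n0 (T^[t] y) ≤ 1 + n0 * (ε * (n0 + k) + K1) := by
    intro t ht
    rw [Finset.mem_Ico] at ht
    have h2 := s_la_le_sum (T := T) hdet n0 (T^[t] y)
    have h3 : ∑ i ∈ Finset.range n0, log (fn (M (T^[i] (T^[t] y)))) ≤
        ∑ _i ∈ Finset.range n0, (ε * (n0 + k) + K1) := by
      apply Finset.sum_le_sum
      intro i hi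
      rw [Finset.mem_range] at hi
      rw [← Function.iterate_add_apply]
      refine (h1 (i + t)).trans ?_
      have : ((i + t : ℕ) : ℝ) ≤ (n0 : ℝ) + k := by
        exact_mod_cast (by omega : i + t ≤ n0 + k)
      have h4 := mul_le_mul_of_nonneg_left this hε.le
      linarith
    rw [Finset.sum_const, Finset.card_range, nsmul_eq_mul] at h3
    linarith
  have hBnn : 0 ≤ 1 + n0 * (ε * (n0 + k) + K1) := by positivity
  have herr : (∑ t ∈ Finset.Ico (k + 1 - n0) k, la T M n0 (T^[t] y)) / n0 ≤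
      1 + n0 * (ε * (n0 + k) + K1) := by
    rw [div_le_iff₀ hn0']
    have h5 := Finset.sum_le_sum hterm
    rw [Finset.sum_const, Nat.card_Ico, nsmul_eq_mul] at h5
    refine h5.trans ?_
    rw [mul_comm]
    apply mul_le_mul_of_nonneg_left _ hBnn
    exact_mod_cast (by omega : k - (k + 1 - n0) ≤ n0)
  have hk0 : (0 : ℝ) ≤ k := Nat.cast_nonneg k
  have h6 : (n0 : ℝ) * ε * k ≤ lam0 / 2 * k := mul_le_mul_of_nonneg_right hε2 hk0
  have h7 : 1 + (n0 : ℝ) * (ε * (n0 + k) + K1) = (1 + n0 * (ε * n0 + K1)) + n0 * ε * k := by ring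
  rw [h7] at herr
  linarith

/-- backward bound -/
theorem bwd (hli : ∀ y, Ti (T y) = y) (hri : ∀ y, T (Ti y) = y)
    (hdet : ∀ y, (M y).det = 1) (n0 : ℕ) (hn0 : 1 ≤ n0)
    (y : Y) (lam0 C : ℝ)
    (hs : ∀ t : ℕ, Summable fun j : ℕ =>
      Dn T Ti M (2 ^ j * n0) (Ti^[t] y) / (2 ^ (j + 1) * n0))
    (hf : ∀ k : ℕ, -C ≤ ∑ i ∈ Finset.range k,
      (la T M n0 (Ti^[i + 1] y) / n0 - DD T Ti M n0 (Ti^[i + 1] y) - lam0)) (k : ℕ) :
    lam0 * k - (C + (∑ s ∈ Finset.range n0, la T M n0 (Ti^[s] y)) / n0) ≤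
      la T M k (Ti^[k] y) := by
  have hit : ∀ t, t ≤ k → T^[t] (Ti^[k] y) = Ti^[k - t] y := by
    intro t ht
    have := s_iter_ri_add (T := T) (Ti := Ti) hri t (k - t) y
    rw [Nat.add_sub_cancel' ht] at this
    exact this
  have hlow := s_lower hli hdet n0 hn0 k (Ti^[k] y) (fun t ht => by
    rw [hit t ht.le]; exact hs (k - t))
  have hfk := hf k
  rw [Finset.sum_sub_distrib, Finset.sum_const, Finset.card_range, nsmul_eq_mul] at hfk
  have hn0' : (0 : ℝ) < n0 := by exact_mod_cast hn0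
  have hrefl : ∑ t ∈ Finset.range k, (la T M n0 (T^[t] (Ti^[k] y)) / n0 -
      DD T Ti M n0 (T^[t] (Ti^[k] y))) =
      ∑ i ∈ Finset.range k, (la T M n0 (Ti^[i + 1] y) / n0 - DD T Ti M n0 (Ti^[i + 1] y)) := by
    rw [← Finset.sum_range_reflect]
    apply Finset.sum_congr rfl
    intro t ht
    rw [Finset.mem_range] at ht
    rw [hit (k - 1 - t) (by omega)]
    have : k - (k - 1 - t) = t + 1 := by omega
    rw [this]
  rw [hrefl] at hlow
  have herr : ∑ t ∈ Finset.Ico (k + 1 - n0) k, la T M n0 (T^[t] (Ti^[k] y)) ≤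
      ∑ s ∈ Finset.range n0, la T M n0 (Ti^[s] y) := by
    have h1 : ∑ t ∈ Finset.Ico (k + 1 - n0) k, la T M n0 (T^[t] (Ti^[k] y)) =
        ∑ s ∈ (Finset.Ico (k + 1 - n0) k).image (fun t => k - t), la T M n0 (Ti^[s] y) := by
      rw [Finset.sum_image]
      · apply Finset.sum_congr rfl
        intro t ht
        rw [Finset.mem_Ico] at ht
        rw [hit t ht.2.le]
      · intro a ha b hb hab
        simp only [Finset.coe_Ico, Set.mem_Ico] at ha hb
        simp only at hab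
        omega
    rw [h1]
    apply Finset.sum_le_sum_of_subset_of_nonneg
    · intro s hs
      rw [Finset.mem_image] at hs
      obtain ⟨t, ht, rfl⟩ := hs
      rw [Finset.mem_Ico] at ht
      rw [Finset.mem_range]
      omega
    · intro s _ _
      exact s_la_nonneg hdet n0 _
  have herr2 := div_le_div_of_nonneg_right herr hn0'.le
  linarith

theorem good_pt (hli : ∀ y, Ti (T y) = y) (hri : ∀ y, T (Ti y) = y)
    (hdet : ∀ y, (M y).det = 1) (n0 : ℕ) (hn0 : 1 ≤ n0)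
    (y : Y) (lam0 ε C K1 K1' K2 : ℝ) (hl0 : 0 < lam0) (hε : 0 < ε) (hε2 : n0 * ε ≤ lam0 / 2)
    (hε3 : ε ≤ lam0 / 2 / 8)
    (hs : ∀ t : ℕ, Summable fun j : ℕ =>
      Dn T Ti M (2 ^ j * n0) (T^[t] y) / (2 ^ (j + 1) * n0))
    (hs' : ∀ t : ℕ, Summable fun j : ℕ =>
      Dn T Ti M (2 ^ j * n0) (Ti^[t] y) / (2 ^ (j + 1) * n0))
    (hf : ∀ k : ℕ, -C ≤ ∑ i ∈ Finset.range k,
      (la T M n0 (T^[i] y) / n0 - DD T Ti M n0 (T^[i] y) - lam0))
    (hf' : ∀ k : ℕ, -C ≤ ∑ i ∈ Finset.range k,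
      (la T M n0 (Ti^[i + 1] y) / n0 - DD T Ti M n0 (Ti^[i + 1] y) - lam0))
    (h1 : ∀ k : ℕ, log (fn (M (T^[k] y))) ≤ ε * k + K1)
    (h1' : ∀ k : ℕ, log (fn (M (Ti^[k] y))) ≤ ε * k + K1')
    (h2 : ∀ n : ℕ, Dn T Ti M n y ≤ √(n : ℝ) + K2) :
    ∃ K : ℝ, GP T Ti M (lam0 / 2) K y := by
  have hfw := fwd hli hdet n0 hn0 y lam0 ε C K1 hε hε2 hs hf h1
  have hbw := bwd hli hri hdet n0 hn0 y lam0 C hs' hf'
  refine ⟨max (C + (1 + n0 * (ε * n0 + K1)))
    (max (C + (∑ s ∈ Finset.range n0, la T M n0 (Ti^[s] y)) / n0) (max K2 (max K1 K1'))), ?_⟩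
  have m1 := le_max_left (C + (1 + n0 * (ε * n0 + K1)))
    (max (C + (∑ s ∈ Finset.range n0, la T M n0 (Ti^[s] y)) / n0) (max K2 (max K1 K1')))
  have m2 := le_max_right (C + (1 + n0 * (ε * n0 + K1)))
    (max (C + (∑ s ∈ Finset.range n0, la T M n0 (Ti^[s] y)) / n0) (max K2 (max K1 K1')))
  have m3 := le_max_left (C + (∑ s ∈ Finset.range n0, la T M n0 (Ti^[s] y)) / n0)
    (max K2 (max K1 K1'))
  have m4 := le_max_right (C + (∑ s ∈ Finset.range n0, la T M n0 (Ti^[s] y)) / n0)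
    (max K2 (max K1 K1'))
  have m5 := le_max_left K2 (max K1 K1')
  have m6 := le_max_right K2 (max K1 K1')
  have m7 := le_max_left K1 K1'
  have m8 := le_max_right K1 K1'
  constructor
  · intro k
    have := hfw k
    linarith
  · intro k
    have := hbw k
    have hk : (0 : ℝ) ≤ k := Nat.cast_nonneg k
    have h3 : lam0 / 2 * k ≤ lam0 * k := mul_le_mul_of_nonneg_right (by linarith) hk
    linarith
  · intro k
    have := h2 k
    linarith
  · intro k
    have := h1 k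
    have hk : (0 : ℝ) ≤ k := Nat.cast_nonneg k
    have h3 : ε * k ≤ lam0 / 2 / 8 * k := mul_le_mul_of_nonneg_right hε3 hk
    have h4 : lam0 / 2 / 8 * k ≤ lam0 / 2 / 8 * (k + 1) :=
      mul_le_mul_of_nonneg_left (by linarith) (by positivity)
    linarith
  · intro k
    have := h1' (k + 1)
    push_cast at this
    have hk : (0 : ℝ) ≤ (k : ℝ) + 1 := by positivity
    have h3 : ε * ((k : ℝ) + 1) ≤ lam0 / 2 / 8 * (k + 1) := mul_le_mul_of_nonneg_right hε3 hk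
    linarith

theorem meas_GP [MeasurableSpace Y] (hT : Measurable T) (hTi : Measurable Ti)
    (hM : ∀ i j, Measurable fun y => M y i j) (lam K : ℝ) :
    MeasurableSet {y | GP T Ti M lam K y} := by
  have : {y | GP T Ti M lam K y} =
      ((((⋂ k : ℕ, {y | lam * k - K ≤ la T M k y}) ∩
      (⋂ k : ℕ, {y | lam * k - K ≤ la T M k (Ti^[k] y)})) ∩
      (⋂ k : ℕ, {y | Dn T Ti M k y ≤ √(k : ℝ) + K})) ∩
      (⋂ k : ℕ, {y | log (fn (M (T^[k] y))) ≤ lam / 8 * (k + 1) + K})) ∩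
      (⋂ k : ℕ, {y | log (fn (M (Ti^[k + 1] y))) ≤ lam / 8 * (k + 1) + K}) := by
    ext y
    simp only [Set.mem_ofPred_eq, Set.mem_inter_iff, Set.mem_iInter]
    constructor
    · intro h
      exact ⟨⟨⟨⟨h.f, h.b⟩, h.d⟩, h.lf⟩, h.lb⟩
    · rintro ⟨⟨⟨⟨h1, h2⟩, h3⟩, h4⟩, h5⟩
      exact ⟨h1, h2, h3, h4, h5⟩
  rw [this]
  have hl : Measurable fun y => log (fn (M y)) := (s_meas_fn hM).log
  refine (((MeasurableSet.inter ?_ ?_).inter ?_).inter ?_).inter ?_
  · exact MeasurableSet.iInter fun k => measurableSet_le measurable_const (s_meas_la hT hM k)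
  · exact MeasurableSet.iInter fun k => measurableSet_le measurable_const
      ((s_meas_la hT hM k).comp (hTi.iterate k))
  · exact MeasurableSet.iInter fun k => measurableSet_le (s_meas_Dn hT hTi hM k) measurable_const
  · exact MeasurableSet.iInter fun k => measurableSet_le (hl.comp (hT.iterate k)) measurable_const
  · exact MeasurableSet.iInter fun k =>
      measurableSet_le (hl.comp (hTi.iterate (k + 1))) measurable_const

end S08_aux

/-- THE GOOD SET.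

PROOF.  `F := fun y => la T M n0 y / n0 - DD T Ti M n0 y` is measurable and integrable with
`∫ F > 0` (`s_int_la`, `s_DD`, `hS2b`).  Let `m = (μ univ).toReal`; choose `lam0 > 0` with
`lam0 * m < ∫ F`, so `∫ (F - lam0) > 0`, and let `A0` be the set of `s_garsia` for `F - lam0`:
`∑ i < k, F (T^[i] y) ≥ lam0 k - C` and `∑ i < k, F (Ti^[i+1] y) ≥ lam0 k - C`.
Put `lam := lam0 / 2` and `ε := min (lam / 8) (lam0 / (2 * n0))`.  For a.e. `y` : all points `T^[t] y`,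
`Ti^[t] y` have summable defect series (`s_DD`, `ae_all_iff`, `MeasurePreserving.ae…`
`quasiMeasurePreserving.ae`), `l (T^[k] y) ≤ ε k + K₁` and `l (Ti^[k] y) ≤ ε k + K₁` (`s_smallo` for
`l = log (fn (M ·))`, for `T` and `Ti`), `Dn T Ti M k y ≤ √k + K₂` (`s_bc`).
Forward: by `s_lower`, `la T M k y ≥ lam0 k - C - (1/n0) ∑ t ∈ Ico (k+1-n0) k, la T M n0 (T^[t] y)`, at
most `n0` terms, each at most `1 + ∑ i < n0, l (T^[t+i] y) ≤ 1 + n0 (ε (k + n0) + K₁)` (`s_la_le_sum`), so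
`la T M k y ≥ lam0 k - n0 ε k - C' ≥ (lam0/2) k - C'`.
Backward: let `z = Ti^[k] y`.  `s_lower` at `z`: `T^[t] z = Ti^[k - t] y` for `t ≤ k`
(`s_iter_ri_add`), so `∑ t < k, F (T^[t] z) = ∑ i < k, F (Ti^[i+1] y)` (`Finset.sum_range_reflect`), and the
error terms are `la T M n0 (Ti^[s] y)` with `1 ≤ s < n0`: at most `∑ s < n0, la T M n0 (Ti^[s] y)`, which
does not depend on `k`.  So `la T M k (Ti^[k] y) ≥ lam0 k - C''`.
Finally, let `G K := {y | φ y ≤ K ∧ GP T Ti M lam K y}` for natural `K ≥ 1`: measurable (countable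
intersections; `s_meas_la`, `s_meas_Dn`, `s_meas_fn`), increasing in `K`, and
`A0 ⊆ ⋃ K, G K` up to a null set; so some `G K` has positive measure. -/
theorem s_goodset {Y : Type*} [MeasurableSpace Y] {μ : Measure Y} {T Ti : Y → Y}
    {M : Y → Matrix (Fin 2) (Fin 2) ℝ} (h : SSys μ T Ti M)
    (hl : Integrable (fun y => log (fn (M y))) μ)
    (hS1 : ∑' n : ℕ, μ {y | √(n : ℝ) < Dn T Ti M n y} ≠ ∞)
    (n0 : ℕ) (hn0 : 1 ≤ n0)
    (hS2a : Summable fun j : ℕ => (∫ y, Dn T Ti M (2 ^ j * n0) y ∂μ) / (2 ^ (j + 1) * n0))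
    (hS2b : ∑' j : ℕ, (∫ y, Dn T Ti M (2 ^ j * n0) y ∂μ) / (2 ^ (j + 1) * n0)
      < (∫ y, la T M n0 y ∂μ) / n0)
    (φ : Y → ℝ) (hφ : Measurable φ) :
    ∃ lam : ℝ, 0 < lam ∧ ∃ K : ℝ, 1 ≤ K ∧ ∃ A : Set Y, MeasurableSet A ∧ 0 < μ A ∧
      ∀ y ∈ A, φ y ≤ K ∧ GP T Ti M lam K y := by
  have := h.fin
  obtain ⟨hDae, hDm, hDi, hDI⟩ := s_DD h hl n0 hS2a
  have hLm := s_meas_la (T := T) h.mT.measurable h.mM n0
  have hLi := s_int_la h hl n0
  have hn0' : (0 : ℝ) < n0 := by exact_mod_cast hn0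
  set F : Y → ℝ := fun y => la T M n0 y / n0 - DD T Ti M n0 y with hF
  have hFm : Measurable F := (hLm.div_const _).sub hDm
  have hFi : Integrable F μ := (hLi.div_const _).sub hDi
  have hFI : 0 < ∫ y, F y ∂μ := by
    have : ∫ y, F y ∂μ = (∫ y, la T M n0 y ∂μ) / n0 - ∫ y, DD T Ti M n0 y ∂μ := by
      simp only [hF]
      rw [integral_sub (hLi.div_const _) hDi, integral_div]
    rw [this, hDI]
    linarith
  have hm0 : 0 ≤ μ.real Set.univ := measureReal_nonneg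
  obtain ⟨lam0, hl0, hl1⟩ : ∃ lam0 : ℝ, 0 < lam0 ∧ lam0 * μ.real Set.univ < ∫ y, F y ∂μ := by
    refine ⟨(∫ y, F y ∂μ) / (μ.real Set.univ + 1), by positivity, ?_⟩
    rw [div_mul_eq_mul_div, div_lt_iff₀ (by positivity)]
    nlinarith
  have hpos : 0 < ∫ y, (F y - lam0) ∂μ := by
    rw [integral_sub hFi (integrable_const _), integral_const, smul_eq_mul]
    linarith [mul_comm lam0 (μ.real Set.univ)]
  obtain ⟨A0, hA0m, hA0, hA0p⟩ := s_garsia h.li h.ri h.mT h.mTi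
    (F := fun y => F y - lam0) (hFm.sub measurable_const) (hFi.sub (integrable_const _)) hpos
  -- constants
  set ε : ℝ := min (lam0 / 2 / 8) (lam0 / (2 * n0)) with hεdef
  have hε : 0 < ε := lt_min (by positivity) (by positivity)
  have hε3 : ε ≤ lam0 / 2 / 8 := min_le_left _ _
  have hε2 : n0 * ε ≤ lam0 / 2 := by
    have h1 : ε ≤ lam0 / (2 * n0) := min_le_right _ _
    calc (n0 : ℝ) * ε ≤ n0 * (lam0 / (2 * n0)) := mul_le_mul_of_nonneg_left h1 hn0'.le
      _ = lam0 / 2 := by field_simp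
  -- almost everywhere properties
  have hlm : Measurable fun y => log (fn (M y)) := (s_meas_fn h.mM).log
  have hl00 : ∀ y, 0 ≤ log (fn (M y)) := s_l_nonneg h.det
  have a1 : ∀ᵐ y ∂μ, ∀ t : ℕ, Summable fun j : ℕ =>
      Dn T Ti M (2 ^ j * n0) (T^[t] y) / (2 ^ (j + 1) * n0) :=
    ae_all_iff.mpr fun t => (h.mT.iterate t).quasiMeasurePreserving.ae hDae
  have a2 : ∀ᵐ y ∂μ, ∀ t : ℕ, Summable fun j : ℕ =>
      Dn T Ti M (2 ^ j * n0) (Ti^[t] y) / (2 ^ (j + 1) * n0) :=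
    ae_all_iff.mpr fun t => (h.mTi.iterate t).quasiMeasurePreserving.ae hDae
  have a3 := s_smallo h.mT hlm hl00 hl hε
  have a4 := s_smallo h.mTi hlm hl00 hl hε
  have a5 := s_bc (Dn T Ti M) hS1
  -- the sets
  set G : ℕ → Set Y := fun K => {y | φ y ≤ (K : ℝ) + 1 ∧ GP T Ti M (lam0 / 2) ((K : ℝ) + 1) y}
    with hG
  have hGm : ∀ K, MeasurableSet (G K) := by
    intro K
    have : G K = {y | φ y ≤ (K : ℝ) + 1} ∩ {y | GP T Ti M (lam0 / 2) ((K : ℝ) + 1) y} := rfl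
    rw [this]
    exact (measurableSet_le hφ measurable_const).inter
      (S08_aux.meas_GP h.mT.measurable h.mTi.measurable h.mM _ _)
  have hsub : ∀ᵐ y ∂μ, y ∈ A0 → y ∈ ⋃ K, G K := by
    filter_upwards [a1, a2, a3, a4, a5] with y b1 b2 b3 b4 b5 hy
    obtain ⟨C, hC⟩ := hA0p y hy
    obtain ⟨K1, hK1⟩ := b3
    obtain ⟨K1', hK1'⟩ := b4
    obtain ⟨K2, hK2⟩ := b5
    obtain ⟨K, hK⟩ := S08_aux.good_pt h.li h.ri h.det n0 hn0 y lam0 ε C K1 K1' K2 hl0 hε hε2 hε3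
      b1 b2 (fun k => (hC k).1) (fun k => (hC k).2) hK1 hK1' hK2
    obtain ⟨n, hn⟩ := exists_nat_ge (max K (φ y))
    rw [Set.mem_iUnion]
    refine ⟨n, ?_, ?_⟩
    · have := le_max_right K (φ y)
      linarith
    · apply S08_aux.gp_mono hK
      have := le_max_left K (φ y)
      linarith
  have hex : ∃ K, 0 < μ (G K) := by
    by_contra hno
    push Not at hno
    have h0 : ∀ K, μ (G K) = 0 := fun K => le_antisymm (hno K) zero_le
    have hU : μ (⋃ K, G K) = 0 := measure_iUnion_null h0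
    have : μ A0 ≤ μ (⋃ K, G K) := measure_mono_ae hsub
    rw [hU] at this
    exact absurd this (not_le.mpr hA0)
  obtain ⟨K, hK⟩ := hex
  refine ⟨lam0 / 2, by positivity, (K : ℝ) + 1, ?_, G K, hGm K, hK, ?_⟩
  · have : (0 : ℝ) ≤ K := Nat.cast_nonneg K
    linarith
  · intro y hy
    exact hy

end

end BilEnt
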