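import Pool.Agent.BilEnt.S01

/-!
# Part S, module S09: the projections `P(N) = N Nᵀ / ‖N‖²`
-/

open Real Matrix

namespace BilEnt

noncomputable section

/-- `N Nᵀ / ‖N‖²` -/
def Pm (N : Matrix (Fin 2) (Fin 2) ℝ) : Matrix (Fin 2) (Fin 2) ℝ :=
  (1 / fn N ^ 2) • (N * Nᵀ)

namespace S09_aux

lemma Pm_apply (N : Matrix (Fin 2) (Fin 2) ℝ) (i j : Fin 2) :
    Pm N i j = (N i 0 * N j 0 + N i 1 * N j 1) / fn N ^ 2 := by
  unfold Pm
  rw [Matrix.smul_apply, Matrix.mul_apply, Fin.sum_univ_two, Matrix.transpose_apply,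
    Matrix.transpose_apply, smul_eq_mul]
  ring

lemma fn_sq_pos {N : Matrix (Fin 2) (Fin 2) ℝ} (h : N.det = 1) : 0 < fn N ^ 2 := by
  have := s_fn_pos h
  positivity

/-- the estimate of the numerator, diagonal entry -/
lemma bound0 (x y u v S b : ℝ) (hx : |x| ≤ b) (hy : |y| ≤ b / 2) (hu : |u| ≤ S / 2)
    (hv : |v| ≤ S / 2) (hb : 0 ≤ b) (hS : 0 ≤ S) : |x * u + 2 * y * v| ≤ b * S := by
  calc |x * u + 2 * y * v| ≤ |x * u| + |2 * y * v| := abs_add_le _ _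
    _ = |x| * |u| + 2 * (|y| * |v|) := by rw [abs_mul, mul_assoc, abs_mul, abs_mul]; norm_num
    _ ≤ b * (S / 2) + 2 * (b / 2 * (S / 2)) := by
        have h1 : |x| * |u| ≤ b * (S / 2) := mul_le_mul hx hu (abs_nonneg _) hb
        have h2 : |y| * |v| ≤ b / 2 * (S / 2) := mul_le_mul hy hv (abs_nonneg _) (by linarith)
        linarith
    _ = b * S := by ring

/-- the estimate of the numerator, off-diagonal entry -/
lemma bound1 (x y u v S b : ℝ) (hx : |x| ≤ b) (hy : |y| ≤ b / 2) (hu : |u| ≤ S / 2)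
    (hv : |v| ≤ S) (hb : 0 ≤ b) (hS : 0 ≤ S) : |x * u + y * v| ≤ b * S := by
  calc |x * u + y * v| ≤ |x * u| + |y * v| := abs_add_le _ _
    _ = |x| * |u| + |y| * |v| := by rw [abs_mul, abs_mul]
    _ ≤ b * (S / 2) + b / 2 * S := by
        have h1 : |x| * |u| ≤ b * (S / 2) := mul_le_mul hx hu (abs_nonneg _) hb
        have h2 : |y| * |v| ≤ b / 2 * S := mul_le_mul hy hv (abs_nonneg _) (by linarith)
        linarith
    _ = b * S := by ring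

lemma step_alg (a b c d p q r s : ℝ) (hN : a * d - b * c = 1) :
    |((a * p + b * r) ^ 2 + (a * q + b * s) ^ 2) * (a ^ 2 + b ^ 2 + c ^ 2 + d ^ 2)
      - (a ^ 2 + b ^ 2) * ((a * p + b * r) ^ 2 + (a * q + b * s) ^ 2
        + (c * p + d * r) ^ 2 + (c * q + d * s) ^ 2)|
      ≤ (p ^ 2 + q ^ 2 + r ^ 2 + s ^ 2) * (a ^ 2 + b ^ 2 + c ^ 2 + d ^ 2) ∧
    |((a * p + b * r) * (c * p + d * r) + (a * q + b * s) * (c * q + d * s))
        * (a ^ 2 + b ^ 2 + c ^ 2 + d ^ 2)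
      - (a * c + b * d) * ((a * p + b * r) ^ 2 + (a * q + b * s) ^ 2
        + (c * p + d * r) ^ 2 + (c * q + d * s) ^ 2)|
      ≤ (p ^ 2 + q ^ 2 + r ^ 2 + s ^ 2) * (a ^ 2 + b ^ 2 + c ^ 2 + d ^ 2) := by
  have hS : 0 ≤ a ^ 2 + b ^ 2 + c ^ 2 + d ^ 2 := by positivity
  have hb : 0 ≤ p ^ 2 + q ^ 2 + r ^ 2 + s ^ 2 := by positivity
  have hx : |(p ^ 2 + q ^ 2) - (r ^ 2 + s ^ 2)| ≤ p ^ 2 + q ^ 2 + r ^ 2 + s ^ 2 := by
    rw [abs_le]; constructor <;> nlinarith [sq_nonneg p, sq_nonneg q, sq_nonneg r, sq_nonneg s]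
  have hy : |p * r + q * s| ≤ (p ^ 2 + q ^ 2 + r ^ 2 + s ^ 2) / 2 := by
    rw [abs_le]; constructor <;>
      nlinarith [sq_nonneg (p + r), sq_nonneg (q + s), sq_nonneg (p - r), sq_nonneg (q - s)]
  have hu0 : |a * d + b * c| ≤ (a ^ 2 + b ^ 2 + c ^ 2 + d ^ 2) / 2 := by
    rw [abs_le]; constructor <;>
      nlinarith [sq_nonneg (a + d), sq_nonneg (b + c), sq_nonneg (a - d), sq_nonneg (b - c)]
  have hv0 : |b * d - a * c| ≤ (a ^ 2 + b ^ 2 + c ^ 2 + d ^ 2) / 2 := by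
    rw [abs_le]; constructor <;>
      nlinarith [sq_nonneg (b + d), sq_nonneg (a + c), sq_nonneg (b - d), sq_nonneg (a - c)]
  have hu1 : |c * d - a * b| ≤ (a ^ 2 + b ^ 2 + c ^ 2 + d ^ 2) / 2 := by
    rw [abs_le]; constructor <;>
      nlinarith [sq_nonneg (c + d), sq_nonneg (a + b), sq_nonneg (c - d), sq_nonneg (a - b)]
  have hv1 : |a ^ 2 + d ^ 2 - b ^ 2 - c ^ 2| ≤ a ^ 2 + b ^ 2 + c ^ 2 + d ^ 2 := by
    rw [abs_le]; constructor <;> nlinarith [sq_nonneg a, sq_nonneg b, sq_nonneg c, sq_nonneg d]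
  constructor
  · have e : ((a * p + b * r) ^ 2 + (a * q + b * s) ^ 2) * (a ^ 2 + b ^ 2 + c ^ 2 + d ^ 2)
      - (a ^ 2 + b ^ 2) * ((a * p + b * r) ^ 2 + (a * q + b * s) ^ 2
        + (c * p + d * r) ^ 2 + (c * q + d * s) ^ 2)
      = (((p ^ 2 + q ^ 2) - (r ^ 2 + s ^ 2)) * (a * d + b * c)
        + 2 * (p * r + q * s) * (b * d - a * c)) := by
      linear_combination (((p ^ 2 + q ^ 2) - (r ^ 2 + s ^ 2)) * (a * d + b * c)
        + 2 * (p * r + q * s) * (b * d - a * c)) * hN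
    rw [e]
    exact bound0 _ _ _ _ _ _ hx hy hu0 hv0 hb hS
  · have e : ((a * p + b * r) * (c * p + d * r) + (a * q + b * s) * (c * q + d * s))
        * (a ^ 2 + b ^ 2 + c ^ 2 + d ^ 2)
      - (a * c + b * d) * ((a * p + b * r) ^ 2 + (a * q + b * s) ^ 2
        + (c * p + d * r) ^ 2 + (c * q + d * s) ^ 2)
      = (((p ^ 2 + q ^ 2) - (r ^ 2 + s ^ 2)) * (c * d - a * b)
        + (p * r + q * s) * (a ^ 2 + d ^ 2 - b ^ 2 - c ^ 2)) := by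
      linear_combination (((p ^ 2 + q ^ 2) - (r ^ 2 + s ^ 2)) * (c * d - a * b)
        + (p * r + q * s) * (a ^ 2 + d ^ 2 - b ^ 2 - c ^ 2)) * hN
    rw [e]
    exact bound1 _ _ _ _ _ _ hx hy hu1 hv1 hb hS

/-- the diagonal entry `(1,1)` follows by exchanging the rows -/
lemma step_alg11 (a b c d p q r s : ℝ) (hN : a * d - b * c = 1) :
    |((c * p + d * r) ^ 2 + (c * q + d * s) ^ 2) * (a ^ 2 + b ^ 2 + c ^ 2 + d ^ 2)
      - (c ^ 2 + d ^ 2) * ((a * p + b * r) ^ 2 + (a * q + b * s) ^ 2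
        + (c * p + d * r) ^ 2 + (c * q + d * s) ^ 2)|
      ≤ (p ^ 2 + q ^ 2 + r ^ 2 + s ^ 2) * (a ^ 2 + b ^ 2 + c ^ 2 + d ^ 2) := by
  have h := (step_alg a b c d p q r s hN).1
  rw [← abs_neg]
  refine le_trans (le_of_eq ?_) h
  congr 1
  ring

lemma div_step {X Y m n bb : ℝ} (hm : 0 < m) (hn : 0 < n) (h : |X * n - Y * m| ≤ bb * n) :
    |X / m - Y / n| ≤ bb / m := by
  have e : X / m - Y / n = (X * n - Y * m) / (m * n) := by
    field_simp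
  rw [e, abs_div, abs_of_pos (mul_pos hm hn), div_le_div_iff₀ (mul_pos hm hn) hm]
  nlinarith [mul_le_mul_of_nonneg_right h hm.le]

end S09_aux

open S09_aux

theorem s_Pm_symm (N : Matrix (Fin 2) (Fin 2) ℝ) : Pm N 0 1 = Pm N 1 0 := by
  rw [Pm_apply, Pm_apply]
  ring

theorem s_Pm_trace {N : Matrix (Fin 2) (Fin 2) ℝ} (h : N.det = 1) : Pm N 0 0 + Pm N 1 1 = 1 := by
  have hp := fn_sq_pos h
  rw [Pm_apply, Pm_apply, ← add_div, div_eq_one_iff_eq hp.ne', s_fn_sq]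
  ring

/-- `det (N Nᵀ) = 1`, so `det (Pm N) = ‖N‖⁻⁴`. -/
theorem s_Pm_det {N : Matrix (Fin 2) (Fin 2) ℝ} (h : N.det = 1) :
    Pm N 0 0 * Pm N 1 1 - Pm N 0 1 ^ 2 = 1 / fn N ^ 4 := by
  have hp := s_fn_pos h
  rw [Pm_apply, Pm_apply, Pm_apply]
  rw [Matrix.det_fin_two] at h
  have e : (N 0 0 * N 0 0 + N 0 1 * N 0 1) * (N 1 0 * N 1 0 + N 1 1 * N 1 1)
      - (N 0 0 * N 1 0 + N 0 1 * N 1 1) ^ 2 = 1 := by
    linear_combination (N 0 0 * N 1 1 - N 0 1 * N 1 0 + 1) * h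
  field_simp
  linarith

theorem s_Pm_abs_le {N : Matrix (Fin 2) (Fin 2) ℝ} (h : N.det = 1) (i j : Fin 2) :
    |Pm N i j| ≤ 1 := by
  have hp := fn_sq_pos h
  rw [Pm_apply, abs_div, abs_of_pos hp, div_le_one hp, s_fn_sq, abs_le]
  fin_cases i <;> fin_cases j <;> simp only [Fin.mk_one, Fin.zero_eta, Fin.isValue] <;>
    constructor <;>
    nlinarith [sq_nonneg (N 0 0 + N 1 0), sq_nonneg (N 0 1 + N 1 1), sq_nonneg (N 0 0 - N 1 0),
      sq_nonneg (N 0 1 - N 1 1), sq_nonneg (N 0 0), sq_nonneg (N 0 1), sq_nonneg (N 1 0),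
      sq_nonneg (N 1 1)]

/-- PROOF.  Write `N = !![a, b; c, d]`, `ad - bc = 1`, and `W = B Bᵀ = !![w0, w1; w1, w2]`, so
`w0, w2 ≥ 0`, `w0 + w2 = ‖B‖²`, `|w1| ≤ (w0 + w2) / 2`.  `E := (N W Nᵀ) ‖N‖² - (N Nᵀ) tr (N W Nᵀ)` is
symmetric and traceless with
`E 0 0 = (w0 - w2) (a d + b c) + 2 w1 (b d - a c)`,
`E 0 1 = (w0 - w2) (c d - a b) + w1 (a² + d² - b² - c²)`
(use `ad - bc = 1`: e.g. `E 0 0 * 1` against the determinant; `ring`-identities after multiplying one side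
by `(a d - b c)`).  Hence `|E i j| ≤ ‖B‖² ‖N‖²` (`|ad+bc|, |bd-ac|, |cd-ab| ≤ ‖N‖²/2`).
And `Pm (N B) - Pm N = E / (‖N B‖² ‖N‖²)` because `tr (N W Nᵀ) = ‖N B‖²`. -/
theorem s_Pm_step {N B : Matrix (Fin 2) (Fin 2) ℝ} (hN : N.det = 1) (hB : B.det = 1)
    (i j : Fin 2) : |Pm (N * B) i j - Pm N i j| ≤ fn B ^ 2 / fn (N * B) ^ 2 := by
  have hNB : (N * B).det = 1 := by rw [Matrix.det_mul, hN, hB, one_mul]
  have hm := fn_sq_pos hNB
  have hn := fn_sq_pos hN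
  rw [Pm_apply, Pm_apply]
  apply div_step hm hn
  rw [Matrix.det_fin_two] at hN
  have h1 := step_alg (N 0 0) (N 0 1) (N 1 0) (N 1 1) (B 0 0) (B 0 1) (B 1 0) (B 1 1) hN
  have h2 := step_alg11 (N 0 0) (N 0 1) (N 1 0) (N 1 1) (B 0 0) (B 0 1) (B 1 0) (B 1 1) hN
  rw [s_fn_sq, s_fn_sq, s_fn_sq]
  simp only [Matrix.mul_apply, Fin.sum_univ_two]
  fin_cases i <;> fin_cases j <;> simp only [Fin.mk_one, Fin.zero_eta, Fin.isValue]
  · refine le_trans (le_of_eq ?_) h1.1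
    congr 1; ring
  · refine le_trans (le_of_eq ?_) h1.2
    congr 1
  · refine le_trans (le_of_eq ?_) h1.2
    congr 1; ring
  · refine le_trans (le_of_eq ?_) h2
    congr 1; ring

/-- the inverse: `Pm (N⁻¹) = 1 - Nᵀ N / ‖N‖²` -/
theorem s_Pm_inv {N : Matrix (Fin 2) (Fin 2) ℝ} (h : N.det = 1) (i j : Fin 2) :
    Pm N⁻¹ i j = (1 : Matrix (Fin 2) (Fin 2) ℝ) i j - (Nᵀ * N) i j / fn N ^ 2 := by
  have hp := fn_sq_pos h
  rw [Pm_apply, s_fn_inv h, s_inv_eq h, Matrix.mul_apply, Fin.sum_univ_two]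
  simp only [Matrix.transpose_apply]
  rw [eq_sub_iff_add_eq, ← add_div, div_eq_iff hp.ne', s_fn_sq]
  fin_cases i <;> fin_cases j <;> simp <;> ring

/-- equivariance: `fn (R * N) ^ 2 • Pm (R * N) = fn N ^ 2 • R * Pm N * Rᵀ` -/
theorem s_Pm_mul {R N : Matrix (Fin 2) (Fin 2) ℝ} (hR : R.det = 1) (hN : N.det = 1) (i j : Fin 2) :
    fn (R * N) ^ 2 * Pm (R * N) i j = fn N ^ 2 * (R * Pm N * Rᵀ) i j := by
  have hRN : (R * N).det = 1 := by rw [Matrix.det_mul, hR, hN, one_mul]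
  have hm := fn_sq_pos hRN
  have hn := fn_sq_pos hN
  have h1 : fn (R * N) ^ 2 * Pm (R * N) i j = ((R * N) * (R * N)ᵀ) i j := by
    unfold Pm
    rw [Matrix.smul_apply, smul_eq_mul, ← mul_assoc, mul_one_div_cancel hm.ne', one_mul]
  have h2 : fn N ^ 2 * (R * Pm N * Rᵀ) i j = (R * (N * Nᵀ) * Rᵀ) i j := by
    unfold Pm
    rw [Matrix.mul_smul, Matrix.smul_mul, Matrix.smul_apply, smul_eq_mul, ← mul_assoc,
      mul_one_div_cancel hn.ne', one_mul]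
  rw [h1, h2, Matrix.transpose_mul]
  simp only [Matrix.mul_assoc]

/-- trace of `R * Pm N * Rᵀ` -/
theorem s_Pm_mul_trace {R N : Matrix (Fin 2) (Fin 2) ℝ} (hR : R.det = 1) (hN : N.det = 1) :
    (R * Pm N * Rᵀ) 0 0 + (R * Pm N * Rᵀ) 1 1 = fn (R * N) ^ 2 / fn N ^ 2 := by
  have hRN : (R * N).det = 1 := by rw [Matrix.det_mul, hR, hN, one_mul]
  have hn := fn_sq_pos hN
  have h0 := s_Pm_mul hR hN 0 0
  have h1 := s_Pm_mul hR hN 1 1
  have h2 := s_Pm_trace hRN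
  rw [eq_div_iff hn.ne']
  have h3 : fn (R * N) ^ 2 * (Pm (R * N) 0 0 + Pm (R * N) 1 1) = fn (R * N) ^ 2 := by
    rw [h2, mul_one]
  linarith

end

end BilEnt
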