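import Pool.Agent.BilEnt.S09

/-!
# Part S, module S10: the limit projection
-/

open MeasureTheory Real Filter Topology Matrix
open scoped ENNReal

namespace BilEnt

noncomputable section

/-- limit of the projections `Pm (M(Ti y) ⋯ M(Ti^k y))` (as a `limsup`, hence defined everywhere) -/
def PL {Y : Type*} (T Ti : Y → Y) (M : Y → Matrix (Fin 2) (Fin 2) ℝ) (y : Y) :
    Matrix (Fin 2) (Fin 2) ℝ :=
  fun i j => limsup (fun k : ℕ => Pm (ac T M k (Ti^[k] y)) i j) atTop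

/-- PROOF: `Measurable.limsup`, `s_meas_ac`, `s_meas_fn`. -/
theorem s_PL_meas {Y : Type*} [MeasurableSpace Y] {T Ti : Y → Y}
    {M : Y → Matrix (Fin 2) (Fin 2) ℝ} (hT : Measurable T) (hTi : Measurable Ti)
    (hM : ∀ i j, Measurable fun y => M y i j) (i j : Fin 2) :
    Measurable fun y => PL T Ti M y i j := by
  unfold PL
  apply Measurable.limsup
  intro k
  have h1 : ∀ i j, Measurable fun y => ac T M k (Ti^[k] y) i j := fun i j =>
    (s_meas_ac hT hM k i j).comp (hTi.iterate k)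
  have h2 : Measurable fun y => fn (ac T M k (Ti^[k] y)) := s_meas_fn h1
  have h3 : (fun y => Pm (ac T M k (Ti^[k] y)) i j) = fun y =>
      (1 / fn (ac T M k (Ti^[k] y)) ^ 2) *
        (ac T M k (Ti^[k] y) i 0 * ac T M k (Ti^[k] y) j 0 +
          ac T M k (Ti^[k] y) i 1 * ac T M k (Ti^[k] y) j 1) := by
    funext y
    unfold Pm
    rw [Matrix.smul_apply, Matrix.mul_apply, Fin.sum_univ_two, smul_eq_mul,
      Matrix.transpose_apply, Matrix.transpose_apply]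
  rw [h3]
  exact ((h2.pow_const 2).const_div 1).mul
    (((h1 i 0).mul (h1 j 0)).add ((h1 i 1).mul (h1 j 1)))

/-- the constant of the rate of convergence -/
def cK (lam K : ℝ) : ℝ := exp (4 * K) / (1 - exp (-(7 / 4 * lam)))

namespace S10_aux

theorem step {Y : Type*} {T Ti : Y → Y} {M : Y → Matrix (Fin 2) (Fin 2) ℝ}
    (hri : ∀ y, T (Ti y) = y) (hdet : ∀ y, (M y).det = 1) {lam K : ℝ} {y : Y}
    (h : GP T Ti M lam K y) (i j : Fin 2) (k : ℕ) :
    dist (Pm (ac T M k (Ti^[k] y)) i j) (Pm (ac T M (k + 1) (Ti^[k + 1] y)) i j) ≤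
      exp (4 * K) * exp (-(7 / 4 * lam)) * exp (-(7 / 4 * lam)) ^ k := by
  rw [dist_comm, Real.dist_eq]
  have h1 := s_Pm_step (s_det_ac (T := T) hdet k (Ti^[k] y)) (hdet (Ti^[k + 1] y)) i j
  rw [← s_ac_back hri] at h1
  refine h1.trans ?_
  have hB := s_fn_pos (hdet (Ti^[k + 1] y))
  have hN := s_fn_pos (s_det_ac (T := T) hdet (k + 1) (Ti^[k + 1] y))
  have h2 : fn (M (Ti^[k + 1] y)) ≤ exp (lam / 8 * (k + 1) + K) := by
    rw [← Real.log_le_iff_le_exp hB]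
    exact h.lb k
  have h3 : exp (lam * (k + 1) - K) ≤ fn (ac T M (k + 1) (Ti^[k + 1] y)) := by
    rw [← Real.le_log_iff_exp_le hN]
    have := h.b (k + 1)
    unfold la at this
    push_cast at this
    exact this
  have h4 : fn (M (Ti^[k + 1] y)) ^ 2 / fn (ac T M (k + 1) (Ti^[k + 1] y)) ^ 2 ≤
      exp (lam / 8 * (k + 1) + K) ^ 2 / exp (lam * (k + 1) - K) ^ 2 := by
    apply div_le_div₀ (by positivity) (pow_le_pow_left₀ hB.le h2 2)
      (pow_pos (exp_pos _) 2) (pow_le_pow_left₀ (exp_pos _).le h3 2)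
  refine h4.trans_eq ?_
  rw [← Real.exp_nat_mul, ← Real.exp_nat_mul, ← Real.exp_nat_mul, ← Real.exp_sub,
    ← Real.exp_add, ← Real.exp_add]
  congr 1
  push_cast
  ring

theorem rlt {lam : ℝ} (hlam : 0 < lam) : exp (-(7 / 4 * lam)) < 1 := by
  rw [Real.exp_lt_one_iff]
  linarith

theorem tends {Y : Type*} {T Ti : Y → Y} {M : Y → Matrix (Fin 2) (Fin 2) ℝ}
    (hri : ∀ y, T (Ti y) = y) (hdet : ∀ y, (M y).det = 1) {lam K : ℝ} (hlam : 0 < lam) {y : Y}
    (h : GP T Ti M lam K y) (i j : Fin 2) :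
    Tendsto (fun k : ℕ => Pm (ac T M k (Ti^[k] y)) i j) atTop (𝓝 (PL T Ti M y i j)) := by
  have hc := cauchySeq_of_le_geometric _ _ (rlt hlam) (step hri hdet h i j)
  obtain ⟨a, ha⟩ := cauchySeq_tendsto_of_complete hc
  have h1 : PL T Ti M y i j = a := by
    unfold PL
    exact ha.limsup_eq
  rw [h1]
  exact ha

theorem fn_inv_tendsto {Y : Type*} {T Ti : Y → Y} {M : Y → Matrix (Fin 2) (Fin 2) ℝ}
    (hdet : ∀ y, (M y).det = 1) {lam K : ℝ} (hlam : 0 < lam) {y : Y}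
    (h : GP T Ti M lam K y) :
    Tendsto (fun k : ℕ => 1 / fn (ac T M k (Ti^[k] y)) ^ 4) atTop (𝓝 0) := by
  have h1 : Tendsto (fun k : ℕ => lam * (k : ℝ) - K) atTop atTop :=
    tendsto_atTop_add_const_right _ _
      (Tendsto.const_mul_atTop hlam tendsto_natCast_atTop_atTop)
  have h2 : Tendsto (fun k : ℕ => la T M k (Ti^[k] y)) atTop atTop :=
    tendsto_atTop_mono h.b h1
  have h3 : Tendsto (fun k : ℕ => exp (-(4 * la T M k (Ti^[k] y)))) atTop (𝓝 0) :=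
    Real.tendsto_exp_neg_atTop_nhds_zero.comp (h2.const_mul_atTop (by norm_num))
  refine h3.congr fun k => ?_
  have hN := s_fn_pos (s_det_ac (T := T) hdet k (Ti^[k] y))
  unfold la
  rw [Real.exp_neg, show (4 : ℝ) = ((4 : ℕ) : ℝ) by norm_num, Real.exp_nat_mul,
    Real.exp_log hN, one_div]

end S10_aux

/-- RATE.  PROOF.  `N_k := ac T M k (Ti^[k] y)`, `N_{k+1} = N_k * M (Ti^[k+1] y)` (`s_ac_back`).
By `s_Pm_step`, `|P_{k+1} - P_k| ≤ fn(M(Ti^[k+1] y))² / fn(N_{k+1})²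
 ≤ exp (2 (lam/8 (k+1) + K)) exp (-2 (lam (k+1) - K)) = exp (4K) exp (-(7/4) lam (k+1))`.
So `P_k` is Cauchy (`cauchySeq_of_le_geometric`-type), converges, the limit is the `limsup`
(`Tendsto.limsup_eq`), and the tail is bounded by the geometric series
`dist_le_of_le_geometric_of_tendsto`. -/
theorem s_PL_rate {Y : Type*} {T Ti : Y → Y} {M : Y → Matrix (Fin 2) (Fin 2) ℝ}
    (hri : ∀ y, T (Ti y) = y) (hdet : ∀ y, (M y).det = 1) {lam K : ℝ} (hlam : 0 < lam) {y : Y}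
    (h : GP T Ti M lam K y) (i j : Fin 2) (k : ℕ) :
    |PL T Ti M y i j - Pm (ac T M k (Ti^[k] y)) i j| ≤
      cK lam K * exp (-(7 / 4 * lam * (k + 1))) := by
  have h1 := dist_le_of_le_geometric_of_tendsto _ _ (S10_aux.rlt hlam)
    (S10_aux.step hri hdet h i j) (S10_aux.tends hri hdet hlam h i j) k
  rw [dist_comm, Real.dist_eq] at h1
  refine h1.trans_eq ?_
  unfold cK
  have h2 : exp (-(7 / 4 * lam)) * exp (-(7 / 4 * lam)) ^ k = exp (-(7 / 4 * lam * (k + 1))) := by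
    rw [← pow_succ', ← Real.exp_nat_mul]
    congr 1
    push_cast
    ring
  rw [mul_assoc (exp (4 * K)), h2]
  ring

theorem s_PL_tendsto {Y : Type*} {T Ti : Y → Y} {M : Y → Matrix (Fin 2) (Fin 2) ℝ}
    (hri : ∀ y, T (Ti y) = y) (hdet : ∀ y, (M y).det = 1) {lam K : ℝ} (hlam : 0 < lam) {y : Y}
    (h : GP T Ti M lam K y) (i j : Fin 2) :
    Tendsto (fun k : ℕ => Pm (ac T M k (Ti^[k] y)) i j) atTop (𝓝 (PL T Ti M y i j)) :=
  S10_aux.tends hri hdet hlam h i j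

/-- the limit is a symmetric matrix of trace `1` and determinant `0` (a rank one projection) -/
def IsPr (P : Matrix (Fin 2) (Fin 2) ℝ) : Prop :=
  P 0 1 = P 1 0 ∧ P 0 0 + P 1 1 = 1 ∧ P 0 0 * P 1 1 = P 0 1 ^ 2

/-- PROOF: limits of `s_Pm_symm`, `s_Pm_trace`, `s_Pm_det`; `fn (N_k) ≥ exp (lam k - K) → ∞`. -/
theorem s_PL_isPr {Y : Type*} {T Ti : Y → Y} {M : Y → Matrix (Fin 2) (Fin 2) ℝ}
    (hri : ∀ y, T (Ti y) = y) (hdet : ∀ y, (M y).det = 1) {lam K : ℝ} (hlam : 0 < lam) {y : Y}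
    (h : GP T Ti M lam K y) : IsPr (PL T Ti M y) := by
  have ht := s_PL_tendsto hri hdet hlam h
  refine ⟨?_, ?_, ?_⟩
  · refine tendsto_nhds_unique (ht 0 1) ((ht 1 0).congr fun k => ?_)
    exact (s_Pm_symm _).symm
  · refine tendsto_nhds_unique ((ht 0 0).add (ht 1 1)) (tendsto_const_nhds.congr fun k => ?_)
    exact (s_Pm_trace (s_det_ac hdet k _)).symm
  · have h1 : Tendsto (fun k : ℕ => Pm (ac T M k (Ti^[k] y)) 0 0 * Pm (ac T M k (Ti^[k] y)) 1 1 -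
        Pm (ac T M k (Ti^[k] y)) 0 1 ^ 2) atTop
        (𝓝 (PL T Ti M y 0 0 * PL T Ti M y 1 1 - PL T Ti M y 0 1 ^ 2)) :=
      ((ht 0 0).mul (ht 1 1)).sub ((ht 0 1).pow 2)
    have h2 : Tendsto (fun k : ℕ => Pm (ac T M k (Ti^[k] y)) 0 0 * Pm (ac T M k (Ti^[k] y)) 1 1 -
        Pm (ac T M k (Ti^[k] y)) 0 1 ^ 2) atTop (𝓝 0) :=
      (S10_aux.fn_inv_tendsto hdet hlam h).congr fun k => (s_Pm_det (s_det_ac hdet k _)).symm
    have h3 := tendsto_nhds_unique h1 h2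
    linarith

end

end BilEnt
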