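import Pool.Agent.BilEnt.S10

/-!
# Part S, module S11: unit vector of a rank one projection
-/

open MeasureTheory Real Filter Topology Matrix
open scoped ENNReal

namespace BilEnt

noncomputable section

open Classical in
/-- a unit vector `v` with `v vᵀ = P` -/
def vd (P : Matrix (Fin 2) (Fin 2) ℝ) : Fin 2 → ℝ :=
  if IsPr P then
    (if 1 / 2 ≤ P 0 0 then ![√(P 0 0), P 0 1 / √(P 0 0)] else ![P 0 1 / √(P 1 1), √(P 1 1)])
  else ![1, 0]

private lemma pr_pos {P : Matrix (Fin 2) (Fin 2) ℝ} (h : 1 / 2 ≤ P 0 0) : 0 < √(P 0 0) :=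
  Real.sqrt_pos.2 (by linarith)

private lemma pr_pos' {P : Matrix (Fin 2) (Fin 2) ℝ} (hP : IsPr P) (h : ¬ 1 / 2 ≤ P 0 0) :
    1 / 2 ≤ P 1 1 := by
  have := hP.2.1
  linarith

theorem s_vd_proj {P : Matrix (Fin 2) (Fin 2) ℝ} (h : IsPr P) (i j : Fin 2) :
    vd P i * vd P j = P i j := by
  obtain ⟨h1, h2, h3⟩ := h
  unfold vd
  rw [if_pos ⟨h1, h2, h3⟩]
  by_cases hc : 1 / 2 ≤ P 0 0
  · rw [if_pos hc]
    have hp : 0 < P 0 0 := by linarith
    have hs : 0 < √(P 0 0) := Real.sqrt_pos.2 hp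
    have hq : √(P 0 0) * √(P 0 0) = P 0 0 := Real.mul_self_sqrt hp.le
    have e11 : P 0 1 / √(P 0 0) * (P 0 1 / √(P 0 0)) = P 1 1 := by
      rw [div_mul_div_comm, hq, div_eq_iff hp.ne']
      linarith
    have e01 : √(P 0 0) * (P 0 1 / √(P 0 0)) = P 0 1 := by
      field_simp
    have e10 : P 0 1 / √(P 0 0) * √(P 0 0) = P 1 0 := by
      rw [← h1]
      field_simp
    fin_cases i <;> fin_cases j
    · exact hq
    · exact e01
    · exact e10
    · exact e11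
  · rw [if_neg hc]
    have hp : 0 < P 1 1 := by linarith
    have hs : 0 < √(P 1 1) := Real.sqrt_pos.2 hp
    have hq : √(P 1 1) * √(P 1 1) = P 1 1 := Real.mul_self_sqrt hp.le
    have e00 : P 0 1 / √(P 1 1) * (P 0 1 / √(P 1 1)) = P 0 0 := by
      rw [div_mul_div_comm, hq, div_eq_iff hp.ne']
      linarith
    have e10 : √(P 1 1) * (P 0 1 / √(P 1 1)) = P 1 0 := by
      rw [← h1]
      field_simp
    have e01 : P 0 1 / √(P 1 1) * √(P 1 1) = P 0 1 := by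
      field_simp
    fin_cases i <;> fin_cases j
    · exact e00
    · exact e01
    · exact e10
    · exact hq

theorem s_vd_unit (P : Matrix (Fin 2) (Fin 2) ℝ) : vd P 0 ^ 2 + vd P 1 ^ 2 = 1 := by
  by_cases h : IsPr P
  · rw [pow_two, pow_two, s_vd_proj h, s_vd_proj h]
    exact h.2.1
  · unfold vd
    rw [if_neg h]
    simp

theorem s_vd_meas {Y : Type*} [MeasurableSpace Y] {f : Y → Matrix (Fin 2) (Fin 2) ℝ}
    (hf : ∀ i j, Measurable fun y => f y i j) : Measurable fun y => vd (f y) := by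
  have hset : MeasurableSet {y | IsPr (f y)} := by
    unfold IsPr
    refine MeasurableSet.inter ?_ (MeasurableSet.inter ?_ ?_)
    · exact measurableSet_eq_fun (hf 0 1) (hf 1 0)
    · exact measurableSet_eq_fun ((hf 0 0).add (hf 1 1)) measurable_const
    · exact measurableSet_eq_fun ((hf 0 0).mul (hf 1 1)) ((hf 0 1).pow_const 2)
  have hset2 : MeasurableSet {y | 1 / 2 ≤ f y 0 0} := measurableSet_le measurable_const (hf 0 0)
  have hg1 : Measurable fun y => (![√(f y 0 0), f y 0 1 / √(f y 0 0)] : Fin 2 → ℝ) := by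
    rw [measurable_pi_iff]
    intro i
    fin_cases i
    · exact (hf 0 0).sqrt
    · exact (hf 0 1).div (hf 0 0).sqrt
  have hg2 : Measurable fun y => (![f y 0 1 / √(f y 1 1), √(f y 1 1)] : Fin 2 → ℝ) := by
    rw [measurable_pi_iff]
    intro i
    fin_cases i
    · exact (hf 0 1).div (hf 1 1).sqrt
    · exact (hf 1 1).sqrt
  unfold vd
  exact Measurable.ite hset (Measurable.ite hset2 hg1 hg2) measurable_const

/-- `u uᵀ · |x|² = x xᵀ` and `|u| = 1` imply `x = (x · u) u`.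
PROOF: `x i * x j = r u_i u_j` with `r = |x|²`.  `|x - c u|² = r - c²` for `c = x · u`, and
`c² = ∑ u_i u_j x_i x_j = r ∑ (u_i u_j)² ... = r`. -/
theorem s_parallel_of_proj {u x : Fin 2 → ℝ} (hu : u 0 ^ 2 + u 1 ^ 2 = 1)
    (h : ∀ i j, x i * x j = (x 0 ^ 2 + x 1 ^ 2) * (u i * u j)) :
    x = (x 0 * u 0 + x 1 * u 1) • u := by
  have h00 := h 0 0
  have h01 := h 0 1
  have h11 := h 1 1
  have key : (x 0 - (x 0 * u 0 + x 1 * u 1) * u 0) ^ 2
      + (x 1 - (x 0 * u 0 + x 1 * u 1) * u 1) ^ 2 = 0 := by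
    have e1 : (x 0 - (x 0 * u 0 + x 1 * u 1) * u 0) ^ 2
        + (x 1 - (x 0 * u 0 + x 1 * u 1) * u 1) ^ 2
        = (x 0 ^ 2 + x 1 ^ 2) - 2 * (x 0 * u 0 + x 1 * u 1) ^ 2
          + (x 0 * u 0 + x 1 * u 1) ^ 2 * (u 0 ^ 2 + u 1 ^ 2) := by ring
    have e2 : (x 0 * u 0 + x 1 * u 1) ^ 2 = (x 0 ^ 2 + x 1 ^ 2) := by
      have e3 : (x 0 * u 0 + x 1 * u 1) ^ 2
          = (x 0 * x 0) * u 0 ^ 2 + 2 * (x 0 * x 1) * (u 0 * u 1) + (x 1 * x 1) * u 1 ^ 2 := by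
        ring
      rw [e3, h00, h01, h11]
      have e4 : (x 0 ^ 2 + x 1 ^ 2) * (u 0 * u 0) * u 0 ^ 2
          + 2 * ((x 0 ^ 2 + x 1 ^ 2) * (u 0 * u 1)) * (u 0 * u 1)
          + (x 0 ^ 2 + x 1 ^ 2) * (u 1 * u 1) * u 1 ^ 2
          = (x 0 ^ 2 + x 1 ^ 2) * (u 0 ^ 2 + u 1 ^ 2) ^ 2 := by ring
      rw [e4, hu]
      ring
    rw [e1, e2, hu]
    ring
  have k0 : x 0 - (x 0 * u 0 + x 1 * u 1) * u 0 = 0 := by
    have := sq_nonneg (x 1 - (x 0 * u 0 + x 1 * u 1) * u 1)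
    have := sq_nonneg (x 0 - (x 0 * u 0 + x 1 * u 1) * u 0)
    exact pow_eq_zero_iff (two_ne_zero) |>.1 (by linarith)
  have k1 : x 1 - (x 0 * u 0 + x 1 * u 1) * u 1 = 0 := by
    have := sq_nonneg (x 1 - (x 0 * u 0 + x 1 * u 1) * u 1)
    have := sq_nonneg (x 0 - (x 0 * u 0 + x 1 * u 1) * u 0)
    exact pow_eq_zero_iff (two_ne_zero) |>.1 (by linarith)
  funext i
  rw [Pi.smul_apply, smul_eq_mul]
  fin_cases i
  · exact sub_eq_zero.1 k0
  · exact sub_eq_zero.1 k1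

private lemma sandwich_apply (R P : Matrix (Fin 2) (Fin 2) ℝ) (i j : Fin 2) :
    (R * P * Rᵀ) i j = (R i 0 * P 0 0 + R i 1 * P 1 0) * R j 0
      + (R i 0 * P 0 1 + R i 1 * P 1 1) * R j 1 := by
  simp only [Matrix.mul_apply, Fin.sum_univ_two, Matrix.transpose_apply]

private lemma sandwich_tendsto (R : Matrix (Fin 2) (Fin 2) ℝ)
    {P : ℕ → Matrix (Fin 2) (Fin 2) ℝ} {Q : Matrix (Fin 2) (Fin 2) ℝ}
    (h : ∀ i j, Tendsto (fun m => P m i j) atTop (𝓝 (Q i j))) (i j : Fin 2) :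
    Tendsto (fun m => (R * P m * Rᵀ) i j) atTop (𝓝 ((R * Q * Rᵀ) i j)) := by
  simp only [sandwich_apply]
  exact ((((h 0 0).const_mul _).add ((h 1 0).const_mul _)).mul_const _).add
    ((((h 0 1).const_mul _).add ((h 1 1).const_mul _)).mul_const _)

/-- INVARIANCE of the direction field.

PROOF.  Let `R = ac T M k y`.  `N_{k+m}(T^[k] y) = R * N_m(y)` where `N_m(y) = ac T M m (Ti^[m] y)`
(`s_ac_add` with `Ti^[k+m] (T^[k] y) = Ti^[m] y`).  By `s_Pm_mul`/`s_Pm_mul_trace`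
`Pm (N_{k+m}(T^[k] y)) i j * tr (R P_m Rᵀ) = (R P_m Rᵀ) i j` with `P_m = Pm (N_m y)`.  Let `m → ∞`
(`s_PL_tendsto` at `y` and at `T^[k] y`, the latter composed with `m ↦ k + m`):
`PL (T^[k] y) i j * tr (R P Rᵀ) = (R P Rᵀ) i j`, `P = PL y = v vᵀ` (`s_vd_proj`, `s_PL_isPr`).  With
`x = R *ᵥ v`: `R P Rᵀ = x xᵀ`.  Apply `s_parallel_of_proj`. -/
theorem s_invariant {Y : Type*} {T Ti : Y → Y} {M : Y → Matrix (Fin 2) (Fin 2) ℝ}
    (hli : ∀ y, Ti (T y) = y) (hri : ∀ y, T (Ti y) = y) (hdet : ∀ y, (M y).det = 1)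
    {lam K : ℝ} (hlam : 0 < lam) {y : Y} {k : ℕ} (h : GP T Ti M lam K y)
    (h' : GP T Ti M lam K (T^[k] y)) :
    ∃ c : ℝ, ac T M k y *ᵥ vd (PL T Ti M y) = c • vd (PL T Ti M (T^[k] y)) := by
  set R : Matrix (Fin 2) (Fin 2) ℝ := ac T M k y with hR
  have hRdet : R.det = 1 := s_det_ac hdet k y
  have hN : ∀ m : ℕ, ac T M (m + k) (Ti^[m + k] (T^[k] y)) = R * ac T M m (Ti^[m] y) := by
    intro m
    have e1 : Ti^[m + k] (T^[k] y) = Ti^[m] y := by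
      rw [Function.iterate_add_apply, s_iter_li hli]
    rw [e1, s_ac_add, s_iter_ri hri, ← hR]
  have hlimP := fun i j => s_PL_tendsto hri hdet hlam h i j
  have hlimQ : ∀ i j, Tendsto (fun m : ℕ => Pm (R * ac T M m (Ti^[m] y)) i j) atTop
      (𝓝 (PL T Ti M (T^[k] y) i j)) := by
    intro i j
    have h1 := (s_PL_tendsto hri hdet hlam h' i j).comp (tendsto_add_atTop_nat k)
    refine h1.congr (fun m => ?_)
    simp only [Function.comp]
    rw [hN]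
  have hlimS := sandwich_tendsto R hlimP
  have hid : ∀ (m : ℕ) (i j : Fin 2), Pm (R * ac T M m (Ti^[m] y)) i j
      * ((R * Pm (ac T M m (Ti^[m] y)) * Rᵀ) 0 0 + (R * Pm (ac T M m (Ti^[m] y)) * Rᵀ) 1 1)
      = (R * Pm (ac T M m (Ti^[m] y)) * Rᵀ) i j := by
    intro m i j
    have hd := s_det_ac (T := T) hdet m (Ti^[m] y)
    have h1 := s_Pm_mul hRdet hd i j
    have h2 := s_Pm_mul_trace hRdet hd
    have h3 := s_fn_pos hd
    rw [h2, mul_div_assoc', mul_comm (Pm _ i j), h1]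
    field_simp
  have hfin : ∀ i j, PL T Ti M (T^[k] y) i j
      * ((R * PL T Ti M y * Rᵀ) 0 0 + (R * PL T Ti M y * Rᵀ) 1 1)
      = (R * PL T Ti M y * Rᵀ) i j := by
    intro i j
    have h1 := (hlimQ i j).mul ((hlimS 0 0).add (hlimS 1 1))
    have h2 := h1.congr (fun m => hid m i j)
    exact tendsto_nhds_unique h2 (hlimS i j)
  have hP := s_PL_isPr hri hdet hlam h
  have hP' := s_PL_isPr hri hdet hlam h'
  have hx : ∀ i j, (R * PL T Ti M y * Rᵀ) i j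
      = (R *ᵥ vd (PL T Ti M y)) i * (R *ᵥ vd (PL T Ti M y)) j := by
    intro i j
    rw [sandwich_apply]
    simp only [Matrix.mulVec, dotProduct, Fin.sum_univ_two]
    rw [← s_vd_proj hP 0 0, ← s_vd_proj hP 0 1, ← s_vd_proj hP 1 0, ← s_vd_proj hP 1 1]
    ring
  refine ⟨_, s_parallel_of_proj (s_vd_unit _) (fun i j => ?_)⟩
  rw [← hx i j, ← hfin i j, hx 0 0, hx 1 1, ← s_vd_proj hP' i j]
  ring

end

end BilEnt
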