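import Pool.Agent.BilEnt.S11

/-!
# Part S, module S12: growth along the limit direction
-/

open MeasureTheory Real Filter Topology Matrix
open scoped ENNReal

namespace BilEnt

noncomputable section

namespace S12_aux

/-- perturbation of a quadratic form -/
theorem quad_pert {r s a b c a' b' b'' c' η : ℝ} (ha : |a - a'| ≤ η) (hb : |b - b'| ≤ η)
    (hb' : |b - b''| ≤ η) (hc : |c - c'| ≤ η) :
    r ^ 2 * a' + r * s * (b' + b'') + s ^ 2 * c' ≤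
      (r ^ 2 * a + 2 * (r * s) * b + s ^ 2 * c) + 2 * η * (r ^ 2 + s ^ 2) := by
  rw [abs_le] at ha hb hb' hc
  have h1 : r ^ 2 * a' ≤ r ^ 2 * a + r ^ 2 * η := by nlinarith [sq_nonneg r]
  have h2 : s ^ 2 * c' ≤ s ^ 2 * c + s ^ 2 * η := by nlinarith [sq_nonneg s]
  have hη : 0 ≤ η := by linarith
  have h3 : r * s * (b' + b'') ≤ 2 * (r * s) * b + 2 * |r * s| * η := by
    have h4 : r * s * (b' + b'' - 2 * b) ≤ |r * s| * (2 * η) := by
      refine (le_abs_self _).trans ?_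
      rw [abs_mul]
      refine mul_le_mul_of_nonneg_left ?_ (abs_nonneg _)
      rw [abs_le]
      constructor <;> linarith
    nlinarith
  have h5 : 2 * |r * s| ≤ r ^ 2 + s ^ 2 := by
    rw [abs_mul]
    nlinarith [sq_nonneg (|r| - |s|), sq_abs r, sq_abs s]
  nlinarith [mul_le_mul_of_nonneg_right h5 hη]

theorem two_sqrt_le {lam : ℝ} (hlam : 0 < lam) (k : ℕ) :
    2 * √(k : ℝ) ≤ lam * k + 1 / lam := by
  have h1 : √(k : ℝ) ^ 2 = k := Real.sq_sqrt (Nat.cast_nonneg k)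
  have h2 : 0 ≤ √(k : ℝ) := Real.sqrt_nonneg _
  have h3 : 0 ≤ (lam * √(k : ℝ) - 1) ^ 2 / lam := by positivity
  have h4 : (lam * √(k : ℝ) - 1) ^ 2 / lam = lam * √(k : ℝ) ^ 2 - 2 * √(k : ℝ) + 1 / lam := by
    field_simp
    ring
  rw [h4, h1] at h3
  linarith

theorem cK_pos {lam K : ℝ} (hlam : 0 < lam) : 0 < cK lam K := by
  unfold cK
  apply div_pos (exp_pos _)
  have : exp (-(7 / 4 * lam)) < 1 := by
    rw [exp_lt_one_iff]
    linarith
  linarith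

end S12_aux

open S12_aux

/-- POINTWISE LOWER BOUND.

PROOF.  Let `R = ac T M l y`, `N = ac T M k (Ti^[k] y)`, `v = vd (PL y)`, `x = R *ᵥ v`.  Then
`x 0 ^ 2 + x 1 ^ 2 = tr (R P Rᵀ)` with `P = PL y = v vᵀ`.  Replace `P` by `P_k = Pm N`: the entries differ by
at most `η := cK lam K * exp (-(7/4 lam (k+1)))` (`s_PL_rate`), so the trace changes by at most
`η ∑ i (|R i 0| + |R i 1|)² ≤ 2 η fn R ^ 2`.  And `tr (R P_k Rᵀ) = fn (R * N)² / fn N²`
(`s_Pm_mul_trace`), where `R * N = ac T M (k + l) (Ti^[k] y)` (`s_ac_add`, `s_iter_ri`), so by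
`s_Dn_spec` (with `n = k`, `l ≤ k`, `l' = k`) `fn (R N) ≥ fn R * fn N * exp (-Dn k y)`. -/
theorem s_growth_aux {Y : Type*} {T Ti : Y → Y} {M : Y → Matrix (Fin 2) (Fin 2) ℝ}
    (hri : ∀ y, T (Ti y) = y) (hdet : ∀ y, (M y).det = 1) {lam K : ℝ} (hlam : 0 < lam) {y : Y}
    (h : GP T Ti M lam K y) {l k : ℕ} (hlk : l ≤ k) :
    fn (ac T M l y) ^ 2 * (exp (-(2 * Dn T Ti M k y))
        - 2 * (cK lam K * exp (-(7 / 4 * lam * (k + 1))))) ≤
      (ac T M l y *ᵥ vd (PL T Ti M y)) 0 ^ 2 + (ac T M l y *ᵥ vd (PL T Ti M y)) 1 ^ 2 := by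
  set R := ac T M l y with hR
  set N := ac T M k (Ti^[k] y) with hN
  set P := PL T Ti M y with hP
  set η := cK lam K * exp (-(7 / 4 * lam * (k + 1))) with hη
  have hRd : R.det = 1 := s_det_ac hdet l y
  have hNd : N.det = 1 := s_det_ac hdet k _
  have hPr : IsPr P := s_PL_isPr hri hdet hlam h
  have hrate : ∀ i j, |P i j - Pm N i j| ≤ η := fun i j => s_PL_rate hri hdet hlam h i j k
  have hv := s_vd_proj hPr
  have hRN : ac T M (k + l) (Ti^[k] y) = R * N := by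
    rw [s_ac_add, s_iter_ri hri]
  -- the trace of `R P Rᵀ`
  have hx : (R *ᵥ vd P) 0 ^ 2 + (R *ᵥ vd P) 1 ^ 2 =
      (R 0 0 ^ 2 * P 0 0 + 2 * (R 0 0 * R 0 1) * P 0 1 + R 0 1 ^ 2 * P 1 1) +
      (R 1 0 ^ 2 * P 0 0 + 2 * (R 1 0 * R 1 1) * P 0 1 + R 1 1 ^ 2 * P 1 1) := by
    rw [← hv 0 0, ← hv 0 1, ← hv 1 1]
    simp only [Matrix.mulVec, dotProduct, Fin.sum_univ_two]
    ring
  have htr := s_Pm_mul_trace hRd hNd
  have htr' : (R * Pm N * Rᵀ) 0 0 + (R * Pm N * Rᵀ) 1 1 =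
      (R 0 0 ^ 2 * Pm N 0 0 + R 0 0 * R 0 1 * (Pm N 0 1 + Pm N 1 0) + R 0 1 ^ 2 * Pm N 1 1) +
      (R 1 0 ^ 2 * Pm N 0 0 + R 1 0 * R 1 1 * (Pm N 0 1 + Pm N 1 0) + R 1 1 ^ 2 * Pm N 1 1) := by
    simp only [Matrix.mul_apply, Fin.sum_univ_two, Matrix.transpose_apply]
    ring
  have h01 : |P 0 1 - Pm N 1 0| ≤ η := by
    rw [← s_Pm_symm]; exact hrate 0 1
  have q0 := quad_pert (r := R 0 0) (s := R 0 1) (hrate 0 0) (hrate 0 1) h01 (hrate 1 1)
  have q1 := quad_pert (r := R 1 0) (s := R 1 1) (hrate 0 0) (hrate 0 1) h01 (hrate 1 1)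
  have hlow : fn (R * N) ^ 2 / fn N ^ 2 ≤
      (R *ᵥ vd P) 0 ^ 2 + (R *ᵥ vd P) 1 ^ 2 + 2 * η * fn R ^ 2 := by
    rw [← htr, htr', hx, s_fn_sq R]
    nlinarith
  -- additivity
  have hD := s_Dn_spec (T := T) (Ti := Ti) (M := M) (n := k) (l := l) (l' := k) hlk le_rfl y
  have hfR := s_fn_pos hRd
  have hfN := s_fn_pos hNd
  have hfRN : 0 < fn (R * N) := s_fn_pos (by rw [Matrix.det_mul, hRd, hNd, one_mul])
  have hmul : fn R * fn N ≤ fn (R * N) * exp (Dn T Ti M k y) := by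
    unfold la at hD
    rw [hRN] at hD
    have := exp_le_exp.2 hD
    rwa [exp_add, exp_add, exp_log hfR, exp_log hfN, exp_log hfRN] at this
  have hlow2 : fn R ^ 2 * exp (-(2 * Dn T Ti M k y)) ≤ fn (R * N) ^ 2 / fn N ^ 2 := by
    rw [le_div_iff₀ (by positivity)]
    have h1 : (fn R * fn N) ^ 2 ≤ (fn (R * N) * exp (Dn T Ti M k y)) ^ 2 :=
      pow_le_pow_left₀ (by positivity) hmul 2
    have h2 : exp (Dn T Ti M k y) ^ 2 * exp (-(2 * Dn T Ti M k y)) = 1 := by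
      rw [← exp_nat_mul, ← exp_add]
      simp
    have h3 : 0 < exp (-(2 * Dn T Ti M k y)) := exp_pos _
    calc fn R ^ 2 * exp (-(2 * Dn T Ti M k y)) * fn N ^ 2
        = (fn R * fn N) ^ 2 * exp (-(2 * Dn T Ti M k y)) := by ring
      _ ≤ (fn (R * N) * exp (Dn T Ti M k y)) ^ 2 * exp (-(2 * Dn T Ti M k y)) :=
        mul_le_mul_of_nonneg_right h1 h3.le
      _ = fn (R * N) ^ 2 * (exp (Dn T Ti M k y) ^ 2 * exp (-(2 * Dn T Ti M k y))) := by ring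
      _ = fn (R * N) ^ 2 := by rw [h2, mul_one]
  have : fn R ^ 2 * (exp (-(2 * Dn T Ti M k y)) - 2 * η) =
      fn R ^ 2 * exp (-(2 * Dn T Ti M k y)) - 2 * η * fn R ^ 2 := by ring
  rw [this]
  linarith

/-- the exponentially small term is eventually dominated. PROOF: `√k = o(k)`. -/
theorem s_choose_k0 {lam K : ℝ} (hlam : 0 < lam) :
    ∃ k0 : ℕ, ∀ k : ℕ, k0 ≤ k →
      8 * (cK lam K * exp (-(7 / 4 * lam * (k + 1)))) ≤ exp (-(2 * (√(k : ℝ) + K))) := by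
  have hc := cK_pos (K := K) hlam
  refine ⟨⌈(log (8 * cK lam K) + 2 * K + 1 / lam) / (3 / 4 * lam)⌉₊, fun k hk => ?_⟩
  have h1 : (log (8 * cK lam K) + 2 * K + 1 / lam) / (3 / 4 * lam) ≤ k :=
    (Nat.le_ceil _).trans (Nat.cast_le.2 hk)
  rw [div_le_iff₀ (by positivity)] at h1
  have h2 : 8 * (cK lam K * exp (-(7 / 4 * lam * (k + 1)))) =
      exp (log (8 * cK lam K) + -(7 / 4 * lam * (k + 1))) := by
    rw [exp_add, exp_log (by positivity)]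
    ring
  rw [h2]
  apply exp_le_exp.2
  have h3 := two_sqrt_le hlam k
  nlinarith

/-- GROWTH.  PROOF.  Let `k0` be from `s_choose_k0` and `k = max l k0`.  `s_growth_aux` and `Dn k y ≤ √k + K`:
`|R v|² ≥ fn R ^ 2 * (1/2) exp (-2 (√k + K)) ≥ (1/2) exp (2 (lam l - K)) exp (-2 (√l + √k0 + K))`
(`fn R = exp (la) ≥ exp (lam l - K)`), and `2 √l ≤ lam l + 1 / lam`.  So
`C = 2 exp (4 K + 2 √k0 + 1 / lam)` works (increase it to be `≥ 1`). -/
theorem s_growth {lam K : ℝ} (hlam : 0 < lam) :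
    ∃ C : ℝ, 1 ≤ C ∧ ∀ {Y : Type*} {T Ti : Y → Y} {M : Y → Matrix (Fin 2) (Fin 2) ℝ}
      (_ : ∀ y, T (Ti y) = y) (_ : ∀ y, (M y).det = 1) {y : Y} (_ : GP T Ti M lam K y) (l : ℕ),
      C⁻¹ * exp (lam * l) ≤
        (ac T M l y *ᵥ vd (PL T Ti M y)) 0 ^ 2 + (ac T M l y *ᵥ vd (PL T Ti M y)) 1 ^ 2 := by
  obtain ⟨k0, hk0⟩ := s_choose_k0 (lam := lam) (K := K) hlam
  refine ⟨max 1 (2 * exp (4 * K + 2 * √(k0 : ℝ) + 1 / lam)), le_max_left _ _, ?_⟩
  intro Y T Ti M hri hdet y h l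
  set k := max l k0 with hk
  have h1 := s_growth_aux hri hdet hlam h (l := l) (k := k) (le_max_left _ _)
  have h2 := hk0 k (le_max_right _ _)
  have h3 := h.d k
  have hfR := s_fn_pos (s_det_ac (T := T) hdet l y)
  have h4 : exp (lam * l - K) ≤ fn (ac T M l y) := by
    have := exp_le_exp.2 (h.f l)
    unfold la at this
    rwa [exp_log hfR] at this
  have h5 : exp (-(2 * (√(k : ℝ) + K))) ≤ exp (-(2 * Dn T Ti M k y)) :=
    exp_le_exp.2 (by linarith)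
  have h6 : √(k : ℝ) ≤ √(l : ℝ) + √(k0 : ℝ) := by
    rw [hk]
    rcases le_total l k0 with hle | hle
    · rw [max_eq_right hle]
      linarith [Real.sqrt_nonneg (l : ℝ)]
    · rw [max_eq_left hle]
      linarith [Real.sqrt_nonneg (k0 : ℝ)]
  have h7 := two_sqrt_le hlam l
  have h8 : 1 / 2 * exp (-(2 * (√(k : ℝ) + K))) ≤ exp (-(2 * Dn T Ti M k y))
        - 2 * (cK lam K * exp (-(7 / 4 * lam * (k + 1)))) := by
    have := exp_pos (-(2 * (√(k : ℝ) + K)))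
    linarith
  have h9 : exp (2 * (lam * l - K)) ≤ fn (ac T M l y) ^ 2 := by
    have := pow_le_pow_left₀ (exp_pos _).le h4 2
    rwa [← exp_nat_mul] at this
  have h10 : exp (2 * (lam * l - K)) * (1 / 2 * exp (-(2 * (√(k : ℝ) + K)))) ≤
      fn (ac T M l y) ^ 2 * (exp (-(2 * Dn T Ti M k y))
        - 2 * (cK lam K * exp (-(7 / 4 * lam * (k + 1))))) :=
    mul_le_mul h9 h8 (by positivity) (by positivity)
  refine le_trans ?_ (h10.trans h1)
  have h11 : (max 1 (2 * exp (4 * K + 2 * √(k0 : ℝ) + 1 / lam)))⁻¹ ≤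
      1 / 2 * exp (-(4 * K + 2 * √(k0 : ℝ) + 1 / lam)) := by
    have : 1 / 2 * exp (-(4 * K + 2 * √(k0 : ℝ) + 1 / lam)) =
        (2 * exp (4 * K + 2 * √(k0 : ℝ) + 1 / lam))⁻¹ := by
      rw [exp_neg, mul_inv]
      ring
    rw [this]
    exact inv_anti₀ (by positivity) (le_max_right _ _)
  calc (max 1 (2 * exp (4 * K + 2 * √(k0 : ℝ) + 1 / lam)))⁻¹ * exp (lam * l)
      ≤ 1 / 2 * exp (-(4 * K + 2 * √(k0 : ℝ) + 1 / lam)) * exp (lam * l) :=
        mul_le_mul_of_nonneg_right h11 (exp_pos _).le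
    _ = 1 / 2 * exp (-(4 * K + 2 * √(k0 : ℝ) + 1 / lam) + lam * l) := by rw [exp_add]; ring
    _ ≤ 1 / 2 * exp (2 * (lam * l - K) + -(2 * (√(k : ℝ) + K))) := by
        apply mul_le_mul_of_nonneg_left _ (by norm_num)
        apply exp_le_exp.2
        linarith
    _ = exp (2 * (lam * l - K)) * (1 / 2 * exp (-(2 * (√(k : ℝ) + K)))) := by
        rw [exp_add]; ring

end

end BilEnt
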