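import Mathlib

/-!
# MP_bd32bb_an, part V: an abstract covering lemma (V3)
-/

open MeasureTheory Metric Set

namespace BilEnt

namespace PV

/-- (V3), abstract form: if every point `A` of `B ⊆ [A1, A2]` has a radius `0 < r A ≤ R` such that
the part of `B` within distance `r A` of `A` has measure at most `κ * r A`, then
`|B| ≤ (5 κ / 2) (A2 - A1 + 2 R)`. -/
theorem cover_bound (B : Set ℝ) (A1 A2 R κ : ℝ) (hB : B ⊆ Icc A1 A2) (hR : 0 < R) (hκ : 0 ≤ κ)
    (r : ℝ → ℝ) (hr0 : ∀ A ∈ B, 0 < r A) (hrR : ∀ A ∈ B, r A ≤ R)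
    (hm : ∀ A ∈ B, volume (B ∩ closedBall A (r A)) ≤ ENNReal.ofReal (κ * r A)) :
    volume B ≤ ENNReal.ofReal (5 * κ / 2 * (A2 - A1 + 2 * R)) := by
  obtain ⟨T, hTB, hdis, hcov⟩ := Vitali.exists_disjoint_subfamily_covering_enlargement_closedBall
    B (fun A => A) (fun A => r A / 5) (R / 5) (fun A hA => by have := hrR A hA; linarith) 5
    (by norm_num)
  have hcount : T.Countable := by
    refine hdis.countable_of_nonempty_interior ?_
    intro A hA
    rw [interior_closedBall _ (by have := hr0 A (hTB hA); positivity)]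
    exact ⟨A, mem_ball_self (by have := hr0 A (hTB hA); positivity)⟩
  -- measure of `B`
  have h1 : B ⊆ ⋃ A ∈ T, B ∩ closedBall A (r A) := by
    intro x hx
    obtain ⟨b, hb, hsub⟩ := hcov x hx
    have hxb : x ∈ closedBall b (5 * (r b / 5)) := by
      apply hsub
      exact mem_closedBall_self (by have := hr0 x hx; positivity)
    have e : 5 * (r b / 5) = r b := by ring
    rw [e] at hxb
    exact mem_biUnion hb ⟨hx, hxb⟩
  have h2 : volume B ≤ ∑' A : T, volume (B ∩ closedBall (A : ℝ) (r A)) := by
    calc volume B ≤ volume (⋃ A ∈ T, B ∩ closedBall A (r A)) := measure_mono h1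
      _ ≤ _ := measure_biUnion_le _ hcount _
  -- total length of the disjoint small balls
  have h3 : ∑' A : T, volume (closedBall (A : ℝ) (r A / 5)) ≤ ENNReal.ofReal (A2 - A1 + 2 * R) := by
    have := measure_biUnion (μ := (volume : Measure ℝ)) hcount
      (f := fun A => closedBall (A : ℝ) (r A / 5)) hdis (fun A _ => measurableSet_closedBall)
    rw [← this]
    calc volume (⋃ A ∈ T, closedBall A (r A / 5)) ≤ volume (Icc (A1 - R) (A2 + R)) := by
          apply measure_mono
          refine iUnion₂_subset ?_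
          intro A hA x hx
          have hAB := hB (hTB hA)
          have hxA := hx
          rw [mem_closedBall, Real.dist_eq, abs_le] at hxA
          have := hrR A (hTB hA)
          have := hr0 A (hTB hA)
          constructor
          · have := hAB.1; linarith [hxA.1]
          · have := hAB.2; linarith [hxA.2]
      _ = ENNReal.ofReal (A2 - A1 + 2 * R) := by
          rw [Real.volume_Icc]; congr 1; ring
  -- comparison
  have h4 : ∀ A : T, volume (B ∩ closedBall (A : ℝ) (r A)) ≤
      ENNReal.ofReal (5 * κ / 2) * volume (closedBall (A : ℝ) (r A / 5)) := by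
    intro A
    refine (hm A (hTB A.2)).trans ?_
    rw [Real.volume_closedBall, ← ENNReal.ofReal_mul (by positivity)]
    apply ENNReal.ofReal_le_ofReal
    apply le_of_eq; ring
  calc volume B ≤ ∑' A : T, volume (B ∩ closedBall (A : ℝ) (r A)) := h2
    _ ≤ ∑' A : T, ENNReal.ofReal (5 * κ / 2) * volume (closedBall (A : ℝ) (r A / 5)) :=
        ENNReal.tsum_le_tsum h4
    _ = ENNReal.ofReal (5 * κ / 2) * ∑' A : T, volume (closedBall (A : ℝ) (r A / 5)) :=
        ENNReal.tsum_mul_left
    _ ≤ ENNReal.ofReal (5 * κ / 2) * ENNReal.ofReal (A2 - A1 + 2 * R) := by gcongr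
    _ = ENNReal.ofReal (5 * κ / 2 * (A2 - A1 + 2 * R)) := by
        rw [← ENNReal.ofReal_mul (by positivity)]

end PV

end BilEnt
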