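import Pool.Agent.BilEnt.Defs

/-!
# MP_bd32bb_an, part V: telescoping estimate (V1, linear algebra) and (V4)
-/

namespace BilEnt

namespace PV

open Matrix

lemma mprod_zero (M : ℕ → Matrix (Fin 2) (Fin 2) ℝ) (a : ℕ) : mprod M a 0 = 1 := rfl

lemma mprod_succ (M : ℕ → Matrix (Fin 2) (Fin 2) ℝ) (a k : ℕ) :
    mprod M a (k + 1) = M (a + k) * mprod M a k := rfl

lemma mprod_succ_left (M : ℕ → Matrix (Fin 2) (Fin 2) ℝ) (a k : ℕ) :
    mprod M a (k + 1) = mprod M (a + 1) k * M a := by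
  induction k with
  | zero => simp [mprod_succ, mprod_zero]
  | succ k ih =>
    rw [mprod_succ M a (k + 1), ih, mprod_succ M (a + 1) k, Matrix.mul_assoc]
    congr 2
    ring

lemma mprod_shift (M : ℕ → Matrix (Fin 2) (Fin 2) ℝ) (a b k : ℕ) :
    mprod (fun t => M (a + t)) b k = mprod M (a + b) k := by
  induction k with
  | zero => rfl
  | succ k ih => rw [mprod_succ, mprod_succ, ih, add_assoc]

lemma Y_rec (g H : ℕ → ℝ) (j : ℕ) :
    mprod (fun t => BF (g t) (H t)) 0 (j + 1) 0 1 =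
      -mprod (fun t => BF (g t) (H t)) 0 j 0 1 +
        H j * mprod (fun t => BF (g t) (H t)) 0 j 1 1 := by
  rw [mprod_succ, Matrix.mul_apply, Fin.sum_univ_two]
  simp [BF]

lemma Z_rec (g H : ℕ → ℝ) (j : ℕ) :
    mprod (fun t => BF (g t) (H t)) 0 (j + 1) 1 1 =
      -g j * mprod (fun t => BF (g t) (H t)) 0 j 0 1 +
        (g j * H j - 1) * mprod (fun t => BF (g t) (H t)) 0 j 1 1 := by
  rw [mprod_succ, Matrix.mul_apply, Fin.sum_univ_two]
  simp [BF]

/-- the difference of two one-step matrices, sandwiched -/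
lemma sandwich (R E S : Matrix (Fin 2) (Fin 2) ℝ) (ϖ : ℝ) (hE : ∀ a b, |E a b| ≤ ϖ) :
    |(R * E * S) 0 1| ≤ rn R 0 * ϖ * cn S 1 := by
  have h : (R * E * S) 0 1 = R 0 0 * E 0 0 * S 0 1 + R 0 1 * E 1 0 * S 0 1 +
      R 0 0 * E 0 1 * S 1 1 + R 0 1 * E 1 1 * S 1 1 := by
    rw [Matrix.mul_apply, Fin.sum_univ_two, Matrix.mul_apply, Fin.sum_univ_two,
      Matrix.mul_apply, Fin.sum_univ_two]
    ring
  rw [h]
  have e1 : |R 0 0 * E 0 0 * S 0 1| ≤ |R 0 0| * ϖ * |S 0 1| := by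
    rw [abs_mul, abs_mul]; gcongr; exact hE 0 0
  have e2 : |R 0 1 * E 1 0 * S 0 1| ≤ |R 0 1| * ϖ * |S 0 1| := by
    rw [abs_mul, abs_mul]; gcongr; exact hE 1 0
  have e3 : |R 0 0 * E 0 1 * S 1 1| ≤ |R 0 0| * ϖ * |S 1 1| := by
    rw [abs_mul, abs_mul]; gcongr; exact hE 0 1
  have e4 : |R 0 1 * E 1 1 * S 1 1| ≤ |R 0 1| * ϖ * |S 1 1| := by
    rw [abs_mul, abs_mul]; gcongr; exact hE 1 1
  have t1 := abs_add_le (R 0 0 * E 0 0 * S 0 1 + R 0 1 * E 1 0 * S 0 1 + R 0 0 * E 0 1 * S 1 1)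
    (R 0 1 * E 1 1 * S 1 1)
  have t2 := abs_add_le (R 0 0 * E 0 0 * S 0 1 + R 0 1 * E 1 0 * S 0 1) (R 0 0 * E 0 1 * S 1 1)
  have t3 := abs_add_le (R 0 0 * E 0 0 * S 0 1) (R 0 1 * E 1 0 * S 0 1)
  have : rn R 0 * ϖ * cn S 1 = |R 0 0| * ϖ * |S 0 1| + |R 0 1| * ϖ * |S 0 1| +
      |R 0 0| * ϖ * |S 1 1| + |R 0 1| * ϖ * |S 1 1| := by
    unfold rn cn; ring
  rw [this]
  linarith

/-- one step backwards costs at most `5 m ^ 2` -/
lemma cn_back (m : ℝ) (hm : 1 ≤ m) (g H : ℕ → ℝ) (j : ℕ) (hH : |H j| ≤ m) (hg : |g j| ≤ m) :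
    cn (mprod (fun t => BF (g t) (H t)) 0 j) 1 ≤
      5 * m ^ 2 * cn (mprod (fun t => BF (g t) (H t)) 0 (j + 1)) 1 := by
  unfold cn
  have hY := Y_rec g H j
  have hZ := Z_rec g H j
  set Y := mprod (fun t => BF (g t) (H t)) 0 j 0 1
  set Z := mprod (fun t => BF (g t) (H t)) 0 j 1 1
  set Y1 := mprod (fun t => BF (g t) (H t)) 0 (j + 1) 0 1
  set Z1 := mprod (fun t => BF (g t) (H t)) 0 (j + 1) 1 1
  have eZ : Z = g j * Y1 - Z1 := by rw [hY, hZ]; ring
  have eY : Y = (H j * g j - 1) * Y1 - H j * Z1 := by rw [hY, hZ]; ring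
  have b1 : |Z| ≤ m * |Y1| + |Z1| := by
    rw [eZ]
    calc |g j * Y1 - Z1| ≤ |g j * Y1| + |Z1| := abs_sub _ _
      _ ≤ m * |Y1| + |Z1| := by rw [abs_mul]; gcongr
  have b2 : |Y| ≤ (m * m + 1) * |Y1| + m * |Z1| := by
    rw [eY]
    calc |(H j * g j - 1) * Y1 - H j * Z1| ≤ |(H j * g j - 1) * Y1| + |H j * Z1| := abs_sub _ _
      _ ≤ (m * m + 1) * |Y1| + m * |Z1| := by
        rw [abs_mul, abs_mul]
        gcongr
        calc |H j * g j - 1| ≤ |H j * g j| + |(1 : ℝ)| := abs_sub _ _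
          _ ≤ m * m + 1 := by rw [abs_mul, abs_one]; gcongr
  have hY1 := abs_nonneg Y1
  have hZ1 := abs_nonneg Z1
  have hm2 : m ≤ m ^ 2 := by nlinarith
  have h3 : m * |Y1| ≤ m ^ 2 * |Y1| := by gcongr
  have h4 : m * |Z1| ≤ m ^ 2 * |Z1| := by gcongr
  have h5 : |Y1| ≤ m ^ 2 * |Y1| := by nlinarith
  have h6 : |Z1| ≤ m ^ 2 * |Z1| := by nlinarith
  nlinarith

/-- the primed column is controlled by the unprimed one -/
lemma cn_prime (m : ℝ) (hm : 1 ≤ m) (g H g' H' : ℕ → ℝ) (j : ℕ)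
    (hH : ∀ i < j, |H i| ≤ m) (hg : ∀ i < j, |g i| ≤ m)
    (hH1' : ∀ i < j, 1 / m ≤ H' i) (hg' : ∀ i < j, |g' i| ≤ m)
    (hY : ∀ i ≤ j, |mprod (fun t => BF (g' t) (H' t)) 0 i 0 1 -
      mprod (fun t => BF (g t) (H t)) 0 i 0 1| ≤
      |mprod (fun t => BF (g t) (H t)) 0 i 0 1| / 10) :
    cn (mprod (fun t => BF (g' t) (H' t)) 0 j) 1 ≤
      20 * m ^ 3 * cn (mprod (fun t => BF (g t) (H t)) 0 j) 1 := by
  have hm3 : 1 ≤ m ^ 3 := one_le_pow₀ hm
  rcases j with _ | j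
  · simp only [mprod_zero]
    have : 0 ≤ cn (1 : Matrix (Fin 2) (Fin 2) ℝ) 1 := by unfold cn; positivity
    nlinarith
  · have hb := cn_back m hm g H j (hH j (Nat.lt_succ_self j)) (hg j (Nat.lt_succ_self j))
    have hYr := Y_rec g' H' j
    have hZr := Z_rec g' H' j
    have c1 := hY j (Nat.le_succ j)
    have c2 := hY (j + 1) le_rfl
    have hH' := hH1' j (Nat.lt_succ_self j)
    have hgj := hg' j (Nat.lt_succ_self j)
    unfold cn at hb ⊢
    set Y := mprod (fun t => BF (g t) (H t)) 0 j 0 1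
    set Z := mprod (fun t => BF (g t) (H t)) 0 j 1 1
    set Y1 := mprod (fun t => BF (g t) (H t)) 0 (j + 1) 0 1
    set Z1 := mprod (fun t => BF (g t) (H t)) 0 (j + 1) 1 1
    set Y' := mprod (fun t => BF (g' t) (H' t)) 0 j 0 1
    set Z' := mprod (fun t => BF (g' t) (H' t)) 0 j 1 1
    set Y1' := mprod (fun t => BF (g' t) (H' t)) 0 (j + 1) 0 1
    set Z1' := mprod (fun t => BF (g' t) (H' t)) 0 (j + 1) 1 1
    have d1 : |Y'| ≤ 11 / 10 * |Y| := by
      have := abs_sub_abs_le_abs_sub Y' Y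
      linarith
    have d2 : |Y1'| ≤ 11 / 10 * |Y1| := by
      have := abs_sub_abs_le_abs_sub Y1' Y1
      linarith
    have eZ1 : Z1' = g' j * Y1' - Z' := by rw [hYr, hZr]; ring
    have hHpos : 0 < H' j := lt_of_lt_of_le (by positivity) hH'
    have eZ : |Z'| ≤ m * (|Y1'| + |Y'|) := by
      have e : H' j * Z' = Y1' + Y' := by rw [hYr]; ring
      have e2 : H' j * |Z'| ≤ |Y1'| + |Y'| := by
        calc H' j * |Z'| = |H' j * Z'| := by rw [abs_mul, abs_of_pos hHpos]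
          _ = |Y1' + Y'| := by rw [e]
          _ ≤ _ := abs_add_le _ _
      have e3 : 1 / m * |Z'| ≤ |Y1'| + |Y'| := by
        refine le_trans ?_ e2
        gcongr
      have hmpos : 0 < m := by linarith
      calc |Z'| = m * (1 / m * |Z'|) := by field_simp
        _ ≤ m * (|Y1'| + |Y'|) := by gcongr
    have f1 : |Z1'| ≤ m * |Y1'| + m * (|Y1'| + |Y'|) := by
      rw [eZ1]
      calc |g' j * Y1' - Z'| ≤ |g' j * Y1'| + |Z'| := abs_sub _ _
        _ ≤ _ := by rw [abs_mul]; gcongr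
    have f2 : |Y'| ≤ 11 / 10 * (5 * m ^ 2 * (|Y1| + |Z1|)) := by
      have := abs_nonneg Z
      linarith
    have hY1 := abs_nonneg Y1
    have hZ1 := abs_nonneg Z1
    have hm2 : 1 ≤ m ^ 2 := one_le_pow₀ hm
    have f3 : m * |Y1'| ≤ m * (11 / 10 * |Y1|) := by gcongr
    have f4 : m * |Y'| ≤ m * (11 / 10 * (5 * m ^ 2 * (|Y1| + |Z1|))) := by gcongr
    have f5 : m * |Y1| ≤ m ^ 3 * |Y1| := by
      have : m ≤ m ^ 3 := by nlinarith
      gcongr
    have f6 : |Y1| ≤ m ^ 3 * |Y1| := by nlinarith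
    have f7 : 0 ≤ m ^ 3 * |Z1| := by positivity
    have f8 : 0 ≤ m ^ 3 * |Y1| := by positivity
    have f9 : m * (11 / 10 * (5 * m ^ 2 * (|Y1| + |Z1|))) = 11 / 2 * (m ^ 3 * |Y1|) +
      11 / 2 * (m ^ 3 * |Z1|) := by ring
    nlinarith

/-- (V1), linear algebra: telescoping estimate for the entry `(0,1)` -/
theorem tele (m ϖ χ : ℝ) (t : ℕ) (g H g' H' : ℕ → ℝ) (hm : 1 ≤ m) (hϖ : 0 ≤ ϖ) (hχ : 0 < χ)
    (hH : ∀ j ≤ t, |H j| ≤ m) (hg : ∀ j ≤ t, |g j| ≤ m)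
    (hH1' : ∀ j < t, 1 / m ≤ H' j) (hg' : ∀ j < t, |g' j| ≤ m)
    (hdH : ∀ j ≤ t, |H' j - H j| ≤ ϖ) (hdg : ∀ j < t, |g' j - g j| ≤ ϖ)
    (hdgH : ∀ j < t, |g' j * H' j - g j * H j| ≤ ϖ)
    (hq : ∀ j ≤ t + 1, χ * rn (mprod (fun t => BF (g t) (H t)) j (t + 1 - j)) 0 *
      cn (mprod (fun t => BF (g t) (H t)) 0 j) 1 ≤
      |mprod (fun t => BF (g t) (H t)) 0 (t + 1) 0 1|)
    (hY : ∀ j ≤ t, |mprod (fun t => BF (g' t) (H' t)) 0 j 0 1 -
      mprod (fun t => BF (g t) (H t)) 0 j 0 1| ≤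
      |mprod (fun t => BF (g t) (H t)) 0 j 0 1| / 10) :
    |mprod (fun t => BF (g' t) (H' t)) 0 (t + 1) 0 1 -
      mprod (fun t => BF (g t) (H t)) 0 (t + 1) 0 1| ≤
      (t + 1) * (100 * m ^ 5 * ϖ / χ * |mprod (fun t => BF (g t) (H t)) 0 (t + 1) 0 1|) := by
  set M : ℕ → Matrix (Fin 2) (Fin 2) ℝ := fun t => BF (g t) (H t) with hM
  set M' : ℕ → Matrix (Fin 2) (Fin 2) ℝ := fun t => BF (g' t) (H' t) with hM'
  set X : ℝ := |mprod M 0 (t + 1) 0 1| with hX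
  -- intermediate products
  let D : ℕ → ℝ := fun j => (mprod M j (t + 1 - j) * mprod M' 0 j) 0 1
  have hD0 : D 0 = mprod M 0 (t + 1) 0 1 := by simp [D, mprod_zero]
  have hD1 : D (t + 1) = mprod M' 0 (t + 1) 0 1 := by simp [D, mprod_zero]
  have hstep : ∀ j ≤ t, |D (j + 1) - D j| ≤ 100 * m ^ 5 * ϖ / χ * X := by
    intro j hj
    have e1 : D (j + 1) - D j = (mprod M (j + 1) (t - j) * (M' j - M j) * mprod M' 0 j) 0 1 := by
      have e2 : t + 1 - j = (t - j) + 1 := by omega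
      have e3 : t + 1 - (j + 1) = t - j := by omega
      simp only [D]
      rw [e2, e3, mprod_succ_left M j (t - j), mprod_succ M' 0 j, zero_add, Matrix.mul_sub,
        Matrix.sub_mul, Matrix.sub_apply, Matrix.mul_assoc (mprod M (j + 1) (t - j)) (M' j)]
    have hc1 : cn (mprod M' 0 j) 1 ≤ 20 * m ^ 3 * cn (mprod M 0 j) 1 :=
      cn_prime m hm g H g' H' j (fun i hi => hH i (by omega)) (fun i hi => hg i (by omega))
        (fun i hi => hH1' i (by omega)) (fun i hi => hg' i (by omega))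
        (fun i hi => hY i (by omega))
    have hc2 : cn (mprod M 0 j) 1 ≤ 5 * m ^ 2 * cn (mprod M 0 (j + 1)) 1 :=
      cn_back m hm g H j (hH j hj) (hg j hj)
    have hc3 : cn (mprod M' 0 j) 1 ≤ 100 * m ^ 5 * cn (mprod M 0 (j + 1)) 1 := by
      calc cn (mprod M' 0 j) 1 ≤ 20 * m ^ 3 * cn (mprod M 0 j) 1 := hc1
        _ ≤ 20 * m ^ 3 * (5 * m ^ 2 * cn (mprod M 0 (j + 1)) 1) := by gcongr
        _ = _ := by ring
    have hq1 : rn (mprod M (j + 1) (t - j)) 0 * cn (mprod M 0 (j + 1)) 1 ≤ X / χ := by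
      have := hq (j + 1) (by omega)
      have e3 : t + 1 - (j + 1) = t - j := by omega
      rw [e3] at this
      rw [le_div_iff₀ hχ]
      calc _ = χ * rn (mprod M (j + 1) (t - j)) 0 * cn (mprod M 0 (j + 1)) 1 := by ring
        _ ≤ _ := this
    have hrn0 : 0 ≤ rn (mprod M (j + 1) (t - j)) 0 := by unfold rn; positivity
    have key : |(mprod M (j + 1) (t - j) * (M' j - M j) * mprod M' 0 j) 0 1| ≤
        rn (mprod M (j + 1) (t - j)) 0 * ϖ * cn (mprod M' 0 j) 1 := by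
      rcases Nat.lt_or_ge j t with hjt | hjt
      · apply sandwich
        intro a b
        have h1 := hdH j hj
        have h2 := hdg j hjt
        have h3 := hdgH j hjt
        fin_cases a <;> fin_cases b
        · simp [hM, hM', BF, hϖ]
        · simpa [hM, hM', BF] using h1
        · have : |g j - g' j| ≤ ϖ := by rw [abs_sub_comm]; exact h2
          have e : -g' j + g j = g j - g' j := by ring
          simpa [hM, hM', BF, e] using this
        · simpa [hM, hM', BF] using h3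
      · have hjt' : j = t := by omega
        subst hjt'
        have h1 := hdH j hj
        simp only [Nat.sub_self, mprod_zero, Matrix.one_mul]
        have e : ((M' j - M j) * mprod M' 0 j) 0 1 = (H' j - H j) * mprod M' 0 j 1 1 := by
          rw [Matrix.mul_apply, Fin.sum_univ_two]
          simp [hM, hM', BF]
        rw [e, abs_mul]
        have r1 : rn (1 : Matrix (Fin 2) (Fin 2) ℝ) 0 = 1 := by simp [rn]
        rw [r1, one_mul]
        apply mul_le_mul h1 _ (abs_nonneg _) hϖ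
        unfold cn
        linarith [abs_nonneg (mprod M' 0 j 0 1)]
    rw [e1]
    calc _ ≤ rn (mprod M (j + 1) (t - j)) 0 * ϖ * cn (mprod M' 0 j) 1 := key
      _ ≤ rn (mprod M (j + 1) (t - j)) 0 * ϖ * (100 * m ^ 5 * cn (mprod M 0 (j + 1)) 1) := by
        gcongr
      _ = 100 * m ^ 5 * ϖ * (rn (mprod M (j + 1) (t - j)) 0 * cn (mprod M 0 (j + 1)) 1) := by
        ring
      _ ≤ 100 * m ^ 5 * ϖ * (X / χ) := by gcongr
      _ = _ := by ring
  have hsum : ∀ j ≤ t + 1, |D j - D 0| ≤ j * (100 * m ^ 5 * ϖ / χ * X) := by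
    intro j
    induction j with
    | zero => intro _; simp
    | succ j ih =>
      intro hj
      have h1 := ih (by omega)
      have h2 := hstep j (by omega)
      have h3 : |D (j + 1) - D 0| ≤ |D (j + 1) - D j| + |D j - D 0| := abs_sub_le _ _ _
      push_cast
      linarith
  have := hsum (t + 1) le_rfl
  rw [hD0, hD1] at this
  push_cast at this
  exact this

/-- determinant of the one-step matrices -/
lemma det_BF (g H : ℝ) : (BF g H).det = 1 := by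
  simp [BF, Matrix.det_fin_two]; ring

lemma det_mprod (M : ℕ → Matrix (Fin 2) (Fin 2) ℝ) (hM : ∀ t, (M t).det = 1) (a k : ℕ) :
    (mprod M a k).det = 1 := by
  induction k with
  | zero => simp [mprod_zero]
  | succ k ih => rw [mprod_succ, Matrix.det_mul, hM, ih, one_mul]

/-- the entries of a unimodular matrix have total absolute value at least one -/
lemma cn_sum_ge (A : Matrix (Fin 2) (Fin 2) ℝ) (hA : A.det = 1) : 1 ≤ cn A 0 + cn A 1 := by
  rw [Matrix.det_fin_two] at hA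
  by_contra hlt
  push Not at hlt
  unfold cn at hlt
  have a0 := abs_nonneg (A 0 0)
  have a1 := abs_nonneg (A 0 1)
  have a2 := abs_nonneg (A 1 0)
  have a3 := abs_nonneg (A 1 1)
  have h1 : |A 0 0 * A 1 1| ≤ |A 0 0| := by
    rw [abs_mul]; nlinarith
  have h2 : |A 0 1 * A 1 0| ≤ |A 0 1| := by
    rw [abs_mul]; nlinarith
  have h3 : (1 : ℝ) ≤ |A 0 0 * A 1 1| + |A 0 1 * A 1 0| := by
    calc (1 : ℝ) = |A 0 0 * A 1 1 - A 0 1 * A 1 0| := by rw [hA, abs_one]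
      _ ≤ _ := abs_sub _ _
  linarith

/-- (V4), second part: lower bound for the first row of the tail products -/
lemma rn_ge (M : ℕ → Matrix (Fin 2) (Fin 2) ℝ) (hM : ∀ t, (M t).det = 1) (χ : ℝ) (hχ : 0 ≤ χ)
    (t l : ℕ) (hQ : QMs (fun j => M (t + j)) χ l) : χ ≤ rn (mprod M t l) 0 := by
  have h0 := hQ l le_rfl 0 0
  have h1 := hQ l le_rfl 0 1
  simp only [Nat.sub_self, mprod_zero] at h0 h1
  rw [mprod_shift, Nat.add_zero] at h0 h1
  have r1 : rn (1 : Matrix (Fin 2) (Fin 2) ℝ) 0 = 1 := by simp [rn]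
  rw [r1, mul_one] at h0 h1
  have h2 := cn_sum_ge (mprod M t l) (det_mprod M hM t l)
  unfold rn
  nlinarith

end PV

end BilEnt
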